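import Pool.Agent.Work.MP_c8d35c_al.RDefs

/-! Definitions used in the statement: lattices, arithmetic subgroups, reflection groups. -/

namespace Pool.Agent.Work.MP_c8d35c_al

open Matrix MeasureTheory

/-- A lattice in a topological group: a discrete subgroup `Γ` such that `G = Γ F` for a set `F`
of finite Haar measure. -/
def IsLattice {G : Type} [Group G] [TopologicalSpace G] (Γ : Subgroup G) : Prop :=
  DiscreteTopology Γ ∧ ∃ μ : @Measure G (borel G), @Measure.IsHaarMeasure G _ _ (borel G) μ ∧
    ∃ F : Set G, μ F < ⊤ ∧ ∀ g : G, ∃ γ ∈ Γ, γ * g ∈ F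

/-- An arithmetic subgroup `Δ` of a topological group `G`: there are a linear algebraic group
`Hc ≤ GL(N, ℂ)` defined by polynomial equations `I` with rational coefficients, a subgroup `H` of
finite index in its group of real points, and a continuous homomorphism `φ : H → G` with compact
kernel and image of finite index, such that `Δ` is commensurable with `φ (H ∩ GL(N, ℤ))`. -/
def IsArithmetic {G : Type} [Group G] [TopologicalSpace G] (Δ : Subgroup G) : Prop :=
  ∃ (N : ℕ) (I : Set (MvPolynomial (Fin N × Fin N) ℚ)) (Hc : Subgroup (GL (Fin N) ℂ))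
    (H : Subgroup (GL (Fin N) ℝ)) (φ : H →* G),
    (∀ g, g ∈ Hc ↔ ∀ p ∈ I, MvPolynomial.aeval (fun ij => g.val ij.1 ij.2) p = 0) ∧
    H ≤ Hc.comap (GeneralLinearGroup.map (algebraMap ℝ ℂ)) ∧
    H.relIndex (Hc.comap (GeneralLinearGroup.map (algebraMap ℝ ℂ))) ≠ 0 ∧
    Continuous φ ∧ IsCompact (φ.ker : Set H) ∧ φ.range.index ≠ 0 ∧
    Subgroup.Commensurable Δ
      (((GeneralLinearGroup.map (n := Fin N) (Int.castRingHom ℝ)).range.subgroupOf H).map φ)

/-- A reflection group: a discrete group of isometries of hyperbolic space that is generated by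
reflections. -/
def IsReflGroup {n : ℕ} (Δ : Subgroup (isomH n)) : Prop :=
  DiscreteTopology Δ ∧ ∃ S : Set (isomH n), (∀ g ∈ S, IsRefl g.val) ∧ Δ = Subgroup.closure S

end Pool.Agent.Work.MP_c8d35c_al
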