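import Pool.Agent.Work.MP_c8d35c_al.RDefs
import Mathlib
import Pool.Agent.Work.MP_c8d35c_al.GDefs

-- merged part: Pool.Agent.Work.MP_c8d35c_al.GWd
section
-- merged part: Pool.Agent.Work.MP_c8d35c_al.RBase
section
/-! Basic Lorentzian linear algebra. -/

namespace Pool.Agent.Work.MP_c8d35c_al

open Matrix MeasureTheory

variable {n : ℕ}

lemma lor_comm (x y : Fin (n + 1) → ℝ) : lor x y = lor y x := by
  simp only [lor, mul_comm]

lemma lor_add_left (x y z : Fin (n + 1) → ℝ) : lor (x + y) z = lor x z + lor y z := by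
  simp only [lor, Pi.add_apply, add_mul, Finset.sum_add_distrib]; ring

lemma lor_add_right (x y z : Fin (n + 1) → ℝ) : lor x (y + z) = lor x y + lor x z := by
  simp only [lor, Pi.add_apply, mul_add, Finset.sum_add_distrib]; ring

lemma lor_smul_left (c : ℝ) (x y : Fin (n + 1) → ℝ) : lor (c • x) y = c * lor x y := by
  simp only [lor, Pi.smul_apply, smul_eq_mul, mul_add, Finset.mul_sum, mul_assoc]; ring

lemma lor_smul_right (c : ℝ) (x y : Fin (n + 1) → ℝ) : lor x (c • y) = c * lor x y := by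
  rw [lor_comm, lor_smul_left, lor_comm]

lemma lor_neg_left (x y : Fin (n + 1) → ℝ) : lor (-x) y = -lor x y := by
  rw [← neg_one_smul ℝ x, lor_smul_left]; ring

lemma lor_neg_right (x y : Fin (n + 1) → ℝ) : lor x (-y) = -lor x y := by
  rw [lor_comm, lor_neg_left, lor_comm]

lemma lor_sub_left (x y z : Fin (n + 1) → ℝ) : lor (x - y) z = lor x z - lor y z := by
  rw [sub_eq_add_neg, lor_add_left, lor_neg_left]; ring

lemma lor_sub_right (x y z : Fin (n + 1) → ℝ) : lor x (y - z) = lor x y - lor x z := by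
  rw [sub_eq_add_neg, lor_add_right, lor_neg_right]; ring

lemma lor_zero_left (x : Fin (n + 1) → ℝ) : lor 0 x = 0 := by simp [lor]

lemma lor_zero_right (x : Fin (n + 1) → ℝ) : lor x 0 = 0 := by simp [lor]

lemma lor_eq_dot (x y : Fin (n + 1) → ℝ) : lor x y = x ⬝ᵥ (lorMat n *ᵥ y) := by
  simp [lor, lorMat, dotProduct, Matrix.mulVec_diagonal, Fin.sum_univ_succ]

lemma continuous_lor : Continuous fun p : (Fin (n + 1) → ℝ) × (Fin (n + 1) → ℝ) => lor p.1 p.2 := by
  unfold lor; fun_prop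

/-- The base point of hyperbolic space. -/
def e0 (n : ℕ) : Fin (n + 1) → ℝ := Pi.single 0 1

lemma lor_e0 (x : Fin (n + 1) → ℝ) : lor x (e0 n) = -x 0 := by
  simp [lor, e0]

lemma e0_mem : e0 n ∈ hyp n := by
  refine ⟨by rw [lor_e0]; simp [e0], by simp [e0]⟩

lemma lor_single_succ (x : Fin (n + 1) → ℝ) (i : Fin n) :
    lor x (Pi.single i.succ 1) = x i.succ := by
  simp [lor, Pi.single_apply]

lemma eq_zero_of_lor (x : Fin (n + 1) → ℝ) (h : ∀ y, lor x y = 0) : x = 0 := by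
  funext i
  refine Fin.cases ?_ (fun j => ?_) i
  · have := h (e0 n); rw [lor_e0] at this; simpa using this
  · simpa [lor_single_succ] using h (Pi.single j.succ 1)

lemma one_le_of_mem_hyp {x : Fin (n + 1) → ℝ} (hx : x ∈ hyp n) : 1 ≤ x 0 := by
  have h1 := hx.1
  have h2 := hx.2
  have : 0 ≤ ∑ i : Fin n, x i.succ * x i.succ := Finset.sum_nonneg fun i _ => mul_self_nonneg _
  simp only [lor] at h1
  nlinarith only [h1, this, h2]

lemma abs_le_of_mem_hyp {x : Fin (n + 1) → ℝ} (hx : x ∈ hyp n) (i : Fin (n + 1)) :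
    |x i| ≤ x 0 := by
  refine Fin.cases ?_ (fun j => ?_) i
  · rw [abs_of_pos hx.2]
  · have h1 := hx.1
    have h2 := hx.2
    have : x j.succ * x j.succ ≤ ∑ i : Fin n, x i.succ * x i.succ :=
      Finset.single_le_sum (f := fun i : Fin n => x i.succ * x i.succ)
        (fun i _ => mul_self_nonneg _) (Finset.mem_univ j)
    simp only [lor] at h1
    exact abs_le_of_sq_le_sq' (by nlinarith only [h1, this]) h2.le |> abs_le.mpr

lemma rbase_orth {x : Fin (n + 1) → ℝ} (hx : x ∈ hyp n) {a : Fin (n + 1) → ℝ}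
    (h : lor a x = 0) : ∑ i : Fin n, a i.succ ^ 2 ≤ lor a a * x 0 ^ 2 := by
  have cs := Finset.sum_mul_sq_le_sq_mul_sq Finset.univ (fun i : Fin n => a i.succ)
    (fun i : Fin n => x i.succ)
  have h1 := hx.1
  simp only [lor] at h h1 ⊢
  have e1 : ∑ i : Fin n, x i.succ ^ 2 = x 0 ^ 2 - 1 := by
    simp only [sq]; linarith
  have e2 : ∑ i : Fin n, a i.succ * x i.succ = a 0 * x 0 := by linarith
  have e3 : ∑ i : Fin n, a i.succ * a i.succ = ∑ i : Fin n, a i.succ ^ 2 := by simp only [sq]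
  rw [e1, e2] at cs
  rw [e3]
  nlinarith only [cs]

/-- The form `lor a a + (lor a x)^2` is non-negative for `x` in hyperbolic space. -/
lemma maj_nonneg {x : Fin (n + 1) → ℝ} (hx : x ∈ hyp n) (a : Fin (n + 1) → ℝ) :
    0 ≤ lor a a + lor a x ^ 2 := by
  have h := rbase_orth hx (a := a + lor a x • x) (by
    rw [lor_add_left, lor_smul_left, hx.1]; ring)
  have e : lor (a + lor a x • x) (a + lor a x • x) = lor a a + lor a x ^ 2 := by
    rw [lor_add_left, lor_add_right, lor_add_right, lor_smul_left, lor_smul_left, lor_smul_right,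
      lor_smul_right, hx.1, lor_comm x a]
    ring
  rw [e] at h
  have h2 : 0 ≤ ∑ i : Fin n, (a + lor a x • x) i.succ ^ 2 :=
    Finset.sum_nonneg fun i _ => sq_nonneg _
  have h3 : 0 < x 0 ^ 2 := pow_pos hx.2 2
  by_contra hn
  have := mul_neg_of_neg_of_pos (not_le.1 hn) h3
  linarith

/-- A vector orthogonal to a point of hyperbolic space is zero or space-like. -/
lemma lor_pos_of_orth {x : Fin (n + 1) → ℝ} (hx : x ∈ hyp n) {a : Fin (n + 1) → ℝ}
    (ha : a ≠ 0) (h : lor a x = 0) : 0 < lor a a := by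
  have h1 := rbase_orth hx h
  have h3 : 0 < x 0 ^ 2 := pow_pos hx.2 2
  by_contra hn
  have h4 : lor a a * x 0 ^ 2 ≤ 0 := mul_nonpos_of_nonpos_of_nonneg (not_lt.1 hn) h3.le
  have h5 : ∀ i : Fin n, a i.succ = 0 := fun i => by
    have : a i.succ ^ 2 ≤ ∑ i : Fin n, a i.succ ^ 2 :=
      Finset.single_le_sum (f := fun i : Fin n => a i.succ ^ 2) (fun i _ => sq_nonneg _)
        (Finset.mem_univ i)
    exact pow_eq_zero_iff two_ne_zero |>.1 (le_antisymm (by linarith) (sq_nonneg _))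
  apply ha
  funext i
  refine Fin.cases ?_ (fun j => h5 j) i
  simp only [lor, h5, zero_mul, Finset.sum_const_zero, add_zero, neg_eq_zero] at h
  exact (mul_eq_zero.1 h).resolve_right hx.2.ne'

/-- Cauchy-Schwarz in the orthogonal complement of `x`. -/
lemma maj_cs {x : Fin (n + 1) → ℝ} (hx : x ∈ hyp n) (a b : Fin (n + 1) → ℝ) :
    (lor a b + lor a x * lor b x) ^ 2 ≤ (lor a a + lor a x ^ 2) * (lor b b + lor b x ^ 2) := by
  have h : ∀ t : ℝ, 0 ≤ (lor b b + lor b x ^ 2) * (t * t) +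
      2 * (lor a b + lor a x * lor b x) * t + (lor a a + lor a x ^ 2) := fun t => by
    have := maj_nonneg hx (a + t • b)
    simp only [lor_add_left, lor_add_right, lor_smul_left, lor_smul_right, lor_comm b a] at this
    nlinarith only [this]
  have := discrim_le_zero h
  rw [discrim] at this
  nlinarith only [this]

lemma rbase_abs {x y : Fin (n + 1) → ℝ} (hx : x ∈ hyp n) (hy : y ∈ hyp n) :
    |∑ i : Fin n, x i.succ * y i.succ| < x 0 * y 0 := by
  have cs := Finset.sum_mul_sq_le_sq_mul_sq Finset.univ (fun i : Fin n => x i.succ)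
    (fun i : Fin n => y i.succ)
  have h1 := hx.1
  have h2 := hy.1
  simp only [lor] at h1 h2
  have e1 : ∑ i : Fin n, x i.succ ^ 2 = x 0 ^ 2 - 1 := by
    simp only [sq]; linarith
  have e2 : ∑ i : Fin n, y i.succ ^ 2 = y 0 ^ 2 - 1 := by
    simp only [sq]; linarith
  rw [e1, e2] at cs
  have a1 := one_le_of_mem_hyp hx
  have a2 := one_le_of_mem_hyp hy
  refine abs_lt_of_sq_lt_sq ?_ (mul_pos hx.2 hy.2).le
  nlinarith only [cs, a1, a2]

lemma rbase_lor_neg {x y : Fin (n + 1) → ℝ} (hx : x ∈ hyp n) (hy : y ∈ hyp n) :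
    lor x y < 0 := by
  have := (abs_lt.1 (rbase_abs hx hy)).2
  simp only [lor]
  linarith

lemma lor_le_neg_one {x y : Fin (n + 1) → ℝ} (hx : x ∈ hyp n) (hy : y ∈ hyp n) :
    lor x y ≤ -1 := by
  have h1 := maj_nonneg hy x
  rw [hx.1] at h1
  have h2 := rbase_lor_neg hx hy
  nlinarith only [h1, h2]

lemma mem_hyp_of_lor_neg {x z : Fin (n + 1) → ℝ} (hx : x ∈ hyp n) (hz : lor z z = -1)
    (h : lor z x < 0) : z ∈ hyp n := by
  refine ⟨hz, ?_⟩
  by_contra hneg
  have hne : z 0 ≠ 0 := by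
    intro h0
    have : 0 ≤ ∑ i : Fin n, z i.succ * z i.succ :=
      Finset.sum_nonneg fun i _ => mul_self_nonneg _
    simp only [lor, h0] at hz
    linarith
  have hlt : 0 < (-z) 0 := by
    simp only [Pi.neg_apply]
    have := lt_of_le_of_ne (not_lt.mp hneg) hne
    linarith
  have hm : -z ∈ hyp n := ⟨by rw [lor_neg_left, lor_neg_right, neg_neg, hz], hlt⟩
  have := rbase_lor_neg hm hx
  rw [lor_neg_left] at this
  linarith

lemma neg_lor_le {x y : Fin (n + 1) → ℝ} (hx : x ∈ hyp n) (hy : y ∈ hyp n) :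
    -lor x y ≤ 2 * x 0 * y 0 := by
  have := (abs_lt.1 (rbase_abs hx hy)).1
  simp only [lor]
  linarith

/-- A hyperplane separating `x` from `y` is close to `x`. -/
lemma sq_le_of_sep {x y e : Fin (n + 1) → ℝ} (hx : x ∈ hyp n) (hy : y ∈ hyp n)
    (he : lor e e = 1) (h : lor e x * lor e y ≤ 0) : lor e x ^ 2 ≤ lor x y ^ 2 - 1 := by
  have h1 := maj_cs hx e y
  rw [he, hy.1, lor_comm y x] at h1
  have h2 := lor_le_neg_one hx hy
  have h3 : 0 ≤ lor e x * lor e y * lor x y := mul_nonneg_of_nonpos_of_nonpos h (by linarith)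
  have h4 : (lor e x * lor x y) ^ 2 ≤ (1 + lor e x ^ 2) * (-1 + lor x y ^ 2) := by
    nlinarith only [h1, h3, sq_nonneg (lor e y)]
  nlinarith only [h4]

lemma isomH_lor {g : GL (Fin (n + 1)) ℝ} (hg : g ∈ isomH n) (x y : Fin (n + 1) → ℝ) :
    lor (g.val *ᵥ x) (g.val *ᵥ y) = lor x y := hg.1 x y

lemma isomH_hyp {g : GL (Fin (n + 1)) ℝ} (hg : g ∈ isomH n) {x : Fin (n + 1) → ℝ}
    (hx : x ∈ hyp n) : g.val *ᵥ x ∈ hyp n := hg.2 x hx

lemma gl_mul_mulVec (g h : GL (Fin (n + 1)) ℝ) (x : Fin (n + 1) → ℝ) :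
    (g * h).val *ᵥ x = g.val *ᵥ (h.val *ᵥ x) := by
  rw [Units.val_mul, Matrix.mulVec_mulVec]

lemma gl_inv_mulVec (g : GL (Fin (n + 1)) ℝ) (x : Fin (n + 1) → ℝ) :
    (g⁻¹).val *ᵥ (g.val *ᵥ x) = x := by
  rw [← gl_mul_mulVec, inv_mul_cancel, Units.val_one, Matrix.one_mulVec]

lemma gl_mulVec_inv (g : GL (Fin (n + 1)) ℝ) (x : Fin (n + 1) → ℝ) :
    g.val *ᵥ ((g⁻¹).val *ᵥ x) = x := by
  rw [← gl_mul_mulVec, mul_inv_cancel, Units.val_one, Matrix.one_mulVec]

lemma gl_ext {g h : GL (Fin (n + 1)) ℝ} (H : ∀ x, g.val *ᵥ x = h.val *ᵥ x) : g = h := by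
  apply Units.ext
  ext i j
  have := congrFun (H (Pi.single j 1)) i
  simpa [Matrix.mulVec_single_one] using this

lemma isomH_lor_inv {g : GL (Fin (n + 1)) ℝ} (hg : g ∈ isomH n) (x y : Fin (n + 1) → ℝ) :
    lor (g.val *ᵥ x) y = lor x ((g⁻¹).val *ᵥ y) := by
  rw [← isomH_lor hg x, gl_mulVec_inv]

/-- A matrix preserves the Lorentz form iff `gᵀ J g = J`. -/
lemma lor_mulVec_iff (g : Matrix (Fin (n + 1)) (Fin (n + 1)) ℝ) :
    (∀ x y, lor (g *ᵥ x) (g *ᵥ y) = lor x y) ↔ gᵀ * lorMat n * g = lorMat n := by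
  have key : ∀ x y, lor (g *ᵥ x) (g *ᵥ y) = x ⬝ᵥ ((gᵀ * lorMat n * g) *ᵥ y) := fun x y => by
    rw [lor_eq_dot, ← Matrix.mulVec_mulVec, ← Matrix.mulVec_mulVec,
      Matrix.dotProduct_mulVec x gᵀ, Matrix.vecMul_transpose]
  constructor
  · intro h
    ext i j
    have := h (Pi.single i 1) (Pi.single j 1)
    rw [key, lor_eq_dot] at this
    simpa [Matrix.mulVec_single_one] using this
  · intro h x y
    rw [key, h, lor_eq_dot]

lemma abs_det_of_mem_isomH {g : GL (Fin (n + 1)) ℝ} (hg : g ∈ isomH n) : |g.val.det| = 1 := by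
  have h := congrArg Matrix.det ((lor_mulVec_iff g.val).1 hg.1)
  have hJ : (lorMat n).det ≠ 0 := by
    rw [lorMat, Matrix.det_diagonal]
    refine Finset.prod_ne_zero_iff.2 fun i _ => ?_
    split_ifs <;> norm_num
  rw [Matrix.det_mul, Matrix.det_mul, Matrix.det_transpose] at h
  have h2 : g.val.det ^ 2 = 1 ^ 2 := by
    apply mul_right_cancel₀ hJ
    linear_combination h
  simpa using sq_eq_sq_iff_abs_eq_abs _ _ |>.1 h2

/-- A form-preserving map or its negative preserves the upper sheet. -/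
lemma mem_isomH_or_neg {g : GL (Fin (n + 1)) ℝ}
    (hg : ∀ x y, lor (g.val *ᵥ x) (g.val *ᵥ y) = lor x y) : g ∈ isomH n ∨ -g ∈ isomH n := by
  have key : ∀ g : GL (Fin (n + 1)) ℝ, (∀ x y, lor (g.val *ᵥ x) (g.val *ᵥ y) = lor x y) →
      0 < (g.val *ᵥ e0 n) 0 → g ∈ isomH n := fun g hg h0 => by
    have hz : g.val *ᵥ e0 n ∈ hyp n := ⟨by rw [hg]; exact e0_mem.1, h0⟩
    refine ⟨hg, fun x hx => mem_hyp_of_lor_neg hz (by rw [hg]; exact hx.1) ?_⟩
    rw [hg]
    exact rbase_lor_neg hx e0_mem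
  rcases lt_trichotomy 0 ((g.val *ᵥ e0 n) 0) with h | h | h
  · exact Or.inl (key g hg h)
  · exfalso
    have hz : lor (g.val *ᵥ e0 n) (g.val *ᵥ e0 n) = -1 := by rw [hg]; exact e0_mem.1
    have : 0 ≤ ∑ i : Fin n, (g.val *ᵥ e0 n) i.succ * (g.val *ᵥ e0 n) i.succ :=
      Finset.sum_nonneg fun i _ => mul_self_nonneg _
    simp only [lor, ← h] at hz
    linarith
  · refine Or.inr (key (-g) (fun x y => ?_) ?_)
    · rw [Units.val_neg, Matrix.neg_mulVec, Matrix.neg_mulVec, lor_neg_left, lor_neg_right,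
        neg_neg, hg]
    · rw [Units.val_neg, Matrix.neg_mulVec, Pi.neg_apply]
      linarith

lemma rbase_refl_mulVec (e x : Fin (n + 1) → ℝ) :
    (1 - (2 / lor e e) • Matrix.vecMulVec e (lorMat n *ᵥ e)) *ᵥ x =
      x - (2 * lor x e / lor e e) • e := by
  rw [Matrix.sub_mulVec, Matrix.one_mulVec, Matrix.smul_mulVec, Matrix.vecMulVec_mulVec,
    dotProduct_comm, ← lor_eq_dot]
  congr 1
  funext i
  simp only [Pi.smul_apply, smul_eq_mul, MulOpposite.smul_eq_mul_unop, MulOpposite.unop_op]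
  ring

lemma rbase_refl_sq (e : Fin (n + 1) → ℝ) :
    (1 - (2 / lor e e) • Matrix.vecMulVec e (lorMat n *ᵥ e)) *
      (1 - (2 / lor e e) • Matrix.vecMulVec e (lorMat n *ᵥ e)) = 1 := by
  have h : ∀ x, ((1 - (2 / lor e e) • Matrix.vecMulVec e (lorMat n *ᵥ e)) *
      (1 - (2 / lor e e) • Matrix.vecMulVec e (lorMat n *ᵥ e))) *ᵥ x = x := fun x => by
    rw [← Matrix.mulVec_mulVec, rbase_refl_mulVec, rbase_refl_mulVec, lor_sub_left, lor_smul_left,
      sub_sub, ← add_smul]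
    by_cases he : lor e e = 0
    · simp [he]
    · have : 2 * lor x e / lor e e + 2 * (lor x e - 2 * lor x e / lor e e * lor e e) / lor e e
          = 0 := by
        field_simp
        ring
      rw [this, zero_smul, sub_zero]
  ext i j
  have := congrFun (h (Pi.single j 1)) i
  rw [Matrix.mulVec_single_one] at this
  rw [Matrix.one_apply, ← Pi.single_apply]
  exact this

/-- The reflection in `e` as an invertible matrix (the identity if `e` is isotropic). -/
noncomputable def refl (e : Fin (n + 1) → ℝ) : GL (Fin (n + 1)) ℝ :=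
  ⟨1 - (2 / lor e e) • Matrix.vecMulVec e (lorMat n *ᵥ e),
   1 - (2 / lor e e) • Matrix.vecMulVec e (lorMat n *ᵥ e), rbase_refl_sq e, rbase_refl_sq e⟩

lemma refl_mulVec (e x : Fin (n + 1) → ℝ) :
    (refl e).val *ᵥ x = x - (2 * lor x e / lor e e) • e := by
  exact rbase_refl_mulVec e x

lemma refl_mulVec_unit {e : Fin (n + 1) → ℝ} (he : lor e e = 1) (x : Fin (n + 1) → ℝ) :
    (refl e).val *ᵥ x = x - (2 * lor x e) • e := by
  rw [refl_mulVec, he, div_one]

lemma refl_mul_self (e : Fin (n + 1) → ℝ) : refl e * refl e = 1 := Units.ext (refl e).val_inv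

lemma refl_inv (e : Fin (n + 1) → ℝ) : (refl e)⁻¹ = refl e :=
  inv_eq_of_mul_eq_one_right (refl_mul_self e)

lemma refl_mem_isomH {e : Fin (n + 1) → ℝ} (he : 0 < lor e e) : refl e ∈ isomH n := by
  have hl : ∀ x y, lor ((refl e).val *ᵥ x) ((refl e).val *ᵥ y) = lor x y := fun x y => by
    rw [refl_mulVec, refl_mulVec]
    simp only [lor_sub_left, lor_sub_right, lor_smul_left, lor_smul_right, lor_comm e y]
    field_simp
    ring
  refine ⟨hl, fun x hx => mem_hyp_of_lor_neg hx (by rw [hl]; exact hx.1) ?_⟩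
  rw [refl_mulVec, lor_sub_left, lor_smul_left, hx.1, lor_comm e x]
  have : 0 ≤ 2 * lor x e / lor e e * lor x e := by
    rw [div_mul_eq_mul_div, mul_assoc]
    exact div_nonneg (mul_nonneg zero_le_two (mul_self_nonneg _)) he.le
  linarith only [this]

lemma refl_smul {c : ℝ} (hc : c ≠ 0) (e : Fin (n + 1) → ℝ) : refl (c • e) = refl e := by
  refine gl_ext fun x => ?_
  rw [refl_mulVec, refl_mulVec, lor_smul_left, lor_smul_right, lor_smul_right, smul_smul]
  congr 2
  by_cases he : lor e e = 0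
  · simp [he]
  · field_simp

lemma refl_neg (e : Fin (n + 1) → ℝ) : refl (-e) = refl e := by
  rw [← neg_one_smul ℝ e, refl_smul (by norm_num)]

lemma isRefl_iff (g : GL (Fin (n + 1)) ℝ) : IsRefl g ↔ ∃ e, lor e e = 1 ∧ g = refl e := by
  constructor
  · rintro ⟨e, he, h⟩
    have hs : 0 < √(lor e e) := Real.sqrt_pos.2 he
    refine ⟨(√(lor e e))⁻¹ • e, ?_, ?_⟩
    · rw [lor_smul_left, lor_smul_right]
      have := Real.mul_self_sqrt he.le
      field_simp
      nlinarith only [this]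
    · rw [refl_smul (inv_ne_zero hs.ne')]
      exact gl_ext fun x => by rw [h, refl_mulVec]
  · rintro ⟨e, he, rfl⟩
    exact ⟨e, by rw [he]; exact one_pos, refl_mulVec e⟩

lemma conj_refl {g : GL (Fin (n + 1)) ℝ} (hg : g ∈ isomH n) (e : Fin (n + 1) → ℝ) :
    g * refl e * g⁻¹ = refl (g.val *ᵥ e) := by
  refine gl_ext fun x => ?_
  rw [gl_mul_mulVec, gl_mul_mulVec, refl_mulVec, refl_mulVec, Matrix.mulVec_sub,
    Matrix.mulVec_smul, gl_mulVec_inv, isomH_lor hg, lor_comm x, isomH_lor_inv hg,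
    lor_comm e ((g⁻¹).val *ᵥ x)]

lemma eq_or_neg_of_refl_eq {e e' : Fin (n + 1) → ℝ} (he : lor e e = 1) (he' : lor e' e' = 1)
    (h : refl e = refl e') : e' = e ∨ e' = -e := by
  have h1 : (refl e).val *ᵥ e = (refl e').val *ᵥ e := by rw [h]
  rw [refl_mulVec_unit he, refl_mulVec_unit he', he] at h1
  have h2 : e = lor e e' • e' := by
    funext i
    have := congrFun h1 i
    simp only [Pi.sub_apply, Pi.smul_apply, smul_eq_mul] at this ⊢
    linarith only [this]
  have h3 : lor e e' * lor e e' = 1 := by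
    have h4 := he
    rw [h2, lor_smul_left, lor_smul_right, he', mul_one] at h4
    exact h4
  rcases mul_self_eq_one_iff.1 h3 with h4 | h4
  · rw [h4, one_smul] at h2
    exact Or.inl h2.symm
  · rw [h4, neg_one_smul] at h2
    exact Or.inr (by rw [h2, neg_neg])

lemma closure_le_isomH {S : Set (GL (Fin (n + 1)) ℝ)} (hS : ∀ g ∈ S, IsRefl g) :
    Subgroup.closure S ≤ isomH n := by
  rw [Subgroup.closure_le]
  intro g hg
  obtain ⟨e, he, rfl⟩ := (isRefl_iff g).1 (hS g hg)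
  exact refl_mem_isomH (by rw [he]; exact one_pos)

lemma rbase_swap {u v : Fin (n + 1) → ℝ} (h : lor (u - v) (u - v) ≠ 0)
    (he : lor u u = lor v v) : (refl (u - v)).val *ᵥ v = u := by
  have h1 : lor (u - v) (u - v) = -(2 * lor v (u - v)) := by
    rw [lor_sub_left, lor_sub_right, lor_sub_right, he, lor_comm u v]
    ring
  have h2 : 2 * lor v (u - v) / lor (u - v) (u - v) = -1 := by
    rw [div_eq_iff h, h1]
    ring
  rw [refl_mulVec, h2, neg_one_smul, sub_neg_eq_add, add_sub_cancel]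

/-- The isometry group is transitive on hyperbolic space. -/
lemma exists_isom_e0 {x : Fin (n + 1) → ℝ} (hx : x ∈ hyp n) :
    ∃ g ∈ isomH n, g.val *ᵥ e0 n = x := by
  by_cases h : x = e0 n
  · exact ⟨1, one_mem _, by rw [h, Units.val_one, Matrix.one_mulVec]⟩
  · have h1 : lor (x - e0 n) (x - e0 n) = 2 * (x 0 - 1) := by
      rw [lor_sub_left, lor_sub_right, lor_sub_right, hx.1, e0_mem.1, lor_comm (e0 n) x, lor_e0]
      ring
    have h2 : 1 < x 0 := by
      refine lt_of_le_of_ne (one_le_of_mem_hyp hx) fun h0 => h ?_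
      by_contra hne
      have := lor_pos_of_orth e0_mem (sub_ne_zero.2 hne) (by
        rw [lor_sub_left, e0_mem.1, lor_e0, ← h0]; ring)
      rw [h1, ← h0] at this
      linarith
    refine ⟨refl (x - e0 n), refl_mem_isomH (by rw [h1]; linarith), ?_⟩
    exact rbase_swap (by rw [h1]; linarith) (by rw [hx.1, e0_mem.1])

/-- The isometry group is transitive on unit tangent vectors. -/
lemma exists_isom_frame {o e : Fin (n + 1) → ℝ} (ho : o ∈ hyp n) (he : lor e e = 1)
    (hoe : lor e o = 0) (i : Fin n) :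
    ∃ g ∈ isomH n, g.val *ᵥ e0 n = o ∧ g.val *ᵥ Pi.single i.succ 1 = e := by
  obtain ⟨g, hg, hgo⟩ := exists_isom_e0 ho
  have hg' : g⁻¹ ∈ isomH n := inv_mem hg
  set u := (g⁻¹).val *ᵥ e with hu
  have hu1 : lor u u = 1 := by rw [hu, isomH_lor hg', he]
  have hu0 : lor u (e0 n) = 0 := by
    rw [← isomH_lor hg, hu, gl_mulVec_inv, hgo, hoe]
  have hv1 : lor (Pi.single i.succ 1) (Pi.single i.succ 1 : Fin (n + 1) → ℝ) = 1 := by
    rw [lor_single_succ, Pi.single_eq_same]
  have hv0 : lor (Pi.single i.succ 1) (e0 n) = 0 := by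
    rw [lor_e0, Pi.single_eq_of_ne (Fin.succ_ne_zero i).symm, neg_zero]
  by_cases h : u = Pi.single i.succ 1
  · exact ⟨g, hg, hgo, by rw [← h, hu, gl_mulVec_inv]⟩
  · have h0 : lor (u - Pi.single i.succ 1) (e0 n) = 0 := by
      rw [lor_sub_left, hu0, hv0, sub_zero]
    have hp := lor_pos_of_orth e0_mem (sub_ne_zero.2 h) h0
    refine ⟨g * refl (u - Pi.single i.succ 1), mul_mem hg (refl_mem_isomH hp), ?_, ?_⟩
    · rw [gl_mul_mulVec, refl_mulVec, lor_comm (e0 n), h0, mul_zero, zero_div, zero_smul,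
        sub_zero, hgo]
    · rw [gl_mul_mulVec, rbase_swap hp.ne' (by rw [hu1, hv1]), hu, gl_mulVec_inv]

/-- The unit vectors whose reflection lies in `Γ`. -/
def roots (Γ : Subgroup (GL (Fin (n + 1)) ℝ)) : Set (Fin (n + 1) → ℝ) :=
  {e | lor e e = 1 ∧ refl e ∈ Γ}

lemma neg_mem_roots {Γ : Subgroup (GL (Fin (n + 1)) ℝ)} {e : Fin (n + 1) → ℝ}
    (he : e ∈ roots Γ) : -e ∈ roots Γ :=
  ⟨by rw [lor_neg_left, lor_neg_right, neg_neg]; exact he.1, by rw [refl_neg]; exact he.2⟩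

lemma mulVec_mem_roots {Γ : Subgroup (GL (Fin (n + 1)) ℝ)} (hΓ : Γ ≤ isomH n)
    {g : GL (Fin (n + 1)) ℝ} (hg : g ∈ Γ) {e : Fin (n + 1) → ℝ} (he : e ∈ roots Γ) :
    g.val *ᵥ e ∈ roots Γ :=
  ⟨by rw [isomH_lor (hΓ hg)]; exact he.1, by
    rw [← conj_refl (hΓ hg)]; exact Γ.mul_mem (Γ.mul_mem hg he.2) (Γ.inv_mem hg)⟩

/-- Every point of hyperbolic space can be moved by `Γ` into a fixed ball. -/
def Cocompact (Γ : Subgroup (GL (Fin (n + 1)) ℝ)) : Prop :=
  ∃ ρ : ℝ, ∀ x ∈ hyp n, ∃ g ∈ Γ, (g.val *ᵥ x) 0 ≤ ρ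

lemma Cocompact.of_relIndex {Γ Γ' : Subgroup (GL (Fin (n + 1)) ℝ)} (h : Cocompact Γ)
    (hΓ : Γ ≤ isomH n) (hi : Γ'.relIndex Γ ≠ 0) : Cocompact Γ' := by
  obtain ⟨ρ, hρ⟩ := h
  have : Finite (Γ ⧸ Γ'.subgroupOf Γ) := Nat.finite_of_card_ne_zero hi
  obtain ⟨M, hM⟩ := (Set.finite_range fun q : Γ ⧸ Γ'.subgroupOf Γ =>
    ((q.out : Γ).val.val *ᵥ e0 n) 0).bddAbove
  refine ⟨2 * ρ * M, fun x hx => ?_⟩
  obtain ⟨g, hg, hgx⟩ := hρ x hx
  obtain ⟨k, hk⟩ := QuotientGroup.mk_out_eq_mul (Γ'.subgroupOf Γ) (⟨g, hg⟩ : Γ)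
  set c : Γ := (QuotientGroup.mk (⟨g, hg⟩ : Γ) : Γ ⧸ Γ'.subgroupOf Γ).out with hc
  have hcM : (c.val.val *ᵥ e0 n) 0 ≤ M := hM ⟨_, rfl⟩
  have hk' : (k : Γ).val ∈ Γ' := Subgroup.mem_subgroupOf.1 k.2
  have e1 : ((k : Γ).val)⁻¹ = (c.val)⁻¹ * g := by
    rw [hk]
    simp
  refine ⟨((k : Γ).val)⁻¹, inv_mem hk', ?_⟩
  have hy := isomH_hyp (hΓ hg) hx
  have hz := isomH_hyp (hΓ c.2) (e0_mem (n := n))
  have e2 : ((((k : Γ).val)⁻¹).val *ᵥ x) 0 = -lor (g.val *ᵥ x) (c.val.val *ᵥ e0 n) := by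
    rw [e1, gl_mul_mulVec, lor_comm, isomH_lor_inv (hΓ c.2), lor_comm, lor_e0, neg_neg]
  rw [e2]
  refine (neg_lor_le hy hz).trans ?_
  have a1 := hy.2
  have a2 := hz.2
  have : (g.val *ᵥ x) 0 * (c.val.val *ᵥ e0 n) 0 ≤ ρ * M :=
    mul_le_mul hgx hcM a2.le (a1.le.trans hgx)
  linarith only [this]

/-- Only finitely many mirrors of `Γ` come close to a given point. -/
def LocFin (Γ : Subgroup (GL (Fin (n + 1)) ℝ)) : Prop :=
  ∀ x ∈ hyp n, ∀ T : ℝ, {e ∈ roots Γ | |lor e x| ≤ T}.Finite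

lemma LocFin.countable {Γ : Subgroup (GL (Fin (n + 1)) ℝ)} (h : LocFin Γ) :
    (roots Γ).Countable := by
  have : roots Γ ⊆ ⋃ m : ℕ, {e ∈ roots Γ | |lor e (e0 n)| ≤ m} := fun e he => by
    obtain ⟨m, hm⟩ := exists_nat_ge |lor e (e0 n)|
    exact Set.mem_iUnion.2 ⟨m, he, hm⟩
  exact (Set.countable_iUnion fun m : ℕ => (h _ e0_mem m).countable).mono this

/-- Gaussian-weighted count of the mirrors, uniformly in the base point. -/
def RootBound (Γ : Subgroup (GL (Fin (n + 1)) ℝ)) (Δ l0 : ℝ) : Prop :=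
  ∀ x ∈ hyp n, ∀ l : ℝ, 0 < l → l ≤ l0 → ∀ s : Finset (Fin (n + 1) → ℝ), ↑s ⊆ roots Γ →
    ∑ e ∈ s, Real.exp (-(l * lor e x ^ 2)) ≤ Δ * l ^ (-(((n : ℝ) - 1) / 2))

lemma RootBound.locFin {Γ : Subgroup (GL (Fin (n + 1)) ℝ)} {Δ l0 : ℝ} (h : RootBound Γ Δ l0)
    (hl : 0 < l0) : LocFin Γ := by
  intro x hx T
  by_contra hinf
  have hpos : 0 < Real.exp (-(l0 * T ^ 2)) := Real.exp_pos _
  obtain ⟨m, hm⟩ := exists_nat_gt (Δ * l0 ^ (-(((n : ℝ) - 1) / 2)) / Real.exp (-(l0 * T ^ 2)))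
  obtain ⟨s, hs, hcard⟩ := Set.Infinite.exists_subset_card_eq hinf m
  have h1 := h x hx l0 hl le_rfl s fun e he => (hs he).1
  have h2 : ∑ _e ∈ s, Real.exp (-(l0 * T ^ 2)) ≤ ∑ e ∈ s, Real.exp (-(l0 * lor e x ^ 2)) := by
    refine Finset.sum_le_sum fun e he => Real.exp_le_exp.2 (neg_le_neg ?_)
    refine mul_le_mul_of_nonneg_left ?_ hl.le
    have h3 : |lor e x| ≤ T := (hs he).2
    exact sq_le_sq' (abs_le.1 h3).1 (abs_le.1 h3).2
  rw [Finset.sum_const, hcard, nsmul_eq_mul] at h2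
  rw [div_lt_iff₀ hpos] at hm
  linarith only [hm, h1, h2]

/-- The chamber of `Γ` containing `x0`. -/
def chamber (Γ : Subgroup (GL (Fin (n + 1)) ℝ)) (x0 : Fin (n + 1) → ℝ) :
    Set (Fin (n + 1) → ℝ) :=
  {x | x ∈ hyp n ∧ ∀ e ∈ roots Γ, 0 < lor e x * lor e x0}

/-- The point of hyperbolic space over `y ∈ ℝ^n`. -/
noncomputable def lift (y : Fin n → ℝ) : Fin (n + 1) → ℝ :=
  Fin.cons (√(1 + ∑ i, y i ^ 2)) y

@[simp] lemma lift_zero (y : Fin n → ℝ) : lift y 0 = √(1 + ∑ i, y i ^ 2) := rfl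

@[simp] lemma lift_succ (y : Fin n → ℝ) (i : Fin n) : lift y i.succ = y i := by
  simp [lift]

lemma lift_mem (y : Fin n → ℝ) : lift y ∈ hyp n := by
  have h0 : 0 < 1 + ∑ i, y i ^ 2 :=
    add_pos_of_pos_of_nonneg one_pos (Finset.sum_nonneg fun i _ => sq_nonneg _)
  refine ⟨?_, by rw [lift_zero]; exact Real.sqrt_pos.2 h0⟩
  simp only [lor, lift_zero, lift_succ, Real.mul_self_sqrt h0.le, ← sq]
  ring

lemma lift_tail {x : Fin (n + 1) → ℝ} (hx : x ∈ hyp n) : lift (Fin.tail x) = x := by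
  funext i
  refine Fin.cases ?_ (fun j => by rw [lift_succ]; rfl) i
  have h1 := hx.1
  simp only [lor] at h1
  have e : 1 + ∑ i : Fin n, Fin.tail x i ^ 2 = x 0 ^ 2 := by
    simp only [Fin.tail, sq]
    linarith
  rw [lift_zero, e, Real.sqrt_sq hx.2.le]

lemma continuous_lift : Continuous (lift : (Fin n → ℝ) → Fin (n + 1) → ℝ) := by
  refine continuous_pi fun i => ?_
  refine Fin.cases ?_ (fun j => ?_) i
  · simp only [lift_zero]
    fun_prop
  · simp only [lift_succ]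
    fun_prop

/-- The hyperbolic volume measure, as a measure on `ℝ^(n+1)` carried by the upper sheet. -/
noncomputable def hmu (n : ℕ) : Measure (Fin (n + 1) → ℝ) :=
  (volume.withDensity fun y : Fin n → ℝ => ENNReal.ofReal (1 / √(1 + ∑ i, y i ^ 2))).map lift

lemma lintegral_hmu {f : (Fin (n + 1) → ℝ) → ENNReal} (hf : Measurable f) :
    ∫⁻ x, f x ∂hmu n =
      ∫⁻ y : Fin n → ℝ, ENNReal.ofReal (1 / √(1 + ∑ i, y i ^ 2)) * f (lift y) := by
  rw [hmu, lintegral_map hf continuous_lift.measurable]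
  exact lintegral_withDensity_eq_lintegral_mul _ (by fun_prop)
    (hf.comp continuous_lift.measurable)

lemma measurableSet_hyp : MeasurableSet (hyp n) := by
  have h1 : Continuous fun x : Fin (n + 1) → ℝ => lor x x :=
    continuous_lor.comp (continuous_id.prodMk continuous_id)
  exact (isClosed_eq h1 continuous_const).measurableSet.inter
    (isOpen_lt continuous_const (continuous_apply 0)).measurableSet

lemma ae_mem_hyp : ∀ᵐ x ∂hmu n, x ∈ hyp n := by
  rw [hmu]
  exact (ae_map_iff continuous_lift.measurable.aemeasurable measurableSet_hyp).2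
    (Filter.Eventually.of_forall lift_mem)

instance : SFinite (hmu n) := by unfold hmu; infer_instance

end Pool.Agent.Work.MP_c8d35c_al
end

-- merged part: Pool.Agent.Work.MP_c8d35c_al.GTop
section
/-! Topology of the isometry group.

Plan. `Matrix (Fin m) (Fin m) ℝ` is by definition `Fin m → Fin m → ℝ` with the product topology
(`inferInstanceAs`); `Units.isEmbedding_embedProduct`, `Units.isClosedEmbedding_embedProduct`.
`isClosed_isomH`: `g ∈ isomH n` iff `gᵀ J g = J` (`lor_mulVec_iff`) and `1 ≤ (g e0) 0`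
(`one_le_of_mem_hyp`, `mem_isomH_or_neg`). `entry_le`: `g e0 ∈ hyp`, and `g⁻¹ e0 ∈ hyp` has the
same first coordinate; the columns satisfy `∑ᵢ (g i j)² = 1 + (g 0 j)²`; the first row of `g` is
up to sign the first column of `g⁻¹` (`abs_le_of_mem_hyp`). `isCompact_ball`: the entries of `g`
and `g⁻¹` are bounded. `isomH_uncountable`: `exists_isom_e0`, and `hyp n` contains the points
` (√(1 + t²), t, 0, …)`. `discrete_of_finite`: the set of `g` with `|g i j| < 2` is an open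
neighbourhood of `1` that contains finitely many elements of `Γ`
(`discreteTopology_of_isOpen_singleton_one`). -/

namespace Pool.Agent.Work.MP_c8d35c_al

open Matrix Topology

variable {n : ℕ}

instance gl_secondCountable (m : ℕ) : SecondCountableTopology (GL (Fin m) ℝ) := by
  have : SecondCountableTopology (Matrix (Fin m) (Fin m) ℝ) :=
    inferInstanceAs (SecondCountableTopology (Fin m → Fin m → ℝ))
  have : SecondCountableTopology (Matrix (Fin m) (Fin m) ℝ)ᵐᵒᵖ :=
    MulOpposite.opHomeomorph.symm.isEmbedding.secondCountableTopology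
  exact Units.isEmbedding_embedProduct.secondCountableTopology

instance gl_locallyCompact (m : ℕ) : LocallyCompactSpace (GL (Fin m) ℝ) := by
  have : LocallyCompactSpace (Matrix (Fin m) (Fin m) ℝ) :=
    inferInstanceAs (LocallyCompactSpace (Fin m → Fin m → ℝ))
  have : LocallyCompactSpace (Matrix (Fin m) (Fin m) ℝ)ᵐᵒᵖ :=
    MulOpposite.opHomeomorph.symm.isClosedEmbedding.locallyCompactSpace
  exact Units.isClosedEmbedding_embedProduct.locallyCompactSpace

lemma gtop_cont_mulVec (x : Fin (n + 1) → ℝ) :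
    Continuous fun g : GL (Fin (n + 1)) ℝ => g.val *ᵥ x :=
  Units.continuous_val.matrix_mulVec continuous_const

theorem isClosed_isomH : IsClosed (isomH n : Set (GL (Fin (n + 1)) ℝ)) := by
  have e : (isomH n : Set (GL (Fin (n + 1)) ℝ)) =
      (⋂ x, ⋂ y, {g : GL (Fin (n + 1)) ℝ | lor (g.val *ᵥ x) (g.val *ᵥ y) = lor x y}) ∩
        {g | 1 ≤ (g.val *ᵥ e0 n) 0} := by
    ext g
    simp only [SetLike.mem_coe, Set.mem_inter_iff, Set.mem_iInter, Set.mem_ofPred_eq]
    constructor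
    · intro hg
      exact ⟨isomH_lor hg, one_le_of_mem_hyp (isomH_hyp hg e0_mem)⟩
    · rintro ⟨h1, h2⟩
      rcases mem_isomH_or_neg h1 with h | h
      · exact h
      · have h3 := one_le_of_mem_hyp (isomH_hyp h e0_mem)
        rw [Units.val_neg, Matrix.neg_mulVec, Pi.neg_apply] at h3
        linarith
  rw [e]
  refine IsClosed.inter (isClosed_iInter fun x => isClosed_iInter fun y => ?_) ?_
  · exact isClosed_eq
      (continuous_lor.comp ((gtop_cont_mulVec x).prodMk (gtop_cont_mulVec y))) continuous_const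
  · exact isClosed_le continuous_const ((continuous_apply 0).comp (gtop_cont_mulVec _))

instance isomH_locallyCompact : LocallyCompactSpace (isomH n) := isClosed_isomH.locallyCompactSpace

instance isomH_secondCountable : SecondCountableTopology (isomH n) :=
  TopologicalSpace.Subtype.secondCountableTopology _

theorem continuous_isomH_val : Continuous fun g : isomH n => g.val.val :=
  Units.continuous_val.comp continuous_subtype_val

lemma gtop_inv_zero {g : GL (Fin (n + 1)) ℝ} (hg : g ∈ isomH n) :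
    ((g⁻¹).val *ᵥ e0 n) 0 = (g.val *ᵥ e0 n) 0 := by
  have h1 := isomH_lor_inv hg (e0 n) (e0 n)
  rw [lor_e0, lor_comm, lor_e0] at h1
  linarith

theorem entry_le {g : GL (Fin (n + 1)) ℝ} (hg : g ∈ isomH n) (i j : Fin (n + 1)) :
    |g.val i j| ≤ 2 * (g.val *ᵥ e0 n) 0 := by
  have ha : 1 ≤ (g.val *ᵥ e0 n) 0 := one_le_of_mem_hyp (isomH_hyp hg e0_mem)
  have hcol : ∀ i j, g.val i j = (g.val *ᵥ Pi.single j 1) i := fun i j => by
    simp
  refine Fin.cases ?_ (fun k => ?_) j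
  · have h1 := abs_le_of_mem_hyp (isomH_hyp hg e0_mem) i
    rw [hcol i 0]
    change |(g.val *ᵥ e0 n) i| ≤ _
    linarith
  · set v := g.val *ᵥ Pi.single k.succ 1 with hv
    have hw := isomH_hyp ((isomH n).inv_mem hg) (e0_mem (n := n))
    have h0 : |v 0| ≤ (g.val *ᵥ e0 n) 0 := by
      have h1 : v 0 = -((g⁻¹).val *ᵥ e0 n) k.succ := by
        have h2 := lor_e0 v
        rw [hv, isomH_lor_inv hg, lor_comm, lor_single_succ] at h2
        rw [hv]
        linarith
      rw [h1, abs_neg, ← gtop_inv_zero hg]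
      exact abs_le_of_mem_hyp hw _
    rw [hcol i k.succ, ← hv]
    refine Fin.cases (by linarith) (fun l => ?_) i
    have hvv : lor v v = 1 := by
      rw [hv, isomH_lor hg, lor_single_succ]
      simp
    have h3 : v l.succ * v l.succ ≤ ∑ i : Fin n, v i.succ * v i.succ :=
      Finset.single_le_sum (f := fun i : Fin n => v i.succ * v i.succ)
        (fun i _ => mul_self_nonneg _) (Finset.mem_univ l)
    unfold lor at hvv
    have h4 : v 0 * v 0 ≤ (g.val *ᵥ e0 n) 0 * (g.val *ᵥ e0 n) 0 := by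
      rw [← abs_mul_abs_self (v 0)]
      exact mul_self_le_mul_self (abs_nonneg _) h0
    refine abs_le_of_sq_le_sq' ?_ (by linarith) |> abs_le.mpr
    nlinarith only [ha, hvv, h3, h4]

theorem isCompact_ball (B : ℝ) : IsCompact {g : isomH n | (g.val.val *ᵥ e0 n) 0 ≤ B} := by
  let K : Set (Matrix (Fin (n + 1)) (Fin (n + 1)) ℝ) :=
    Set.pi Set.univ fun _ => Set.pi Set.univ fun _ => Set.Icc (-(2 * B)) (2 * B)
  have hK : IsCompact K := isCompact_univ_pi fun _ => isCompact_univ_pi fun _ => isCompact_Icc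
  have hK2 : IsCompact (K ×ˢ (MulOpposite.op '' K)) :=
    hK.prod (hK.image MulOpposite.continuous_op)
  have h1 := Units.isClosedEmbedding_embedProduct.isCompact_preimage hK2
  have h2 := isClosed_isomH.isClosedEmbedding_subtypeVal.isCompact_preimage h1
  refine h2.of_isClosed_subset ?_ ?_
  · exact isClosed_le
      ((continuous_apply 0).comp ((gtop_cont_mulVec _).comp continuous_subtype_val))
      continuous_const
  · intro g hg
    have hg' : (g.val.val *ᵥ e0 n) 0 ≤ B := hg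
    refine ⟨fun i _ j _ => ?_, (g.val⁻¹).val, fun i _ j _ => ?_, rfl⟩
    · exact abs_le.mp ((entry_le g.2 i j).trans (by linarith))
    · refine abs_le.mp ((entry_le ((isomH n).inv_mem g.2) i j).trans ?_)
      rw [gtop_inv_zero g.2]
      linarith

theorem isomH_uncountable (hn : 1 ≤ n) : ¬Countable (isomH n) := by
  intro h
  have hs : Function.Surjective
      fun g : isomH n => (g.val.val *ᵥ e0 n) (Fin.succ ⟨0, hn⟩) := by
    intro t
    obtain ⟨g, hg, he⟩ := exists_isom_e0 (lift_mem (n := n) fun _ => t)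
    exact ⟨⟨g, hg⟩, by simp only [he, lift_succ]⟩
  exact not_countable hs.countable

theorem discrete_of_finite {Γ : Subgroup (GL (Fin (n + 1)) ℝ)}
    (h : {g | g ∈ Γ ∧ ∀ i j, |g.val i j| ≤ 2}.Finite) :
    DiscreteTopology (Γ.subgroupOf (isomH n)) := by
  apply discreteTopology_of_isOpen_singleton_one
  let U : Set (Γ.subgroupOf (isomH n)) := {g | ∀ i j, |g.val.val.val i j| < 2}
  have hc : Continuous fun g : Γ.subgroupOf (isomH n) => g.val.val.val :=
    continuous_isomH_val.comp continuous_subtype_val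
  have hU : IsOpen U := by
    have e : U = ⋂ i, ⋂ j, {g : Γ.subgroupOf (isomH n) | |g.val.val.val i j| < 2} := by
      ext g
      simp [U]
    rw [e]
    refine isOpen_iInter_of_finite fun i => isOpen_iInter_of_finite fun j => ?_
    exact isOpen_lt (continuous_abs.comp (hc.matrix_elem i j)) continuous_const
  have hf : U.Finite := by
    refine Set.Finite.of_finite_image (f := fun g => g.val.val) (h.subset ?_) ?_
    · rintro _ ⟨g, hg, rfl⟩
      exact ⟨Subgroup.mem_subgroupOf.mp g.2, fun i j => (hg i j).le⟩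
    · intro a _ b _ hab
      exact Subtype.ext (Subtype.ext hab)
  have h1 : (1 : Γ.subgroupOf (isomH n)) ∈ U := by
    intro i j
    change |(1 : Matrix (Fin (n + 1)) (Fin (n + 1)) ℝ) i j| < 2
    rw [Matrix.one_apply]
    split_ifs <;> norm_num
  have e : ({1} : Set (Γ.subgroupOf (isomH n))) = U \ (U \ {1}) := by
    rw [Set.sdiff_sdiff_cancel_left (Set.singleton_subset_iff.mpr h1)]
  rw [e]
  exact hU.sdiff (hf.subset Set.sdiff_subset).isClosed

end Pool.Agent.Work.MP_c8d35c_al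
end

-- merged part: Pool.Agent.Work.MP_c8d35c_al.GWd
section
/-! The second exterior power of a matrix.

Plan. `sum_pr`: split the double sum into `x < y`, `x = y`, `y < x` (`Finset.sum_subtype`,
`Finset.sum_bij`, or `Finset.sum_product'` with `lt_trichotomy`). The product formulas and
`co_mul` follow from `sum_pr`. `two_trace_wd`: `f x y = g x x * g y y - g x y * g y x` is symmetric
with zero diagonal. `exists_co`: `S i j = w (i, j)` for `i < j`, `-w (j, i)` for `j < i`. -/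

namespace Pool.Agent.Work.MP_c8d35c_al

open Matrix

/-- Increasing pairs of indices. -/
abbrev Pr (m : ℕ) := {p : Fin m × Fin m // p.1 < p.2}

variable {m : ℕ} {R : Type} [CommRing R]

/-- The matrix of `S ↦ g S hᵀ` on skew matrices, read off above the diagonal. -/
def wb (g h : Matrix (Fin m) (Fin m) R) : Matrix (Pr m) (Pr m) R :=
  Matrix.of fun p q => g p.1.1 q.1.1 * h p.1.2 q.1.2 - g p.1.1 q.1.2 * h p.1.2 q.1.1

/-- The second exterior power. -/
def wd (g : Matrix (Fin m) (Fin m) R) : Matrix (Pr m) (Pr m) R := wb g g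

/-- The derivative of the second exterior power. -/
def der (Y : Matrix (Fin m) (Fin m) R) : Matrix (Pr m) (Pr m) R := wb Y 1 + wb 1 Y

/-- The entries above the diagonal. -/
def co : Matrix (Fin m) (Fin m) R →ₗ[R] Pr m → R where
  toFun S := fun p => S p.1.1 p.1.2
  map_add' _ _ := rfl
  map_smul' _ _ := rfl

lemma wb_apply (g h : Matrix (Fin m) (Fin m) R) (p q : Pr m) :
    wb g h p q = g p.1.1 q.1.1 * h p.1.2 q.1.2 - g p.1.1 q.1.2 * h p.1.2 q.1.1 := rfl

lemma co_apply (S : Matrix (Fin m) (Fin m) R) (p : Pr m) : co S p = S p.1.1 p.1.2 := rfl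

lemma wb_add_left (a b h : Matrix (Fin m) (Fin m) R) : wb (a + b) h = wb a h + wb b h := by
  ext p q; simp only [wb_apply, Matrix.add_apply]; ring

lemma wb_add_right (g a b : Matrix (Fin m) (Fin m) R) : wb g (a + b) = wb g a + wb g b := by
  ext p q; simp only [wb_apply, Matrix.add_apply]; ring

lemma wb_sub_left (a b h : Matrix (Fin m) (Fin m) R) : wb (a - b) h = wb a h - wb b h := by
  ext p q; simp only [wb_apply, Matrix.sub_apply]; ring

lemma wb_sub_right (g a b : Matrix (Fin m) (Fin m) R) : wb g (a - b) = wb g a - wb g b := by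
  ext p q; simp only [wb_apply, Matrix.sub_apply]; ring

lemma wb_smul_left (c : R) (g h : Matrix (Fin m) (Fin m) R) : wb (c • g) h = c • wb g h := by
  ext p q; simp only [wb_apply, Matrix.smul_apply, smul_eq_mul]; ring

lemma wb_smul_right (c : R) (g h : Matrix (Fin m) (Fin m) R) : wb g (c • h) = c • wb g h := by
  ext p q; simp only [wb_apply, Matrix.smul_apply, smul_eq_mul]; ring

lemma wb_vecMulVec (x y x' : Fin m → R) : wb (vecMulVec x y) (vecMulVec x' y) = 0 := by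
  ext p q; simp only [wb_apply, vecMulVec_apply, Matrix.zero_apply]; ring

lemma wd_map {R' : Type} [CommRing R'] (f : R →+* R') (g : Matrix (Fin m) (Fin m) R) :
    (wd g).map f = wd (g.map f) := by
  ext p q; simp only [wd, wb_apply, Matrix.map_apply, map_sub, map_mul]

lemma continuous_wd : Continuous fun g : Matrix (Fin m) (Fin m) ℝ => wd g := by
  refine continuous_matrix fun p q => ?_
  simp only [wd, wb_apply]
  fun_prop

theorem GWd_split (F : Fin m → Fin m → R) :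
    ∑ x, ∑ y, F x y = ∑ q : Pr m, (F q.1.1 q.1.2 + F q.1.2 q.1.1) + ∑ x, F x x := by
  have h1 : ∀ G : Fin m → Fin m → R,
      ∑ q : Pr m, G q.1.1 q.1.2 = ∑ x, ∑ y, if x < y then G x y else 0 := fun G => by
    rw [← Finset.sum_subtype (Finset.univ.filter fun p : Fin m × Fin m => p.1 < p.2)
      (by simp) (fun p : Fin m × Fin m => G p.1 p.2), Finset.sum_filter, Fintype.sum_prod_type]
  have h2 : ∑ q : Pr m, F q.1.2 q.1.1 = ∑ x, ∑ y, if y < x then F x y else 0 := by
    rw [h1 fun x y => F y x, Finset.sum_comm]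
  have h3 : ∑ x, F x x = ∑ x, ∑ y, if x = y then F x y else 0 := by simp
  rw [Finset.sum_add_distrib, h1 F, h2, h3, ← Finset.sum_add_distrib, ← Finset.sum_add_distrib]
  refine Finset.sum_congr rfl fun x _ => ?_
  rw [← Finset.sum_add_distrib, ← Finset.sum_add_distrib]
  refine Finset.sum_congr rfl fun y _ => ?_
  rcases lt_trichotomy x y with h | h | h
  · simp [h, h.ne, h.not_gt]
  · simp [h]
  · simp [h, h.ne', h.not_gt]

theorem sum_pr (u v : Fin m → R) (T : Fin m → Fin m → R) (hT : ∀ x y, T x y = -T y x)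
    (h0 : ∀ x, T x x = 0) :
    ∑ q : Pr m, (u q.1.1 * v q.1.2 - u q.1.2 * v q.1.1) * T q.1.1 q.1.2 =
      ∑ x, ∑ y, u x * v y * T x y := by
  rw [GWd_split fun x y => u x * v y * T x y]
  simp only [h0, mul_zero, Finset.sum_const_zero, add_zero]
  refine Finset.sum_congr rfl fun q _ => ?_
  rw [hT q.1.2 q.1.1]
  ring

theorem wb_mul_wd (g h a : Matrix (Fin m) (Fin m) R) : wb g h * wd a = wb (g * a) (h * a) := by
  ext p r
  have := sum_pr (fun x => g p.1.1 x) (fun y => h p.1.2 y)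
    (fun x y => a x r.1.1 * a y r.1.2 - a x r.1.2 * a y r.1.1) (fun x y => by ring)
    (fun x => by ring)
  simp only [Matrix.mul_apply, wd, wb_apply]
  rw [this, Finset.sum_mul_sum, Finset.sum_mul_sum, ← Finset.sum_sub_distrib]
  refine Finset.sum_congr rfl fun x _ => ?_
  rw [← Finset.sum_sub_distrib]
  exact Finset.sum_congr rfl fun y _ => by ring

theorem wb_mul_symm (g h a b : Matrix (Fin m) (Fin m) R) :
    wb g h * (wb a b + wb b a) = wb (g * a) (h * b) + wb (g * b) (h * a) := by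
  have h1 := wb_mul_wd g h (a + b)
  have h2 := wb_mul_wd g h a
  have h3 := wb_mul_wd g h b
  simp only [wd, wb_add_left, wb_add_right, Matrix.mul_add] at h1 h2 h3 ⊢
  rw [h2, h3] at h1
  have h4 : wb g h * wb a b + wb g h * wb b a =
      (wb (g * a) (h * a) + wb g h * wb a b + (wb g h * wb b a + wb (g * b) (h * b))) -
        wb (g * a) (h * a) - wb (g * b) (h * b) := by abel
  have h5 : wb (g * a) (h * b) + wb (g * b) (h * a) =
      (wb (g * a) (h * a) + wb (g * a) (h * b) + (wb (g * b) (h * a) + wb (g * b) (h * b))) -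
        wb (g * a) (h * a) - wb (g * b) (h * b) := by abel
  rw [h4, h5]
  congr 2
  refine Eq.trans ?_ (h1.trans ?_) <;> abel

theorem wd_one : wd (1 : Matrix (Fin m) (Fin m) R) = 1 := by
  ext ⟨⟨a, b⟩, hab⟩ ⟨⟨c, d⟩, hcd⟩
  simp only [wd, wb_apply, Matrix.one_apply, Subtype.mk.injEq, Prod.mk.injEq]
  have h1 : ¬ (a = d ∧ b = c) := by
    rintro ⟨rfl, rfl⟩
    exact lt_asymm hab hcd
  have h2 : ((if a = d then 1 else 0) * if b = c then 1 else 0 : R) = 0 := by
    by_cases h2 : a = d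
    · rw [if_neg fun h => h1 ⟨h2, h⟩, mul_zero]
    · rw [if_neg h2, zero_mul]
  rw [h2, sub_zero]
  by_cases h4 : a = c <;> by_cases h5 : b = d <;> simp [h4, h5]

theorem wd_mul (a b : Matrix (Fin m) (Fin m) R) : wd (a * b) = wd a * wd b :=
  (wb_mul_wd a a b).symm

/-- The second exterior power as a homomorphism. -/
def wdH (m : ℕ) (R : Type) [CommRing R] :
    Matrix (Fin m) (Fin m) R →* Matrix (Pr m) (Pr m) R where
  toFun := wd
  map_one' := wd_one
  map_mul' := wd_mul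

theorem two_trace_wd (g : Matrix (Fin m) (Fin m) R) :
    2 * (wd g).trace = g.trace ^ 2 - (g * g).trace := by
  have := GWd_split fun x y => g x x * g y y - g x y * g y x
  simp only [sub_self, Finset.sum_const_zero, add_zero] at this
  simp only [Matrix.trace, Matrix.diag, wd, wb_apply, Matrix.mul_apply]
  rw [sq, Finset.sum_mul_sum, ← Finset.sum_sub_distrib, Finset.mul_sum]
  simp only [← Finset.sum_sub_distrib]
  rw [this]
  exact Finset.sum_congr rfl fun q _ => by ring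

theorem trace_wd_conj {a b : Matrix (Fin m) (Fin m) R} (h : b * a = 1)
    (g : Matrix (Fin m) (Fin m) R) : (wd (a * g * b)).trace = (wd g).trace := by
  rw [wd_mul, wd_mul, trace_mul_cycle, ← wd_mul, h, wd_one, one_mul]

theorem co_mul {S : Matrix (Fin m) (Fin m) ℝ} (hS : Sᵀ = -S) (g h : Matrix (Fin m) (Fin m) ℝ) :
    co (g * S * hᵀ) = wb g h *ᵥ co S := by
  have h1 : ∀ x y, S x y = -S y x := fun x y => by
    have := congrFun (congrFun hS y) x
    simpa using this
  have h0 : ∀ x, S x x = 0 := fun x => by linarith [h1 x x]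
  funext p
  have := sum_pr (fun x => g p.1.1 x) (fun y => h p.1.2 y) S h1 h0
  simp only [co_apply, Matrix.mulVec, dotProduct, wb_apply, Matrix.mul_apply,
    Matrix.transpose_apply]
  rw [this, Finset.sum_comm]
  refine Finset.sum_congr rfl fun y _ => ?_
  rw [Finset.sum_mul]
  exact Finset.sum_congr rfl fun x _ => by ring

theorem eq_zero_of_co {S : Matrix (Fin m) (Fin m) ℝ} (hS : Sᵀ = -S) (h : co S = 0) : S = 0 := by
  have h1 : ∀ x y, S x y = -S y x := fun x y => by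
    have := congrFun (congrFun hS y) x
    simpa using this
  ext x y
  rcases lt_trichotomy x y with hxy | rfl | hxy
  · exact congrFun h ⟨(x, y), hxy⟩
  · have := h1 x x
    rw [Matrix.zero_apply]
    linarith
  · have : S y x = 0 := congrFun h ⟨(y, x), hxy⟩
    rw [h1, this, neg_zero, Matrix.zero_apply]

theorem exists_co (w : Pr m → ℝ) : ∃ S : Matrix (Fin m) (Fin m) ℝ, Sᵀ = -S ∧ co S = w := by
  refine ⟨Matrix.of fun i j => if h : i < j then w ⟨(i, j), h⟩ else
    if h' : j < i then -w ⟨(j, i), h'⟩ else 0, ?_, ?_⟩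
  · ext i j
    rcases lt_trichotomy i j with h | rfl | h
    · simp [h, h.not_gt]
    · simp
    · simp [h, h.not_gt]
  · funext p
    simp [co_apply, p.2]

end Pool.Agent.Work.MP_c8d35c_al
end

-- merged part: Pool.Agent.Work.MP_c8d35c_al.GInt
section
/-! Integrality of the products of roots.

Plan. `two_lor_int`: let `c = lor e f`; if
`c² = 1` it is clear. Otherwise `e`, `f` span a nondegenerate plane; take `u ≠ 0` orthogonal to
both. On the skew matrices `x uᵀ - u xᵀ`, `x` in the plane, `g = refl e * refl f` acts as on the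
plane (`co_mul`), where it has the characteristic polynomial `X² - (4 c² - 2) X + 1`. So this
polynomial divides the monic integral polynomial that kills `wd g` (divide with remainder; `g` is
scalar on the plane only if `c = 0`), and `Polynomial.isIntegral_coeff_of_dvd` applies;
`IsIntegral.of_pow`. -/

namespace Pool.Agent.Work.MP_c8d35c_al

open Matrix

variable {n : ℕ} {e f : Fin (n + 1) → ℝ}

open scoped IsMulCommutative in
theorem GInt_add {R B : Type} [CommRing R] [Ring B] [Algebra R B] {x y : B} (hxy : x * y = y * x)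
    (hx : IsIntegral R x) (hy : IsIntegral R y) : IsIntegral R (x + y) := by
  have := Algebra.isMulCommutative_adjoin R (s := {x, y}) (by
    rintro a (rfl | rfl) b (rfl | rfl)
    exacts [rfl, hxy, hxy.symm, rfl])
  have hx' : x ∈ Algebra.adjoin R {x, y} := Algebra.subset_adjoin (by simp)
  have hy' : y ∈ Algebra.adjoin R {x, y} := Algebra.subset_adjoin (by simp)
  have h1 : IsIntegral R (⟨x, hx'⟩ : Algebra.adjoin R {x, y}) :=
    (isIntegral_algHom_iff (Algebra.adjoin R {x, y}).val Subtype.val_injective).1 hx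
  have h2 : IsIntegral R (⟨y, hy'⟩ : Algebra.adjoin R {x, y}) :=
    (isIntegral_algHom_iff (Algebra.adjoin R {x, y}).val Subtype.val_injective).1 hy
  exact (isIntegral_algHom_iff (Algebra.adjoin R {x, y}).val Subtype.val_injective).2 (h1.add h2)

theorem GInt_conj {R B : Type} [CommRing R] [Ring B] [Algebra R B] {r x : B} (hr : r * r = 1)
    (hx : IsIntegral R x) : IsIntegral R (r * x * r) := by
  let φ : B →ₐ[R] B :=
    { toFun := fun x => r * x * r
      map_one' := by rw [mul_one, hr]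
      map_mul' := fun a b => by
        rw [show r * a * r * (r * b * r) = r * a * (r * r) * b * r by simp only [mul_assoc], hr,
          mul_one, mul_assoc r a b]
      map_zero' := by rw [mul_zero, zero_mul]
      map_add' := fun a b => by rw [mul_add, add_mul]
      commutes' := fun c => by rw [← Algebra.commutes, mul_assoc, hr, mul_one] }
  obtain ⟨p, hp, h0⟩ := hx
  refine ⟨p, hp, ?_⟩
  rw [← Polynomial.aeval_def] at h0 ⊢
  exact (Polynomial.aeval_algHom_apply φ x p).trans (by rw [h0, map_zero])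

theorem GInt_eig {ι : Type} [Fintype ι] [DecidableEq ι] {B : Matrix ι ι ℝ} {a : ι → ℝ} {t : ℝ}
    (ha : a ≠ 0) (h : B *ᵥ a = t • a) (hB : IsIntegral ℤ B) : IsIntegral ℤ t := by
  have h1 : ∀ k : ℕ, B ^ k *ᵥ a = t ^ k • a := by
    intro k
    induction k with
    | zero => simp
    | succ k ih => rw [pow_succ', ← mulVec_mulVec, ih, mulVec_smul, h, smul_smul, pow_succ]
  have key : ∀ p : Polynomial ℤ, Polynomial.aeval B p *ᵥ a = Polynomial.aeval t p • a := by
    intro p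
    induction p using Polynomial.induction_on' with
    | add p q hp hq => rw [map_add, map_add, add_mulVec, add_smul, hp, hq]
    | monomial k c =>
      rw [Polynomial.aeval_monomial, Polynomial.aeval_monomial, ← Algebra.smul_def,
        ← Algebra.smul_def, smul_mulVec, h1, smul_assoc]
  obtain ⟨p, hp, h0⟩ := hB
  refine ⟨p, hp, ?_⟩
  rw [← Polynomial.aeval_def] at h0 ⊢
  have h2 := key p
  rw [h0, zero_mulVec] at h2
  exact (smul_eq_zero.1 h2.symm).resolve_right ha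

theorem GInt_orth (hn : 2 ≤ n) (e f : Fin (n + 1) → ℝ) :
    ∃ u, u ≠ 0 ∧ lor u e = 0 ∧ lor u f = 0 := by
  have h := LinearMap.ker_ne_bot_of_finrank_lt
    (f := (Matrix.of ![lorMat n *ᵥ e, lorMat n *ᵥ f]).mulVecLin) (by simp; omega)
  obtain ⟨u, hu, h0⟩ := (Submodule.ne_bot_iff _).1 h
  refine ⟨u, h0, ?_, ?_⟩
  · rw [lor_eq_dot, dotProduct_comm]
    exact congrFun hu 0
  · rw [lor_eq_dot, dotProduct_comm]
    exact congrFun hu 1

theorem GInt_act {m : ℕ} {g : Matrix (Fin m) (Fin m) ℝ} {u : Fin m → ℝ} (hu : g *ᵥ u = u)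
    (x : Fin m → ℝ) : wd g *ᵥ co (vecMulVec x u - vecMulVec u x) =
      co (vecMulVec (g *ᵥ x) u - vecMulVec u (g *ᵥ x)) := by
  rw [wd, ← co_mul (by rw [transpose_sub, transpose_vecMulVec, transpose_vecMulVec, neg_sub]),
    Matrix.mul_sub, Matrix.sub_mul, mul_vecMulVec, mul_vecMulVec, vecMulVec_mul, vecMulVec_mul,
    vecMul_transpose, vecMul_transpose, hu]

theorem two_lor_int (hn : 2 ≤ n) (he : lor e e = 1) (hf : lor f f = 1)
    (h : IsIntegral ℤ (wd (refl e * refl f).val)) : IsIntegral ℤ (2 * lor e f) := by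
    obtain ⟨u, hu, hue, huf⟩ := GInt_orth hn e f
    have hr : ∀ x : Fin (n + 1) → ℝ, wd (refl x).val * wd (refl x).val = 1 := fun x => by
      rw [← wd_mul, ← Units.val_mul, refl_mul_self, Units.val_one, wd_one]
    have h1 : wd (refl f * refl e).val =
        wd (refl e).val * wd (refl e * refl f).val * wd (refl e).val := by
      rw [Units.val_mul, Units.val_mul, wd_mul, wd_mul, ← mul_assoc, hr, one_mul]
    have h2 : ∀ x y : Fin (n + 1) → ℝ, wd (refl x * refl y).val * wd (refl y * refl x).val = 1 := by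
      intro x y
      rw [Units.val_mul, Units.val_mul, wd_mul, wd_mul, mul_assoc, ← mul_assoc (wd (refl y).val), hr,
        one_mul, hr]
    have h3 := GInt_add ((h2 e f).trans (h2 f e).symm) h (h1 ▸ GInt_conj (hr e) h)
    have e1 : (refl e).val *ᵥ u = u := by rw [refl_mulVec_unit he, hue]; simp
    have e2 : (refl f).val *ᵥ u = u := by rw [refl_mulVec_unit hf, huf]; simp
    have h4 : co (vecMulVec e u - vecMulVec u e) ≠ 0 := by
      intro h0
      have h5 := eq_zero_of_co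
        (by rw [transpose_sub, transpose_vecMulVec, transpose_vecMulVec, neg_sub]) h0
      have h6 := congrArg (· *ᵥ (lorMat n *ᵥ e)) h5
      simp only [sub_mulVec, vecMulVec_mulVec, ← lor_eq_dot, hue, he, zero_mulVec] at h6
      exact hu (by simpa using h6)
    have h5 := GInt_eig (t := (2 * lor e f) ^ 2 - 2) h4 (by
      rw [add_mulVec, GInt_act (by rw [gl_mul_mulVec, e2, e1]),
        GInt_act (by rw [gl_mul_mulVec, e1, e2]), ← map_add, ← map_smul]
      congr 1
      simp only [gl_mul_mulVec, refl_mulVec_unit he, refl_mulVec_unit hf, lor_sub_left,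
        lor_smul_left, he, lor_comm f e]
      ext i j
      simp only [Matrix.add_apply, Matrix.sub_apply, Matrix.smul_apply, vecMulVec_apply, Pi.sub_apply,
        Pi.smul_apply, smul_eq_mul]
      ring) h3
    refine IsIntegral.of_pow two_pos ?_
    have h6 := h5.add (isIntegral_algebraMap (x := (2 : ℤ)))
    simpa using h6

end Pool.Agent.Work.MP_c8d35c_al
end
end

-- merged part: Pool.Agent.Work.MP_c8d35c_al.GMix
section
-- merged part: Pool.Agent.Work.MP_c8d35c_al.GHaar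
section
/-! Subgroups of finite covolume.

Plan. Start every proof with `letI : MeasurableSpace G := borel G`,
`haveI : BorelSpace G := ⟨rfl⟩`. `of_relIndex`: take the union of the translates `c F` over
representatives `c` of the cosets. `conj`: take `g F`. `measure_le`: replace `F` by
`toMeasurable μ F`; `μ A ≤ ∑ μ (A ∩ γ⁻¹ F) = ∑ μ (γ A ∩ F) = μ (⋃ γ A ∩ F) ≤ μ F`.
A discrete subspace of a second countable space is countable. `relIndex_ne_zero`: if
`δ₁, …, δₖ ∈ Δ` lie in different cosets `Γ δ`, apply `measure_le` to the disjoint union of the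
sets `δᵢ U`; so `k μ U ≤ μ F`. `recur`: `μ (U a) = μ U` if `a * a = 1`
(`Measure.map_right_mul_eq_modularCharacterFun_smul`, the modular character is a homomorphism to
`ℝ≥0`). Take `U₀ ⊆ U ∩ U⁻¹` open from `exists_small`, `g = (a * b) ^ (M + 1)`. If
`γ u g ^ i = u' g ^ j` with `i ≠ j` we are done (replace `γ` by its inverse if `j < i`);
otherwise apply `measure_le` to the disjoint union of the sets `U₀ g ^ j`, `j < k`. -/

namespace Pool.Agent.Work.MP_c8d35c_al

open MeasureTheory Topology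

variable {G : Type} [Group G] [TopologicalSpace G] {Γ Δ : Subgroup G}

/-- Finite covolume. -/
def Cofin (Γ : Subgroup G) : Prop :=
  ∃ μ : @Measure G (borel G), @Measure.IsHaarMeasure G _ _ (borel G) μ ∧
    ∃ F : Set G, μ F < ⊤ ∧ ∀ g : G, ∃ γ ∈ Γ, γ * g ∈ F

lemma isLattice_iff : IsLattice Γ ↔ DiscreteTopology Γ ∧ Cofin Γ := Iff.rfl

theorem Cofin.mono (h : Cofin Γ) (hle : Γ ≤ Δ) : Cofin Δ := by
  obtain ⟨μ, hμ, F, hF, hc⟩ := h
  exact ⟨μ, hμ, F, hF, fun g => (hc g).imp fun γ hγ => ⟨hle hγ.1, hγ.2⟩⟩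

theorem discrete_mono (h : DiscreteTopology Δ) (hle : Γ ≤ Δ) : DiscreteTopology Γ :=
  DiscreteTopology.of_subset h hle

variable [IsTopologicalGroup G]

theorem Cofin.of_relIndex (h : Cofin Δ) (hi : Γ.relIndex Δ ≠ 0) : Cofin Γ := by
  letI : MeasurableSpace G := borel G
  haveI : BorelSpace G := ⟨rfl⟩
  obtain ⟨μ, hμ, F, hF, hc⟩ := h
  haveI : Finite (Δ ⧸ Γ.subgroupOf Δ) := Subgroup.index_ne_zero_iff_finite.1 hi
  refine ⟨μ, hμ, ⋃ q : Δ ⧸ Γ.subgroupOf Δ, (fun x => (q.out : G) * x) ⁻¹' F, ?_, fun g => ?_⟩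
  · rw [← Set.biUnion_univ]
    exact measure_biUnion_lt_top Set.finite_univ fun q _ => by rwa [measure_preimage_mul]
  · obtain ⟨δ, hδ, hg⟩ := hc g
    obtain ⟨γ, hγ⟩ := QuotientGroup.mk_out_eq_mul (Γ.subgroupOf Δ) ⟨δ, hδ⟩
    refine ⟨(γ.1 : G)⁻¹, inv_mem γ.2,
      Set.mem_iUnion.2 ⟨QuotientGroup.mk (⟨δ, hδ⟩ : Δ), ?_⟩⟩
    rw [Set.mem_preimage, hγ]
    simpa [mul_assoc] using hg

theorem Cofin.conj (h : Cofin Γ) (g : G) : Cofin (Γ.map (MulAut.conj g).toMonoidHom) := by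
  letI : MeasurableSpace G := borel G
  haveI : BorelSpace G := ⟨rfl⟩
  obtain ⟨μ, hμ, F, hF, hc⟩ := h
  refine ⟨μ, hμ, (fun x => g⁻¹ * x) ⁻¹' F, by rwa [measure_preimage_mul], fun x => ?_⟩
  obtain ⟨γ, hγ, hx⟩ := hc (g⁻¹ * x)
  exact ⟨_, ⟨γ, hγ, rfl⟩, by simpa [mul_assoc] using hx⟩

theorem measure_le_of_disj [MeasurableSpace G] [BorelSpace G] (μ : Measure G)
    [μ.IsMulLeftInvariant] (hc : Countable Γ) {F A : Set G} (hF : ∀ g : G, ∃ γ ∈ Γ, γ * g ∈ F)
    (hA : MeasurableSet A) (hd : ∀ γ ∈ Γ, ∀ a ∈ A, γ * a ∈ A → γ = 1) : μ A ≤ μ F := by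
  have h1 : A ⊆ ⋃ γ : Γ, (fun x => (γ : G) * x) ⁻¹'
      ((fun x => (γ : G)⁻¹ * x) ⁻¹' A ∩ toMeasurable μ F) := fun a ha => by
    obtain ⟨γ, hγ, h⟩ := hF a
    exact Set.mem_iUnion.2 ⟨⟨γ, hγ⟩, by simpa using ha, subset_toMeasurable μ F h⟩
  refine (measure_mono h1).trans ((measure_iUnion_le _).trans ?_)
  simp only [measure_preimage_mul]
  rw [← measure_iUnion ?_ fun γ => (measurable_const_mul _ hA).inter
    (measurableSet_toMeasurable μ F), ← measure_toMeasurable F]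
  · exact measure_mono (Set.iUnion_subset fun γ => Set.inter_subset_right)
  · intro γ γ' hne
    refine Set.disjoint_left.2 fun x h h' => hne (Subtype.ext ?_)
    have h2 := hd _ (mul_mem (inv_mem γ'.2) γ.2) _ h.1 (by simpa [mul_assoc] using h'.1)
    exact (inv_mul_eq_one.1 h2).symm

theorem exists_small (hd : DiscreteTopology Γ) {U : Set G} (hU : U ∈ 𝓝 (1 : G)) :
    ∃ V : Set G, IsOpen V ∧ 1 ∈ V ∧ (∀ v ∈ V, v ∈ U ∧ v⁻¹ ∈ U) ∧
      (∀ γ ∈ Γ, ∀ v ∈ V, γ * v ∈ V → γ = 1) := by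
  obtain ⟨W, hW, h1⟩ := (mem_nhds_induced (Subtype.val : Γ → G) 1 {1}).1
    ((isOpen_discrete _).mem_nhds rfl)
  obtain ⟨V, hV, h2⟩ := exists_nhds_split_inv hW
  have hU' : U⁻¹ ∈ 𝓝 (1 : G) := inv_mem_nhds_one G hU
  refine ⟨interior (V ∩ (U ∩ U⁻¹)), isOpen_interior,
    mem_interior_iff_mem_nhds.2 (Filter.inter_mem hV (Filter.inter_mem hU hU')),
    fun v hv => (interior_subset hv).2, fun γ hγ v hv hv' => ?_⟩
  have h3 := h2 _ (interior_subset hv').1 _ (interior_subset hv).1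
  rw [mul_div_cancel_right] at h3
  exact congrArg Subtype.val (h1 (a := ⟨γ, hγ⟩) h3)

theorem GHaar_pack [MeasurableSpace G] [BorelSpace G] (μ : Measure G) [μ.IsMulLeftInvariant]
    (hc : Countable Γ) {F : Set G} (hF : ∀ g : G, ∃ γ ∈ Γ, γ * g ∈ F) (hF' : μ F < ⊤)
    {A : ℕ → Set G} (hA : ∀ i, MeasurableSet (A i)) {c : ENNReal} (h0 : c ≠ 0)
    (h1 : ∀ i, μ (A i) = c)
    (hd : ∀ γ ∈ Γ, ∀ i j, ∀ a ∈ A i, γ * a ∈ A j → γ = 1 ∧ i = j) : False := by
  have h2 := measure_le_of_disj μ hc hF (MeasurableSet.iUnion hA) fun γ hγ a ha hb => by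
    obtain ⟨i, hi⟩ := Set.mem_iUnion.1 ha
    obtain ⟨j, hj⟩ := Set.mem_iUnion.1 hb
    exact (hd γ hγ i j a hi hj).1
  rw [measure_iUnion (fun i j hij => Set.disjoint_left.2 fun a hi hj =>
    hij (hd 1 (one_mem _) i j a hi (by rwa [one_mul])).2) hA] at h2
  simp only [h1, ENNReal.tsum_const_eq_top_of_ne_zero h0] at h2
  exact hF'.not_ge h2

variable [LocallyCompactSpace G] [SecondCountableTopology G] [T2Space G]

theorem Cofin.relIndex_ne_zero (h : Cofin Γ) (hle : Γ ≤ Δ) (hd : DiscreteTopology Δ) :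
    Γ.relIndex Δ ≠ 0 := by
  letI : MeasurableSpace G := borel G
  haveI : BorelSpace G := ⟨rfl⟩
  obtain ⟨μ, hμ, F, hF, hc⟩ := h
  intro h0
  haveI : Infinite (Δ ⧸ Γ.subgroupOf Δ) := Subgroup.index_eq_zero_iff_infinite.1 h0
  haveI := discrete_mono hd hle
  obtain ⟨V, h1, h2, -, h3⟩ := exists_small hd (U := Set.univ) Filter.univ_mem
  let e := Infinite.natEmbedding (Δ ⧸ Γ.subgroupOf Δ)
  refine GHaar_pack μ (TopologicalSpace.separableSpace_iff_countable.1 inferInstance) hc hF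
    (A := fun i => (fun x => ((e i).out : G) * x) ⁻¹' V)
    (fun i => measurable_const_mul _ h1.measurableSet) (h1.measure_ne_zero μ ⟨1, h2⟩)
    (fun i => measure_preimage_mul _ _ _) fun γ hγ i j a ha hb => ?_
  have h4 := h3 ((e j).out * γ * ((e i).out : G)⁻¹)
    (mul_mem (mul_mem (e j).out.2 (hle hγ)) (inv_mem (e i).out.2)) _ ha
    (by simpa [mul_assoc] using hb)
  have h5 : γ = ((e j).out : G)⁻¹ * (e i).out := by
    rw [eq_inv_mul_iff_mul_eq, ← mul_inv_eq_one, h4]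
  have h6 : e j = e i := by
    rw [← (e j).out_eq', ← (e i).out_eq', QuotientGroup.eq, Subgroup.mem_subgroupOf]
    simpa [← h5] using hγ
  exact ⟨by rw [h5, h6, inv_mul_cancel], (e.injective h6).symm⟩

theorem Cofin.recur (h : Cofin Γ) (hd : DiscreteTopology Γ) {a b : G} (ha : a * a = 1)
    (hb : b * b = 1) {U : Set G} (hU : U ∈ 𝓝 (1 : G)) (M : ℕ) :
    ∃ m, M ≤ m ∧ ∃ u ∈ U, ∃ u' ∈ U, u * (a * b) ^ m * u' ∈ Γ := by
  letI : MeasurableSpace G := borel G
  haveI : BorelSpace G := ⟨rfl⟩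
  obtain ⟨μ, hμ, F, hF, hc⟩ := h
  obtain ⟨V, h1, h2, h3, h4⟩ := exists_small hd hU
  have m1 : ∀ x : G, x * x = 1 → Measure.modularCharacter x = 1 := fun x hx => by
    have h := congrArg Measure.modularCharacter hx
    rw [map_mul, map_one, ← sq] at h
    exact (pow_eq_one_iff_of_nonneg zero_le two_ne_zero).1 h
  by_contra hn
  set g := (a * b) ^ (M + 1) with hg
  have key : ∀ (k : ℕ) (u u' : G), 0 < k → u ∈ V → u' ∈ V → u * g ^ k * u'⁻¹ ∉ Γ :=
    fun k u u' hk hu hu' hm => hn ⟨(M + 1) * k, by nlinarith only [hk], u, (h3 u hu).1, u'⁻¹, (h3 u' hu').2,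
      by rwa [pow_mul]⟩
  refine GHaar_pack μ (TopologicalSpace.separableSpace_iff_countable.1 inferInstance) hc hF
    (A := fun i => (fun x => x * (g ^ i)⁻¹) ⁻¹' V)
    (fun i => measurable_mul_const _ h1.measurableSet) (h1.measure_ne_zero μ ⟨1, h2⟩)
    (fun i => ?_) fun γ hγ i j x hx hy => ?_
  · have m2 : Measure.modularCharacterFun (g ^ i)⁻¹ = 1 := by
      have m3 : Measure.modularCharacter (g ^ i) = 1 := by
        rw [hg, map_pow, map_pow, map_mul, m1 a ha, m1 b hb, mul_one, one_pow, one_pow]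
      have m4 := map_mul Measure.modularCharacter (g ^ i) (g ^ i)⁻¹
      rw [mul_inv_cancel, map_one, m3, one_mul] at m4
      exact m4.symm
    rw [← Measure.map_apply (measurable_mul_const _) h1.measurableSet,
      Measure.map_right_mul_eq_modularCharacterFun_smul, m2, one_smul]
  · rcases lt_trichotomy i j with hij | rfl | hij
    · obtain ⟨k, rfl⟩ := Nat.exists_eq_add_of_lt hij
      refine (key (k + 1) _ _ k.succ_pos hy hx ?_).elim
      rw [add_assoc, add_comm i, pow_add]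
      simpa [mul_assoc] using hγ
    · exact ⟨h4 γ hγ _ hx (by simpa [mul_assoc] using hy), rfl⟩
    · obtain ⟨k, rfl⟩ := Nat.exists_eq_add_of_lt hij
      refine (key (k + 1) _ _ k.succ_pos hx hy ?_).elim
      rw [add_assoc, add_comm j, pow_add]
      simpa [mul_assoc] using hγ

end Pool.Agent.Work.MP_c8d35c_al
end

-- merged part: Pool.Agent.Work.MP_c8d35c_al.GMix
section
/-! Recurrence of translations along a geodesic.

Plan. With `A = prj ξ η`, `B = prj η ξ` one has `A A = A`, `B B = B`, `A B = B A = 0`.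
`boost_four`: both sides agree on every vector (`gl_ext`, `refl_mulVec`; the vectors `ξ - η` and
`2 ξ - η / 2` have norm `2`). `mix_of_cofin`: apply `Cofin.recur` in the group `isomH n` to the
neighbourhoods `U k` of a countable basis (`Filter.exists_antitone_basis`) and `M = k`;
`l k = 4 ^ m k`. `exists_iso`: the vectors ` (|w|² + 1, 2 w, |w|² - 1)`, `w ∈ ℝ^(n-1)`, are
isotropic and `lor (ξ w) e` is a nonzero polynomial in `w` for `e ≠ 0` (its values at `0`, `± eᵢ`,
`2 e₁` determine `e`); a product of nonzero polynomials does not vanish identically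
(`MvPolynomial.funext`). `Mix.exists_ne`: choose `ξ` for `s`, then `η` for `{f, ξ}` and rescale;
` (l k)⁻¹ * lor (γ k f) e` tends to `-(lor f η * lor ξ e) ≠ 0`. -/

namespace Pool.Agent.Work.MP_c8d35c_al

open Matrix Filter Topology

variable {n : ℕ} {ξ η : Fin (n + 1) → ℝ}

/-- The map `x ↦ -lor x η • ξ`. -/
def prj (ξ η : Fin (n + 1) → ℝ) : Matrix (Fin (n + 1)) (Fin (n + 1)) ℝ :=
  vecMulVec (-ξ) (lorMat n *ᵥ η)

/-- The translation along the geodesic with end points `η` and `ξ`. -/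
noncomputable def boost (ξ η : Fin (n + 1) → ℝ) (l : ℝ) : Matrix (Fin (n + 1)) (Fin (n + 1)) ℝ :=
  1 + (l - 1) • prj ξ η + (l⁻¹ - 1) • prj η ξ

/-- A normalised pair of isotropic vectors. -/
structure Iso2 (ξ η : Fin (n + 1) → ℝ) : Prop where
  x : lor ξ ξ = 0
  y : lor η η = 0
  xy : lor ξ η = -1

/-- `Γ` contains elements close to long translations along any geodesic. -/
def Mix (Γ : Subgroup (GL (Fin (n + 1)) ℝ)) : Prop :=
  ∀ ξ η : Fin (n + 1) → ℝ, Iso2 ξ η → ∃ (γ : ℕ → GL (Fin (n + 1)) ℝ) (l : ℕ → ℝ)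
    (u u' : ℕ → Matrix (Fin (n + 1)) (Fin (n + 1)) ℝ), (∀ k, γ k ∈ Γ) ∧ Tendsto l atTop atTop ∧
      Tendsto u atTop (𝓝 1) ∧ Tendsto u' atTop (𝓝 1) ∧
      ∀ k, (γ k).val = u k * boost ξ η (l k) * u' k

theorem Iso2.symm (h : Iso2 ξ η) : Iso2 η ξ := ⟨h.y, h.x, by rw [lor_comm, h.xy]⟩

theorem Mix.mono {Γ Δ : Subgroup (GL (Fin (n + 1)) ℝ)} (h : Mix Γ) (hle : Γ ≤ Δ) : Mix Δ :=
  fun ξ η hξ => by
    obtain ⟨γ, l, u, u', h1, h2⟩ := h ξ η hξ
    exact ⟨γ, l, u, u', fun k => hle (h1 k), h2⟩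

theorem prj_mulVec (ξ η x : Fin (n + 1) → ℝ) : prj ξ η *ᵥ x = -lor x η • ξ := by
  rw [prj, vecMulVec_mulVec, dotProduct_comm, ← lor_eq_dot]
  simp

theorem GMix_vec (ξ η x : Fin (n + 1) → ℝ) (l : ℝ) :
    boost ξ η l *ᵥ x = x + (l - 1) • -lor x η • ξ + (l⁻¹ - 1) • -lor x ξ • η := by
  simp only [boost, add_mulVec, smul_mulVec, one_mulVec, prj_mulVec]

theorem boost_mul (h : Iso2 ξ η) {a b : ℝ} (ha : a ≠ 0) (hb : b ≠ 0) :
    boost ξ η a * boost ξ η b = boost ξ η (a * b) := by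
  refine ext_iff_mulVec.2 fun x => ?_
  simp only [← mulVec_mulVec, GMix_vec, lor_add_left, lor_smul_left, h.x, h.y, h.xy, h.symm.xy]
  match_scalars <;> field_simp <;> ring

theorem GMix_norm (h : Iso2 ξ η) :
    lor ((2 : ℝ) • ξ - (2 : ℝ)⁻¹ • η) ((2 : ℝ) • ξ - (2 : ℝ)⁻¹ • η) = 2 ∧
      lor (ξ - η) (ξ - η) = 2 := by
  simp only [lor_sub_left, lor_sub_right, lor_smul_left, lor_smul_right, h.x, h.y, h.xy, h.symm.xy]
  norm_num

theorem boost_four (h : Iso2 ξ η) :
    (refl ((2 : ℝ) • ξ - (2 : ℝ)⁻¹ • η) * refl (ξ - η)).val = boost ξ η 4 := by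
  refine ext_iff_mulVec.2 fun x => ?_
  rw [gl_mul_mulVec, refl_mulVec, refl_mulVec, (GMix_norm h).1, (GMix_norm h).2, GMix_vec]
  simp only [lor_sub_left, lor_sub_right, lor_smul_left, lor_smul_right, h.x, h.y, h.xy, h.symm.xy]
  match_scalars <;> ring

theorem mix_of_cofin {Γ : Subgroup (isomH n)} (h : Cofin Γ) (hd : DiscreteTopology Γ) :
    Mix (Γ.map (isomH n).subtype) := by
  intro ξ η hξ
  let a : isomH n := ⟨_, refl_mem_isomH ((GMix_norm hξ).1 ▸ two_pos)⟩
  let b : isomH n := ⟨_, refl_mem_isomH ((GMix_norm hξ).2 ▸ two_pos)⟩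
  have hp : ∀ m : ℕ, ((a * b) ^ m).val.val = boost ξ η (4 ^ m) := fun m => by
    induction m with
    | zero => simp [boost]
    | succ m ih =>
      rw [pow_succ, pow_succ, ← boost_mul hξ (by positivity) four_ne_zero, ← ih, ← boost_four hξ]
      rfl
  obtain ⟨U, hU⟩ := (𝓝 (1 : isomH n)).exists_antitone_basis
  choose m hm u hu u' hu' hγ using fun k => h.recur hd (a := a) (b := b)
    (Subtype.ext (refl_mul_self _)) (Subtype.ext (refl_mul_self _)) (hU.mem k) k
  refine ⟨fun k => (u k * (a * b) ^ m k * u' k).val, fun k => 4 ^ m k, fun k => (u k).val.val,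
    fun k => (u' k).val.val, fun k => ⟨_, hγ k, rfl⟩, ?_,
    (continuous_isomH_val.tendsto 1).comp (hU.tendsto hu),
    (continuous_isomH_val.tendsto 1).comp (hU.tendsto hu'), fun k => by rw [← hp]; rfl⟩
  exact (tendsto_pow_atTop_atTop_of_one_lt (by norm_num)).comp (tendsto_atTop_mono hm tendsto_id)

theorem exists_iso (hn : 2 ≤ n) (s : Finset (Fin (n + 1) → ℝ)) (hs : 0 ∉ s) :
    ∃ ξ : Fin (n + 1) → ℝ, ξ ≠ 0 ∧ lor ξ ξ = 0 ∧ ∀ e ∈ s, lor ξ e ≠ 0 := by
  classical
  obtain ⟨p, q, h1, h2, h3, h4⟩ : ∃ p q : Fin (n + 1) → ℝ,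
      lor p p = 0 ∧ lor (e0 n) p = -1 ∧ lor q p = 0 ∧ lor q q = 1 := by
    refine ⟨e0 n + Pi.single (Fin.succ ⟨0, by omega⟩) 1, Pi.single (Fin.succ ⟨1, by omega⟩) 1,
      ?_, ?_, ?_, ?_⟩ <;> simp only [lor_add_right, lor_e0, lor_single_succ] <;>
      simp [e0, Fin.ext_iff]
  have hP : ∀ e, ∃ P : MvPolynomial (Fin (n + 1)) ℝ, ∀ w,
      MvPolynomial.eval w P = lor w w * lor p e - 2 * lor w p * lor w e := fun e =>
    ⟨(-(.X 0 * .X 0) + ∑ i : Fin n, .X i.succ * .X i.succ) * .C (lor p e) -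
      2 * (-(.X 0 * .C (p 0)) + ∑ i : Fin n, .X i.succ * .C (p i.succ)) *
        (-(.X 0 * .C (e 0)) + ∑ i : Fin n, .X i.succ * .C (e i.succ)), fun w => by
      generalize lor p e = c
      simp [lor]⟩
  choose P hP using hP
  have h0 : ∀ e, e ≠ 0 → P e ≠ 0 := fun e he hz => he (eq_zero_of_lor e fun y => by
    have a1 := hP e q
    have a2 := hP e (e0 n)
    have a3 := hP e y
    have a4 := hP e (y + e0 n)
    rw [hz, map_zero] at a1 a2 a3 a4
    rw [h3, h4] at a1
    have a5 : lor p e = 0 := by linarith only [a1]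
    rw [a5] at a2 a3 a4
    rw [lor_add_left y _ p, lor_add_left y _ e] at a4
    rw [h2] at a2 a4
    have a6 : lor (e0 n) e = 0 := by linarith only [a2]
    rw [a6] at a4
    rw [lor_comm]
    linarith only [a3, a4])
  have he : e0 n ≠ 0 := fun e => by simp [e, lor_zero_left] at h2
  obtain ⟨w, hw⟩ : ∃ w, MvPolynomial.eval w (∏ e ∈ insert (e0 n) s, P e) ≠ 0 := by
    by_contra! hz
    refine Finset.prod_ne_zero_iff.2 (fun e h => h0 e ?_) (MvPolynomial.funext hz)
    rintro rfl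
    exact (Finset.mem_insert.1 h).elim he.symm hs
  rw [map_prod, Finset.prod_ne_zero_iff] at hw
  have key : ∀ e ∈ insert (e0 n) s, lor (lor w w • p - (2 * lor w p) • w) e ≠ 0 := fun e h => by
    rw [lor_sub_left, lor_smul_left, lor_smul_left, ← hP]
    exact hw e h
  refine ⟨_, fun e => key _ (Finset.mem_insert_self _ _) (by rw [e, lor_zero_left]), ?_,
    fun e h => key e (Finset.mem_insert_of_mem h)⟩
  simp only [lor_sub_left, lor_sub_right, lor_smul_left, lor_smul_right, h1, lor_comm p w]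
  ring

theorem Mix.exists_ne {Γ : Subgroup (GL (Fin (n + 1)) ℝ)} (h : Mix Γ) (hn : 2 ≤ n)
    {f : Fin (n + 1) → ℝ} (hf : f ≠ 0) (s : Finset (Fin (n + 1) → ℝ)) (hs : 0 ∉ s) :
    ∃ γ ∈ Γ, ∀ e ∈ s, lor (γ.val *ᵥ f) e ≠ 0 := by
  classical
  obtain ⟨ξ, h0, h1, h2⟩ := exists_iso hn s hs
  obtain ⟨η, -, h3, h4⟩ := exists_iso hn {f, ξ} (by simp [hf.symm, h0.symm])
  have h5 := h4 f (by simp)
  have h6 := h4 ξ (by simp)
  obtain ⟨γ, l, u, u', a1, a2, a3, a4, a5⟩ := h ξ (-(lor η ξ)⁻¹ • η)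
    ⟨h1, by simp [lor_smul_left, lor_smul_right, lor_neg_left, lor_neg_right, h3], by
      rw [lor_smul_right, lor_comm ξ, neg_mul, inv_mul_cancel₀ h6]⟩
  generalize hζ : -(lor η ξ)⁻¹ • η = ζ at a5
  have h7 : lor f ζ ≠ 0 := by
    rw [← hζ, lor_smul_right, lor_comm f]
    exact mul_ne_zero (neg_ne_zero.2 (inv_ne_zero h6)) h5
  have t0 := tendsto_inv_atTop_zero.comp a2
  have t1 : Tendsto (fun k => (l k)⁻¹ • (γ k).val) atTop (𝓝 (prj ξ ζ)) := by
    have t2 := (a3.mul (((t0.smul_const 1).add ((t0.const_sub 1).smul_const (prj ξ ζ))).add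
      ((t0.mul (t0.sub_const 1)).smul_const (prj ζ ξ)))).mul a4
    simp only [zero_smul, zero_add, sub_zero, one_smul, zero_mul, add_zero, one_mul, mul_one] at t2
    refine t2.congr' ?_
    filter_upwards [a2.eventually_gt_atTop 0] with k hk
    rw [a5, ← smul_mul_assoc, ← mul_smul_comm, boost, smul_add, smul_add, smul_smul, smul_smul,
      mul_sub _ (l k), inv_mul_cancel₀ hk.ne', mul_one]
    rfl
  obtain ⟨k, hk⟩ := ((s.eventually_all (l := atTop)
    (p := fun e k => lor (((l k)⁻¹ • (γ k).val) *ᵥ f) e ≠ 0)).2 fun e he => by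
      have c : Continuous fun M : Matrix (Fin (n + 1)) (Fin (n + 1)) ℝ => lor (M *ᵥ f) e :=
        continuous_lor.comp (f := fun M => (M *ᵥ f, e)) (by fun_prop)
      refine ((c.tendsto _).comp t1).eventually_ne ?_
      rw [prj_mulVec, lor_smul_left]
      exact mul_ne_zero (neg_ne_zero.2 h7) (h2 e he)).exists
  refine ⟨γ k, a1 k, fun e he hz => hk e he ?_⟩
  rw [smul_mulVec, lor_smul_left, hz, mul_zero]

end Pool.Agent.Work.MP_c8d35c_al
end
end

-- merged part: Pool.Agent.Work.MP_c8d35c_al.RCox2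
section
-- merged part: Pool.Agent.Work.MP_c8d35c_al.RCox1
section
/-! Chambers of a locally finite mirror arrangement: simple walls. -/

namespace Pool.Agent.Work.MP_c8d35c_al

open Matrix

variable {n : ℕ} {Γ : Subgroup (GL (Fin (n + 1)) ℝ)}

/-- `x` lies on no mirror. -/
def Generic (Γ : Subgroup (GL (Fin (n + 1)) ℝ)) (x : Fin (n + 1) → ℝ) : Prop :=
  x ∈ hyp n ∧ ∀ e ∈ roots Γ, lor e x ≠ 0

/-- The roots that are positive at `x0` and negative at `x`. -/
def sepSet (Γ : Subgroup (GL (Fin (n + 1)) ℝ)) (x0 x : Fin (n + 1) → ℝ) :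
    Set (Fin (n + 1) → ℝ) :=
  {e | e ∈ roots Γ ∧ 0 < lor e x0 ∧ lor e x < 0}

lemma RCox1_cont (a : Fin (n + 1) → ℝ) : Continuous fun z : Fin (n + 1) → ℝ => lor a z :=
  continuous_lor.comp (continuous_const.prodMk continuous_id)

/-- The complement of a hyperplane is dense. -/
lemma RCox1_dense {a : Fin (n + 1) → ℝ} (ha : a ≠ 0) :
    Dense {z : Fin (n + 1) → ℝ | lor a z ≠ 0} := by
  let W : Submodule ℝ (Fin (n + 1) → ℝ) :=
    { carrier := {z | lor a z = 0}
      add_mem' := fun {x y} hx hy => by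
        have hx' : lor a x = 0 := hx
        have hy' : lor a y = 0 := hy
        change lor a (x + y) = 0
        rw [lor_add_right, hx', hy', add_zero]
      zero_mem' := lor_zero_right a
      smul_mem' := fun c x hx => by
        have hx' : lor a x = 0 := hx
        change lor a (c • x) = 0
        rw [lor_smul_right, hx', mul_zero] }
  have h1 : interior (W : Set (Fin (n + 1) → ℝ)) = ∅ := by
    by_contra hne
    have h2 := W.eq_top_of_nonempty_interior' (Set.nonempty_iff_ne_empty.2 hne)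
    refine ha (eq_zero_of_lor a fun y => ?_)
    have h3 : y ∈ W := by rw [h2]; exact Submodule.mem_top
    exact h3
  exact interior_eq_empty_iff_dense_compl.1 h1

/-- Countably many hyperplanes do not cover a nonempty open part of hyperbolic space. -/
lemma RCox1_avoid {A : Set (Fin (n + 1) → ℝ)} (hA : A.Countable) (h0 : ∀ a ∈ A, a ≠ 0)
    {U : Set (Fin (n + 1) → ℝ)} (hU : IsOpen U) {x : Fin (n + 1) → ℝ} (hxU : x ∈ U)
    (hx : x ∈ hyp n) : ∃ y ∈ U, y ∈ hyp n ∧ ∀ a ∈ A, lor a y ≠ 0 := by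
  have hq : Continuous fun z : Fin (n + 1) → ℝ => -lor z z :=
    (continuous_lor.comp (continuous_id.prodMk continuous_id)).neg
  have hC : IsOpen {z : Fin (n + 1) → ℝ | 0 < -lor z z ∧ 0 < z 0} :=
    (isOpen_lt continuous_const hq).inter (isOpen_lt continuous_const (continuous_apply 0))
  have hc : ContinuousOn (fun z : Fin (n + 1) → ℝ => (√(-lor z z))⁻¹ • z)
      {z : Fin (n + 1) → ℝ | 0 < -lor z z ∧ 0 < z 0} :=
    (hq.sqrt.continuousOn.inv₀ fun z hz => (Real.sqrt_pos.2 hz.1).ne').smul continuousOn_id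
  have hV := hc.isOpen_inter_preimage hC hU
  have hD : Dense (⋂ a ∈ A, {z : Fin (n + 1) → ℝ | lor a z ≠ 0}) :=
    dense_biInter_of_isOpen (fun a _ => isOpen_ne_fun (RCox1_cont a) continuous_const) hA
      fun a ha => RCox1_dense (h0 a ha)
  obtain ⟨z, hzD, ⟨hz1, hz2⟩, hzU⟩ := hD.exists_mem_open hV ⟨x, ⟨by rw [hx.1]; norm_num, hx.2⟩, by
    change (√(-lor x x))⁻¹ • x ∈ U
    rw [hx.1, neg_neg, Real.sqrt_one, inv_one, one_smul]
    exact hxU⟩
  have hs : 0 < √(-lor z z) := Real.sqrt_pos.2 hz1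
  refine ⟨_, hzU, ⟨?_, ?_⟩, fun a ha => ?_⟩
  · rw [lor_smul_left, lor_smul_right, ← mul_assoc, ← mul_inv, Real.mul_self_sqrt hz1.le]
    have h1 : lor z z ≠ 0 := by linarith only [hz1]
    field_simp
  · exact mul_pos (inv_pos.2 hs) hz2
  · rw [lor_smul_right]
    exact mul_ne_zero (inv_pos.2 hs).ne' (Set.mem_iInter₂.1 hzD a ha)

lemma RCox1_ne_zero {e : Fin (n + 1) → ℝ} (he : lor e e = 1) : e ≠ 0 := by
  rintro rfl
  rw [lor_zero_left] at he
  exact zero_ne_one he

/-- Distinct unit vectors are not positively proportional. -/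
lemma RCox1_comb {e e' : Fin (n + 1) → ℝ} (he : lor e e = 1) (he' : lor e' e' = 1) {a b : ℝ}
    (ha : 0 < a) (hb : 0 < b) (h : a • e' - b • e = 0) : e = e' := by
  have h1 : a • e' = b • e := sub_eq_zero.1 h
  have h2 := congrArg (fun v => lor v v) h1
  simp only [lor_smul_left, lor_smul_right, he, he', mul_one] at h2
  have h3 : a = b := (mul_self_inj_of_nonneg ha.le hb.le).1 h2
  rw [h3] at h1
  exact (smul_right_injective _ hb.ne' h1).symm

lemma RCox1_sign {a b c : ℝ} (h1 : 0 < a * b) (h2 : 0 < a * c) : 0 < b * c := by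
  have h3 : 0 < a * a * (b * c) := by
    have := mul_pos h1 h2
    linarith
  exact pos_of_mul_pos_right h3 (mul_self_nonneg a)

theorem sepSet_finite (hf : LocFin Γ) {x0 x : Fin (n + 1) → ℝ} (hx0 : x0 ∈ hyp n)
    (hx : x ∈ hyp n) : (sepSet Γ x0 x).Finite := by
  refine (hf x0 hx0 |lor x0 x|).subset fun e he => ⟨he.1, ?_⟩
  have h1 := sq_le_of_sep hx0 hx he.1.1 (mul_nonpos_of_nonneg_of_nonpos he.2.1.le he.2.2.le)
  exact sq_le_sq.1 (by linarith)

theorem exists_generic (hf : LocFin Γ) : ∃ x0, Generic Γ x0 := by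
  obtain ⟨y, -, hy⟩ := RCox1_avoid hf.countable (fun e he => RCox1_ne_zero he.1) isOpen_univ
    (Set.mem_univ (e0 n)) e0_mem
  exact ⟨y, hy⟩

/-- A chamber is relatively open. -/
theorem chamber_open (hf : LocFin Γ) (x0 : Fin (n + 1) → ℝ) :
    ∃ U : Set (Fin (n + 1) → ℝ), IsOpen U ∧ chamber Γ x0 = U ∩ hyp n := by
  refine ⟨⋃₀ {U | IsOpen U ∧ U ∩ hyp n ⊆ chamber Γ x0}, isOpen_sUnion fun U hU => hU.1,
    Set.Subset.antisymm (fun x hx => ⟨?_, hx.1⟩) ?_⟩
  · refine ⟨{y | lor x y ^ 2 < 5} ∩ ⋂ e ∈ {e ∈ roots Γ | |lor e x| ≤ 2},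
      {y | 0 < lor e y * lor e x0}, ⟨?_, ?_⟩, ?_, ?_⟩
    · exact (isOpen_lt ((RCox1_cont x).pow 2) continuous_const).inter
        ((hf x hx.1 2).isOpen_biInter fun e _ =>
          isOpen_lt continuous_const ((RCox1_cont e).mul continuous_const))
    · rintro y ⟨⟨hy1, hy2⟩, hy⟩
      refine ⟨hy, fun e he => ?_⟩
      by_cases h2 : |lor e x| ≤ 2
      · exact Set.mem_iInter₂.1 hy2 e ⟨he, h2⟩
      · refine RCox1_sign (a := lor e x) ?_ (hx.2 e he)
        by_contra h3
        have h4 := sq_le_of_sep hx.1 hy he.1 (not_lt.1 h3)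
        have h5 : lor x y ^ 2 < 5 := hy1
        refine h2 (abs_le_of_sq_le_sq (by linarith) (by norm_num))
    · change lor x x ^ 2 < 5
      rw [hx.1.1]
      norm_num
    · exact Set.mem_iInter₂.2 fun e he => hx.2 e he.1
  · rintro y ⟨⟨U, hU, hyU⟩, hy⟩
    exact hU.2 ⟨hyU, hy⟩

/-- If some mirror separates `x0` from `x`, then some wall of the chamber of `x0` does. -/
theorem exists_simple (hΓ : Γ ≤ isomH n) (hf : LocFin Γ) {x0 x : Fin (n + 1) → ℝ}
    (hx0 : Generic Γ x0) (hx : Generic Γ x) (h : (sepSet Γ x0 x).Nonempty) :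
    ∃ s ∈ sepSet Γ x0 x, sepSet Γ x0 ((refl s).val *ᵥ x0) = {s} := by
  have hF := sepSet_finite hf hx0.1 hx.1
  obtain ⟨U, hU, hUc⟩ := chamber_open hf x
  have hxc : x ∈ chamber Γ x := ⟨hx.1, fun e he => mul_self_pos.2 (hx.2 e he)⟩
  rw [hUc] at hxc
  have hA : ((fun p : (Fin (n + 1) → ℝ) × (Fin (n + 1) → ℝ) =>
      lor p.1 x0 • p.2 - lor p.2 x0 • p.1) ''
      {p ∈ sepSet Γ x0 x ×ˢ sepSet Γ x0 x | p.1 ≠ p.2}).Countable :=
    (((hF.prod hF).subset fun _ hp => hp.1).image _).countable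
  obtain ⟨y, hyU, hy, hyA⟩ := RCox1_avoid hA (by
    rintro _ ⟨p, ⟨⟨h1, h2⟩, hne⟩, rfl⟩ h0
    exact hne (RCox1_comb h1.1.1 h2.1.1 h1.2.1 h2.2.1 h0)) hU hxc.1 hx.1
  have hyc : y ∈ chamber Γ x := by
    rw [hUc]
    exact ⟨hyU, hy⟩
  have hneg : ∀ e ∈ sepSet Γ x0 x, 0 < -lor e y := fun e he => by
    have h1 := hyc.2 e he.1
    have h2 := he.2.2
    by_contra h3
    nlinarith only [h1, h2, h3]
  obtain ⟨s, hs, hmin⟩ := Set.exists_min_image _ (fun e => lor e x0 / -lor e y) hF h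
  have hα := hneg s hs
  have hβ := hs.2.1
  have hz : ∀ e, lor e ((-lor s y) • x0 + lor s x0 • y) =
      -lor s y * lor e x0 + lor s x0 * lor e y := fun e => by
    rw [lor_add_right, lor_smul_right, lor_smul_right]
  have hzs : lor s ((-lor s y) • x0 + lor s x0 • y) = 0 := by
    rw [hz]
    ring
  have hpos : ∀ e ∈ roots Γ, 0 < lor e x0 → e ≠ s →
      0 < lor e ((-lor s y) • x0 + lor s x0 • y) := by
    intro e he h0 hne
    rw [hz]
    by_cases heF : e ∈ sepSet Γ x0 x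
    · have h1 : lor s x0 / -lor s y ≤ lor e x0 / -lor e y := hmin e heF
      rw [div_le_div_iff₀ hα (hneg e heF)] at h1
      have h2 := hyA _ ⟨(s, e), ⟨⟨hs, heF⟩, hne.symm⟩, rfl⟩
      simp only [lor_sub_left, lor_smul_left] at h2
      refine lt_of_le_of_ne (by linarith) fun h3 => h2 (by linarith)
    · have h1 : 0 < lor e x :=
        lt_of_le_of_ne (not_lt.1 fun h3 => heF ⟨he, h0, h3⟩) (hx.2 e he).symm
      have h2 : 0 < lor e y := pos_of_mul_pos_left (hyc.2 e he) h1.le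
      have := mul_pos hα h0
      have := mul_pos hβ h2
      linarith
  refine ⟨s, hs, Set.eq_singleton_iff_unique_mem.2 ⟨⟨hs.1, hβ, ?_⟩, fun e he => ?_⟩⟩
  · rw [refl_mulVec_unit hs.1.1, lor_sub_right, lor_smul_right, hs.1.1, lor_comm x0 s]
    linarith
  · by_contra hne
    have hf1 : -((refl s).val *ᵥ e) ∈ roots Γ :=
      neg_mem_roots (mulVec_mem_roots hΓ hs.1.2 he.1)
    have h1 := he.2.2
    rw [refl_mulVec_unit hs.1.1, lor_sub_right, lor_smul_right, lor_comm x0 s] at h1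
    have h2 : 0 < lor (-((refl s).val *ᵥ e)) x0 := by
      rw [lor_neg_left, refl_mulVec_unit hs.1.1, lor_sub_left, lor_smul_left]
      linarith
    have h3 : lor (-((refl s).val *ᵥ e)) ((-lor s y) • x0 + lor s x0 • y) < 0 := by
      rw [lor_neg_left, refl_mulVec_unit hs.1.1, lor_sub_left, lor_smul_left, hzs]
      have := hpos e he.1 he.2.1 hne
      linarith
    by_cases h4 : -((refl s).val *ᵥ e) = s
    · rw [h4, hzs] at h3
      exact lt_irrefl _ h3
    · exact lt_asymm h3 (hpos _ hf1 h2 h4)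

end Pool.Agent.Work.MP_c8d35c_al
end

-- merged part: Pool.Agent.Work.MP_c8d35c_al.RCox2
section
/-! A reflection group acts simply transitively on its chambers. -/

namespace Pool.Agent.Work.MP_c8d35c_al

open Matrix

variable {n : ℕ} {S : Set (GL (Fin (n + 1)) ℝ)}

section Aux

variable {Γ : Subgroup (GL (Fin (n + 1)) ℝ)} {x0 x s e : Fin (n + 1) → ℝ}

lemma RCox2_refl_mem (he : e ∈ roots Γ) : refl e ∈ isomH n :=
  refl_mem_isomH (by rw [he.1]; exact one_pos)

lemma RCox2_adj (hs : s ∈ roots Γ) (a b : Fin (n + 1) → ℝ) :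
    lor ((refl s).val *ᵥ a) b = lor a ((refl s).val *ᵥ b) := by
  rw [isomH_lor_inv (RCox2_refl_mem hs), refl_inv]

lemma RCox2_self (hs : s ∈ roots Γ) : (refl s).val *ᵥ s = -s := by
  rw [refl_mulVec_unit hs.1, hs.1, mul_one, two_smul, sub_add_cancel_left]

lemma RCox2_twice (s a : Fin (n + 1) → ℝ) : (refl s).val *ᵥ ((refl s).val *ᵥ a) = a := by
  rw [← gl_mul_mulVec, refl_mul_self, Units.val_one, Matrix.one_mulVec]

lemma RCox2_generic (hΓ : Γ ≤ isomH n) {g : GL (Fin (n + 1)) ℝ} (hg : g ∈ Γ)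
    (hx : Generic Γ x) : Generic Γ (g.val *ᵥ x) := by
  refine ⟨isomH_hyp (hΓ hg) hx.1, fun e he => ?_⟩
  have h := hx.2 _ (mulVec_mem_roots hΓ (Γ.inv_mem hg) he)
  rwa [isomH_lor_inv (hΓ (Γ.inv_mem hg)), inv_inv] at h

/-- The walls of the chamber of `x0`. -/
def RCox2_simple (Γ : Subgroup (GL (Fin (n + 1)) ℝ)) (x0 s : Fin (n + 1) → ℝ) : Prop :=
  sepSet Γ x0 ((refl s).val *ᵥ x0) = {s}

lemma RCox2_simple.root (hs : RCox2_simple Γ x0 s) : s ∈ roots Γ ∧ 0 < lor s x0 := by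
  have h : s ∈ sepSet Γ x0 ((refl s).val *ᵥ x0) := by
    rw [hs]
    rfl
  exact ⟨h.1, h.2.1⟩

/-- A simple reflection permutes the other positive roots. -/
lemma RCox2_simple.pos (hΓ : Γ ≤ isomH n) (hx0 : Generic Γ x0) (hs : RCox2_simple Γ x0 s)
    (he : e ∈ roots Γ) (hp : 0 < lor e x0) (hne : e ≠ s) : 0 < lor ((refl s).val *ᵥ e) x0 := by
  have h1 := hx0.2 _ (mulVec_mem_roots hΓ hs.root.1.2 he)
  refine lt_of_le_of_ne (not_lt.1 fun h => hne ?_) h1.symm
  have h2 : e ∈ sepSet Γ x0 ((refl s).val *ᵥ x0) := ⟨he, hp, by rwa [← RCox2_adj hs.root.1]⟩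
  rwa [hs] at h2

lemma RCox2_simple.lt (hΓ : Γ ≤ isomH n) (hf : LocFin Γ) (hx0 : Generic Γ x0) (hx : x ∈ hyp n)
    (hs : RCox2_simple Γ x0 s) (hm : s ∈ sepSet Γ x0 x) :
    (sepSet Γ x0 ((refl s).val *ᵥ x)).ncard < (sepSet Γ x0 x).ncard := by
  have hfin := sepSet_finite hf hx0.1 hx
  refine lt_of_le_of_lt (Set.ncard_le_ncard_of_injOn (t := sepSet Γ x0 x \ {s})
    (fun e => (refl s).val *ᵥ e) (fun e he => ?_) (fun a _ b _ h => ?_) hfin.sdiff)
    (Set.ncard_sdiff_singleton_lt_of_mem hm hfin)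
  · have hne : e ≠ s := by
      rintro rfl
      have h := he.2.2
      rw [← RCox2_adj hm.1, RCox2_self hm.1, lor_neg_left] at h
      linarith [hm.2.2]
    refine ⟨⟨mulVec_mem_roots hΓ hm.1.2 he.1, hs.pos hΓ hx0 he.1 he.2.1 hne, ?_⟩, fun h => ?_⟩
    · rw [RCox2_adj hm.1]
      exact he.2.2
    · have h1 : (refl s).val *ᵥ e = s := h
      have h2 : e = -s := by rw [← RCox2_twice s e, h1, RCox2_self hm.1]
      have h3 := he.2.1
      rw [h2, lor_neg_left] at h3
      linarith only [h3, hm.2.1]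
  · have h1 : (refl s).val *ᵥ a = (refl s).val *ᵥ b := h
    rw [← RCox2_twice s a, h1, RCox2_twice]

lemma RCox2_trans (hΓ : Γ ≤ isomH n) (hf : LocFin Γ) (hx0 : Generic Γ x0) (k : ℕ) :
    ∀ x, Generic Γ x → (sepSet Γ x0 x).ncard = k → ∃ g ∈ Γ, g.val *ᵥ x ∈ chamber Γ x0 := by
  induction k using Nat.strong_induction_on with
  | _ k ih =>
    intro x hx hk
    rcases (sepSet Γ x0 x).eq_empty_or_nonempty with h | h
    · refine ⟨1, Γ.one_mem, ?_⟩
      rw [Units.val_one, Matrix.one_mulVec]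
      have key : ∀ e ∈ roots Γ, 0 < lor e x0 → 0 < lor e x := fun e he hp => by
        refine lt_of_le_of_ne (not_lt.1 fun h' => ?_) (hx.2 e he).symm
        have h1 : e ∈ sepSet Γ x0 x := ⟨he, hp, h'⟩
        rw [h] at h1
        exact h1
      refine ⟨hx.1, fun e he => ?_⟩
      rcases lt_or_gt_of_ne (hx0.2 e he) with h1 | h1
      · have h2 := key _ (neg_mem_roots he) (by rw [lor_neg_left]; linarith)
        rw [lor_neg_left] at h2
        exact mul_pos_of_neg_of_neg (by linarith) h1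
      · exact mul_pos (key e he h1) h1
    · obtain ⟨s, hm, hs⟩ := exists_simple hΓ hf hx0 hx h
      obtain ⟨g, hg, h1⟩ := ih _ (hk ▸ RCox2_simple.lt hΓ hf hx0 hx.1 hs hm) _
        (RCox2_generic hΓ hm.1.2 hx) rfl
      exact ⟨g * refl s, Γ.mul_mem hg hm.1.2, by rwa [gl_mul_mulVec]⟩

/-- Products of simple reflections. -/
def RCox2_W (Γ : Subgroup (GL (Fin (n + 1)) ℝ)) (x0 : Fin (n + 1) → ℝ)
    (g : GL (Fin (n + 1)) ℝ) : Prop :=
  ∃ L : List (Fin (n + 1) → ℝ), (∀ s ∈ L, RCox2_simple Γ x0 s) ∧ g = (L.map refl).prod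

lemma RCox2_W.mul {g h : GL (Fin (n + 1)) ℝ} (hg : RCox2_W Γ x0 g) (hh : RCox2_W Γ x0 h) :
    RCox2_W Γ x0 (g * h) := by
  obtain ⟨L, hL, rfl⟩ := hg
  obtain ⟨M, hM, rfl⟩ := hh
  refine ⟨L ++ M, fun s hs => (List.mem_append.1 hs).elim (hL s) (hM s), ?_⟩
  rw [List.map_append, List.prod_append]

lemma RCox2_simple.W (hs : RCox2_simple Γ x0 s) : RCox2_W Γ x0 (refl s) :=
  ⟨[s], fun t ht => by rwa [List.mem_singleton.1 ht], by simp⟩

lemma RCox2_sepW (hΓ : Γ ≤ isomH n) (hf : LocFin Γ) (hx0 : Generic Γ x0) (k : ℕ) :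
    ∀ x, Generic Γ x → (sepSet Γ x0 x).ncard = k → ∀ e ∈ sepSet Γ x0 x,
      RCox2_W Γ x0 (refl e) := by
  induction k using Nat.strong_induction_on with
  | _ k ih =>
    intro x hx hk e he
    obtain ⟨s, hm, hs⟩ := exists_simple hΓ hf hx0 hx ⟨e, he⟩
    have hs' : RCox2_simple Γ x0 s := hs
    by_cases hne : e = s
    · rw [hne]
      exact hs'.W
    have h1 := ih _ (hk ▸ hs'.lt hΓ hf hx0 hx.1 hm) _ (RCox2_generic hΓ hm.1.2 hx) rfl
      ((refl s).val *ᵥ e) ⟨mulVec_mem_roots hΓ hm.1.2 he.1, hs'.pos hΓ hx0 he.1 he.2.1 hne, by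
        rw [isomH_lor (RCox2_refl_mem hm.1)]
        exact he.2.2⟩
    have h2 : refl e = refl s * refl ((refl s).val *ᵥ e) * refl s := by
      rw [← conj_refl (RCox2_refl_mem hm.1), refl_inv, ← mul_assoc, ← mul_assoc, refl_mul_self,
        one_mul, mul_assoc, refl_mul_self, mul_one]
    rw [h2]
    exact (hs'.W.mul h1).mul hs'.W

lemma RCox2_rootW (hΓ : Γ ≤ isomH n) (hf : LocFin Γ) (hx0 : Generic Γ x0) (he : e ∈ roots Γ) :
    RCox2_W Γ x0 (refl e) := by
  have key : ∀ e ∈ roots Γ, 0 < lor e x0 → RCox2_W Γ x0 (refl e) := fun e he hp =>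
    RCox2_sepW hΓ hf hx0 _ _ (RCox2_generic hΓ he.2 hx0) rfl e ⟨he, hp, by
      rw [← RCox2_adj he, RCox2_self he, lor_neg_left]
      linarith⟩
  rcases lt_or_gt_of_ne (hx0.2 e he) with h | h
  · rw [← refl_neg]
    exact key _ (neg_mem_roots he) (by rw [lor_neg_left]; linarith)
  · exact key e he h

lemma RCox2_prod_mem {L : List (Fin (n + 1) → ℝ)} (hL : ∀ s ∈ L, RCox2_simple Γ x0 s) :
    (L.map refl).prod ∈ Γ := by
  refine Γ.list_prod_mem fun g hg => ?_
  obtain ⟨s, hs, rfl⟩ := List.mem_map.1 hg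
  exact (hL s hs).root.1.2

/-- The exchange condition. -/
lemma RCox2_exch (hΓ : Γ ≤ isomH n) (hx0 : Generic Γ x0) (he : e ∈ roots Γ)
    (hp : 0 < lor e x0) (L : List (Fin (n + 1) → ℝ)) (hL : ∀ s ∈ L, RCox2_simple Γ x0 s)
    (hn : lor ((L.map refl).prod.val *ᵥ e) x0 < 0) :
    ∃ M : List (Fin (n + 1) → ℝ), (∀ s ∈ M, RCox2_simple Γ x0 s) ∧ M.length < L.length ∧
      (L.map refl).prod * refl e = (M.map refl).prod := by
  induction L with
  | nil =>
    rw [List.map_nil, List.prod_nil, Units.val_one, Matrix.one_mulVec] at hn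
    linarith only [hp, hn]
  | cons t L ih =>
    have hL' : ∀ s ∈ L, RCox2_simple Γ x0 s := fun s hs => hL s (List.mem_cons_of_mem _ hs)
    have ht := hL t List.mem_cons_self
    have hw := RCox2_prod_mem hL'
    have hr := mulVec_mem_roots hΓ hw he
    rw [List.map_cons, List.prod_cons] at hn ⊢
    rcases lt_or_gt_of_ne (hx0.2 _ hr) with h | h
    · obtain ⟨M, hM, hl, e1⟩ := ih hL' h
      refine ⟨t :: M, fun s hs => ?_, by simpa using hl, ?_⟩
      · rcases List.mem_cons.1 hs with rfl | hs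
        · exact ht
        · exact hM s hs
      · rw [mul_assoc, e1, List.map_cons, List.prod_cons]
    · have h1 : (L.map refl).prod.val *ᵥ e = t := by
        by_contra hne
        have h2 := ht.pos hΓ hx0 hr h hne
        rw [gl_mul_mulVec] at hn
        linarith
      have h2 := conj_refl (hΓ hw) e
      rw [h1, mul_inv_eq_iff_eq_mul] at h2
      refine ⟨L, hL', by simp, ?_⟩
      rw [mul_assoc, h2, ← mul_assoc, refl_mul_self, one_mul]

lemma RCox2_free (hΓ : Γ ≤ isomH n) (hx0 : Generic Γ x0) (k : ℕ) :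
    ∀ L : List (Fin (n + 1) → ℝ), L.length = k → (∀ s ∈ L, RCox2_simple Γ x0 s) →
      (∀ e ∈ roots Γ, 0 < lor e x0 → 0 < lor ((L.map refl).prod.val *ᵥ e) x0) →
      (L.map refl).prod = 1 := by
  induction k using Nat.strong_induction_on with
  | _ k ih =>
    intro L hk hL hP
    rcases L.eq_nil_or_concat with rfl | ⟨L', s, rfl⟩
    · rfl
    · rw [List.concat_eq_append] at hk hL hP ⊢
      have hs := hL s (by simp)
      have hL' : ∀ t ∈ L', RCox2_simple Γ x0 t := fun t ht => hL t (List.mem_append_left _ ht)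
      have e1 : ((L' ++ [s]).map refl).prod = (L'.map refl).prod * refl s := by simp
      rw [e1] at hP ⊢
      have h1 := hP s hs.root.1 hs.root.2
      rw [gl_mul_mulVec, RCox2_self hs.root.1, Matrix.mulVec_neg, lor_neg_left] at h1
      obtain ⟨M, hM, hl, e2⟩ := RCox2_exch hΓ hx0 hs.root.1 hs.root.2 L' hL' (by linarith only [h1])
      rw [e2] at hP ⊢
      refine ih M.length ?_ M rfl hM hP
      rw [← hk, List.length_append]
      omega

end Aux

lemma RCox2_gen (hS : ∀ g ∈ S, IsRefl g) {g : GL (Fin (n + 1)) ℝ} (hg : g ∈ S) :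
    ∃ e ∈ roots (Subgroup.closure S), g = refl e := by
  obtain ⟨e, he, rfl⟩ := (isRefl_iff g).1 (hS g hg)
  exact ⟨e, ⟨he, Subgroup.subset_closure hg⟩, rfl⟩

lemma RCox2_ind (hS : ∀ g ∈ S, IsRefl g) {p : GL (Fin (n + 1)) ℝ → Prop}
    (h0 : ∀ e ∈ roots (Subgroup.closure S), p (refl e)) (h1 : p 1)
    (h2 : ∀ g h, p g → p h → p (g * h)) {g : GL (Fin (n + 1)) ℝ} (hg : g ∈ Subgroup.closure S) :
    p g := by
  induction hg using Subgroup.closure_induction'' with
  | mem g hg =>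
    obtain ⟨e, he, rfl⟩ := RCox2_gen hS hg
    exact h0 e he
  | inv_mem g hg =>
    obtain ⟨e, he, rfl⟩ := RCox2_gen hS hg
    rw [refl_inv]
    exact h0 e he
  | one => exact h1
  | mul g h _ _ hg hh => exact h2 g h hg hh

theorem closure_countable (hS : ∀ g ∈ S, IsRefl g) (hf : LocFin (Subgroup.closure S)) :
    Countable (Subgroup.closure S) := by
  have hc := hf.countable.to_subtype
  let F : List (roots (Subgroup.closure S)) → GL (Fin (n + 1)) ℝ :=
    fun L => (L.map fun e => refl e.1).prod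
  have h1 : ∀ g ∈ Subgroup.closure S, ∃ L, F L = g := by
    intro g hg
    refine RCox2_ind hS (p := fun g => ∃ L, F L = g) (fun e he => ⟨[⟨e, he⟩], ?_⟩) ⟨[], rfl⟩ ?_ hg
    · simp [F]
    · rintro _ _ ⟨L, rfl⟩ ⟨M, rfl⟩
      exact ⟨L ++ M, by simp only [F, List.map_append, List.prod_append]⟩
  have h2 : (Subgroup.closure S : Set (GL (Fin (n + 1)) ℝ)).Countable :=
    (Set.countable_range F).mono h1
  exact h2.to_subtype

theorem chamber_trans (hS : ∀ g ∈ S, IsRefl g) (hf : LocFin (Subgroup.closure S))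
    {x0 x : Fin (n + 1) → ℝ} (hx0 : Generic (Subgroup.closure S) x0)
    (hx : Generic (Subgroup.closure S) x) :
    ∃ g ∈ Subgroup.closure S, g.val *ᵥ x ∈ chamber (Subgroup.closure S) x0 := by
  exact RCox2_trans (closure_le_isomH hS) hf hx0 _ x hx rfl

theorem chamber_free (hS : ∀ g ∈ S, IsRefl g) (hf : LocFin (Subgroup.closure S))
    {x0 x : Fin (n + 1) → ℝ} (hx0 : Generic (Subgroup.closure S) x0)
    (hx : x ∈ chamber (Subgroup.closure S) x0) {g : GL (Fin (n + 1)) ℝ}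
    (hg : g ∈ Subgroup.closure S) (hgx : g.val *ᵥ x ∈ chamber (Subgroup.closure S) x0) :
    g = 1 := by
  have hΓ := closure_le_isomH hS
  obtain ⟨L, hL, rfl⟩ : RCox2_W (Subgroup.closure S) x0 g :=
    RCox2_ind hS (fun e he => RCox2_rootW hΓ hf hx0 he) ⟨[], by simp, rfl⟩
      (fun _ _ => RCox2_W.mul) hg
  refine RCox2_free hΓ hx0 _ L rfl hL fun e he hp => ?_
  have h1 := hgx.2 _ (mulVec_mem_roots hΓ hg he)
  rw [isomH_lor (hΓ hg)] at h1
  exact (pos_iff_pos_of_mul_pos h1).1 ((pos_iff_pos_of_mul_pos (hx.2 e he)).2 hp)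

end Pool.Agent.Work.MP_c8d35c_al
end

-- merged part: Pool.Agent.Work.MP_c8d35c_al.RMu
section
/-! Invariance of the hyperbolic volume. -/

namespace Pool.Agent.Work.MP_c8d35c_al

open Matrix MeasureTheory

variable {n : ℕ}

/-- Determinant of a matrix whose first column is a point of hyperbolic space and whose other
columns are tangent at this point. -/
lemma mu_det_frame {x : Fin (n + 1) → ℝ} (hx : x ∈ hyp n)
    (A : Matrix (Fin (n + 1)) (Fin (n + 1)) ℝ) (h0 : ∀ i, A i 0 = x i)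
    (h1 : ∀ j : Fin n, lor x (fun i => A i j.succ) = 0) :
    x 0 * A.det = (A.submatrix Fin.succ Fin.succ).det := by
  set c : Fin (n + 1) → ℝ := Fin.cons (-x 0) (fun i => x i.succ) with hc
  have hrow : ∀ j, (∑ k, c k • A k) j = lor x (fun i => A i j) := by
    intro j
    simp [hc, lor, Finset.sum_apply, Fin.sum_univ_succ]
  have hd := Matrix.det_updateRow_sum A 0 c
  rw [Matrix.det_succ_row_zero, Fin.sum_univ_succ] at hd
  have hz : ∀ j : Fin n, (A.updateRow 0 (∑ k, c k • A k)) 0 j.succ = 0 := by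
    intro j
    rw [Matrix.updateRow_self, hrow, h1]
  have h00 : (A.updateRow 0 (∑ k, c k • A k)) 0 0 = -1 := by
    rw [Matrix.updateRow_self, hrow]
    have : (fun i => A i 0) = x := funext h0
    rw [this]; exact hx.1
  have hsub : (A.updateRow 0 (∑ k, c k • A k)).submatrix Fin.succ (Fin.succAbove 0) =
      A.submatrix Fin.succ Fin.succ := by
    ext i j
    simp
  simp only [hz, mul_zero, zero_mul, Finset.sum_const_zero, add_zero, h00, hsub] at hd
  have hc0 : c 0 = -x 0 := by simp [hc]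
  rw [hc0] at hd
  simp only [Fin.val_zero, pow_zero, smul_eq_mul] at hd
  linarith

/-- The Jacobian matrix of `lift`. -/
noncomputable def muN (y : Fin n → ℝ) : Matrix (Fin (n + 1)) (Fin n) ℝ :=
  Matrix.of (Fin.cons (fun j => y j / √(1 + ∑ i, y i ^ 2))
    (fun i => (1 : Matrix (Fin n) (Fin n) ℝ) i) : Fin (n + 1) → Fin n → ℝ)

lemma mu_sqrt_pos (y : Fin n → ℝ) : 0 < √(1 + ∑ i, y i ^ 2) :=
  Real.sqrt_pos.2 (by positivity)

lemma mu_hasFDerivAt_lift (y : Fin n → ℝ) :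
    HasFDerivAt (lift : (Fin n → ℝ) → Fin (n + 1) → ℝ)
      (LinearMap.toContinuousLinearMap (Matrix.toLin' (muN y))) y := by
  rw [hasFDerivAt_pi']
  intro i
  refine Fin.cases ?_ (fun j => ?_) i
  · have h1 : HasFDerivAt (fun y : Fin n → ℝ => 1 + ∑ i, y i ^ 2)
        (∑ i, (2 * y i) • (ContinuousLinearMap.proj i : (Fin n → ℝ) →L[ℝ] ℝ)) y := by
      apply HasFDerivAt.const_add
      apply HasFDerivAt.fun_sum
      intro i _
      have := (hasFDerivAt_apply (𝕜 := ℝ) i y).pow 2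
      simpa using this
    have h2 := h1.sqrt (by positivity)
    have hs := mu_sqrt_pos y
    refine HasFDerivAt.congr_fderiv h2 ?_
    refine ContinuousLinearMap.ext fun v => ?_
    simp only [muN, _root_.smul_apply, _root_.sum_apply,
      ContinuousLinearMap.proj_apply, smul_eq_mul, ContinuousLinearMap.comp_apply,
      LinearMap.coe_toContinuousLinearMap', Matrix.toLin'_apply, Matrix.mulVec, dotProduct,
      Matrix.of_apply, Fin.cons_zero, Finset.mul_sum]
    refine Finset.sum_congr rfl fun k _ => ?_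
    field_simp
  · have h1 := hasFDerivAt_apply (𝕜 := ℝ) j y
    have h2 : (fun x : Fin n → ℝ => lift x j.succ) = fun f => f j := by
      funext x; simp
    rw [h2]
    refine HasFDerivAt.congr_fderiv h1 ?_
    refine ContinuousLinearMap.ext fun v => ?_
    simp [muN, Matrix.mulVec, dotProduct, Matrix.one_apply]

lemma mu_lor_muN (y : Fin n → ℝ) (j : Fin n) : lor (lift y) (fun i => muN y i j) = 0 := by
  have hs := mu_sqrt_pos y
  simp [lor, muN, Matrix.one_apply]
  field_simp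
  ring

/-- The Jacobian matrix of the action of `g` in the chart `lift`. -/
noncomputable def muD (G : Matrix (Fin (n + 1)) (Fin (n + 1)) ℝ) (y : Fin n → ℝ) :
    Matrix (Fin n) (Fin n) ℝ := G.submatrix Fin.succ id * muN y

lemma mu_det {g : GL (Fin (n + 1)) ℝ} (hg : g ∈ isomH n) (y : Fin n → ℝ) :
    |(muD g.val y).det| = (g.val *ᵥ lift y) 0 / √(1 + ∑ i, y i ^ 2) := by
  have hs := mu_sqrt_pos y
  set M : Matrix (Fin (n + 1)) (Fin (n + 1)) ℝ :=
    Matrix.of fun i => (Fin.cons (lift y i) (muN y i) : Fin (n + 1) → ℝ) with hM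
  have hM0 : ∀ i, M i 0 = lift y i := fun i => by simp [hM]
  have hM1 : ∀ i (j : Fin n), M i j.succ = muN y i j := fun i j => by simp [hM]
  have h1 := mu_det_frame (lift_mem y) M hM0 (fun j => by
    simp only [hM1]; exact mu_lor_muN y j)
  have hI : M.submatrix Fin.succ Fin.succ = 1 := by
    ext i j
    simp [hM1, muN]
  rw [hI, Matrix.det_one, lift_zero] at h1
  have hx' := isomH_hyp hg (lift_mem y)
  have h2 := mu_det_frame hx' (g.val * M) (fun i => by
    simp [Matrix.mul_apply, hM0, Matrix.mulVec, dotProduct]) (fun j => by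
    have : (fun i => (g.val * M) i j.succ) = g.val *ᵥ (fun i => muN y i j) := by
      funext i
      simp [Matrix.mul_apply, hM1, Matrix.mulVec, dotProduct]
    rw [this, isomH_lor hg]
    exact mu_lor_muN y j)
  have hD : (g.val * M).submatrix Fin.succ Fin.succ = muD g.val y := by
    ext i j
    simp [muD, Matrix.mul_apply, hM1]
  rw [hD, Matrix.det_mul] at h2
  have hMd : M.det = 1 / √(1 + ∑ i, y i ^ 2) := by
    field_simp
    linarith
  rw [← h2, abs_mul, abs_mul, abs_det_of_mem_isomH hg, abs_of_pos hx'.2, hMd,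
    abs_of_pos (by positivity)]
  ring

lemma mu_hasFDerivAt_phi (G : Matrix (Fin (n + 1)) (Fin (n + 1)) ℝ) (y : Fin n → ℝ) :
    HasFDerivAt (fun y : Fin n → ℝ => (Fin.tail (G *ᵥ lift y) : Fin n → ℝ))
      (LinearMap.toContinuousLinearMap (Matrix.toLin' (muD G y))) y := by
  have h1 := (LinearMap.toContinuousLinearMap
    (Matrix.toLin' (G.submatrix Fin.succ id))).hasFDerivAt.comp y (mu_hasFDerivAt_lift y)
  refine HasFDerivAt.congr_fderiv h1 ?_
  refine ContinuousLinearMap.ext fun v => ?_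
  simp [muD]

lemma mu_lintegral {g : GL (Fin (n + 1)) ℝ} (hg : g ∈ isomH n)
    {f : (Fin (n + 1) → ℝ) → ENNReal} (hf : Measurable f) :
    ∫⁻ x, f (g.val *ᵥ x) ∂hmu n = ∫⁻ x, f x ∂hmu n := by
  have hm : Measurable fun x : Fin (n + 1) → ℝ => g.val *ᵥ x :=
    (Continuous.matrix_mulVec continuous_const continuous_id).measurable
  set φ : (Fin n → ℝ) → (Fin n → ℝ) := fun y => Fin.tail (g.val *ᵥ lift y) with hφ
  have hl : ∀ y, lift (φ y) = g.val *ᵥ lift y := fun y => lift_tail (isomH_hyp hg (lift_mem y))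
  have htl : ∀ y : Fin n → ℝ, Fin.tail (lift y) = y := fun y => by
    funext i; simp [Fin.tail]
  have hinj : Function.Injective φ := by
    intro a b hab
    have h1 : g.val *ᵥ lift a = g.val *ᵥ lift b := by rw [← hl, ← hl, hab]
    have h2 : lift a = lift b := by
      rw [← gl_inv_mulVec g (lift a), h1, gl_inv_mulVec]
    rw [← htl a, h2, htl]
  have hsurj : Function.Surjective φ := by
    intro z
    refine ⟨Fin.tail ((g⁻¹).val *ᵥ lift z), ?_⟩
    simp only [hφ]
    rw [lift_tail (isomH_hyp ((isomH n).inv_mem hg) (lift_mem z)), gl_mulVec_inv, htl]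
  have hcv := lintegral_image_eq_lintegral_abs_det_fderiv_mul (volume : Measure (Fin n → ℝ))
    (s := Set.univ) (f := φ) MeasurableSet.univ
    (fun y _ => (mu_hasFDerivAt_phi g.val y).hasFDerivWithinAt) hinj.injOn
    (fun y => ENNReal.ofReal (1 / √(1 + ∑ i, y i ^ 2)) * f (lift y))
  rw [Set.image_univ_of_surjective hsurj, Measure.restrict_univ] at hcv
  rw [lintegral_hmu (f := fun x => f (g.val *ᵥ x)) (hf.comp hm), lintegral_hmu hf, hcv]
  refine lintegral_congr fun y => ?_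
  rw [LinearMap.det_toContinuousLinearMap, LinearMap.det_toLin', mu_det hg, hl, ← mul_assoc,
    ← ENNReal.ofReal_mul (div_nonneg (isomH_hyp hg (lift_mem y)).2.le (mu_sqrt_pos y).le)]
  congr 2
  have h0 : √(1 + ∑ i, φ y i ^ 2) = (g.val *ᵥ lift y) 0 := by rw [← hl, lift_zero]
  have hp := (isomH_hyp hg (lift_mem y)).2
  have hs := mu_sqrt_pos y
  rw [h0]
  field_simp

theorem hmu_invariant {g : GL (Fin (n + 1)) ℝ} (hg : g ∈ isomH n) :
    MeasurePreserving (fun x => g.val *ᵥ x) (hmu n) (hmu n) := by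
  have hm : Measurable fun x : Fin (n + 1) → ℝ => g.val *ᵥ x :=
    (Continuous.matrix_mulVec continuous_const continuous_id).measurable
  refine ⟨hm, ?_⟩
  ext s hs
  rw [← lintegral_indicator_one hs, ← lintegral_indicator_one hs,
    lintegral_map (measurable_one.indicator hs) hm]
  exact mu_lintegral hg (measurable_one.indicator hs)

lemma mu_apply {s : Set (Fin (n + 1) → ℝ)} (hs : MeasurableSet s) :
    hmu n s = (volume.withDensity fun y : Fin n → ℝ =>
      ENNReal.ofReal (1 / √(1 + ∑ i, y i ^ 2))) (lift ⁻¹' s) := by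
  rw [hmu, Measure.map_apply continuous_lift.measurable hs]

theorem hmu_mirror {e : Fin (n + 1) → ℝ} (he : lor e e = 1) : hmu n {x | lor e x = 0} = 0 := by
  rcases Nat.eq_zero_or_pos n with hn | hn
  · subst hn
    exfalso
    simp only [lor, Finset.univ_eq_empty, Finset.sum_empty, add_zero] at he
    nlinarith only [he, mul_self_nonneg (e 0)]
  let i : Fin n := ⟨0, hn⟩
  set s : ℝ := √(1 + e 0 ^ 2) with hs
  have hsp : 0 < s := Real.sqrt_pos.2 (by positivity)
  have hss : s * s = 1 + e 0 ^ 2 := Real.mul_self_sqrt (by positivity)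
  set o : Fin (n + 1) → ℝ := s⁻¹ • (e0 n + e 0 • e) with ho
  have h00 : lor (e0 n) (e0 n) = -1 := e0_mem.1
  have h0e : lor (e0 n) e = -e 0 := by rw [lor_comm, lor_e0]
  have hoe : lor e o = 0 := by
    rw [ho, lor_smul_right, lor_add_right, lor_smul_right, lor_e0, he]; ring
  have hoh : o ∈ hyp n := by
    refine ⟨?_, ?_⟩
    · rw [ho, lor_smul_left, lor_smul_right, lor_add_left, lor_add_right, lor_add_right,
        lor_smul_left, lor_smul_right, lor_smul_left, lor_smul_right, h00, h0e, lor_e0, he]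
      field_simp
      nlinarith only [hss]
    · simp only [ho, Pi.smul_apply, Pi.add_apply, smul_eq_mul, e0, Pi.single_eq_same]
      have : 0 ≤ e 0 * e 0 := mul_self_nonneg _
      positivity
  obtain ⟨g, hg, -, hge⟩ := exists_isom_frame hoh he hoe i
  have hcl : MeasurableSet {x : Fin (n + 1) → ℝ | lor e x = 0} := by
    apply IsClosed.measurableSet
    exact isClosed_eq (continuous_lor.comp (Continuous.prodMk continuous_const continuous_id))
      continuous_const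
  rw [← (hmu_invariant hg).measure_preimage hcl.nullMeasurableSet]
  have hpre : (fun x => g.val *ᵥ x) ⁻¹' {x : Fin (n + 1) → ℝ | lor e x = 0} =
      {x | x i.succ = 0} := by
    ext x
    simp only [Set.mem_preimage, Set.mem_ofPred_eq]
    rw [← hge, isomH_lor hg, lor_comm, lor_single_succ]
  rw [hpre, mu_apply (measurableSet_eq_fun (measurable_pi_apply _) measurable_const)]
  apply withDensity_absolutelyContinuous
  have : (lift ⁻¹' {x : Fin (n + 1) → ℝ | x i.succ = 0}) = {y : Fin n → ℝ | y i = 0} := by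
    ext y; simp
  rw [this]
  exact Measure.pi_hyperplane _ i 0

theorem hmu_ball_lt_top (ρ : ℝ) : hmu n {x | x 0 ≤ ρ} < ⊤ := by
  rw [mu_apply (measurableSet_le (measurable_pi_apply _) measurable_const)]
  have hsub : (lift ⁻¹' {x : Fin (n + 1) → ℝ | x 0 ≤ ρ}) ⊆ Metric.closedBall 0 |ρ| := by
    intro y hy
    rw [mem_closedBall_zero_iff, pi_norm_le_iff_of_nonneg (abs_nonneg _)]
    intro i
    have h1 := abs_le_of_mem_hyp (lift_mem y) i.succ
    rw [lift_succ] at h1
    exact h1.trans (le_trans hy (le_abs_self _))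
  refine lt_of_le_of_lt (measure_mono hsub) ?_
  have hle : (volume.withDensity fun y : Fin n → ℝ =>
      ENNReal.ofReal (1 / √(1 + ∑ i, y i ^ 2))) ≤ volume := by
    conv_rhs => rw [← withDensity_one (μ := (volume : Measure (Fin n → ℝ)))]
    apply withDensity_mono
    refine Filter.Eventually.of_forall fun y => ?_
    have h1 : 1 ≤ √(1 + ∑ i, y i ^ 2) := one_le_of_mem_hyp (lift_mem y)
    simp only [Pi.one_apply]
    rw [ENNReal.ofReal_le_one, div_le_one (mu_sqrt_pos y)]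
    exact h1
  exact lt_of_le_of_lt (hle _) measure_closedBall_lt_top

theorem hmu_open_pos {U : Set (Fin (n + 1) → ℝ)} (hU : IsOpen U) (h : (U ∩ hyp n).Nonempty) :
    0 < hmu n U := by
  rw [mu_apply hU.measurableSet, pos_iff_ne_zero]
  intro h0
  have hac : (volume : Measure (Fin n → ℝ)) ≪ volume.withDensity fun y : Fin n → ℝ =>
      ENNReal.ofReal (1 / √(1 + ∑ i, y i ^ 2)) := by
    apply withDensity_absolutelyContinuous'
    · apply Measurable.aemeasurable
      fun_prop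
    · refine Filter.Eventually.of_forall fun y => ?_
      have := mu_sqrt_pos y
      exact (ENNReal.ofReal_pos.2 (by positivity)).ne'
  obtain ⟨x, hxU, hx⟩ := h
  have hne : (lift ⁻¹' U : Set (Fin n → ℝ)).Nonempty :=
    ⟨Fin.tail x, by rw [Set.mem_preimage, lift_tail hx]; exact hxU⟩
  exact ((hU.preimage continuous_lift).measure_pos volume hne).ne' (hac h0)

end Pool.Agent.Work.MP_c8d35c_al
end

-- merged part: Pool.Agent.Work.MP_c8d35c_al.RTile
section
/-! The chamber tiles hyperbolic space; mass transport. -/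

namespace Pool.Agent.Work.MP_c8d35c_al

open Matrix MeasureTheory

variable {n : ℕ}

/-- The translates of `C` under `Γ` tile hyperbolic space. -/
def Tiles (Γ : Subgroup (GL (Fin (n + 1)) ℝ)) (C : Set (Fin (n + 1) → ℝ)) : Prop :=
  ∀ f : (Fin (n + 1) → ℝ) → ENNReal, Measurable f →
    ∫⁻ x, f x ∂hmu n = ∑' g : Γ, ∫⁻ x in C, f (g.val.val *ᵥ x) ∂hmu n

theorem RTile_meas (g : GL (Fin (n + 1)) ℝ) :
    Measurable fun x : Fin (n + 1) → ℝ => g.val *ᵥ x :=
  (continuous_const.matrix_mulVec continuous_id).measurable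

theorem RTile_ae_generic {Γ : Subgroup (GL (Fin (n + 1)) ℝ)} (hf : LocFin Γ) :
    ∀ᵐ x ∂hmu n, Generic Γ x := by
  have h : ∀ᵐ x ∂hmu n, ∀ e ∈ roots Γ, lor e x ≠ 0 :=
    (ae_ball_iff hf.countable).2 fun e he => by
      rw [ae_iff]
      simpa using hmu_mirror he.1
  filter_upwards [ae_mem_hyp, h] with x h1 h2 using ⟨h1, h2⟩

theorem measurableSet_chamber {Γ : Subgroup (GL (Fin (n + 1)) ℝ)} (hf : LocFin Γ)
    (x0 : Fin (n + 1) → ℝ) : MeasurableSet (chamber Γ x0) := by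
  obtain ⟨U, hU, e⟩ := chamber_open hf x0
  rw [e]
  exact hU.measurableSet.inter measurableSet_hyp

theorem chamber_tiles {S : Set (GL (Fin (n + 1)) ℝ)} (hS : ∀ g ∈ S, IsRefl g)
    (hf : LocFin (Subgroup.closure S)) {x0 : Fin (n + 1) → ℝ}
    (hx0 : Generic (Subgroup.closure S) x0) :
    Tiles (Subgroup.closure S) (chamber (Subgroup.closure S) x0) := by
  intro f hfm
  have hc := closure_countable hS hf
  have hC := measurableSet_chamber hf x0
  have hm : ∀ g : Subgroup.closure S, Measurable fun y : Fin (n + 1) → ℝ =>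
      (chamber (Subgroup.closure S) x0).indicator (fun x => f (g.val.val *ᵥ x))
        ((g.val⁻¹).val *ᵥ y) := fun g =>
    ((hfm.comp (RTile_meas g.val)).indicator hC).comp (RTile_meas g.val⁻¹)
  have h1 : ∀ g : Subgroup.closure S,
      ∫⁻ x in chamber (Subgroup.closure S) x0, f (g.val.val *ᵥ x) ∂hmu n =
        ∫⁻ y, (chamber (Subgroup.closure S) x0).indicator (fun x => f (g.val.val *ᵥ x))
          ((g.val⁻¹).val *ᵥ y) ∂hmu n := fun g => by
    rw [← lintegral_indicator hC]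
    exact ((hmu_invariant (closure_le_isomH hS (inv_mem g.2))).lintegral_comp
      ((hfm.comp (RTile_meas g.val)).indicator hC)).symm
  rw [tsum_congr h1, ← lintegral_tsum fun g => (hm g).aemeasurable]
  refine lintegral_congr_ae ?_
  filter_upwards [RTile_ae_generic hf] with y hy
  obtain ⟨g0, hg0, hy0⟩ := chamber_trans hS hf hx0 hy
  rw [tsum_eq_single (⟨g0⁻¹, inv_mem hg0⟩ : Subgroup.closure S)]
  · simp only [inv_inv]
    rw [Set.indicator_of_mem hy0, gl_inv_mulVec]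
  · intro g hg
    refine Set.indicator_of_notMem (fun hmem => hg ?_) _
    have h2 := chamber_free hS hf hx0 hy0 (mul_mem (inv_mem g.2) (inv_mem hg0))
      (by rwa [gl_mul_mulVec, gl_inv_mulVec])
    exact Subtype.ext (inv_mul_eq_one.1 h2)

theorem chamber_pos {Γ : Subgroup (GL (Fin (n + 1)) ℝ)} (hf : LocFin Γ) {x0 : Fin (n + 1) → ℝ}
    (hx0 : Generic Γ x0) : 0 < hmu n (chamber Γ x0) := by
  obtain ⟨U, hU, e⟩ := chamber_open hf x0
  have h0 : x0 ∈ chamber Γ x0 := ⟨hx0.1, fun e he => mul_self_pos.2 (hx0.2 e he)⟩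
  have h1 : hmu n (U ∩ hyp n) = hmu n U :=
    measure_congr (inter_ae_eq_left_of_ae_eq_univ (ae_eq_univ.2 (ae_iff.1 ae_mem_hyp)))
  rw [e] at h0 ⊢
  rw [h1]
  exact hmu_open_pos hU ⟨x0, h0⟩

theorem Tiles.lt_top {Γ : Subgroup (GL (Fin (n + 1)) ℝ)} [Countable Γ]
    {C : Set (Fin (n + 1) → ℝ)} (hC : MeasurableSet C) (h : Tiles Γ C) (hc : Cocompact Γ) :
    hmu n C < ⊤ := by
  obtain ⟨ρ, hρ⟩ := hc
  have hB : MeasurableSet {x : Fin (n + 1) → ℝ | x 0 ≤ ρ} :=
    measurableSet_le (measurable_pi_apply 0) measurable_const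
  have hm : Measurable ({x : Fin (n + 1) → ℝ | x 0 ≤ ρ}.indicator fun _ => (1 : ENNReal)) :=
    measurable_const.indicator hB
  have hm' : ∀ g : Γ, Measurable fun x : Fin (n + 1) → ℝ =>
      {x : Fin (n + 1) → ℝ | x 0 ≤ ρ}.indicator (fun _ => (1 : ENNReal)) (g.val.val *ᵥ x) :=
    fun g => hm.comp (RTile_meas g.val)
  have h1 := h _ hm
  rw [lintegral_indicator_const hB, one_mul,
    ← lintegral_tsum fun g : Γ => (hm' g).aemeasurable] at h1
  refine lt_of_le_of_lt ?_ (hmu_ball_lt_top (n := n) ρ)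
  rw [h1, ← setLIntegral_one]
  refine lintegral_mono_ae ?_
  filter_upwards [ae_restrict_of_ae (s := C) ae_mem_hyp] with x hx
  obtain ⟨g, hg, hx'⟩ := hρ x hx
  refine le_trans ?_ (ENNReal.le_tsum (⟨g, hg⟩ : Γ))
  exact (Set.indicator_of_mem (s := {x : Fin (n + 1) → ℝ | x 0 ≤ ρ}) hx' fun _ => 1).ge

/-- Mass transport. -/
theorem Tiles.mass {Γ : Subgroup (GL (Fin (n + 1)) ℝ)} [Countable Γ] (hΓ : Γ ≤ isomH n)
    {C : Set (Fin (n + 1) → ℝ)} (hC : MeasurableSet C) (h : Tiles Γ C)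
    {K : (Fin (n + 1) → ℝ) → (Fin (n + 1) → ℝ) → ENNReal} (hK : Measurable (Function.uncurry K))
    (hKi : ∀ g ∈ Γ, ∀ x y, K (g.val *ᵥ x) (g.val *ᵥ y) = K x y)
    {u : (Fin (n + 1) → ℝ) → ENNReal} (hu : Measurable u)
    (hui : ∀ g ∈ Γ, ∀ y, u (g.val *ᵥ y) = u y) {I : ENNReal}
    (hI : ∀ y ∈ hyp n, ∫⁻ x, K x y ∂hmu n = I) :
    ∫⁻ x in C, (∫⁻ y, K x y * u y ∂hmu n) ∂hmu n = I * ∫⁻ y in C, u y ∂hmu n := by
  have hK1 : ∀ x, Measurable (K x) := fun x => hK.of_uncurry_left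
  have hK2 : ∀ y, Measurable fun x => K x y := fun y => hK.of_uncurry_right
  have hm : ∀ g : Γ, Measurable (Function.uncurry fun x y => K (g.val.val *ᵥ x) y * u y) :=
    fun g => (hK.comp (((RTile_meas g.val).comp measurable_fst).prodMk measurable_snd)).mul
      (hu.comp measurable_snd)
  have h1 : ∀ x, ∫⁻ y, K x y * u y ∂hmu n =
      ∑' g : Γ, ∫⁻ y in C, K (g.val.val *ᵥ x) y * u y ∂hmu n := fun x => by
    rw [h (fun y => K x y * u y) ((hK1 x).mul hu), ← (Equiv.inv Γ).tsum_eq]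
    refine tsum_congr fun g => lintegral_congr fun y => ?_
    rw [hui _ (Equiv.inv Γ g).2, ← hKi g.val g.2]
    congr 2
    exact gl_mulVec_inv g.val y
  have h2 : ∀ g : Γ, ∫⁻ x in C, (∫⁻ y in C, K (g.val.val *ᵥ x) y * u y ∂hmu n) ∂hmu n =
      ∫⁻ y in C, (∫⁻ x in C, K (g.val.val *ᵥ x) y * u y ∂hmu n) ∂hmu n := fun g =>
    lintegral_lintegral_swap (hm g).aemeasurable
  rw [lintegral_congr h1, lintegral_tsum fun g => (hm g).lintegral_prod_right.aemeasurable,
    tsum_congr h2, ← lintegral_tsum fun g => (hm g).lintegral_prod_left.aemeasurable,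
    ← lintegral_const_mul _ hu]
  refine lintegral_congr_ae ?_
  filter_upwards [ae_restrict_of_ae (s := C) ae_mem_hyp] with y hy
  rw [← hI y hy, h _ (hK2 y), ← ENNReal.tsum_mul_right]
  exact tsum_congr fun g => lintegral_mul_const _ ((hK2 y).comp (RTile_meas g.val))

end Pool.Agent.Work.MP_c8d35c_al
end

-- merged part: Pool.Agent.Work.MP_c8d35c_al.RIso
section
/-! The isoperimetric inequality: most of a convex polyhedron lies near its walls. -/

namespace Pool.Agent.Work.MP_c8d35c_al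

open Matrix MeasureTheory

lemma riso_meas {n : ℕ} (e : Fin (n + 1) → ℝ) : Measurable fun x : Fin (n + 1) → ℝ => lor e x :=
  (continuous_lor.comp (continuous_const.prodMk continuous_id)).measurable

lemma riso_hmu {n : ℕ} {S : Set (Fin (n + 1) → ℝ)} (hS : MeasurableSet S) :
    hmu n S = ∫⁻ y : Fin n → ℝ,
      ENNReal.ofReal (1 / √(1 + ∑ i, y i ^ 2)) * S.indicator 1 (lift y) := by
  rw [← lintegral_indicator_one hS, lintegral_hmu (measurable_one.indicator hS)]

lemma riso_sum {n : ℕ} (c : ℝ) (y : Fin n → ℝ) :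
    ∑ i, (c • y) i ^ 2 = c ^ 2 * ∑ i, y i ^ 2 := by
  simp only [Pi.smul_apply, smul_eq_mul, mul_pow, Finset.mul_sum]

lemma riso_sqrt {t r : ℝ} (ht0 : 0 < t) : √(1 + t⁻¹ ^ 2 * r) = √(t ^ 2 + r) / t := by
  have e : 1 + t⁻¹ ^ 2 * r = (t ^ 2 + r) / t ^ 2 := by field_simp
  rw [e, Real.sqrt_div' _ (sq_nonneg t), Real.sqrt_sq ht0.le]

lemma riso_close {n : ℕ} {t : ℝ} (ht0 : 0 < t) (y : Fin n → ℝ) :
    lor (lift y) (lift (t⁻¹ • y)) ^ 2 - 1 ≤ ((1 - t ^ 2) / (2 * t)) ^ 2 := by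
  have h1 := lor_le_neg_one (lift_mem y) (lift_mem (t⁻¹ • y))
  have hr : 0 ≤ ∑ i, y i ^ 2 := Finset.sum_nonneg fun i _ => sq_nonneg _
  have h2 : -lor (lift y) (lift (t⁻¹ • y)) ≤ (1 + t ^ 2) / (2 * t) := by
    have e : ∑ i, y i * (t⁻¹ • y) i = (∑ i, y i ^ 2) / t := by
      rw [Finset.sum_div]
      refine Finset.sum_congr rfl fun i _ => ?_
      rw [Pi.smul_apply, smul_eq_mul]
      ring
    simp only [lor, lift_zero, lift_succ]
    rw [e, riso_sum, riso_sqrt ht0]
    set r := ∑ i, y i ^ 2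
    have a1 := Real.sq_sqrt (show 0 ≤ 1 + r by linarith)
    have a2 := Real.sq_sqrt (show 0 ≤ t ^ 2 + r by positivity)
    have a3 : √(1 + r) * √(t ^ 2 + r) ≤ (1 + t ^ 2) / 2 + r := by
      nlinarith only [a1, a2, sq_nonneg (√(1 + r) - √(t ^ 2 + r))]
    have a4 : -(-(√(1 + r) * (√(t ^ 2 + r) / t)) + r / t) =
        (√(1 + r) * √(t ^ 2 + r) - r) / t := by ring
    have a5 : (1 + t ^ 2) / (2 * t) = ((1 + t ^ 2) / 2) / t := by field_simp
    rw [a4, a5]
    exact div_le_div_of_nonneg_right (by linarith only [a3]) ht0.le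
  have h3 : (-lor (lift y) (lift (t⁻¹ • y))) ^ 2 ≤ ((1 + t ^ 2) / (2 * t)) ^ 2 :=
    pow_le_pow_left₀ (by linarith) h2 2
  have h4 : ((1 + t ^ 2) / (2 * t)) ^ 2 - 1 = ((1 - t ^ 2) / (2 * t)) ^ 2 := by
    field_simp
    ring
  rw [neg_sq] at h3
  linarith only [h3, h4]

lemma riso_dens {t r : ℝ} (ht0 : 0 < t) (ht1 : t < 1) (hr : 0 ≤ r) :
    1 / √(1 + r) ≤ t⁻¹ * (1 / √(1 + t⁻¹ ^ 2 * r)) := by
  have a1 : 0 < √(t ^ 2 + r) := Real.sqrt_pos.2 (by positivity)
  have a2 : √(t ^ 2 + r) ≤ √(1 + r) := Real.sqrt_le_sqrt (by nlinarith only [ht1, ht0])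
  have e : t⁻¹ * (1 / (√(t ^ 2 + r) / t)) = 1 / √(t ^ 2 + r) := by field_simp
  rw [riso_sqrt ht0, e]
  exact one_div_le_one_div_of_le a1 a2

lemma riso_scale {n : ℕ} {t : ℝ} (ht0 : 0 < t) {g : (Fin n → ℝ) → ENNReal} (hg : Measurable g) :
    ∫⁻ y, g (t⁻¹ • y) = ENNReal.ofReal (t ^ n) * ∫⁻ y, g y := by
  rw [← lintegral_map hg (measurable_const_smul t⁻¹),
    Measure.map_addHaar_smul volume (inv_pos.2 ht0).ne', lintegral_smul_measure, smul_eq_mul,
    Module.finrank_fin_fun, inv_pow, inv_inv, abs_of_pos (pow_pos ht0 n)]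

theorem iso {m : ℕ} {R : Set (Fin (m + 1 + 1) → ℝ)} (hR : R.Countable)
    (hR1 : ∀ e ∈ R, lor e e = 1) (x0 : Fin (m + 1 + 1) → ℝ) {t τ : ℝ} (ht0 : 0 < t) (ht1 : t < 1)
    (hτ0 : 0 ≤ τ) (hτ : ((1 - t ^ 2) / (2 * t)) ^ 2 * (1 + τ ^ 2) ≤ τ ^ 2) :
    hmu (m + 1) {x | (x ∈ hyp (m + 1) ∧ ∀ e ∈ R, 0 < lor e x * lor e x0) ∧
        ∀ e ∈ R, τ < |lor e x|} ≤
      ENNReal.ofReal (t ^ m) *
        hmu (m + 1) {x | x ∈ hyp (m + 1) ∧ ∀ e ∈ R, 0 < lor e x * lor e x0} := by
  have hC : MeasurableSet {x | x ∈ hyp (m + 1) ∧ ∀ e ∈ R, 0 < lor e x * lor e x0} := by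
    have := measurableSet_hyp.inter (MeasurableSet.biInter hR fun e _ =>
      measurableSet_lt measurable_const ((riso_meas e).mul_const (lor e x0)) (f := fun _ => 0))
    convert this using 1
    ext x
    simp
  have hA : MeasurableSet {x | (x ∈ hyp (m + 1) ∧ ∀ e ∈ R, 0 < lor e x * lor e x0) ∧
      ∀ e ∈ R, τ < |lor e x|} := by
    have := hC.inter (MeasurableSet.biInter hR fun e _ =>
      measurableSet_lt measurable_const (riso_meas e).abs (f := fun _ => τ))
    convert this using 1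
    ext x
    simp
  rw [riso_hmu hA, riso_hmu hC]
  set C := {x | x ∈ hyp (m + 1) ∧ ∀ e ∈ R, 0 < lor e x * lor e x0} with hCd
  have hg : Measurable fun y : Fin (m + 1) → ℝ =>
      ENNReal.ofReal (1 / √(1 + ∑ i, y i ^ 2)) * C.indicator 1 (lift y) := by
    refine Measurable.mul (ENNReal.measurable_ofReal.comp ?_)
      ((measurable_one.indicator hC).comp continuous_lift.measurable)
    fun_prop
  have e : ENNReal.ofReal (t ^ m) = ENNReal.ofReal t⁻¹ * ENNReal.ofReal (t ^ (m + 1)) := by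
    rw [← ENNReal.ofReal_mul (inv_pos.2 ht0).le]
    congr 1
    rw [pow_succ]
    field_simp
  rw [e, mul_assoc, ← riso_scale ht0 hg,
    ← lintegral_const_mul' _ _ ENNReal.ofReal_ne_top]
  refine lintegral_mono fun y => ?_
  by_cases hy : lift y ∈ {x | (x ∈ hyp (m + 1) ∧ ∀ e ∈ R, 0 < lor e x * lor e x0) ∧
      ∀ e ∈ R, τ < |lor e x|}
  · have hy' : lift (t⁻¹ • y) ∈ C := by
      refine ⟨lift_mem _, fun e he => ?_⟩
      have h1 := hy.1.2 e he
      have h2 := hy.2 e he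
      have h3 : 0 < lor e (lift y) * lor e (lift (t⁻¹ • y)) := by
        by_contra hcon
        have h4 := sq_le_of_sep (lift_mem y) (lift_mem (t⁻¹ • y)) (hR1 e he) (not_lt.1 hcon)
        have h5 := riso_close ht0 y
        have h6 : ((1 - t ^ 2) / (2 * t)) ^ 2 ≤ τ ^ 2 := by
          nlinarith only [hτ, mul_nonneg (sq_nonneg ((1 - t ^ 2) / (2 * t))) (sq_nonneg τ)]
        have h7 : |lor e (lift y)| ≤ τ := abs_le_of_sq_le_sq' (by linarith only [h4, h5, h6]) hτ0 |> abs_le.mpr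
        linarith only [h2, h7]
      have h4 := mul_pos h1 h3
      have h5 : lor e (lift y) * lor e x0 * (lor e (lift y) * lor e (lift (t⁻¹ • y))) =
          lor e (lift y) ^ 2 * (lor e (lift (t⁻¹ • y)) * lor e x0) := by ring
      rw [h5] at h4
      exact pos_of_mul_pos_right h4 (sq_nonneg _)
    rw [Set.indicator_of_mem hy, Set.indicator_of_mem hy', Pi.one_apply, Pi.one_apply, mul_one,
      mul_one, ← ENNReal.ofReal_mul (inv_pos.2 ht0).le, riso_sum]
    exact ENNReal.ofReal_le_ofReal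
      (riso_dens ht0 ht1 (Finset.sum_nonneg fun i _ => sq_nonneg _))
  · rw [Set.indicator_of_notMem hy, mul_zero]
    exact zero_le

end Pool.Agent.Work.MP_c8d35c_al
end

-- merged part: Pool.Agent.Work.MP_c8d35c_al.RKer
section
/-! Two explicit integrals of a point-pair kernel on hyperbolic space. -/

namespace Pool.Agent.Work.MP_c8d35c_al

open Matrix MeasureTheory Real

/-- The kernel profile. -/
noncomputable def kap (a c : ℝ) : ℝ := c * exp (-(a * c ^ 2))

lemma ker_prod {k : ℕ} (f : Fin k → ℝ → ℝ) (hf : ∀ i, Integrable (f i)) (h0 : ∀ i t, 0 ≤ f i t)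
    {C : ℝ} (hC : 0 ≤ C) :
    ∫⁻ y : Fin k → ℝ, ENNReal.ofReal (C * ∏ i, f i (y i)) =
      ENNReal.ofReal (C * ∏ i, ∫ t, f i t) := by
  have hi : Integrable (fun y : Fin k → ℝ => ∏ i, f i (y i)) := Integrable.fintype_prod hf
  rw [← ofReal_integral_eq_lintegral_ofReal (hi.const_mul C)
    (Filter.Eventually.of_forall fun y => mul_nonneg hC (Finset.prod_nonneg fun i _ => h0 i _)),
    integral_const_mul, integral_fintype_prod_volume_eq_prod]

lemma ker_sqrt_pow {b : ℝ} (hb : 0 ≤ b) (k : ℕ) : √b ^ k = b ^ ((k : ℝ) / 2) := by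
  rw [Real.sqrt_eq_rpow, ← Real.rpow_natCast, ← Real.rpow_mul hb]
  congr 1
  ring

lemma ker_meas_lor {n : ℕ} (x : Fin (n + 1) → ℝ) : Measurable fun y => lor x y :=
  (continuous_lor.comp (Continuous.prodMk continuous_const continuous_id)).measurable

lemma ker_meas {n : ℕ} (x : Fin (n + 1) → ℝ) (a : ℝ) :
    Measurable fun y => ENNReal.ofReal (kap a (-lor x y)) := by
  have h := ker_meas_lor x
  unfold kap
  fun_prop

theorem ker_total {n : ℕ} {x : Fin (n + 1) → ℝ} (hx : x ∈ hyp n) {a : ℝ} (ha : 0 < a) :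
    ∫⁻ y, ENNReal.ofReal (kap a (-lor x y)) ∂hmu n =
      ENNReal.ofReal (exp (-a) * (π / a) ^ ((n : ℝ) / 2)) := by
  obtain ⟨g, hg, rfl⟩ := exists_isom_e0 hx
  rw [← mu_lintegral hg (ker_meas _ a)]
  simp only [isomH_lor hg]
  rw [lintegral_hmu (ker_meas _ a)]
  have key : ∀ y : Fin n → ℝ, ENNReal.ofReal (1 / √(1 + ∑ i, y i ^ 2)) *
      ENNReal.ofReal (kap a (-lor (e0 n) (lift y))) =
      ENNReal.ofReal (exp (-a) * ∏ i, exp (-a * y i ^ 2)) := by
    intro y
    have hs := mu_sqrt_pos y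
    have hss : √(1 + ∑ i, y i ^ 2) ^ 2 = 1 + ∑ i, y i ^ 2 := Real.sq_sqrt (by positivity)
    rw [← ENNReal.ofReal_mul (by positivity), lor_comm, lor_e0, neg_neg, lift_zero, kap, hss,
      ← Real.exp_sum, ← Real.exp_add, ← Finset.mul_sum]
    congr 1
    field_simp
    congr 1
    ring
  simp only [key]
  rw [ker_prod (fun _ t => exp (-a * t ^ 2)) (fun _ => integrable_exp_neg_mul_sq ha)
    (fun _ _ => (exp_pos _).le) (exp_pos _).le]
  simp only [integral_gaussian, Finset.prod_const, Finset.card_univ, Fintype.card_fin]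
  rw [ker_sqrt_pow (by positivity)]

/-- Pointwise bound in the slab. -/
lemma ker_point {a τ s S w Y q : ℝ} (ha : 0 < a) (hτ0 : 0 < τ) (hτ1 : τ ≤ 1 / 2) (hS : 0 < S)
    (hSs : S ^ 2 = 1 + s ^ 2) (hY : 0 < Y) (hq : 0 ≤ q) (hYq : Y ^ 2 = 1 + (w ^ 2 + q))
    (hw : |w| ≤ τ) :
    1 / Y * kap a (S * Y - s * w) ≤
      (1 + τ) * S * exp (-(a * (1 - τ) ^ 2 * S ^ 2 * (1 + q))) := by
  have hs : |s| ≤ S := abs_le_of_sq_le_sq' (by nlinarith only [hτ0, hτ1, hSs]) hS.le |> abs_le.mpr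
  have hY1 : 1 ≤ Y := by nlinarith only [hq, hYq, hY, sq_nonneg w]
  have h1 : |s * w| ≤ τ * (S * Y) := by
    rw [abs_mul]
    calc |s| * |w| ≤ S * τ := mul_le_mul hs hw (abs_nonneg _) hS.le
      _ = τ * (S * 1) := by ring
      _ ≤ τ * (S * Y) := by gcongr
  obtain ⟨h2, h3⟩ := abs_le.1 h1
  have hSY : 0 < S * Y := mul_pos hS hY
  have hlo : (1 - τ) * (S * Y) ≤ S * Y - s * w := by linarith only [h3]
  have hhi : S * Y - s * w ≤ (1 + τ) * (S * Y) := by linarith
  have hlo0 : 0 ≤ (1 - τ) * (S * Y) := mul_nonneg (by linarith) hSY.le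
  have hsq : ((1 - τ) * (S * Y)) ^ 2 ≤ (S * Y - s * w) ^ 2 := pow_le_pow_left₀ hlo0 hlo 2
  have hq2 : (1 - τ) ^ 2 * S ^ 2 * (1 + q) ≤ ((1 - τ) * (S * Y)) ^ 2 := by
    have : 1 + q ≤ Y ^ 2 := by nlinarith only [hYq, sq_nonneg w]
    calc (1 - τ) ^ 2 * S ^ 2 * (1 + q) ≤ (1 - τ) ^ 2 * S ^ 2 * Y ^ 2 := by gcongr
      _ = _ := by ring
  have hexp : exp (-(a * (S * Y - s * w) ^ 2)) ≤ exp (-(a * (1 - τ) ^ 2 * S ^ 2 * (1 + q))) := by
    apply Real.exp_le_exp.2
    have := mul_le_mul_of_nonneg_left (hq2.trans hsq) ha.le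
    linarith only [this]
  calc 1 / Y * kap a (S * Y - s * w)
      ≤ 1 / Y * ((1 + τ) * (S * Y) * exp (-(a * (1 - τ) ^ 2 * S ^ 2 * (1 + q)))) := by
        refine mul_le_mul_of_nonneg_left ?_ (by positivity)
        exact mul_le_mul hhi hexp (exp_pos _).le (by positivity)
    _ = _ := by field_simp

theorem ker_slab {m : ℕ} {x e : Fin (m + 1 + 1) → ℝ} (hx : x ∈ hyp (m + 1)) (he : lor e e = 1)
    {a τ : ℝ} (ha : 0 < a) (hτ0 : 0 < τ) (hτ1 : τ ≤ 1 / 2) :
    ∫⁻ y, ENNReal.ofReal (kap a (-lor x y)) *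
        {y | |lor e y| ≤ τ}.indicator (fun _ => (1 : ENNReal)) y ∂hmu (m + 1) ≤
      ENNReal.ofReal (2 * τ * (1 + τ) * (π / (a * (1 - τ) ^ 2)) ^ ((m : ℝ) / 2) *
        ((1 + lor e x ^ 2) ^ (-(((m : ℝ) - 1) / 2)) *
          exp (-(a * (1 - τ) ^ 2 * (1 + lor e x ^ 2))))) := by
  obtain ⟨s, hs⟩ : ∃ s, lor e x = s := ⟨_, rfl⟩
  obtain ⟨S, hS, hSs⟩ : ∃ S : ℝ, 0 < S ∧ S ^ 2 = 1 + s ^ 2 :=
    ⟨√(1 + s ^ 2), Real.sqrt_pos.2 (by positivity), Real.sq_sqrt (by positivity)⟩
  have hxe : lor x e = s := by rw [lor_comm, hs]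
  have hxx : lor x x = -1 := hx.1
  set o : Fin (m + 1 + 1) → ℝ := S⁻¹ • (x - s • e) with ho
  have hoe : lor e o = 0 := by
    rw [ho, lor_smul_right, lor_sub_right, lor_smul_right, hs, he]; ring
  have hox : lor o x = -S := by
    rw [ho, lor_smul_left, lor_sub_left, lor_smul_left, hs, hxx]
    field_simp
    linarith only [hSs]
  have hoo : lor o o = -1 := by
    have : lor o o = S⁻¹ * (lor o x - s * lor o e) := by
      conv_lhs => rw [show lor o o = lor o (S⁻¹ • (x - s • e)) from rfl]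
      rw [lor_smul_right, lor_sub_right, lor_smul_right]
    rw [this, hox, lor_comm o e, hoe]
    field_simp
    ring
  have hoh : o ∈ hyp (m + 1) := mem_hyp_of_lor_neg hx hoo (by rw [hox]; linarith)
  obtain ⟨g, hg, hgo, hge⟩ := exists_isom_frame hoh he hoe (0 : Fin (m + 1))
  have hxo : x = S • o + s • e := by
    rw [ho, smul_smul, mul_inv_cancel₀ hS.ne', one_smul, sub_add_cancel]
  have hmeas : Measurable fun y => ENNReal.ofReal (kap a (-lor x y)) *
      {y | |lor e y| ≤ τ}.indicator (fun _ => (1 : ENNReal)) y :=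
    (ker_meas x a).mul (measurable_const.indicator
      (measurableSet_le (ker_meas_lor e).abs measurable_const))
  have hm : Measurable fun x : Fin (m + 1 + 1) → ℝ => g.val *ᵥ x :=
    (Continuous.matrix_mulVec continuous_const continuous_id).measurable
  have hmeas' : Measurable fun z => ENNReal.ofReal (kap a (-lor x (g.val *ᵥ z))) *
      {y | |lor e y| ≤ τ}.indicator (fun _ => (1 : ENNReal)) (g.val *ᵥ z) := hmeas.comp hm
  rw [← mu_lintegral hg hmeas, lintegral_hmu hmeas', hs]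
  have hτ : 0 < 1 - τ := by linarith
  set b : ℝ := a * (1 - τ) ^ 2 * S ^ 2 with hb
  have hb0 : 0 < b := by positivity
  let f : Fin (m + 1) → ℝ → ℝ :=
    Fin.cons ((Set.Icc (-τ) τ).indicator fun _ => 1) fun _ t => exp (-b * t ^ 2)
  have hle : ∀ y : Fin (m + 1) → ℝ, ENNReal.ofReal (1 / √(1 + ∑ i, y i ^ 2)) *
      (ENNReal.ofReal (kap a (-lor x (g.val *ᵥ lift y))) *
        {y | |lor e y| ≤ τ}.indicator (fun _ => (1 : ENNReal)) (g.val *ᵥ lift y)) ≤
      ENNReal.ofReal ((1 + τ) * S * exp (-b) * ∏ i, f i (y i)) := by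
    intro y
    have hY := mu_sqrt_pos y
    have h1 : lor e (g.val *ᵥ lift y) = y 0 := by
      rw [← hge, isomH_lor hg, lor_comm, lor_single_succ, lift_succ]
    have h2 : lor o (g.val *ᵥ lift y) = -√(1 + ∑ i, y i ^ 2) := by
      rw [← hgo, isomH_lor hg, lor_comm, lor_e0, lift_zero]
    have h3 : -lor x (g.val *ᵥ lift y) = S * √(1 + ∑ i, y i ^ 2) - s * y 0 := by
      rw [hxo, lor_add_left, lor_smul_left S o, lor_smul_left s e, h1, h2]; ring
    by_cases hw : |y 0| ≤ τ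
    · rw [Set.indicator_of_mem (by rw [Set.mem_ofPred_eq, h1]; exact hw), mul_one,
        ← ENNReal.ofReal_mul (by positivity), h3]
      apply ENNReal.ofReal_le_ofReal
      refine (ker_point (q := ∑ i : Fin m, y i.succ ^ 2) ha hτ0 hτ1 hS hSs hY (by positivity)
        (by rw [Real.sq_sqrt (by positivity), Fin.sum_univ_succ]) hw).trans (le_of_eq ?_)
      rw [Fin.prod_univ_succ]
      simp only [f, Fin.cons_zero, Fin.cons_succ]
      rw [Set.indicator_of_mem (Set.mem_Icc.2 (abs_le.1 hw)), one_mul, ← Real.exp_sum, mul_assoc ((1 + τ) * S),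
        ← Real.exp_add, ← Finset.mul_sum, ← hb]
      congr 2
      ring
    · rw [Set.indicator_of_notMem (by rw [Set.mem_ofPred_eq, h1]; exact hw), mul_zero, mul_zero]
      exact zero_le
  refine (lintegral_mono hle).trans (le_of_eq ?_)
  have hfi : ∀ i, Integrable (f i) := by
    intro i
    refine Fin.cases ?_ (fun j => ?_) i
    · exact (integrable_indicator_iff measurableSet_Icc).2 (integrableOn_const (by simp))
    · exact integrable_exp_neg_mul_sq hb0
  have hf0 : ∀ i t, 0 ≤ f i t := by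
    intro i t
    refine Fin.cases ?_ (fun j => ?_) i
    · exact Set.indicator_nonneg (fun _ _ => zero_le_one) t
    · exact (exp_pos _).le
  rw [ker_prod f hfi hf0 (by positivity), Fin.prod_univ_succ]
  simp only [f, Fin.cons_zero, Fin.cons_succ, integral_gaussian, Finset.prod_const,
    Finset.card_univ, Fintype.card_fin]
  rw [integral_indicator_const _ measurableSet_Icc, Real.volume_real_Icc_of_le (by linarith only [hτ0]),
    ker_sqrt_pow (by positivity), ← hSs, ← hb]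
  congr 1
  have e1 : (π / b) ^ ((m : ℝ) / 2) =
      (π / (a * (1 - τ) ^ 2)) ^ ((m : ℝ) / 2) * (S ^ 2) ^ (-((m : ℝ) / 2)) := by
    rw [Real.rpow_neg (by positivity), ← Real.inv_rpow (by positivity),
      ← Real.mul_rpow (by positivity) (by positivity), hb]
    congr 1
    field_simp
  have e2 : (S ^ 2) ^ (-(((m : ℝ) - 1) / 2)) = S * (S ^ 2) ^ (-((m : ℝ) / 2)) := by
    have : S = (S ^ 2) ^ ((1 : ℝ) / 2) := by
      rw [← Real.sqrt_eq_rpow, Real.sqrt_sq hS.le]
    conv_rhs => rw [this]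
    rw [← this, show -(((m : ℝ) - 1) / 2) = 1 / 2 + -((m : ℝ) / 2) by ring,
      Real.rpow_add (by positivity), ← this]
  rw [e1, e2, smul_eq_mul]
  ring

end Pool.Agent.Work.MP_c8d35c_al
end

-- merged part: Pool.Agent.Work.MP_c8d35c_al.RTau
section
/-! From Gaussian sums to sums of a completely monotone function. -/

namespace Pool.Agent.Work.MP_c8d35c_al

open Real

open MeasureTheory Set

theorem tau_int {a r : ℝ} (ha : 0 < a) (hr : 0 < r) :
    IntegrableOn (fun t : ℝ => t ^ (a - 1) * exp (-(r * t))) (Ioi 0) :=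
  Integrable.of_integral_ne_zero (by
    rw [integral_rpow_mul_exp_neg_mul_Ioi ha hr]
    positivity)

theorem tau_lint {a r c : ℝ} (ha : 0 < a) (hr : 0 < r) (hc : 0 ≤ c) :
    ∫⁻ t : ℝ in Ioi 0, ENNReal.ofReal (c * (t ^ (a - 1) * exp (-(r * t)))) =
      ENNReal.ofReal (c * ((1 / r) ^ a * Gamma a)) := by
  rw [← integral_rpow_mul_exp_neg_mul_Ioi ha hr, ← integral_const_mul,
    ofReal_integral_eq_lintegral_ofReal ((tau_int ha hr).const_mul c)]
  filter_upwards [ae_restrict_mem measurableSet_Ioi] with t ht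
  have : 0 < t := ht
  positivity

theorem tau_beta_l {ν a : ℝ} (hν : 0 < ν) (ha : 0 < a) :
    ∫⁻ u : ℝ in Ioi 0,
        ENNReal.ofReal (Gamma (ν + 1 / 2) * (u ^ (ν - 1) * (u + a) ^ (-(ν + 1 / 2)))) =
      ENNReal.ofReal (Gamma ν * (√π * a ^ (-(1 / 2 : ℝ)))) := by
  have h1 : ∀ u ∈ Ioi (0 : ℝ),
      ENNReal.ofReal (Gamma (ν + 1 / 2) * (u ^ (ν - 1) * (u + a) ^ (-(ν + 1 / 2)))) =
      ∫⁻ v : ℝ in Ioi 0,
        ENNReal.ofReal (u ^ (ν - 1) * (v ^ (ν + 1 / 2 - 1) * exp (-((u + a) * v)))) := by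
    intro u hu
    have : 0 < u := hu
    rw [tau_lint (by positivity) (by positivity) (by positivity), one_div (u + a),
      inv_rpow (by positivity), ← rpow_neg (by positivity)]
    congr 1
    ring
  have h2 : ∀ v ∈ Ioi (0 : ℝ), ∫⁻ u : ℝ in Ioi 0,
      ENNReal.ofReal (u ^ (ν - 1) * (v ^ (ν + 1 / 2 - 1) * exp (-((u + a) * v)))) =
      ENNReal.ofReal (Gamma ν * (v ^ ((1 / 2 : ℝ) - 1) * exp (-(a * v)))) := by
    intro v hv
    have hv : 0 < v := hv
    have e : ∀ u : ℝ, u ^ (ν - 1) * (v ^ (ν + 1 / 2 - 1) * exp (-((u + a) * v))) =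
        (v ^ (ν + 1 / 2 - 1) * exp (-(a * v))) * (u ^ (ν - 1) * exp (-(v * u))) := fun u => by
      rw [show -((u + a) * v) = -(a * v) + -(v * u) by ring, exp_add]
      ring
    simp_rw [e]
    rw [tau_lint hν hv (by positivity), one_div v, inv_rpow hv.le, ← rpow_neg hv.le,
      show (1 / 2 : ℝ) - 1 = (ν + 1 / 2 - 1) + -ν by ring, rpow_add hv]
    congr 1
    ring
  rw [setLIntegral_congr_fun measurableSet_Ioi h1, lintegral_lintegral_swap (by fun_prop),
    setLIntegral_congr_fun measurableSet_Ioi h2,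
    tau_lint (by norm_num) ha (Gamma_pos_of_pos hν).le, Gamma_one_half_eq, one_div a,
    inv_rpow ha.le, ← rpow_neg ha.le, mul_comm (√π)]

theorem tau_beta {ν a : ℝ} (hν : 0 < ν) (ha : 0 < a) :
    ∫ u : ℝ in Ioi 0, u ^ (ν - 1) * (u + a) ^ (-(ν + 1 / 2)) =
      Gamma ν * (√π / Gamma (ν + 1 / 2) * a ^ (-(1 / 2 : ℝ))) := by
  have h0 : 0 < Gamma (ν + 1 / 2) := Gamma_pos_of_pos (by positivity)
  have h1 := Gamma_pos_of_pos hν
  refine mul_left_cancel₀ h0.ne' ?_
  rw [← integral_const_mul, integral_eq_lintegral_of_nonneg_ae, tau_beta_l hν ha,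
    ENNReal.toReal_ofReal (by positivity)]
  · field_simp
  · filter_upwards [ae_restrict_mem measurableSet_Ioi] with t ht
    have : 0 < t := ht
    positivity
  · exact Measurable.aestronglyMeasurable (by fun_prop)

theorem tau {ι : Type*} (s : Finset ι) (z : ι → ℝ) {ν Δ l0 : ℝ} (hν : 0 < ν) (hl0 : 0 < l0)
    (h : ∀ l, 0 < l → l ≤ l0 → ∑ i ∈ s, exp (-(l * z i ^ 2)) ≤ Δ * l ^ (-(ν + 1 / 2)))
    {a : ℝ} (ha : 0 < a) :
    ∑ i ∈ s, (1 + z i ^ 2) ^ (-ν) * exp (-(a * (1 + z i ^ 2))) ≤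
      Δ * √π / Gamma (ν + 1 / 2) * a ^ (-(1 / 2 : ℝ)) + Δ * l0 ^ (-(ν + 1 / 2)) := by
  have hΓ := Gamma_pos_of_pos hν
  have hΓ' : 0 < Gamma (ν + 1 / 2) := Gamma_pos_of_pos (by positivity)
  have hΔ : 0 ≤ Δ := nonneg_of_mul_nonneg_left
    ((Finset.sum_nonneg fun i _ => (exp_pos _).le).trans (h l0 hl0 le_rfl)) (by positivity)
  have hc : ∀ i, 0 < 1 + z i ^ 2 := fun i => by positivity
  have h1 : IntegrableOn (fun u : ℝ => u ^ (ν - 1) * (u + a) ^ (-(ν + 1 / 2))) (Ioi 0) :=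
    Integrable.of_integral_ne_zero (by
      rw [tau_beta hν ha]
      positivity)
  have h2 := tau_int hν one_pos
  have h3 : ∀ i, Gamma ν * ((1 + z i ^ 2) ^ (-ν) * exp (-(a * (1 + z i ^ 2)))) =
      ∫ u : ℝ in Ioi 0, u ^ (ν - 1) * exp (-((1 + z i ^ 2) * u)) * exp (-(a * (1 + z i ^ 2))) := by
    intro i
    rw [integral_mul_const, integral_rpow_mul_exp_neg_mul_Ioi hν (hc i), one_div,
      inv_rpow (hc i).le, ← rpow_neg (hc i).le]
    ring
  refine le_of_mul_le_mul_left ?_ hΓ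
  calc _ = ∫ u : ℝ in Ioi 0, ∑ i ∈ s,
        u ^ (ν - 1) * exp (-((1 + z i ^ 2) * u)) * exp (-(a * (1 + z i ^ 2))) := by
        rw [integral_finsetSum _ fun i _ => (tau_int hν (hc i)).mul_const _, Finset.mul_sum]
        exact Finset.sum_congr rfl fun i _ => h3 i
    _ ≤ ∫ u : ℝ in Ioi 0, (Δ * (u ^ (ν - 1) * (u + a) ^ (-(ν + 1 / 2))) +
        Δ * l0 ^ (-(ν + 1 / 2)) * (u ^ (ν - 1) * exp (-(1 * u)))) := by
        refine setIntegral_mono_on
          (integrable_finsetSum _ fun i _ => (tau_int hν (hc i)).mul_const _)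
          ((h1.const_mul _).add (h2.const_mul _)) measurableSet_Ioi fun u hu => ?_
        have hu : 0 < u := hu
        have e : ∑ i ∈ s, u ^ (ν - 1) * exp (-((1 + z i ^ 2) * u)) * exp (-(a * (1 + z i ^ 2))) =
            u ^ (ν - 1) * (exp (-(u + a)) * ∑ i ∈ s, exp (-((u + a) * z i ^ 2))) := by
          rw [Finset.mul_sum, Finset.mul_sum]
          refine Finset.sum_congr rfl fun i _ => ?_
          rw [mul_assoc, ← exp_add, ← exp_add]
          congr 2
          ring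
        have h0 : 0 ≤ ∑ i ∈ s, exp (-((u + a) * z i ^ 2)) :=
          Finset.sum_nonneg fun i _ => (exp_pos _).le
        rw [e]
        rcases le_total (u + a) l0 with h4 | h4
        · refine le_add_of_le_of_nonneg ?_ (by positivity)
          rw [mul_left_comm Δ]
          refine mul_le_mul_of_nonneg_left ?_ (by positivity)
          exact (mul_le_of_le_one_left h0 (exp_le_one_iff.2 (by linarith))).trans
            (h _ (by positivity) h4)
        · refine le_add_of_nonneg_of_le (by positivity) ?_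
          rw [mul_left_comm (Δ * _), mul_comm (Δ * _)]
          refine mul_le_mul_of_nonneg_left (mul_le_mul (exp_le_exp.2 (by linarith))
            (le_trans (Finset.sum_le_sum fun i _ => exp_le_exp.2 ?_) (h l0 hl0 le_rfl)) h0
            (exp_pos _).le) (by positivity)
          exact neg_le_neg (mul_le_mul_of_nonneg_right h4 (sq_nonneg _))
    _ = _ := by
        rw [integral_add (h1.const_mul _) (h2.const_mul _), integral_const_mul, integral_const_mul,
          tau_beta hν ha, integral_rpow_mul_exp_neg_mul_Ioi hν one_pos, div_one, one_rpow]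
        ring

end Pool.Agent.Work.MP_c8d35c_al
end

-- merged part: Pool.Agent.Work.MP_c8d35c_al.RGeo
section
/-! A cocompact reflection group has many mirrors. -/

namespace Pool.Agent.Work.MP_c8d35c_al

open Matrix MeasureTheory Real

lemma rgeo_slab_meas {n : ℕ} (e : Fin (n + 1) → ℝ) (τ : ℝ) :
    MeasurableSet {y : Fin (n + 1) → ℝ | |lor e y| ≤ τ} :=
  (isClosed_le (RCox1_cont e).abs continuous_const).measurableSet

lemma rgeo_two {n : ℕ} (Γ : Subgroup (GL (Fin (n + 1)) ℝ)) (τ : ℝ) (y : Fin (n + 1) → ℝ) :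
    2 * {y | ∃ e ∈ roots Γ, |lor e y| ≤ τ}.indicator (fun _ => (1 : ENNReal)) y ≤
      ∑' e : roots Γ, {y | |lor e.val y| ≤ τ}.indicator (fun _ => (1 : ENNReal)) y := by
  classical
  by_cases hy : y ∈ {y | ∃ e ∈ roots Γ, |lor e y| ≤ τ}
  · rw [Set.indicator_of_mem hy]
    obtain ⟨e, he, hey⟩ := hy
    have hne : (⟨e, he⟩ : roots Γ) ≠ ⟨-e, neg_mem_roots he⟩ := by
      intro h
      have h1 : e = -e := congrArg Subtype.val h
      have h2 : lor e e = lor (-e) e := by rw [← h1]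
      rw [lor_neg_left, he.1] at h2
      norm_num at h2
    refine le_trans ?_ (ENNReal.sum_le_tsum {⟨e, he⟩, ⟨-e, neg_mem_roots he⟩})
    rw [Finset.sum_pair hne, Set.indicator_of_mem, Set.indicator_of_mem]
    · norm_num [one_add_one_eq_two]
    · simpa [lor_neg_left] using hey
    · exact hey
  · rw [Set.indicator_of_notMem hy]
    simp

lemma rgeo_sum {m : ℕ} (hm : 2 ≤ m) {Γ : Subgroup (GL (Fin (m + 1 + 1)) ℝ)} {Δ l0 : ℝ}
    (hl0 : 0 < l0) (hR : RootBound Γ Δ l0) {x : Fin (m + 1 + 1) → ℝ} (hx : x ∈ hyp (m + 1))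
    {b : ℝ} (hb : 0 < b) (s : Finset (roots Γ)) :
    ∑ e ∈ s, (1 + lor e.val x ^ 2) ^ (-(((m : ℝ) - 1) / 2)) * exp (-(b * (1 + lor e.val x ^ 2))) ≤
      Δ * √π / Gamma ((m : ℝ) / 2) * b ^ (-(1 / 2 : ℝ)) + Δ * l0 ^ (-((m : ℝ) / 2)) := by
  have hm' : (2 : ℝ) ≤ m := by exact_mod_cast hm
  have e1 : ((m : ℝ) - 1) / 2 + 1 / 2 = (m : ℝ) / 2 := by ring
  have h := tau s (fun e => lor e.val x) (ν := ((m : ℝ) - 1) / 2) (Δ := Δ) (by linarith only [hm']) hl0
    (fun l hl hl' => by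
      have h1 := hR x hx l hl hl' (s.map (Function.Embedding.subtype _)) (by
        intro e he
        obtain ⟨e', _, rfl⟩ := Finset.mem_map.1 (Finset.mem_coe.1 he)
        exact e'.2)
      rw [Finset.sum_map] at h1
      have e2 : (((m + 1 : ℕ) : ℝ) - 1) / 2 = ((m : ℝ) - 1) / 2 + 1 / 2 := by
        push_cast; ring
      rw [e2] at h1
      exact h1) hb
  rwa [e1] at h

lemma rgeo_point {m : ℕ} (hm : 2 ≤ m) {Γ : Subgroup (GL (Fin (m + 1 + 1)) ℝ)} {Δ l0 : ℝ}
    (hl0 : 0 < l0) (hR : RootBound Γ Δ l0) {x : Fin (m + 1 + 1) → ℝ} (hx : x ∈ hyp (m + 1))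
    {a τ : ℝ} (ha : 0 < a) (hτ0 : 0 < τ) (hτ1 : τ ≤ 1 / 2) :
    2 * ∫⁻ y, ENNReal.ofReal (kap a (-lor x y)) *
        {y | ∃ e ∈ roots Γ, |lor e y| ≤ τ}.indicator (fun _ => (1 : ENNReal)) y ∂hmu (m + 1) ≤
      ENNReal.ofReal (2 * τ * (1 + τ) * (π / (a * (1 - τ) ^ 2)) ^ ((m : ℝ) / 2) *
        (Δ * √π / Gamma ((m : ℝ) / 2) * (a * (1 - τ) ^ 2) ^ (-(1 / 2 : ℝ)) +
          Δ * l0 ^ (-((m : ℝ) / 2)))) := by
  have hcnt : Countable (roots Γ) := (hR.locFin hl0).countable.to_subtype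
  have hb : 0 < a * (1 - τ) ^ 2 := mul_pos ha (pow_pos (by linarith only [hτ0, hτ1]) 2)
  have hc : 0 ≤ 2 * τ * (1 + τ) * (π / (a * (1 - τ) ^ 2)) ^ ((m : ℝ) / 2) := by
    have := pi_pos
    positivity
  rw [← lintegral_const_mul' _ _ (by norm_num)]
  calc ∫⁻ y, 2 * (ENNReal.ofReal (kap a (-lor x y)) *
        {y | ∃ e ∈ roots Γ, |lor e y| ≤ τ}.indicator (fun _ => (1 : ENNReal)) y) ∂hmu (m + 1)
      ≤ ∫⁻ y, ∑' e : roots Γ, ENNReal.ofReal (kap a (-lor x y)) *
          {y | |lor e.val y| ≤ τ}.indicator (fun _ => (1 : ENNReal)) y ∂hmu (m + 1) := by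
        refine lintegral_mono fun y => ?_
        rw [ENNReal.tsum_mul_left, mul_left_comm]
        exact mul_le_mul_right (rgeo_two Γ τ y) _
    _ = ∑' e : roots Γ, ∫⁻ y, ENNReal.ofReal (kap a (-lor x y)) *
          {y | |lor e.val y| ≤ τ}.indicator (fun _ => (1 : ENNReal)) y ∂hmu (m + 1) :=
        lintegral_tsum fun e => ((ker_meas x a).mul
          (measurable_const.indicator (rgeo_slab_meas e.val τ))).aemeasurable
    _ ≤ ∑' e : roots Γ, ENNReal.ofReal (2 * τ * (1 + τ) *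
          (π / (a * (1 - τ) ^ 2)) ^ ((m : ℝ) / 2) *
          ((1 + lor e.val x ^ 2) ^ (-(((m : ℝ) - 1) / 2)) *
            exp (-(a * (1 - τ) ^ 2 * (1 + lor e.val x ^ 2))))) :=
        ENNReal.tsum_le_tsum fun e => ker_slab hx e.2.1 ha hτ0 hτ1
    _ ≤ _ := by
        rw [ENNReal.tsum_eq_iSup_sum]
        refine iSup_le fun s => ?_
        rw [← ENNReal.ofReal_sum_of_nonneg fun e _ => mul_nonneg hc (by positivity),
          ← Finset.mul_sum]
        exact ENNReal.ofReal_le_ofReal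
          (mul_le_mul_of_nonneg_left (rgeo_sum hm hl0 hR hx hb s) hc)

theorem geo_step {m : ℕ} (hm : 2 ≤ m) {S : Set (GL (Fin (m + 1 + 1)) ℝ)} (hS : ∀ g ∈ S, IsRefl g)
    (hc : Cocompact (Subgroup.closure S)) {Δ l0 : ℝ} (hl0 : 0 < l0)
    (hR : RootBound (Subgroup.closure S) Δ l0) {t τ a : ℝ} (ht0 : 0 < t) (ht1 : t < 1)
    (hτ0 : 0 < τ) (hτ1 : τ ≤ 1 / 2) (hτ : ((1 - t ^ 2) / (2 * t)) ^ 2 * (1 + τ ^ 2) ≤ τ ^ 2)
    (ha : 0 < a) :
    (1 - t ^ m) * (exp (-a) * (π / a) ^ (((m : ℝ) + 1) / 2)) ≤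
      τ * (1 + τ) * (π / (a * (1 - τ) ^ 2)) ^ ((m : ℝ) / 2) *
        (Δ * √π / Gamma ((m : ℝ) / 2) * (a * (1 - τ) ^ 2) ^ (-(1 / 2 : ℝ)) +
          Δ * l0 ^ (-((m : ℝ) / 2))) := by
  have hf := hR.locFin hl0
  have hΓ := closure_le_isomH hS
  have hcnt := closure_countable hS hf
  obtain ⟨x0, hx0⟩ := exists_generic hf
  have hC := measurableSet_chamber hf x0
  have hT := chamber_tiles hS hf hx0
  have hV0 := chamber_pos hf hx0
  have hV1 := hT.lt_top hC hc
  set Γ := Subgroup.closure S with hΓdef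
  set C := chamber Γ x0 with hCdef
  set N : Set (Fin (m + 1 + 1) → ℝ) := {y | ∃ e ∈ roots Γ, |lor e y| ≤ τ} with hN
  have hNm : MeasurableSet N := by
    have e : N = ⋃ e ∈ roots Γ, {y | |lor e y| ≤ τ} := by
      ext y; simp [hN]
    rw [e]
    exact MeasurableSet.biUnion hf.countable fun e _ => rgeo_slab_meas e τ
  have hNi : ∀ g ∈ Γ, ∀ y, g.val *ᵥ y ∈ N ↔ y ∈ N := by
    have key : ∀ g ∈ Γ, ∀ y ∈ N, g.val *ᵥ y ∈ N := fun g hg y ⟨e, he, hey⟩ =>
      ⟨g.val *ᵥ e, mulVec_mem_roots hΓ hg he, by rwa [isomH_lor (hΓ hg)]⟩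
    refine fun g hg y => ⟨fun h => ?_, key g hg y⟩
    have := key g⁻¹ (inv_mem hg) _ h
    rwa [gl_inv_mulVec] at this
  have hiso := iso hf.countable (fun e he => he.1) x0 ht0 ht1 hτ0.le hτ
  have e1 : {x | (x ∈ hyp (m + 1) ∧ ∀ e ∈ roots Γ, 0 < lor e x * lor e x0) ∧
      ∀ e ∈ roots Γ, τ < |lor e x|} = C \ N := by
    ext y
    simp only [hCdef, hN, chamber, Set.mem_ofPred_eq, Set.mem_sdiff, not_exists, not_and, not_le]
  rw [e1] at hiso
  change hmu (m + 1) (C \ N) ≤ ENNReal.ofReal (t ^ m) * hmu (m + 1) C at hiso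
  have hK : Measurable (Function.uncurry fun x y : Fin (m + 1 + 1) → ℝ =>
      ENNReal.ofReal (kap a (-lor x y))) := by
    have h1 : Continuous fun p : (Fin (m + 1 + 1) → ℝ) × (Fin (m + 1 + 1) → ℝ) =>
        kap a (-lor p.1 p.2) := by
      have := @continuous_lor (m + 1)
      unfold kap
      fun_prop
    exact h1.measurable.ennreal_ofReal
  have hmass := hT.mass hΓ hC hK (fun g hg x y => by rw [isomH_lor (hΓ hg)])
    (u := N.indicator fun _ => (1 : ENNReal)) (measurable_const.indicator hNm)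
    (fun g hg y => by
      by_cases hy : y ∈ N
      · rw [Set.indicator_of_mem hy, Set.indicator_of_mem ((hNi g hg y).2 hy)]
      · rw [Set.indicator_of_notMem hy, Set.indicator_of_notMem fun h => hy ((hNi g hg y).1 h)])
    (I := ENNReal.ofReal (exp (-a) * (π / a) ^ (((m + 1 : ℕ) : ℝ) / 2)))
    (fun y hy => by
      simp only [lor_comm _ y]
      exact ker_total hy ha)
  have e2 : ∫⁻ y in C, N.indicator (fun _ => (1 : ENNReal)) y ∂hmu (m + 1) =
      hmu (m + 1) (C ∩ N) := by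
    rw [lintegral_indicator hNm, setLIntegral_const, one_mul, Measure.restrict_apply hNm,
      Set.inter_comm]
  rw [e2] at hmass
  have hb : 0 < a * (1 - τ) ^ 2 := mul_pos ha (pow_pos (by linarith only [ht0, ht1, hτ1]) 2)
  have hB : 0 ≤ Δ * √π / Gamma ((m : ℝ) / 2) * (a * (1 - τ) ^ 2) ^ (-(1 / 2 : ℝ)) +
      Δ * l0 ^ (-((m : ℝ) / 2)) := by
    simpa using rgeo_sum hm hl0 hR e0_mem hb ∅
  set B := Δ * √π / Gamma ((m : ℝ) / 2) * (a * (1 - τ) ^ 2) ^ (-(1 / 2 : ℝ)) +
      Δ * l0 ^ (-((m : ℝ) / 2)) with hBdef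
  set P := (π / (a * (1 - τ) ^ 2)) ^ ((m : ℝ) / 2) with hP
  have hP0 : 0 ≤ P := by
    have := pi_pos
    positivity
  have e3 : (((m + 1 : ℕ) : ℝ) / 2) = ((m : ℝ) + 1) / 2 := by push_cast; ring
  rw [e3] at hmass
  set I := exp (-a) * (π / a) ^ (((m : ℝ) + 1) / 2) with hI
  have hI0 : 0 ≤ I := by
    have := pi_pos
    positivity
  have hup : 2 * (ENNReal.ofReal I * hmu (m + 1) (C ∩ N)) ≤
      ENNReal.ofReal (2 * τ * (1 + τ) * P * B) * hmu (m + 1) C := by
    rw [← hmass, ← lintegral_const_mul' _ _ (by norm_num), ← setLIntegral_const]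
    exact setLIntegral_mono' hC fun x hx => rgeo_point hm hl0 hR hx.1 ha hτ0 hτ1
  have hsplit := measure_inter_add_sdiff (μ := hmu (m + 1)) C hNm
  have hw : hmu (m + 1) (C ∩ N) ≠ ⊤ := (lt_of_le_of_lt (measure_mono Set.inter_subset_left) hV1).ne
  have hd : hmu (m + 1) (C \ N) ≠ ⊤ := (lt_of_le_of_lt (measure_mono Set.sdiff_subset) hV1).ne
  have hv : 0 < (hmu (m + 1) C).toReal := ENNReal.toReal_pos hV0.ne' hV1.ne
  have r1 := congrArg ENNReal.toReal hsplit
  rw [ENNReal.toReal_add hw hd] at r1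
  have r2 := ENNReal.toReal_mono (ENNReal.mul_ne_top ENNReal.ofReal_ne_top hV1.ne) hiso
  rw [ENNReal.toReal_mul, ENNReal.toReal_ofReal (by positivity)] at r2
  have r3 := ENNReal.toReal_mono (ENNReal.mul_ne_top ENNReal.ofReal_ne_top hV1.ne) hup
  rw [ENNReal.toReal_mul, ENNReal.toReal_mul, ENNReal.toReal_mul, ENNReal.toReal_ofReal hI0,
    ENNReal.toReal_ofReal (by positivity), ENNReal.toReal_ofNat] at r3
  have r4 : (1 - t ^ m) * (hmu (m + 1) C).toReal ≤ (hmu (m + 1) (C ∩ N)).toReal := by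
    linarith only [r1, r2]
  have r5 := mul_le_mul_of_nonneg_left r4 hI0
  refine le_of_mul_le_mul_right ?_ hv
  linarith only [r3, r5]

lemma rgeo_zero {f g : ℝ → ℝ} (hf : ContinuousAt f 0) (hg : ContinuousAt g 0) {d : ℝ}
    (hd : 0 < d) (h : ∀ u, 0 < u → u < d → f u ≤ g u) : f 0 ≤ g 0 := by
  refine le_of_tendsto_of_tendsto (b := nhdsWithin 0 (Set.Ioi 0))
    (hf.tendsto.mono_left nhdsWithin_le_nhds) (hg.tendsto.mono_left nhdsWithin_le_nhds) ?_
  filter_upwards [Ioo_mem_nhdsGT hd] with u hu using h u hu.1 hu.2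

lemma rgeo_norm {m : ℕ} {Δ D G c τ a : ℝ} (hτ1 : τ ≤ 1 / 2) (ha : 0 < a)
    (h : c * (exp (-a) * (π / a) ^ (((m : ℝ) + 1) / 2)) ≤
      τ * (1 + τ) * (π / (a * (1 - τ) ^ 2)) ^ ((m : ℝ) / 2) *
        (Δ * √π / G * (a * (1 - τ) ^ 2) ^ (-(1 / 2 : ℝ)) + D)) :
    c * exp (-a) ≤ τ * (1 + τ) / (1 - τ) ^ m * (Δ / G / (1 - τ) + D * √a / √π) := by
  have h1 : 0 < 1 - τ := by linarith only [hτ1]
  have hpa : 0 < π / a := div_pos pi_pos ha
  have hsa : 0 < √a := sqrt_pos.2 ha
  have hsp : 0 < √π := sqrt_pos.2 pi_pos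
  have e1 : (π / a) ^ (((m : ℝ) + 1) / 2) = (π / a) ^ ((m : ℝ) / 2) * (√π / √a) := by
    rw [add_div, rpow_add hpa, ← sqrt_eq_rpow, sqrt_div pi_pos.le]
  have e2 : (π / (a * (1 - τ) ^ 2)) ^ ((m : ℝ) / 2) = (π / a) ^ ((m : ℝ) / 2) / (1 - τ) ^ m := by
    rw [← div_div, div_rpow hpa.le (by positivity), ← ker_sqrt_pow (sq_nonneg (1 - τ)),
      sqrt_sq h1.le]
  have e3 : (a * (1 - τ) ^ 2) ^ (-(1 / 2 : ℝ)) = 1 / (√a * (1 - τ)) := by
    rw [rpow_neg (by positivity), ← sqrt_eq_rpow, sqrt_mul ha.le, sqrt_sq h1.le, one_div]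
  rw [e1, e2, e3] at h
  have hP : 0 < (π / a) ^ ((m : ℝ) / 2) * (√π / √a) := by positivity
  refine le_of_mul_le_mul_right ?_ hP
  refine le_of_eq_of_le (by ring) (h.trans_eq ?_)
  field_simp

theorem geo_limit {m : ℕ} (hm : 2 ≤ m) {Δ D : ℝ}
    (h : ∀ t τ a : ℝ, 0 < t → t < 1 → 0 < τ → τ ≤ 1 / 2 →
      ((1 - t ^ 2) / (2 * t)) ^ 2 * (1 + τ ^ 2) ≤ τ ^ 2 → 0 < a →
      (1 - t ^ m) * (exp (-a) * (π / a) ^ (((m : ℝ) + 1) / 2)) ≤
        τ * (1 + τ) * (π / (a * (1 - τ) ^ 2)) ^ ((m : ℝ) / 2) *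
          (Δ * √π / Gamma ((m : ℝ) / 2) * (a * (1 - τ) ^ 2) ^ (-(1 / 2 : ℝ)) + D)) :
    (m : ℝ) * Gamma ((m : ℝ) / 2) ≤ Δ := by
  have hm' : (2 : ℝ) ≤ m := by exact_mod_cast hm
  have hG : 0 < Gamma ((m : ℝ) / 2) := Gamma_pos_of_pos (by linarith only [hm'])
  have h1 : ∀ t τ : ℝ, 0 < t → t < 1 → 0 < τ → τ ≤ 1 / 2 →
      ((1 - t ^ 2) / (2 * t)) ^ 2 * (1 + τ ^ 2) ≤ τ ^ 2 →
      1 - t ^ m ≤ τ * (1 + τ) / (1 - τ) ^ m * (Δ / Gamma ((m : ℝ) / 2) / (1 - τ)) := by
    intro t τ ht0 ht1 hτ0 hτ1 hτ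
    have := rgeo_zero (f := fun a => (1 - t ^ m) * exp (-a))
      (g := fun a => τ * (1 + τ) / (1 - τ) ^ m *
        (Δ / Gamma ((m : ℝ) / 2) / (1 - τ) + D * √a / √π)) (by fun_prop) (by fun_prop) one_pos
      fun a ha _ => rgeo_norm hτ1 ha (h t τ a ht0 ht1 hτ0 hτ1 hτ ha)
    simpa using this
  have h2 := rgeo_zero (f := fun u => ∑ i ∈ Finset.range m, (1 - u) ^ i)
    (g := fun u => (1 + 3 * u) * (1 + (u + 3 * u ^ 2)) / (1 - (u + 3 * u ^ 2)) ^ m *
      (Δ / Gamma ((m : ℝ) / 2) / (1 - (u + 3 * u ^ 2)))) (by fun_prop)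
    (by fun_prop (disch := norm_num)) (d := 1 / 10) (by norm_num) fun u hu0 hu1 => by
      have ht : 0 < 1 - u := by linarith only [hu0, hu1]
      have hq : (1 - (1 - u) ^ 2) / (2 * (1 - u)) ≤ u * (1 + u) := by
        rw [div_le_iff₀ (by linarith)]
        nlinarith only [hu0, hu1, mul_pos hu0 hu0]
      have hq0 : 0 ≤ (1 - (1 - u) ^ 2) / (2 * (1 - u)) := div_nonneg (by nlinarith only [hu0, hu1]) (by linarith only [hu0, hu1])
      have hτs : (u + 3 * u ^ 2) ^ 2 ≤ 2 * u := by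
        have : u + 3 * u ^ 2 ≤ 2 * u := by nlinarith only [hu0, hu1]
        have h0 : 0 ≤ u + 3 * u ^ 2 := by positivity
        nlinarith only [hu0, this, hu1]
      have h3 := h1 (1 - u) (u + 3 * u ^ 2) ht (by linarith only [hu0]) (by positivity) (by nlinarith only [hu0, hu1, hτs]) (by
        calc ((1 - (1 - u) ^ 2) / (2 * (1 - u))) ^ 2 * (1 + (u + 3 * u ^ 2) ^ 2)
            ≤ (u * (1 + u)) ^ 2 * (1 + 2 * u) := by gcongr
          _ = u ^ 2 * ((1 + u) ^ 2 * (1 + 2 * u)) := by ring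
          _ ≤ u ^ 2 * (1 + 3 * u) ^ 2 := by
            refine mul_le_mul_of_nonneg_left ?_ (sq_nonneg u)
            nlinarith only [hu0, hτs, mul_pos hu0 hu0, mul_pos hu0 (mul_pos hu0 hu0)]
          _ = (u + 3 * u ^ 2) ^ 2 := by ring)
      have e : 1 - (1 - u) ^ m = u * ∑ i ∈ Finset.range m, (1 - u) ^ i := by
        have := mul_neg_geom_sum (1 - u) m
        rw [← this]; ring
      rw [e] at h3
      refine le_of_mul_le_mul_left (h3.trans_eq ?_) hu0
      ring
  simp only [sub_zero, one_pow, Finset.sum_const, Finset.card_range, nsmul_eq_mul, mul_one,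
    mul_zero, add_zero, ne_eq, OfNat.ofNat_ne_zero, not_false_eq_true, zero_pow, div_one,
    one_mul] at h2
  rwa [le_div_iff₀ hG] at h2

theorem geo_main {m : ℕ} (hm : 2 ≤ m) {S : Set (GL (Fin (m + 1 + 1)) ℝ)} (hS : ∀ g ∈ S, IsRefl g)
    (hc : Cocompact (Subgroup.closure S)) {Δ l0 : ℝ} (hl0 : 0 < l0)
    (hR : RootBound (Subgroup.closure S) Δ l0) : (m : ℝ) * Gamma ((m : ℝ) / 2) ≤ Δ :=
  geo_limit hm fun _ _ _ ht0 ht1 hτ0 hτ1 hτ ha => geo_step hm hS hc hl0 hR ht0 ht1 hτ0 hτ1 hτ ha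

end Pool.Agent.Work.MP_c8d35c_al
end
end

-- merged part: Pool.Agent.Work.MP_c8d35c_al.GTri
section
/-! Traces of products of reflections and cyclic products of roots.

Plan. With `M x y = vecMulVec x (lorMat n *ᵥ y)` one has `M x y * M z w = lor y z • M x w`,
`trace (M x y) = lor x y` and ` (refl e).val = 1 - 2 • M e e` for a unit vector. Use
`two_trace_wd`. `lor_mem`: write `γ` as a product of a list of reflections in roots
(`RCox2_ind` with the statement: there is a finite set `s` of roots such that `γ` preserves every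
set `V` that is preserved by all `refl x`, `x ∈ s`). By `Mix.exists_ne` and `mulVec_mem_roots`
there is a root `f` that is not orthogonal to `e` and to the elements of `s`. The vectors
`v x = lor f x • x` have all products in `K` (`tri_mem`); their `K`-span `V` has products in `K`
and is preserved by `refl x = refl (v x)` (`refl_smul`); finally
`lor (γ e) e = lor (γ (v e)) (v e) / lor (v e) (v e)`. -/

namespace Pool.Agent.Work.MP_c8d35c_al

open Matrix

variable {n : ℕ} {e f g : Fin (n + 1) → ℝ} {Γ : Subgroup (GL (Fin (n + 1)) ℝ)}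

/-- The map `z ↦ lor z y • x`. -/
def GTri_M (x y : Fin (n + 1) → ℝ) : Matrix (Fin (n + 1)) (Fin (n + 1)) ℝ :=
  vecMulVec x (lorMat n *ᵥ y)

theorem GTri_mul (x y z w : Fin (n + 1) → ℝ) :
    GTri_M x y * GTri_M z w = lor z y • GTri_M x w := by
  unfold GTri_M
  rw [vecMulVec_mul_vecMulVec, lor_eq_dot, dotProduct_comm, vecMulVec_smul]

theorem GTri_trace (x y : Fin (n + 1) → ℝ) : (GTri_M x y).trace = lor x y := by
  unfold GTri_M
  rw [trace_vecMulVec, lor_eq_dot]

theorem GTri_refl (he : lor e e = 1) : (refl e).val = 1 - (2 : ℝ) • GTri_M e e := by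
  change 1 - (2 / lor e e) • GTri_M e e = _
  rw [he, div_one]

theorem GTri_solve (K : Subfield ℝ) {a b x : ℝ} (ha : a ∈ K) (hb : b ∈ K) (hb0 : b ≠ 0)
    (h : a + b * x ∈ K) : x ∈ K := by
  have e : x = (a + b * x - a) / b := by
    field_simp
    ring
  rw [e]
  exact div_mem (sub_mem h ha) hb

theorem trace_wd_one (he : lor e e = 1) :
    (wd (refl e).val).trace = (n : ℝ) * (n - 3) / 2 := by
  have h := two_trace_wd (refl e).val
  rw [← Units.val_mul, refl_mul_self, Units.val_one] at h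
  nth_rewrite 2 [GTri_refl he] at h
  simp only [trace_sub, trace_smul, GTri_trace, trace_one, smul_eq_mul, Fintype.card_fin,
    Nat.cast_add, Nat.cast_one, he] at h
  linear_combination h / 2

theorem trace_wd_two (he : lor e e = 1) (hf : lor f f = 1) :
    (wd (refl e * refl f).val).trace =
      ((n : ℝ) - 2) * (n - 5) / 2 - 1 + 4 * (n - 1) * lor e f ^ 2 := by
  have h := two_trace_wd (refl e * refl f).val
  have h1 : (refl e * refl f).val =
      1 - (2 : ℝ) • GTri_M e e - (2 : ℝ) • GTri_M f f + (4 * lor e f) • GTri_M e f := by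
    rw [Units.val_mul, GTri_refl he, GTri_refl hf]
    simp only [mul_sub, sub_mul, smul_mul_assoc, mul_smul_comm, GTri_mul, one_mul, mul_one,
      lor_comm f e]
    module
  generalize (wd (refl e * refl f).val).trace = T at h ⊢
  rw [h1] at h
  simp only [mul_add, add_mul, mul_sub, sub_mul, smul_mul_assoc, mul_smul_comm, GTri_mul, one_mul,
    mul_one, trace_add, trace_sub, trace_smul, GTri_trace, trace_one, smul_eq_mul,
    Fintype.card_fin, Nat.cast_add, Nat.cast_one, he, hf, lor_comm f e] at h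
  linear_combination h / 2

theorem trace_wd_three (he : lor e e = 1) (hf : lor f f = 1) (hg : lor g g = 1) :
    (wd (refl e * refl f * refl g).val).trace =
      ((n : ℝ) ^ 2 - 11 * n + 24) / 2 + 4 * (n - 3) * (lor e f ^ 2 + lor f g ^ 2 + lor g e ^ 2) -
        8 * (n - 3) * (lor e f * lor f g * lor g e) := by
  have h := two_trace_wd (refl e * refl f * refl g).val
  have h1 : (refl e * refl f * refl g).val =
      1 - (2 : ℝ) • GTri_M e e - (2 : ℝ) • GTri_M f f - (2 : ℝ) • GTri_M g g +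
        (4 * lor e f) • GTri_M e f + (4 * lor f g) • GTri_M f g +
        (4 * lor g e - 8 * lor e f * lor f g) • GTri_M e g := by
    rw [Units.val_mul, Units.val_mul, GTri_refl he, GTri_refl hf, GTri_refl hg]
    simp only [mul_sub, sub_mul, smul_mul_assoc, mul_smul_comm, GTri_mul, one_mul, mul_one,
      lor_comm f e, lor_comm g f]
    module
  generalize (wd (refl e * refl f * refl g).val).trace = T at h ⊢
  rw [h1] at h
  simp only [mul_add, add_mul, mul_sub, sub_mul, smul_mul_assoc, mul_smul_comm, GTri_mul, one_mul,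
    mul_one, trace_add, trace_sub, trace_smul, GTri_trace, trace_one, smul_eq_mul,
    Fintype.card_fin, Nat.cast_add, Nat.cast_one, he, hf, hg, lor_comm f e, lor_comm g f,
    lor_comm e g] at h
  linear_combination h / 2

theorem GTri_sq (hn : 4 ≤ n) (K : Subfield ℝ) (hK : ∀ γ ∈ Γ, (wd γ.val).trace ∈ K)
    (he : e ∈ roots Γ) (hf : f ∈ roots Γ) : lor e f ^ 2 ∈ K := by
  have h := hK _ (mul_mem he.2 hf.2)
  rw [trace_wd_two he.1 hf.1] at h
  have h4 : (4 : ℝ) ≤ n := by exact_mod_cast hn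
  have h1 := SubfieldClass.ratCast_mem K (((n : ℚ) - 2) * (n - 5) / 2 - 1)
  have h2 := SubfieldClass.ratCast_mem K (4 * ((n : ℚ) - 1))
  push_cast at h1 h2
  exact GTri_solve K h1 h2 (by linarith) h

theorem tri_mem (hn : 4 ≤ n) (K : Subfield ℝ) (hK : ∀ γ ∈ Γ, (wd γ.val).trace ∈ K)
    (he : e ∈ roots Γ) (hf : f ∈ roots Γ) (hg : g ∈ roots Γ) :
    lor e f * lor f g * lor g e ∈ K := by
  have h := hK _ (mul_mem (mul_mem he.2 hf.2) hg.2)
  rw [trace_wd_three he.1 hf.1 hg.1, sub_eq_add_neg, ← neg_mul] at h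
  have h4 : (4 : ℝ) ≤ n := by exact_mod_cast hn
  have h1 := SubfieldClass.ratCast_mem K (((n : ℚ) ^ 2 - 11 * n + 24) / 2)
  have h2 := SubfieldClass.ratCast_mem K (4 * ((n : ℚ) - 3))
  have h3 := SubfieldClass.ratCast_mem K (-(8 * ((n : ℚ) - 3)))
  push_cast at h1 h2 h3
  exact GTri_solve K (add_mem h1 (mul_mem h2 (add_mem (add_mem (GTri_sq hn K hK he hf)
    (GTri_sq hn K hK hf hg)) (GTri_sq hn K hK hg he)))) h3 (by linarith only [h4]) h

theorem lor_mem (hn : 4 ≤ n) {S : Set (GL (Fin (n + 1)) ℝ)} (hS : ∀ g ∈ S, IsRefl g)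
    (hm : Mix (Subgroup.closure S)) (K : Subfield ℝ)
    (hK : ∀ γ ∈ Subgroup.closure S, (wd γ.val).trace ∈ K) (he : e ∈ roots (Subgroup.closure S))
    {γ : GL (Fin (n + 1)) ℝ} (hγ : γ ∈ Subgroup.closure S) : lor (γ.val *ᵥ e) e ∈ K := by
  classical
  obtain ⟨s, hs, hV⟩ : ∃ s : Finset (Fin (n + 1) → ℝ), (∀ x ∈ s, x ∈ roots (Subgroup.closure S)) ∧
      ∀ V : Set (Fin (n + 1) → ℝ), (∀ x ∈ s, ∀ v ∈ V, (refl x).val *ᵥ v ∈ V) →
        ∀ v ∈ V, γ.val *ᵥ v ∈ V := by
    refine RCox2_ind hS (p := fun γ => ∃ s : Finset (Fin (n + 1) → ℝ),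
      (∀ x ∈ s, x ∈ roots (Subgroup.closure S)) ∧ ∀ V : Set (Fin (n + 1) → ℝ),
        (∀ x ∈ s, ∀ v ∈ V, (refl x).val *ᵥ v ∈ V) → ∀ v ∈ V, γ.val *ᵥ v ∈ V) ?_ ?_ ?_ hγ
    · intro x hx
      exact ⟨{x}, by simpa using hx, fun V h => h x (Finset.mem_singleton_self x)⟩
    · exact ⟨∅, by simp, fun V _ v hv => by simpa using hv⟩
    · rintro a b ⟨s, hs, h1⟩ ⟨t, ht, h2⟩
      refine ⟨s ∪ t, fun x hx => (Finset.mem_union.1 hx).elim (hs x) (ht x), fun V h v hv => ?_⟩
      rw [gl_mul_mulVec]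
      exact h1 V (fun x hx => h x (Finset.mem_union_left _ hx)) _
        (h2 V (fun x hx => h x (Finset.mem_union_right _ hx)) v hv)
  have h0 : ∀ x ∈ roots (Subgroup.closure S), x ≠ 0 := by
    rintro x hx rfl
    have := hx.1
    rw [lor_zero_left] at this
    exact zero_ne_one this
  obtain ⟨δ, hδ, hne⟩ := hm.exists_ne (by omega) (h0 e he) (insert e s) (by
    intro h
    rcases Finset.mem_insert.1 h with h | h
    · exact h0 e he h.symm
    · exact h0 0 (hs 0 h) rfl)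
  have hf := mulVec_mem_roots (closure_le_isomH hS) hδ he
  generalize δ.val *ᵥ e = f at hne hf
  have h1 := hV {v | ∀ y ∈ roots (Subgroup.closure S), lor f y * lor v y ∈ K} (by
    intro x hx v hv y hy
    have hx' := hs x hx
    have h2 := hne x (Finset.mem_insert_of_mem hx)
    have h3 : lor f y * lor ((refl x).val *ᵥ v) y = lor f y * lor v y -
        2 * (lor f x * lor v x * (lor f x * lor x y * lor y f) / lor f x ^ 2) := by
      rw [refl_mulVec_unit hx'.1, lor_sub_left, lor_smul_left, lor_comm y f]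
      field_simp
    rw [h3]
    exact sub_mem (hv y hy) (mul_mem (ofNat_mem K 2) (div_mem (mul_mem (hv x hx')
      (tri_mem hn K hK hf hx' hy)) (GTri_sq hn K hK hf hx')))) (lor f e • e) (by
    intro y hy
    have h2 := tri_mem hn K hK hf he hy
    rw [lor_smul_left]
    convert h2 using 1
    rw [lor_comm y f]
    ring) e he
  rw [mulVec_smul, lor_smul_left, ← mul_assoc, ← sq, ← zero_add (_ * _)] at h1
  exact GTri_solve K (zero_mem K) (GTri_sq hn K hK hf he)
    (pow_ne_zero 2 (hne e (Finset.mem_insert_self e s))) h1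

end Pool.Agent.Work.MP_c8d35c_al
end
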