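import Mathlib
import Pool.Agent.Work.MP_c8d35c_al.GTri

-- merged part: Pool.Agent.Work.MP_c8d35c_al.QUnf
section
-- merged part: Pool.Agent.Work.MP_c8d35c_al.RLat
section
/-! Full lattices in a rational vector space, covolume with respect to a bilinear form. -/

namespace Pool.Agent.Work.MP_c8d35c_al

open Module

/-- `e(t) = exp(2 π i t)`. -/
noncomputable def ee (t : ℝ) : ℂ := Complex.exp (2 * Real.pi * Complex.I * t)

lemma ee_add (s t : ℝ) : ee (s + t) = ee s * ee t := by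
  simp only [ee, ← Complex.exp_add]; congr 1; push_cast; ring

lemma ee_zero : ee 0 = 1 := by simp [ee]

lemma norm_ee (t : ℝ) : ‖ee t‖ = 1 := by
  have : (2 * Real.pi * Complex.I * t : ℂ) = ((2 * Real.pi * t : ℝ) : ℂ) * Complex.I := by
    push_cast; ring
  rw [ee, this, Complex.norm_exp_ofReal_mul_I]

lemma ee_int (z : ℤ) : ee z = 1 := by
  have := Complex.exp_int_mul_two_pi_mul_I z
  rw [ee, ← this]; congr 1; push_cast; ring

lemma continuous_ee : Continuous ee := by unfold ee; fun_prop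

variable {W : Type} [AddCommGroup W] [Module ℚ W]

/-- `X` is the group generated by a basis. -/
def Full (X : AddSubgroup W) : Prop :=
  ∃ b : Basis (Fin (finrank ℚ W)) ℚ W, X = AddSubgroup.closure (Set.range b)

open Classical in
/-- Square root of the absolute value of the Gram determinant. -/
noncomputable def cov (β : LinearMap.BilinForm ℚ W) (X : AddSubgroup W) : ℝ :=
  if h : Full X then √|((LinearMap.BilinForm.toMatrix h.choose β).det : ℝ)| else 0

/-- The dual lattice. -/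
def dualA (β : LinearMap.BilinForm ℚ W) (X : AddSubgroup W) : AddSubgroup W where
  carrier := {y | ∀ x ∈ X, ∃ z : ℤ, β x y = z}
  zero_mem' := fun x _ => ⟨0, by simp⟩
  add_mem' := by
    intro a b ha hb x hx
    obtain ⟨z, hz⟩ := ha x hx
    obtain ⟨w, hw⟩ := hb x hx
    exact ⟨z + w, by simp [hz, hw]⟩
  neg_mem' := by
    intro a ha x hx
    obtain ⟨z, hz⟩ := ha x hx
    exact ⟨-z, by simp [hz]⟩

lemma mem_dualA {β : LinearMap.BilinForm ℚ W} {X : AddSubgroup W} {y : W} :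
    y ∈ dualA β X ↔ ∀ x ∈ X, ∃ z : ℤ, β x y = z := Iff.rfl

lemma dualA_anti (β : LinearMap.BilinForm ℚ W) {X Y : AddSubgroup W} (h : X ≤ Y) :
    dualA β Y ≤ dualA β X := fun _ hy x hx => hy x (h hx)

/-- Real coordinates in which the form is diagonal with signs `ε`. -/
structure RealFrame (β : LinearMap.BilinForm ℚ W) {ι : Type} [Fintype ι] (ε : ι → ℝ)
    (Φ : W →+ ι → ℝ) : Prop where
  card : Fintype.card ι = finrank ℚ W
  sign : ∀ i, ε i = 1 ∨ ε i = -1
  form : ∀ x y, ∑ i, ε i * (Φ x i * Φ y i) = (β x y : ℝ)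

theorem full_of_basis {ι : Type} [Fintype ι] (b : Basis ι ℚ W) :
    Full (AddSubgroup.closure (Set.range b)) := by
  refine ⟨b.reindex (Fintype.equivFinOfCardEq (finrank_eq_card_basis b).symm), ?_⟩
  rw [Basis.range_reindex]

theorem Full.exists_basis {X : AddSubgroup W} (h : Full X) (ι : Type) [Fintype ι]
    (hι : Fintype.card ι = finrank ℚ W) :
    ∃ b : Basis ι ℚ W, X = AddSubgroup.closure (Set.range b) := by
  obtain ⟨b, hb⟩ := h
  refine ⟨b.reindex (Fintype.equivFinOfCardEq hι).symm, ?_⟩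
  rw [Basis.range_reindex, hb]

theorem mem_closure_basis {ι : Type} [Fintype ι] (b : Basis ι ℚ W) (x : W) :
    x ∈ AddSubgroup.closure (Set.range b) ↔ ∃ m : ι → ℤ, x = ∑ i, m i • b i := by
  rw [← Submodule.span_int_eq_addSubgroupClosure, Submodule.mem_toAddSubgroup,
    Submodule.mem_span_range_iff_exists_fun]
  exact exists_congr fun m => eq_comm

theorem RLat_mem {ι : Type} [Fintype ι] (b : Basis ι ℚ W) (x : W) :
    x ∈ AddSubgroup.closure (Set.range b) ↔ ∀ i, ∃ z : ℤ, b.repr x i = z := by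
  rw [← Submodule.span_int_eq_addSubgroupClosure, Submodule.mem_toAddSubgroup,
    Basis.mem_span_iff_repr_mem]
  exact forall_congr' fun i => exists_congr fun z => eq_comm

/-- Integer coordinates of the lattice spanned by a basis. -/
theorem exists_equiv_basis {ι : Type} [Fintype ι] (b : Basis ι ℚ W) :
    ∃ e : (ι → ℤ) ≃+ AddSubgroup.closure (Set.range b), ∀ m, (e m : W) = ∑ i, m i • b i := by
  refine ⟨(b.addSubgroupOfClosure _ rfl).equivFun.symm.toAddEquiv, fun m => ?_⟩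
  have h := congrArg Subtype.val ((b.addSubgroupOfClosure _ rfl).equivFun_symm_apply m)
  rw [Submodule.coe_sum] at h
  refine h.trans (Finset.sum_congr rfl fun i _ => ?_)
  rw [Submodule.coe_smul, Basis.addSubgroupOfClosure_apply]

theorem RLat_fg {X : AddSubgroup W} (h : Full X) : X.FG := by
  obtain ⟨b, rfl⟩ := h
  exact (AddSubgroup.fg_iff _).2 ⟨_, rfl, Set.finite_range b⟩

theorem RLat_span {X : AddSubgroup W} (h : Full X) : Submodule.span ℚ (X : Set W) = ⊤ := by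
  obtain ⟨b, rfl⟩ := h
  rw [eq_top_iff, ← b.span_eq]
  exact Submodule.span_mono AddSubgroup.subset_closure

omit [Module ℚ W] in
theorem RLat_fg_of_le {X Y : AddSubgroup W} (hY : Y.FG) (h : X ≤ Y) : X.FG := by
  have h1 : Y.toIntSubmodule.FG := (Submodule.fg_iff_addSubgroup_fg _).2 hY
  exact (Submodule.fg_iff_addSubgroup_fg X.toIntSubmodule).1 (h1.of_le h)

theorem full_iff [FiniteDimensional ℚ W] (X : AddSubgroup W) :
    Full X ↔ X.FG ∧ Submodule.span ℚ (X : Set W) = ⊤ := by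
  refine ⟨fun h => ⟨RLat_fg h, RLat_span h⟩, fun ⟨h1, h2⟩ => ?_⟩
  have h3 : X.toIntSubmodule.FG := (Submodule.fg_iff_addSubgroup_fg _).2 h1
  have : Module.Finite ℤ X.toIntSubmodule := Module.Finite.iff_fg.2 h3
  have : IsAddTorsionFree W := IsAddTorsionFree.of_module_rat W
  let v := Module.Free.chooseBasis ℤ X.toIntSubmodule
  have hli : LinearIndependent ℚ fun i => (v i : W) :=
    (LinearIndependent.iff_fractionRing ℤ ℚ).1
      (v.linearIndependent.map' X.toIntSubmodule.subtype (Submodule.ker_subtype _))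
  have hX : X = AddSubgroup.closure (Set.range fun i => (v i : W)) := by
    have h4 := congrArg (Submodule.map X.toIntSubmodule.subtype) v.span_eq
    rw [Submodule.map_span, Submodule.map_subtype_top, ← Set.range_comp] at h4
    rw [← Submodule.span_int_eq_addSubgroupClosure]
    exact (congrArg Submodule.toAddSubgroup h4).symm
  have hsp : ⊤ ≤ Submodule.span ℚ (Set.range fun i => (v i : W)) := by
    rw [← h2, Submodule.span_le]
    intro x hx
    rw [hX] at hx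
    exact (AddSubgroup.closure_le (Submodule.span ℚ _).toAddSubgroup).2 Submodule.subset_span hx
  have h5 := full_of_basis (Basis.mk hli hsp)
  rwa [Basis.coe_mk, ← hX] at h5

theorem Full.countable {X : AddSubgroup W} (h : Full X) : Countable X := by
  obtain ⟨b, rfl⟩ := h
  obtain ⟨e, -⟩ := exists_equiv_basis b
  exact e.symm.injective.countable

theorem RLat_nsmul_mem {X : AddSubgroup W} (h : Full X) (y : W) :
    ∃ c : ℕ, 0 < c ∧ c • y ∈ X := by
  obtain ⟨b, rfl⟩ := h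
  refine ⟨∏ i, (b.repr y i).den, Finset.prod_pos fun i _ => (b.repr y i).den_pos, ?_⟩
  rw [RLat_mem]
  intro i
  obtain ⟨k, hk⟩ := Finset.dvd_prod_of_mem (fun i => (b.repr y i).den) (Finset.mem_univ i)
  refine ⟨k * (b.repr y i).num, ?_⟩
  rw [hk, map_nsmul, Finsupp.smul_apply, nsmul_eq_mul]
  push_cast
  rw [← Rat.den_mul_eq_num]
  ring

theorem Full.exists_nsmul {X : AddSubgroup W} (h : Full X) {Y : AddSubgroup W} (hY : Y.FG) :
    ∃ c : ℕ, 0 < c ∧ ∀ y ∈ Y, c • y ∈ X := by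
  obtain ⟨S, rfl⟩ := hY
  choose c hc hc' using RLat_nsmul_mem h
  refine ⟨∏ y ∈ S, c y, Finset.prod_pos fun y _ => hc y, fun y hy => ?_⟩
  refine (AddSubgroup.closure_le (X.comap (nsmulAddMonoidHom (∏ y ∈ S, c y)))).2
    (fun z hz => ?_) hy
  obtain ⟨k, hk⟩ := Finset.dvd_prod_of_mem c hz
  change (∏ y ∈ S, c y) • z ∈ X
  rw [hk, mul_nsmul]
  exact X.nsmul_mem (hc' z) k

theorem Full.exists_nsmul_mem {X : AddSubgroup W} (h : Full X) (y : W) :
    ∃ c : ℕ, 0 < c ∧ c • y ∈ X := by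
  exact RLat_nsmul_mem h y

theorem Full.of_le_of_le [FiniteDimensional ℚ W] {X Y Z : AddSubgroup W} (hX : Full X)
    (hZ : Full Z) (h1 : X ≤ Y) (h2 : Y ≤ Z) : Full Y := by
  refine (full_iff Y).2 ⟨RLat_fg_of_le (RLat_fg hZ) h2, ?_⟩
  rw [eq_top_iff, ← RLat_span hX]
  exact Submodule.span_mono h1

theorem Full.inf [FiniteDimensional ℚ W] {X Y : AddSubgroup W} (hX : Full X) (hY : Full Y) :
    Full (X ⊓ Y) := by
  refine (full_iff _).2 ⟨RLat_fg_of_le (RLat_fg hX) inf_le_left, ?_⟩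
  rw [eq_top_iff]
  intro w _
  obtain ⟨c, hc, h1⟩ := hX.exists_nsmul_mem w
  obtain ⟨d, hd, h2⟩ := hY.exists_nsmul_mem (c • w)
  have h3 : d • c • w ∈ Submodule.span ℚ ((X ⊓ Y : AddSubgroup W) : Set W) :=
    Submodule.subset_span ⟨X.nsmul_mem h1 d, h2⟩
  have h4 : w = ((d * c : ℕ) : ℚ)⁻¹ • d • c • w := by
    rw [← mul_smul d c, ← Nat.cast_smul_eq_nsmul ℚ, inv_smul_smul₀]
    positivity
  rw [h4]
  exact Submodule.smul_mem _ _ h3

theorem Full.sup [FiniteDimensional ℚ W] {X Y : AddSubgroup W} (hX : Full X) (hY : Full Y) :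
    Full (X ⊔ Y) := by
  refine (full_iff _).2 ⟨(RLat_fg hX).sup (RLat_fg hY), ?_⟩
  rw [eq_top_iff, ← RLat_span hX]
  exact Submodule.span_mono (le_sup_left : X ≤ X ⊔ Y)

theorem RLat_map {ι : Type} (b : Basis ι ℚ W) (f : W ≃ₗ[ℚ] W) :
    (AddSubgroup.closure (Set.range b)).map f.toLinearMap.toAddMonoidHom =
      AddSubgroup.closure (Set.range (b.map f)) := by
  rw [AddMonoidHom.map_closure, ← Set.range_comp]
  rfl

theorem Full.map {X : AddSubgroup W} (hX : Full X) (f : W ≃ₗ[ℚ] W) :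
    Full (X.map f.toLinearMap.toAddMonoidHom) := by
  obtain ⟨b, rfl⟩ := hX
  exact ⟨b.map f, RLat_map b f⟩

theorem Full.relIndex_ne_zero [FiniteDimensional ℚ W] {X Y : AddSubgroup W} (hX : Full X)
    (hY : Full Y) : X.relIndex Y ≠ 0 := by
  obtain ⟨b, hb⟩ := hX.inf hY
  obtain ⟨c, hc⟩ := hY
  have h := AddSubgroup.relIndex_eq_abs_det (X ⊓ Y) Y inf_le_right b c hb hc
  rw [AddSubgroup.inf_relIndex_right] at h
  intro h0
  rw [h0, Nat.cast_zero, eq_comm, abs_eq_zero] at h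
  exact (c.isUnit_det b).ne_zero h

theorem RLat_gram (β : LinearMap.BilinForm ℚ W) {ι : Type} [Fintype ι] [DecidableEq ι]
    (b c : Basis ι ℚ W) : √|((LinearMap.BilinForm.toMatrix c β).det : ℝ)| =
      |((b.det c : ℚ) : ℝ)| * √|((LinearMap.BilinForm.toMatrix b β).det : ℝ)| := by
  rw [← LinearMap.BilinForm.toMatrix_mul_basis_toMatrix b c β, Matrix.det_mul, Matrix.det_mul,
    Matrix.det_transpose, ← Basis.det_apply, mul_right_comm]
  push_cast
  rw [abs_mul, Real.sqrt_mul (abs_nonneg _), abs_mul_self, Real.sqrt_mul_self_eq_abs]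

theorem cov_basis (β : LinearMap.BilinForm ℚ W) {ι : Type} [Fintype ι] [DecidableEq ι]
    (b : Basis ι ℚ W) : cov β (AddSubgroup.closure (Set.range b)) =
      √|((LinearMap.BilinForm.toMatrix b β).det : ℝ)| := by
  have h := full_of_basis b
  rw [cov, dif_pos h]
  have hc := h.choose_spec
  generalize h.choose = c at hc
  let e : Fin (finrank ℚ W) ≃ ι := (Fintype.equivFinOfCardEq (finrank_eq_card_basis b).symm).symm
  have h1 := AddSubgroup.relIndex_eq_abs_det _ _ le_rfl b (c.reindex e) rfl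
    (by rw [Basis.range_reindex]; exact hc)
  rw [AddSubgroup.relIndex_self] at h1
  have h2 : |(((c.reindex e).det b : ℚ) : ℝ)| = 1 := by
    rw [← Rat.cast_abs, ← h1]; simp
  have h3 : LinearMap.BilinForm.toMatrix (c.reindex e) β =
      (LinearMap.BilinForm.toMatrix c β).submatrix e.symm e.symm := by
    ext i j
    simp
  rw [RLat_gram β (c.reindex e) b, h2, one_mul, h3, Matrix.det_submatrix_equiv_self]

theorem cov_pos {β : LinearMap.BilinForm ℚ W} (hβ : β.Nondegenerate) {X : AddSubgroup W}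
    (hX : Full X) : 0 < cov β X := by
  obtain ⟨b, rfl⟩ := hX
  rw [cov_basis, Real.sqrt_pos, abs_pos]
  exact_mod_cast (LinearMap.BilinForm.nondegenerate_iff_det_ne_zero b).1 hβ

theorem cov_of_le (β : LinearMap.BilinForm ℚ W) {X Y : AddSubgroup W} (hX : Full X)
    (hY : Full Y) (h : X ≤ Y) : cov β X = X.relIndex Y * cov β Y := by
  obtain ⟨b, hb⟩ := hX
  obtain ⟨c, hc⟩ := hY
  have h1 := AddSubgroup.relIndex_eq_abs_det X Y h b c hb hc
  have h2 : (X.relIndex Y : ℝ) = |((c.det b : ℚ) : ℝ)| := by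
    rw [← Rat.cast_abs, ← h1]; simp
  rw [h2, hb, hc, cov_basis, cov_basis, RLat_gram β c b]

theorem cov_map (β : LinearMap.BilinForm ℚ W) {X : AddSubgroup W} (hX : Full X)
    (f : W ≃ₗ[ℚ] W) : cov β (X.map f.toLinearMap.toAddMonoidHom) =
      |((LinearMap.det f.toLinearMap : ℚ) : ℝ)| * cov β X := by
  obtain ⟨b, rfl⟩ := hX
  have h : b.det (b.map f) = LinearMap.det f.toLinearMap := by
    have := b.det_comp f.toLinearMap b
    rw [Basis.det_self, mul_one] at this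
    exact this
  rw [RLat_map, cov_basis, cov_basis, RLat_gram β b (b.map f), h]

theorem RLat_repr {β : LinearMap.BilinForm ℚ W} {ι : Type} [Fintype ι] [DecidableEq ι]
    {c c' : Basis ι ℚ W} (h : ∀ i j, β (c i) (c' j) = if i = j then 1 else 0) (y : W) (i : ι) :
    c'.repr y i = β (c i) y := by
  conv_rhs => rw [← c'.sum_repr y, map_sum]
  simp only [map_smul, h]
  simp

theorem RLat_dual {β : LinearMap.BilinForm ℚ W} {ι : Type} [Fintype ι] [DecidableEq ι]
    {c c' : Basis ι ℚ W} (h : ∀ i j, β (c i) (c' j) = if i = j then 1 else 0) :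
    dualA β (AddSubgroup.closure (Set.range c)) = AddSubgroup.closure (Set.range c') := by
  ext y
  rw [RLat_mem, mem_dualA]
  simp only [RLat_repr h]
  refine ⟨fun H i => H _ (AddSubgroup.subset_closure ⟨i, rfl⟩), fun H x hx => ?_⟩
  obtain ⟨m, rfl⟩ := (mem_closure_basis c x).1 hx
  choose z hz using H
  refine ⟨∑ i, m i * z i, ?_⟩
  simp [hz]

theorem RLat_exists_dual {β : LinearMap.BilinForm ℚ W} (hβ : β.Nondegenerate) {ι : Type}
    [Fintype ι] [DecidableEq ι] (b : Basis ι ℚ W) :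
    ∃ b' : Basis ι ℚ W, ∀ i j, β (b i) (b' j) = if i = j then 1 else 0 :=
  ⟨β.flip.dualBasis hβ.flip b, fun i j =>
    LinearMap.BilinForm.apply_dualBasis_left hβ.flip b j i⟩

theorem RLat_symm {β : LinearMap.BilinForm ℚ W} (hs : β.IsSymm) {ι : Type} [DecidableEq ι]
    {c c' : Basis ι ℚ W} (h : ∀ i j, β (c i) (c' j) = if i = j then 1 else 0) (i j : ι) :
    β (c' i) (c j) = if i = j then 1 else 0 := by
  rw [hs.eq, h]
  simp only [eq_comm]

theorem Full.dual {β : LinearMap.BilinForm ℚ W} (hβ : β.Nondegenerate) {X : AddSubgroup W}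
    (hX : Full X) : Full (dualA β X) := by
  obtain ⟨b, rfl⟩ := hX
  obtain ⟨b', h⟩ := RLat_exists_dual hβ b
  exact ⟨b', RLat_dual h⟩

theorem dual_dual {β : LinearMap.BilinForm ℚ W} (hβ : β.Nondegenerate) (hs : β.IsSymm)
    {X : AddSubgroup W} (hX : Full X) : dualA β (dualA β X) = X := by
  obtain ⟨b, rfl⟩ := hX
  obtain ⟨b', h⟩ := RLat_exists_dual hβ b
  rw [RLat_dual h, RLat_dual (RLat_symm hs h)]

theorem cov_mul_cov_dual {β : LinearMap.BilinForm ℚ W} (hβ : β.Nondegenerate) (hs : β.IsSymm)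
    {X : AddSubgroup W} (hX : Full X) : cov β X * cov β (dualA β X) = 1 := by
  obtain ⟨b, rfl⟩ := hX
  obtain ⟨b', h⟩ := RLat_exists_dual hβ b
  have h1 : LinearMap.BilinForm.toMatrix b β = b'.toMatrix b := by
    ext i j
    rw [LinearMap.BilinForm.toMatrix_apply, Basis.toMatrix_apply, RLat_repr h]
  have h2 : LinearMap.BilinForm.toMatrix b' β = b.toMatrix b' := by
    ext i j
    rw [LinearMap.BilinForm.toMatrix_apply, Basis.toMatrix_apply, RLat_repr (RLat_symm hs h)]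
  rw [RLat_dual h, cov_basis, cov_basis, h1, h2, ← Real.sqrt_mul (abs_nonneg _), ← abs_mul,
    ← Rat.cast_mul, ← Matrix.det_mul, Basis.toMatrix_mul_toMatrix_flip]
  simp

/-- The dual lattice is spanned by the dual basis. -/
theorem dualA_basis {β : LinearMap.BilinForm ℚ W} (hβ : β.Nondegenerate) (hs : β.IsSymm)
    {ι : Type} [Fintype ι] [DecidableEq ι] (b : Basis ι ℚ W) :
    ∃ b' : Basis ι ℚ W, dualA β (AddSubgroup.closure (Set.range b)) =
      AddSubgroup.closure (Set.range b') ∧ ∀ i j, β (b i) (b' j) = if i = j then 1 else 0 := by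
  have _ := hs
  obtain ⟨b', h⟩ := RLat_exists_dual hβ b
  exact ⟨b', RLat_dual h, h⟩

theorem RealFrame.abs_det {β : LinearMap.BilinForm ℚ W} {ι : Type} [Fintype ι] [DecidableEq ι]
    {ε : ι → ℝ} {Φ : W →+ ι → ℝ} (h : RealFrame β ε Φ) (b : Basis ι ℚ W) :
    |(Matrix.of fun i j => Φ (b j) i).det| = cov β (AddSubgroup.closure (Set.range b)) := by
  have h1 : (Matrix.of fun i j => Φ (b j) i).transpose * Matrix.diagonal ε *
      (Matrix.of fun i j => Φ (b j) i) =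
      (Rat.castHom ℝ).mapMatrix (LinearMap.BilinForm.toMatrix b β) := by
    ext i j
    rw [Matrix.mul_apply, RingHom.mapMatrix_apply, Matrix.map_apply,
      LinearMap.BilinForm.toMatrix_apply, Rat.coe_castHom, ← h.form]
    refine Finset.sum_congr rfl fun k _ => ?_
    rw [Matrix.mul_diagonal]
    simp only [Matrix.transpose_apply, Matrix.of_apply]
    ring
  have h2 := congrArg Matrix.det h1
  rw [← RingHom.map_det, Matrix.det_mul, Matrix.det_mul, Matrix.det_transpose,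
    Matrix.det_diagonal, Rat.coe_castHom] at h2
  have h3 : |∏ i, ε i| = 1 := by
    rw [Finset.abs_prod]
    exact Finset.prod_eq_one fun i _ => by rcases h.sign i with h | h <;> simp [h]
  rw [cov_basis, ← h2, mul_right_comm, abs_mul, h3, mul_one, abs_mul_self,
    Real.sqrt_mul_self_eq_abs]

theorem RealFrame.injective {β : LinearMap.BilinForm ℚ W} (hβ : β.Nondegenerate) {ι : Type}
    [Fintype ι] {ε : ι → ℝ} {Φ : W →+ ι → ℝ} (h : RealFrame β ε Φ) : Function.Injective Φ := by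
  rw [injective_iff_map_eq_zero]
  intro x hx
  refine hβ.1 x fun y => ?_
  have h1 := h.form x y
  rw [hx] at h1
  simp only [Pi.zero_apply, zero_mul, mul_zero, Finset.sum_const_zero] at h1
  exact_mod_cast h1.symm

end Pool.Agent.Work.MP_c8d35c_al
end

-- merged part: Pool.Agent.Work.MP_c8d35c_al.RPois1
section
/-! Poisson summation on `ℤ^ι`. -/

namespace Pool.Agent.Work.MP_c8d35c_al

open MeasureTheory

lemma rpois1_int : Summable fun n : ℤ => Real.exp (-|(n : ℝ)|) := by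
  refine Summable.of_nat_of_neg ?_ ?_
  · simpa using Real.summable_exp_neg_nat
  · simpa using Real.summable_exp_neg_nat

lemma rpois1_pi {ι : Type} [Fintype ι] :
    Summable fun m : ι → ℤ => ∏ i, Real.exp (-|(m i : ℝ)|) := by
  classical
  refine summable_of_sum_le (c := ∏ _i : ι, ∑' n : ℤ, Real.exp (-|(n : ℝ)|))
    (fun m => Finset.prod_nonneg fun i _ => (Real.exp_pos _).le) fun s => ?_
  calc ∑ m ∈ s, ∏ i, Real.exp (-|(m i : ℝ)|)
      ≤ ∑ m ∈ (Fintype.piFinset fun i => s.image fun m : ι → ℤ => m i : Finset (ι → ℤ)),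
          ∏ i, Real.exp (-|(m i : ℝ)|) :=
        Finset.sum_le_sum_of_subset_of_nonneg
          (fun m hm => Fintype.mem_piFinset.2 fun i => Finset.mem_image_of_mem _ hm)
          fun m _ _ => Finset.prod_nonneg fun i _ => (Real.exp_pos _).le
    _ = ∏ i, ∑ n ∈ (s.image fun m : ι → ℤ => m i : Finset ℤ), Real.exp (-|(n : ℝ)|) :=
        (Finset.prod_univ_sum _ fun (_ : ι) (n : ℤ) => Real.exp (-|(n : ℝ)|)).symm
    _ ≤ _ := Finset.prod_le_prod (fun i _ => Finset.sum_nonneg fun _ _ => (Real.exp_pos _).le)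
        fun i _ => rpois1_int.sum_le_tsum _ fun _ _ => (Real.exp_pos _).le

theorem summable_gauss_int {ι : Type} [Fintype ι] {δ : ℝ} (hδ : 0 < δ) (R : ℝ) :
    Summable fun m : ι → ℤ => Real.exp (-(δ * (max (‖fun i => (m i : ℝ)‖ - R) 0) ^ 2)) := by
  set N : ℝ := (Fintype.card ι : ℝ) with hN
  have hN0 : 0 ≤ N := Nat.cast_nonneg _
  refine Summable.of_nonneg_of_le (fun m => (Real.exp_pos _).le) (fun m => ?_)
    (rpois1_pi.mul_left (Real.exp (N * R + N ^ 2 / (4 * δ))))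
  rw [← Real.exp_sum, ← Real.exp_add, Real.exp_le_exp, Finset.sum_neg_distrib]
  have h1 : ∑ i, |(m i : ℝ)| ≤ N * ‖fun i => (m i : ℝ)‖ := by
    calc ∑ i, |(m i : ℝ)| ≤ ∑ _i : ι, ‖fun i => (m i : ℝ)‖ :=
          Finset.sum_le_sum fun i _ => norm_le_pi_norm (fun i => (m i : ℝ)) i
      _ = _ := by simp [hN]
  have h2 : ‖fun i => (m i : ℝ)‖ - R ≤ max (‖fun i => (m i : ℝ)‖ - R) 0 := le_max_left _ _
  generalize max (‖fun i => (m i : ℝ)‖ - R) 0 = s at h2 ⊢
  have h3 : N * s ≤ δ * s ^ 2 + N ^ 2 / (4 * δ) := by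
    have : δ * s ^ 2 + N ^ 2 / (4 * δ) - N * s = (2 * δ * s - N) ^ 2 / (4 * δ) := by
      field_simp
      ring
    have h4 : 0 ≤ (2 * δ * s - N) ^ 2 / (4 * δ) := by positivity
    linarith
  nlinarith [mul_le_mul_of_nonneg_left h2 hN0]

lemma rpois1_bound {ι : Type} [Fintype ι] {f : (ι → ℝ) → ℂ} {C δ : ℝ}
    (hδ : 0 < δ) (hb : ∀ x, ‖f x‖ ≤ C * Real.exp (-(δ * ‖x‖ ^ 2))) {R : ℝ} {x : ι → ℝ}
    (hx : ‖x‖ ≤ R) (y : ι → ℝ) :
    ‖f (x + y)‖ ≤ C * Real.exp (-(δ * (max (‖y‖ - R) 0) ^ 2)) := by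
  have hC : 0 ≤ C := nonneg_of_mul_nonneg_left ((norm_nonneg _).trans (hb 0)) (Real.exp_pos _)
  refine (hb _).trans (mul_le_mul_of_nonneg_left (Real.exp_le_exp.2 (neg_le_neg ?_)) hC)
  refine mul_le_mul_of_nonneg_left (pow_le_pow_left₀ (le_max_right _ _) (max_le ?_ ?_) 2) hδ.le
  · have := norm_sub_le (x + y) x
    rw [add_sub_cancel_left] at this
    linarith
  · exact norm_nonneg _

/-- The unit box with corner `a`. -/
def rpois1Box {ι : Type} (a : ι → ℝ) : Set (ι → ℝ) := {x | ∀ i, x i ∈ Set.Ioc (a i) (a i + 1)}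

/-- Unfolding. -/
lemma rpois1_unfold {ι : Type} [Fintype ι] {g : (ι → ℝ) → ℂ} (hg : Continuous g) {C δ : ℝ}
    (hδ : 0 < δ) (hb : ∀ x, ‖g x‖ ≤ C * Real.exp (-(δ * ‖x‖ ^ 2))) :
    ∫ x in rpois1Box 0, ∑' m : ι → ℤ, g (x + fun i => (m i : ℝ)) = ∫ x, g x := by
  have hmeas : ∀ a : ι → ℝ, MeasurableSet (rpois1Box a) := fun a =>
    MeasurableSet.univ_pi' fun _ => measurableSet_Ioc
  have hsub : rpois1Box (0 : ι → ℝ) ⊆ Metric.closedBall 0 1 := fun x hx => by
    rw [mem_closedBall_zero_iff, pi_norm_le_iff_of_nonneg zero_le_one]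
    intro i
    have := hx i
    simp only [Pi.zero_apply, zero_add, Set.mem_Ioc] at this
    rw [Real.norm_eq_abs, abs_le]
    constructor <;> linarith [this.1, this.2]
  have hfin : volume (rpois1Box (0 : ι → ℝ)) < ⊤ :=
    (measure_mono hsub).trans_lt (isCompact_closedBall 0 1).measure_lt_top
  have hpre : ∀ a : ι → ℝ, (fun x => x + a) ⁻¹' rpois1Box a = rpois1Box 0 := fun a => by
    ext x
    simp [rpois1Box, add_comm (x _)]
  have htr : ∀ {E : Type} [NormedAddCommGroup E] [NormedSpace ℝ E] (h : (ι → ℝ) → E) (a : ι → ℝ),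
      ∫ x in rpois1Box 0, h (x + a) = ∫ x in rpois1Box a, h x := fun h a => by
    rw [← hpre a]
    exact (measurePreserving_add_right volume a).setIntegral_preimage_emb
      (measurableEmbedding_addRight a) h _
  have hint : ∀ a : ι → ℝ, IntegrableOn (fun x => g (x + a)) (rpois1Box 0) := fun a =>
    ((hg.comp (continuous_add_const a)).continuousOn.integrableOn_compact
      (isCompact_closedBall 0 1)).mono_set hsub
  have hint' : ∀ a : ι → ℝ, IntegrableOn g (rpois1Box a) := fun a => by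
    have := hint a
    rw [← hpre a] at this
    exact ((measurePreserving_add_right volume a).integrableOn_comp_preimage
      (measurableEmbedding_addRight a)).1 this
  have hsum : Summable fun m : ι → ℤ => ∫ x in rpois1Box 0, ‖g (x + fun i => (m i : ℝ))‖ := by
    refine Summable.of_norm_bounded (((summable_gauss_int hδ 1).mul_left C).mul_right
      (volume.real (rpois1Box (0 : ι → ℝ)))) fun m => ?_
    refine norm_setIntegral_le_of_norm_le_const hfin fun x hx => ?_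
    rw [norm_norm]
    exact rpois1_bound hδ hb (mem_closedBall_zero_iff.1 (hsub hx)) _
  have h1 := hasSum_integral_of_summable_integral_norm (μ := volume.restrict (rpois1Box 0))
    (F := fun (m : ι → ℤ) x => g (x + fun i => (m i : ℝ))) (fun m => hint _) hsum
  have hun : ⋃ m : ι → ℤ, rpois1Box (fun i => (m i : ℝ)) = Set.univ := by
    refine Set.eq_univ_of_forall fun x => Set.mem_iUnion.2 ⟨fun i => ⌈x i⌉ - 1, fun i => ?_⟩
    push_cast
    exact ⟨by linarith [Int.ceil_lt_add_one (x i)], by linarith [Int.le_ceil (x i)]⟩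
  have hdis : Pairwise (Function.onFun Disjoint
      fun m : ι → ℤ => rpois1Box fun i => (m i : ℝ)) := by
    intro m m' hne
    refine Set.disjoint_left.2 fun x hx hx' => hne (funext fun i => ?_)
    have e1 : (m i : ℝ) < m' i + 1 := (hx i).1.trans_le (hx' i).2
    have e2 : (m' i : ℝ) < m i + 1 := (hx' i).1.trans_le (hx i).2
    have e3 : m i < m' i + 1 := by exact_mod_cast e1
    have e4 : m' i < m i + 1 := by exact_mod_cast e2
    omega
  have hI : IntegrableOn g (⋃ m : ι → ℤ, rpois1Box fun i => (m i : ℝ)) := by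
    refine integrableOn_iUnion_of_summable_integral_norm (fun m => hint' _) ?_
    simpa only [htr fun x => ‖g x‖] using hsum
  have h2 := hasSum_integral_iUnion (fun m => hmeas _) hdis hI
  rw [hun, Measure.restrict_univ] at h2
  simp only [htr g] at h1
  exact h1.unique h2

lemma rpois1_char {ι : Type} [Fintype ι] (k : ι → ℤ) (x : ι → ℝ) :
    UnitAddTorus.mFourier (-k) (fun i => (x i : UnitAddCircle)) = ee (-∑ i, (k i : ℝ) * x i) := by
  simp only [UnitAddTorus.mFourier, ContinuousMap.coe_mk, fourier_coe_apply, ee,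
    ← Complex.exp_sum, Pi.neg_apply]
  congr 1
  push_cast
  rw [mul_neg, Finset.mul_sum, ← Finset.sum_neg_distrib]
  exact Finset.sum_congr rfl fun i _ => by ring

theorem poisson_int {ι : Type} [Fintype ι] {f : (ι → ℝ) → ℂ} (hf : Continuous f) {C δ : ℝ}
    (hδ : 0 < δ) (hb : ∀ x, ‖f x‖ ≤ C * Real.exp (-(δ * ‖x‖ ^ 2)))
    (hs : Summable fun k : ι → ℤ => ∫ x : ι → ℝ, f x * ee (-∑ i, (k i : ℝ) * x i)) :
    ∑' m : ι → ℤ, f (fun i => (m i : ℝ)) =
      ∑' k : ι → ℤ, ∫ x : ι → ℝ, f x * ee (-∑ i, (k i : ℝ) * x i) := by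
  set F : (ι → ℝ) → ℂ := fun x => ∑' m : ι → ℤ, f (x + fun i => (m i : ℝ)) with hF
  have hFc : Continuous F := by
    refine continuous_iff_continuousAt.2 fun x => ?_
    have : ContinuousOn F (Metric.closedBall 0 (‖x‖ + 1)) :=
      continuousOn_tsum (fun m => (hf.comp (continuous_add_const _)).continuousOn)
        ((summable_gauss_int hδ (‖x‖ + 1)).mul_left C)
        fun m y hy => rpois1_bound hδ hb (mem_closedBall_zero_iff.1 hy) _
    exact this.continuousAt (Metric.closedBall_mem_nhds_of_mem (by simp))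
  have hper : ∀ (x : ι → ℝ) (n : ι → ℤ), F (x + fun i => (n i : ℝ)) = F x := by
    intro x n
    rw [hF]
    refine Eq.trans (tsum_congr fun m => ?_)
      ((Equiv.addLeft n).tsum_eq fun m : ι → ℤ => f (x + fun i => (m i : ℝ)))
    congr 1
    ext i
    simp [add_assoc]
  let G : UnitAddTorus ι → ℂ := fun t => F fun i => (AddCircle.equivIoc 1 0 (t i)).1
  have hG : ∀ x : ι → ℝ, G (fun i => (x i : UnitAddCircle)) = F x := by
    intro x
    have h1 : ∀ i, ∃ n : ℤ, (AddCircle.equivIoc 1 0 (x i : UnitAddCircle)).1 = x i + n := by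
      intro i
      have h2 : (((AddCircle.equivIoc 1 0 (x i : UnitAddCircle)).1 : ℝ) : UnitAddCircle) = x i :=
        (AddCircle.equivIoc 1 0).symm_apply_apply _
      obtain ⟨n, hn⟩ := QuotientAddGroup.eq.1 h2.symm
      exact ⟨n, by simp only [zsmul_eq_mul, mul_one] at hn; linarith⟩
    choose n hn using h1
    rw [← hper x n]
    exact congrArg F (funext hn)
  have hq : IsOpenQuotientMap (Pi.map fun (_ : ι) (x : ℝ) => (x : UnitAddCircle)) :=
    IsOpenQuotientMap.piMap fun _ => QuotientAddGroup.isOpenQuotientMap_mk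
  have hGc : Continuous G := hq.isQuotientMap.continuous_iff.2 (hFc.congr fun x => (hG x).symm)
  have hcoef : ∀ k : ι → ℤ, UnitAddTorus.mFourierCoeff (⟨G, hGc⟩ : C(UnitAddTorus ι, ℂ)) k =
      ∫ x : ι → ℝ, f x * ee (-∑ i, (k i : ℝ) * x i) := by
    intro k
    rw [UnitAddTorus.mFourierCoeff_eq_integral _ k 0, ← rpois1_unfold (C := C)
      (g := fun x => f x * ee (-∑ i, (k i : ℝ) * x i))
      (hf.mul (continuous_ee.comp (by fun_prop))) hδ fun x => by
        rw [norm_mul, norm_ee, mul_one]; exact hb x]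
    refine integral_congr_ae (Filter.Eventually.of_forall fun x => ?_)
    simp only [ContinuousMap.coe_mk, hG, rpois1_char, smul_eq_mul, hF]
    rw [mul_comm, ← tsum_mul_right]
    refine tsum_congr fun m => ?_
    have e : (-∑ i, (k i : ℝ) * (x + fun i => (m i : ℝ)) i) =
        -∑ i, (k i : ℝ) * x i + ((-∑ i, k i * m i : ℤ) : ℝ) := by
      push_cast
      simp only [Pi.add_apply, mul_add, Finset.sum_add_distrib]
      ring
    rw [e, ee_add, ee_int, mul_one]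
  have h := UnitAddTorus.hasSum_mFourier_series_apply_of_summable
    (f := (⟨G, hGc⟩ : C(UnitAddTorus ι, ℂ))) (by rw [funext hcoef]; exact hs)
    fun i => (((0 : ι → ℝ) i : ℝ) : UnitAddCircle)
  simp only [hcoef] at h
  simp only [ContinuousMap.coe_mk, hG] at h
  have h0 : ∀ k : ι → ℤ,
      UnitAddTorus.mFourier k (fun i => (((0 : ι → ℝ) i : ℝ) : UnitAddCircle)) = 1 := by
    intro k
    simp [UnitAddTorus.mFourier]
  simp only [h0, smul_eq_mul, mul_one] at h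
  rw [h.tsum_eq, hF]
  simp

end Pool.Agent.Work.MP_c8d35c_al
end

-- merged part: Pool.Agent.Work.MP_c8d35c_al.RPois2
section
/-! Poisson summation for complex Gaussians on a lattice. -/

namespace Pool.Agent.Work.MP_c8d35c_al

open MeasureTheory Complex

variable {W : Type} [AddCommGroup W] [Module ℚ W] {β : LinearMap.BilinForm ℚ W}
  {ι : Type} [Fintype ι] {ε : ι → ℝ} {Φ : W →+ ι → ℝ}

lemma rpois2_cov [DecidableEq ι] {G : Matrix ι ι ℝ} (hG : G.det ≠ 0) {g : (ι → ℝ) → ℂ}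
    (hg : Continuous g) (p : ι → ℝ) :
    ∫ u, g (p + G.mulVec u) = ((|G.det| : ℝ) : ℂ)⁻¹ * ∫ v, g v := by
  have hc : Continuous (Matrix.toLin' G) := LinearMap.continuous_of_finiteDimensional _
  have hg' : Continuous fun v : ι → ℝ => g (p + v) := hg.comp (continuous_const.add continuous_id)
  have h1 : ∫ u, g (p + G.mulVec u) = ∫ v, g (p + v) ∂(Measure.map (Matrix.toLin' G) volume) := by
    rw [integral_map hc.measurable.aemeasurable hg'.aestronglyMeasurable]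
    simp only [Matrix.toLin'_apply]
  rw [h1, Real.map_matrix_volume_pi_eq_smul_volume_pi hG, integral_smul_measure,
    integral_add_left_eq_self g p, ENNReal.toReal_ofReal (abs_nonneg _), abs_inv,
    Complex.real_smul, Complex.ofReal_inv]

lemma rpois2_lower [DecidableEq ι] {G : Matrix ι ι ℝ} (hG : G.det ≠ 0) :
    ∃ K : ℝ, 0 < K ∧ ∀ u : ι → ℝ, ‖u‖ ≤ K * ‖G.mulVec u‖ := by
  obtain ⟨K, hK, h⟩ := (LinearMap.toContinuousLinearMap (Matrix.toLin' G⁻¹)).bound
  refine ⟨K, hK, fun u => ?_⟩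
  have := h (G.mulVec u)
  simp only [LinearMap.coe_toContinuousLinearMap', Matrix.toLin'_apply, Matrix.mulVec_mulVec] at this
  rwa [Matrix.nonsing_inv_mul G (isUnit_iff_ne_zero.2 hG), Matrix.one_mulVec] at this

lemma rpois2_sq {a : ι → ℝ} (ha : ∀ i, 0 < a i) :
    ∃ α : ℝ, 0 < α ∧ ∀ v : ι → ℝ, α * ‖v‖ ^ 2 ≤ ∑ i, a i * v i ^ 2 := by
  rcases isEmpty_or_nonempty ι with hι | hι
  · refine ⟨1, one_pos, fun v => ?_⟩
    have : v = 0 := Subsingleton.elim _ _
    simp [this]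
  · obtain ⟨i0, hi0⟩ := Finite.exists_min a
    refine ⟨a i0, ha i0, fun v => ?_⟩
    obtain ⟨j, hj⟩ := Finite.exists_max fun i => ‖v i‖
    have h1 : ‖v‖ ≤ ‖v j‖ := (pi_norm_le_iff_of_nonneg (norm_nonneg _)).2 hj
    have h2 : ‖v‖ ^ 2 ≤ v j ^ 2 := by
      rw [← sq_abs (v j), ← Real.norm_eq_abs]
      exact pow_le_pow_left₀ (norm_nonneg _) h1 2
    calc a i0 * ‖v‖ ^ 2 ≤ a j * v j ^ 2 :=
          mul_le_mul (hi0 j) h2 (by positivity) (ha j).le
      _ ≤ ∑ i, a i * v i ^ 2 :=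
          Finset.single_le_sum (f := fun i => a i * v i ^ 2)
            (fun i _ => mul_nonneg (ha i).le (sq_nonneg _)) (Finset.mem_univ j)

lemma rpois2_bound [DecidableEq ι] {G : Matrix ι ι ℝ} (hG : G.det ≠ 0) {a : ι → ℝ}
    (ha : ∀ i, 0 < a i) (p : ι → ℝ) :
    ∃ C δ : ℝ, 0 < δ ∧ ∀ u : ι → ℝ,
      Real.exp (-(Real.pi * ∑ i, a i * (p + G.mulVec u) i ^ 2)) ≤
        C * Real.exp (-(δ * ‖u‖ ^ 2)) := by
  obtain ⟨K, hK, h1⟩ := rpois2_lower hG
  obtain ⟨α, hα, h2⟩ := rpois2_sq ha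
  have hπ := Real.pi_pos
  refine ⟨Real.exp (Real.pi * α * ‖p‖ ^ 2), Real.pi * α / (2 * K ^ 2), by positivity, fun u => ?_⟩
  rw [← Real.exp_add, Real.exp_le_exp]
  set v := p + G.mulVec u with hv
  have h3 : ‖G.mulVec u‖ ≤ ‖v‖ + ‖p‖ := by
    have : G.mulVec u = v - p := by rw [hv]; abel
    rw [this]; exact norm_sub_le _ _
  have h4 : ‖u‖ ≤ K * (‖v‖ + ‖p‖) := (h1 u).trans (mul_le_mul_of_nonneg_left h3 hK.le)
  have h5 : ‖u‖ ^ 2 ≤ 2 * K ^ 2 * (‖v‖ ^ 2 + ‖p‖ ^ 2) := by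
    have h6 : ‖u‖ ^ 2 ≤ (K * (‖v‖ + ‖p‖)) ^ 2 := pow_le_pow_left₀ (norm_nonneg _) h4 2
    have h7 : (‖v‖ + ‖p‖) ^ 2 ≤ 2 * (‖v‖ ^ 2 + ‖p‖ ^ 2) := by nlinarith [sq_nonneg (‖v‖ - ‖p‖)]
    calc ‖u‖ ^ 2 ≤ K ^ 2 * (‖v‖ + ‖p‖) ^ 2 := by rw [← mul_pow]; exact h6
      _ ≤ K ^ 2 * (2 * (‖v‖ ^ 2 + ‖p‖ ^ 2)) := mul_le_mul_of_nonneg_left h7 (sq_nonneg _)
      _ = _ := by ring
  have h8 : Real.pi * α / (2 * K ^ 2) * ‖u‖ ^ 2 ≤ Real.pi * α * (‖v‖ ^ 2 + ‖p‖ ^ 2) := by
    calc Real.pi * α / (2 * K ^ 2) * ‖u‖ ^ 2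
        ≤ Real.pi * α / (2 * K ^ 2) * (2 * K ^ 2 * (‖v‖ ^ 2 + ‖p‖ ^ 2)) :=
          mul_le_mul_of_nonneg_left h5 (by positivity)
      _ = _ := by field_simp
  have h9 := mul_le_mul_of_nonneg_left (h2 v) hπ.le
  nlinarith

omit [Module ℚ W] in
lemma rpois2_phi (b : ι → W) (m : ι → ℤ) :
    Φ (∑ i, m i • b i) = (Matrix.of fun i j => Φ (b j) i).mulVec fun i => (m i : ℝ) := by
  ext i
  simp only [map_sum, map_zsmul, Finset.sum_apply, zsmul_eq_mul, Matrix.mulVec,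
    dotProduct, Matrix.of_apply]
  exact Finset.sum_congr rfl fun j _ => mul_comm _ _

theorem summable_gauss (hβ : β.Nondegenerate) (h : RealFrame β ε Φ) {X : AddSubgroup W}
    (hX : Full X) {a : ι → ℝ} (ha : ∀ i, 0 < a i) (r : W) :
    Summable fun x : X => Real.exp (-(Real.pi * ∑ i, a i * Φ (r + x) i ^ 2)) := by
  classical
  have hcov := cov_pos hβ hX
  obtain ⟨b, rfl⟩ := hX.exists_basis ι h.card
  obtain ⟨e, he⟩ := exists_equiv_basis b
  have hG : (Matrix.of fun i j => Φ (b j) i).det ≠ 0 := by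
    rw [← abs_pos, h.abs_det b]; exact hcov
  obtain ⟨C, δ, hδ, hb⟩ := rpois2_bound hG ha (Φ r)
  rw [← e.toEquiv.summable_iff]
  refine Summable.of_nonneg_of_le (fun m => (Real.exp_pos _).le) (fun m => ?_)
    ((summable_gauss_int hδ 0).mul_left C)
  have := hb fun i => (m i : ℝ)
  rw [sub_zero, max_eq_left (norm_nonneg _)]
  simpa only [Function.comp_apply, AddEquiv.toEquiv_eq_coe, EquivLike.coe_coe, he, map_add,
    rpois2_phi] using this

theorem norm_cexp_gauss (c : ι → ℂ) (u : ι → ℝ) :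
    ‖cexp (-(Real.pi * ∑ i, c i * (u i : ℂ) ^ 2))‖ =
      Real.exp (-(Real.pi * ∑ i, (c i).re * u i ^ 2)) := by
  rw [Complex.norm_exp]
  congr 1
  rw [Complex.neg_re, Complex.re_ofReal_mul, Complex.re_sum]
  congr 2
  refine Finset.sum_congr rfl fun i _ => ?_
  rw [← Complex.ofReal_pow, Complex.re_mul_ofReal]

lemma rpois2_gauss {c : ι → ℂ} (hc : ∀ i, 0 < (c i).re) (hε : ∀ i, ε i = 1 ∨ ε i = -1)
    (y : ι → ℝ) :
    ∫ v : ι → ℝ, cexp (-(Real.pi * ∑ i, c i * (v i : ℂ) ^ 2)) * ee (-∑ i, ε i * (v i * y i)) =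
      (∏ i, (1 / c i) ^ (1 / 2 : ℂ)) * cexp (-(Real.pi * ∑ i, (c i)⁻¹ * (y i : ℂ) ^ 2)) := by
  have hπ : (Real.pi : ℂ) ≠ 0 := Complex.ofReal_ne_zero.2 Real.pi_ne_zero
  have hb : ∀ i, 0 < ((Real.pi : ℂ) * c i).re := fun i => by
    rw [Complex.re_ofReal_mul]; exact mul_pos Real.pi_pos (hc i)
  have key := GaussianFourier.integral_cexp_neg_sum_mul_add hb
    (fun i => -(2 * Real.pi * I * ε i * y i))
  have h1 : ∀ v : ι → ℝ,
      cexp (-(Real.pi * ∑ i, c i * (v i : ℂ) ^ 2)) * ee (-∑ i, ε i * (v i * y i)) =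
        cexp (-∑ i, (Real.pi : ℂ) * c i * (v i : ℂ) ^ 2 +
          ∑ i, -(2 * Real.pi * I * ε i * y i) * v i) := fun v => by
    rw [ee, ← Complex.exp_add]
    congr 1
    push_cast
    rw [Finset.mul_sum, mul_neg, Finset.mul_sum]
    congr 1
    · congr 1
      exact Finset.sum_congr rfl fun i _ => by ring
    · rw [← Finset.sum_neg_distrib]
      exact Finset.sum_congr rfl fun i _ => by ring
  simp_rw [h1]
  rw [key, Finset.prod_mul_distrib, ← Complex.exp_sum]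
  congr 1
  · refine Finset.prod_congr rfl fun i _ => ?_
    congr 1
    have : c i ≠ 0 := fun h0 => by simpa [h0] using hc i
    field_simp
  · congr 1
    rw [Finset.mul_sum, ← Finset.sum_neg_distrib]
    refine Finset.sum_congr rfl fun i _ => ?_
    have : c i ≠ 0 := fun h0 => by simpa [h0] using hc i
    have hε2 : (ε i : ℂ) ^ 2 = 1 := by rcases hε i with h | h <;> simp [h]
    field_simp
    rw [I_sq, hε2]
    ring

lemma rpois2_pair [DecidableEq ι] (h : RealFrame β ε Φ) {b b' : ι → W}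
    (hbb : ∀ i j, β (b i) (b' j) = if i = j then 1 else 0) (k : ι → ℤ) (u : ι → ℝ) :
    ∑ i, ε i * ((Matrix.of fun i j => Φ (b j) i).mulVec u i * Φ (∑ l, k l • b' l) i) =
      ∑ j, (k j : ℝ) * u j := by
  have h1 : ∀ j, (β (b j) (∑ l, k l • b' l) : ℝ) = k j := fun j => by
    simp [map_sum, hbb]
  simp only [← h1, ← h.form, Matrix.mulVec, dotProduct, Matrix.of_apply, Finset.sum_mul,
    Finset.mul_sum]
  rw [Finset.sum_comm]
  exact Finset.sum_congr rfl fun j _ => Finset.sum_congr rfl fun i _ => by ring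

theorem poisson_lattice (hβ : β.Nondegenerate) (hs : β.IsSymm) (h : RealFrame β ε Φ)
    {X : AddSubgroup W} (hX : Full X) {c : ι → ℂ} (hc : ∀ i, 0 < (c i).re) (r : W) :
    ∑' x : X, cexp (-(Real.pi * ∑ i, c i * (Φ (r + x) i : ℂ) ^ 2)) =
      (∏ i, (1 / c i) ^ (1 / 2 : ℂ)) / (cov β X : ℂ) *
        ∑' ξ : dualA β X, cexp (-(Real.pi * ∑ i, (c i)⁻¹ * (Φ ξ i : ℂ) ^ 2)) *
          ee (β r ξ : ℝ) := by
  classical
  have hcov := cov_pos hβ hX
  have hci : ∀ i, 0 < ((c i)⁻¹).re := fun i => by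
    have : c i ≠ 0 := fun h0 => by simpa [h0] using hc i
    rw [Complex.inv_re]; exact div_pos (hc i) (Complex.normSq_pos.2 this)
  have hsum := summable_gauss hβ h (hX.dual hβ) hci 0
  obtain ⟨b, rfl⟩ := hX.exists_basis ι h.card
  obtain ⟨e, he⟩ := exists_equiv_basis b
  obtain ⟨b', hb', hbb⟩ := dualA_basis hβ hs b
  obtain ⟨e', he'⟩ := exists_equiv_basis b'
  rw [hb'] at hsum ⊢
  have hdet := h.abs_det b
  set G : Matrix ι ι ℝ := Matrix.of fun i j => Φ (b j) i with hGdef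
  have hG : G.det ≠ 0 := by
    rw [← abs_pos, hdet]; exact hcov
  obtain ⟨C, δ, hδ, hb⟩ := rpois2_bound hG hc (Φ r)
  set f : (ι → ℝ) → ℂ := fun u =>
    cexp (-(Real.pi * ∑ i, c i * ((Φ r + G.mulVec u) i : ℂ) ^ 2)) with hf
  have hmv : Continuous fun u : ι → ℝ => G.mulVec u := continuous_const.matrix_mulVec continuous_id
  have hfc : Continuous f := by
    simp only [hf, Pi.add_apply]
    fun_prop
  have hfb : ∀ u, ‖f u‖ ≤ C * Real.exp (-(δ * ‖u‖ ^ 2)) := fun u => by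
    rw [hf]; simp only []; rw [norm_cexp_gauss]; exact hb u
  have hint : ∀ k : ι → ℤ, ∫ u : ι → ℝ, f u * ee (-∑ i, (k i : ℝ) * u i) =
      (∏ i, (1 / c i) ^ (1 / 2 : ℂ)) / (cov β (AddSubgroup.closure (Set.range b)) : ℂ) *
        (cexp (-(Real.pi * ∑ i, (c i)⁻¹ * (Φ (e' k : W) i : ℂ) ^ 2)) *
          ee (β r (e' k : W) : ℝ)) := fun k => by
    set y := Φ (e' k : W) with hy
    set g : (ι → ℝ) → ℂ := fun v => cexp (-(Real.pi * ∑ i, c i * (v i : ℂ) ^ 2)) *
      ee (-∑ i, ε i * (v i * y i)) * ee (β r (e' k : W) : ℝ) with hg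
    have hgc : Continuous g := by
      have := continuous_ee
      simp only [hg]
      fun_prop
    have h1 : ∀ u : ι → ℝ, f u * ee (-∑ i, (k i : ℝ) * u i) = g (Φ r + G.mulVec u) := fun u => by
      simp only [hf, hg]
      rw [mul_assoc, ← ee_add]
      congr 2
      rw [← rpois2_pair h hbb k u, ← h.form, ← he', ← hy, ← hGdef]
      simp only [Pi.add_apply, add_mul, mul_add, Finset.sum_add_distrib]
      ring
    simp_rw [h1]
    rw [rpois2_cov hG hgc, hg]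
    simp only []
    rw [integral_mul_const, rpois2_gauss hc h.sign, hdet]
    ring
  have hsum2 : Summable fun ξ : AddSubgroup.closure (Set.range b') =>
      cexp (-(Real.pi * ∑ i, (c i)⁻¹ * (Φ (ξ : W) i : ℂ) ^ 2)) * ee (β r (ξ : W) : ℝ) := by
    refine Summable.of_norm ?_
    simpa only [norm_mul, norm_ee, mul_one, norm_cexp_gauss, zero_add] using hsum
  have hs' : Summable fun k : ι → ℤ => ∫ u : ι → ℝ, f u * ee (-∑ i, (k i : ℝ) * u i) := by
    simp_rw [hint]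
    exact ((e'.toEquiv.summable_iff).2 hsum2).mul_left _
  have key := poisson_int hfc hδ hfb hs'
  simp_rw [hint] at key
  rw [tsum_mul_left] at key
  rw [← e.toEquiv.tsum_eq, ← e'.toEquiv.tsum_eq]
  simp only [AddEquiv.toEquiv_eq_coe, EquivLike.coe_coe]
  rw [← key]
  refine tsum_congr fun m => ?_
  simp only [hf, he, map_add, rpois2_phi, hGdef]

end Pool.Agent.Work.MP_c8d35c_al
end

-- merged part: Pool.Agent.Work.MP_c8d35c_al.RGauss
section
/-! Averages over cosets and the bound for quadratic Gauss sums. -/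

namespace Pool.Agent.Work.MP_c8d35c_al

variable {W : Type} [AddCommGroup W]

/-- The average of `f` over representatives of the cosets of `A'` in `A`. -/
noncomputable def avg (A A' : AddSubgroup W) (f : W → ℂ) : ℂ :=
  (∑ᶠ q : A ⧸ A'.addSubgroupOf A, f (q.out : A)) / (A'.relIndex A : ℂ)

theorem RGauss_fin {A A' : AddSubgroup W} (hi : A'.relIndex A ≠ 0) :
    Finite (A ⧸ A'.addSubgroupOf A) := by
  have : (A'.addSubgroupOf A).FiniteIndex := ⟨hi⟩
  infer_instance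

theorem RGauss_bij {A A' : AddSubgroup W} (h : A' ≤ A) : Function.Bijective
    fun p : (A ⧸ A'.addSubgroupOf A) × A' => (p.1.out + ⟨p.2, h p.2.2⟩ : A) := by
  have key : ∀ (q : A ⧸ A'.addSubgroupOf A) (a : A'),
      (QuotientAddGroup.mk (q.out + ⟨a, h a.2⟩) : A ⧸ A'.addSubgroupOf A) = q := by
    intro q a
    rw [QuotientAddGroup.mk_add_of_mem _ (show (⟨a, h a.2⟩ : A) ∈ A'.addSubgroupOf A from a.2),
      QuotientAddGroup.out_eq']
  constructor
  · rintro ⟨q, a⟩ ⟨q', a'⟩ e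
    have e' : (q.out + ⟨a, h a.2⟩ : A) = q'.out + ⟨a', h a'.2⟩ := e
    have hq : q = q' := by rw [← key q a, e', key]
    subst hq
    have := congrArg Subtype.val (add_left_cancel e')
    exact Prod.ext rfl (Subtype.ext this)
  · intro x
    have hx : -(QuotientAddGroup.mk x : A ⧸ A'.addSubgroupOf A).out + x ∈ A'.addSubgroupOf A := by
      rw [← QuotientAddGroup.eq, QuotientAddGroup.out_eq']
    refine ⟨(QuotientAddGroup.mk x, ⟨_, hx⟩), Subtype.ext ?_⟩
    simp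

theorem tsum_cosets {A A' : AddSubgroup W} (h : A' ≤ A) (hi : A'.relIndex A ≠ 0) {F : W → ℂ}
    (hF : Summable fun x : A => F x) :
    ∑' x : A, F x = ∑ᶠ q : A ⧸ A'.addSubgroupOf A, ∑' a : A', F ((q.out : A) + a) := by
  have := RGauss_fin hi
  let := Fintype.ofFinite (A ⧸ A'.addSubgroupOf A)
  let e := Equiv.ofBijective _ (RGauss_bij h)
  have hs : Summable fun p => F (e p) := (e.summable_iff (f := fun x : A => F x)).2 hF
  rw [← e.tsum_eq (fun x : A => F x), hs.tsum_prod, tsum_fintype, finsum_eq_sum_of_fintype]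
  rfl

theorem RGauss_int {t : ℝ} (h : ee t = 1) : ∃ z : ℤ, t = z := by
  obtain ⟨z, hz⟩ := Complex.exp_eq_one_iff.1 h
  refine ⟨z, ?_⟩
  have h2 : (2 * Real.pi * Complex.I : ℂ) ≠ 0 := by simp [Real.pi_ne_zero]
  have : (t : ℂ) = z := mul_left_cancel₀ h2 (by rw [hz]; ring)
  exact_mod_cast this

theorem RGauss_ne (t : ℝ) : ee t ≠ 0 := Complex.exp_ne_zero _

theorem RGauss_core {Q : Type} [AddCommGroup Q] [Fintype Q] (F : Q → ℂ) (B : Q → Q → ℂ)
    (K : AddSubgroup Q) (hF : ∀ q, ‖F q‖ = 1) (hB : ∀ q p, ‖B q p‖ = 1)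
    (h1 : ∀ q p, F (q + p) = F q * F p * B q p) (h2 : ∀ q q' p, B (q + q') p = B q p * B q' p)
    (hK : ∀ p, (∀ q, B q p = 1) → p ∈ K) :
    ‖∑ q, F q‖ ^ 2 ≤ Nat.card K * Fintype.card Q := by
  classical
  have hc : ∀ q, F q * (starRingEnd ℂ) (F q) = 1 := fun q => by
    rw [Complex.mul_conj, Complex.normSq_eq_norm_sq, hF]; simp
  have e1 : (∑ q, F q) * (starRingEnd ℂ) (∑ q, F q) = ∑ p, F p * ∑ q, B q p := by
    rw [map_sum, Finset.mul_sum]
    simp_rw [Finset.mul_sum]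
    rw [Finset.sum_comm]
    refine Finset.sum_congr rfl fun q _ => ?_
    rw [← Equiv.sum_comp (Equiv.addLeft q) F, Finset.sum_mul]
    refine Finset.sum_congr rfl fun p _ => ?_
    rw [Equiv.coe_addLeft, h1]
    linear_combination (F p * B q p) * hc q
  have e2 : ∀ p, ‖F p * ∑ q, B q p‖ ≤ if p ∈ K then (Fintype.card Q : ℝ) else 0 := by
    intro p
    rw [norm_mul, hF, one_mul]
    split_ifs with hp
    · refine (norm_sum_le _ _).trans ?_
      simp [hB]
    · by_contra k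
      have hS : ∑ q, B q p ≠ 0 := fun e => k (by rw [e]; simp)
      refine hp (hK p fun q' => mul_left_cancel₀ hS ?_)
      rw [mul_one, Finset.sum_mul]
      conv_rhs => rw [← Equiv.sum_comp (Equiv.addRight q') fun q => B q p]
      exact Finset.sum_congr rfl fun q _ => (h2 q q' p).symm
  have e3 : ‖∑ q, F q‖ ^ 2 = ‖∑ p, F p * ∑ q, B q p‖ := by
    rw [← e1, norm_mul, Complex.norm_conj, sq]
  rw [e3]
  refine (norm_sum_le _ _).trans ((Finset.sum_le_sum fun p _ => e2 p).trans (le_of_eq ?_))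
  rw [Finset.sum_ite, Finset.sum_const_zero, add_zero, Finset.sum_const, nsmul_eq_mul,
    Nat.card_eq_fintype_card, Fintype.card_subtype]

theorem gauss_bound {A A' R : AddSubgroup W} (h : A' ≤ A) (hi : A'.relIndex A ≠ 0) {φ : W → ℝ}
    {b : W → W → ℝ} (hb : ∀ x ∈ A, ∀ y ∈ A, φ (x + y) = φ x + φ y + b x y)
    (hadd : ∀ x ∈ A, ∀ x' ∈ A, ∀ y ∈ A, b (x + x') y = b x y + b x' y)
    (hper : ∀ x ∈ A, ∀ a ∈ A', ∃ z : ℤ, φ (x + a) = φ x + z)
    (hR : ∀ y ∈ A, (∀ x ∈ A, ∃ z : ℤ, b x y = z) → y ∈ R) :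
    ‖avg A A' fun x => ee (φ x)‖ ^ 2 * (R.relIndex A : ℝ) ≤ 1 := by
  have := RGauss_fin hi
  let := Fintype.ofFinite (A ⧸ A'.addSubgroupOf A)
  have h0 : φ 0 = 0 := by
    have k1 := hb 0 A.zero_mem 0 A.zero_mem
    have k2 := hadd 0 A.zero_mem 0 A.zero_mem 0 A.zero_mem
    rw [add_zero] at k1 k2
    linarith
  have hAR : A'.addSubgroupOf A ≤ R.addSubgroupOf A := by
    intro a ha
    refine hR a a.2 fun x hx => ?_
    obtain ⟨z, hz⟩ := hper x hx a ha
    obtain ⟨z', hz'⟩ := hper 0 A.zero_mem a ha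
    rw [zero_add, h0] at hz'
    have := hb x hx a a.2
    exact ⟨z - z', by push_cast; linarith⟩
  let F : (A ⧸ A'.addSubgroupOf A) → ℂ := fun q => ee (φ (q.out : A))
  have hF : ∀ x : A, F (QuotientAddGroup.mk x) = ee (φ x) := by
    intro x
    have hx : -(QuotientAddGroup.mk x : A ⧸ A'.addSubgroupOf A).out + x ∈ A'.addSubgroupOf A := by
      rw [← QuotientAddGroup.eq, QuotientAddGroup.out_eq']
    obtain ⟨z, hz⟩ := hper _ (QuotientAddGroup.mk x : A ⧸ A'.addSubgroupOf A).out.2 _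
      (AddSubgroup.mem_addSubgroupOf.1 hx)
    have e : (((QuotientAddGroup.mk x : A ⧸ A'.addSubgroupOf A).out : A) : W) +
        ((-(QuotientAddGroup.mk x : A ⧸ A'.addSubgroupOf A).out + x : A) : W) = x := by simp
    rw [e] at hz
    rw [hz, ee_add, ee_int, mul_one]
  have hF0 : ∀ q, F q ≠ 0 := fun q => RGauss_ne _
  let B : (A ⧸ A'.addSubgroupOf A) → (A ⧸ A'.addSubgroupOf A) → ℂ := fun q p =>
    F (q + p) / (F q * F p)
  have hB : ∀ x y : A, B (QuotientAddGroup.mk x) (QuotientAddGroup.mk y) = ee (b x y) := by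
    intro x y
    show F (QuotientAddGroup.mk (x + y)) / _ = _
    rw [hF, hF, hF, AddSubgroup.coe_add, hb x x.2 y y.2, ee_add, ee_add,
      mul_div_cancel_left₀ _ (mul_ne_zero (RGauss_ne _) (RGauss_ne _))]
  let K := (R.addSubgroupOf A).map (QuotientAddGroup.mk' (A'.addSubgroupOf A))
  have core := RGauss_core F B K (fun q => norm_ee _)
    (fun q p => by
      obtain ⟨x, rfl⟩ := QuotientAddGroup.mk_surjective q
      obtain ⟨y, rfl⟩ := QuotientAddGroup.mk_surjective p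
      rw [hB, norm_ee])
    (fun q p => (mul_div_cancel₀ _ (mul_ne_zero (hF0 q) (hF0 p))).symm)
    (fun q q' p => by
      obtain ⟨x, rfl⟩ := QuotientAddGroup.mk_surjective q
      obtain ⟨x', rfl⟩ := QuotientAddGroup.mk_surjective q'
      obtain ⟨y, rfl⟩ := QuotientAddGroup.mk_surjective p
      rw [← QuotientAddGroup.mk_add, hB, hB, hB, AddSubgroup.coe_add,
        hadd x x.2 x' x'.2 y y.2, ee_add])
    (fun p hp => by
      obtain ⟨y, rfl⟩ := QuotientAddGroup.mk_surjective p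
      refine ⟨y, hR y y.2 fun x hx => RGauss_int ?_, rfl⟩
      rw [← hp (QuotientAddGroup.mk ⟨x, hx⟩), hB])
  have hidx : K.index = R.relIndex A :=
    AddSubgroup.index_map_eq _ (QuotientAddGroup.mk'_surjective _)
      (by rw [QuotientAddGroup.ker_mk']; exact hAR)
  have hcard : Fintype.card (A ⧸ A'.addSubgroupOf A) = A'.relIndex A := by
    rw [← Nat.card_eq_fintype_card]; rfl
  have hK : (Nat.card K : ℝ) * R.relIndex A = A'.relIndex A := by
    rw [← hidx, ← hcard, ← Nat.card_eq_fintype_card, ← K.card_mul_index]; push_cast; rfl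
  have hpos : (0 : ℝ) < A'.relIndex A := by exact_mod_cast Nat.pos_of_ne_zero hi
  rw [hcard] at core
  have e : avg A A' (fun x => ee (φ x)) = (∑ q, F q) / (A'.relIndex A : ℂ) := by
    rw [avg, finsum_eq_sum_of_fintype]
  rw [e, norm_div, Complex.norm_natCast, div_pow, div_mul_eq_mul_div, div_le_one (by positivity)]
  calc _ ≤ (Nat.card K : ℝ) * A'.relIndex A * R.relIndex A :=
        mul_le_mul_of_nonneg_right core (Nat.cast_nonneg _)
    _ = _ := by rw [mul_right_comm, hK, sq]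

end Pool.Agent.Work.MP_c8d35c_al
end

-- merged part: Pool.Agent.Work.MP_c8d35c_al.QDef
section
/-! Even lattices over the integers: the bundled objects and the predicates. -/

namespace Pool.Agent.Work.MP_c8d35c_al

open Module

/-- An even lattice `X` in a rational space `W` with a nondegenerate symmetric form `β`. -/
structure QL where
  W : Type
  [ag : AddCommGroup W]
  [md : Module ℚ W]
  [fd : FiniteDimensional ℚ W]
  β : LinearMap.BilinForm ℚ W
  symm : ∀ x y, β x y = β y x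
  nd : ∀ x, (∀ y, β x y = 0) → x = 0
  X : AddSubgroup W
  full : Full X
  even : ∀ x ∈ X, ∃ z : ℤ, β x x = 2 * z

attribute [instance] QL.ag QL.md QL.fd

theorem Full.prod {W W' : Type} [AddCommGroup W] [Module ℚ W] [FiniteDimensional ℚ W]
    [AddCommGroup W'] [Module ℚ W'] [FiniteDimensional ℚ W'] {X : AddSubgroup W}
    {X' : AddSubgroup W'} (h : Full X) (h' : Full X') : Full (X.prod X') := by
  obtain ⟨b, rfl⟩ := h
  obtain ⟨b', rfl⟩ := h'
  convert full_of_basis (b.prod b') using 1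
  ext ⟨x, x'⟩
  rw [AddSubgroup.mem_prod, RLat_mem, RLat_mem, RLat_mem, Sum.forall]
  simp

/-- The multiple `c X` of a subgroup. -/
def sc {W : Type} [AddCommGroup W] [Module ℚ W] (c : ℚ) (X : AddSubgroup W) : AddSubgroup W :=
  X.map (LinearMap.lsmul ℚ W c).toAddMonoidHom

lemma mem_sc {W : Type} [AddCommGroup W] [Module ℚ W] {c : ℚ} {X : AddSubgroup W} {y : W} :
    y ∈ sc c X ↔ ∃ x ∈ X, c • x = y := by
  simp [sc]

theorem Full.sc {W : Type} [AddCommGroup W] [Module ℚ W] {X : AddSubgroup W} (h : Full X)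
    {c : ℚ} (hc : c ≠ 0) : Full (sc c X) :=
  h.map (LinearEquiv.smulOfNeZero ℚ W c hc)

/-- The integer points of `ι → ℚ`. -/
def zpts (ι : Type) : AddSubgroup (ι → ℚ) where
  carrier := {x | ∀ i, ∃ z : ℤ, x i = z}
  zero_mem' := fun _ => ⟨0, by simp⟩
  add_mem' := by
    intro a b ha hb i
    obtain ⟨z, hz⟩ := ha i
    obtain ⟨w, hw⟩ := hb i
    exact ⟨z + w, by simp [hz, hw]⟩
  neg_mem' := by
    intro a ha i
    obtain ⟨z, hz⟩ := ha i
    exact ⟨-z, by simp [hz]⟩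

lemma mem_zpts {ι : Type} {x : ι → ℚ} : x ∈ zpts ι ↔ ∀ i, ∃ z : ℤ, x i = z := Iff.rfl

theorem full_zpts (ι : Type) [Fintype ι] : Full (zpts ι) := by
  convert full_of_basis (Pi.basisFun ℚ ι) using 1
  ext x
  rw [RLat_mem]
  simp [mem_zpts]

namespace QL

variable (L : QL)

lemma isSymm : L.β.IsSymm := ⟨L.symm⟩

lemma nondeg : L.β.Nondegenerate :=
  ⟨L.nd, fun y h => L.nd y fun x => by rw [L.symm]; exact h x⟩

/-- The rank. -/
noncomputable def N : ℕ := finrank ℚ L.W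

/-- The dual lattice. -/
def D : AddSubgroup L.W := dualA L.β L.X

lemma mem_D {y : L.W} : y ∈ L.D ↔ ∀ x ∈ L.X, ∃ z : ℤ, L.β x y = z := Iff.rfl

lemma X_le_D : L.X ≤ L.D := by
  intro y hy x hx
  obtain ⟨a, ha⟩ := L.even x hx
  obtain ⟨b, hb⟩ := L.even y hy
  obtain ⟨c, hc⟩ := L.even _ (L.X.add_mem hx hy)
  refine ⟨c - a - b, ?_⟩
  simp only [map_add, LinearMap.add_apply, L.symm y x] at hc
  push_cast
  linarith

lemma full_D : Full L.D := L.full.dual L.nondeg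

lemma dual_D : dualA L.β L.D = L.X := dual_dual L.nondeg L.isSymm L.full

/-- A vector that pairs integrally with the dual lattice lies in the lattice. -/
lemma mem_X_of {y : L.W} (h : ∀ x ∈ L.D, ∃ z : ℤ, L.β x y = z) : y ∈ L.X := by
  rw [← L.dual_D]; exact h

/-- The preimage of the `c`-torsion of the discriminant group. -/
def tor (c : ℕ) : AddSubgroup L.W where
  carrier := {y | y ∈ L.D ∧ c • y ∈ L.X}
  zero_mem' := ⟨zero_mem _, by simp⟩
  add_mem' := fun ha hb => ⟨add_mem ha.1 hb.1, by rw [smul_add]; exact add_mem ha.2 hb.2⟩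
  neg_mem' := fun ha => ⟨neg_mem ha.1, by rw [smul_neg]; exact neg_mem ha.2⟩

lemma mem_tor {c : ℕ} {y : L.W} : y ∈ L.tor c ↔ y ∈ L.D ∧ c • y ∈ L.X := Iff.rfl

lemma X_le_tor (c : ℕ) : L.X ≤ L.tor c := fun _ h => ⟨L.X_le_D h, nsmul_mem h c⟩

lemma tor_le_D (c : ℕ) : L.tor c ≤ L.D := fun _ h => h.1

lemma full_tor (c : ℕ) : Full (L.tor c) :=
  L.full.of_le_of_le L.full_D (L.X_le_tor c) (L.tor_le_D c)

/-- The order of the `c`-torsion of the discriminant group; `a 0` is the determinant. -/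
noncomputable def a (c : ℕ) : ℕ := L.X.relIndex (L.tor c)

/-- Another lattice in the same space, the form being multiplied by `c`. -/
def re (c : ℚ) (hc : c ≠ 0) (X : AddSubgroup L.W) (hX : Full X)
    (he : ∀ x ∈ X, ∃ z : ℤ, c * L.β x x = 2 * z) : QL where
  W := L.W
  β := c • L.β
  symm x y := by simp [L.symm x y]
  nd x h := L.nd x fun y => by simpa [hc] using h y
  X := X
  full := hX
  even x hx := by simpa using he x hx

/-- The lattice with the opposite form. -/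
def neg : QL where
  W := L.W
  β := -L.β
  symm x y := by simp [L.symm x y]
  nd x h := L.nd x fun y => by simpa using h y
  X := L.X
  full := L.full
  even x hx := by
    obtain ⟨z, hz⟩ := L.even x hx
    exact ⟨-z, by simp [hz]⟩

/-- The orthogonal sum. -/
def prod (L L' : QL) : QL where
  W := L.W × L'.W
  β := L.β.compl₁₂ (LinearMap.fst ℚ _ _) (LinearMap.fst ℚ _ _) +
    L'.β.compl₁₂ (LinearMap.snd ℚ _ _) (LinearMap.snd ℚ _ _)
  symm x y := by simp [L.symm x.1 y.1, L'.symm x.2 y.2]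
  nd x h := Prod.ext (L.nd x.1 fun y => by simpa using h (y, 0))
    (L'.nd x.2 fun y => by simpa using h (0, y))
  X := L.X.prod L'.X
  full := L.full.prod L'.full
  even x hx := by
    obtain ⟨z, hz⟩ := L.even x.1 hx.1
    obtain ⟨w, hw⟩ := L'.even x.2 hx.2
    refine ⟨z + w, ?_⟩
    simp only [LinearMap.add_apply, LinearMap.compl₁₂_apply, LinearMap.fst_apply,
      LinearMap.snd_apply, hz, hw]
    push_cast
    ring

lemma prod_β (L L' : QL) (x y : L.W × L'.W) :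
    (L.prod L').β x y = L.β x.1 y.1 + L'.β x.2 y.2 := rfl

lemma mem_prod_X {L L' : QL} {x : L.W × L'.W} :
    x ∈ (L.prod L').X ↔ x.1 ∈ L.X ∧ x.2 ∈ L'.X := Iff.rfl

lemma neg_β (x y : L.W) : L.neg.β x y = -L.β x y := rfl

lemma re_β (c : ℚ) (hc : c ≠ 0) (X : AddSubgroup L.W) (hX : Full X)
    (he : ∀ x ∈ X, ∃ z : ℤ, c * L.β x x = 2 * z) (x y : L.W) :
    (L.re c hc X hX he).β x y = c * L.β x y := rfl

/-- The lattice `ℤ^ι` with the Gram matrix `G`. -/
noncomputable def ofMat {ι : Type} [Fintype ι] [DecidableEq ι] (G : Matrix ι ι ℤ)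
    (hs : ∀ i j, G i j = G j i) (he : ∀ i, Even (G i i)) (hd : G.det ≠ 0) : QL where
  W := ι → ℚ
  β := Matrix.toBilin' (G.map (Int.cast : ℤ → ℚ))
  symm x y := by
    simp only [Matrix.toBilin'_apply, Matrix.map_apply]
    rw [Finset.sum_comm]
    exact Finset.sum_congr rfl fun i _ => Finset.sum_congr rfl fun j _ => by rw [hs j i]; ring
  nd := by
    have h : (G.map (Int.cast : ℤ → ℚ)).det ≠ 0 := by
      have := (Int.castRingHom ℚ).map_det G
      rw [RingHom.mapMatrix_apply, Int.coe_castRingHom] at this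
      rw [← this]
      simpa using hd
    exact (LinearMap.BilinForm.nondegenerate_toBilin'_iff_det_ne_zero.2 h).1
  X := zpts ι
  full := full_zpts ι
  even x hx := by
    choose z hz using hx
    have h : Even (∑ i, ∑ j, z i * G i j * z j) := by
      have e : ∑ i, ∑ j, z i * G i j * z j =
          ∑ p ∈ (Finset.univ : Finset ι).diag, z p.1 * G p.1 p.2 * z p.2 +
            ∑ p ∈ (Finset.univ : Finset ι).offDiag, z p.1 * G p.1 p.2 * z p.2 := by
        rw [← Finset.sum_union (Finset.disjoint_diag_offDiag _), Finset.diag_union_offDiag,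
          Finset.sum_product]
      rw [e]
      refine Even.add (Finset.even_sum _ fun p hp => ?_) ?_
      · rw [← (Finset.mem_diag.1 hp).2]
        exact ((he _).mul_left _).mul_right _
      · rw [← ZMod.intCast_eq_zero_iff_even, Int.cast_sum]
        refine Finset.sum_involution (fun p _ => p.swap) (fun p _ => ?_) (fun p hp _ h => ?_)
          (fun p hp => ?_) fun p _ => rfl
        · rw [← Int.cast_add, ZMod.intCast_eq_zero_iff_even]
          exact ⟨z p.1 * G p.1 p.2 * z p.2, by simp only [Prod.fst_swap, Prod.snd_swap, hs p.2 p.1]; ring⟩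
        · exact (Finset.mem_offDiag.1 hp).2.2 (congrArg Prod.snd h)
        · simpa [eq_comm] using hp
    obtain ⟨w, hw⟩ := h
    refine ⟨w, ?_⟩
    have := congrArg (Int.cast : ℤ → ℚ) hw
    push_cast at this
    simp only [Matrix.toBilin'_apply, Matrix.map_apply, hz]
    linarith

lemma ofMat_β {ι : Type} [Fintype ι] [DecidableEq ι] (G : Matrix ι ι ℤ)
    (hs : ∀ i j, G i j = G j i) (he : ∀ i, Even (G i i)) (hd : G.det ≠ 0) (x y : ι → ℚ) :
    (ofMat G hs he hd).β x y = ∑ i, ∑ j, x i * G i j * y j :=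
  Matrix.toBilin'_apply _ x y

/-- The rational integers. -/
def zq : AddSubgroup ℚ := (Int.castAddHom ℚ).range

lemma mem_zq {x : ℚ} : x ∈ zq ↔ ∃ z : ℤ, x = z :=
  ⟨fun ⟨z, hz⟩ => ⟨z, hz.symm⟩, fun ⟨z, hz⟩ => ⟨z, hz.symm⟩⟩

lemma full_zq : Full zq := by
  convert full_of_basis (Basis.singleton Unit ℚ) using 1
  ext x
  rw [RLat_mem]
  simp [mem_zq]

/-- The hyperbolic plane. -/
def U : QL where
  W := ℚ × ℚ
  β := (LinearMap.mul ℚ ℚ).compl₁₂ (LinearMap.fst ℚ _ _) (LinearMap.snd ℚ _ _) +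
    (LinearMap.mul ℚ ℚ).compl₁₂ (LinearMap.snd ℚ _ _) (LinearMap.fst ℚ _ _)
  symm x y := by simp; ring
  nd x h := Prod.ext (by simpa using h (0, 1)) (by simpa using h (1, 0))
  X := zq.prod zq
  full := full_zq.prod full_zq
  even x hx := by
    obtain ⟨z, hz⟩ := mem_zq.1 hx.1
    obtain ⟨w, hw⟩ := mem_zq.1 hx.2
    refine ⟨z * w, ?_⟩
    simp [hz, hw]
    ring

lemma U_β (x y : ℚ × ℚ) : U.β x y = x.1 * y.2 + x.2 * y.1 := rfl

lemma mem_U_X {x : ℚ × ℚ} : x ∈ U.X ↔ (∃ z : ℤ, x.1 = z) ∧ ∃ z : ℤ, x.2 = z :=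
  and_congr mem_zq mem_zq

/-- The lattice of rank zero. -/
def zero : QL where
  W := Fin 0 → ℚ
  β := 0
  symm _ _ := rfl
  nd _ _ := Subsingleton.elim _ _
  X := zpts _
  full := full_zpts _
  even _ _ := ⟨0, by simp⟩

/-- The sum of `k` hyperbolic planes and `L`. -/
def addU : ℕ → QL → QL
  | 0, L => L
  | k + 1, L => U.prod (addU k L)

/-- Isometry of lattices. -/
def Iso (L L' : QL) : Prop :=
  ∃ e : L.W ≃ₗ[ℚ] L'.W, (∀ x y, L'.β (e x) (e y) = L.β x y) ∧ ∀ x, e x ∈ L'.X ↔ x ∈ L.X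

/-- The signs `+1` (`r` times) and `-1` (`s` times). -/
def sgn (r s : ℕ) : Fin r ⊕ Fin s → ℝ := Sum.elim (fun _ => 1) fun _ => -1

/-- The form has `r` positive and `s` negative squares. -/
def Sig (r s : ℕ) : Prop :=
  ∃ Φ : L.W →+ Fin r ⊕ Fin s → ℝ, RealFrame L.β (sgn r s) Φ

/-- `y` is a root of type `t`. -/
def Rt (y : L.W) (t : ℕ) : Prop := y ∈ L.D ∧ t • y ∈ L.X ∧ (t : ℚ) * L.β y y = 2

/-- The roots do not span the space. -/
def Defic : Prop := ∃ u : L.W, u ≠ 0 ∧ ∀ y t, L.Rt y t → L.β y u = 0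

/-- At every cusp the roots through the cusp have full rank. -/
def CuspFull : Prop := ∀ z u : L.W, z ≠ 0 → L.β z z = 0 → L.β u z = 0 →
  (∀ y t, L.Rt y t → L.β y z = 0 → L.β y u = 0) → ∃ c : ℚ, u = c • z

/-- The discriminant group is small. -/
structure Red (N : ℕ) : Prop where
  odd_sq : ∀ p : ℕ, p.Prime → p ≠ 2 → L.a (p ^ 2) = L.a p
  odd_le : ∀ p : ℕ, p.Prime → p ≠ 2 → L.a p ^ 2 ≤ p ^ N
  eight : L.a 8 = L.a 4
  four : L.a 4 ≤ 2 * L.a 2
  two : L.a 2 ^ 2 ≤ 2 ^ (N + 2)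

/-- The vectors that can be multiples of roots of type `t`. -/
def typX (t : ℕ) : AddSubgroup L.W where
  carrier := {y | y ∈ L.tor t ∧ ∃ z : ℤ, (t : ℚ) * L.β y y = 2 * z}
  zero_mem' := ⟨zero_mem _, 0, by simp⟩
  add_mem' := by
    rintro a b ⟨ha, z, hz⟩ ⟨hb, w, hw⟩
    obtain ⟨u, hu⟩ := hb.1 _ ha.2
    refine ⟨add_mem ha hb, z + w + u, ?_⟩
    rw [map_nsmul, LinearMap.smul_apply, nsmul_eq_mul] at hu
    simp only [map_add, LinearMap.add_apply, L.symm b a]
    push_cast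
    linarith
  neg_mem' := by
    rintro a ⟨ha, z, hz⟩
    exact ⟨neg_mem ha, z, by simpa using hz⟩

lemma mem_typX {t : ℕ} {y : L.W} :
    y ∈ L.typX t ↔ y ∈ L.tor t ∧ ∃ z : ℤ, (t : ℚ) * L.β y y = 2 * z := Iff.rfl

lemma X_le_typX (t : ℕ) : L.X ≤ L.typX t := fun x hx => by
  obtain ⟨z, hz⟩ := L.even x hx
  exact ⟨L.X_le_tor t hx, t * z, by rw [hz]; push_cast; ring⟩

/-- The lattice of type `t` (for `t = 0` the lattice itself). -/
noncomputable def typ (t : ℕ) : QL :=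
  if h : t = 0 then L else
    L.re t (Nat.cast_ne_zero.2 h) (L.typX t)
      (L.full.of_le_of_le (L.full_tor t) (L.X_le_typX t) fun _ hx => hx.1) fun _ hx => hx.2

/-- The number of lattice vectors of norm `2 n`. -/
noncomputable def rep (n : ℕ) : ℕ := {x : L.W | x ∈ L.X ∧ L.β x x = 2 * n}.ncard

/-- The number of vectors of type `t` and norm `2 n / t`. -/
noncomputable def trep (t n : ℕ) : ℕ :=
  {y : L.W | y ∈ L.D ∧ t • y ∈ L.X ∧ (t : ℚ) * L.β y y = 2 * n}.ncard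

/-- The majorant of the singular series without its first term. -/
noncomputable def sg2 : ℝ :=
  ∑' c : ℕ, ((c : ℝ) + 2) ^ (1 - (L.N : ℝ) / 2) * √(L.a (c + 2) : ℝ)

/-- The subgroup `D'` is generated modulo the lattice by vectors with Gram matrix `C`. -/
def PresG (D' : AddSubgroup L.W) {ι : Type} [Fintype ι] (C : ι → ι → ℚ) : Prop :=
  ∃ y : ι → L.W, (∀ i, y i ∈ D') ∧ (∀ z ∈ D', ∃ c : ι → ℤ, z - ∑ i, c i • y i ∈ L.X) ∧
    ∀ i j, ∃ n : ℤ, L.β (y i) (y j) = C i j + n ∧ (i = j → Even n)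

end QL

/-- The constant of the real density. -/
noncomputable def cmc (m : ℕ) : ℝ := (2 * Real.pi) ^ ((m : ℝ) / 2) / Real.Gamma ((m : ℝ) / 2)

/-- The blocks of a discriminant form. -/
inductive Blk : Type
  | odd (p a : ℕ)
  | pl
  | mi
  | u
  | v
  | four (k : ℕ)
  deriving DecidableEq

/-- The least non-square modulo `p`. -/
def nr (p : ℕ) : ℕ :=
  ((List.range p).filter fun a => (List.range p).all fun x => x * x % p != a).headD 0

namespace Blk

/-- The Gram matrix of the two generators (the second is trivial for cyclic blocks). -/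
def g : Blk → Fin 2 → Fin 2 → ℚ
  | odd p a => fun i j => if i = 0 ∧ j = 0 then 2 * a / p else 0
  | pl => fun i j => if i = 0 ∧ j = 0 then 1 / 2 else 0
  | mi => fun i j => if i = 0 ∧ j = 0 then 3 / 2 else 0
  | u => fun i j => if i = j then 0 else 1 / 2
  | v => fun i j => if i = j then 1 else 1 / 2
  | four k => fun i j => if i = 0 ∧ j = 0 then k / 4 else 0

/-- The order of the `c`-torsion. -/
def tor : Blk → ℕ → ℕ
  | odd p _, c => Nat.gcd c p
  | pl, c => Nat.gcd c 2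
  | mi, c => Nat.gcd c 2
  | u, c => Nat.gcd c 2 ^ 2
  | v, c => Nat.gcd c 2 ^ 2
  | four _, c => Nat.gcd c 4

/-- The exponent. -/
def ex : Blk → ℕ
  | odd p _ => p
  | four _ => 4
  | _ => 2

/-- The admissible parameters. -/
def Valid : Blk → Prop
  | odd p a => p.Prime ∧ p ≠ 2 ∧ (a = 1 ∨ a = nr p)
  | four k => k = 1 ∨ k = 3 ∨ k = 5 ∨ k = 7
  | _ => True

/-- The rank of the 2-part. -/
def r2 : Blk → ℕ
  | odd _ _ => 0
  | u => 2
  | v => 2
  | _ => 1

/-- One for the cyclic blocks of order four. -/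
def r4 : Blk → ℕ
  | four _ => 1
  | _ => 0

/-- The odd part of the order. -/
def od : Blk → ℕ
  | odd p _ => p
  | _ => 1

end Blk

/-- The Gram matrix of a list of blocks. -/
def blkC (l : List Blk) (i j : Fin l.length × Fin 2) : ℚ :=
  if i.1 = j.1 then (l.get i.1).g i.2 j.2 else 0

/-- The discriminant form of `L` is the sum of the blocks in `l`. -/
def QL.Pres (L : QL) (l : List Blk) : Prop := L.PresG L.D (blkC l)

/-- The order of the `c`-torsion of a sum of blocks. -/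
def tors (l : List Blk) (c : ℕ) : ℕ := (l.map fun B => B.tor c).prod

/-- The exponent of a sum of blocks. -/
def exs (l : List Blk) : ℕ := (l.map Blk.ex).foldr Nat.lcm 1

/-- The 2-rank. -/
def r2s (l : List Blk) : ℕ := (l.map Blk.r2).sum

/-- The 4-rank. -/
def r4s (l : List Blk) : ℕ := (l.map Blk.r4).sum

/-- The odd part of the order. -/
def ods (l : List Blk) : ℕ := (l.map Blk.od).prod

end Pool.Agent.Work.MP_c8d35c_al
end

-- merged part: Pool.Agent.Work.MP_c8d35c_al.QSig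
section
/-! The signature.

Plan. `exists_sig`: `LinearMap.BilinForm.exists_orthogonal_basis`; the diagonal values `d i` are
nonzero; `Φ x i = √|d i| * repr x i`; then `Sig.of_frame`. `Sig.of_frame`: reindex along an
equivalence `ι ≃ Fin r ⊕ Fin s` (`Equiv.sumCompl`). `Sig.unique`: for a basis `b` of `W` the real
matrices `G = (Φ (b j) i)`, `G'` are invertible (`RealFrame.abs_det`, `cov_pos`) and
`Gᵀ E G = G'ᵀ E' G'`; Sylvester's law (`sigPos_of_equiv_weightedSumSquares` or the dimension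
argument: a subspace that is positive definite meets a negative semidefinite one trivially).
`sig_of_pos`: the frame of `exists_sig` has no negative sign. -/

namespace Pool.Agent.Work.MP_c8d35c_al

open Module

namespace QL

variable {L L' : QL} {r s r' s' : ℕ}

theorem sgn_sign (r s : ℕ) (i : Fin r ⊕ Fin s) : sgn r s i = 1 ∨ sgn r s i = -1 := by
  cases i
  · exact Or.inl rfl
  · exact Or.inr rfl

lemma QSig_mk {α γ : Type} [Fintype α] [Fintype γ] (hα : Fintype.card α = r)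
    (hγ : Fintype.card γ = s) (hN : r + s = L.N) (P : L.W → α → ℝ) (M : L.W → γ → ℝ)
    (hP : ∀ x y i, P (x + y) i = P x i + P y i) (hM : ∀ x y i, M (x + y) i = M x i + M y i)
    (hf : ∀ x y, ∑ i, P x i * P y i - ∑ j, M x j * M y j = (L.β x y : ℝ)) : L.Sig r s := by
  let e := (Fintype.equivFinOfCardEq hα).symm
  let e' := (Fintype.equivFinOfCardEq hγ).symm
  refine ⟨AddMonoidHom.mk' (fun x => Sum.elim (fun i => P x (e i)) fun j => M x (e' j))
    fun x y => ?_, ?_, sgn_sign r s, fun x y => ?_⟩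
  · funext i
    cases i
    · exact hP x y _
    · exact hM x y _
  · rw [Fintype.card_sum, Fintype.card_fin, Fintype.card_fin]
    exact hN
  · rw [← hf, ← e.sum_comp fun i => P x i * P y i, ← e'.sum_comp fun i => M x i * M y i,
      Fintype.sum_sum_type]
    simp [sgn, sub_eq_add_neg]

lemma QSig_out (h : L.Sig r s) : ∃ (P : L.W →+ Fin r → ℝ) (M : L.W →+ Fin s → ℝ),
    ∀ x y, ∑ i, P x i * P y i - ∑ j, M x j * M y j = (L.β x y : ℝ) := by
  obtain ⟨Φ, h⟩ := h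
  refine ⟨AddMonoidHom.mk' (fun x i => Φ x (Sum.inl i)) fun x y => ?_,
    AddMonoidHom.mk' (fun x i => Φ x (Sum.inr i)) fun x y => ?_, fun x y => ?_⟩
  · funext i
    rw [map_add]; rfl
  · funext i
    rw [map_add]; rfl
  · rw [← h.form, Fintype.sum_sum_type]
    simp [sgn, sub_eq_add_neg]

theorem Sig.of_frame {ι : Type} [Fintype ι] {ε : ι → ℝ} {Φ : L.W →+ ι → ℝ}
    (h : RealFrame L.β ε Φ) (hr : Nat.card {i // ε i = 1} = r)
    (hs : Nat.card {i // ε i = -1} = s) : L.Sig r s := by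
  classical
  have hne : ∀ i, ¬ ε i = 1 ↔ ε i = -1 := fun i =>
    ⟨fun h1 => (h.sign i).resolve_left h1, fun h1 h2 => by rw [h1] at h2; norm_num at h2⟩
  have h1 : Fintype.card {i // ε i = 1} = r := by rw [← hr, Nat.card_eq_fintype_card]
  have h2 : Fintype.card {i // ¬ ε i = 1} = s := by
    rw [← hs, ← Nat.card_eq_fintype_card]
    exact Nat.card_congr (Equiv.subtypeEquivRight hne)
  refine QSig_mk h1 h2 ?_ (fun x i => Φ x i) (fun x i => Φ x i) (fun x y i => by rw [map_add]; rfl)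
    (fun x y i => by rw [map_add]; rfl) fun x y => ?_
  · rw [← h1, ← h2, ← Fintype.card_sum, Fintype.card_congr (Equiv.sumCompl fun i => ε i = 1)]
    exact h.card
  · rw [← h.form, ← Fintype.sum_subtype_add_sum_subtype (fun i => ε i = 1), sub_eq_add_neg,
      ← Finset.sum_neg_distrib]
    congr 1
    · exact Finset.sum_congr rfl fun i _ => by rw [i.2, one_mul]
    · exact Finset.sum_congr rfl fun i _ => by rw [(hne i).1 i.2, neg_one_mul]

lemma QSig_frame (L : QL) : ∃ (v : Basis (Fin L.N) ℚ L.W) (Φ : L.W →+ Fin L.N → ℝ),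
    RealFrame L.β (fun i => if 0 < L.β (v i) (v i) then 1 else -1) Φ := by
  haveI : Invertible (2 : ℚ) := invertibleOfNonzero two_ne_zero
  obtain ⟨v, hv⟩ := LinearMap.BilinForm.exists_orthogonal_basis (B := L.β) ⟨L.symm⟩
  rw [LinearMap.isOrthoᵢ_def] at hv
  refine ⟨v, AddMonoidHom.mk' (fun x i => √|(L.β (v i) (v i) : ℝ)| * v.repr x i) fun x y => ?_,
    Fintype.card_fin _, fun i => ?_, fun x y => ?_⟩
  · funext i
    simp [mul_add]
  · split_ifs
    · exact Or.inl rfl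
    · exact Or.inr rfl
  · have e : L.β x y = ∑ i, L.β (v i) (v i) * (v.repr x i * v.repr y i) := by
      conv_lhs => rw [← v.sum_repr x, ← v.sum_repr y]
      simp only [map_sum, map_smul, LinearMap.sum_apply, LinearMap.smul_apply, smul_eq_mul]
      refine Finset.sum_congr rfl fun i _ => ?_
      rw [Finset.sum_eq_single i (fun j _ hj => by rw [hv j i hj, mul_zero]) (by simp)]
      ring
    rw [e]
    push_cast
    refine Finset.sum_congr rfl fun i _ => ?_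
    have h1 : √|(L.β (v i) (v i) : ℝ)| * √|(L.β (v i) (v i) : ℝ)| = |(L.β (v i) (v i) : ℝ)| :=
      Real.mul_self_sqrt (abs_nonneg _)
    have h2 : (if 0 < L.β (v i) (v i) then (1 : ℝ) else -1) * |(L.β (v i) (v i) : ℝ)| =
        L.β (v i) (v i) := by
      split_ifs with h3
      · rw [one_mul, abs_of_pos (by exact_mod_cast h3)]
      · rw [abs_of_nonpos (by exact_mod_cast not_lt.1 h3), neg_one_mul, neg_neg]
    simp only [AddMonoidHom.mk'_apply]
    rw [mul_mul_mul_comm, h1, ← mul_assoc]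
    exact congrArg (· * _) h2

theorem exists_sig (L : QL) : ∃ r s, L.Sig r s := by
  obtain ⟨v, Φ, h⟩ := QSig_frame L
  exact ⟨_, _, Sig.of_frame h rfl rfl⟩

theorem Sig.add (h : L.Sig r s) : r + s = L.N := by
  obtain ⟨Φ, h⟩ := h
  have h1 := h.card
  rwa [Fintype.card_sum, Fintype.card_fin, Fintype.card_fin] at h1

/-- A real frame is a linear change of the coordinates in a basis. -/
lemma QSig_equiv {ι κ : Type} [Fintype ι] [Fintype κ] {ε : ι → ℝ} {Φ : L.W →+ ι → ℝ}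
    (h : RealFrame L.β ε Φ) (b : Basis κ ℚ L.W) : ∃ T : (κ → ℝ) ≃ₗ[ℝ] (ι → ℝ),
      (∀ x, T (fun j => (b.repr x j : ℝ)) = Φ x) ∧
      ∀ c, ∑ i, ε i * (T c i * T c i) = ∑ k, ∑ j, c k * (c j * (L.β (b j) (b k) : ℝ)) := by
  classical
  let T0 : (κ → ℝ) →ₗ[ℝ] (ι → ℝ) := Fintype.linearCombination ℝ fun j => Φ (b j)
  have hT : ∀ c i, T0 c i = ∑ j, c j * Φ (b j) i := fun c i => by
    simp [T0, Fintype.linearCombination_apply]
  have h1 : ∀ c k, ∑ i, ε i * (T0 c i * Φ (b k) i) = ∑ j, c j * (L.β (b j) (b k) : ℝ) :=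
    fun c k => by
      simp only [hT, ← h.form, Finset.sum_mul, Finset.mul_sum]
      rw [Finset.sum_comm]
      exact Finset.sum_congr rfl fun j _ => Finset.sum_congr rfl fun i _ => by ring
  have hdet : ((Rat.castHom ℝ).mapMatrix (LinearMap.BilinForm.toMatrix b L.β)).det ≠ 0 := by
    rw [← RingHom.map_det, Rat.coe_castHom]
    exact_mod_cast (LinearMap.BilinForm.nondegenerate_iff_det_ne_zero b).1 L.nondeg
  have hinj : Function.Injective T0 := by
    rw [injective_iff_map_eq_zero]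
    intro c hc
    refine Matrix.eq_zero_of_vecMul_eq_zero hdet (funext fun k => ?_)
    have h2 := h1 c k
    rw [hc] at h2
    simpa [Matrix.vecMul, dotProduct] using h2.symm
  have hdim : finrank ℝ (κ → ℝ) = finrank ℝ (ι → ℝ) := by
    rw [finrank_fintype_fun_eq_card, finrank_fintype_fun_eq_card, h.card, finrank_eq_card_basis b]
  refine ⟨T0.linearEquivOfInjective hinj hdim, fun x => ?_, fun c => ?_⟩
  · rw [LinearMap.linearEquivOfInjective_apply]
    conv_rhs => rw [← b.sum_repr x, map_sum]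
    funext i
    rw [hT, Finset.sum_apply]
    exact Finset.sum_congr rfl fun j _ => by rw [map_rat_smul, Pi.smul_apply, Rat.smul_def]
  · rw [LinearMap.linearEquivOfInjective_apply]
    simp only [← Finset.mul_sum, ← h1]
    simp only [Finset.mul_sum]
    rw [Finset.sum_comm]
    refine Finset.sum_congr rfl fun i _ => ?_
    conv_lhs => rw [hT c i, Finset.mul_sum, Finset.mul_sum, ← hT c i]
    exact Finset.sum_congr rfl fun k _ => by ring

lemma QSig_ncard (r s : ℕ) : {i | 0 < sgn r s i}.ncard = r := by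
  have e : {i | 0 < sgn r s i} = Set.range Sum.inl := by
    ext i
    cases i <;> simp [sgn]
  rw [e, Set.ncard_range_of_injective Sum.inl_injective, Nat.card_fin]

theorem Sig.unique (h : L.Sig r s) (h' : L.Sig r' s') : r = r' ∧ s = s' := by
  have a1 := h.add
  have a2 := h'.add
  obtain ⟨Φ, h⟩ := h
  obtain ⟨Φ', h'⟩ := h'
  obtain ⟨T, -, hT⟩ := QSig_equiv h (finBasis ℚ L.W)
  obtain ⟨T', -, hT'⟩ := QSig_equiv h' (finBasis ℚ L.W)
  have e : QuadraticMap.Equivalent (QuadraticMap.weightedSumSquares ℝ (sgn r s))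
      (QuadraticMap.weightedSumSquares ℝ (sgn r' s')) :=
    ⟨{ T.symm.trans T' with
        map_app' := fun m => by
          have h1 := hT (T.symm m)
          rw [T.apply_symm_apply, ← hT'] at h1
          simp only [QuadraticMap.weightedSumSquares_apply, smul_eq_mul]
          exact h1.symm }⟩
  have h2 := QuadraticForm.sigPos_of_equiv_weightedSumSquares e
  rw [QuadraticForm.sigPos_weightedSumSquares, QSig_ncard, QSig_ncard] at h2
  omega

/-- The signature depends only on the form up to a positive factor. -/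
theorem Sig.of_equiv (h : L.Sig r s) (e : L.W ≃ₗ[ℚ] L'.W) {c : ℚ} (hc : 0 < c)
    (he : ∀ x y, L'.β (e x) (e y) = c * L.β x y) : L'.Sig r s := by
  obtain ⟨P, M, hf⟩ := QSig_out h
  have h1 : √(c : ℝ) * √(c : ℝ) = c := Real.mul_self_sqrt (by exact_mod_cast hc.le)
  refine QSig_mk (Fintype.card_fin r) (Fintype.card_fin s) (h.add.trans e.finrank_eq)
    (fun x i => √(c : ℝ) * P (e.symm x) i) (fun x i => √(c : ℝ) * M (e.symm x) i)
    (fun x y i => by simp [mul_add]) (fun x y i => by simp [mul_add]) fun x y => ?_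
  have h2 := he (e.symm x) (e.symm y)
  rw [e.apply_symm_apply, e.apply_symm_apply] at h2
  rw [h2, Rat.cast_mul, ← hf, mul_sub, Finset.mul_sum, Finset.mul_sum]
  congr 1 <;> exact Finset.sum_congr rfl fun i _ => by rw [mul_mul_mul_comm, h1]

theorem Iso.sig (h : L.Iso L') (hs : L.Sig r s) : L'.Sig r s := by
  obtain ⟨e, he, -⟩ := h
  exact hs.of_equiv e one_pos fun x y => by rw [he, one_mul]

theorem Sig.prod (h : L.Sig r s) (h' : L'.Sig r' s') : (L.prod L').Sig (r + r') (s + s') := by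
  obtain ⟨P, M, hf⟩ := QSig_out h
  obtain ⟨P', M', hf'⟩ := QSig_out h'
  have hN : (L.prod L').N = L.N + L'.N := finrank_prod (R := ℚ) (M := L.W) (M' := L'.W)
  refine QSig_mk (α := Fin r ⊕ Fin r') (γ := Fin s ⊕ Fin s') (by simp) (by simp)
    (by rw [hN, ← h.add, ← h'.add]; ring)
    (fun x : L.W × L'.W => Sum.elim (P x.1) (P' x.2))
    (fun x : L.W × L'.W => Sum.elim (M x.1) (M' x.2)) ?_ ?_ ?_
  · intro (x : L.W × L'.W) (y : L.W × L'.W) i
    change Sum.elim (P (x.1 + y.1)) (P' (x.2 + y.2)) i = _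
    cases i <;> simp
  · intro (x : L.W × L'.W) (y : L.W × L'.W) i
    change Sum.elim (M (x.1 + y.1)) (M' (x.2 + y.2)) i = _
    cases i <;> simp
  · intro (x : L.W × L'.W) (y : L.W × L'.W)
    rw [prod_β, Rat.cast_add, ← hf, ← hf', Fintype.sum_sum_type, Fintype.sum_sum_type]
    simp only [Sum.elim_inl, Sum.elim_inr]
    ring

theorem Sig.neg (h : L.Sig r s) : L.neg.Sig s r := by
  obtain ⟨P, M, hf⟩ := QSig_out h
  refine QSig_mk (L := L.neg) (Fintype.card_fin s) (Fintype.card_fin r)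
    ((add_comm s r).trans h.add) (fun x : L.W => M x) (fun x : L.W => P x)
    (fun (x y : L.W) i => congrFun (M.map_add x y) i)
    (fun (x y : L.W) i => congrFun (P.map_add x y) i) fun (x y : L.W) => ?_
  rw [neg_β, Rat.cast_neg, ← hf, neg_sub]

theorem sig_U : U.Sig 1 1 := by
  have hN : U.N = 2 := by
    change finrank ℚ (ℚ × ℚ) = 2
    simp
  refine QSig_mk (α := Unit) (γ := Unit) rfl rfl hN.symm
    (fun (x : ℚ × ℚ) _ => (x.1 : ℝ) + x.2 / 2) (fun (x : ℚ × ℚ) _ => (x.1 : ℝ) - x.2 / 2) ?_ ?_ ?_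
  · intro (x : ℚ × ℚ) (y : ℚ × ℚ) i
    change ((x.1 + y.1 : ℚ) : ℝ) + (x.2 + y.2 : ℚ) / 2 = _
    push_cast
    ring
  · intro (x : ℚ × ℚ) (y : ℚ × ℚ) i
    change ((x.1 + y.1 : ℚ) : ℝ) - (x.2 + y.2 : ℚ) / 2 = _
    push_cast
    ring
  · intro (x : ℚ × ℚ) (y : ℚ × ℚ)
    rw [U_β]
    simp only [Finset.univ_unique, Finset.sum_singleton]
    push_cast
    ring

theorem sig_zero : zero.Sig 0 0 := by
  have hN : zero.N = 0 := by
    change finrank ℚ (Fin 0 → ℚ) = 0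
    simp
  obtain ⟨r, s, h⟩ := exists_sig zero
  have h1 := h.add
  obtain rfl : r = 0 := by omega
  obtain rfl : s = 0 := by omega
  exact h

lemma QSig_sq {Φ : L.W →+ Fin r ⊕ Fin 0 → ℝ} (h : RealFrame L.β (sgn r 0) Φ) (x : L.W) :
    (L.β x x : ℝ) = ∑ i, Φ x i ^ 2 := by
  rw [← h.form]
  refine Finset.sum_congr rfl fun i _ => ?_
  rcases i with i | i
  · simp [sgn, sq]
  · exact i.elim0

theorem Sig.pos (h : L.Sig r 0) {x : L.W} (hx : x ≠ 0) : 0 < L.β x x := by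
  obtain ⟨Φ, h⟩ := h
  have h1 : Φ x ≠ 0 := fun h0 => hx (h.injective L.nondeg (h0.trans (map_zero Φ).symm))
  obtain ⟨i, hi⟩ := Function.ne_iff.1 h1
  have h2 : (0 : ℝ) < L.β x x := by
    rw [QSig_sq h]
    exact Finset.sum_pos' (fun j _ => sq_nonneg _) ⟨i, Finset.mem_univ i, sq_pos_of_ne_zero hi⟩
  exact_mod_cast h2

theorem sig_of_pos (h : ∀ x : L.W, x ≠ 0 → 0 < L.β x x) : L.Sig L.N 0 := by
  obtain ⟨v, Φ, hf⟩ := QSig_frame L
  have h1 : ∀ i, (if 0 < L.β (v i) (v i) then (1 : ℝ) else -1) = 1 := fun i =>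
    if_pos (h _ (v.ne_zero i))
  refine Sig.of_frame hf ?_ ?_
  · rw [Nat.card_congr (Equiv.subtypeUnivEquiv h1), Nat.card_fin]
  · have : IsEmpty {i // (if 0 < L.β (v i) (v i) then (1 : ℝ) else -1) = -1} :=
      ⟨fun i => by have h2 := i.2; rw [h1] at h2; norm_num at h2⟩
    exact Nat.card_of_isEmpty

theorem Sig.typ (h : L.Sig r s) (t : ℕ) : (L.typ t).Sig r s := by
  unfold QL.typ
  split_ifs with ht
  · exact h
  · exact h.of_equiv (LinearEquiv.refl ℚ L.W) (c := t)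
      (Nat.cast_pos.2 (Nat.pos_of_ne_zero ht)) fun x y => rfl

/-- Cancellation of signatures. -/
theorem Sig.cancel (h : (L.prod L').Sig (r + r') (s + s')) (h' : L.Sig r s) : L'.Sig r' s' := by
  obtain ⟨a, b, h1⟩ := exists_sig L'
  obtain ⟨h2, h3⟩ := (h'.prod h1).unique h
  obtain rfl : a = r' := by omega
  obtain rfl : b = s' := by omega
  exact h1

lemma QSig_finite {ι : Type} [Fintype ι] {ε : ι → ℝ} {Φ : L.W →+ ι → ℝ}
    (h : RealFrame L.β ε Φ) {Y : AddSubgroup L.W} (hY : Full Y) (B : ℝ) :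
    {y : L.W | y ∈ Y ∧ ‖Φ y‖ ≤ B}.Finite := by
  obtain ⟨b, rfl⟩ := hY
  obtain ⟨T, hT, -⟩ := QSig_equiv h b
  let S := LinearMap.toContinuousLinearMap T.symm.toLinearMap
  obtain ⟨C, hC⟩ := exists_int_gt (‖S‖ * B)
  refine ((Set.Finite.pi' fun _ : Fin (finrank ℚ L.W) => Set.finite_Icc (-C) C).image
    fun m => ∑ j, (m j : ℚ) • b j).subset ?_
  rintro y ⟨hy, hB⟩
  choose m hm using (RLat_mem b y).1 hy
  refine ⟨m, fun j => ?_, ?_⟩
  · have h1 : S (Φ y) = fun j => (b.repr y j : ℝ) := by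
      rw [← hT]
      exact T.symm_apply_apply _
    have h2 := (norm_le_pi_norm (S (Φ y)) j).trans ((S.le_opNorm _).trans
      (mul_le_mul_of_nonneg_left hB (norm_nonneg _)))
    rw [h1] at h2
    simp only [hm, Rat.cast_intCast, Real.norm_eq_abs] at h2
    have h3 : |m j| ≤ C := by exact_mod_cast h2.trans hC.le
    exact abs_le.1 h3
  · simp only [← hm]
    exact b.sum_repr y

/-- In a definite space a lattice has finitely many vectors of bounded norm. -/
theorem Sig.finite (h : L.Sig r 0) {Y : AddSubgroup L.W} (hY : Full Y) (B : ℚ) :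
    {y : L.W | y ∈ Y ∧ L.β y y ≤ B}.Finite := by
  obtain ⟨Φ, h⟩ := h
  refine (QSig_finite h hY √(B : ℝ)).subset fun y hy => ⟨hy.1, ?_⟩
  refine (pi_norm_le_iff_of_nonneg (Real.sqrt_nonneg _)).2 fun i => Real.abs_le_sqrt ?_
  have h1 : (L.β y y : ℝ) ≤ B := by exact_mod_cast hy.2
  rw [QSig_sq h] at h1
  exact (Finset.single_le_sum (f := fun i => Φ y i ^ 2) (fun j _ => sq_nonneg _)
    (Finset.mem_univ i)).trans h1

/-- For any real frame a lattice has finitely many vectors of bounded length. -/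
theorem frame_finite {ι : Type} [Fintype ι] {ε : ι → ℝ} {Φ : L.W →+ ι → ℝ}
    (h : RealFrame L.β ε Φ) {Y : AddSubgroup L.W} (hY : Full Y) (B : ℝ) :
    {y : L.W | y ∈ Y ∧ ‖Φ y‖ ≤ B}.Finite :=
  QSig_finite h hY B

end QL

end Pool.Agent.Work.MP_c8d35c_al
end

-- merged part: Pool.Agent.Work.MP_c8d35c_al.QUnf
section
/-! Unfolding over the unit interval.

Plan. `unfold_q`: `ℚ ≃ {q : ℚ // 0 ≤ q ∧ q < 1} × ℤ` (fractional and integer part; the
denominator does not change). `∑ a : ℤ, ∫ x in Ioc 0 1, h (x - q - a) = ∫ h`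
(`MeasureTheory.Integrable.hasSum_intervalIntegral_comp_add_int`, also for `‖h‖`). There are at
most `c` numbers `q ∈ [0, 1)` with denominator `c`, and only `q = 0` has denominator one.
`S = ∑' q, G q`; `integral_tsum` or `hasSum_integral_of_summable_integral_norm`.
`coeff_q`: termwise integration, `∫ x in Ioc 0 1, ee (x k) = if k = 0 then 1 else 0`. -/

namespace Pool.Agent.Work.MP_c8d35c_al

open MeasureTheory Set

theorem qunf_integrable_tsum {α ι : Type} [MeasurableSpace α] {μ : Measure α} [Countable ι]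
    {Φ : ι → α → ℂ} (h1 : ∀ i, Integrable (Φ i) μ) (h2 : Summable fun i => ∫ a, ‖Φ i a‖ ∂μ) :
    Integrable (fun a => ∑' i, Φ i a) μ := by
  refine ⟨AEStronglyMeasurable.tsum fun i => (h1 i).1, ?_⟩
  calc ∫⁻ a, ‖∑' i, Φ i a‖ₑ ∂μ ≤ ∫⁻ a, ∑' i, ‖Φ i a‖ₑ ∂μ :=
        lintegral_mono fun a => enorm_tsum_le_tsum_enorm
    _ = ∑' i, ∫⁻ a, ‖Φ i a‖ₑ ∂μ := lintegral_tsum fun i => (h1 i).1.enorm
    _ = ∑' i, ENNReal.ofReal (∫ a, ‖Φ i a‖ ∂μ) :=
        tsum_congr fun i => (ofReal_integral_norm_eq_lintegral_enorm (h1 i)).symm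
    _ = ENNReal.ofReal (∑' i, ∫ a, ‖Φ i a‖ ∂μ) :=
        (ENNReal.ofReal_tsum_of_nonneg (fun i => integral_nonneg fun a => norm_nonneg _) h2).symm
    _ < ⊤ := ENNReal.ofReal_lt_top

theorem qunf_unf {h : ℝ → ℂ} (hh : Integrable h) (y : ℝ) :
    HasSum (fun a : ℤ => ∫ x in Ioc (0 : ℝ) 1, h (x - (y + a))) (∫ x, h x) := by
  have h1 := (hh.comp_sub_right y).hasSum_intervalIntegral_comp_add_int
  rw [integral_sub_right_eq_self h y] at h1
  have h2 := (Equiv.neg ℤ).hasSum_iff.2 h1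
  have h3 : ∀ a : ℤ, ∫ x in Ioc (0 : ℝ) 1, h (x - (y + a)) =
      ∫ x in (0 : ℝ)..1, h (x + ((-a : ℤ) : ℝ) - y) := fun a => by
    rw [intervalIntegral.integral_of_le zero_le_one]
    congr 1
    funext x
    congr 1
    push_cast
    ring
  simp only [h3]
  exact h2

theorem qunf_sum_le {g : ℚ → ℝ} {w : ℕ → ℝ} (hg : ∀ κ, 0 ≤ g κ) (hw : ∀ κ : ℚ, g κ ≤ w κ.den)
    (hs : Summable fun c : ℕ => ((c : ℝ) + 2) * w (c + 2)) (s : Finset ℚ)
    (h0 : ∀ q ∈ s, 0 < q ∧ q < 1) :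
    ∑ q ∈ s, g q ≤ ∑' c : ℕ, ((c : ℝ) + 2) * w (c + 2) := by
  classical
  have hw0 : ∀ c : ℕ, 0 ≤ w (c + 2) := fun c => by
    have h1 := (hg ((c + 2 : ℕ) : ℚ)⁻¹).trans (hw _)
    rwa [Rat.inv_natCast_den_of_pos (by omega)] at h1
  have hden : ∀ q ∈ s, q.den - 2 + 2 = q.den := fun q hq => by
    have h1 := q.den_pos
    have h2 : q.den ≠ 1 := fun h2 => by
      have h3 := Rat.coe_int_num_of_den_eq_one h2
      obtain ⟨h4, h5⟩ := h0 q hq
      rw [← h3] at h4 h5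
      have h6 : 0 < q.num := by exact_mod_cast h4
      have h7 : q.num < 1 := by exact_mod_cast h5
      omega
    omega
  calc ∑ q ∈ s, g q ≤ ∑ q ∈ s, w (q.den - 2 + 2) :=
        Finset.sum_le_sum fun q hq => by rw [hden q hq]; exact hw q
    _ = ∑ c ∈ s.image fun q => q.den - 2, (s.filter fun q => q.den - 2 = c).card • w (c + 2) :=
        Finset.sum_comp (fun c => w (c + 2)) fun q : ℚ => q.den - 2
    _ ≤ ∑ c ∈ (s.image fun q => q.den - 2 : Finset ℕ), (((c : ℕ) : ℝ) + 2) * w (c + 2) := by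
        refine Finset.sum_le_sum fun c _ => ?_
        rw [nsmul_eq_mul]
        refine mul_le_mul_of_nonneg_right ?_ (hw0 c)
        have h1 : (s.filter fun q => q.den - 2 = c).card ≤ (Finset.range (c + 2)).card := by
          refine Finset.card_le_card_of_injOn (fun q => q.num.toNat) ?_ ?_
          · intro q hq
            obtain ⟨h2, h3⟩ := Finset.mem_filter.1 hq
            have h4 := hden q h2
            have h5 : q.num < q.den := Rat.num_lt_denom_iff.2 (h0 q h2).2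
            simp only [Finset.coe_range, mem_Iio]
            omega
          · intro q hq r hr h2
            obtain ⟨h3, h4⟩ := Finset.mem_filter.1 hq
            obtain ⟨h5, h6⟩ := Finset.mem_filter.1 hr
            have h7 := hden q h3
            have h8 := hden r h5
            have h9 := Rat.num_pos.2 (h0 q h3).1
            have h10 := Rat.num_pos.2 (h0 r h5).1
            simp only at h2
            exact Rat.ext (by omega) (by omega)
        rw [Finset.card_range] at h1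
        exact_mod_cast h1
    _ ≤ _ := hs.sum_le_tsum _ fun c _ => mul_nonneg (by positivity) (hw0 c)

theorem qunf_orth {k : ℤ} (hk : k ≠ 0) : ∫ x in Ioc (0 : ℝ) 1, ee (x * k) = 0 := by
  rw [← intervalIntegral.integral_of_le zero_le_one]
  have h1 : ∀ x : ℝ, ee (x * k) = Complex.exp (2 * Real.pi * Complex.I * k * x) := fun x => by
    rw [ee]
    congr 1
    push_cast
    ring
  have h2 : (2 * Real.pi * Complex.I * k : ℂ) ≠ 0 :=
    mul_ne_zero Complex.two_pi_I_ne_zero (Int.cast_ne_zero.2 hk)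
  simp only [h1]
  rw [integral_exp_mul_complex h2, ← h1, ← h1, one_mul, zero_mul, ee_int, ee_zero, sub_self,
    zero_div]

theorem unfold_q {G : ℚ → ℂ} (hG : ∀ (κ : ℚ) (a : ℤ), G (κ + a) = G κ) {w : ℕ → ℝ}
    (hw : ∀ κ : ℚ, ‖G κ‖ ≤ w κ.den) (hs : Summable fun c : ℕ => ((c : ℝ) + 2) * w (c + 2))
    {h : ℝ → ℂ} (hh : Integrable h) :
    IntegrableOn (fun x : ℝ => ∑' κ : ℚ, G κ * h (x - κ)) (Ioc 0 1) ∧
      ∃ S : ℂ, ‖S - G 0‖ ≤ ∑' c : ℕ, ((c : ℝ) + 2) * w (c + 2) ∧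
        ∫ x in Ioc (0 : ℝ) 1, ∑' κ : ℚ, G κ * h (x - κ) = S * ∫ x, h x := by
  classical
  have hb : Function.Bijective fun p : {q : ℚ // 0 ≤ q ∧ q < 1} × ℤ => (p.1 : ℚ) + p.2 := by
    constructor
    · rintro ⟨⟨q, hq⟩, a⟩ ⟨⟨r, hr⟩, b⟩ h1
      simp only at h1
      have h2 : a = b := by
        have h3 : ((a - b : ℤ) : ℚ) < (1 : ℤ) := by push_cast; linarith [hq.1, hr.2]
        have h4 : ((b - a : ℤ) : ℚ) < (1 : ℤ) := by push_cast; linarith [hq.2, hr.1]
        have h5 := Int.cast_lt.1 h3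
        have h6 := Int.cast_lt.1 h4
        omega
      subst h2
      exact Prod.ext (Subtype.ext (add_right_cancel h1)) rfl
    · intro κ
      exact ⟨(⟨Int.fract κ, Int.fract_nonneg κ, Int.fract_lt_one κ⟩, ⌊κ⌋), Int.fract_add_floor κ⟩
  let e := Equiv.ofBijective _ hb
  have he : ∀ (q : {q : ℚ // 0 ≤ q ∧ q < 1}) (a : ℤ) (x : ℝ),
      G (e (q, a)) * h (x - (e (q, a) : ℚ)) = G q * h (x - (((q : ℚ) : ℝ) + a)) :=
    fun q a x => by
      change G (q + a) * h (x - ((q : ℚ) + a : ℚ)) = _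
      rw [hG]
      push_cast
      rfl
  let z : {q : ℚ // 0 ≤ q ∧ q < 1} := ⟨0, le_rfl, zero_lt_one⟩
  have hS : ∀ s : Finset {q : ℚ // 0 ≤ q ∧ q < 1}, ∑ q ∈ s.erase z, ‖G q‖ ≤
      ∑' c : ℕ, ((c : ℝ) + 2) * w (c + 2) := fun s => by
    have h1 := qunf_sum_le (g := fun κ => ‖G κ‖) (fun κ => norm_nonneg _) hw hs
      ((s.erase z).map (Function.Embedding.subtype _)) fun q hq => by
        obtain ⟨r, hr, rfl⟩ := Finset.mem_map.1 hq
        refine ⟨lt_of_le_of_ne r.2.1 fun h0 => ?_, r.2.2⟩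
        exact (Finset.mem_erase.1 hr).1 (Subtype.ext h0.symm)
    rwa [Finset.sum_map] at h1
  have hsum : Summable fun q : {q : ℚ // 0 ≤ q ∧ q < 1} => ‖G q‖ := by
    refine summable_of_sum_le (c := ‖G 0‖ + ∑' c : ℕ, ((c : ℝ) + 2) * w (c + 2))
      (fun q => norm_nonneg _) fun s => ?_
    have h1 : ∑ q ∈ s, ‖G q‖ ≤ ∑ q ∈ insert z s, ‖G q‖ :=
      Finset.sum_le_sum_of_subset_of_nonneg (Finset.subset_insert _ _) fun _ _ _ => norm_nonneg _
    rw [← Finset.add_sum_erase _ _ (Finset.mem_insert_self z s)] at h1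
    exact h1.trans (add_le_add le_rfl (hS _))
  have h1 : ∀ κ : ℚ, Integrable (fun x : ℝ => G κ * h (x - κ)) (volume.restrict (Ioc 0 1)) :=
    fun κ => ((hh.comp_sub_right _).integrableOn).const_mul _
  have h2 : ∀ q : {q : ℚ // 0 ≤ q ∧ q < 1}, HasSum
      (fun a : ℤ => ∫ x in Ioc (0 : ℝ) 1, ‖G (e (q, a)) * h (x - (e (q, a) : ℚ))‖)
      (‖G q‖ * ∫ x, ‖h x‖) := fun q => by
    have h3 := qunf_unf (h := fun x => (‖h x‖ : ℂ)) hh.norm.ofReal ((q : ℚ) : ℝ)
    simp only [integral_complex_ofReal, Complex.hasSum_ofReal] at h3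
    simp only [he, norm_mul, integral_const_mul]
    exact h3.mul_left _
  have h3 : Summable fun κ : ℚ => ∫ x in Ioc (0 : ℝ) 1, ‖G κ * h (x - κ)‖ := by
    rw [← e.summable_iff]
    refine (summable_prod_of_nonneg fun p => integral_nonneg fun x => norm_nonneg _).2
      ⟨fun q => (h2 q).summable, ?_⟩
    exact (hsum.mul_right _).congr fun q => (h2 q).tsum_eq.symm
  refine ⟨qunf_integrable_tsum h1 h3, ∑' q : {q : ℚ // 0 ≤ q ∧ q < 1}, G q, ?_, ?_⟩
  · have h4 : Filter.Tendsto (fun s : Finset {q : ℚ // 0 ≤ q ∧ q < 1} => ∑ q ∈ s, G q)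
        Filter.atTop (nhds (∑' q : {q : ℚ // 0 ≤ q ∧ q < 1}, G q)) := hsum.of_norm.hasSum
    refine le_of_tendsto (h4.sub_const (G 0)).norm ?_
    filter_upwards [Filter.eventually_ge_atTop {z}] with s hs'
    rw [← Finset.add_sum_erase _ _ (hs' (Finset.mem_singleton_self z)), add_sub_cancel_left]
    exact (norm_sum_le _ _).trans (hS s)
  · have h4 := e.hasSum_iff.2 (hasSum_integral_of_summable_integral_norm h1 h3)
    have h5 := h4.prod_fiberwise (g := fun q : {q : ℚ // 0 ≤ q ∧ q < 1} => G q * ∫ x, h x)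
      fun q => by
      have h6 := qunf_unf hh ((q : ℚ) : ℝ)
      simp only [Function.comp_apply, he]
      simp only [integral_const_mul]
      exact h6.mul_left _
    exact h5.unique (hsum.of_norm.hasSum.mul_right _)

theorem coeff_q {α : Type} [Countable α] {w : α → ℝ} (hw0 : ∀ i, 0 ≤ w i) (hw : Summable w)
    (q : α → ℤ) :
    IntegrableOn (fun x : ℝ => ∑' i, (w i : ℂ) * ee (x * q i)) (Ioc 0 1) ∧
      ∫ x in Ioc (0 : ℝ) 1, ∑' i, (w i : ℂ) * ee (x * q i) =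
        ((∑' i : {i // q i = 0}, w i : ℝ) : ℂ) := by
  classical
  have hn : ∀ i (x : ℝ), ‖(w i : ℂ) * ee (x * q i)‖ = w i :=
    fun i x => by rw [norm_mul, norm_ee, mul_one, Complex.norm_of_nonneg (hw0 i)]
  have h1 : ∀ i, Integrable (fun x : ℝ => (w i : ℂ) * ee (x * q i))
      (volume.restrict (Ioc 0 1)) := fun i => by
    refine Integrable.of_bound (Continuous.aestronglyMeasurable ?_) (w i)
      (ae_of_all _ fun x => (hn i x).le)
    exact continuous_const.mul (continuous_ee.comp (by fun_prop))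
  have h2 : Summable fun i => ∫ x in Ioc (0 : ℝ) 1, ‖(w i : ℂ) * ee (x * q i)‖ := by
    simp only [hn, integral_const, smul_eq_mul]
    exact hw.mul_left _
  refine ⟨qunf_integrable_tsum h1 h2, ?_⟩
  have h3 := hasSum_integral_of_summable_integral_norm h1 h2
  have h4 : ∀ i, ∫ x in Ioc (0 : ℝ) 1, (w i : ℂ) * ee (x * q i) =
      indicator {i | q i = 0} (fun i => (w i : ℂ)) i := fun i => by
    rw [integral_const_mul]
    by_cases h0 : q i = 0
    · rw [indicator_of_mem (by exact h0)]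
      simp [h0, ee_zero]
    · rw [indicator_of_notMem (by exact h0), qunf_orth h0, mul_zero]
  simp only [h4] at h3
  rw [← h3.tsum_eq, ← tsum_subtype, Complex.ofReal_tsum]
  rfl

end Pool.Agent.Work.MP_c8d35c_al
end
end

-- merged part: Pool.Agent.Work.MP_c8d35c_al.QTor
section
-- merged part: Pool.Agent.Work.MP_c8d35c_al.RPack
section
/-! Packing bound and Minkowski's theorem on linear forms. -/

namespace Pool.Agent.Work.MP_c8d35c_al

open Matrix

/-- Sum of a decaying function over a separated family (sup norm). -/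
theorem pack (ι : Type) [Fintype ι] {s : ℝ} (hs : (Fintype.card ι : ℝ) < s) :
    ∃ C : ℝ, 0 < C ∧ ∀ μ : ℝ, 0 < μ → μ ≤ 1 → ∀ (κ : Type) (t : Finset κ) (z : κ → ι → ℝ),
      (∀ a ∈ t, ∀ b ∈ t, a ≠ b → μ ≤ ‖z a - z b‖) →
      ∑ a ∈ t, (1 + ‖z a‖) ^ (-s) ≤ C * μ ^ (-(Fintype.card ι : ℝ)) := by
  have hint : MeasureTheory.Integrable (fun y : ι → ℝ => (1 + ‖y‖) ^ (-s)) :=
    integrable_one_add_norm (by rwa [Module.finrank_fintype_fun_eq_card])
  have hs0 : 0 ≤ s := le_trans (Nat.cast_nonneg _) hs.le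
  have hI : 0 ≤ ∫ y : ι → ℝ, (1 + ‖y‖) ^ (-s) :=
    MeasureTheory.integral_nonneg fun y => by positivity
  refine ⟨2 ^ s * (∫ y : ι → ℝ, (1 + ‖y‖) ^ (-s)) + 1, by positivity,
    fun μ hμ hμ1 κ t z hz => ?_⟩
  have hvol : ∀ a, MeasureTheory.volume (Metric.ball (z a) (μ / 2)) =
      ENNReal.ofReal (μ ^ Fintype.card ι) := fun a => by
    rw [Real.volume_pi_ball _ (half_pos hμ)]
    congr 2
    ring
  have h1 : ∀ a ∈ t, (2 ^ s)⁻¹ * (1 + ‖z a‖) ^ (-s) * μ ^ Fintype.card ι ≤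
      ∫ y in Metric.ball (z a) (μ / 2), (1 + ‖y‖) ^ (-s) := fun a _ => by
    have h2 := MeasureTheory.setIntegral_ge_of_const_le_real (μ := MeasureTheory.volume)
      (c := (2 ^ s)⁻¹ * (1 + ‖z a‖) ^ (-s)) (f := fun y : ι → ℝ => (1 + ‖y‖) ^ (-s))
      (s := Metric.ball (z a) (μ / 2)) Metric.isOpen_ball.measurableSet
      (by rw [hvol]; exact ENNReal.ofReal_ne_top) (fun y hy => by
        have h3 : ‖y‖ ≤ ‖z a‖ + μ / 2 := by
          have h4 := norm_le_norm_add_norm_sub' y (z a)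
          have h5 : ‖y - z a‖ < μ / 2 := mem_ball_iff_norm.1 hy
          linarith
        rw [← Real.rpow_neg zero_le_two, ← Real.mul_rpow zero_le_two (by positivity)]
        exact Real.rpow_le_rpow_of_nonpos (by positivity) (by linarith [norm_nonneg (z a)])
          (by linarith)) hint.integrableOn
    rwa [MeasureTheory.Measure.real, hvol, ENNReal.toReal_ofReal (by positivity)] at h2
  have h2 := MeasureTheory.integral_biUnion_finset (μ := MeasureTheory.volume)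
    (f := fun y : ι → ℝ => (1 + ‖y‖) ^ (-s)) t (s := fun a => Metric.ball (z a) (μ / 2))
    (fun a _ => Metric.isOpen_ball.measurableSet)
    (fun a ha b hb hab => Metric.ball_disjoint_ball (by
      rw [dist_eq_norm, add_halves]; exact hz a ha b hb hab)) fun a _ => hint.integrableOn
  have h3 := (Finset.sum_le_sum h1).trans (h2.ge.trans (MeasureTheory.setIntegral_le_integral hint
    (Filter.Eventually.of_forall fun y => by positivity)))
  rw [← Finset.sum_mul, ← Finset.mul_sum] at h3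
  have h4 : (0:ℝ) < μ ^ Fintype.card ι := by positivity
  have h5 : (0:ℝ) < 2 ^ s := by positivity
  rw [Real.rpow_neg hμ.le, Real.rpow_natCast, ← div_eq_mul_inv, le_div_iff₀ h4]
  rw [mul_assoc, inv_mul_le_iff₀ h5] at h3
  linarith

theorem rpack_exp {q : ℝ} (hq : 0 ≤ q) : ∃ K : ℝ, 0 < K ∧ ∀ u : ℝ, 0 < u →
    Real.exp (-(Real.pi * u ^ 2)) ≤ K * u ^ (-q) := by
  obtain ⟨N, hN⟩ := exists_nat_ge q
  refine ⟨N.factorial * Real.exp 1, by positivity, fun u hu => ?_⟩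
  have hpi := Real.pi_gt_three
  have h0 : 0 ≤ Real.pi * u ^ 2 := by positivity
  have h1 : u ^ q ≤ (1 + Real.pi * u ^ 2) ^ q :=
    Real.rpow_le_rpow hu.le (by nlinarith [sq_nonneg (u - 1), sq_nonneg u]) hq
  have h2 : (1 + Real.pi * u ^ 2) ^ q ≤ (1 + Real.pi * u ^ 2) ^ (N : ℝ) :=
    Real.rpow_le_rpow_of_exponent_le (by linarith) hN
  have h3 := Real.pow_div_factorial_le_exp (1 + Real.pi * u ^ 2) (by linarith) N
  rw [div_le_iff₀ (by positivity), Real.exp_add] at h3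
  rw [Real.rpow_natCast] at h2
  rw [Real.rpow_neg hu.le, Real.exp_neg, ← div_eq_mul_inv, le_div_iff₀ (by positivity),
    inv_mul_le_iff₀ (by positivity)]
  linarith

/-- Gaussian sum over a separated family that stays away from the origin. -/
theorem pack_gauss (ι : Type) [Fintype ι] {μ0 p : ℝ} (hμ0 : 0 < μ0) (hp : 0 ≤ p) :
    ∃ C : ℝ, 0 < C ∧ ∀ μ : ℝ, μ0 ≤ μ → ∀ (κ : Type) (t : Finset κ) (z : κ → ι → ℝ),
      (∀ a ∈ t, ∀ b ∈ t, a ≠ b → μ ≤ ‖z a - z b‖) → (∀ a ∈ t, μ ≤ ‖z a‖) →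
      ∑ a ∈ t, Real.exp (-(Real.pi * ∑ i, z a i ^ 2)) ≤ C * μ ^ (-p) := by
  obtain ⟨C, hC, h⟩ := pack ι (s := Fintype.card ι + 1) (by linarith)
  set q : ℝ := Fintype.card ι + 1 with hq
  have hq0 : 0 ≤ q := by positivity
  obtain ⟨K, hK, hK'⟩ := rpack_exp (q := p + q) (by positivity)
  refine ⟨K * μ0 ^ (-q) * 2 ^ q * C, by positivity, fun μ hμ κ t z hz hz0 => ?_⟩
  have hμ' : 0 < μ := hμ0.trans_le hμ
  have h1 := h 1 one_pos le_rfl κ t (fun a => μ⁻¹ • z a) fun a ha b hb hab => by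
    rw [← smul_sub, norm_smul, norm_inv, Real.norm_of_nonneg hμ'.le, le_inv_mul_iff₀ hμ', mul_one]
    exact hz a ha b hb hab
  rw [Real.one_rpow, mul_one] at h1
  have h2 : ∀ a ∈ t, Real.exp (-(Real.pi * ∑ i, z a i ^ 2)) ≤
      K * μ0 ^ (-q) * 2 ^ q * μ ^ (-p) * (1 + ‖μ⁻¹ • z a‖) ^ (-q) := fun a ha => by
    have hu : 0 < ‖z a‖ := hμ'.trans_le (hz0 a ha)
    have h3 : ‖z a‖ ^ 2 ≤ ∑ i, z a i ^ 2 := by
      have h4 : 0 ≤ ∑ i, z a i ^ 2 := Finset.sum_nonneg fun i _ => sq_nonneg _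
      have h5 : ‖z a‖ ≤ √(∑ i, z a i ^ 2) := by
        refine (pi_norm_le_iff_of_nonneg (Real.sqrt_nonneg _)).2 fun i => ?_
        exact Real.abs_le_sqrt (Finset.single_le_sum (f := fun i => z a i ^ 2)
          (fun i _ => sq_nonneg _) (Finset.mem_univ i))
      exact (Real.le_sqrt hu.le h4).1 h5
    have h4 : Real.exp (-(Real.pi * ∑ i, z a i ^ 2)) ≤ Real.exp (-(Real.pi * ‖z a‖ ^ 2)) :=
      Real.exp_le_exp.2 (neg_le_neg (mul_le_mul_of_nonneg_left h3 Real.pi_pos.le))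
    have hr : ‖μ⁻¹ • z a‖ = μ⁻¹ * ‖z a‖ := by
      rw [norm_smul, norm_inv, Real.norm_of_nonneg hμ'.le]
    have hr1 : 1 ≤ μ⁻¹ * ‖z a‖ := by
      rw [le_inv_mul_iff₀ hμ', mul_one]
      exact hz0 a ha
    have h5 : ‖z a‖ ^ (-p) ≤ μ ^ (-p) :=
      Real.rpow_le_rpow_of_nonpos hμ' (hz0 a ha) (by linarith)
    have h6 : ‖z a‖ ^ (-q) ≤ μ0 ^ (-q) * 2 ^ q * (1 + μ⁻¹ * ‖z a‖) ^ (-q) := by
      have e : (2:ℝ) ^ q = (2⁻¹) ^ (-q) := by
        rw [Real.inv_rpow zero_le_two, Real.rpow_neg zero_le_two, inv_inv]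
      rw [e, ← Real.mul_rpow hμ0.le (by positivity), ← Real.mul_rpow (by positivity)
        (by positivity)]
      refine Real.rpow_le_rpow_of_nonpos (by positivity) ?_ (by linarith)
      have h7 : ‖z a‖ = μ * (μ⁻¹ * ‖z a‖) := by field_simp
      have h8 : μ0 * (μ⁻¹ * ‖z a‖) ≤ μ * (μ⁻¹ * ‖z a‖) :=
        mul_le_mul_of_nonneg_right hμ (by positivity)
      nlinarith
    refine h4.trans ((hK' _ hu).trans ?_)
    rw [neg_add, Real.rpow_add hu, hr]
    calc K * (‖z a‖ ^ (-p) * ‖z a‖ ^ (-q))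
        ≤ K * (μ ^ (-p) * (μ0 ^ (-q) * 2 ^ q * (1 + μ⁻¹ * ‖z a‖) ^ (-q))) := by gcongr
      _ = _ := by ring
  refine (Finset.sum_le_sum h2).trans ?_
  rw [← Finset.mul_sum]
  calc _ ≤ K * μ0 ^ (-q) * 2 ^ q * μ ^ (-p) * C := by gcongr
    _ = _ := by ring

theorem mink_matrix {ι : Type} [Fintype ι] [DecidableEq ι] [Nonempty ι] (G : Matrix ι ι ℝ)
    (t : ι → ℝ) (ht : ∀ i, 0 < t i) (h : |G.det| < ∏ i, t i) :
    ∃ m : ι → ℤ, m ≠ 0 ∧ ∀ i, |(G *ᵥ fun j => (m j : ℝ)) i| < t i := by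
  set box : Set (ι → ℝ) := Set.pi Set.univ fun i => Set.Ioo (-t i) (t i) with hbox
  set S : Set (ι → ℝ) := Matrix.toLin' G ⁻¹' box with hS
  have hmem : ∀ x, x ∈ S ↔ ∀ i, |(G *ᵥ x) i| < t i := fun x => by
    simp only [hS, hbox, Set.mem_preimage, Set.mem_pi, Set.mem_univ, true_imp_iff, Set.mem_Ioo,
      Matrix.toLin'_apply, abs_lt]
  have hvol : 2 ^ Fintype.card ι < MeasureTheory.volume S := by
    by_cases hG : G.det = 0
    · obtain ⟨v, hv, hGv⟩ := Matrix.exists_mulVec_eq_zero_iff.2 hG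
      obtain ⟨j, hj⟩ := Function.ne_iff.1 hv
      have hj' : v j ≠ 0 := hj
      set A : Matrix ι ι ℝ := (1 : Matrix ι ι ℝ).updateCol j (Pi.single j 1 + (v j)⁻¹ • v) with hA
      have hdet : A.det = 2 := by
        rw [hA, ← Matrix.cramer_apply, Matrix.cramer_one]
        simp [hj']
        norm_num
      have hGA : G * A = G := by
        rw [hA, Matrix.mul_updateCol, Matrix.mul_one, Matrix.mulVec_add, Matrix.mulVec_smul, hGv,
          smul_zero, add_zero, Matrix.mulVec_single_one]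
        exact Matrix.updateCol_eq_self G j
      have h1 : Matrix.toLin' A ⁻¹' S = S := by
        ext x
        rw [Set.mem_preimage, hmem, hmem, Matrix.toLin'_apply, Matrix.mulVec_mulVec, hGA]
      have h2 := MeasureTheory.Measure.addHaar_preimage_linearMap MeasureTheory.volume
        (f := Matrix.toLin' A) (by rw [LinearMap.det_toLin', hdet]; norm_num) S
      rw [h1, LinearMap.det_toLin', hdet] at h2
      have hopen : IsOpen S := (isOpen_set_pi Set.finite_univ fun i _ => isOpen_Ioo).preimage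
        (LinearMap.continuous_of_finiteDimensional _)
      have h3 : MeasureTheory.volume S ≠ 0 := hopen.measure_ne_zero _
        ⟨0, (hmem 0).2 fun i => by simpa using ht i⟩
      have h4 : MeasureTheory.volume S = ⊤ := by
        by_contra h4
        have h5 := congrArg ENNReal.toReal h2
        rw [ENNReal.toReal_mul, ENNReal.toReal_ofReal (abs_nonneg _),
          abs_of_pos (by norm_num)] at h5
        have h6 := ENNReal.toReal_pos h3 h4
        linarith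
      rw [h4]
      exact ENNReal.pow_lt_top ENNReal.ofNat_lt_top
    · have hd : 0 < |G.det| := abs_pos.2 hG
      rw [hS, MeasureTheory.Measure.addHaar_preimage_linearMap _ (by rwa [LinearMap.det_toLin']),
        LinearMap.det_toLin', hbox, Real.volume_pi_Ioo,
        ← ENNReal.ofReal_prod_of_nonneg fun i _ => by linarith [ht i],
        ← ENNReal.ofReal_mul (abs_nonneg _), ← ENNReal.ofReal_ofNat,
        ← ENNReal.ofReal_pow zero_le_two, ENNReal.ofReal_lt_ofReal_iff_of_nonneg (by positivity),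
        abs_inv, lt_inv_mul_iff₀ hd]
      have e : ∏ i, (t i - -t i) = (∏ i, t i) * 2 ^ Fintype.card ι := by
        rw [← Finset.card_univ, ← Finset.prod_const, ← Finset.prod_mul_distrib]
        exact Finset.prod_congr rfl fun i _ => by ring
      rw [e]
      exact mul_lt_mul_of_pos_right h (by positivity)
  have : Countable (Submodule.span ℤ (Set.range (Pi.basisFun ℝ ι))).toAddSubgroup :=
    inferInstanceAs (Countable (Submodule.span ℤ (Set.range (Pi.basisFun ℝ ι))))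
  obtain ⟨x, hx0, hx⟩ :=
    MeasureTheory.exists_ne_zero_mem_lattice_of_measure_mul_two_pow_lt_measure (s := S)
      (ZSpan.isAddFundamentalDomain' (Pi.basisFun ℝ ι) MeasureTheory.volume)
      (fun x hx => by
        rw [hmem] at hx ⊢
        intro i
        rw [Matrix.mulVec_neg, Pi.neg_apply, abs_neg]
        exact hx i)
      ((convex_pi fun i _ => convex_Ioo _ _).linear_preimage _)
      (by
        rw [ZSpan.fundamentalDomain_pi_basisFun, Real.volume_pi_Ico,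
          Module.finrank_fintype_fun_eq_card]
        simpa using hvol)
  choose m hm using ((Pi.basisFun ℝ ι).mem_span_iff_repr_mem ℤ x.1).1 x.2
  have e : (fun j => (m j : ℝ)) = x.1 := funext fun j => by simpa using hm j
  refine ⟨m, fun h0 => hx0 (Subtype.ext ?_), ?_⟩
  · rw [← e, h0]
    funext j
    simp
  · rw [e]
    exact (hmem _).1 hx

theorem mink_frame {W : Type} [AddCommGroup W] [Module ℚ W] {β : LinearMap.BilinForm ℚ W}
    {ι : Type} [Fintype ι] [DecidableEq ι] [Nonempty ι] {ε : ι → ℝ} {Φ : W →+ ι → ℝ}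
    (h : RealFrame β ε Φ) {X : AddSubgroup W} (hX : Full X) (T : Matrix ι ι ℝ) (t : ι → ℝ)
    (ht : ∀ i, 0 < t i) (hlt : |T.det| * cov β X < ∏ i, t i) :
    ∃ x ∈ X, x ≠ 0 ∧ ∀ i, |(T *ᵥ Φ x) i| < t i := by
  obtain ⟨b, rfl⟩ := hX.exists_basis ι h.card
  obtain ⟨m, hm0, hm⟩ := mink_matrix (T * Matrix.of fun i j => Φ (b j) i) t ht (by
    rwa [Matrix.det_mul, abs_mul, h.abs_det])
  refine ⟨∑ i, m i • b i, (mem_closure_basis b _).2 ⟨m, rfl⟩, fun h0 => hm0 ?_, fun i => ?_⟩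
  · funext i
    have h1 := Fintype.linearIndependent_iff.1 b.linearIndependent (fun i => (m i : ℚ))
      (by simpa only [Int.cast_smul_eq_zsmul] using h0) i
    exact_mod_cast h1
  · have e : Φ (∑ i, m i • b i) = (Matrix.of fun i j => Φ (b j) i) *ᵥ fun j => (m j : ℝ) := by
      funext k
      simp [map_sum, Matrix.mulVec, dotProduct, mul_comm]
    rw [e, Matrix.mulVec_mulVec]
    exact hm i

/-- If a lattice has no short vector, then its vectors of bounded length span the space; the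
bound depends only on the covolume and on the minimum. -/
theorem span_short (ι : Type) [Fintype ι] [DecidableEq ι] [Nonempty ι] {μ c : ℝ} (hμ : 0 < μ) :
    ∃ R : ℝ, ∀ (W : Type) [AddCommGroup W] [Module ℚ W] (β : LinearMap.BilinForm ℚ W)
      (ε : ι → ℝ) (Φ : W →+ ι → ℝ), β.Nondegenerate → RealFrame β ε Φ →
      ∀ X : AddSubgroup W, Full X → cov β X ≤ c → (∀ x ∈ X, x ≠ 0 → μ ≤ ‖Φ x‖) →
      Submodule.span ℚ {x | x ∈ X ∧ ‖Φ x‖ ≤ R} = ⊤ := by
  have hD : (1:ℝ) ≤ Fintype.card ι := by exact_mod_cast Fintype.card_pos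
  set e : ℝ := μ / Fintype.card ι with he
  have he0 : 0 < e := by positivity
  have heμ : Fintype.card ι * e = μ := by rw [he]; field_simp
  have heμ' : e ≤ μ := by nlinarith
  set L : ℝ := (|c| + 1) / e ^ Fintype.card ι with hL
  have hL0 : 0 < L := by positivity
  refine ⟨e * L + μ, fun W _ _ β ε Φ hβ hΦ X hX hc hμX => ?_⟩
  by_contra hne
  have : Module.Finite ℚ W := Module.Finite.of_basis hX.choose
  obtain ⟨g, hg0, hg⟩ := Submodule.exists_le_ker_of_lt_top _ (lt_top_iff_ne_top.2 hne)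
  obtain ⟨w, rfl⟩ := (β.toDual hβ).surjective g
  have hw : Φ w ≠ 0 := fun h0 => hg0 (by
    rw [hΦ.injective hβ (h0.trans (map_zero Φ).symm), map_zero])
  have hε : ∀ i, |ε i| = 1 := fun i => by rcases hΦ.sign i with h | h <;> simp [h]
  obtain ⟨j, -, hj⟩ := Finset.exists_max_image Finset.univ (fun i => |Φ w i|) Finset.univ_nonempty
  have hj0 : 0 < |Φ w j| := by
    obtain ⟨i, hi⟩ := Function.ne_iff.1 hw
    exact (abs_pos.2 hi).trans_le (hj i (Finset.mem_univ i))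
  set n : ι → ℝ := fun i => ε i * Φ w i / |Φ w j| with hn
  have hn1 : ∀ i, |n i| ≤ 1 := fun i => by
    rw [hn]
    simp only [abs_div, abs_mul, hε, one_mul, abs_abs]
    exact (div_le_one hj0).2 (hj i (Finset.mem_univ i))
  have hnj : |n j| = 1 := by
    rw [hn]
    simp only [abs_div, abs_mul, hε, one_mul, abs_abs]
    exact div_self hj0.ne'
  obtain ⟨x, hxX, hx0, hx⟩ := mink_frame hΦ hX ((1 : Matrix ι ι ℝ).updateRow j n)
    (fun i => e * if i = j then L else 1) (fun i => by split_ifs <;> positivity) (by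
      have h1 : ((1 : Matrix ι ι ℝ).updateRow j n).det = n j := by
        rw [← Matrix.cramer_transpose_apply, Matrix.transpose_one, Matrix.cramer_one]
        rfl
      rw [h1, hnj, one_mul, Finset.prod_mul_distrib, Finset.prod_const, Finset.card_univ,
        Finset.prod_ite_eq', if_pos (Finset.mem_univ j), hL, mul_div_cancel₀ _ (by positivity)]
      linarith [le_abs_self c])
  have h1 : ∀ i, i ≠ j → |Φ x i| < e := fun i hi => by
    have h2 := hx i
    rw [if_neg hi, mul_one, Matrix.updateRow_mulVec, Function.update_of_ne hi,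
      Matrix.one_mulVec] at h2
    exact h2
  have h2 : |n ⬝ᵥ Φ x| < e * L := by
    have h2 := hx j
    rwa [if_pos rfl, Matrix.updateRow_mulVec, Function.update_self] at h2
  have h3 : |Φ x j| + e ≤ |n ⬝ᵥ Φ x| + μ := by
    have h4 : n j * Φ x j = n ⬝ᵥ Φ x - ∑ i ∈ Finset.univ.erase j, n i * Φ x i := by
      rw [dotProduct, ← Finset.add_sum_erase _ _ (Finset.mem_univ j)]
      ring
    have h5 : |∑ i ∈ Finset.univ.erase j, n i * Φ x i| ≤ ∑ _i ∈ Finset.univ.erase j, e := by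
      refine (Finset.abs_sum_le_sum_abs _ _).trans (Finset.sum_le_sum fun i hi => ?_)
      rw [abs_mul]
      have h6 := h1 i (Finset.ne_of_mem_erase hi)
      nlinarith [hn1 i, abs_nonneg (n i), abs_nonneg (Φ x i)]
    have h6 := Finset.add_sum_erase Finset.univ (fun _ : ι => e) (Finset.mem_univ j)
    rw [Finset.sum_const (s := Finset.univ), Finset.card_univ, nsmul_eq_mul, heμ] at h6
    have h7 : |n j * Φ x j| = |Φ x j| := by rw [abs_mul, hnj, one_mul]
    have h8 := abs_sub (n ⬝ᵥ Φ x) (∑ i ∈ Finset.univ.erase j, n i * Φ x i)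
    rw [← h4, h7] at h8
    linarith
  have h4 : ‖Φ x‖ ≤ e * L + μ := by
    refine (pi_norm_le_iff_of_nonneg (by positivity)).2 fun i => ?_
    rw [Real.norm_eq_abs]
    by_cases hi : i = j
    · rw [hi]
      linarith
    · have := h1 i hi
      have := mul_pos he0 hL0
      linarith
  have h5 : β w x = 0 := hg (Submodule.subset_span ⟨hxX, h4⟩)
  have h6 : n ⬝ᵥ Φ x = 0 := by
    have h7 := hΦ.form w x
    rw [h5, Rat.cast_zero] at h7
    have h8 : n ⬝ᵥ Φ x = (∑ i, ε i * (Φ w i * Φ x i)) / |Φ w j| := by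
      rw [dotProduct, Finset.sum_div]
      exact Finset.sum_congr rfl fun i _ => by rw [hn]; ring
    rw [h8, h7, zero_div]
  rw [h6, abs_zero] at h3
  refine absurd (hμX x hxX hx0) (not_le.2 ((pi_norm_lt_iff hμ).2 fun i => ?_))
  rw [Real.norm_eq_abs]
  by_cases hi : i = j
  · rw [hi]
    linarith
  · exact (h1 i hi).trans_le heμ'

end Pool.Agent.Work.MP_c8d35c_al
end

-- merged part: Pool.Agent.Work.MP_c8d35c_al.REmb
section
/-! Real embeddings of a totally real field; the inverse different; denominators. -/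

namespace Pool.Agent.Work.MP_c8d35c_al

set_option linter.unusedSectionVars false

open NumberField Module

/-- The real embeddings. -/
abbrev Emb (K : Type) [Field K] := K →+* ℝ

variable {K : Type} [Field K] [NumberField K]

/-- The Minkowski embedding. -/
def emb (κ : K) : Emb K → ℝ := fun σ => σ κ

lemma emb_add (a b : K) : emb (a + b) = emb a + emb b := by
  funext σ; simp [emb]

/-- The Minkowski embedding as an additive map. -/
def embHom (K : Type) [Field K] : K →+ Emb K → ℝ where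
  toFun κ := fun σ => σ κ
  map_zero' := by funext σ; simp
  map_add' a b := by funext σ; simp

/-- The absolute value of the discriminant. -/
noncomputable def dsc (K : Type) [Field K] [NumberField K] : ℝ := |(discr K : ℝ)|

lemma one_le_dsc : 1 ≤ dsc K := by
  have h : (1 : ℤ) ≤ |discr K| := Int.one_le_abs (discr_ne_zero K)
  unfold dsc
  exact_mod_cast h

/-- The norm of an ideal as a real number. -/
noncomputable def nm (𝔞 : Ideal (𝓞 K)) : ℝ := (Ideal.absNorm 𝔞 : ℝ)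

lemma one_le_nm {𝔞 : Ideal (𝓞 K)} (h : 𝔞 ≠ ⊥) : 1 ≤ nm 𝔞 := by
  have : Ideal.absNorm 𝔞 ≠ 0 := fun h0 => h (Ideal.absNorm_eq_zero_iff.1 h0)
  unfold nm
  exact_mod_cast Nat.one_le_iff_ne_zero.2 this

lemma nm_mul (𝔞 𝔟 : Ideal (𝓞 K)) : nm (𝔞 * 𝔟) = nm 𝔞 * nm 𝔟 := by simp [nm]

lemma nm_top : nm (⊤ : Ideal (𝓞 K)) = 1 := by simp [nm]

lemma nm_bot : nm (⊥ : Ideal (𝓞 K)) = 0 := by simp [nm]

/-- An ideal as an additive subgroup of `K`. -/
def idealA (𝔞 : Ideal (𝓞 K)) : AddSubgroup K :=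
  𝔞.toAddSubgroup.map (algebraMap (𝓞 K) K).toAddMonoidHom

lemma mem_idealA {𝔞 : Ideal (𝓞 K)} {x : K} : x ∈ idealA 𝔞 ↔ ∃ z ∈ 𝔞, (z : K) = x := Iff.rfl

/-- The inverse different. -/
noncomputable def Od (K : Type) [Field K] [NumberField K] : AddSubgroup K :=
  dualA (Algebra.traceForm ℚ K) (idealA ⊤)

lemma mem_Od {a : K} : a ∈ Od K ↔ ∀ z : 𝓞 K, ∃ k : ℤ, Algebra.trace ℚ K ((z : K) * a) = k := by
  constructor
  · intro h z
    exact h z ⟨z, trivial, rfl⟩
  · rintro h _ ⟨z, -, rfl⟩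
    exact h z

lemma mul_mem_Od (z : 𝓞 K) {a : K} (h : a ∈ Od K) : (z : K) * a ∈ Od K := by
  rw [mem_Od] at h ⊢
  intro w
  obtain ⟨k, hk⟩ := h (w * z)
  exact ⟨k, by rw [← hk, ← mul_assoc]; simp⟩

theorem trace_int (z : 𝓞 K) : ∃ k : ℤ, Algebra.trace ℚ K (z : K) = k := by
  exact ⟨Algebra.trace ℤ _ z, (Algebra.coe_trace_int z).symm⟩

lemma int_mem_Od (z : 𝓞 K) : (z : K) ∈ Od K := by
  rw [mem_Od]
  intro w
  simpa using trace_int (w * z)

theorem remb_top : idealA (⊤ : Ideal (𝓞 K)) = AddSubgroup.closure (Set.range (integralBasis K)) := by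
  ext x
  rw [← Submodule.span_int_eq_addSubgroupClosure, Submodule.mem_toAddSubgroup,
    mem_span_integralBasis, mem_idealA]
  exact ⟨fun ⟨z, _, hz⟩ => ⟨z, hz⟩, fun ⟨z, hz⟩ => ⟨z, trivial, hz⟩⟩

theorem remb_full_top : Full (idealA (⊤ : Ideal (𝓞 K))) := by
  rw [remb_top]
  exact full_of_basis _

theorem remb_le_top (𝔞 : Ideal (𝓞 K)) : idealA 𝔞 ≤ idealA ⊤ :=
  fun _ ⟨z, _, hz⟩ => ⟨z, trivial, hz⟩

theorem remb_sqrt_pos : 0 < √(dsc K) := Real.sqrt_pos.2 (one_pos.trans_le one_le_dsc)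

theorem remb_cov_top : cov (Algebra.traceForm ℚ K) (idealA ⊤) = √(dsc K) := by
  classical
  rw [remb_top, cov_basis, ← Algebra.traceMatrix_of_basis, ← Algebra.discr_def, ← coe_discr,
    Rat.cast_intCast, dsc]

theorem full_idealA {𝔞 : Ideal (𝓞 K)} (h : 𝔞 ≠ ⊥) : Full (idealA 𝔞) := by
  refine (full_iff _).2 ⟨RLat_fg_of_le (RLat_fg remb_full_top) (remb_le_top 𝔞), ?_⟩
  rw [eq_top_iff]
  intro y _
  obtain ⟨c, hc, z, -, hz⟩ := (remb_full_top (K := K)).exists_nsmul_mem y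
  have hz' : (z : K) = c • y := hz
  have hN : Ideal.absNorm 𝔞 ≠ 0 := fun h0 => h (Ideal.absNorm_eq_zero_iff.1 h0)
  have h1 : ((Ideal.absNorm 𝔞 : K) * z) ∈ idealA 𝔞 :=
    ⟨_, 𝔞.mul_mem_right z (Ideal.absNorm_mem 𝔞), by simp⟩
  have h2 : y = ((Ideal.absNorm 𝔞 * c : ℕ) : ℚ)⁻¹ • ((Ideal.absNorm 𝔞 : K) * z) := by
    have h3 : (Ideal.absNorm 𝔞 : K) ≠ 0 := Nat.cast_ne_zero.2 hN
    have h4 : (c : K) ≠ 0 := Nat.cast_ne_zero.2 hc.ne'
    rw [hz', Rat.smul_def, nsmul_eq_mul]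
    push_cast
    field_simp
  rw [h2]
  exact Submodule.smul_mem _ _ (Submodule.subset_span h1)

theorem full_Od : Full (Od K) := by
  exact remb_full_top.dual (traceForm_nondegenerate ℚ K)

theorem cov_idealA {𝔞 : Ideal (𝓞 K)} (h : 𝔞 ≠ ⊥) :
    cov (Algebra.traceForm ℚ K) (idealA 𝔞) = nm 𝔞 * √(dsc K) := by
  rw [cov_of_le _ (full_idealA h) remb_full_top (remb_le_top 𝔞), remb_cov_top, idealA, idealA,
    AddSubgroup.relIndex_map_map_of_injective _ _ (FaithfulSMul.algebraMap_injective (𝓞 K) K),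
    Submodule.top_toAddSubgroup, AddSubgroup.relIndex_top_right]
  rfl

theorem cov_Od : cov (Algebra.traceForm ℚ K) (Od K) = 1 / √(dsc K) := by
  have h := cov_mul_cov_dual (traceForm_nondegenerate ℚ K) (Algebra.traceForm_isSymm ℚ)
    (remb_full_top (K := K))
  rw [remb_cov_top] at h
  rw [eq_div_iff remb_sqrt_pos.ne', mul_comm]
  exact h

open nonZeroDivisors in
theorem remb_mem_dual {a : K} :
    a ∈ FractionalIdeal.dual ℤ ℚ (1 : FractionalIdeal (𝓞 K)⁰ K) ↔ a ∈ Od K := by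
  rw [FractionalIdeal.mem_dual (one_ne_zero : (1 : FractionalIdeal (𝓞 K)⁰ K) ≠ 0), mem_Od]
  constructor
  · intro h z
    obtain ⟨k, hk⟩ := h z ((FractionalIdeal.mem_one_iff _).2 ⟨z, rfl⟩)
    exact ⟨k, by rw [mul_comm]; exact hk.symm⟩
  · intro h x hx
    obtain ⟨z, rfl⟩ := (FractionalIdeal.mem_one_iff _).1 hx
    obtain ⟨k, hk⟩ := h z
    exact ⟨k, by rw [Algebra.traceForm_apply, mul_comm]; exact hk.symm⟩

theorem remb_collect (𝔡 : Ideal (𝓞 K)) {x y : K}
    (hx : ∃ (s : Finset (𝓞 K)) (a : 𝓞 K → K), (∀ c ∈ s, c ∈ 𝔡 ∧ a c ∈ Od K) ∧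
      ∑ c ∈ s, (c : K) * a c = x)
    (hy : ∃ (s : Finset (𝓞 K)) (a : 𝓞 K → K), (∀ c ∈ s, c ∈ 𝔡 ∧ a c ∈ Od K) ∧
      ∑ c ∈ s, (c : K) * a c = y) :
    ∃ (s : Finset (𝓞 K)) (a : 𝓞 K → K), (∀ c ∈ s, c ∈ 𝔡 ∧ a c ∈ Od K) ∧
      ∑ c ∈ s, (c : K) * a c = x + y := by
  classical
  obtain ⟨s, a, h1, rfl⟩ := hx
  obtain ⟨t, b, h2, rfl⟩ := hy
  refine ⟨s ∪ t, fun c => (if c ∈ s then a c else 0) + if c ∈ t then b c else 0,
    fun c hc => ⟨?_, add_mem ?_ ?_⟩, ?_⟩
  · rcases Finset.mem_union.1 hc with h | h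
    exacts [(h1 c h).1, (h2 c h).1]
  · split_ifs with h
    exacts [(h1 c h).2, zero_mem _]
  · split_ifs with h
    exacts [(h2 c h).2, zero_mem _]
  · simp only [mul_add, Finset.sum_add_distrib, mul_ite, mul_zero, Finset.sum_ite_mem,
      Finset.union_inter_cancel_left, Finset.union_inter_cancel_right]

/-- The different: an ideal `𝔡` of norm `|disc|` with `𝔡 · Od = 𝓞`. -/
theorem exists_different : ∃ 𝔡 : Ideal (𝓞 K), 𝔡 ≠ ⊥ ∧ nm 𝔡 = dsc K ∧
    (∀ c ∈ 𝔡, ∀ a ∈ Od K, ∃ z : 𝓞 K, (c : K) * a = z) ∧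
    ∃ (s : Finset (𝓞 K)) (a : 𝓞 K → K), (∀ c ∈ s, c ∈ 𝔡 ∧ a c ∈ Od K) ∧
      ∑ c ∈ s, (c : K) * a c = 1 := by
  have hd := coeIdeal_differentIdeal ℤ ℚ K (𝓞 K)
  have h0 := FractionalIdeal.dual_ne_zero ℤ ℚ
    (one_ne_zero : (1 : FractionalIdeal (nonZeroDivisors (𝓞 K)) K) ≠ 0)
  have h1 : ((differentIdeal ℤ (𝓞 K) : Ideal (𝓞 K)) : FractionalIdeal (nonZeroDivisors (𝓞 K)) K) *
      FractionalIdeal.dual ℤ ℚ 1 = 1 := by rw [hd, inv_mul_cancel₀ h0]
  refine ⟨differentIdeal ℤ (𝓞 K), ?_, ?_, fun c hc a ha => ?_, ?_⟩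
  · intro h
    rw [h] at h1
    simp at h1
  · rw [nm, absNorm_differentIdeal K, dsc, Nat.cast_natAbs, Int.cast_abs]
  · have h2 := FractionalIdeal.mul_mem_mul
      (FractionalIdeal.mem_coeIdeal_of_mem (nonZeroDivisors (𝓞 K)) (P := K) hc)
      (remb_mem_dual.2 ha)
    rw [h1] at h2
    obtain ⟨z, hz⟩ := (FractionalIdeal.mem_one_iff _).1 h2
    exact ⟨z, hz.symm⟩
  · have h2 : (1 : K) ∈ ((differentIdeal ℤ (𝓞 K) : Ideal (𝓞 K)) :
        FractionalIdeal (nonZeroDivisors (𝓞 K)) K) * FractionalIdeal.dual ℤ ℚ 1 := by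
      rw [h1]
      exact FractionalIdeal.one_mem_one _
    refine FractionalIdeal.mul_induction_on (C := fun x => ∃ (s : Finset (𝓞 K)) (a : 𝓞 K → K),
      (∀ c ∈ s, c ∈ differentIdeal ℤ (𝓞 K) ∧ a c ∈ Od K) ∧ ∑ c ∈ s, (c : K) * a c = x) h2
      (fun i hi j hj => ?_) fun x y hx hy => remb_collect _ hx hy
    obtain ⟨c, hc, rfl⟩ := (FractionalIdeal.mem_coeIdeal _).1 hi
    refine ⟨{c}, fun _ => j, fun c' hc' => ⟨?_, remb_mem_dual.1 hj⟩, Finset.sum_singleton _ _⟩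
    rwa [Finset.mem_singleton.1 hc']

/-- Every non-zero ideal has a principal multiple. -/
theorem exists_mul_eq_span {𝔞 : Ideal (𝓞 K)} (h : 𝔞 ≠ ⊥) :
    ∃ (𝔟 : Ideal (𝓞 K)) (a : 𝓞 K), a ≠ 0 ∧ 𝔞 * 𝔟 = Ideal.span {a} := by
  obtain ⟨a, ha, h0⟩ := Submodule.exists_mem_ne_zero_of_ne_bot h
  obtain ⟨𝔟, hb⟩ := Ideal.dvd_iff_le.2 ((Ideal.span_singleton_le_iff_mem 𝔞).2 ha)
  exact ⟨𝔟, a, h0, hb.symm⟩

/-- The denominator ideal of `κ` with respect to the inverse different. -/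
noncomputable def den (κ : K) : Ideal (𝓞 K) where
  carrier := {c | (c : K) * κ ∈ Od K}
  zero_mem' := by simp
  add_mem' := by
    intro a b ha hb
    simpa [add_mul] using (Od K).add_mem ha hb
  smul_mem' := by
    intro c x hx
    simpa [mul_assoc] using mul_mem_Od c hx

lemma mem_den {κ : K} {c : 𝓞 K} : c ∈ den κ ↔ (c : K) * κ ∈ Od K := Iff.rfl

theorem den_ne_bot (κ : K) : den κ ≠ ⊥ := by
  obtain ⟨c, hc, h⟩ := (full_Od (K := K)).exists_nsmul_mem κ
  refine (Submodule.ne_bot_iff _).2 ⟨(c : 𝓞 K), ?_, Nat.cast_ne_zero.2 hc.ne'⟩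
  rw [mem_den]
  simpa [nsmul_eq_mul] using h

lemma den_add {κ a : K} (ha : a ∈ Od K) : den (κ + a) = den κ := by
  ext c
  rw [mem_den, mem_den, mul_add]
  exact (Od K).add_mem_cancel_right (mul_mem_Od c ha)

/-- At most `N 𝔠` classes modulo the inverse different have denominator `𝔠`. -/
theorem card_den_le {𝔠 : Ideal (𝓞 K)} (s : Finset (K ⧸ Od K)) (hs : ∀ q ∈ s, den q.out = 𝔠) :
    (s.card : ℝ) ≤ nm 𝔠 := by
  rcases s.eq_empty_or_nonempty with rfl | ⟨q0, hq0⟩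
  · simp [nm]
  have hc : 𝔠 ≠ ⊥ := hs q0 hq0 ▸ den_ne_bot _
  have hY := (full_idealA hc).dual (traceForm_nondegenerate ℚ K)
  have hle : Od K ≤ dualA (Algebra.traceForm ℚ K) (idealA 𝔠) := dualA_anti _ (remb_le_top 𝔠)
  have h1 := cov_of_le (Algebra.traceForm ℚ K) full_Od hY hle
  have h2 := cov_mul_cov_dual (traceForm_nondegenerate ℚ K) (Algebra.traceForm_isSymm ℚ)
    (full_idealA hc)
  rw [cov_Od, div_eq_iff remb_sqrt_pos.ne'] at h1
  rw [cov_idealA hc] at h2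
  have h3 : (((Od K).relIndex (dualA (Algebra.traceForm ℚ K) (idealA 𝔠)) : ℕ) : ℝ) = nm 𝔠 := by
    linear_combination (-nm 𝔠) * h1 -
      (((Od K).relIndex (dualA (Algebra.traceForm ℚ K) (idealA 𝔠)) : ℕ) : ℝ) * h2
  have hmem : ∀ q ∈ s, q.out ∈ dualA (Algebra.traceForm ℚ K) (idealA 𝔠) := by
    rintro q hq _ ⟨z, hz, rfl⟩
    have h4 : z ∈ den q.out := (hs q hq).symm ▸ hz
    simpa using mem_Od.1 (mem_den.1 h4) 1
  have hfin : Finite (dualA (Algebra.traceForm ℚ K) (idealA 𝔠) ⧸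
      (Od K).addSubgroupOf (dualA (Algebra.traceForm ℚ K) (idealA 𝔠))) :=
    Nat.finite_of_card_ne_zero (full_Od.relIndex_ne_zero hY)
  have h5 := Nat.card_le_card_of_injective (fun q : s =>
    (QuotientAddGroup.mk ⟨q.1.out, hmem q.1 q.2⟩ : dualA (Algebra.traceForm ℚ K) (idealA 𝔠) ⧸
      (Od K).addSubgroupOf (dualA (Algebra.traceForm ℚ K) (idealA 𝔠)))) fun q q' h => by
    have h6 := QuotientAddGroup.eq.1 h
    apply Subtype.ext
    rw [← QuotientAddGroup.out_eq' q.1, ← QuotientAddGroup.out_eq' q'.1]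
    exact QuotientAddGroup.eq.2 h6
  rw [Nat.card_eq_fintype_card, Fintype.card_coe] at h5
  rw [← h3]
  exact_mod_cast h5

variable [IsTotallyReal K]

/-- Real embeddings and complex embeddings of a totally real field. -/
noncomputable def rembEquiv (K : Type) [Field K] [NumberField K] [IsTotallyReal K] :
    Emb K ≃ (K →+* ℂ) where
  toFun σ := Complex.ofRealHom.comp σ
  invFun φ := (IsTotallyReal.complexEmbedding_isReal φ).embedding
  left_inv σ := by
    ext x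
    exact Complex.ofReal_re _
  right_inv φ := by
    ext x : 1
    exact (IsTotallyReal.complexEmbedding_isReal φ).coe_embedding_apply x

theorem remb_nonempty : Nonempty (Emb K) := (rembEquiv K).nonempty

theorem card_emb : Fintype.card (Emb K) = finrank ℚ K := by
  rw [Fintype.card_congr (rembEquiv K), Embeddings.card]

theorem sum_emb (x : K) : ∑ σ : Emb K, σ x = ((Algebra.trace ℚ K x : ℚ) : ℝ) := by
  apply Complex.ofReal_injective
  have h := trace_eq_sum_embeddings ℂ (K := ℚ) (L := K) (x := x)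
  rw [eq_ratCast] at h
  rw [Complex.ofReal_sum, Complex.ofReal_ratCast, h]
  exact Fintype.sum_equiv ((rembEquiv K).trans (RingHom.equivRatAlgHom K ℂ)) _ _ fun _ => rfl

theorem prod_emb (x : K) : ∏ σ : Emb K, σ x = ((Algebra.norm ℚ x : ℚ) : ℝ) := by
  apply Complex.ofReal_injective
  have h := Algebra.norm_eq_prod_embeddings ℚ ℂ x
  rw [eq_ratCast] at h
  rw [Complex.ofReal_prod, Complex.ofReal_ratCast, h]
  exact Fintype.prod_equiv ((rembEquiv K).trans (RingHom.equivRatAlgHom K ℂ)) _ _ fun _ => rfl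

theorem realFrame_emb : RealFrame (Algebra.traceForm ℚ K) (fun _ : Emb K => 1) (embHom K) := by
  refine ⟨card_emb, fun _ => Or.inl rfl, fun x y => ?_⟩
  rw [Algebra.traceForm_apply, ← sum_emb]
  refine Finset.sum_congr rfl fun σ _ => ?_
  rw [one_mul, map_mul]
  rfl

theorem nm_span (c : 𝓞 K) : nm (Ideal.span {c}) = ∏ σ : Emb K, |σ c| := by
  rw [← Finset.abs_prod, prod_emb, ← Algebra.coe_norm_int, nm, Ideal.absNorm_span_singleton,
    Nat.cast_natAbs, Rat.cast_intCast, Int.cast_abs]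

theorem nm_le_of_mem {𝔞 : Ideal (𝓞 K)} {c : 𝓞 K} (hc : c ∈ 𝔞) (h0 : c ≠ 0) :
    nm 𝔞 ≤ ∏ σ : Emb K, |σ c| := by
  rw [← nm_span, nm, nm, Nat.cast_le]
  refine Nat.le_of_dvd (Nat.pos_of_ne_zero fun h => h0 ?_)
    (Ideal.absNorm_dvd_absNorm_of_le ((Ideal.span_singleton_le_iff_mem 𝔞).2 hc))
  exact Ideal.span_singleton_eq_bot.1 (Ideal.absNorm_eq_zero_iff.1 h)

theorem one_le_prod_mul {𝔞 : Ideal (𝓞 K)} (h : 𝔞 ≠ ⊥) {z : K} (hz : z ≠ 0)
    (hi : ∀ c ∈ 𝔞, ∃ w : 𝓞 K, (c : K) * z = w) : 1 ≤ (∏ σ : Emb K, |σ z|) * nm 𝔞 := by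
  let f : K ≃ₗ[ℚ] K := LinearEquiv.ofBijective (LinearMap.mul ℚ K z) (mulLeft_bijective₀ z hz)
  have hf : LinearMap.det f.toLinearMap = Algebra.norm ℚ z := (Algebra.norm_apply ℚ z).symm
  have hle : (idealA 𝔞).map f.toLinearMap.toAddMonoidHom ≤ idealA ⊤ := by
    rintro _ ⟨_, ⟨c, hc, rfl⟩, rfl⟩
    obtain ⟨w, hw⟩ := hi c hc
    exact ⟨w, trivial, hw.symm.trans (mul_comm _ _)⟩
  have h1 := cov_of_le (Algebra.traceForm ℚ K) ((full_idealA h).map f) remb_full_top hle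
  rw [cov_map _ (full_idealA h), hf, cov_idealA h, remb_cov_top, ← mul_assoc] at h1
  rw [← Finset.abs_prod, prod_emb, mul_right_cancel₀ remb_sqrt_pos.ne' h1]
  exact_mod_cast Nat.one_le_iff_ne_zero.2
    (((full_idealA h).map f).relIndex_ne_zero remb_full_top)

theorem one_le_prod_Od {a : K} (ha : a ∈ Od K) (h0 : a ≠ 0) :
    1 ≤ (∏ σ : Emb K, |σ a|) * dsc K := by
  obtain ⟨𝔡, h1, h2, h3, -⟩ := exists_different (K := K)
  rw [← h2]
  exact one_le_prod_mul h1 h0 fun c hc => h3 c hc a ha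

theorem mink_ideal {𝔞 : Ideal (𝓞 K)} (h : 𝔞 ≠ ⊥) {t : Emb K → ℝ} (ht : ∀ σ, 0 < t σ)
    (hlt : nm 𝔞 * √(dsc K) < ∏ σ, t σ) : ∃ c ∈ 𝔞, c ≠ 0 ∧ ∀ σ : Emb K, |σ c| < t σ := by
  classical
  have := remb_nonempty (K := K)
  obtain ⟨_, ⟨c, hc, rfl⟩, h0, h1⟩ := mink_frame realFrame_emb (full_idealA h) 1 t ht
    (by rwa [Matrix.det_one, abs_one, one_mul, cov_idealA h])
  refine ⟨c, hc, fun e => h0 (by rw [e, map_zero]), fun σ => ?_⟩
  have h2 := h1 σ
  rwa [Matrix.one_mulVec] at h2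

omit [IsTotallyReal K] in
theorem remb_mulVec (b : Basis (Emb K) ℚ K) (m : Emb K → ℤ) (σ : Emb K) :
    Matrix.mulVec (Matrix.of fun i j => embHom K (b j) i) (fun j => (m j : ℝ)) σ =
      σ (∑ j, m j • b j) := by
  rw [map_sum, Matrix.mulVec, dotProduct]
  refine Finset.sum_congr rfl fun j _ => ?_
  rw [map_zsmul, zsmul_eq_mul, mul_comm]
  rfl

omit [IsTotallyReal K] in
theorem remb_eq_zero (b : Basis (Emb K) ℚ K) {m : Emb K → ℤ} (h : ∑ j, m j • b j = 0)
    (j : Emb K) : m j = 0 := by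
  have h1 := Fintype.linearIndependent_iff.1 b.linearIndependent (fun j => (m j : ℚ))
    (by simpa only [Int.cast_smul_eq_zsmul] using h) j
  exact_mod_cast h1

/-- Dirichlet's approximation theorem. -/
theorem dirichlet {y : Emb K → ℝ} (hy : ∀ σ, 0 < y σ)
    (h : 4 ^ finrank ℚ K * (∏ σ, y σ) * dsc K ^ 2 ≤ 1) (x : Emb K → ℝ) :
    ∃ (c : 𝓞 K) (a : K), c ≠ 0 ∧ a ∈ Od K ∧
      ∀ σ : Emb K, |σ c| ≤ 2 / √(y σ) ∧ |σ c * x σ - σ a| ≤ 2 * √(y σ) := by
  classical
  have := remb_nonempty (K := K)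
  obtain ⟨b1, h1⟩ := (remb_full_top (K := K)).exists_basis (Emb K) card_emb
  obtain ⟨b2, h2⟩ := (full_Od (K := K)).exists_basis (Emb K) card_emb
  have d1 := realFrame_emb.abs_det b1
  have d2 := realFrame_emb.abs_det b2
  rw [← h1, remb_cov_top] at d1
  rw [← h2, cov_Od] at d2
  have hs : ∀ σ, 0 < √(y σ) := fun σ => Real.sqrt_pos.2 (hy σ)
  obtain ⟨m, hm0, hm⟩ := mink_matrix (Matrix.fromBlocks (Matrix.of fun i j => embHom K (b1 j) i) 0
    (Matrix.diagonal x * Matrix.of fun i j => embHom K (b1 j) i)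
    (-Matrix.of fun i j => embHom K (b2 j) i))
    (Sum.elim (fun σ => 2 / √(y σ)) fun σ => 2 * √(y σ))
    (by
      rintro (σ | σ)
      · exact div_pos two_pos (hs σ)
      · exact mul_pos two_pos (hs σ))
    (by
      rw [Matrix.det_fromBlocks_zero₁₂, abs_mul, Matrix.det_neg, abs_mul, abs_pow, abs_neg, abs_one,
        one_pow, one_mul, d1, d2, mul_one_div_cancel remb_sqrt_pos.ne', Fintype.prod_sum_type,
        ← Finset.prod_mul_distrib]
      have h3 : ∀ σ, Sum.elim (fun σ => 2 / √(y σ)) (fun σ => 2 * √(y σ)) (Sum.inl σ) *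
          Sum.elim (fun σ => 2 / √(y σ)) (fun σ => 2 * √(y σ)) (Sum.inr σ) = 4 := fun σ => by
        have := (hs σ).ne'
        rw [Sum.elim_inl, Sum.elim_inr]
        field_simp
        norm_num
      simp only [h3, Finset.prod_const]
      exact one_lt_pow₀ (by norm_num) (Finset.card_ne_zero_of_mem (Finset.mem_univ this.some)))
  obtain ⟨c, -, hc⟩ : ∑ j, m (Sum.inl j) • b1 j ∈ idealA (⊤ : Ideal (𝓞 K)) := by
    rw [h1, mem_closure_basis]
    exact ⟨_, rfl⟩
  have hc' : (c : K) = ∑ j, m (Sum.inl j) • b1 j := hc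
  have ha : ∑ j, m (Sum.inr j) • b2 j ∈ Od K := by
    rw [h2, mem_closure_basis]
    exact ⟨_, rfl⟩
  have k1 : ∀ σ : Emb K, |σ c| < 2 / √(y σ) := fun σ => by
    have h3 := hm (Sum.inl σ)
    rw [Matrix.fromBlocks_mulVec, Sum.elim_inl, Sum.elim_inl, Matrix.zero_mulVec, add_zero] at h3
    rw [hc', ← remb_mulVec]
    exact h3
  have k2 : ∀ σ : Emb K, |σ c * x σ - σ (∑ j, m (Sum.inr j) • b2 j)| < 2 * √(y σ) := fun σ => by
    have h3 := hm (Sum.inr σ)
    rw [Matrix.fromBlocks_mulVec, Sum.elim_inr, Sum.elim_inr, Matrix.neg_mulVec,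
      ← Matrix.mulVec_mulVec, Pi.add_apply, Matrix.mulVec_diagonal, Pi.neg_apply,
      ← sub_eq_add_neg, mul_comm (x σ)] at h3
    rw [hc', ← remb_mulVec, ← remb_mulVec]
    exact h3
  refine ⟨c, _, fun e => ?_, ha, fun σ => ⟨(k1 σ).le, (k2 σ).le⟩⟩
  have e' : (c : K) = 0 := by rw [e]; rfl
  have a0 : ∑ j, m (Sum.inr j) • b2 j ≠ 0 := fun e2 => hm0 (funext fun j => by
    rcases j with j | j
    · exact remb_eq_zero b1 (hc'.symm.trans e') j
    · exact remb_eq_zero b2 e2 j)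
  have h3 := one_le_prod_Od ha a0
  have h4 : ∏ σ : Emb K, |σ (∑ j, m (Sum.inr j) • b2 j)| < ∏ σ : Emb K, 2 * √(y σ) := by
    refine Finset.prod_lt_prod_of_nonempty (fun σ _ => abs_pos.2 ((map_ne_zero σ).2 a0))
      (fun σ _ => ?_) Finset.univ_nonempty
    have h5 := k2 σ
    rwa [e', map_zero, zero_mul, zero_sub, abs_neg] at h5
  have h5 : ((∏ σ : Emb K, 2 * √(y σ)) * dsc K) ^ 2 =
      4 ^ finrank ℚ K * (∏ σ, y σ) * dsc K ^ 2 := by
    rw [mul_pow, ← Finset.prod_pow, ← card_emb, ← Finset.card_univ, ← Finset.prod_const,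
      ← Finset.prod_mul_distrib]
    congr 1
    refine Finset.prod_congr rfl fun σ _ => ?_
    rw [mul_pow, Real.sq_sqrt (hy σ).le]
    norm_num
  have h6 : 1 < (∏ σ : Emb K, 2 * √(y σ)) * dsc K :=
    h3.trans_lt (mul_lt_mul_of_pos_right h4 (one_pos.trans_le one_le_dsc))
  nlinarith

theorem finite_bounded (R : ℝ) : {z : 𝓞 K | ∀ σ : Emb K, |σ z| ≤ R}.Finite := by
  refine ((Embeddings.finite_of_norm_le K ℂ R).preimage
    (FaithfulSMul.algebraMap_injective (𝓞 K) K).injOn).subset fun z hz => ⟨z.2, fun φ => ?_⟩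
  rw [← (IsTotallyReal.complexEmbedding_isReal φ).coe_embedding_apply, Complex.norm_real]
  exact hz _

end Pool.Agent.Work.MP_c8d35c_al
end

-- merged part: Pool.Agent.Work.MP_c8d35c_al.QTor
section
/-! Orders of the torsion subgroups of the discriminant group.

Plan. All indices are finite by `Full.relIndex_ne_zero` (`full_tor`). `relIndex_sc`: `cov_map`
or `cov_of_le` with any nondegenerate form, or the basis and `AddSubgroup.relIndex_map...`;
`a_mul_relIndex`: multiplication by `c` maps `tor c` onto `X ⊓ c D` and `X` onto `c X`, and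
`c X ≤ X ⊓ c D ≤ X`. `a_mul_coprime`: `tor (c d) / X` is the direct sum of `tor c / X` and
`tor d / X` (Bezout). `cov_eq`: `cov_of_le`, `cov_mul_cov_dual`, `tor_zero`.
`a_pow_stable`: if `tor (p^(k+1)) = tor (p^k)` then `p^(j+1) y ∈ X` gives
`p^(j-k) y ∈ tor (p^(k+1))`. `Red.a_le`: induction `Nat.recOnPosPrimePosCoprime`;
`a (p^k) = a p` for odd `p`, `a (2^k) = a 4 ≤ 2 a 2` for `k ≥ 2`.
`Red.e4`: `[tor 4 : tor 2] ≤ 2`.
`four_odd`: `2 y ∉ X` gives `y' ∈ D'` with `β y' (2 y) ∉ ℤ` (it lies in `ℤ/2`); an odd multiple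
`y''` of `y'` is killed by a power of two, hence by `4`; `β y'' (2 y) = β (2 y'') y ∉ ℤ`, so
`2 y'' ∉ X`, so `2 (y - y'') ∈ X` and `β (2 y) y ≡ β (2 y'') y`. -/

namespace Pool.Agent.Work.MP_c8d35c_al

open Module

theorem QTor_sc_le {W : Type} [AddCommGroup W] [Module ℚ W] (X : AddSubgroup W) (c : ℕ) :
    sc c X ≤ X := by
  intro y hy
  obtain ⟨x, hx, rfl⟩ := mem_sc.1 hy
  rw [Nat.cast_smul_eq_nsmul]
  exact nsmul_mem hx c

theorem relIndex_sc {W : Type} [AddCommGroup W] [Module ℚ W] [FiniteDimensional ℚ W]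
    {X : AddSubgroup W} (hX : Full X) {c : ℕ} (hc : c ≠ 0) :
    (sc c X).relIndex X = c ^ finrank ℚ W := by
  have hc' : (c : ℚ) ≠ 0 := Nat.cast_ne_zero.2 hc
  obtain ⟨b, hb⟩ := hX
  have h1 := AddSubgroup.relIndex_eq_abs_det (sc c X) X (QTor_sc_le X c)
    (b.map (LinearEquiv.smulOfNeZero ℚ W c hc')) b
    (by rw [hb]; exact RLat_map b (LinearEquiv.smulOfNeZero ℚ W c hc')) hb
  have h2 : b.det (b.map (LinearEquiv.smulOfNeZero ℚ W c hc')) =
      LinearMap.det ((c : ℚ) • (LinearMap.id : W →ₗ[ℚ] W)) := by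
    have := b.det_comp ((c : ℚ) • (LinearMap.id : W →ₗ[ℚ] W)) b
    rw [Basis.det_self, mul_one] at this
    exact this
  rw [h2, LinearMap.det_smul, LinearMap.det_id, mul_one, abs_of_nonneg (by positivity)] at h1
  exact_mod_cast h1

namespace QL

variable (L : QL)

theorem tor_zero : L.tor 0 = L.D := by
  ext y
  simp [mem_tor]

theorem tor_one : L.tor 1 = L.X := by
  ext y
  rw [mem_tor, one_nsmul]
  exact ⟨fun h => h.2, fun h => ⟨L.X_le_D h, h⟩⟩

theorem tor_mono {c d : ℕ} (h : c ∣ d) : L.tor c ≤ L.tor d := by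
  obtain ⟨k, rfl⟩ := h
  intro y hy
  refine ⟨hy.1, ?_⟩
  rw [mul_nsmul]
  exact nsmul_mem hy.2 k

theorem a_ne_zero (c : ℕ) : L.a c ≠ 0 := by
  exact L.full.relIndex_ne_zero (L.full_tor c)

theorem a_one : L.a 1 = 1 := by
  rw [a, tor_one, AddSubgroup.relIndex_self]

theorem QTor_mul {c d : ℕ} (h : c ∣ d) : L.a c * (L.tor c).relIndex (L.tor d) = L.a d :=
  AddSubgroup.relIndex_mul_relIndex _ _ _ (L.X_le_tor c) (L.tor_mono h)

theorem a_dvd {c d : ℕ} (h : c ∣ d) : L.a c ∣ L.a d := by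
  exact ⟨_, (L.QTor_mul h).symm⟩

theorem tor_eq_of_a_le {c d : ℕ} (h : c ∣ d) (he : L.a d ≤ L.a c) : L.tor d = L.tor c := by
  have h1 := L.QTor_mul h
  have h2 : L.a d = L.a c := le_antisymm he (Nat.le_of_dvd (Nat.pos_of_ne_zero (L.a_ne_zero d))
    (L.a_dvd h))
  rw [h2, mul_right_eq_self₀, or_iff_left (L.a_ne_zero c), AddSubgroup.relIndex_eq_one] at h1
  exact le_antisymm h1 (L.tor_mono h)

theorem a_mul_relIndex {c : ℕ} (hc : c ≠ 0) :
    L.a c * (L.X ⊓ sc c L.D).relIndex L.X = c ^ L.N := by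
  have hc' : (c : ℚ) ≠ 0 := Nat.cast_ne_zero.2 hc
  have h1 : (sc c L.X).relIndex (sc c (L.tor c)) = L.a c :=
    AddSubgroup.relIndex_map_map_of_injective _ _ (smul_right_injective L.W hc')
  have h2 : sc c (L.tor c) = L.X ⊓ sc c L.D := by
    ext y
    rw [AddSubgroup.mem_inf, mem_sc, mem_sc]
    simp only [Nat.cast_smul_eq_nsmul]
    constructor
    · rintro ⟨x, hx, rfl⟩
      exact ⟨hx.2, x, hx.1, rfl⟩
    · rintro ⟨h3, x, hx, rfl⟩
      exact ⟨x, ⟨hx, h3⟩, rfl⟩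
  rw [← h1, h2]
  exact (AddSubgroup.relIndex_mul_relIndex _ _ _ (le_inf (QTor_sc_le L.X c)
    (AddSubgroup.map_mono L.X_le_D)) inf_le_left).trans (relIndex_sc L.full hc)

theorem a_dvd_pow {c : ℕ} (hc : c ≠ 0) : L.a c ∣ c ^ L.N := by
  exact ⟨_, (L.a_mul_relIndex hc).symm⟩

theorem a_mul_coprime {c d : ℕ} (h : c.Coprime d) : L.a (c * d) = L.a c * L.a d := by
  obtain ⟨u, v, huv⟩ := Nat.isCoprime_iff_coprime.2 h
  have hy : ∀ y : L.W, y = u • c • y + v • d • y := fun y => by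
    rw [← natCast_zsmul, ← natCast_zsmul, ← mul_smul, ← mul_smul, ← add_smul, huv, one_smul]
  have h1 : L.tor c ⊓ L.tor d = L.X := by
    refine le_antisymm (fun y h2 => ?_) (le_inf (L.X_le_tor c) (L.X_le_tor d))
    rw [hy y]
    exact add_mem (zsmul_mem h2.1.2 u) (zsmul_mem h2.2.2 v)
  have h2 : L.tor (c * d) = L.tor c ⊔ L.tor d := by
    refine le_antisymm (fun y h3 => ?_)
      (sup_le (L.tor_mono (dvd_mul_right c d)) (L.tor_mono (dvd_mul_left d c)))
    rw [hy y]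
    refine add_mem
      (AddSubgroup.mem_sup_right (zsmul_mem (L.mem_tor.2 ⟨nsmul_mem h3.1 c, ?_⟩) u))
      (AddSubgroup.mem_sup_left (zsmul_mem (L.mem_tor.2 ⟨nsmul_mem h3.1 d, ?_⟩) v))
    · rw [← mul_nsmul]
      exact h3.2
    · rw [← mul_nsmul']
      exact h3.2
  rw [← L.QTor_mul (dvd_mul_right c d), h2, AddSubgroup.relIndex_sup_left,
    ← AddSubgroup.inf_relIndex_right, h1]
  rfl

theorem cov_eq : cov L.β L.X = √(L.a 0 : ℝ) := by
  have h1 := cov_of_le L.β L.full L.full_D L.X_le_D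
  have h2 : cov L.β L.X * cov L.β L.D = 1 := cov_mul_cov_dual L.nondeg L.isSymm L.full
  have h3 := cov_pos L.nondeg L.full
  rw [a, tor_zero, eq_comm, Real.sqrt_eq_iff_mul_self_eq (Nat.cast_nonneg _) h3.le]
  linear_combination -cov L.β L.X * h1 - (L.X.relIndex L.D : ℝ) * h2

theorem a_zero_eq_one_iff : L.a 0 = 1 ↔ L.D ≤ L.X := by
  rw [a, tor_zero, AddSubgroup.relIndex_eq_one]

theorem exists_exponent : ∃ e : ℕ, 0 < e ∧ ∀ y ∈ L.D, e • y ∈ L.X := by
  exact L.full.exists_nsmul (RLat_fg L.full_D)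

theorem QTor_stable {p k j : ℕ} (h : L.a (p ^ (k + 1)) = L.a (p ^ k)) (hj : k ≤ j) :
    L.tor (p ^ j) = L.tor (p ^ k) := by
  have h1 := L.tor_eq_of_a_le (pow_dvd_pow p k.le_succ) h.le
  obtain ⟨i, rfl⟩ := Nat.exists_eq_add_of_le hj
  induction i with
  | zero => rfl
  | succ i ih =>
    rw [← ih (Nat.le_add_right k i)]
    refine le_antisymm (fun y hy => ⟨hy.1, ?_⟩) (L.tor_mono (pow_dvd_pow p (by omega)))
    have h2 : p ^ i • y ∈ L.tor (p ^ (k + 1)) := by
      refine ⟨nsmul_mem hy.1 _, ?_⟩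
      rw [← mul_nsmul', ← pow_add, add_right_comm]
      exact hy.2
    rw [h1] at h2
    rw [pow_add, mul_nsmul']
    exact h2.2

theorem a_pow_stable {p k j : ℕ} (h : L.a (p ^ (k + 1)) = L.a (p ^ k)) (hj : k ≤ j) :
    L.a (p ^ j) = L.a (p ^ k) := by
  rw [a, L.QTor_stable h hj, a]

variable {L}

theorem Red.congr {L' : QL} {N : ℕ} (h : L.Red N) (e : ∀ c, L'.a c = L.a c) : L'.Red N := by
  refine ⟨fun p hp h2 => ?_, fun p hp h2 => ?_, ?_, ?_, ?_⟩ <;> simp only [e]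
  exacts [h.odd_sq p hp h2, h.odd_le p hp h2, h.eight, h.four, h.two]

theorem Red.a_le {N : ℕ} (h : L.Red N) {c : ℕ} (hc : c ≠ 0) : L.a c ^ 2 ≤ c ^ (N + 2) := by
  induction c using Nat.recOnPosPrimePosCoprime with
  | zero => exact absurd rfl hc
  | one => rw [a_one, one_pow, one_pow]
  | prime_pow p n hp hn =>
    by_cases h2 : p = 2
    · subst h2
      rcases Nat.eq_or_lt_of_le hn with h1 | h1
      · rw [← h1]
        exact h.two
      · have h3 : L.a (2 ^ n) = L.a 4 := L.a_pow_stable (p := 2) (k := 2) h.eight h1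
        rw [h3, ← pow_mul]
        calc L.a 4 ^ 2 ≤ (2 * L.a 2) ^ 2 := Nat.pow_le_pow_left h.four 2
          _ = 2 ^ 2 * L.a 2 ^ 2 := mul_pow _ _ _
          _ ≤ 2 ^ 2 * 2 ^ (N + 2) := Nat.mul_le_mul_left _ h.two
          _ = 2 ^ (2 + (N + 2)) := (pow_add _ _ _).symm
          _ ≤ 2 ^ (n * (N + 2)) := Nat.pow_le_pow_right two_pos (by nlinarith)
    · have h3 : L.a (p ^ n) = L.a (p ^ 1) :=
        L.a_pow_stable (k := 1) (by rw [pow_one]; exact h.odd_sq p hp h2) hn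
      rw [h3, pow_one, ← pow_mul]
      exact (h.odd_le p hp h2).trans (Nat.pow_le_pow_right hp.pos (by nlinarith))
  | coprime a b ha hb hab iha ihb =>
    rw [L.a_mul_coprime hab, mul_pow, mul_pow]
    exact Nat.mul_le_mul (iha (by omega)) (ihb (by omega))

theorem Red.ep {N : ℕ} (h : L.Red N) {p : ℕ} (hp : p.Prime) (h2 : p ≠ 2) {y : L.W}
    (hy : y ∈ L.D) (hpy : p ^ 2 • y ∈ L.X) : p • y ∈ L.X := by
  have h1 : y ∈ L.tor (p ^ 2) := ⟨hy, hpy⟩
  rw [L.tor_eq_of_a_le (dvd_pow_self p two_ne_zero) (h.odd_sq p hp h2).le] at h1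
  exact h1.2

theorem Red.e8 {N : ℕ} (h : L.Red N) {y : L.W} (hy : y ∈ L.D) (h8 : 8 • y ∈ L.X) :
    4 • y ∈ L.X := by
  have h1 : y ∈ L.tor 8 := ⟨hy, h8⟩
  rw [L.tor_eq_of_a_le (c := 4) (by norm_num) h.eight.le] at h1
  exact h1.2

theorem Red.e4 {N : ℕ} (h : L.Red N) {y y' : L.W} (hy : y ∈ L.tor 4) (hy' : y' ∈ L.tor 4)
    (h2 : 2 • y ∉ L.X) (h2' : 2 • y' ∉ L.X) : 2 • (y - y') ∈ L.X := by
  have h1 := L.QTor_mul (c := 2) (d := 4) (by norm_num)
  have h3 : (L.tor 2).relIndex (L.tor 4) ≤ 2 := by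
    refine Nat.le_of_mul_le_mul_left ?_ (Nat.pos_of_ne_zero (L.a_ne_zero 2))
    rw [h1, mul_comm]
    exact h.four
  have h4 : (L.tor 2).relIndex (L.tor 4) ≠ 0 := (L.full_tor 2).relIndex_ne_zero (L.full_tor 4)
  have h5 : (L.tor 2).relIndex (L.tor 4) ∣ 2 := by
    generalize (L.tor 2).relIndex (L.tor 4) = r at h3 h4
    interval_cases r <;> simp at h4 ⊢
  obtain ⟨w, -, hw⟩ := AddSubgroup.relIndex_dvd_two_iff.1 h5
  have h6 := sub_mem ((hw y hy).resolve_right fun h => h2 h.2)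
    ((hw y' hy').resolve_right fun h => h2' h.2)
  rw [add_sub_add_right_eq_sub] at h6
  exact h6.2

/-- The form induced on `D' / X` is nondegenerate. -/
def NdOn (L : QL) (D' : AddSubgroup L.W) : Prop :=
  L.X ≤ D' ∧ D' ≤ L.D ∧ ∀ y ∈ D', (∀ y' ∈ D', ∃ z : ℤ, L.β y' y = z) → y ∈ L.X

theorem ndOn_D (L : QL) : L.NdOn L.D := ⟨L.X_le_D, le_rfl, fun _ _ h => L.mem_X_of h⟩

theorem four_odd {N : ℕ} (h : L.Red N) {D' : AddSubgroup L.W} (hD : L.NdOn D') {y : L.W}
    (hy : y ∈ D') (h4 : 4 • y ∈ L.X) (h2 : 2 • y ∉ L.X) : ¬∃ z : ℤ, 2 * L.β y y = z := by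
  rintro ⟨z, hz⟩
  apply h2
  refine hD.2.2 _ (nsmul_mem hy 2) fun y' hy' => ?_
  obtain ⟨e, he, he'⟩ := L.exists_exponent
  obtain ⟨k, m, ⟨j, rfl⟩, rfl⟩ := Nat.exists_eq_two_pow_mul_odd he.ne'
  have hyD := hD.2.1 hy
  have hyD' := hD.2.1 hy'
  have h1 : (2 * j + 1) • y' ∈ L.tor 4 := by
    have h3 : L.tor (2 ^ (k + 2)) = L.tor 4 :=
      L.QTor_stable (p := 2) (k := 2) h.eight (Nat.le_add_left 2 k)
    rw [← h3]
    refine L.tor_mono (pow_dvd_pow 2 (Nat.le_add_right k 2)) ⟨nsmul_mem hyD' _, ?_⟩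
    rw [← mul_nsmul']
    exact he' y' hyD'
  obtain ⟨w, hw⟩ := hyD' _ h4
  have h5 : ∃ u : ℤ, L.β (2 • (2 * j + 1) • y') y = u := by
    by_cases h6 : 2 • (2 * j + 1) • y' ∈ L.X
    · exact hyD _ h6
    · obtain ⟨v, hv⟩ := hyD _ (h.e4 ⟨hyD, h4⟩ h1 h2 h6)
      refine ⟨z - v, ?_⟩
      rw [smul_sub, map_sub, LinearMap.sub_apply, map_nsmul, LinearMap.smul_apply,
        nsmul_eq_mul] at hv
      push_cast at hv ⊢
      linarith
  obtain ⟨u, hu⟩ := h5
  refine ⟨u - j * w, ?_⟩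
  simp only [map_nsmul, LinearMap.smul_apply, nsmul_eq_mul] at hw hu ⊢
  rw [L.symm y y'] at hw
  push_cast at hw hu ⊢
  linear_combination hu - j * hw

/-- A nonzero vector has a multiple in the dual lattice that pairs to `1` with the lattice. -/
theorem prim_dual (L : QL) {z : L.W} (hz : z ≠ 0) :
    ∃ c : ℚ, c ≠ 0 ∧ c • z ∈ L.D ∧ ∃ f ∈ L.X, L.β (c • z) f = 1 := by
  obtain ⟨n, hn, hnz⟩ := L.full_D.exists_nsmul_mem z
  have hn' : (n : ℚ) ≠ 0 := Nat.cast_ne_zero.2 hn.ne'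
  obtain ⟨g, hg⟩ := Int.subgroup_cyclic
    ((L.X.map (L.β (n • z)).toAddMonoidHom).comap (Int.castAddHom ℚ))
  have h1 : ∀ x ∈ L.X, ∃ k : ℤ, L.β (n • z) x = k * g := fun x hx => by
    obtain ⟨m, hm⟩ := hnz x hx
    have h2 : m ∈ AddSubgroup.closure {g} := by
      rw [← hg]
      exact ⟨x, hx, (L.symm _ _).trans hm⟩
    obtain ⟨k, rfl⟩ := AddSubgroup.mem_closure_singleton.1 h2
    refine ⟨k, ?_⟩
    rw [L.symm, hm]
    simp
  have hg0 : (g : ℚ) ≠ 0 := by
    intro h0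
    have h3 : L.β (n • z) = 0 := LinearMap.ext_on (RLat_span L.full) fun x hx => by
      obtain ⟨k, hk⟩ := h1 x hx
      rw [hk, h0, mul_zero, LinearMap.zero_apply]
    have h4 := L.nd _ fun y => LinearMap.congr_fun h3 y
    rw [← Nat.cast_smul_eq_nsmul ℚ, smul_eq_zero] at h4
    exact h4.elim hn' hz
  have h5 : ∀ x, L.β (((g : ℚ)⁻¹ * n) • z) x = (g : ℚ)⁻¹ * L.β (n • z) x := fun x => by
    rw [mul_smul, Nat.cast_smul_eq_nsmul, map_smul, LinearMap.smul_apply, smul_eq_mul]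
  refine ⟨(g : ℚ)⁻¹ * n, mul_ne_zero (inv_ne_zero hg0) hn', fun x hx => ?_, ?_⟩
  · obtain ⟨k, hk⟩ := h1 x hx
    refine ⟨k, ?_⟩
    rw [L.symm, h5, hk, mul_comm, mul_inv_cancel_right₀ hg0]
  · have h6 : g ∈ AddSubgroup.closure {g} := AddSubgroup.subset_closure rfl
    rw [← hg] at h6
    obtain ⟨f, hf, h7⟩ := h6
    refine ⟨f, hf, ?_⟩
    have h8 : L.β (n • z) f = g := h7
    rw [h5, h8, inv_mul_cancel₀ hg0]

end QL

end Pool.Agent.Work.MP_c8d35c_al
end

-- merged part: Pool.Agent.Work.MP_c8d35c_al.RGam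
section
/-! One-dimensional integrals: the real densities. -/

namespace Pool.Agent.Work.MP_c8d35c_al

open MeasureTheory Complex Set

theorem RGam_norm (s : ℝ) (r : ℂ) {t : ℝ} (ht : 0 < t) :
    ‖(t : ℂ) ^ ((s : ℂ) - 1) * cexp (-(r * t))‖ = t ^ (s - 1) * Real.exp (-r.re * t) := by
  rw [norm_mul, norm_cpow_eq_rpow_re_of_pos ht, norm_exp]
  simp

theorem RGam_int {s : ℝ} (hs : 0 < s) {r : ℂ} (hr : 0 < r.re) :
    IntegrableOn (fun t : ℝ => (t : ℂ) ^ ((s : ℂ) - 1) * cexp (-(r * t))) (Ioi 0) := by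
  refine Integrable.mono' (integrableOn_rpow_mul_exp_neg_mul_rpow (s := s - 1) (by linarith)
    one_pos hr) (Measurable.aestronglyMeasurable (by fun_prop)) ?_
  filter_upwards [ae_restrict_mem measurableSet_Ioi] with t ht
  rw [RGam_norm s r ht, Real.rpow_one]

theorem RGam_diff {s : ℝ} (hs : 0 < s) {r : ℂ} (hr : 0 < r.re) : DifferentiableAt ℂ
    (fun z : ℂ => ∫ t in Ioi (0 : ℝ), (t : ℂ) ^ ((s : ℂ) - 1) * cexp (-(z * t))) r := by
  refine (hasDerivAt_integral_of_dominated_loc_of_deriv_le (s := {z : ℂ | r.re / 2 < z.re})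
    (μ := volume.restrict (Ioi (0 : ℝ)))
    (F := fun z t => (t : ℂ) ^ ((s : ℂ) - 1) * cexp (-(z * t)))
    (F' := fun z t => (t : ℂ) ^ ((s : ℂ) - 1) * (cexp (-(z * t)) * -(1 * t)))
    ((isOpen_lt continuous_const continuous_re).mem_nhds (half_lt_self hr))
    (Filter.Eventually.of_forall fun z => Measurable.aestronglyMeasurable (by fun_prop))
    (RGam_int hs hr) (Measurable.aestronglyMeasurable (by fun_prop)) ?_
    (integrableOn_rpow_mul_exp_neg_mul_rpow (s := s) (by linarith) one_pos (half_pos hr))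
    (Filter.Eventually.of_forall fun t z _ =>
      ((hasDerivAt_id z).mul_const (t : ℂ)).neg.cexp.const_mul _)).2.differentiableAt
  filter_upwards [ae_restrict_mem measurableSet_Ioi] with t ht z hz
  have ht' : 0 < t := ht
  rw [← mul_assoc, norm_mul, RGam_norm s z ht, norm_neg, one_mul, norm_real,
    Real.norm_of_nonneg ht'.le, mul_right_comm, ← Real.rpow_add_one ht'.ne', sub_add_cancel,
    Real.rpow_one]
  refine mul_le_mul_of_nonneg_left (Real.exp_le_exp.2 ?_) (Real.rpow_nonneg ht'.le _)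
  have : r.re / 2 < z.re := hz
  nlinarith

theorem complex_gamma_integral {s : ℝ} (hs : 0 < s) {r : ℂ} (hr : 0 < r.re) :
    ∫ t in Ioi (0 : ℝ), (t : ℂ) ^ ((s : ℂ) - 1) * cexp (-(r * t)) =
      (Real.Gamma s : ℂ) * r ^ (-(s : ℂ)) := by
  have hU : IsOpen {z : ℂ | 0 < z.re} := isOpen_lt continuous_const continuous_re
  have h1 : AnalyticOnNhd ℂ (fun z : ℂ => ∫ t in Ioi (0 : ℝ),
      (t : ℂ) ^ ((s : ℂ) - 1) * cexp (-(z * t))) {z : ℂ | 0 < z.re} :=
    DifferentiableOn.analyticOnNhd (fun z hz => (RGam_diff hs hz).differentiableWithinAt) hU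
  have h2 : AnalyticOnNhd ℂ (fun z : ℂ => (Real.Gamma s : ℂ) * z ^ (-(s : ℂ)))
      {z : ℂ | 0 < z.re} :=
    DifferentiableOn.analyticOnNhd (fun z hz => ((differentiableAt_id.cpow_const
      (Or.inl hz)).const_mul _).differentiableWithinAt) hU
  refine h1.eqOn_of_preconnected_of_frequently_eq h2 (convex_halfSpace_re_gt 0).isPreconnected
    (z₀ := ((1 : ℝ) : ℂ)) (by simp) ?_ hr
  refine (continuous_ofReal.continuousWithinAt.tendsto_nhdsWithin (s := {1}ᶜ)
    fun x hx => ofReal_injective.ne hx).frequently (Filter.Eventually.frequently ?_)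
  filter_upwards [nhdsWithin_le_nhds (Ioi_mem_nhds one_pos)] with x hx
  rw [integral_cpow_mul_exp_neg_mul_Ioi (by simpa using hs) hx, Gamma_ofReal, mul_comm, one_div,
    inv_cpow _ _ (by rw [arg_ofReal_of_nonneg (le_of_lt hx)]; exact Real.pi_ne_zero.symm), cpow_neg]

theorem norm_half_pow (y x : ℝ) (hy : 0 < y) (ε : ℝ) (hε : ε = 1 ∨ ε = -1) :
    ‖(1 / ((y : ℂ) - I * ε * x)) ^ (1 / 2 : ℂ)‖ = (y ^ 2 + x ^ 2) ^ (-(1 / 4 : ℝ)) := by
  have h1 : ‖(y : ℂ) - I * ε * x‖ = (y ^ 2 + x ^ 2) ^ (1 / 2 : ℝ) := by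
    rw [← Real.sqrt_eq_rpow, norm_def, normSq_apply]
    congr 1
    rcases hε with rfl | rfl <;> simp <;> ring
  rw [show (1 / 2 : ℂ) = ((1 / 2 : ℝ) : ℂ) by simp, norm_cpow_real, one_div, norm_inv, h1,
    ← Real.rpow_neg (by positivity), ← Real.rpow_mul (by positivity)]
  norm_num

theorem integrable_dens {N : ℕ} (hN : 3 ≤ N) {y : ℝ} (hy : 0 < y) :
    Integrable fun x : ℝ => (y ^ 2 + x ^ 2) ^ (-((N : ℝ) / 4)) := by
  have h3 : (3 : ℝ) ≤ N := by exact_mod_cast hN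
  refine (((integrable_rpow_neg_one_add_norm_sq (E := ℝ) (μ := volume) (r := (N : ℝ) / 2)
    (by rw [Module.finrank_self, Nat.cast_one]; linarith)).comp_div hy.ne').const_mul
      ((y ^ 2) ^ (-((N : ℝ) / 4)))).congr (Filter.Eventually.of_forall fun x => ?_)
  simp only
  rw [show -((N : ℝ) / 2) / 2 = -((N : ℝ) / 4) by ring, ← Real.mul_rpow (by positivity)
    (by positivity), Real.norm_eq_abs, sq_abs]
  congr 1
  field_simp

theorem RGam_mul {a : ℝ} (ha : 0 < a) {z : ℂ} (hz : 0 < z.re) (w : ℂ) :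
    ((a : ℂ) * z) ^ w = (a : ℂ) ^ w * z ^ w := by
  have h0 : z ≠ 0 := fun h => by simp [h] at hz
  have h1 : (a : ℂ) ≠ 0 := ofReal_ne_zero.2 ha.ne'
  rw [cpow_def_of_ne_zero (mul_ne_zero h1 h0), log_ofReal_mul ha h0, ofReal_log ha.le, add_mul,
    Complex.exp_add, ← cpow_def_of_ne_zero h1, ← cpow_def_of_ne_zero h0]

open FourierTransform in
/-- The density at a definite place. -/
theorem dens_def {N : ℕ} (hN : 3 ≤ N) {y t : ℝ} (hy : 0 < y) (ht : 0 < t) :
    ∫ x : ℝ, ((1 / ((y : ℂ) - I * x)) ^ (1 / 2 : ℂ)) ^ N * ee (-(x * t)) =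
      (((2 * Real.pi) ^ ((N : ℝ) / 2) * t ^ ((N : ℝ) / 2 - 1) * Real.exp (-(2 * Real.pi * t * y)) /
        Real.Gamma ((N : ℝ) / 2) : ℝ) : ℂ) := by
  have h3 : (3 : ℝ) ≤ N := by exact_mod_cast hN
  obtain ⟨s, hs⟩ : ∃ s : ℝ, s = N / 2 := ⟨_, rfl⟩
  have s0 : 0 < s := by linarith
  have p0 : 0 < 2 * Real.pi := Real.two_pi_pos
  rw [← hs]
  let f : ℝ → ℂ := fun u => (u : ℂ) ^ ((s : ℂ) - 1) * cexp (-(((2 * Real.pi * y : ℝ) : ℂ) * u))
  let c : ℂ := (Real.Gamma s : ℂ) * ((2 * Real.pi : ℝ) : ℂ) ^ (-(s : ℂ))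
  have hi : Integrable ((Ioi 0).indicator f) :=
    (integrable_indicator_iff measurableSet_Ioi).2 (RGam_int s0 (by rw [ofReal_re]; positivity))
  have hF : 𝓕⁻ ((Ioi 0).indicator f) =
      fun x : ℝ => c * ((1 / ((y : ℂ) - I * x)) ^ (1 / 2 : ℂ)) ^ N := by
    funext x
    have hre : 0 < ((y : ℂ) - I * x).re := by simpa using hy
    have h1 := complex_gamma_integral s0 (r := ((2 * Real.pi : ℝ) : ℂ) * ((y : ℂ) - I * x))
      (by rw [re_ofReal_mul]; positivity)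
    rw [Real.fourierInv_eq']
    rw [← setIntegral_eq_integral_of_forall_compl_eq_zero (s := Ioi 0)
      fun u hu => by rw [indicator_of_notMem hu, smul_zero]]
    refine (setIntegral_congr_fun measurableSet_Ioi fun u hu => ?_).trans (h1.trans ?_)
    · simp only [indicator_of_mem hu, f, smul_eq_mul]
      rw [mul_left_comm, ← Complex.exp_add]
      congr 2
      simp only [RCLike.inner_apply, conj_trivial]
      push_cast
      ring
    · rw [RGam_mul p0 hre, ← cpow_mul_nat, one_div ((y : ℂ) - I * x),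
        inv_cpow _ _ (slitPlane_arg_ne_pi (Or.inl hre)), ← cpow_neg, mul_assoc]
      congr 4
      rw [hs]
      push_cast
      ring
  have hi' : Integrable (𝓕 ((Ioi 0).indicator f)) := by
    have h1 : Integrable (𝓕⁻ ((Ioi 0).indicator f)) := by
      rw [hF]
      refine Integrable.const_mul ((integrable_dens hN hy).mono'
        (Measurable.aestronglyMeasurable (by fun_prop)) (Filter.Eventually.of_forall fun x => ?_)) c
      have h2 := norm_half_pow y x hy 1 (Or.inl rfl)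
      rw [ofReal_one, mul_one] at h2
      rw [norm_pow, h2, ← Real.rpow_mul_natCast (by positivity)]
      exact le_of_eq (by congr 1; ring)
    refine h1.comp_neg.congr (Filter.Eventually.of_forall fun x => ?_)
    simp only [Real.fourierInv_eq_fourier_neg, neg_neg]
  have hc : ContinuousAt ((Ioi 0).indicator f) t := by
    refine ContinuousAt.congr (f := f) ((continuousAt_ofReal_cpow_const _ _ (Or.inr ht.ne')).mul
      (by fun_prop)) ?_
    filter_upwards [Ioi_mem_nhds ht] with u hu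
    rw [indicator_of_mem hu]
  have h := hi.fourier_fourierInv_eq hi' hc
  rw [hF, Real.fourier_real_eq_integral_exp_smul, indicator_of_mem (mem_Ioi.2 ht)] at h
  have g0 : (Real.Gamma s : ℂ) ≠ 0 := ofReal_ne_zero.2 (Real.Gamma_pos_of_pos s0).ne'
  have c0 : ((2 * Real.pi : ℝ) : ℂ) ^ (s : ℂ) ≠ 0 := by
    rw [← ofReal_cpow p0.le]
    exact ofReal_ne_zero.2 (Real.rpow_pos_of_pos p0 s).ne'
  have h2 : c * ∫ x : ℝ, ((1 / ((y : ℂ) - I * x)) ^ (1 / 2 : ℂ)) ^ N * ee (-(x * t)) = f t := by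
    rw [← h, ← integral_const_mul]
    refine integral_congr_ae (Filter.Eventually.of_forall fun x => ?_)
    simp only [smul_eq_mul, ee]
    rw [mul_comm (cexp _), mul_assoc c]
    congr 3
    push_cast
    ring
  rw [ofReal_div, ofReal_mul, ofReal_mul, ofReal_cpow p0.le, ofReal_cpow ht.le, ofReal_exp,
    eq_div_iff g0, mul_assoc, ← inv_mul_eq_iff_eq_mul₀ c0, ← cpow_neg]
  refine Eq.trans (by simp only [c]; ring) (h2.trans ?_)
  simp only [f]
  push_cast
  congr 3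
  ring

end Pool.Agent.Work.MP_c8d35c_al
end

-- merged part: Pool.Agent.Work.MP_c8d35c_al.QTh
section
/-! The theta function of an even lattice and its expansion at a cusp.

Plan: this is `RCusp.lean` (`gau_bound`, `gau_add`, `theta_cusp`) and the first lemmas of
`RTheta.lean` for the field of rational numbers; copy the proofs. In `gq_bound` use `gauss_bound`
with `R = X ⊓ sc den D` (`num` is prime to `den`) and `a_mul_relIndex`. -/

namespace Pool.Agent.Work.MP_c8d35c_al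

open Module Complex

variable {ι : Type} [Fintype ι]

/-- `y - i ε x`. -/
noncomputable def bq (ε : ι → ℝ) (y x : ℝ) (i : ι) : ℂ := (y : ℂ) - I * (ε i : ℝ) * (x : ℝ)

/-- The Gaussian with complex widths `c`. -/
noncomputable def gsq (c : ι → ℂ) (u : ι → ℝ) : ℂ := cexp (-(Real.pi * ∑ i, c i * (u i : ℂ) ^ 2))

/-- The archimedean factor. -/
noncomputable def psq (ε : ι → ℝ) (y x : ℝ) : ℂ := ∏ i, (1 / bq ε y x i) ^ (1 / 2 : ℂ)

lemma QTh_re (ε : ι → ℝ) (y x : ℝ) (i : ι) : (bq ε y x i).re = y := by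
  simp [bq]

theorem bq_inv_re {ε : ι → ℝ} (hε : ∀ i, ε i = 1 ∨ ε i = -1) (y x : ℝ) (i : ι) :
    ((bq ε y x i)⁻¹).re = y / (y ^ 2 + x ^ 2) := by
  rw [Complex.inv_re, QTh_re]
  congr 1
  rcases hε i with h | h <;> simp [bq, h, Complex.normSq_apply, sq]

theorem norm_psq {ε : ι → ℝ} (hε : ∀ i, ε i = 1 ∨ ε i = -1) {y : ℝ} (hy : 0 < y) (x : ℝ) :
    ‖psq ε y x‖ = (y ^ 2 + x ^ 2) ^ (-((Fintype.card ι : ℝ) / 4)) := by
  have h : ∀ i, ‖(1 / bq ε y x i) ^ (1 / 2 : ℂ)‖ = (y ^ 2 + x ^ 2) ^ (-(1 / 4 : ℝ)) := fun i =>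
    norm_half_pow y x hy (ε i) (hε i)
  simp only [psq, norm_prod, h, Finset.prod_const, Finset.card_univ]
  rw [← Real.rpow_natCast, ← Real.rpow_mul (by positivity)]
  congr 1
  ring

theorem continuous_psq (ε : ι → ℝ) {y : ℝ} (hy : 0 < y) : Continuous (psq ε y) := by
  have hne : ∀ x i, bq ε y x i ≠ 0 := fun x i h => by
    have := QTh_re ε y x i
    rw [h, Complex.zero_re] at this
    exact hy.ne this
  refine continuous_finsetProd _ fun p _ => Continuous.cpow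
    (continuous_const.div (by unfold bq; fun_prop) fun x => hne x p) continuous_const fun x => ?_
  refine Or.inl ?_
  rw [one_div, Complex.inv_re, QTh_re]
  exact div_pos hy (Complex.normSq_pos.2 (hne x p))

theorem integrable_psq {ε : ι → ℝ} (hε : ∀ i, ε i = 1 ∨ ε i = -1) (hN : 3 ≤ Fintype.card ι)
    {y : ℝ} (hy : 0 < y) (t : ℝ) :
    MeasureTheory.Integrable fun x : ℝ => psq ε y x * ee (-(x * t)) := by
  refine (integrable_dens hN hy).mono' (Continuous.aestronglyMeasurable ?_)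
    (Filter.Eventually.of_forall fun x => ?_)
  · exact (continuous_psq ε hy).mul (continuous_ee.comp (by fun_prop))
  · rw [norm_mul, norm_ee, mul_one, norm_psq hε hy]

namespace QL

variable (L : QL)

/-- The theta function. -/
noncomputable def th (ε : ι → ℝ) (Φ : L.W →+ ι → ℝ) (y x : ℝ) : ℂ :=
  ∑' v : L.X, gsq (bq ε y x) (Φ v)

/-- The normalised Gauss sum. -/
noncomputable def gq (κ : ℚ) (ξ : L.W) : ℂ :=
  avg L.X (sc κ.den L.X) fun x => ee ((κ * (L.β x x / 2) + L.β x ξ : ℚ) : ℝ)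

variable {L} {ε : ι → ℝ} {Φ : L.W →+ ι → ℝ}

lemma QTh_q (L : QL) (x w : L.W) :
    L.β (x + w) (x + w) / 2 = L.β x x / 2 + L.β x w + L.β w w / 2 := by
  simp only [map_add, LinearMap.add_apply, L.symm w x]
  ring

lemma QTh_per (L : QL) (κ : ℚ) {x a : L.W} (hx : x ∈ L.X) (ha : a ∈ sc κ.den L.X) :
    ∃ k : ℤ, κ * (L.β (x + a) (x + a) / 2) = κ * (L.β x x / 2) + k := by
  obtain ⟨w, hw, rfl⟩ := mem_sc.1 ha
  obtain ⟨z, hz⟩ := L.X_le_D hw x hx
  obtain ⟨u, hu⟩ := L.even w hw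
  refine ⟨κ.num * z + κ.num * κ.den * u, ?_⟩
  rw [QTh_q]
  simp only [map_smul, LinearMap.smul_apply, smul_eq_mul, hz, hu]
  push_cast
  rw [← Rat.mul_den_eq_num κ]
  ring

lemma QTh_full (L : QL) (κ : ℚ) : Full (sc κ.den L.X) :=
  L.full.sc (Nat.cast_ne_zero.2 κ.den_nz)

theorem gsq_bq (h : RealFrame L.β ε Φ) (y x : ℝ) (v : L.W) :
    gsq (bq ε y x) (Φ v) = (Real.exp (-(Real.pi * ∑ i, y * Φ v i ^ 2)) : ℝ) *
      ee (x * ((L.β v v / 2 : ℚ) : ℝ)) := by
  have e : x * ((L.β v v / 2 : ℚ) : ℝ) = (∑ p, ε p * x * Φ v p ^ 2) / 2 := by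
    push_cast
    rw [← h.form v v, ← mul_div_assoc, Finset.mul_sum]
    congr 1
    exact Finset.sum_congr rfl fun i _ => by ring
  rw [e, gsq, ee, Complex.ofReal_exp, ← Complex.exp_add]
  congr 1
  have e2 : ∑ p, bq ε y x p * (Φ v p : ℂ) ^ 2 = ∑ p, (y : ℂ) * (Φ v p : ℂ) ^ 2
      - I * ∑ p, (ε p : ℝ) * (x : ℂ) * (Φ v p : ℂ) ^ 2 := by
    rw [Finset.mul_sum, ← Finset.sum_sub_distrib]
    exact Finset.sum_congr rfl fun p _ => by unfold bq; ring
  rw [e2]
  push_cast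
  ring

theorem gq_bound (L : QL) (κ : ℚ) {ξ : L.W} (hξ : ξ ∈ dualA L.β (sc κ.den L.X)) :
    ‖L.gq κ ξ‖ ≤ (κ.den : ℝ) ^ (-((L.N : ℝ) / 2)) * √(L.a κ.den : ℝ) := by
  have h1 : ‖L.gq κ ξ‖ ^ 2 * ((L.X ⊓ sc κ.den L.D).relIndex L.X : ℝ) ≤ 1 := by
    refine gauss_bound (QTor_sc_le L.X κ.den) ((QTh_full L κ).relIndex_ne_zero L.full)
      (φ := fun x => ((κ * (L.β x x / 2) + L.β x ξ : ℚ) : ℝ))
      (b := fun x y => ((κ * L.β x y : ℚ) : ℝ)) ?_ ?_ ?_ ?_
    · intro x _ y _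
      have e : L.β (x + y) ξ = L.β x ξ + L.β y ξ := by rw [map_add, LinearMap.add_apply]
      simp only [QTh_q, e]
      push_cast
      ring
    · intro x _ x' _ y _
      simp only [map_add, LinearMap.add_apply]
      push_cast
      ring
    · intro x hx a ha
      obtain ⟨k, hk⟩ := QTh_per L κ hx ha
      obtain ⟨l, hl⟩ := hξ a ha
      refine ⟨k + l, ?_⟩
      have e : L.β (x + a) ξ = L.β x ξ + l := by rw [map_add, LinearMap.add_apply, hl]
      simp only [hk, e]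
      push_cast
      ring
    · intro y hy h
      have hd : (κ.den : ℚ) ≠ 0 := Nat.cast_ne_zero.2 κ.den_nz
      refine ⟨hy, mem_sc.2 ⟨(κ.den : ℚ)⁻¹ • y, fun x hx => ?_, smul_inv_smul₀ hd y⟩⟩
      obtain ⟨z, hz⟩ := L.X_le_D hy x hx
      obtain ⟨k, hk⟩ := h x hx
      have hk' : κ * L.β x y = k := by exact_mod_cast hk
      have e : κ.num * z = κ.den * k := by
        have : (κ.num : ℚ) * z = κ.den * k := by
          rw [← hk', hz, ← Rat.mul_den_eq_num κ]
          ring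
        exact_mod_cast this
      obtain ⟨w, hw⟩ : (κ.den : ℤ) ∣ z :=
        (Rat.isCoprime_num_den κ).symm.dvd_of_dvd_mul_left ⟨k, e⟩
      refine ⟨w, ?_⟩
      rw [map_smul, hz, hw, smul_eq_mul]
      push_cast
      rw [inv_mul_cancel_left₀ hd]
  have h2 : (L.a κ.den : ℝ) * ((L.X ⊓ sc κ.den L.D).relIndex L.X : ℝ) = (κ.den : ℝ) ^ L.N := by
    exact_mod_cast L.a_mul_relIndex κ.den_nz
  have hd : (0 : ℝ) < κ.den := Nat.cast_pos.2 κ.den_pos
  have ha : (0 : ℝ) ≤ L.a κ.den := Nat.cast_nonneg _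
  refine (pow_le_pow_iff_left₀ (by positivity) (by positivity) two_ne_zero).1 ?_
  have e : ((κ.den : ℝ) ^ (-((L.N : ℝ) / 2))) ^ 2 = ((κ.den : ℝ) ^ L.N)⁻¹ := by
    rw [← Real.rpow_natCast, ← Real.rpow_mul hd.le, ← Real.rpow_natCast, ← Real.rpow_neg hd.le]
    congr 1
    push_cast
    ring
  rw [mul_pow, Real.sq_sqrt ha, e, ← div_eq_inv_mul, le_div_iff₀ (by positivity), ← h2]
  nlinarith [mul_le_mul_of_nonneg_left h1 ha]

theorem gq_add_int (L : QL) (κ : ℚ) (a : ℤ) : L.gq (κ + a) 0 = L.gq κ 0 := by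
  unfold gq avg
  rw [Rat.add_intCast_den]
  congr 1
  refine finsum_congr fun q => ?_
  obtain ⟨z, hz⟩ := L.even _ q.out.2
  have h1 : (κ + a) * (L.β q.out.1 q.out.1 / 2) =
      κ * (L.β q.out.1 q.out.1 / 2) + (z * a : ℤ) := by
    rw [hz]
    push_cast
    ring
  simp only [h1, map_zero, add_zero]
  rw [Rat.cast_add, Rat.cast_intCast, ee_add, ee_int, mul_one]

theorem gq_zero (L : QL) : L.gq 0 0 = 1 := by
  have hi := (QTh_full L 0).relIndex_ne_zero L.full
  have := RGauss_fin hi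
  have := Fintype.ofFinite (L.X ⧸ (sc (0 : ℚ).den L.X).addSubgroupOf L.X)
  unfold gq avg
  simp only [zero_mul, map_zero, add_zero, Rat.cast_zero, ee_zero]
  rw [finsum_eq_sum_of_fintype, Finset.sum_const, Finset.card_univ, nsmul_eq_mul, mul_one,
    ← Nat.card_eq_fintype_card]
  exact div_self (Nat.cast_ne_zero.2 hi)

theorem mem_dual_sc (L : QL) {c : ℕ} {ξ : L.W} :
    ξ ∈ dualA L.β (sc c L.X) ↔ (c : ℚ) • ξ ∈ L.D := by
  constructor
  · intro h x hx
    obtain ⟨z, hz⟩ := h _ (mem_sc.2 ⟨x, hx, rfl⟩)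
    exact ⟨z, by rw [← hz, map_smul, map_smul, LinearMap.smul_apply]⟩
  · intro h x hx
    obtain ⟨w, hw, rfl⟩ := mem_sc.1 hx
    obtain ⟨z, hz⟩ := h w hw
    exact ⟨z, by rw [← hz, map_smul, map_smul, LinearMap.smul_apply]⟩

lemma QTh_shift (h : RealFrame L.β ε Φ) (y x : ℝ) (κ : ℚ) (v : L.W) :
    gsq (bq ε y x) (Φ v) =
      ee ((κ * (L.β v v / 2) : ℚ) : ℝ) * gsq (bq ε y (x - κ)) (Φ v) := by
  rw [gsq_bq h, gsq_bq h, mul_left_comm, ← ee_add]
  congr 2
  push_cast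
  ring

theorem th_cusp (h : RealFrame L.β ε Φ) {y : ℝ} (hy : 0 < y) (x : ℝ) (κ : ℚ) :
    L.th ε Φ y x = psq ε y (x - κ) / (cov L.β L.X : ℂ) *
      ∑' ξ : dualA L.β (sc κ.den L.X),
        gsq (fun i => (bq ε y (x - κ) i)⁻¹) (Φ ξ) * L.gq κ ξ := by
  have hβ := L.nondeg
  have hL := QTh_full L κ
  have hi : (sc κ.den L.X).relIndex L.X ≠ 0 := hL.relIndex_ne_zero L.full
  have hle : sc κ.den L.X ≤ L.X := QTor_sc_le L.X κ.den
  have hc : ∀ p, 0 < (bq ε y (x - κ) p).re := fun p => by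
    rw [QTh_re]; exact hy
  have hs : Summable fun v : L.X => gsq (bq ε y x) (Φ v) := by
    refine Summable.of_norm ?_
    have := summable_gauss hβ h L.full (a := fun p => (bq ε y x p).re)
      (fun p => by rw [QTh_re]; exact hy) 0
    simpa only [gsq, norm_cexp_gauss, zero_add] using this
  have hs' : Summable fun ξ : dualA L.β (sc κ.den L.X) =>
      ‖gsq (fun p => (bq ε y (x - κ) p)⁻¹) (Φ ξ)‖ := by
    have := summable_gauss hβ h (Full.dual hβ hL)
      (a := fun p => ((bq ε y (x - κ) p)⁻¹).re)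
      (fun p => by
        rw [bq_inv_re h.sign]
        positivity) 0
    simpa only [gsq, norm_cexp_gauss, zero_add] using this
  have := RGauss_fin hi
  have := Fintype.ofFinite (L.X ⧸ (sc κ.den L.X).addSubgroupOf L.X)
  have hin : ∀ r ∈ L.X, ∑' a : sc κ.den L.X, gsq (bq ε y x) (Φ (r + a)) =
      psq ε y (x - κ) / (cov L.β (sc κ.den L.X) : ℂ) *
        ∑' ξ : dualA L.β (sc κ.den L.X), gsq (fun p => (bq ε y (x - κ) p)⁻¹) (Φ ξ) *
            ee ((κ * (L.β r r / 2) + L.β r ξ : ℚ) : ℝ) := by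
    intro r hr
    have h1 : ∀ a : sc κ.den L.X, gsq (bq ε y x) (Φ (r + a)) =
        ee ((κ * (L.β r r / 2) : ℚ) : ℝ) * gsq (bq ε y (x - κ)) (Φ (r + a)) := by
      intro a
      obtain ⟨k, hk⟩ := QTh_per L κ hr a.2
      rw [QTh_shift h y x κ, hk, Rat.cast_add, Rat.cast_intCast, ee_add, ee_int, mul_one]
    have h2 := poisson_lattice hβ L.isSymm h hL hc r
    rw [tsum_congr h1, tsum_mul_left]
    unfold gsq
    rw [h2, mul_left_comm, ← tsum_mul_left]
    congr 1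
    refine tsum_congr fun ξ => ?_
    rw [Rat.cast_add, ee_add]
    ring
  have hcov : (cov L.β (sc κ.den L.X) : ℂ) =
      ((sc κ.den L.X).relIndex L.X : ℂ) * (cov L.β L.X : ℂ) := by
    rw [cov_of_le L.β hL L.full hle]
    push_cast
    rfl
  unfold th
  rw [tsum_cosets hle hi (F := fun v => gsq (bq ε y x) (Φ v)) hs, finsum_eq_sum_of_fintype,
    Finset.sum_congr rfl fun q _ => hin _ q.out.2, ← Finset.mul_sum,
    ← Summable.tsum_finsetSum, hcov, mul_comm (_ : ℂ) (cov L.β L.X : ℂ), ← div_div,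
    div_mul_eq_mul_div, mul_div_assoc, ← tsum_div_const]
  · congr 1
    refine tsum_congr fun ξ => ?_
    unfold gq avg
    rw [finsum_eq_sum_of_fintype, ← Finset.mul_sum, mul_div_assoc]
  · intro q _
    refine Summable.of_norm ?_
    simpa only [norm_mul, norm_ee, mul_one] using hs'

end QL

end Pool.Agent.Work.MP_c8d35c_al
end

-- merged part: Pool.Agent.Work.MP_c8d35c_al.QErr
section
/-! Error terms of the circle method over the rational numbers.

Plan. `th_err` is `err_bound` of `RErr.lean` for a fixed frame (copy `RErr_tail`, `RErr_u` or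
import the file): the nonzero vectors `η` of `D` have `‖Φ η‖ ≥ μ₀ > 0` (`frame_finite`,
`RealFrame.injective`); `ξ = η / den` (`mem_dual_sc`); `u = y / (y^2 + (x - κ)^2) ≥ den^2 / 8`;
`pack_gauss` with `μ = μ₀ √u / den`, `p = N / 2`; `‖gq‖ ≤ den^(-N/2) √(a 0)` (`a_dvd`).
`other_q` is `other_bound` of `ROther.lean`: the points
`z κ = (den √y, (den x - num) / √y)` of `ℝ^2` are `√y`-separated in the sup norm, have norm at
least `1/4` for `κ ≠ κ₀`, and `den^2 (y^2 + (x - κ)^2) = y (z₁^2 + z₂^2)`; use `pack`.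
`exists_appr`: `Real.exists_rat_abs_sub_le_and_den_le` with `n = ⌈1 / √y⌉`. -/

namespace Pool.Agent.Work.MP_c8d35c_al

open Module Complex

/-- The conditions in Dirichlet's theorem. -/
def ApprQ (y x : ℝ) (κ : ℚ) : Prop :=
  (κ.den : ℝ) ≤ 2 / √y ∧ |(κ.den : ℝ) * x - κ.num| ≤ 2 * √y

theorem exists_appr {y : ℝ} (hy : 0 < y) (hy1 : y ≤ 1) (x : ℝ) : ∃ κ, ApprQ y x κ := by
  have hs : 0 < √y := Real.sqrt_pos.2 hy
  have hs1 : √y ≤ 1 := Real.sqrt_le_one.2 hy1
  obtain ⟨κ, h1, h2⟩ := Real.exists_rat_abs_sub_le_and_den_le x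
    (n := ⌈1 / √y⌉₊) (Nat.ceil_pos.2 (by positivity))
  have h3 : (κ.den : ℝ) ≤ ⌈1 / √y⌉₊ := by exact_mod_cast h2
  have h4 := Nat.ceil_lt_add_one (a := 1 / √y) (by positivity)
  have h5 := Nat.le_ceil (1 / √y)
  have h6 : 1 ≤ 1 / √y := by rwa [le_div_iff₀ hs, one_mul]
  have hd : (0 : ℝ) < κ.den := by exact_mod_cast κ.den_pos
  refine ⟨κ, ?_, ?_⟩
  · rw [show 2 / √y = 1 / √y + 1 / √y by ring]
    linarith
  · have e : (κ.den : ℝ) * x - κ.num = κ.den * (x - κ) := by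
      rw [Rat.cast_def]
      field_simp
    rw [e, abs_mul, abs_of_pos hd]
    rw [le_div_iff₀ (by positivity)] at h1
    rw [div_le_iff₀ hs] at h5
    have h7 : 0 ≤ (κ.den : ℝ) * |x - κ| := by positivity
    nlinarith

/-- The point of the plane attached to a pair. -/
noncomputable def QErr_pt (y x : ℝ) (c a : ℝ) : Fin 2 → ℝ := ![c * √y, (c * x - a) / √y]

theorem QErr_sub (y x c a c' a' : ℝ) :
    QErr_pt y x c a - QErr_pt y x c' a' = QErr_pt y x (c - c') (a - a') := by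
  funext i
  fin_cases i
  · simp [QErr_pt]
    ring
  · simp [QErr_pt]
    ring

theorem QErr_fst (y x c a : ℝ) : |c| * √y ≤ ‖QErr_pt y x c a‖ := by
  have h := norm_le_pi_norm (QErr_pt y x c a) 0
  rwa [show QErr_pt y x c a 0 = c * √y from rfl, Real.norm_eq_abs, abs_mul,
    abs_of_nonneg (Real.sqrt_nonneg _)] at h

theorem QErr_snd (y x c a : ℝ) : |c * x - a| / √y ≤ ‖QErr_pt y x c a‖ := by
  have h := norm_le_pi_norm (QErr_pt y x c a) 1
  rwa [show QErr_pt y x c a 1 = (c * x - a) / √y from rfl, Real.norm_eq_abs, abs_div,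
    abs_of_nonneg (Real.sqrt_nonneg _)] at h

theorem QErr_sq {y : ℝ} (hy : 0 < y) (x c a : ℝ) :
    y * ‖QErr_pt y x c a‖ ^ 2 ≤ c ^ 2 * y ^ 2 + (c * x - a) ^ 2 := by
  rw [← le_div_iff₀' hy, ← Real.le_sqrt (norm_nonneg _) (by positivity)]
  refine (pi_norm_le_iff_of_nonneg (Real.sqrt_nonneg _)).2 fun i => Real.abs_le_sqrt ?_
  rw [le_div_iff₀ hy]
  fin_cases i
  · change (c * √y) ^ 2 * y ≤ _
    rw [mul_pow, Real.sq_sqrt hy.le]
    nlinarith [sq_nonneg (c * x - a)]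
  · change ((c * x - a) / √y) ^ 2 * y ≤ _
    rw [div_pow, Real.sq_sqrt hy.le, div_mul_cancel₀ _ hy.ne']
    nlinarith [sq_nonneg (c * y)]

theorem QErr_one_le {z : ℤ} (h : z ≠ 0) : (1 : ℝ) ≤ |(z : ℝ)| := by
  exact_mod_cast Int.one_le_abs h

theorem QErr_sep {y : ℝ} (hy : 0 < y) (hy1 : y ≤ 1) (x : ℝ) {κ κ' : ℚ} (h : κ ≠ κ') :
    √y ≤ ‖QErr_pt y x κ.den κ.num - QErr_pt y x κ'.den κ'.num‖ := by
  have hs : 0 < √y := Real.sqrt_pos.2 hy
  have hs1 : √y ≤ 1 := Real.sqrt_le_one.2 hy1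
  rw [QErr_sub]
  by_cases hd : κ.den = κ'.den
  · have h1 := QErr_one_le (z := κ.num - κ'.num) fun e => h (Rat.ext (sub_eq_zero.1 e) hd)
    refine le_trans ?_ (QErr_snd _ _ _ _)
    rw [hd, sub_self, zero_mul, zero_sub, abs_neg, le_div_iff₀ hs]
    push_cast at h1
    nlinarith
  · have h1 := QErr_one_le (z := κ.den - κ'.den) fun e => hd (by omega)
    refine le_trans ?_ (QErr_fst _ _ _ _)
    push_cast at h1
    nlinarith

theorem QErr_low {y : ℝ} (hy : 0 < y) {x : ℝ} {κ0 κ : ℚ} (h : ApprQ y x κ0) (hκ : κ ≠ κ0) :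
    1 ≤ 4 * ‖QErr_pt y x κ.den κ.num‖ := by
  have hs : 0 < √y := Real.sqrt_pos.2 hy
  have h1 := QErr_one_le (z := κ.num * κ0.den - κ0.num * κ.den) fun e =>
    hκ (Rat.eq_iff_mul_eq_mul.2 (sub_eq_zero.1 e))
  have e : ((κ.num * κ0.den - κ0.num * κ.den : ℤ) : ℝ) =
      κ.den * (κ0.den * x - κ0.num) - κ0.den * (κ.den * x - κ.num) := by
    push_cast
    ring
  have h3 := QErr_fst y x κ.den κ.num
  have h4 := QErr_snd y x κ.den κ.num
  have h5 : |(κ.den : ℝ)| * |κ0.den * x - κ0.num| ≤ |(κ.den : ℝ)| * (2 * √y) :=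
    mul_le_mul_of_nonneg_left h.2 (abs_nonneg _)
  have h6 : (κ0.den : ℝ) * |κ.den * x - κ.num| ≤ 2 / √y * |κ.den * x - κ.num| :=
    mul_le_mul_of_nonneg_right h.1 (abs_nonneg _)
  have h7 : 2 / √y * |κ.den * x - κ.num| = 2 * (|κ.den * x - κ.num| / √y) := by ring
  rw [e] at h1
  have h8 := h1.trans (abs_sub _ _)
  rw [abs_mul, abs_mul, Nat.abs_cast κ0.den] at h8
  linarith

theorem QErr_term {y : ℝ} (hy : 0 < y) (x : ℝ) (κ : ℚ) {e : ℝ} (he : 0 ≤ e)
    (ht : 1 ≤ 4 * ‖QErr_pt y x κ.den κ.num‖) :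
    (κ.den : ℝ) ^ (-(2 * e)) * (y ^ 2 + (x - κ) ^ 2) ^ (-e) ≤
      5 ^ (2 * e) * y ^ (-e) * (1 + ‖QErr_pt y x κ.den κ.num‖) ^ (-(2 * e)) := by
  have hd : (0 : ℝ) < κ.den := by exact_mod_cast κ.den_pos
  have h1 := QErr_sq hy x κ.den κ.num
  set t := ‖QErr_pt y x κ.den κ.num‖
  have ht0 : 0 < t := by linarith
  have h2 : ∀ r : ℝ, 0 ≤ r → r ^ (-(2 * e)) = (r ^ 2) ^ (-e) := fun r hr => by
    rw [← Real.rpow_natCast, ← Real.rpow_mul hr, mul_neg, Nat.cast_ofNat]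
  have h3 : (κ.den : ℝ) ^ 2 * (y ^ 2 + (x - κ) ^ 2) =
      κ.den ^ 2 * y ^ 2 + (κ.den * x - κ.num) ^ 2 := by
    rw [Rat.cast_def]
    field_simp
  have h4 : (5 : ℝ) ^ (2 * e) = ((1 / 5) ^ 2) ^ (-e) := by
    rw [← h2 _ (by norm_num), one_div, Real.inv_rpow (by norm_num), Real.rpow_neg (by norm_num),
      inv_inv]
  rw [h2 _ hd.le, h2 _ (by positivity), h4, ← Real.mul_rpow (by positivity) (by positivity),
    ← Real.mul_rpow (by positivity) (by positivity),
    ← Real.mul_rpow (by positivity) (by positivity), h3]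
  refine Real.rpow_le_rpow_of_nonpos (by positivity) (le_trans ?_ h1) (neg_nonpos.2 he)
  have h5 : (1 + t) ^ 2 ≤ (5 * t) ^ 2 := pow_le_pow_left₀ (by positivity) (by linarith) 2
  nlinarith

theorem other_q {N : ℕ} (hN : 5 ≤ N) : ∃ C : ℝ, 0 ≤ C ∧ ∀ y : ℝ, 0 < y → y ≤ 1 →
    ∀ (x : ℝ) (κ0 : ℚ), ApprQ y x κ0 → ∀ T : Finset ℚ, κ0 ∉ T →
      ∑ κ ∈ T, (κ.den : ℝ) ^ (-((N : ℝ) / 2)) * (y ^ 2 + (x - κ) ^ 2) ^ (-((N : ℝ) / 4)) ≤
        C * y ^ (-((N : ℝ) / 4) - 1) := by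
  have h5 : (5 : ℝ) ≤ N := by exact_mod_cast hN
  obtain ⟨C, hC, hP⟩ := pack (Fin 2) (s := 2 * ((N : ℝ) / 4)) (by
    rw [Fintype.card_fin, Nat.cast_ofNat]
    linarith)
  refine ⟨5 ^ (2 * ((N : ℝ) / 4)) * C, by positivity, fun y hy hy1 x κ0 hA T hT => ?_⟩
  have h1 := hP √y (Real.sqrt_pos.2 hy) (Real.sqrt_le_one.2 hy1) ℚ T
    (fun κ => QErr_pt y x κ.den κ.num) fun κ _ κ' _ hne => QErr_sep hy hy1 x hne
  rw [Fintype.card_fin, Real.rpow_neg (Real.sqrt_nonneg _), Real.rpow_natCast,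
    Real.sq_sqrt hy.le] at h1
  calc _ ≤ ∑ κ ∈ T, 5 ^ (2 * ((N : ℝ) / 4)) * y ^ (-((N : ℝ) / 4)) *
        (1 + ‖QErr_pt y x κ.den κ.num‖) ^ (-(2 * ((N : ℝ) / 4))) := by
        refine Finset.sum_le_sum fun κ hκ => ?_
        rw [show (N : ℝ) / 2 = 2 * ((N : ℝ) / 4) by ring]
        exact QErr_term hy x κ (by positivity) (QErr_low hy hA fun e => hT (e ▸ hκ))
    _ ≤ 5 ^ (2 * ((N : ℝ) / 4)) * y ^ (-((N : ℝ) / 4)) * (C * y⁻¹) := by
        rw [← Finset.mul_sum]
        exact mul_le_mul_of_nonneg_left h1 (by positivity)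
    _ = _ := by
        rw [Real.rpow_sub hy, Real.rpow_one]
        ring

/-- A series whose finite sums away from one index are bounded in norm. -/
theorem QErr_tail {ι : Type} (f : ι → ℂ) (k : ι) {C : ℝ}
    (h : ∀ T : Finset ι, k ∉ T → ∑ i ∈ T, ‖f i‖ ≤ C) : ‖∑' i, f i - f k‖ ≤ C := by
  classical
  have h1 : ∀ T : Finset ι, ∑ i ∈ T, ‖if i = k then 0 else f i‖ ≤ C := fun T => by
    refine le_trans (le_of_eq ?_) (h _ (Finset.notMem_erase k T))
    rw [← Finset.sum_erase T (a := k) (by simp)]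
    exact Finset.sum_congr rfl fun i hi => by rw [if_neg (Finset.ne_of_mem_erase hi)]
  have h2 : Summable fun i => ‖if i = k then 0 else f i‖ :=
    summable_of_sum_le (fun _ => norm_nonneg _) h1
  have h3 : Summable f := by
    refine (h2.of_norm.add (hasSum_ite_eq k (f k)).summable).congr fun i => ?_
    by_cases h : i = k <;> simp [h]
  rw [h3.tsum_eq_add_tsum_ite k, add_sub_cancel_left]
  exact (norm_tsum_le_tsum_norm h2).trans (h2.tsum_le_of_sum_le h1)

theorem QErr_u {y x : ℝ} (hy : 0 < y) {κ : ℚ} (h : ApprQ y x κ) :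
    (κ.den : ℝ) ^ 2 / 9 ≤ y / (y ^ 2 + (x - κ) ^ 2) := by
  have hd : (0 : ℝ) < κ.den := by exact_mod_cast κ.den_pos
  have h3 := pow_le_pow_left₀ hd.le h.1 2
  have h4 := pow_le_pow_left₀ (abs_nonneg _) h.2 2
  rw [div_pow, Real.sq_sqrt hy.le, le_div_iff₀ hy] at h3
  rw [mul_pow, Real.sq_sqrt hy.le, sq_abs] at h4
  have h5 : (κ.den : ℝ) ^ 2 * (x - κ) ^ 2 = (κ.den * x - κ.num) ^ 2 := by
    rw [Rat.cast_def]
    field_simp
  rw [div_le_div_iff₀ (by norm_num) (by positivity), mul_add, h5]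
  nlinarith

namespace QL

variable {L : QL} {ι : Type} [Fintype ι] {ε : ι → ℝ} {Φ : L.W →+ ι → ℝ}

theorem QErr_min (h : RealFrame L.β ε Φ) :
    ∃ μ : ℝ, 0 < μ ∧ ∀ η ∈ L.D, η ≠ 0 → μ ≤ ‖Φ η‖ := by
  have hf := ((frame_finite h L.full_D 1).subset
    (t := {η | (η ∈ L.D ∧ ‖Φ η‖ ≤ 1) ∧ η ≠ 0}) fun _ h => h.1).image (fun η => ‖Φ η‖) |>.insert 1
  obtain ⟨μ, h1, h2⟩ := Set.exists_min_image _ id hf ⟨1, Set.mem_insert _ _⟩
  refine ⟨μ, ?_, fun η hη h0 => ?_⟩
  · rcases h1 with rfl | ⟨η, hη, rfl⟩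
    · exact one_pos
    · exact norm_pos_iff.2 fun e => hη.2 (h.injective L.nondeg (e.trans (map_zero Φ).symm))
  · rcases le_total ‖Φ η‖ 1 with h3 | h3
    · exact h2 _ (Set.mem_insert_of_mem _ ⟨η, ⟨⟨hη, h3⟩, h0⟩, rfl⟩)
    · exact le_trans (h2 _ (Set.mem_insert _ _)) h3

theorem QErr_gq (L : QL) (κ : ℚ) {ξ : L.W} (hξ : ξ ∈ dualA L.β (sc κ.den L.X)) :
    ‖L.gq κ ξ‖ ≤ (κ.den : ℝ) ^ (-((L.N : ℝ) / 2)) * cov L.β L.X := by
  refine (L.gq_bound κ hξ).trans (mul_le_mul_of_nonneg_left ?_ (by positivity))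
  rw [L.cov_eq]
  exact Real.sqrt_le_sqrt (Nat.cast_le.2 (Nat.le_of_dvd (Nat.pos_of_ne_zero (L.a_ne_zero 0))
    (L.a_dvd (dvd_zero _))))

theorem th_err (h : RealFrame L.β ε Φ) : ∃ C : ℝ, 0 ≤ C ∧ ∀ y : ℝ, 0 < y →
    ∀ (x : ℝ) (κ : ℚ), ApprQ y x κ →
      ‖L.th ε Φ y x - L.gq κ 0 / (cov L.β L.X : ℂ) * psq ε y (x - κ)‖ ≤
        C * y ^ (-((L.N : ℝ) / 4)) := by
  obtain ⟨μ0, hμ0, hlow⟩ := QErr_min h
  set q : ℝ := (L.N : ℝ) / 4 with hq
  obtain ⟨C, hC, hp⟩ := pack_gauss ι (μ0 := μ0 * (1 / 3)) (p := 2 * q) (by positivity)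
    (by positivity)
  refine ⟨C * μ0 ^ (-(2 * q)), by positivity, fun y hy x κ hA => ?_⟩
  have hd : (0 : ℝ) < κ.den := by exact_mod_cast κ.den_pos
  have hcov := cov_pos L.nondeg L.full
  have hw : 0 < y ^ 2 + (x - κ) ^ 2 := by positivity
  set u := y / (y ^ 2 + (x - κ) ^ 2) with hu
  have hu0 : 0 < u := div_pos hy hw
  set ρ := √u / κ.den with hρ
  have hρ1 : 1 / 3 ≤ ρ := by
    rw [hρ, le_div_iff₀ hd]
    refine Real.le_sqrt_of_sq_le (le_trans (le_of_eq ?_) (QErr_u hy hA))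
    ring
  have hρ0 : 0 < ρ := lt_of_lt_of_le (by positivity) hρ1
  let z : dualA L.β (sc κ.den L.X) → ι → ℝ := fun ξ => √u • Φ ξ
  have hz : ∀ ξ, ξ ≠ 0 → μ0 * ρ ≤ ‖z ξ‖ := fun ξ h0 => by
    have h1 := hlow _ (L.mem_dual_sc.1 ξ.2) (smul_ne_zero (Nat.cast_ne_zero.2 κ.den_ne_zero)
      fun e => h0 (Subtype.ext e))
    rw [Nat.cast_smul_eq_nsmul, map_nsmul, ← Nat.cast_smul_eq_nsmul ℝ, norm_smul,
      Real.norm_natCast] at h1
    rw [norm_smul, Real.norm_of_nonneg (Real.sqrt_nonneg _), hρ, ← mul_div_assoc, div_le_iff₀ hd]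
    nlinarith [Real.sqrt_nonneg u]
  have key := QErr_tail (fun ξ : dualA L.β (sc κ.den L.X) =>
      gsq (fun i => (bq ε y (x - κ) i)⁻¹) (Φ ξ) * L.gq κ ξ) 0
    (C := (κ.den : ℝ) ^ (-((L.N : ℝ) / 2)) * cov L.β L.X * (C * (μ0 * ρ) ^ (-(2 * q))))
    fun t ht => by
      refine le_trans ?_ (mul_le_mul_of_nonneg_left (hp _ (by gcongr) _ t z (fun ξ _ η _ h => by
        refine (hz (ξ - η) (sub_ne_zero.2 h)).trans (le_of_eq (congrArg _ ?_))
        simp [z, smul_sub]) fun ξ h => hz ξ fun e => ht (e ▸ h)) (by positivity))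
      rw [Finset.mul_sum]
      refine Finset.sum_le_sum fun ξ _ => ?_
      rw [norm_mul, gsq, norm_cexp_gauss, mul_comm]
      refine mul_le_mul (L.QErr_gq κ ξ.2) (le_of_eq ?_) (by positivity) (by positivity)
      simp only [z, Pi.smul_apply, smul_eq_mul, mul_pow, Real.sq_sqrt hu0.le, bq_inv_re h.sign,
        ← hu]
  have e0 : gsq (fun i => (bq ε y (x - κ) i)⁻¹) (Φ (0 : dualA L.β (sc κ.den L.X))) *
      L.gq κ (0 : dualA L.β (sc κ.den L.X)) = L.gq κ 0 := by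
    simp [gsq]
  rw [e0] at key
  rw [th_cusp h hy x κ, mul_comm _ (psq ε y _), mul_div_assoc', mul_div_right_comm, ← mul_sub,
    norm_mul, norm_div, norm_psq h.sign hy, Complex.norm_real, Real.norm_of_nonneg hcov.le, h.card]
  have h2 : ∀ r : ℝ, 0 ≤ r → r ^ (-(2 * q)) = (r ^ 2) ^ (-q) := fun r hr => by
    rw [← Real.rpow_natCast, ← Real.rpow_mul hr, mul_neg, Nat.cast_ofNat]
  have e4 : y = (y ^ 2 + (x - κ) ^ 2) * (κ.den : ℝ) ^ 2 * ρ ^ 2 := by
    rw [hρ, div_pow, Real.sq_sqrt hu0.le, hu]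
    field_simp
  have e5 : y ^ (-q) = (y ^ 2 + (x - κ) ^ 2) ^ (-q) * (κ.den : ℝ) ^ (-(2 * q)) *
      ρ ^ (-(2 * q)) := by
    rw [h2 _ hd.le, h2 _ hρ0.le, ← Real.mul_rpow hw.le (by positivity),
      ← Real.mul_rpow (by positivity) (by positivity), ← e4]
  refine (mul_le_mul_of_nonneg_left key (by positivity)).trans (le_of_eq ?_)
  rw [e5, Real.mul_rpow hμ0.le hρ0.le, show (L.N : ℝ) / 2 = 2 * q by rw [hq]; ring]
  change (y ^ 2 + (x - κ) ^ 2) ^ (-q) / _ * _ = _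
  field_simp

/-- Pointwise approximation by the sum over all cusps (`theta_approx` of `RCM.lean`). -/
theorem th_approx (h : RealFrame L.β ε Φ) (hN : 5 ≤ L.N) : ∃ C : ℝ, 0 ≤ C ∧ ∀ y : ℝ, 0 < y →
    y ≤ 1 → ∀ x : ℝ,
      ‖L.th ε Φ y x - ∑' κ : ℚ, L.gq κ 0 / (cov L.β L.X : ℂ) * psq ε y (x - κ)‖ ≤
        C * y ^ (-((L.N : ℝ) / 4) - 1) := by
  obtain ⟨C1, hC1, h1⟩ := th_err h
  obtain ⟨C2, hC2, h2⟩ := other_q hN
  have hc := cov_pos L.nondeg L.full
  refine ⟨C1 + C2, add_nonneg hC1 hC2, fun y hy hy1 x => ?_⟩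
  obtain ⟨κ0, hκ⟩ := exists_appr hy hy1 x
  have e1 := h1 y hy x κ0 hκ
  have e2 := QErr_tail (fun κ : ℚ => L.gq κ 0 / (cov L.β L.X : ℂ) * psq ε y (x - κ)) κ0
    (C := C2 * y ^ (-((L.N : ℝ) / 4) - 1)) fun T hT => by
      refine le_trans (Finset.sum_le_sum fun κ _ => ?_) (h2 y hy hy1 x κ0 hκ T hT)
      rw [norm_mul, norm_div, norm_psq h.sign hy, Complex.norm_real, Real.norm_of_nonneg hc.le,
        h.card]
      exact mul_le_mul_of_nonneg_right ((div_le_iff₀ hc).2 (L.QErr_gq κ (zero_mem _)))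
        (by positivity)
  have e3 : y ^ (-((L.N : ℝ) / 4)) ≤ y ^ (-((L.N : ℝ) / 4) - 1) :=
    Real.rpow_le_rpow_of_exponent_ge hy hy1 (by linarith)
  have e4 := norm_sub_le_norm_sub_add_norm_sub (L.th ε Φ y x)
    (L.gq κ0 0 / (cov L.β L.X : ℂ) * psq ε y (x - κ0))
    (∑' κ : ℚ, L.gq κ 0 / (cov L.β L.X : ℂ) * psq ε y (x - κ))
  rw [norm_sub_rev] at e2
  have e5 := mul_le_mul_of_nonneg_left e3 hC1
  linarith

end QL

end Pool.Agent.Work.MP_c8d35c_al
end

-- merged part: Pool.Agent.Work.MP_c8d35c_al.RUnf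
section
/-! A fundamental domain for the inverse different: unfolding and orthogonality. -/

namespace Pool.Agent.Work.MP_c8d35c_al

open NumberField Module MeasureTheory

variable {K : Type} [Field K] [NumberField K] [IsTotallyReal K]

/-- `F` is a fundamental domain for the translations by the inverse different. -/
structure Fund (F : Set (Emb K → ℝ)) : Prop where
  meas : MeasurableSet F
  vol : volume F = ENNReal.ofReal (1 / √(dsc K))
  unf : ∀ h : (Emb K → ℝ) → ℂ, Integrable h →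
    HasSum (fun a : Od K => ∫ x in F, h (x - emb (a : K))) (∫ x, h x)
  orth : ∀ t : 𝓞 K, t ≠ 0 → ∫ x in F, ee (∑ σ : Emb K, x σ * σ t) = 0

theorem runf_integrable_tsum {α ι : Type} [MeasurableSpace α] {μ : Measure α} [Countable ι]
    {Φ : ι → α → ℂ} (h1 : ∀ i, Integrable (Φ i) μ) (h2 : Summable fun i => ∫ a, ‖Φ i a‖ ∂μ) :
    Integrable (fun a => ∑' i, Φ i a) μ := by
  refine ⟨AEStronglyMeasurable.tsum fun i => (h1 i).1, ?_⟩
  calc ∫⁻ a, ‖∑' i, Φ i a‖ₑ ∂μ ≤ ∫⁻ a, ∑' i, ‖Φ i a‖ₑ ∂μ :=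
        lintegral_mono fun a => enorm_tsum_le_tsum_enorm
    _ = ∑' i, ∫⁻ a, ‖Φ i a‖ₑ ∂μ := lintegral_tsum fun i => (h1 i).1.enorm
    _ = ∑' i, ENNReal.ofReal (∫ a, ‖Φ i a‖ ∂μ) :=
        tsum_congr fun i => (ofReal_integral_norm_eq_lintegral_enorm (h1 i)).symm
    _ = ENNReal.ofReal (∑' i, ∫ a, ‖Φ i a‖ ∂μ) :=
        (ENNReal.ofReal_tsum_of_nonneg (fun i => integral_nonneg fun a => norm_nonneg _) h2).symm
    _ < ⊤ := ENNReal.ofReal_lt_top

theorem runf_half : ee (1 / 2) = -1 := by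
  rw [ee, ← Complex.exp_pi_mul_I]
  congr 1
  push_cast
  ring

theorem runf_shift {ι : Type} [Fintype ι] (F : Set (ι → ℝ)) (v : ι → ℝ) (h : (ι → ℝ) → ℂ) :
    ∫ x in (fun y => v + y) '' F, h x = ∫ x in F, h (v + x) :=
  (measurePreserving_add_left volume v).setIntegral_image_emb
    (measurableEmbedding_addLeft v) _ _

theorem runf_domain (K : Type) [Field K] [NumberField K] [IsTotallyReal K] :
    ∃ F : Set (Emb K → ℝ), MeasurableSet F ∧ volume F = ENNReal.ofReal (1 / √(dsc K)) ∧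
      IsAddFundamentalDomain ((Od K).map (embHom K)) F volume := by
  classical
  obtain ⟨b, hb⟩ := (full_Od (K := K)).exists_basis (Emb K) card_emb
  have hdet := (realFrame_emb (K := K)).abs_det b
  rw [← hb, cov_Od] at hdet
  set G : Matrix (Emb K) (Emb K) ℝ := Matrix.of fun i j => embHom K (b j) i with hG
  have hpos : 0 < 1 / √(dsc K) := by
    have := one_le_dsc (K := K)
    positivity
  have hG0 : G.det ≠ 0 := by
    intro h0
    rw [h0, abs_zero] at hdet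
    exact hpos.ne hdet
  have hu : IsUnit G := (Matrix.isUnit_iff_isUnit_det G).2 (isUnit_iff_ne_zero.2 hG0)
  have hli : LinearIndependent ℝ fun j => embHom K (b j) :=
    Matrix.linearIndependent_cols_iff_isUnit.2 hu
  have : Nonempty (Emb K) := by
    rw [← Fintype.card_pos_iff, card_emb]
    exact finrank_pos
  set e := basisOfLinearIndependentOfCardEqFinrank hli (finrank_fintype_fun_eq_card ℝ).symm
    with he
  have he' : ⇑e = fun j => embHom K (b j) := coe_basisOfLinearIndependentOfCardEqFinrank _ _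
  refine ⟨ZSpan.fundamentalDomain e, ZSpan.fundamentalDomain_measurableSet e, ?_, ?_⟩
  · rw [ZSpan.volume_fundamentalDomain, ← hdet, ← Matrix.det_transpose, he']
    rfl
  · have h1 : (Od K).map (embHom K) = (Submodule.span ℤ (Set.range e)).toAddSubgroup := by
      rw [Submodule.span_int_eq_addSubgroupClosure, hb, AddMonoidHom.map_closure,
        ← Set.range_comp, he']
      rfl
    rw [h1]
    exact ZSpan.isAddFundamentalDomain' e volume

theorem runf_inj : Function.Injective (embHom K) := by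
  have : Nonempty (Emb K) := by
    rw [← Fintype.card_pos_iff, card_emb]
    exact finrank_pos
  obtain ⟨σ⟩ := this
  intro a b h
  exact σ.injective (congrFun h σ)

theorem exists_fund (K : Type) [Field K] [NumberField K] [IsTotallyReal K] :
    ∃ F : Set (Emb K → ℝ), Fund F := by
  obtain ⟨F, h1, h2, h3⟩ := runf_domain K
  have : Countable (Od K) := full_Od.countable
  let φ := (Od K).equivMapOfInjective (embHom K) runf_inj
  have : Countable ((Od K).map (embHom K)) := φ.symm.injective.countable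
  refine ⟨F, h1, h2, fun h hh => ?_, fun t ht => ?_⟩
  · have h4 := hasSum_integral_measure (μ := fun g : (Od K).map (embHom K) =>
      volume.restrict ((fun y => (g : Emb K → ℝ) + y) '' F)) (f := h)
      (by exact h3.sum_restrict.symm ▸ hh)
    have h6 : (Measure.sum fun g : (Od K).map (embHom K) =>
      volume.restrict ((fun y => (g : Emb K → ℝ) + y) '' F)) = volume := h3.sum_restrict
    rw [h6] at h4
    simp only [runf_shift] at h4
    have h5 := ((Equiv.neg (Od K)).trans φ.toEquiv).hasSum_iff.2 h4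
    have h7 : ∀ (a : Od K) (x : Emb K → ℝ), x - emb (a : K) =
        (((Equiv.neg (Od K)).trans φ.toEquiv a : (Od K).map (embHom K)) : Emb K → ℝ) + x :=
      fun a x => by
        change x - embHom K a = embHom K (-a) + x
        rw [map_neg, neg_add_eq_sub]
    simp only [h7]
    exact h5
  · set d : ℝ := (Fintype.card (Emb K) : ℝ) with hd
    have hd0 : 0 < d := by
      rw [hd, card_emb]
      exact_mod_cast finrank_pos
    set v : Emb K → ℝ := fun σ => (2 * d * σ t)⁻¹ with hv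
    have ht' : (t : K) ≠ 0 := by simpa using ht
    have h4 : ∑ σ : Emb K, v σ * σ t = 1 / 2 := by
      have h5 : ∀ σ : Emb K, v σ * σ t = (2 * d)⁻¹ := fun σ => by
        have h6 : σ t ≠ 0 := (map_ne_zero σ).2 ht'
        simp only [hv]
        field_simp
      simp only [h5, Finset.sum_const, Finset.card_univ, nsmul_eq_mul, ← hd]
      field_simp
    have h5 := h3.setIntegral_eq (h3.vadd_of_comm v)
      (f := fun x => ee (∑ σ : Emb K, x σ * σ t)) (by
        rintro ⟨_, a, ha, rfl⟩ x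
        obtain ⟨k, hk⟩ := mem_Od.1 ha t
        have h6 := sum_emb ((t : K) * a)
        rw [hk] at h6
        have h7 : ∑ σ : Emb K, (embHom K a + x) σ * σ t = (k : ℝ) + ∑ σ : Emb K, x σ * σ t := by
          rw [← Rat.cast_intCast (α := ℝ), ← h6, ← Finset.sum_add_distrib]
          refine Finset.sum_congr rfl fun σ _ => ?_
          rw [map_mul, Pi.add_apply, add_mul, mul_comm]
          rfl
        change ee (∑ σ : Emb K, (embHom K a + x) σ * σ t) = _
        rw [h7, ee_add, ee_int, one_mul])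
    have h6 := runf_shift F v fun x => ee (∑ σ : Emb K, x σ * σ t)
    have h7 : ∀ x : Emb K → ℝ, ee (∑ σ : Emb K, (v + x) σ * σ t) =
        -ee (∑ σ : Emb K, x σ * σ t) := fun x => by
      simp only [Pi.add_apply, add_mul, Finset.sum_add_distrib]
      rw [h4, ee_add, runf_half, neg_one_mul]
    simp only [h7, integral_neg] at h6
    have h8 := h5.trans h6
    linear_combination (1 / 2) * h8

theorem Fund.unfold {F : Set (Emb K → ℝ)} (hF : Fund F) {G : K → ℂ}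
    (hG : ∀ κ, ∀ a ∈ Od K, G (κ + a) = G κ) {S : ℝ}
    (hS : ∀ s : Finset (K ⧸ Od K), ∑ q ∈ s, ‖G q.out‖ ≤ S) {h : (Emb K → ℝ) → ℂ}
    (hh : Integrable h) :
    IntegrableOn (fun x => ∑' κ : K, G κ * h (x - emb κ)) F ∧
      ‖∫ x in F, ∑' κ : K, G κ * h (x - emb κ)‖ ≤ S * ‖∫ x, h x‖ := by
  have : Countable K := Countable.of_equiv _ (finBasis ℚ K).equivFun.toEquiv.symm
  have hb : Function.Bijective fun p : (K ⧸ Od K) × Od K => p.1.out + (p.2 : K) := by
    constructor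
    · rintro ⟨q, a⟩ ⟨q', a'⟩ h1
      have h2 : q = q' := by
        have h3 := congrArg (QuotientAddGroup.mk (s := Od K)) h1
        simpa using h3
      subst h2
      exact Prod.ext rfl (Subtype.ext (add_left_cancel h1))
    · intro κ
      obtain ⟨a, ha⟩ := QuotientAddGroup.mk_out_eq_add (Od K) κ
      exact ⟨(κ, -a), by simp [ha]⟩
  let e := Equiv.ofBijective _ hb
  have he : ∀ (q : K ⧸ Od K) (a : Od K) (x : Emb K → ℝ),
      G (e (q, a)) * h (x - emb (e (q, a))) = G q.out * h (x - emb (a : K) - emb q.out) :=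
    fun q a x => by
      change G (q.out + a) * h (x - emb (q.out + a)) = _
      rw [hG _ _ a.2, emb_add, sub_sub, add_comm]
  have h1 : ∀ κ : K, Integrable (fun x => G κ * h (x - emb κ)) (volume.restrict F) :=
    fun κ => ((hh.comp_sub_right _).integrableOn).const_mul _
  have h2 : ∀ q : K ⧸ Od K, HasSum
      (fun a : Od K => ∫ x in F, ‖G (e (q, a)) * h (x - emb (e (q, a)))‖) (‖G q.out‖ * ∫ x, ‖h x‖) := fun q => by
    have h3 := hF.unf (fun x => (‖h (x - emb q.out)‖ : ℂ)) (hh.comp_sub_right _).norm.ofReal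
    simp only [integral_complex_ofReal, Complex.hasSum_ofReal] at h3
    rw [integral_sub_right_eq_self (fun x => ‖h x‖)] at h3
    simp only [he, norm_mul, integral_const_mul]
    exact h3.mul_left _
  have h3 : Summable fun κ : K => ∫ x in F, ‖G κ * h (x - emb κ)‖ := by
    rw [← e.summable_iff]
    refine (summable_prod_of_nonneg fun p => integral_nonneg fun x => norm_nonneg _).2
      ⟨fun q => (h2 q).summable, ?_⟩
    have h4 : Summable fun q : K ⧸ Od K => ‖G q.out‖ * ∫ x, ‖h x‖ :=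
      (summable_of_sum_le (fun q => norm_nonneg _) hS).mul_right _
    exact h4.congr fun q => (h2 q).tsum_eq.symm
  refine ⟨runf_integrable_tsum h1 h3, ?_⟩
  have h4 := e.hasSum_iff.2 (hasSum_integral_of_summable_integral_norm h1 h3)
  have h5 := h4.prod_fiberwise (g := fun q => G q.out * ∫ x, h x) fun q => by
    have h6 := hF.unf (fun x => h (x - emb q.out)) (hh.comp_sub_right _)
    rw [integral_sub_right_eq_self] at h6
    simp only [Function.comp_apply, he]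
    simp only [integral_const_mul]
    exact h6.mul_left _
  refine le_of_tendsto' h5.norm fun s => ?_
  rw [← Finset.sum_mul, norm_mul]
  exact mul_le_mul_of_nonneg_right ((norm_sum_le _ _).trans (hS s)) (norm_nonneg _)

/-- Extraction of a Fourier coefficient. -/
theorem Fund.coeff {F : Set (Emb K → ℝ)} (hF : Fund F) {ι : Type} [Countable ι] {w : ι → ℝ}
    (hw0 : ∀ i, 0 ≤ w i) (hw : Summable w) (q : ι → 𝓞 K) :
    IntegrableOn (fun x => ∑' i, (w i : ℂ) * ee (∑ σ : Emb K, x σ * σ (q i))) F ∧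
      ∀ s : Finset ι, (∀ i ∈ s, q i = 0) → ∑ i ∈ s, w i ≤
        √(dsc K) * ‖∫ x in F, ∑' i, (w i : ℂ) * ee (∑ σ : Emb K, x σ * σ (q i))‖ := by
  classical
  have hpos : 0 < √(dsc K) := by
    have := one_le_dsc (K := K)
    positivity
  have hfin : IsFiniteMeasure (volume.restrict F) :=
    ⟨by rw [Measure.restrict_apply_univ, hF.vol]; exact ENNReal.ofReal_lt_top⟩
  have hV : volume.real F = 1 / √(dsc K) := by
    rw [Measure.real, hF.vol, ENNReal.toReal_ofReal (by positivity)]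
  have hn : ∀ i (x : Emb K → ℝ), ‖(w i : ℂ) * ee (∑ σ : Emb K, x σ * σ (q i))‖ = w i :=
    fun i x => by rw [norm_mul, norm_ee, mul_one, Complex.norm_of_nonneg (hw0 i)]
  have h1 : ∀ i, Integrable (fun x : Emb K → ℝ => (w i : ℂ) * ee (∑ σ : Emb K, x σ * σ (q i)))
      (volume.restrict F) := fun i => by
    refine Integrable.of_bound (Continuous.aestronglyMeasurable ?_) (w i)
      (ae_of_all _ fun x => (hn i x).le)
    exact continuous_const.mul (continuous_ee.comp (by fun_prop))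
  have h2 : Summable fun i => ∫ x in F, ‖(w i : ℂ) * ee (∑ σ : Emb K, x σ * σ (q i))‖ := by
    simp only [hn, integral_const, smul_eq_mul]
    exact hw.mul_left _
  refine ⟨runf_integrable_tsum h1 h2, fun s hs => ?_⟩
  have h3 := Complex.hasSum_re (hasSum_integral_of_summable_integral_norm h1 h2)
  have h4 : ∀ i, (∫ x in F, (w i : ℂ) * ee (∑ σ : Emb K, x σ * σ (q i))).re =
      if q i = 0 then w i * (1 / √(dsc K)) else 0 := fun i => by
    rw [integral_const_mul]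
    split_ifs with h0
    · simp [h0, ee_zero, hV]
    · rw [hF.orth _ h0]
      simp
  simp only [h4] at h3
  have h5 := sum_le_hasSum s (fun i _ => by
    have := hw0 i
    split_ifs <;> positivity) h3
  rw [Finset.sum_congr rfl fun i hi => if_pos (hs i hi), ← Finset.sum_mul, mul_one_div,
    div_le_iff₀' hpos] at h5
  exact h5.trans (mul_le_mul_of_nonneg_left (Complex.re_le_norm _) hpos.le)

end Pool.Agent.Work.MP_c8d35c_al
end
end

-- merged part: Pool.Agent.Work.MP_c8d35c_al.QFrame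
section
-- merged part: Pool.Agent.Work.MP_c8d35c_al.QFrame
section
/-! Lattices inside Lorentz space.

Plan. `LF.real`: unfold `lor`, `Fin.sum_univ_succ`. `LF.sig`: `Sig.of_frame`. `LF.sep`: the real
matrix with columns `ρ (b j)` is invertible (`RealFrame.abs_det`, `cov_pos`), so the `ρ x` span;
`eq_zero_of_lor`. `LF.finite`: move `x` to `e0` by `exists_isom_e0` (the composite with an
isometry is again a frame), bound the coordinates, use `frame_finite`.
`pow_stab`: the subgroups `g^j X` lie between `a X'` and `b⁻¹ X'`, and there are finitely many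
subgroups between two full lattices (finite index); pigeonhole.
`big_of_relIndex`: `Subgroup.exists_pow_mem_of_relIndex_ne_zero`.
`exists_inv`: `Y` is the subgroup generated by all `g' x`; finitely many cosets of
`autL ⊓ Γ` in `Γ`, so `Y` lies in a finite sum of full lattices `g' X` (see
`exists_inv_lattice` in `RInv.lean`); an element of `autL` maps `ρ X` to itself. -/

namespace Pool.Agent.Work.MP_c8d35c_al

open Matrix

variable {n : ℕ}

/-- The invertible matrices that preserve a set. -/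
def stabL (Y : Set (Fin (n + 1) → ℝ)) : Subgroup (GL (Fin (n + 1)) ℝ) where
  carrier := {g | ∀ v, g.val *ᵥ v ∈ Y ↔ v ∈ Y}
  one_mem' := fun v => by rw [Units.val_one, Matrix.one_mulVec]
  mul_mem' := fun {g h} hg hh v => by rw [gl_mul_mulVec, hg, hh]
  inv_mem' := fun {g} hg v => by rw [← hg, gl_mulVec_inv]

lemma mem_stabL {Y : Set (Fin (n + 1) → ℝ)} {g : GL (Fin (n + 1)) ℝ} :
    g ∈ stabL Y ↔ ∀ v, g.val *ᵥ v ∈ Y ↔ v ∈ Y := Iff.rfl

/-- The vectors with integral coordinates after the change of basis `P`. -/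
def latP (P : GL (Fin (n + 1)) ℝ) : Set (Fin (n + 1) → ℝ) :=
  {v | ∀ i, ∃ z : ℤ, (P.val *ᵥ v) i = z}

/-- `ρ` is an isometric embedding of the rational space in Lorentz space. -/
structure LF (L : QL) (ρ : L.W →+ Fin (n + 1) → ℝ) : Prop where
  rank : L.N = n + 1
  form : ∀ x y, lor (ρ x) (ρ y) = (L.β x y : ℝ)

/-- The isometries of hyperbolic space that preserve the lattice. -/
def autL (L : QL) (ρ : L.W →+ Fin (n + 1) → ℝ) : Subgroup (GL (Fin (n + 1)) ℝ) :=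
  isomH n ⊓ stabL (ρ '' L.X)

/-- `g'` is the rational map that induces `g`. -/
def Ind {L : QL} (ρ : L.W →+ Fin (n + 1) → ℝ) (g : GL (Fin (n + 1)) ℝ)
    (g' : L.W ≃ₗ[ℚ] L.W) : Prop := ∀ x, g.val *ᵥ ρ x = ρ (g' x)

/-- Every automorphism of the lattice has a power in `Γ`. -/
def Big (L : QL) (ρ : L.W →+ Fin (n + 1) → ℝ) (Γ : Subgroup (GL (Fin (n + 1)) ℝ)) : Prop :=
  ∀ g ∈ isomH n, ∀ g' : L.W ≃ₗ[ℚ] L.W, Ind ρ g g' → (∀ x, g' x ∈ L.X ↔ x ∈ L.X) →
    ∃ k : ℕ, 0 < k ∧ g ^ k ∈ Γ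

variable {L : QL} {ρ : L.W →+ Fin (n + 1) → ℝ} {Γ : Subgroup (GL (Fin (n + 1)) ℝ)}

theorem rho_smul (ρ : L.W →+ Fin (n + 1) → ℝ) (c : ℚ) (x : L.W) : ρ (c • x) = (c : ℝ) • ρ x :=
  map_ratCast_smul ρ ℚ ℝ c x

theorem Ind.one : Ind ρ 1 (LinearEquiv.refl ℚ L.W) := fun x => by simp

theorem Ind.mul {g h : GL (Fin (n + 1)) ℝ} {g' h' : L.W ≃ₗ[ℚ] L.W} (hg : Ind ρ g g')
    (hh : Ind ρ h h') : Ind ρ (g * h) (h'.trans g') := fun x => by
  rw [gl_mul_mulVec, hh, hg, LinearEquiv.trans_apply]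

theorem Ind.inv {g : GL (Fin (n + 1)) ℝ} {g' : L.W ≃ₗ[ℚ] L.W} (hg : Ind ρ g g') :
    Ind ρ g⁻¹ g'.symm := fun x => by
  conv_lhs => rw [← g'.apply_symm_apply x, ← hg, gl_inv_mulVec]

theorem LF.real (h : LF L ρ) : RealFrame L.β (fun i => if i = 0 then -1 else 1) ρ := by
  refine ⟨(Fintype.card_fin _).trans h.rank.symm, fun i => by split_ifs <;> simp, fun x y => ?_⟩
  rw [← h.form, lor, Fin.sum_univ_succ]
  simp

theorem LF.injective (h : LF L ρ) : Function.Injective ρ := by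
  exact h.real.injective L.nondeg

theorem LF.sig (h : LF L ρ) : L.Sig n 1 := by
  refine QL.Sig.of_frame h.real ?_ ?_
  · rw [Nat.card_congr (Equiv.subtypeEquivRight (q := fun i => ¬ i = 0) fun i => by
      split_ifs with e <;> simp [e] <;> norm_num)]
    simp
  · rw [Nat.card_congr (Equiv.subtypeEquivRight (q := fun i => i = 0) fun i => by
      split_ifs with e <;> simp [e] <;> norm_num)]
    simp

theorem LF.QFrame_span (h : LF L ρ) : Submodule.span ℝ (Set.range ρ) = ⊤ := by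
  obtain ⟨T, hT, -⟩ := QL.QSig_equiv h.real (Module.finBasis ℚ L.W)
  refine top_unique fun y _ => ?_
  rw [← T.apply_symm_apply y, pi_eq_sum_univ (T.symm y), map_sum]
  refine sum_mem fun i _ => ?_
  rw [map_smul]
  refine Submodule.smul_mem _ _ (Submodule.subset_span ⟨Module.finBasis ℚ L.W i, ?_⟩)
  rw [← hT]
  congr 1
  funext j
  rw [Module.Basis.repr_self_apply]
  split_ifs <;> simp

theorem LF.sep (h : LF L ρ) {z : Fin (n + 1) → ℝ} (hz : ∀ x, lor z (ρ x) = 0) : z = 0 := by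
  refine eq_zero_of_lor z fun y => ?_
  induction h.QFrame_span.ge (Submodule.mem_top (x := y)) using Submodule.span_induction with
  | mem _ hy => exact hy.choose_spec ▸ hz _
  | zero => exact lor_zero_right z
  | add _ _ _ _ h1 h2 => rw [lor_add_right, h1, h2, add_zero]
  | smul c _ _ h1 => rw [lor_smul_right, h1, mul_zero]

theorem LF.ext (h : LF L ρ) {s t : Matrix (Fin (n + 1)) (Fin (n + 1)) ℝ}
    (H : ∀ x, s *ᵥ ρ x = t *ᵥ ρ x) : s = t := by
  exact Matrix.toLin'.injective (LinearMap.ext_on_range h.QFrame_span H)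

theorem LF.finite (h : LF L ρ) {x : Fin (n + 1) → ℝ} (hx : x ∈ hyp n) {Y : AddSubgroup L.W}
    (hY : Full Y) (T : ℝ) (B : ℚ) :
    {y : L.W | y ∈ Y ∧ |lor (ρ y) x| ≤ T ∧ L.β y y ≤ B}.Finite := by
  obtain ⟨g, hg, rfl⟩ := exists_isom_e0 hx
  have h' : LF L ((Matrix.mulVecLin (g⁻¹).val).toAddMonoidHom.comp ρ) :=
    ⟨h.rank, fun x y => (isomH_lor (inv_mem hg) _ _).trans (h.form x y)⟩
  refine (QL.frame_finite h'.real hY (|T| + |(B : ℝ)| + T ^ 2 + 1)).subset
    fun y ⟨h1, h2, h3⟩ => ⟨h1, ?_⟩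
  have h4 := (h'.form y y).trans_le (Rat.cast_le.2 h3)
  rw [lor_comm, isomH_lor_inv hg, lor_comm, lor_e0, abs_neg] at h2
  change lor ((g⁻¹).val *ᵥ ρ y) ((g⁻¹).val *ᵥ ρ y) ≤ _ at h4
  change ‖(g⁻¹).val *ᵥ ρ y‖ ≤ _
  generalize (g⁻¹).val *ᵥ ρ y = v at h2 h4
  rw [pi_norm_le_iff_of_nonneg (by positivity), Fin.forall_fin_succ]
  have h5 := abs_le.1 h2
  refine ⟨h2.trans (by linarith [le_abs_self T, abs_nonneg (B : ℝ), sq_nonneg T]), fun i => ?_⟩
  have h6 := Finset.single_le_sum (f := fun i : Fin n => v i.succ * v i.succ)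
    (fun i _ => mul_self_nonneg _) (Finset.mem_univ i)
  rw [lor] at h4
  rw [Real.norm_eq_abs]
  nlinarith [le_abs_self (B : ℝ), abs_nonneg T, abs_mul_abs_self (v i.succ), sq_nonneg (|v i.succ| - 1)]

theorem LF.isom (h : LF L ρ) {g : GL (Fin (n + 1)) ℝ} (hg : g ∈ isomH n)
    {g' : L.W ≃ₗ[ℚ] L.W} (hi : Ind ρ g g') (x y : L.W) : L.β (g' x) (g' y) = L.β x y := by
  exact Rat.cast_injective (α := ℝ) (by rw [← h.form, ← h.form, ← hi, ← hi, isomH_lor hg])

theorem LF.re (h : LF L ρ) {c : ℚ} (hc : 0 < c) {X : AddSubgroup L.W} (hX : Full X)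
    (he : ∀ x ∈ X, ∃ z : ℤ, c * L.β x x = 2 * z) :
    LF (L.re c hc.ne' X hX he) (√(c : ℝ) • ρ) := by
  refine ⟨h.rank, fun x y => ?_⟩
  change lor (√(c : ℝ) • ρ x) (√(c : ℝ) • ρ y) = ((c * L.β x y : ℚ) : ℝ)
  rw [lor_smul_left, lor_smul_right, h.form, ← mul_assoc, Real.mul_self_sqrt (by positivity),
    Rat.cast_mul]

theorem pow_stab {W : Type} [AddCommGroup W] [Module ℚ W] [FiniteDimensional ℚ W]
    {X X' : AddSubgroup W} (hX : Full X) (hX' : Full X') (g : W ≃ₗ[ℚ] W)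
    (hg : ∀ x, g x ∈ X' ↔ x ∈ X') : ∃ k : ℕ, 0 < k ∧ ∀ x, (g ^ k) x ∈ X ↔ x ∈ X := by
  have hj : ∀ (j : ℕ) x, (g ^ j) x ∈ X' ↔ x ∈ X' := fun j => by
    induction j with
    | zero => exact fun x => Iff.rfl
    | succ j ih => exact fun x => by rw [pow_succ, LinearEquiv.mul_apply, ih, hg]
  obtain ⟨a, ha, ha'⟩ := hX.exists_nsmul (RLat_fg hX')
  obtain ⟨b, hb, hb'⟩ := hX'.exists_nsmul (RLat_fg hX)
  have hb0 : (b : ℚ) ≠ 0 := Nat.cast_ne_zero.2 hb.ne'
  have : ((sc a X').addSubgroupOf (sc (b : ℚ)⁻¹ X')).FiniteIndex :=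
    ⟨(hX'.sc (Nat.cast_ne_zero.2 ha.ne')).relIndex_ne_zero (hX'.sc (inv_ne_zero hb0))⟩
  obtain ⟨i, j, hij, e⟩ := Set.Finite.exists_lt_map_eq_of_forall_mem (t := Set.univ) (f := fun j : ℕ =>
    fun q : sc (b : ℚ)⁻¹ X' ⧸ (sc a X').addSubgroupOf (sc (b : ℚ)⁻¹ X') => (g ^ j) q.out ∈ X)
    (fun _ => trivial) Set.finite_univ
  have key : ∀ x, (g ^ i) x ∈ X ↔ (g ^ j) x ∈ X := fun x => by
    by_cases hx : x ∈ sc (b : ℚ)⁻¹ X'
    · obtain ⟨⟨y, hy⟩, h1⟩ := QuotientAddGroup.mk_out_eq_mul ((sc a X').addSubgroupOf _) ⟨x, hx⟩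
      obtain ⟨z, hz, h2⟩ := mem_sc.1 (AddSubgroup.mem_addSubgroupOf.1 hy)
      have h3 : ∀ k : ℕ, (g ^ k) y ∈ X := fun k => by
        rw [← h2, map_smul, Nat.cast_smul_eq_nsmul]
        exact ha' _ ((hj k z).2 hz)
      have h4 := congrFun e (QuotientAddGroup.mk ⟨x, hx⟩)
      simpa only [h1, AddSubgroup.coe_add, map_add, add_mem_cancel_right (h3 _), eq_iff_iff] using h4
    · have h1 : ∀ k : ℕ, (g ^ k) x ∉ X := fun k h => hx (mem_sc.2 ⟨b • x,
        (hj k _).1 (by rw [map_nsmul]; exact hb' _ h), by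
          rw [← Nat.cast_smul_eq_nsmul ℚ, inv_smul_smul₀ hb0]⟩)
      exact iff_of_false (h1 i) (h1 j)
  obtain ⟨k, rfl⟩ := Nat.exists_eq_add_of_lt hij
  refine ⟨k + 1, k.succ_pos, fun x => ?_⟩
  have h1 := key ((g ^ i).symm x)
  rwa [add_assoc, add_comm i, pow_add, LinearEquiv.mul_apply, LinearEquiv.apply_symm_apply,
    Iff.comm] at h1

theorem Ind.QFrame_pow {g : GL (Fin (n + 1)) ℝ} {g' : L.W ≃ₗ[ℚ] L.W} (hg : Ind ρ g g') (k : ℕ) :
    Ind ρ (g ^ k) (g' ^ k) := by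
  induction k with
  | zero => exact Ind.one
  | succ k ih => rw [pow_succ, pow_succ]; exact ih.mul hg

theorem Big.re (h : Big L ρ Γ) {c : ℚ} (hc : 0 < c) {X : AddSubgroup L.W} (hX : Full X)
    (he : ∀ x ∈ X, ∃ z : ℤ, c * L.β x x = 2 * z) :
    Big (L.re c hc.ne' X hX he) (√(c : ℝ) • ρ) Γ := by
  intro g hg g' hi hs
  obtain ⟨k, hk, h1⟩ := pow_stab L.full hX g' hs
  have h2 : Ind ρ g g' := fun x => smul_right_injective _ (Real.sqrt_pos.2 (Rat.cast_pos.2 hc)).ne'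
    ((Matrix.mulVec_smul _ _ _).symm.trans (hi x))
  obtain ⟨m, hm, h3⟩ := h _ (pow_mem hg k) _ (h2.QFrame_pow k) h1
  exact ⟨k * m, Nat.mul_pos hk hm, pow_mul g k m ▸ h3⟩

theorem big_of_relIndex (h : LF L ρ) (hi : Γ.relIndex (autL L ρ) ≠ 0) : Big L ρ Γ := by
  intro g hg g' h1 h2
  obtain ⟨k, hk, -, h3⟩ := Subgroup.exists_pow_mem_of_relIndex_ne_zero hi (a := g)
    ⟨hg, fun v => ⟨fun ⟨x, hx, e⟩ => ⟨g'.symm x, (h2 _).1 (by rwa [g'.apply_symm_apply]), by
      rw [← h1.inv, e, gl_inv_mulVec]⟩, fun ⟨x, hx, e⟩ => ⟨g' x, (h2 x).2 hx, by rw [← h1, e]⟩⟩⟩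
  exact ⟨k, hk, h3.1⟩

theorem exists_inv (h : LF L ρ) (hr : ∀ g ∈ Γ, ∃ g', Ind ρ g g')
    (hi : (autL L ρ).relIndex Γ ≠ 0) :
    ∃ Y : AddSubgroup L.W, Full Y ∧ ∀ g ∈ Γ, ∀ g', Ind ρ g g' → ∀ x ∈ Y, g' x ∈ Y := by
  have : ((autL L ρ).subgroupOf Γ).FiniteIndex := ⟨hi⟩
  choose f hf using fun q : Γ ⧸ (autL L ρ).subgroupOf Γ => hr q.out q.out.2
  let S : Set L.W := {y | ∃ g ∈ Γ, ∃ g', Ind ρ g g' ∧ ∃ x ∈ L.X, g' x = y}
  have hX : (L.X : Set L.W) ⊆ AddSubgroup.closure S := fun x hx =>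
    AddSubgroup.subset_closure ⟨1, one_mem _, _, Ind.one, x, hx, rfl⟩
  refine ⟨.closure S, (full_iff _).2 ⟨RLat_fg_of_le (AddSubgroup.FG.iSup _ fun q =>
    RLat_fg (L.full.map (f q))) ((AddSubgroup.closure_le _).2 ?_),
    top_unique ((RLat_span L.full).ge.trans (Submodule.span_mono hX))⟩, fun g hg g' hi x hx => ?_⟩
  · rintro _ ⟨g, hg, g', h1, x, hx, rfl⟩
    obtain ⟨⟨t, ht⟩, h2⟩ := QuotientGroup.mk_out_eq_mul ((autL L ρ).subgroupOf Γ) ⟨g, hg⟩
    obtain ⟨y, hy, h3⟩ := ((inv_mem (Subgroup.mem_subgroupOf.1 ht)).2 _).2 ⟨x, hx, rfl⟩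
    refine AddSubgroup.mem_iSup_of_mem (QuotientGroup.mk ⟨g, hg⟩) ⟨y, hy, h.injective ?_⟩
    refine (hf _ y).symm.trans ?_
    rw [h2, h3, Subgroup.coe_mul, gl_mul_mulVec, gl_mulVec_inv, h1]
  · refine (AddSubgroup.closure_le ((AddSubgroup.closure S).comap
      g'.toLinearMap.toAddMonoidHom)).2 ?_ hx
    rintro _ ⟨t, ht, t', h1, y, hy, rfl⟩
    exact AddSubgroup.subset_closure ⟨_, mul_mem hg ht, _, hi.mul h1, y, hy, rfl⟩

/-- The reflection in a rational vector is rational. -/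
theorem LF.refl_ind (h : LF L ρ) {v : L.W} (hv : L.β v v ≠ 0) {s : ℝ} (hs : s ≠ 0) :
    ∃ g' : L.W ≃ₗ[ℚ] L.W, Ind ρ (refl (s • ρ v)) g' ∧
      ∀ x, g' x = x - (2 * L.β x v / L.β v v) • v := by
  have h2 : ((2 / L.β v v) • L.β v) v = 2 := by
    rw [LinearMap.smul_apply, smul_eq_mul, div_mul_cancel₀ _ hv]
  have h3 : ∀ x, Module.reflection h2 x = x - (2 * L.β x v / L.β v v) • v := fun x => by
    rw [Module.reflection_apply, LinearMap.smul_apply, smul_eq_mul, L.symm v x, div_mul_eq_mul_div]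
  refine ⟨_, fun x => ?_, h3⟩
  rw [refl_smul hs, refl_mulVec, h3, map_sub, rho_smul, h.form, h.form]
  push_cast
  rfl

end Pool.Agent.Work.MP_c8d35c_al
end

-- merged part: Pool.Agent.Work.MP_c8d35c_al.QTyp
section
/-! Determinants of rescaled lattices, the lattices of type `t`, normalisation of roots.

Plan. `cov_smul_sq`: `cov_basis`, `Matrix.det_smul`. `re_a_zero`: `cov_eq` for both lattices,
`cov_of_le`. `typX_index`: on `tor t` the map `y ↦ t β y y mod 2` is additive (`t β y y' ∈ ℤ`),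
with kernel `typX t`; for odd `t`, `t (t β y y) = β (t y) (t y)` is even.
`Rt.norm`: `g = gcd t e` has `g y ∈ X`; `β (g y) y = 2 g / t ∈ ℤ`, so `t = g` or `t = 2 g`; in
the second case `β (g y) (g y) = g` is even and `2 y` is a root of type `g / 2`. -/

namespace Pool.Agent.Work.MP_c8d35c_al

open Module

theorem cov_smul_sq {W : Type} [AddCommGroup W] [Module ℚ W] (β : LinearMap.BilinForm ℚ W)
    (c : ℚ) {X : AddSubgroup W} (hX : Full X) :
    cov (c • β) X ^ 2 = |(c : ℝ)| ^ finrank ℚ W * cov β X ^ 2 := by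
  obtain ⟨b, rfl⟩ := hX
  rw [cov_basis, cov_basis, Real.sq_sqrt (abs_nonneg _), Real.sq_sqrt (abs_nonneg _), map_smul,
    Matrix.det_smul, Fintype.card_fin, Rat.cast_mul, Rat.cast_pow, abs_mul, abs_pow]

namespace QL

variable (L : QL)

theorem re_a_zero {c : ℕ} (hc : (c : ℚ) ≠ 0) {X : AddSubgroup L.W} (hX : Full X)
    (he : ∀ x ∈ X, ∃ z : ℤ, (c : ℚ) * L.β x x = 2 * z) (hle : L.X ≤ X) :
    (L.re c hc X hX he).a 0 * L.X.relIndex X ^ 2 = c ^ L.N * L.a 0 := by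
  have h1 := (L.re c hc X hX he).cov_eq
  have h2 := L.cov_eq
  have h3 := cov_smul_sq L.β c hX
  have h4 := cov_of_le L.β L.full hX hle
  have h5 : cov ((c : ℚ) • L.β) X ^ 2 = ((L.re c hc X hX he).a 0 : ℝ) := by
    rw [← Real.sq_sqrt (Nat.cast_nonneg ((L.re c hc X hX he).a 0)), ← h1]
    rfl
  have h6 : cov L.β L.X ^ 2 = (L.a 0 : ℝ) := by rw [h2, Real.sq_sqrt (Nat.cast_nonneg _)]
  rw [Rat.cast_natCast, Nat.abs_cast] at h3
  have h7 : (((L.re c hc X hX he).a 0 * L.X.relIndex X ^ 2 : ℕ) : ℝ) =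
      ((c ^ L.N * L.a 0 : ℕ) : ℝ) := by
    push_cast
    rw [← h5, ← h6, h3, h4, N]
    ring
  exact_mod_cast h7

theorem QTyp_int {t : ℕ} {y y' : L.W} (hy : y ∈ L.tor t) (hy' : y' ∈ L.tor t) :
    ∃ z : ℤ, (t : ℚ) * L.β y y' = z := by
  obtain ⟨u, hu⟩ := hy'.1 _ hy.2
  rw [map_nsmul, LinearMap.smul_apply, nsmul_eq_mul] at hu
  exact ⟨u, hu⟩

theorem typX_index (t : ℕ) (ht : t ≠ 0) :
    (L.typX t).relIndex (L.tor t) = 1 ∨ (L.typX t).relIndex (L.tor t) = 2 := by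
  by_cases h : L.tor t ≤ L.typX t
  · exact Or.inl (AddSubgroup.relIndex_eq_one.2 h)
  obtain ⟨a, ha, ha'⟩ := SetLike.not_le_iff_exists.1 h
  refine Or.inr (AddSubgroup.relIndex_eq_two_iff_exists_notMem_and.2 ⟨a, ha, ha', fun b hb => ?_⟩)
  obtain ⟨m, hm⟩ := L.QTyp_int ha ha
  obtain ⟨n, hn⟩ := L.QTyp_int hb hb
  obtain ⟨u, hu⟩ := L.QTyp_int ha hb
  rcases Int.even_or_odd' m with ⟨m, rfl | rfl⟩
  · exact (ha' ⟨ha, m, by rw [hm]; push_cast; ring⟩).elim
  rcases Int.even_or_odd' n with ⟨n, rfl | rfl⟩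
  · exact Or.inr ⟨hb, n, by rw [hn]; push_cast; ring⟩
  refine Or.inl ⟨add_mem hb ha, m + n + 1 + u, ?_⟩
  simp only [map_add, LinearMap.add_apply, L.symm b a]
  push_cast at hm hn ⊢
  linarith

theorem typX_odd {t : ℕ} (ht : Odd t) : L.typX t = L.tor t := by
  refine le_antisymm (fun y hy => hy.1) fun y hy => ⟨hy, ?_⟩
  obtain ⟨n, hn⟩ := L.QTyp_int hy hy
  obtain ⟨z, hz⟩ := L.even _ hy.2
  obtain ⟨s, rfl⟩ := ht
  simp only [map_nsmul, LinearMap.smul_apply, nsmul_eq_mul] at hz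
  rw [hn] at hz ⊢
  refine ⟨z - s * n, ?_⟩
  push_cast at hz ⊢
  linarith

theorem typ_N (t : ℕ) : (L.typ t).N = L.N := by
  unfold typ
  split_ifs <;> rfl

theorem typ_a_zero {t : ℕ} (ht : t ≠ 0) :
    (L.typ t).a 0 * L.a t ^ 2 = t ^ L.N * L.a 0 * (L.typX t).relIndex (L.tor t) ^ 2 := by
  have h1 := L.re_a_zero (Nat.cast_ne_zero.2 ht)
    (L.full.of_le_of_le (L.full_tor t) (L.X_le_typX t) fun _ hx => hx.1) (fun _ hx => hx.2)
    (L.X_le_typX t)
  have h2 : L.X.relIndex (L.typX t) * (L.typX t).relIndex (L.tor t) = L.a t :=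
    AddSubgroup.relIndex_mul_relIndex _ _ _ (L.X_le_typX t) fun _ hx => hx.1
  rw [typ, dif_neg ht, ← h1, ← h2]
  ring

theorem trep_eq {t : ℕ} (ht : t ≠ 0) (n : ℕ) : L.trep t n = (L.typ t).rep n := by
  rw [typ, dif_neg ht]
  refine congrArg Set.ncard (Set.ext fun y => ?_)
  exact ⟨fun h => ⟨⟨⟨h.1, h.2.1⟩, n, by rw [h.2.2, Int.cast_natCast]⟩, h.2.2⟩,
    fun h => ⟨h.1.1.1, h.1.1.2, h.2⟩⟩

variable {L}

theorem Rt.pos {y : L.W} {t : ℕ} (h : L.Rt y t) : t ≠ 0 := by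
  rintro rfl
  simpa using h.2.2

theorem Rt.norm {y : L.W} {t e : ℕ} (h : L.Rt y t) (he : e • y ∈ L.X) :
    t ∣ e ∨ ∃ t', t' ∣ e ∧ L.Rt (2 • y) t' := by
  obtain ⟨hD, ht, h2⟩ := id h
  have hg : Nat.gcd t e • y ∈ L.X := by
    rw [← natCast_zsmul, Nat.gcd_eq_gcd_ab, add_smul, mul_comm, mul_comm (e : ℤ), mul_smul,
      mul_smul, natCast_zsmul, natCast_zsmul]
    exact add_mem (zsmul_mem ht _) (zsmul_mem he _)
  have hge := Nat.gcd_dvd_right t e
  obtain ⟨s, hs⟩ := Nat.gcd_dvd_left t e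
  generalize Nat.gcd t e = g at hg hge hs
  subst hs
  obtain ⟨z, hz⟩ := hD _ hg
  rw [map_nsmul, LinearMap.smul_apply, nsmul_eq_mul] at hz
  have h3 : (s : ℤ) * z = 2 := by
    have : (s : ℚ) * z = 2 := by
      rw [← hz, ← h2]
      push_cast
      ring
    exact_mod_cast this
  have h4 : s ∣ 2 := Int.natCast_dvd_natCast.1 ⟨z, h3.symm⟩
  rcases (Nat.dvd_prime Nat.prime_two).1 h4 with rfl | rfl
  · exact Or.inl (by rwa [mul_one])
  have h5 : z = 1 := by omega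
  subst h5
  obtain ⟨w, hw⟩ := L.even _ hg
  simp only [map_nsmul, LinearMap.smul_apply, nsmul_eq_mul] at hw
  rw [hz, Int.cast_one, mul_one] at hw
  have h6 : (g : ℤ) = 2 * w := by exact_mod_cast hw
  obtain ⟨t', rfl⟩ : ∃ t', g = t' * 2 := ⟨g / 2, by omega⟩
  refine Or.inr ⟨t', (Dvd.intro _ rfl).trans hge, nsmul_mem hD 2, by rwa [smul_smul], ?_⟩
  simp only [map_nsmul, LinearMap.smul_apply, nsmul_eq_mul]
  push_cast at hz ⊢
  linarith

/-- A vector of positive norm whose reflection preserves the lattice is a multiple of a root: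
take `c` and `f` from `prim_dual`, `y = c v`; then ` (2 / β y y) y ∈ X`, and pairing this vector
with `f` shows that `t = 2 / β y y` is an integer. -/
theorem rt_of_refl {v : L.W} (hv : 0 < L.β v v)
    (h : ∀ x ∈ L.X, x - (2 * L.β x v / L.β v v) • v ∈ L.X) :
    ∃ (c : ℚ) (t : ℕ), c ≠ 0 ∧ L.Rt (c • v) t := by
  obtain ⟨c, hc, hD, f, hf, h1⟩ := L.prim_dual (z := v) (by rintro rfl; simp at hv)
  have h2 : (2 * L.β f v / L.β v v) • v ∈ L.X := by
    have := sub_mem hf (h f hf)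
    rwa [sub_sub_cancel] at this
  rw [map_smul, LinearMap.smul_apply, smul_eq_mul, L.symm] at h1
  obtain ⟨z, hz⟩ := L.X_le_D hf _ h2
  rw [map_smul, LinearMap.smul_apply, smul_eq_mul, L.symm v f] at hz
  have h3 : (z : ℚ) * (c * c * L.β v v) = 2 := by
    rw [← hz]
    field_simp
    linear_combination (c * L.β f v + 1) * h1
  have h4 : 0 < z := by
    have : (0 : ℚ) < z := (mul_pos_iff_of_pos_right (mul_pos (mul_self_pos.2 hc) hv)).1
      (by rw [h3]; norm_num)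
    exact_mod_cast this
  obtain ⟨t, rfl⟩ := Int.eq_ofNat_of_zero_le h4.le
  rw [Int.cast_natCast] at hz h3
  refine ⟨c, t, hc, hD, ?_, ?_⟩
  · rw [← Nat.cast_smul_eq_nsmul ℚ, smul_smul]
    convert h2 using 2
    rw [← hz]
    linear_combination (2 * L.β f v / L.β v v) * h1
  · simp only [map_smul, LinearMap.smul_apply, smul_eq_mul]
    linear_combination h3

end QL

end Pool.Agent.Work.MP_c8d35c_al
end

-- merged part: Pool.Agent.Work.MP_c8d35c_al.QMin
section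
/-! An invariant lattice with small discriminant group.

Plan. Among all pairs ` (c, X)` (`c > 0`, `X` full, invariant, even for `c β`) take one with least
`a 0`; call the lattice `L'`. The dual `D'`, the groups `tor k` and `typX t` of `L'` are
invariant (the elements of `G` are isometries and `G` is closed under inverses). If `X' ≥ X` is
even for the same form and invariant then `X' = X` (`re_a_zero` with `c = 1`).
`odd_sq`: `X' = X ⊔ p tor (p^2)`: `β (p y) (p y') = β (p^2 y) y' ∈ ℤ`, and `β (p y) (p y)` is even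
as `p^2` times it is even. `eight`: `X' = X ⊔ 4 tor 8`. `four`: `Y = X ⊔ 2 tor 4` is integral, its
even part `X'` has index at most two in `Y` and contains `X`; `y ↦ 2 y` induces
`tor 4 / tor 2 ≃ Y / X`. `odd_le`, `two`: compare with `typ p` (`typ_a_zero`, `typX_index`,
`typX_odd`), which is the pair ` (p c, typX p)`. -/

namespace Pool.Agent.Work.MP_c8d35c_al

open Module

namespace QL

lemma QMin_a_re (L : QL) (c : ℚ) (hc : c ≠ 0) (X : AddSubgroup L.W) (hX : Full X)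
    (he : ∀ x ∈ X, ∃ z : ℤ, c * L.β x x = 2 * z) :
    (L.re c hc X hX he).a 0 = X.relIndex (dualA (c • L.β) X) := by
  rw [a, tor_zero]
  rfl

/-- A lattice of least determinant among the invariant ones has a small discriminant group. -/
lemma QMin_core (M : QL) (G : Set (M.W ≃ₗ[ℚ] M.W))
    (h1 : ∀ g ∈ G, ∀ x y, M.β (g x) (g y) = M.β x y) (h2 : ∀ g ∈ G, g.symm ∈ G)
    (h3 : ∀ g ∈ G, ∀ x ∈ M.X, g x ∈ M.X)
    (hmin : ∀ (c : ℕ) (hc : (c : ℚ) ≠ 0) (X : AddSubgroup M.W) (hX : Full X)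
      (he : ∀ x ∈ X, ∃ z : ℤ, (c : ℚ) * M.β x x = 2 * z), (∀ g ∈ G, ∀ x ∈ X, g x ∈ X) →
        M.a 0 ≤ (M.re c hc X hX he).a 0) : M.Red M.N := by
  have hD : ∀ g ∈ G, ∀ y ∈ M.D, g y ∈ M.D := fun g hg y hy x hx => by
    obtain ⟨z, hz⟩ := hy _ (h3 _ (h2 g hg) x hx)
    exact ⟨z, by rw [← hz, ← h1 g hg (g.symm x) y, g.apply_symm_apply]⟩
  have hT : ∀ t, ∀ g ∈ G, ∀ y ∈ M.typX t, g y ∈ M.typX t := fun t g hg y hy =>
    ⟨⟨hD g hg y hy.1.1, by rw [← map_nsmul]; exact h3 g hg _ hy.1.2⟩, by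
      rw [h1 g hg]; exact hy.2⟩
  have ha := Nat.pos_of_ne_zero (M.a_ne_zero 0)
  have hmax : ∀ S : AddSubgroup M.W, S ≤ M.D → (∀ y ∈ S, ∃ z : ℤ, M.β y y = 2 * z) →
      (∀ g ∈ G, ∀ y ∈ S, g y ∈ S) → S ≤ M.X := fun S hS hev hinv => by
    have hX : Full (M.X ⊔ S) := M.full.of_le_of_le M.full_D le_sup_left (sup_le M.X_le_D hS)
    have he : ∀ x ∈ M.X ⊔ S, ∃ z : ℤ, ((1 : ℕ) : ℚ) * M.β x x = 2 * z := fun w hw => by
      obtain ⟨x, hx, y, hy, rfl⟩ := AddSubgroup.mem_sup.1 hw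
      obtain ⟨z1, e1⟩ := M.even x hx
      obtain ⟨z2, e2⟩ := hS hy x hx
      obtain ⟨z3, e3⟩ := hev y hy
      refine ⟨z1 + z2 + z3, ?_⟩
      simp only [map_add, LinearMap.add_apply, M.symm y x, e1, e2, e3]
      push_cast
      ring
    have hc : ((1 : ℕ) : ℚ) ≠ 0 := by norm_num
    have k1 := hmin 1 hc _ hX he fun g hg w hw => by
      obtain ⟨x, hx, y, hy, rfl⟩ := AddSubgroup.mem_sup.1 hw
      rw [map_add]
      exact AddSubgroup.add_mem_sup (h3 g hg x hx) (hinv g hg y hy)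
    have k2 := M.re_a_zero hc hX he le_sup_left
    rw [one_pow, one_mul] at k2
    have k3 : M.X.relIndex (M.X ⊔ S) ≠ 0 := M.full.relIndex_ne_zero hX
    have k4 : M.a 0 * M.X.relIndex (M.X ⊔ S) ^ 2 ≤ M.a 0 * 1 :=
      (Nat.mul_le_mul_right _ k1).trans (by rw [k2, mul_one])
    have k5 := Nat.le_of_mul_le_mul_left k4 ha
    have k6 : M.X.relIndex (M.X ⊔ S) = 1 := by nlinarith [Nat.pos_of_ne_zero k3]
    exact le_sup_right.trans (AddSubgroup.relIndex_eq_one.1 k6)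
  have hsq : ∀ k : ℕ, M.typX (k ^ 2) ≤ M.tor k := fun k y hy => by
    refine ⟨hy.1.1, hmax ((M.typX (k ^ 2)).map (nsmulAddMonoidHom k)) ?_ ?_ ?_ ⟨y, hy, rfl⟩⟩
    · rintro _ ⟨w, hw, rfl⟩
      exact nsmul_mem hw.1.1 k
    · rintro _ ⟨w, hw, rfl⟩
      obtain ⟨z, hz⟩ := hw.2
      refine ⟨z, ?_⟩
      rw [← hz, nsmulAddMonoidHom_apply, map_nsmul, map_nsmul, LinearMap.smul_apply, nsmul_eq_mul,
        nsmul_eq_mul]
      push_cast
      ring
    · rintro g hg _ ⟨w, hw, rfl⟩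
      exact ⟨g w, hT _ g hg w hw, (map_nsmul g k w).symm⟩
  have hty : ∀ t : ℕ, t ≠ 0 → M.a t ^ 2 ≤ t ^ M.N * (M.typX t).relIndex (M.tor t) ^ 2 :=
    fun t ht => by
      have k1 : M.a 0 ≤ (M.typ t).a 0 := by
        unfold typ
        rw [dif_neg ht]
        exact hmin t _ _ _ _ (hT t)
      have k2 := M.typ_a_zero ht
      refine Nat.le_of_mul_le_mul_left ?_ ha
      calc M.a 0 * M.a t ^ 2 ≤ (M.typ t).a 0 * M.a t ^ 2 := Nat.mul_le_mul_right _ k1
        _ = _ := by rw [k2]; ring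
  refine ⟨fun p hp hp2 => ?_, fun p hp hp2 => ?_, ?_, ?_, ?_⟩
  · have k1 := hsq p
    rw [M.typX_odd (hp.odd_of_ne_two hp2).pow] at k1
    rw [a, a, le_antisymm k1 (M.tor_mono (dvd_pow_self p two_ne_zero))]
  · have k1 := hty p hp.ne_zero
    rwa [M.typX_odd (hp.odd_of_ne_two hp2), AddSubgroup.relIndex_self, one_pow, mul_one] at k1
  · have k1 : M.tor 8 ≤ M.tor 4 := fun y hy => by
      refine hsq 4 ⟨M.tor_mono (by norm_num) hy, ?_⟩
      obtain ⟨z, hz⟩ := hy.1 _ hy.2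
      rw [map_nsmul, LinearMap.smul_apply, nsmul_eq_mul] at hz
      refine ⟨z, ?_⟩
      rw [← hz]
      push_cast
      ring
    rw [a, a, le_antisymm k1 (M.tor_mono (by norm_num))]
  · have k1 : M.typX 4 ≤ M.tor 2 := hsq 2
    have k2 := AddSubgroup.relIndex_dvd_of_le_left (M.tor 4) k1
    have k3 : (M.tor 2).relIndex (M.tor 4) ≤ 2 := by
      rcases M.typX_index 4 (by norm_num) with h | h <;> rw [h] at k2
      · exact (Nat.le_of_dvd one_pos k2).trans one_le_two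
      · exact Nat.le_of_dvd two_pos k2
    rw [← M.QTor_mul (c := 2) (d := 4) (by norm_num), mul_comm]
    exact Nat.mul_le_mul_right _ k3
  · have k1 := hty 2 two_ne_zero
    rw [pow_add]
    refine k1.trans (Nat.mul_le_mul_left _ ?_)
    rcases M.typX_index 2 two_ne_zero with h | h <;> rw [h] <;> norm_num

theorem exists_red (L : QL) (G : Set (L.W ≃ₗ[ℚ] L.W))
    (h1 : ∀ g ∈ G, ∀ x y, L.β (g x) (g y) = L.β x y) (h2 : ∀ g ∈ G, g.symm ∈ G)
    (h3 : ∀ g ∈ G, ∀ x ∈ L.X, g x ∈ L.X) :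
    ∃ (c : ℚ) (hc : 0 < c) (X : AddSubgroup L.W) (hX : Full X)
      (he : ∀ x ∈ X, ∃ z : ℤ, c * L.β x x = 2 * z),
      (L.re c hc.ne' X hX he).Red L.N ∧ ∀ g ∈ G, ∀ x ∈ X, g x ∈ X := by
  classical
  let P : ℕ → Prop := fun n => ∃ (c : ℚ) (X : AddSubgroup L.W), 0 < c ∧ Full X ∧
    (∀ x ∈ X, ∃ z : ℤ, c * L.β x x = 2 * z) ∧ (∀ g ∈ G, ∀ x ∈ X, g x ∈ X) ∧
      X.relIndex (dualA (c • L.β) X) = n
  have hP : ∃ n, P n := ⟨_, 1, L.X, one_pos, L.full, fun x hx => by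
    rw [one_mul]; exact L.even x hx, h3, rfl⟩
  obtain ⟨c, X, hc, hX, he, hG, hn⟩ := Nat.find_spec hP
  refine ⟨c, hc, X, hX, he, QMin_core (L.re c hc.ne' X hX he) G
    (fun g hg x y => congrArg (c * ·) (h1 g hg x y)) h2 hG fun k hk Y hY hY' hGY => ?_, hG⟩
  have hk' : (0 : ℚ) < k := lt_of_le_of_ne (Nat.cast_nonneg k) hk.symm
  rw [QMin_a_re, QMin_a_re, hn]
  refine Nat.find_min' hP ⟨k * c, Y, mul_pos hk' hc, hY, fun x hx => ?_, hGY, ?_⟩
  · rw [mul_assoc]
    exact hY' x hx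
  · rw [mul_smul]
    rfl

/-- Every full lattice becomes even after rescaling the form. -/
theorem exists_even {W : Type} [AddCommGroup W] [Module ℚ W] (β : LinearMap.BilinForm ℚ W)
    {X : AddSubgroup W} (hX : Full X) :
    ∃ c : ℕ, 0 < c ∧ ∀ x ∈ X, ∃ z : ℤ, (c : ℚ) * β x x = 2 * z := by
  obtain ⟨b, rfl⟩ := hX
  obtain ⟨d, hd, hz⟩ : ∃ d : ℕ, 0 < d ∧ ∀ i j, ∃ z : ℤ, (d : ℚ) * β (b i) (b j) = z := by
    refine ⟨∏ p : Fin (finrank ℚ W) × Fin (finrank ℚ W), (β (b p.1) (b p.2)).den,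
      Finset.prod_pos fun p _ => Rat.den_pos _, fun i j => ?_⟩
    obtain ⟨k, hk⟩ := Finset.dvd_prod_of_mem
      (fun p : Fin (finrank ℚ W) × Fin (finrank ℚ W) => (β (b p.1) (b p.2)).den)
      (Finset.mem_univ (i, j))
    refine ⟨k * (β (b i) (b j)).num, ?_⟩
    rw [hk]
    push_cast
    rw [← Rat.den_mul_eq_num]
    ring
  choose z hz using hz
  refine ⟨2 * d, by omega, fun x hx => ?_⟩
  obtain ⟨m, rfl⟩ := (mem_closure_basis b x).1 hx
  refine ⟨∑ j, ∑ i, m j * (m i * z i j), ?_⟩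
  simp only [map_sum, map_zsmul, LinearMap.sum_apply, LinearMap.smul_apply, zsmul_eq_mul]
  push_cast
  simp only [← hz, Finset.mul_sum]
  exact Finset.sum_congr rfl fun j _ => Finset.sum_congr rfl fun i _ => by ring

end QL

end Pool.Agent.Work.MP_c8d35c_al
end

-- merged part: Pool.Agent.Work.MP_c8d35c_al.QArith
section
/-! The arithmetic group over the rational numbers.

Plan. If `finrank ℚ K = 1` then `algebraMap ℚ K` is bijective (`Algebra.finrank_eq_one_iff_bijective_algebraMap`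
or `Subalgebra.bot_eq_top_iff_finrank_eq_one`), every element of `𝓞 K` is a rational integer
(`IsIntegrallyClosed.isIntegral_iff`, `isIntegral_algebraMap_iff`), and `σ` restricted to `ℚ` is
the cast. `arith_eq`: `P g P⁻¹` comes from `GL(𝓞 K)` iff it and its inverse have integral
entries iff `g` preserves `latP P`. `exists_LF`: `W = Fin (n+1) → ℚ`,
`β = c • Matrix.toBilin' A` with `c` from `exists_even`, `X = zpts`, `ρ v = √c • P⁻¹ v`;
`stabL` does not change when the set is multiplied by a nonzero number. -/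

namespace Pool.Agent.Work.MP_c8d35c_al

open Matrix NumberField

variable {n : ℕ}

lemma QArith_int {K : Type} [Field K] [NumberField K] (hK : Module.finrank ℚ K = 1)
    (σ : K →+* ℝ) (x : 𝓞 K) : ∃ z : ℤ, σ.comp (algebraMap (𝓞 K) K) x = z := by
  obtain ⟨hi, hs⟩ := Algebra.finrank_eq_one_iff_bijective_algebraMap.1 hK
  obtain ⟨q, hq⟩ := hs (algebraMap (𝓞 K) K x)
  have h1 : IsIntegral ℤ (algebraMap ℚ K q) := by
    rw [hq]
    exact x.isIntegral_coe
  obtain ⟨z, rfl⟩ := IsIntegrallyClosed.isIntegral_iff.1 ((isIntegral_algebraMap_iff hi).1 h1)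
  exact ⟨z, by rw [RingHom.comp_apply, ← hq]; simp⟩

lemma QArith_mulVec {M : Matrix (Fin (n + 1)) (Fin (n + 1)) ℝ} (hM : ∀ i j, ∃ z : ℤ, M i j = z)
    {v : Fin (n + 1) → ℝ} (hv : ∀ i, ∃ z : ℤ, v i = z) (i : Fin (n + 1)) :
    ∃ z : ℤ, (M *ᵥ v) i = z := by
  choose a ha using hM
  choose b hb using hv
  exact ⟨∑ j, a i j * b j, by simp [Matrix.mulVec, dotProduct, ha, hb]⟩

lemma QArith_single (j i : Fin (n + 1)) :
    ∃ z : ℤ, (Pi.single j 1 : Fin (n + 1) → ℝ) i = z := by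
  by_cases h : i = j
  · exact ⟨1, by simp [h]⟩
  · exact ⟨0, by simp [h]⟩

lemma QArith_range {R : Type} [CommRing R] (τ : R →+* ℝ) (hτ : ∀ x, ∃ z : ℤ, τ x = z)
    (h : GL (Fin (n + 1)) ℝ) :
    h ∈ (Matrix.GeneralLinearGroup.map (n := Fin (n + 1)) τ).range ↔
      ∀ v : Fin (n + 1) → ℝ, (∀ i, ∃ z : ℤ, (h.val *ᵥ v) i = z) ↔ ∀ i, ∃ z : ℤ, v i = z := by
  constructor
  · rintro ⟨k, rfl⟩ v
    refine ⟨fun hv => ?_, QArith_mulVec fun i j => hτ _⟩
    rw [← gl_inv_mulVec (Matrix.GeneralLinearGroup.map τ k) v, ← map_inv]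
    exact QArith_mulVec (fun i j => hτ _) hv
  · intro H
    have h1 : ∀ i j, ∃ z : ℤ, h.val i j = z := fun i j => by
      simpa using (H (Pi.single j 1)).2 (QArith_single j) i
    have h2 : ∀ i j, ∃ z : ℤ, (h⁻¹).val i j = z := fun i j => by
      have h3 := (H ((h⁻¹).val *ᵥ Pi.single j 1)).1 (by
        rw [gl_mulVec_inv]
        exact QArith_single j) i
      rwa [Matrix.mulVec_single_one] at h3
    choose a ha using h1
    choose b hb using h2
    have ea : (Matrix.of a).map (Int.castRingHom ℝ) = h.val := Matrix.ext fun i j => (ha i j).symm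
    have eb : (Matrix.of b).map (Int.castRingHom ℝ) = (h⁻¹).val :=
      Matrix.ext fun i j => (hb i j).symm
    have hinj : Function.Injective fun M : Matrix (Fin (n + 1)) (Fin (n + 1)) ℤ =>
        M.map (Int.castRingHom ℝ) := Matrix.map_injective Int.cast_injective
    have e1 : (1 : Matrix (Fin (n + 1)) (Fin (n + 1)) ℤ).map (Int.castRingHom ℝ) = 1 :=
      Matrix.map_one _ (map_zero _) (map_one _)
    have h4 : Matrix.of a * Matrix.of b = 1 := hinj (by
      dsimp only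
      rw [Matrix.map_mul, ea, eb, e1, Units.mul_inv])
    have h5 : Matrix.of b * Matrix.of a = 1 := hinj (by
      dsimp only
      rw [Matrix.map_mul, ea, eb, e1, Units.inv_mul])
    refine ⟨Matrix.GeneralLinearGroup.map (Int.castRingHom R) ⟨_, _, h4, h5⟩,
      Units.ext (Matrix.ext fun i j => ?_)⟩
    rw [ha]
    exact map_intCast τ _

theorem arith_eq {K : Type} [Field K] [NumberField K] (hK : Module.finrank ℚ K = 1)
    (σ : K →+* ℝ) (P : GL (Fin (n + 1)) ℝ) : arith σ P = isomH n ⊓ stabL (latP P) := by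
  ext g
  rw [arith, Subgroup.mem_inf, Subgroup.mem_inf, Subgroup.mem_comap,
    QArith_range _ (QArith_int hK σ), mem_stabL]
  refine and_congr_right fun _ => ?_
  have e : ∀ v, ((MulAut.conj P).toMonoidHom g).val *ᵥ (P.val *ᵥ v) = P.val *ᵥ (g.val *ᵥ v) :=
    fun v => by
      change (P * g * P⁻¹).val *ᵥ _ = _
      rw [gl_mul_mulVec, gl_mul_mulVec, gl_inv_mulVec]
  constructor
  · intro H v
    have h1 := H (P.val *ᵥ v)
    rwa [e] at h1
  · intro H v
    rw [← gl_mulVec_inv P v, e]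
    exact H _

theorem exists_rat_mat {K : Type} [Field K] [NumberField K] (hK : Module.finrank ℚ K = 1)
    (σ : K →+* ℝ) {A : Matrix (Fin (n + 1)) (Fin (n + 1)) K} (hA : A.IsSymm) :
    ∃ A0 : Matrix (Fin (n + 1)) (Fin (n + 1)) ℚ, A0.IsSymm ∧
      A0.map (Rat.castHom ℝ) = A.map σ := by
  obtain ⟨hi, hs⟩ := Algebra.finrank_eq_one_iff_bijective_algebraMap.1 hK
  choose q hq using hs
  refine ⟨A.map q, hA.map q, Matrix.ext fun i j => ?_⟩
  rw [Matrix.map_apply, Matrix.map_apply, Matrix.map_apply]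
  conv_rhs => rw [← hq (A i j)]
  simp

lemma QArith_stab {Y Y' : Set (Fin (n + 1) → ℝ)} {s : ℝ} (hs : s ≠ 0)
    (h : ∀ v, s • v ∈ Y' ↔ v ∈ Y) : stabL Y' = stabL Y := by
  ext g
  rw [mem_stabL, mem_stabL]
  constructor
  · intro H v
    rw [← h, ← h, ← Matrix.mulVec_smul, H]
  · intro H v
    rw [← smul_inv_smul₀ hs v, Matrix.mulVec_smul, h, h, H]

lemma QArith_form {A : Matrix (Fin (n + 1)) (Fin (n + 1)) ℝ} {P : GL (Fin (n + 1)) ℝ}
    (hP : P.valᵀ * A * P.val = lorMat n) (x y : Fin (n + 1) → ℝ) :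
    lor ((P⁻¹).val *ᵥ x) ((P⁻¹).val *ᵥ y) = x ⬝ᵥ (A *ᵥ y) := by
  rw [lor_eq_dot, ← hP, ← Matrix.mulVec_mulVec, ← Matrix.mulVec_mulVec, gl_mulVec_inv,
    Matrix.dotProduct_mulVec, Matrix.vecMul_transpose, gl_mulVec_inv]

theorem exists_LF {A : Matrix (Fin (n + 1)) (Fin (n + 1)) ℚ} (hA : A.IsSymm)
    {P : GL (Fin (n + 1)) ℝ} (hP : P.valᵀ * A.map (Rat.castHom ℝ) * P.val = lorMat n) :
    ∃ (L : QL) (ρ : L.W →+ Fin (n + 1) → ℝ), LF L ρ ∧ autL L ρ = isomH n ⊓ stabL (latP P) ∧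
      ∀ v : Fin (n + 1) → ℚ, ∃ (x : L.W) (c : ℝ), 0 < c ∧
        ((P⁻¹).val *ᵥ fun i => Rat.castHom ℝ (v i)) = c • ρ x := by
  obtain ⟨c, hc, he⟩ := QL.exists_even (Matrix.toBilin' A) (full_zpts (Fin (n + 1)))
  have hc1 : (c : ℚ) ≠ 0 := Nat.cast_ne_zero.2 hc.ne'
  have hc2 : 0 < √(c : ℝ) := Real.sqrt_pos.2 (Nat.cast_pos.2 hc)
  have hd : A.det ≠ 0 := fun h0 => by
    have h1 := congrArg Matrix.det hP
    have h2 := (Rat.castHom ℝ).map_det A
    rw [RingHom.mapMatrix_apply, h0, map_zero] at h2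
    rw [det_mul, det_mul, ← h2, mul_zero, zero_mul, lorMat, det_diagonal] at h1
    refine Finset.prod_ne_zero_iff.2 (fun i _ => ?_) h1.symm
    split_ifs <;> norm_num
  let L : QL :=
    { W := Fin (n + 1) → ℚ
      β := (c : ℚ) • Matrix.toBilin' A
      symm := fun x y => by
        simp only [LinearMap.smul_apply, Matrix.toBilin'_apply]
        rw [Finset.sum_comm]
        congr 1
        exact Finset.sum_congr rfl fun i _ => Finset.sum_congr rfl fun j _ => by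
          rw [hA.apply j i]
          ring
      nd := fun x h => (LinearMap.BilinForm.nondegenerate_toBilin'_iff_det_ne_zero.2 hd).1 x
        fun y => by simpa [hc.ne'] using h y
      X := zpts _
      full := full_zpts _
      even := fun x hx => by simpa using he x hx }
  let ρ : (Fin (n + 1) → ℚ) →+ Fin (n + 1) → ℝ :=
    AddMonoidHom.mk' (fun v => √(c : ℝ) • ((P⁻¹).val *ᵥ fun i => Rat.castHom ℝ (v i)))
      fun v w => by
        rw [← smul_add, ← Matrix.mulVec_add]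
        congr 2
        ext i
        simp
  have hρ : ∀ v, ρ v = √(c : ℝ) • ((P⁻¹).val *ᵥ fun i => Rat.castHom ℝ (v i)) := fun _ => rfl
  refine ⟨L, ρ, ⟨Module.finrank_fin_fun ℚ, fun (x y : Fin (n + 1) → ℚ) => ?_⟩, ?_,
    fun v => ⟨v, (√(c : ℝ))⁻¹, inv_pos.2 hc2, ?_⟩⟩
  · change lor (ρ x) (ρ y) = (((c : ℚ) * Matrix.toBilin' A x y : ℚ) : ℝ)
    rw [hρ, hρ, lor_smul_left, lor_smul_right, QArith_form hP, ← mul_assoc,
      Real.mul_self_sqrt (Nat.cast_nonneg c), Matrix.toBilin'_apply']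
    simp [dotProduct, Matrix.mulVec]
  · refine congrArg _ (QArith_stab hc2.ne' fun v => ⟨?_, fun hv => ?_⟩)
    · rintro ⟨x, hx, h1⟩ i
      obtain ⟨z, hz⟩ := hx i
      have h2 : ((P⁻¹).val *ᵥ fun i => Rat.castHom ℝ (x i)) = v :=
        smul_right_injective _ hc2.ne' h1
      rw [← h2, gl_mulVec_inv]
      exact ⟨z, by simp [hz]⟩
    · choose z hz using hv
      refine ⟨fun i => (z i : ℚ), fun i => ⟨z i, rfl⟩, ?_⟩
      change ρ _ = _
      rw [hρ, ← gl_inv_mulVec P v]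
      congr 2
      ext i
      simp [hz]
  · change _ = _ • ρ v
    rw [hρ, inv_smul_smul₀ hc2.ne']

end Pool.Agent.Work.MP_c8d35c_al
end

-- merged part: Pool.Agent.Work.MP_c8d35c_al.QJ
section
/-! The real density at zero of an indefinite form is positive.

Plan. `psq (sgn r s) y x = ((1 / (y - i x))^(1/2))^r * ((1 / (y + i x))^(1/2))^s`.
By `complex_gamma_integral` the second factor is
` (1 / Γ(s/2)) ∫ τ in Ioi 0, τ^(s/2 - 1) exp (-(y + i x) τ)`; Fubini (the first factor is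
integrable for `r ≥ 3`, `integrable_dens`, `norm_half_pow`); the inner integral is `dens_def` at
`t = τ / (2 π)`; what remains is a real gamma integral
`∫ τ^(s/2 - 1 + r/2 - 1) exp (-2 y τ) = Γ((r+s)/2 - 1) (2 y)^(1 - (r+s)/2)`. -/

namespace Pool.Agent.Work.MP_c8d35c_al

open MeasureTheory Complex

theorem QJ_psq (r s : ℕ) (y x : ℝ) : psq (QL.sgn r s) y x =
    ((1 / ((y : ℂ) - I * x)) ^ (1 / 2 : ℂ)) ^ r * ((1 / ((y : ℂ) + I * x)) ^ (1 / 2 : ℂ)) ^ s := by
  simp [psq, bq, QL.sgn, Fintype.prod_sum_type]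

theorem QJ_gamma {s : ℕ} (hs : 1 ≤ s) {y : ℝ} (hy : 0 < y) (x : ℝ) :
    (Real.Gamma ((s : ℝ) / 2) : ℂ) * ((1 / ((y : ℂ) + I * x)) ^ (1 / 2 : ℂ)) ^ s =
      ∫ t in Set.Ioi (0 : ℝ),
        (t : ℂ) ^ ((((s : ℝ) / 2 : ℝ) : ℂ) - 1) * cexp (-(((y : ℂ) + I * x) * t)) := by
  have hre : 0 < ((y : ℂ) + I * x).re := by simpa using hy
  have h1 : (1 : ℝ) ≤ s := by exact_mod_cast hs
  rw [complex_gamma_integral (by linarith) hre, ← cpow_mul_nat, one_div ((y : ℂ) + I * x),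
    inv_cpow _ _ (slitPlane_arg_ne_pi (Or.inl hre)), ← cpow_neg]
  congr 3
  push_cast
  ring

theorem QJ_inner {r : ℕ} (hr : 3 ≤ r) (σ : ℝ) {y t : ℝ} (hy : 0 < y) (ht : 0 < t) :
    ∫ x : ℝ, ((1 / ((y : ℂ) - I * x)) ^ (1 / 2 : ℂ)) ^ r *
      ((t : ℂ) ^ ((σ : ℂ) - 1) * cexp (-(((y : ℂ) + I * x) * t))) =
      ((2 * Real.pi / Real.Gamma ((r : ℝ) / 2) *
        (t ^ (σ + (r : ℝ) / 2 - 1 - 1) * Real.exp (-(2 * y * t))) : ℝ) : ℂ) := by
  have p0 : 0 < 2 * Real.pi := Real.two_pi_pos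
  have hpi : (Real.pi : ℂ) ≠ 0 := ofReal_ne_zero.2 Real.pi_ne_zero
  have h1 : ∀ x : ℝ, ((1 / ((y : ℂ) - I * x)) ^ (1 / 2 : ℂ)) ^ r *
      ((t : ℂ) ^ ((σ : ℂ) - 1) * cexp (-(((y : ℂ) + I * x) * t))) =
      ((t ^ (σ - 1) * Real.exp (-(y * t)) : ℝ) : ℂ) *
        (((1 / ((y : ℂ) - I * x)) ^ (1 / 2 : ℂ)) ^ r * ee (-(x * (t / (2 * Real.pi))))) := by
    intro x
    have h2 : cexp (-(((y : ℂ) + I * x) * t)) =
        (Real.exp (-(y * t)) : ℂ) * ee (-(x * (t / (2 * Real.pi)))) := by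
      rw [ee, ofReal_exp, ← Complex.exp_add]
      congr 1
      push_cast
      field_simp
      ring
    rw [h2, ofReal_mul, ofReal_cpow ht.le, ofReal_sub, ofReal_one]
    ring
  simp only [h1]
  rw [integral_const_mul, dens_def hr hy (div_pos ht p0), ← ofReal_mul]
  refine congrArg ofReal ?_
  have e1 : 2 * Real.pi * (t / (2 * Real.pi)) * y = y * t := by field_simp
  have e2 : Real.exp (-(2 * y * t)) = Real.exp (-(y * t)) * Real.exp (-(y * t)) := by
    rw [← Real.exp_add]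
    congr 1
    ring
  have e3 : t ^ (σ + (r : ℝ) / 2 - 1 - 1) = t ^ (σ - 1) * t ^ ((r : ℝ) / 2 - 1) := by
    rw [← Real.rpow_add ht]
    congr 1
    ring
  have e4 : 0 < (2 * Real.pi) ^ ((r : ℝ) / 2) := Real.rpow_pos_of_pos p0 _
  rw [e1, e2, e3, Real.div_rpow ht.le p0.le, Real.rpow_sub_one p0.ne']
  field_simp

theorem dens_zero {r s : ℕ} (hr : 3 ≤ r) (hs : 1 ≤ s) : ∃ J : ℝ, 0 < J ∧ ∀ y : ℝ, 0 < y →
    ∫ x : ℝ, psq (QL.sgn r s) y x = ((J * y ^ (1 - ((r : ℝ) + s) / 2) : ℝ) : ℂ) := by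
  have h3 : (3 : ℝ) ≤ r := by exact_mod_cast hr
  have h1 : (1 : ℝ) ≤ s := by exact_mod_cast hs
  have g1 : 0 < Real.Gamma ((r : ℝ) / 2) := Real.Gamma_pos_of_pos (by linarith)
  have g2 : 0 < Real.Gamma ((s : ℝ) / 2) := Real.Gamma_pos_of_pos (by linarith)
  have a0 : 0 < (s : ℝ) / 2 + (r : ℝ) / 2 - 1 := by linarith
  have g3 := Real.Gamma_pos_of_pos a0
  refine ⟨2 * Real.pi / Real.Gamma ((r : ℝ) / 2) * ((1 / 2) ^ ((s : ℝ) / 2 + (r : ℝ) / 2 - 1) *
    Real.Gamma ((s : ℝ) / 2 + (r : ℝ) / 2 - 1)) / Real.Gamma ((s : ℝ) / 2),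
    by have := Real.pi_pos; positivity, fun y hy => ?_⟩
  refine mul_left_cancel₀ (ofReal_ne_zero.2 g2.ne') ?_
  have hi : Integrable (Function.uncurry fun x t : ℝ =>
      ((1 / ((y : ℂ) - I * x)) ^ (1 / 2 : ℂ)) ^ r *
        ((t : ℂ) ^ ((((s : ℝ) / 2 : ℝ) : ℂ) - 1) * cexp (-(((y : ℂ) + I * x) * t))))
      ((volume : Measure ℝ).prod (volume.restrict (Set.Ioi 0))) := by
    refine ((integrable_dens hr hy).mul_prod (integrableOn_rpow_mul_exp_neg_mul_rpow
      (s := (s : ℝ) / 2 - 1) (by linarith) one_pos hy)).mono'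
      (Measurable.aestronglyMeasurable (by fun_prop)) ?_
    have h4 : ∀ᵐ z : ℝ × ℝ ∂((volume : Measure ℝ).prod (volume.restrict (Set.Ioi 0))), 0 < z.2 :=
      Measure.quasiMeasurePreserving_snd.ae (ae_restrict_mem measurableSet_Ioi)
    filter_upwards [h4] with z hz
    have h2 := norm_half_pow y z.1 hy 1 (Or.inl rfl)
    rw [ofReal_one, mul_one] at h2
    rw [Function.uncurry, norm_mul, RGam_norm _ _ hz, norm_pow, h2,
      ← Real.rpow_mul_natCast (by positivity), Real.rpow_one]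
    refine le_of_eq ?_
    congr 2
    · ring
    · simp
  rw [← integral_const_mul]
  simp only [QJ_psq, mul_left_comm (Real.Gamma ((s : ℝ) / 2) : ℂ), QJ_gamma hs hy,
    ← integral_const_mul]
  rw [integral_integral_swap hi, setIntegral_congr_fun measurableSet_Ioi
    fun t ht => QJ_inner hr _ hy ht, integral_complex_ofReal, integral_const_mul,
    Real.integral_rpow_mul_exp_neg_mul_Ioi a0 (by positivity), ← ofReal_mul]
  refine congrArg ofReal ?_
  have e1 : (1 / (2 * y)) ^ ((s : ℝ) / 2 + (r : ℝ) / 2 - 1) =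
      (1 / 2) ^ ((s : ℝ) / 2 + (r : ℝ) / 2 - 1) * y ^ (1 - ((r : ℝ) + s) / 2) := by
    rw [← one_div_mul_one_div, Real.mul_rpow (by norm_num) (by positivity), one_div y,
      Real.inv_rpow hy.le, ← Real.rpow_neg hy.le]
    congr 2
    ring
  rw [e1]
  field_simp

theorem dens_pos {m : ℕ} (hm : 3 ≤ m) {y t : ℝ} (hy : 0 < y) (ht : 0 < t) :
    ∫ x : ℝ, psq (QL.sgn m 0) y x * ee (-(x * t)) =
      ((cmc m * t ^ ((m : ℝ) / 2 - 1) * Real.exp (-(2 * Real.pi * t * y)) : ℝ) : ℂ) := by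
  simp only [QJ_psq, pow_zero, mul_one]
  rw [dens_def hm hy ht, cmc]
  refine congrArg ofReal ?_
  ring

end Pool.Agent.Work.MP_c8d35c_al
end

-- merged part: Pool.Agent.Work.MP_c8d35c_al.QCM
section
/-! The circle method: the number of representations, isotropic vectors.

Plan. `cm_core`: integrate `th_approx` times `ee (-(x t))` over `Ioc 0 1`. The theta side is
`coeff_q` with `α = X`, `w v = exp (-π y |Φ v|^2)` (`summable_gauss`), `q v = Q v - t`
(`gsq_bq`); the main term is `unfold_q` with `G κ = gq κ 0 * ee (-(κ t))`,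
`h x = psq ε y x * ee (-(x t))`, `w c = c^(-N/2) √(a c)` (`gq_bound`, `gq_add_int`, `gq_zero`).
`rep_le`: `y = 1 / n`, `|Φ v|^2 = β v v = 2 n`, the set is finite (`Sig.finite`), `dens_pos`;
`N/4 + 1 < N/2 - 1`. `iso_of_sg2`: otherwise the sum for `t = 0` is `1`; `dens_zero`, let
`y → 0`. `sg2_lt_one`: `∑ (c + 2)^(-3) < 1`, compare with the telescoping series. -/

namespace Pool.Agent.Work.MP_c8d35c_al

open Module Complex MeasureTheory

theorem QCM_summable {p : ℝ} (hp : p < -1) : Summable fun c : ℕ => ((c : ℝ) + 2) ^ p := by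
  have h := (summable_nat_add_iff 2).2 (Real.summable_nat_rpow.2 hp)
  simpa using h

theorem QCM_tel : HasSum (fun c : ℕ => 1 / ((c : ℝ) + 1) - 1 / ((c : ℝ) + 2)) 1 := by
  have h0 : ∀ c : ℕ, 0 ≤ 1 / ((c : ℝ) + 1) - 1 / ((c : ℝ) + 2) := fun c => by
    rw [sub_nonneg]
    exact one_div_le_one_div_of_le (by positivity) (by linarith)
  rw [hasSum_iff_tendsto_nat_of_nonneg h0]
  have e : ∀ n : ℕ, ∑ i ∈ Finset.range n, (1 / ((i : ℝ) + 1) - 1 / ((i : ℝ) + 2)) =
      1 - 1 / ((n : ℝ) + 1) := fun n => by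
    induction n with
    | zero => simp
    | succ n ih =>
      rw [Finset.sum_range_succ, ih]
      push_cast
      ring
  simp only [e]
  simpa using (tendsto_const_nhds (x := (1 : ℝ))).sub tendsto_one_div_add_atTop_nhds_zero_nat

theorem QCM_lt_one {f : ℕ → ℝ} (h0 : ∀ c, 0 ≤ f c)
    (h : ∀ c : ℕ, f c ≤ ((c : ℝ) + 2) ^ (-3 : ℝ)) : ∑' c, f c < 1 := by
  have h1 : ∀ c : ℕ, f c ≤ 1 / 2 * (1 / ((c : ℝ) + 1) - 1 / ((c : ℝ) + 2)) := fun c => by
    refine (h c).trans ?_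
    have hc : (0 : ℝ) ≤ c := Nat.cast_nonneg c
    rw [Real.rpow_neg (by positivity), show (3 : ℝ) = (3 : ℕ) by norm_num, Real.rpow_natCast,
      show 1 / 2 * (1 / ((c : ℝ) + 1) - 1 / ((c : ℝ) + 2)) =
        (2 * (((c : ℝ) + 1) * ((c : ℝ) + 2)))⁻¹ by
        field_simp; ring]
    refine inv_anti₀ (by positivity) ?_
    nlinarith [mul_nonneg hc hc, mul_nonneg hc (mul_nonneg hc hc)]
  have h2 := QCM_tel.mul_left (1 / 2)
  have h3 := (Summable.of_nonneg_of_le h0 h1 h2.summable).tsum_le_tsum h1 h2.summable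
  rw [h2.tsum_eq] at h3
  linarith

theorem QCM_mul (N : ℝ) (c : ℕ) (b : ℝ) :
    ((c : ℝ) + 2) * (((c + 2 : ℕ) : ℝ) ^ (-(N / 2)) * b) = ((c : ℝ) + 2) ^ (1 - N / 2) * b := by
  have hc : (0 : ℝ) < (c : ℝ) + 2 := by positivity
  push_cast
  rw [sub_eq_add_neg, Real.rpow_add hc, Real.rpow_one, mul_assoc]

namespace QL

variable {L : QL}

theorem QCM_a_le (L : QL) (c : ℕ) : (L.a c : ℝ) ≤ L.a 0 := by
  exact_mod_cast Nat.le_of_dvd (Nat.pos_of_ne_zero (L.a_ne_zero 0)) (L.a_dvd (dvd_zero c))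

theorem summable_sg2 (L : QL) (hN : 5 ≤ L.N) :
    Summable fun c : ℕ => ((c : ℝ) + 2) ^ (1 - (L.N : ℝ) / 2) * √(L.a (c + 2) : ℝ) := by
  have hN' : (5 : ℝ) ≤ L.N := by exact_mod_cast hN
  refine Summable.of_nonneg_of_le (fun c => by positivity) (fun c => ?_)
    ((QCM_summable (p := 1 - (L.N : ℝ) / 2) (by linarith)).mul_right √(L.a 0 : ℝ))
  exact mul_le_mul_of_nonneg_left (Real.sqrt_le_sqrt (L.QCM_a_le _)) (by positivity)

theorem QCM_coeff {ι : Type} [Fintype ι] {ε : ι → ℝ} {Φ : L.W →+ ι → ℝ}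
    (h : RealFrame L.β ε Φ) {y : ℝ} (hy : 0 < y) (t : ℤ) :
    IntegrableOn (fun x : ℝ => L.th ε Φ y x * ee (-(x * t))) (Set.Ioc 0 1) ∧
      ∫ x in Set.Ioc (0 : ℝ) 1, L.th ε Φ y x * ee (-(x * t)) =
        ((∑' v : {v : L.X // L.β v v = 2 * t},
            Real.exp (-(Real.pi * ∑ i, y * Φ v.1 i ^ 2)) : ℝ) : ℂ) := by
  have : Countable L.X := Full.countable L.full
  choose z hz using fun v : L.X => L.even v v.2
  set w : L.X → ℝ := fun v => Real.exp (-(Real.pi * ∑ i, y * Φ v i ^ 2)) with hw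
  have hs : Summable w := by
    simpa only [zero_add] using summable_gauss L.nondeg h L.full (a := fun _ => y)
      (fun _ => hy) 0
  have key : (fun x : ℝ => L.th ε Φ y x * ee (-(x * t))) =
      fun x => ∑' v, (w v : ℂ) * ee (x * ((z v - t : ℤ) : ℝ)) := by
    funext x
    rw [th, ← tsum_mul_right]
    refine tsum_congr fun v => ?_
    rw [gsq_bq h, mul_assoc, ← ee_add]
    congr 2
    rw [hz v]
    push_cast
    ring
  obtain ⟨h1, h2⟩ := coeff_q (fun v => (Real.exp_pos _).le) hs fun v => z v - t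
  rw [key]
  refine ⟨h1, h2.trans ?_⟩
  congr 1
  have e : ∀ v : L.X, z v - t = 0 ↔ L.β v v = 2 * t := fun v => by
    rw [hz v, sub_eq_zero]
    constructor
    · intro h
      rw [h]
    · intro h
      exact_mod_cast mul_left_cancel₀ (two_ne_zero) h
  exact (Equiv.subtypeEquivRight e).tsum_eq
    (fun v : {v : L.X // L.β v v = 2 * t} => Real.exp (-(Real.pi * ∑ i, y * Φ v.1 i ^ 2)))

theorem QCM_main {ι : Type} [Fintype ι] {ε : ι → ℝ} {Φ : L.W →+ ι → ℝ}
    (h : RealFrame L.β ε Φ) (hN : 5 ≤ L.N) {y : ℝ} (hy : 0 < y) (t : ℤ) :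
    IntegrableOn (fun x : ℝ => (∑' κ : ℚ, L.gq κ 0 / (cov L.β L.X : ℂ) * psq ε y (x - κ)) *
        ee (-(x * t))) (Set.Ioc 0 1) ∧ ∃ S : ℂ, ‖S - 1‖ ≤ L.sg2 ∧
      ∫ x in Set.Ioc (0 : ℝ) 1, (∑' κ : ℚ, L.gq κ 0 / (cov L.β L.X : ℂ) * psq ε y (x - κ)) *
        ee (-(x * t)) = S / (cov L.β L.X : ℂ) * ∫ x : ℝ, psq ε y x * ee (-(x * t)) := by
  have key : (fun x : ℝ => (∑' κ : ℚ, L.gq κ 0 / (cov L.β L.X : ℂ) * psq ε y (x - κ)) *
        ee (-(x * t))) = fun x : ℝ => (cov L.β L.X : ℂ)⁻¹ *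
        ∑' κ : ℚ, (L.gq κ 0 * ee (-(κ * t))) * (psq ε y (x - κ) * ee (-((x - κ) * t))) := by
    funext x
    rw [← tsum_mul_right, ← tsum_mul_left]
    refine tsum_congr fun κ => ?_
    have e : -(x * t) = -(κ * t) + -((x - κ) * t) := by ring
    rw [e, ee_add]
    ring
  have hc : 3 ≤ Fintype.card ι := by
    rw [h.card]
    exact le_trans (by norm_num) hN
  obtain ⟨h1, S, hS, h2⟩ := unfold_q (G := fun κ : ℚ => L.gq κ 0 * ee (-(κ * t)))
    (w := fun c => (c : ℝ) ^ (-((L.N : ℝ) / 2)) * √(L.a c : ℝ))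
    (h := fun x : ℝ => psq ε y x * ee (-(x * t)))
    (fun κ a => by
      have e : -(((κ + a : ℚ) : ℝ) * t) = -(κ * t) + ((-(a * t) : ℤ) : ℝ) := by
        push_cast
        ring
      simp only [gq_add_int, e, ee_add, ee_int, mul_one])
    (fun κ => by
      rw [norm_mul, norm_ee, mul_one]
      exact gq_bound L κ (zero_mem _))
    (by simpa only [QCM_mul] using summable_sg2 L hN)
    (integrable_psq h.sign hc hy t)
  rw [key]
  refine ⟨h1.const_mul _, S, ?_, ?_⟩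
  · simpa only [QCM_mul, gq_zero, Rat.cast_zero, zero_mul, neg_zero, ee_zero, mul_one, sg2]
      using hS
  · rw [integral_const_mul, h2]
    ring

theorem cm_core {ι : Type} [Fintype ι] {ε : ι → ℝ} {Φ : L.W →+ ι → ℝ} (h : RealFrame L.β ε Φ)
    (hN : 5 ≤ L.N) : ∃ C : ℝ, 0 ≤ C ∧ ∀ y : ℝ, 0 < y → y ≤ 1 → ∀ t : ℤ, ∃ S : ℂ,
      ‖S - 1‖ ≤ L.sg2 ∧
      ‖((∑' v : {v : L.X // L.β v v = 2 * t},
            Real.exp (-(Real.pi * ∑ i, y * Φ v.1 i ^ 2)) : ℝ) : ℂ) -
          S / (cov L.β L.X : ℂ) * ∫ x : ℝ, psq ε y x * ee (-(x * t))‖ ≤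
        C * y ^ (-((L.N : ℝ) / 4) - 1) := by
  obtain ⟨C, hC, happ⟩ := th_approx h hN
  refine ⟨C, hC, fun y hy hy1 t => ?_⟩
  obtain ⟨hi1, h1⟩ := QCM_coeff h hy t
  obtain ⟨hi2, S, hS, h2⟩ := QCM_main h hN hy t
  refine ⟨S, hS, ?_⟩
  rw [← h1, ← h2, ← integral_sub hi1 hi2]
  have hv : volume.real (Set.Ioc (0 : ℝ) 1) = 1 := by simp
  refine le_trans (norm_setIntegral_le_of_norm_le_const (C := C * y ^ (-((L.N : ℝ) / 4) - 1))
    measure_Ioc_lt_top fun x _ => ?_) (by rw [hv, mul_one])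
  rw [← sub_mul, norm_mul, norm_ee, mul_one]
  exact happ y hy hy1 x

theorem rep_le {m : ℕ} (h : L.Sig m 0) (hm : 9 ≤ m) {δ : ℝ} (hδ : 0 < δ) :
    ∃ n0 : ℕ, ∀ n : ℕ, n0 ≤ n →
      (L.rep n : ℝ) ≤
        (cmc m * ((1 + L.sg2) / √(L.a 0 : ℝ)) + δ) * (n : ℝ) ^ ((m : ℝ) / 2 - 1) := by
  have hN : m = L.N := h.add
  obtain ⟨Φ, hΦ⟩ := h
  obtain ⟨C, hC, hcm⟩ := cm_core hΦ (by omega)
  have hm' : (9 : ℝ) ≤ m := by exact_mod_cast hm
  set E := Real.exp (-(2 * Real.pi)) with hE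
  have hE0 : 0 < E := Real.exp_pos _
  have hlim : Filter.Tendsto (fun n : ℕ => C * (n : ℝ) ^ (-(1 / 4 : ℝ))) Filter.atTop (nhds 0) := by
    simpa using ((tendsto_rpow_neg_atTop (y := 1 / 4) (by norm_num)).comp
      tendsto_natCast_atTop_atTop).const_mul C
  obtain ⟨n0, hn0⟩ := Filter.eventually_atTop.1 (hlim.eventually_le_const (mul_pos hδ hE0))
  refine ⟨max n0 1, fun n hn => ?_⟩
  have hn1 : (1 : ℝ) ≤ n := by exact_mod_cast le_of_max_le_right hn
  have hn2 : (0 : ℝ) < n := by linarith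
  obtain ⟨S, hS, h1⟩ := hcm (1 / n) (by positivity) (by rwa [div_le_one hn2]) n
  have e1 : ∑' v : {v : L.X // L.β v v = 2 * ((n : ℤ) : ℚ)},
      Real.exp (-(Real.pi * ∑ i, 1 / (n : ℝ) * Φ v.1 i ^ 2)) = L.rep n * E := by
    have e2 : ∀ v : {v : L.X // L.β v v = 2 * ((n : ℤ) : ℚ)},
        Real.exp (-(Real.pi * ∑ i, 1 / (n : ℝ) * Φ v.1 i ^ 2)) = E := fun v => by
      rw [← Finset.mul_sum, ← QSig_sq hΦ, v.2, hE]
      congr 1
      push_cast
      field_simp
    simp only [e2]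
    rw [tsum_const, nsmul_eq_mul, rep, ← Nat.card_coe_set_eq]
    congr 2
    exact Nat.card_congr (Equiv.subtypeSubtypeEquivSubtypeInter (fun x : L.W => x ∈ L.X)
      fun x => L.β x x = 2 * n)
  have e3 := dens_pos (m := m) (by omega) (y := 1 / n) (t := ((n : ℤ) : ℝ)) (by positivity)
    (by simpa using hn2)
  have e4 : Real.exp (-(2 * Real.pi * ((n : ℤ) : ℝ) * (1 / n))) = E := by
    rw [hE]
    congr 1
    push_cast
    field_simp
  rw [e1, e3, e4, Int.cast_natCast, cov_eq, ← hN] at h1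
  have hcm0 : 0 ≤ cmc m := by
    have := Real.Gamma_pos_of_pos (s := (m : ℝ) / 2) (by linarith)
    rw [cmc]
    positivity
  have hP : 0 < (n : ℝ) ^ ((m : ℝ) / 2 - 1) := Real.rpow_pos_of_pos hn2 _
  have hS1 : ‖S‖ ≤ 1 + L.sg2 := by
    have := norm_le_insert' S 1
    rw [norm_one] at this
    linarith
  have a1 : ‖S / ((√(L.a 0 : ℝ) : ℝ) : ℂ) * ((cmc m * (n : ℝ) ^ ((m : ℝ) / 2 - 1) * E : ℝ) : ℂ)‖ ≤
      (1 + L.sg2) / √(L.a 0 : ℝ) * (cmc m * (n : ℝ) ^ ((m : ℝ) / 2 - 1) * E) := by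
    rw [norm_mul, norm_div, Complex.norm_real, Complex.norm_real,
      Real.norm_of_nonneg (Real.sqrt_nonneg _), Real.norm_of_nonneg (by positivity)]
    gcongr
  have a2 : C * (1 / (n : ℝ)) ^ (-((m : ℝ) / 4) - 1) ≤ δ * E * (n : ℝ) ^ ((m : ℝ) / 2 - 1) := by
    refine le_trans ?_ (mul_le_mul_of_nonneg_right (hn0 n (le_of_max_le_left hn)) hP.le)
    rw [mul_assoc, ← Real.rpow_add hn2, one_div, Real.inv_rpow hn2.le, ← Real.rpow_neg hn2.le]
    exact mul_le_mul_of_nonneg_left (Real.rpow_le_rpow_of_exponent_le hn1 (by linarith)) hC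
  have a3 := norm_le_insert' (((L.rep n : ℝ) * E : ℝ) : ℂ)
    (S / ((√(L.a 0 : ℝ) : ℝ) : ℂ) * ((cmc m * (n : ℝ) ^ ((m : ℝ) / 2 - 1) * E : ℝ) : ℂ))
  rw [Complex.norm_real, Real.norm_of_nonneg (by positivity)] at a3
  refine le_of_mul_le_mul_right (a3.trans ((add_le_add a1 (h1.trans a2)).trans (le_of_eq ?_))) hE0
  ring

theorem iso_of_sg2 {r s : ℕ} (h : L.Sig r s) (hr : 3 ≤ r) (hs : 1 ≤ s) (hN : 9 ≤ r + s)
    (hσ : L.sg2 < 1) : ∃ x : L.W, x ≠ 0 ∧ L.β x x = 0 := by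
  by_contra hne
  push Not at hne
  have hN1 : r + s = L.N := h.add
  obtain ⟨Φ, hΦ⟩ := h
  obtain ⟨C, hC, hcm⟩ := cm_core hΦ (by omega)
  obtain ⟨J, hJ, hd⟩ := dens_zero hr hs
  have hN' : (9 : ℝ) ≤ L.N := by exact_mod_cast hN1 ▸ hN
  have hN2 : (r : ℝ) + s = L.N := by exact_mod_cast hN1
  have hc := cov_pos L.nondeg L.full
  set K := (1 - L.sg2) / cov L.β L.X * J with hK
  have hK0 : 0 < K := mul_pos (div_pos (by linarith) hc) hJ
  set u := min 1 (K / (2 * (1 + C))) with hu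
  have hu0 : 0 < u := lt_min one_pos (by positivity)
  have hu1 : u ≤ 1 := min_le_left _ _
  have hu2 : u ≤ K / (2 * (1 + C)) := min_le_right _ _
  have hy0 : 0 < u ^ 4 := by positivity
  have hy1 : u ^ 4 ≤ 1 := pow_le_one₀ hu0.le hu1
  obtain ⟨S, hS, h1⟩ := hcm (u ^ 4) hy0 hy1 0
  have e1 : ∑' v : {v : L.X // L.β v v = 2 * ((0 : ℤ) : ℚ)},
      Real.exp (-(Real.pi * ∑ i, u ^ 4 * Φ v.1 i ^ 2)) = 1 := by
    rw [tsum_eq_single ⟨0, by simp⟩]
    · simp
    · intro v hv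
      refine absurd (by simpa using v.2) (hne v.1 fun h0 => hv ?_)
      exact Subtype.ext (Subtype.ext h0)
  have e2 : ∫ x : ℝ, psq (sgn r s) (u ^ 4) x * ee (-(x * ((0 : ℤ) : ℝ))) =
      ((J * (u ^ 4) ^ (1 - (L.N : ℝ) / 2) : ℝ) : ℂ) := by
    rw [← hN2, ← hd _ hy0]
    simp [ee_zero]
  rw [e1, e2] at h1
  have hP : 0 < (u ^ 4) ^ (1 - (L.N : ℝ) / 2) := Real.rpow_pos_of_pos hy0 _
  have hS1 : 1 - L.sg2 ≤ ‖S‖ := by
    have := norm_le_insert' 1 S
    rw [norm_one, norm_sub_rev] at this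
    linarith
  have a1 : K * (u ^ 4) ^ (1 - (L.N : ℝ) / 2) ≤
      ‖S / (cov L.β L.X : ℂ) * ((J * (u ^ 4) ^ (1 - (L.N : ℝ) / 2) : ℝ) : ℂ)‖ := by
    rw [norm_mul, norm_div, Complex.norm_real, Complex.norm_real,
      Real.norm_of_nonneg hc.le, Real.norm_of_nonneg (by positivity), hK, mul_assoc]
    gcongr
  have a2 : (u ^ 4) ^ (-((L.N : ℝ) / 4) - 1) ≤ u * (u ^ 4) ^ (1 - (L.N : ℝ) / 2) := by
    have e : u = (u ^ 4) ^ (1 / 4 : ℝ) := by
      rw [← Real.rpow_natCast, ← Real.rpow_mul hu0.le]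
      norm_num
    calc (u ^ 4) ^ (-((L.N : ℝ) / 4) - 1) ≤ (u ^ 4) ^ (1 / 4 + (1 - (L.N : ℝ) / 2)) :=
          Real.rpow_le_rpow_of_exponent_ge hy0 hy1 (by linarith)
      _ = u * (u ^ 4) ^ (1 - (L.N : ℝ) / 2) := by rw [Real.rpow_add hy0, ← e]
  have a3 : 1 ≤ (u ^ 4) ^ (-((L.N : ℝ) / 4) - 1) :=
    Real.one_le_rpow_of_pos_of_le_one_of_nonpos hy0 hy1 (by linarith)
  have a4 := norm_le_insert ((1 : ℝ) : ℂ)
    (S / (cov L.β L.X : ℂ) * ((J * (u ^ 4) ^ (1 - (L.N : ℝ) / 2) : ℝ) : ℂ))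
  rw [Complex.norm_real, norm_one] at a4
  have a5 : K * (u ^ 4) ^ (1 - (L.N : ℝ) / 2) ≤ (1 + C) * u * (u ^ 4) ^ (1 - (L.N : ℝ) / 2) := by
    have := mul_le_mul_of_nonneg_left a2 (show 0 ≤ 1 + C by linarith)
    nlinarith
  have a6 := le_of_mul_le_mul_right a5 hP
  rw [le_div_iff₀ (by positivity)] at hu2
  nlinarith

theorem sg2_lt_one_of_unimod (h : L.a 0 = 1) (hN : 8 ≤ L.N) : L.sg2 < 1 := by
  have hN' : (8 : ℝ) ≤ L.N := by exact_mod_cast hN
  refine QCM_lt_one (fun c => by positivity) fun c => ?_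
  have hc : (0 : ℝ) ≤ c := Nat.cast_nonneg c
  have h1 : √(L.a (c + 2) : ℝ) ≤ 1 := by
    rw [Real.sqrt_le_one]
    simpa [h] using L.QCM_a_le (c + 2)
  refine (mul_le_of_le_one_right (by positivity) h1).trans ?_
  exact Real.rpow_le_rpow_of_exponent_le (by linarith) (by linarith)

theorem Red.sg2_lt_one (h : L.Red L.N) (hN : 18 ≤ L.N) : L.sg2 < 1 := by
  have hN' : (18 : ℝ) ≤ L.N := by exact_mod_cast hN
  refine QCM_lt_one (fun c => by positivity) fun c => ?_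
  have hc : (0 : ℝ) ≤ c := Nat.cast_nonneg c
  have hc2 : (0 : ℝ) < (c : ℝ) + 2 := by positivity
  have h0 : (L.a (c + 2) : ℝ) ^ 2 ≤ ((c : ℝ) + 2) ^ (L.N + 2) := by
    exact_mod_cast h.a_le (c := c + 2) (by omega)
  have h1 : √(L.a (c + 2) : ℝ) ≤ ((c : ℝ) + 2) ^ (((L.N : ℝ) + 2) / 4) := by
    refine Real.sqrt_le_iff.2 ⟨by positivity, ?_⟩
    refine (pow_le_pow_iff_left₀ (Nat.cast_nonneg _) (by positivity) two_ne_zero).1
      (h0.trans (le_of_eq ?_))
    rw [← pow_mul, ← Real.rpow_natCast _ (2 * 2), ← Real.rpow_mul hc2.le, ← Real.rpow_natCast]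
    congr 1
    push_cast
    ring
  refine (mul_le_mul_of_nonneg_left h1 (by positivity)).trans ?_
  rw [← Real.rpow_add hc2]
  exact Real.rpow_le_rpow_of_exponent_le (by linarith) (by linarith)

end QL

end Pool.Agent.Work.MP_c8d35c_al
end
end
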