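import Pool.Agent.Work.MP_c8d35c_al.GDefs
import Pool.Agent.Work.MP_c8d35c_al.QFrame

/-! The integral group of a rational form is arithmetic. -/

namespace Pool.Agent.Work.MP_c8d35c_al

open Matrix

theorem IsArithmetic.of_comm {G : Type} [Group G] [TopologicalSpace G] {Γ Δ : Subgroup G}
    (h : IsArithmetic Δ) (hc : Subgroup.Commensurable Γ Δ) : IsArithmetic Γ := by
  obtain ⟨N, I, Hc, H, φ, h1, h2, h3, h4, h5, h6, h7⟩ := h
  exact ⟨N, I, Hc, H, φ, h1, h2, h3, h4, h5, h6, hc.trans h7⟩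

/-- The orthogonal group of a matrix. -/
def GEx_orth {m : ℕ} {R : Type} [CommRing R] (B : Matrix (Fin m) (Fin m) R) :
    Subgroup (GL (Fin m) R) where
  carrier := {g | g.valᵀ * B * g.val = B}
  one_mem' := by simp
  mul_mem' := fun {a b} ha hb => by
    change (a.val * b.val)ᵀ * B * (a.val * b.val) = B
    rw [transpose_mul, mul_assoc b.valᵀ, mul_assoc b.valᵀ, ← mul_assoc _ a.val, ha, ← mul_assoc, hb]
  inv_mem' := fun {a} ha => by
    change (a⁻¹).valᵀ * B * (a⁻¹).val = B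
    conv_lhs => rw [← ha]
    rw [← mul_assoc, ← mul_assoc, ← transpose_mul, mul_assoc, mul_assoc, Units.mul_inv,
      transpose_one, one_mul, mul_one]

lemma GEx_eq {m : ℕ} (A : Matrix (Fin m) (Fin m) ℚ) (g : Matrix (Fin m) (Fin m) ℂ) (i j : Fin m) :
    MvPolynomial.aeval (fun ij : Fin m × Fin m => g ij.1 ij.2)
      (∑ l, (∑ k, MvPolynomial.X (k, i) * MvPolynomial.C (A k l)) * MvPolynomial.X (l, j) -
        MvPolynomial.C (A i j) : MvPolynomial (Fin m × Fin m) ℚ) =
      (gᵀ * A.map (algebraMap ℚ ℂ) * g) i j - A.map (algebraMap ℚ ℂ) i j := by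
  simp [Matrix.mul_apply]

lemma GEx_real {m : ℕ} (A : Matrix (Fin m) (Fin m) ℚ) (g : GL (Fin m) ℝ) :
    g ∈ (GEx_orth (A.map (algebraMap ℚ ℂ))).comap (GeneralLinearGroup.map (algebraMap ℝ ℂ)) ↔
      g.valᵀ * A.map (Rat.castHom ℝ) * g.val = A.map (Rat.castHom ℝ) := by
  have e : A.map (algebraMap ℚ ℂ) = (A.map (Rat.castHom ℝ)).map (algebraMap ℝ ℂ) := by
    ext i j
    simp
  change (g.val.map (algebraMap ℝ ℂ))ᵀ * A.map (algebraMap ℚ ℂ) * g.val.map (algebraMap ℝ ℂ) =
    A.map (algebraMap ℚ ℂ) ↔ _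
  rw [e, ← transpose_map, ← Matrix.map_mul, ← Matrix.map_mul]
  exact (Matrix.map_injective (algebraMap ℝ ℂ).injective).eq_iff

lemma GEx_conj {n : ℕ} {B : Matrix (Fin (n + 1)) (Fin (n + 1)) ℝ} {P : GL (Fin (n + 1)) ℝ}
    (hP : P.valᵀ * B * P.val = lorMat n) (g : GL (Fin (n + 1)) ℝ) :
    g.valᵀ * B * g.val = B ↔
      ∀ x y, lor ((P⁻¹ * g * P).val *ᵥ x) ((P⁻¹ * g * P).val *ᵥ y) = lor x y := by
  rw [lor_mulVec_iff, ← hP]
  have e : (P⁻¹ * g * P).valᵀ * (P.valᵀ * B * P.val) * (P⁻¹ * g * P).val =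
      P.valᵀ * (g.valᵀ * B * g.val) * P.val := by
    have e1 : P.val * (P⁻¹ * g * P).val = g.val * P.val := by
      rw [← Units.val_mul, ← Units.val_mul]
      congr 1
      group
    rw [← mul_assoc, ← mul_assoc, ← transpose_mul, mul_assoc _ P.val, e1, transpose_mul]
    simp only [mul_assoc]
  rw [e]
  refine ⟨fun h => by rw [h], fun h => ?_⟩
  have hu : IsUnit P.valᵀ := (isUnit_transpose _).2 P.isUnit
  exact hu.mul_left_cancel (P.isUnit.mul_right_cancel h)

theorem arith_isArithmetic {n : ℕ} {A : Matrix (Fin (n + 1)) (Fin (n + 1)) ℚ}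
    {P : GL (Fin (n + 1)) ℝ} (hP : P.valᵀ * A.map (Rat.castHom ℝ) * P.val = lorMat n) :
    IsArithmetic ((arith (Rat.castHom ℝ) P).subgroupOf (isomH n)) := by
  let c : GL (Fin (n + 1)) ℝ →* GL (Fin (n + 1)) ℝ := (MulAut.conj P⁻¹).toMonoidHom
  have hc : ∀ g, c g = P⁻¹ * g * P := fun g => by simp [c]
  let H : Subgroup (GL (Fin (n + 1)) ℝ) := (isomH n).comap c
  let φ : H →* isomH n := (c.comp H.subtype).codRestrict _ fun h => h.2
  have hφ : ∀ h : H, (φ h).val = P⁻¹ * h.val * P := fun h => hc _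
  have hsurj : ∀ g : isomH n, ∃ h : H, h.val = P * g.val * P⁻¹ ∧ φ h = g := fun g => by
    have e : c (P * g.val * P⁻¹) = g.val := by
      rw [hc]
      group
    exact ⟨⟨P * g.val * P⁻¹, by
      change c _ ∈ isomH n
      rw [e]
      exact g.2⟩, rfl, Subtype.ext e⟩
  refine ⟨n + 1, Set.range fun ij : Fin (n + 1) × Fin (n + 1) =>
    ∑ l, (∑ k, MvPolynomial.X (k, ij.1) * MvPolynomial.C (A k l)) * MvPolynomial.X (l, ij.2) -
      MvPolynomial.C (A ij.1 ij.2), GEx_orth (A.map (algebraMap ℚ ℂ)), H, φ, fun g => ?_,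
    fun g hg => ?_, ?_, ?_, ?_, ?_, ?_⟩
  · rw [Set.forall_mem_range]
    simp only [GEx_eq, sub_eq_zero]
    exact ⟨fun h ij => congrFun (congrFun h ij.1) ij.2, fun h => Matrix.ext fun i j => h (i, j)⟩
  · rw [GEx_real, GEx_conj hP, ← hc]
    exact hg.1
  · set Hr := (GEx_orth (A.map (algebraMap ℚ ℂ))).comap
      (GeneralLinearGroup.map (n := Fin (n + 1)) (algebraMap ℝ ℂ)) with hHr
    have hm : (-1 : GL (Fin (n + 1)) ℝ) ∈ Hr := by
      rw [GEx_real]
      simp
    have : Finite (Hr ⧸ H.subgroupOf Hr) := by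
      refine Finite.of_surjective (fun b : Bool =>
        (QuotientGroup.mk (if b then 1 else ⟨-1, hm⟩) : Hr ⧸ H.subgroupOf Hr)) fun q => ?_
      obtain ⟨g, rfl⟩ := QuotientGroup.mk_surjective q
      have h1 := g.2
      rw [GEx_real, GEx_conj hP] at h1
      rcases mem_isomH_or_neg h1 with h | h
      · refine ⟨true, QuotientGroup.eq.2 ?_⟩
        change c _ ∈ isomH n
        rw [hc]
        simpa using h
      · refine ⟨false, QuotientGroup.eq.2 ?_⟩
        change c _ ∈ isomH n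
        rw [hc]
        simpa using h
    exact Subgroup.index_ne_zero_of_finite
  · refine Continuous.subtype_mk ?_ _
    change Continuous fun h : H => c h.val
    simp only [hc]
    fun_prop
  · have : φ.ker = ⊥ := (MonoidHom.ker_eq_bot_iff φ).2 fun a b h => by
      have h1 := congrArg Subtype.val h
      rw [hφ, hφ] at h1
      exact Subtype.ext (mul_left_cancel (mul_right_cancel h1))
    rw [this, Subgroup.coe_bot]
    exact isCompact_singleton
  · have : φ.range = ⊤ := MonoidHom.range_eq_top.2 fun g => (hsurj g).imp fun _ h => h.2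
    rw [this, Subgroup.index_top]
    exact one_ne_zero
  · have : (arith (Rat.castHom ℝ) P).subgroupOf (isomH n) =
        ((GeneralLinearGroup.map (n := Fin (n + 1)) (Int.castRingHom ℝ)).range.subgroupOf H).map
          φ := by
      ext g
      obtain ⟨h, e1, rfl⟩ := hsurj g
      have e2 : (φ h) ∈ (arith (Rat.castHom ℝ) P).subgroupOf (isomH n) ↔
          h.val ∈ (GeneralLinearGroup.map (n := Fin (n + 1)) (Int.castRingHom ℝ)).range := by
        rw [Subgroup.mem_subgroupOf, arith, Subgroup.mem_inf, Subgroup.mem_comap,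
          QArith_range _ (QArith_int (Module.finrank_self ℚ) _),
          QArith_range _ fun x => ⟨x, rfl⟩, e1]
        exact ⟨fun h => h.2, fun h' => ⟨(φ h).2, h'⟩⟩
      rw [e2]
      refine ⟨fun h1 => ⟨h, h1, rfl⟩, ?_⟩
      rintro ⟨h', h1, h2⟩
      have h3 := congrArg Subtype.val h2
      rw [hφ, hφ] at h3
      rw [← mul_left_cancel (mul_right_cancel h3)]
      exact h1
    rw [this]

end Pool.Agent.Work.MP_c8d35c_al
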