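import Pool.Agent.Work.MP_c8d35c_al.QBD

/-! The generators are symmetries. -/

namespace Pool.Agent.Work.MP_c8d35c_al

theorem gen4_ok : fLL dE (fun Es => fN (row 1680 dP 4) fun p => chkGen Es dR dB p) = true :=
  pkA_g pkD_ok (by decide +kernel)

theorem gen5_ok : fLL dE (fun Es => fN (row 1680 dP 5) fun p => chkGen Es dR dB p) = true :=
  pkA_g pkD_ok (by decide +kernel)

theorem gen6_ok : fLL dE (fun Es => fN (row 1680 dP 6) fun p => chkGen Es dR dB p) = true :=
  pkA_g pkD_ok (by decide +kernel)

theorem tab_ok : chkTab dP dPar = true := by decide +kernel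

theorem proj_ok : fLL dE (fun Es => (21 :: List.range' 2 18).all (chkPr Es dR)) = true := by
  decide +kernel

end Pool.Agent.Work.MP_c8d35c_al
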