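import Pool.Agent.Work.MP_c8d35c_al.QBD

/-! The representatives lie in the cone. -/

namespace Pool.Agent.Work.MP_c8d35c_al

theorem x200_ok : fLL dE (fun Es => (List.range' 200 25).all (chkX Es dR dX dZ)) = true :=
  pkA_x pkD_ok (by decide +kernel)

theorem x225_ok : fLL dE (fun Es => (List.range' 225 25).all (chkX Es dR dX dZ)) = true :=
  pkA_x pkD_ok (by decide +kernel)

theorem x250_ok : fLL dE (fun Es => (List.range' 250 25).all (chkX Es dR dX dZ)) = true :=
  pkA_x pkD_ok (by decide +kernel)

theorem x275_ok : fLL dE (fun Es => (List.range' 275 25).all (chkX Es dR dX dZ)) = true :=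
  pkA_x pkD_ok (by decide +kernel)


end Pool.Agent.Work.MP_c8d35c_al
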