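import Pool.Agent.Work.MP_c8d35c_al.QBDG0
import Pool.Agent.Work.MP_c8d35c_al.QBDG1
import Pool.Agent.Work.MP_c8d35c_al.QBDX0
import Pool.Agent.Work.MP_c8d35c_al.QBDX1
import Pool.Agent.Work.MP_c8d35c_al.QBDX2
import Pool.Agent.Work.MP_c8d35c_al.QBDX3
import Pool.Agent.Work.MP_c8d35c_al.QBDV0
import Pool.Agent.Work.MP_c8d35c_al.QBDV1
import Pool.Agent.Work.MP_c8d35c_al.QBDV2

/-! Reflection groups of finite index in dimensions up to 19 and in dimension 21. -/

namespace Pool.Agent.Work.MP_c8d35c_al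

open Matrix

theorem dE_shp : Shp dE dR := by
  unfold Shp
  decide +kernel

theorem dE_path : ∀ k < 20, ∀ j < 22, (dE.getD (dB.getD k 0) []).getD j 0 =
    if j = k + 1 then 1 else if j = k + 2 then -1 else 0 := by
  decide +kernel

theorem dE_last : ∀ j < 22, (dE.getD 42 []).getD j 0 = if j = 21 then 2 else 0 := by
  decide +kernel

theorem dE_first : ∀ j < 22, (dE.getD 2 []).getD j 0 =
    if j = 0 then 1 else if j ≤ 3 then -1 else 0 := by
  decide +kernel

theorem basis_mem (A : AddSubgroup ℝ) (y : Fin (21 + 1) → ℝ)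
    (h : ∀ k ∈ dB, lor y (wall dE k) ∈ A) (j : Fin (21 + 1)) : 2 * y j ∈ A := by
  have h1 : ∀ k (hk : k < 20), y ⟨k + 1, by omega⟩ - y ⟨k + 2, by omega⟩ ∈ A := by
    intro k hk
    have e : wall dE (dB.getD k 0) =
        Pi.single (Fin.succ ⟨k, by omega⟩) 1 - Pi.single (Fin.succ ⟨k + 1, by omega⟩) 1 := by
      funext j
      simp only [wall, vec, dE_path k hk j j.2, Pi.sub_apply, Pi.single_apply, Fin.ext_iff,
        Fin.val_succ]
      split_ifs <;> first | omega | simp
    have := h (dB.getD k 0) (by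
      rw [List.getD_eq_getElem _ _ (by simp [dB]; omega)]
      exact List.getElem_mem _)
    rwa [e, lor_sub_right, lor_single_succ, lor_single_succ] at this
  have h2 : 2 * y ⟨21, by omega⟩ ∈ A := by
    have e : wall dE 42 = (2 : ℝ) • Pi.single (Fin.succ ⟨20, by omega⟩) 1 := by
      funext j
      simp only [wall, vec, dE_last j j.2, Pi.smul_apply, Pi.single_apply, Fin.ext_iff,
        Fin.val_succ]
      split_ifs <;> simp
    have := h 42 (by simp [dB])
    rwa [e, lor_smul_right, lor_single_succ] at this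
  have h3 : ∀ i (hi : i ≤ 20), 2 * y ⟨21 - i, by omega⟩ ∈ A := by
    intro i
    induction i with
    | zero => exact fun _ => h2
    | succ i ih =>
      intro hi
      have a1 := h1 (19 - i) (by omega)
      have a2 := ih (by omega)
      have e1 : (⟨21 - (i + 1), by omega⟩ : Fin (21 + 1)) = ⟨19 - i + 1, by omega⟩ :=
        Fin.ext (by simp only; omega)
      have e2 : (⟨21 - i, by omega⟩ : Fin (21 + 1)) = ⟨19 - i + 2, by omega⟩ :=
        Fin.ext (by simp only; omega)
      rw [e2] at a2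
      rw [e1]
      convert A.add_mem (A.add_mem a1 a1) a2 using 1
      ring
  by_cases hj : j = 0
  · have e : wall dE 2 = e0 21 - Pi.single (Fin.succ 0) 1 - Pi.single (Fin.succ 1) 1 -
        Pi.single (Fin.succ 2) 1 := by
      funext j
      have a0 : ((0 : Fin (21 + 1)) : ℕ) = 0 := rfl
      have a1 : ((Fin.succ 0 : Fin (21 + 1)) : ℕ) = 1 := rfl
      have a2 : ((Fin.succ 1 : Fin (21 + 1)) : ℕ) = 2 := rfl
      have a3 : ((Fin.succ 2 : Fin (21 + 1)) : ℕ) = 3 := rfl
      simp only [wall, vec, dE_first j j.2, e0, Pi.sub_apply, Pi.single_apply, Fin.ext_iff,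
        a0, a1, a2, a3]
      split_ifs <;> first | omega | simp
    have := h 2 (by simp [dB])
    rw [e, lor_sub_right, lor_sub_right, lor_sub_right, lor_e0, lor_single_succ, lor_single_succ,
      lor_single_succ] at this
    have a1 : 2 * y (Fin.succ 0) ∈ A := h3 20 le_rfl
    have a2 : 2 * y (Fin.succ 1) ∈ A := h3 19 (by omega)
    have a3 : 2 * y (Fin.succ 2) ∈ A := h3 18 (by omega)
    rw [hj]
    convert A.neg_mem (A.add_mem (A.add_mem this this) (A.add_mem a1 (A.add_mem a2 a3))) using 1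
    ring
  · have hj' : j.val ≠ 0 := fun h0 => hj (Fin.ext h0)
    have := h3 (21 - j.val) (by omega)
    have e : (⟨21 - (21 - j.val), by omega⟩ : Fin (21 + 1)) = j :=
      Fin.ext (by have := j.2; simp only; omega)
    rwa [e] at this

theorem basis_sep (z : Fin (21 + 1) → ℝ) (h : ∀ k ∈ dB, lor z (wall dE k) = 0) : z = 0 := by
  funext j
  simpa using basis_mem ⊥ z h j

theorem dP_sym : ∀ t < 201, SyP dE dR (d8 (row 1680 dP t)) := by
  have hg : ∀ {k}, fLL dE (fun Es => fN (row 1680 dP k) fun p => chkGen Es dR dB p) = true →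
      SyP dE dR (d8 (row 1680 dP k)) := fun h => by
    rw [fLL_eq, fN_eq] at h
    exact gen_sound dE_shp rfl (by decide) basis_sep h
  refine tab_sound (fun s hs => ?_) tab_ok
  interval_cases s
  exacts [hg gen0_ok, hg gen1_ok, hg gen2_ok, hg gen3_ok, hg gen4_ok, hg gen5_ok, hg gen6_ok]

theorem dX_ok : ∀ r < 395, XOK dE dR dX dZ r := by
  have hx : ∀ {a n}, fLL dE (fun Es => (List.range' a n).all (chkX Es dR dX dZ)) = true →
      ∀ r, a ≤ r → r < a + n → XOK dE dR dX dZ r := fun h r h1 h2 => by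
    rw [fLL_eq] at h
    exact chkX_sound dE_shp (List.all_eq_true.1 h r (List.mem_range'_1.2 ⟨h1, h2⟩))
  intro r hr
  have hq : r / 25 < 16 := by omega
  generalize hq' : r / 25 = q at hq
  interval_cases q
  · exact hx x0_ok r (by omega) (by omega)
  · exact hx x25_ok r (by omega) (by omega)
  · exact hx x50_ok r (by omega) (by omega)
  · exact hx x75_ok r (by omega) (by omega)
  · exact hx x100_ok r (by omega) (by omega)
  · exact hx x125_ok r (by omega) (by omega)
  · exact hx x150_ok r (by omega) (by omega)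
  · exact hx x175_ok r (by omega) (by omega)
  · exact hx x200_ok r (by omega) (by omega)
  · exact hx x225_ok r (by omega) (by omega)
  · exact hx x250_ok r (by omega) (by omega)
  · exact hx x275_ok r (by omega) (by omega)
  · exact hx x300_ok r (by omega) (by omega)
  · exact hx x325_ok r (by omega) (by omega)
  · exact hx x350_ok r (by omega) (by omega)
  · exact hx x375_ok r (by omega) (by omega)

theorem dV_cover : ∀ r < 395, r ∈ (dV0 ++ dV1 ++ dV2).map Prod.fst :=
  pkM_mem (by decide +kernel)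

theorem dV_loc : ∀ x ∈ reps dX, Loc (wall dE) (Vx (wall dE) (vec 21 dR) (reps dX)) x := by
  rintro _ ⟨r, hr, rfl⟩
  obtain ⟨v, hv, rfl⟩ := List.mem_map.1 (dV_cover r hr)
  have h0 := dV0_ok
  have h1 := dV1_ok
  have h2 := dV2_ok
  rw [fLL_eq, List.all_eq_true] at h0 h1 h2
  refine vOK_sound dP_sym dX_ok hr ?_
  rcases List.mem_append.1 hv with h | h
  · rcases List.mem_append.1 h with h | h
    · exact h0 v h
    · exact h1 v h
  · exact h2 v h

theorem cone21 : ∃ Λ : ℝ, ∀ z : Fin (21 + 1) → ℝ, (∀ j, ∃ k : ℤ, z j = k) → lor z z < 0 →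
    0 < z 0 → z ∈ Cn (wall dE) → -lor z (vec 21 dR) ≤ Λ * -lor z z := by
  refine cone_main (wall_finite dE) ((Set.finite_Iio 395).image _) ⟨_, 0, by simp, rfl⟩
    (fun z h => basis_sep z fun k _ => h k) ?_ dV_loc ?_ ?_ ?_ ?_ ?_
  · rintro _ ⟨r, hr, rfl⟩
    exact (dX_ok r hr).pos
  · rw [lor_vec (Or.inl (by decide))]
    have : lz dR dR < 0 := by decide +kernel
    exact_mod_cast this
  · simp [vec, dR]
  · rintro _ ⟨r, hr, rfl⟩
    exact (dX_ok r hr).norm
  · rintro _ ⟨r, hr, rfl⟩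
    exact (dX_ok r hr).int
  · intro y h j
    obtain ⟨k, hk⟩ := basis_mem (Int.castAddHom ℝ).range y (fun k _ => by
      obtain ⟨a, ha⟩ := h k
      exact ⟨a, ha.symm⟩) j
    exact ⟨k, hk.symm⟩

theorem exists_refl {n : ℕ} (h2 : 2 ≤ n) (hn : n ≤ 19 ∨ n = 21) :
    ∃ (A : Matrix (Fin (n + 1)) (Fin (n + 1)) ℚ) (P : GL (Fin (n + 1)) ℝ)
      (S : Set (GL (Fin (n + 1)) ℝ)), A.IsSymm ∧
      P.valᵀ * A.map (Rat.castHom ℝ) * P.val = lorMat n ∧ (∀ g ∈ S, IsRefl g) ∧
      Subgroup.Commensurable (Subgroup.closure S) (isomH n ⊓ stabL (latP P)) := by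
  obtain ⟨A, P, hA, hP, hL⟩ := exists_P n
  obtain ⟨Λ, hΛ⟩ := cone21
  have h := proj_ok
  rw [fLL_eq, List.all_eq_true] at h
  refine ⟨A, P, _, hA, hP, fun g hg => hg.1, proj_sound dE_shp hΛ (by omega) (h n ?_) hL⟩
  rw [List.mem_cons, List.mem_range'_1]
  omega

end Pool.Agent.Work.MP_c8d35c_al
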