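import Pool.Agent.Work.MP_c8d35c_al.QFrame
import Mathlib

-- merged part: Pool.Agent.Work.MP_c8d35c_al.QIso
section
-- merged part: Pool.Agent.Work.MP_c8d35c_al.QIso
section
/-! Isometries, orthogonal sums and presentations.

Plan. Everything is transport of structure. `Iso.mem_D`-type facts: an isometry `e` maps `D`
onto `D`. `a_prod`: `tor c` of the sum is the product of the `tor c` (`mem_prod_D`), and the
index of a product is the product of the indices. `Pres.perm`: a permutation of lists gives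
`e : Fin l.length ≃ Fin l'.length` with `l'.get (e i) = l.get i` (induction on `List.Perm`), then
reindex (`PresG.reindex`). `Pres.prod`: generators ` (y, 0)` and ` (0, y')`, index set
`Fin (l ++ l').length`, split with `finSumFinEquiv` or by induction. -/

namespace Pool.Agent.Work.MP_c8d35c_al

open Module

namespace QL

variable {L L' L'' M M' : QL}

theorem Iso.refl (L : QL) : L.Iso L := by
  exact ⟨LinearEquiv.refl ℚ _, fun _ _ => rfl, fun _ => Iff.rfl⟩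

theorem Iso.symm (h : L.Iso L') : L'.Iso L := by
  obtain ⟨e, h1, h2⟩ := h
  exact ⟨e.symm, fun x y => by rw [← h1, e.apply_symm_apply, e.apply_symm_apply],
    fun x => by rw [← h2, e.apply_symm_apply]⟩

theorem Iso.trans (h : L.Iso L') (h' : L'.Iso L'') : L.Iso L'' := by
  obtain ⟨e, h1, h2⟩ := h
  obtain ⟨e', h1', h2'⟩ := h'
  exact ⟨e.trans e', fun x y => (h1' _ _).trans (h1 x y), fun x => (h2' _).trans (h2 x)⟩

theorem Iso.prod (h : L.Iso L') (h' : M.Iso M') : (L.prod M).Iso (L'.prod M') := by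
  obtain ⟨e, h1, h2⟩ := h
  obtain ⟨e', h1', h2'⟩ := h'
  exact ⟨e.prodCongr e', fun x y => congrArg₂ (· + ·) (h1 x.1 y.1) (h1' x.2 y.2),
    fun x => and_congr (h2 x.1) (h2' x.2)⟩

theorem iso_comm (L M : QL) : (L.prod M).Iso (M.prod L) := by
  exact ⟨LinearEquiv.prodComm ℚ L.W M.W, fun x y => add_comm (M.β x.2 y.2) (L.β x.1 y.1),
    fun x => and_comm⟩

theorem iso_assoc (L M M' : QL) : ((L.prod M).prod M').Iso (L.prod (M.prod M')) := by
  exact ⟨LinearEquiv.prodAssoc ℚ L.W M.W M'.W,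
    fun x y => (add_assoc (L.β x.1.1 y.1.1) (M.β x.1.2 y.1.2) (M'.β x.2 y.2)).symm,
    fun x => and_assoc.symm⟩

theorem iso_zero (L : QL) : (zero.prod L).Iso L := by
  exact ⟨LinearEquiv.uniqueProd (R := ℚ) (M := L.W) (M₂ := Fin 0 → ℚ),
    fun x y => (zero_add (L.β x.2 y.2)).symm, fun x => ⟨fun h => ⟨fun i => i.elim0, h⟩, fun h => h.2⟩⟩

theorem iso_addU (k : ℕ) (M : QL) : ((addU k zero).prod M).Iso (addU k M) := by
  induction k with
  | zero => exact iso_zero M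
  | succ k ih => exact (iso_assoc _ _ _).trans ((Iso.refl U).prod ih)

theorem iso_addU' (k : ℕ) (M : QL) : ((U.prod M).prod (addU k zero)).Iso (addU (k + 1) M) := by
  exact (iso_assoc _ _ _).trans ((Iso.refl U).prod ((iso_comm _ _).trans (iso_addU k M)))

/-- An isometry maps the dual lattice onto the dual lattice. -/
theorem mem_D_iff (e : L.W ≃ₗ[ℚ] L'.W) (h1 : ∀ x y, L'.β (e x) (e y) = L.β x y)
    (h2 : ∀ x, e x ∈ L'.X ↔ x ∈ L.X) (x : L.W) : e x ∈ L'.D ↔ x ∈ L.D := by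
  constructor
  · intro h y hy
    rw [← h1]
    exact h _ ((h2 y).2 hy)
  · intro h y hy
    obtain ⟨y, rfl⟩ := e.surjective y
    rw [h1]
    exact h _ ((h2 y).1 hy)

theorem Iso.N (h : L.Iso L') : L.N = L'.N := by
  obtain ⟨e, -, -⟩ := h
  exact e.finrank_eq

theorem Iso.a (h : L.Iso L') (c : ℕ) : L.a c = L'.a c := by
  obtain ⟨e, h1, h2⟩ := h
  have e1 : L.X = L'.X.comap e.toLinearMap.toAddMonoidHom := AddSubgroup.ext fun x => (h2 x).symm
  have e2 : (L.tor c).map e.toLinearMap.toAddMonoidHom = L'.tor c := by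
    have key : ∀ x, e x ∈ L'.tor c ↔ x ∈ L.tor c := fun x => by
      rw [mem_tor, mem_tor, mem_D_iff e h1 h2, ← map_nsmul, h2]
    ext y
    obtain ⟨y, rfl⟩ := e.surjective y
    rw [key]
    exact AddSubgroup.mem_map_iff_mem e.injective
  rw [QL.a, QL.a, ← e2, ← AddSubgroup.relIndex_comap, ← e1]

theorem Iso.cuspFull (h : L.Iso L') (hc : L.CuspFull) : L'.CuspFull := by
  obtain ⟨e, h1, h2⟩ := h
  intro z u hz hzz huz hr
  obtain ⟨z, rfl⟩ := e.surjective z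
  obtain ⟨u, rfl⟩ := e.surjective u
  rw [h1] at hzz huz
  obtain ⟨c, hc⟩ := hc z u (fun h => hz (by rw [h, map_zero])) hzz huz fun y t hy hyz => by
    rw [← h1] at hyz ⊢
    exact hr _ t ⟨(mem_D_iff e h1 h2 y).2 hy.1, by rw [← map_nsmul, h2]; exact hy.2.1,
      by rw [h1]; exact hy.2.2⟩ hyz
  exact ⟨c, by rw [hc, map_smul]⟩

theorem Iso.pres (h : L.Iso L') {l : List Blk} (hp : L.Pres l) : L'.Pres l := by
  obtain ⟨e, h1, h2⟩ := h
  obtain ⟨y, hy, hg, hC⟩ := hp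
  refine ⟨fun i => e (y i), fun i => (mem_D_iff e h1 h2 _).2 (hy i), fun z hz => ?_,
    fun i j => by rw [h1]; exact hC i j⟩
  obtain ⟨z, rfl⟩ := e.surjective z
  obtain ⟨c, hc⟩ := hg z ((mem_D_iff e h1 h2 _).1 hz)
  refine ⟨c, ?_⟩
  rw [← h2, map_sub, map_sum] at hc
  simpa only [map_zsmul] using hc

theorem mem_prod_D {x : L.W × M.W} : x ∈ (L.prod M).D ↔ x.1 ∈ L.D ∧ x.2 ∈ M.D := by
  constructor
  · intro h
    refine ⟨fun y hy => ?_, fun y hy => ?_⟩
    · obtain ⟨z, hz⟩ := h (y, 0) ⟨hy, zero_mem _⟩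
      exact ⟨z, by simpa [prod_β] using hz⟩
    · obtain ⟨z, hz⟩ := h (0, y) ⟨zero_mem _, hy⟩
      exact ⟨z, by simpa [prod_β] using hz⟩
  · rintro ⟨h1, h2⟩ y hy
    obtain ⟨z, hz⟩ := h1 y.1 hy.1
    obtain ⟨w, hw⟩ := h2 y.2 hy.2
    exact ⟨z + w, (prod_β L M y x).trans (by rw [hz, hw, Int.cast_add])⟩

theorem U_D : U.D = U.X := by
  refine le_antisymm (fun x hx => mem_U_X.2 ⟨?_, ?_⟩) U.X_le_D
  · obtain ⟨z, hz⟩ := hx ((0, 1) : ℚ × ℚ) (mem_U_X.2 ⟨⟨0, by simp⟩, 1, by simp⟩)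
    exact ⟨z, by simpa using (U_β (0, 1) x).symm.trans hz⟩
  · obtain ⟨z, hz⟩ := hx ((1, 0) : ℚ × ℚ) (mem_U_X.2 ⟨⟨1, by simp⟩, 0, by simp⟩)
    exact ⟨z, by simpa using (U_β (1, 0) x).symm.trans hz⟩

theorem N_prod (L M : QL) : (L.prod M).N = L.N + M.N := by
  exact Module.finrank_prod

theorem N_U : U.N = 2 := by
  change finrank ℚ (ℚ × ℚ) = 2
  simp

theorem QIso_relIndex {G H : Type} [AddCommGroup G] [AddCommGroup H] (A C : AddSubgroup G)
    (B D : AddSubgroup H) : (A.prod B).relIndex (C.prod D) = A.relIndex C * B.relIndex D := by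
  have e : (A.prod B).addSubgroupOf (C.prod D) = ((A.addSubgroupOf C).prod
      (B.addSubgroupOf D)).comap (AddSubgroup.prodEquiv C D).toAddMonoidHom :=
    AddSubgroup.ext fun _ => Iff.rfl
  rw [AddSubgroup.relIndex, e,
    AddSubgroup.index_comap_of_surjective _ (AddSubgroup.prodEquiv C D).surjective,
    AddSubgroup.index_prod]
  rfl

theorem a_prod (L M : QL) (c : ℕ) : (L.prod M).a c = L.a c * M.a c := by
  have e : (L.prod M).tor c = (L.tor c).prod (M.tor c) := AddSubgroup.ext fun x =>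
    (and_congr mem_prod_D (mem_prod_X (x := c • x))).trans and_and_and_comm
  rw [QL.a, e]
  exact QIso_relIndex L.X (L.tor c) M.X (M.tor c)

theorem a_neg (L : QL) (c : ℕ) : L.neg.a c = L.a c := by
  have e : L.neg.tor c = L.tor c := AddSubgroup.ext fun x => and_congr
    (forall₂_congr fun y _ => ⟨fun ⟨z, hz⟩ => ⟨-z, by rw [Int.cast_neg, ← hz]; exact (neg_neg _).symm⟩,
      fun ⟨z, hz⟩ => ⟨-z, by rw [Int.cast_neg, ← hz]; rfl⟩⟩) Iff.rfl
  rw [QL.a, e]
  rfl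

theorem a_U (c : ℕ) : U.a c = 1 := by
  exact AddSubgroup.relIndex_eq_one.2 ((U.tor_le_D c).trans U_D.le)

theorem a_zero (c : ℕ) : zero.a c = 1 := by
  exact AddSubgroup.relIndex_eq_one.2 fun _ _ i => i.elim0

theorem iso_zero_of_N (h : L.N = 0) : L.Iso zero := by
  have : Subsingleton L.W := Module.finrank_zero_iff.1 h
  have : Subsingleton zero.W := inferInstanceAs (Subsingleton (Fin 0 → ℚ))
  refine ⟨LinearEquiv.ofSubsingleton _ _, fun x y => ?_, fun x => ?_⟩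
  · rw [Subsingleton.elim x 0]
    simp
  · rw [Subsingleton.elim x 0]
    simp

theorem PresG.reindex {D' : AddSubgroup L.W} {ι κ : Type} [Fintype ι] [Fintype κ]
    {C : ι → ι → ℚ} {C' : κ → κ → ℚ} (h : L.PresG D' C) (e : ι ≃ κ)
    (he : ∀ i j, C' (e i) (e j) = C i j) : L.PresG D' C' := by
  obtain ⟨y, hy, hg, hC⟩ := h
  refine ⟨fun k => y (e.symm k), fun k => hy _, fun z hz => ?_, fun i j => ?_⟩
  · obtain ⟨c, hc⟩ := hg z hz
    refine ⟨fun k => c (e.symm k), ?_⟩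
    rwa [Equiv.sum_comp e.symm fun i => c i • y i]
  · obtain ⟨n, h1, h2⟩ := hC (e.symm i) (e.symm j)
    rw [← he, e.apply_symm_apply, e.apply_symm_apply] at h1
    exact ⟨n, h1, fun h => h2 (by rw [h])⟩

theorem Pres.perm {l l' : List Blk} (h : L.Pres l) (hp : l.Perm l') : L.Pres l' := by
  let e : Fin l.length ≃ Fin l'.length :=
    Equiv.ofBijective hp.idxBij ⟨hp.idxBij_injective, hp.idxBij_surjective⟩
  have he : ∀ i, l'.get (e i) = l.get i := fun i => hp.getElem_idxBij_eq_getElem i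
  refine PresG.reindex h (e.prodCongr (Equiv.refl _)) fun i j => ?_
  simp only [blkC, Equiv.prodCongr_apply, Prod.map_fst, Prod.map_snd, Equiv.coe_refl, id, he,
    e.apply_eq_iff_eq]

theorem QIso_prod {ι κ : Type} [Fintype ι] [Fintype κ] {C : ι → ι → ℚ} {C' : κ → κ → ℚ}
    (h : L.PresG L.D C) (h' : M.PresG M.D C') : (L.prod M).PresG (L.prod M).D
      (Sum.elim (fun i => Sum.elim (C i) fun _ => 0) fun i => Sum.elim (fun _ => 0) (C' i)) := by
  obtain ⟨y, hy, hg, hC⟩ := h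
  obtain ⟨y', hy', hg', hC'⟩ := h'
  refine ⟨Sum.elim (fun i => ((y i, 0) : L.W × M.W)) fun i => ((0, y' i) : L.W × M.W), ?_,
    fun z hz => ?_, ?_⟩
  · rintro (i | i)
    · exact mem_prod_D.2 ⟨hy i, zero_mem _⟩
    · exact mem_prod_D.2 ⟨zero_mem _, hy' i⟩
  · obtain ⟨c, hc⟩ := hg _ (mem_prod_D.1 hz).1
    obtain ⟨c', hc'⟩ := hg' _ (mem_prod_D.1 hz).2
    refine ⟨Sum.elim c c', ?_⟩
    have e : (∑ i, Sum.elim c c' i • Sum.elim (fun i => ((y i, 0) : L.W × M.W))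
        (fun i => ((0, y' i) : L.W × M.W)) i) = (∑ i, c i • y i, ∑ i, c' i • y' i) := by
      ext <;> simp [Fintype.sum_sum_type, Prod.fst_sum, Prod.snd_sum]
    exact (congrArg (fun w : L.W × M.W => (show L.W × M.W from z) - w ∈ L.X.prod M.X) e).mpr
      ⟨hc, hc'⟩
  · rintro (i | i) (j | j)
    · obtain ⟨n, h1, h2⟩ := hC i j
      exact ⟨n, (prod_β L M (y i, 0) (y j, 0)).trans (by simpa using h1),
        fun h => h2 (Sum.inl.inj h)⟩
    · exact ⟨0, (prod_β L M (y i, 0) (0, y' j)).trans (by simp), fun _ => Even.zero⟩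
    · exact ⟨0, (prod_β L M (0, y' i) (y j, 0)).trans (by simp), fun _ => Even.zero⟩
    · obtain ⟨n, h1, h2⟩ := hC' i j
      exact ⟨n, (prod_β L M (0, y' i) (0, y' j)).trans (by simpa using h1),
        fun h => h2 (Sum.inr.inj h)⟩

theorem Pres.prod {l l' : List Blk} (h : L.Pres l) (h' : M.Pres l') :
    (L.prod M).Pres (l ++ l') := by
  let e : Fin l.length ⊕ Fin l'.length ≃ Fin (l ++ l').length :=
    finSumFinEquiv.trans (finCongr List.length_append.symm)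
  have e1 : ∀ i, (l ++ l').get (e (Sum.inl i)) = l.get i := fun i => by simp [e]
  have e2 : ∀ i, (l ++ l').get (e (Sum.inr i)) = l'.get i := fun i => by simp [e]
  refine PresG.reindex (QIso_prod h h')
    ((Equiv.sumProdDistrib _ _ _).symm.trans (e.prodCongr (Equiv.refl _))) ?_
  rintro (⟨i, a⟩ | ⟨i, a⟩) (⟨j, b⟩ | ⟨j, b⟩) <;>
    simp only [blkC, Equiv.trans_apply, Equiv.sumProdDistrib_symm_apply_left,
      Equiv.sumProdDistrib_symm_apply_right, Equiv.prodCongr_apply, Prod.map_fst, Prod.map_snd,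
      Equiv.coe_refl, id, e1, e2, e.apply_eq_iff_eq, Sum.inl.injEq, Sum.inr.injEq, Sum.elim_inl,
      Sum.elim_inr, reduceCtorEq, if_false]

theorem pres_nil_iff : L.Pres [] ↔ L.a 0 = 1 := by
  rw [a_zero_eq_one_iff]
  constructor
  · rintro ⟨y, -, hg, -⟩ z hz
    obtain ⟨c, hc⟩ := hg z hz
    simpa using hc
  · intro h
    exact ⟨fun i => i.1.elim0, fun i => i.1.elim0, fun z hz => ⟨0, by simpa using h hz⟩,
      fun i => i.1.elim0⟩

/-- A lattice whose roots do not span gives a bad cusp: take `z = ((1, 0), 0)` and ` (0, u)`; a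
root ` ((a, 0), y)` of type `t` of the sum gives the root `y` of type `t`. -/
theorem CuspFull.not_defic (h : (U.prod M).CuspFull) : ¬M.Defic := by
  rintro ⟨u, hu, hr⟩
  obtain ⟨c, hc⟩ := h ((((1, 0) : ℚ × ℚ), 0) : U.W × M.W) ((0, u) : U.W × M.W)
    (fun h => one_ne_zero (congrArg (fun x : (ℚ × ℚ) × M.W => x.1.1) h))
    (by simp [prod_β, U_β]) (by rw [prod_β, map_zero U.β, map_zero (M.β u), add_zero]; rfl)
    fun y t hy hyz => by
      obtain ⟨⟨a, b⟩, y⟩ := y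
      have hb : b = 0 := by simpa [prod_β, U_β] using hyz
      have h3 := hy.2.2
      rw [prod_β, U_β, hb] at h3
      rw [prod_β, map_zero, zero_add]
      exact hr y t ⟨(mem_prod_D.1 hy.1).2, hy.2.1.2, by simpa using h3⟩
  exact hu ((congrArg Prod.snd hc).trans (smul_zero c))

end QL

end Pool.Agent.Work.MP_c8d35c_al
end

-- merged part: Pool.Agent.Work.MP_c8d35c_al.QNum0
section
/-! The local factors, and the invariants of a list of blocks.

Plan. `gp_le_one`: `p^(-1/2) ≤ 3^(-1/2) < 0.6` and ` (m - b) / 2 ≥ 4`. `g2_le_one`: the same with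
`2^(-1/2) < 0.71`, `m - b ≥ 7`. `list_data`: induction on the list, or
`P = ((l.map Blk.od).toFinset).erase 1`, `b p = (l.map Blk.od).count p`. -/

namespace Pool.Agent.Work.MP_c8d35c_al

/-- The local factor at an odd prime. -/
noncomputable def gp (m p b : ℕ) : ℝ :=
  (p : ℝ) ^ (-((b : ℝ) / 2)) + (p : ℝ) ^ (-(((m : ℝ) - b) / 2))

/-- The local factor at two. -/
noncomputable def g2 (m b f : ℕ) : ℝ :=
  if b = 0 then 1 else (2 : ℝ) ^ (-(((b : ℝ) + f) / 2)) + (2 : ℝ) ^ (-(((m : ℝ) - b + f) / 2)) +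
    f * (2 : ℝ) ^ (-((2 * (m : ℝ) - b - f) / 2))

/-- The order of the `c`-torsion. -/
def torf (P : Finset ℕ) (b : ℕ → ℕ) (b2 f c : ℕ) : ℕ :=
  2 ^ ((if 2 ∣ c then b2 else 0) + if 4 ∣ c then f else 0) *
    ∏ p ∈ P, p ^ if p ∣ c then b p else 0

/-- The exponent. -/
def exf (P : Finset ℕ) (b2 f : ℕ) : ℕ :=
  2 ^ (if b2 = 0 then 0 else if f = 0 then 1 else 2) * ∏ p ∈ P, p

/-- The constraints on the ranks. -/
structure Rks (m : ℕ) (P : Finset ℕ) (b : ℕ → ℕ) (b2 f : ℕ) : Prop where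
  prime : ∀ p ∈ P, p.Prime ∧ p ≠ 2
  pos : ∀ p ∈ P, 1 ≤ b p
  le : ∀ p ∈ P, 2 * b p ≤ m + 2
  f1 : f ≤ 1
  fb : f ≤ b2
  le2 : 2 * b2 ≤ m + 4

/-- The largest odd part of the determinant for the rank `m` and `i = 2 b + f`. -/
def omax (m i : ℕ) : ℕ :=
  (([[84, 0, 42, 21, 21, 10, 10, 5, 5, 2, 2, 1, 1], [], [28, 0, 14, 7, 7, 3, 3, 1, 1],
    [15, 0, 7, 3, 3, 1, 1], [8, 0, 4, 2, 2, 1, 1], [4, 0, 2, 1, 1], [1]] :
      List (List ℕ)).getD (m - 19) []).getD i 0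

/-- The shapes that survive the analytic inequality. -/
def okShape (m : ℕ) (l : List Blk) : Prop := r4s l ≤ 1 ∧ ods l ≤ omax m (2 * r2s l + r4s l)

theorem QNum0_le {x e y : ℝ} {n : ℕ} (hx : 1 ≤ x) (hn : n ≠ 0) (hy : 0 ≤ y) (he : 1 ≤ n * e)
    (h : x⁻¹ ≤ y ^ n) : x ^ (-e) ≤ y := by
  have hx0 : 0 ≤ x := by linarith only [hx]
  refine (pow_le_pow_iff_left₀ (Real.rpow_nonneg hx0 _) hy hn).1 (le_trans ?_ h)
  rw [← Real.rpow_natCast, ← Real.rpow_mul hx0, ← Real.rpow_neg_one]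
  exact Real.rpow_le_rpow_of_exponent_le hx (by linarith)

theorem QNum0_tor {B : Blk} (hB : B.Valid) (c : ℕ) :
    B.tor c = 2 ^ ((if 2 ∣ c then B.r2 else 0) + if 4 ∣ c then B.r4 else 0) *
      if B.od ∣ c then B.od else 1 := by
  have h2 : Nat.gcd c 2 = if 2 ∣ c then 2 else 1 := by
    split_ifs with h
    · exact Nat.gcd_eq_right h
    · exact ((Nat.Prime.coprime_iff_not_dvd Nat.prime_two).2 h).symm
  cases B with
  | odd p a =>
    simp only [Blk.tor, Blk.r2, Blk.r4, Blk.od, ite_self, add_zero, pow_zero, one_mul]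
    by_cases h : p ∣ c
    · exact (Nat.gcd_eq_right h).trans (if_pos h).symm
    · exact Eq.trans ((Nat.Prime.coprime_iff_not_dvd hB.1).2 h).symm (if_neg h).symm
  | four k =>
    simp only [Blk.tor, Blk.r2, Blk.r4, Blk.od]
    rw [Nat.gcd_comm, Nat.gcd_rec]
    have h4 : c % 4 < 4 := Nat.mod_lt _ (by norm_num)
    have h5 : 2 ∣ c ↔ c % 4 = 0 ∨ c % 4 = 2 := by omega
    have h6 : 4 ∣ c ↔ c % 4 = 0 := by omega
    simp only [h5, h6]
    generalize c % 4 = r at h4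
    interval_cases r <;> simp
  | _ =>
    simp only [Blk.tor, Blk.r2, Blk.r4, Blk.od, ite_self, add_zero, h2]
    split_ifs <;> simp

theorem QNum0_tors {l : List Blk} (hv : ∀ B ∈ l, B.Valid) (c : ℕ) :
    tors l c = 2 ^ ((if 2 ∣ c then r2s l else 0) + if 4 ∣ c then r4s l else 0) *
      ((l.map Blk.od).map fun p => if p ∣ c then p else 1).prod := by
  induction l with
  | nil => simp [tors, r2s, r4s]
  | cons B l ih =>
    have h := ih fun B' h => hv B' (List.mem_cons_of_mem _ h)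
    simp only [tors, r2s, r4s, List.map_cons, List.prod_cons, List.sum_cons] at h ⊢
    rw [h, QNum0_tor (hv B List.mem_cons_self)]
    split_ifs <;> ring

theorem gp_pos {m p b : ℕ} (hp : p ≠ 0) : 0 < gp m p b := by
  have : (0 : ℝ) < p := Nat.cast_pos.2 (Nat.pos_of_ne_zero hp)
  unfold gp
  positivity

theorem g2_pos (m b f : ℕ) : 0 < g2 m b f := by
  unfold g2
  split_ifs
  · exact one_pos
  · positivity

theorem gp_le_one {m p b : ℕ} (hm : 19 ≤ m) (hp : 3 ≤ p) (hb : 1 ≤ b) (h : 2 * b ≤ m + 2) :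
    gp m p b ≤ 1 := by
  have hp' : (3 : ℝ) ≤ p := by exact_mod_cast hp
  have hb' : (1 : ℝ) ≤ b := by exact_mod_cast hb
  have hm' : (19 : ℝ) ≤ m := by exact_mod_cast hm
  have h' : 2 * (b : ℝ) ≤ m + 2 := by exact_mod_cast h
  have h1 : (p : ℝ) ^ (-((b : ℝ) / 2)) ≤ 3 / 5 :=
    QNum0_le (n := 2) (by linarith only [hp']) (by norm_num) (by norm_num) (by push_cast; linarith only [hb']) (by
      rw [inv_le_comm₀ (by linarith only [hp']) (by norm_num)]
      linarith only [hp'])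
  have h2 : (p : ℝ) ^ (-(((m : ℝ) - b) / 2)) ≤ 2 / 5 :=
    QNum0_le (n := 1) (by linarith only [hp']) (by norm_num) (by norm_num) (by push_cast; linarith only [hm', h']) (by
      rw [inv_le_comm₀ (by linarith only [hp']) (by norm_num)]
      linarith only [hp'])
  unfold gp
  linarith only [h1, h2]

theorem g2_le_one {m b f : ℕ} (hm : 19 ≤ m) (hf : f ≤ 1) (h : 2 * b ≤ m + 4) :
    g2 m b f ≤ 1 := by
  unfold g2
  split_ifs with hb
  · exact le_rfl
  have hb' : (1 : ℝ) ≤ b := by exact_mod_cast Nat.pos_of_ne_zero hb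
  have hm' : (19 : ℝ) ≤ m := by exact_mod_cast hm
  have h' : 2 * (b : ℝ) ≤ m + 4 := by exact_mod_cast h
  have hf' : (f : ℝ) ≤ 1 := by exact_mod_cast hf
  have hf0 : (0 : ℝ) ≤ f := Nat.cast_nonneg f
  have h1 : (2 : ℝ) ^ (-(((b : ℝ) + f) / 2)) ≤ 3 / 4 :=
    QNum0_le (n := 2) (by norm_num) (by norm_num) (by norm_num) (by push_cast; linarith)
      (by norm_num)
  have h3 : ∀ x : ℝ, 3 ≤ x → (2 : ℝ) ^ (-x) ≤ 1 / 8 := fun x hx =>
    (Real.rpow_le_rpow_of_exponent_le (by norm_num) (neg_le_neg hx)).trans (by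
      rw [Real.rpow_neg (by norm_num), show (3 : ℝ) = (3 : ℕ) by norm_num, Real.rpow_natCast]
      norm_num)
  have h4 := h3 (((m : ℝ) - b + f) / 2) (by linarith)
  have h5 := h3 ((2 * (m : ℝ) - b - f) / 2) (by linarith only [hm', h', hf'])
  have h6 : (0 : ℝ) ≤ (2 : ℝ) ^ (-((2 * (m : ℝ) - b - f) / 2)) := by positivity
  linarith only [hf', h1, h4, h5, mul_nonneg_of_nonpos_of_nonpos (Mathlib.Tactic.Linarith.sub_nonpos_of_le (Mathlib.Tactic.Linarith.natCast_nonneg ℝ f)) (Mathlib.Tactic.Linarith.sub_nonpos_of_le h5)]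

theorem list_data {l : List Blk} (hv : ∀ B ∈ l, B.Valid) : ∃ (P : Finset ℕ) (b : ℕ → ℕ),
    (∀ p ∈ P, p.Prime ∧ p ≠ 2) ∧ (∀ p ∈ P, 1 ≤ b p) ∧ r4s l ≤ r2s l ∧
      (∀ c, tors l c = torf P b (r2s l) (r4s l) c) ∧ ods l = ∏ p ∈ P, p ^ b p := by
  refine ⟨(l.map Blk.od).toFinset.erase 1, fun p => (l.map Blk.od).count p, fun p hp => ?_,
    fun p hp => ?_, ?_, fun c => ?_, ?_⟩
  · obtain ⟨h1, h2⟩ := Finset.mem_erase.1 hp
    obtain ⟨B, hB, rfl⟩ := List.mem_map.1 (List.mem_toFinset.1 h2)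
    have := hv B hB
    cases B with
    | odd p a => exact ⟨this.1, this.2.1⟩
    | _ => exact absurd rfl h1
  · exact List.count_pos_iff.2 (List.mem_toFinset.1 (Finset.mem_erase.1 hp).2)
  · refine List.sum_le_sum fun B _ => ?_
    cases B <;> simp [Blk.r2, Blk.r4]
  · rw [QNum0_tors hv, torf, Finset.prod_list_map_count, ← Finset.prod_erase (a := 1) _ (by simp)]
    congr 1
    refine Finset.prod_congr rfl fun p _ => ?_
    split_ifs <;> simp
  · rw [ods, Finset.prod_list_count]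
    exact (Finset.prod_erase (f := fun p => p ^ (l.map Blk.od).count p) _ (one_pow _)).symm

theorem torf_exf {P : Finset ℕ} {b : ℕ → ℕ} {b2 f : ℕ} (hf : f ≤ b2) :
    torf P b b2 f (exf P b2 f) = torf P b b2 f 0 := by
  unfold torf
  congr 1
  · simp only [dvd_zero, if_true]
    by_cases hb : b2 = 0
    · obtain rfl : f = 0 := by omega
      simp [hb]
    · by_cases h0 : f = 0
      · rw [if_pos (by rw [exf, if_neg hb, if_pos h0]; exact Dvd.intro _ rfl), h0]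
        simp
      · have h4 : 4 ∣ exf P b2 f := by
          rw [exf, if_neg hb, if_neg h0]
          exact Dvd.intro _ rfl
        rw [if_pos h4, if_pos (Dvd.dvd.trans (by norm_num) h4)]
  · refine Finset.prod_congr rfl fun p hp => ?_
    rw [if_pos (dvd_zero p), if_pos]
    exact (Finset.dvd_prod_of_mem (fun p => p) hp).mul_left _

theorem exf_ne_zero {P : Finset ℕ} (hP : ∀ p ∈ P, p.Prime ∧ p ≠ 2) (b2 f : ℕ) :
    exf P b2 f ≠ 0 := by
  exact mul_ne_zero (pow_ne_zero _ two_ne_zero)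
    (Finset.prod_ne_zero_iff.2 fun p hp => (hP p hp).1.ne_zero)

theorem rks_of {m : ℕ} {P : Finset ℕ} {b : ℕ → ℕ} {b2 f : ℕ} (hP : ∀ p ∈ P, p.Prime ∧ p ≠ 2)
    (hb : ∀ p ∈ P, 1 ≤ b p) (hf : f ≤ b2)
    (h1 : ∀ p : ℕ, p.Prime → p ≠ 2 → torf P b b2 f p ^ 2 ≤ p ^ (m + 2))
    (h4 : torf P b b2 f 4 ≤ 2 * torf P b b2 f 2) (h2 : torf P b b2 f 2 ^ 2 ≤ 2 ^ (m + 2 + 2)) :
    Rks m P b b2 f := by
  have k4 : ∀ c, c ∣ 4 → ∏ p ∈ P, p ^ (if p ∣ c then b p else 0) = 1 := fun c hc =>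
    Finset.prod_eq_one fun p hp => by
      rw [if_neg, pow_zero]
      intro h
      have h5 : p ∣ 2 ^ 2 := h.trans hc
      exact (hP p hp).2 ((Nat.prime_dvd_prime_iff_eq (hP p hp).1 Nat.prime_two).1
        ((hP p hp).1.dvd_of_dvd_pow h5))
  have e4 : torf P b b2 f 4 = 2 ^ (b2 + f) := by
    rw [torf, k4 4 dvd_rfl, if_pos (by norm_num), if_pos dvd_rfl, mul_one]
  have e2 : torf P b b2 f 2 = 2 ^ b2 := by
    rw [torf, k4 2 (by norm_num), if_pos dvd_rfl, if_neg (by norm_num), mul_one, add_zero]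
  rw [e4, e2, ← pow_succ', Nat.pow_le_pow_iff_right (by norm_num)] at h4
  rw [e2, ← pow_mul, Nat.pow_le_pow_iff_right (by norm_num)] at h2
  refine ⟨hP, hb, fun p hp => ?_, by omega, hf, by omega⟩
  have h5 : p ^ b p ∣ torf P b b2 f p := by
    have := Finset.dvd_prod_of_mem (fun q => q ^ if q ∣ p then b q else 0) hp
    simp only [dvd_refl, if_true] at this
    exact this.mul_left _
  have h6 : torf P b b2 f p ≠ 0 := mul_ne_zero (pow_ne_zero _ two_ne_zero)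
    (Finset.prod_ne_zero_iff.2 fun q hq => pow_ne_zero _ (hP q hq).1.ne_zero)
  have h7 := (Nat.pow_le_pow_left (Nat.le_of_dvd (Nat.pos_of_ne_zero h6) h5) 2).trans
    (h1 p (hP p hp).1 (hP p hp).2)
  rw [← pow_mul, Nat.pow_le_pow_iff_right (hP p hp).1.one_lt] at h7
  omega

theorem tors_zero {l : List Blk} : tors l 0 = 2 ^ (r2s l + r4s l) * ods l := by
  induction l with
  | nil => simp [tors, r2s, r4s, ods]
  | cons B l ih =>
    have h : B.tor 0 = 2 ^ (B.r2 + B.r4) * B.od := by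
      cases B <;> simp [Blk.tor, Blk.r2, Blk.r4, Blk.od]
    simp only [tors, r2s, r4s, ods, List.map_cons, List.prod_cons, List.sum_cons] at ih ⊢
    rw [ih, h]
    ring

end Pool.Agent.Work.MP_c8d35c_al
end

-- merged part: Pool.Agent.Work.MP_c8d35c_al.QNum1
section
/-! The sum of the singular series over the types of roots.

Plan. `ratio_le`: `A0 = Ac * ι`. For a prime `q ∤ c` in `{2} ∪ P` the power `q^(e q)`, with
`e q = v_q (t^m torf 0) - 2 v_q (torf t)`, divides `A0` and is prime to `Ac`, so it divides `ι`;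
these powers are pairwise coprime, so their product divides `ι ≠ 0`. (Here `t ∣ exf` means
`v_p t ≤ 1` for `p ∈ P`, `v_2 t ≤ 2`, `4 ∣ t` only if `f = 1`, `2 ∣ t` only if `b2 ≠ 0`.)
`sum_wt`: the sum over the divisors of a product of coprime numbers factors (induction on `P`,
`Nat.Coprime.sum_divisors_mul` or `Nat.divisors_mul`, `Nat.divisors_prime_pow`).
`num_sum`: `qwt t 1` sums to `g2 * ∏ gp`; for `c ≥ 2` the sum is at most
`3^[2 ∣ c] * ∏_{p ∈ P, p ∣ c} 2 ≤ (3/2) c` (`gp_le_one`, `g2_le_one`, the product of the distinct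
primes dividing `c` divides `c`), and `∑_{c ≥ 2} c^(-15/2) ≤ 6/1000`:
`2^(-15/2) < 0.005525`, `3^(-15/2) < 0.000265`,
`∑_{c ≥ 4} c^(-15/2) ≤ 4^(-11/2) ∑_{c ≥ 4} 1 / (c (c - 1)) = 1 / (2048 * 3)`. -/

namespace Pool.Agent.Work.MP_c8d35c_al

/-- The bound for one type `t` and one denominator `c`. -/
noncomputable def qwt (m : ℕ) (P : Finset ℕ) (b : ℕ → ℕ) (b2 f t c : ℕ) : ℝ :=
  (if 2 ∣ c then 1 else if 4 ∣ t then (2 : ℝ) ^ (-((2 * (m : ℝ) - b2 - f) / 2))
    else if 2 ∣ t then (2 : ℝ) ^ (-(((m : ℝ) - b2 + f) / 2))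
    else (2 : ℝ) ^ (-(((b2 : ℝ) + f) / 2))) *
  ∏ p ∈ P, if p ∣ c then 1 else if p ∣ t then (p : ℝ) ^ (-(((m : ℝ) - b p) / 2))
    else (p : ℝ) ^ (-((b p : ℝ) / 2))

variable {m : ℕ} {P : Finset ℕ} {b : ℕ → ℕ} {b2 f : ℕ}

theorem QNum1_cop (h : Rks m P b b2 f) (k : ℕ) {g : ℕ → ℕ} (hg : ∀ p, g p = p ∨ g p = 1) :
    (2 ^ k).Coprime (∏ p ∈ P, g p) :=
  Nat.Coprime.pow_left _ (Nat.Coprime.prod_right fun p hp => by
    rcases hg p with e | e <;> rw [e]
    · exact (Nat.coprime_primes Nat.prime_two (h.prime p hp).1).2 (h.prime p hp).2.symm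
    · exact Nat.coprime_one_right _)

theorem QNum1_rad (h : Rks m P b b2 f) {k t : ℕ} (hk : 2 ^ k ∣ t) :
    2 ^ k * ∏ p ∈ P, (if p ∣ t then p else 1) ∣ t := by
  refine (QNum1_cop h k fun p => by split_ifs <;> simp).mul_dvd_of_dvd_of_dvd hk ?_
  rw [← Finset.prod_filter]
  exact Finset.prod_primes_dvd _ (fun p hp => (h.prime p (Finset.mem_filter.1 hp).1).1.prime)
    fun p hp => (Finset.mem_filter.1 hp).2

theorem QNum1_pow (x : ℝ) (hx : 0 ≤ x) (n : ℕ) :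
    (x ^ n) ^ (-(1 / 2) : ℝ) = x ^ (-((n : ℝ) / 2)) := by
  rw [← Real.rpow_natCast, ← Real.rpow_mul hx]
  congr 1
  ring

theorem ratio_le (hm : 19 ≤ m) (h : Rks m P b b2 f) {t c A0 Ac : ℕ} (ht : t ∣ exf P b2 f)
    (h0 : A0 ≠ 0) (h1 : t ^ m * torf P b b2 f 0 ∣ A0 * torf P b b2 f t ^ 2) (h2 : Ac ∣ A0)
    (h3 : Ac ∣ c ^ m) : √(Ac : ℝ) / √(A0 : ℝ) ≤ qwt m P b b2 f t c := by
  obtain ⟨ι, rfl⟩ := h2
  have hf := h.f1
  have hb := h.le2
  obtain ⟨W, hW⟩ : ∃ W : ℕ, W = 2 ^ (if 2 ∣ c then 0 else if 4 ∣ t then 2 * m - b2 - f else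
    if 2 ∣ t then m - b2 + f else b2 + f) *
    ∏ p ∈ P, p ^ if p ∣ c then 0 else if p ∣ t then m - b p else b p := ⟨_, rfl⟩
  have h4 : W * torf P b b2 f t ^ 2 ∣ t ^ m * torf P b b2 f 0 := by
    refine dvd_trans ?_ (mul_dvd_mul_right (pow_dvd_pow_of_dvd (QNum1_rad h
      (k := if 4 ∣ t then 2 else if 2 ∣ t then 1 else 0) (by split_ifs <;> simp [*])) m) _)
    simp only [hW, torf, mul_pow, ← Finset.prod_pow, ← pow_mul]
    rw [mul_mul_mul_comm, mul_mul_mul_comm (2 ^ (_ * m)), ← pow_add, ← pow_add,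
      ← Finset.prod_mul_distrib, ← Finset.prod_mul_distrib]
    refine mul_dvd_mul (pow_dvd_pow _ (by split_ifs <;> omega))
      (Finset.prod_dvd_prod_of_dvd _ _ fun p hp => ?_)
    have := h.le p hp
    rw [← pow_add, if_pos (dvd_zero p)]
    split_ifs <;> simp only [one_pow, one_mul, ← pow_add] <;> exact pow_dvd_pow _ (by omega)
  have h5 : W.Coprime c := by
    rw [hW]
    refine Nat.Coprime.mul_left ?_ (Nat.Coprime.prod_left fun p hp => ?_)
    · by_cases e : 2 ∣ c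
      · simp [e]
      · exact ((Nat.prime_two.coprime_iff_not_dvd).2 e).pow_left _
    · by_cases e : p ∣ c
      · simp [e]
      · exact (((h.prime p hp).1.coprime_iff_not_dvd).2 e).pow_left _
  have h6 : torf P b b2 f t ^ 2 ≠ 0 := pow_ne_zero _ (mul_ne_zero (by positivity)
    (Finset.prod_ne_zero_iff.2 fun p hp => pow_ne_zero _ (h.prime p hp).1.ne_zero))
  have h7 : W ∣ ι := ((h5.pow_right m).coprime_dvd_right h3).dvd_of_dvd_mul_left
    ((mul_dvd_mul_iff_right h6).1 (h4.trans h1))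
  have h8 := Nat.pos_of_ne_zero (right_ne_zero_of_mul h0)
  have h9 : (0 : ℝ) < √Ac := Real.sqrt_pos.2 (by exact_mod_cast Nat.pos_of_ne_zero (left_ne_zero_of_mul h0))
  rw [Nat.cast_mul, Real.sqrt_mul (Nat.cast_nonneg _), div_mul_cancel_left₀ h9.ne', Real.sqrt_eq_rpow,
    ← Real.rpow_neg (Nat.cast_nonneg _)]
  refine (Real.rpow_le_rpow_of_nonpos (Nat.cast_pos.2 (Nat.pos_of_dvd_of_pos h7 h8))
    (Nat.cast_le.2 (Nat.le_of_dvd h8 h7)) (by norm_num)).trans_eq ?_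
  rw [hW, qwt]
  push_cast
  rw [Real.mul_rpow (by positivity) (by positivity), ← Real.finsetProd_rpow _ _ fun _ _ => by positivity,
    QNum1_pow _ zero_le_two]
  refine congrArg₂ _ ?_ (Finset.prod_congr rfl fun p hp => ?_)
  · split_ifs
    · simp
    · rw [Nat.cast_sub (by omega), Nat.cast_sub (by omega), Nat.cast_mul, Nat.cast_ofNat]
    · rw [Nat.cast_add, Nat.cast_sub (by omega)]
    · rw [Nat.cast_add]
  · have := h.le p hp
    rw [QNum1_pow _ (Nat.cast_nonneg _)]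
    split_ifs
    · simp
    · rw [Nat.cast_sub (by omega)]
    · rfl

theorem QNum1_step {M p : ℕ} (hp : p.Prime) (h : ¬ p ∣ M) (F : ℕ → ℝ) :
    ∑ t ∈ (M * p).divisors, F t = ∑ t ∈ M.divisors, (F t + F (t * p)) := by
  have h0 : M ≠ 0 := fun e => h (e ▸ dvd_zero p)
  have : (M * p).divisors = M.divisors ∪ M.divisors.image (· * p) := by
    ext t
    simp only [Nat.mem_divisors, Finset.mem_union, Finset.mem_image, Nat.dvd_mul, Nat.dvd_prime hp]
    constructor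
    · rintro ⟨⟨a, c, h1, rfl | rfl, rfl⟩, -⟩
      · exact .inl ⟨by rwa [mul_one], h0⟩
      · exact .inr ⟨a, ⟨h1, h0⟩, rfl⟩
    · rintro (⟨h1, -⟩ | ⟨a, ⟨h1, -⟩, rfl⟩)
      · exact ⟨⟨t, 1, h1, .inl rfl, mul_one t⟩, mul_ne_zero h0 hp.ne_zero⟩
      · exact ⟨⟨a, p, h1, .inr rfl, rfl⟩, mul_ne_zero h0 hp.ne_zero⟩
  rw [this, Finset.sum_union, Finset.sum_image fun _ _ _ _ e => mul_right_cancel₀ hp.ne_zero e,
    Finset.sum_add_distrib]
  refine Finset.disjoint_left.2 fun t h1 h2 => ?_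
  obtain ⟨a, -, rfl⟩ := Finset.mem_image.1 h2
  exact h ((dvd_mul_left p a).trans (Nat.dvd_of_mem_divisors h1))

theorem QNum1_sum (k : ℕ) (a u v : ℕ → ℝ) (ha : ∀ t p, p.Coprime 2 → a (t * p) = a t)
    (hP : ∀ p ∈ P, p.Prime ∧ p ≠ 2) :
    ∑ t ∈ (2 ^ k * ∏ p ∈ P, p).divisors, a t * ∏ p ∈ P, (if p ∣ t then u p else v p) =
      (∑ t ∈ (2 ^ k).divisors, a t) * ∏ p ∈ P, (v p + u p) := by
  induction P using Finset.induction_on with
  | empty => simp
  | insert q P hq ih =>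
    have h1 := hP q (Finset.mem_insert_self _ _)
    have h2 : ∀ p ∈ P, p.Prime ∧ p ≠ 2 := fun p hp => hP p (Finset.mem_insert_of_mem hp)
    have h3 := (Nat.coprime_primes h1.1 Nat.prime_two).2 h1.2
    have h4 : ∀ p ∈ P, p.Coprime q := fun p hp =>
      (Nat.coprime_primes (h2 p hp).1 h1.1).2 fun e => hq (e ▸ hp)
    have h5 : ¬ q ∣ 2 ^ k * ∏ p ∈ P, p := h1.1.coprime_iff_not_dvd.1
      (Nat.Coprime.mul_right (h3.pow_right k) (Nat.Coprime.prod_right fun p hp => (h4 p hp).symm))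
    simp only [Finset.prod_insert hq]
    rw [mul_comm q, ← mul_assoc, QNum1_step h1.1 h5, mul_comm (v q + u q), ← mul_assoc, ← ih h2,
      Finset.sum_mul]
    refine Finset.sum_congr rfl fun t ht => ?_
    rw [ha t q h3, if_pos (dvd_mul_left q t),
      if_neg fun e => h5 (e.trans (Nat.dvd_of_mem_divisors ht)),
      Finset.prod_congr rfl fun p hp => if_congr (h4 p hp).dvd_mul_right rfl rfl]
    ring

theorem sum_wt (h : Rks m P b b2 f) (c : ℕ) :
    ∑ t ∈ (exf P b2 f).divisors, qwt m P b b2 f t c ≤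
      (if 2 ∣ c then 3 else g2 m b2 f) * ∏ p ∈ P, if p ∣ c then 2 else gp m p (b p) := by
  have h1 := QNum1_sum (if b2 = 0 then 0 else if f = 0 then 1 else 2)
    (fun t => if 2 ∣ c then 1 else if 4 ∣ t then (2 : ℝ) ^ (-((2 * (m : ℝ) - b2 - f) / 2))
      else if 2 ∣ t then (2 : ℝ) ^ (-(((m : ℝ) - b2 + f) / 2))
      else (2 : ℝ) ^ (-(((b2 : ℝ) + f) / 2)))
    (fun p => if p ∣ c then 1 else (p : ℝ) ^ (-(((m : ℝ) - b p) / 2)))
    (fun p => if p ∣ c then 1 else (p : ℝ) ^ (-((b p : ℝ) / 2))) (fun t p hp => by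
      simp only [hp.symm.dvd_mul_right,
        (show Nat.Coprime 4 p from hp.symm.pow_left 2).dvd_mul_right]) h.prime
  refine (Eq.trans (Finset.sum_congr rfl fun t _ => congrArg _
    (Finset.prod_congr rfl fun p _ => by split_ifs <;> rfl)) h1).trans_le ?_
  rw [Finset.prod_congr (g := fun p => if p ∣ c then 2 else gp m p (b p)) rfl fun p _ => by
    split_ifs
    exacts [one_add_one_eq_two, rfl]]
  refine mul_le_mul_of_nonneg_right ?_ (Finset.prod_nonneg fun p hp => by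
    split_ifs
    exacts [zero_le_two, (gp_pos (h.prime p hp).1.ne_zero).le])
  have h2 := h.f1
  have h3 := h.fb
  rw [Nat.sum_divisors_prime_pow Nat.prime_two, g2]
  by_cases e : b2 = 0
  · obtain rfl : f = 0 := by omega
    split_ifs <;> simp [e]
  obtain rfl | rfl : f = 0 ∨ f = 1 := by omega
  all_goals
    split_ifs <;> first | contradiction | norm_num [Finset.sum_range_succ]

theorem QNum1_tail (N : ℕ) :
    ∑ c ∈ Finset.range N, ((c : ℝ) + 2) ^ (-(15 / 2) : ℝ) ≤ 6 / 1000 := by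
  have h0 : ∀ x y : ℝ, 0 < x → 0 < y → y ^ 2 ≤ x → x ^ (-(15 / 2) : ℝ) ≤ 1 / (x ^ 7 * y) := by
    intro x y hx hy h
    rw [show (-(15 / 2) : ℝ) = -((7 : ℕ) + 1 / 2) by norm_num, Real.rpow_neg hx.le,
      Real.rpow_add hx, Real.rpow_natCast, ← Real.sqrt_eq_rpow, ← one_div]
    gcongr
    exact Real.le_sqrt_of_sq_le h
  have h1 : ∀ N : ℕ, ∑ c ∈ Finset.range (N + 2), ((c : ℝ) + 2) ^ (-(15 / 2) : ℝ) ≤
      6 / 1000 - 1 / (2048 * (N + 3)) := fun N => by
    induction N with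
    | zero =>
      have h1 := h0 2 (14142 / 10000) (by norm_num) (by norm_num) (by norm_num)
      have h2 := h0 3 (173 / 100) (by norm_num) (by norm_num) (by norm_num)
      norm_num [Finset.sum_range_succ] at h1 h2 ⊢
      linarith only [h1, h2]
    | succ N ih =>
      rw [Finset.sum_range_succ (n := N + 2)]
      obtain ⟨x, hx⟩ : ∃ x : ℝ, x = N + 4 := ⟨_, rfl⟩
      have h2 : 4 ≤ x := by have := N.cast_nonneg (α := ℝ); linarith only [hx]
      have h3 := h0 x 2 (by linarith only [hx]) two_pos (by linarith only [hx])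
      have h4 : 1 / (x ^ 7 * 2) ≤ 1 / (2048 * (x - 1)) - 1 / (2048 * x) := by
        have h5 : 0 < x - 1 := by linarith only [hx]
        have h6 : (4 : ℝ) ^ 5 ≤ x ^ 5 := by gcongr
        rw [show 1 / (2048 * (x - 1)) - 1 / (2048 * x) = 1 / (2048 * (x * (x - 1))) by
          field_simp; ring]
        refine one_div_le_one_div_of_le (by positivity) ?_
        linarith only [hx, h6, mul_le_mul_of_nonneg_left h6 (sq_nonneg x), sq_nonneg x]
      push_cast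
      rw [show (N : ℝ) + 2 + 2 = x by linarith only [hx], show (N : ℝ) + 1 + 3 = x by linarith only [hx]]
      rw [show (N : ℝ) + 3 = x - 1 by linarith only [hx]] at ih
      linarith only [ih, h3, h4]
  refine (Finset.sum_le_sum_of_subset_of_nonneg (Finset.range_mono (Nat.le_add_right N 2))
    fun _ _ _ => by positivity).trans ((h1 N).trans (sub_le_self _ (by positivity)))

theorem QNum1_bd (hm : 19 ≤ m) (h : Rks m P b b2 f) {c : ℕ} (hc : c ≠ 0) :
    ∑ t ∈ (exf P b2 f).divisors, qwt m P b b2 f t c ≤ 3 / 2 * c := by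
  have h1 : ((2 ^ (if 2 ∣ c then 1 else 0) * ∏ p ∈ P, (if p ∣ c then p else 1) : ℕ) : ℝ) ≤ c :=
    Nat.cast_le.2 (Nat.le_of_dvd (Nat.pos_of_ne_zero hc) (QNum1_rad h (by split_ifs <;> simp [*])))
  refine (sum_wt h c).trans (le_trans ?_ (mul_le_mul_of_nonneg_left h1 (by norm_num)))
  push_cast
  rw [← mul_assoc]
  have h2 : ∀ p ∈ P, 0 ≤ if p ∣ c then 2 else gp m p (b p) := fun p hp => by
    split_ifs
    exacts [zero_le_two, (gp_pos (h.prime p hp).1.ne_zero).le]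
  refine mul_le_mul ?_ (Finset.prod_le_prod h2 fun p hp => ?_) (Finset.prod_nonneg h2)
    (by positivity)
  · split_ifs
    · norm_num
    · linarith only [hm, h, g2_le_one hm h.f1 h.le2]
  · have := (h.prime p hp).1.two_le
    split_ifs
    · exact_mod_cast this
    · exact gp_le_one hm (by have := (h.prime p hp).2; omega) (h.pos p hp) (h.le p hp)

theorem num_sum (hm : 19 ≤ m) (h : Rks m P b b2 f) (α : ℕ → ℕ → ℕ)
    (h0 : ∀ t, t ∣ exf P b2 f →
      α t 0 ≠ 0 ∧ t ^ m * torf P b b2 f 0 ∣ α t 0 * torf P b b2 f t ^ 2)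
    (h1 : ∀ t, t ∣ exf P b2 f → ∀ c, c ≠ 0 → α t c ∣ α t 0 ∧ α t c ∣ c ^ m) :
    ∑ t ∈ (exf P b2 f).divisors,
        (1 + ∑' c : ℕ, ((c : ℝ) + 2) ^ (1 - (m : ℝ) / 2) * √(α t (c + 2) : ℝ)) / √(α t 0 : ℝ) ≤
      g2 m b2 f * ∏ p ∈ P, gp m p (b p) + 9 / 1000 := by
  have h2 : ∑ t ∈ (exf P b2 f).divisors, 1 / √(α t 0 : ℝ) ≤ g2 m b2 f * ∏ p ∈ P, gp m p (b p) := by
    refine (Finset.sum_le_sum fun t ht => ?_).trans ((sum_wt h 1).trans_eq ?_)
    · have h3 := Nat.dvd_of_mem_divisors ht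
      simpa using ratio_le hm h h3 (h0 t h3).1 (h0 t h3).2 (one_dvd _) (one_dvd (1 ^ m))
    · rw [if_neg (by norm_num)]
      exact congrArg _ (Finset.prod_congr rfl fun p hp => if_neg (h.prime p hp).1.not_dvd_one)
  have h3 : ∀ c : ℕ, ∑ t ∈ (exf P b2 f).divisors,
      ((c : ℝ) + 2) ^ (1 - (m : ℝ) / 2) * √(α t (c + 2) : ℝ) / √(α t 0 : ℝ) ≤
        3 / 2 * ((c : ℝ) + 2) ^ (-(15 / 2) : ℝ) := fun c => by
    have h4 : (0 : ℝ) < c + 2 := by positivity
    refine (Finset.sum_le_sum fun t ht => ?_).trans ((Finset.mul_sum _ _ _).symm.trans_le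
      ((mul_le_mul_of_nonneg_left (QNum1_bd hm h (c := c + 2) (by omega))
        (Real.rpow_nonneg h4.le (1 - (m : ℝ) / 2))).trans ?_))
    · have h3 := Nat.dvd_of_mem_divisors ht
      rw [mul_div_assoc]
      exact mul_le_mul_of_nonneg_left (ratio_le hm h h3 (h0 t h3).1 (h0 t h3).2
        (h1 t h3 _ (by omega)).1 (h1 t h3 _ (by omega)).2) (by positivity)
    · have h5 : (19 : ℝ) ≤ m := by exact_mod_cast hm
      push_cast
      rw [mul_left_comm, ← Real.rpow_add_one h4.ne']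
      gcongr
      · linarith only [c.cast_nonneg (α := ℝ)]
      · linarith only [h5]
  have h4 := fun N => (Finset.sum_le_sum fun c (_ : c ∈ Finset.range N) => h3 c).trans
    ((Finset.mul_sum _ _ _).symm.trans_le (mul_le_mul_of_nonneg_left (QNum1_tail N) (by norm_num)))
  simp only [add_div, Finset.sum_add_distrib, ← tsum_div_const]
  rw [← Summable.tsum_finsetSum fun t ht => summable_of_sum_range_le (fun _ => by positivity)
    fun N => (Finset.sum_le_sum fun c _ => Finset.single_le_sum (fun _ _ => by positivity) ht).trans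
      (h4 N)]
  linarith only [h2, h4, Real.tsum_le_of_sum_range_le (fun _ => by positivity) h4]

end Pool.Agent.Work.MP_c8d35c_al
end

-- merged part: Pool.Agent.Work.MP_c8d35c_al.QGlue
section
/-! Gluing two lattices with the same discriminant form.

Plan. `glue_lat`: `Λ = (L.prod L'.neg).re 1 _ Y _ _` with
`Y = {(w, w') | ∃ c, w - ∑ c i • y i ∈ X ∧ w' - ∑ c i • y' i ∈ X'}`; it lies between `X × X'` and
`D × D'`, is even, and self-dual: a dual vector ` (w, w')` has `w ∈ D`, `w' ∈ D'`; subtract an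
element of `Y` to get ` (0, w'')`; then `β' w'' (y' i) ∈ ℤ`, so `w''` pairs integrally with `D'`.
`glue`: choose a linear `s : W' → W` with ` (s a, a) ∈ Y` for `a ∈ D'` (on a basis of `D'`), and
its adjoint `s'` (`β' (s' x) c = β x (s c)`, from `LinearMap.BilinForm.toDual` or a dual basis).
If ` (w, 0) ∈ Y` then `w ∈ X` (it pairs integrally with `X` and the `y i`). `H` is `W' × W'` with
the form `β (s c) (s c') - β' c c' + β' c d' + β' d c'` and the lattice `D' × X'`; it is even and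
self-dual. The isometry is ` ((w, a), b) ↦ (x, (c, d))`, `c = a - b`, `x = w - s c`,
`d = s' x - b`; the inverse is `b = s' x - d`, `a = c + b`, `w = x + s c`. -/

namespace Pool.Agent.Work.MP_c8d35c_al

open Module

namespace QL

theorem QGlue_even {V : Type} [AddCommGroup V] [Module ℚ V] (β : LinearMap.BilinForm ℚ V)
    (hs : ∀ x y, β x y = β y x) (S : Set V) (h1 : ∀ a ∈ S, ∀ b ∈ S, ∃ z : ℤ, β a b = z)
    (h2 : ∀ a ∈ S, ∃ z : ℤ, β a a = 2 * z) :
    ∀ p ∈ AddSubgroup.closure S, ∃ z : ℤ, β p p = 2 * z := by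
  have h3 : ∀ a ∈ S, ∀ b ∈ AddSubgroup.closure S, ∃ z : ℤ, β a b = z := by
    intro a ha b hb
    induction hb using AddSubgroup.closure_induction with
    | mem b hb => exact h1 a ha b hb
    | zero => exact ⟨0, by simp⟩
    | add b c _ _ hb hc =>
      obtain ⟨z, hz⟩ := hb
      obtain ⟨w, hw⟩ := hc
      exact ⟨z + w, by simp [hz, hw]⟩
    | neg b _ hb =>
      obtain ⟨z, hz⟩ := hb
      exact ⟨-z, by simp [hz]⟩
  have h4 : AddSubgroup.closure S ≤ dualA β (AddSubgroup.closure S) :=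
    (AddSubgroup.closure_le _).2 fun a ha x hx => by rw [hs]; exact h3 a ha x hx
  intro p hp
  induction hp using AddSubgroup.closure_induction with
  | mem b hb => exact h2 b hb
  | zero => exact ⟨0, by simp⟩
  | add b c hb' hc' hb hc =>
    obtain ⟨z, hz⟩ := hb
    obtain ⟨w, hw⟩ := hc
    obtain ⟨u, hu⟩ := h4 hc' b hb'
    refine ⟨z + w + u, ?_⟩
    simp only [map_add, LinearMap.add_apply, hs c b]
    push_cast
    linarith only [hz, hw, hu]
  | neg b _ hb =>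
    obtain ⟨z, hz⟩ := hb
    exact ⟨z, by simpa using hz⟩

theorem QGlue_Y {L L' : QL} {ι : Type} [Fintype ι] {C : ι → ι → ℚ} (h : L.PresG L.D C)
    (h' : L'.PresG L'.D C) : ∃ Y : AddSubgroup (L.W × L'.W), L.X.prod L'.X ≤ Y ∧
      Y ≤ L.D.prod L'.D ∧ (∀ p ∈ Y, ∃ z : ℤ, L.β p.1 p.1 - L'.β p.2 p.2 = 2 * z) ∧
      (∀ w ∈ L.D, ∃ w', (w, w') ∈ Y) ∧ ∀ w' ∈ L'.D, ∃ w, (w, w') ∈ Y := by
  obtain ⟨y, hy, hg, hC⟩ := h
  obtain ⟨y', hy', hg', hC'⟩ := h'
  let S : Set (L.W × L'.W) := (L.X.prod L'.X : Set (L.W × L'.W)) ∪ Set.range fun i => (y i, y' i)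
  have hX : L.X.prod L'.X ≤ AddSubgroup.closure S := fun p hp =>
    AddSubgroup.subset_closure (Or.inl hp)
  have hD : ∀ p ∈ S, p ∈ L.D.prod L'.D := by
    rintro p (hp | ⟨i, rfl⟩)
    · exact ⟨L.X_le_D hp.1, L'.X_le_D hp.2⟩
    · exact ⟨hy i, hy' i⟩
  have hsum : ∀ c : ι → ℤ, (∑ i, c i • y i, ∑ i, c i • y' i) ∈ AddSubgroup.closure S := by
    intro c
    have e : (∑ i, c i • y i, ∑ i, c i • y' i) = ∑ i, c i • (y i, y' i) := by
      ext <;> simp [Prod.fst_sum, Prod.snd_sum]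
    rw [e]
    exact sum_mem fun i _ => zsmul_mem (AddSubgroup.subset_closure
      (show (y i, y' i) ∈ S from Or.inr ⟨i, rfl⟩)) _
  obtain ⟨B, hβ⟩ : ∃ B : LinearMap.BilinForm ℚ (L.W × L'.W),
      ∀ p q : L.W × L'.W, B p q = L.β p.1 q.1 - L'.β p.2 q.2 :=
    ⟨(L.prod L'.neg).β, fun p q => (sub_eq_add_neg _ _).symm⟩
  have hBs : ∀ p q, B p q = B q p := fun p q => by rw [hβ, hβ, L.symm, L'.symm]
  have hXD : ∀ p ∈ L.X.prod L'.X, ∀ q ∈ L.D.prod L'.D,
      ∃ z : ℤ, L.β p.1 q.1 - L'.β p.2 q.2 = z := by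
    intro p hp q hq
    obtain ⟨z, hz⟩ := hq.1 _ hp.1
    obtain ⟨w, hw⟩ := hq.2 _ hp.2
    exact ⟨z - w, by rw [hz, hw, Int.cast_sub]⟩
  refine ⟨AddSubgroup.closure S, hX, (AddSubgroup.closure_le _).2 hD, fun p hp => ?_,
    fun w hw => ?_, fun w hw => ?_⟩
  · rw [← hβ]
    refine QGlue_even B hBs S ?_ ?_ p hp
    · rintro a (ha | ⟨i, rfl⟩) b hb
      · rw [hβ]
        exact hXD a ha b (hD b hb)
      · rcases hb with hb | ⟨j, rfl⟩
        · rw [hBs, hβ]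
          exact hXD b hb _ ⟨hy i, hy' i⟩
        · obtain ⟨n, hn, -⟩ := hC i j
          obtain ⟨n', hn', -⟩ := hC' i j
          exact ⟨n - n', by rw [hβ, hn, hn']; push_cast; ring⟩
    · rintro a (ha | ⟨i, rfl⟩)
      · obtain ⟨z, hz⟩ := L.even _ ha.1
        obtain ⟨w, hw⟩ := L'.even _ ha.2
        exact ⟨z - w, by rw [hβ, hz, hw]; push_cast; ring⟩
      · obtain ⟨n, hn, hn2⟩ := hC i i
        obtain ⟨n', hn', hn2'⟩ := hC' i i
        obtain ⟨m, rfl⟩ := hn2 rfl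
        obtain ⟨m', rfl⟩ := hn2' rfl
        exact ⟨m - m', by rw [hβ, hn, hn']; push_cast; ring⟩
  · obtain ⟨c, hc⟩ := hg w hw
    refine ⟨∑ i, c i • y' i, ?_⟩
    have := add_mem (hX (show (w - ∑ i, c i • y i, (0 : L'.W)) ∈ L.X.prod L'.X from
      ⟨hc, zero_mem _⟩)) (hsum c)
    simpa using this
  · obtain ⟨c, hc⟩ := hg' w hw
    refine ⟨∑ i, c i • y i, ?_⟩
    have := add_mem (hX (show ((0 : L.W), w - ∑ i, c i • y' i) ∈ L.X.prod L'.X from
      ⟨zero_mem _, hc⟩)) (hsum c)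
    simpa using this

/-- The form on the auxiliary lattice. -/
def QGlue_form {L L' : QL} (s : L'.W →ₗ[ℚ] L.W) : LinearMap.BilinForm ℚ (L'.W × L'.W) :=
  L.β.compl₁₂ (s ∘ₗ LinearMap.fst ℚ _ _) (s ∘ₗ LinearMap.fst ℚ _ _) -
    L'.β.compl₁₂ (LinearMap.fst ℚ _ _) (LinearMap.fst ℚ _ _) +
    L'.β.compl₁₂ (LinearMap.fst ℚ _ _) (LinearMap.snd ℚ _ _) +
    L'.β.compl₁₂ (LinearMap.snd ℚ _ _) (LinearMap.fst ℚ _ _)

theorem QGlue_form_apply {L L' : QL} (s : L'.W →ₗ[ℚ] L.W) (p q : L'.W × L'.W) :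
    QGlue_form s p q = L.β (s p.1) (s q.1) - L'.β p.1 q.1 + L'.β p.1 q.2 + L'.β p.2 q.1 := rfl

/-- The auxiliary lattice. -/
def QGlue_H {L L' : QL} (s : L'.W →ₗ[ℚ] L.W)
    (hs : ∀ a ∈ L'.D, ∃ z : ℤ, L.β (s a) (s a) - L'.β a a = 2 * z) : QL where
  W := L'.W × L'.W
  β := QGlue_form s
  symm x y := by
    rw [QGlue_form_apply, QGlue_form_apply, L.symm (s x.1), L'.symm x.1 y.1, L'.symm x.1 y.2,
      L'.symm x.2 y.1]
    ring
  nd x h := by
    have h1 : x.1 = 0 := L'.nd _ fun y => by simpa [QGlue_form_apply] using h (0, y)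
    exact Prod.ext h1 (L'.nd _ fun y => by simpa [QGlue_form_apply, h1] using h (y, 0))
  X := L'.D.prod L'.X
  full := L'.full_D.prod L'.full
  even x hx := by
    obtain ⟨z, hz⟩ := hs _ hx.1
    obtain ⟨w, hw⟩ := hx.1 _ hx.2
    refine ⟨z + w, ?_⟩
    rw [QGlue_form_apply, hz, L'.symm x.1 x.2, hw]
    push_cast
    ring

/-- The underlying linear isomorphism. -/
def QGlue_e {V V' : Type} [AddCommGroup V] [Module ℚ V] [AddCommGroup V'] [Module ℚ V']
    (s : V' →ₗ[ℚ] V) (s' : V →ₗ[ℚ] V') : (V × (V' × V')) ≃ₗ[ℚ] ((V × V') × V') where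
  toFun p := ((p.1 + s p.2.1, p.2.1 + (s' p.1 - p.2.2)), s' p.1 - p.2.2)
  map_add' p q := by
    ext <;> simp only [Prod.fst_add, Prod.snd_add, map_add] <;> abel
  map_smul' c p := by
    ext <;> simp [smul_add, smul_sub]
  invFun q := (q.1.1 - s (q.1.2 - q.2), (q.1.2 - q.2, s' (q.1.1 - s (q.1.2 - q.2)) - q.2))
  left_inv p := by
    ext <;> simp
  right_inv q := by
    ext <;> simp

theorem QGlue_e_apply {V V' : Type} [AddCommGroup V] [Module ℚ V] [AddCommGroup V'] [Module ℚ V']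
    (s : V' →ₗ[ℚ] V) (s' : V →ₗ[ℚ] V') (p : V × (V' × V')) : QGlue_e s s' p =
      ((p.1 + s p.2.1, p.2.1 + (s' p.1 - p.2.2)), s' p.1 - p.2.2) := rfl

theorem glue {L L' : QL} {ι : Type} [Fintype ι] {C : ι → ι → ℚ} (h : L.PresG L.D C)
    (h' : L'.PresG L'.D C) : ∃ Λ H : QL, Λ.a 0 = 1 ∧ H.a 0 = 1 ∧
      (∃ e : (L.prod L'.neg).W ≃ₗ[ℚ] Λ.W, ∀ x y, Λ.β (e x) (e y) = (L.prod L'.neg).β x y) ∧
      (Λ.prod L').Iso (L.prod H) := by
  obtain ⟨Y, hXY, hYD, hev, hl, hr⟩ := QGlue_Y h h'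
  have hint : ∀ p ∈ Y, ∀ q ∈ Y, ∃ z : ℤ, L.β p.1 q.1 - L'.β p.2 q.2 = z := by
    intro p hp q hq
    obtain ⟨a, ha⟩ := hev p hp
    obtain ⟨b, hb⟩ := hev q hq
    obtain ⟨c, hc⟩ := hev _ (add_mem hp hq)
    refine ⟨c - a - b, ?_⟩
    simp only [Prod.fst_add, Prod.snd_add, map_add, LinearMap.add_apply, L.symm q.1 p.1,
      L'.symm q.2 p.2] at hc
    push_cast
    linarith only [ha, hb, hc]
  have hfull : Full Y := (L.full.prod L'.full).of_le_of_le (L.full_D.prod L'.full_D) hXY hYD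
  obtain ⟨s, hs⟩ : ∃ s : L'.W →ₗ[ℚ] L.W, ∀ a ∈ L'.D, (s a, a) ∈ Y := by
    obtain ⟨b, hb⟩ := L'.full_D
    choose w hw using fun i => hr (b i) (hb ▸ AddSubgroup.subset_closure ⟨i, rfl⟩)
    refine ⟨b.constr ℚ w, fun a ha => ?_⟩
    rw [hb, mem_closure_basis] at ha
    obtain ⟨m, rfl⟩ := ha
    have e : (b.constr ℚ w (∑ i, m i • b i), ∑ i, m i • b i) = ∑ i, m i • (w i, b i) := by
      ext <;> simp [Prod.fst_sum, Prod.snd_sum, map_sum, map_zsmul]
    rw [e]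
    exact sum_mem fun i _ => zsmul_mem (hw i) _
  obtain ⟨s', hs'⟩ : ∃ s' : L.W →ₗ[ℚ] L'.W, ∀ x c, L'.β (s' x) c = L.β x (s c) :=
    ⟨(L'.β.toDual L'.nondeg).symm.toLinearMap ∘ₗ s.dualMap ∘ₗ L.β, fun x c =>
      LinearMap.BilinForm.apply_toDual_symm_apply (hB := L'.nondeg) _ _⟩
  have hβ : ∀ p q : L.W × L'.W, (L.prod L'.neg).β p q = L.β p.1 q.1 - L'.β p.2 q.2 :=
    fun p q => (sub_eq_add_neg _ _).symm
  have h0 : ∀ x : L.W, (x, (0 : L'.W)) ∈ Y → x ∈ L.X := fun x hx => L.mem_X_of fun u hu => by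
    obtain ⟨u', hu'⟩ := hl u hu
    simpa using hint _ hu' _ hx
  have hs'X : ∀ x ∈ L.X, s' x ∈ L'.X := fun x hx => L'.mem_X_of fun c hc => by
    rw [L'.symm, hs']
    exact (hYD (hs c hc)).1 x hx
  let Λ : QL := (L.prod L'.neg).re 1 one_ne_zero Y hfull fun p hp => by
    rw [one_mul, hβ]; exact hev p hp
  have hΛ : ∀ p q : L.W × L'.W, Λ.β p q = L.β p.1 q.1 - L'.β p.2 q.2 := fun p q =>
    (one_mul _).trans (hβ p q)
  let H : QL := QGlue_H s fun a ha => hev _ (hs a ha)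
  have hH : ∀ p q : L'.W × L'.W, H.β p q =
      L.β (s p.1) (s q.1) - L'.β p.1 q.1 + L'.β p.1 q.2 + L'.β p.2 q.1 := fun _ _ => rfl
  refine ⟨Λ, H, Λ.a_zero_eq_one_iff.2 ?_, H.a_zero_eq_one_iff.2 ?_,
    ⟨LinearEquiv.refl ℚ _, fun x y => one_mul _⟩, Iso.symm ⟨QGlue_e s s', ?_, ?_⟩⟩
  · rintro ⟨w : L.W, w' : L'.W⟩ hp
    have hp' : ∀ q ∈ Y, ∃ z : ℤ, L.β q.1 w - L'.β q.2 w' = z := fun q hq => by
      obtain ⟨z, hz⟩ := hp q hq
      exact ⟨z, (hΛ q (w, w')).symm.trans hz⟩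
    have hw : w ∈ L.D := fun x hx => by
      simpa using hp' (x, 0) (hXY ⟨hx, zero_mem _⟩)
    obtain ⟨v, hv⟩ := hl w hw
    have hX : w' - v ∈ L'.X := L'.mem_X_of fun u hu => by
      obtain ⟨z, hz⟩ := hp' _ (hs u hu)
      obtain ⟨z', hz'⟩ := hint _ (hs u hu) _ hv
      refine ⟨z' - z, ?_⟩
      simp only at hz hz'
      rw [map_sub]
      push_cast
      linarith only [hz, hz']
    have := add_mem hv (hXY (show ((0 : L.W), w' - v) ∈ L.X.prod L'.X from ⟨zero_mem _, hX⟩))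
    change (w, w') ∈ Y
    simpa using this
  · rintro ⟨c, d⟩ hp
    have hp' : ∀ q ∈ L'.D.prod L'.X, ∃ z : ℤ,
        L.β (s q.1) (s c) - L'.β q.1 c + L'.β q.1 d + L'.β q.2 c = z := fun q hq => by
      obtain ⟨z, hz⟩ := hp q hq
      exact ⟨z, (hH q (c, d)).symm.trans hz⟩
    have hc : c ∈ L'.D := fun x hx => by
      simpa using hp' (0, x) ⟨zero_mem _, hx⟩
    refine ⟨hc, L'.mem_X_of fun u hu => ?_⟩
    obtain ⟨z, hz⟩ := hp' (u, 0) ⟨hu, zero_mem _⟩
    obtain ⟨z', hz'⟩ := hint _ (hs u hu) _ (hs c hc)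
    refine ⟨z - z', ?_⟩
    simp only [map_zero, LinearMap.zero_apply, add_zero] at hz hz'
    push_cast
    linarith only [hz', hz]
  · rintro ⟨x, c, d⟩ ⟨x', c', d'⟩
    have e1 : (Λ.prod L').β (QGlue_e s s' (x, c, d)) (QGlue_e s s' (x', c', d')) =
        (L.β (x + s c) (x' + s c') - L'.β (c + (s' x - d)) (c' + (s' x' - d'))) +
          L'.β (s' x - d) (s' x' - d') :=
      congrArg (· + L'.β (s' x - d) (s' x' - d'))
        (hΛ (x + s c, c + (s' x - d)) (x' + s c', c' + (s' x' - d')))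
    have e2 : (L.prod H).β (x, c, d) (x', c', d') = L.β x x' +
        (L.β (s c) (s c') - L'.β c c' + L'.β c d' + L'.β d c') := rfl
    refine e1.trans (Eq.trans ?_ e2.symm)
    have a1 := hs' x c'
    have a2 := hs' x' c
    rw [L'.symm, L.symm] at a2
    simp only [map_add, map_sub, LinearMap.add_apply, LinearMap.sub_apply]
    linarith only [a1, a2]
  · rintro ⟨x, c, d⟩
    change ((x + s c, c + (s' x - d)) ∈ Y ∧ s' x - d ∈ L'.X) ↔ (x ∈ L.X ∧ c ∈ L'.D ∧ d ∈ L'.X)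
    constructor
    · rintro ⟨h1, h2⟩
      have hc : c ∈ L'.D := by
        have := sub_mem (show c + (s' x - d) ∈ L'.D from (hYD h1).2) (L'.X_le_D h2)
        simpa using this
      have hx : x ∈ L.X := h0 x (by
        have := sub_mem (sub_mem h1 (hs c hc))
          (hXY (show ((0 : L.W), s' x - d) ∈ L.X.prod L'.X from ⟨zero_mem _, h2⟩))
        simpa using this)
      refine ⟨hx, hc, ?_⟩
      have := sub_mem (hs'X x hx) h2
      simpa using this
    · rintro ⟨hx, hc, hd⟩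
      have h2 : s' x - d ∈ L'.X := sub_mem (hs'X x hx) hd
      refine ⟨?_, h2⟩
      have := add_mem (hs c hc) (hXY (show (x, s' x - d) ∈ L.X.prod L'.X from ⟨hx, h2⟩))
      simpa [add_comm] using this

end QL

end Pool.Agent.Work.MP_c8d35c_al
end

-- merged part: Pool.Agent.Work.MP_c8d35c_al.QBlk1
section
/-! One block of the discriminant form splits off.

Plan. `nr_spec`: a non-square exists (`FiniteField.exists_nonsquare`), so the filtered list is
not empty and its head is a non-square below `p`.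
`IsBlk.split`: for `z ∈ D` the numbers `B.ex * β z (y j)` are integers `n j`; solve the
congruence `∑ c i * (ex * g i j) ≡ n j` modulo `ex` (the matrix `ex * g` is invertible modulo
`ex`: `2 a` mod `p`, `1` or `3` mod `2`, `[[0,1],[1,0]]` mod `2`, `k` mod `4`; for a cyclic block
`y 1 ∈ X`, take `c 1 = 0`). `IsBlk.mem_iff`: the same invertibility.
`IsBlk.idx`: by `mem_iff` the quotient `gen / X` is `ZMod ex` or `ZMod 2 × ZMod 2`.
`idx_sup`: ` (D₁ ⊔ D₂) ⊓ tor c = (D₁ ⊓ tor c) ⊔ (D₂ ⊓ tor c)` because `c (y₁ + y₂) ∈ X` gives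
`c y₁ ∈ D₁ ⊓ D₂ ≤ X`; then `AddSubgroup.relIndex_sup_left`, `inf_relIndex_right`. -/

namespace Pool.Agent.Work.MP_c8d35c_al

open Module

theorem nr_spec {p : ℕ} (hp : p.Prime) (h2 : p ≠ 2) :
    nr p < p ∧ ¬IsSquare ((nr p : ℕ) : ZMod p) := by
  have : Fact p.Prime := ⟨hp⟩
  have hm : ∀ a, a ∈ ((List.range p).filter fun a => (List.range p).all fun x => x * x % p != a) ↔
      a < p ∧ ¬IsSquare (a : ZMod p) := by
    intro a
    simp only [List.mem_filter, List.mem_range, List.all_eq_true, bne_iff_ne, ne_eq]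
    refine and_congr_right fun ha => ⟨?_, fun h x _ hx => h ⟨x, ?_⟩⟩
    · rintro h ⟨r, hr⟩
      refine h r.val (ZMod.val_lt r) ?_
      rw [← ZMod.val_mul, ← hr, ZMod.val_cast_of_lt ha]
    · rw [← hx, ZMod.natCast_mod, Nat.cast_mul]
  obtain ⟨a, ha⟩ := FiniteField.exists_nonsquare (F := ZMod p) (by rwa [ZMod.ringChar_zmod_n])
  have h1 := (hm a.val).2 ⟨ZMod.val_lt a, by rwa [ZMod.natCast_zmod_val]⟩
  rw [← hm, nr]
  generalize ((List.range p).filter fun a => (List.range p).all fun x => x * x % p != a) = l at h1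
  cases l with
  | nil => simp at h1
  | cons b l => simp

theorem QBlk1_cases {B : Blk} (hv : B.Valid) :
    (B ≠ Blk.u ∧ B ≠ Blk.v ∧ 1 < B.ex ∧ (∃ m : ℤ, IsCoprime m B.ex ∧ B.g 0 0 = m / B.ex) ∧
      ∀ c, B.tor c = Nat.gcd c B.ex * Nat.gcd c 1) ∨
    (B.ex = 2 ∧ (∃ t : ℤ, B.g 0 0 = t ∧ B.g 1 1 = t) ∧ B.g 0 1 = 1 / 2 ∧ B.g 1 0 = 1 / 2 ∧
      ∀ c, B.tor c = Nat.gcd c B.ex * Nat.gcd c 2) := by
  cases B with
  | odd p a =>
    obtain ⟨hp, h2, ha⟩ := hv
    refine Or.inl ⟨by simp, by simp, hp.one_lt, ⟨(2 * a : ℕ), ?_, by simp [Blk.g, Blk.ex]⟩,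
      by simp [Blk.tor, Blk.ex]⟩
    refine Nat.isCoprime_iff_coprime.2 (Nat.Coprime.mul_left
      ((Nat.coprime_primes Nat.prime_two hp).2 h2.symm) ?_)
    rcases ha with rfl | rfl
    · exact Nat.coprime_one_left _
    · refine ((Nat.Prime.coprime_iff_not_dvd hp).2 fun h => (nr_spec hp h2).2 ?_).symm
      rw [(ZMod.natCast_eq_zero_iff _ _).2 h]
      exact IsSquare.zero
  | pl =>
    exact Or.inl ⟨by simp, by simp, one_lt_two, ⟨1, isCoprime_one_left, by simp [Blk.g, Blk.ex]⟩,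
      by simp [Blk.tor, Blk.ex]⟩
  | mi =>
    exact Or.inl ⟨by simp, by simp, one_lt_two, ⟨3, ⟨1, -1, rfl⟩, by simp [Blk.g, Blk.ex]⟩,
      by simp [Blk.tor, Blk.ex]⟩
  | u => exact Or.inr ⟨rfl, ⟨0, by simp [Blk.g]⟩, by simp [Blk.g], by simp [Blk.g],
      by simp [Blk.tor, Blk.ex, sq]⟩
  | v => exact Or.inr ⟨rfl, ⟨1, by simp [Blk.g]⟩, by simp [Blk.g], by simp [Blk.g],
      by simp [Blk.tor, Blk.ex, sq]⟩
  | four k =>
    refine Or.inl ⟨by simp, by simp, by simp [Blk.ex], ⟨k, ?_, by simp [Blk.g, Blk.ex]⟩,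
      by simp [Blk.tor, Blk.ex]⟩
    refine Nat.isCoprime_iff_coprime.2 ?_
    rcases hv with rfl | rfl | rfl | rfl <;> decide

theorem QBlk1_dvd (c : ℕ) {e : ℕ} (he : 0 < e) : ∃ e' : ℕ, 0 < e' ∧ e = Nat.gcd c e * e' ∧
    ∀ k : ℤ, (e : ℤ) ∣ c * k ↔ (e' : ℤ) ∣ k := by
  obtain ⟨c', e', hco, hc, he'⟩ := Nat.exists_coprime c e
  have hg : 0 < Nat.gcd c e := Nat.gcd_pos_of_pos_right c he
  generalize Nat.gcd c e = g at hc he' hg
  subst hc he'
  refine ⟨e', Nat.pos_of_mul_pos_right he, mul_comm _ _, fun k => ?_⟩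
  push_cast
  rw [mul_right_comm, mul_dvd_mul_iff_right (by exact_mod_cast hg.ne')]
  exact ⟨fun h => (Nat.isCoprime_iff_coprime.2 hco).symm.dvd_of_dvd_mul_left h,
    fun h => h.mul_left _⟩

theorem QBlk1_idx {e₁ e₂ : ℕ} (h1 : 0 < e₁) (h2 : 0 < e₂) (c : ℕ) {H K : AddSubgroup (ℤ × ℤ)}
    (hH : ∀ k, k ∈ H ↔ (e₁ : ℤ) ∣ k.1 ∧ (e₂ : ℤ) ∣ k.2) (hK : ∀ k, k ∈ K ↔ c • k ∈ H) :
    H.relIndex K = Nat.gcd c e₁ * Nat.gcd c e₂ := by
  obtain ⟨a, ha, ea, ha'⟩ := QBlk1_dvd c h1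
  obtain ⟨b, hb, eb, hb'⟩ := QBlk1_dvd c h2
  have eH : H = (AddSubgroup.zmultiples (e₁ : ℤ)).prod (AddSubgroup.zmultiples (e₂ : ℤ)) := by
    ext k
    rw [hH, AddSubgroup.mem_prod, Int.mem_zmultiples_iff, Int.mem_zmultiples_iff]
  have eK : K = (AddSubgroup.zmultiples (a : ℤ)).prod (AddSubgroup.zmultiples (b : ℤ)) := by
    ext k
    rw [hK, hH, AddSubgroup.mem_prod, Int.mem_zmultiples_iff, Int.mem_zmultiples_iff, ← ha', ← hb']
    simp
  have h := AddSubgroup.relIndex_mul_index (H := H) (K := K) fun k hk => (hK k).2 (nsmul_mem hk c)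
  conv_lhs at h => rw [show K.index = a * b by
    rw [eK, AddSubgroup.index_prod, Int.index_zmultiples, Int.index_zmultiples]; simp]
  rw [show H.index = e₁ * e₂ by
    rw [eH, AddSubgroup.index_prod, Int.index_zmultiples, Int.index_zmultiples]; simp] at h
  refine Nat.eq_of_mul_eq_mul_right (Nat.mul_pos ha hb) (h.trans ?_)
  conv_lhs => rw [ea, eb]
  ring

namespace QL

variable {L : QL}

/-- The vectors `y 0`, `y 1` generate a block of type `B`. -/
structure IsBlk (L : QL) (B : Blk) (y : Fin 2 → L.W) : Prop where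
  valid : B.Valid
  mem : ∀ i, y i ∈ L.D
  ex : ∀ i, B.ex • y i ∈ L.X
  cyc : B ≠ Blk.u → B ≠ Blk.v → y 1 ∈ L.X
  gram : ∀ i j, ∃ n : ℤ, L.β (y i) (y j) = B.g i j + n ∧ (i = j → Even n)

/-- The subgroup generated by the lattice and the two vectors. -/
def gen (L : QL) (y : Fin 2 → L.W) : AddSubgroup L.W := L.X ⊔ AddSubgroup.closure (Set.range y)

/-- The elements of `D'` that pair integrally with the two vectors. -/
def perp (L : QL) (D' : AddSubgroup L.W) (y : Fin 2 → L.W) : AddSubgroup L.W where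
  carrier := {z | z ∈ D' ∧ ∀ j, ∃ n : ℤ, L.β z (y j) = n}
  zero_mem' := ⟨zero_mem _, fun _ => ⟨0, by simp⟩⟩
  add_mem' := by
    rintro a b ⟨ha, ha'⟩ ⟨hb, hb'⟩
    refine ⟨add_mem ha hb, fun j => ?_⟩
    obtain ⟨n, hn⟩ := ha' j
    obtain ⟨m, hm⟩ := hb' j
    exact ⟨n + m, by simp [hn, hm]⟩
  neg_mem' := by
    rintro a ⟨ha, ha'⟩
    refine ⟨neg_mem ha, fun j => ?_⟩
    obtain ⟨n, hn⟩ := ha' j
    exact ⟨-n, by simp [hn]⟩

lemma mem_perp {D' : AddSubgroup L.W} {y : Fin 2 → L.W} {z : L.W} :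
    z ∈ L.perp D' y ↔ z ∈ D' ∧ ∀ j, ∃ n : ℤ, L.β z (y j) = n := Iff.rfl

theorem mem_gen {y : Fin 2 → L.W} {z : L.W} :
    z ∈ L.gen y ↔ ∃ c : Fin 2 → ℤ, z - ∑ i, c i • y i ∈ L.X := by
  rw [gen, AddSubgroup.mem_sup]
  constructor
  · rintro ⟨x, hx, w, hw, rfl⟩
    rw [← Submodule.span_int_eq_addSubgroupClosure, Submodule.mem_toAddSubgroup,
      Submodule.mem_span_range_iff_exists_fun] at hw
    obtain ⟨c, rfl⟩ := hw
    exact ⟨c, by rwa [add_sub_cancel_right]⟩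
  · rintro ⟨c, hc⟩
    exact ⟨_, hc, ∑ i, c i • y i, sum_mem fun i _ =>
      zsmul_mem (AddSubgroup.subset_closure (Set.mem_range_self i)) _, sub_add_cancel _ _⟩

variable {B : Blk} {y : Fin 2 → L.W}

theorem QBlk1_key (h : L.IsBlk B y) : 1 < B.ex ∧ ∃ e : ℕ, 0 < e ∧ e • y 1 ∈ L.X ∧
    (∀ c, B.tor c = Nat.gcd c B.ex * Nat.gcd c e) ∧ ∀ a b : ℤ,
      (∀ j, ∃ n : ℤ, L.β (a • y 0 + b • y 1) (y j) = n) → (B.ex : ℤ) ∣ a ∧ (e : ℤ) ∣ b := by
  rcases QBlk1_cases h.valid with ⟨hu, hv, he, ⟨m, hm, hg⟩, ht⟩ | ⟨he, ⟨t, h0, h1⟩, h01, h10, ht⟩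
  · refine ⟨he, 1, one_pos, by simpa using h.cyc hu hv, ht, fun a b hab => ⟨?_, by simp⟩⟩
    obtain ⟨n, hn⟩ := hab 0
    obtain ⟨n0, hn0, -⟩ := h.gram 0 0
    obtain ⟨n1, hn1⟩ := h.mem 0 _ (h.cyc hu hv)
    have e0 : (B.ex : ℚ) ≠ 0 := by positivity
    simp only [map_add, map_zsmul, LinearMap.add_apply, LinearMap.smul_apply, zsmul_eq_mul, hn0,
      hn1, hg] at hn
    refine hm.symm.dvd_of_dvd_mul_right ⟨n - a * n0 - b * n1, ?_⟩
    have : (a : ℚ) * m = B.ex * (n - a * n0 - b * n1) := by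
      rw [← hn]
      field_simp
      ring
    exact_mod_cast this
  · refine ⟨by omega, 2, two_pos, by simpa only [he] using h.ex 1, ht, fun a b hab => ?_⟩
    obtain ⟨n, hn⟩ := hab 0
    obtain ⟨n', hn'⟩ := hab 1
    obtain ⟨n0, hn0, -⟩ := h.gram 0 0
    obtain ⟨n1, hn1, -⟩ := h.gram 0 1
    obtain ⟨n2, hn2, -⟩ := h.gram 1 0
    obtain ⟨n3, hn3, -⟩ := h.gram 1 1
    simp only [map_add, map_zsmul, LinearMap.add_apply, LinearMap.smul_apply, zsmul_eq_mul, hn0,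
      hn1, hn2, hn3, h0, h1, h01, h10] at hn hn'
    rw [he]
    refine ⟨⟨n' - a * n1 - b * (t + n3), ?_⟩, ⟨n - a * (t + n0) - b * n2, ?_⟩⟩
    · have : (a : ℚ) = 2 * (n' - a * n1 - b * (t + n3)) := by linarith only [hn']
      exact_mod_cast this
    · have : (b : ℚ) = 2 * (n - a * (t + n0) - b * n2) := by linarith only [hn]
      exact_mod_cast this

theorem QBlk1_smul {w : L.W} {e : ℕ} (h : e • w ∈ L.X) {a : ℤ} (ha : (e : ℤ) ∣ a) :
    a • w ∈ L.X := by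
  obtain ⟨b, rfl⟩ := ha
  rw [mul_comm, mul_smul, natCast_zsmul]
  exact zsmul_mem h b

theorem IsBlk.split (h : L.IsBlk B y) {z : L.W} (hz : z ∈ L.D) :
    ∃ c : Fin 2 → ℤ, ∀ j, ∃ n : ℤ, L.β (z - ∑ i, c i • y i) (y j) = n := by
  have hn : ∀ j, ∃ n : ℤ, (B.ex : ℚ) * L.β z (y j) = n := fun j => by
    obtain ⟨n, hn⟩ := hz _ (h.ex j)
    rw [map_nsmul, LinearMap.smul_apply, nsmul_eq_mul, L.symm] at hn
    exact ⟨n, hn⟩
  obtain ⟨a, ha⟩ := hn 0
  obtain ⟨b, hb⟩ := hn 1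
  obtain ⟨n0, hn0, -⟩ := h.gram 0 0
  rcases QBlk1_cases h.valid with ⟨hu, hv, he, ⟨m, ⟨s, t, hm⟩, hg⟩, -⟩ |
    ⟨he, ⟨t, h0, h1⟩, h01, h10, -⟩
  · refine ⟨![a * s, 0], Fin.forall_fin_two.2 ⟨⟨a * t - a * s * n0, ?_⟩, ?_⟩⟩
    · have e0 : (B.ex : ℚ) ≠ 0 := by positivity
      have hm' : (s : ℚ) * m + t * B.ex = 1 := by exact_mod_cast hm
      simp only [Fin.sum_univ_two, Matrix.cons_val_zero, Matrix.cons_val_one, zero_smul, add_zero,
        map_sub, map_zsmul, LinearMap.sub_apply, LinearMap.smul_apply, zsmul_eq_mul, hn0, hg]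
      push_cast
      field_simp
      linear_combination ha - a * hm'
    · rw [L.symm]
      exact sub_mem hz (sum_mem fun i _ => zsmul_mem (h.mem i) _) _ (h.cyc hu hv)
  · obtain ⟨n1, hn1, -⟩ := h.gram 0 1
    obtain ⟨n2, hn2, -⟩ := h.gram 1 0
    obtain ⟨n3, hn3, -⟩ := h.gram 1 1
    rw [he] at ha hb
    refine ⟨![b, a], Fin.forall_fin_two.2
      ⟨⟨-(b * (t + n0)) - a * n2, ?_⟩, ⟨-(b * n1) - a * (t + n3), ?_⟩⟩⟩ <;>
    · simp only [Fin.sum_univ_two, Matrix.cons_val_zero, Matrix.cons_val_one, map_sub, map_add,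
        map_zsmul, LinearMap.sub_apply, LinearMap.add_apply, LinearMap.smul_apply, zsmul_eq_mul,
        hn0, hn1, hn2, hn3, h0, h1, h01, h10]
      push_cast at ha hb ⊢
      linarith only [ha, hb]

theorem IsBlk.inf_le (h : L.IsBlk B y) : L.gen y ⊓ L.perp L.D y ≤ L.X := by
  rintro z ⟨h1, -, h2⟩
  obtain ⟨c, hc⟩ := mem_gen.1 h1
  obtain ⟨-, e, -, he, -, hk⟩ := QBlk1_key h
  rw [Fin.sum_univ_two] at hc
  obtain ⟨h3, h4⟩ := hk (c 0) (c 1) fun j => by
    obtain ⟨n, hn⟩ := h2 j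
    obtain ⟨m, hm⟩ := h.mem j _ hc
    rw [map_sub, LinearMap.sub_apply, hn] at hm
    exact ⟨n - m, by push_cast; linarith only [hm]⟩
  simpa using add_mem hc (add_mem (QBlk1_smul (h.ex 0) h3) (QBlk1_smul he h4))

theorem IsBlk.not_le (h : L.IsBlk B y) : y 0 ∉ L.perp L.D y := by
  rintro ⟨-, h2⟩
  obtain ⟨h1, e, -, -, -, hk⟩ := QBlk1_key h
  have := Int.le_of_dvd one_pos (hk 1 0 (by simpa using h2)).1
  omega

theorem IsBlk.idx (h : L.IsBlk B y) (c : ℕ) :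
    L.X.relIndex (L.gen y ⊓ L.tor c) = B.tor c := by
  obtain ⟨h1, e, e0, he, ht, hk⟩ := QBlk1_key h
  let f : ℤ × ℤ →+ L.W := (zmultiplesHom _ (y 0)).coprod (zmultiplesHom _ (y 1))
  have hf : ∀ k : ℤ × ℤ, f k = k.1 • y 0 + k.2 • y 1 := fun _ => rfl
  have hD : ∀ k, f k ∈ L.D := fun k => add_mem (zsmul_mem (h.mem 0) _) (zsmul_mem (h.mem 1) _)
  have e1 : L.gen y ⊓ L.tor c = L.X ⊔ ((L.tor c).comap f).map f := by
    refine le_antisymm ?_ (sup_le (le_inf le_sup_left (L.X_le_tor c)) ?_)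
    · rintro z ⟨h1, h2⟩
      obtain ⟨k, hk⟩ := mem_gen.1 h1
      rw [Fin.sum_univ_two] at hk
      refine AddSubgroup.mem_sup.2 ⟨_, hk, _, ⟨(k 0, k 1), ?_, rfl⟩, sub_add_cancel _ _⟩
      have h3 : z ∈ L.tor c := h2
      have h4 := (L.tor c).sub_mem h3 (L.X_le_tor c hk)
      rw [sub_sub_cancel] at h4
      exact h4
    · rintro _ ⟨k, hk, rfl⟩
      exact ⟨mem_gen.2 ⟨![k.1, k.2], by simp [hf]⟩, hk⟩
  rw [e1, AddSubgroup.relIndex_sup_left, ← AddSubgroup.relIndex_comap, ht]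
  refine QBlk1_idx (by omega) e0 c (fun k => ⟨fun hX => hk _ _ fun j => h.mem j _ hX,
    fun hd => add_mem (QBlk1_smul (h.ex 0) hd.1) (QBlk1_smul he hd.2)⟩) fun k => ?_
  rw [AddSubgroup.mem_comap, AddSubgroup.mem_comap, map_nsmul, mem_tor]
  exact and_iff_right (hD k)

theorem idx_sup {D₁ D₂ : AddSubgroup L.W} (h1 : L.X ≤ D₁) (h2 : L.X ≤ D₂) (h1' : D₁ ≤ L.D)
    (h2' : D₂ ≤ L.D) (h : D₁ ⊓ D₂ ≤ L.X) (c : ℕ) :
    L.X.relIndex ((D₁ ⊔ D₂) ⊓ L.tor c) =
      L.X.relIndex (D₁ ⊓ L.tor c) * L.X.relIndex (D₂ ⊓ L.tor c) := by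
  have e1 : (D₁ ⊔ D₂) ⊓ L.tor c = (D₁ ⊓ L.tor c) ⊔ (D₂ ⊓ L.tor c) := by
    refine le_antisymm ?_ (sup_le (inf_le_inf_right _ le_sup_left)
      (inf_le_inf_right _ le_sup_right))
    rintro z ⟨hz, ht⟩
    obtain ⟨a, ha, b, hb, rfl⟩ := AddSubgroup.mem_sup.1 hz
    have h3 : c • a ∈ L.X := h ⟨nsmul_mem ha c, by
      simpa using sub_mem (h2 ht.2) (nsmul_mem hb c)⟩
    exact AddSubgroup.mem_sup.2 ⟨a, ⟨ha, h1' ha, h3⟩, b,
      ⟨hb, h2' hb, by simpa using sub_mem ht.2 h3⟩, rfl⟩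
  have e2 : (D₁ ⊓ L.tor c) ⊓ (D₂ ⊓ L.tor c) = L.X :=
    le_antisymm ((inf_le_inf inf_le_left inf_le_left).trans h)
      (le_inf (le_inf h1 (L.X_le_tor c)) (le_inf h2 (L.X_le_tor c)))
  rw [e1, ← AddSubgroup.relIndex_mul_relIndex L.X (D₁ ⊓ L.tor c) _ (le_inf h1 (L.X_le_tor c))
    le_sup_left, AddSubgroup.relIndex_sup_left, ← AddSubgroup.inf_relIndex_right (D₁ ⊓ L.tor c),
    e2]

end QL

end Pool.Agent.Work.MP_c8d35c_al
end
end

-- merged part: Pool.Agent.Work.MP_c8d35c_al.QFF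
section
-- merged part: Pool.Agent.Work.MP_c8d35c_al.QAvg1
section
/-! The roots at the cusp of a neighbour.

Plan. `z = ((p, -k), v)` is isotropic and nonzero in `U.prod M`. Put
`π ((a, b), x) = p x - a v`; for `y, y'` orthogonal to `z`, `β (π y) (π y') = p^2 β y y'`, and
`π ((0, -β x v / p), x) = p x`, `π z = 0`. Let `T` be the set of `π y` with `y` a root of type
`t ∣ e` orthogonal to `z` (`Rt.norm` replaces any root by such a root, `mem_prod_D`, `U_D`).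
`T` spans `M.W`: otherwise some `u' ≠ 0` is orthogonal to `T`; `u' = π u` with `u ⟂ z`, and
`CuspFull` gives `u = c z`, so `u' = 0`. Choose a basis `b` inside `T`
(`exists_linearIndependent`), `R = b ∪ -b`; `T = -T`. If `p ∣ h`, then `r = μ - (h / p) v` is a
root and `β r v = -h k - b p`. -/

namespace Pool.Agent.Work.MP_c8d35c_al

open Module

namespace QL

theorem QAvg1_span {M : QL} {T : Set M.W} (h : ∀ u, (∀ x ∈ T, M.β x u = 0) → u = 0) :
    ⊤ ≤ Submodule.span ℚ T := by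
  by_contra hne
  obtain ⟨f, hf, hle⟩ := Submodule.exists_le_ker_of_lt_top (Submodule.span ℚ T)
    (lt_top_iff_ne_top.2 fun e => hne e.ge)
  obtain ⟨u, rfl⟩ := (M.β.toDual M.nondeg).surjective f
  refine hf ?_
  rw [h u fun x hx => ?_, map_zero]
  rw [M.symm]
  exact hle (Submodule.subset_span hx)

theorem QAvg1_fin {M : QL} {T : Set M.W} (h : ⊤ ≤ Submodule.span ℚ T)
    (hn : ∀ x ∈ T, -x ∈ T) : ∃ R : Finset M.W, 2 * M.N ≤ R.card ∧ ∀ x ∈ R, x ∈ T := by
  classical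
  obtain ⟨ι, b, hb⟩ : ∃ (ι : Type) (b : Basis ι ℚ M.W), ∀ i, b i ∈ T :=
    ⟨_, Basis.ofSpan h, fun i => Basis.ofSpan_subset h ⟨i, rfl⟩⟩
  have := FiniteDimensional.fintypeBasisIndex b
  have key : ∀ i j, b i ≠ -b j := by
    intro i j hij
    have h1 := congrArg (fun x => b.repr x i) hij
    simp only [Basis.repr_self, map_neg, Finsupp.coe_neg, Pi.neg_apply, Finsupp.single_eq_same,
      Finsupp.single_apply] at h1
    split_ifs at h1 <;> norm_num at h1
  have inj : Function.Injective (Sum.elim b fun i => -b i : ι ⊕ ι → M.W) := by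
    rintro (i | i) (j | j) hij
    · exact congrArg Sum.inl (b.injective hij)
    · exact (key i j hij).elim
    · exact (key j i hij.symm).elim
    · exact congrArg Sum.inr (b.injective (neg_injective hij))
  refine ⟨Finset.univ.image (Sum.elim b fun i => -b i : ι ⊕ ι → M.W), ?_, fun x hx => ?_⟩
  · rw [Finset.card_image_of_injective _ inj, Finset.card_univ, Fintype.card_sum, N,
      finrank_eq_card_basis b, two_mul]
  · obtain ⟨i | i, -, rfl⟩ := Finset.mem_image.1 hx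
    · exact hb i
    · exact hn _ (hb i)

theorem QAvg1_β {M : QL} (a b c d : ℚ) (x y : M.W) :
    (U.prod M).β ((a, b), x) ((c, d), y) = a * d + b * c + M.β x y := rfl

theorem QAvg1_two (L : QL) (x y : L.W) : L.β (2 • x) y = 2 * L.β x y := by
  rw [map_nsmul, LinearMap.smul_apply, nsmul_eq_mul, Nat.cast_ofNat]

theorem QAvg1_root {M : QL} {p : ℕ} (hp : p ≠ 0) {v : M.W} (hv : v ∈ M.X) {k : ℤ}
    (hk : M.β v v = 2 * (p * k)) {a b : ℚ} {μ : M.W} {t : ℕ}
    (hy : (U.prod M).Rt ((a, b), μ) t)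
    (hz : (U.prod M).β ((a, b), μ) (((p : ℚ), -(k : ℚ)), v) = 0) :
    (p : ℚ) • μ - a • v ∈ M.D ∧ t • ((p : ℚ) • μ - a • v) ∈ M.X ∧
      (t : ℚ) * M.β ((p : ℚ) • μ - a • v) ((p : ℚ) • μ - a • v) = 2 * (p ^ 2 : ℕ) ∧
      ∃ h : ℤ, (∃ μ' ∈ M.D, (p : ℚ) • μ - a • v = p • μ' - h • v) ∧
        ((p : ℤ) ∣ h → ∃ r, M.Rt r t ∧ ∃ z : ℤ, M.β r v = p * z) := by
  obtain ⟨hD, hX, h2⟩ := hy
  obtain ⟨hD1, hD2⟩ := (mem_prod_D (L := U) (M := M) (x := ((a, b), μ))).1 hD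
  rw [U_D] at hD1
  obtain ⟨⟨a, rfl⟩, b, rfl⟩ : (∃ z : ℤ, a = z) ∧ ∃ z : ℤ, b = z := mem_U_X.1 hD1
  have hX2 : t • μ ∈ M.X := hX.2
  have hD2 : μ ∈ M.D := hD2
  rw [QAvg1_β] at h2 hz
  have hp' : (p : ℚ) ≠ 0 := Nat.cast_ne_zero.2 hp
  have e1 : (p : ℚ) • μ - (a : ℚ) • v = p • μ - a • v := by
    rw [Nat.cast_smul_eq_nsmul, Int.cast_smul_eq_zsmul]
  refine ⟨?_, ?_, ?_, a, ⟨μ, hD2, e1⟩, ?_⟩
  · rw [e1]
    exact sub_mem (nsmul_mem hD2 p) (zsmul_mem (M.X_le_D hv) a)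
  · rw [e1, smul_sub, smul_comm t p]
    exact sub_mem (nsmul_mem hX2 p) (nsmul_mem (zsmul_mem hv a) t)
  · simp only [map_sub, map_smul, LinearMap.sub_apply, LinearMap.smul_apply, smul_eq_mul, hk,
      M.symm v μ]
    push_cast
    linear_combination (p : ℚ) ^ 2 * h2 - 2 * t * p * a * hz
  · rintro ⟨c, rfl⟩
    have hβ : M.β μ v = p * c * k - b * p := by
      push_cast at hz
      linear_combination hz
    refine ⟨μ - c • v, ⟨sub_mem hD2 (zsmul_mem (M.X_le_D hv) c), ?_, ?_⟩, -(c * k) - b, ?_⟩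
    · rw [smul_sub]
      exact sub_mem hX2 (nsmul_mem (zsmul_mem hv c) t)
    · simp only [map_sub, map_zsmul, LinearMap.sub_apply, LinearMap.smul_apply, zsmul_eq_mul, hk,
        M.symm v μ, hβ]
      push_cast at h2
      linear_combination h2
    · simp only [map_sub, map_zsmul, LinearMap.sub_apply, LinearMap.smul_apply, zsmul_eq_mul, hk,
        hβ]
      push_cast
      ring

theorem nbr_roots {M : QL} (h : (U.prod M).CuspFull) {e : ℕ} (he : ∀ y ∈ M.D, e • y ∈ M.X)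
    {p : ℕ} (hp : p ≠ 0) {v : M.W} (hv : v ∈ M.X) {k : ℤ} (hk : M.β v v = 2 * (p * k)) :
    ∃ R : Finset M.W, 2 * M.N ≤ R.card ∧ ∀ x ∈ R, ∃ t : ℕ, t ∣ e ∧ x ∈ M.D ∧ t • x ∈ M.X ∧
      (t : ℚ) * M.β x x = 2 * (p ^ 2 : ℕ) ∧ ∃ h : ℤ, (∃ μ ∈ M.D, x = p • μ - h • v) ∧
        ((p : ℤ) ∣ h → ∃ r, M.Rt r t ∧ ∃ z : ℤ, M.β r v = p * z) := by
  have hp' : (p : ℚ) ≠ 0 := Nat.cast_ne_zero.2 hp
  refine QAvg1_fin (T := {x | ∃ t : ℕ, t ∣ e ∧ x ∈ M.D ∧ t • x ∈ M.X ∧
      (t : ℚ) * M.β x x = 2 * (p ^ 2 : ℕ) ∧ ∃ h : ℤ, (∃ μ ∈ M.D, x = p • μ - h • v) ∧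
        ((p : ℤ) ∣ h → ∃ r, M.Rt r t ∧ ∃ z : ℤ, M.β r v = p * z)}) (QAvg1_span fun u hu => ?_) ?_
  · have hz0 : ((((p : ℚ), -(k : ℚ)), v) : (U.prod M).W) ≠ 0 := fun e =>
      hp' (congrArg (fun x : (ℚ × ℚ) × M.W => x.1.1) e)
    have key : ∀ (y : (U.prod M).W) (t : ℕ), t ∣ e → (U.prod M).Rt y t →
        (U.prod M).β y (((p : ℚ), -(k : ℚ)), v) = 0 →
        (U.prod M).β y (((0 : ℚ), -M.β u v / p), u) = 0 := by
      rintro ⟨⟨a, b⟩, μ⟩ t ht hy hz
      have h1 := hu _ ⟨t, ht, QAvg1_root hp hv hk hy hz⟩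
      simp only [map_sub, map_smul, LinearMap.sub_apply, LinearMap.smul_apply, smul_eq_mul,
        M.symm v u] at h1
      rw [QAvg1_β]
      field_simp
      linear_combination h1
    obtain ⟨c, hc⟩ := h (((p : ℚ), -(k : ℚ)), v) (((0 : ℚ), -M.β u v / p), u) hz0
      (by rw [QAvg1_β, hk]; ring) (by rw [QAvg1_β]; field_simp; ring) (by
        intro y t hy hz
        obtain ⟨hD1, hD2⟩ := (mem_prod_D (L := U) (M := M) (x := y)).1 hy.1
        rw [U_D] at hD1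
        rcases hy.norm (e := e) ⟨nsmul_mem hD1 e, he _ hD2⟩ with ht | ⟨t', ht', hy'⟩
        · exact key y t ht hy hz
        · have h1 := key _ t' ht' hy' ((QAvg1_two _ _ _).trans (by linear_combination 2 * hz))
          have h2 := (QAvg1_two _ _ _).symm.trans h1
          linear_combination (1 / 2) * h2)
    have h1 : (0 : ℚ) = c * p := congrArg (fun x : (ℚ × ℚ) × M.W => x.1.1) hc
    have h2 : u = c • v := congrArg (fun x : (ℚ × ℚ) × M.W => x.2) hc
    rw [h2, (mul_eq_zero.1 h1.symm).resolve_right hp', zero_smul]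
  · rintro x ⟨t, ht, hD, hX, h2, a, ⟨μ, hμ, hx⟩, hr⟩
    refine ⟨t, ht, neg_mem hD, by rw [smul_neg]; exact neg_mem hX, by simpa using h2, -a,
      ⟨-μ, neg_mem hμ, ?_⟩, fun hd => hr ((dvd_neg).1 hd)⟩
    rw [hx, smul_neg, neg_smul]
    abel

end QL

end Pool.Agent.Work.MP_c8d35c_al
end

-- merged part: Pool.Agent.Work.MP_c8d35c_al.QFF
section
/-! Quadratic forms over prime fields.

Plan. `cw3`: Chevalley-Warning (`char_dvd_card_solutions`) for the polynomial of degree at most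
two in three variables over `ZMod p`; zero is a solution.
`ff_family`: `u ≠ 0` with `B u u = 0` (from `cw3` or Chevalley-Warning), `H = {w | B w u = -1}`
has `p^(m-1)` elements, `S = {v ∈ H | B v v = 0}`, and `S × ZMod p → H`, ` (v, s) ↦ v + s u` is a
bijection (inverse through `ψ w = w + (B w w / 2) u`). If `h v = h' v'`, pair with `u`.
For `r` with `B r r ≠ 0` count the `w ∈ H` with `B (ψ w) r = 0`: there is `d ≠ 0` with
`B d u = 0` such that `s ↦ B (ψ (w + s d)) r` is a nonconstant polynomial of degree at most two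
for every `w` (if `B u r ≠ 0` take `B d d ≠ 0`, possible since `B` does not vanish on the
orthogonal complement of `u`, of dimension `m - 1 ≥ 2`; if `B u r = 0` take `d = r`); so at most
`2 / p` of the points of `H` are counted (count pairs ` (w, s)`). -/

namespace Pool.Agent.Work.MP_c8d35c_al

open Matrix

lemma QFF_iso {p m : ℕ} [Fact p.Prime] (hm : 3 ≤ m) (G : Matrix (Fin m) (Fin m) (ZMod p)) :
    ∃ u : Fin m → ZMod p, u ≠ 0 ∧ u ⬝ᵥ G *ᵥ u = 0 := by
  classical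
  let q : MvPolynomial (Fin m) (ZMod p) :=
    ∑ i, ∑ j, MvPolynomial.X i * (MvPolynomial.C (G i j) * MvPolynomial.X j)
  have hq : ∀ x : Fin m → ZMod p, MvPolynomial.eval x q = x ⬝ᵥ G *ᵥ x := fun x => by
    simp [q, dotProduct, mulVec, Finset.mul_sum]
  have hdeg : q.totalDegree < Fintype.card (Fin m) := by
    have : q.totalDegree ≤ 2 := by
      refine MvPolynomial.totalDegree_finsetSum_le fun i _ => ?_
      refine MvPolynomial.totalDegree_finsetSum_le fun j _ => ?_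
      refine (MvPolynomial.totalDegree_mul _ _).trans ?_
      have := MvPolynomial.totalDegree_mul (MvPolynomial.C (G i j))
        (MvPolynomial.X j : MvPolynomial (Fin m) (ZMod p))
      rw [MvPolynomial.totalDegree_C, MvPolynomial.totalDegree_X] at this
      rw [MvPolynomial.totalDegree_X]
      omega
    rw [Fintype.card_fin]
    omega
  have hdvd := char_dvd_card_solutions (K := ZMod p) p hdeg
  by_contra hn
  push Not at hn
  have h1 : Fintype.card {x : Fin m → ZMod p // MvPolynomial.eval x q = 0} = 1 := by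
    refine Fintype.card_eq_one_iff.2 ⟨⟨0, by rw [hq]; simp⟩, fun x => Subtype.ext ?_⟩
    by_contra hx
    exact hn x.1 hx ((hq _).symm.trans x.2)
  rw [h1] at hdvd
  exact (Fact.out : p.Prime).one_lt.ne' (Nat.dvd_one.1 hdvd)

theorem cw3 {p : ℕ} (hp : p.Prime) (a b c d e f : ℤ) : ∃ x y z : ℤ,
    ¬((p : ℤ) ∣ x ∧ (p : ℤ) ∣ y ∧ (p : ℤ) ∣ z) ∧
      (p : ℤ) ∣ a * x ^ 2 + b * y ^ 2 + c * z ^ 2 + d * x * y + e * x * z + f * y * z := by
  have : Fact p.Prime := ⟨hp⟩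
  obtain ⟨u, hu, h0⟩ := QFF_iso (p := p) (m := 3) le_rfl
    !![(a : ZMod p), d, e; 0, b, f; 0, 0, c]
  obtain ⟨x, hx⟩ := ZMod.intCast_surjective (u 0)
  obtain ⟨y, hy⟩ := ZMod.intCast_surjective (u 1)
  obtain ⟨z, hz⟩ := ZMod.intCast_surjective (u 2)
  refine ⟨x, y, z, ?_, ?_⟩
  · rintro ⟨h1, h2, h3⟩
    rw [← ZMod.intCast_zmod_eq_zero_iff_dvd] at h1 h2 h3
    apply hu
    funext i
    fin_cases i
    · exact hx.symm.trans h1
    · exact hy.symm.trans h2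
    · exact hz.symm.trans h3
  · rw [← ZMod.intCast_zmod_eq_zero_iff_dvd]
    push_cast
    rw [hx, hy, hz, ← h0]
    simp [dotProduct, mulVec, Fin.sum_univ_three]
    ring

lemma QFF_count {K V : Type} [Field K] [Fintype K] [AddCommGroup V] [Module K V]
    [DecidableEq V] (A : Finset V) (d : V) (hA : ∀ w ∈ A, ∀ s : K, w + s • d ∈ A)
    (P : V → Prop) [DecidablePred P] :
    Fintype.card K * (A.filter P).card =
      ∑ w ∈ A, (Finset.univ.filter fun s : K => P (w + s • d)).card := by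
  have e : ∀ s : K, (A.filter P).card = (A.filter fun w => P (w + s • d)).card := fun s => by
    symm
    refine Finset.card_bij (fun w _ => w + s • d) (fun w hw => ?_) (fun w _ w' _ h => ?_)
      fun w hw => ⟨w + (-s) • d, ?_, ?_⟩
    · rw [Finset.mem_filter] at hw ⊢
      exact ⟨hA w hw.1 s, hw.2⟩
    · exact add_right_cancel h
    · rw [Finset.mem_filter] at hw ⊢
      refine ⟨hA w hw.1 _, ?_⟩
      rw [neg_smul, neg_add_cancel_right]
      exact hw.2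
    · rw [neg_smul, neg_add_cancel_right]
  calc Fintype.card K * (A.filter P).card = ∑ _s : K, (A.filter P).card := by simp
    _ = ∑ s : K, (A.filter fun w => P (w + s • d)).card := Finset.sum_congr rfl fun s _ => e s
    _ = _ := by
      simp only [Finset.card_filter]
      exact Finset.sum_comm

lemma QFF_lin {K : Type} [Field K] [Fintype K] [DecidableEq K] {b c : K} (hb : b ≠ 0)
    (P : K → Prop) [DecidablePred P] (hP : ∀ s, P s ↔ b * s + c = 0) :
    (Finset.univ.filter P).card = 1 := by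
  refine Finset.card_eq_one.2 ⟨-c / b, ?_⟩
  ext s
  rw [Finset.mem_filter, Finset.mem_singleton, hP, eq_div_iff hb]
  constructor
  · rintro ⟨-, h⟩
    linear_combination h
  · intro h
    exact ⟨Finset.mem_univ _, by linear_combination h⟩

lemma QFF_quad {K : Type} [Field K] [Fintype K] [DecidableEq K] {a b c : K} (ha : a ≠ 0)
    (P : K → Prop) [DecidablePred P] (hP : ∀ s, P s → a * s ^ 2 + b * s + c = 0) :
    (Finset.univ.filter P).card ≤ 2 := by
  have hq : (Polynomial.C a * Polynomial.X ^ 2 + Polynomial.C b * Polynomial.X +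
      Polynomial.C c).natDegree = 2 := Polynomial.natDegree_quadratic ha
  rw [← hq]
  refine Polynomial.card_le_degree_of_subset_roots fun s hs => ?_
  rw [Polynomial.mem_roots (by rintro h; rw [h] at hq; simp at hq)]
  have := hP s (Finset.mem_filter.1 hs).2
  simpa using this

lemma QFF_main {p m : ℕ} [Fact p.Prime] (h2 : p ≠ 2) (hm : 3 ≤ m)
    (B : LinearMap.BilinForm (ZMod p) (Fin m → ZMod p)) (hs : ∀ x y, B x y = B y x)
    (nd : ∀ x, (∀ y, B x y = 0) → x = 0) {u : Fin m → ZMod p} (hu : u ≠ 0) (h0 : B u u = 0) :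
    ∃ S : Finset (Fin m → ZMod p), S.card = p ^ (m - 2) ∧ (∀ v ∈ S, B v v = 0) ∧
      (∀ v ∈ S, ∀ v' ∈ S, ∀ h h' : ZMod p, h ≠ 0 → h • v = h' • v' → v = v') ∧
      (∀ v ∈ S, v ≠ 0) ∧
      ∀ r : Fin m → ZMod p, B r r ≠ 0 →
        (S.filter fun v => B r v = 0).card ≤ 2 * p ^ (m - 3) := by
  classical
  have hp : p.Prime := Fact.out
  have two : (2 : ZMod p) ≠ 0 := by
    intro h
    have : ((2 : ℕ) : ZMod p) = 0 := by exact_mod_cast h
    rw [ZMod.natCast_eq_zero_iff] at this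
    exact h2 ((Nat.prime_dvd_prime_iff_eq hp Nat.prime_two).1 this)
  obtain ⟨k, rfl⟩ : ∃ k, m = k + 3 := ⟨m - 3, by omega⟩
  have cK : Fintype.card (ZMod p) = p := ZMod.card p
  obtain ⟨e, he⟩ : ∃ e, B e u = 1 := by
    by_contra hn
    push Not at hn
    refine hu (nd u fun y => ?_)
    by_contra hy
    refine hn ((B u y)⁻¹ • y) ?_
    rw [map_smul, LinearMap.smul_apply, hs y u, smul_eq_mul, inv_mul_cancel₀ hy]
  have hH : ∀ c : ZMod p, (Finset.univ.filter fun w => B w u = c).card = p ^ (k + 2) := by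
    intro c
    have := QFF_count (K := ZMod p) (Finset.univ : Finset (Fin (k + 3) → ZMod p)) e
      (fun _ _ _ => Finset.mem_univ _) fun w => B w u = c
    rw [Finset.sum_congr rfl fun w _ => QFF_lin (b := 1) (c := B w u - c) one_ne_zero _ fun s => by
      simp only [map_add, map_smul, LinearMap.add_apply, LinearMap.smul_apply, he, smul_eq_mul]
      constructor <;> intro h <;> linear_combination h] at this
    simp only [Finset.sum_const, Finset.card_univ, Fintype.card_pi, cK, Finset.prod_const,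
      Fintype.card_fin, smul_eq_mul, mul_one] at this
    refine Nat.eq_of_mul_eq_mul_left hp.pos ?_
    rw [this]
    ring
  have sq : ∀ (w d : Fin (k + 3) → ZMod p) (s : ZMod p),
      B (w + s • d) (w + s • d) = B w w + 2 * s * B w d + s ^ 2 * B d d := fun w d s => by
    simp only [map_add, map_smul, LinearMap.add_apply, LinearMap.smul_apply, smul_eq_mul, hs d w]
    ring
  have lft : ∀ (w d x : Fin (k + 3) → ZMod p) (s : ZMod p),
      B (w + s • d) x = B w x + s * B d x := fun w d x s => by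
    simp only [map_add, map_smul, LinearMap.add_apply, LinearMap.smul_apply, smul_eq_mul]
  have rgt : ∀ (w d x : Fin (k + 3) → ZMod p) (s : ZMod p),
      B x (w + s • d) = B x w + s * B x d := fun w d x s => by
    simp only [map_add, map_smul, smul_eq_mul]
  have hiso : ∀ A : Finset (Fin (k + 3) → ZMod p), (∀ w ∈ A, B w u = -1) →
      (∀ w ∈ A, ∀ s : ZMod p, w + s • u ∈ A) →
      p * (A.filter fun w => B w w = 0).card = A.card := by
    intro A hA hA'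
    have := QFF_count (K := ZMod p) A u hA' fun w => B w w = 0
    rw [Finset.sum_congr rfl fun w hw => QFF_lin (b := -2) (c := B w w) (neg_ne_zero.2 two) _
      fun s => by
        simp only [sq, hA w hw, h0]
        constructor <;> intro h <;> linear_combination h] at this
    simpa only [Finset.sum_const, cK, smul_eq_mul, mul_one] using this
  set H := Finset.univ.filter fun w => B w u = -1 with hHd
  have mH : ∀ w, w ∈ H ↔ B w u = -1 := fun w => by simp [hHd]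
  have tH : ∀ d, B d u = 0 → ∀ w ∈ H, ∀ s : ZMod p, w + s • d ∈ H := fun d hd w hw s => by
    rw [mH] at hw ⊢
    rw [lft, hw, hd, mul_zero, add_zero]
  have cH : H.card = p ^ (k + 2) := hH (-1)
  obtain ⟨d, hd, hd'⟩ : ∃ d, B d u = 0 ∧ B d d ≠ 0 := by
    by_contra hn
    push Not at hn
    have pol : ∀ x y, B x u = 0 → B y u = 0 → B x y = 0 := fun x y hx hy => by
      have h1 := hn (x + (1 : ZMod p) • y) (by rw [lft, hx, hy]; ring)
      rw [sq, hn x hx, hn y hy] at h1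
      refine (mul_eq_zero.1 (?_ : 2 * B x y = 0)).resolve_left two
      linear_combination h1
    have sub : (Finset.univ.filter fun w => B w u = 0) ⊆
        Finset.univ.image fun c : ZMod p => c • u := by
      intro x hx
      have hx' := (Finset.mem_filter.1 hx).2
      refine Finset.mem_image.2 ⟨B x e, Finset.mem_univ _, ?_⟩
      have : x + (-B x e) • u = 0 := nd _ fun y => by
        have h1 := pol x (y + (-B y u) • e) hx' (by rw [lft, he]; ring)
        rw [rgt] at h1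
        rw [lft, hs u y]
        linear_combination h1
      rw [neg_smul, ← sub_eq_add_neg, sub_eq_zero] at this
      exact this.symm
    have h1 := (Finset.card_le_card sub).trans Finset.card_image_le
    rw [hH, Finset.card_univ, cK] at h1
    have h3 : p ^ 1 < p ^ (k + 2) := Nat.pow_lt_pow_right hp.one_lt (by omega)
    rw [pow_one] at h3
    omega
  refine ⟨H.filter fun w => B w w = 0, ?_, fun v hv => (Finset.mem_filter.1 hv).2, ?_, ?_, ?_⟩
  · refine Nat.eq_of_mul_eq_mul_left hp.pos ?_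
    rw [hiso H (fun w hw => (mH w).1 hw) (tH u h0), cH]
    exact pow_succ' p (k + 1)
  · intro v hv v' hv' h h' hh e'
    have h1 := (mH v).1 (Finset.mem_filter.1 hv).1
    have h3 := (mH v').1 (Finset.mem_filter.1 hv').1
    have h4 := congrArg (fun x => B x u) e'
    simp only [map_smul, LinearMap.smul_apply, smul_eq_mul, h1, h3, mul_neg, mul_one,
      neg_inj] at h4
    rw [← h4] at e'
    exact smul_right_injective _ hh e'
  · rintro v hv rfl
    have h1 := (mH 0).1 (Finset.mem_filter.1 hv).1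
    simp at h1
  · intro r hr
    set T := H.filter fun w => 2 * B r w + B w w * B r u = 0 with hT
    have c1 : p * (T.filter fun w => B w w = 0).card = T.card := by
      refine hiso T (fun w hw => (mH w).1 (Finset.mem_filter.1 hw).1) fun w hw s => ?_
      obtain ⟨h1, h3⟩ := Finset.mem_filter.1 hw
      refine Finset.mem_filter.2 ⟨tH u h0 w h1 s, ?_⟩
      rw [sq, rgt, (mH w).1 h1, h0]
      linear_combination h3
    have c2 : p * T.card ≤ 2 * p ^ (k + 2) := by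
      have key : ∀ d', B d' u = 0 → (∀ w ∈ H, (Finset.univ.filter fun s : ZMod p =>
          2 * B r (w + s • d') + B (w + s • d') (w + s • d') * B r u = 0).card ≤ 2) →
          p * T.card ≤ 2 * p ^ (k + 2) := fun d' h1 h3 => by
        have := QFF_count (K := ZMod p) H d' (tH d' h1)
          fun w => 2 * B r w + B w w * B r u = 0
        rw [cK] at this
        rw [hT, this, ← cH, mul_comm]
        exact Finset.sum_le_card_nsmul _ _ _ h3
      by_cases hru : B r u = 0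
      · refine key r hru fun w _ => ?_
        rw [QFF_lin (b := 2 * B r r) (c := 2 * B r w) (mul_ne_zero two hr) _ fun s => by
          rw [rgt, hru]
          constructor <;> intro h <;> linear_combination h]
        norm_num
      · refine key d hd fun w _ => ?_
        refine QFF_quad (a := B d d * B r u) (b := 2 * B r d + 2 * B w d * B r u)
          (c := 2 * B r w + B w w * B r u) (mul_ne_zero hd' hru) _ fun s h => ?_
        rw [sq, rgt] at h
        linear_combination h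
    have c3 : ((H.filter fun w => B w w = 0).filter fun v => B r v = 0) ⊆
        T.filter fun w => B w w = 0 := by
      intro w hw
      obtain ⟨h1, h3⟩ := Finset.mem_filter.1 hw
      obtain ⟨h4, h5⟩ := Finset.mem_filter.1 h1
      exact Finset.mem_filter.2 ⟨Finset.mem_filter.2 ⟨h4, by rw [h3, h5]; ring⟩, h5⟩
    refine (Finset.card_le_card c3).trans ?_
    refine Nat.le_of_mul_le_mul_left ?_ hp.pos
    refine Nat.le_of_mul_le_mul_left ?_ hp.pos
    rw [c1]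
    refine c2.trans (le_of_eq ?_)
    rw [Nat.add_sub_cancel]
    ring

theorem ff_family {p m : ℕ} [Fact p.Prime] (h2 : p ≠ 2) (hm : 3 ≤ m)
    (G : Matrix (Fin m) (Fin m) (ZMod p)) (hs : ∀ i j, G i j = G j i) (hd : G.det ≠ 0) :
    ∃ S : Finset (Fin m → ZMod p), S.card = p ^ (m - 2) ∧ (∀ v ∈ S, v ⬝ᵥ G *ᵥ v = 0) ∧
      (∀ v ∈ S, ∀ v' ∈ S, ∀ h h' : ZMod p, h ≠ 0 → h • v = h' • v' → v = v') ∧
      (∀ v ∈ S, v ≠ 0) ∧
      ∀ r : Fin m → ZMod p, r ⬝ᵥ G *ᵥ r ≠ 0 →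
        (S.filter fun v => r ⬝ᵥ G *ᵥ v = 0).card ≤ 2 * p ^ (m - 3) := by
  classical
  obtain ⟨u, hu, h0⟩ := QFF_iso hm G
  have hB : ∀ x y, Matrix.toBilin' G x y = x ⬝ᵥ G *ᵥ y := Matrix.toBilin'_apply' G
  have hsym : ∀ x y, Matrix.toBilin' G x y = Matrix.toBilin' G y x := fun x y => by
    simp only [Matrix.toBilin'_apply]
    rw [Finset.sum_comm]
    exact Finset.sum_congr rfl fun i _ => Finset.sum_congr rfl fun j _ => by rw [hs j i]; ring
  have hnd := (LinearMap.BilinForm.nondegenerate_toBilin'_iff_det_ne_zero.2 hd).1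
  have := QFF_main h2 hm (Matrix.toBilin' G) hsym hnd hu ((hB u u).trans h0)
  simpa only [hB] using this

end Pool.Agent.Work.MP_c8d35c_al
end

-- merged part: Pool.Agent.Work.MP_c8d35c_al.QAvg2
section
/-! A family of vectors that are isotropic modulo a prime.

Plan. Take a basis `b` of `X` indexed by `Fin N`, the integral Gram matrix `G` and its reduction
modulo `p`. It is nondegenerate: if `G w ≡ 0` then ` (1/p) ∑ w i b i ∈ D`, so `p ∣ e w i`
(`Matrix.exists_mulVec_eq_zero_iff`). `V` is the image of the set `S` of `ff_family` under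
`w ↦ ∑ (w i).val • b i`. If `h v - h' v' = p μ` with `μ ∈ D` then `p μ ∈ X` and `e μ ∈ X` give
`μ ∈ X`. For a root `r` of type `t ∣ e` use the coordinates of `t r ∈ X`, of norm `2 t`. -/

namespace Pool.Agent.Work.MP_c8d35c_al

open Module

namespace QL

open Matrix in
theorem QAvg2_coord (M : QL) : ∃ (φ : (Fin M.N → ℤ) →ₗ[ℤ] M.W) (G : Matrix (Fin M.N) (Fin M.N) ℤ),
    Function.Injective φ ∧ (∀ x, x ∈ M.X ↔ ∃ m, x = φ m) ∧ (∀ i j, G i j = G j i) ∧
      ∀ m m', M.β (φ m) (φ m') = (m ⬝ᵥ G *ᵥ m' : ℤ) := by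
  obtain ⟨b, hb⟩ := M.full.exists_basis (Fin M.N) (Fintype.card_fin _)
  have h1 : ∀ i, b i ∈ M.X := fun i => hb ▸ AddSubgroup.subset_closure ⟨i, rfl⟩
  choose G hG using fun i j => M.X_le_D (h1 j) (b i) (h1 i)
  refine ⟨Fintype.linearCombination ℤ b, Matrix.of G,
    (b.linearIndependent.restrict_scalars' ℤ).fintypeLinearCombination_injective,
    fun x => hb ▸ mem_closure_basis b x, fun i j => ?_, fun m m' => ?_⟩
  · exact Int.cast_injective (α := ℚ) ((hG i j).symm.trans ((M.symm _ _).trans (hG j i)))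
  · simp only [Fintype.linearCombination_apply, map_sum, map_zsmul, LinearMap.sum_apply,
      LinearMap.smul_apply, hG, dotProduct, mulVec, of_apply, Finset.mul_sum, zsmul_eq_mul]
    push_cast
    rw [Finset.sum_comm]
    exact Finset.sum_congr rfl fun i _ => Finset.sum_congr rfl fun j _ => by ring

theorem QAvg2_mem (M : QL) {e p : ℕ} (he : ∀ y ∈ M.D, e • y ∈ M.X) (hp : p.Prime) (hpe : ¬p ∣ e)
    {μ : M.W} (h : μ ∈ M.D) (h' : p • μ ∈ M.X) : μ ∈ M.X := by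
  have h1 := Nat.gcd_eq_gcd_ab p e
  rw [(hp.coprime_iff_not_dvd.2 hpe).gcd_eq_one, Nat.cast_one] at h1
  rw [← one_zsmul μ, h1, add_zsmul, mul_comm, mul_zsmul, mul_comm, mul_zsmul, natCast_zsmul,
    natCast_zsmul]
  exact add_mem (zsmul_mem h' _) (zsmul_mem (he μ h) _)

open Classical in
theorem iso_family (M : QL) (hN : 3 ≤ M.N) {e : ℕ} (he : ∀ y ∈ M.D, e • y ∈ M.X) {p : ℕ}
    (hp : p.Prime) (h2 : p ≠ 2) (hpe : ¬p ∣ e) :
    ∃ V : Finset M.W, V.card = p ^ (M.N - 2) ∧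
      (∀ v ∈ V, v ∈ M.X ∧ ∃ k : ℤ, M.β v v = 2 * (p * k)) ∧
      (∀ v ∈ V, ∀ v' ∈ V, ∀ h h' : ℤ, ¬(p : ℤ) ∣ h → (∃ μ ∈ M.D, h • v - h' • v' = p • μ) →
        v = v') ∧
      ∀ r t, M.Rt r t → t ∣ e →
        (V.filter fun v => ∃ z : ℤ, M.β r v = p * z).card ≤ 2 * p ^ (M.N - 3) := by
  have := Fact.mk hp
  obtain ⟨φ, G, hi, hX, hs, hβ⟩ := M.QAvg2_coord
  have hp0 : (p : ℚ) ≠ 0 := Nat.cast_ne_zero.2 hp.ne_zero
  have red : ∀ m m' : Fin M.N → ℤ, ((m ⬝ᵥ G.mulVec m' : ℤ) : ZMod p) = (fun i => (m i : ZMod p)) ⬝ᵥ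
      (G.map (Int.cast : ℤ → ZMod p)).mulVec fun i => (m' i : ZMod p) := fun m m' => by
    simp [dotProduct, Matrix.mulVec]
  have key : ∀ m, ∀ μ ∈ M.D, φ m = p • μ → ∀ i, (m i : ZMod p) = 0 := fun m μ h e' i => by
    obtain ⟨m', rfl⟩ := (hX μ).1 (M.QAvg2_mem he hp hpe h (e' ▸ (hX _).2 ⟨m, rfl⟩))
    rw [hi (e'.trans (map_nsmul φ p m').symm)]
    simp
  let ℓ : (Fin M.N → ZMod p) → Fin M.N → ℤ := fun w i => (w i).val
  have hl : ∀ w, (fun i => (ℓ w i : ZMod p)) = w := fun w => by simp [ℓ]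
  have hd : (G.map (Int.cast : ℤ → ZMod p)).det ≠ 0 := fun h => by
    obtain ⟨w, hw, h0⟩ := Matrix.exists_mulVec_eq_zero_iff.2 h
    refine hw ((hl w).symm.trans (funext (key _ ((p : ℚ)⁻¹ • φ (ℓ w)) (fun x hx => ?_) ?_)))
    · obtain ⟨m, rfl⟩ := (hX x).1 hx
      obtain ⟨z, hz⟩ := (ZMod.intCast_zmod_eq_zero_iff_dvd _ p).1
        ((red m (ℓ w)).trans (by rw [hl, h0, dotProduct_zero]))
      exact ⟨z, by rw [map_smul, hβ, hz]; simp [hp0]⟩
    · rw [← Nat.cast_smul_eq_nsmul ℚ, smul_inv_smul₀ hp0]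
  obtain ⟨S, h1, h3, h4, -, h5⟩ := ff_family h2 hN (G.map (Int.cast : ℤ → ZMod p))
    (fun i j => congrArg Int.cast (hs i j)) hd
  have hp' : Prime (p : ℤ) := Nat.prime_iff_prime_int.1 hp
  have hp2 : ¬ p ∣ 2 := fun h => h2 ((Nat.prime_dvd_prime_iff_eq hp Nat.prime_two).1 h)
  refine ⟨S.image fun w => φ (ℓ w), ?_, Finset.forall_mem_image.2 fun w hw => ?_,
    Finset.forall_mem_image.2 fun w hw => Finset.forall_mem_image.2 fun w' hw' h h' hh => ?_,
    fun r t hr ht => ?_⟩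
  · rw [Finset.card_image_of_injective _ fun w w' e' => by rw [← hl w, hi e', hl], h1]
  · refine ⟨(hX _).2 ⟨_, rfl⟩, ?_⟩
    obtain ⟨z, hz⟩ := M.even _ ((hX _).2 ⟨ℓ w, rfl⟩)
    have h6 := (ZMod.intCast_zmod_eq_zero_iff_dvd _ p).1
      ((red (ℓ w) (ℓ w)).trans (by rw [hl, h3 w hw]))
    rw [show ℓ w ⬝ᵥ G.mulVec (ℓ w) = 2 * z by exact_mod_cast (hβ _ _).symm.trans hz] at h6
    obtain ⟨k, rfl⟩ := (hp'.dvd_or_dvd h6).resolve_left (by exact_mod_cast hp2)
    exact ⟨k, by exact_mod_cast hz⟩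
  · rintro ⟨μ, hμ, e'⟩
    have h6 := key (h • ℓ w - h' • ℓ w') μ hμ (by rw [map_sub, map_smul, map_smul, e'])
    rw [h4 w hw w' hw' h h' (mt (ZMod.intCast_zmod_eq_zero_iff_dvd _ p).1 hh)
      (funext fun i => by simpa [ℓ, sub_eq_zero] using h6 i)]
  · obtain ⟨m, hm⟩ := (hX _).1 hr.2.1
    have h6 : m ⬝ᵥ G.mulVec m = (2 * t : ℕ) := by
      have h7 := hβ m m
      simp only [← hm, map_nsmul, LinearMap.smul_apply, nsmul_eq_mul, hr.2.2] at h7
      exact_mod_cast h7.symm.trans (mul_comm _ _)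
    refine le_trans ?_ (h5 (fun i => (m i : ZMod p)) (by
      rw [← red, h6, Int.cast_natCast, Ne, ZMod.natCast_eq_zero_iff]
      exact fun h => (hp.dvd_mul.1 h).elim hp2 fun h => hpe (h.trans ht)))
    rw [Finset.filter_image]
    refine Finset.card_image_le.trans (Finset.card_le_card
      (Finset.monotone_filter_right S fun w _ ⟨z, hz⟩ => ?_))
    have h7 := hβ m (ℓ w)
    rw [← hm, map_nsmul, LinearMap.smul_apply, hz, nsmul_eq_mul] at h7
    rw [← hl w, ← red, show m ⬝ᵥ G.mulVec (ℓ w) = t * (p * z) by exact_mod_cast h7.symm]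
    simp

end QL

end Pool.Agent.Work.MP_c8d35c_al
end

-- merged part: Pool.Agent.Work.MP_c8d35c_al.QAvg3
section
/-! Averaging the number of roots over the neighbours.

Plan. `avg_count`: the set of pairs ` (r, t)` with `Rt r t`, `t ∣ e` is finite (`Sig.finite` for
`D`, norm at most `2`), say of cardinality `ρ`. At most `2 ρ p^(m-3)` elements `v` of the family
`V` (`iso_family`) are bad (`β r v ∈ p ℤ` for such a root). For good `v` the sets `R v` of
`nbr_roots` have `¬ p ∣ h`, hence are pairwise disjoint, and they lie in the union over `t ∣ e` of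
the finite sets counted by `trep t (p^2)`. `C = 4 m ρ`.
`main_ineq`: `trep_eq`, `rep_le` for `typ t` (`Sig.typ`) at `n = p^2`, ` (p^2)^(m/2-1) = p^(m-2)`;
divide by `p^(m-2)`, let the prime `p` tend to infinity and `δ` to zero. -/

namespace Pool.Agent.Work.MP_c8d35c_al

open Module

namespace QL

theorem QAvg3_fin {M : QL} {m : ℕ} (hs : M.Sig m 0) (t n : ℕ) : ∃ S : Finset M.W, t ≠ 0 →
    S.card = M.trep t n ∧ ∀ y, y ∈ S ↔ y ∈ M.D ∧ t • y ∈ M.X ∧ (t : ℚ) * M.β y y = 2 * n := by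
  by_cases ht : t = 0
  · exact ⟨∅, fun h => (h ht).elim⟩
  have h1 : {y : M.W | y ∈ M.D ∧ t • y ∈ M.X ∧ (t : ℚ) * M.β y y = 2 * n}.Finite := by
    refine (hs.finite M.full_D (2 * n)).subset fun y hy => ⟨hy.1, ?_⟩
    have h2 : (1 : ℚ) ≤ t := by exact_mod_cast Nat.pos_of_ne_zero ht
    have h3 := hy.2.2
    have h4 : (0 : ℚ) ≤ n := Nat.cast_nonneg n
    by_contra h5
    linarith only [h3, h5, h2, mul_nonneg_of_nonpos_of_nonpos (Mathlib.Tactic.Linarith.sub_nonpos_of_le (Mathlib.Tactic.Linarith.natCast_nonneg ℚ n)) (Mathlib.Tactic.Linarith.sub_nonpos_of_le h2), mul_nonneg_of_nonpos_of_nonpos (Mathlib.Tactic.Linarith.sub_nonpos_of_le h2) (le_of_lt (Mathlib.Tactic.Linarith.sub_neg_of_lt (lt_of_not_ge h5)))]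
  exact ⟨h1.toFinset, fun _ => ⟨(Set.ncard_eq_toFinset_card _ h1).symm, fun _ => h1.mem_toFinset⟩⟩

theorem avg_count {M : QL} {m : ℕ} (hs : M.Sig m 0) (hm : 3 ≤ m) (h : (U.prod M).CuspFull)
    {e : ℕ} (he0 : e ≠ 0) (he : ∀ y ∈ M.D, e • y ∈ M.X) :
    ∃ C : ℕ, ∀ p : ℕ, p.Prime → p ≠ 2 → ¬p ∣ e →
      2 * m * p ^ (m - 2) ≤ ∑ t ∈ e.divisors, M.trep t (p ^ 2) + C * p ^ (m - 3) := by
  classical
  have hN : M.N = m := by rw [← hs.add, add_zero]
  choose S hS using QAvg3_fin hs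
  refine ⟨2 * m * ((∑ t ∈ e.divisors, M.trep t 1) * 2), fun p hp h2 hpe => ?_⟩
  obtain ⟨V, hV, hV1, hV2, hV3⟩ := M.iso_family (hN ▸ hm) he hp h2 hpe
  rw [hN] at hV hV3
  choose! k hk using fun v hv => (hV1 v hv).2
  choose! R hR hR' using fun v hv => nbr_roots h he hp.ne_zero (hV1 v hv).1 (hk v hv)
  have ht0 : ∀ t ∈ e.divisors, t ≠ 0 := fun t ht => (Nat.pos_of_mem_divisors ht).ne'
  let bad : M.W → Prop := fun v => ∃ r t, M.Rt r t ∧ t ∣ e ∧ ∃ z : ℤ, M.β r v = p * z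
  have h1 : (V.filter bad).card ≤ (∑ t ∈ e.divisors, M.trep t 1) * (2 * p ^ (m - 3)) := by
    have h3 : V.filter bad ⊆ e.divisors.biUnion fun t => (S t 1).biUnion fun r =>
        V.filter fun v => ∃ z : ℤ, M.β r v = p * z := fun v hv => by
      obtain ⟨hv, r, t, hr, ht, hz⟩ := Finset.mem_filter.1 hv
      exact Finset.mem_biUnion.2 ⟨t, Nat.mem_divisors.2 ⟨ht, he0⟩, Finset.mem_biUnion.2
        ⟨r, ((hS t 1 hr.pos).2 r).2 ⟨hr.1, hr.2.1, by simpa using hr.2.2⟩,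
          Finset.mem_filter.2 ⟨hv, hz⟩⟩⟩
    refine (Finset.card_le_card h3).trans (Finset.card_biUnion_le.trans ?_)
    rw [Finset.sum_mul]
    refine Finset.sum_le_sum fun t ht => ?_
    rw [← (hS t 1 (ht0 t ht)).1]
    refine Finset.card_biUnion_le_card_mul _ _ _ fun r hr => ?_
    obtain ⟨a1, a2, a3⟩ := ((hS t 1 (ht0 t ht)).2 r).1 hr
    exact hV3 r t ⟨a1, a2, by simpa using a3⟩ (Nat.dvd_of_mem_divisors ht)
  have h3 : (V.filter fun v => ¬bad v).biUnion R ⊆ e.divisors.biUnion fun t => S t (p ^ 2) :=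
    fun x hx => by
      obtain ⟨v, hv, hx⟩ := Finset.mem_biUnion.1 hx
      obtain ⟨t, ht, a1, a2, a3, -⟩ := hR' v (Finset.mem_filter.1 hv).1 x hx
      have ht' := Nat.mem_divisors.2 ⟨ht, he0⟩
      exact Finset.mem_biUnion.2 ⟨t, ht', ((hS t _ (ht0 t ht')).2 x).2 ⟨a1, a2, a3⟩⟩
  have h4 : ((V.filter fun v => ¬bad v).biUnion R).card =
      ∑ v ∈ V.filter fun v => ¬bad v, (R v).card := by
    refine Finset.card_biUnion fun v hv v' hv' hne => Finset.disjoint_left.2 fun x hx hx' => ?_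
    obtain ⟨hv, hb⟩ := Finset.mem_filter.1 hv
    obtain ⟨hv', -⟩ := Finset.mem_filter.1 hv'
    obtain ⟨t, ht, -, -, -, c, ⟨μ, hμ, e1⟩, hc⟩ := hR' v hv x hx
    obtain ⟨-, -, -, -, -, c', ⟨μ', hμ', e2⟩, -⟩ := hR' v' hv' x hx'
    refine hne (hV2 v hv v' hv' c c' (fun hd => hb ?_) ⟨μ - μ', sub_mem hμ hμ', ?_⟩)
    · obtain ⟨r, hr, hz⟩ := hc hd
      exact ⟨r, t, hr, ht, hz⟩
    · rw [smul_sub, sub_eq_sub_iff_sub_eq_sub, ← neg_sub, ← e1, ← neg_sub (p • μ'), ← e2]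
  have h5 : (V.filter fun v => ¬bad v).card * (2 * m) ≤ ∑ t ∈ e.divisors, M.trep t (p ^ 2) := by
    refine le_trans (Finset.card_nsmul_le_sum _ (fun v => (R v).card) _ fun v hv =>
      hN ▸ hR v (Finset.mem_filter.1 hv).1) ?_
    rw [← h4]
    refine (Finset.card_le_card h3).trans (Finset.card_biUnion_le.trans (le_of_eq ?_))
    exact Finset.sum_congr rfl fun t ht => (hS t _ (ht0 t ht)).1
  have h6 := Finset.card_filter_add_card_filter_not (s := V) bad
  have h7 := Nat.mul_le_mul_left (2 * m) h1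
  rw [← hV, ← h6, mul_add]
  linarith only [h5, h7]

theorem main_ineq {M : QL} {m : ℕ} (hs : M.Sig m 0) (hm : 9 ≤ m) (h : (U.prod M).CuspFull)
    {e : ℕ} (he0 : e ≠ 0) (he : ∀ y ∈ M.D, e • y ∈ M.X) :
    2 * (m : ℝ) ≤ cmc m * ∑ t ∈ e.divisors, (1 + (M.typ t).sg2) / √((M.typ t).a 0 : ℝ) := by
  obtain ⟨C, hC⟩ := avg_count hs (by omega) h he0 he
  refine le_of_forall_pos_le_add fun ε hε => ?_
  have hc : (0 : ℝ) < e.divisors.card + 1 := by positivity
  choose n0 hn0 using fun t : ℕ =>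
    rep_le (hs.typ t) hm (δ := ε / (e.divisors.card + 1)) (by positivity)
  obtain ⟨p, hp1, hp⟩ := Nat.exists_infinite_primes
    (e.divisors.sup n0 + e + 3 + ⌈C / (ε / (e.divisors.card + 1))⌉₊)
  have hp0 : (0 : ℝ) < p := by exact_mod_cast hp.pos
  have h1 : ((2 * m * p ^ (m - 2) : ℕ) : ℝ) ≤
      ((∑ t ∈ e.divisors, M.trep t (p ^ 2) + C * p ^ (m - 3) : ℕ) : ℝ) :=
    Nat.cast_le.2 (hC p hp (by omega) fun hd => by
      have := Nat.le_of_dvd (Nat.pos_of_ne_zero he0) hd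
      omega)
  have h2 : ((p ^ 2 : ℕ) : ℝ) ^ ((m : ℝ) / 2 - 1) = (p : ℝ) ^ (m - 2) := by
    rw [Nat.cast_pow, ← Real.rpow_natCast, ← Real.rpow_mul hp0.le, ← Real.rpow_natCast,
      Nat.cast_sub (by omega)]
    congr 1
    push_cast
    ring
  have h3 : ∑ t ∈ e.divisors, (M.trep t (p ^ 2) : ℝ) ≤ ∑ t ∈ e.divisors,
      (cmc m * ((1 + (M.typ t).sg2) / √((M.typ t).a 0 : ℝ)) + ε / (e.divisors.card + 1)) *
        (p : ℝ) ^ (m - 2) := Finset.sum_le_sum fun t ht => by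
    rw [M.trep_eq (Nat.pos_of_mem_divisors ht).ne', ← h2]
    refine hn0 t _ ?_
    have h4 : n0 t ≤ e.divisors.sup n0 := Finset.le_sup ht
    nlinarith only [hp1, h4]
  have h4 : (C : ℝ) ≤ ε / (e.divisors.card + 1) * p := by
    rw [← div_le_iff₀' (by positivity)]
    exact (Nat.le_ceil _).trans (Nat.cast_le.2 (by omega))
  have h5 : (C : ℝ) * p ^ (m - 3) ≤ ε / (e.divisors.card + 1) * p ^ (m - 2) := by
    rw [show m - 2 = m - 3 + 1 by omega, pow_succ', ← mul_assoc]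
    exact mul_le_mul_of_nonneg_right h4 (by positivity)
  rw [← Finset.sum_mul, Finset.sum_add_distrib, ← Finset.mul_sum, Finset.sum_const,
    nsmul_eq_mul] at h3
  push_cast at h1
  refine le_of_mul_le_mul_right ?_ (pow_pos hp0 (m - 2))
  have h6 : ε = (e.divisors.card + 1) * (ε / (e.divisors.card + 1)) := by field_simp
  generalize ε / (e.divisors.card + 1) = δ at h3 h5 h6
  rw [h6]
  linarith only [h1, h3, h5]

end QL

end Pool.Agent.Work.MP_c8d35c_al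
end
end

-- merged part: Pool.Agent.Work.MP_c8d35c_al.QDiv
section
/-! An isotropic vector that splits off a hyperbolic plane.

Plan. `prim_dual` gives an isotropic `w ∈ D` and `y₀ ∈ X` with `β w y₀ = 1`; let `d > 0` be least
with `d w ∈ X`. `d` is squarefree (`Red.ep`; for `4 ∣ d` apply `four_odd` with `ndOn_D` to
` (d / 4) w`). Call `P k` the statement: there are `y, x ∈ X` and integers `q, b` with
`β w y = 1`, `β y y = 2 q`, `k ∣ q`, `β y x = b` coprime to `k`. `P 1` is clear;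
`P k → P k' → P (k k')` for coprime `k, k'` (take `ε y + ε' y'` with `ε + ε' = 1`, `k' ∣ ε`,
`k ∣ ε'`, the same for `x`). `div_prime` is `P p`: `Z = {x ∈ X | β w x = 0}` satisfies
`X = Z + ℤ y₀`, so the index of `Z ⊓ p D` in `Z` is at least `p^N / (a p * p) ≥ p^3`
(`a_mul_relIndex`); choose `w₁, w₂, w₃ ∈ Z` independent modulo `p D` one after the other
(`p Z ≤ p D`); `cw3` gives `u ∈ Z` outside `p D` with `p ∣ Q u`; so some `x ∈ X` has
`p ∤ β u x`, and we can take `x ∈ {y₀} ∪ (y₀ + Z)`; `y = x + s u` with `s` chosen such that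
`p ∣ Q y`; `β y u ≡ β x u`. Finally `z = y - q w`, `β z (d w) = d`, `β z x ≡ b` modulo `d`;
Bezout gives `f`. -/

namespace Pool.Agent.Work.MP_c8d35c_al

open Module

theorem QDiv_idx {W : Type} [AddCommGroup W] {X A : AddSubgroup W} {p : ℕ} (hp : 0 < p)
    (hA : ∀ x ∈ X, (p : ℤ) • x ∈ A) {v1 v2 v3 : W} (h1 : v1 ∈ X) (h2 : v2 ∈ X) (h3 : v3 ∈ X)
    (h : ∀ x ∈ X, ∃ c1 c2 c3 : ℤ, x - (c1 • v1 + c2 • v2 + c3 • v3) ∈ A) :
    A.relIndex X ≤ p ^ 3 := by
  have hp' : (0 : ℤ) < p := by exact_mod_cast hp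
  let r : ℤ → Fin p := fun c => ⟨(c % p).toNat, by
    have := Int.emod_lt_of_pos c hp'
    have := Int.emod_nonneg c hp'.ne'
    omega⟩
  have hr : ∀ c : ℤ, ((r c : ℕ) : ℤ) = c - p * (c / p) := fun c => by
    have := Int.emod_nonneg c hp'.ne'
    have h4 := Int.emod_add_mul_ediv c p
    simp only [r]
    omega
  let f : Fin p × Fin p × Fin p → X ⧸ A.addSubgroupOf X := fun c =>
    QuotientAddGroup.mk ⟨((c.1 : ℕ) : ℤ) • v1 + ((c.2.1 : ℕ) : ℤ) • v2 + ((c.2.2 : ℕ) : ℤ) • v3,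
      add_mem (add_mem (zsmul_mem h1 _) (zsmul_mem h2 _)) (zsmul_mem h3 _)⟩
  have hf : Function.Surjective f := by
    intro q
    obtain ⟨⟨x, hx⟩, rfl⟩ := QuotientAddGroup.mk_surjective q
    obtain ⟨c1, c2, c3, hc⟩ := h x hx
    refine ⟨(r c1, r c2, r c3), QuotientAddGroup.eq.2 ?_⟩
    rw [AddSubgroup.mem_addSubgroupOf]
    have h5 := add_mem hc (hA _ (add_mem (add_mem (zsmul_mem h1 (c1 / p)) (zsmul_mem h2 (c2 / p)))
      (zsmul_mem h3 (c3 / p))))
    convert h5 using 1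
    simp only [AddSubgroup.coe_add, AddSubgroup.coe_neg, hr]
    module
  have h6 := Nat.card_le_card_of_surjective f hf
  rw [Nat.card_prod, Nat.card_prod, Nat.card_fin] at h6
  exact h6.trans (le_of_eq (by ring))

theorem QDiv_inv {p : ℕ} (hp : p.Prime) {c : ℤ} (hc : ¬(p : ℤ) ∣ c) :
    ∃ m k : ℤ, m * c + k * p = 1 :=
  ((Nat.prime_iff_prime_int.1 hp).irreducible.coprime_iff_not_dvd.2 hc).symm

theorem QDiv_kill {W : Type} [AddCommGroup W] {X A : AddSubgroup W} {p : ℕ} (hp : p.Prime)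
    (hA : ∀ x ∈ X, (p : ℤ) • x ∈ A) {w v1 v2 : W} (hw : w ∈ X)
    (h : ∀ c1 c2 : ℤ, w - (c1 • v1 + c2 • v2) ∉ A) {c1 c2 c : ℤ}
    (hc : c1 • v1 + c2 • v2 + c • w ∈ A) : (p : ℤ) ∣ c ∧ c1 • v1 + c2 • v2 ∈ A := by
  have h1 : (p : ℤ) ∣ c := by
    by_contra h1
    obtain ⟨m, k, e⟩ := QDiv_inv hp h1
    refine h (-(m * c1)) (-(m * c2)) ?_
    convert add_mem (zsmul_mem hc m) (zsmul_mem (hA w hw) k) using 1
    have : w = (m * c + k * p) • w := by rw [e, one_smul]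
    conv_lhs => rw [this]
    module
  refine ⟨h1, ?_⟩
  obtain ⟨k, rfl⟩ := h1
  convert sub_mem hc (zsmul_mem (hA w hw) k) using 1
  module

namespace QL

theorem QDiv_int (L : QL) {x y : L.W} (hx : x ∈ L.X) (hy : y ∈ L.D) : ∃ z : ℤ, L.β y x = z := by
  rw [L.symm]
  exact hy x hx

theorem div_prime (L : QL) {p : ℕ} (hp : p.Prime) (ha : L.a p * p ^ 4 ≤ p ^ L.N) {w y0 : L.W}
    (hw : w ∈ L.D) (hy0 : y0 ∈ L.X) (h1 : L.β w y0 = 1) :
    ∃ y ∈ L.X, ∃ x ∈ L.X, ∃ q b : ℤ, L.β w y = 1 ∧ L.β y y = 2 * q ∧ (p : ℤ) ∣ q ∧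
      L.β y x = b ∧ ¬(p : ℤ) ∣ b := by
  have hp0 : (p : ℚ) ≠ 0 := Nat.cast_ne_zero.2 hp.ne_zero
  set A := L.X ⊓ sc p L.D with hAdef
  have hA : ∀ x ∈ L.X, (p : ℤ) • x ∈ A := fun x hx =>
    ⟨zsmul_mem hx _, mem_sc.2 ⟨x, L.X_le_D hx, by rw [natCast_zsmul, Nat.cast_smul_eq_nsmul]⟩⟩
  have hI : p ^ 4 ≤ A.relIndex L.X := by
    rw [← L.a_mul_relIndex hp.ne_zero] at ha
    exact Nat.le_of_mul_le_mul_left ha (Nat.pos_of_ne_zero (L.a_ne_zero p))
  have hZ : ∀ x ∈ L.X, ∃ n : ℤ, L.β w (x - n • y0) = 0 := fun x hx => by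
    obtain ⟨n, hn⟩ := L.QDiv_int hx hw
    exact ⟨n, by rw [map_sub, map_zsmul, hn, h1]; simp⟩
  have ext : ∀ v1 ∈ L.X, ∀ v2 ∈ L.X, ∃ u ∈ L.X, L.β w u = 0 ∧
      ∀ c1 c2 : ℤ, u - (c1 • v1 + c2 • v2) ∉ A := by
    intro v1 hv1 v2 hv2
    by_contra hc
    push Not at hc
    have h2 := QDiv_idx hp.pos hA hv1 hv2 hy0 fun x hx => by
      obtain ⟨n, hn⟩ := hZ x hx
      obtain ⟨c1, c2, h3⟩ := hc _ (sub_mem hx (zsmul_mem hy0 n)) hn
      refine ⟨c1, c2, n, ?_⟩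
      convert h3 using 1
      abel
    exact absurd (hI.trans h2) (not_le.2 (Nat.pow_lt_pow_right hp.one_lt (by norm_num)))
  obtain ⟨w1, m1, z1, i1⟩ := ext 0 (zero_mem _) 0 (zero_mem _)
  obtain ⟨w2, m2, z2, i2⟩ := ext w1 m1 0 (zero_mem _)
  obtain ⟨w3, m3, z3, i3⟩ := ext w1 m1 w2 m2
  obtain ⟨q1, e1⟩ := L.even w1 m1
  obtain ⟨q2, e2⟩ := L.even w2 m2
  obtain ⟨q3, e3⟩ := L.even w3 m3
  obtain ⟨b12, e12⟩ := L.QDiv_int m2 (L.X_le_D m1)
  obtain ⟨b13, e13⟩ := L.QDiv_int m3 (L.X_le_D m1)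
  obtain ⟨b23, e23⟩ := L.QDiv_int m3 (L.X_le_D m2)
  obtain ⟨c1, c2, c3, hnd, hq⟩ := cw3 hp q1 q2 q3 b12 b13 b23
  set qu := q1 * c1 ^ 2 + q2 * c2 ^ 2 + q3 * c3 ^ 2 + b12 * c1 * c2 + b13 * c1 * c3 +
    b23 * c2 * c3 with hqu
  set u := c1 • w1 + c2 • w2 + c3 • w3 with hu
  have mu : u ∈ L.X := add_mem (add_mem (zsmul_mem m1 _) (zsmul_mem m2 _)) (zsmul_mem m3 _)
  have zu : L.β w u = 0 := by simp only [hu, map_add, map_zsmul, z1, z2, z3, smul_zero, add_zero]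
  have eu : L.β u u = 2 * qu := by
    simp only [hu, hqu, map_add, map_zsmul, LinearMap.add_apply, LinearMap.smul_apply,
      L.symm w2 w1, L.symm w3 w1, L.symm w3 w2, e1, e2, e3, e12, e13, e23, zsmul_eq_mul]
    push_cast
    ring
  have nu : u ∉ A := by
    intro h
    obtain ⟨d3, h⟩ := QDiv_kill hp hA m3 i3 h
    obtain ⟨d2, h⟩ := QDiv_kill hp hA m2 i2 (c1 := c1) (c2 := 0) (c := c2) (by simpa using h)
    obtain ⟨d1, -⟩ := QDiv_kill hp hA m1 i1 (c1 := 0) (c2 := 0) (c := c1) (by simpa using h)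
    exact hnd ⟨d1, d2, d3⟩
  obtain ⟨x, mx, b, eb, hb⟩ : ∃ x ∈ L.X, ∃ b : ℤ, L.β u x = b ∧ ¬(p : ℤ) ∣ b := by
    by_contra hc
    push Not at hc
    refine nu ⟨mu, mem_sc.2 ⟨(p : ℚ)⁻¹ • u, fun x hx => ?_, by rw [smul_inv_smul₀ hp0]⟩⟩
    obtain ⟨b, eb⟩ := L.QDiv_int hx (L.X_le_D mu)
    obtain ⟨k, rfl⟩ := hc x hx b eb
    refine ⟨k, ?_⟩
    rw [map_smul, L.symm, eb, smul_eq_mul]
    push_cast
    rw [inv_mul_cancel_left₀ hp0]
  obtain ⟨x, mx, zx, b, eb, hb⟩ : ∃ x ∈ L.X, L.β w x = 1 ∧ ∃ b : ℤ, L.β u x = b ∧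
      ¬(p : ℤ) ∣ b := by
    obtain ⟨b0, e0⟩ := L.QDiv_int hy0 (L.X_le_D mu)
    by_cases h0 : (p : ℤ) ∣ b0
    · obtain ⟨n, hn⟩ := hZ x mx
      refine ⟨x - n • y0 + y0, add_mem (sub_mem mx (zsmul_mem hy0 n)) hy0,
        by rw [map_add, hn, h1, zero_add], b - n * b0 + b0, ?_, fun h => hb ?_⟩
      · rw [map_add, map_sub, map_zsmul, eb, e0, zsmul_eq_mul]
        push_cast
        ring
      · have := (h.sub h0).add (h0.mul_left n)
        rwa [add_sub_cancel_right, sub_add_cancel] at this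
    · exact ⟨y0, hy0, h1, b0, e0, h0⟩
  obtain ⟨q0, e0⟩ := L.even x mx
  obtain ⟨m, k, e⟩ := QDiv_inv hp hb
  refine ⟨x + (-(m * q0)) • u, add_mem mx (zsmul_mem mu _), u, mu,
    q0 + -(m * q0) * b + (m * q0) ^ 2 * qu, b + -(m * q0) * (2 * qu), ?_, ?_, ?_, ?_,
    fun h => hb ?_⟩
  · rw [map_add, map_zsmul, zx, zu, smul_zero, add_zero]
  · simp only [map_add, map_zsmul, LinearMap.add_apply, LinearMap.smul_apply, L.symm x u, e0, eb,
      eu, zsmul_eq_mul]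
    push_cast
    ring
  · refine Dvd.dvd.add ⟨k * q0, ?_⟩ (hq.mul_left _)
    linear_combination (-q0) * e
  · simp only [map_add, map_zsmul, LinearMap.add_apply, LinearMap.smul_apply, L.symm x u, eb,
      eu, zsmul_eq_mul]
    push_cast
    ring
  · have := h.add (hq.mul_left (2 * (m * q0)))
    rwa [show b + -(m * q0) * (2 * qu) + 2 * (m * q0) * qu = b by ring] at this

/-- The auxiliary statement of the plan. -/
def QDiv_P (L : QL) (w : L.W) (k : ℕ) : Prop :=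
  ∃ y ∈ L.X, ∃ x ∈ L.X, ∃ q b : ℤ, L.β w y = 1 ∧ L.β y y = 2 * q ∧ (k : ℤ) ∣ q ∧
    L.β y x = b ∧ IsCoprime b k

theorem QDiv_mul (L : QL) {w : L.W} {k k' : ℕ} (hk : k.Coprime k') (h : L.QDiv_P w k)
    (h' : L.QDiv_P w k') : L.QDiv_P w (k * k') := by
  obtain ⟨u, v, e⟩ := Nat.isCoprime_iff_coprime.2 hk
  obtain ⟨y, my, x, mx, q, b, h1, h2, ⟨r, rfl⟩, h4, h5⟩ := h
  obtain ⟨y', my', x', mx', q', b', h1', h2', ⟨r', rfl⟩, h4', h5'⟩ := h'
  obtain ⟨m, em⟩ := L.QDiv_int my' (L.X_le_D my)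
  obtain ⟨s, es⟩ := L.QDiv_int mx' (L.X_le_D my)
  obtain ⟨t, et⟩ := L.QDiv_int mx (L.X_le_D my')
  have e' : (u : ℚ) * k + v * k' = 1 := by exact_mod_cast e
  refine ⟨(v * k') • y + (u * k) • y', add_mem (zsmul_mem my _) (zsmul_mem my' _),
    (v * k') • x + (u * k) • x', add_mem (zsmul_mem mx _) (zsmul_mem mx' _),
    (k * k') * (v ^ 2 * k' * r + u * v * m + u ^ 2 * k * r'),
    (v * k') ^ 2 * b + (v * k') * (u * k) * (s + t) + (u * k) ^ 2 * b', ?_, ?_, ?_, ?_, ?_⟩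
  · simp only [map_add, map_zsmul, h1, h1', zsmul_eq_mul]
    push_cast
    linear_combination e'
  · simp only [map_add, map_zsmul, LinearMap.add_apply, LinearMap.smul_apply, L.symm y' y, h2, h2',
      em, zsmul_eq_mul]
    push_cast
    ring
  · push_cast
    exact dvd_mul_right _ _
  · simp only [map_add, map_zsmul, LinearMap.add_apply, LinearMap.smul_apply, h4, h4', es, et,
      zsmul_eq_mul]
    push_cast
    ring
  · push_cast
    refine IsCoprime.mul_right ?_ ?_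
    · have e1 : (v * k') ^ 2 * b + (v * k') * (u * k) * (s + t) + (u * k) ^ 2 * b' =
          b + k * (-(u * b * (1 + v * k')) + v * k' * u * (s + t) + u ^ 2 * k * b') := by
        linear_combination (b * (1 + v * k')) * e
      rw [e1]
      exact h5.add_mul_left_left _
    · have e1 : (v * k') ^ 2 * b + (v * k') * (u * k) * (s + t) + (u * k) ^ 2 * b' =
          b' + k' * (-(v * b' * (1 + u * k)) + v * (u * k) * (s + t) + v ^ 2 * k' * b) := by
        linear_combination (b' * (1 + u * k)) * e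
      rw [e1]
      exact h5'.add_mul_left_left _

theorem QDiv_all (L : QL) (h : L.Red L.N) (hN : 10 ≤ L.N) {w y0 : L.W} (hw : w ∈ L.D)
    (hy0 : y0 ∈ L.X) (h1 : L.β w y0 = 1) {k : ℕ} (hk : Squarefree k) : L.QDiv_P w k := by
  induction k using Nat.recOnPosPrimePosCoprime with
  | zero => exact absurd hk not_squarefree_zero
  | one =>
    obtain ⟨q, hq⟩ := L.even y0 hy0
    exact ⟨y0, hy0, 0, zero_mem _, q, 0, h1, hq, by simp, by simp, by simpa using isCoprime_one_right⟩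
  | prime_pow p n hp hn =>
    have e : n = 1 := ((Nat.squarefree_pow_iff hp.ne_one hn.ne').1 hk).2
    subst e
    have ha : L.a p * p ^ 4 ≤ p ^ L.N := by
      refine (Nat.pow_le_pow_iff_left two_ne_zero).1 ?_
      rw [mul_pow, ← pow_mul, ← pow_mul]
      refine (Nat.mul_le_mul_right _ (h.a_le hp.ne_zero)).trans ?_
      rw [← pow_add]
      exact Nat.pow_le_pow_right hp.pos (by omega)
    obtain ⟨y, my, x, mx, q, b, e1, e2, e3, e4, e5⟩ := L.div_prime hp ha hw hy0 h1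
    rw [pow_one]
    exact ⟨y, my, x, mx, q, b, e1, e2, e3, e4, QDiv_inv hp e5⟩
  | coprime a b _ _ hab iha ihb => exact L.QDiv_mul hab (iha hk.of_mul_left) (ihb hk.of_mul_right)

theorem exists_div_one (L : QL) (h : L.Red L.N) (hN : 10 ≤ L.N) {z : L.W} (hz : z ≠ 0)
    (h0 : L.β z z = 0) : ∃ z' ∈ L.X, ∃ f ∈ L.X, L.β z' z' = 0 ∧ L.β z' f = 1 := by
  classical
  obtain ⟨c, -, hw, y0, hy0, h1⟩ := L.prim_dual hz
  set w := c • z with hwdef
  have hww : L.β w w = 0 := by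
    simp only [hwdef, map_smul, LinearMap.smul_apply, h0, smul_zero]
  have hex : ∃ d : ℕ, 0 < d ∧ d • w ∈ L.X := L.full.exists_nsmul_mem w
  obtain ⟨hd0, hd⟩ := Nat.find_spec hex
  have hmin : ∀ e, e < Nat.find hex → 0 < e → e • w ∉ L.X := fun e he h0 h =>
    Nat.find_min hex he ⟨h0, h⟩
  generalize Nat.find hex = d at hd0 hd hmin
  have hsq : Squarefree d := by
    refine Nat.squarefree_iff_prime_squarefree.2 fun p hp hpd => ?_
    obtain ⟨e, rfl⟩ := hpd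
    have he : 0 < e := Nat.pos_of_mul_pos_left hd0
    have h2 : p • e • w ∉ L.X := by
      rw [← mul_nsmul']
      refine hmin _ ?_ (Nat.mul_pos hp.pos he)
      have := hp.one_lt
      have := Nat.mul_pos hp.pos he
      nlinarith
    have h3 : (p * p) • e • w ∈ L.X := by rwa [← mul_nsmul']
    by_cases h4 : p = 2
    · subst h4
      refine four_odd h L.ndOn_D (nsmul_mem hw e) h3 h2 ⟨0, ?_⟩
      simp only [map_nsmul, LinearMap.smul_apply, hww, smul_zero, mul_zero, Int.cast_zero]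
    · exact h2 (h.ep hp h4 (nsmul_mem hw e) (by rwa [sq]))
  obtain ⟨y, my, x, mx, q, b, e1, e2, ⟨r, rfl⟩, e4, s, t, e5⟩ := L.QDiv_all h hN hw hy0 h1 hsq
  obtain ⟨n, en⟩ := L.QDiv_int mx hw
  have e6 : (s : ℚ) * b + t * d = 1 := by exact_mod_cast e5
  refine ⟨y - r • d • w, sub_mem my (zsmul_mem hd r), s • x + (t + s * r * n) • d • w,
    add_mem (zsmul_mem mx s) (zsmul_mem hd _), ?_, ?_⟩
  · simp only [map_sub, map_zsmul, map_nsmul, LinearMap.sub_apply, LinearMap.smul_apply,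
      L.symm y w, e1, e2, hww, zsmul_eq_mul, nsmul_eq_mul]
    push_cast
    ring
  · simp only [map_sub, map_add, map_zsmul, map_nsmul, LinearMap.sub_apply, LinearMap.smul_apply,
      L.symm y w, e1, e4, en, hww, zsmul_eq_mul, nsmul_eq_mul]
    push_cast
    linear_combination e6

end QL

end Pool.Agent.Work.MP_c8d35c_al
end
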