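import Pool.Agent.Work.MP_c8d35c_al.QDfs
import Pool.Agent.Work.MP_c8d35c_al.QDiv
import Pool.Agent.Work.MP_c8d35c_al.QDatM
import Pool.Agent.Work.MP_c8d35c_al.QDat0
import Pool.Agent.Work.MP_c8d35c_al.QDat1
import Pool.Agent.Work.MP_c8d35c_al.QDat2
import Pool.Agent.Work.MP_c8d35c_al.QDat3
import Pool.Agent.Work.MP_c8d35c_al.QDat4
import Pool.Agent.Work.MP_c8d35c_al.QDat5
import Pool.Agent.Work.MP_c8d35c_al.QDat6
import Pool.Agent.Work.MP_c8d35c_al.QDat7

/-! Every admissible discriminant form has the wrong signature or occurs in the tables. -/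

namespace Pool.Agent.Work.MP_c8d35c_al

/-- All tables. -/
def tabAll : List Ent := tab0 ++ tab1 ++ tab2 ++ tab3 ++ tab4 ++ tab5 ++ tab6 ++ tab7

theorem tabAll_ok : tabAll.all (entOK true) = true := by
  simp only [tabAll, List.all_append, tab0_ok, tab1_ok, tab2_ok, tab3_ok, tab4_ok, tab5_ok,
    tab6_ok, tab7_ok, Bool.and_self]

/-- The test at a leaf of the search. -/
def leafE (l : List (Blk × ℕ)) : Bool :=
  [19, 21, 22, 23, 24, 25].all fun m =>
    !(Nat.ble (r4s (l.map Prod.fst)) 1 && Nat.ble (ods (l.map Prod.fst))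
        (omax m (2 * r2s (l.map Prod.fst) + r4s (l.map Prod.fst)))) ||
      !Nat.beq ((l.map Prod.snd).sum % 8) (m % 8) ||
      decide ((m, l.map Prod.fst) ∈ keys tabAll)

theorem enum_ok : dfs (fun x : Blk × ℕ => x.1.tor 0) leafE sigTab 84 [] = true := by
  decide +kernel

theorem sigTab_mod : ∀ x ∈ sigTab, (x.2, [x.1]) ∈ keys modTab ∧ 0 < x.1.tor 0 := by
  decide +kernel

theorem sigTab_odd : ∀ p < 85, p.Prime → p ≠ 2 →
    Blk.odd p 1 ∈ sigTab.map Prod.fst ∧ Blk.odd p (nr p) ∈ sigTab.map Prod.fst := by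
  decide +kernel

theorem omax_le : ∀ m < 26, ∀ b < 7, ∀ f < 2, 2 ^ (b + f) * omax m (2 * b + f) ≤ 84 := by
  decide +kernel

theorem omax_zero {m i : ℕ} (h : 26 ≤ m ∨ 13 ≤ i) : omax m i = 0 := by
  unfold omax
  rcases h with h | h
  · obtain ⟨k, hk⟩ : ∃ k, m - 19 = k + 7 := ⟨m - 26, by omega⟩
    rw [hk]
    rfl
  · refine List.getD_eq_default _ _ ?_
    generalize m - 19 = k
    rcases k with _ | _ | _ | _ | _ | _ | _ | k <;> simp <;> omega

theorem exists_E8 : ∃ E : QL, E.Sig 8 0 ∧ E.Pres [] := by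
  obtain ⟨M, h1, h2, -⟩ := keys_sound modTab_ok (8, []) (by decide +kernel)
  exact ⟨M, h1, h2⟩

theorem sigTab_model : ∀ x ∈ sigTab, ∃ M : QL, M.Sig x.2 0 ∧ M.Pres [x.1] := fun x hx => by
  obtain ⟨M, h1, h2, -⟩ := keys_sound modTab_ok _ (sigTab_mod x hx).1
  exact ⟨M, h1, h2⟩

theorem ods_pos {l : List Blk} (hv : ∀ B ∈ l, B.Valid) : 0 < ods l := by
  refine List.prod_pos fun a ha => ?_
  obtain ⟨B, hB, rfl⟩ := List.mem_map.1 ha
  cases B with
  | odd p a => exact (hv _ hB).1.pos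
  | _ => exact Nat.one_pos

theorem enum_main {m : ℕ} (hm : m = 19 ∨ 21 ≤ m) {l : List Blk} (hv : ∀ B ∈ l, B.Valid)
    (h : okShape m l) : ∃ l' : List (Blk × ℕ), (l'.map Prod.fst).Perm l ∧
      (∀ x ∈ l', x ∈ sigTab) ∧ ((l'.map Prod.snd).sum % 8 ≠ m % 8 ∨
        ∃ M : QL, M.Sig m 0 ∧ M.Pres (l'.map Prod.fst) ∧ M.Defic) := by
  have hpos := ods_pos hv
  have hne : omax m (2 * r2s l + r4s l) ≠ 0 := by have := h.2; omega
  have hm26 : m < 26 := by
    by_contra hc
    exact hne (omax_zero (Or.inl (by omega)))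
  have hb : r2s l < 7 := by
    by_contra hc
    exact hne (omax_zero (Or.inr (by omega)))
  have h84 : tors l 0 ≤ 84 := by
    rw [tors_zero]
    exact (Nat.mul_le_mul_left _ h.2).trans (omax_le m hm26 _ hb _ (by have := h.1; omega))
  have hod : ods l ≤ 84 := by
    rw [tors_zero] at h84
    exact (Nat.le_mul_of_pos_left _ (by positivity)).trans h84
  have hmem : ∀ B ∈ l, ∃ x ∈ sigTab, x.1 = B := by
    intro B hB
    rw [← List.mem_map]
    cases B with
    | odd p a =>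
      obtain ⟨hp, h2, ha⟩ := hv _ hB
      have : p ≤ ods l := Nat.le_of_dvd hpos (List.dvd_prod (List.mem_map.2 ⟨_, hB, rfl⟩))
      have h3 := sigTab_odd p (by omega) hp h2
      rcases ha with rfl | rfl
      · exact h3.1
      · exact h3.2
    | four k =>
      rcases hv _ hB with rfl | rfl | rfl | rfl <;> decide +kernel
    | _ => decide +kernel
  obtain ⟨l1, h1, h2⟩ : ∃ l1 : List (Blk × ℕ), l1.map Prod.fst = l ∧ ∀ x ∈ l1, x ∈ sigTab := by
    clear h84 hod hb hne hpos h hv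
    induction l with
    | nil => exact ⟨[], rfl, by simp⟩
    | cons B l ih =>
      obtain ⟨l1, h1, h2⟩ := ih fun B' hB' => hmem B' (List.mem_cons_of_mem _ hB')
      obtain ⟨x, hx, rfl⟩ := hmem B List.mem_cons_self
      exact ⟨x :: l1, by rw [List.map_cons, h1], by simpa [hx] using h2⟩
  obtain ⟨l', hp, hl⟩ := dfs_sound (fun c hc => (sigTab_mod c hc).2) enum_ok l1 h2 (by
    rw [← h1, tors, List.map_map] at h84
    exact h84)
  rw [List.append_nil] at hp
  have hp' : (l'.map Prod.fst).Perm l := h1 ▸ hp.map _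
  refine ⟨l', hp', fun x hx => h2 x (hp.subset hx), ?_⟩
  have e2 : r2s (l'.map Prod.fst) = r2s l := (hp'.map _).sum_eq
  have e4 : r4s (l'.map Prod.fst) = r4s l := (hp'.map _).sum_eq
  have eo : ods (l'.map Prod.fst) = ods l := (hp'.map _).prod_eq
  have h3 := List.all_eq_true.1 hl m (by simp; omega)
  rw [e2, e4, eo, Nat.ble_eq_true_of_le h.1, Nat.ble_eq_true_of_le h.2] at h3
  simp only [Bool.and_self, Bool.not_true, Bool.false_or, Bool.or_eq_true, Bool.not_eq_true',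
    decide_eq_true_eq] at h3
  rcases h3 with h3 | h3
  · exact Or.inl (Nat.ne_of_beq_eq_false h3)
  · obtain ⟨M, a1, a2, a3⟩ := keys_sound tabAll_ok _ h3
    exact Or.inr ⟨M, a1, a2, a3 rfl⟩

end Pool.Agent.Work.MP_c8d35c_al
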