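import Pool.Agent.Work.MP_c8d35c_al.QDiv

/-! The numerical consequences of the analytic inequality.

Plan. Upper bounds `cU` for `cmc`: `cmc (m + 2) = cmc m * (2 π) / (m / 2)` (`Real.Gamma_add_one`), start from
`cmc 1 = √2`, `cmc 2 = 2 π`, use `π < 3.141593`, `√2 < 1.41422`; this gives the values `cU`.
For `m ≥ 26` the sequence decreases in steps of two, `cmc m ≤ 50`, and
`50 * 1.009 < 52 ≤ 2 m`, a contradiction as all local factors are at most one.
For `m ≤ 25`: `g2 * ∏ gp ≥ 2 m / cU - 0.009 > 0.109`, so every `gp ≥ 0.109`; as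
`p^(-(m - b)/2) ≤ 3^(-4.25) < 0.0094` (for `m - b ≥ 8.5`, hence `≥ 9` or use `3^(-4) < 0.0124`
and `p^b ≤ 110`), we get `p^b ≤ 110`, so `gp = p^(-b/2) (1 + p^b p^(-m/2))` with
`p^b p^(-m/2) ≤ 110 p^(-19/2)`; `∏ (1 + x p) ≤ exp (∑ x p)` or `≤ 1 / (1 - ∑ x p)`, and
`∑_{p ≥ 3} 110 p^(-19/2) < 0.004`; so `∏ gp ≤ 1.006 / √O` with `O = ∏ p^(b p)` (`prod_gp_le`).
With `w = 0.70711 ≥ 2^(-1/2)`, `g2 ≤ w^(b+f) + w^(m-b+f) + f w^(2m-b-f)` (or `1`); the finitely
many rational inequalities ` (cU gU 1.006)^2 < (2 m - 0.009 cU)^2 (omax + 1)` for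
`m ∈ {19, 21, …, 25}`, `b2 ≤ 14`, `f ≤ 1`, `f ≤ b2`, `2 b2 ≤ m + 4` hold (`decide +kernel` over `ℚ`,
checked numerically with `cU = 320.70, 212.11, 166.05, 126.93, 94.85, 69.35` for
`m = 19, 21, 22, 23, 24, 25`). -/

namespace Pool.Agent.Work.MP_c8d35c_al

theorem cmc_pos {m : ℕ} (hm : 1 ≤ m) : 0 < cmc m :=
  div_pos (by positivity) (Real.Gamma_pos_of_pos (by positivity))

/-- Rational upper bounds for `cmc (n + 1)`. -/
def QNum2_c : ℕ → ℚ
  | 0 => 141422 / 100000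
  | 1 => 2 * (3141593 / 1000000)
  | n + 2 => QNum2_c n * (4 * (3141593 / 1000000) / (n + 1))

/-- Rational upper bounds for `g2`. -/
def QNum2_g (m b f : ℕ) : ℚ := if b = 0 then 1 else (70711 / 100000) ^ (b + f) +
  (70711 / 100000) ^ (m - b + f) + f * (70711 / 100000) ^ (2 * m - b - f)

theorem QNum2_step (n : ℕ) : cmc (n + 3) = cmc (n + 1) * (4 * Real.pi / (n + 1)) := by
  have h : (0 : ℝ) < ((n + 1 : ℕ) : ℝ) / 2 := by positivity
  have := (Real.Gamma_pos_of_pos h).ne'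
  rw [cmc, cmc, show ((n + 3 : ℕ) : ℝ) / 2 = ((n + 1 : ℕ) : ℝ) / 2 + 1 by push_cast; ring,
    Real.Gamma_add_one h.ne', Real.rpow_add_one (by positivity)]
  push_cast at this ⊢
  field_simp
  ring

theorem QNum2_le : ∀ n, cmc (n + 1) ≤ QNum2_c n
  | 0 => by
    rw [cmc, QNum2_c, zero_add, Nat.cast_one, Real.Gamma_one_half_eq, ← Real.sqrt_eq_rpow,
      Real.sqrt_mul zero_le_two, mul_div_cancel_right₀ _ (by positivity)]
    exact Real.sqrt_le_iff.2 (by norm_num)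
  | 1 => by
    have := Real.pi_lt_d6
    norm_num [cmc, QNum2_c] at this ⊢
    linarith only [this]
  | n + 2 => by
    have h1 := QNum2_le n
    have h2 : Real.pi ≤ 3141593 / 1000000 := Real.pi_lt_d6.le.trans (by norm_num)
    have h3 := (cmc_pos n.succ_pos).le.trans h1
    rw [QNum2_step, QNum2_c]
    push_cast
    gcongr

theorem QNum2_big : ∀ n, cmc (n + 26) ≤ 50
  | 0 => (QNum2_le 25).trans (by exact_mod_cast (by decide +kernel : QNum2_c 25 ≤ 50))
  | 1 => (QNum2_le 26).trans (by exact_mod_cast (by decide +kernel : QNum2_c 26 ≤ 50))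
  | n + 2 => by
    have h1 := QNum2_big n
    have h2 := Real.pi_lt_four
    rw [show n + 2 + 26 = n + 25 + 3 by omega, QNum2_step]
    refine (mul_le_of_le_one_right (cmc_pos (by omega)).le ?_).trans h1
    rw [div_le_one (by positivity)]
    push_cast
    linarith [n.cast_nonneg (α := ℝ)]

theorem QNum2_w (n : ℕ) : (2 : ℝ) ^ (-((n : ℝ) / 2)) ≤ (70711 / 100000) ^ n := by
  rw [show -((n : ℝ) / 2) = -(1 / 2) * n by ring, Real.rpow_mul zero_le_two, Real.rpow_natCast,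
    Real.rpow_neg zero_le_two, ← Real.sqrt_eq_rpow]
  gcongr
  rw [inv_le_comm₀ (by positivity) (by norm_num)]
  exact Real.le_sqrt_of_sq_le (by norm_num)

theorem QNum2_g2 {m b f : ℕ} (h : b ≤ m) (h' : f ≤ b) : g2 m b f ≤ QNum2_g m b f := by
  rw [g2, QNum2_g]
  split_ifs
  · simp
  have h1 := QNum2_w (b + f)
  have h2 := QNum2_w (m - b + f)
  have h3 := QNum2_w (2 * m - b - f)
  rw [Nat.cast_add] at h1
  rw [Nat.cast_add, Nat.cast_sub h] at h2
  rw [Nat.cast_sub (by omega), Nat.cast_sub (by omega), Nat.cast_mul, Nat.cast_ofNat] at h3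
  push_cast
  gcongr

set_option synthInstance.maxSize 1000 in
theorem QNum2_fin : ∀ n < 25, ∀ b < 15, ∀ f < 2, n = 18 ∨ 20 ≤ n → f ≤ b → 2 * b ≤ n + 5 →
    118 / 1000 * QNum2_c n ≤ 2 * (n + 1) ∧ (QNum2_c n * QNum2_g (n + 1) b f * (1006 / 1000)) ^ 2 <
      (2 * (n + 1) - 9 / 1000 * QNum2_c n) ^ 2 * (omax (n + 1) (2 * b + f) + 1) := by
  decide +kernel

theorem QNum2_gp {m p b : ℕ} (hm : 19 ≤ m) (hp : 3 ≤ p) (hb : 1 ≤ b) (h : 2 * b ≤ m + 2)
    (hl : 109 / 1000 ≤ gp m p b) : p ≤ 107 ∧ gp m p b ≤ (1 + 107 / (p : ℝ) ^ 9) / √(p ^ b) := by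
  have h0 : (3 : ℝ) ≤ p := by exact_mod_cast hp
  have h1 : (0 : ℝ) < p := by linarith only [h0]
  have h2 : (19 : ℝ) ≤ m := by exact_mod_cast hm
  have h3 : 2 * (b : ℝ) ≤ m + 2 := by exact_mod_cast h
  have h4 : (p : ℝ) ^ (-((b : ℝ) / 2)) = 1 / √(p ^ b) := by
    rw [Real.sqrt_eq_rpow, ← Real.rpow_natCast, ← Real.rpow_mul h1.le, Real.rpow_neg h1.le, one_div]
    congr 2
    ring
  have h5 : ∀ x : ℝ, ∀ n : ℕ, n ≤ x → (p : ℝ) ^ (-x) ≤ 1 / p ^ n := fun x n hx => by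
    rw [one_div, ← Real.rpow_natCast, ← Real.rpow_neg h1.le]
    exact Real.rpow_le_rpow_of_exponent_le (by linarith only [h0]) (by linarith only [hx])
  have h6 : 0 < √((p : ℝ) ^ b) := by positivity
  have h7 : p ^ b ≤ 107 := by
    by_contra h7
    have h8 : (108 : ℝ) ≤ p ^ b := by exact_mod_cast not_le.1 h7
    have h9 : 1 / √((p : ℝ) ^ b) ≤ 1 / (1039 / 100) :=
      one_div_le_one_div_of_le (by norm_num) (Real.le_sqrt_of_sq_le (by linarith only [h8]))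
    have h10 : 1 / (p : ℝ) ^ 4 ≤ 1 / 3 ^ 4 := by gcongr
    have := h5 (((m : ℝ) - b) / 2) 4 (by push_cast; linarith only [h2, h3])
    rw [gp, h4] at hl
    linarith only [hl, h9, h10, this]
  refine ⟨(Nat.le_self_pow (by omega) p).trans h7, ?_⟩
  rw [gp, show -(((m : ℝ) - b) / 2) = -((b : ℝ) / 2) + (b + -(m / 2)) by ring, Real.rpow_add h1,
    Real.rpow_add h1, h4, Real.rpow_natCast, add_div, div_right_comm, one_div_mul_eq_div,
    div_right_comm, div_eq_mul_one_div 107]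
  gcongr
  · exact_mod_cast h7
  · exact h5 _ 9 (by push_cast; linarith only [h2])

theorem prod_gp_le {m : ℕ} (hm : 19 ≤ m) {P : Finset ℕ} {b : ℕ → ℕ} {b2 f : ℕ}
    (h : Rks m P b b2 f) (hlow : ∀ p ∈ P, 109 / 1000 ≤ gp m p (b p)) :
    ∏ p ∈ P, gp m p (b p) ≤ 1006 / 1000 / √((∏ p ∈ P, p ^ b p : ℕ) : ℝ) := by
  have h0 : ∀ p ∈ P, 3 ≤ p := fun p hp => by
    have := (h.prime p hp).1.two_le
    have := (h.prime p hp).2
    omega
  have h1 := fun p hp => QNum2_gp hm (h0 p hp) (h.pos p hp) (h.le p hp) (hlow p hp)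
  have h2 : ∑ p ∈ P, 107 / (p : ℝ) ^ 9 ≤ 592 / 100000 :=
    (Finset.sum_le_sum_of_subset_of_nonneg (t := Finset.Icc 3 107)
      (fun p hp => Finset.mem_Icc.2 ⟨h0 p hp, (h1 p hp).1⟩) fun _ _ _ => by positivity).trans (by
      have := (Rat.cast_le (K := ℝ)).2
        (by decide +kernel : ∑ p ∈ Finset.Icc 3 107, 107 / ((p : ℕ) : ℚ) ^ 9 ≤ 592 / 100000)
      push_cast at this
      exact this)
  refine (Finset.prod_le_prod (fun p hp => (gp_pos (h.prime p hp).1.ne_zero).le)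
    fun p hp => (h1 p hp).2).trans ?_
  push_cast
  rw [Finset.prod_div_distrib, Real.sqrt_prod _ fun _ _ => by positivity]
  gcongr
  exact (Real.prod_one_add_le_exp_sum _ fun _ => by positivity).trans ((Real.exp_le_exp.2 h2).trans
    ((Real.exp_bound_div_one_sub_of_interval (by norm_num) (by norm_num)).trans (by norm_num)))

theorem num_shape {m : ℕ} (hm : m = 19 ∨ 21 ≤ m) {P : Finset ℕ} {b : ℕ → ℕ} {b2 f : ℕ}
    (h : Rks m P b b2 f)
    (hi : 2 * (m : ℝ) ≤ cmc m * (g2 m b2 f * ∏ p ∈ P, gp m p (b p) + 9 / 1000)) :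
    ∏ p ∈ P, p ^ b p ≤ omax m (2 * b2 + f) := by
  have h19 : 19 ≤ m := by omega
  have h0 : ∀ p ∈ P, 0 ≤ gp m p (b p) := fun p hp => (gp_pos (h.prime p hp).1.ne_zero).le
  have h1 : ∀ p ∈ P, gp m p (b p) ≤ 1 := fun p hp => gp_le_one h19 (by
    have := (h.prime p hp).1.two_le
    have := (h.prime p hp).2
    omega) (h.pos p hp) (h.le p hp)
  have h2 := g2_le_one h19 h.f1 h.le2
  have h3 := (g2_pos m b2 f).le
  have h4 := Finset.prod_nonneg h0
  have h5 := h.le2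
  have h6 := h.f1
  by_cases hb : 26 ≤ m
  · obtain ⟨n, rfl⟩ := Nat.exists_eq_add_of_le' hb
    have h7 := hi.trans (mul_le_mul (QNum2_big n) (add_le_add_left
      (mul_le_one₀ h2 h4 (Finset.prod_le_one h0 h1)) _) (by positivity) (by norm_num))
    push_cast at h7
    linarith only [h7, n.cast_nonneg (α := ℝ)]
  obtain ⟨n, rfl⟩ : ∃ n, m = n + 1 := ⟨m - 1, by omega⟩
  obtain ⟨h7, h8⟩ := QNum2_fin n (by omega) b2 (by omega) f (by omega) (by omega) h.fb h5
  replace hi := hi.trans (mul_le_mul_of_nonneg_right (QNum2_le n) (by positivity))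
  have h9 := (cmc_pos n.succ_pos).trans_le (QNum2_le n)
  have h10 := QNum2_g2 (m := n + 1) (by omega) h.fb
  have h7' := (Rat.cast_le (K := ℝ)).2 h7
  have h8' := (Rat.cast_lt (K := ℝ)).2 h8
  push_cast at h7' h8'
  generalize (QNum2_c n : ℝ) = c at *
  generalize (QNum2_g (n + 1) b2 f : ℝ) = g at *
  push_cast at hi
  have h11 := prod_gp_le h19 h fun p hp => by
    have := (mul_le_of_le_one_left h4 h2).trans ((Finset.prod_le_prod_of_subset_of_le_one
      (Finset.singleton_subset_iff.2 hp) h0 fun q hq _ => h1 q hq).trans_eq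
        (Finset.prod_singleton _ _))
    nlinarith only [h7', hi, h9, this]
  by_contra h12
  have h13 : (omax (n + 1) (2 * b2 + f) + 1 : ℝ) ≤ (∏ p ∈ P, p ^ b p : ℕ) := by
    exact_mod_cast not_le.1 h12
  have h14 : (0 : ℝ) < (∏ p ∈ P, p ^ b p : ℕ) := lt_of_lt_of_le (by positivity) h13
  generalize ((∏ p ∈ P, p ^ b p : ℕ) : ℝ) = O at *
  have h15 : (2 * (n + 1) - 9 / 1000 * c) * √O ≤ c * g * (1006 / 1000) := by
    rw [← le_div_iff₀ (Real.sqrt_pos.2 h14), mul_div_assoc, mul_assoc]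
    have := mul_le_mul_of_nonneg_left (mul_le_mul h10 h11 h4 (h3.trans h10)) h9.le
    linarith only [hi, this]
  have h16 := pow_le_pow_left₀ (mul_nonneg (by linarith only [h7']) (Real.sqrt_nonneg _)) h15 2
  rw [mul_pow, Real.sq_sqrt h14.le] at h16
  exact absurd (h8'.trans_le (mul_le_mul_of_nonneg_left h13 (sq_nonneg _))) (not_lt.2 h16)

end Pool.Agent.Work.MP_c8d35c_al
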