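import Pool.Agent.Work.MP_c8d35c_al.QFrame
import Pool.Agent.Work.MP_c8d35c_al.GTri

-- merged part: Pool.Agent.Work.MP_c8d35c_al.ROLat
section
/-! Lattices over the ring of integers in a quadratic space. -/

namespace Pool.Agent.Work.MP_c8d35c_al

set_option linter.unusedSectionVars false

open NumberField Module Matrix

variable {K : Type} [Field K] [NumberField K] {N : ℕ}

/-- The bilinear form of a matrix. -/
def bil (B : Matrix (Fin N) (Fin N) K) (x y : Fin N → K) : K := x ⬝ᵥ (B *ᵥ y)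

section
omit [NumberField K]

lemma bil_add_left (B : Matrix (Fin N) (Fin N) K) (x x' y : Fin N → K) :
    bil B (x + x') y = bil B x y + bil B x' y := by simp [bil]

lemma bil_add_right (B : Matrix (Fin N) (Fin N) K) (x y y' : Fin N → K) :
    bil B x (y + y') = bil B x y + bil B x y' := by simp [bil, Matrix.mulVec_add]

lemma bil_smul_left (B : Matrix (Fin N) (Fin N) K) (c : K) (x y : Fin N → K) :
    bil B (c • x) y = c * bil B x y := by simp [bil]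

lemma bil_smul_right (B : Matrix (Fin N) (Fin N) K) (c : K) (x y : Fin N → K) :
    bil B x (c • y) = c * bil B x y := by simp [bil, Matrix.mulVec_smul]

lemma bil_ismul_left (B : Matrix (Fin N) (Fin N) K) (c : 𝓞 K) (x y : Fin N → K) :
    bil B (c • x) y = c * bil B x y := bil_smul_left B c x y

lemma bil_ismul_right (B : Matrix (Fin N) (Fin N) K) (c : 𝓞 K) (x y : Fin N → K) :
    bil B x (c • y) = c * bil B x y := bil_smul_right B c x y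

lemma bil_zero_left (B : Matrix (Fin N) (Fin N) K) (y : Fin N → K) : bil B 0 y = 0 := by
  simp [bil]

lemma bil_zero_right (B : Matrix (Fin N) (Fin N) K) (x : Fin N → K) : bil B x 0 = 0 := by
  simp [bil]

lemma bil_neg_left (B : Matrix (Fin N) (Fin N) K) (x y : Fin N → K) :
    bil B (-x) y = -bil B x y := by simp [bil]

lemma bil_neg_right (B : Matrix (Fin N) (Fin N) K) (x y : Fin N → K) :
    bil B x (-y) = -bil B x y := by simp [bil, Matrix.mulVec_neg]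

lemma bil_sub_left (B : Matrix (Fin N) (Fin N) K) (x x' y : Fin N → K) :
    bil B (x - x') y = bil B x y - bil B x' y := by simp [bil]

lemma bil_sub_right (B : Matrix (Fin N) (Fin N) K) (x y y' : Fin N → K) :
    bil B x (y - y') = bil B x y - bil B x y' := by simp [bil, Matrix.mulVec_sub]

lemma bil_smul_form (B : Matrix (Fin N) (Fin N) K) (c : K) (x y : Fin N → K) :
    bil (c • B) x y = c * bil B x y := by simp [bil, Matrix.smul_mulVec]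

lemma bil_comm {B : Matrix (Fin N) (Fin N) K} (hB : B.IsSymm) (x y : Fin N → K) :
    bil B x y = bil B y x := by
  rw [bil, bil, Matrix.dotProduct_mulVec, ← Matrix.mulVec_transpose, hB.eq, dotProduct_comm]

lemma eq_zero_of_bil {B : Matrix (Fin N) (Fin N) K} (hB : B.det ≠ 0) {y : Fin N → K}
    (h : ∀ x, bil B x y = 0) : y = 0 := by
  have h1 : B *ᵥ y = 0 := by
    funext i
    simpa [bil] using h (Pi.single i 1)
  exact Matrix.eq_zero_of_mulVec_eq_zero hB h1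

end

/-- The trace form `Tr(B(x, y))`. -/
noncomputable def trB (B : Matrix (Fin N) (Fin N) K) : LinearMap.BilinForm ℚ (Fin N → K) :=
  LinearMap.mk₂ ℚ (fun x y => Algebra.trace ℚ K (bil B x y))
    (fun x x' y => by rw [bil_add_left, map_add])
    (fun c x y => by
      rw [← algebraMap_smul K c x, bil_smul_left, ← Algebra.smul_def, map_smul])
    (fun x y y' => by rw [bil_add_right, map_add])
    (fun c x y => by
      rw [← algebraMap_smul K c y, bil_smul_right, ← Algebra.smul_def, map_smul])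

lemma trB_apply (B : Matrix (Fin N) (Fin N) K) (x y : Fin N → K) :
    trB B x y = Algebra.trace ℚ K (bil B x y) := rfl

/-- Submodules over the ring of integers. -/
abbrev OSub (K : Type) [Field K] (N : ℕ) := Submodule (𝓞 K) (Fin N → K)

/-- A full lattice. -/
def Lat (M : OSub K N) : Prop := Full M.toAddSubgroup

/-- The index `[Y : X ∩ Y]`. -/
noncomputable def idx (X Y : OSub K N) : ℕ := X.toAddSubgroup.relIndex Y.toAddSubgroup

/-- The covolume for the trace form. -/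
noncomputable def covB (B : Matrix (Fin N) (Fin N) K) (M : OSub K N) : ℝ :=
  cov (trB B) M.toAddSubgroup

/-- The standard lattice. -/
def stdL (K : Type) [Field K] (N : ℕ) : OSub K N where
  carrier := {x | ∀ i, ∃ z : 𝓞 K, x i = z}
  zero_mem' := fun _ => ⟨0, by simp⟩
  add_mem' := by
    intro a b ha hb i
    obtain ⟨z, hz⟩ := ha i
    obtain ⟨w, hw⟩ := hb i
    exact ⟨z + w, by simp [hz, hw]⟩
  smul_mem' := by
    intro c x hx i
    obtain ⟨z, hz⟩ := hx i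
    exact ⟨c * z, by simp [hz, Algebra.smul_def]⟩

/-- The dual lattice over the ring of integers. -/
def sharp (B : Matrix (Fin N) (Fin N) K) (M : OSub K N) : OSub K N where
  carrier := {y | ∀ x ∈ M, ∃ z : 𝓞 K, bil B x y = z}
  zero_mem' := fun _ _ => ⟨0, by simp [bil_zero_right]⟩
  add_mem' := by
    intro a b ha hb x hx
    obtain ⟨z, hz⟩ := ha x hx
    obtain ⟨w, hw⟩ := hb x hx
    exact ⟨z + w, by simp [bil_add_right, hz, hw]⟩
  smul_mem' := by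
    intro c y hy x hx
    obtain ⟨z, hz⟩ := hy x hx
    exact ⟨c * z, by simp [bil_ismul_right, hz]⟩

lemma mem_sharp {B : Matrix (Fin N) (Fin N) K} {M : OSub K N} {y : Fin N → K} :
    y ∈ sharp B M ↔ ∀ x ∈ M, ∃ z : 𝓞 K, bil B x y = z := Iff.rfl

/-- The radical of `M` modulo `𝔠`. -/
def rad (B : Matrix (Fin N) (Fin N) K) (M : OSub K N) (𝔠 : Ideal (𝓞 K)) : OSub K N where
  carrier := {y | y ∈ M ∧ ∀ x ∈ M, ∃ z ∈ 𝔠, bil B x y = (z : K)}
  zero_mem' := ⟨M.zero_mem, fun _ _ => ⟨0, 𝔠.zero_mem, by simp [bil_zero_right]⟩⟩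
  add_mem' := by
    rintro a b ⟨ha0, ha⟩ ⟨hb0, hb⟩
    refine ⟨M.add_mem ha0 hb0, fun x hx => ?_⟩
    obtain ⟨z, hz0, hz⟩ := ha x hx
    obtain ⟨w, hw0, hw⟩ := hb x hx
    exact ⟨z + w, 𝔠.add_mem hz0 hw0, by simp [bil_add_right, hz, hw]⟩
  smul_mem' := by
    rintro c y ⟨hy0, hy⟩
    refine ⟨M.smul_mem c hy0, fun x hx => ?_⟩
    obtain ⟨z, hz0, hz⟩ := hy x hx
    exact ⟨c * z, 𝔠.mul_mem_left c hz0, by simp [bil_ismul_right, hz]⟩

lemma mem_rad {B : Matrix (Fin N) (Fin N) K} {M : OSub K N} {𝔠 : Ideal (𝓞 K)} {y : Fin N → K} :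
    y ∈ rad B M 𝔠 ↔ y ∈ M ∧ ∀ x ∈ M, ∃ z ∈ 𝔠, bil B x y = (z : K) := Iff.rfl

/-- `𝔞⁻¹ M`. -/
def divI (M : OSub K N) (𝔞 : Ideal (𝓞 K)) : OSub K N where
  carrier := {y | ∀ c ∈ 𝔞, c • y ∈ M}
  zero_mem' := fun _ _ => by simp
  add_mem' := fun ha hb c hc => by rw [smul_add]; exact M.add_mem (ha c hc) (hb c hc)
  smul_mem' := fun r y hy c hc => by rw [smul_comm]; exact M.smul_mem r (hy c hc)

lemma mem_divI {M : OSub K N} {𝔞 : Ideal (𝓞 K)} {y : Fin N → K} :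
    y ∈ divI M 𝔞 ↔ ∀ c ∈ 𝔞, c • y ∈ M := Iff.rfl

/-- An integral lattice for a non-degenerate symmetric form. -/
structure Integ (B : Matrix (Fin N) (Fin N) K) (M : OSub K N) : Prop where
  symm : B.IsSymm
  det : B.det ≠ 0
  lat : Lat M
  int : M ≤ sharp B M

/-- An even lattice. -/
structure Good (B : Matrix (Fin N) (Fin N) K) (M : OSub K N) : Prop extends Integ B M where
  even : ∀ x ∈ M, ∃ z : 𝓞 K, bil B x x = 2 * (z : K)

/-- The defect index that enters the bound for Gauss sums. -/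
noncomputable def iota (B : Matrix (Fin N) (Fin N) K) (M : OSub K N) (𝔠 : Ideal (𝓞 K)) : ℕ :=
  idx M (M ⊔ 𝔠 • sharp B M)

theorem finrank_V : finrank ℚ (Fin N → K) = N * finrank ℚ K := by
  rw [Module.finrank_pi_fintype]
  simp

lemma rolat_trace {t : K} (h : ∀ c : K, Algebra.trace ℚ K (c * t) = 0) : t = 0 :=
  (traceForm_nondegenerate ℚ K).2 t fun c => h c

theorem trB_nondeg {B : Matrix (Fin N) (Fin N) K} (hB : B.det ≠ 0) : (trB B).Nondegenerate := by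
  refine ⟨fun x hx => ?_, fun y hy => ?_⟩
  · refine eq_zero_of_bil (B := Bᵀ) (by rwa [Matrix.det_transpose]) fun y => ?_
    have h1 : bil B x y = 0 := rolat_trace fun c => by
      rw [← bil_smul_right]
      exact hx (c • y)
    rw [← h1, bil, bil, Matrix.dotProduct_mulVec x, Matrix.mulVec_transpose, dotProduct_comm]
  · refine eq_zero_of_bil hB fun x => rolat_trace fun c => ?_
    rw [← bil_smul_left]
    exact hy (c • x)

theorem trB_symm {B : Matrix (Fin N) (Fin N) K} (hB : B.IsSymm) : (trB B).IsSymm :=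
  ⟨fun x y => by rw [trB_apply, trB_apply, bil_comm hB]⟩

lemma rolat_smul (c : 𝓞 K) (x : Fin N → K) : c • x = (c : K) • x := rfl

lemma rolat_fg (M : OSub K N) : M.toAddSubgroup.FG ↔ M.FG := by
  rw [← Submodule.FG.restrictScalars_iff (R := ℤ), Submodule.fg_iff_addSubgroup_fg]
  exact Iff.rfl

lemma rolat_nat {𝔞 : Ideal (𝓞 K)} (h : 𝔞 ≠ ⊥) : ∃ n : ℕ, 0 < n ∧ (n : 𝓞 K) ∈ 𝔞 :=
  ⟨Ideal.absNorm 𝔞, Nat.pos_of_ne_zero fun h0 => h (Ideal.absNorm_eq_zero_iff.1 h0),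
    Ideal.absNorm_mem 𝔞⟩

lemma rolat_iff (M : OSub K N) : Lat M ↔ M.FG ∧ ∀ x, ∃ c : 𝓞 K, c ≠ 0 ∧ c • x ∈ M := by
  constructor
  · intro h
    refine ⟨(rolat_fg M).1 (RLat_fg h), fun x => ?_⟩
    obtain ⟨c, hc, hx⟩ := Full.exists_nsmul_mem h x
    refine ⟨c, Nat.cast_ne_zero.2 hc.ne', ?_⟩
    rw [Nat.cast_smul_eq_nsmul]
    exact hx
  · rintro ⟨h1, h2⟩
    refine (full_iff _).2 ⟨(rolat_fg M).2 h1, ?_⟩
    rw [eq_top_iff]
    intro x _
    obtain ⟨c, hc, hx⟩ := h2 x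
    obtain ⟨n, hn, hm⟩ := rolat_nat (𝔞 := Ideal.span {c}) (by simpa using hc)
    obtain ⟨w, hw⟩ := Ideal.mem_span_singleton'.1 hm
    have h3 : n • x ∈ M := by
      rw [← Nat.cast_smul_eq_nsmul (𝓞 K), ← hw, mul_smul]
      exact M.smul_mem w hx
    have h4 : x = (n : ℚ)⁻¹ • (n • x) := by
      rw [← Nat.cast_smul_eq_nsmul ℚ, smul_smul, inv_mul_cancel₀ (Nat.cast_ne_zero.2 hn.ne'),
        one_smul]
    rw [h4]
    exact Submodule.smul_mem _ _ (Submodule.subset_span h3)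

lemma rolat_den {ι : Type} (s : Finset ι) (f : ι → K) :
    ∃ c : 𝓞 K, c ≠ 0 ∧ ∀ i ∈ s, ∃ z : 𝓞 K, (c : K) * f i = z := by
  obtain ⟨b, hb⟩ := IsLocalization.exist_integer_multiples (nonZeroDivisors (𝓞 K)) s f
  refine ⟨b, nonZeroDivisors.coe_ne_zero b, fun i hi => ?_⟩
  obtain ⟨z, hz⟩ := hb i hi
  exact ⟨z, hz.symm⟩

theorem lat_std : Lat (stdL K N) := by
  refine (rolat_iff _).2 ⟨?_, fun x => ?_⟩
  · refine Submodule.FG.of_le (Submodule.fg_span (Set.finite_range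
      fun i : Fin N => (Pi.single i 1 : Fin N → K))) fun x hx => ?_
    choose z hz using hx
    refine (Submodule.mem_span_range_iff_exists_fun _).2 ⟨z, ?_⟩
    funext j
    simp [Finset.sum_apply, Pi.single_apply, hz, Algebra.smul_def]
  · obtain ⟨c, hc, h⟩ := rolat_den Finset.univ x
    exact ⟨c, hc, fun i => h i (Finset.mem_univ i)⟩

theorem lat_iff (M : OSub K N) : Lat M ↔ M.FG ∧ ∀ x, ∃ c : 𝓞 K, c ≠ 0 ∧ c • x ∈ M :=
  rolat_iff M

theorem Lat.inf {X Y : OSub K N} (hX : Lat X) (hY : Lat Y) : Lat (X ⊓ Y) :=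
  Full.inf hX hY

theorem Lat.sup {X Y : OSub K N} (hX : Lat X) (hY : Lat Y) : Lat (X ⊔ Y) := by
  rw [Lat, Submodule.sup_toAddSubgroup]
  exact Full.sup hX hY

theorem Lat.of_le_of_le {X Y Z : OSub K N} (hX : Lat X) (hZ : Lat Z) (h1 : X ≤ Y) (h2 : Y ≤ Z) :
    Lat Y :=
  Full.of_le_of_le hX hZ h1 h2

theorem Lat.smul {X : OSub K N} (hX : Lat X) {𝔞 : Ideal (𝓞 K)} (h : 𝔞 ≠ ⊥) : Lat (𝔞 • X) := by
  obtain ⟨h1, h2⟩ := (lat_iff X).1 hX
  refine (lat_iff _).2 ⟨h1.of_le Submodule.smul_le_right, fun x => ?_⟩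
  obtain ⟨c, hc, hx⟩ := h2 x
  obtain ⟨a, ha, ha0⟩ := Submodule.exists_mem_ne_zero_of_ne_bot h
  refine ⟨a * c, mul_ne_zero ha0 hc, ?_⟩
  rw [mul_smul]
  exact Submodule.smul_mem_smul ha hx

theorem Lat.divI {X : OSub K N} (hX : Lat X) {𝔞 : Ideal (𝓞 K)} (h : 𝔞 ≠ ⊥) :
    Lat (divI X 𝔞) := by
  obtain ⟨h1, h2⟩ := (lat_iff X).1 hX
  obtain ⟨a, ha, ha0⟩ := Submodule.exists_mem_ne_zero_of_ne_bot h
  have ha1 : (a : K) ≠ 0 := by simpa using ha0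
  refine (lat_iff _).2 ⟨?_, fun x => ?_⟩
  · refine (h1.map ((LinearMap.lsmul K (Fin N → K) (a : K)⁻¹).restrictScalars (𝓞 K))).of_le
      fun y hy => ⟨a • y, hy a ha, ?_⟩
    change (a : K)⁻¹ • (a : K) • y = y
    rw [smul_smul, inv_mul_cancel₀ ha1, one_smul]
  · obtain ⟨c, hc, hx⟩ := h2 x
    exact ⟨c, hc, fun d _ => X.smul_mem d hx⟩

theorem Lat.sharp {B : Matrix (Fin N) (Fin N) K} (hB : B.det ≠ 0) {X : OSub K N} (hX : Lat X) :
    Lat (sharp B X) := by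
  refine (lat_iff _).2 ⟨(rolat_fg _).1 (RLat_fg_of_le (RLat_fg (Full.dual (trB_nondeg hB) hX))
    fun y hy x hx => ?_), fun y => ?_⟩
  · obtain ⟨z, hz⟩ := hy x hx
    rw [trB_apply, hz]
    exact trace_int z
  · obtain ⟨S, hS⟩ := ((lat_iff X).1 hX).1
    obtain ⟨c, hc, h⟩ := rolat_den S fun x => bil B x y
    refine ⟨c, hc, fun x hx => ?_⟩
    rw [← hS] at hx
    induction hx using Submodule.span_induction with
    | mem x hx =>
      rw [bil_ismul_right]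
      exact h x hx
    | zero => exact ⟨0, by simp [bil_zero_left]⟩
    | add x x' _ _ h1 h2 =>
      obtain ⟨z, hz⟩ := h1
      obtain ⟨w, hw⟩ := h2
      exact ⟨z + w, by rw [bil_add_left, hz, hw]; simp⟩
    | smul r x _ h1 =>
      obtain ⟨z, hz⟩ := h1
      exact ⟨r * z, by rw [bil_ismul_left, hz]; simp⟩

theorem Lat.rad {B : Matrix (Fin N) (Fin N) K} {X : OSub K N} (hX : Integ B X)
    {𝔠 : Ideal (𝓞 K)} (h : 𝔠 ≠ ⊥) : Lat (rad B X 𝔠) := by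
  refine (hX.lat.smul h).of_le_of_le hX.lat (Submodule.smul_le.2 fun c hc y hy => ?_)
    fun y hy => hy.1
  refine ⟨X.smul_mem c hy, fun x hx => ?_⟩
  obtain ⟨z, hz⟩ := hX.int hy x hx
  exact ⟨c * z, 𝔠.mul_mem_right z hc, by rw [bil_ismul_right, hz]; simp⟩

theorem Lat.exists_smul_le {X Y : OSub K N} (hX : Lat X) (hY : Lat Y) :
    ∃ c : ℕ, 0 < c ∧ ∀ y ∈ Y, (c : K) • y ∈ X := by
  obtain ⟨c, hc, h⟩ := Full.exists_nsmul hX (RLat_fg hY)
  refine ⟨c, hc, fun y hy => ?_⟩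
  rw [Nat.cast_smul_eq_nsmul]
  exact h y hy

theorem Lat.idx_ne_zero {X Y : OSub K N} (hX : Lat X) (hY : Lat Y) : idx X Y ≠ 0 :=
  Full.relIndex_ne_zero hX hY

theorem idx_mul {X Y Z : OSub K N} (h1 : X ≤ Y) (h2 : Y ≤ Z) : idx X Y * idx Y Z = idx X Z :=
  AddSubgroup.relIndex_mul_relIndex _ _ _ h1 h2

theorem idx_inf (X Y : OSub K N) : idx (X ⊓ Y) Y = idx X Y :=
  AddSubgroup.inf_relIndex_right X.toAddSubgroup Y.toAddSubgroup

theorem idx_sup (X Y : OSub K N) : idx X (X ⊔ Y) = idx X Y := by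
  rw [idx, Submodule.sup_toAddSubgroup, AddSubgroup.relIndex_sup_left, idx]

theorem idx_mono {X X' Y Y' : OSub K N} (hX : X ≤ X') (hY : Y' ≤ Y) (h : idx X Y ≠ 0) :
    idx X' Y' ≤ idx X Y := by
  have h1 : idx X' Y ≤ idx X Y := AddSubgroup.relIndex_le_of_le_left hX h
  have h2 : idx X' Y ≠ 0 := fun h0 => h (AddSubgroup.relIndex_eq_zero_of_le_left hX h0)
  exact (AddSubgroup.relIndex_le_of_le_right hY h2).trans h1

/-- `q` lies in the inverse of the ideal. -/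
def RolatInv (𝔞 : Ideal (𝓞 K)) (q : K) : Prop := ∀ c ∈ 𝔞, ∃ z : 𝓞 K, (c : K) * q = z

lemma rolat_key0 {𝔞 : Ideal (𝓞 K)} (h : 𝔞 ≠ ⊥) {Z : OSub K N} {x : Fin N → K}
    (hx : ∀ p ∈ 𝔞, ∀ q : K, RolatInv 𝔞 q → q • p • x ∈ Z) : x ∈ Z := by
  obtain ⟨𝔟, a, ha, hab⟩ := exists_mul_eq_span h
  have ha1 : (a : K) ≠ 0 := by simpa using ha
  have h1 : ∀ r ∈ 𝔞 * 𝔟, ((r : K) / a) • x ∈ Z := fun r hr => by
    refine Submodule.mul_induction_on hr (fun p hp q hq => ?_) fun r r' h1 h2 => ?_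
    · have h2 := hx p hp ((q : K) / a) fun c hc => by
        have h3 : c * q ∈ Ideal.span {a} := hab ▸ Ideal.mul_mem_mul hc hq
        obtain ⟨z, hz⟩ := Ideal.mem_span_singleton'.1 h3
        refine ⟨z, ?_⟩
        have h4 : (z : K) * a = c * q := by exact_mod_cast congrArg (algebraMap (𝓞 K) K) hz
        rw [← mul_div_assoc, ← h4, mul_div_cancel_right₀ _ ha1]
      rw [rolat_smul, smul_smul] at h2
      convert h2 using 2
      simp only [map_mul]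
      ring
    · simp only [map_add, add_div, add_smul]
      exact Z.add_mem h1 h2
  have h2 := h1 a (hab ▸ Ideal.mem_span_singleton_self a)
  rwa [div_self ha1, one_smul] at h2

lemma rolat_key {𝔞 : Ideal (𝓞 K)} (h : 𝔞 ≠ ⊥) {Y : OSub K N} {x : Fin N → K}
    (hx : ∀ q : K, RolatInv 𝔞 q → q • x ∈ Y) : x ∈ 𝔞 • Y :=
  rolat_key0 h fun p hp q hq => by
    rw [smul_comm]
    exact Submodule.smul_mem_smul hp (hx q hq)

lemma rolat_inv {𝔞 : Ideal (𝓞 K)} {q : K} (hq : RolatInv 𝔞 q) {X : OSub K N} {x : Fin N → K}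
    (hx : x ∈ 𝔞 • X) : q • x ∈ X := by
  refine Submodule.smul_induction_on hx (fun c hc y hy => ?_) fun y y' h1 h2 => ?_
  · obtain ⟨z, hz⟩ := hq c hc
    rw [rolat_smul, smul_smul, mul_comm, hz]
    exact X.smul_mem z hy
  · rw [smul_add]
    exact X.add_mem h1 h2

theorem smul_divI (X : OSub K N) {𝔞 : Ideal (𝓞 K)} (h : 𝔞 ≠ ⊥) : 𝔞 • divI X 𝔞 = X := by
  refine le_antisymm (Submodule.smul_le.2 fun c hc y hy => hy c hc) fun x hx => ?_
  refine rolat_key h fun q hq c hc => ?_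
  rw [smul_comm]
  exact rolat_inv hq (Submodule.smul_mem_smul hc hx)

theorem divI_smul (X : OSub K N) {𝔞 : Ideal (𝓞 K)} (h : 𝔞 ≠ ⊥) : divI (𝔞 • X) 𝔞 = X :=
  le_antisymm (fun _ hy => rolat_key0 h fun p hp _ hq => rolat_inv hq (hy p hp))
    fun _ hx _ hc => Submodule.smul_mem_smul hc hx

theorem smul_inf_eq (X Y : OSub K N) (𝔞 : Ideal (𝓞 K)) : 𝔞 • (X ⊓ Y) = 𝔞 • X ⊓ 𝔞 • Y := by
  by_cases h : 𝔞 = ⊥
  · simp [h]
  refine le_antisymm (le_inf (Submodule.smul_mono le_rfl inf_le_left)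
    (Submodule.smul_mono le_rfl inf_le_right)) fun x hx => ?_
  exact rolat_key h fun q hq => ⟨rolat_inv hq hx.1, rolat_inv hq hx.2⟩

theorem rad_le_smul_sharp (B : Matrix (Fin N) (Fin N) K) (M : OSub K N) {𝔠 : Ideal (𝓞 K)}
    (h : 𝔠 ≠ ⊥) : rad B M 𝔠 = M ⊓ 𝔠 • sharp B M := by
  apply le_antisymm
  · intro y hy
    refine Submodule.mem_inf.2 ⟨(mem_rad.1 hy).1, rolat_key h fun q hq x hx => ?_⟩
    obtain ⟨z, hz, e⟩ := (mem_rad.1 hy).2 x hx
    rw [bil_smul_right, e, mul_comm]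
    exact hq z hz
  · intro y hy
    refine mem_rad.2 ⟨(Submodule.mem_inf.1 hy).1, fun x hx => ?_⟩
    refine Submodule.smul_induction_on (p := fun y => ∃ z ∈ 𝔠, bil B x y = (z : K))
      (Submodule.mem_inf.1 hy).2 (fun c hc w hw => ?_) ?_
    · obtain ⟨z, hz⟩ := hw x hx
      exact ⟨c * z, 𝔠.mul_mem_right z hc, by rw [bil_ismul_right, hz]; simp⟩
    · rintro w w' ⟨z, hz, e⟩ ⟨z', hz', e'⟩
      exact ⟨z + z', 𝔠.add_mem hz hz', by rw [bil_add_right, e, e']; simp⟩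

end Pool.Agent.Work.MP_c8d35c_al
end

-- merged part: Pool.Agent.Work.MP_c8d35c_al.ROIdx
section
/-! Index and covolume formulas for lattices over the ring of integers. -/

namespace Pool.Agent.Work.MP_c8d35c_al

open NumberField Module Matrix

variable {K : Type} [Field K] [NumberField K] {N : ℕ}

omit [NumberField K] in
lemma ROIdx_span_smul (c : 𝓞 K) (X : OSub K N) :
    (Ideal.span {c} • X).toAddSubgroup =
      X.toAddSubgroup.map (DistribSMul.toAddMonoidHom (Fin N → K) c) := by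
  ext y
  rw [Submodule.mem_toAddSubgroup, Submodule.ideal_span_singleton_smul,
    Submodule.mem_smul_pointwise_iff_exists, AddSubgroup.mem_map]
  rfl

omit [NumberField K] in
lemma ROIdx_idx_span {c : 𝓞 K} (hc : c ≠ 0) (X Y : OSub K N) :
    idx (Ideal.span {c} • X) (Ideal.span {c} • Y) = idx X Y := by
  unfold idx
  rw [ROIdx_span_smul, ROIdx_span_smul]
  refine AddSubgroup.relIndex_map_map_of_injective _ _ fun x y h => ?_
  have hc' : (c : K) ≠ 0 := by exact_mod_cast hc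
  have h1 : (c : K) • x = (c : K) • y := h
  exact smul_right_injective _ hc' h1

lemma ROIdx_smul_le {X Y : OSub K N} (hX : Lat X) (hY : Lat Y) {𝔞 : Ideal (𝓞 K)} (h : 𝔞 ≠ ⊥) :
    idx (𝔞 • X) (𝔞 • Y) ≤ idx X Y := by
  obtain ⟨k, hk, hkY⟩ := hX.exists_smul_le hY
  have hk0 : (k : 𝓞 K) ≠ 0 := by exact_mod_cast hk.ne'
  have hm : Ideal.span {(k : 𝓞 K)} ≠ ⊥ := by simpa using hk.ne'
  have hmY : Ideal.span {(k : 𝓞 K)} • Y ≤ X := by
    rw [Submodule.ideal_span_singleton_smul]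
    intro y hy
    obtain ⟨z, hz, rfl⟩ := (Submodule.mem_smul_pointwise_iff_exists _ _ _).1 hy
    have h1 := hkY z hz
    rwa [Nat.cast_smul_eq_nsmul, ← Nat.cast_smul_eq_nsmul (𝓞 K)] at h1
  obtain ⟨c, hc⟩ := IsDedekindDomain.exists_sup_span_eq
    (Ideal.mul_le_left : 𝔞 * Ideal.span {(k : 𝓞 K)} ≤ 𝔞) (mul_ne_zero h hm)
  have hc𝔞 : Ideal.span {c} ≤ 𝔞 := hc ▸ le_sup_right
  have h1 : 𝔞 • Y ≤ 𝔞 • X ⊔ Ideal.span {c} • Y := by
    conv_lhs => rw [← hc, Submodule.sup_smul, mul_smul]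
    exact sup_le_sup_right (Submodule.smul_mono le_rfl hmY) _
  have h0 := hX.idx_ne_zero hY
  by_cases hc0 : c = 0
  · have h2 : 𝔞 • Y ≤ 𝔞 • X := by simpa [hc0] using h1
    have h3 : idx (𝔞 • X) (𝔞 • Y) = 1 := AddSubgroup.relIndex_eq_one.2 h2
    omega
  · have h2 := ROIdx_idx_span hc0 X Y
    have h3 : idx (𝔞 • X) (Ideal.span {c} • Y) ≤ idx X Y := by
      rw [← h2]
      exact idx_mono (Submodule.smul_mono hc𝔞 le_rfl) le_rfl (by rwa [h2])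
    have h4 : Ideal.span {c} ≠ ⊥ := by simpa using hc0
    refine le_trans ?_ h3
    rw [← idx_sup (𝔞 • X) (Ideal.span {c} • Y)]
    exact idx_mono le_rfl h1 ((hX.smul h).idx_ne_zero ((hX.smul h).sup (hY.smul h4)))

lemma ROIdx_smul_smul {X Y : OSub K N} (hX : Lat X) (hY : Lat Y) {𝔞 : Ideal (𝓞 K)} (h : 𝔞 ≠ ⊥) :
    idx (𝔞 • X) (𝔞 • Y) = idx X Y := by
  refine le_antisymm (ROIdx_smul_le hX hY h) ?_
  obtain ⟨𝔟, a, ha, hab⟩ := exists_mul_eq_span h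
  have hb : 𝔟 ≠ ⊥ := by
    rintro rfl
    rw [Ideal.mul_bot, eq_comm, Ideal.span_singleton_eq_bot] at hab
    exact ha hab
  have h1 := ROIdx_smul_le (hX.smul h) (hY.smul h) hb
  rwa [← mul_smul, ← mul_smul, mul_comm, hab, ROIdx_idx_span ha] at h1

lemma ROIdx_of_le {X Y : OSub K N} (hX : Lat X) (hY : Lat Y) (hXY : X ≤ Y) {𝔞 : Ideal (𝓞 K)}
    (h : 𝔞 ≠ ⊥) : idx (𝔞 • X) X = idx (𝔞 • Y) Y := by
  have h1 := idx_mul (Submodule.smul_mono (le_refl 𝔞) hXY) (Submodule.smul_le_right : 𝔞 • Y ≤ Y)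
  have h2 := idx_mul (Submodule.smul_le_right : 𝔞 • X ≤ X) hXY
  rw [ROIdx_smul_smul hX hY h, ← h2, mul_comm] at h1
  exact (Nat.eq_of_mul_eq_mul_right (Nat.pos_of_ne_zero (hX.idx_ne_zero hY)) h1).symm

/-- The coordinatewise inclusion of the integral vectors. -/
noncomputable def ROIdx_inc (K : Type) [Field K] (N : ℕ) : (Fin N → 𝓞 K) →+ (Fin N → K) where
  toFun x := fun i => (x i : K)
  map_zero' := by funext i; simp
  map_add' x y := by funext i; simp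

omit [NumberField K] in
lemma ROIdx_mem_smul_std (𝔞 : Ideal (𝓞 K)) (x : Fin N → K) :
    x ∈ 𝔞 • stdL K N ↔ ∀ i, ∃ z ∈ 𝔞, x i = (z : K) := by
  constructor
  · intro hx
    refine Submodule.smul_induction_on hx ?_ ?_
    · intro r hr y hy i
      obtain ⟨z, hz⟩ := hy i
      exact ⟨r * z, 𝔞.mul_mem_right z hr, by simp [hz, Algebra.smul_def]⟩
    · intro y y' hy hy' i
      obtain ⟨z, hz0, hz⟩ := hy i
      obtain ⟨w, hw0, hw⟩ := hy' i
      exact ⟨z + w, 𝔞.add_mem hz0 hw0, by simp [hz, hw]⟩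
  · intro hx
    choose z hz hz' using hx
    have h1 : x = ∑ i, z i • (Pi.single i 1 : Fin N → K) := by
      funext j
      rw [Finset.sum_apply, Finset.sum_eq_single j]
      · simp [hz', Algebra.smul_def]
      · intro i _ hij
        simp [Pi.single_eq_of_ne hij.symm]
      · simp
    rw [h1]
    refine Submodule.sum_mem _ fun i _ => Submodule.smul_mem_smul (hz i) fun j => ?_
    by_cases hij : j = i
    · exact ⟨1, by simp [hij]⟩
    · exact ⟨0, by simp [Pi.single_eq_of_ne hij]⟩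

lemma ROIdx_std (𝔞 : Ideal (𝓞 K)) : idx (𝔞 • stdL K N) (stdL K N) = Ideal.absNorm 𝔞 ^ N := by
  have h1 : (stdL K N).toAddSubgroup = (⊤ : AddSubgroup (Fin N → 𝓞 K)).map (ROIdx_inc K N) := by
    ext x
    constructor
    · intro hx
      choose z hz using (show ∀ i, ∃ z : 𝓞 K, x i = z from hx)
      exact ⟨z, trivial, funext fun i => (hz i).symm⟩
    · rintro ⟨z, -, rfl⟩ i
      exact ⟨z i, rfl⟩
  have h2 : (𝔞 • stdL K N).toAddSubgroup =
      (AddSubgroup.pi Set.univ fun _ : Fin N => 𝔞.toAddSubgroup).map (ROIdx_inc K N) := by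
    ext x
    rw [Submodule.mem_toAddSubgroup, ROIdx_mem_smul_std]
    constructor
    · intro hx
      choose z hz hz' using hx
      exact ⟨z, fun i _ => hz i, funext fun i => (hz' i).symm⟩
    · rintro ⟨z, hz, rfl⟩ i
      exact ⟨z i, hz i trivial, rfl⟩
  have h3 : Function.Injective (ROIdx_inc K N) := fun x y h =>
    funext fun i => RingOfIntegers.ext (congrFun h i)
  unfold idx
  rw [h1, h2, AddSubgroup.relIndex_map_map_of_injective _ _ h3, AddSubgroup.relIndex_top_right,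
    AddSubgroup.index_pi, Finset.prod_const, Finset.card_univ, Fintype.card_fin]
  rfl

/-- The dual lattice for the trace form as a module over the ring of integers. -/
noncomputable def ROIdx_dual (B : Matrix (Fin N) (Fin N) K) (M : OSub K N) : OSub K N where
  carrier := {y | ∀ x ∈ M, bil B x y ∈ Od K}
  zero_mem' := fun x _ => by simp [bil_zero_right]
  add_mem' := fun ha hb x hx => by
    rw [bil_add_right]
    exact (Od K).add_mem (ha x hx) (hb x hx)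
  smul_mem' := fun c y hy x hx => by
    rw [bil_ismul_right]
    exact mul_mem_Od c (hy x hx)

theorem idx_smul {M : OSub K N} (hM : Lat M) {𝔞 : Ideal (𝓞 K)} (h : 𝔞 ≠ ⊥) :
    (idx (𝔞 • M) M : ℝ) = nm 𝔞 ^ N := by
  rw [← ROIdx_of_le (hM.inf lat_std) hM inf_le_left h,
    ROIdx_of_le (hM.inf lat_std) lat_std inf_le_right h, ROIdx_std]
  simp [nm]

theorem idx_smul_smul {X Y : OSub K N} (hX : Lat X) (hY : Lat Y) {𝔞 : Ideal (𝓞 K)} (h : 𝔞 ≠ ⊥) :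
    idx (𝔞 • X) (𝔞 • Y) = idx X Y := by
  exact ROIdx_smul_smul hX hY h

theorem covB_pos {B : Matrix (Fin N) (Fin N) K} (hB : B.det ≠ 0) {M : OSub K N} (hM : Lat M) :
    0 < covB B M := by
  exact cov_pos (trB_nondeg hB) hM

theorem covB_of_le (B : Matrix (Fin N) (Fin N) K) {X Y : OSub K N} (hX : Lat X) (hY : Lat Y)
    (h : X ≤ Y) : covB B X = idx X Y * covB B Y := by
  exact cov_of_le (trB B) hX hY h

/-- Membership in the dual for the trace form. -/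
theorem mem_dualA_trB {B : Matrix (Fin N) (Fin N) K} {M : OSub K N} {y : Fin N → K} :
    y ∈ dualA (trB B) M.toAddSubgroup ↔ ∀ x ∈ M, bil B x y ∈ Od K := by
  constructor
  · intro h x hx
    rw [mem_Od]
    intro z
    have h1 := h (z • x) (M.smul_mem z hx)
    rwa [trB_apply, bil_ismul_left] at h1
  · intro h x hx
    have h1 := mem_Od.1 (h x hx) 1
    simpa [trB_apply] using h1

theorem covB_mul_sharp {B : Matrix (Fin N) (Fin N) K} (hs : B.IsSymm) (hB : B.det ≠ 0)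
    {M : OSub K N} (hM : Lat M) : covB B M * covB B (sharp B M) = dsc K ^ N := by
  have h1 : (ROIdx_dual B M).toAddSubgroup = dualA (trB B) M.toAddSubgroup := by
    ext y
    exact mem_dualA_trB.symm
  have h2 : Lat (ROIdx_dual B M) := by
    unfold Lat
    rw [h1]
    exact Full.dual (trB_nondeg hB) hM
  have h3 : covB B M * covB B (ROIdx_dual B M) = 1 := by
    unfold covB
    rw [h1]
    exact cov_mul_cov_dual (trB_nondeg hB) (trB_symm hs) hM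
  obtain ⟨𝔡, hd0, hd1, hd2, s, a, hs1, hs2⟩ := exists_different (K := K)
  have h4 : 𝔡 • ROIdx_dual B M = sharp B M := by
    refine le_antisymm (Submodule.smul_le.2 fun c hc y hy x hx => ?_) fun y hy => ?_
    · rw [bil_ismul_right]
      exact hd2 c hc _ (hy x hx)
    · have h5 : y = ∑ c ∈ s, c • a c • y := by
        have h6 : ∀ c ∈ s, c • a c • y = ((c : K) * a c) • y := fun c _ => by
          rw [mul_smul]
          rfl
        rw [Finset.sum_congr rfl h6, ← Finset.sum_smul, hs2, one_smul]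
      rw [h5]
      refine Submodule.sum_mem _ fun c hc => Submodule.smul_mem_smul (hs1 c hc).1 fun x hx => ?_
      obtain ⟨z, hz⟩ := hy x hx
      rw [bil_smul_right, hz, mul_comm]
      exact mul_mem_Od z (hs1 c hc).2
  rw [← h4, covB_of_le B (h2.smul hd0) h2 Submodule.smul_le_right, idx_smul h2 hd0, hd1,
    mul_left_comm, h3, mul_one]

theorem covB_sq_mul_rad {B : Matrix (Fin N) (Fin N) K} {M : OSub K N} (hM : Integ B M)
    {𝔠 : Ideal (𝓞 K)} (h : 𝔠 ≠ ⊥) :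
    covB B M ^ 2 * idx (rad B M 𝔠) M = dsc K ^ N * nm 𝔠 ^ N * iota B M 𝔠 := by
  have hS : Lat (sharp B M) := hM.lat.sharp hM.det
  have hle : M ⊔ 𝔠 • sharp B M ≤ sharp B M := sup_le hM.int Submodule.smul_le_right
  have h1 : idx (rad B M 𝔠) M = idx (𝔠 • sharp B M) (M ⊔ 𝔠 • sharp B M) := by
    rw [rad_le_smul_sharp B M h, inf_comm, idx_inf, sup_comm, idx_sup]
  have h2 := idx_mul (le_sup_right : 𝔠 • sharp B M ≤ M ⊔ 𝔠 • sharp B M) hle
  have h3 := idx_mul (le_sup_left : M ≤ M ⊔ 𝔠 • sharp B M) hle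
  have h4 := covB_of_le B hM.lat hS hM.int
  have h5 := covB_mul_sharp hM.symm hM.det hM.lat
  have h6 : covB B M ^ 2 = idx M (sharp B M) * dsc K ^ N := by
    rw [← h5, mul_left_comm, ← h4, sq]
  rw [h6, h1, ← idx_smul hS h, ← h2, ← h3, iota]
  push_cast
  ring

theorem one_le_iota {B : Matrix (Fin N) (Fin N) K} {M : OSub K N} (hM : Integ B M)
    (𝔠 : Ideal (𝓞 K)) : 1 ≤ iota B M 𝔠 := by
  have hS : Lat (sharp B M) := hM.lat.sharp hM.det
  exact Nat.one_le_iff_ne_zero.2 (hM.lat.idx_ne_zero (hM.lat.of_le_of_le hS le_sup_left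
    (sup_le hM.int Submodule.smul_le_right)))

/-- Norms of vectors in the dual of `𝔠 M` are not small. -/
theorem exists_norm_lower [IsTotallyReal K] {B : Matrix (Fin N) (Fin N) K} {M : OSub K N}
    (hM : Integ B M) : ∃ c0 : ℝ, 0 < c0 ∧ ∀ 𝔠 : Ideal (𝓞 K), 𝔠 ≠ ⊥ →
      ∀ ξ ∈ dualA (trB B) (𝔠 • M).toAddSubgroup, bil B ξ ξ ≠ 0 →
        c0 ≤ (∏ σ : Emb K, |σ (bil B ξ ξ)|) * nm 𝔠 ^ 2 := by
  have h1 : (ROIdx_dual B M).toAddSubgroup = dualA (trB B) M.toAddSubgroup := by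
    ext y
    exact mem_dualA_trB.symm
  have h2 : Lat (ROIdx_dual B M) := by
    unfold Lat
    rw [h1]
    exact Full.dual (trB_nondeg hM.det) hM.lat
  obtain ⟨k, hk, hkM⟩ := hM.lat.exists_smul_le h2
  have hkR : (0 : ℝ) < ((k : ℝ) ^ 2) ^ Fintype.card (Emb K) := by positivity
  refine ⟨1 / ((k : ℝ) ^ 2) ^ Fintype.card (Emb K), by positivity, fun 𝔠 hc ξ hξ h0 => ?_⟩
  rw [mem_dualA_trB] at hξ
  have h3 : ∀ c ∈ 𝔠, (k : K) • c • ξ ∈ M := fun c hc => hkM _ fun x hx => by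
    rw [bil_ismul_right, ← bil_ismul_left]
    exact hξ _ (Submodule.smul_mem_smul hc hx)
  have hkK : (k : K) ≠ 0 := by exact_mod_cast hk.ne'
  have h4 := one_le_prod_mul (𝔞 := 𝔠 * 𝔠) (z := (k : K) ^ 2 * bil B ξ ξ) (mul_ne_zero hc hc)
    (mul_ne_zero (pow_ne_zero 2 hkK) h0) (fun c hcc => by
      refine Submodule.mul_induction_on hcc (fun c hc c' hc' => ?_) ?_
      · obtain ⟨z, hz⟩ := hM.int (h3 c' hc') _ (h3 c hc)
        refine ⟨z, ?_⟩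
        rw [← hz, bil_smul_left, bil_smul_right, bil_ismul_left, bil_ismul_right]
        push_cast
        ring
      · rintro c c' ⟨z, hz⟩ ⟨w, hw⟩
        refine ⟨z + w, ?_⟩
        push_cast
        rw [add_mul, hz, hw])
  have h5 : ∏ σ : Emb K, |σ ((k : K) ^ 2 * bil B ξ ξ)| =
      ((k : ℝ) ^ 2) ^ Fintype.card (Emb K) * ∏ σ : Emb K, |σ (bil B ξ ξ)| := by
    rw [← Finset.card_univ, ← Finset.prod_const, ← Finset.prod_mul_distrib]
    exact Finset.prod_congr rfl fun σ _ => by simp [abs_mul]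
  rw [h5, nm_mul, ← sq, mul_assoc] at h4
  rwa [div_le_iff₀ hkR, mul_comm]

/-- Pieces killed by distinct primes are independent. -/
theorem prod_idx_le {R E : OSub K N} (h : idx R E ≠ 0) (s : Finset (Ideal (𝓞 K)))
    (hs : ∀ 𝔭 ∈ s, 𝔭.IsMaximal) (P : Ideal (𝓞 K) → OSub K N)
    (hP : ∀ 𝔭 ∈ s, P 𝔭 ≤ R ⊔ E ∧ 𝔭 • P 𝔭 ≤ R) : ∏ 𝔭 ∈ s, idx R (P 𝔭) ≤ idx R E := by
  classical
  have key : ∀ t : Finset (Ideal (𝓞 K)), t ⊆ s → (∏ 𝔭 ∈ t, 𝔭) • (R ⊔ t.sup P) ≤ R ∧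
      idx R (R ⊔ t.sup P) = ∏ 𝔭 ∈ t, idx R (P 𝔭) := by
    intro t
    induction t using Finset.induction_on with
    | empty =>
      intro _
      refine ⟨by simp, ?_⟩
      rw [Finset.sup_empty, sup_bot_eq, Finset.prod_empty]
      exact AddSubgroup.relIndex_self _
    | insert q t hq ih =>
      intro hsub
      have hqs : q ∈ s := hsub (Finset.mem_insert_self q t)
      have hts : t ⊆ s := (Finset.subset_insert q t).trans hsub
      obtain ⟨ih1, ih2⟩ := ih hts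
      have e1 : R ⊔ (insert q t).sup P = (R ⊔ t.sup P) ⊔ P q := by
        rw [Finset.sup_insert, sup_comm (P q), sup_assoc]
      rw [e1, Finset.prod_insert hq, Finset.prod_insert hq]
      constructor
      · rw [Submodule.smul_sup]
        exact sup_le ((Submodule.smul_mono Ideal.mul_le_right le_rfl).trans ih1)
          ((Submodule.smul_mono Ideal.mul_le_left le_rfl).trans (hP q hqs).2)
      · have hco : IsCoprime q (∏ 𝔭 ∈ t, 𝔭) := IsCoprime.prod_right fun p hp =>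
          Ideal.isCoprime_iff_sup_eq.2
            ((hs q hqs).coprime_of_ne (hs p (hts hp)) fun e => hq (e ▸ hp))
        have e2 : (R ⊔ t.sup P) ⊓ P q = R ⊓ P q := by
          refine le_antisymm (le_inf ?_ inf_le_right) (inf_le_inf_right _ le_sup_left)
          have e3 : (R ⊔ t.sup P) ⊓ P q = (q ⊔ ∏ 𝔭 ∈ t, 𝔭) • ((R ⊔ t.sup P) ⊓ P q) := by
            rw [Ideal.isCoprime_iff_sup_eq.1 hco, Submodule.top_smul]
          rw [e3, Submodule.sup_smul]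
          exact sup_le ((Submodule.smul_mono le_rfl inf_le_right).trans (hP q hqs).2)
            ((Submodule.smul_mono le_rfl inf_le_left).trans ih1)
        rw [← idx_mul (le_sup_left : R ≤ R ⊔ t.sup P) le_sup_left, ih2, idx_sup, ← idx_inf, e2,
          idx_inf, mul_comm]
  rw [← (key s le_rfl).2, ← idx_sup R E]
  refine idx_mono le_rfl (sup_le le_sup_left (Finset.sup_le fun p hp => (hP p hp).1)) ?_
  rwa [idx_sup]

end Pool.Agent.Work.MP_c8d35c_al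
end

-- merged part: Pool.Agent.Work.MP_c8d35c_al.RInv
section
/-! A maximal invariant integral lattice. -/

namespace Pool.Agent.Work.MP_c8d35c_al

open NumberField Module Matrix

variable {K : Type} [Field K] [NumberField K] {N : ℕ}

/-- The matrices with integral entries and integral inverse. -/
noncomputable def glO (K : Type) [Field K] (N : ℕ) : Subgroup (GL (Fin N) K) :=
  (Matrix.GeneralLinearGroup.map (n := Fin N) (algebraMap (𝓞 K) K)).range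

section
omit [NumberField K]

/-- The action of an invertible matrix. -/
noncomputable def rinvAct (g : GL (Fin N) K) : (Fin N → K) →ₗ[𝓞 K] (Fin N → K) :=
  (Matrix.mulVecLin g.val).restrictScalars (𝓞 K)

lemma rinvAct_apply (g : GL (Fin N) K) (x : Fin N → K) : rinvAct g x = g.val *ᵥ x := rfl

lemma rinv_std {h : GL (Fin N) K} (hh : h ∈ glO K N) {x : Fin N → K} (hx : x ∈ stdL K N) :
    h.val *ᵥ x ∈ stdL K N := by
  obtain ⟨h0, rfl⟩ := hh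
  choose z hz using hx
  intro i
  refine ⟨∑ j, h0.val i j * z j, ?_⟩
  simp [Matrix.mulVec, dotProduct, hz]

lemma rinv_anti {A : Matrix (Fin N) (Fin N) K} {X Y : OSub K N} (h : X ≤ Y) :
    sharp A Y ≤ sharp A X := fun _ hy x hx => hy x (h hx)

lemma rinv_swap {A : Matrix (Fin N) (Fin N) K} (hs : A.IsSymm) {X Y : OSub K N}
    (h : X ≤ sharp A Y) : Y ≤ sharp A X := fun y hy x hx => by
  rw [bil_comm hs]
  exact h hx y hy

lemma rinv_sup {A : Matrix (Fin N) (Fin N) K} (hs : A.IsSymm) {X Y Z : OSub K N}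
    (h1 : Z ≤ sharp A X) (h2 : Z ≤ sharp A Y) : Z ≤ sharp A (X ⊔ Y) :=
  rinv_swap hs (sup_le (rinv_swap hs h1) (rinv_swap hs h2))

lemma rinv_sharp_inv {A : Matrix (Fin N) (Fin N) K} {G : Subgroup (GL (Fin N) K)}
    (hG : ∀ g ∈ G, ∀ x y, bil A (g.val *ᵥ x) (g.val *ᵥ y) = bil A x y) {L : OSub K N}
    (hL : ∀ g ∈ G, ∀ x ∈ L, g.val *ᵥ x ∈ L) : ∀ g ∈ G, ∀ y ∈ sharp A L, g.val *ᵥ y ∈ sharp A L := by
  intro g hg y hy x hx
  have h1 : x = g.val *ᵥ ((g⁻¹).val *ᵥ x) := by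
    rw [Matrix.mulVec_mulVec, ← Units.val_mul, mul_inv_cancel, Units.val_one, Matrix.one_mulVec]
  rw [h1, hG g hg]
  exact hy _ (hL _ (G.inv_mem hg) x hx)

lemma rinv_inv_sup {G : Subgroup (GL (Fin N) K)} {X Y : OSub K N}
    (hX : ∀ g ∈ G, ∀ x ∈ X, g.val *ᵥ x ∈ X) (hY : ∀ g ∈ G, ∀ x ∈ Y, g.val *ᵥ x ∈ Y)
    (𝔞 : Ideal (𝓞 K)) : ∀ g ∈ G, ∀ x ∈ X ⊔ 𝔞 • Y, g.val *ᵥ x ∈ X ⊔ 𝔞 • Y := by
  intro g hg x hx
  have h1 : (X ⊔ 𝔞 • Y).map (rinvAct g) ≤ X ⊔ 𝔞 • Y := by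
    rw [Submodule.map_sup, Submodule.map_smul'']
    refine sup_le_sup ?_ (Submodule.smul_mono le_rfl ?_)
    · rintro _ ⟨y, hy, rfl⟩
      exact hX g hg y hy
    · rintro _ ⟨y, hy, rfl⟩
      exact hY g hg y hy
  exact h1 ⟨x, hx, rfl⟩

lemma rinv_int_sup {A : Matrix (Fin N) (Fin N) K} (hs : A.IsSymm) {L : OSub K N}
    (hL : L ≤ sharp A L) {𝔞 : Ideal (𝓞 K)} (h : (𝔞 * 𝔞) • sharp A L ≤ L) :
    L ⊔ 𝔞 • sharp A L ≤ sharp A (L ⊔ 𝔞 • sharp A L) := by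
  have h1 : 𝔞 • sharp A L ≤ sharp A L := Submodule.smul_le_right
  refine rinv_sup hs (sup_le hL h1) (sup_le (rinv_swap hs h1) ?_)
  refine Submodule.smul_le.2 fun a ha u hu => ?_
  have h2 : 𝔞 • sharp A L ≤ sharp A (Submodule.span (𝓞 K) {a • u}) := by
    refine Submodule.smul_le.2 fun b hb v hv x hx => ?_
    obtain ⟨t, rfl⟩ := Submodule.mem_span_singleton.1 hx
    have h3 : (t * (a * b)) • u ∈ L :=
      h (Submodule.smul_mem_smul (Ideal.mul_mem_left _ t (Ideal.mul_mem_mul ha hb)) hu)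
    obtain ⟨z, hz⟩ := hv _ h3
    refine ⟨z, ?_⟩
    rw [← hz]
    simp only [bil_ismul_left, bil_ismul_right]
    push_cast
    ring
  exact rinv_swap hs h2 (Submodule.mem_span_singleton_self _)

end

theorem exists_inv_lattice {G : Subgroup (GL (Fin N) K)} (hi : (glO K N).relIndex G ≠ 0) :
    ∃ L : OSub K N, Lat L ∧ ∀ g ∈ G, ∀ x ∈ L, g.val *ᵥ x ∈ L := by
  set H := (glO K N).subgroupOf G with hH
  have hfin : Finite (G ⧸ H) := Nat.finite_of_card_ne_zero hi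
  obtain ⟨hfg, hden⟩ := (lat_iff _).1 (lat_std (K := K) (N := N))
  have e : ⨆ g : G, (stdL K N).map (rinvAct g.1) =
      ⨆ q : G ⧸ H, (stdL K N).map (rinvAct q.out.1) := by
    refine le_antisymm (iSup_le fun g => ?_) (iSup_le fun q => le_iSup_of_le q.out le_rfl)
    refine le_iSup_of_le (QuotientGroup.mk g) ?_
    obtain ⟨h, hh⟩ := QuotientGroup.mk_out_eq_mul H g
    rintro _ ⟨x, hx, rfl⟩
    refine ⟨((h⁻¹ : H) : G).1.val *ᵥ x, rinv_std (h⁻¹).2 hx, ?_⟩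
    rw [rinvAct_apply, rinvAct_apply, Matrix.mulVec_mulVec, ← Units.val_mul, hh]
    simp
  refine ⟨⨆ g : G, (stdL K N).map (rinvAct g.1), (lat_iff _).2 ⟨?_, fun x => ?_⟩, ?_⟩
  · rw [e]
    exact Submodule.fg_iSup _ fun q => hfg.map _
  · obtain ⟨c, hc, hx⟩ := hden x
    refine ⟨c, hc, Submodule.mem_iSup_of_mem 1 ⟨_, hx, ?_⟩⟩
    simp [rinvAct_apply]
  · intro g hg x hx
    have h1 : (⨆ g : G, (stdL K N).map (rinvAct g.1)).map (rinvAct g) ≤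
        ⨆ g : G, (stdL K N).map (rinvAct g.1) := by
      rw [Submodule.map_iSup]
      refine iSup_le fun g' => le_iSup_of_le (⟨g, hg⟩ * g') ?_
      rintro _ ⟨_, ⟨y, hy, rfl⟩, rfl⟩
      refine ⟨y, hy, ?_⟩
      simp [rinvAct_apply]
    exact h1 ⟨x, hx, rfl⟩

theorem exists_max_lattice {A : Matrix (Fin N) (Fin N) K} (hs : A.IsSymm) (hA : A.det ≠ 0)
    {G : Subgroup (GL (Fin N) K)} (hG : ∀ g ∈ G, ∀ x y, bil A (g.val *ᵥ x) (g.val *ᵥ y) = bil A x y)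
    (hi : (glO K N).relIndex G ≠ 0) :
    ∃ (L : OSub K N) (Pr : Finset (Ideal (𝓞 K))), Integ A L ∧ (∀ 𝔭 ∈ Pr, 𝔭.IsMaximal) ∧
      (∏ 𝔭 ∈ Pr, 𝔭) • sharp A L ≤ L ∧ ∀ g ∈ G, ∀ x ∈ L, g.val *ᵥ x ∈ L := by
  classical
  obtain ⟨L0, hL0, hinv0⟩ := exists_inv_lattice hi
  set L1 := L0 ⊓ sharp A L0 with hL1
  have hlat1 : Lat L1 := hL0.inf (hL0.sharp hA)
  have hT : Lat (sharp A L1) := hlat1.sharp hA
  let P : OSub K N → Prop := fun M =>
    L1 ≤ M ∧ M ≤ sharp A M ∧ ∀ g ∈ G, ∀ x ∈ M, g.val *ᵥ x ∈ M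
  have hP1 : P L1 := ⟨le_rfl, inf_le_right.trans (rinv_anti inf_le_left),
    fun g hg x hx => ⟨hinv0 g hg x hx.1, rinv_sharp_inv hG hinv0 g hg x hx.2⟩⟩
  have hPT : ∀ M, P M → M ≤ sharp A L1 := fun M hM => hM.2.1.trans (rinv_anti hM.1)
  have hPL : ∀ M, P M → Lat M := fun M hM => hlat1.of_le_of_le hT hM.1 (hPT M hM)
  obtain ⟨L, hL, hmin⟩ := exists_minimalFor_of_wellFoundedLT P (fun M => idx M (sharp A L1))
    ⟨L1, hP1⟩
  have hmax : ∀ M, P M → L ≤ M → M ≤ L := fun M hM hLM => by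
    have h1 := idx_mul hLM (hPT M hM)
    have h2 : idx M (sharp A L1) ≠ 0 := (hPL M hM).idx_ne_zero hT
    have h3 : idx L M ≠ 0 := (hPL L hL).idx_ne_zero (hPL M hM)
    have h4 : idx M (sharp A L1) ≤ idx L (sharp A L1) := by
      rw [← h1]
      exact Nat.le_mul_of_pos_left _ (Nat.pos_of_ne_zero h3)
    have h5 : idx L (sharp A L1) ≤ idx M (sharp A L1) := hmin hM h4
    have h6 : idx L M = 1 := by
      rw [← h1] at h5
      have := Nat.le_of_mul_le_mul_right (h5.trans_eq (one_mul _).symm) (Nat.pos_of_ne_zero h2)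
      omega
    exact fun x hx => AddSubgroup.relIndex_eq_one.1 h6 hx
  have hlat := hPL L hL
  set r : Ideal (𝓞 K) := L.colon (sharp A L) with hr
  have hmem : ∀ 𝔞 : Ideal (𝓞 K), 𝔞 ≤ r ↔ 𝔞 • sharp A L ≤ L := fun 𝔞 => by
    rw [Submodule.smul_le]
    exact ⟨fun h a ha y hy => Submodule.mem_colon.1 (h ha) y hy,
      fun h a ha => Submodule.mem_colon.2 fun y hy => h a ha y hy⟩
  have hr0 : r ≠ 0 := by
    obtain ⟨c, hc, h⟩ := hlat.exists_smul_le (hlat.sharp hA)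
    have h1 : (c : 𝓞 K) ∈ r := Submodule.mem_colon.2 fun y hy => by
      have := h y hy
      rwa [Nat.cast_smul_eq_nsmul, ← Nat.cast_smul_eq_nsmul (𝓞 K)] at this
    intro h0
    rw [h0] at h1
    exact hc.ne' (Nat.cast_eq_zero.1 (Ideal.mem_bot.1 h1))
  have hsq : Squarefree r := by
    rintro p ⟨j, hj⟩
    have h1 : (p * j) * (p * j) ≤ r := by
      rw [hj, show p * j * (p * j) = p * p * j * j by ring]
      exact Ideal.le_of_dvd (dvd_mul_right _ _)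
    have h2 : P (L ⊔ (p * j) • sharp A L) := ⟨hL.1.trans le_sup_left,
      rinv_int_sup hs hL.2.1 ((hmem _).1 h1),
      rinv_inv_sup hL.2.2 (rinv_sharp_inv hG hL.2.2) _⟩
    have h3 : p * j ≤ r := (hmem _).2 (le_sup_right.trans (hmax _ h2 le_sup_left))
    have h4 : p * j ≠ 0 := fun h0 => hr0 (by rw [hj, mul_assoc, h0, mul_zero])
    have h5 : p * (p * j) ∣ 1 * (p * j) := by
      rw [one_mul, ← mul_assoc, ← hj]
      exact Ideal.dvd_iff_le.2 h3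
    exact isUnit_of_dvd_one ((mul_dvd_mul_iff_right h4).1 h5)
  have hnd := (UniqueFactorizationMonoid.squarefree_iff_nodup_normalizedFactors hr0).1 hsq
  refine ⟨L, (UniqueFactorizationMonoid.normalizedFactors r).toFinset, ⟨hs, hA, hlat, hL.2.1⟩,
    fun p hp => ?_, ?_, hL.2.2⟩
  · have h1 := UniqueFactorizationMonoid.prime_of_normalized_factor p (Multiset.mem_toFinset.1 hp)
    exact (Ideal.isPrime_of_prime h1).isMaximal h1.ne_zero
  · rw [← hmem, Finset.prod_eq_multiset_prod, Multiset.toFinset_val, hnd.dedup, Multiset.map_id',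
      Ideal.prod_normalizedFactors_eq_self hr0]

end Pool.Agent.Work.MP_c8d35c_al
end

-- merged part: Pool.Agent.Work.MP_c8d35c_al.RTheta
section
/-! Frames, the Siegel theta function and the Gauss sums. -/

namespace Pool.Agent.Work.MP_c8d35c_al

set_option linter.unusedSectionVars false

open NumberField Module Matrix Complex

variable {K : Type} [Field K] [NumberField K] {n : ℕ}

/-- The coordinates: an embedding and an index. -/
abbrev Co (K : Type) [Field K] (n : ℕ) := Emb K × Fin (n + 1)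

open Classical in
/-- The signs: `-1` only at `(σ0, 0)`. -/
noncomputable def sg (σ0 : Emb K) (p : Co K n) : ℝ := if p = (σ0, 0) then -1 else 1

lemma sg_sign (σ0 : Emb K) (p : Co K n) : sg σ0 p = 1 ∨ sg σ0 p = -1 := by
  unfold sg; split_ifs <;> simp

lemma sg_base (σ0 : Emb K) : sg σ0 ((σ0, 0) : Co K n) = -1 := by simp [sg]

lemma sg_succ (σ0 σ : Emb K) (i : Fin n) : sg σ0 ((σ, i.succ) : Co K n) = 1 := by
  simp [sg, Fin.succ_ne_zero]

lemma sg_ne {σ0 σ : Emb K} (h : σ ≠ σ0) (i : Fin (n + 1)) : sg σ0 ((σ, i) : Co K n) = 1 := by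
  simp [sg, h]

/-- Real coordinates that diagonalise all real conjugates of the form. -/
def Frame (σ0 : Emb K) (B : Matrix (Fin (n + 1)) (Fin (n + 1)) K)
    (Φ : (Fin (n + 1) → K) →+ Co K n → ℝ) : Prop :=
  ∀ (σ : Emb K) (x y : Fin (n + 1) → K),
    ∑ i, sg σ0 (σ, i) * (Φ x (σ, i) * Φ y (σ, i)) = σ (bil B x y)

/-- `y - i sg x`. -/
noncomputable def bb (σ0 : Emb K) (y x : Emb K → ℝ) (p : Co K n) : ℂ :=
  (y p.1 : ℂ) - I * (sg σ0 p : ℝ) * (x p.1 : ℝ)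

/-- The Gaussian with complex widths `c`. -/
noncomputable def gs (c : Co K n → ℂ) (u : Co K n → ℝ) : ℂ :=
  cexp (-(Real.pi * ∑ p, c p * (u p : ℂ) ^ 2))

/-- The Siegel theta function. -/
noncomputable def theta (σ0 : Emb K) (Φ : (Fin (n + 1) → K) →+ Co K n → ℝ) (M : OSub K (n + 1))
    (y x : Emb K → ℝ) : ℂ :=
  ∑' v : M.toAddSubgroup, gs (bb σ0 y x) (Φ v)

/-- The archimedean factor. -/
noncomputable def psi (σ0 : Emb K) (n : ℕ) (y x : Emb K → ℝ) : ℂ :=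
  ∏ p : Co K n, (1 / bb σ0 y x p) ^ (1 / 2 : ℂ)

/-- The absolute value of the archimedean factor. -/
noncomputable def apsi (n : ℕ) (y x : Emb K → ℝ) : ℝ :=
  ∏ σ : Emb K, (y σ ^ 2 + x σ ^ 2) ^ (-(((n : ℝ) + 1) / 4))

/-- The normalised Gauss sum. -/
noncomputable def gau (B : Matrix (Fin (n + 1)) (Fin (n + 1)) K) (M : OSub K (n + 1)) (κ : K)
    (ξ : Fin (n + 1) → K) : ℂ :=
  avg M.toAddSubgroup (den κ • M).toAddSubgroup fun x =>
    ee ((Algebra.trace ℚ K (κ * (bil B x x / 2)) + trB B x ξ : ℚ) : ℝ)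

/-- The conditions in Dirichlet's theorem. -/
def Appr (y x : Emb K → ℝ) (c : 𝓞 K) (a : K) : Prop :=
  c ≠ 0 ∧ a ∈ Od K ∧ ∀ σ : Emb K, |σ c| ≤ 2 / √(y σ) ∧ |σ c * x σ - σ a| ≤ 2 * √(y σ)

/-- The majorant of the singular series. -/
noncomputable def sgs (B : Matrix (Fin (n + 1)) (Fin (n + 1)) K) (M : OSub K (n + 1)) : ℝ :=
  ∑' 𝔠 : Ideal (𝓞 K), nm 𝔠 ^ (1 - ((n : ℝ) + 1) / 2) / √(iota B M 𝔠 : ℝ)

lemma bb_re (σ0 : Emb K) (y x : Emb K → ℝ) (p : Co K n) : (bb σ0 y x p).re = y p.1 := by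
  simp [bb]

lemma rth_normSq (σ0 : Emb K) (y x : Emb K → ℝ) (p : Co K n) :
    normSq (bb σ0 y x p) = y p.1 ^ 2 + x p.1 ^ 2 := by
  rcases sg_sign σ0 p with e | e <;> simp [bb, normSq_apply, e, sq]

lemma rth_map_bil (σ : Emb K) (A : Matrix (Fin (n + 1)) (Fin (n + 1)) K) (x y : Fin (n + 1) → K) :
    σ (bil A x y) = (fun i => σ (x i)) ⬝ᵥ (A.map σ *ᵥ fun i => σ (y i)) := by
  simp [bil, dotProduct, mulVec, map_sum]

theorem bb_inv_re (σ0 : Emb K) (y x : Emb K → ℝ) (p : Co K n) :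
    ((bb σ0 y x p)⁻¹).re = y p.1 / (y p.1 ^ 2 + x p.1 ^ 2) := by
  rw [Complex.inv_re, rth_normSq, bb_re]

theorem norm_gs (c : Co K n → ℂ) (u : Co K n → ℝ) :
    ‖gs c u‖ = Real.exp (-(Real.pi * ∑ p, (c p).re * u p ^ 2)) := norm_cexp_gauss c u

theorem norm_psi (σ0 : Emb K) {y : Emb K → ℝ} (hy : ∀ σ, 0 < y σ) (x : Emb K → ℝ) :
    ‖psi σ0 n y x‖ = apsi n y x := by
  have h : ∀ p : Co K n, ‖(1 / bb σ0 y x p) ^ (1 / 2 : ℂ)‖ =
      (y p.1 ^ 2 + x p.1 ^ 2) ^ (-(1 / 4 : ℝ)) := fun p => by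
    have h0 : 0 ≤ y p.1 ^ 2 + x p.1 ^ 2 := add_nonneg (pow_pos (hy p.1) 2).le (sq_nonneg _)
    rw [show (1 / 2 : ℂ) = ((1 / 2 : ℝ) : ℂ) by norm_num, Complex.norm_cpow_real, norm_div, norm_one,
      Complex.norm_def, rth_normSq, Real.sqrt_eq_rpow, one_div (_ ^ _), ← Real.rpow_neg h0,
      ← Real.rpow_mul h0]
    norm_num
  simp only [psi, apsi, norm_prod, h, Fintype.prod_prod_type, Finset.prod_const, Finset.card_univ,
    Fintype.card_fin]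
  refine Finset.prod_congr rfl fun σ _ => ?_
  rw [← Real.rpow_natCast, ← Real.rpow_mul (by positivity)]
  congr 1
  push_cast
  ring

theorem continuous_psi (σ0 : Emb K) {y : Emb K → ℝ} (hy : ∀ σ, 0 < y σ) :
    Continuous (psi σ0 n y) := by
  refine continuous_finsetProd _ fun p _ => Continuous.cpow
    (continuous_const.div (by unfold bb; fun_prop) fun x h => ?_) continuous_const fun x => ?_
  · have := bb_re σ0 y x p
    rw [h, Complex.zero_re] at this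
    exact (hy p.1).ne this
  · refine Or.inl ?_
    have := hy p.1
    rw [one_div, bb_inv_re]
    positivity

variable {σ0 : Emb K} {B : Matrix (Fin (n + 1)) (Fin (n + 1)) K}
  {Φ : (Fin (n + 1) → K) →+ Co K n → ℝ}

theorem Frame.abs_le (h : Frame σ0 B Φ) (σ : Emb K) (x y : Fin (n + 1) → K) {a b : ℝ}
    (hx : ∀ i, |Φ x (σ, i)| ≤ a) (hy : ∀ i, |Φ y (σ, i)| ≤ b) :
    |σ (bil B x y)| ≤ (n + 1) * (a * b) := by
  rw [← h σ x y]
  refine (Finset.abs_sum_le_sum_abs _ _).trans ?_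
  have : ∀ i, |sg σ0 ((σ, i) : Co K n) * (Φ x (σ, i) * Φ y (σ, i))| ≤ a * b := fun i => by
    have h1 : |sg σ0 ((σ, i) : Co K n)| = 1 := by
      rcases sg_sign σ0 ((σ, i) : Co K n) with e | e <;> simp [e]
    rw [abs_mul, abs_mul, h1, one_mul]
    exact mul_le_mul (hx i) (hy i) (abs_nonneg _) ((abs_nonneg _).trans (hx i))
  simpa using Finset.sum_le_card_nsmul Finset.univ _ _ fun i _ => this i

variable [IsTotallyReal K]

theorem Frame.real (h : Frame σ0 B Φ) : RealFrame (trB B) (sg σ0) Φ := by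
  refine ⟨?_, sg_sign σ0, fun x y => ?_⟩
  · rw [Fintype.card_prod, card_emb, finrank_V, Fintype.card_fin, mul_comm]
  · rw [Fintype.sum_prod_type, trB_apply, ← sum_emb]
    exact Finset.sum_congr rfl fun σ _ => h σ x y

theorem Frame.aniso (h : Frame σ0 B Φ) (hd : 1 < finrank ℚ K) (hB : B.det ≠ 0)
    {x : Fin (n + 1) → K} (hx : x ≠ 0) : bil B x x ≠ 0 := by
  intro h0
  obtain ⟨σ, hσ⟩ := Fintype.exists_ne_of_one_lt_card (card_emb (K := K) ▸ hd) σ0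
  have h1 := h σ x x
  simp only [sg_ne hσ, one_mul, h0, map_zero] at h1
  have h2 : ∀ i, Φ x (σ, i) = 0 := fun i => mul_self_eq_zero.1
    ((Finset.sum_eq_zero_iff_of_nonneg fun i _ => mul_self_nonneg _).1 h1 i (Finset.mem_univ i))
  refine hx (eq_zero_of_bil hB fun y => σ.injective ?_)
  rw [← h σ y x]
  simp [h2]

/-- The theta function as a Fourier series. -/
theorem Frame.gs_bb (h : Frame σ0 B Φ) (y x : Emb K → ℝ) (v : Fin (n + 1) → K) :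
    gs (bb σ0 y x) (Φ v) = (Real.exp (-(Real.pi * ∑ p : Co K n, y p.1 * Φ v p ^ 2)) : ℝ) *
      ee (∑ σ : Emb K, x σ * σ (bil B v v / 2)) := by
  have e : ∑ σ : Emb K, x σ * σ (bil B v v / 2) =
      (∑ p : Co K n, sg σ0 p * x p.1 * Φ v p ^ 2) / 2 := by
    rw [Fintype.sum_prod_type, Finset.sum_div]
    refine Finset.sum_congr rfl fun σ _ => ?_
    rw [map_div₀, ← h σ v v, map_ofNat, ← mul_div_assoc, Finset.mul_sum]
    congr 1
    exact Finset.sum_congr rfl fun i _ => by ring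
  rw [e, gs, ee, Complex.ofReal_exp, ← Complex.exp_add]
  congr 1
  have e2 : ∑ p : Co K n, bb σ0 y x p * (Φ v p : ℂ) ^ 2 =
      ∑ p : Co K n, (y p.1 : ℂ) * (Φ v p : ℂ) ^ 2
        - I * ∑ p : Co K n, (sg σ0 p : ℝ) * (x p.1 : ℂ) * (Φ v p : ℂ) ^ 2 := by
    rw [Finset.mul_sum, ← Finset.sum_sub_distrib]
    exact Finset.sum_congr rfl fun p _ => by unfold bb; ring
  rw [e2]
  push_cast
  ring

/-- The data of an admissible form. -/
structure Adm (σ0 : Emb K) (A : Matrix (Fin (n + 1)) (Fin (n + 1)) K)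
    (P : GL (Fin (n + 1)) ℝ) : Prop where
  symm : A.IsSymm
  sig : P.valᵀ * A.map σ0 * P.val = lorMat n
  pos : ∀ σ : Emb K, σ ≠ σ0 → (A.map σ).PosDef

variable {A : Matrix (Fin (n + 1)) (Fin (n + 1)) K} {P : GL (Fin (n + 1)) ℝ}

theorem Adm.det (h : Adm σ0 A P) : A.det ≠ 0 := by
  intro h0
  have h1 := congrArg Matrix.det h.sig
  have h2 : (A.map σ0).det = 0 := by
    have := σ0.map_det A
    rw [h0, map_zero] at this
    exact this.symm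
  rw [det_mul, det_mul, h2, mul_zero, zero_mul, lorMat, det_diagonal] at h1
  refine Finset.prod_ne_zero_iff.2 (fun i _ => ?_) h1.symm
  split_ifs <;> norm_num

theorem Adm.lor_eq (h : Adm σ0 A P) (x y : Fin (n + 1) → K) :
    lor ((P⁻¹).val *ᵥ fun i => σ0 (x i)) ((P⁻¹).val *ᵥ fun i => σ0 (y i)) = σ0 (bil A x y) := by
  rw [lor_eq_dot, ← h.sig, rth_map_bil, ← mulVec_mulVec, ← mulVec_mulVec, gl_mulVec_inv,
    dotProduct_mulVec, vecMul_transpose, gl_mulVec_inv]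

theorem Adm.bil_pos (h : Adm σ0 A P) {σ : Emb K} (hσ : σ ≠ σ0) {x : Fin (n + 1) → K}
    (hx : x ≠ 0) : 0 < σ (bil A x x) := by
  rw [rth_map_bil]
  refine (h.pos σ hσ).dotProduct_mulVec_pos (x := fun i => σ (x i)) fun h0 => hx ?_
  funext i
  exact σ.injective (by simpa using congrFun h0 i)

open scoped MatrixOrder in
theorem Adm.frame (h : Adm σ0 A P) {m : K} (hm : ∀ σ : Emb K, 0 < σ m) {x : Fin (n + 1) → ℝ}
    (hx : x ∈ hyp n) : ∃ Φ : (Fin (n + 1) → K) →+ Co K n → ℝ, Frame σ0 ((2 / m) • A) Φ ∧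
      ∀ v, Φ v (σ0, 0) = -√(2 / σ0 m) * lor ((P⁻¹).val *ᵥ fun i => σ0 (v i)) x := by
  obtain ⟨g, hg, hgx⟩ := exists_isom_e0 hx
  have key : ∀ σ : Emb K, ∃ C : Matrix (Fin (n + 1)) (Fin (n + 1)) ℝ,
      (∀ u w : Fin (n + 1) → K, ∑ i, sg σ0 ((σ, i) : Co K n) *
        ((C *ᵥ fun j => σ (u j)) i * (C *ᵥ fun j => σ (w j)) i) = σ (bil A u w)) ∧
      (σ = σ0 → ∀ v : Fin (n + 1) → K,
        (C *ᵥ fun j => σ (v j)) 0 = -lor ((P⁻¹).val *ᵥ fun i => σ0 (v i)) x) := by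
    intro σ
    by_cases hσ : σ = σ0
    · subst hσ
      refine ⟨(g⁻¹).val * (P⁻¹).val, fun u w => ?_, fun _ v => ?_⟩
      · rw [← h.lor_eq, ← isomH_lor ((isomH n).inv_mem hg), Fin.sum_univ_succ, sg_base]
        simp only [sg_succ, ← mulVec_mulVec, lor, one_mul, neg_mul]
      · rw [← hgx, lor_comm, isomH_lor_inv hg, lor_comm, lor_e0, neg_neg, mulVec_mulVec]
    · obtain ⟨C, hC⟩ := CStarAlgebra.nonneg_iff_eq_star_mul_self.1 (h.pos σ hσ).posSemidef.nonneg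
      refine ⟨C, fun u w => ?_, fun e => absurd e hσ⟩
      rw [rth_map_bil, hC, ← mulVec_mulVec, star_eq_conjTranspose,
        conjTranspose_eq_transpose_of_trivial, dotProduct_mulVec, vecMul_transpose]
      simp only [sg_ne hσ, one_mul, dotProduct]
  choose C hC hC0 using key
  refine ⟨⟨⟨fun v p => √(2 / p.1 m) * (C p.1 *ᵥ fun j => p.1 (v j)) p.2, ?_⟩, fun u w => ?_⟩,
    fun σ u w => ?_, fun v => ?_⟩
  · funext p
    simp [mulVec, dotProduct]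
  · funext p
    simp [mulVec, dotProduct, mul_add, Finset.sum_add_distrib]
  · have h2 : √(2 / σ m) * √(2 / σ m) = 2 / σ m := Real.mul_self_sqrt (div_pos two_pos (hm σ)).le
    rw [bil_smul_form, map_mul, map_div₀, map_ofNat, ← hC σ u w, Finset.mul_sum, ← h2]
    refine Finset.sum_congr rfl fun i _ => ?_
    simp only [AddMonoidHom.coe_mk, ZeroHom.coe_mk]
    ring
  · simp only [AddMonoidHom.coe_mk, ZeroHom.coe_mk]
    rw [hC0 σ0 rfl v]
    ring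

end Pool.Agent.Work.MP_c8d35c_al
end

-- merged part: Pool.Agent.Work.MP_c8d35c_al.RRat
section
/-! The mirrors of a reflection group commensurable with an arithmetic group are rational. -/

namespace Pool.Agent.Work.MP_c8d35c_al

open NumberField Module Matrix

variable {n : ℕ}

lemma rrat_zero {a m b B : ℝ} (h : ∀ t : ℝ, 0 < t → |t ^ 2 * a + m + t⁻¹ ^ 2 * b| ≤ B) :
    a = 0 := by
  by_contra ha
  have ha' : 0 < |a| := abs_pos.2 ha
  have hB : 0 ≤ B := (abs_nonneg _).trans (h 1 one_pos)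
  set S := B + |m| + |b| with hS
  have hS0 : 0 ≤ S := by positivity
  set t := S / |a| + 1 with ht
  have ht1 : 1 ≤ t := by
    have := div_nonneg hS0 ha'.le
    linarith
  have h1 := h t (by linarith)
  have h2 : |t⁻¹ ^ 2 * b| ≤ |b| := by
    rw [abs_mul, abs_of_nonneg (sq_nonneg _)]
    refine mul_le_of_le_one_left (abs_nonneg _) (pow_le_one₀ (by positivity) ?_)
    exact inv_le_one_of_one_le₀ ht1
  have h3 : |t ^ 2 * a| ≤ S := by
    have e : t ^ 2 * a = (t ^ 2 * a + m + t⁻¹ ^ 2 * b) - m - t⁻¹ ^ 2 * b := by ring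
    rw [e]
    have a1 := abs_sub (t ^ 2 * a + m + t⁻¹ ^ 2 * b - m) (t⁻¹ ^ 2 * b)
    have a2 := abs_sub (t ^ 2 * a + m + t⁻¹ ^ 2 * b) m
    linarith
  rw [abs_mul, abs_of_nonneg (sq_nonneg _)] at h3
  have h4 : t * |a| = S + |a| := by
    rw [ht]
    field_simp
  nlinarith [mul_nonneg (mul_nonneg (sub_nonneg.2 ht1) (zero_le_one.trans ht1)) ha'.le]

lemma rrat_expand (F : Matrix (Fin (n + 1)) (Fin (n + 1)) ℝ) (s t : ℝ) (x y : Fin (n + 1) → ℝ) :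
    (s • x + t • y) ⬝ᵥ (F *ᵥ (s • x + t • y)) = s ^ 2 * (x ⬝ᵥ (F *ᵥ x))
      + s * t * (x ⬝ᵥ (F *ᵥ y) + y ⬝ᵥ (F *ᵥ x)) + t ^ 2 * (y ⬝ᵥ (F *ᵥ y)) := by
  simp only [mulVec_add, mulVec_smul, add_dotProduct, dotProduct_add, smul_dotProduct,
    dotProduct_smul, smul_eq_mul]
  ring

lemma rrat_lor_expand (s t : ℝ) (x y : Fin (n + 1) → ℝ) :
    lor (s • x + t • y) (s • x + t • y) = s ^ 2 * lor x x + 2 * s * t * lor x y
      + t ^ 2 * lor y y := by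
  simp only [lor_add_left, lor_add_right, lor_smul_left, lor_smul_right, lor_comm y x]
  ring

/-- A quadratic form invariant under a cocompact group is a multiple of the Lorentz form. -/
theorem inv_form {Γ : Subgroup (GL (Fin (n + 1)) ℝ)} (hΓ : Γ ≤ isomH n) (hc : Cocompact Γ)
    (F : Matrix (Fin (n + 1)) (Fin (n + 1)) ℝ)
    (hF : ∀ g ∈ Γ, ∀ y, (g.val *ᵥ y) ⬝ᵥ (F *ᵥ (g.val *ᵥ y)) = y ⬝ᵥ (F *ᵥ y)) :
    ∃ c : ℝ, ∀ y, y ⬝ᵥ (F *ᵥ y) = c * lor y y := by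
  obtain ⟨ρ, hρ⟩ := hc
  have hb : ∀ x ∈ hyp n, |x ⬝ᵥ (F *ᵥ x)| ≤ ∑ i, ∑ j, ρ * (|F i j| * ρ) := by
    intro x hx
    obtain ⟨g, hg, hgx⟩ := hρ x hx
    have hy := isomH_hyp (hΓ hg) hx
    rw [← hF g hg x]
    generalize g.val *ᵥ x = y at hgx hy
    have h1 : ∀ i, |y i| ≤ ρ := fun i => (abs_le_of_mem_hyp hy i).trans hgx
    have h0 : 0 ≤ ρ := (abs_nonneg _).trans (h1 0)
    simp only [dotProduct, mulVec, Finset.mul_sum]
    refine (Finset.abs_sum_le_sum_abs _ _).trans (Finset.sum_le_sum fun i _ => ?_)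
    refine (Finset.abs_sum_le_sum_abs _ _).trans (Finset.sum_le_sum fun j _ => ?_)
    rw [abs_mul, abs_mul]
    exact mul_le_mul (h1 i) (mul_le_mul_of_nonneg_left (h1 j) (abs_nonneg _)) (by positivity) h0
  have he : lor (e0 n) (e0 n) = -1 := e0_mem.1
  have he0 : e0 n 0 = 1 := by simp [e0]
  have hiso : ∀ u : Fin (n + 1) → ℝ, u 0 = 0 → lor u u = 1 →
      e0 n ⬝ᵥ (F *ᵥ e0 n) + (e0 n ⬝ᵥ (F *ᵥ u) + u ⬝ᵥ (F *ᵥ e0 n)) + u ⬝ᵥ (F *ᵥ u) = 0 := by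
    intro u hu0 hu1
    have hu : lor (e0 n) u = 0 := by rw [lor_comm, lor_e0, hu0, neg_zero]
    have key : (e0 n ⬝ᵥ (F *ᵥ e0 n) + (e0 n ⬝ᵥ (F *ᵥ u) + u ⬝ᵥ (F *ᵥ e0 n))
        + u ⬝ᵥ (F *ᵥ u)) / 4 = 0 := by
      refine rrat_zero (m := (e0 n ⬝ᵥ (F *ᵥ e0 n) - u ⬝ᵥ (F *ᵥ u)) / 2)
        (b := (e0 n ⬝ᵥ (F *ᵥ e0 n) - (e0 n ⬝ᵥ (F *ᵥ u) + u ⬝ᵥ (F *ᵥ e0 n)) + u ⬝ᵥ (F *ᵥ u)) / 4)
        (B := ∑ i, ∑ j, ρ * (|F i j| * ρ)) fun t ht => ?_
      have hm : ((t + t⁻¹) / 2) • e0 n + ((t - t⁻¹) / 2) • u ∈ hyp n := by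
        refine ⟨?_, ?_⟩
        · rw [rrat_lor_expand, he, hu, hu1]
          field_simp
          ring
        · simp only [Pi.add_apply, Pi.smul_apply, smul_eq_mul, he0, hu0, mul_zero, add_zero]
          positivity
      refine le_trans (le_of_eq ?_) (hb _ hm)
      rw [rrat_expand]
      congr 1
      field_simp
      ring
    linarith
  refine ⟨-(e0 n ⬝ᵥ (F *ᵥ e0 n)), fun y => ?_⟩
  set w := y - y 0 • e0 n with hw
  have hw0 : w 0 = 0 := by simp [hw, he0]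
  by_cases h0 : w = 0
  · have e : y = y 0 • e0 n + (0 : ℝ) • e0 n := by
      rw [zero_smul, add_zero]
      exact sub_eq_zero.1 h0
    rw [e, rrat_expand, rrat_lor_expand, he]
    ring
  · have hp : 0 < lor w w := lor_pos_of_orth e0_mem h0 (by rw [lor_e0, hw0, neg_zero])
    have hr : 0 < √(lor w w) := Real.sqrt_pos.2 hp
    have hr2 := Real.mul_self_sqrt hp.le
    set u := (√(lor w w))⁻¹ • w with hu
    have hu0 : u 0 = 0 := by simp [hu, hw0]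
    have hu1 : lor u u = 1 := by
      rw [hu, lor_smul_left, lor_smul_right]
      field_simp
      nlinarith
    have h1 := hiso u hu0 hu1
    have h2 := hiso (-u) (by simp [hu0]) (by rw [lor_neg_left, lor_neg_right, neg_neg, hu1])
    simp only [mulVec_neg, dotProduct_neg, neg_dotProduct, neg_neg] at h2
    have e : y = y 0 • e0 n + √(lor w w) • u := by
      rw [hu, smul_smul, mul_inv_cancel₀ hr.ne', one_smul, hw, add_sub_cancel]
    have hu' : lor (e0 n) u = 0 := by rw [lor_comm, lor_e0, hu0, neg_zero]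
    have h3 : e0 n ⬝ᵥ (F *ᵥ u) + u ⬝ᵥ (F *ᵥ e0 n) = 0 := by linarith
    have h4 : u ⬝ᵥ (F *ᵥ u) = -(e0 n ⬝ᵥ (F *ᵥ e0 n)) := by linarith
    generalize y 0 = y0 at e
    rw [e, rrat_expand, rrat_lor_expand, he, hu1, hu', h3, h4]
    ring

/-- A matrix that commutes with a cocompact group is scalar. -/
lemma rrat_comm (hn : 2 ≤ n) {Γ : Subgroup (GL (Fin (n + 1)) ℝ)} (hΓ : Γ ≤ isomH n)
    (hc : Cocompact Γ) (s : Matrix (Fin (n + 1)) (Fin (n + 1)) ℝ)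
    (hs : ∀ g ∈ Γ, s * g.val = g.val * s) : ∃ c : ℝ, s = c • (1 : Matrix _ _ ℝ) := by
  obtain ⟨c, h1⟩ := inv_form hΓ hc (lorMat n * s) fun g hg y => by
    rw [← mulVec_mulVec, ← mulVec_mulVec, ← lor_eq_dot, ← lor_eq_dot, mulVec_mulVec, hs g hg,
      ← mulVec_mulVec, isomH_lor (hΓ hg)]
  refine ⟨c, sub_eq_zero.1 ?_⟩
  set a := s - c • (1 : Matrix _ _ ℝ) with ha
  have ha1 : ∀ y, lor y (a *ᵥ y) = 0 := fun y => by
    have := h1 y
    rw [← mulVec_mulVec, ← lor_eq_dot] at this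
    rw [ha, sub_mulVec, smul_mulVec, one_mulVec, lor_sub_right, lor_smul_right, this, sub_self]
  have ha2 : ∀ g ∈ Γ, a * g.val = g.val * a := fun g hg => by
    rw [ha, sub_mul, mul_sub, hs g hg, smul_mul_assoc, mul_smul_comm, one_mul, mul_one]
  have key : ∀ y, y ⬝ᵥ ((aᵀ * lorMat n * a) *ᵥ y) = lor (a *ᵥ y) (a *ᵥ y) := fun y => by
    rw [lor_eq_dot, ← mulVec_mulVec, ← mulVec_mulVec, dotProduct_mulVec y aᵀ, vecMul_transpose]
  obtain ⟨c', h2⟩ := inv_form hΓ hc (aᵀ * lorMat n * a) fun g hg y => by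
    rw [key, key, mulVec_mulVec, ha2 g hg, ← mulVec_mulVec, isomH_lor (hΓ hg)]
  simp only [key] at h2
  have hnn : ∀ z : Fin (n + 1) → ℝ, z 0 = 0 → 0 ≤ lor z z := fun z hz => by
    by_cases h : z = 0
    · rw [h, lor_zero_left]
    · exact (lor_pos_of_orth e0_mem h (by rw [lor_e0, hz, neg_zero])).le
  have h3 : (a *ᵥ e0 n) 0 = 0 := by
    have := ha1 (e0 n)
    rwa [lor_comm, lor_e0, neg_eq_zero] at this
  have h4 : c' ≤ 0 := by
    have := hnn _ h3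
    rw [h2, e0_mem.1] at this
    linarith
  have h5 : 0 ≤ c' := by
    obtain ⟨w, hw0, hw1, hw2⟩ : ∃ w : Fin (n + 1) → ℝ, w ≠ 0 ∧ w 0 = 0 ∧ (a *ᵥ w) 0 = 0 := by
      let i : Fin n := ⟨0, by omega⟩
      let j : Fin n := ⟨1, by omega⟩
      have hij : i.succ ≠ j.succ := fun h => by
        have := congrArg Fin.val (Fin.succ_injective _ h)
        simp [i, j] at this
      by_cases h : a 0 i.succ = 0
      · refine ⟨Pi.single i.succ 1, fun h0 => ?_, ?_, ?_⟩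
        · simpa using congrFun h0 i.succ
        · exact Pi.single_eq_of_ne (Fin.succ_ne_zero i).symm _
        · simpa [mulVec_single_one] using h
      · refine ⟨a 0 j.succ • Pi.single i.succ 1 - a 0 i.succ • Pi.single j.succ 1,
          fun h0 => h ?_, ?_, ?_⟩
        · simpa [Pi.single_eq_of_ne hij.symm] using congrFun h0 j.succ
        · simp
        · simp only [mulVec_sub, mulVec_smul, mulVec_single_one, Pi.sub_apply, Pi.smul_apply,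
            smul_eq_mul, col_apply]
          ring
    have p1 := lor_pos_of_orth e0_mem hw0 (by rw [lor_e0, hw1, neg_zero])
    have p2 := hnn _ hw2
    rw [h2] at p2
    exact nonneg_of_mul_nonneg_left p2 p1
  have h6 : ∀ z, (a *ᵥ z) 0 = 0 → a *ᵥ z = 0 := fun z hz => by
    by_contra h
    have := lor_pos_of_orth e0_mem h (by rw [lor_e0, hz, neg_zero])
    rw [h2, le_antisymm h4 h5, zero_mul] at this
    exact lt_irrefl _ this
  have h7 : ∀ z, a *ᵥ z = 0 := fun z => h6 z (by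
    have := ha1 (z + e0 n)
    rw [mulVec_add, h6 _ h3, add_zero, lor_add_left, ha1, zero_add, lor_comm, lor_e0,
      neg_eq_zero] at this
    exact this)
  ext i j
  simpa [mulVec_single_one] using congrFun (h7 (Pi.single j 1)) i

lemma rrat_trace {e : Fin (n + 1) → ℝ} (he : lor e e = 1) (P : GL (Fin (n + 1)) ℝ) :
    (P * refl e * P⁻¹).val.trace = n - 1 := by
  rw [Units.val_mul, Units.val_mul, trace_mul_comm, ← mul_assoc, ← Units.val_mul, inv_mul_cancel,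
    Units.val_one, one_mul]
  change (1 - (2 / lor e e) • vecMulVec e (lorMat n *ᵥ e)).trace = _
  rw [trace_sub, trace_one, trace_smul, trace_vecMulVec, ← lor_eq_dot, he, Fintype.card_fin]
  push_cast
  simp only [smul_eq_mul]
  ring

variable {K : Type} [Field K] [NumberField K] [IsTotallyReal K] {σ0 : Emb K}
  {A : Matrix (Fin (n + 1)) (Fin (n + 1)) K} {P : GL (Fin (n + 1)) ℝ}

omit [NumberField K] [IsTotallyReal K] in
lemma rrat_proj (σ0 : Emb K) : ∃ φ : ℝ →+ K, φ 1 = 1 ∧ ∀ k x, φ (σ0 k * x) = k * φ x := by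
  let _ : Algebra K ℝ := σ0.toAlgebra
  obtain ⟨φ, hφ⟩ := (Algebra.linearMap K ℝ).exists_leftInverse_of_injective
    (LinearMap.ker_eq_bot.2 σ0.injective)
  refine ⟨φ.toAddMonoidHom, ?_, fun k x => φ.map_smul k x⟩
  simpa using LinearMap.congr_fun hφ 1

omit [NumberField K] [IsTotallyReal K] in
lemma rrat_entries {g : GL (Fin (n + 1)) ℝ} (hg : g ∈ arith σ0 P) (i j : Fin (n + 1)) :
    ∃ k : K, (P * g * P⁻¹).val i j = σ0 k := by
  obtain ⟨M, hM⟩ := hg.2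
  refine ⟨(M.val i j : K), ?_⟩
  have : Matrix.GeneralLinearGroup.map (σ0.comp (algebraMap (𝓞 K) K)) M = P * g * P⁻¹ := hM
  rw [← this]
  rfl

theorem root_rational (hd : 1 < finrank ℚ K) (hn : 2 ≤ n) (h : Adm σ0 A P)
    {Γ : Subgroup (GL (Fin (n + 1)) ℝ)} (hΓ : Γ ≤ isomH n) (hc : Cocompact (arith σ0 P))
    (hcomm : Subgroup.Commensurable Γ (arith σ0 P)) {e : Fin (n + 1) → ℝ} (he : e ∈ roots Γ) :
    ∃ (v : Fin (n + 1) → K) (s : ℝ), v ≠ 0 ∧ 0 < s ∧ e = s • ((P⁻¹).val *ᵥ fun i => σ0 (v i)) := by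
  have _ := hd
  have _ := h
  have : ((arith σ0 P).subgroupOf Γ).FiniteIndex := ⟨hcomm.2⟩
  set N := ((arith σ0 P).subgroupOf Γ).normalCore with hN
  have hG1 : (N.map Γ.subtype).relIndex Γ ≠ 0 := by
    rw [Subgroup.relIndex, Subgroup.subgroupOf,
      Subgroup.comap_map_eq_self_of_injective Γ.subtype_injective]
    exact Subgroup.FiniteIndex.index_ne_zero
  have hc1 : Cocompact (N.map Γ.subtype) :=
    hc.of_relIndex inf_le_left (Subgroup.relIndex_ne_zero_trans hG1 hcomm.1)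
  have hle : N.map Γ.subtype ≤ Γ := Subgroup.map_subtype_le N
  have har : ∀ g ∈ N.map Γ.subtype, g ∈ arith σ0 P ∧ refl e * g * (refl e)⁻¹ ∈ arith σ0 P := by
    rintro _ ⟨g, hg, rfl⟩
    exact ⟨Subgroup.mem_subgroupOf.1 (Subgroup.normalCore_le _ hg),
      Subgroup.mem_subgroupOf.1 (Subgroup.normalCore_le _
        ((Subgroup.normalCore_normal _).conj_mem g hg ⟨refl e, he.2⟩))⟩
  obtain ⟨φ, hφ1, hφ⟩ := rrat_proj σ0
  set R := (P * refl e * P⁻¹).val with hR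
  set R' : Matrix (Fin (n + 1)) (Fin (n + 1)) ℝ := R.map fun x => σ0 (φ x) with hR'
  have hint : ∀ g ∈ N.map Γ.subtype,
      R' * (P * g * P⁻¹).val = (P * (refl e * g * (refl e)⁻¹) * P⁻¹).val * R' := by
    intro g hg
    choose M hM using rrat_entries (har g hg).1
    choose M' hM' using rrat_entries (har g hg).2
    have e1 : R * (P * g * P⁻¹).val = (P * (refl e * g * (refl e)⁻¹) * P⁻¹).val * R := by
      rw [hR, ← Units.val_mul, ← Units.val_mul]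
      congr 1
      group
    ext i j
    have e2 := congrArg (fun x => σ0 (φ x)) (congrFun (congrFun e1 i) j)
    simp only [mul_apply, hM, hM', map_sum, mul_comm (R _ _), hφ, map_mul] at e2
    simp only [mul_apply, hM, hM', hR', map_apply, mul_comm (σ0 (φ _))]
    exact e2
  obtain ⟨c, hcs⟩ := rrat_comm hn (hle.trans hΓ) hc1
    (((P * refl e)⁻¹).val * R' * P.val) fun g hg => by
      have e1 : P.val * g.val = (P * g * P⁻¹).val * P.val := by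
        rw [← Units.val_mul, ← Units.val_mul]
        congr 1
        group
      have e2 : ((P * refl e)⁻¹).val * (P * (refl e * g * (refl e)⁻¹) * P⁻¹).val
          = g.val * ((P * refl e)⁻¹).val := by
        rw [← Units.val_mul, ← Units.val_mul]
        congr 1
        group
      rw [mul_assoc _ P.val, e1, ← mul_assoc, mul_assoc _ R', hint g hg, ← mul_assoc, e2]
      simp only [mul_assoc]
  have hRc : R' = c • R := by
    have e1 : R' = (P * refl e).val * (((P * refl e)⁻¹).val * R' * P.val) * (P⁻¹).val := by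
      rw [← mul_assoc, ← mul_assoc, ← Units.val_mul, mul_inv_cancel, Units.val_one, one_mul,
        mul_assoc, ← Units.val_mul, mul_inv_cancel, Units.val_one, mul_one]
    rw [e1, hcs, mul_smul_comm, mul_one, smul_mul_assoc, ← Units.val_mul]
  have htr : R.trace = n - 1 := rrat_trace he.1 P
  have hn1 : (0 : ℝ) < n - 1 := by
    have : (2 : ℝ) ≤ n := by exact_mod_cast hn
    linarith
  have hc1 : c = 1 := by
    have e1 : R'.trace = σ0 (φ R.trace) := by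
      simp only [trace, diag_apply, hR', map_apply, map_sum]
    have e2 : φ ((n : ℝ) - 1) = n - 1 := by
      have := hφ ((n : K) - 1) 1
      rwa [hφ1, mul_one, mul_one, map_sub, map_natCast, map_one] at this
    rw [hRc, trace_smul, htr, e2, map_sub, map_natCast, map_one, smul_eq_mul] at e1
    exact mul_right_cancel₀ hn1.ne' (e1.trans (one_mul _).symm)
  rw [hc1, one_smul] at hRc
  have hcol : ∀ j, (P⁻¹).val *ᵥ (fun i => σ0 (φ (R i j) - (Pi.single j 1 : Fin (n + 1) → K) i))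
      = (-(2 * lor ((P⁻¹).val *ᵥ Pi.single j 1) e)) • e := by
    intro j
    have e1 : (fun i => σ0 (φ (R i j) - (Pi.single j 1 : Fin (n + 1) → K) i))
        = R *ᵥ Pi.single j 1 - Pi.single j 1 := by
      funext i
      have := congrFun (congrFun hRc i) j
      simp only [hR', map_apply] at this
      rw [map_sub, this, mulVec_single_one, Pi.sub_apply, col_apply]
      congr 1
      simp only [Pi.single_apply]
      split_ifs <;> simp
    rw [e1, mulVec_sub, hR, gl_mul_mulVec, gl_mul_mulVec, gl_inv_mulVec, refl_mulVec_unit he.1,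
      neg_smul, sub_sub_cancel_left]
  have he0 : e ≠ 0 := fun h0 => by
    have := he.1
    rw [h0, lor_zero_left] at this
    exact zero_ne_one this
  obtain ⟨j, hj⟩ : ∃ j, lor ((P⁻¹).val *ᵥ Pi.single j 1) e ≠ 0 := by
    by_contra hno
    push Not at hno
    have : R = 1 := by
      ext i j
      have e1 : R *ᵥ Pi.single j 1 = Pi.single j 1 := by
        rw [hR, gl_mul_mulVec, gl_mul_mulVec, refl_mulVec_unit he.1, hno j, mul_zero, zero_smul,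
          sub_zero, gl_mulVec_inv]
      have := congrFun e1 i
      rw [mulVec_single_one, col_apply] at this
      rw [this, one_apply, Pi.single_apply]
    rw [this, trace_one, Fintype.card_fin] at htr
    push_cast at htr
    linarith
  set l := -(2 * lor ((P⁻¹).val *ᵥ Pi.single j 1) e) with hl
  have hl0 : l ≠ 0 := neg_ne_zero.2 (mul_ne_zero two_ne_zero hj)
  set v : Fin (n + 1) → K := fun i => φ (R i j) - (Pi.single j 1 : Fin (n + 1) → K) i with hv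
  have hve : (P⁻¹).val *ᵥ (fun i => σ0 (v i)) = l • e := hcol j
  have hv0 : v ≠ 0 := fun h0 => by
    have e1 : (fun i => σ0 (v i)) = 0 := by
      funext i
      rw [h0, Pi.zero_apply, map_zero, Pi.zero_apply]
    rw [e1, mulVec_zero] at hve
    exact smul_ne_zero hl0 he0 hve.symm
  rcases lt_or_gt_of_ne hl0 with hneg | hpos
  · refine ⟨-v, (-l)⁻¹, neg_ne_zero.2 hv0, inv_pos.2 (neg_pos.2 hneg), ?_⟩
    have e1 : (fun i => σ0 ((-v) i)) = -fun i => σ0 (v i) := by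
      funext i
      simp
    rw [e1, mulVec_neg, hve, ← neg_smul, smul_smul, inv_mul_cancel₀ (neg_ne_zero.2 hl0), one_smul]
  · exact ⟨v, l⁻¹, hv0, inv_pos.2 hpos, by rw [hve, smul_smul, inv_mul_cancel₀ hl0, one_smul]⟩

end Pool.Agent.Work.MP_c8d35c_al
end

-- merged part: Pool.Agent.Work.MP_c8d35c_al.RAr1
section
/-! The even lattices attached to a type of roots; lower bound for the defect index. -/

namespace Pool.Agent.Work.MP_c8d35c_al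

set_option linter.unusedSectionVars false

open NumberField Module Matrix

variable {K : Type} [Field K] [NumberField K] {N : ℕ}

/-- The lattice of type `(𝔦, 𝔱)`. -/
def Mty (A : Matrix (Fin N) (Fin N) K) (L : OSub K N) (𝔦 𝔱 : Ideal (𝓞 K)) : OSub K N :=
  Submodule.span (𝓞 K) {x | x ∈ rad A L 𝔦 ∧ ∃ z ∈ 𝔦 * 𝔱, bil A x x = (z : K)}

open Classical in
/-- The local factor at `𝔭` for the type `J`. -/
noncomputable def al (A : Matrix (Fin N) (Fin N) K) (L : OSub K N) (J : Finset (Ideal (𝓞 K)))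
    (𝔭 : Ideal (𝓞 K)) : ℕ :=
  if 𝔭 ∈ J then idx (rad A L 𝔭) L else idx L (sharp A L ⊓ divI L 𝔭)

open Classical in
/-- The lower bound for the defect index. -/
noncomputable def wt (A : Matrix (Fin N) (Fin N) K) (L : OSub K N)
    (Pr J : Finset (Ideal (𝓞 K))) (𝔰 𝔠 : Ideal (𝓞 K)) : ℝ :=
  (if 𝔠 = ⊤ then nm 𝔰 ^ N else 1) * ∏ 𝔭 ∈ Pr.filter (fun 𝔭 => ¬ 𝔠 ≤ 𝔭), (al A L J 𝔭 : ℝ)

variable {A : Matrix (Fin N) (Fin N) K} {L : OSub K N}

lemma RAr1_two {𝔰 𝔱 : Ideal (𝓞 K)} (h2 : 𝔰 * 𝔱 = Ideal.span {2}) : (2 : 𝓞 K) ∈ 𝔱 :=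
  Ideal.mul_le_right (h2 ▸ Ideal.mem_span_singleton_self (2 : 𝓞 K) : (2 : 𝓞 K) ∈ 𝔰 * 𝔱)

lemma RAr1_s_ne {𝔰 𝔱 : Ideal (𝓞 K)} (h2 : 𝔰 * 𝔱 = Ideal.span {2}) : 𝔰 ≠ ⊥ := by
  rintro rfl
  rw [Ideal.bot_mul, eq_comm, Ideal.span_singleton_eq_bot] at h2
  exact two_ne_zero h2

omit [NumberField K] in
lemma RAr1_ne {𝔟 𝔦 𝔱 : Ideal (𝓞 K)} {m : 𝓞 K} (hm0 : m ≠ 0)
    (hm : Ideal.span {m} = 𝔟 ^ 2 * (𝔦 * 𝔱)) : 𝔟 ≠ ⊥ ∧ 𝔦 ≠ ⊥ := by
  constructor
  · rintro rfl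
    rw [pow_two, Ideal.bot_mul, Ideal.bot_mul, Ideal.span_singleton_eq_bot] at hm
    exact hm0 hm
  · rintro rfl
    rw [Ideal.bot_mul, Ideal.mul_bot, Ideal.span_singleton_eq_bot] at hm
    exact hm0 hm

lemma RAr1_bil_smul {X Y : OSub K N} {I : Ideal (𝓞 K)} (𝔟 : Ideal (𝓞 K))
    (h : ∀ x ∈ X, ∀ y ∈ Y, ∃ z ∈ I, bil A x y = (z : K)) :
    ∀ x ∈ 𝔟 • X, ∀ y ∈ 𝔟 • Y, ∃ z ∈ 𝔟 ^ 2 * I, bil A x y = (z : K) := by
  intro x hx y hy
  refine Submodule.smul_induction_on (p := fun x => ∃ z ∈ 𝔟 ^ 2 * I, bil A x y = (z : K)) hx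
    (fun c hc x0 hx0 => ?_) ?_
  · refine Submodule.smul_induction_on
      (p := fun y => ∃ z ∈ 𝔟 ^ 2 * I, bil A (c • x0) y = (z : K)) hy (fun d hd y0 hy0 => ?_) ?_
    · obtain ⟨z, hz, e⟩ := h x0 hx0 y0 hy0
      refine ⟨c * d * z, Ideal.mul_mem_mul (by rw [pow_two]; exact Ideal.mul_mem_mul hc hd) hz, ?_⟩
      rw [bil_ismul_left, bil_ismul_right, e]
      simp [mul_assoc]
    · rintro w w' ⟨z, hz, e⟩ ⟨z', hz', e'⟩
      exact ⟨z + z', Ideal.add_mem _ hz hz', by rw [bil_add_right, e, e']; simp⟩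
  · rintro w w' ⟨z, hz, e⟩ ⟨z', hz', e'⟩
    exact ⟨z + z', Ideal.add_mem _ hz hz', by rw [bil_add_left, e, e']; simp⟩

lemma RAr1_add (hA : A.IsSymm) (x y : Fin N → K) :
    bil A (x + y) (x + y) = bil A x x + bil A y y + 2 * bil A x y := by
  rw [bil_add_left, bil_add_right, bil_add_right, bil_comm hA y x]
  ring

lemma RAr1_smul_le_rad (hL : Integ A L) (𝔦 : Ideal (𝓞 K)) : 𝔦 • L ≤ rad A L 𝔦 := by
  refine Submodule.smul_le.2 fun c hc y hy => ⟨L.smul_mem c hy, fun x hx => ?_⟩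
  obtain ⟨z, hz⟩ := hL.int hy x hx
  exact ⟨c * z, 𝔦.mul_mem_right z hc, by rw [bil_ismul_right, hz]; simp⟩

lemma RAr1_Mty_le (𝔦 𝔱 : Ideal (𝓞 K)) : Mty A L 𝔦 𝔱 ≤ rad A L 𝔦 :=
  Submodule.span_le.2 fun _ hx => hx.1

lemma RAr1_div {m w z : 𝓞 K} (hm0 : m ≠ 0) (h : w * m = z) : (2 / (m : K)) * z = 2 * w := by
  have hm1 : (m : K) ≠ 0 := by simpa using hm0
  have h4 : (w : K) * m = z := by exact_mod_cast congrArg (algebraMap (𝓞 K) K) h
  rw [← h4]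
  field_simp

omit [NumberField K] in
lemma RAr1_split {𝔭 𝔠 : Ideal (𝓞 K)} (h : 𝔭 ⊔ 𝔠 = ⊤) {P R E : OSub K N} (h1 : 𝔭 • P ≤ R)
    (h2 : P ≤ E) : P ≤ R ⊔ 𝔠 • E := by
  intro x hx
  have h3 : (1 : 𝓞 K) ∈ 𝔭 ⊔ 𝔠 := h ▸ Submodule.mem_top
  obtain ⟨p0, hp0, c0, hc0, e⟩ := Submodule.mem_sup.1 h3
  have h4 : x = p0 • x + c0 • x := by rw [← add_smul, e, one_smul]
  rw [h4]
  exact Submodule.add_mem_sup (h1 (Submodule.smul_mem_smul hp0 hx))
    (Submodule.smul_mem_smul hc0 (h2 hx))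

lemma RAr1_key (hL : Integ A L) {Pr J : Finset (Ideal (𝓞 K))} (hPr : ∀ 𝔭 ∈ Pr, 𝔭.IsMaximal)
    (hJ : J ⊆ Pr) (hi : (∏ 𝔭 ∈ J, 𝔭) ≠ ⊥) {𝔠 : Ideal (𝓞 K)} (hc : 𝔠 ≠ ⊥)
    (S : Finset (Ideal (𝓞 K))) (hS : ∀ 𝔭 ∈ S, 𝔭 ∈ Pr ∧ ¬ 𝔠 ≤ 𝔭) :
    ∏ 𝔭 ∈ S, al A L J 𝔭 ≤
      idx (rad A L (∏ 𝔭 ∈ J, 𝔭)) (𝔠 • (L ⊔ (∏ 𝔭 ∈ J, 𝔭) • sharp A L)) := by
  classical
  set 𝔦 := ∏ 𝔭 ∈ J, 𝔭 with hidef
  have hR : Lat (rad A L 𝔦) := Lat.rad hL hi
  have hSh : Lat (sharp A L) := hL.lat.sharp hL.det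
  have hE : Lat (L ⊔ 𝔦 • sharp A L) := hL.lat.sup (hSh.smul hi)
  let P : Ideal (𝓞 K) → OSub K N := fun 𝔭 =>
    if 𝔭 ∈ J then (∏ 𝔮 ∈ J.erase 𝔭, 𝔮) • L else 𝔦 • (sharp A L ⊓ divI L 𝔭)
  have hP : ∀ 𝔭 ∈ S, P 𝔭 ≤ rad A L 𝔦 ⊔ 𝔠 • (L ⊔ 𝔦 • sharp A L) ∧ 𝔭 • P 𝔭 ≤ rad A L 𝔦 := by
    intro 𝔭 hp
    have hmax := hPr 𝔭 (hS 𝔭 hp).1
    have hco : 𝔭 ⊔ 𝔠 = ⊤ := by
      refine hmax.out.2 _ (lt_of_le_of_ne le_sup_left fun h => (hS 𝔭 hp).2 ?_)
      rw [h]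
      exact le_sup_right
    have h1 : 𝔭 • P 𝔭 ≤ rad A L 𝔦 := by
      by_cases hpJ : 𝔭 ∈ J
      · simp only [P, if_pos hpJ]
        rw [← Submodule.mul_smul, Finset.mul_prod_erase J (fun 𝔮 => 𝔮) hpJ]
        exact RAr1_smul_le_rad hL 𝔦
      · simp only [P, if_neg hpJ]
        rw [← Submodule.mul_smul, mul_comm, Submodule.mul_smul]
        refine le_trans (Submodule.smul_mono le_rfl ?_) (RAr1_smul_le_rad hL 𝔦)
        exact Submodule.smul_le.2 fun c hc y hy => hy.2 c hc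
    have h2 : P 𝔭 ≤ L ⊔ 𝔦 • sharp A L := by
      by_cases hpJ : 𝔭 ∈ J
      · simp only [P, if_pos hpJ]
        exact le_trans Submodule.smul_le_right le_sup_left
      · simp only [P, if_neg hpJ]
        exact le_trans (Submodule.smul_mono le_rfl inf_le_left) le_sup_right
    exact ⟨RAr1_split hco h1 h2, h1⟩
  refine le_trans (Finset.prod_le_prod' fun 𝔭 hp => ?_)
    (prod_idx_le (hR.idx_ne_zero (hE.smul hc)) S (fun 𝔭 hp => hPr 𝔭 (hS 𝔭 hp).1) P hP)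
  have hmax := hPr 𝔭 (hS 𝔭 hp).1
  have hp0 : 𝔭 ≠ ⊥ := Ring.ne_bot_of_isMaximal_of_not_isField hmax (RingOfIntegers.not_isField K)
  by_cases hpJ : 𝔭 ∈ J
  · simp only [al, P, if_pos hpJ]
    have hij : 𝔭 * ∏ 𝔮 ∈ J.erase 𝔭, 𝔮 = 𝔦 := Finset.mul_prod_erase J (fun 𝔮 => 𝔮) hpJ
    have hj : (∏ 𝔮 ∈ J.erase 𝔭, 𝔮) ≠ ⊥ := by
      intro h
      rw [h, Ideal.mul_bot] at hij
      exact hi hij.symm
    have hco : 𝔭 ⊔ ∏ 𝔮 ∈ J.erase 𝔭, 𝔮 = ⊤ :=
      Ideal.sup_prod_eq_top fun 𝔮 hq =>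
        hmax.coprime_of_ne (hPr 𝔮 (hJ (Finset.mem_of_mem_erase hq)))
          (Finset.ne_of_mem_erase hq).symm
    have hRp : Lat (rad A L 𝔭) := Lat.rad hL hp0
    have hle : rad A L 𝔦 ≤ rad A L 𝔭 := fun y hy => ⟨hy.1, fun x hx => by
      obtain ⟨z, hz, e⟩ := hy.2 x hx
      exact ⟨z, Ideal.mul_le_left (hij ▸ hz : z ∈ 𝔭 * ∏ 𝔮 ∈ J.erase 𝔭, 𝔮), e⟩⟩
    calc idx (rad A L 𝔭) L
        ≤ idx (rad A L 𝔭) (rad A L 𝔭 ⊔ (∏ 𝔮 ∈ J.erase 𝔭, 𝔮) • L) :=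
          idx_mono le_rfl (RAr1_split hco (RAr1_smul_le_rad hL 𝔭) le_rfl)
            (hRp.idx_ne_zero (hRp.sup (hL.lat.smul hj)))
      _ = idx (rad A L 𝔭) ((∏ 𝔮 ∈ J.erase 𝔭, 𝔮) • L) := idx_sup _ _
      _ ≤ idx (rad A L 𝔦) ((∏ 𝔮 ∈ J.erase 𝔭, 𝔮) • L) :=
          idx_mono hle le_rfl (hR.idx_ne_zero (hL.lat.smul hj))
  · simp only [al, P, if_neg hpJ]
    have hco : 𝔭 ⊔ 𝔦 = ⊤ :=
      Ideal.sup_prod_eq_top fun 𝔮 hq =>
        hmax.coprime_of_ne (hPr 𝔮 (hJ hq)) fun h => hpJ (h ▸ hq)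
    have hD : Lat (sharp A L ⊓ divI L 𝔭) := hSh.inf (hL.lat.divI hp0)
    calc idx L (sharp A L ⊓ divI L 𝔭)
        ≤ idx L (L ⊔ 𝔦 • (sharp A L ⊓ divI L 𝔭)) :=
          idx_mono le_rfl
            (RAr1_split hco (Submodule.smul_le.2 fun c hc y hy => hy.2 c hc) le_rfl)
            (hL.lat.idx_ne_zero (hL.lat.sup (hD.smul hi)))
      _ = idx L (𝔦 • (sharp A L ⊓ divI L 𝔭)) := idx_sup _ _
      _ ≤ idx (rad A L 𝔦) (𝔦 • (sharp A L ⊓ divI L 𝔭)) :=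
          idx_mono (fun y hy => hy.1) le_rfl (hR.idx_ne_zero (hD.smul hi))

lemma RAr1_W (hL : Integ A L) {𝔦 𝔰 𝔱 𝔟 : Ideal (𝓞 K)} (h2 : 𝔰 * 𝔱 = Ideal.span {2})
    {m : 𝓞 K} (hm0 : m ≠ 0) (hm : Ideal.span {m} = 𝔟 ^ 2 * (𝔦 * 𝔱)) :
    divI (𝔟 • (L ⊔ 𝔦 • sharp A L)) 𝔰 ≤ sharp ((2 / (m : K)) • A) (𝔟 • Mty A L 𝔦 𝔱) := by
  intro x hx y hy
  have hm1 : (m : K) ≠ 0 := by simpa using hm0
  have h0 : ∀ r ∈ Mty A L 𝔦 𝔱, ∀ e ∈ L ⊔ 𝔦 • sharp A L, ∃ z ∈ 𝔦, bil A r e = (z : K) := by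
    intro r hr e he
    have hr' := RAr1_Mty_le 𝔦 𝔱 hr
    obtain ⟨l, hl, e', he', rfl⟩ := Submodule.mem_sup.1 he
    obtain ⟨z, hz, e1⟩ := hr'.2 l hl
    have h3 : ∃ z ∈ 𝔦, bil A r e' = (z : K) := by
      refine Submodule.smul_induction_on (p := fun y => ∃ z ∈ 𝔦, bil A r y = (z : K)) he'
        (fun c hc w hw => ?_) ?_
      · obtain ⟨z, hz⟩ := hw r hr'.1
        exact ⟨c * z, 𝔦.mul_mem_right z hc, by rw [bil_ismul_right, hz]; simp⟩
      · rintro w w' ⟨z, hz, e⟩ ⟨z', hz', e'⟩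
        exact ⟨z + z', 𝔦.add_mem hz hz', by rw [bil_add_right, e, e']; simp⟩
    obtain ⟨z', hz', e2⟩ := h3
    exact ⟨z + z', 𝔦.add_mem hz hz', by rw [bil_add_right, bil_comm hL.symm r l, e1, e2]; simp⟩
  have h1 : ∀ r ∈ 𝔰 * 𝔱, ∃ w : 𝓞 K, (r : K) * bil A y x = w * m := by
    intro r hr
    refine Submodule.mul_induction_on hr (fun s0 hs0 t0 ht0 => ?_) ?_
    · obtain ⟨z, hz, e⟩ := RAr1_bil_smul 𝔟 h0 y hy _ (hx s0 hs0)
      have h3 : z * t0 ∈ Ideal.span {m} := by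
        rw [hm, ← mul_assoc]
        exact Ideal.mul_mem_mul hz ht0
      obtain ⟨w, hw⟩ := Ideal.mem_span_singleton'.1 h3
      refine ⟨w, ?_⟩
      have h4 : (w : K) * m = z * t0 := by exact_mod_cast congrArg (algebraMap (𝓞 K) K) hw
      rw [bil_ismul_right] at e
      rw [h4, ← e]
      simp only [map_mul]
      ring
    · rintro r r' ⟨w, hw⟩ ⟨w', hw'⟩
      refine ⟨w + w', ?_⟩
      simp only [map_add, add_mul]
      rw [← hw, ← hw']
  obtain ⟨w, hw⟩ := h1 2 (h2 ▸ Ideal.mem_span_singleton_self (2 : 𝓞 K))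
  refine ⟨w, ?_⟩
  have h5 : ((2 : 𝓞 K) : K) = 2 := map_ofNat (algebraMap (𝓞 K) K) 2
  rw [h5] at hw
  rw [bil_smul_form, div_mul_eq_mul_div, hw, mul_div_cancel_right₀ _ hm1]

theorem mem_Mty (hA : A.IsSymm) {𝔦 𝔰 𝔱 : Ideal (𝓞 K)} (h2 : 𝔰 * 𝔱 = Ideal.span {2})
    {x : Fin N → K} :
    x ∈ Mty A L 𝔦 𝔱 ↔ x ∈ rad A L 𝔦 ∧ ∃ z ∈ 𝔦 * 𝔱, bil A x x = (z : K) := by
  refine ⟨fun hx => ?_, fun hx => Submodule.subset_span hx⟩
  induction hx using Submodule.span_induction with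
  | mem x hx => exact hx
  | zero => exact ⟨Submodule.zero_mem _, 0, Submodule.zero_mem _, by simp [bil_zero_left]⟩
  | add x y _ _ h1 h3 =>
    obtain ⟨hx, z, hz, e⟩ := h1
    obtain ⟨hy, w, hw, e'⟩ := h3
    obtain ⟨u, hu, e''⟩ := hy.2 x hx.1
    refine ⟨Submodule.add_mem _ hx hy, z + w + u * 2,
      Ideal.add_mem _ (Ideal.add_mem _ hz hw) (Ideal.mul_mem_mul hu (RAr1_two h2)), ?_⟩
    rw [RAr1_add hA, e, e', e'']
    simp only [map_add, map_mul, map_ofNat]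
    ring
  | smul c x _ h1 =>
    obtain ⟨hx, z, hz, e⟩ := h1
    refine ⟨Submodule.smul_mem _ c hx, c * c * z, Ideal.mul_mem_left _ _ hz, ?_⟩
    rw [bil_ismul_left, bil_ismul_right, e]
    simp [mul_assoc]

theorem lat_Mty (hL : Integ A L) {𝔦 𝔰 𝔱 : Ideal (𝓞 K)} (hi : 𝔦 ≠ ⊥)
    (h2 : 𝔰 * 𝔱 = Ideal.span {2}) : Lat (Mty A L 𝔦 𝔱) := by
  have ht : 𝔱 ≠ ⊥ := RAr1_s_ne (𝔱 := 𝔰) (by rw [mul_comm, h2])
  refine (hL.lat.smul (mul_ne_zero hi ht : 𝔦 * 𝔱 ≠ 0)).of_le_of_le hL.lat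
    (Submodule.smul_le.2 fun c hc y hy => Submodule.subset_span ⟨?_, ?_⟩)
    fun y hy => (RAr1_Mty_le 𝔦 𝔱 hy).1
  · exact RAr1_smul_le_rad hL 𝔦 (Submodule.smul_mem_smul (Ideal.mul_le_left hc) hy)
  · obtain ⟨z, hz⟩ := hL.int hy y hy
    refine ⟨c * (c * z), Ideal.mul_mem_right _ _ hc, ?_⟩
    rw [bil_ismul_left, bil_ismul_right, hz]
    simp

theorem good_type (hL : Integ A L) {𝔦 𝔰 𝔱 𝔟 : Ideal (𝓞 K)} (h2 : 𝔰 * 𝔱 = Ideal.span {2})
    {m : 𝓞 K} (hm0 : m ≠ 0) (hm : Ideal.span {m} = 𝔟 ^ 2 * (𝔦 * 𝔱)) :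
    Good ((2 / (m : K)) • A) (𝔟 • Mty A L 𝔦 𝔱) := by
  obtain ⟨hb, hi⟩ := RAr1_ne hm0 hm
  have hm1 : (m : K) ≠ 0 := by simpa using hm0
  refine ⟨⟨hL.symm.smul _, ?_, (lat_Mty hL hi h2).smul hb, ?_⟩, ?_⟩
  · rw [Matrix.det_smul]
    exact mul_ne_zero (pow_ne_zero _ (div_ne_zero two_ne_zero hm1)) hL.det
  · refine le_trans (fun x hx => ?_) (RAr1_W hL h2 hm0 hm)
    intro c _
    refine Submodule.smul_mem _ c (Submodule.smul_mono le_rfl ?_ hx)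
    exact fun y hy => Submodule.mem_sup_left (RAr1_Mty_le 𝔦 𝔱 hy).1
  · have h0 : ∀ x ∈ Mty A L 𝔦 𝔱, ∀ y ∈ Mty A L 𝔦 𝔱, ∃ z ∈ 𝔦, bil A x y = (z : K) :=
      fun x hx y hy => (RAr1_Mty_le 𝔦 𝔱 hy).2 x (RAr1_Mty_le 𝔦 𝔱 hx).1
    have h1 : ∀ x ∈ 𝔟 • Mty A L 𝔦 𝔱,
        x ∈ 𝔟 • Mty A L 𝔦 𝔱 ∧ ∃ z ∈ 𝔟 ^ 2 * (𝔦 * 𝔱), bil A x x = (z : K) := by
      intro x hx
      refine Submodule.smul_induction_on
        (p := fun x => x ∈ 𝔟 • Mty A L 𝔦 𝔱 ∧ ∃ z ∈ 𝔟 ^ 2 * (𝔦 * 𝔱), bil A x x = (z : K)) hx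
        (fun c hc y hy => ⟨Submodule.smul_mem_smul hc hy, ?_⟩) ?_
      · obtain ⟨-, z, hz, e⟩ := (mem_Mty hL.symm h2).1 hy
        refine ⟨c * c * z,
          Ideal.mul_mem_mul (by rw [pow_two]; exact Ideal.mul_mem_mul hc hc) hz, ?_⟩
        rw [bil_ismul_left, bil_ismul_right, e]
        simp [mul_assoc]
      · rintro x y ⟨hx, z, hz, e⟩ ⟨hy, w, hw, e'⟩
        obtain ⟨u, hu, e''⟩ := RAr1_bil_smul 𝔟 h0 x hx y hy
        refine ⟨Submodule.add_mem _ hx hy, z + w + u * 2,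
          Ideal.add_mem _ (Ideal.add_mem _ hz hw) ?_, ?_⟩
        · rw [← mul_assoc]
          exact Ideal.mul_mem_mul hu (RAr1_two h2)
        · rw [RAr1_add hL.symm, e, e', e'']
          simp only [map_add, map_mul, map_ofNat]
          ring
    intro x hx
    obtain ⟨-, z, hz, e⟩ := h1 x hx
    rw [← hm] at hz
    obtain ⟨w, hw⟩ := Ideal.mem_span_singleton'.1 hz
    exact ⟨w, by rw [bil_smul_form, e, RAr1_div hm0 hw]⟩

theorem one_le_al (hL : Integ A L) (J : Finset (Ideal (𝓞 K))) {𝔭 : Ideal (𝓞 K)} (hp : 𝔭 ≠ ⊥) :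
    1 ≤ al A L J 𝔭 := by
  refine Nat.one_le_iff_ne_zero.2 ?_
  unfold al
  split_ifs
  · exact (Lat.rad hL hp).idx_ne_zero hL.lat
  · exact hL.lat.idx_ne_zero ((hL.lat.sharp hL.det).inf (hL.lat.divI hp))

theorem al_mul (hL : Integ A L) {𝔭 : Ideal (𝓞 K)} (hp : 𝔭 ≠ ⊥) :
    nm 𝔭 ^ N ≤ (idx (rad A L 𝔭) L : ℝ) * (idx L (sharp A L ⊓ divI L 𝔭) : ℝ) := by
  have hD : Lat (sharp A L ⊓ divI L 𝔭) := (hL.lat.sharp hL.det).inf (hL.lat.divI hp)
  have h1 : rad A L 𝔭 = 𝔭 • (sharp A L ⊓ divI L 𝔭) := by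
    rw [rad_le_smul_sharp A L hp, smul_inf_eq, smul_divI L hp, inf_comm]
  have h3 := idx_mul (RAr1_smul_le_rad hL 𝔭) (fun y hy => hy.1 : rad A L 𝔭 ≤ L)
  have h4 : idx (𝔭 • L) (rad A L 𝔭) = idx L (sharp A L ⊓ divI L 𝔭) := by
    rw [h1, idx_smul_smul hL.lat hD hp]
  rw [← idx_smul hL.lat hp, ← h3, h4, Nat.cast_mul, mul_comm]

theorem wt_le_iota (hL : Integ A L) {Pr J : Finset (Ideal (𝓞 K))} (hPr : ∀ 𝔭 ∈ Pr, 𝔭.IsMaximal)
    (hJ : J ⊆ Pr) {𝔰 𝔱 𝔟 : Ideal (𝓞 K)} (h2 : 𝔰 * 𝔱 = Ideal.span {2}) {m : 𝓞 K} (hm0 : m ≠ 0)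
    (hm : Ideal.span {m} = 𝔟 ^ 2 * ((∏ 𝔭 ∈ J, 𝔭) * 𝔱)) {𝔠 : Ideal (𝓞 K)} (hc : 𝔠 ≠ ⊥) :
    wt A L Pr J 𝔰 𝔠 ≤ iota ((2 / (m : K)) • A) (𝔟 • Mty A L (∏ 𝔭 ∈ J, 𝔭) 𝔱) 𝔠 := by
  classical
  obtain ⟨hb, hi⟩ := RAr1_ne hm0 hm
  have hs := RAr1_s_ne h2
  have hG := good_type hL h2 hm0 hm
  have hkey := RAr1_key hL hPr hJ hi hc (Pr.filter fun 𝔭 => ¬ 𝔠 ≤ 𝔭)
    fun 𝔭 hp => Finset.mem_filter.1 hp
  set 𝔦 := ∏ 𝔭 ∈ J, 𝔭 with hidef
  have hR : Lat (rad A L 𝔦) := Lat.rad hL hi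
  have hE : Lat (L ⊔ 𝔦 • sharp A L) := hL.lat.sup ((hL.lat.sharp hL.det).smul hi)
  have hW : Lat (divI (𝔟 • (L ⊔ 𝔦 • sharp A L)) 𝔰) := (hE.smul hb).divI hs
  have hEW : 𝔟 • (L ⊔ 𝔦 • sharp A L) ≤ divI (𝔟 • (L ⊔ 𝔦 • sharp A L)) 𝔰 :=
    fun x hx c _ => Submodule.smul_mem _ c hx
  have h1 : idx (𝔟 • rad A L 𝔦) (𝔠 • divI (𝔟 • (L ⊔ 𝔦 • sharp A L)) 𝔰) ≤
      iota ((2 / (m : K)) • A) (𝔟 • Mty A L 𝔦 𝔱) 𝔠 := by
    rw [iota, idx_sup]
    exact idx_mono (Submodule.smul_mono le_rfl (RAr1_Mty_le 𝔦 𝔱))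
      (Submodule.smul_mono le_rfl (RAr1_W hL h2 hm0 hm))
      (hG.lat.idx_ne_zero ((hG.lat.sharp hG.det).smul hc))
  refine le_trans ?_ (Nat.cast_le.2 h1)
  have hkey' : ∏ 𝔭 ∈ Pr.filter (fun 𝔭 => ¬ 𝔠 ≤ 𝔭), (al A L J 𝔭 : ℝ) ≤
      idx (rad A L 𝔦) (𝔠 • (L ⊔ 𝔦 • sharp A L)) := by
    rw [← Nat.cast_prod]
    exact Nat.cast_le.2 hkey
  unfold wt
  split_ifs with hct
  · subst hct
    rw [Submodule.top_smul] at hkey' ⊢
    have hRE : 𝔟 • rad A L 𝔦 ≤ 𝔟 • (L ⊔ 𝔦 • sharp A L) :=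
      Submodule.smul_mono le_rfl fun y hy => Submodule.mem_sup_left hy.1
    have h3 := idx_smul hW hs
    rw [smul_divI _ hs] at h3
    rw [← idx_mul hRE hEW, idx_smul_smul hR hE hb, Nat.cast_mul, h3, mul_comm]
    refine mul_le_mul_of_nonneg_right ?_ (h3 ▸ Nat.cast_nonneg _)
    convert hkey'
  · rw [one_mul]
    refine le_trans (by convert hkey') (Nat.cast_le.2 ?_)
    rw [← idx_smul_smul hR (hE.smul hc) hb]
    refine idx_mono le_rfl ?_ ((hR.smul hb).idx_ne_zero (hW.smul hc))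
    rw [← Submodule.mul_smul, mul_comm, Submodule.mul_smul]
    exact Submodule.smul_mono le_rfl hEW

end Pool.Agent.Work.MP_c8d35c_al
end

-- merged part: Pool.Agent.Work.MP_c8d35c_al.RZeta
section
/-! Upper bounds for values of the Dedekind zeta function. -/

namespace Pool.Agent.Work.MP_c8d35c_al

open NumberField Module

/-- `Z` bounds all finite subsums of `ζ_K(s)`. -/
def ZB (K : Type) [Field K] [NumberField K] (s : ℕ) (Z : ℝ) : Prop :=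
  ∀ T : Finset (Ideal (𝓞 K)), ⊥ ∉ T → ∑ 𝔞 ∈ T, (nm 𝔞 ^ s)⁻¹ ≤ Z

variable {K : Type} [Field K] [NumberField K]

lemma RZeta_two_le {𝔭 : Ideal (𝓞 K)} (h : 𝔭.IsMaximal) : 2 ≤ nm 𝔭 := by
  obtain ⟨p, n, hn, -, hp, he⟩ := Ideal.exists_prime_and_absNorm_eq_pow 𝔭
  have h1 : 2 ≤ p ^ n := hp.two_le.trans (Nat.le_self_pow hn.ne' p)
  unfold nm
  rw [he]
  exact_mod_cast h1

lemma RZeta_max {𝔭 : Ideal (𝓞 K)} (h : Prime 𝔭) : 𝔭.IsMaximal :=
  (Ideal.isPrime_of_prime h).isMaximal h.ne_zero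

lemma RZeta_prime {𝔭 : Ideal (𝓞 K)} (h : 𝔭.IsMaximal) : Prime 𝔭 :=
  Ideal.prime_of_isPrime (Ideal.IsMaximal.ne_bot_of_isIntegral_int 𝔭) h.isPrime

lemma RZeta_nm_nonneg (𝔞 : Ideal (𝓞 K)) : 0 ≤ nm 𝔞 := Nat.cast_nonneg _

lemma RZeta_nm_pow (𝔞 : Ideal (𝓞 K)) (k : ℕ) : nm (𝔞 ^ k) = nm 𝔞 ^ k := by simp [nm]

lemma RZeta_nm_prod (J : Finset (Ideal (𝓞 K))) : nm (∏ 𝔭 ∈ J, 𝔭) = ∏ 𝔭 ∈ J, nm 𝔭 := by
  simp [nm]

lemma RZeta_lt_one {s : ℕ} (hs : 1 ≤ s) {q : ℝ} (hq : 2 ≤ q) : (q ^ s)⁻¹ < 1 :=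
  inv_lt_one_of_one_lt₀ (one_lt_pow₀ (by linarith) (by omega))

/-- The finite Euler product bound. -/
lemma RZeta_euler {s : ℕ} (hs : 1 ≤ s) (P : Finset (Ideal (𝓞 K))) (hP : ∀ 𝔭 ∈ P, Prime 𝔭) :
    ∀ T : Finset (Ideal (𝓞 K)), (∀ 𝔞 ∈ T, 𝔞 ≠ 0 ∧ ∀ 𝔮, Prime 𝔮 → 𝔮 ∣ 𝔞 → 𝔮 ∈ P) →
      ∑ 𝔞 ∈ T, (nm 𝔞 ^ s)⁻¹ ≤ ∏ 𝔭 ∈ P, (1 - (nm 𝔭 ^ s)⁻¹)⁻¹ := by
  classical
  induction P using Finset.induction_on with
  | empty =>
    intro T hT
    have hsub : T ⊆ {⊤} := by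
      intro 𝔞 ha
      obtain ⟨h0, h1⟩ := hT 𝔞 ha
      by_contra hne
      have hu : ¬ IsUnit 𝔞 := by
        rw [Ideal.isUnit_iff]
        simpa using hne
      obtain ⟨𝔮, hq, hd⟩ := WfDvdMonoid.exists_irreducible_factor hu h0
      simpa using h1 𝔮 hq.prime hd
    calc ∑ 𝔞 ∈ T, (nm 𝔞 ^ s)⁻¹ ≤ ∑ 𝔞 ∈ ({⊤} : Finset (Ideal (𝓞 K))), (nm 𝔞 ^ s)⁻¹ :=
          Finset.sum_le_sum_of_subset_of_nonneg hsub fun 𝔞 _ _ =>
            inv_nonneg.2 (pow_nonneg (RZeta_nm_nonneg 𝔞) s)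
      _ = _ := by simp [nm_top]
  | insert 𝔭 P hpP ih =>
    intro T hT
    have hp : Prime 𝔭 := hP 𝔭 (Finset.mem_insert_self _ _)
    have hex : ∀ 𝔞 : Ideal (𝓞 K), ∃ y : ℕ × Ideal (𝓞 K),
        𝔞 ≠ 0 → ¬ 𝔭 ∣ y.2 ∧ 𝔞 = 𝔭 ^ y.1 * y.2 := by
      intro 𝔞
      by_cases h0 : 𝔞 = 0
      · exact ⟨(0, 0), fun h => (h h0).elim⟩
      · obtain ⟨k, 𝔟, h1, h2⟩ := WfDvdMonoid.max_power_factor h0 hp.irreducible
        exact ⟨(k, 𝔟), fun _ => ⟨h1, h2⟩⟩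
    choose g hg using hex
    set x : ℝ := (nm 𝔭 ^ s)⁻¹ with hx
    have hx0 : 0 ≤ x := inv_nonneg.2 (pow_nonneg (RZeta_nm_nonneg _) s)
    have hx1 : x < 1 := RZeta_lt_one hs (RZeta_two_le (RZeta_max hp))
    let F : ℕ × Ideal (𝓞 K) → ℝ := fun y => x ^ y.1 * (nm y.2 ^ s)⁻¹
    have hF0 : ∀ y, 0 ≤ F y := fun y =>
      mul_nonneg (pow_nonneg hx0 _) (inv_nonneg.2 (pow_nonneg (RZeta_nm_nonneg _) s))
    have hinj : Set.InjOn g T := by
      intro a ha b hb hab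
      rw [(hg a (hT a ha).1).2, (hg b (hT b hb).1).2, hab]
    have h1 : ∑ 𝔞 ∈ T, (nm 𝔞 ^ s)⁻¹ = ∑ y ∈ T.image g, F y := by
      rw [Finset.sum_image hinj]
      refine Finset.sum_congr rfl fun a ha => ?_
      conv_lhs => rw [(hg a (hT a ha).1).2]
      simp only [F, hx, nm_mul, RZeta_nm_pow, mul_pow, mul_inv, inv_pow]
      rw [← pow_mul, ← pow_mul, mul_comm s]
    have h2 : T.image g ⊆ (T.image fun a => (g a).1) ×ˢ (T.image fun a => (g a).2) := by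
      intro y hy
      obtain ⟨a, ha, rfl⟩ := Finset.mem_image.1 hy
      exact Finset.mem_product.2 ⟨Finset.mem_image_of_mem _ ha, Finset.mem_image_of_mem _ ha⟩
    have h3 := ih (fun q hq => hP q (Finset.mem_insert_of_mem hq)) (T.image fun a => (g a).2) (by
      intro b hb
      obtain ⟨a, ha, rfl⟩ := Finset.mem_image.1 hb
      obtain ⟨hnd, he⟩ := hg a (hT a ha).1
      refine ⟨fun h0 => hnd (by rw [h0]; exact dvd_zero _), fun q hq hd => ?_⟩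
      have : q ∈ insert 𝔭 P := (hT a ha).2 q hq (by rw [he]; exact Dvd.dvd.mul_left hd _)
      rcases Finset.mem_insert.1 this with h | h
      · exact (hnd (h ▸ hd)).elim
      · exact h)
    have h4 : ∑ k ∈ T.image fun a => (g a).1, x ^ k ≤ (1 - x)⁻¹ := by
      rw [← tsum_geometric_of_lt_one hx0 hx1]
      exact (summable_geometric_of_lt_one hx0 hx1).sum_le_tsum _ fun k _ => pow_nonneg hx0 k
    rw [h1, Finset.prod_insert hpP]
    calc ∑ y ∈ T.image g, F y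
        ≤ ∑ y ∈ (T.image fun a => (g a).1) ×ˢ (T.image fun a => (g a).2), F y :=
          Finset.sum_le_sum_of_subset_of_nonneg h2 fun y _ _ => hF0 y
      _ = (∑ k ∈ T.image fun a => (g a).1, x ^ k) *
            ∑ b ∈ T.image fun a => (g a).2, (nm b ^ s)⁻¹ := by
          rw [Finset.sum_product, Finset.sum_mul_sum]
      _ ≤ _ := mul_le_mul h4 h3
          (Finset.sum_nonneg fun b _ => inv_nonneg.2 (pow_nonneg (RZeta_nm_nonneg _) s))
          (inv_nonneg.2 (by linarith))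

/-- At most `d` maximal ideals contain a given rational prime. -/
lemma RZeta_card {l : ℕ} (hl : l.Prime) (S : Finset (Ideal (𝓞 K)))
    (hS : ∀ 𝔭 ∈ S, 𝔭.IsMaximal ∧ (l : 𝓞 K) ∈ 𝔭 ∧ l ≤ Ideal.absNorm 𝔭) :
    S.card ≤ finrank ℚ K := by
  have hd : (∏ 𝔭 ∈ S, 𝔭) ∣ Ideal.span {(l : 𝓞 K)} :=
    Finset.prod_primes_dvd _ (fun 𝔭 hp => RZeta_prime (hS 𝔭 hp).1) fun 𝔭 hp =>
      Ideal.dvd_span_singleton.2 (hS 𝔭 hp).2.1
  have h1 := map_dvd Ideal.absNorm hd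
  rw [Ideal.absNorm_span_natCast, RingOfIntegers.rank, map_prod] at h1
  have h2 := Nat.le_of_dvd (pow_pos hl.pos _) h1
  have h3 : l ^ S.card ≤ ∏ 𝔭 ∈ S, Ideal.absNorm 𝔭 :=
    Finset.pow_card_le_prod S _ l fun 𝔭 hp => (hS 𝔭 hp).2.2
  exact (Nat.pow_le_pow_iff_right hl.one_lt).1 (h3.trans h2)

lemma RZeta_primesum {s : ℕ} {q V : ℝ} (hq : 2 ≤ q)
    (hqp : ∀ 𝔭 : Ideal (𝓞 K), 𝔭.IsMaximal → q ≤ nm 𝔭)
    (hV : ∀ L : Finset ℕ, (∀ l ∈ L, l.Prime) → ∑ l ∈ L, (max (l : ℝ) q ^ s)⁻¹ ≤ V)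
    (P : Finset (Ideal (𝓞 K))) (hP : ∀ 𝔭 ∈ P, 𝔭.IsMaximal) :
    ∑ 𝔭 ∈ P, (nm 𝔭 ^ s)⁻¹ ≤ (finrank ℚ K : ℝ) * V := by
  classical
  have hex : ∀ 𝔭 : Ideal (𝓞 K), ∃ l : ℕ,
      𝔭.IsMaximal → l.Prime ∧ (l : 𝓞 K) ∈ 𝔭 ∧ l ≤ Ideal.absNorm 𝔭 := by
    intro 𝔭
    by_cases h : 𝔭.IsMaximal
    · obtain ⟨p, n, hn, hm, hp, he⟩ := Ideal.exists_prime_and_absNorm_eq_pow 𝔭
      exact ⟨p, fun _ => ⟨hp, hm, he ▸ Nat.le_self_pow hn.ne' p⟩⟩
    · exact ⟨0, fun h' => (h h').elim⟩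
  choose g hg using hex
  have hpos : ∀ l : ℕ, 0 < max (l : ℝ) q := fun l => lt_max_of_lt_right (by linarith)
  calc ∑ 𝔭 ∈ P, (nm 𝔭 ^ s)⁻¹ ≤ ∑ 𝔭 ∈ P, (max (g 𝔭 : ℝ) q ^ s)⁻¹ := by
        refine Finset.sum_le_sum fun 𝔭 hp => ?_
        have h1 : max (g 𝔭 : ℝ) q ≤ nm 𝔭 :=
          max_le (by unfold nm; exact_mod_cast (hg 𝔭 (hP 𝔭 hp)).2.2) (hqp 𝔭 (hP 𝔭 hp))
        exact inv_anti₀ (pow_pos (hpos _) s) (pow_le_pow_left₀ (hpos _).le h1 s)
    _ = ∑ l ∈ P.image g, ((P.filter fun 𝔭 => g 𝔭 = l).card : ℝ) * (max (l : ℝ) q ^ s)⁻¹ := by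
        rw [← Finset.sum_fiberwise_of_maps_to (fun 𝔭 hp => Finset.mem_image_of_mem g hp)]
        refine Finset.sum_congr rfl fun l _ => ?_
        rw [Finset.sum_congr rfl (g := fun _ => (max (l : ℝ) q ^ s)⁻¹)
          (fun 𝔭 hp => by rw [(Finset.mem_filter.1 hp).2])]
        simp
    _ ≤ ∑ l ∈ P.image g, (finrank ℚ K : ℝ) * (max (l : ℝ) q ^ s)⁻¹ := by
        refine Finset.sum_le_sum fun l hl => ?_
        obtain ⟨𝔮, hq', rfl⟩ := Finset.mem_image.1 hl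
        refine mul_le_mul_of_nonneg_right ?_ (inv_nonneg.2 (pow_nonneg (hpos _).le s))
        have := RZeta_card (hg 𝔮 (hP 𝔮 hq')).1 (P.filter fun 𝔭 => g 𝔭 = g 𝔮) (by
          intro 𝔭 hp
          obtain ⟨h1, h2⟩ := Finset.mem_filter.1 hp
          exact ⟨hP 𝔭 h1, h2 ▸ (hg 𝔭 (hP 𝔭 h1)).2⟩)
        exact_mod_cast this
    _ ≤ _ := by
        rw [← Finset.mul_sum]
        refine mul_le_mul_of_nonneg_left (hV _ fun l hl => ?_) (Nat.cast_nonneg _)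
        obtain ⟨𝔮, hq', rfl⟩ := Finset.mem_image.1 hl
        exact (hg 𝔮 (hP 𝔮 hq')).1

lemma RZeta_gen {s : ℕ} (hs : 1 ≤ s) {q V : ℝ} (hq : 2 ≤ q)
    (hqp : ∀ 𝔭 : Ideal (𝓞 K), 𝔭.IsMaximal → q ≤ nm 𝔭)
    (hV : ∀ L : Finset ℕ, (∀ l ∈ L, l.Prime) → ∑ l ∈ L, (max (l : ℝ) q ^ s)⁻¹ ≤ V)
    {Z : ℝ} (hZ : Real.exp ((finrank ℚ K : ℝ) * V * (1 - (q ^ s)⁻¹)⁻¹) ≤ Z) : ZB K s Z := by
  classical
  intro T hT
  let P : Finset (Ideal (𝓞 K)) :=
    T.biUnion fun 𝔞 => (UniqueFactorizationMonoid.normalizedFactors 𝔞).toFinset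
  have hP : ∀ 𝔭 ∈ P, Prime 𝔭 := by
    intro 𝔭 hp
    obtain ⟨𝔞, -, h⟩ := Finset.mem_biUnion.1 hp
    exact UniqueFactorizationMonoid.prime_of_normalized_factor 𝔭 (Multiset.mem_toFinset.1 h)
  have h1 := RZeta_euler hs P hP T (by
    intro 𝔞 ha
    have h0 : 𝔞 ≠ 0 := fun h => hT (by rw [← Submodule.zero_eq_bot, ← h]; exact ha)
    refine ⟨h0, fun 𝔮 hq' hd => Finset.mem_biUnion.2 ⟨𝔞, ha, Multiset.mem_toFinset.2 ?_⟩⟩
    exact (UniqueFactorizationMonoid.mem_normalizedFactors_iff h0).2 ⟨hq', hd⟩)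
  have hq1 : (q ^ s)⁻¹ < 1 := RZeta_lt_one hs hq
  have h2 : ∏ 𝔭 ∈ P, (1 - (nm 𝔭 ^ s)⁻¹)⁻¹ ≤
      ∏ 𝔭 ∈ P, Real.exp ((nm 𝔭 ^ s)⁻¹ * (1 - (q ^ s)⁻¹)⁻¹) := by
    refine Finset.prod_le_prod (fun 𝔭 hp => inv_nonneg.2 ?_) fun 𝔭 hp => ?_
    · linarith [RZeta_lt_one hs (RZeta_two_le (RZeta_max (hP 𝔭 hp)))]
    · have hm := RZeta_max (hP 𝔭 hp)
      have hx1 := RZeta_lt_one hs (RZeta_two_le hm)
      have hx0 : 0 ≤ (nm 𝔭 ^ s)⁻¹ := inv_nonneg.2 (pow_nonneg (RZeta_nm_nonneg _) s)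
      have hle : (nm 𝔭 ^ s)⁻¹ ≤ (q ^ s)⁻¹ :=
        inv_anti₀ (pow_pos (by linarith) s) (pow_le_pow_left₀ (by linarith) (hqp 𝔭 hm) s)
      generalize (nm 𝔭 ^ s)⁻¹ = x at hx1 hx0 hle
      have h3 : (1 - x)⁻¹ = x * (1 - x)⁻¹ + 1 := by
        have : 1 - x ≠ 0 := by linarith
        field_simp
        ring
      rw [h3]
      refine (Real.add_one_le_exp _).trans (Real.exp_le_exp.2 ?_)
      exact mul_le_mul_of_nonneg_left (inv_anti₀ (by linarith) (by linarith)) hx0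
  refine h1.trans (h2.trans (le_trans ?_ hZ))
  rw [← Real.exp_sum, ← Finset.sum_mul]
  exact Real.exp_le_exp.2 (mul_le_mul_of_nonneg_right
    (RZeta_primesum hq hqp hV P fun 𝔭 hp => RZeta_max (hP 𝔭 hp)) (inv_nonneg.2 (by linarith)))

lemma RZeta_step (s : ℕ) {x : ℝ} (hx : 0 < x) :
    (s : ℝ) * ((x + 1) ^ (s + 1))⁻¹ ≤ (x ^ s)⁻¹ - ((x + 1) ^ s)⁻¹ := by
  have h1 : 1 + (s : ℝ) * x⁻¹ ≤ (1 + x⁻¹) ^ s :=
    one_add_mul_le_pow (by have := inv_pos.2 hx; linarith) s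
  have h2 : (1 + x⁻¹) ^ s = (x + 1) ^ s * (x ^ s)⁻¹ := by
    rw [← inv_pow, ← mul_pow]
    congr 1
    field_simp
  have h3 : (s : ℝ) * (x + 1)⁻¹ ≤ s * x⁻¹ :=
    mul_le_mul_of_nonneg_left (inv_anti₀ hx (by linarith)) (Nat.cast_nonneg s)
  have hy : 0 < (x + 1) ^ s := pow_pos (by linarith) s
  have h4 : 1 + (s : ℝ) * (x + 1)⁻¹ ≤ (x + 1) ^ s * (x ^ s)⁻¹ := by linarith
  have h5 := mul_le_mul_of_nonneg_left h4 (inv_pos.2 hy).le
  rw [← mul_assoc, inv_mul_cancel₀ hy.ne', one_mul] at h5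
  rw [pow_succ, mul_inv]
  nlinarith

lemma RZeta_tail (s m : ℕ) (hm : 0 < m) (L : Finset ℕ) (hL : ∀ l ∈ L, m < l) :
    (s : ℝ) * ∑ l ∈ L, ((l : ℝ) ^ (s + 1))⁻¹ ≤ ((m : ℝ) ^ s)⁻¹ := by
  have key : ∀ n : ℕ, (s : ℝ) * ∑ l ∈ Finset.Ioc m (m + n), ((l : ℝ) ^ (s + 1))⁻¹ ≤
      ((m : ℝ) ^ s)⁻¹ - (((m + n : ℕ) : ℝ) ^ s)⁻¹ := by
    intro n
    induction n with
    | zero => simp
    | succ n ih =>
      rw [← add_assoc, Finset.sum_Ioc_succ_top (by omega), mul_add]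
      have := RZeta_step s (x := ((m + n : ℕ) : ℝ)) (by exact_mod_cast (by omega : 0 < m + n))
      push_cast at this ih ⊢
      linarith
  have hsub : L ⊆ Finset.Ioc m (m + L.sup id) := by
    intro l hl
    have : l ≤ L.sup id := Finset.le_sup (f := id) hl
    exact Finset.mem_Ioc.2 ⟨hL l hl, by omega⟩
  have h1 : ∑ l ∈ L, ((l : ℝ) ^ (s + 1))⁻¹ ≤
      ∑ l ∈ Finset.Ioc m (m + L.sup id), ((l : ℝ) ^ (s + 1))⁻¹ :=
    Finset.sum_le_sum_of_subset_of_nonneg hsub fun l _ _ => by positivity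
  have h2 := key (L.sup id)
  have h3 : 0 ≤ (((m + L.sup id : ℕ) : ℝ) ^ s)⁻¹ := by positivity
  have h4 := mul_le_mul_of_nonneg_left h1 (Nat.cast_nonneg (α := ℝ) s)
  linarith

/-- The sum over rational primes with the cut-off `m`. -/
lemma RZeta_cut (s m : ℕ) (hs : 0 < s) (hm : 0 < m) (A : Finset ℕ)
    (hA : ∀ l : ℕ, l.Prime → l ≤ m → l ∈ A) (L : Finset ℕ) (hL : ∀ l ∈ L, l.Prime) :
    ∑ l ∈ L, (max (l : ℝ) m ^ (s + 1))⁻¹ ≤
      A.card * ((m : ℝ) ^ (s + 1))⁻¹ + ((m : ℝ) ^ s)⁻¹ / s := by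
  classical
  rw [← Finset.sum_filter_add_sum_filter_not L fun l => l ≤ m]
  refine add_le_add ?_ ?_
  · rw [Finset.sum_congr rfl (g := fun _ => ((m : ℝ) ^ (s + 1))⁻¹) (fun l hl => by
      rw [max_eq_right (by exact_mod_cast (Finset.mem_filter.1 hl).2)])]
    rw [Finset.sum_const, nsmul_eq_mul]
    refine mul_le_mul_of_nonneg_right ?_ (by positivity)
    have : (L.filter fun l => l ≤ m) ⊆ A := fun l hl =>
      hA l (hL l (Finset.mem_filter.1 hl).1) (Finset.mem_filter.1 hl).2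
    exact_mod_cast Finset.card_le_card this
  · rw [Finset.sum_congr rfl (g := fun l : ℕ => ((l : ℝ) ^ (s + 1))⁻¹) (fun l hl => by
      rw [max_eq_left (by exact_mod_cast (not_le.1 (Finset.mem_filter.1 hl).2).le)])]
    rw [le_div_iff₀ (by exact_mod_cast hs), mul_comm]
    exact RZeta_tail s m hm _ fun l hl => not_le.1 (Finset.mem_filter.1 hl).2

lemma RZeta_A2 (l : ℕ) (hl : l.Prime) (h : l ≤ 2) : l ∈ ({2} : Finset ℕ) := by
  have := hl.two_le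
  simp only [Finset.mem_singleton]
  omega

lemma RZeta_A4 (l : ℕ) (hl : l.Prime) (h : l ≤ 4) : l ∈ ({2, 3} : Finset ℕ) := by
  have := hl.two_le
  interval_cases l
  · simp
  · simp
  · exact absurd hl (by norm_num)

lemma RZeta_exp {x y : ℝ} (hx : x < 1) (h : (1 - x)⁻¹ ≤ y) : Real.exp x ≤ y := by
  refine le_trans ?_ h
  have h1 : 1 - x ≤ Real.exp (-x) := by linarith [Real.add_one_le_exp (-x)]
  rw [Real.exp_neg] at h1
  exact (le_inv_comm₀ (by linarith) (Real.exp_pos x)).1 h1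

theorem zb5 (K : Type) [Field K] [NumberField K] :
    ZB K 5 (Real.exp ((finrank ℚ K : ℝ) * 0.0484)) := by
  refine RZeta_gen (q := (2 : ℕ)) (by norm_num) (by norm_num)
    (fun 𝔭 h => by exact_mod_cast RZeta_two_le h)
    (RZeta_cut 4 2 (by norm_num) (by norm_num) {2} RZeta_A2) (Real.exp_le_exp.2 ?_)
  rw [mul_assoc]
  exact mul_le_mul_of_nonneg_left (by norm_num) (Nat.cast_nonneg _)

theorem zb7 (K : Type) [Field K] [NumberField K] :
    ZB K 7 (Real.exp ((finrank ℚ K : ℝ) * 0.0105)) := by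
  refine RZeta_gen (q := (2 : ℕ)) (by norm_num) (by norm_num)
    (fun 𝔭 h => by exact_mod_cast RZeta_two_le h)
    (RZeta_cut 6 2 (by norm_num) (by norm_num) {2} RZeta_A2) (Real.exp_le_exp.2 ?_)
  rw [mul_assoc]
  exact mul_le_mul_of_nonneg_left (by norm_num) (Nat.cast_nonneg _)

theorem zb5' (hd : finrank ℚ K = 2) (h4 : ∀ 𝔭 : Ideal (𝓞 K), 𝔭.IsMaximal → 4 ≤ nm 𝔭) :
    ZB K 5 1.0059 := by
  refine RZeta_gen (q := (4 : ℕ)) (by norm_num) (by norm_num)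
    (fun 𝔭 h => by exact_mod_cast h4 𝔭 h)
    (RZeta_cut 4 4 (by norm_num) (by norm_num) {2, 3} RZeta_A4) ?_
  rw [hd]
  exact RZeta_exp (by norm_num) (by norm_num)

theorem zb7' (hd : finrank ℚ K = 2) (h4 : ∀ 𝔭 : Ideal (𝓞 K), 𝔭.IsMaximal → 4 ≤ nm 𝔭) :
    ZB K 7 1.0004 := by
  refine RZeta_gen (q := (4 : ℕ)) (by norm_num) (by norm_num)
    (fun 𝔭 h => by exact_mod_cast h4 𝔭 h)
    (RZeta_cut 6 4 (by norm_num) (by norm_num) {2, 3} RZeta_A4) ?_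
  rw [hd]
  exact RZeta_exp (by norm_num) (by norm_num)

theorem ZB.one_le {s : ℕ} {Z : ℝ} (h : ZB K s Z) : 1 ≤ Z := by
  simpa [nm_top] using h {⊤} (by simp)

theorem ZB.sub_one {s : ℕ} {Z : ℝ} (h : ZB K s Z) (T : Finset (Ideal (𝓞 K))) (h0 : ⊥ ∉ T)
    (h1 : ⊤ ∉ T) : ∑ 𝔞 ∈ T, (nm 𝔞 ^ s)⁻¹ ≤ Z - 1 := by
  classical
  have := h (insert ⊤ T) (by simp [h0])
  rw [Finset.sum_insert h1, nm_top] at this
  simp only [one_pow, inv_one] at this
  linarith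

theorem ZB.prod_le {s : ℕ} {Z : ℝ} (h : ZB K s Z) (T : Finset (Ideal (𝓞 K)))
    (hT : ∀ 𝔭 ∈ T, 𝔭.IsMaximal) : ∏ 𝔭 ∈ T, (1 + (nm 𝔭 ^ s)⁻¹) ≤ Z := by
  classical
  have hmem : ∀ J ∈ T.powerset, ∀ 𝔮 ∈ T, (𝔮 ∣ ∏ 𝔭 ∈ J, 𝔭 ↔ 𝔮 ∈ J) := by
    intro J hJ 𝔮 hq
    refine ⟨fun hd => ?_, fun hm => Finset.dvd_prod_of_mem _ hm⟩
    obtain ⟨𝔭, hp, hd'⟩ := (Prime.dvd_finsetProd_iff (RZeta_prime (hT 𝔮 hq)) _).1 hd
    have := (hT 𝔭 (Finset.mem_powerset.1 hJ hp)).eq_of_le (hT 𝔮 hq).ne_top (Ideal.le_of_dvd hd')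
    exact this ▸ hp
  have hinj : Set.InjOn (fun J : Finset (Ideal (𝓞 K)) => ∏ 𝔭 ∈ J, 𝔭) T.powerset := by
    intro J hJ J' hJ' he
    have he' : ∏ 𝔭 ∈ J, 𝔭 = ∏ 𝔭 ∈ J', 𝔭 := he
    have hJ1 : J ∈ T.powerset := by exact_mod_cast hJ
    have hJ2 : J' ∈ T.powerset := by exact_mod_cast hJ'
    ext 𝔮
    constructor
    · intro hq
      have hqT := Finset.mem_powerset.1 hJ1 hq
      exact (hmem J' hJ2 𝔮 hqT).1 (he' ▸ (hmem J hJ1 𝔮 hqT).2 hq)
    · intro hq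
      have hqT := Finset.mem_powerset.1 hJ2 hq
      exact (hmem J hJ1 𝔮 hqT).1 (he'.symm ▸ (hmem J' hJ2 𝔮 hqT).2 hq)
  have := h (T.powerset.image fun J => ∏ 𝔭 ∈ J, 𝔭) (by
    intro h0
    obtain ⟨J, hJ, he⟩ := Finset.mem_image.1 h0
    have he' : ∏ 𝔭 ∈ J, 𝔭 = 0 := he
    obtain ⟨𝔭, hp, h0'⟩ := Finset.prod_eq_zero_iff.1 he'
    exact (RZeta_prime (hT 𝔭 (Finset.mem_powerset.1 hJ hp))).ne_zero h0')
  rw [Finset.sum_image hinj] at this
  rw [Finset.prod_one_add]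
  refine le_of_eq_of_le (Finset.sum_congr rfl fun J _ => ?_) this
  rw [RZeta_nm_prod, ← Finset.prod_pow, Finset.prod_inv_distrib]

theorem ZB.card_le {s : ℕ} {Z : ℝ} (h : ZB K s Z) {X : ℝ} (T : Finset (Ideal (𝓞 K)))
    (h0 : ⊥ ∉ T) (hT : ∀ 𝔞 ∈ T, nm 𝔞 ≤ X) (hX : 0 ≤ X) : (T.card : ℝ) ≤ X ^ s * Z := by
  calc (T.card : ℝ) = ∑ _𝔞 ∈ T, (1 : ℝ) := by simp
    _ ≤ ∑ 𝔞 ∈ T, X ^ s * (nm 𝔞 ^ s)⁻¹ := by
        refine Finset.sum_le_sum fun 𝔞 ha => ?_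
        have h1 : 0 < nm 𝔞 := lt_of_lt_of_le one_pos (one_le_nm fun h' => h0 (h' ▸ ha))
        rw [← div_eq_mul_inv, le_div_iff₀ (pow_pos h1 s), one_mul]
        exact pow_le_pow_left₀ h1.le (hT 𝔞 ha) s
    _ ≤ _ := by
        rw [← Finset.mul_sum]
        exact mul_le_mul_of_nonneg_left (h T h0) (pow_nonneg hX s)

theorem summable_nm {s : ℝ} (hs : 5 ≤ s) : Summable fun 𝔞 : Ideal (𝓞 K) => nm 𝔞 ^ (-s) := by
  classical
  refine summable_of_sum_le (c := Real.exp ((finrank ℚ K : ℝ) * 0.0484))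
    (fun 𝔞 => Real.rpow_nonneg (RZeta_nm_nonneg 𝔞) _) fun T => ?_
  rw [← Finset.sum_erase (a := ⊥) T (by rw [nm_bot]; exact Real.zero_rpow (by linarith))]
  refine le_trans (Finset.sum_le_sum fun 𝔞 ha => ?_) (zb5 K (T.erase ⊥) (by simp))
  have h1 := one_le_nm (Finset.ne_of_mem_erase ha)
  rw [← Real.rpow_natCast, ← Real.rpow_neg (by linarith)]
  exact Real.rpow_le_rpow_of_exponent_le h1 (by push_cast; linarith)

end Pool.Agent.Work.MP_c8d35c_al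
end

-- merged part: Pool.Agent.Work.MP_c8d35c_al.RAr2
section
/-! The sum of the singular series over all types. -/

namespace Pool.Agent.Work.MP_c8d35c_al

open NumberField Module Matrix

variable {K : Type} [Field K] [NumberField K] {N : ℕ}

open UniqueFactorizationMonoid in
theorem ar2_two_pow_le {I : Ideal (𝓞 K)} (hI : I ≠ ⊥) :
    2 ^ Multiset.card (normalizedFactors I) ≤ Ideal.absNorm I := by
  conv_rhs => rw [← Ideal.prod_normalizedFactors_eq_self hI, map_multiset_prod]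
  rw [← Multiset.card_map Ideal.absNorm]
  refine Multiset.pow_card_le_prod fun x hx => ?_
  obtain ⟨p, hp, rfl⟩ := Multiset.mem_map.mp hx
  obtain ⟨hp1, hp2⟩ := (Ideal.mem_normalizedFactors_iff hI).mp hp
  have h0 : Ideal.absNorm p ≠ 0 := fun h =>
    hI (le_bot_iff.mp (Ideal.absNorm_eq_zero_iff.mp h ▸ hp2))
  have h1 : Ideal.absNorm p ≠ 1 := fun h => hp1.ne_top (Ideal.absNorm_eq_one_iff.mp h)
  omega

omit [NumberField K] in
theorem ar2_two_ne [CharZero K] : (Ideal.span {2} : Ideal (𝓞 K)) ≠ ⊥ := by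
  rw [Ne, Ideal.span_singleton_eq_bot]
  exact two_ne_zero

theorem ar2_norm_two : Ideal.absNorm (Ideal.span {2} : Ideal (𝓞 K)) = 2 ^ finrank ℚ K := by
  have := Ideal.absNorm_span_natCast (S := 𝓞 K) 2
  rw [RingOfIntegers.rank] at this
  exact_mod_cast this

theorem ar2_fst_ne {p : Ideal (𝓞 K) × Ideal (𝓞 K)} (h : p.1 * p.2 = Ideal.span {2}) :
    p.1 ≠ ⊥ := fun h0 => ar2_two_ne (by rw [← h, h0, Ideal.bot_mul])

theorem ar2_inj :
    Set.InjOn Prod.fst {p : Ideal (𝓞 K) × Ideal (𝓞 K) | p.1 * p.2 = Ideal.span {2}} := by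
  intro p hp q hq h
  have hp' : p.1 * p.2 = Ideal.span {2} := hp
  have hq' : q.1 * q.2 = Ideal.span {2} := hq
  refine Prod.ext h (mul_left_cancel₀ (ar2_fst_ne hp') ?_)
  rw [hp', h, hq']

theorem finite_pairs (K : Type) [Field K] [NumberField K] :
    {p : Ideal (𝓞 K) × Ideal (𝓞 K) | p.1 * p.2 = Ideal.span {2}}.Finite := by
  refine Set.Finite.of_finite_image ?_ ar2_inj
  refine (Ideal.finite_setOfPred_absNorm_le (S := 𝓞 K) (2 ^ finrank ℚ K)).subset ?_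
  rintro _ ⟨p, hp, rfl⟩
  have hp' : p.1 * p.2 = Ideal.span {2} := hp
  refine Nat.le_of_dvd (by positivity) ?_
  rw [← ar2_norm_two, ← hp', map_mul]
  exact Dvd.intro _ rfl

open UniqueFactorizationMonoid in
theorem card_pairs (TT : Finset (Ideal (𝓞 K) × Ideal (𝓞 K)))
    (hT : ∀ p ∈ TT, p.1 * p.2 = Ideal.span {2}) : TT.card ≤ 2 ^ finrank ℚ K := by
  classical
  set I : Ideal (𝓞 K) := Ideal.span {2} with hI
  have h1 : TT.card ≤ (normalizedFactors I).powerset.toFinset.card := by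
    refine Finset.card_le_card_of_injOn (fun p => normalizedFactors p.1) (fun p hp => ?_) ?_
    · have hp' := hT p hp
      simp only [Finset.mem_coe, Multiset.mem_toFinset, Multiset.mem_powerset]
      exact (dvd_iff_normalizedFactors_le_normalizedFactors (ar2_fst_ne hp') ar2_two_ne).mp
        (Dvd.intro _ hp')
    · intro p hp q hq h
      refine ar2_inj (hT p hp) (hT q hq) ?_
      have h' : normalizedFactors p.1 = normalizedFactors q.1 := h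
      rw [← Ideal.prod_normalizedFactors_eq_self (ar2_fst_ne (hT p hp)), h',
        Ideal.prod_normalizedFactors_eq_self (ar2_fst_ne (hT q hq))]
  refine h1.trans ((Multiset.toFinset_card_le _).trans ?_)
  rw [Multiset.card_powerset, ← ar2_norm_two]
  exact ar2_two_pow_le ar2_two_ne

variable {A : Matrix (Fin N) (Fin N) K} {L : OSub K N}

theorem ar2_max_ne {𝔭 : Ideal (𝓞 K)} (h : 𝔭.IsMaximal) : 𝔭 ≠ ⊥ :=
  Ring.ne_bot_of_isMaximal_of_not_isField h (RingOfIntegers.not_isField K)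

theorem one_le_wt (hL : Integ A L) {Pr : Finset (Ideal (𝓞 K))} (hPr : ∀ 𝔭 ∈ Pr, 𝔭.IsMaximal)
    (J : Finset (Ideal (𝓞 K))) {𝔰 : Ideal (𝓞 K)} (hs : 𝔰 ≠ ⊥) (𝔠 : Ideal (𝓞 K)) :
    1 ≤ wt A L Pr J 𝔰 𝔠 := by
  classical
  unfold wt
  refine one_le_mul_of_one_le_of_one_le ?_ ?_
  · split_ifs
    · exact one_le_pow₀ (one_le_nm hs)
    · exact le_rfl
  · refine Finset.one_le_prod fun 𝔭 h𝔭 => ?_
    exact_mod_cast one_le_al hL J (ar2_max_ne (hPr 𝔭 (Finset.mem_filter.mp h𝔭).1))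

theorem ar2_nm_nonneg (𝔞 : Ideal (𝓞 K)) : 0 ≤ nm 𝔞 := Nat.cast_nonneg _

theorem summable_wt (hN : 14 ≤ N) (hL : Integ A L) {Pr : Finset (Ideal (𝓞 K))}
    (hPr : ∀ 𝔭 ∈ Pr, 𝔭.IsMaximal) (J : Finset (Ideal (𝓞 K))) {𝔰 : Ideal (𝓞 K)} (hs : 𝔰 ≠ ⊥) :
    Summable fun 𝔠 : Ideal (𝓞 K) => nm 𝔠 ^ (1 - (N : ℝ) / 2) / √(wt A L Pr J 𝔰 𝔠) := by
  have hN' : (14 : ℝ) ≤ N := by exact_mod_cast hN
  refine Summable.of_nonneg_of_le
    (fun 𝔠 => div_nonneg (Real.rpow_nonneg (ar2_nm_nonneg _) _) (Real.sqrt_nonneg _)) (fun 𝔠 => ?_)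
    (summable_nm (K := K) (s := (N : ℝ) / 2 - 1) (by linarith))
  rw [neg_sub]
  exact div_le_self (Real.rpow_nonneg (ar2_nm_nonneg _) _)
    (Real.one_le_sqrt.mpr (one_le_wt hL hPr J hs 𝔠))

/-- `x ^ N ≥ (x ^ 7) ^ 2`. -/
theorem ar2_sqrt (hN : 14 ≤ N) {x y : ℝ} (hx : 1 ≤ x) (hy : x ^ N ≤ y) : (√y)⁻¹ ≤ (x ^ 7)⁻¹ := by
  refine inv_anti₀ (by positivity) (Real.le_sqrt_of_sq_le (le_trans ?_ hy))
  rw [← pow_mul]
  exact pow_le_pow_right₀ hx hN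

open Classical in
/-- The sum over the types for one modulus. -/
theorem ar2_sum_J (hN : 14 ≤ N) (hL : Integ A L) {Pr : Finset (Ideal (𝓞 K))}
    (hPr : ∀ 𝔭 ∈ Pr, 𝔭.IsMaximal) {Z7 : ℝ} (h7 : ZB K 7 Z7) {𝔠 : Ideal (𝓞 K)} (hc : 𝔠 ≠ ⊥) :
    ∑ J ∈ Pr.powerset, (√(∏ 𝔭 ∈ Pr.filter (fun 𝔭 => ¬ 𝔠 ≤ 𝔭), (al A L J 𝔭 : ℝ)))⁻¹ ≤
      nm 𝔠 * Z7 := by
  let f : Ideal (𝓞 K) → ℝ := fun 𝔭 => if 𝔠 ≤ 𝔭 then 1 else (√(idx (rad A L 𝔭) L : ℝ))⁻¹
  let g : Ideal (𝓞 K) → ℝ := fun 𝔭 =>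
    if 𝔠 ≤ 𝔭 then 1 else (√(idx L (sharp A L ⊓ divI L 𝔭) : ℝ))⁻¹
  have h1 : ∀ J ∈ Pr.powerset, (√(∏ 𝔭 ∈ Pr.filter (fun 𝔭 => ¬ 𝔠 ≤ 𝔭), (al A L J 𝔭 : ℝ)))⁻¹ =
      (∏ 𝔭 ∈ J, f 𝔭) * ∏ 𝔭 ∈ Pr \ J, g 𝔭 := by
    intro J hJ
    rw [Real.sqrt_prod _ (fun _ _ => Nat.cast_nonneg _), ← Finset.prod_inv_distrib,
      Finset.prod_filter, ← Finset.prod_sdiff (Finset.mem_powerset.mp hJ), mul_comm]
    congr 1
    · refine Finset.prod_congr rfl fun 𝔭 h𝔭 => ?_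
      simp only [f, al, h𝔭, if_true, ite_not]
    · refine Finset.prod_congr rfl fun 𝔭 h𝔭 => ?_
      simp only [g, al, (Finset.mem_sdiff.mp h𝔭).2, if_false, ite_not]
  rw [Finset.sum_congr rfl h1, ← Finset.prod_add]
  have h2 : ∀ 𝔭 ∈ Pr, f 𝔭 + g 𝔭 ≤ (if 𝔠 ≤ 𝔭 then 2 else 1) * (1 + (nm 𝔭 ^ 7)⁻¹) := by
    intro 𝔭 h𝔭
    have hp := ar2_max_ne (hPr 𝔭 h𝔭)
    have hi : 0 ≤ (nm 𝔭 ^ 7)⁻¹ := inv_nonneg.mpr (pow_nonneg (ar2_nm_nonneg _) _)
    by_cases h : 𝔠 ≤ 𝔭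
    · simp only [f, g, h, if_true]
      linarith
    · simp only [f, g, h, if_false, one_mul]
      have ha : (1 : ℝ) ≤ idx (rad A L 𝔭) L := by
        have := one_le_al hL {𝔭} hp
        simp only [al, Finset.mem_singleton, if_true] at this
        exact_mod_cast this
      have hb : (1 : ℝ) ≤ idx L (sharp A L ⊓ divI L 𝔭) := by
        have := one_le_al hL ∅ hp
        simp only [al, Finset.notMem_empty, if_false] at this
        exact_mod_cast this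
      have ha' := inv_le_one_of_one_le₀ (Real.one_le_sqrt.mpr ha)
      have hb' := inv_le_one_of_one_le₀ (Real.one_le_sqrt.mpr hb)
      have hab := ar2_sqrt hN (one_le_nm hp) (al_mul hL hp)
      rw [Real.sqrt_mul (Nat.cast_nonneg _), mul_inv] at hab
      nlinarith [mul_nonneg (sub_nonneg.mpr ha') (sub_nonneg.mpr hb')]
  have h0 : ∀ 𝔭 ∈ Pr, 0 ≤ f 𝔭 + g 𝔭 := by
    intro 𝔭 _
    simp only [f, g]
    split_ifs <;> positivity
  refine (Finset.prod_le_prod h0 h2).trans ?_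
  rw [Finset.prod_mul_distrib]
  refine mul_le_mul ?_ (h7.prod_le Pr hPr) (Finset.prod_nonneg fun 𝔭 _ => ?_) (ar2_nm_nonneg _)
  · rw [← Finset.prod_filter, Finset.prod_const]
    have h3 : (Pr.filter (fun 𝔭 => 𝔠 ≤ 𝔭)).card ≤
        Multiset.card (UniqueFactorizationMonoid.normalizedFactors 𝔠) := by
      refine Multiset.card_le_card ((Multiset.le_iff_subset (Finset.nodup _)).mpr fun 𝔭 h𝔭 => ?_)
      obtain ⟨h4, h5⟩ := Finset.mem_filter.mp h𝔭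
      exact (Ideal.mem_normalizedFactors_iff hc).mpr ⟨(hPr 𝔭 h4).isPrime, h5⟩
    have h4 := (Nat.pow_le_pow_right two_pos h3).trans (ar2_two_pow_le hc)
    unfold nm
    exact_mod_cast h4
  · have : 0 ≤ (nm 𝔭 ^ 7)⁻¹ := inv_nonneg.mpr (pow_nonneg (ar2_nm_nonneg _) _)
    linarith

open Classical in
/-- The contribution of one modulus. -/
theorem ar2_one (hN : 14 ≤ N) (hL : Integ A L) {Pr : Finset (Ideal (𝓞 K))}
    (hPr : ∀ 𝔭 ∈ Pr, 𝔭.IsMaximal) (TT : Finset (Ideal (𝓞 K) × Ideal (𝓞 K)))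
    (hT : ∀ p ∈ TT, p.1 * p.2 = Ideal.span {2}) {Z7 : ℝ} (h7 : ZB K 7 Z7) (𝔠 : Ideal (𝓞 K)) :
    ∑ J ∈ Pr.powerset, ∑ p ∈ TT, nm 𝔠 ^ (1 - (N : ℝ) / 2) / √(wt A L Pr J p.1 𝔠) ≤
      if 𝔠 = ⊤ then Z7 * Z7 else Z7 * 2 ^ finrank ℚ K * (nm 𝔠 ^ 5)⁻¹ := by
  have hN' : (14 : ℝ) ≤ N := by exact_mod_cast hN
  have hZ : 0 ≤ Z7 := zero_le_one.trans h7.one_le
  by_cases hc : 𝔠 = ⊥
  · subst hc
    rw [if_neg bot_ne_top, nm_bot, Real.zero_rpow (by linarith)]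
    simp
  have hJ := ar2_sum_J hN hL hPr h7 hc
  have hsplit : ∑ J ∈ Pr.powerset, ∑ p ∈ TT, nm 𝔠 ^ (1 - (N : ℝ) / 2) / √(wt A L Pr J p.1 𝔠) =
      (∑ J ∈ Pr.powerset, (√(∏ 𝔭 ∈ Pr.filter (fun 𝔭 => ¬ 𝔠 ≤ 𝔭), (al A L J 𝔭 : ℝ)))⁻¹) *
        ∑ p ∈ TT, nm 𝔠 ^ (1 - (N : ℝ) / 2) * (√(if 𝔠 = ⊤ then nm p.1 ^ N else 1))⁻¹ := by
    rw [Finset.sum_mul_sum]
    refine Finset.sum_congr rfl fun J _ => Finset.sum_congr rfl fun p _ => ?_
    have : 0 ≤ (if 𝔠 = ⊤ then nm p.1 ^ N else 1) := by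
      split_ifs
      · exact pow_nonneg (ar2_nm_nonneg _) _
      · exact zero_le_one
    rw [wt, Real.sqrt_mul this, div_eq_mul_inv, mul_inv]
    ring
  rw [hsplit]
  refine (mul_le_mul_of_nonneg_right hJ (Finset.sum_nonneg fun p _ =>
    mul_nonneg (Real.rpow_nonneg (ar2_nm_nonneg _) _) (by positivity))).trans ?_
  by_cases ht : 𝔠 = ⊤
  · subst ht
    simp only [if_true, nm_top, Real.one_rpow, one_mul]
    refine mul_le_mul_of_nonneg_left ?_ hZ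
    refine le_trans (Finset.sum_le_sum fun p hp =>
      ar2_sqrt hN (one_le_nm (ar2_fst_ne (hT p hp))) le_rfl) ?_
    rw [← Finset.sum_image (f := fun 𝔞 => (nm 𝔞 ^ 7)⁻¹)
      (fun p hp q hq h => ar2_inj (hT p hp) (hT q hq) h)]
    refine h7 _ fun h => ?_
    obtain ⟨p, hp, hp'⟩ := Finset.mem_image.mp h
    exact ar2_fst_ne (hT p hp) hp'
  · simp only [ht, if_false, Real.sqrt_one, inv_one, mul_one, Finset.sum_const, nsmul_eq_mul]
    have h1 := one_le_nm hc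
    have h2 : nm 𝔠 * nm 𝔠 ^ (1 - (N : ℝ) / 2) ≤ (nm 𝔠 ^ 5)⁻¹ := by
      rw [← Real.rpow_one_add' (ar2_nm_nonneg _) (by linarith), ← Real.rpow_natCast,
        ← Real.rpow_neg (ar2_nm_nonneg _)]
      refine Real.rpow_le_rpow_of_exponent_le h1 ?_
      push_cast
      linarith
    have h3 : (TT.card : ℝ) ≤ 2 ^ finrank ℚ K := by exact_mod_cast card_pairs TT hT
    calc nm 𝔠 * Z7 * (TT.card * nm 𝔠 ^ (1 - (N : ℝ) / 2))
        = Z7 * TT.card * (nm 𝔠 * nm 𝔠 ^ (1 - (N : ℝ) / 2)) := by ring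
      _ ≤ _ := mul_le_mul (mul_le_mul_of_nonneg_left h3 hZ) h2
          (mul_nonneg (ar2_nm_nonneg _) (Real.rpow_nonneg (ar2_nm_nonneg _) _)) (by positivity)

theorem sum_types (hN : 14 ≤ N) (hL : Integ A L) {Pr : Finset (Ideal (𝓞 K))}
    (hPr : ∀ 𝔭 ∈ Pr, 𝔭.IsMaximal) (TT : Finset (Ideal (𝓞 K) × Ideal (𝓞 K)))
    (hT : ∀ p ∈ TT, p.1 * p.2 = Ideal.span {2}) {Z5 Z7 : ℝ} (h5 : ZB K 5 Z5) (h7 : ZB K 7 Z7) :
    ∑ J ∈ Pr.powerset, ∑ p ∈ TT,
        ∑' 𝔠 : Ideal (𝓞 K), nm 𝔠 ^ (1 - (N : ℝ) / 2) / √(wt A L Pr J p.1 𝔠) ≤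
      Z7 * (Z7 + 2 ^ finrank ℚ K * (Z5 - 1)) := by
  classical
  have hZ : 0 ≤ Z7 := zero_le_one.trans h7.one_le
  have hs : ∀ J, ∀ p ∈ TT,
      Summable fun 𝔠 : Ideal (𝓞 K) => nm 𝔠 ^ (1 - (N : ℝ) / 2) / √(wt A L Pr J p.1 𝔠) :=
    fun J p hp => summable_wt hN hL hPr J (ar2_fst_ne (hT p hp))
  rw [Finset.sum_congr rfl fun J _ => (Summable.tsum_finsetSum (hs J)).symm,
    ← Summable.tsum_finsetSum fun J _ => summable_sum (hs J)]
  refine (summable_sum fun J _ => summable_sum (hs J)).tsum_le_of_sum_le fun u => ?_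
  refine (Finset.sum_le_sum fun 𝔠 _ => ar2_one hN hL hPr TT hT h7 𝔠).trans ?_
  rw [Finset.sum_ite, mul_add, ← mul_assoc]
  refine add_le_add ?_ ((Finset.mul_sum _ _ _).symm.trans_le
    (mul_le_mul_of_nonneg_left ?_ (mul_nonneg hZ (pow_nonneg two_pos.le _))))
  · rw [Finset.sum_const, nsmul_eq_mul]
    have : ((u.filter (fun 𝔠 => 𝔠 = ⊤)).card : ℝ) ≤ 1 := by
      have h1 : (u.filter (fun 𝔠 => 𝔠 = ⊤)).card ≤ 1 := Finset.card_le_one.mpr fun a ha b hb =>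
        (Finset.mem_filter.mp ha).2.trans (Finset.mem_filter.mp hb).2.symm
      exact_mod_cast h1
    exact mul_le_of_le_one_left (mul_nonneg hZ hZ) this
  · rw [← Finset.sum_erase (f := fun 𝔞 : Ideal (𝓞 K) => (nm 𝔞 ^ 5)⁻¹) (a := ⊥) _
      (by simp only [nm_bot]; norm_num)]
    exact h5.sub_one _ (Finset.notMem_erase _ _) fun h =>
      (Finset.mem_filter.mp (Finset.mem_of_mem_erase h)).2 rfl

end Pool.Agent.Work.MP_c8d35c_al
end

-- merged part: Pool.Agent.Work.MP_c8d35c_al.RRoot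
section
/-! Every root of a lattice is, up to scaling, a vector of prescribed norm in a lattice of one
of finitely many types. -/

namespace Pool.Agent.Work.MP_c8d35c_al

open NumberField Module Matrix

variable {K : Type} [Field K] [NumberField K] {N : ℕ}

/-- Totally positive. -/
def TPos (x : K) : Prop := ∀ σ : Emb K, 0 < σ x

/-- `R` contains a representative of the inverse of every ideal class. -/
def ClassReps (R : Finset (Ideal (𝓞 K))) : Prop :=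
  ⊥ ∉ R ∧ ∀ 𝔞 : Ideal (𝓞 K), 𝔞 ≠ ⊥ → ∃ 𝔟 ∈ R, ∃ s : 𝓞 K, 𝔞 * 𝔟 = Ideal.span {s}

/-- `E` represents the totally positive units modulo squares. -/
def UnitReps (E : Finset (𝓞 K)ˣ) : Prop :=
  (∀ e ∈ E, TPos ((e : 𝓞 K) : K)) ∧
    ∀ u : (𝓞 K)ˣ, TPos ((u : 𝓞 K) : K) → ∃ e ∈ E, ∃ ε : (𝓞 K)ˣ, u = e * ε ^ 2

/-- The reflection in `v` maps `L` to itself. -/
def IsRoot (A : Matrix (Fin N) (Fin N) K) (L : OSub K N) (v : Fin N → K) : Prop :=
  TPos (bil A v v) ∧ v ≠ 0 ∧ ∀ x ∈ L, x - (2 * bil A x v / bil A v v) • v ∈ L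

/-- Totally positive generators of the ideals modulo squares of units. -/
theorem exists_gens {E : Finset (𝓞 K)ˣ} (hE : UnitReps E) :
    ∃ gens : Ideal (𝓞 K) → Finset (𝓞 K), ∀ 𝔤, (gens 𝔤).card ≤ E.card ∧
      (∀ m ∈ gens 𝔤, TPos (m : K) ∧ m ≠ 0 ∧ Ideal.span {m} = 𝔤) ∧
      ∀ m' : 𝓞 K, TPos (m' : K) → m' ≠ 0 → Ideal.span {m'} = 𝔤 →
        ∃ m ∈ gens 𝔤, ∃ ε : (𝓞 K)ˣ, m = m' * (ε : 𝓞 K) ^ 2 := by
  classical
  have key : ∀ 𝔤 : Ideal (𝓞 K), ∃ S : Finset (𝓞 K), S.card ≤ E.card ∧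
      (∀ m ∈ S, TPos (m : K) ∧ m ≠ 0 ∧ Ideal.span {m} = 𝔤) ∧
      ∀ m' : 𝓞 K, TPos (m' : K) → m' ≠ 0 → Ideal.span {m'} = 𝔤 →
        ∃ m ∈ S, ∃ ε : (𝓞 K)ˣ, m = m' * (ε : 𝓞 K) ^ 2 := by
    intro 𝔤
    by_cases h : ∃ m0 : 𝓞 K, TPos (m0 : K) ∧ m0 ≠ 0 ∧ Ideal.span {m0} = 𝔤
    · obtain ⟨m0, h1, h2, h3⟩ := h
      refine ⟨E.image fun e : (𝓞 K)ˣ => m0 * (e : 𝓞 K), Finset.card_image_le, ?_, ?_⟩
      · intro m hm
        obtain ⟨e, he, rfl⟩ := Finset.mem_image.1 hm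
        refine ⟨fun σ => ?_, mul_ne_zero h2 e.ne_zero, ?_⟩
        · push_cast
          rw [map_mul]
          exact mul_pos (h1 σ) (hE.1 e he σ)
        · rw [Ideal.span_singleton_mul_right_unit e.isUnit, h3]
      · intro m' k1 _ k3
        obtain ⟨u, rfl⟩ := Ideal.span_singleton_eq_span_singleton.1 (h3.trans k3.symm)
        have hu : TPos ((u : 𝓞 K) : K) := fun σ => by
          have := k1 σ
          push_cast at this
          rw [map_mul] at this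
          exact (mul_pos_iff_of_pos_left (h1 σ)).1 this
        obtain ⟨e, he, ε, rfl⟩ := hE.2 u hu
        refine ⟨_, Finset.mem_image_of_mem _ he, ε⁻¹, ?_⟩
        rw [Units.val_mul, Units.val_pow_eq_pow_val, mul_assoc, mul_assoc, ← mul_pow,
          Units.mul_inv, one_pow, mul_one]
    · exact ⟨∅, by simp, by simp, fun m' k1 k2 k3 => absurd ⟨m', k1, k2, k3⟩ h⟩
  choose gens hg using key
  exact ⟨gens, hg⟩

/-- A divisor of a product of distinct maximal ideals is a sub-product. -/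
theorem root_sub_prod (Pr : Finset (Ideal (𝓞 K))) (hPr : ∀ 𝔭 ∈ Pr, 𝔭.IsMaximal) :
    ∀ 𝔦 : Ideal (𝓞 K), (𝔦 ∣ ∏ 𝔭 ∈ Pr, 𝔭) → ∃ J ⊆ Pr, 𝔦 = ∏ 𝔭 ∈ J, 𝔭 := by
  classical
  induction Pr using Finset.induction_on with
  | empty =>
    intro 𝔦 h
    rw [Finset.prod_empty] at h
    exact ⟨∅, subset_rfl, by
      rw [Finset.prod_empty, Ideal.one_eq_top]
      exact Ideal.isUnit_iff.1 (isUnit_of_dvd_one h)⟩
  | insert p s hp ih =>
    intro 𝔦 h
    have hm := hPr p (Finset.mem_insert_self _ _)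
    have h0 : p ≠ ⊥ := Ring.ne_bot_of_isMaximal_of_not_isField hm (RingOfIntegers.not_isField K)
    have ih' := ih fun q hq => hPr q (Finset.mem_insert_of_mem hq)
    rw [Finset.prod_insert hp] at h
    rcases (Ideal.prime_of_isPrime h0 hm.isPrime).left_dvd_or_dvd_right_of_dvd_mul h with h1 | h1
    · obtain ⟨a, rfl⟩ := h1
      obtain ⟨J, hJ, rfl⟩ := ih' a ((mul_dvd_mul_iff_left h0).1 h)
      exact ⟨insert p J, Finset.insert_subset_insert _ hJ,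
        by rw [Finset.prod_insert fun hq => hp (hJ hq)]⟩
    · obtain ⟨J, hJ, rfl⟩ := ih' 𝔦 h1
      exact ⟨J, hJ.trans (Finset.subset_insert _ _), rfl⟩

theorem root_cancel {I J P : Ideal (𝓞 K)} (hP : P ≠ ⊥) (h : P * I ≤ P * J) : I ≤ J :=
  Ideal.dvd_iff_le.1 ((mul_dvd_mul_iff_left hP).1 (Ideal.dvd_iff_le.2 h))

omit [NumberField K] in
theorem root_mem {I : Ideal (𝓞 K)} {a z : 𝓞 K} (ha : a ≠ 0) (h : a * z ∈ Ideal.span {a} * I) :
    z ∈ I := by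
  obtain ⟨y, hy, e⟩ := Ideal.mem_span_singleton_mul.1 h
  rwa [← mul_left_cancel₀ ha e]

/-- The normalised case: every multiple of `w` that lies in `L` is an integral multiple. -/
theorem root_norm {A : Matrix (Fin N) (Fin N) K} {L : OSub K N} (hL : Integ A L)
    {𝔯 : Ideal (𝓞 K)} (hr : 𝔯 • sharp A L ≤ L) {R : Finset (Ideal (𝓞 K))} (hR : ClassReps R)
    {w : Fin N → K} (hw : bil A w w ≠ 0) (hroot : ∀ x ∈ L, (2 * bil A x w / bil A w w) • w ∈ L)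
    (hE : ∀ κ : K, κ • w ∈ L → ∃ c : 𝓞 K, κ = c) :
    ∃ 𝔦 𝔱 : Ideal (𝓞 K), 𝔦 ∣ 𝔯 ∧ 𝔱 ∣ Ideal.span {2} ∧ ∃ 𝔟 ∈ R, ∃ s m : 𝓞 K,
      s ≠ 0 ∧ s • w ∈ 𝔟 • Mty A L 𝔦 𝔱 ∧ bil A (s • w) (s • w) = m ∧
        Ideal.span {m} = 𝔟 ^ 2 * (𝔦 * 𝔱) := by
  have inj : ∀ {a b : 𝓞 K}, (a : K) = b → a = b := fun h => RingOfIntegers.coe_injective h
  have cm : ∀ a b : 𝓞 K, ((a * b : 𝓞 K) : K) = a * b := fun a b => map_mul (algebraMap (𝓞 K) K) a b
  obtain ⟨𝔢, he⟩ : ∃ 𝔢 : Ideal (𝓞 K), ∀ c, c ∈ 𝔢 ↔ c • w ∈ L :=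
    ⟨L.comap (LinearMap.toSpanSingleton (𝓞 K) _ w), fun _ => Iff.rfl⟩
  have he0 : 𝔢 ≠ ⊥ := by
    obtain ⟨c, hc, hc'⟩ := ((lat_iff L).1 hL.lat).2 w
    exact fun h => hc ((Submodule.eq_bot_iff _).1 h c ((he c).2 hc'))
  obtain ⟨𝔟, hb, s, hs⟩ := hR.2 𝔢 he0
  have hb0 : 𝔟 ≠ ⊥ := fun h => hR.1 (h ▸ hb)
  have hs0 : s ≠ 0 := fun h => mul_ne_zero he0 hb0 (by rw [hs, h]; simp)
  have hsm : s ∈ 𝔢 * 𝔟 := hs ▸ Ideal.mem_span_singleton_self s
  have hu : s • w ∈ L := (he s).1 (Ideal.mul_le_left hsm)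
  obtain ⟨𝔥, hh⟩ : ∃ 𝔥 : Ideal (𝓞 K), ∀ z, z ∈ 𝔥 ↔ ∃ x ∈ L, bil A x (s • w) = z := by
    refine ⟨{ carrier := {z | ∃ x ∈ L, bil A x (s • w) = z}
              zero_mem' := ⟨0, L.zero_mem, by simp [bil_zero_left]⟩
              add_mem' := ?_, smul_mem' := ?_ }, fun _ => Iff.rfl⟩
    · rintro a b ⟨x, hx, e⟩ ⟨y, hy, e'⟩
      exact ⟨x + y, L.add_mem hx hy, by simp [bil_add_left, e, e']⟩
    · rintro c a ⟨x, hx, e⟩
      exact ⟨c • x, L.smul_mem c hx, by simp [bil_ismul_left, e]⟩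
  obtain ⟨m, hm⟩ := hL.int hu _ hu
  have hm' : (m : K) = s * (s * bil A w w) := by rw [← hm, bil_ismul_left, bil_ismul_right]
  have hsK : (s : K) ≠ 0 := fun h => hs0 (inj (by simpa using h))
  have hm0 : m ≠ 0 := fun h => mul_ne_zero hsK (mul_ne_zero hsK hw) (by rw [← hm', h]; simp)
  have hh0 : 𝔥 ≠ ⊥ := fun h => hm0 ((Submodule.eq_bot_iff _).1 h m ((hh m).2 ⟨_, hu, hm⟩))
  have h1 : 𝔥 ≤ 𝔟 := by
    intro z hz
    obtain ⟨x, hx, e⟩ := (hh z).1 hz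
    have : ∀ t ∈ 𝔢 * 𝔟, ∃ y ∈ 𝔟, bil A x (t • w) = y := fun t ht => by
      refine Submodule.mul_induction_on ht (fun a ha b hb => ?_) ?_
      · obtain ⟨y, hy⟩ := hL.int ((he a).1 ha) x hx
        exact ⟨b * y, 𝔟.mul_mem_right y hb, by
          rw [mul_comm, mul_smul, bil_ismul_right, hy]; simp⟩
      · rintro a b ⟨y, hy, e1⟩ ⟨y', hy', e2⟩
        exact ⟨y + y', 𝔟.add_mem hy hy', by simp [add_smul, bil_add_right, e1, e2]⟩
    obtain ⟨y, hy, e'⟩ := this s hsm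
    rwa [inj (e.symm.trans e')]
  obtain ⟨𝔦, hi⟩ := Ideal.dvd_iff_le.2 h1
  have h2 : Ideal.span {m} ≤ 𝔟 * 𝔥 := by
    have : ∀ t ∈ 𝔢 * 𝔟, ∃ y ∈ 𝔟 * 𝔥, bil A (t • w) (s • w) = y := fun t ht => by
      refine Submodule.mul_induction_on ht (fun a ha b hb => ?_) ?_
      · obtain ⟨y, hy⟩ := hL.int hu _ ((he a).1 ha)
        exact ⟨b * y, Ideal.mul_mem_mul hb ((hh y).2 ⟨_, (he a).1 ha, hy⟩), by
          rw [mul_comm, mul_smul, bil_ismul_left, hy]; simp⟩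
      · rintro a b ⟨y, hy, e1⟩ ⟨y', hy', e2⟩
        exact ⟨y + y', Ideal.add_mem _ hy hy', by simp [add_smul, bil_add_left, e1, e2]⟩
    obtain ⟨y, hy, e'⟩ := this s hsm
    rwa [Ideal.span_singleton_le_iff_mem, inj (hm.symm.trans e')]
  obtain ⟨𝔱, ht⟩ := Ideal.dvd_iff_le.2 h2
  have ht' : Ideal.span {m} = 𝔟 ^ 2 * (𝔦 * 𝔱) := by rw [ht, hi]; ring
  refine ⟨𝔦, 𝔱, Ideal.dvd_iff_le.2 ?_, Ideal.dvd_iff_le.2 ?_, 𝔟, hb, s, m, hs0, ?_, hm, ht'⟩
  · obtain ⟨𝔥', a, ha0, ha⟩ := exists_mul_eq_span hh0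
    have haK : (a : K) ≠ 0 := fun h => ha0 (inj (by simpa using h))
    have hh0' : 𝔥' ≠ ⊥ := fun h => ha0 (by
      rw [h, Ideal.mul_bot] at ha
      exact Ideal.span_singleton_eq_bot.1 ha.symm)
    refine root_cancel (P := 𝔥' * (𝔢 * 𝔟)) (mul_ne_zero hh0' (mul_ne_zero he0 hb0)) ?_
    have e : 𝔥' * (𝔢 * 𝔟) * 𝔦 = Ideal.span {a} * 𝔢 := by rw [← ha, hi]; ring
    rw [e, hs, mul_right_comm, mul_comm, Ideal.span_singleton_mul_le_iff]
    intro t ht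
    refine Submodule.mul_induction_on ht (fun y hy r hr' => ?_) fun y z hy hz => by
      rw [mul_add]; exact Ideal.add_mem _ hy hz
    have k1 : ((y : K) / a) • s • w ∈ sharp A L := fun x hx => by
      obtain ⟨z, hz⟩ := hL.int hu x hx
      have : z * y ∈ Ideal.span {a} := ha ▸ Ideal.mul_mem_mul ((hh z).2 ⟨x, hx, hz⟩) hy
      obtain ⟨q, hq⟩ := Ideal.mem_span_singleton'.1 this
      refine ⟨q, ?_⟩
      have hq' : (q : K) * a = z * y := by exact_mod_cast congrArg (fun t : 𝓞 K => (t : K)) hq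
      rw [bil_smul_right, hz]
      field_simp
      linear_combination -hq'
    have k2 : ((r : K) * (y / a * s)) • w ∈ L := by
      rw [mul_smul, mul_smul]
      exact hr (Submodule.smul_mem_smul hr' k1)
    obtain ⟨c, hc⟩ := hE _ k2
    rw [hc] at k2
    refine Ideal.mem_span_singleton_mul.2 ⟨c, (he c).2 k2, inj ?_⟩
    simp only [cm]
    rw [← hc]
    field_simp
  · refine root_cancel (P := 𝔥 * (𝔢 * 𝔟)) (mul_ne_zero hh0 (mul_ne_zero he0 hb0)) ?_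
    have e : 𝔥 * (𝔢 * 𝔟) * 𝔱 = Ideal.span {m} * 𝔢 := by rw [ht]; ring
    rw [e, hs, mul_assoc, Ideal.span_singleton_mul_span_singleton, mul_comm,
      Ideal.span_singleton_mul_le_iff]
    intro z hz
    obtain ⟨x, hx, e⟩ := (hh z).1 hz
    have k2 := hroot x hx
    obtain ⟨c, hc⟩ := hE _ k2
    rw [hc] at k2
    refine Ideal.mem_span_singleton_mul.2 ⟨c, (he c).2 k2, inj ?_⟩
    have e2 : ((2 : 𝓞 K) : K) = 2 := map_ofNat (algebraMap (𝓞 K) K) 2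
    simp only [cm]
    rw [← hc, ← e, hm', bil_ismul_right, e2]
    field_simp
  · have k : ∀ a ∈ 𝔢, a • w ∈ Mty A L 𝔦 𝔱 := fun a ha => by
      have ha' := (he a).1 ha
      refine Submodule.subset_span ⟨⟨ha', fun x hx => ?_⟩, ?_⟩
      · obtain ⟨z, hz⟩ := hL.int ha' x hx
        obtain ⟨y, hy⟩ := hL.int hu x hx
        refine ⟨z, root_mem hs0 ?_, hz⟩
        have e : s * z = a * y := inj (by
          simp only [cm]
          rw [← hz, ← hy, bil_ismul_right, bil_ismul_right]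
          ring)
        rw [e, ← hs, mul_assoc, ← hi]
        exact Ideal.mul_mem_mul ha ((hh y).2 ⟨x, hx, hy⟩)
      · obtain ⟨z, hz⟩ := hL.int ha' _ ha'
        refine ⟨z, root_mem (mul_ne_zero hs0 hs0) ?_, hz⟩
        have e : s * s * z = a * a * m := inj (by
          simp only [cm]
          rw [← hz, hm', bil_ismul_left, bil_ismul_right]
          ring)
        have e' : Ideal.span {s * s} * (𝔦 * 𝔱) = 𝔢 * 𝔢 * Ideal.span {m} := by
          rw [← Ideal.span_singleton_mul_span_singleton, ← hs, ht']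
          ring
        rw [e, e']
        exact Ideal.mul_mem_mul (Ideal.mul_mem_mul ha ha) (Ideal.mem_span_singleton_self m)
    refine Submodule.mul_induction_on hsm (fun a ha b hb => ?_) fun y z hy hz => by
      rw [add_smul]; exact Submodule.add_mem _ hy hz
    rw [mul_comm, mul_smul]
    exact Submodule.smul_mem_smul hb (k a ha)

theorem root_type {A : Matrix (Fin N) (Fin N) K} {L : OSub K N} (hL : Integ A L)
    {Pr : Finset (Ideal (𝓞 K))} (hPr : ∀ 𝔭 ∈ Pr, 𝔭.IsMaximal)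
    (hr : (∏ 𝔭 ∈ Pr, 𝔭) • sharp A L ≤ L) {R : Finset (Ideal (𝓞 K))} (hR : ClassReps R)
    {v : Fin N → K} (hv0 : bil A v v ≠ 0) (hv : IsRoot A L v) :
    ∃ J ⊆ Pr, ∃ 𝔰 𝔱 : Ideal (𝓞 K), 𝔰 * 𝔱 = Ideal.span {2} ∧ ∃ 𝔟 ∈ R, ∃ (s : K) (m : 𝓞 K),
      s ≠ 0 ∧ s • v ∈ 𝔟 • Mty A L (∏ 𝔭 ∈ J, 𝔭) 𝔱 ∧ bil A (s • v) (s • v) = m ∧
        Ideal.span {m} = 𝔟 ^ 2 * ((∏ 𝔭 ∈ J, 𝔭) * 𝔱) := by
  obtain ⟨c, hc, hc'⟩ := ((lat_iff L).1 hL.lat).2 v
  have hcK : (c : K) ≠ 0 := fun h => hc (RingOfIntegers.coe_injective (by simpa using h))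
  have hβ : bil A (c • v) v ≠ 0 := by rw [bil_ismul_left]; exact mul_ne_zero hcK hv0
  generalize c • v = x0 at hc' hβ
  obtain ⟨𝔦, 𝔱, h1, ⟨𝔰, h2⟩, 𝔟, hb, s, m, hs, h3, h4, h5⟩ :=
    root_norm (w := (bil A x0 v)⁻¹ • v) hL hr hR
      (by
        rw [bil_smul_left, bil_smul_right]
        exact mul_ne_zero (inv_ne_zero hβ) (mul_ne_zero (inv_ne_zero hβ) hv0))
      (fun x hx => by
        have k := L.sub_mem hx (hv.2.2 x hx)
        rw [sub_sub_cancel] at k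
        convert k using 1
        rw [smul_smul, bil_smul_left, bil_smul_right, bil_smul_right]
        congr 1
        field_simp)
      (fun κ hκ => by
        obtain ⟨z, hz⟩ := hL.int hκ x0 hc'
        refine ⟨z, ?_⟩
        rw [← hz, bil_smul_right, bil_smul_right, inv_mul_cancel₀ hβ, mul_one])
  obtain ⟨J, hJ, rfl⟩ := root_sub_prod Pr hPr 𝔦 h1
  have e : ((s : K) * (bil A x0 v)⁻¹) • v = s • (bil A x0 v)⁻¹ • v := mul_smul _ _ _
  refine ⟨J, hJ, 𝔰, 𝔱, by rw [h2, mul_comm], 𝔟, hb, s * (bil A x0 v)⁻¹, m,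
    mul_ne_zero (fun h => hs (RingOfIntegers.coe_injective (by simpa using h))) (inv_ne_zero hβ),
    ?_, ?_, h5⟩
  · rwa [e]
  · rwa [e]

end Pool.Agent.Work.MP_c8d35c_al
end

-- merged part: Pool.Agent.Work.MP_c8d35c_al.RUnits
section
/-! Units modulo squares, ideal classes, and the field of discriminant 5. -/

namespace Pool.Agent.Work.MP_c8d35c_al

open NumberField Module

/-- The Minkowski bound. -/
noncomputable def mkb (d : ℕ) (D : ℝ) : ℝ := (d.factorial : ℝ) / (d : ℝ) ^ d * √D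

variable {K : Type} [Field K] [NumberField K] [IsTotallyReal K]

theorem RUnits_nonempty (K : Type) [Field K] [NumberField K] [IsTotallyReal K] :
    Nonempty (Emb K) := by
  rw [← Fintype.card_pos_iff, card_emb]
  exact finrank_pos

/-- The value of a unit at a real embedding. -/
noncomputable def RUnits_ev {K : Type} [Field K] (σ : Emb K) : (𝓞 K)ˣ →* ℝ :=
  ((σ.comp (algebraMap (𝓞 K) K) : 𝓞 K →+* ℝ) : 𝓞 K →* ℝ).comp (Units.coeHom (𝓞 K))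

theorem RUnits_ev_apply {K : Type} [Field K] (σ : Emb K) (u : (𝓞 K)ˣ) :
    RUnits_ev σ u = σ ((u : 𝓞 K) : K) := rfl

theorem RUnits_ev_neg {K : Type} [Field K] (σ : Emb K) (u : (𝓞 K)ˣ) :
    RUnits_ev σ (-u) = -RUnits_ev σ u := by
  simp [RUnits_ev]

theorem RUnits_ev_sq {K : Type} [Field K] (σ : Emb K) (u : (𝓞 K)ˣ) :
    0 < RUnits_ev σ (u ^ 2) := by
  have h : RUnits_ev σ u ≠ 0 := ((Group.isUnit u).map (RUnits_ev σ)).ne_zero
  rw [map_pow]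
  positivity

theorem RUnits_torsion {ζ : (𝓞 K)ˣ} (h : ζ ∈ Units.torsion K) : ζ = 1 ∨ ζ = -1 := by
  obtain ⟨σ⟩ := RUnits_nonempty K
  have hinj : Function.Injective (RUnits_ev σ) := by
    intro a b hab
    exact Units.ext (RingOfIntegers.coe_injective (σ.injective hab))
  rw [Units.torsion, CommGroup.mem_torsion, isOfFinOrder_iff_pow_eq_one] at h
  obtain ⟨n, hn, h⟩ := h
  have h1 : RUnits_ev σ ζ ^ n = 1 := by rw [← map_pow, h, map_one]
  rcases (pow_eq_one_iff_of_ne_zero hn.ne').1 h1 with h2 | ⟨h2, -⟩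
  · exact Or.inl (hinj (by rw [h2, map_one]))
  · exact Or.inr (hinj (by rw [h2, RUnits_ev_neg, map_one]))

theorem RUnits_rank (K : Type) [Field K] [NumberField K] [IsTotallyReal K] :
    Units.rank K = finrank ℚ K - 1 := by
  rw [Units.rank, InfinitePlace.card_eq_nrRealPlaces_add_nrComplexPlaces,
    IsTotallyReal.nrComplexPlaces_eq_zero, add_zero, IsTotallyReal.finrank]

/-- A product of distinct fundamental units. -/
noncomputable def RUnits_g {K : Type} [Field K] [NumberField K]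
    (δ : Fin (Units.rank K) → Fin 2) : (𝓞 K)ˣ := ∏ i, Units.fundSystem K i ^ (δ i : ℕ)

theorem RUnits_struct (u : (𝓞 K)ˣ) : ∃ (δ : Fin (Units.rank K) → Fin 2) (ε : (𝓞 K)ˣ),
    u = RUnits_g δ * ε ^ 2 ∨ u = -RUnits_g δ * ε ^ 2 := by
  obtain ⟨⟨ζ, e⟩, h, -⟩ := Units.exist_unique_eq_mul_prod K u
  have h2 : ∀ i, (e i % 2).toNat < 2 := fun i => by omega
  refine ⟨fun i => ⟨(e i % 2).toNat, h2 i⟩, ∏ i, Units.fundSystem K i ^ (e i / 2), ?_⟩
  have h3 : ∏ i, Units.fundSystem K i ^ e i = RUnits_g (fun i => ⟨(e i % 2).toNat, h2 i⟩) *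
      (∏ i, Units.fundSystem K i ^ (e i / 2)) ^ 2 := by
    rw [RUnits_g, ← Finset.prod_pow, ← Finset.prod_mul_distrib]
    refine Finset.prod_congr rfl fun i _ => ?_
    rw [← zpow_natCast, ← zpow_natCast, ← zpow_mul, ← zpow_add]
    refine congrArg _ ?_
    simp only
    omega
  simp only at h
  rw [h3] at h
  rcases RUnits_torsion ζ.2 with h4 | h4
  · exact Or.inl (by rw [h, h4, one_mul])
  · exact Or.inr (by rw [h, h4, neg_mul, one_mul, neg_mul])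

omit [IsTotallyReal K] in
theorem RUnits_basis (hd : finrank ℚ K = 2) :
    ∃ (w : 𝓞 K) (c : Basis (Fin 2) ℤ (𝓞 K)), c 0 = 1 ∧ c 1 = w := by
  have hr : finrank ℤ (𝓞 K) = 2 := (RingOfIntegers.rank K).trans hd
  let b : Basis (Fin 2) ℤ (𝓞 K) := finBasisOfFinrankEq ℤ (𝓞 K) hr
  have h1 : b.repr 1 0 • b 0 + b.repr 1 1 • b 1 = 1 := by
    have := b.sum_repr 1
    rwa [Fin.sum_univ_two] at this
  generalize b.repr 1 0 = p, b.repr 1 1 = q at h1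
  have hco : IsCoprime p q := by
    rw [Int.isCoprime_iff_gcd_eq_one]
    obtain ⟨p', hp⟩ := Int.gcd_dvd_left p q
    obtain ⟨q', hq⟩ := Int.gcd_dvd_right p q
    generalize Int.gcd p q = g at hp hq
    have h2 : algebraMap ℤ (𝓞 K) (g : ℤ) * (p' • b 0 + q' • b 1) = 1 := by
      rw [← h1, hp, hq, ← Algebra.smul_def, smul_add, smul_smul, smul_smul]
    have h3 : IsUnit (Algebra.norm ℤ (algebraMap ℤ (𝓞 K) (g : ℤ))) :=
      (IsUnit.of_mul_eq_one _ h2).map _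
    rw [Algebra.norm_algebraMap_of_basis b, isUnit_pow_iff (by simp), Int.isUnit_iff] at h3
    omega
  obtain ⟨u, v, huv⟩ := hco
  have hsp : ⊤ ≤ Submodule.span ℤ (Set.range ![1, (-v) • b 0 + u • b 1]) := by
    rw [← b.span_eq, Submodule.span_le]
    have m0 : (1 : 𝓞 K) ∈ Submodule.span ℤ (Set.range ![1, (-v) • b 0 + u • b 1]) :=
      Submodule.subset_span ⟨0, rfl⟩
    have m1 : (-v) • b 0 + u • b 1 ∈ Submodule.span ℤ (Set.range ![1, (-v) • b 0 + u • b 1]) :=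
      Submodule.subset_span ⟨1, rfl⟩
    have e0 : b 0 = u • (1 : 𝓞 K) + (-q) • ((-v) • b 0 + u • b 1) := by
      rw [← h1]
      calc b 0 = (u * p + v * q) • b 0 := by rw [huv, one_smul]
        _ = _ := by module
    have e1 : b 1 = v • (1 : 𝓞 K) + p • ((-v) • b 0 + u • b 1) := by
      rw [← h1]
      calc b 1 = (u * p + v * q) • b 1 := by rw [huv, one_smul]
        _ = _ := by module
    have k0 := Submodule.add_mem _ (Submodule.smul_mem _ u m0) (Submodule.smul_mem _ (-q) m1)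
    have k1 := Submodule.add_mem _ (Submodule.smul_mem _ v m0) (Submodule.smul_mem _ p m1)
    rw [← e0] at k0
    rw [← e1] at k1
    rintro _ ⟨i, rfl⟩
    fin_cases i
    · exact k0
    · exact k1
  refine ⟨_, basisOfTopLeSpanOfCardEqFinrank _ hsp (by rw [hr]; simp), ?_, rfl⟩
  rw [coe_basisOfTopLeSpanOfCardEqFinrank]
  rfl

omit [IsTotallyReal K] in
theorem RUnits_discr {w : 𝓞 K} (c : Basis (Fin 2) ℤ (𝓞 K)) (h0 : c 0 = 1) (h1 : c 1 = w) :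
    ∃ t n : ℤ, w * w = (t : 𝓞 K) * w + n ∧ discr K = t ^ 2 + 4 * n := by
  have hww : c.repr (w * w) 0 • (1 : 𝓞 K) + c.repr (w * w) 1 • w = w * w := by
    have := c.sum_repr (w * w)
    rwa [Fin.sum_univ_two, h0, h1] at this
  have t1 : Algebra.trace ℤ (𝓞 K) 1 = 2 := by
    have := Algebra.trace_algebraMap_of_basis c 1
    simpa using this
  have tw : Algebra.trace ℤ (𝓞 K) w = c.repr (w * w) 1 := by
    rw [Algebra.trace_eq_matrix_trace c, Matrix.trace_fin_two, Algebra.leftMulMatrix_eq_repr_mul,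
      Algebra.leftMulMatrix_eq_repr_mul, h0, h1, mul_one, ← h1, c.repr_self]
    simp
  generalize c.repr (w * w) 0 = n, c.repr (w * w) 1 = t at hww tw
  refine ⟨t, n, ?_, ?_⟩
  · rw [← hww, zsmul_eq_mul, zsmul_eq_mul]
    ring
  · rw [← discr_eq_discr K c, Algebra.discr_def, Matrix.det_fin_two]
    simp only [Algebra.traceMatrix_apply, Algebra.traceForm_apply, h0, h1, one_mul, mul_one]
    rw [← hww, map_add, map_smul, map_smul, t1, tw]
    simp only [smul_eq_mul]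
    ring

theorem exists_unitReps (K : Type) [Field K] [NumberField K] [IsTotallyReal K] :
    ∃ E : Finset (𝓞 K)ˣ, UnitReps E ∧ E.card ≤ 2 ^ (finrank ℚ K - 1) := by
  classical
  obtain ⟨σ₀⟩ := RUnits_nonempty K
  let f : (Fin (Units.rank K) → Fin 2) → (𝓞 K)ˣ := fun δ =>
    if TPos ((RUnits_g δ : 𝓞 K) : K) then RUnits_g δ
    else if TPos (((-RUnits_g δ : (𝓞 K)ˣ) : 𝓞 K) : K) then -RUnits_g δ else 1
  refine ⟨Finset.univ.image f, ⟨?_, ?_⟩, ?_⟩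
  · intro e he
    obtain ⟨δ, -, rfl⟩ := Finset.mem_image.1 he
    simp only [f]
    split_ifs with h1 h2
    · exact h1
    · exact h2
    · intro σ
      simp
  · intro u hu
    have key : ∀ g ε : (𝓞 K)ˣ, u = g * ε ^ 2 → TPos ((g : 𝓞 K) : K) := by
      intro g ε h σ
      have h1 : 0 < RUnits_ev σ u := hu σ
      rw [h, map_mul] at h1
      exact (mul_pos_iff_of_pos_right (RUnits_ev_sq σ ε)).1 h1
    obtain ⟨δ, ε, h | h⟩ := RUnits_struct u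
    · refine ⟨f δ, Finset.mem_image_of_mem f (Finset.mem_univ δ), ε, ?_⟩
      simp only [f]
      rw [if_pos (key _ _ h)]
      exact h
    · refine ⟨f δ, Finset.mem_image_of_mem f (Finset.mem_univ δ), ε, ?_⟩
      have h2 := key _ _ h
      have h3 : ¬ TPos ((RUnits_g δ : 𝓞 K) : K) := by
        intro h4
        have h5 : 0 < RUnits_ev σ₀ (RUnits_g δ) := h4 σ₀
        have h6 : 0 < RUnits_ev σ₀ (-RUnits_g δ) := h2 σ₀
        rw [RUnits_ev_neg] at h6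
        linarith
      simp only [f]
      rw [if_neg h3, if_pos h2]
      exact h
  · refine Finset.card_image_le.trans ?_
    rw [Finset.card_univ, Fintype.card_fun, Fintype.card_fin, Fintype.card_fin, RUnits_rank]

theorem exists_classReps (K : Type) [Field K] [NumberField K] [IsTotallyReal K] :
    ∃ R : Finset (Ideal (𝓞 K)), ClassReps R ∧ ∀ 𝔟 ∈ R, nm 𝔟 ≤ mkb (finrank ℚ K) (dsc K) := by
  classical
  choose I hI hle using exists_ideal_in_class_of_norm_le (K := K)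
  refine ⟨Finset.univ.image fun C => (I C : Ideal (𝓞 K)), ⟨?_, ?_⟩, ?_⟩
  · intro h
    obtain ⟨C, -, hC⟩ := Finset.mem_image.1 h
    exact nonZeroDivisors.coe_ne_zero (I C) hC
  · intro 𝔞 h𝔞
    have ha : 𝔞 ∈ nonZeroDivisors (Ideal (𝓞 K)) := mem_nonZeroDivisors_of_ne_zero h𝔞
    have h1 : ClassGroup.mk0 ⟨𝔞, ha⟩ = (ClassGroup.mk0 (I (ClassGroup.mk0 ⟨𝔞, ha⟩)⁻¹))⁻¹ := by
      rw [hI, inv_inv]
    obtain ⟨x, -, hx⟩ := ClassGroup.mk0_eq_mk0_inv_iff.1 h1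
    exact ⟨_, Finset.mem_image_of_mem _ (Finset.mem_univ _), x, hx⟩
  · intro 𝔟 h
    obtain ⟨C, -, rfl⟩ := Finset.mem_image.1 h
    have h1 := hle C
    rw [IsTotallyReal.nrComplexPlaces_eq_zero, pow_zero, one_mul] at h1
    simpa [nm, mkb, dsc] using h1

theorem one_le_mkb (K : Type) [Field K] [NumberField K] [IsTotallyReal K] :
    1 ≤ mkb (finrank ℚ K) (dsc K) := by
  obtain ⟨R, ⟨h0, hR⟩, hle⟩ := exists_classReps K
  obtain ⟨𝔟, h𝔟, -⟩ := hR ⊤ top_ne_bot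
  exact (one_le_nm fun h => h0 (h ▸ h𝔟)).trans (hle 𝔟 h𝔟)

theorem card_le_one_of_lt_two {K : Type} [Field K] [NumberField K] {R : Finset (Ideal (𝓞 K))}
    (h0 : ⊥ ∉ R) (h : ∀ 𝔟 ∈ R, nm 𝔟 < 2) : R.card ≤ 1 := by
  have key : ∀ 𝔟 ∈ R, 𝔟 = ⊤ := by
    intro 𝔟 h𝔟
    have h1 : 1 ≤ nm 𝔟 := one_le_nm fun e => h0 (e ▸ h𝔟)
    have h2 := h 𝔟 h𝔟
    unfold nm at h1 h2
    have h3 : 1 ≤ Ideal.absNorm 𝔟 := by exact_mod_cast h1
    have h4 : Ideal.absNorm 𝔟 < 2 := by exact_mod_cast h2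
    exact Ideal.absNorm_eq_one_iff.1 (by omega)
  exact Finset.card_le_one.2 fun a ha b hb => (key a ha).trans (key b hb).symm

theorem quad_disc (hd : finrank ℚ K = 2) :
    6 ≤ dsc K ∨ (dsc K = 5 ∧ ∃ ω : 𝓞 K, ω ^ 2 = ω + 1) := by
  obtain ⟨w, c, h0, h1⟩ := RUnits_basis hd
  obtain ⟨t, n, hw, hD⟩ := RUnits_discr c h0 h1
  obtain ⟨σ⟩ := RUnits_nonempty K
  have hsq : (2 * w - t) ^ 2 = ((discr K : ℤ) : 𝓞 K) := by
    rw [hD]
    push_cast
    linear_combination 4 * hw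
  have hnn : 0 ≤ discr K := by
    have h2 := congrArg (σ.comp (algebraMap (𝓞 K) K)) hsq
    rw [map_pow, map_intCast] at h2
    have h3 : (0 : ℝ) ≤ (discr K : ℝ) := h2 ▸ sq_nonneg _
    exact_mod_cast h3
  have hne : discr K ≠ 0 := discr_ne_zero K
  have hns : ∀ m : ℤ, discr K ≠ m ^ 2 := by
    have h4 : ∀ m : ℤ, 2 * w - t ≠ (m : 𝓞 K) := by
      intro m hm
      have h5 : (2 : ℤ) • c 1 = (t + m) • c 0 := by
        rw [h0, h1, zsmul_eq_mul, zsmul_eq_mul]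
        push_cast
        linear_combination hm
      have h6 := congrArg (fun x => c.repr x 1) h5
      simp only [map_smul, Basis.repr_self, Finsupp.smul_apply] at h6
      simp at h6
    intro m hm
    rw [hm] at hsq
    push_cast at hsq
    rcases sq_eq_sq_iff_eq_or_eq_neg.1 hsq with h | h
    · exact h4 m h
    · exact h4 (-m) (by rw [h]; push_cast; ring)
  have hd1 := hns 1
  have hd2 := hns 2
  have hdsc : dsc K = (discr K : ℝ) := abs_of_nonneg (by exact_mod_cast hnn)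
  rcases le_or_gt 6 (discr K) with h6 | h6
  · exact Or.inl (by rw [hdsc]; exact_mod_cast h6)
  rcases Int.even_or_odd' t with ⟨k, rfl | rfl⟩
  · exfalso
    have : discr K = 4 * (k ^ 2 + n) := by rw [hD]; ring
    omega
  · have h7 : discr K = 4 * (k ^ 2 + k + n) + 1 := by rw [hD]; ring
    have h8 : k ^ 2 + k + n = 1 := by omega
    refine Or.inr ⟨by rw [hdsc, h7, h8]; norm_num, w - k, ?_⟩
    have h9 : ((k ^ 2 + k + n : ℤ) : 𝓞 K) = 1 := by rw [h8, Int.cast_one]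
    push_cast at h9 hw
    linear_combination hw + h9

theorem golden_primes {K : Type} [Field K] [NumberField K] {ω : 𝓞 K} (hω : ω ^ 2 = ω + 1)
    (𝔭 : Ideal (𝓞 K)) (h : 𝔭.IsMaximal) : 4 ≤ nm 𝔭 := by
  have h0 : Ideal.absNorm 𝔭 ≠ 0 := fun e =>
    Ring.ne_bot_of_isMaximal_of_not_isField h (RingOfIntegers.not_isField K)
      (Ideal.absNorm_eq_zero_iff.1 e)
  have h1 : Ideal.absNorm 𝔭 ≠ 1 := fun e => h.ne_top (Ideal.absNorm_eq_one_iff.1 e)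
  have hfin : Finite (𝓞 K ⧸ 𝔭) := (Ideal.absNorm_ne_zero_iff 𝔭).1 h0
  let _ : Field (𝓞 K ⧸ 𝔭) := Ideal.Quotient.field 𝔭
  let _ : Fintype (𝓞 K ⧸ 𝔭) := Fintype.ofFinite _
  have hc : Fintype.card (𝓞 K ⧸ 𝔭) = Ideal.absNorm 𝔭 := by
    rw [Ideal.absNorm_apply, Submodule.cardQuot_apply, Nat.card_eq_fintype_card]
  have hx : Ideal.Quotient.mk 𝔭 ω ^ 2 = Ideal.Quotient.mk 𝔭 ω + 1 := by
    rw [← map_pow, hω, map_add, map_one]
  have hp := FiniteField.pow_card (Ideal.Quotient.mk 𝔭 ω)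
  rw [hc] at hp
  generalize Ideal.Quotient.mk 𝔭 ω = x at hx hp
  have h4 : 4 ≤ Ideal.absNorm 𝔭 := by
    by_contra hlt
    have h23 : Ideal.absNorm 𝔭 = 2 ∨ Ideal.absNorm 𝔭 = 3 := by omega
    rcases h23 with e | e
    · rw [e] at hp
      exact one_ne_zero (α := 𝓞 K ⧸ 𝔭) (by linear_combination hp - hx)
    · rw [e] at hp
      exact one_ne_zero (α := 𝓞 K ⧸ 𝔭)
        (by linear_combination (2 - x) * hp + (x ^ 2 - x - 1) * hx)
  unfold nm
  exact_mod_cast h4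

theorem golden_units (hd : finrank ℚ K = 2) {ω : 𝓞 K} (hω : ω ^ 2 = ω + 1) :
    UnitReps ({1} : Finset (𝓞 K)ˣ) := by
  classical
  refine ⟨fun e he => ?_, fun u hu => ?_⟩
  · rw [Finset.mem_singleton.1 he]
    intro σ
    simp
  have hsub : Subsingleton (Fin (Units.rank K)) := by
    rw [RUnits_rank, hd]
    exact inferInstanceAs (Subsingleton (Fin 1))
  have hg0 : RUnits_g (0 : Fin (Units.rank K) → Fin 2) = 1 := by simp [RUnits_g]
  obtain ⟨σ₁, σ₂, hne, huniv⟩ : ∃ σ₁ σ₂ : Emb K, σ₁ ≠ σ₂ ∧ Finset.univ = {σ₁, σ₂} :=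
    Finset.card_eq_two.1 (by rw [Finset.card_univ, card_emb, hd])
  obtain ⟨δ, ε, h⟩ := RUnits_struct u
  by_cases hδ : δ = 0
  · rw [hδ, hg0] at h
    rcases h with h | h
    · exact ⟨1, Finset.mem_singleton_self _, ε, h⟩
    · have h1 : 0 < RUnits_ev σ₁ u := hu σ₁
      rw [h, map_mul, RUnits_ev_neg, map_one] at h1
      linarith [RUnits_ev_sq σ₁ ε]
  exfalso
  let u₀ : (𝓞 K)ˣ := ⟨ω, ω - 1, by linear_combination hω, by linear_combination hω⟩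
  have hsame : ∀ v g η : (𝓞 K)ˣ, v = g * η ^ 2 ∨ v = -g * η ^ 2 →
      RUnits_ev σ₁ v * RUnits_ev σ₂ v =
        (RUnits_ev σ₁ g * RUnits_ev σ₂ g) * (RUnits_ev σ₁ (η ^ 2) * RUnits_ev σ₂ (η ^ 2)) := by
    rintro v g η (rfl | rfl)
    · rw [map_mul, map_mul]
      ring
    · rw [map_mul, map_mul, RUnits_ev_neg, RUnits_ev_neg]
      ring
  have hpos : ∀ δ' : Fin (Units.rank K) → Fin 2,
      0 < RUnits_ev σ₁ (RUnits_g δ') * RUnits_ev σ₂ (RUnits_g δ') := by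
    intro δ'
    by_cases hδ' : δ' = 0
    · rw [hδ', hg0, map_one, map_one]
      norm_num
    · have e : δ' = δ := by
        obtain ⟨i, hi⟩ := Function.ne_iff.1 hδ
        obtain ⟨j, hj⟩ := Function.ne_iff.1 hδ'
        funext k
        rw [Subsingleton.elim k i]
        rw [Subsingleton.elim j i] at hj
        have a1 : (δ i : ℕ) ≠ 0 := fun e => hi (Fin.ext e)
        have a2 : (δ' i : ℕ) ≠ 0 := fun e => hj (Fin.ext e)
        have a3 := (δ i).2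
        have a4 := (δ' i).2
        exact Fin.ext (by omega)
      have h1 : 0 < RUnits_ev σ₁ u * RUnits_ev σ₂ u := mul_pos (hu σ₁) (hu σ₂)
      rw [hsame u _ ε h] at h1
      rw [e]
      exact (mul_pos_iff_of_pos_right (mul_pos (RUnits_ev_sq σ₁ ε) (RUnits_ev_sq σ₂ ε))).1 h1
  obtain ⟨δ₀, ε₀, h₀⟩ := RUnits_struct u₀
  have hprod : 0 < σ₁ (ω : K) * σ₂ (ω : K) := by
    have h1 := hsame u₀ _ ε₀ h₀
    have h2 := mul_pos (hpos δ₀) (mul_pos (RUnits_ev_sq σ₁ ε₀) (RUnits_ev_sq σ₂ ε₀))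
    rw [← h1] at h2
    exact h2
  have hroot : ∀ σ : Emb K, σ (ω : K) ^ 2 = σ (ω : K) + 1 := by
    intro σ
    have h1 := congrArg (σ.comp (algebraMap (𝓞 K) K)) hω
    rw [map_pow, map_add, map_one] at h1
    exact h1
  obtain ⟨k, hk⟩ := trace_int ω
  have hsum := sum_emb (ω : K)
  rw [huniv, Finset.sum_pair hne, hk] at hsum
  have r1 := hroot σ₁
  have r2 := hroot σ₂
  generalize σ₁ (ω : K) = a, σ₂ (ω : K) = b at hprod hsum r1 r2
  have hab : (a - b) * (a + b - 1) = 0 := by linear_combination r1 - r2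
  rcases mul_eq_zero.1 hab with e | e
  · have e1 : ((k : ℚ) : ℝ) = 2 * a := by linarith
    have e2 : ((k - 1 : ℤ) : ℝ) ^ 2 = 5 := by
      push_cast at e1 ⊢
      rw [e1]
      linear_combination 4 * r1
    have e3 : (k - 1) ^ 2 = 5 := by exact_mod_cast e2
    have e4 : k ≤ 3 := by nlinarith
    have e5 : -1 ≤ k := by nlinarith
    interval_cases k <;> simp at e3
  · have e1 : b = 1 - a := by linarith
    rw [e1] at hprod
    nlinarith

end Pool.Agent.Work.MP_c8d35c_al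
end

-- merged part: Pool.Agent.Work.MP_c8d35c_al.RCusp
section
/-! Expansion of the theta function at a cusp; bounds for the Gauss sums. -/

namespace Pool.Agent.Work.MP_c8d35c_al

open NumberField Module Matrix Complex

variable {K : Type} [Field K] [NumberField K] {n : ℕ} {σ0 : Emb K}
  {B : Matrix (Fin (n + 1)) (Fin (n + 1)) K} {M : OSub K (n + 1)}
  {Φ : (Fin (n + 1) → K) →+ Co K n → ℝ}

omit [NumberField K] in
lemma rcusp_q [CharZero K] (hB : B.IsSymm) (x w : Fin (n + 1) → K) :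
    bil B (x + w) (x + w) / 2 = bil B x x / 2 + bil B x w + bil B w w / 2 := by
  rw [bil_add_left, bil_add_right, bil_add_right, bil_comm hB w x]
  ring

lemma rcusp_smul (hM : Good B M) {𝔠 : Ideal (𝓞 K)} {w : Fin (n + 1) → K} (hw : w ∈ 𝔠 • M) :
    w ∈ rad B M 𝔠 ∧ ∃ z ∈ 𝔠, bil B w w / 2 = (z : K) := by
  refine Submodule.smul_induction_on hw ?_ ?_
  · intro c hc m hm
    refine ⟨⟨M.smul_mem c hm, fun x hx => ?_⟩, ?_⟩
    · obtain ⟨z, hz⟩ := hM.int hm x hx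
      exact ⟨c * z, 𝔠.mul_mem_right z hc, by rw [bil_ismul_right, hz]; simp⟩
    · obtain ⟨z, hz⟩ := hM.even m hm
      refine ⟨c * (c * z), 𝔠.mul_mem_right _ hc, ?_⟩
      rw [bil_ismul_left, bil_ismul_right, hz]
      push_cast
      ring
  · rintro a b ⟨ha, z, hz, ha'⟩ ⟨hb, u, hu, hb'⟩
    refine ⟨(rad B M 𝔠).add_mem ha hb, ?_⟩
    obtain ⟨v, hv, h⟩ := hb.2 a ha.1
    refine ⟨z + v + u, 𝔠.add_mem (𝔠.add_mem hz hv) hu, ?_⟩
    rw [rcusp_q hM.symm, ha', hb', h]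
    push_cast
    ring

/-- `Q(x + w) ≡ Q(x)` modulo `𝔠` for `w ∈ 𝔠 M`. -/
theorem Good.q_add (hM : Good B M) {𝔠 : Ideal (𝓞 K)} {x w : Fin (n + 1) → K} (hx : x ∈ M)
    (hw : w ∈ 𝔠 • M) : ∃ z ∈ 𝔠, bil B (x + w) (x + w) / 2 = bil B x x / 2 + (z : K) := by
  obtain ⟨⟨-, h1⟩, b, hb, h2⟩ := rcusp_smul hM hw
  obtain ⟨a, ha, h3⟩ := h1 x hx
  refine ⟨a + b, 𝔠.add_mem ha hb, ?_⟩
  rw [rcusp_q hM.symm, h2, h3]
  push_cast
  ring

lemma rcusp_per (hM : Good B M) (κ : K) {x a : Fin (n + 1) → K} (hx : x ∈ M)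
    (ha : a ∈ den κ • M) : ∃ k : ℤ, Algebra.trace ℚ K (κ * (bil B (x + a) (x + a) / 2)) =
      Algebra.trace ℚ K (κ * (bil B x x / 2)) + k := by
  obtain ⟨z, hz, h⟩ := hM.q_add hx ha
  obtain ⟨k, hk⟩ := mem_Od.1 (mem_den.1 hz) 1
  refine ⟨k, ?_⟩
  rw [h, mul_add, map_add, ← hk]
  congr 2
  simp [mul_comm]

theorem gau_bound (hM : Good B M) (κ : K) {ξ : Fin (n + 1) → K}
    (hξ : ξ ∈ dualA (trB B) (den κ • M).toAddSubgroup) :
    ‖gau B M κ ξ‖ ^ 2 * (idx (rad B M (den κ)) M : ℝ) ≤ 1 := by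
  refine gauss_bound (A := M.toAddSubgroup) (A' := (den κ • M).toAddSubgroup)
    (R := (rad B M (den κ)).toAddSubgroup) (fun _ h => Submodule.smul_le_right h)
    ((hM.lat.smul (den_ne_bot κ)).idx_ne_zero hM.lat)
    (φ := fun x => ((Algebra.trace ℚ K (κ * (bil B x x / 2)) + trB B x ξ : ℚ) : ℝ))
    (b := fun x y => ((Algebra.trace ℚ K (κ * bil B x y) : ℚ) : ℝ)) ?_ ?_ ?_ ?_
  · intro x _ y _
    simp only [rcusp_q hM.symm, mul_add, map_add, LinearMap.add_apply]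
    push_cast
    ring
  · intro x _ x' _ y _
    simp only [bil_add_left, mul_add, map_add]
    push_cast
    ring
  · intro x hx a ha
    obtain ⟨k, hk⟩ := rcusp_per hM κ hx ha
    obtain ⟨l, hl⟩ := hξ a ha
    refine ⟨k + l, ?_⟩
    simp only [hk, map_add, LinearMap.add_apply, hl]
    push_cast
    ring
  · intro y hy h
    refine ⟨hy, fun x hx => ?_⟩
    obtain ⟨z, hz⟩ := hM.int hy x hx
    refine ⟨z, mem_den.2 (mem_Od.2 fun w => ?_), hz⟩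
    obtain ⟨k, hk⟩ := h (w • x) (M.smul_mem w hx)
    refine ⟨k, ?_⟩
    rw [bil_ismul_left, hz] at hk
    have h2 : (w : K) * (z * κ) = κ * (w * z) := by ring
    rw [h2]
    exact_mod_cast hk

lemma rcusp_rpow {a : ℝ} (ha : 0 < a) (n : ℕ) :
    (a ^ (-(((n : ℝ) + 1) / 2))) ^ 2 = (a ^ (n + 1))⁻¹ := by
  rw [← Real.rpow_natCast, ← Real.rpow_mul ha.le, ← Real.rpow_natCast, ← Real.rpow_neg ha.le]
  congr 1
  push_cast
  ring

theorem gau_div_le (hM : Good B M) (κ : K) {ξ : Fin (n + 1) → K}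
    (hξ : ξ ∈ dualA (trB B) (den κ • M).toAddSubgroup) :
    ‖gau B M κ ξ‖ / covB B M ≤ dsc K ^ (-(((n : ℝ) + 1) / 2)) *
      (nm (den κ) ^ (-(((n : ℝ) + 1) / 2)) / √(iota B M (den κ) : ℝ)) := by
  have h1 := gau_bound hM κ hξ
  have h2 := covB_sq_mul_rad hM.toInteg (den_ne_bot κ)
  have hc := covB_pos hM.det hM.lat
  have hD : (0 : ℝ) < dsc K := lt_of_lt_of_le one_pos one_le_dsc
  have hN : (0 : ℝ) < nm (den κ) := lt_of_lt_of_le one_pos (one_le_nm (den_ne_bot κ))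
  have hι : (0 : ℝ) < iota B M (den κ) := by
    exact_mod_cast lt_of_lt_of_le one_pos (one_le_iota hM.toInteg (den κ))
  have hI : (0 : ℝ) < idx (rad B M (den κ)) M := by
    exact_mod_cast Nat.pos_of_ne_zero
      ((Lat.rad hM.toInteg (den_ne_bot κ)).idx_ne_zero hM.lat)
  refine (pow_le_pow_iff_left₀ (by positivity) (by positivity) two_ne_zero).1 ?_
  rw [mul_pow, div_pow, div_pow, rcusp_rpow hD, rcusp_rpow hN, Real.sq_sqrt hι.le]
  have h3 : (dsc K ^ (n + 1))⁻¹ * ((nm (den κ) ^ (n + 1))⁻¹ / iota B M (den κ)) =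
      1 / (covB B M ^ 2 * idx (rad B M (den κ)) M) := by
    rw [h2]
    field_simp
  rw [h3, div_le_div_iff₀ (by positivity) (by positivity)]
  nlinarith [mul_le_mul_of_nonneg_right h1 (sq_nonneg (covB B M))]

theorem gau_div_le' (hM : Good B M) (κ : K) {ξ : Fin (n + 1) → K}
    (hξ : ξ ∈ dualA (trB B) (den κ • M).toAddSubgroup) :
    ‖gau B M κ ξ‖ / covB B M ≤ nm (den κ) ^ (-(((n : ℝ) + 1) / 2)) := by
  refine (gau_div_le hM κ hξ).trans ?_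
  have hN : (0 : ℝ) < nm (den κ) := lt_of_lt_of_le one_pos (one_le_nm (den_ne_bot κ))
  have hι : (1 : ℝ) ≤ √(iota B M (den κ) : ℝ) := by
    rw [Real.one_le_sqrt]
    exact_mod_cast one_le_iota hM.toInteg (den κ)
  have h1 : dsc K ^ (-(((n : ℝ) + 1) / 2)) ≤ 1 :=
    Real.rpow_le_one_of_one_le_of_nonpos one_le_dsc (neg_nonpos.2 (by positivity))
  have h2 : 0 ≤ nm (den κ) ^ (-(((n : ℝ) + 1) / 2)) := Real.rpow_nonneg hN.le _
  exact (mul_le_of_le_one_left (by positivity) h1).trans (div_le_self h2 hι)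

theorem gau_add (hM : Good B M) (κ : K) {a : K} (ha : a ∈ Od K) :
    gau B M (κ + a) 0 = gau B M κ 0 := by
  unfold gau avg
  rw [den_add ha]
  congr 1
  refine finsum_congr fun q => ?_
  obtain ⟨z, hz⟩ := hM.even _ q.out.2
  obtain ⟨k, hk⟩ := mem_Od.1 ha z
  have h1 : (κ + a) * (bil B q.out.1 q.out.1 / 2) =
      κ * (bil B q.out.1 q.out.1 / 2) + z * a := by
    rw [hz]
    ring
  simp only [h1, map_add, hk, map_zero, add_zero]
  push_cast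
  rw [ee_add, ee_int, mul_one]

lemma rcusp_shift [IsTotallyReal K] (hΦ : Frame σ0 B Φ) (y x : Emb K → ℝ) (κ : K)
    (v : Fin (n + 1) → K) : gs (bb σ0 y x) (Φ v) =
      ee ((Algebra.trace ℚ K (κ * (bil B v v / 2)) : ℚ) : ℝ) *
        gs (bb σ0 y (x - emb κ)) (Φ v) := by
  rw [hΦ.gs_bb, hΦ.gs_bb, mul_left_comm, ← ee_add, ← sum_emb, ← Finset.sum_add_distrib]
  congr 2
  refine Finset.sum_congr rfl fun σ _ => ?_
  simp only [map_mul, Pi.sub_apply, emb]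
  ring

theorem theta_cusp [IsTotallyReal K] (hM : Good B M) (hΦ : Frame σ0 B Φ) {y : Emb K → ℝ}
    (hy : ∀ σ, 0 < y σ) (x : Emb K → ℝ) (κ : K) :
    theta σ0 Φ M y x = psi σ0 n y (x - emb κ) / (covB B M : ℂ) *
      ∑' ξ : dualA (trB B) (den κ • M).toAddSubgroup,
        gs (fun p => (bb σ0 y (x - emb κ) p)⁻¹) (Φ ξ) * gau B M κ ξ := by
  have hβ := trB_nondeg hM.det
  have hL : Lat (den κ • M) := hM.lat.smul (den_ne_bot κ)
  have hi : (den κ • M).toAddSubgroup.relIndex M.toAddSubgroup ≠ 0 := hL.idx_ne_zero hM.lat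
  have hle : (den κ • M).toAddSubgroup ≤ M.toAddSubgroup := fun _ h => Submodule.smul_le_right h
  have hc : ∀ p : Co K n, 0 < (bb σ0 y (x - emb κ) p).re := fun p => by
    rw [bb_re]; exact hy _
  have hs : Summable fun v : M.toAddSubgroup => gs (bb σ0 y x) (Φ v) := by
    refine Summable.of_norm ?_
    have := summable_gauss hβ hΦ.real hM.lat (a := fun p => (bb σ0 y x p).re)
      (fun p => by rw [bb_re]; exact hy _) 0
    simpa only [norm_gs, zero_add] using this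
  have hs' : Summable fun ξ : dualA (trB B) (den κ • M).toAddSubgroup =>
      ‖gs (fun p => (bb σ0 y (x - emb κ) p)⁻¹) (Φ ξ)‖ := by
    have := summable_gauss hβ hΦ.real (Full.dual hβ hL)
      (a := fun p => ((bb σ0 y (x - emb κ) p)⁻¹).re)
      (fun p => by
        rw [bb_inv_re]
        have := hy p.1
        positivity) 0
    simpa only [norm_gs, zero_add] using this
  have := RGauss_fin hi
  have := Fintype.ofFinite (M.toAddSubgroup ⧸ (den κ • M).toAddSubgroup.addSubgroupOf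
    M.toAddSubgroup)
  have hin : ∀ r ∈ M, ∑' a : (den κ • M).toAddSubgroup, gs (bb σ0 y x) (Φ (r + a)) =
      psi σ0 n y (x - emb κ) / (covB B (den κ • M) : ℂ) *
        ∑' ξ : dualA (trB B) (den κ • M).toAddSubgroup,
          gs (fun p => (bb σ0 y (x - emb κ) p)⁻¹) (Φ ξ) *
            ee ((Algebra.trace ℚ K (κ * (bil B r r / 2)) + trB B r ξ : ℚ) : ℝ) := by
    intro r hr
    have h1 : ∀ a : (den κ • M).toAddSubgroup, gs (bb σ0 y x) (Φ (r + a)) =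
        ee ((Algebra.trace ℚ K (κ * (bil B r r / 2)) : ℚ) : ℝ) *
          gs (bb σ0 y (x - emb κ)) (Φ (r + a)) := by
      intro a
      obtain ⟨k, hk⟩ := rcusp_per hM κ hr a.2
      rw [rcusp_shift hΦ y x κ, hk]
      push_cast
      rw [ee_add, ee_int, mul_one]
    have h2 := poisson_lattice hβ (trB_symm hM.symm) hΦ.real hL hc r
    rw [tsum_congr h1, tsum_mul_left]
    unfold gs
    rw [h2, mul_left_comm, ← tsum_mul_left]
    congr 1
    refine tsum_congr fun ξ => ?_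
    push_cast
    rw [ee_add]
    ring
  have hcov : (covB B (den κ • M) : ℂ) =
      ((den κ • M).toAddSubgroup.relIndex M.toAddSubgroup : ℂ) * (covB B M : ℂ) := by
    have := covB_of_le B hL hM.lat Submodule.smul_le_right
    rw [this]
    push_cast
    rfl
  unfold theta
  rw [tsum_cosets hle hi (F := fun v => gs (bb σ0 y x) (Φ v)) hs, finsum_eq_sum_of_fintype,
    Finset.sum_congr rfl fun q _ => hin _ q.out.2, ← Finset.mul_sum,
    ← Summable.tsum_finsetSum, hcov, mul_comm (_ : ℂ) (covB B M : ℂ), ← div_div,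
    div_mul_eq_mul_div, mul_div_assoc, ← tsum_div_const]
  · congr 1
    refine tsum_congr fun ξ => ?_
    unfold gau avg
    rw [finsum_eq_sum_of_fintype, ← Finset.mul_sum, mul_div_assoc]
  · intro q _
    refine Summable.of_norm ?_
    simpa only [norm_mul, norm_ee, mul_one] using hs'

end Pool.Agent.Work.MP_c8d35c_al
end

-- merged part: Pool.Agent.Work.MP_c8d35c_al.RSing
section
/-! The singular series. -/

namespace Pool.Agent.Work.MP_c8d35c_al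

open NumberField Module Matrix Complex

variable {K : Type} [Field K] [NumberField K] {n : ℕ}
  {B : Matrix (Fin (n + 1)) (Fin (n + 1)) K} {M : OSub K (n + 1)}

theorem RSing_nm (𝔠 : Ideal (𝓞 K)) : 0 ≤ nm 𝔠 := Nat.cast_nonneg _

theorem RSing_nonneg (B : Matrix (Fin (n + 1)) (Fin (n + 1)) K) (M : OSub K (n + 1))
    (𝔠 : Ideal (𝓞 K)) : 0 ≤ nm 𝔠 ^ (1 - ((n : ℝ) + 1) / 2) / √(iota B M 𝔠 : ℝ) :=
  div_nonneg (Real.rpow_nonneg (RSing_nm 𝔠) _) (Real.sqrt_nonneg _)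

theorem RSing_summable (hn : 11 ≤ n) (B : Matrix (Fin (n + 1)) (Fin (n + 1)) K)
    (M : OSub K (n + 1)) :
    Summable fun 𝔠 : Ideal (𝓞 K) => nm 𝔠 ^ (1 - ((n : ℝ) + 1) / 2) / √(iota B M 𝔠 : ℝ) := by
  have h : (11 : ℝ) ≤ n := by exact_mod_cast hn
  refine (summable_nm (K := K) (s := ((n : ℝ) + 1) / 2 - 1) (by linarith)).of_nonneg_of_le
    (RSing_nonneg B M) fun 𝔠 => ?_
  rw [neg_sub]
  rcases Nat.eq_zero_or_pos (iota B M 𝔠) with h0 | h0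
  · rw [h0, Nat.cast_zero, Real.sqrt_zero, div_zero]
    exact Real.rpow_nonneg (RSing_nm 𝔠) _
  · exact div_le_self (Real.rpow_nonneg (RSing_nm 𝔠) _)
      (Real.one_le_sqrt.2 (by exact_mod_cast h0))

theorem summable_sgs (hn : 11 ≤ n) (hM : Integ B M) :
    Summable fun 𝔠 : Ideal (𝓞 K) => nm 𝔠 ^ (1 - ((n : ℝ) + 1) / 2) / √(iota B M 𝔠 : ℝ) :=
  RSing_summable hn B M

theorem sgs_nonneg (B : Matrix (Fin (n + 1)) (Fin (n + 1)) K) (M : OSub K (n + 1)) :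
    0 ≤ sgs B M :=
  tsum_nonneg (RSing_nonneg B M)

theorem sing_bound (hn : 11 ≤ n) (hM : Good B M) (s : Finset (K ⧸ Od K)) :
    ∑ q ∈ s, ‖gau B M q.out 0‖ / covB B M ≤ dsc K ^ (-(((n : ℝ) + 1) / 2)) * sgs B M := by
  classical
  have hd : 0 ≤ dsc K ^ (-(((n : ℝ) + 1) / 2)) := Real.rpow_nonneg (abs_nonneg _) _
  refine (Finset.sum_le_sum fun q _ => gau_div_le hM q.out (zero_mem _)).trans ?_
  rw [← Finset.mul_sum]
  refine mul_le_mul_of_nonneg_left (le_trans ?_ ((RSing_summable hn B M).sum_le_tsum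
    (s.image fun q => den q.out) fun 𝔠 _ => RSing_nonneg B M 𝔠)) hd
  rw [Finset.sum_comp (fun 𝔠 => nm 𝔠 ^ (-(((n : ℝ) + 1) / 2)) / √(iota B M 𝔠 : ℝ))
    fun q : K ⧸ Od K => den q.out]
  refine Finset.sum_le_sum fun 𝔠 h𝔠 => ?_
  obtain ⟨q, -, rfl⟩ := Finset.mem_image.1 h𝔠
  have h0 : 0 < nm (den q.out) := one_pos.trans_le (one_le_nm (den_ne_bot _))
  rw [nsmul_eq_mul, sub_eq_add_neg, Real.rpow_add h0, Real.rpow_one, mul_div_assoc]
  exact mul_le_mul_of_nonneg_right (card_den_le _ fun _ h => (Finset.mem_filter.1 h).2)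
    (div_nonneg (Real.rpow_nonneg h0.le _) (Real.sqrt_nonneg _))

end Pool.Agent.Work.MP_c8d35c_al
end
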