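import Pool.Agent.Work.MP_c8d35c_al.QFrame
import Pool.Agent.Work.MP_c8d35c_al.RSing

-- merged part: Pool.Agent.Work.MP_c8d35c_al.RGam2
section
/-! The density at the indefinite place. -/

namespace Pool.Agent.Work.MP_c8d35c_al

open MeasureTheory Complex Set

theorem RGam2_gauss {y : ℝ} (hy : 0 < y) (x : ℝ) :
    (1 / ((y : ℂ) + I * x)) ^ (1 / 2 : ℂ) =
      ∫ w : ℝ, (Real.exp (-(Real.pi * y) * w ^ 2) : ℂ) * ee (-(x * (w ^ 2 / 2))) := by
  have hre : 0 < re ((Real.pi : ℂ) * ((y : ℂ) + I * x)) := by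
    simp only [mul_re, ofReal_re, add_re, I_re, zero_mul, I_im, ofReal_im, mul_zero, sub_self,
      add_zero, sub_zero]
    exact mul_pos Real.pi_pos hy
  have h := integral_gaussian_complex hre
  have hpi : (Real.pi : ℂ) ≠ 0 := ofReal_ne_zero.2 Real.pi_ne_zero
  rw [div_mul_cancel_left₀ hpi, ← one_div] at h
  rw [← h]
  refine integral_congr_ae (Filter.Eventually.of_forall fun w => ?_)
  simp only [ee, ofReal_exp, ← Complex.exp_add]
  congr 1
  push_cast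
  ring

theorem RGam2_norm {y : ℝ} (hy : 0 < y) (n : ℕ) (x : ℝ) :
    ‖((1 / ((y : ℂ) - I * x)) ^ (1 / 2 : ℂ)) ^ n‖ = (y ^ 2 + x ^ 2) ^ (-((n : ℝ) / 4)) := by
  have h := norm_half_pow y x hy 1 (Or.inl rfl)
  rw [ofReal_one, mul_one] at h
  rw [norm_pow, h, ← Real.rpow_natCast, ← Real.rpow_mul (by positivity)]
  congr 1
  ring

theorem RGam2_cont {y : ℝ} (hy : 0 < y) (n : ℕ) :
    Continuous fun x : ℝ => ((1 / ((y : ℂ) - I * x)) ^ (1 / 2 : ℂ)) ^ n := by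
  have hne : ∀ x : ℝ, (y : ℂ) - I * x ≠ 0 := fun x h => by
    have := congrArg re h
    simp at this
    exact hy.ne' this
  refine Continuous.pow (Continuous.cpow (Continuous.div continuous_const (by fun_prop) hne)
    continuous_const fun x => ?_) n
  left
  show 0 < re (1 / ((y : ℂ) - I * x))
  rw [one_div, inv_re]
  refine div_pos (by simpa using hy) (normSq_pos.2 (hne x))

theorem RGam2_integrable {n : ℕ} (hn : 3 ≤ n) {y : ℝ} (hy : 0 < y) :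
    Integrable (Function.uncurry fun x w : ℝ => (Real.exp (-(Real.pi * y) * w ^ 2) : ℂ) *
      (((1 / ((y : ℂ) - I * x)) ^ (1 / 2 : ℂ)) ^ n * ee (-(x * (1 + w ^ 2 / 2)))))
      ((volume : Measure ℝ).prod volume) := by
  have h1 := (integrable_dens hn hy).mul_prod
    (integrable_exp_neg_mul_sq (mul_pos Real.pi_pos hy))
  refine h1.mono' (Continuous.aestronglyMeasurable ?_) (Filter.Eventually.of_forall fun z => ?_)
  · have c1 := (RGam2_cont hy n).comp (continuous_fst : Continuous fun z : ℝ × ℝ => z.1)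
    have c2 : Continuous fun z : ℝ × ℝ => ee (-(z.1 * (1 + z.2 ^ 2 / 2))) :=
      continuous_ee.comp (by fun_prop)
    have c3 : Continuous fun z : ℝ × ℝ => (Real.exp (-(Real.pi * y) * z.2 ^ 2) : ℂ) := by
      fun_prop
    exact c3.mul (c1.mul c2)
  · obtain ⟨x, w⟩ := z
    simp only [Function.uncurry_apply_pair]
    rw [norm_mul, norm_mul, norm_ee, RGam2_norm hy, mul_one, Complex.norm_real, Real.norm_eq_abs,
      abs_of_pos (Real.exp_pos _), mul_comm]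

theorem dens_indef_eq {n : ℕ} (hn : 3 ≤ n) {y : ℝ} (hy : 0 < y) :
    ∫ x : ℝ, (1 / ((y : ℂ) + I * x)) ^ (1 / 2 : ℂ) * ((1 / ((y : ℂ) - I * x)) ^ (1 / 2 : ℂ)) ^ n *
        ee (-x) =
      (((2 * Real.pi) ^ ((n : ℝ) / 2) * Real.exp (-(2 * Real.pi * y)) / Real.Gamma ((n : ℝ) / 2) *
        ∫ w : ℝ, (1 + w ^ 2 / 2) ^ ((n : ℝ) / 2 - 1) * Real.exp (-(2 * Real.pi * y * w ^ 2)) : ℝ) :
          ℂ) := by
  have h1 : ∀ x : ℝ, (1 / ((y : ℂ) + I * x)) ^ (1 / 2 : ℂ) *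
      ((1 / ((y : ℂ) - I * x)) ^ (1 / 2 : ℂ)) ^ n * ee (-x) =
      ∫ w : ℝ, (Real.exp (-(Real.pi * y) * w ^ 2) : ℂ) *
        (((1 / ((y : ℂ) - I * x)) ^ (1 / 2 : ℂ)) ^ n * ee (-(x * (1 + w ^ 2 / 2)))) := by
    intro x
    rw [RGam2_gauss hy x, mul_assoc, ← integral_mul_const]
    refine integral_congr_ae (Filter.Eventually.of_forall fun w => ?_)
    have : -(x * (1 + w ^ 2 / 2)) = -(x * (w ^ 2 / 2)) + -x := by ring
    simp only [this, ee_add]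
    ring
  simp only [h1]
  rw [integral_integral_swap (RGam2_integrable hn hy), ← integral_const_mul,
    ← integral_complex_ofReal]
  refine integral_congr_ae (Filter.Eventually.of_forall fun w => ?_)
  have ht : (0 : ℝ) < 1 + w ^ 2 / 2 := by positivity
  simp only
  rw [integral_const_mul, dens_def hn hy ht]
  have he : Real.exp (-(Real.pi * y) * w ^ 2) * Real.exp (-(2 * Real.pi * (1 + w ^ 2 / 2) * y)) =
      Real.exp (-(2 * Real.pi * y)) * Real.exp (-(2 * Real.pi * y * w ^ 2)) := by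
    rw [← Real.exp_add, ← Real.exp_add]
    congr 1
    ring
  rw [← ofReal_mul]
  refine congrArg ofReal ?_
  calc _ = (2 * Real.pi) ^ ((n : ℝ) / 2) * (1 + w ^ 2 / 2) ^ ((n : ℝ) / 2 - 1) *
        (Real.exp (-(Real.pi * y) * w ^ 2) * Real.exp (-(2 * Real.pi * (1 + w ^ 2 / 2) * y))) /
          Real.Gamma ((n : ℝ) / 2) := by ring
    _ = _ := by rw [he]; ring

theorem RGam2_scale {p y : ℝ} (hy : 0 < y) :
    ∫ w : ℝ, (1 + w ^ 2 / 2) ^ p * Real.exp (-(2 * Real.pi * y * w ^ 2)) =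
      y ^ (-(p + 1 / 2)) * ∫ v : ℝ, (y + v ^ 2 / 2) ^ p * Real.exp (-(2 * Real.pi) * v ^ 2) := by
  have hs : 0 < √y := Real.sqrt_pos.2 hy
  have h := Measure.integral_comp_mul_left
    (fun v : ℝ => (y + v ^ 2 / 2) ^ p * Real.exp (-(2 * Real.pi) * v ^ 2)) (√y)
  have h2 : ∀ w : ℝ, (y + (√y * w) ^ 2 / 2) ^ p * Real.exp (-(2 * Real.pi) * (√y * w) ^ 2) =
      y ^ p * ((1 + w ^ 2 / 2) ^ p * Real.exp (-(2 * Real.pi * y * w ^ 2))) := by
    intro w
    rw [mul_pow, Real.sq_sqrt hy.le, ← mul_assoc (y ^ p), ← Real.mul_rpow hy.le (by positivity)]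
    congr 2 <;> ring
  simp only [h2] at h
  rw [integral_const_mul, abs_of_pos (inv_pos.2 hs), smul_eq_mul] at h
  have hp : 0 < y ^ p := Real.rpow_pos_of_pos hy p
  have e : y ^ (-(p + 1 / 2)) = (y ^ p)⁻¹ * (√y)⁻¹ := by
    rw [Real.rpow_neg hy.le, Real.rpow_add hy, mul_inv, Real.sqrt_eq_rpow]
  rw [e, mul_assoc (y ^ p)⁻¹, ← h, ← mul_assoc (y ^ p)⁻¹, inv_mul_cancel₀ hp.ne', one_mul]

theorem RGam2_zero {p : ℝ} (hp : 0 < p) :
    ∫ v : ℝ, (0 + v ^ 2 / 2) ^ p * Real.exp (-(2 * Real.pi) * v ^ 2) =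
      2 ^ (-p) * (2 * Real.pi) ^ (-(p + 1 / 2)) * Real.Gamma (p + 1 / 2) := by
  have h1 := integral_comp_abs
    (f := fun v : ℝ => (0 + v ^ 2 / 2) ^ p * Real.exp (-(2 * Real.pi) * v ^ 2))
  simp only [sq_abs] at h1
  rw [h1]
  have h2 := _root_.integral_rpow_mul_exp_neg_mul_rpow (p := 2) (q := 2 * p) (b := 2 * Real.pi)
    (by norm_num) (by linarith) (by positivity)
  have h3 : ∫ v in Ioi (0 : ℝ), (0 + v ^ 2 / 2) ^ p * Real.exp (-(2 * Real.pi) * v ^ 2) =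
      ∫ v in Ioi (0 : ℝ), 2 ^ (-p) * (v ^ (2 * p) * Real.exp (-(2 * Real.pi) * v ^ (2 : ℝ))) := by
    refine setIntegral_congr_fun measurableSet_Ioi fun v hv => ?_
    have hv : 0 < v := hv
    rw [zero_add, Real.div_rpow (by positivity) (by norm_num), Real.rpow_mul hv.le, Real.rpow_two,
      Real.rpow_neg (by norm_num)]
    ring
  rw [h3, integral_const_mul, h2]
  have e1 : -(2 * p + 1) / 2 = -(p + 1 / 2) := by ring
  have e2 : (2 * p + 1) / 2 = p + 1 / 2 := by ring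
  rw [e1, e2]
  ring

theorem RGam2_bound {p : ℝ} (hp : 0 < p) {y : ℝ} (hy0 : 0 ≤ y) (hy1 : y ≤ 1) (v : ℝ) :
    (y + v ^ 2 / 2) ^ p * Real.exp (-(2 * Real.pi) * v ^ 2) ≤
      (1 + p) ^ p * Real.exp (-1 * v ^ 2) := by
  have hv : 0 ≤ v ^ 2 := sq_nonneg v
  have h1 : y + v ^ 2 / 2 ≤ (1 + p) * Real.exp (v ^ 2 / p) := by
    have a1 := Real.add_one_le_exp (v ^ 2 / p)
    have a2 : 0 ≤ v ^ 2 / p := by positivity
    have a3 : p * (v ^ 2 / p) = v ^ 2 := by field_simp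
    nlinarith only [hp, hy1, a1, a2, a3]
  have h2 : (y + v ^ 2 / 2) ^ p ≤ (1 + p) ^ p * Real.exp (v ^ 2) := by
    refine (Real.rpow_le_rpow (by positivity) h1 hp.le).trans_eq ?_
    rw [Real.mul_rpow (by positivity) (Real.exp_pos _).le, ← Real.exp_mul,
      div_mul_cancel₀ _ hp.ne']
  refine (mul_le_mul_of_nonneg_right h2 (Real.exp_pos _).le).trans ?_
  rw [mul_assoc, ← Real.exp_add]
  refine mul_le_mul_of_nonneg_left (Real.exp_le_exp.2 ?_) (by positivity)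
  have := Real.pi_gt_three
  nlinarith only [this]

theorem RGam2_tendsto {p : ℝ} (hp : 0 < p) :
    ContinuousWithinAt
      (fun y : ℝ => ∫ v : ℝ, (y + v ^ 2 / 2) ^ p * Real.exp (-(2 * Real.pi) * v ^ 2))
      (Icc 0 1) 0 := by
  refine continuousWithinAt_of_dominated (bound := fun v => (1 + p) ^ p * Real.exp (-1 * v ^ 2))
    (Filter.Eventually.of_forall fun y => ?_) ?_
    ((integrable_exp_neg_mul_sq one_pos).const_mul _) (Filter.Eventually.of_forall fun v => ?_)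
  · refine Continuous.aestronglyMeasurable (Continuous.mul ?_ (by fun_prop))
    exact Continuous.rpow_const (by fun_prop) fun _ => Or.inr hp.le
  · filter_upwards [self_mem_nhdsWithin] with y hy
    refine Filter.Eventually.of_forall fun v => ?_
    have := hy.1
    rw [Real.norm_eq_abs, abs_of_nonneg (by positivity)]
    exact RGam2_bound hp hy.1 hy.2 v
  · refine Continuous.continuousWithinAt (Continuous.mul ?_ continuous_const)
    exact Continuous.rpow_const (by fun_prop) fun _ => Or.inr hp.le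

theorem dens_indef_le {n : ℕ} (hn : 3 ≤ n) {δ : ℝ} (hδ : 0 < δ) :
    ∃ y0 : ℝ, 0 < y0 ∧ ∀ y : ℝ, 0 < y → y ≤ y0 →
      ‖∫ x : ℝ, (1 / ((y : ℂ) + I * x)) ^ (1 / 2 : ℂ) *
          ((1 / ((y : ℂ) - I * x)) ^ (1 / 2 : ℂ)) ^ n * ee (-x)‖ ≤
        Real.exp (-(2 * Real.pi * y)) *
          (√(2 * Real.pi) * 2 ^ (1 - (n : ℝ) / 2) * Real.Gamma (((n : ℝ) - 1) / 2) /
            Real.Gamma ((n : ℝ) / 2) + δ) * y ^ (-(((n : ℝ) - 1) / 2)) := by
  have hn' : (3 : ℝ) ≤ n := by exact_mod_cast hn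
  have hp : (0 : ℝ) < (n : ℝ) / 2 - 1 := by linarith only [hn']
  have hG : 0 < Real.Gamma ((n : ℝ) / 2) := Real.Gamma_pos_of_pos (by linarith)
  have hpi : 0 < 2 * Real.pi := by positivity
  obtain ⟨C, hC⟩ : ∃ C : ℝ, C = (2 * Real.pi) ^ ((n : ℝ) / 2) / Real.Gamma ((n : ℝ) / 2) :=
    ⟨_, rfl⟩
  have hC0 : 0 < C := by rw [hC]; positivity
  obtain ⟨K, hK⟩ : ∃ K : ℝ → ℝ, K = fun y : ℝ =>
      ∫ v : ℝ, (y + v ^ 2 / 2) ^ ((n : ℝ) / 2 - 1) * Real.exp (-(2 * Real.pi) * v ^ 2) :=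
    ⟨_, rfl⟩
  have hc : ContinuousWithinAt K (Icc 0 1) 0 := by rw [hK]; exact RGam2_tendsto hp
  have e0 : (n : ℝ) / 2 - 1 + 1 / 2 = ((n : ℝ) - 1) / 2 := by ring
  have hK0 : C * K 0 = √(2 * Real.pi) * 2 ^ (1 - (n : ℝ) / 2) * Real.Gamma (((n : ℝ) - 1) / 2) /
      Real.Gamma ((n : ℝ) / 2) := by
    have e1 : (2 * Real.pi) ^ ((n : ℝ) / 2) * (2 * Real.pi) ^ (-(((n : ℝ) - 1) / 2)) =
        √(2 * Real.pi) := by
      rw [← Real.rpow_add hpi, Real.sqrt_eq_rpow]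
      congr 1
      ring
    simp only [hK]
    rw [RGam2_zero hp, e0, neg_sub, hC, ← e1]
    ring
  obtain ⟨η, hη, hη'⟩ := Metric.continuousWithinAt_iff.1 hc (δ / C) (by positivity)
  refine ⟨min (η / 2) 1, by positivity, fun y hy hy0 => ?_⟩
  have hy1 : y ≤ 1 := hy0.trans (min_le_right _ _)
  have hy2 : y ≤ η / 2 := hy0.trans (min_le_left _ _)
  have h1 := hη' (x := y) ⟨hy.le, hy1⟩
    (by rw [Real.dist_eq, sub_zero, abs_of_pos hy]; linarith only [hy, hy2])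
  rw [Real.dist_eq] at h1
  have h2 : K y ≤ K 0 + δ / C := by have := (abs_lt.1 h1).2; linarith only [this]
  have h3 : C * K y ≤ C * K 0 + δ := by
    have := mul_le_mul_of_nonneg_left h2 hC0.le
    rwa [mul_add, mul_div_cancel₀ _ hC0.ne'] at this
  have hKy : 0 ≤ K y := by
    simp only [hK]
    exact integral_nonneg fun v => by positivity
  have hKy' : (∫ v : ℝ, (y + v ^ 2 / 2) ^ ((n : ℝ) / 2 - 1) *
      Real.exp (-(2 * Real.pi) * v ^ 2)) = K y := by rw [hK]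
  have hyp : 0 < y ^ (-(((n : ℝ) - 1) / 2)) := Real.rpow_pos_of_pos hy _
  rw [dens_indef_eq hn hy, RGam2_scale hy, hKy', e0, Complex.norm_real, Real.norm_eq_abs,
    abs_of_nonneg (by positivity), ← hK0]
  calc _ = Real.exp (-(2 * Real.pi * y)) * (C * K y) * y ^ (-(((n : ℝ) - 1) / 2)) := by
        rw [hC]; ring
    _ ≤ _ := by gcongr

end Pool.Agent.Work.MP_c8d35c_al
end

-- merged part: Pool.Agent.Work.MP_c8d35c_al.RPsi
section
/-! The singular integral. -/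

namespace Pool.Agent.Work.MP_c8d35c_al

open NumberField Module MeasureTheory Real

/-- The density constant at the indefinite place. -/
noncomputable def an (n : ℕ) : ℝ := 2 ^ (((n : ℝ) + 1) / 2) * π ^ ((n : ℝ) / 2) / Gamma ((n : ℝ) / 2)

/-- The density constant at a definite place. -/
noncomputable def bn (n : ℕ) : ℝ := (2 * π) ^ (((n : ℝ) + 1) / 2) / Gamma (((n : ℝ) + 1) / 2)

variable {K : Type} [Field K] [NumberField K] {n : ℕ}

open Classical in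
/-- The heights: `l / (4 π)` at `σ0` and `1` elsewhere. -/
noncomputable def ht (σ0 : Emb K) (l : ℝ) : Emb K → ℝ := fun σ => if σ = σ0 then l / (4 * π) else 1

theorem an_pos (hn : 1 ≤ n) : 0 < an n := by
  have h : (0 : ℝ) < n := by exact_mod_cast hn
  have := Real.Gamma_pos_of_pos (half_pos h)
  unfold an
  positivity

theorem bn_pos (n : ℕ) : 0 < bn n := by
  have := Real.Gamma_pos_of_pos (s := ((n : ℝ) + 1) / 2) (by positivity)
  unfold bn
  positivity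

theorem ht_pos (σ0 : Emb K) {l : ℝ} (hl : 0 < l) (σ : Emb K) : 0 < ht σ0 l σ := by
  unfold ht
  split_ifs
  · positivity
  · exact one_pos

theorem prod_ht (σ0 : Emb K) (l : ℝ) : ∏ σ, ht σ0 l σ = l / (4 * π) := by
  rw [Finset.prod_eq_single σ0 (fun σ _ hσ => by simp [ht, hσ]) (by simp)]
  simp [ht]

theorem RPsi_sum_ht (σ0 : Emb K) (l : ℝ) :
    ∑ σ, ht σ0 l σ = l / (4 * π) + (Fintype.card (Emb K) - 1 : ℕ) := by
  classical
  rw [← Finset.add_sum_erase _ _ (Finset.mem_univ σ0)]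
  congr 1
  · simp [ht]
  · rw [Finset.sum_congr rfl (g := fun _ => (1 : ℝ)) fun σ hσ => by
      simp [ht, (Finset.mem_erase.1 hσ).1]]
    simp [Finset.card_erase_of_mem]

theorem integrable_psi (hn : 2 ≤ n) (σ0 : Emb K) {y : Emb K → ℝ} (hy : ∀ σ, 0 < y σ) :
    Integrable fun x : Emb K → ℝ => psi σ0 n y x * ee (-∑ σ, x σ) := by
  have h1 : Integrable fun x : Emb K → ℝ =>
      ∏ σ : Emb K, (y σ ^ 2 + x σ ^ 2) ^ (-(((n : ℝ) + 1) / 4)) := by
    refine Integrable.fintype_prod (f := fun σ (t : ℝ) => (y σ ^ 2 + t ^ 2) ^ (-(((n : ℝ) + 1) / 4)))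
      fun σ => ?_
    have := integrable_dens (N := n + 1) (by omega) (hy σ)
    simpa using this
  refine h1.mono' ?_ (Filter.Eventually.of_forall fun x => ?_)
  · exact ((continuous_psi σ0 hy).mul (continuous_ee.comp (by fun_prop))).aestronglyMeasurable
  · rw [norm_mul, norm_ee, mul_one, norm_psi σ0 hy]
    exact le_rfl

theorem RPsi_ee_sum {ι : Type} (s : Finset ι) (x : ι → ℝ) :
    ee (-∑ i ∈ s, x i) = ∏ i ∈ s, ee (-x i) := by
  classical
  induction s using Finset.induction_on with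
  | empty => simp [ee_zero]
  | insert a s ha ih => rw [Finset.sum_insert ha, Finset.prod_insert ha, neg_add, ee_add, ih]

/-- The local factor. -/
noncomputable def RPsiF (σ0 : Emb K) (n : ℕ) (y : ℝ) (σ : Emb K) (t : ℝ) : ℂ :=
  (∏ i : Fin (n + 1), (1 / ((y : ℂ) - Complex.I * (sg σ0 ((σ, i) : Co K n) : ℝ) * (t : ℝ))) ^
    (1 / 2 : ℂ)) * ee (-t)

theorem RPsi_integral (σ0 : Emb K) (y : Emb K → ℝ) :
    ∫ x : Emb K → ℝ, psi σ0 n y x * ee (-∑ σ, x σ) = ∏ σ, ∫ t : ℝ, RPsiF σ0 n (y σ) σ t := by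
  rw [← integral_fintype_prod_volume_eq_prod]
  refine integral_congr_ae (Filter.Eventually.of_forall fun x => ?_)
  simp only [psi, RPsiF, bb]
  rw [Fintype.prod_prod_type, RPsi_ee_sum, Finset.prod_mul_distrib]

theorem RPsi_def (hn : 2 ≤ n) {σ0 σ : Emb K} (h : σ ≠ σ0) :
    ∫ t : ℝ, RPsiF σ0 n 1 σ t = ((bn n * exp (-(2 * π)) : ℝ) : ℂ) := by
  have h1 := dens_def (N := n + 1) (by omega) one_pos one_pos
  have h2 : ∀ t : ℝ, RPsiF σ0 n 1 σ t =
      ((1 / (((1 : ℝ) : ℂ) - Complex.I * t)) ^ (1 / 2 : ℂ)) ^ (n + 1) * ee (-(t * 1)) := by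
    intro t
    simp [RPsiF, sg_ne h]
  simp only [h2]
  rw [h1]
  congr 1
  simp only [bn, Real.one_rpow, mul_one, Nat.cast_add, Nat.cast_one]
  ring

theorem RPsi_indef (σ0 : Emb K) (y t : ℝ) : RPsiF σ0 n y σ0 t =
    (1 / ((y : ℂ) + Complex.I * t)) ^ (1 / 2 : ℂ) *
      ((1 / ((y : ℂ) - Complex.I * t)) ^ (1 / 2 : ℂ)) ^ n * ee (-t) := by
  simp [RPsiF, Fin.prod_univ_succ, sg_base, sg_succ]

theorem RPsi_const (n : ℕ) : √(2 * π) * 2 ^ (1 - (n : ℝ) / 2) * (4 * π) ^ (((n : ℝ) - 1) / 2) =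
    2 ^ (((n : ℝ) + 1) / 2) * π ^ ((n : ℝ) / 2) := by
  have h4 : (4 : ℝ) ^ (((n : ℝ) - 1) / 2) = 2 ^ ((n : ℝ) - 1) := by
    rw [show (4 : ℝ) = 2 ^ (2 : ℝ) by norm_num, ← Real.rpow_mul (by norm_num)]
    congr 1
    ring
  rw [Real.sqrt_eq_rpow, Real.mul_rpow (by norm_num) pi_pos.le, Real.mul_rpow (by norm_num) pi_pos.le,
    h4]
  have h2 : (2 : ℝ) ^ (((n : ℝ) + 1) / 2) =
      2 ^ (1 / 2 : ℝ) * 2 ^ (1 - (n : ℝ) / 2) * 2 ^ ((n : ℝ) - 1) := by
    rw [← Real.rpow_add two_pos, ← Real.rpow_add two_pos]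
    congr 1
    ring
  have h3 : π ^ ((n : ℝ) / 2) = π ^ (1 / 2 : ℝ) * π ^ (((n : ℝ) - 1) / 2) := by
    rw [← Real.rpow_add pi_pos]
    congr 1
    ring
  rw [h2, h3]
  ring

theorem psi_integral_le (hn : 3 ≤ n) (σ0 : Emb K) {δ : ℝ} (hδ : 0 < δ) :
    ∃ l0 : ℝ, 0 < l0 ∧ ∀ l : ℝ, 0 < l → l ≤ l0 →
      ‖∫ x : Emb K → ℝ, psi σ0 n (ht σ0 l) x * ee (-∑ σ, x σ)‖ ≤
        exp (-(2 * π * ∑ σ, ht σ0 l σ)) *
          (Gamma (((n : ℝ) - 1) / 2) * an n * bn n ^ (Fintype.card (Emb K) - 1) + δ) *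
            l ^ (-(((n : ℝ) - 1) / 2)) := by
  classical
  set d := Fintype.card (Emb K) - 1 with hd
  set q : ℝ := ((n : ℝ) - 1) / 2 with hq
  have hb := bn_pos n
  have h4 : (0 : ℝ) < 4 * π := by positivity
  have hP : 0 < (4 * π) ^ q := Real.rpow_pos_of_pos h4 _
  obtain ⟨y0, hy0, hy⟩ := dens_indef_le hn (δ := δ / ((4 * π) ^ q * bn n ^ d)) (by positivity)
  refine ⟨4 * π * y0, by positivity, fun l hl hl0 => ?_⟩
  have h1 := hy (l / (4 * π)) (by positivity) (by rw [div_le_iff₀ h4]; linarith only [hl0])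
  rw [RPsi_integral, ← Finset.mul_prod_erase _ _ (Finset.mem_univ σ0),
    Finset.prod_congr rfl (g := fun _ => ((bn n * exp (-(2 * π)) : ℝ) : ℂ)) fun σ hσ => by
      have hne := (Finset.mem_erase.1 hσ).1
      rw [show ht σ0 l σ = 1 by simp [ht, hne]]
      exact RPsi_def (by omega) hne,
    Finset.prod_const, Finset.card_erase_of_mem (Finset.mem_univ _), Finset.card_univ, ← hd,
    norm_mul, norm_pow, Complex.norm_real, Real.norm_eq_abs, abs_of_pos (by positivity),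
    show ht σ0 l σ0 = l / (4 * π) by simp [ht]]
  simp only [RPsi_indef]
  refine (mul_le_mul_of_nonneg_right h1 (by positivity)).trans (le_of_eq ?_)
  have e1 : exp (-(2 * π * ∑ σ, ht σ0 l σ)) =
      exp (-(2 * π * (l / (4 * π)))) * exp (-(2 * π)) ^ d := by
    rw [RPsi_sum_ht, ← hd, ← Real.exp_nat_mul, ← Real.exp_add]
    congr 1
    ring
  have e2 : (l / (4 * π)) ^ (-q) = l ^ (-q) * (4 * π) ^ q := by
    rw [Real.div_rpow hl.le h4.le, Real.rpow_neg h4.le, div_inv_eq_mul]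
  have e3 : an n = √(2 * π) * 2 ^ (1 - (n : ℝ) / 2) * (4 * π) ^ q / Gamma ((n : ℝ) / 2) := by
    rw [hq, RPsi_const, an]
  rw [e1, ← hq, e2, e3, mul_pow]
  field_simp

end Pool.Agent.Work.MP_c8d35c_al
end

-- merged part: Pool.Agent.Work.MP_c8d35c_al.RNum
section
/-! Numerical inequalities. -/

namespace Pool.Agent.Work.MP_c8d35c_al

open Real

theorem an_mul_bn {n : ℕ} (hn : 1 ≤ n) : an n * bn n = (4 * π) ^ n / ((n - 1).factorial : ℝ) := by
  have hG := Gamma_mul_Gamma_add_half ((n : ℝ) / 2)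
  have e0 : Gamma (2 * ((n : ℝ) / 2)) = (n - 1).factorial := by
    rw [← Gamma_nat_eq_factorial, Nat.cast_sub hn]
    congr 1
    push_cast
    ring
  have e1 : (2 : ℝ) ^ (((n : ℝ) + 1) / 2) * 2 ^ (((n : ℝ) + 1) / 2) =
      4 ^ n * 2 ^ (1 - 2 * ((n : ℝ) / 2)) := by
    rw [show (4 : ℝ) = 2 ^ 2 by norm_num, ← pow_mul, ← rpow_natCast, ← rpow_add two_pos,
      ← rpow_add two_pos]
    congr 1
    push_cast
    ring
  have e2 : π ^ ((n : ℝ) / 2) * π ^ (((n : ℝ) + 1) / 2) = π ^ n * √π := by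
    rw [sqrt_eq_rpow, ← rpow_natCast, ← rpow_add pi_pos, ← rpow_add pi_pos]
    congr 1
    ring
  rw [e0, ← add_div] at hG
  rw [an, bn, div_mul_div_comm, hG, mul_rpow two_pos.le pi_pos.le,
    div_eq_div_iff (by positivity) (by positivity), mul_pow]
  linear_combination (π ^ ((n : ℝ) / 2) * π ^ (((n : ℝ) + 1) / 2) * (n - 1).factorial) * e1 +
    (4 ^ n * 2 ^ (1 - 2 * ((n : ℝ) / 2)) * (n - 1).factorial) * e2

theorem RNum_bn_pos (n : ℕ) : 0 < bn n := by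
  unfold bn
  positivity

theorem RNum_an_pos {n : ℕ} (hn : 13 ≤ n) : 0 < an n := by
  have : (0 : ℝ) < n := Nat.cast_pos.2 (by omega)
  unfold an
  positivity

theorem RNum_bn_step (n : ℕ) : bn (n + 2) = bn n * (4 * π / (n + 1)) := by
  have e : (((n + 2 : ℕ) : ℝ) + 1) / 2 = ((n : ℝ) + 1) / 2 + 1 := by
    push_cast
    ring
  have h := Gamma_pos_of_pos (show 0 < ((n : ℝ) + 1) / 2 by positivity)
  rw [bn, bn, e, Gamma_add_one (by positivity), rpow_add (by positivity), rpow_one]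
  field_simp
  ring

theorem RNum_bn0 : bn 0 = √2 := by
  have h : √π ≠ 0 := by positivity
  rw [bn, Nat.cast_zero, zero_add, Gamma_one_half_eq, ← sqrt_eq_rpow, sqrt_mul two_pos.le,
    mul_div_cancel_right₀ _ h]

theorem RNum_bn1 : bn 1 = 2 * π := by
  norm_num [bn]

theorem RNum_bn13 : bn 13 ≤ 537 := by
  have e : bn 13 = 128 * π ^ 7 / 720 := by
    rw [RNum_bn_step 11, RNum_bn_step 9, RNum_bn_step 7, RNum_bn_step 5, RNum_bn_step 3,
      RNum_bn_step 1, RNum_bn1]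
    push_cast
    ring
  have h : π ^ 7 ≤ 3.1416 ^ 7 := pow_le_pow_left₀ pi_pos.le pi_lt_d4.le 7
  rw [e]
  norm_num at h ⊢
  linarith only [h]

theorem RNum_bn14 : bn 14 ≤ 537 := by
  have e : bn 14 = √2 * π ^ 7 * (16384 / 135135) := by
    rw [RNum_bn_step 12, RNum_bn_step 10, RNum_bn_step 8, RNum_bn_step 6, RNum_bn_step 4,
      RNum_bn_step 2, RNum_bn_step 0, RNum_bn0]
    push_cast
    ring
  have h : π ^ 7 ≤ 3.1416 ^ 7 := pow_le_pow_left₀ pi_pos.le pi_lt_d4.le 7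
  have h' : √2 ≤ 1.42 := sqrt_le_iff.2 ⟨by norm_num, by norm_num⟩
  rw [e]
  calc _ ≤ (1.42 : ℝ) * 3.1416 ^ 7 * (16384 / 135135) := by gcongr
    _ ≤ _ := by norm_num

theorem RNum_pi {n : ℕ} (hn : 13 ≤ n) : 4 * π ≤ n := by
  have h : (13 : ℝ) ≤ n := by exact_mod_cast hn
  linarith only [h, pi_lt_d2]

theorem bn_le {n : ℕ} (hn : 13 ≤ n) : bn n ≤ 537 := by
  have key : ∀ n, 13 ≤ n → bn n ≤ 537 ∧ bn (n + 1) ≤ 537 := by
    intro n hn
    induction n, hn using Nat.le_induction with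
    | base => exact ⟨RNum_bn13, RNum_bn14⟩
    | succ n hn ih =>
      refine ⟨ih.2, ?_⟩
      rw [add_assoc, RNum_bn_step]
      refine (mul_le_of_le_one_right (RNum_bn_pos n).le ?_).trans ih.1
      rw [div_le_one (by positivity)]
      linarith [RNum_pi hn]
  exact (key n hn).1

theorem RNum_F {n : ℕ} (hn : 13 ≤ n) : an n * bn n ≤ 406811 := by
  rw [an_mul_bn (by omega)]
  induction n, hn using Nat.le_induction with
  | base =>
    have h : (4 * π) ^ 13 ≤ (4 * 3.141593) ^ 13 := by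
      gcongr
      exact pi_lt_d6.le
    rw [div_le_iff₀ (by positivity)]
    refine h.trans ?_
    norm_num [Nat.factorial]
  | succ n hn ih =>
    obtain ⟨m, rfl⟩ : ∃ m, n = m + 1 := ⟨n - 1, by omega⟩
    have h := RNum_pi hn
    rw [Nat.add_sub_cancel] at ih ⊢
    refine le_trans ?_ ih
    rw [Nat.factorial_succ, Nat.cast_mul, pow_succ, mul_comm ((m + 1 : ℕ) : ℝ), ← div_mul_div_comm]
    exact mul_le_of_le_one_right (by positivity) ((div_le_one (by positivity)).2 h)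

theorem RNum_main {n : ℕ} (hn : 13 ≤ n) (e : ℕ) {D Y Y' : ℝ} (hD : 1 ≤ D) (hY : Y ≤ Y')
    (hY' : 0 ≤ Y') (h : 406811 * 537 ^ e * (Y' / √D ^ 13) < 12) :
    an n * bn n ^ (e + 2 - 1) * D ^ (-((n : ℝ) / 2)) * Y < (n : ℝ) - 1 := by
  have h0 : (13 : ℝ) ≤ n := by exact_mod_cast hn
  have h1 : D ^ (-((n : ℝ) / 2)) ≤ (√D ^ 13)⁻¹ := by
    rw [sqrt_eq_rpow, ← rpow_natCast, ← rpow_mul (by linarith only [hD]), ← rpow_neg (by linarith)]
    refine rpow_le_rpow_of_exponent_le hD ?_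
    push_cast
    linarith only [h0]
  have h2 := RNum_an_pos hn
  have h3 := RNum_bn_pos n
  calc _ ≤ an n * bn n ^ (e + 2 - 1) * D ^ (-((n : ℝ) / 2)) * Y' := by
        have : 0 < D := by linarith
        gcongr
    _ = an n * bn n * bn n ^ e * (Y' * D ^ (-((n : ℝ) / 2))) := by
        rw [show e + 2 - 1 = e + 1 from rfl]
        ring
    _ ≤ 406811 * 537 ^ e * (Y' * (√D ^ 13)⁻¹) := by
        have : 0 < D := by linarith only [hD]
        gcongr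
        exacts [RNum_F hn, bn_le hn]
    _ < _ := by
        rw [← div_eq_mul_inv]
        linarith only [h, h0]

theorem RNum_exp {x y : ℝ} (h0 : 0 ≤ x) (h1 : x < 1) (h : 1 / (1 - x) ≤ y) : exp x ≤ y :=
  (exp_bound_div_one_sub_of_interval h0 h1).trans h

theorem RNum_q {d : ℕ} (hd : 1 ≤ d) :
    ((d + 1).factorial : ℝ) / ((d + 1 : ℕ) : ℝ) ^ (d + 1) ≤ (d.factorial : ℝ) / (d : ℝ) ^ d / 2 := by
  have h0 : (0 : ℝ) < d := Nat.cast_pos.2 hd
  have h1 := one_add_mul_le_pow (a := (d : ℝ)⁻¹) (le_trans (by norm_num) (inv_pos.2 h0).le) d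
  rw [mul_inv_cancel₀ h0.ne', show 1 + (d : ℝ)⁻¹ = (d + 1) / d by field_simp, div_pow,
    le_div_iff₀ (by positivity)] at h1
  rw [Nat.factorial_succ, Nat.cast_mul, pow_succ', mul_div_mul_left _ _ (by positivity), div_div]
  push_cast
  gcongr
  linarith

theorem RNum_q' (k : ℕ) :
    ((k + 4).factorial : ℝ) / ((k + 4 : ℕ) : ℝ) ^ (k + 4) ≤ 3 / 32 / 2 ^ k := by
  induction k with
  | zero => norm_num [Nat.factorial]
  | succ k ih =>
    refine (RNum_q (d := k + 4) (by omega)).trans ?_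
    rw [pow_succ (2 : ℝ), ← div_div]
    gcongr

theorem num5 {n : ℕ} (hn : 13 ≤ n) :
    an n * bn n ^ (2 - 1) * (5 : ℝ) ^ (-((n : ℝ) / 2)) *
      (1.0004 * (1.0004 + 2 ^ 2 * (1.0059 - 1))) < (n : ℝ) - 1 := by
  refine RNum_main hn 0 (by norm_num) le_rfl (by norm_num) ?_
  have h : 2.236 ≤ √5 := le_sqrt_of_sq_le (by norm_num)
  calc _ ≤ 406811 * 537 ^ 0 * ((1.0004 * (1.0004 + 2 ^ 2 * (1.0059 - 1)) : ℝ) / 2.236 ^ 13) := by
        gcongr
    _ < _ := by norm_num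

theorem num2 {n : ℕ} (hn : 13 ≤ n) {D H : ℝ} (hD : 6 ≤ D) (hH1 : mkb 2 D < 2 → H ≤ 1)
    (hH : H ≤ mkb 2 D ^ 5 * exp (((2 : ℕ) : ℝ) * 0.0484)) :
    an n * bn n ^ (2 - 1) * D ^ (-((n : ℝ) / 2)) * (H * 2 ^ (2 - 1) *
      (exp (((2 : ℕ) : ℝ) * 0.0105) * (exp (((2 : ℕ) : ℝ) * 0.0105) +
        2 ^ 2 * (exp (((2 : ℕ) : ℝ) * 0.0484) - 1)))) < (n : ℝ) - 1 := by
  have a1 : exp (((2 : ℕ) : ℝ) * 0.0105) ≤ 1.022 := RNum_exp (by norm_num) (by norm_num) (by norm_num)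
  have b1 : exp (((2 : ℕ) : ℝ) * 0.0484) ≤ 1.108 := RNum_exp (by norm_num) (by norm_num) (by norm_num)
  have b0 : 1 ≤ exp (((2 : ℕ) : ℝ) * 0.0484) := one_le_exp (by norm_num)
  have a0 := exp_pos (((2 : ℕ) : ℝ) * 0.0105)
  generalize exp (((2 : ℕ) : ℝ) * 0.0105) = a at *
  generalize exp (((2 : ℕ) : ℝ) * 0.0484) = b at *
  have c0 : 0 ≤ a * (a + 2 ^ 2 * (b - 1)) := by
    have := sub_nonneg.2 b0
    positivity
  have c1 : a * (a + 2 ^ 2 * (b - 1)) ≤ 1.5 := by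
    have := sub_nonneg.2 b0
    calc _ ≤ (1.022 : ℝ) * (1.022 + 2 ^ 2 * (1.108 - 1)) := by gcongr
      _ ≤ _ := by norm_num
  generalize a * (a + 2 ^ 2 * (b - 1)) = c at *
  have e : mkb 2 D = √D / 2 := by
    norm_num [mkb, Nat.factorial]
    ring
  rw [e] at hH hH1
  by_cases h : √D / 2 < 2
  · refine RNum_main hn 0 (Y' := 1 * 2 ^ (2 - 1) * 1.5) (by linarith only [hD]) ?_ (by norm_num) ?_
    · calc _ ≤ 1 * 2 ^ (2 - 1) * c := by
            gcongr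
            exact hH1 h
        _ ≤ _ := by gcongr
    · have h' : 2.449 ≤ √D := le_sqrt_of_sq_le (by linarith only [hD])
      calc _ ≤ 406811 * 537 ^ 0 * ((1 * 2 ^ (2 - 1) * 1.5 : ℝ) / 2.449 ^ 13) := by gcongr
        _ < _ := by norm_num
  · have h' : 4 ≤ √D := by linarith only [h, not_lt.1 h]
    refine RNum_main hn 0 (Y' := (√D / 2) ^ 5 * 1.108 * 2 ^ (2 - 1) * 1.5) (by linarith only [hD]) ?_
      (by positivity) ?_
    · calc _ ≤ (√D / 2) ^ 5 * b * 2 ^ (2 - 1) * c := by gcongr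
        _ ≤ _ := by gcongr
    · calc _ = 406811 * (1.108 * 3 / 32) / √D ^ 8 := by
            field_simp
            ring
        _ ≤ 406811 * (1.108 * 3 / 32) / 4 ^ 8 := by gcongr
        _ < _ := by norm_num

theorem numd {n d : ℕ} (hn : 13 ≤ n) (hd : 3 ≤ d) {D H : ℝ} (hD : 1 ≤ D) (hX : 1 ≤ mkb d D)
    (hH : H ≤ mkb d D ^ 5 * exp ((d : ℝ) * 0.0484)) :
    an n * bn n ^ (d - 1) * D ^ (-((n : ℝ) / 2)) * (H * 2 ^ (d - 1) *
      (exp ((d : ℝ) * 0.0105) * (exp ((d : ℝ) * 0.0105) +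
        2 ^ d * (exp ((d : ℝ) * 0.0484) - 1)))) < (n : ℝ) - 1 := by
  have b0 : 0 ≤ exp ((d : ℝ) * 0.0484) - 1 := sub_nonneg.2 (one_le_exp (by positivity))
  have q0 : 0 < (d.factorial : ℝ) / (d : ℝ) ^ d := by
    have : (0 : ℝ) < d := Nat.cast_pos.2 (by omega)
    positivity
  have hs : 0 < √D := sqrt_pos.2 (by linarith only [hD])
  have hq : mkb d D ^ 5 / √D ^ 13 ≤ ((d.factorial : ℝ) / (d : ℝ) ^ d) ^ 13 := by
    rw [div_le_iff₀ (by positivity), ← mul_pow]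
    exact pow_le_pow_right₀ hX (by norm_num)
  obtain ⟨e, rfl⟩ : ∃ e, d = e + 2 := ⟨d - 2, by omega⟩
  refine RNum_main hn e hD (mul_le_mul_of_nonneg_right
    (mul_le_mul_of_nonneg_right hH (by positivity)) (by positivity)) (by positivity) ?_
  rw [mul_assoc (mkb _ _ ^ 5), mul_assoc (mkb _ _ ^ 5), mul_div_right_comm]
  refine lt_of_le_of_lt (mul_le_mul_of_nonneg_left
    (mul_le_mul_of_nonneg_right hq (by positivity)) (by positivity)) ?_
  clear hq hH hX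
  obtain rfl | ⟨k, rfl⟩ : e = 1 ∨ ∃ k, e = k + 2 :=
    (em (e = 1)).imp_right fun h => ⟨e - 2, by omega⟩
  · have a1 : exp (((1 + 2 : ℕ) : ℝ) * 0.0105) ≤ 1.033 :=
      RNum_exp (by norm_num) (by norm_num) (by norm_num)
    have b1 : exp (((1 + 2 : ℕ) : ℝ) * 0.0484) ≤ 1.17 :=
      RNum_exp (by norm_num) (by norm_num) (by norm_num)
    calc _ ≤ 406811 * 537 ^ 1 * ((((1 + 2).factorial : ℝ) / ((1 + 2 : ℕ) : ℝ) ^ (1 + 2)) ^ 13 *
          (1.17 * (2 ^ (1 + 2 - 1) * (1.033 * (1.033 + 2 ^ (1 + 2) * (1.17 - 1)))))) := by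
          rw [mul_assoc (exp _)]
          gcongr
      _ < _ := by norm_num [Nat.factorial]
  · have a1 : exp (((k + 2 + 2 : ℕ) : ℝ) * 0.0105) ≤ 1.011 ^ (k + 4) := by
      rw [exp_nat_mul]
      exact pow_le_pow_left₀ (exp_pos _).le (RNum_exp (by norm_num) (by norm_num) (by norm_num)) _
    have b1 : exp (((k + 2 + 2 : ℕ) : ℝ) * 0.0484) ≤ 1.051 ^ (k + 4) := by
      rw [exp_nat_mul]
      exact pow_le_pow_left₀ (exp_pos _).le (RNum_exp (by norm_num) (by norm_num) (by norm_num)) _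
    have a2 : (1.011 : ℝ) ^ (k + 4) ≤ 2 ^ (k + 4) := by
      gcongr
      norm_num
    have c1 : exp (((k + 2 + 2 : ℕ) : ℝ) * 0.0105) + 2 ^ (k + 2 + 2) *
        (exp (((k + 2 + 2 : ℕ) : ℝ) * 0.0484) - 1) ≤ 2 ^ (k + 4) * 1.051 ^ (k + 4) := by
      have := mul_le_mul_of_nonneg_left b1 (show (0 : ℝ) ≤ 2 ^ (k + 4) by positivity)
      change _ + 2 ^ (k + 4) * _ ≤ _
      linarith only [a1, a2, this]
    have r1 : (537 * 1.051 * 2 * 1.011 * 2 * 1.051 / 2 ^ 13 : ℝ) ^ k ≤ 1 :=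
      pow_le_one₀ (by norm_num) (by norm_num)
    calc _ ≤ 406811 * 537 ^ (k + 2) * ((3 / 32 / 2 ^ k : ℝ) ^ 13 * (1.051 ^ (k + 4) *
          2 ^ (k + 2 + 2 - 1) * (1.011 ^ (k + 4) * (2 ^ (k + 4) * 1.051 ^ (k + 4))))) := by
          gcongr _ * (?_ ^ 13 * (?_ * _ * (?_ * ?_)))
          exact RNum_q' k
      _ = 406811 * 537 ^ 2 * (3 / 32) ^ 13 * 1.051 ^ 4 * 2 ^ 3 * 1.011 ^ 4 * 2 ^ 4 * 1.051 ^ 4 *
          (537 * 1.051 * 2 * 1.011 * 2 * 1.051 / 2 ^ 13) ^ k := by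
          rw [show k + 2 + 2 - 1 = k + 3 from rfl]
          simp only [div_pow, mul_pow, pow_add, ← pow_mul, mul_comm k]
          field_simp
      _ ≤ 406811 * 537 ^ 2 * (3 / 32) ^ 13 * 1.051 ^ 4 * 2 ^ 3 * 1.011 ^ 4 * 2 ^ 4 * 1.051 ^ 4 * 1 := by
          gcongr
      _ < _ := by norm_num

end Pool.Agent.Work.MP_c8d35c_al
end

-- merged part: Pool.Agent.Work.MP_c8d35c_al.RSum
section
/-! The finite family of even lattices that carries all roots, and the total density. -/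

namespace Pool.Agent.Work.MP_c8d35c_al

open NumberField Module Matrix Real

variable {K : Type} [Field K] [NumberField K] [IsTotallyReal K]

theorem field_data (hd : 1 < finrank ℚ K) {n : ℕ} (hn : 13 ≤ n) :
    ∃ (R : Finset (Ideal (𝓞 K))) (E : Finset (𝓞 K)ˣ) (Z5 Z7 : ℝ), ClassReps R ∧ UnitReps E ∧
      ZB K 5 Z5 ∧ ZB K 7 Z7 ∧
      an n * bn n ^ (finrank ℚ K - 1) * dsc K ^ (-((n : ℝ) / 2)) *
        (R.card * E.card * (Z7 * (Z7 + 2 ^ finrank ℚ K * (Z5 - 1)))) < (n : ℝ) - 1 := by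
  obtain ⟨R, hR, hRn⟩ := exists_classReps K
  obtain ⟨E, hE, hEn⟩ := exists_unitReps K
  have hX := one_le_mkb K
  have hpos : 0 < an n * bn n ^ (finrank ℚ K - 1) * dsc K ^ (-((n : ℝ) / 2)) :=
    mul_pos (mul_pos (an_pos (by omega)) (pow_pos (bn_pos n) _))
      (rpow_pos_of_pos (lt_of_lt_of_le one_pos one_le_dsc) _)
  have hEn' : (E.card : ℝ) ≤ 2 ^ (finrank ℚ K - 1) := by exact_mod_cast hEn
  have hH := (zb5 K).card_le R hR.1 hRn (by linarith only [hX])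
  have hc : 0 ≤ exp ((finrank ℚ K : ℝ) * 0.0105) * (exp ((finrank ℚ K : ℝ) * 0.0105) +
      2 ^ finrank ℚ K * (exp ((finrank ℚ K : ℝ) * 0.0484) - 1)) := by
    have := (zb5 K).one_le
    have h1 : 0 ≤ exp ((finrank ℚ K : ℝ) * 0.0484) - 1 := by linarith only [this]
    positivity
  have gen : an n * bn n ^ (finrank ℚ K - 1) * dsc K ^ (-((n : ℝ) / 2)) *
      (R.card * 2 ^ (finrank ℚ K - 1) * (exp ((finrank ℚ K : ℝ) * 0.0105) *
        (exp ((finrank ℚ K : ℝ) * 0.0105) +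
          2 ^ finrank ℚ K * (exp ((finrank ℚ K : ℝ) * 0.0484) - 1)))) < (n : ℝ) - 1 →
      ∃ (R : Finset (Ideal (𝓞 K))) (E : Finset (𝓞 K)ˣ) (Z5 Z7 : ℝ), ClassReps R ∧ UnitReps E ∧
        ZB K 5 Z5 ∧ ZB K 7 Z7 ∧
        an n * bn n ^ (finrank ℚ K - 1) * dsc K ^ (-((n : ℝ) / 2)) *
          (R.card * E.card * (Z7 * (Z7 + 2 ^ finrank ℚ K * (Z5 - 1)))) < (n : ℝ) - 1 := by
    intro h
    refine ⟨R, E, _, _, hR, hE, zb5 K, zb7 K, lt_of_le_of_lt ?_ h⟩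
    gcongr
  rcases Nat.lt_or_ge 2 (finrank ℚ K) with h3 | h2
  · exact gen (numd hn h3 one_le_dsc hX hH)
  · have hd2 : finrank ℚ K = 2 := by omega
    have h1 : mkb 2 (dsc K) < 2 → (R.card : ℝ) ≤ 1 := fun hlt => by
      have := card_le_one_of_lt_two hR.1 fun 𝔟 hb => lt_of_le_of_lt (hRn 𝔟 hb) (hd2 ▸ hlt)
      exact_mod_cast this
    rcases quad_disc hd2 with h6 | ⟨h5, ω, hω⟩
    · apply gen
      rw [hd2] at hH ⊢
      exact num2 hn h6 h1 hH
    · refine ⟨R, {1}, _, _, hR, golden_units hd2 hω, zb5' hd2 (golden_primes hω),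
        zb7' hd2 (golden_primes hω), lt_of_le_of_lt ?_ (num5 hn)⟩
      have hlt : mkb 2 (dsc K) < 2 := by
        rw [h5, mkb]
        have : √(5 : ℝ) < 3 := by
          rw [Real.sqrt_lt' (by norm_num)]; norm_num
        norm_num [Nat.factorial]
        linarith only [this]
      have h1' := h1 hlt
      rw [hd2, h5] at hpos ⊢
      apply mul_le_mul_of_nonneg_left _ hpos.le
      rw [Finset.card_singleton]
      have h0 : (0 : ℝ) ≤ R.card := by positivity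
      rw [Nat.cast_one, mul_one]
      exact mul_le_of_le_one_left (by norm_num) h1'

omit [IsTotallyReal K] in
theorem classes {n : ℕ} (hn : 13 ≤ n) {A : Matrix (Fin (n + 1)) (Fin (n + 1)) K}
    {L : OSub K (n + 1)} (hL : Integ A L) {Pr : Finset (Ideal (𝓞 K))}
    (hPr : ∀ 𝔭 ∈ Pr, 𝔭.IsMaximal) (hr : (∏ 𝔭 ∈ Pr, 𝔭) • sharp A L ≤ L)
    {R : Finset (Ideal (𝓞 K))} {E : Finset (𝓞 K)ˣ} {Z5 Z7 : ℝ} (hR : ClassReps R)
    (hE : UnitReps E) (h5 : ZB K 5 Z5) (h7 : ZB K 7 Z7) :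
    ∃ C : Finset (K × OSub K (n + 1)), (∀ c ∈ C, TPos c.1 ∧ Good ((2 / c.1) • A) c.2) ∧
      ∑ c ∈ C, sgs ((2 / c.1) • A) c.2 ≤
        R.card * E.card * (Z7 * (Z7 + 2 ^ finrank ℚ K * (Z5 - 1))) ∧
      ∀ v, bil A v v ≠ 0 → IsRoot A L v →
        ∃ c ∈ C, ∃ s : K, s ≠ 0 ∧ s • v ∈ c.2 ∧ bil A (s • v) (s • v) = c.1 := by
  classical
  obtain ⟨gens, hg⟩ := exists_gens hE
  set TT := (finite_pairs K).toFinset with hTT
  have hT : ∀ p ∈ TT, p.1 * p.2 = Ideal.span {2} := fun p hp => by simpa [hTT] using hp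
  let I := (Pr.powerset ×ˢ TT ×ˢ R).sigma fun t => gens (t.2.2 ^ 2 * ((∏ 𝔭 ∈ t.1, 𝔭) * t.2.1.2))
  let f : (Σ _ : Finset (Ideal (𝓞 K)) × (Ideal (𝓞 K) × Ideal (𝓞 K)) × Ideal (𝓞 K), 𝓞 K) →
      K × OSub K (n + 1) := fun i => ((i.2 : K), i.1.2.2 • Mty A L (∏ 𝔭 ∈ i.1.1, 𝔭) i.1.2.1.2)
  have hI : ∀ i ∈ I, i.1.1 ⊆ Pr ∧ i.1.2.1.1 * i.1.2.1.2 = Ideal.span {2} ∧ TPos (i.2 : K) ∧
      i.2 ≠ 0 ∧ Ideal.span {i.2} = i.1.2.2 ^ 2 * ((∏ 𝔭 ∈ i.1.1, 𝔭) * i.1.2.1.2) := by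
    intro i hi
    simp only [I, Finset.mem_sigma, Finset.mem_product, Finset.mem_powerset] at hi
    exact ⟨hi.1.1, hT _ hi.1.2.1, (hg _).2.1 _ hi.2⟩
  have hs0 : ∀ p ∈ TT, p.1 ≠ ⊥ := fun p hp h0 => by
    have := hT p hp
    rw [h0, Ideal.bot_mul, eq_comm, Ideal.span_singleton_eq_bot] at this
    exact two_ne_zero this
  refine ⟨I.image f, ?_, ?_, ?_⟩
  · intro c hc
    obtain ⟨i, hi, rfl⟩ := Finset.mem_image.1 hc
    obtain ⟨-, h2, h3, h4, h5⟩ := hI i hi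
    exact ⟨h3, good_type hL h2 h4 h5⟩
  · let w : Finset (Ideal (𝓞 K)) → Ideal (𝓞 K) → ℝ := fun J 𝔰 =>
      ∑' 𝔠 : Ideal (𝓞 K), nm 𝔠 ^ (1 - ((n + 1 : ℕ) : ℝ) / 2) / √(wt A L Pr J 𝔰 𝔠)
    have hw0 : ∀ J 𝔰, 0 ≤ w J 𝔰 := fun J 𝔰 => tsum_nonneg fun 𝔠 =>
      div_nonneg (rpow_nonneg (Nat.cast_nonneg _) _) (sqrt_nonneg _)
    have h1 : ∑ c ∈ I.image f, sgs ((2 / c.1) • A) c.2 ≤
        ∑ i ∈ I, sgs ((2 / (f i).1) • A) (f i).2 :=
      Finset.sum_image_le_of_nonneg fun c _ => sgs_nonneg _ _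
    have h2 : ∀ i ∈ I, sgs ((2 / (f i).1) • A) (f i).2 ≤ w i.1.1 i.1.2.1.1 := by
      intro i hi
      obtain ⟨k1, k2, -, k4, k5⟩ := hI i hi
      have hs : i.1.2.1.1 ≠ ⊥ := by
        simp only [I, Finset.mem_sigma, Finset.mem_product] at hi
        exact hs0 _ hi.1.2.1
      refine Summable.tsum_le_tsum (fun 𝔠 => ?_)
        (summable_sgs (by omega) (good_type hL k2 k4 k5).toInteg)
        (summable_wt (by omega) hL hPr _ hs)
      by_cases hc : 𝔠 = ⊥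
      · have hne : (1 - ((n : ℝ) + 1) / 2) ≠ 0 := by
          have : (13 : ℝ) ≤ n := by exact_mod_cast hn
          linarith only [this]
        subst hc
        push_cast
        rw [nm_bot, zero_rpow hne, zero_div, zero_div]
      · push_cast
        have h1w := one_le_wt hL hPr i.1.1 hs 𝔠
        exact div_le_div_of_nonneg_left (rpow_nonneg (Nat.cast_nonneg _) _)
          (sqrt_pos.2 (by linarith)) (sqrt_le_sqrt (wt_le_iota hL hPr k1 k2 k4 k5 hc))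
    have h3 : ∑ i ∈ I, w i.1.1 i.1.2.1.1 ≤
        ∑ t ∈ Pr.powerset ×ˢ TT ×ˢ R, (E.card : ℝ) * w t.1 t.2.1.1 := by
      rw [Finset.sum_sigma]
      refine Finset.sum_le_sum fun t _ => ?_
      simp only [Finset.sum_const, nsmul_eq_mul]
      exact mul_le_mul_of_nonneg_right (by exact_mod_cast (hg _).1) (hw0 _ _)
    have h4 : ∑ t ∈ Pr.powerset ×ˢ TT ×ˢ R, (E.card : ℝ) * w t.1 t.2.1.1 =
        R.card * E.card * ∑ J ∈ Pr.powerset, ∑ p ∈ TT, w J p.1 := by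
      simp only [Finset.sum_product, Finset.sum_const, nsmul_eq_mul, Finset.mul_sum, mul_assoc]
    refine h1.trans ((Finset.sum_le_sum h2).trans (h3.trans (h4.le.trans ?_)))
    exact mul_le_mul_of_nonneg_left (sum_types (by omega) hL hPr TT hT h5 h7) (by positivity)
  · intro v hv0 hv
    obtain ⟨J, hJ, 𝔰, 𝔱, h2, 𝔟, hb, s, m', hs, hsv, hm', hsp⟩ := root_type hL hPr hr hR hv0 hv
    have hval : (m' : K) = s ^ 2 * bil A v v := by
      rw [← hm', bil_smul_left, bil_smul_right]; ring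
    have hpos : TPos (m' : K) := fun σ => by
      rw [hval, map_mul, map_pow]
      exact mul_pos (sq_pos_of_ne_zero ((_root_.map_ne_zero σ).2 hs)) (hv.1 σ)
    have hm0 : m' ≠ 0 := fun h0 => by
      rw [h0] at hval
      exact mul_ne_zero (pow_ne_zero 2 hs) hv0 (by simpa using hval.symm)
    obtain ⟨m, hm, ε, hε⟩ := (hg _).2.2 m' hpos hm0 hsp
    refine ⟨f ⟨(J, (𝔰, 𝔱), 𝔟), m⟩, Finset.mem_image_of_mem f ?_, ((ε : 𝓞 K) : K) * s, ?_, ?_, ?_⟩
    · simp only [I, Finset.mem_sigma, Finset.mem_product, Finset.mem_powerset]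
      exact ⟨⟨hJ, by simpa [hTT] using h2, hb⟩, hm⟩
    · exact mul_ne_zero (by simp) hs
    · rw [mul_smul]
      exact Submodule.smul_mem _ (ε : 𝓞 K) hsv
    · rw [mul_smul, bil_smul_left, bil_smul_right, hm']
      simp only [f, hε]
      push_cast
      ring

end Pool.Agent.Work.MP_c8d35c_al
end

-- merged part: Pool.Agent.Work.MP_c8d35c_al.RErr
section
/-! The error term at the nearest cusp. -/

namespace Pool.Agent.Work.MP_c8d35c_al

open NumberField Module Matrix Complex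

theorem RErr_tail {G : Type} [Zero G] (f : G → ℂ) (e : G → ℝ) {A S : ℝ} (hA : 0 ≤ A)
    (hf : ∀ ξ, ‖f ξ‖ ≤ A * e ξ) (hS : ∀ t : Finset G, (∀ ξ ∈ t, ξ ≠ 0) → ∑ ξ ∈ t, e ξ ≤ S) :
    ‖∑' ξ, f ξ - f 0‖ ≤ A * S := by
  classical
  have h1 : ∀ t : Finset G, ∑ ξ ∈ t, ‖if ξ = 0 then 0 else f ξ‖ ≤ A * S := fun t => by
    refine le_trans ?_ (mul_le_mul_of_nonneg_left
      (hS (t.filter fun ξ => ξ ≠ 0) fun ξ h => (Finset.mem_filter.1 h).2) hA)
    rw [Finset.mul_sum, Finset.sum_filter]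
    refine Finset.sum_le_sum fun ξ _ => ?_
    by_cases h : ξ = 0
    · simp [h]
    · simpa [h] using hf ξ
  have h2 : Summable fun ξ => ‖if ξ = 0 then 0 else f ξ‖ :=
    summable_of_sum_le (fun _ => norm_nonneg _) h1
  have h3 : Summable f := by
    refine (h2.of_norm.add (hasSum_ite_eq 0 (f 0)).summable).congr fun ξ => ?_
    by_cases h : ξ = 0 <;> simp [h]
  rw [h3.tsum_eq_add_tsum_ite 0, add_sub_cancel_left]
  exact (norm_tsum_le_tsum_norm h2).trans (h2.tsum_le_of_sum_le h1)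

theorem RErr_u {y x c a : ℝ} (hy : 0 < y) (hc : c ≠ 0) (h1 : |c| ≤ 2 / √y)
    (h2 : |c * x - a| ≤ 2 * √y) : |c| ^ 2 / 8 ≤ y / (y ^ 2 + (x - a / c) ^ 2) := by
  have h3 := pow_le_pow_left₀ (abs_nonneg _) h1 2
  have h4 := pow_le_pow_left₀ (abs_nonneg _) h2 2
  rw [div_pow, Real.sq_sqrt hy.le, le_div_iff₀ hy] at h3
  rw [mul_pow, Real.sq_sqrt hy.le, sq_abs] at h4
  have h5 : |c| ^ 2 * (x - a / c) ^ 2 = (c * x - a) ^ 2 := by
    rw [sq_abs]; field_simp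
  rw [div_le_div_iff₀ (by norm_num) (by positivity), mul_add, h5]
  nlinarith only [h4, hy, h3]

variable {K : Type} [Field K] [NumberField K] [IsTotallyReal K] {n : ℕ}
  {B : Matrix (Fin (n + 1)) (Fin (n + 1)) K} {M : OSub K (n + 1)}

theorem RErr_short (hd : 1 < finrank ℚ K) {σ0 : Emb K} (hB : B.det ≠ 0)
    {Φ : (Fin (n + 1) → K) →+ Co K n → ℝ} (hΦ : Frame σ0 B Φ) {u : Emb K → ℝ} (hu : ∀ σ, 0 < u σ)
    {c0 ν : ℝ} (hν : 0 < ν) (hc0 : 0 ≤ c0) {ξ : Fin (n + 1) → K} (h0 : ξ ≠ 0)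
    (h : bil B ξ ξ ≠ 0 → c0 ≤ (∏ σ : Emb K, |σ (bil B ξ ξ)|) * ν ^ 2) :
    (c0 / ((n : ℝ) + 1) ^ Fintype.card (Emb K) * ((∏ σ, u σ) / ν ^ 2)) ^
      (((2 * Fintype.card (Emb K) : ℕ) : ℝ)⁻¹) ≤ ‖fun p : Co K n => √(u p.1) * Φ ξ p‖ := by
  set t := ‖fun p : Co K n => √(u p.1) * Φ ξ p‖ with ht
  have ht0 : 0 ≤ t := norm_nonneg _
  have hU : 0 < ∏ σ, u σ := Finset.prod_pos fun σ _ => hu σ
  have h1 : ∀ σ : Emb K, |σ (bil B ξ ξ)| ≤ (n + 1) * t ^ 2 / u σ := fun σ => by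
    have hs : 0 < √(u σ) := Real.sqrt_pos.2 (hu σ)
    have h2 : ∀ i, |Φ ξ (σ, i)| ≤ t / √(u σ) := fun i => by
      have := norm_le_pi_norm (fun p : Co K n => √(u p.1) * Φ ξ p) (σ, i)
      rw [Real.norm_eq_abs, abs_mul, abs_of_pos hs] at this
      rwa [le_div_iff₀' hs]
    refine (hΦ.abs_le σ ξ ξ h2 h2).trans (le_of_eq ?_)
    rw [div_mul_div_comm, Real.mul_self_sqrt (hu σ).le]
    ring
  have h3 := Finset.prod_le_prod (s := Finset.univ) (fun σ _ => abs_nonneg _) fun σ _ => h1 σ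
  rw [Finset.prod_div_distrib, Finset.prod_const, Finset.card_univ, mul_pow, ← pow_mul] at h3
  have h4 := (h (hΦ.aniso hd hB h0)).trans (mul_le_mul_of_nonneg_right h3 (sq_nonneg ν))
  have hm : 2 * Fintype.card (Emb K) ≠ 0 := by rw [card_emb]; omega
  rw [← Real.pow_rpow_inv_natCast ht0 hm]
  refine Real.rpow_le_rpow (by positivity) ?_ (by positivity)
  rw [div_mul_div_comm, div_le_iff₀ (by positivity)]
  rw [div_mul_eq_mul_div, le_div_iff₀ hU] at h4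
  linarith only [h4]

theorem err_bound (hd : 1 < finrank ℚ K) (σ0 : Emb K) (hM : Good B M) :
    ∃ C : ℝ, 0 ≤ C ∧ ∀ Φ : (Fin (n + 1) → K) →+ Co K n → ℝ, Frame σ0 B Φ →
      ∀ y : Emb K → ℝ, (∀ σ, 0 < y σ) → ∀ (x : Emb K → ℝ) (c : 𝓞 K) (a : K), Appr y x c a →
        ‖theta σ0 Φ M y x - psi σ0 n y (x - emb (a / c)) * (gau B M (a / c) 0 / (covB B M : ℂ))‖ ≤
          C * (∏ σ, y σ) ^ (-(((n : ℝ) + 1) / 4)) := by
  obtain ⟨c0, hc0, hlow⟩ := exists_norm_lower hM.toInteg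
  set d := Fintype.card (Emb K) with hdd
  have hm : ((2 * d : ℕ) : ℝ) ≠ 0 := by
    rw [hdd, card_emb]; exact Nat.cast_ne_zero.2 (by omega)
  set c1 := c0 / ((n : ℝ) + 1) ^ d with hc1
  have hc1' : 0 < c1 := by positivity
  set q : ℝ := ((n : ℝ) + 1) / 4 with hq
  obtain ⟨C, hC, hp⟩ := pack_gauss (Co K n) (μ0 := (c1 * (1 / 8) ^ d) ^ (((2 * d : ℕ) : ℝ)⁻¹))
    (p := (2 * d : ℕ) * q) (by positivity) (by positivity)
  refine ⟨C * c1 ^ (-q), by positivity, fun Φ hΦ y hy x c a ⟨hc, ha, happ⟩ => ?_⟩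
  have hcK : (c : K) ≠ 0 := fun h => hc (by exact_mod_cast h)
  set κ := a / c with hκ
  set x' := x - emb κ with hx'
  set ν := nm (den κ) with hν
  have hν1 : 0 < ν := zero_lt_one.trans_le (one_le_nm (den_ne_bot κ))
  have hcov := covB_pos hM.det hM.lat
  let u : Emb K → ℝ := fun σ => y σ / (y σ ^ 2 + x' σ ^ 2)
  have hw : ∀ σ, 0 < y σ ^ 2 + x' σ ^ 2 := fun σ => by have := hy σ; positivity
  have hu : ∀ σ, 0 < u σ := fun σ => div_pos (hy σ) (hw σ)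
  set ρ := (∏ σ, u σ) / ν ^ 2 with hρ
  have hρ1 : (1 / 8) ^ d ≤ ρ := by
    have h1 : ν ≤ ∏ σ : Emb K, |σ c| :=
      nm_le_of_mem (mem_den.2 (by rwa [hκ, mul_div_cancel₀ _ hcK])) hc
    have h2 : ∏ σ : Emb K, (|σ c| ^ 2 / 8) ≤ ∏ σ, u σ :=
      Finset.prod_le_prod (fun σ _ => by positivity) fun σ _ => by
        have := RErr_u (hy σ) ((_root_.map_ne_zero σ).2 hcK) (happ σ).1 (happ σ).2
        rwa [← map_div₀] at this
    rw [Finset.prod_div_distrib, Finset.prod_pow, Finset.prod_const, Finset.card_univ] at h2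
    rw [hρ, le_div_iff₀ (by positivity), one_div, inv_pow, ← div_eq_inv_mul]
    exact le_trans (by gcongr) h2
  have hρ0 : 0 < ρ := lt_of_lt_of_le (by positivity) hρ1
  let z : dualA (trB B) (den κ • M).toAddSubgroup → Co K n → ℝ := fun ξ p => √(u p.1) * Φ ξ p
  have hz : ∀ ξ, ξ ≠ 0 → (c1 * ρ) ^ (((2 * d : ℕ) : ℝ)⁻¹) ≤ ‖z ξ‖ := fun ξ h0 =>
    RErr_short hd hM.det hΦ hu hν1 hc0.le (fun h => h0 (Subtype.ext h))
      (hlow _ (den_ne_bot κ) ξ ξ.2)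
  have key := RErr_tail (fun ξ : dualA (trB B) (den κ • M).toAddSubgroup =>
      gs (fun p => (bb σ0 y x' p)⁻¹) (Φ ξ) * gau B M κ ξ)
    (fun ξ => Real.exp (-(Real.pi * ∑ p, z ξ p ^ 2)))
    (A := covB B M * ν ^ (-(((n : ℝ) + 1) / 2))) (by positivity) (fun ξ => by
      rw [norm_mul, norm_gs, mul_comm]
      refine mul_le_mul ((div_le_iff₀' hcov).1 (gau_div_le' hM κ ξ.2)) (le_of_eq ?_)
        (by positivity) (by positivity)
      simp only [z, mul_pow, Real.sq_sqrt (hu _).le, bb_inv_re, u])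
    fun t ht => hp _ (by gcongr) _ t z (fun ξ _ η _ h => by
      refine (hz (ξ - η) (sub_ne_zero.2 h)).trans (le_of_eq (congrArg _ ?_))
      funext p
      simp [z, mul_sub]) fun ξ h => hz ξ (ht ξ h)
  have e0 : gs (fun p => (bb σ0 y x' p)⁻¹) (Φ (0 : dualA (trB B) (den κ • M).toAddSubgroup)) *
      gau B M κ (0 : dualA (trB B) (den κ • M).toAddSubgroup) = gau B M κ 0 := by
    simp [gs]
  rw [e0] at key
  rw [theta_cusp hM hΦ hy x κ, mul_div_assoc', mul_div_right_comm, ← mul_sub, norm_mul, norm_div,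
    norm_psi σ0 hy, Complex.norm_real, Real.norm_of_nonneg hcov.le]
  have hW : 0 < ∏ σ, (y σ ^ 2 + x' σ ^ 2) := Finset.prod_pos fun σ _ => hw σ
  have e1 : apsi n y x' = (∏ σ, (y σ ^ 2 + x' σ ^ 2)) ^ (-q) :=
    Real.finsetProd_rpow _ _ (fun σ _ => (hw σ).le) _
  have e2 : ν ^ (-(((n : ℝ) + 1) / 2)) = (ν ^ 2) ^ (-q) := by
    rw [← Real.rpow_natCast, ← Real.rpow_mul hν1.le]
    congr 1
    rw [hq]; push_cast; ring
  have e3 : ((c1 * ρ) ^ (((2 * d : ℕ) : ℝ)⁻¹)) ^ (-((2 * d : ℕ) * q)) = c1 ^ (-q) * ρ ^ (-q) := by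
    rw [← Real.rpow_mul (by positivity), ← Real.mul_rpow hc1'.le hρ0.le, mul_neg,
      inv_mul_cancel_left₀ hm]
  have e4 : ∏ σ, y σ = (∏ σ, (y σ ^ 2 + x' σ ^ 2)) * ν ^ 2 * ρ := by
    rw [hρ, Finset.prod_div_distrib]
    field_simp
  refine (mul_le_mul_of_nonneg_left key (by rw [e1]; positivity)).trans (le_of_eq ?_)
  rw [e1, e2, e3, e4, Real.mul_rpow (by positivity) hρ0.le, Real.mul_rpow hW.le (by positivity)]
  field_simp

end Pool.Agent.Work.MP_c8d35c_al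
end

-- merged part: Pool.Agent.Work.MP_c8d35c_al.ROther
section
/-! The contribution of the other cusps. -/

namespace Pool.Agent.Work.MP_c8d35c_al

set_option linter.unusedSectionVars false

open NumberField Module

section
variable {K : Type} [Field K] [NumberField K] [IsTotallyReal K]

theorem rother_card_pos : 0 < Fintype.card (Emb K) := by
  have := remb_nonempty (K := K)
  exact Fintype.card_pos

theorem rother_prod_le {f : Emb K → ℝ} {t : ℝ} (h0 : ∀ σ, 0 ≤ f σ) (h : ∀ σ, f σ ≤ t) :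
    ∏ σ, f σ ≤ t ^ Fintype.card (Emb K) := by
  rw [← Finset.card_univ, ← Finset.prod_const]
  exact Finset.prod_le_prod (fun σ _ => h0 σ) fun σ _ => h σ

/-- A short vector attached to the cusp `κ`. -/
theorem rother_point {y : Emb K → ℝ} (hy : ∀ σ, 0 < y σ) (x : Emb K → ℝ) (κ : K) :
    ∃ c : 𝓞 K, c ∈ den κ ∧ c ≠ 0 ∧ ∃ r : ℝ, 0 < r ∧
      r ^ (2 * Fintype.card (Emb K)) * ∏ σ, y σ =
        4 * dsc K * (nm (den κ) ^ 2 * ∏ σ : Emb K, (y σ ^ 2 + (x σ - σ κ) ^ 2)) ∧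
      ∀ σ : Emb K, |σ c| * √(y σ) ≤ r ∧ |σ c * x σ - σ ((c : K) * κ)| / √(y σ) ≤ r := by
  have hq : ∀ σ : Emb K, 0 < y σ ^ 2 + (x σ - σ κ) ^ 2 := fun σ => by
    have := hy σ
    positivity
  have hY : 0 < ∏ σ, y σ := Finset.prod_pos fun σ _ => hy σ
  have hQ : 0 < ∏ σ : Emb K, (y σ ^ 2 + (x σ - σ κ) ^ 2) := Finset.prod_pos fun σ _ => hq σ
  have hd : 0 < dsc K := one_pos.trans_le one_le_dsc
  have hN : 0 < nm (den κ) := one_pos.trans_le (one_le_nm (den_ne_bot κ))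
  have hD : 2 * Fintype.card (Emb K) ≠ 0 := by
    have := rother_card_pos (K := K)
    omega
  obtain ⟨r, hr0, hr⟩ : ∃ r : ℝ, 0 < r ∧ r ^ (2 * Fintype.card (Emb K)) * ∏ σ, y σ =
      4 * dsc K * (nm (den κ) ^ 2 * ∏ σ : Emb K, (y σ ^ 2 + (x σ - σ κ) ^ 2)) := by
    have hA : 0 < 4 * dsc K * (nm (den κ) ^ 2 * ∏ σ : Emb K, (y σ ^ 2 + (x σ - σ κ) ^ 2)) /
        ∏ σ, y σ := by positivity
    refine ⟨_, Real.rpow_pos_of_pos hA (((2 * Fintype.card (Emb K) : ℕ) : ℝ)⁻¹), ?_⟩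
    rw [Real.rpow_inv_natCast_pow hA.le hD, div_mul_cancel₀ _ hY.ne']
  have ht : ∀ σ : Emb K, 0 < r * √(y σ / (y σ ^ 2 + (x σ - σ κ) ^ 2)) := fun σ =>
    mul_pos hr0 (Real.sqrt_pos.2 (div_pos (hy σ) (hq σ)))
  obtain ⟨c, hc, hc0, hct⟩ := mink_ideal (den_ne_bot κ)
    (t := fun σ => r * √(y σ / (y σ ^ 2 + (x σ - σ κ) ^ 2))) ht (by
      refine lt_of_pow_lt_pow_left₀ 2 (Finset.prod_nonneg fun σ _ => (ht σ).le) ?_
      have h1 : (∏ σ : Emb K, r * √(y σ / (y σ ^ 2 + (x σ - σ κ) ^ 2))) ^ 2 =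
          r ^ (2 * Fintype.card (Emb K)) * (∏ σ, y σ) /
            ∏ σ : Emb K, (y σ ^ 2 + (x σ - σ κ) ^ 2) := by
        rw [← Finset.prod_pow, mul_div_assoc, ← Finset.prod_div_distrib, pow_mul,
          ← Finset.card_univ, ← Finset.prod_const, ← Finset.prod_mul_distrib]
        refine Finset.prod_congr rfl fun σ _ => ?_
        rw [mul_pow, Real.sq_sqrt (div_pos (hy σ) (hq σ)).le]
      rw [h1, hr, mul_pow, Real.sq_sqrt hd.le, lt_div_iff₀ hQ]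
      have h2 : 0 < nm (den κ) ^ 2 * dsc K * ∏ σ : Emb K, (y σ ^ 2 + (x σ - σ κ) ^ 2) := by
        positivity
      nlinarith only [h2])
  refine ⟨c, hc, hc0, r, hr0, hr, fun σ => ?_⟩
  have h1 : |σ c| ^ 2 ≤ r ^ 2 * (y σ / (y σ ^ 2 + (x σ - σ κ) ^ 2)) := by
    have h := pow_le_pow_left₀ (abs_nonneg _) (hct σ).le 2
    rwa [mul_pow, Real.sq_sqrt (div_pos (hy σ) (hq σ)).le] at h
  rw [← mul_div_assoc, le_div_iff₀ (hq σ)] at h1
  have h2 := hy σ
  constructor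
  · refine le_of_sq_le_sq ?_ hr0.le
    rw [mul_pow, Real.sq_sqrt h2.le]
    refine le_of_mul_le_mul_right ?_ h2
    nlinarith only [h1, mul_nonneg (sq_nonneg |σ c|) (sq_nonneg (x σ - σ κ))]
  · refine le_of_sq_le_sq ?_ hr0.le
    rw [div_pow, Real.sq_sqrt h2.le, div_le_iff₀ h2, map_mul, ← mul_sub, abs_mul, mul_pow,
      sq_abs (x σ - σ κ)]
    nlinarith only [h1, mul_nonneg (sq_nonneg |σ c|) (sq_nonneg (y σ))]

/-- The point of `ℝ^(2D)` attached to a pair. -/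
noncomputable def rotherPt (y x : Emb K → ℝ) (c a : K) : Emb K ⊕ Emb K → ℝ :=
  Sum.elim (fun σ => σ c * √(y σ)) fun σ => (σ c * x σ - σ a) / √(y σ)

theorem rother_sub (y x : Emb K → ℝ) (c a c' a' : K) :
    rotherPt y x c a - rotherPt y x c' a' = rotherPt y x (c - c') (a - a') := by
  funext i
  rcases i with σ | σ
  · simp only [rotherPt, Pi.sub_apply, Sum.elim_inl, map_sub]
    ring
  · simp only [rotherPt, Pi.sub_apply, Sum.elim_inr, map_sub]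
    ring

theorem rother_inl (y x : Emb K → ℝ) (c a : K) (σ : Emb K) :
    |σ c| * √(y σ) ≤ ‖rotherPt y x c a‖ := by
  have h := norm_le_pi_norm (rotherPt y x c a) (Sum.inl σ)
  rwa [rotherPt, Sum.elim_inl, Real.norm_eq_abs, abs_mul, abs_of_nonneg (Real.sqrt_nonneg _)] at h

theorem rother_inr (y x : Emb K → ℝ) (c a : K) (σ : Emb K) :
    |σ c * x σ - σ a| / √(y σ) ≤ ‖rotherPt y x c a‖ := by
  have h := norm_le_pi_norm (rotherPt y x c a) (Sum.inr σ)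
  rwa [rotherPt, Sum.elim_inr, Real.norm_eq_abs, abs_div, abs_of_nonneg (Real.sqrt_nonneg _)] at h

theorem rother_norm_le (y x : Emb K → ℝ) (c a : K) {r : ℝ} (hr : 0 ≤ r)
    (h : ∀ σ : Emb K, |σ c| * √(y σ) ≤ r ∧ |σ c * x σ - σ a| / √(y σ) ≤ r) :
    ‖rotherPt y x c a‖ ≤ r := by
  refine (pi_norm_le_iff_of_nonneg hr).2 fun i => ?_
  rcases i with σ | σ
  · rw [rotherPt, Sum.elim_inl, Real.norm_eq_abs, abs_mul, abs_of_nonneg (Real.sqrt_nonneg _)]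
    exact (h σ).1
  · rw [rotherPt, Sum.elim_inr, Real.norm_eq_abs, abs_div, abs_of_nonneg (Real.sqrt_nonneg _)]
    exact (h σ).2

/-- Nonzero lattice points are not too short. -/
theorem rother_sep {y : Emb K → ℝ} (hy : ∀ σ, 0 < y σ) (hY : (∏ σ, y σ) * dsc K ≤ 1)
    (x : Emb K → ℝ) (c : 𝓞 K) {a : K} (ha : a ∈ Od K) (h : c ≠ 0 ∨ a ≠ 0) :
    ∏ σ, y σ ≤ ‖rotherPt y x c a‖ ^ (2 * Fintype.card (Emb K)) := by
  have hY0 : 0 < ∏ σ, y σ := Finset.prod_pos fun σ _ => hy σ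
  have hd : 0 < dsc K := one_pos.trans_le one_le_dsc
  rw [pow_mul]
  by_cases hc : c = 0
  · have ha0 : a ≠ 0 := h.resolve_left (not_not.2 hc)
    have h1 := one_le_prod_Od ha ha0
    have h2 : ∏ σ : Emb K, |σ a| ^ 2 / y σ ≤ (‖rotherPt y x c a‖ ^ 2) ^ Fintype.card (Emb K) := by
      refine rother_prod_le (fun σ => div_nonneg (sq_nonneg _) (hy σ).le) fun σ => ?_
      have h3 := pow_le_pow_left₀ (div_nonneg (abs_nonneg _) (Real.sqrt_nonneg _))
        (rother_inr y x c a σ) 2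
      rw [div_pow, Real.sq_sqrt (hy σ).le] at h3
      refine le_trans (le_of_eq ?_) h3
      rw [hc]
      simp
    refine le_trans ?_ h2
    rw [Finset.prod_div_distrib, Finset.prod_pow, le_div_iff₀ hY0]
    have h4 : ∏ σ, y σ ≤ ∏ σ : Emb K, |σ a| := le_of_mul_le_mul_right (hY.trans h1) hd
    rw [← sq]
    exact pow_le_pow_left₀ hY0.le h4 2
  · have h1 : 1 ≤ ∏ σ : Emb K, |σ c| := by
      rw [← nm_span]
      exact one_le_nm fun h0 => hc (Ideal.span_singleton_eq_bot.1 h0)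
    have h2 : ∏ σ : Emb K, |σ c| ^ 2 * y σ ≤ (‖rotherPt y x c a‖ ^ 2) ^ Fintype.card (Emb K) := by
      refine rother_prod_le (fun σ => mul_nonneg (sq_nonneg _) (hy σ).le) fun σ => ?_
      have h3 := pow_le_pow_left₀ (mul_nonneg (abs_nonneg _) (Real.sqrt_nonneg _))
        (rother_inl y x c a σ) 2
      rwa [mul_pow, Real.sq_sqrt (hy σ).le] at h3
    refine le_trans ?_ h2
    rw [Finset.prod_mul_distrib, Finset.prod_pow]
    exact le_mul_of_one_le_left hY0.le (one_le_pow₀ h1)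

/-- Points of other cusps stay away from the origin. -/
theorem rother_low {y : Emb K → ℝ} (hy : ∀ σ, 0 < y σ) {x : Emb K → ℝ} {c : 𝓞 K} {a : K}
    (h : Appr y x c a) {κ : K} (hκ : κ ≠ a / c) {c' : 𝓞 K} (hc' : c' ∈ den κ) (h0 : c' ≠ 0) :
    1 ≤ 4 * dsc K * ‖rotherPt y x c' ((c' : K) * κ)‖ := by
  obtain ⟨hc, ha, hb⟩ := h
  have hc1 : (c : K) ≠ 0 := fun e => hc (by exact_mod_cast e)
  have hc2 : (c' : K) ≠ 0 := fun e => h0 (by exact_mod_cast e)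
  have hw : (c : K) * ((c' : K) * κ) - (c' : K) * a ∈ Od K :=
    (Od K).sub_mem (mul_mem_Od c (mem_den.1 hc')) (mul_mem_Od c' ha)
  have hw0 : (c : K) * ((c' : K) * κ) - (c' : K) * a ≠ 0 := fun e => by
    apply hκ
    rw [eq_div_iff hc1]
    apply mul_left_cancel₀ hc2
    linear_combination e
  have h1 := one_le_prod_Od hw hw0
  set t := ‖rotherPt y x c' ((c' : K) * κ)‖ with ht
  have ht0 : 0 ≤ t := norm_nonneg _
  have h2 : ∏ σ : Emb K, |σ ((c : K) * ((c' : K) * κ) - (c' : K) * a)| ≤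
      (4 * t) ^ Fintype.card (Emb K) := by
    refine rother_prod_le (fun σ => abs_nonneg _) fun σ => ?_
    have hs : 0 < √(y σ) := Real.sqrt_pos.2 (hy σ)
    have e : σ ((c : K) * ((c' : K) * κ) - (c' : K) * a) =
        σ c' * (σ c * x σ - σ a) - σ c * (σ c' * x σ - σ ((c' : K) * κ)) := by
      simp only [map_sub, map_mul]
      ring
    have h3 : |σ c'| * √(y σ) ≤ t := rother_inl y x c' _ σ
    have h4 : |σ c' * x σ - σ ((c' : K) * κ)| / √(y σ) ≤ t := rother_inr y x c' _ σ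
    have h5 : |σ c'| * |σ c * x σ - σ a| ≤ 2 * t := by
      calc _ ≤ |σ c'| * (2 * √(y σ)) := mul_le_mul_of_nonneg_left (hb σ).2 (abs_nonneg _)
        _ = 2 * (|σ c'| * √(y σ)) := by ring
        _ ≤ 2 * t := by linarith
    have h6 : |σ c| * |σ c' * x σ - σ ((c' : K) * κ)| ≤ 2 * t := by
      calc _ ≤ 2 / √(y σ) * |σ c' * x σ - σ ((c' : K) * κ)| :=
            mul_le_mul_of_nonneg_right (hb σ).1 (abs_nonneg _)
        _ = 2 * (|σ c' * x σ - σ ((c' : K) * κ)| / √(y σ)) := by ring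
        _ ≤ 2 * t := by linarith only [h4]
    rw [e]
    refine (abs_sub _ _).trans ?_
    rw [abs_mul, abs_mul]
    linarith
  have hd : 1 ≤ dsc K := one_le_dsc
  by_contra hlt
  rw [not_le] at hlt
  have h7 : 4 * t ≤ 1 := by nlinarith only [hlt, ht0, hd]
  have h8 : (4 * t) ^ Fintype.card (Emb K) ≤ 4 * t :=
    pow_le_of_le_one (by linarith) h7 (rother_card_pos (K := K)).ne'
  have h9 := mul_le_mul_of_nonneg_right (h2.trans h8) (zero_le_one.trans hd)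
  nlinarith only [h1, hlt, h9]

/-- The size of one term. -/
theorem rother_term {n : ℕ} {y : Emb K → ℝ} (hy : ∀ σ, 0 < y σ) (x : Emb K → ℝ) (κ : K) {r t : ℝ}
    (hr0 : 0 < r) (hr : r ^ (2 * Fintype.card (Emb K)) * ∏ σ, y σ =
        4 * dsc K * (nm (den κ) ^ 2 * ∏ σ : Emb K, (y σ ^ 2 + (x σ - σ κ) ^ 2)))
    (ht0 : 0 ≤ t) (htr : t ≤ r) (ht : 1 ≤ 4 * dsc K * t) :
    nm (den κ) ^ (-(((n : ℝ) + 1) / 2)) * apsi n y (x - emb κ) ≤
      ((4 * dsc K) ^ (((n : ℝ) + 1) / 4) *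
          (1 + 4 * dsc K) ^ ((2 * Fintype.card (Emb K) : ℕ) * (((n : ℝ) + 1) / 4)) *
          (∏ σ, y σ) ^ (-(((n : ℝ) + 1) / 4))) *
        (1 + t) ^ (-((2 * Fintype.card (Emb K) : ℕ) * (((n : ℝ) + 1) / 4))) := by
  have hq : ∀ σ : Emb K, 0 < y σ ^ 2 + (x σ - σ κ) ^ 2 := fun σ => by
    have := hy σ
    positivity
  have hY : 0 < ∏ σ, y σ := Finset.prod_pos fun σ _ => hy σ
  have hQ : 0 < ∏ σ : Emb K, (y σ ^ 2 + (x σ - σ κ) ^ 2) := Finset.prod_pos fun σ _ => hq σ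
  have hd : 0 < dsc K := one_pos.trans_le one_le_dsc
  have hN : 0 < nm (den κ) := one_pos.trans_le (one_le_nm (den_ne_bot κ))
  set e : ℝ := ((n : ℝ) + 1) / 4 with he
  have he0 : 0 ≤ e := by positivity
  set m : ℕ := 2 * Fintype.card (Emb K) with hm
  have h1 : nm (den κ) ^ (-(((n : ℝ) + 1) / 2)) * apsi n y (x - emb κ) =
      (nm (den κ) ^ 2 * ∏ σ : Emb K, (y σ ^ 2 + (x σ - σ κ) ^ 2)) ^ (-e) := by
    rw [Real.mul_rpow (sq_nonneg _) hQ.le, ← Real.finsetProd_rpow _ _ fun σ _ => (hq σ).le,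
      ← Real.rpow_natCast, ← Real.rpow_mul hN.le]
    congr 2
    rw [he]
    push_cast
    ring
  have h2 : nm (den κ) ^ 2 * ∏ σ : Emb K, (y σ ^ 2 + (x σ - σ κ) ^ 2) =
      r ^ m * (∏ σ, y σ) / (4 * dsc K) := by
    rw [hr]
    field_simp
  have h3 : (r ^ m * (∏ σ, y σ) / (4 * dsc K)) ^ (-e) =
      (4 * dsc K) ^ e * (∏ σ, y σ) ^ (-e) * r ^ (-(m * e)) := by
    rw [Real.div_rpow (by positivity) (by positivity), Real.mul_rpow (by positivity) hY.le,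
      ← Real.rpow_natCast, ← Real.rpow_mul hr0.le, Real.rpow_neg (x := 4 * dsc K) (by positivity),
      div_inv_eq_mul, mul_neg]
    ring
  have h4 : r ^ (-(m * e)) ≤ (1 + 4 * dsc K) ^ (m * e) * (1 + t) ^ (-(m * e)) := by
    have h5 : (1 + t) / (1 + 4 * dsc K) ≤ r := by
      rw [div_le_iff₀ (by positivity)]
      nlinarith only [htr, ht, hd]
    have h6 := Real.rpow_le_rpow_of_nonpos (by positivity) h5
      (neg_nonpos.2 (mul_nonneg (Nat.cast_nonneg m) he0))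
    refine h6.trans (le_of_eq ?_)
    rw [Real.div_rpow (by positivity) (by positivity),
      Real.rpow_neg (x := 1 + 4 * dsc K) (by positivity), div_inv_eq_mul, mul_comm]
  rw [h1, h2, h3]
  calc _ ≤ (4 * dsc K) ^ e * (∏ σ, y σ) ^ (-e) *
        ((1 + 4 * dsc K) ^ (m * e) * (1 + t) ^ (-(m * e))) :=
        mul_le_mul_of_nonneg_left h4 (by positivity)
    _ = _ := by ring

end

theorem other_bound (K : Type) [Field K] [NumberField K] [IsTotallyReal K] {n : ℕ} (hn : 4 ≤ n) :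
    ∃ C : ℝ, 0 ≤ C ∧ ∀ y : Emb K → ℝ, (∀ σ, 0 < y σ) → (∏ σ, y σ) * dsc K ≤ 1 →
      ∀ (x : Emb K → ℝ) (c : 𝓞 K) (a : K), Appr y x c a → ∀ T : Finset K, a / c ∉ T →
        ∑ κ ∈ T, nm (den κ) ^ (-(((n : ℝ) + 1) / 2)) * apsi n y (x - emb κ) ≤
          C * (∏ σ, y σ) ^ (-(((n : ℝ) + 1) / 4) - 1) := by
  have hD := rother_card_pos (K := K)
  have hd : 1 ≤ dsc K := one_le_dsc
  have hcard : Fintype.card (Emb K ⊕ Emb K) = 2 * Fintype.card (Emb K) := by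
    rw [Fintype.card_sum, two_mul]
  have hm0 : 2 * Fintype.card (Emb K) ≠ 0 := by omega
  obtain ⟨C, hC, hP⟩ := pack (Emb K ⊕ Emb K)
    (s := (2 * Fintype.card (Emb K) : ℕ) * (((n : ℝ) + 1) / 4)) (by
      rw [hcard]
      have h1 : (0 : ℝ) < (2 * Fintype.card (Emb K) : ℕ) := Nat.cast_pos.2 (Nat.pos_of_ne_zero hm0)
      have h2 : (4 : ℝ) ≤ n := by exact_mod_cast hn
      exact lt_mul_of_one_lt_right h1 (by linarith only [h2]))
  refine ⟨(4 * dsc K) ^ (((n : ℝ) + 1) / 4) *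
    (1 + 4 * dsc K) ^ ((2 * Fintype.card (Emb K) : ℕ) * (((n : ℝ) + 1) / 4)) * C,
    by positivity, fun y hy hY x c a hA T hT => ?_⟩
  have hY0 : 0 < ∏ σ, y σ := Finset.prod_pos fun σ _ => hy σ
  have hY1 : ∏ σ, y σ ≤ 1 := by nlinarith only [hY, hd, hY0]
  choose c' hc' hc0 r hr0 hr hb using rother_point hy x
  obtain ⟨μ, hμ0, hμ⟩ : ∃ μ : ℝ, 0 < μ ∧ μ ^ (2 * Fintype.card (Emb K)) = ∏ σ, y σ :=
    ⟨_, Real.rpow_pos_of_pos hY0 (((2 * Fintype.card (Emb K) : ℕ) : ℝ)⁻¹),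
      Real.rpow_inv_natCast_pow hY0.le hm0⟩
  have hμ1 : μ ≤ 1 := by
    rwa [← hμ, pow_le_one_iff_of_nonneg hμ0.le hm0] at hY1
  have h1 := hP μ hμ0 hμ1 K T (fun κ => rotherPt y x (c' κ) ((c' κ : K) * κ)) (by
    intro κ _ κ' _ hne
    refine le_of_pow_le_pow_left₀ hm0 (norm_nonneg _) ?_
    rw [hμ, rother_sub]
    have h2 := rother_sep hy hY x (c' κ - c' κ')
      ((Od K).sub_mem (mem_den.1 (hc' κ)) (mem_den.1 (hc' κ'))) (by
        by_contra h3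
        rw [not_or, not_not, not_not, sub_eq_zero, sub_eq_zero] at h3
        apply hne
        have h4 : (c' κ' : K) ≠ 0 := fun e => hc0 κ' (by exact_mod_cast e)
        apply mul_left_cancel₀ h4
        rw [← h3.2, h3.1])
    simpa using h2)
  rw [hcard, Real.rpow_neg hμ0.le, Real.rpow_natCast, hμ] at h1
  calc _ ≤ ∑ κ ∈ T, ((4 * dsc K) ^ (((n : ℝ) + 1) / 4) *
          (1 + 4 * dsc K) ^ ((2 * Fintype.card (Emb K) : ℕ) * (((n : ℝ) + 1) / 4)) *
          (∏ σ, y σ) ^ (-(((n : ℝ) + 1) / 4))) *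
        (1 + ‖rotherPt y x (c' κ) ((c' κ : K) * κ)‖) ^
          (-((2 * Fintype.card (Emb K) : ℕ) * (((n : ℝ) + 1) / 4))) := by
        refine Finset.sum_le_sum fun κ hκ => ?_
        exact rother_term hy x κ (hr0 κ) (hr κ) (norm_nonneg _)
          (rother_norm_le y x _ _ (hr0 κ).le (hb κ))
          (rother_low hy hA (fun e => hT (e ▸ hκ)) (hc' κ) (hc0 κ))
    _ ≤ ((4 * dsc K) ^ (((n : ℝ) + 1) / 4) *
          (1 + 4 * dsc K) ^ ((2 * Fintype.card (Emb K) : ℕ) * (((n : ℝ) + 1) / 4)) *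
          (∏ σ, y σ) ^ (-(((n : ℝ) + 1) / 4))) * (C * (∏ σ, y σ)⁻¹) := by
        rw [← Finset.mul_sum]
        exact mul_le_mul_of_nonneg_left h1 (by positivity)
    _ = _ := by
        rw [Real.rpow_sub hY0, Real.rpow_one]
        ring

end Pool.Agent.Work.MP_c8d35c_al
end

-- merged part: Pool.Agent.Work.MP_c8d35c_al.RCM
section
/-! The circle method: an upper bound for the weighted number of roots of an even lattice. -/

namespace Pool.Agent.Work.MP_c8d35c_al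

open NumberField Module Matrix Real

variable {K : Type} [Field K] [NumberField K] [IsTotallyReal K] {n : ℕ}
  {B : Matrix (Fin (n + 1)) (Fin (n + 1)) K} {M : OSub K (n + 1)}

/-- A series whose finite sums away from one index are bounded in norm. -/
theorem rcm_tail {ι : Type} (f : ι → ℂ) (k : ι) {C : ℝ}
    (h : ∀ T : Finset ι, k ∉ T → ∑ i ∈ T, ‖f i‖ ≤ C) : ‖∑' i, f i - f k‖ ≤ C := by
  classical
  set g : ι → ℝ := fun i => if i = k then 0 else ‖f i‖ with hg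
  have hg0 : ∀ i, 0 ≤ g i := fun i => by
    simp only [hg]
    split_ifs
    · exact le_rfl
    · exact norm_nonneg _
  have hgs : ∀ T : Finset ι, ∑ i ∈ T, g i ≤ C := fun T => by
    have e : ∑ i ∈ T, g i = ∑ i ∈ T.erase k, ‖f i‖ := by
      rw [← Finset.sum_erase T (a := k) (by simp [hg])]
      exact Finset.sum_congr rfl fun i hi => by simp [hg, Finset.ne_of_mem_erase hi]
    rw [e]
    exact h _ (Finset.notMem_erase k T)
  have hsum : Summable g := summable_of_sum_le hg0 hgs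
  have hn : ∀ i, ‖(if i = k then 0 else f i : ℂ)‖ ≤ g i := fun i => by
    simp only [hg]
    split_ifs <;> simp
  have hs2 : Summable fun i => (if i = k then 0 else f i : ℂ) := Summable.of_norm_bounded hsum hn
  have hs : Summable f := by
    have : f = fun i => (if i = k then f k else 0) + (if i = k then 0 else f i) := by
      funext i
      split_ifs with hi
      · simp [hi]
      · simp
    rw [this]
    exact (hasSum_ite_eq k (f k)).summable.add hs2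
  rw [hs.tsum_eq_add_tsum_ite k, add_sub_cancel_left]
  exact (tsum_of_norm_bounded hsum.hasSum hn).trans (hsum.tsum_le_of_sum_le hgs)

/-- Pointwise approximation of the theta function by the sum over all cusps. -/
theorem theta_approx (hd : 1 < finrank ℚ K) (hn : 4 ≤ n) (σ0 : Emb K) (hM : Good B M) :
    ∃ C y0 : ℝ, 0 ≤ C ∧ 0 < y0 ∧ ∀ Φ : (Fin (n + 1) → K) →+ Co K n → ℝ, Frame σ0 B Φ →
      ∀ y : Emb K → ℝ, (∀ σ, 0 < y σ) → ∏ σ, y σ ≤ y0 → ∀ x : Emb K → ℝ,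
        ‖theta σ0 Φ M y x -
            ∑' κ : K, gau B M κ 0 / (covB B M : ℂ) * psi σ0 n y (x - emb κ)‖ ≤
          C * (∏ σ, y σ) ^ (-(((n : ℝ) + 1) / 4) - 1) := by
  obtain ⟨C1, hC1, h1⟩ := err_bound hd σ0 hM
  obtain ⟨C2, hC2, h2⟩ := other_bound K hn
  have hD : 1 ≤ dsc K := one_le_dsc
  have h4 : (1 : ℝ) ≤ 4 ^ finrank ℚ K := one_le_pow₀ (by norm_num)
  have hc := covB_pos hM.det hM.lat
  refine ⟨C1 + C2, 1 / (4 ^ finrank ℚ K * dsc K ^ 2), add_nonneg hC1 hC2, by positivity,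
    fun Φ hΦ y hy hy0 x => ?_⟩
  have hP : 0 < ∏ σ, y σ := Finset.prod_pos fun σ _ => hy σ
  rw [le_div_iff₀ (by positivity)] at hy0
  have hA : 4 ^ finrank ℚ K * (∏ σ, y σ) * dsc K ^ 2 ≤ 1 := by linarith only [hy0]
  have hB : (∏ σ, y σ) * dsc K ≤ 1 := by
    refine le_trans (mul_le_mul_of_nonneg_left ?_ hP.le) hy0
    nlinarith only [hD, h4]
  have hP1 : ∏ σ, y σ ≤ 1 := le_trans (le_mul_of_one_le_right hP.le hD) hB
  obtain ⟨c, a, hca⟩ := dirichlet hy hA x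
  have e1 := h1 Φ hΦ y hy x c a hca
  have e2 := rcm_tail (fun κ : K => gau B M κ 0 / (covB B M : ℂ) * psi σ0 n y (x - emb κ)) (a / c)
    (C := C2 * (∏ σ, y σ) ^ (-(((n : ℝ) + 1) / 4) - 1)) fun T hT => by
      refine le_trans (Finset.sum_le_sum fun κ _ => ?_) (h2 y hy hB x c a hca T hT)
      rw [norm_mul, norm_div, norm_psi σ0 hy, Complex.norm_real, Real.norm_eq_abs, abs_of_pos hc]
      refine mul_le_mul_of_nonneg_right (gau_div_le' hM κ (AddSubgroup.zero_mem _)) ?_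
      rw [← norm_psi σ0 hy]
      exact norm_nonneg _
  have e3 : (∏ σ, y σ) ^ (-(((n : ℝ) + 1) / 4)) ≤ (∏ σ, y σ) ^ (-(((n : ℝ) + 1) / 4) - 1) :=
    Real.rpow_le_rpow_of_exponent_ge hP hP1 (by linarith only [])
  have e4 := norm_sub_le_norm_sub_add_norm_sub (theta σ0 Φ M y x)
    (gau B M (a / c) 0 / (covB B M : ℂ) * psi σ0 n y (x - emb (a / c)))
    (∑' κ : K, gau B M κ 0 / (covB B M : ℂ) * psi σ0 n y (x - emb κ))
  rw [mul_comm (psi σ0 n y _)] at e1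
  rw [norm_sub_rev] at e2
  have e5 := mul_le_mul_of_nonneg_left e3 hC1
  linarith only [e1, e2, e4, e5]

omit [IsTotallyReal K] in
/-- The weight of a root. -/
theorem rcm_weight {σ0 : Emb K} {Φ : (Fin (n + 1) → K) →+ Co K n → ℝ} (hΦ : Frame σ0 B Φ)
    (l : ℝ) {v : Fin (n + 1) → K} (hv : bil B v v = 2) :
    exp (-(π * ∑ p : Co K n, ht σ0 l p.1 * Φ v p ^ 2)) =
      exp (-(2 * π * ∑ σ, ht σ0 l σ)) * exp (-(l * (Φ v (σ0, 0) ^ 2 / 2))) := by
  classical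
  have h : ∀ σ : Emb K, ∑ i, ht σ0 l σ * Φ v (σ, i) ^ 2 =
      2 * ht σ0 l σ + if σ = σ0 then l / (4 * π) * (2 * Φ v (σ0, 0) ^ 2) else 0 := fun σ => by
    have e := hΦ σ v v
    rw [hv, map_ofNat] at e
    rw [← Finset.mul_sum]
    split_ifs with hσ
    · subst hσ
      rw [Fin.sum_univ_succ, sg_base] at e
      simp only [sg_succ, one_mul, ← sq] at e
      rw [Fin.sum_univ_succ, show ht σ l σ = l / (4 * π) by simp [ht]]
      have : ∑ i : Fin n, Φ v (σ, i.succ) ^ 2 = 2 + Φ v (σ, 0) ^ 2 := by linarith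
      rw [this]
      ring
    · simp only [sg_ne hσ, one_mul, ← sq] at e
      rw [e]
      ring
  rw [Fintype.sum_prod_type, Finset.sum_congr rfl fun σ _ => h σ, Finset.sum_add_distrib,
    ← Finset.mul_sum, Finset.sum_ite_eq' Finset.univ σ0, if_pos (Finset.mem_univ _), ← exp_add]
  congr 1
  field_simp
  ring

/-- The arithmetic factor is periodic. -/
theorem rcm_per (hM : Good B M) (κ a : K) (ha : a ∈ Od K) :
    gau B M (κ + a) 0 / (covB B M : ℂ) * ee (-∑ σ : Emb K, σ (κ + a)) =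
      gau B M κ 0 / (covB B M : ℂ) * ee (-∑ σ : Emb K, σ κ) := by
  obtain ⟨k, hk⟩ := mem_Od.1 ha 1
  have e : -∑ σ : Emb K, σ (κ + a) = -∑ σ : Emb K, σ κ + ((-k : ℤ) : ℝ) := by
    simp only [map_add, Finset.sum_add_distrib]
    rw [sum_emb a]
    have : Algebra.trace ℚ K a = k := by simpa using hk
    rw [this]
    push_cast
    ring
  rw [gau_add hM κ ha, e, ee_add, ee_int, mul_one]

/-- The weighted count of roots is bounded by an integral of the theta function. -/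
theorem rcm_coeff {σ0 : Emb K} (hM : Good B M) {Φ : (Fin (n + 1) → K) →+ Co K n → ℝ}
    (hΦ : Frame σ0 B Φ) {F : Set (Emb K → ℝ)} (hF : Fund F) {l : ℝ} (hl : 0 < l) :
    MeasureTheory.IntegrableOn (fun x => theta σ0 Φ M (ht σ0 l) x * ee (-∑ σ, x σ)) F ∧
      ∀ s : Finset (Fin (n + 1) → K), (∀ v ∈ s, v ∈ M ∧ bil B v v = 2) →
        exp (-(2 * π * ∑ σ, ht σ0 l σ)) * ∑ v ∈ s, exp (-(l * (Φ v (σ0, 0) ^ 2 / 2))) ≤
          √(dsc K) * ‖∫ x in F, theta σ0 Φ M (ht σ0 l) x * ee (-∑ σ, x σ)‖ := by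
  classical
  have : Countable M.toAddSubgroup := Full.countable hM.lat
  choose z hz using fun v : M.toAddSubgroup => hM.even v v.2
  set w : M.toAddSubgroup → ℝ := fun v =>
    exp (-(π * ∑ p : Co K n, ht σ0 l p.1 * Φ v p ^ 2)) with hw
  have hs : Summable w := by
    simpa only [zero_add] using summable_gauss (trB_nondeg hM.det) hΦ.real hM.lat
      (a := fun p : Co K n => ht σ0 l p.1) (fun p => ht_pos σ0 hl p.1) 0
  have key : (fun x => theta σ0 Φ M (ht σ0 l) x * ee (-∑ σ, x σ)) =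
      fun x => ∑' v, (w v : ℂ) * ee (∑ σ : Emb K, x σ * σ ((z v - 1 : 𝓞 K) : K)) := by
    funext x
    rw [theta, ← tsum_mul_right]
    refine tsum_congr fun v => ?_
    rw [hΦ.gs_bb, mul_assoc, ← ee_add]
    congr 2
    rw [← sub_eq_add_neg, ← Finset.sum_sub_distrib]
    refine Finset.sum_congr rfl fun σ _ => ?_
    rw [hz v, mul_div_cancel_left₀ _ (two_ne_zero)]
    push_cast
    rw [map_sub, map_one]
    ring
  obtain ⟨h1, h2⟩ := hF.coeff (fun v => (exp_pos _).le) hs fun v => z v - 1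
  rw [key]
  refine ⟨h1, fun s hs' => ?_⟩
  refine le_trans (le_of_eq ?_) (h2 (s.subtype fun v => v ∈ M.toAddSubgroup) fun v hv => ?_)
  · rw [Finset.mul_sum, Finset.sum_subtype_of_mem (p := fun v => v ∈ M.toAddSubgroup)
      (fun v => exp (-(π * ∑ p : Co K n, ht σ0 l p.1 * Φ v p ^ 2))) fun v hv => (hs' v hv).1]
    exact Finset.sum_congr rfl fun v hv => (rcm_weight hΦ l (hs' v hv).2).symm
  · have e := hz v
    rw [(hs' v (Finset.mem_subtype.1 hv)).2] at e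
    have e' : ((z v - 1 : 𝓞 K) : K) = 0 := by
      push_cast
      linear_combination (-1 / 2 : K) * e
    exact RingOfIntegers.coe_eq_zero_iff.1 e'

/-- The main term. -/
theorem rcm_main (hn : 11 ≤ n) (σ0 : Emb K) (hM : Good B M) {F : Set (Emb K → ℝ)} (hF : Fund F)
    {y : Emb K → ℝ} (hy : ∀ σ, 0 < y σ) :
    MeasureTheory.IntegrableOn (fun x => (∑' κ : K, gau B M κ 0 / (covB B M : ℂ) *
        psi σ0 n y (x - emb κ)) * ee (-∑ σ, x σ)) F ∧
      ‖∫ x in F, (∑' κ : K, gau B M κ 0 / (covB B M : ℂ) * psi σ0 n y (x - emb κ)) *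
        ee (-∑ σ, x σ)‖ ≤ dsc K ^ (-(((n : ℝ) + 1) / 2)) * sgs B M *
          ‖∫ x : Emb K → ℝ, psi σ0 n y x * ee (-∑ σ, x σ)‖ := by
  have hc := covB_pos hM.det hM.lat
  have key : (fun x : Emb K → ℝ => (∑' κ : K, gau B M κ 0 / (covB B M : ℂ) *
      psi σ0 n y (x - emb κ)) * ee (-∑ σ, x σ)) =
      fun x => ∑' κ : K, gau B M κ 0 / (covB B M : ℂ) * ee (-∑ σ : Emb K, σ κ) *
        (psi σ0 n y (x - emb κ) * ee (-∑ σ, (x - emb κ) σ)) := by
    funext x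
    rw [← tsum_mul_right]
    refine tsum_congr fun κ => ?_
    have e : -∑ σ, x σ = -∑ σ : Emb K, σ κ + -∑ σ, (x - emb κ) σ := by
      simp only [Pi.sub_apply, emb, Finset.sum_sub_distrib]
      ring
    rw [e, ee_add]
    ring
  rw [key]
  refine hF.unfold (G := fun κ => gau B M κ 0 / (covB B M : ℂ) * ee (-∑ σ : Emb K, σ κ))
    (h := fun x => psi σ0 n y x * ee (-∑ σ, x σ)) (fun κ a ha => rcm_per hM κ a ha)
    (fun s => le_trans (le_of_eq (Finset.sum_congr rfl fun q _ => ?_)) (sing_bound hn hM s))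
    (integrable_psi (by omega) σ0 hy)
  rw [norm_mul, norm_ee, mul_one, norm_div, Complex.norm_real, Real.norm_eq_abs, abs_of_pos hc]

/-- The error term is of lower order. -/
theorem rcm_small (hn : 11 ≤ n) {l : ℝ} (hl : 0 < l) (hl1 : l ≤ 1) :
    (l / (4 * π)) ^ (-(((n : ℝ) + 1) / 4) - 1) ≤
      (4 * π) ^ (((n : ℝ) + 1) / 4 + 1) * (l * l ^ (-(((n : ℝ) - 1) / 2))) := by
  have hn' : (11 : ℝ) ≤ n := by exact_mod_cast hn
  have h4 : 0 < 4 * π := by positivity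
  rw [Real.div_rpow hl.le h4.le, show -(((n : ℝ) + 1) / 4) - 1 = -(((n : ℝ) + 1) / 4 + 1) by ring,
    Real.rpow_neg h4.le, div_inv_eq_mul, mul_comm]
  refine mul_le_mul_of_nonneg_left ?_ (by positivity)
  rw [mul_comm, ← Real.rpow_add_one hl.ne']
  exact Real.rpow_le_rpow_of_exponent_ge hl hl1 (by linarith only [hn'])

theorem cm (hd : 1 < finrank ℚ K) (hn : 11 ≤ n) (σ0 : Emb K) (hM : Good B M) {Δ : ℝ}
    (hΔ : Gamma (((n : ℝ) - 1) / 2) * an n * bn n ^ (finrank ℚ K - 1) *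
      dsc K ^ (-((n : ℝ) / 2)) * sgs B M < Δ) :
    ∃ l0 : ℝ, 0 < l0 ∧ ∀ Φ : (Fin (n + 1) → K) →+ Co K n → ℝ, Frame σ0 B Φ →
      ∀ l : ℝ, 0 < l → l ≤ l0 → ∀ s : Finset (Fin (n + 1) → K),
        (∀ v ∈ s, v ∈ M ∧ bil B v v = 2) →
        ∑ v ∈ s, exp (-(l * (Φ v (σ0, 0) ^ 2 / 2))) ≤ Δ * l ^ (-(((n : ℝ) - 1) / 2)) := by
  obtain ⟨C, y0, hC, hy0, happ⟩ := theta_approx hd (by omega) σ0 hM
  obtain ⟨F, hF⟩ := exists_fund K
  have hD : 0 < dsc K := one_pos.trans_le one_le_dsc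
  have hr : 0 < √(dsc K) := Real.sqrt_pos.2 hD
  set A := Gamma (((n : ℝ) - 1) / 2) * an n * bn n ^ (finrank ℚ K - 1) with hA
  set S := dsc K ^ (-((n : ℝ) / 2)) * sgs B M with hS
  have hS0 : 0 ≤ S := mul_nonneg (Real.rpow_nonneg hD.le _) (sgs_nonneg B M)
  have hη : 0 < Δ - A * S := by rw [hS, ← mul_assoc]; linarith only [hΔ]
  set η := Δ - A * S with hη'
  obtain ⟨l1, hl1, hint⟩ := psi_integral_le (K := K) (n := n) (by omega) σ0
    (δ := η / (2 * (S + 1))) (by positivity)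
  rw [card_emb, ← hA] at hint
  set Q := C * (4 * π) ^ (((n : ℝ) + 1) / 4 + 1) *
    exp (2 * π * (1 + (Fintype.card (Emb K) - 1 : ℕ))) with hQ
  have hQ0 : 0 ≤ Q := by positivity
  refine ⟨min (min l1 1) (min (4 * π * y0) (η / (2 * (Q + 1)))), by positivity,
    fun Φ hΦ l hl hle s hs => ?_⟩
  simp only [le_min_iff] at hle
  obtain ⟨⟨hle1, hle2⟩, hle3, hle4⟩ := hle
  have hy := ht_pos σ0 hl
  obtain ⟨hi1, hco⟩ := rcm_coeff hM hΦ hF hl
  obtain ⟨hi2, hma⟩ := rcm_main hn σ0 hM hF hy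
  have hco' := hco s hs
  have hin := hint l hl hle1
  have hπ := Real.pi_gt_three
  have herr : ‖∫ x in F, (theta σ0 Φ M (ht σ0 l) x * ee (-∑ σ, x σ) -
      (∑' κ : K, gau B M κ 0 / (covB B M : ℂ) * psi σ0 n (ht σ0 l) (x - emb κ)) *
        ee (-∑ σ, x σ))‖ ≤ C * (l / (4 * π)) ^ (-(((n : ℝ) + 1) / 4) - 1) * (1 / √(dsc K)) := by
    have hv : MeasureTheory.volume.real F = 1 / √(dsc K) := by
      rw [MeasureTheory.measureReal_def, hF.vol, ENNReal.toReal_ofReal (by positivity)]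
    rw [← hv]
    refine MeasureTheory.norm_setIntegral_le_of_norm_le_const
      (by rw [hF.vol]; exact ENNReal.ofReal_lt_top) fun x _ => ?_
    rw [← sub_mul, norm_mul, norm_ee, mul_one, ← prod_ht σ0 l]
    refine happ Φ hΦ _ hy ?_ x
    rw [prod_ht, div_le_iff₀ (by positivity)]
    linarith only [hle3]
  rw [MeasureTheory.integral_sub hi1 hi2] at herr
  set I1 := ∫ x in F, theta σ0 Φ M (ht σ0 l) x * ee (-∑ σ, x σ)
  set I2 := ∫ x in F, (∑' κ : K, gau B M κ 0 / (covB B M : ℂ) *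
    psi σ0 n (ht σ0 l) (x - emb κ)) * ee (-∑ σ, x σ)
  set J := ‖∫ x : Emb K → ℝ, psi σ0 n (ht σ0 l) x * ee (-∑ σ, x σ)‖
  set E := exp (-(2 * π * ∑ σ, ht σ0 l σ)) with hE
  set L := l ^ (-(((n : ℝ) - 1) / 2)) with hL
  have hL0 : 0 < L := Real.rpow_pos_of_pos hl _
  have hE0 : 0 < E := exp_pos _
  have hE1 : 1 ≤ exp (2 * π * (1 + (Fintype.card (Emb K) - 1 : ℕ))) * E := by
    rw [hE, ← exp_add, RPsi_sum_ht]
    refine Real.one_le_exp ?_
    have : l / (4 * π) ≤ 1 := by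
      rw [div_le_one (by positivity)]
      linarith only [hle2, hπ]
    nlinarith only [hy0, hl, this, hle3]
  have hsq : √(dsc K) * (dsc K ^ (-(((n : ℝ) + 1) / 2)) * sgs B M) = S := by
    rw [hS, ← mul_assoc, Real.sqrt_eq_rpow, ← Real.rpow_add hD]
    congr 2
    ring
  have h1 : √(dsc K) * ‖I2‖ ≤ E * ((A * S + η / 2) * L) := by
    have a1 : √(dsc K) * ‖I2‖ ≤ S * J := by
      rw [← hsq, mul_assoc √(dsc K)]
      exact mul_le_mul_of_nonneg_left hma hr.le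
    have a2 : η / (2 * (S + 1)) * S ≤ η / 2 := by
      rw [div_mul_eq_mul_div, div_le_div_iff₀ (by positivity) (by positivity)]
      nlinarith only [hΔ]
    calc √(dsc K) * ‖I2‖ ≤ S * (E * (A + η / (2 * (S + 1))) * L) :=
          a1.trans (mul_le_mul_of_nonneg_left hin hS0)
      _ = E * ((A * S + η / (2 * (S + 1)) * S) * L) := by ring
      _ ≤ E * ((A * S + η / 2) * L) := by gcongr
  have h2 : √(dsc K) * ‖I1 - I2‖ ≤ E * (η / 2 * L) := by
    have a1 : Q * l ≤ η / 2 := by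
      rw [le_div_iff₀ (by positivity)] at hle4
      nlinarith only [hl, hle4]
    calc √(dsc K) * ‖I1 - I2‖
        ≤ √(dsc K) * (C * (l / (4 * π)) ^ (-(((n : ℝ) + 1) / 4) - 1) * (1 / √(dsc K))) :=
          mul_le_mul_of_nonneg_left herr hr.le
      _ = C * (l / (4 * π)) ^ (-(((n : ℝ) + 1) / 4) - 1) * 1 := by field_simp
      _ ≤ C * ((4 * π) ^ (((n : ℝ) + 1) / 4 + 1) * (l * L)) *
          (exp (2 * π * (1 + (Fintype.card (Emb K) - 1 : ℕ))) * E) :=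
          mul_le_mul (mul_le_mul_of_nonneg_left (rcm_small hn hl hle2) hC) hE1 zero_le_one
            (by positivity)
      _ = E * (Q * l * L) := by rw [hQ]; ring
      _ ≤ E * (η / 2 * L) := by gcongr
  have h3 : √(dsc K) * ‖I1‖ ≤ √(dsc K) * ‖I2‖ + √(dsc K) * ‖I1 - I2‖ := by
    rw [← mul_add]
    exact mul_le_mul_of_nonneg_left (norm_le_insert' I1 I2) hr.le
  refine le_of_mul_le_mul_left (hco'.trans (h3.trans ((add_le_add h1 h2).trans (le_of_eq ?_)))) hE0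
  rw [hη']
  ring

end Pool.Agent.Work.MP_c8d35c_al
end
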