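import Mathlib
import Pool.Agent.Work.MP_c8d35c_al.GTri
import Pool.Agent.Work.MP_c8d35c_al.RSing
import Pool.Agent.Work.MP_c8d35c_al.RCM

-- merged part: Pool.Agent.Work.MP_c8d35c_al.GLie
section
/-! One-parameter groups of matrices.

Plan. Work with `open scoped Matrix.Norms.Operator` inside the proofs (a complete normed
algebra whose topology is the product topology), or prove the statements first for a complete
normed algebra `𝔸` over `ℝ`. `lim_pow`: `‖a ^ m - b ^ m‖ ≤ m c ^ m ‖a - b‖` if `‖a‖, ‖b‖ ≤ c`,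
`1 ≤ c`; take `a = 1 + Z`, `b = exp Z`, `c = exp ‖Z‖`; `‖exp Z - 1 - Z‖ ≤ ε ‖Z‖` for small `Z`
(`hasFDerivAt_exp_zero`); `b ^ m = exp (m • Z)`. `trotter`: `f t = exp (t X) exp (t Y)` has
derivative `X + Y` at `0`. `one_param`: `a = ∫ s in 0..δ, f s` is invertible for small `δ`
(`δ⁻¹ • a` is close to `1`), `f t * a = ∫ s in t..t+δ, f s` is differentiable with derivative
`f t * (f δ - 1)`; so `f' t = f t * Y`, and `f t * exp (-t Y)` has derivative zero
(`is_const_of_deriv_eq_zero`, `hasDerivAt_exp_smul_const`). -/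

namespace Pool.Agent.Work.MP_c8d35c_al

open Matrix Filter Topology NormedSpace

section

variable {𝔸 : Type} [NormedRing 𝔸]

theorem GLie_pow [NormOneClass 𝔸] {a b : 𝔸} {c : ℝ} (ha : ‖a‖ ≤ c) (hb : ‖b‖ ≤ c) (hc : 1 ≤ c)
    (m : ℕ) : ‖a ^ m - b ^ m‖ ≤ c ^ m * (m * ‖a - b‖) := by
  induction m with
  | zero => simp
  | succ m ih =>
    have e : a ^ (m + 1) - b ^ (m + 1) = a ^ m * (a - b) + (a ^ m - b ^ m) * b := by
      simp only [pow_succ]
      noncomm_ring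
    have h0 : 0 ≤ c := zero_le_one.trans hc
    have h1 : ‖a ^ m‖ ≤ c ^ (m + 1) := ((norm_pow_le a m).trans
      (pow_le_pow_left₀ (norm_nonneg _) ha m)).trans (pow_le_pow_right₀ hc m.le_succ)
    have h2 := (norm_mul_le (a ^ m) (a - b)).trans (mul_le_mul_of_nonneg_right h1 (norm_nonneg _))
    have h3 := (norm_mul_le (a ^ m - b ^ m) b).trans
      (mul_le_mul ih hb (norm_nonneg _) (by positivity))
    rw [e]
    refine (norm_add_le _ _).trans ((add_le_add h2 h3).trans_eq ?_)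
    push_cast
    ring

variable [NormedAlgebra ℝ 𝔸] [NormedAlgebra ℚ 𝔸] [CompleteSpace 𝔸]

theorem GLie_lim [NormOneClass 𝔸] {Z : ℕ → 𝔸} {m : ℕ → ℕ} {T : 𝔸}
    (hZ : Tendsto Z atTop (𝓝 0)) (hT : Tendsto (fun k => (m k : ℝ) • Z k) atTop (𝓝 T)) :
    Tendsto (fun k => (1 + Z k) ^ m k) atTop (𝓝 (exp T)) := by
  have h1 : (fun k => 1 + Z k - exp (Z k)) =o[atTop] Z := by
    have := ((hasFDerivAt_exp_zero (𝕂 := ℝ) (𝔸 := 𝔸)).isLittleO.comp_tendsto hZ).neg_left
    refine this.congr (fun k => ?_) fun k => by simp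
    simp only [Function.comp, exp_zero, sub_zero, one_apply_eq_self]
    abel
  have h2 : Tendsto (fun k => (m k : ℝ) • (1 + Z k - exp (Z k))) atTop (𝓝 0) :=
    (Asymptotics.isLittleO_one_iff ℝ).1
      (((Asymptotics.isBigO_refl (fun k => (m k : ℝ)) atTop).smul_isLittleO h1).trans_isBigO
        (hT.isBigO_one ℝ))
  have h3 : Tendsto (fun k => Real.exp (2 * ‖(m k : ℝ) • Z k‖) *
      ‖(m k : ℝ) • (1 + Z k - exp (Z k))‖) atTop (𝓝 0) := by
    simpa using ((Real.continuous_exp.tendsto _).comp (hT.norm.const_mul 2)).mul h2.norm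
  have h4 : Tendsto (fun k => (1 + Z k) ^ m k - exp ((m k : ℝ) • Z k)) atTop (𝓝 0) := by
    refine squeeze_zero_norm' ?_ h3
    filter_upwards [h1.bound one_pos] with k hk
    have b1 : ‖1 + Z k‖ ≤ 1 + ‖Z k‖ := (norm_add_le _ _).trans_eq (by rw [norm_one])
    have b2 : ‖exp (Z k)‖ ≤ 1 + 2 * ‖Z k‖ := by
      have := norm_sub_norm_le (exp (Z k)) (1 + Z k)
      rw [norm_sub_rev] at this
      linarith
    have b3 := Real.add_one_le_exp (2 * ‖Z k‖)
    have b4 := norm_nonneg (Z k)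
    have := GLie_pow (a := 1 + Z k) (b := exp (Z k)) (c := Real.exp (2 * ‖Z k‖)) (by linarith)
      (by linarith) (by linarith) (m k)
    rw [Nat.cast_smul_eq_nsmul, NormedSpace.exp_nsmul, ← Nat.cast_smul_eq_nsmul ℝ, norm_smul, norm_smul,
      Real.norm_natCast, mul_left_comm 2, Real.exp_nat_mul]
    exact this
  simpa using h4.add ((exp_continuous.tendsto T).comp hT)

theorem GLie_trotter [NormOneClass 𝔸] (X Y : 𝔸) :
    Tendsto (fun k : ℕ => (exp (((k : ℝ) + 1)⁻¹ • X) * exp (((k : ℝ) + 1)⁻¹ • Y)) ^ (k + 1))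
      atTop (𝓝 (exp (X + Y))) := by
  have hd : HasDerivAt (fun t : ℝ => exp (t • X) * exp (t • Y)) (X + Y) 0 := by
    simpa using (hasDerivAt_exp_smul_const X (0 : ℝ)).fun_mul (hasDerivAt_exp_smul_const Y (0 : ℝ))
  have ht : Tendsto (fun k : ℕ => ((k : ℝ) + 1)⁻¹) atTop (𝓝 0) := by
    simpa using tendsto_one_div_add_atTop_nhds_zero_nat (𝕜 := ℝ)
  have ht' : Tendsto (fun k : ℕ => ((k : ℝ) + 1)⁻¹) atTop (𝓝[≠] 0) :=
    tendsto_nhdsWithin_iff.2 ⟨ht, .of_forall fun k => by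
      simp only [Set.mem_compl_iff, Set.mem_singleton_iff]
      positivity⟩
  have := GLie_lim (m := fun k => k + 1) (T := X + Y)
    (Z := fun k : ℕ => exp (((k : ℝ) + 1)⁻¹ • X) * exp (((k : ℝ) + 1)⁻¹ • Y) - 1)
    (by simpa using (hd.continuousAt.tendsto.comp ht).sub_const 1)
    (by simpa [Function.comp_def] using (hasDerivAt_iff_tendsto_slope_zero.1 hd).comp ht')
  simpa using this

theorem GLie_one {f : ℝ → 𝔸} (hc : Continuous f) (h0 : f 0 = 1)
    (ha : ∀ s t, f (s + t) = f s * f t) : ∃ Y : 𝔸, ∀ t, f t = exp (t • Y) := by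
  obtain ⟨F, hF0, hF⟩ : ∃ F : ℝ → 𝔸, F 0 = 0 ∧ ∀ t, HasDerivAt F (f t) t :=
    ⟨fun t => ∫ s in (0 : ℝ)..t, f s, by simp,
      fun t => (hc.integral_hasStrictDerivAt 0 t).hasDerivAt⟩
  have h1 : ∀ t δ, f t * F δ = F (t + δ) - F t := fun t δ => by
    have hd : ∀ δ, HasDerivAt (fun δ => f t * F δ - F (t + δ)) 0 δ := fun δ => by
      simpa [ha] using ((hF δ).const_mul (f t)).fun_sub ((hF (t + δ)).comp_const_add t δ)
    have := is_const_of_deriv_eq_zero (fun δ => (hd δ).differentiableAt)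
      (fun δ => (hd δ).deriv) δ 0
    simp only [hF0, mul_zero, add_zero] at this
    rw [eq_add_of_sub_eq this]
    abel
  obtain ⟨δ, u, hu⟩ : ∃ δ : ℝ, IsUnit (δ⁻¹ • F δ) := by
    have h2 := hasDerivAt_iff_tendsto_slope_zero.1 (hF 0)
    simp only [zero_add, hF0, sub_zero, h0] at h2
    exact (h2.eventually (Units.isOpen.mem_nhds isUnit_one)).exists
  have h3 : ∀ t, f t = δ⁻¹ • (F (t + δ) - F t) * u⁻¹.val := fun t => by
    rw [← h1, ← mul_smul_comm, ← hu, Units.mul_inv_cancel_right]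
  refine ⟨δ⁻¹ • (f δ - 1) * u⁻¹.val, fun t => ?_⟩
  generalize hY : δ⁻¹ • (f δ - 1) * u⁻¹.val = Y
  have h4 : ∀ t, HasDerivAt f (f t * Y) t := fun t => by
    have := ((((hF (t + δ)).comp_add_const t δ).fun_sub (hF t)).fun_const_smul δ⁻¹).mul_const
      u⁻¹.val
    simp only [← h3] at this
    convert this using 1
    rw [← hY, ha, ← mul_assoc, mul_smul_comm, mul_sub, mul_one]
  have hd : ∀ t, HasDerivAt (fun t : ℝ => f t * exp (t • (-Y))) 0 t := fun t => by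
    convert (h4 t).fun_mul (hasDerivAt_exp_smul_const' (-Y) t) using 1
    noncomm_ring
  have h5 := is_const_of_deriv_eq_zero (fun δ => (hd δ).differentiableAt)
    (fun δ => (hd δ).deriv) t 0
  have h6 : exp (t • (-Y)) * exp (t • Y) = 1 := by
    rw [← exp_add_of_commute (((Commute.refl Y).neg_left.smul_left t).smul_right t), smul_neg,
      neg_add_cancel, exp_zero]
  simp only [h0, zero_smul, exp_zero, mul_one] at h5
  rw [← mul_one (f t), ← h6, ← mul_assoc, h5, one_mul]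

end

variable {ι : Type} [Fintype ι] [DecidableEq ι]

theorem exp_mul_neg (X : Matrix ι ι ℝ) : exp X * exp (-X) = 1 := by
  rw [← Matrix.exp_add_of_commute _ _ (Commute.refl X).neg_right, add_neg_cancel, exp_zero]

/-- The exponential as an invertible matrix. -/
noncomputable def expU (X : Matrix ι ι ℝ) : GL ι ℝ :=
  ⟨exp X, exp (-X), exp_mul_neg X, by simpa using exp_mul_neg (-X)⟩

theorem expU_add (X : Matrix ι ι ℝ) (s t : ℝ) :
    expU ((s + t) • X) = expU (s • X) * expU (t • X) := by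
  refine Units.ext ?_
  change exp _ = exp _ * exp _
  rw [add_smul, Matrix.exp_add_of_commute _ _ (((Commute.refl X).smul_left s).smul_right t)]

theorem expU_pow (X : Matrix ι ι ℝ) (k : ℕ) : expU X ^ k = expU ((k : ℝ) • X) := by
  refine Units.ext ?_
  rw [Units.val_pow_eq_pow_val]
  change exp _ ^ k = exp _
  rw [Nat.cast_smul_eq_nsmul, Matrix.exp_nsmul]

theorem expU_conj (g : GL ι ℝ) (X : Matrix ι ι ℝ) :
    expU (g.val * X * (g⁻¹).val) = g * expU X * g⁻¹ := by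
  exact Units.ext (Matrix.exp_units_conj g X)

theorem hasDerivAt_exp_entry (X : Matrix ι ι ℝ) (t : ℝ) (i j : ι) :
    HasDerivAt (fun s : ℝ => exp (s • X) i j) ((exp (t • X) * X) i j) t := by
  open scoped Matrix.Norms.Operator in
  exact ((Matrix.entryLinearMap ℝ ℝ i j).toContinuousLinearMap.hasFDerivAt.comp_hasDerivAt t
    (hasDerivAt_exp_smul_const X t) :)

theorem continuous_expU (X : Matrix ι ι ℝ) : Continuous fun t : ℝ => expU (t • X) := by
  have h : ∀ X : Matrix ι ι ℝ, Continuous fun t : ℝ => exp (t • X) := fun X =>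
    continuous_matrix fun i j => continuous_iff_continuousAt.2 fun t =>
      (hasDerivAt_exp_entry X t i j).continuousAt
  refine Units.continuous_iff.2 ⟨h X, (h (-X)).congr fun t => ?_⟩
  rw [smul_neg]
  rfl

theorem eq_of_exp_eq {X Y : Matrix ι ι ℝ} (h : ∀ t : ℝ, exp (t • X) = exp (t • Y)) : X = Y := by
  ext i j
  have h1 := hasDerivAt_exp_entry X 0 i j
  simp only [h] at h1
  simpa using h1.unique (hasDerivAt_exp_entry Y 0 i j)

theorem skew_of_exp {Y J : Matrix ι ι ℝ} (h : ∀ t : ℝ, (exp (t • Y))ᵀ * J * exp (t • Y) = J) :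
    Yᵀ * J + J * Y = 0 := by
  open scoped Matrix.Norms.Operator in
  have h1 := ((hasDerivAt_exp_smul_const Yᵀ (0 : ℝ)).mul_const J).fun_mul
    (hasDerivAt_exp_smul_const Y (0 : ℝ))
  have h2 : (fun t : ℝ => exp (t • Yᵀ) * J * exp (t • Y)) = fun _ => J := funext fun t => by
    rw [← transpose_smul, Matrix.exp_transpose, h]
  simpa using h1.unique ((hasDerivAt_const _ J).congr_of_eventuallyEq (.of_eq h2))

theorem lim_pow {Z : ℕ → Matrix ι ι ℝ} {m : ℕ → ℕ} {T : Matrix ι ι ℝ}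
    (hZ : Tendsto Z atTop (𝓝 0)) (hT : Tendsto (fun k => (m k : ℝ) • Z k) atTop (𝓝 T)) :
    Tendsto (fun k => (1 + Z k) ^ m k) atTop (𝓝 (exp T)) := by
  cases isEmpty_or_nonempty ι
  · exact tendsto_const_nhds.congr fun k => Subsingleton.elim _ _
  · open scoped Matrix.Norms.Operator in
    exact GLie_lim hZ hT

theorem trotter (X Y : Matrix ι ι ℝ) :
    Tendsto (fun k : ℕ => (exp (((k : ℝ) + 1)⁻¹ • X) * exp (((k : ℝ) + 1)⁻¹ • Y)) ^ (k + 1))
      atTop (𝓝 (exp (X + Y))) := by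
  cases isEmpty_or_nonempty ι
  · exact tendsto_const_nhds.congr fun k => Subsingleton.elim _ _
  · open scoped Matrix.Norms.Operator in
    exact GLie_trotter X Y

theorem one_param {f : ℝ → Matrix ι ι ℝ} (hc : Continuous f) (h0 : f 0 = 1)
    (ha : ∀ s t, f (s + t) = f s * f t) : ∃ Y : Matrix ι ι ℝ, ∀ t, f t = exp (t • Y) := by
  open scoped Matrix.Norms.Operator in
  exact GLie_one hc h0 ha

end Pool.Agent.Work.MP_c8d35c_al
end

-- merged part: Pool.Agent.Work.MP_c8d35c_al.GUnit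
section
/-! Bounded groups of matrices preserve a positive definite form.

Plan. `exists_inv_herm`, first way: the closure `C` of the image of `ρ.toHomUnits` in `GL ι ℂ`
(`Subgroup.topologicalClosure`) is compact (`Units.isClosedEmbedding_embedProduct`; `ρ g` and
`ρ g⁻¹` are bounded); `h = ∫ (k⁻¹)ᴴ * k⁻¹` against a left Haar measure on `C`, entry by entry
(`integral_mul_left_eq_self`); `xᴴ h x = ∫ ‖k⁻¹ x‖² > 0`. Second way: minimise the strictly convex
invariant function `h ↦ ⨆ g, ‖(ρ g)ᴴ h ρ g‖²` on the closed convex hull of the ` (ρ g)ᴴ * ρ g`.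
`trace_sq_neg`: apply it to `ρ t = (exp (t • X)).map ofReal` on `Multiplicative ℝ`; differentiate
at `0` (`hasDerivAt_exp_entry`): `Xᴴ h + h X = 0`. With `h = bᴴ b`
(`CStarAlgebra.nonneg_iff_eq_star_mul_self`, or a square root) the matrix `Y = b X b⁻¹` satisfies
`Yᴴ = -Y`, so `tr (X X) = tr (Y Y) = -tr (Yᴴ Y) < 0`. -/

namespace Pool.Agent.Work.MP_c8d35c_al

open Matrix NormedSpace
open scoped ComplexOrder

variable {ι : Type} [Fintype ι] [DecidableEq ι]

open MeasureTheory in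
open scoped Matrix.Norms.Elementwise in
theorem GUnit_haar {𝕜 K : Type} [RCLike 𝕜] [Group K] [TopologicalSpace K] [IsTopologicalGroup K]
    [CompactSpace K] (σ : K →* Matrix ι ι 𝕜) (hσ : Continuous σ) :
    ∃ h : Matrix ι ι 𝕜, h.PosDef ∧ ∀ g, (σ g)ᴴ * h * σ g = h := by
  borelize K
  have hF : Continuous fun k : K => (σ k⁻¹)ᴴ * σ k⁻¹ := by fun_prop
  have hp : ∀ k : K, ((σ k⁻¹)ᴴ * σ k⁻¹).PosDef := fun k => PosDef.conjTranspose_mul_self _
    (mulVec_injective_iff_isUnit.2 ((Group.isUnit _).map σ))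
  have hI := hF.integrable_of_hasCompactSupport (μ := Measure.haar) (.of_compactSpace _)
  have key : ∀ {E : Type} [NormedAddCommGroup E] [NormedSpace ℝ E] [CompleteSpace E]
      (φ : Matrix ι ι 𝕜 →+ E), Continuous φ → φ (∫ k : K, (σ k⁻¹)ᴴ * σ k⁻¹ ∂Measure.haar) =
        ∫ k : K, φ ((σ k⁻¹)ᴴ * σ k⁻¹) ∂Measure.haar := fun φ hφ =>
    ((φ.toRealLinearMap hφ).integral_comp_comm hI).symm
  refine ⟨∫ k : K, (σ k⁻¹)ᴴ * σ k⁻¹ ∂Measure.haar, .of_dotProduct_mulVec_pos ?_ fun x hx => ?_,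
    fun g => ?_⟩
  · refine (key (conjTransposeAddEquiv ι ι 𝕜).toAddMonoidHom
      continuous_id.matrix_conjTranspose).trans ?_
    exact integral_congr_ae (.of_forall fun k => (hp k).1)
  · let q : Matrix ι ι 𝕜 →+ 𝕜 := AddMonoidHom.mk' (fun M => star x ⬝ᵥ M *ᵥ x) fun M N => by
      rw [add_mulVec, dotProduct_add]
    have hq : Continuous q := by
      change Continuous fun M : Matrix ι ι 𝕜 => star x ⬝ᵥ M *ᵥ x
      fun_prop
    have h1 := fun k => RCLike.pos_iff.1 ((hp k).dotProduct_mulVec_pos hx)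
    refine RCLike.pos_iff.2 ⟨(key (RCLike.re.comp q) (RCLike.continuous_re.comp hq)).symm ▸ ?_,
      (key (RCLike.im.comp q) (RCLike.continuous_im.comp hq)).trans ?_⟩
    · exact ((RCLike.continuous_re.comp hq).comp hF).integral_pos_of_hasCompactSupport_nonneg_nonzero
        (.of_compactSpace _) (fun k => (h1 k).1.le) (h1 1).1.ne'
    · exact integral_eq_zero_of_ae (.of_forall fun k => (h1 k).2)
  · refine (key (AddMonoidHom.mk' (fun M => (σ g)ᴴ * M * σ g) fun M N => by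
      rw [mul_add, add_mul]) (by
        change Continuous fun M : Matrix ι ι 𝕜 => (σ g)ᴴ * M * σ g
        fun_prop)).trans ?_
    rw [← integral_mul_left_eq_self (fun k : K => (σ k⁻¹)ᴴ * σ k⁻¹) g⁻¹]
    simp only [AddMonoidHom.mk'_apply, _root_.mul_inv_rev, inv_inv, map_mul, conjTranspose_mul,
      mul_assoc]

theorem GUnit_gen {𝕜 G : Type} [RCLike 𝕜] [Group G] (ρ : G →* Matrix ι ι 𝕜) {C : ℝ}
    (hC : ∀ g i j, ‖ρ g i j‖ ≤ C) :
    ∃ h : Matrix ι ι 𝕜, h.PosDef ∧ ∀ g, (ρ g)ᴴ * h * ρ g = h := by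
  have hB : IsCompact {M : Matrix ι ι 𝕜 | ∀ i j, ‖M i j‖ ≤ C} := by
    refine (isCompact_univ_pi fun _ : ι => isCompact_univ_pi fun _ : ι =>
      isCompact_closedBall (0 : 𝕜) C).of_isClosed_subset ?_ fun M hM i _ j _ => by simpa using hM i j
    simp only [Set.ofPred_forall]
    exact isClosed_iInter fun i => isClosed_iInter fun j => isClosed_le (by fun_prop) continuous_const
  have hK : IsCompact (ρ.toHomUnits.range.topologicalClosure : Set (Matrix ι ι 𝕜)ˣ) := by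
    refine (Units.isClosedEmbedding_embedProduct.isCompact_preimage
      (hB.prod (hB.image MulOpposite.continuous_op))).closure_of_subset ?_
    rintro _ ⟨g, rfl⟩
    exact ⟨hC g, _, hC g⁻¹, rfl⟩
  have := isCompact_iff_compactSpace.1 hK
  obtain ⟨h, h1, h2⟩ := GUnit_haar (K := ρ.toHomUnits.range.topologicalClosure)
    ((Units.coeHom _).comp (Subgroup.subtype _)) (Units.continuous_val.comp continuous_subtype_val)
  exact ⟨h, h1, fun g => h2 ⟨_, Subgroup.le_topologicalClosure _ ⟨g, rfl⟩⟩⟩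

theorem exists_inv_herm {G : Type} [Group G] (ρ : G →* Matrix ι ι ℂ) {C : ℝ}
    (hC : ∀ g i j, ‖ρ g i j‖ ≤ C) :
    ∃ h : Matrix ι ι ℂ, h.PosDef ∧ ∀ g, (ρ g)ᴴ * h * ρ g = h := by
  exact GUnit_gen ρ hC

theorem trace_sq_neg {X : Matrix ι ι ℝ} {C : ℝ} (hC : ∀ (t : ℝ) i j, |exp (t • X) i j| ≤ C)
    (h0 : X ≠ 0) : (X * X).trace < 0 := by
  obtain ⟨J, hJ, h⟩ := GUnit_gen (G := Multiplicative ℝ) ((Units.coeHom _).comp (MonoidHom.mk'
    (fun t => expU (t.toAdd • X)) fun s t => expU_add X _ _)) fun t => hC t.toAdd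
  have h1 : Xᵀ * J + J * X = 0 := skew_of_exp fun t => h (.ofAdd t)
  open scoped MatrixOrder in
  obtain ⟨b, hb, rfl⟩ := CStarAlgebra.isStrictlyPositive_iff_eq_star_mul_self.1
    hJ.isStrictlyPositive
  obtain ⟨b, rfl⟩ := hb
  have e1 : (b⁻¹).valᵀ * b.valᵀ = 1 := by rw [← transpose_mul, b.mul_inv, transpose_one]
  have h2 : (b.val * X * (b⁻¹).val)ᴴ = -(b.val * X * (b⁻¹).val) := by
    have h3 := congrArg (fun M => (b⁻¹).valᵀ * M * (b⁻¹).val) h1
    simp only [star_eq_conjTranspose, conjTranspose_eq_transpose_of_trivial, mul_add, add_mul,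
      mul_zero, zero_mul, mul_assoc, b.mul_inv, mul_one] at h3
    rw [← mul_assoc _ b.valᵀ, e1, one_mul] at h3
    simp only [conjTranspose_eq_transpose_of_trivial, transpose_mul, mul_assoc]
    exact eq_neg_of_add_eq_zero_left h3
  have h3 : ((b.val * X * (b⁻¹).val)ᴴ * (b.val * X * (b⁻¹).val)).trace = -(X * X).trace := by
    rw [h2, neg_mul, trace_neg, ← trace_units_conj b (X * X)]
    simp only [mul_assoc, Units.inv_mul_cancel_left]
  rw [← neg_pos, ← h3]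
  refine (posSemidef_conjTranspose_mul_self _).trace_nonneg.lt_of_ne fun h4 => h0 ?_
  have h5 := trace_conjTranspose_mul_self_eq_zero_iff.1 h4.symm
  rwa [Units.mul_left_eq_zero, Units.mul_right_eq_zero] at h5

end Pool.Agent.Work.MP_c8d35c_al
end

-- merged part: Pool.Agent.Work.MP_c8d35c_al.GForm
section
/-! The form over the field of definition.

Plan. `exists_form`: the vectors `γ e` span (a proper subspace is orthogonal to some `y ≠ 0`,
against `Mix.exists_ne` with `s = {y}`); choose a basis `c i e` among them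
(`exists_linearIndependent`, reindex by `Fin (n + 1)`), let `B` be the matrix with these columns,
`P = B⁻¹`, `A = Bᵀ J B` read in `K`, `ρ γ = A⁻¹ * (z (c i⁻¹ γ c j))`; multiplicativity by
injectivity of `Matrix.map σ0`. -/

namespace Pool.Agent.Work.MP_c8d35c_al

open Matrix NumberField

variable {n : ℕ} {K : Type} [Field K]

/-- The group `Γ` written in a basis of images of `e`. -/
structure Form (σ0 : K →+* ℝ) (Γ : Subgroup (GL (Fin (n + 1)) ℝ)) (e : Fin (n + 1) → ℝ)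
    (c : Fin (n + 1) → Γ) (P : GL (Fin (n + 1)) ℝ) (A : Matrix (Fin (n + 1)) (Fin (n + 1)) K)
    (ρ : Γ →* Matrix (Fin (n + 1)) (Fin (n + 1)) K) (z : Γ → K) : Prop where
  le : Γ ≤ isomH n
  z_eq : ∀ γ, σ0 (z γ) = lor (γ.val.val *ᵥ e) e
  col : ∀ i, P.val *ᵥ ((c i).val.val *ᵥ e) = Pi.single i 1
  symm : A.IsSymm
  sig : P.valᵀ * A.map σ0 * P.val = lorMat n
  rho : ∀ γ, (ρ γ).map σ0 = (P * γ.val * P⁻¹).val
  A_rho : ∀ γ i j, (A * ρ γ) i j = z ((c i)⁻¹ * γ * c j)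

variable {σ0 : K →+* ℝ} {Γ : Subgroup (GL (Fin (n + 1)) ℝ)} {e : Fin (n + 1) → ℝ}
  {c : Fin (n + 1) → Γ} {P : GL (Fin (n + 1)) ℝ} {A : Matrix (Fin (n + 1)) (Fin (n + 1)) K}
  {ρ : Γ →* Matrix (Fin (n + 1)) (Fin (n + 1)) K} {z : Γ → K}

lemma gform_lorMat_sq : lorMat n * lorMat n = 1 := by
  unfold lorMat
  rw [Matrix.diagonal_mul_diagonal, ← Matrix.diagonal_one]
  congr 1
  funext i
  split_ifs <;> norm_num

lemma gform_lorMat_det : (lorMat n).det ≠ 0 := by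
  intro h
  have := congrArg Matrix.det (gform_lorMat_sq (n := n))
  rw [Matrix.det_mul, h, Matrix.det_one] at this
  simp at this

lemma gform_span (hn : 2 ≤ n) (hm : Mix Γ) (he : e ≠ 0) :
    Submodule.span ℝ (Set.range fun γ : Γ => γ.val.val *ᵥ e) = ⊤ := by
  by_contra hne
  obtain ⟨φ, hφ, hle⟩ := Submodule.exists_le_ker_of_lt_top _ (lt_top_iff_ne_top.mpr hne)
  set w : Fin (n + 1) → ℝ := fun i => φ (Pi.single i 1) with hw
  have hφw : ∀ x, φ x = lor x (lorMat n *ᵥ w) := fun x => by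
    rw [lor_eq_dot, Matrix.mulVec_mulVec, gform_lorMat_sq, Matrix.one_mulVec,
      LinearMap.pi_apply_eq_sum_univ φ x]
    refine Finset.sum_congr rfl fun i _ => ?_
    rw [smul_eq_mul]
    congr 2
    funext j
    simp [Pi.single_apply, eq_comm]
  have hy : lorMat n *ᵥ w ≠ 0 := fun h0 => hφ (LinearMap.ext fun x => by
    rw [hφw, h0, lor_zero_right, LinearMap.zero_apply])
  obtain ⟨γ, hγ, hne⟩ := hm.exists_ne hn he {lorMat n *ᵥ w} (by simpa using hy.symm)
  refine hne _ (Finset.mem_singleton_self _) ?_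
  rw [← hφw]
  exact hle (Submodule.subset_span ⟨⟨γ, hγ⟩, rfl⟩)

lemma gform_basis (hn : 2 ≤ n) (hm : Mix Γ) (he : e ≠ 0) :
    ∃ c : Fin (n + 1) → Γ, IsUnit (Matrix.of fun i j => ((c j).val.val *ᵥ e) i) := by
  obtain ⟨κ, a, -, hsp, hli⟩ := exists_linearIndependent' ℝ (fun γ : Γ => γ.val.val *ᵥ e)
  rw [gform_span hn hm he] at hsp
  let b := Module.Basis.mk hli hsp.ge
  let q : κ ≃ Fin (n + 1) := b.indexEquiv (Pi.basisFun ℝ (Fin (n + 1)))
  refine ⟨fun j => a (q.symm j), ?_⟩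
  rw [← Matrix.linearIndependent_cols_iff_isUnit]
  exact hli.comp q.symm q.symm.injective

lemma gform_entry (B g : Matrix (Fin (n + 1)) (Fin (n + 1)) ℝ) (i j : Fin (n + 1)) :
    (Bᵀ * lorMat n * g * B) i j = lor (fun k => B k i) (g *ᵥ fun k => B k j) := by
  rw [lor_eq_dot, Matrix.mulVec_mulVec, Matrix.mul_assoc, Matrix.mul_assoc,
    ← Matrix.mul_assoc (lorMat n)]
  rfl

theorem exists_form (hn : 2 ≤ n) (hΓ : Γ ≤ isomH n) (hm : Mix Γ) (he : e ≠ 0)
    (hK : ∀ γ ∈ Γ, ∃ k, σ0 k = lor (γ.val *ᵥ e) e) : ∃ c P A ρ z, Form σ0 Γ e c P A ρ z := by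
  classical
  choose z' hz' using hK
  let z : Γ → K := fun γ => z' γ.val γ.2
  have hz : ∀ γ : Γ, σ0 (z γ) = lor (γ.val.val *ᵥ e) e := fun γ => hz' γ.val γ.2
  obtain ⟨c, hB⟩ := gform_basis hn hm he
  obtain ⟨Q, hQ⟩ := hB
  let M : Γ → Matrix (Fin (n + 1)) (Fin (n + 1)) K :=
    fun γ => Matrix.of fun i j => z ((c i)⁻¹ * γ * c j)
  have hM : ∀ γ, (M γ).map σ0 = Q.valᵀ * lorMat n * γ.val.val * Q.val := fun γ => by
    ext i j
    rw [gform_entry, hQ]
    simp only [M, Matrix.map_apply, Matrix.of_apply, hz]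
    rw [isomH_lor_inv (hΓ (c i).2), lor_comm]
    simp only [Subgroup.coe_mul, InvMemClass.coe_inv, gl_mul_mulVec]
  have hinj : Function.Injective fun X : Matrix (Fin (n + 1)) (Fin (n + 1)) K => X.map σ0 :=
    Matrix.map_injective σ0.injective
  have hA : (M 1).map σ0 = Q.valᵀ * lorMat n * Q.val := by
    rw [hM]; simp
  have hQd : Q.val.det ≠ 0 := (Matrix.isUnit_iff_isUnit_det _ |>.mp Q.isUnit).ne_zero
  have hAd' : ((M 1).map σ0).det ≠ 0 := by
    rw [hA, Matrix.det_mul, Matrix.det_mul, Matrix.det_transpose]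
    exact mul_ne_zero (mul_ne_zero hQd gform_lorMat_det) hQd
  have hAd : (M 1).det ≠ 0 := fun h0 => hAd' (by
    have := RingHom.map_det σ0 (M 1)
    rw [h0, map_zero] at this
    exact this.symm)
  have hAρ : ∀ γ, M 1 * ((M 1)⁻¹ * M γ) = M γ := fun γ => by
    rw [← Matrix.mul_assoc, Matrix.mul_nonsing_inv _ hAd.isUnit, Matrix.one_mul]
  have hρ : ∀ γ, ((M 1)⁻¹ * M γ).map σ0 = (Q⁻¹ * γ.val * Q⁻¹⁻¹).val := fun γ => by
    have h1 := congrArg (fun X : Matrix (Fin (n + 1)) (Fin (n + 1)) K => X.map σ0) (hAρ γ)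
    simp only [Matrix.map_mul] at h1
    have hu : IsUnit ((M 1).map σ0) := (Matrix.isUnit_iff_isUnit_det _).mpr hAd'.isUnit
    refine hu.mul_left_cancel ?_
    rw [Matrix.map_mul, h1, hM, hA, inv_inv, Units.val_mul, Units.val_mul]
    simp only [Matrix.mul_assoc]
    rw [← Matrix.mul_assoc Q.val (Q⁻¹).val, Units.mul_inv, Matrix.one_mul]
  let ρ : Γ →* Matrix (Fin (n + 1)) (Fin (n + 1)) K :=
    { toFun := fun γ => (M 1)⁻¹ * M γ
      map_one' := Matrix.nonsing_inv_mul _ hAd.isUnit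
      map_mul' := fun a b => hinj (by
        show ((M 1)⁻¹ * M (a * b)).map σ0 = (((M 1)⁻¹ * M a) * ((M 1)⁻¹ * M b)).map σ0
        rw [Matrix.map_mul (L := (M 1)⁻¹ * M a), hρ, hρ, hρ, ← Units.val_mul]
        congr 1
        simp only [Subgroup.coe_mul]
        group) }
  refine ⟨c, Q⁻¹, M 1, ρ, z, hΓ, hz, fun i => ?_, ?_, ?_, hρ, fun γ i j => ?_⟩
  · have h1 : (c i).val.val *ᵥ e = Q.val *ᵥ Pi.single i 1 := by
      rw [hQ]
      funext k
      simp
    rw [h1, gl_inv_mulVec]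
  · refine hinj ?_
    show ((M 1)ᵀ).map σ0 = (M 1).map σ0
    rw [Matrix.transpose_map, hA, Matrix.transpose_mul, Matrix.transpose_mul,
      Matrix.transpose_transpose, Matrix.mul_assoc]
    congr 2
    exact Matrix.diagonal_transpose _
  · rw [hA]
    have h1 : Q.val * (Q⁻¹).val = 1 := Units.mul_inv Q
    have h2 : (Q⁻¹).valᵀ * Q.valᵀ = 1 := by
      rw [← Matrix.transpose_mul, h1, Matrix.transpose_one]
    calc (Q⁻¹).valᵀ * (Q.valᵀ * lorMat n * Q.val) * (Q⁻¹).val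
        = ((Q⁻¹).valᵀ * Q.valᵀ) * lorMat n * (Q.val * (Q⁻¹).val) := by
          simp only [Matrix.mul_assoc]
      _ = lorMat n := by rw [h1, h2, Matrix.one_mul, Matrix.mul_one]
  · show (M 1 * ((M 1)⁻¹ * M γ)) i j = _
    rw [hAρ]
    rfl

theorem Form.det (h : Form σ0 Γ e c P A ρ z) : A.det ≠ 0 := by
  intro h0
  have h1 := congrArg Matrix.det h.sig
  have h2 : (A.map σ0).det = 0 := by
    have := RingHom.map_det σ0 A
    rw [h0, map_zero] at this
    exact this.symm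
  rw [Matrix.det_mul, Matrix.det_mul, h2, mul_zero, zero_mul] at h1
  exact gform_lorMat_det h1.symm

end Pool.Agent.Work.MP_c8d35c_al
end

-- merged part: Pool.Agent.Work.MP_c8d35c_al.GPos
section
/-! Bounded conjugates are real and positive definite.

Plan. `Form.z_bound`: for `f = γ e` the element `g = refl e * refl f` lies in `Γ`
(`mulVec_mem_roots`), and `trace_wd_two`, `trace_wd_conj`, `wd_map` give in `K` (apply the
injective `σ0`) that `trace (wd (ρ g))` is a constant plus `4 (n - 1) (z γ)²`.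
`Form.herm`: `σ (ρ γ) = (σ A)⁻¹ * σ (z …)` is bounded; take `h` from `exists_inv_herm`. Let
`v = ρ (c 0)⁻¹ *ᵥ Pi.single 0 1`, so `σ0 v = P e`, `ρ (c i) v = Pi.single i 1`,
`z γ = (ρ γ v) ⬝ᵥ A v`, and for `r = refl e`: `ρ r x = x - 2 (x ⬝ᵥ A v) v`. After `σ`, with
`⟪u, x⟫ = star u ⬝ᵥ h x`: `⟪v, ρ r x⟫ = ⟪ρ r v, ρ r ρ r x⟫ = -⟪v, x⟫`, so
`⟪v, x⟫ = (x ⬝ᵥ A v) ⟪v, v⟫`. Hence `σ (z γ) = ⟪v, ρ γ v⟫ / κ` with `κ = ⟪v, v⟫ > 0`;
`z γ⁻¹ = z γ` gives that it is real, and `σ (A i j) = σ (z ((c i)⁻¹ c j)) = h i j / κ`.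
`Form.real`: `σ` and `conj ∘ σ` agree on `A` and on `A * ρ γ`, and `σ A` is invertible. -/

namespace Pool.Agent.Work.MP_c8d35c_al

open Matrix
open scoped ComplexOrder

variable {n : ℕ} {K : Type} [Field K] {σ0 : K →+* ℝ} {Γ : Subgroup (GL (Fin (n + 1)) ℝ)}
  {e : Fin (n + 1) → ℝ} {c : Fin (n + 1) → Γ} {P : GL (Fin (n + 1)) ℝ}
  {A : Matrix (Fin (n + 1)) (Fin (n + 1)) K} {ρ : Γ →* Matrix (Fin (n + 1)) (Fin (n + 1)) K}
  {z : Γ → K}

theorem Form.trace_wd (h : Form σ0 Γ e c P A ρ z) (γ : Γ) :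
    σ0 (wd (ρ γ)).trace = (wd γ.val.val).trace := by
  rw [AddMonoidHom.map_trace, wd_map, h.rho, Units.val_mul, Units.val_mul,
    trace_wd_conj P.inv_mul]

theorem Form.z_bound (h : Form σ0 Γ e c P A ρ z) (hn : 2 ≤ n) (he : e ∈ roots Γ) (σ : K →+* ℂ)
    {C : ℝ} (hC : ∀ γ, ‖σ (wd (ρ γ)).trace‖ ≤ C) : ∃ C' : ℝ, ∀ γ, ‖σ (z γ)‖ ≤ C' := by
  refine ⟨2 * C + ‖((n : ℂ) - 2) * (n - 5) - 2‖ + 1, fun γ => ?_⟩
  have hf := mulVec_mem_roots h.le γ.2 he
  let g : Γ := ⟨refl e * refl (γ.val.val *ᵥ e), Γ.mul_mem he.2 hf.2⟩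
  have h1 : 8 * ((n : K) - 1) * z γ ^ 2 =
      2 * (wd (ρ g)).trace - (((n : K) - 2) * (n - 5) - 2) := by
    apply σ0.injective
    simp only [map_mul, map_sub, map_pow, map_ofNat, map_natCast, map_one, h.trace_wd, h.z_eq]
    rw [trace_wd_two he.1 hf.1, lor_comm e]
    ring
  have h2 := congrArg (fun a => ‖σ a‖) h1
  simp only [map_mul, map_sub, map_pow, map_ofNat, map_natCast, map_one] at h2
  have h3 : ‖(n : ℂ) - 1‖ = (n : ℝ) - 1 := by
    have h4 : (1 : ℝ) ≤ n := by exact_mod_cast le_trans one_le_two hn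
    rw [← Complex.ofReal_natCast, ← Complex.ofReal_one, ← Complex.ofReal_sub, Complex.norm_real,
      Real.norm_of_nonneg (by linarith)]
  have h4 := norm_sub_le (2 * σ (wd (ρ g)).trace) (((n : ℂ) - 2) * (n - 5) - 2)
  rw [← h2, norm_mul, norm_mul, norm_mul, norm_pow, h3, Complex.norm_ofNat,
    Complex.norm_ofNat] at h4
  have h5 : (2 : ℝ) ≤ n := by exact_mod_cast hn
  have h6 := mul_le_mul_of_nonneg_right h5 (sq_nonneg ‖σ (z γ)‖)
  nlinarith [hC g, sq_nonneg (‖σ (z γ)‖ - 1), sq_nonneg ‖σ (z γ)‖]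

/-- The orbit of `e` in coordinates over `K`. -/
theorem GPos_w (h : Form σ0 Γ e c P A ρ z) : ∃ w : Γ → Fin (n + 1) → K,
    (∀ g γ, ρ g *ᵥ w γ = w (g * γ)) ∧ ∀ γ i, σ0 (w γ i) = (P.val *ᵥ (γ.val.val *ᵥ e)) i := by
  refine ⟨fun γ => ρ (γ * (c 0)⁻¹) *ᵥ Pi.single 0 1, fun g γ => ?_, fun γ i => ?_⟩
  · rw [mulVec_mulVec, ← map_mul, ← mul_assoc]
  · have h1 : σ0 ∘ (Pi.single 0 1 : Fin (n + 1) → K) = P.val *ᵥ ((c 0).val.val *ᵥ e) := by
      rw [h.col]
      funext j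
      simp only [Function.comp_apply, Pi.single_apply]
      split_ifs <;> simp
    rw [RingHom.map_mulVec, h.rho, h1, gl_mul_mulVec, gl_inv_mulVec, gl_mul_mulVec,
      Subgroup.coe_mul, gl_mul_mulVec, Subgroup.coe_inv, gl_inv_mulVec]

theorem GPos_det (h : Form σ0 Γ e c P A ρ z) (σ : K →+* ℂ) : IsUnit (A.map σ).det := by
  rw [← RingHom.mapMatrix_apply, ← RingHom.map_det]
  exact ((map_ne_zero σ).2 h.det).isUnit

theorem GPos_bd (h : Form σ0 Γ e c P A ρ z) (σ : K →+* ℂ) {C : ℝ} (hC : ∀ γ, ‖σ (z γ)‖ ≤ C)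
    (γ : Γ) (i j : Fin (n + 1)) : ‖(ρ γ).map σ i j‖ ≤ ∑ a, ∑ b, ‖(A.map σ)⁻¹ a b‖ * C := by
  have h0 : 0 ≤ C := (norm_nonneg _).trans (hC 1)
  rw [← nonsing_inv_mul_cancel_left (A.map σ) ((ρ γ).map σ) (GPos_det h σ), ← Matrix.map_mul,
    Matrix.mul_apply]
  refine (norm_sum_le _ _).trans (le_trans (Finset.sum_le_sum fun b _ => ?_)
    (Finset.single_le_sum (f := fun a => ∑ b, ‖(A.map σ)⁻¹ a b‖ * C)
      (fun a _ => Finset.sum_nonneg fun b _ => by positivity) (Finset.mem_univ i)))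
  rw [norm_mul, Matrix.map_apply, h.A_rho]
  exact mul_le_mul_of_nonneg_left (hC _) (norm_nonneg _)

theorem Form.herm (h : Form σ0 Γ e c P A ρ z) (he : e ∈ roots Γ) (σ : K →+* ℂ) {C : ℝ}
    (hC : ∀ γ, ‖σ (z γ)‖ ≤ C) : (∀ γ, (σ (z γ)).im = 0) ∧ (A.map σ).PosDef := by
  obtain ⟨H, hH, hinv⟩ := exists_inv_herm
    ((σ.mapMatrix (m := Fin (n + 1))).toMonoidHom.comp ρ) (GPos_bd h σ hC)
  replace hinv : ∀ g, ((ρ g).map σ)ᴴ * H * (ρ g).map σ = H := hinv
  obtain ⟨w, hw, hw0⟩ := GPos_w h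
  let r : Γ := ⟨refl e, he.2⟩
  have hrr : r * r = 1 := Subtype.ext (refl_mul_self e)
  have a1 : ∀ i, w (c i) = Pi.single i 1 := fun i => funext fun j => σ0.injective (by
    rw [hw0, h.col, Pi.single_apply, Pi.single_apply]
    split_ifs <;> simp)
  have a2 : ∀ γ i, w (r * γ) i = w γ i - 2 * z γ * w 1 i := fun γ i => σ0.injective (by
    rw [map_sub, map_mul, map_mul, hw0, hw0, hw0, h.z_eq, map_ofNat, Subgroup.coe_mul,
      gl_mul_mulVec, refl_mulVec_unit he.1, mulVec_sub, mulVec_smul]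
    simp)
  have a3 : z 1 = 1 := σ0.injective (by simpa [h.z_eq] using he.1)
  have a4 : ∀ γ, z γ⁻¹ = z γ := fun γ => σ0.injective (by
    rw [h.z_eq, h.z_eq, isomH_lor_inv (h.le γ.2), lor_comm, Subgroup.coe_inv])
  let W : Γ → Fin (n + 1) → ℂ := fun γ => σ ∘ w γ
  have b1 : ∀ g γ, W (g * γ) = (ρ g).map σ *ᵥ W γ := fun g γ => funext fun i => by
    rw [← RingHom.map_mulVec, hw]
    rfl
  have b2 : ∀ γ, W (r * γ) = W γ - (2 * σ (z γ)) • W 1 := fun γ => funext fun i => by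
    simp only [W, Function.comp_apply, a2, map_sub, map_mul, map_ofNat, Pi.sub_apply,
      Pi.smul_apply, smul_eq_mul]
  have b3 : ∀ i, W (c i) = Pi.single i 1 := fun i => funext fun j => by
    simp only [W, Function.comp_apply, a1, Pi.single_apply]
    split_ifs <;> simp
  let F : Γ → Γ → ℂ := fun γ δ => star (W γ) ⬝ᵥ H *ᵥ W δ
  have c1 : ∀ g γ δ, F (g * γ) (g * δ) = F γ δ := fun g γ δ => by
    simp only [F, b1, star_mulVec, dotProduct_mulVec, vecMul_vecMul, hinv]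
  have c2 : ∀ γ, F 1 γ = σ (z γ) * F 1 1 := fun γ => by
    have d1 : F 1 (r * γ) = F 1 γ - 2 * σ (z γ) * F 1 1 := by
      simp only [F, b2, mulVec_sub, mulVec_smul, dotProduct_sub, dotProduct_smul, smul_eq_mul]
    have d2 : W (r * 1) = -W 1 := by
      rw [b2, a3, map_one, mul_one, two_smul, sub_add_cancel_left]
    have d3 : F (r * 1) γ = -F 1 γ := by simp only [F, d2, star_neg, neg_dotProduct]
    have d4 := c1 r 1 (r * γ)
    rw [← mul_assoc, hrr, one_mul, d3, d1] at d4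
    linear_combination (-1 / 2 : ℂ) * d4
  have c3 : 0 < F 1 1 := hH.dotProduct_mulVec_pos fun h0 => by
    have d1 := congrFun (b1 (c 0) 1) 0
    rw [mul_one, b3, h0, mulVec_zero] at d1
    simp at d1
  have c4 : ∀ γ δ, star (F γ δ) = F δ γ := fun γ δ => by
    simp only [F]
    rw [star_dotProduct, star_star, star_mulVec, hH.1.eq, dotProduct_mulVec]
  have c5 : ∀ γ δ, F γ δ = σ (z (γ⁻¹ * δ)) * F 1 1 := fun γ δ => by
    rw [← c2, ← c1 γ⁻¹ γ δ, inv_mul_cancel]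
  refine ⟨fun γ => Complex.conj_eq_iff_im.1 (mul_right_cancel₀ c3.ne' ?_), ?_⟩
  · have d1 := c4 1 γ
    rw [c5 γ 1, mul_one, a4, c2 γ, star_mul', c4] at d1
    exact d1
  · have d1 : A.map σ = (F 1 1)⁻¹ • H := by
      ext i j
      have d2 := c5 (c i) (c j)
      have d3 := h.A_rho 1 i j
      rw [map_one, mul_one, mul_one] at d3
      rw [← d3] at d2
      have d4 : F (c i) (c j) = H i j := by
        simp only [F, b3]
        simp
      rw [Matrix.map_apply, Matrix.smul_apply, ← d4, d2, smul_eq_mul, mul_comm,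
        mul_inv_cancel_right₀ c3.ne']
    rw [d1]
    exact hH.smul (inv_pos.2 c3)

theorem Form.real (h : Form σ0 Γ e c P A ρ z) (σ : K →+* ℂ) (hz : ∀ γ, (σ (z γ)).im = 0)
    (γ : Γ) : (σ (wd (ρ γ)).trace).im = 0 := by
  let τ : K →+* ℂ := (starRingEnd ℂ).comp σ
  have h1 : ∀ g, (A * ρ g).map τ = (A * ρ g).map σ := fun g => by
    ext i j
    rw [Matrix.map_apply, Matrix.map_apply, h.A_rho]
    exact Complex.conj_eq_iff_im.2 (hz _)
  have h2 := h1 1
  rw [map_one, mul_one] at h2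
  have h3 := congrArg ((A.map σ)⁻¹ * ·) (h1 γ)
  simp only [Matrix.map_mul, h2, nonsing_inv_mul_cancel_left _ _ (GPos_det h σ)] at h3
  refine Complex.conj_eq_iff_im.1 ?_
  change τ _ = _
  rw [AddMonoidHom.map_trace, AddMonoidHom.map_trace, wd_map, wd_map, h3]

theorem posDef_of_complex {ι : Type} [Fintype ι] {M : Matrix ι ι ℝ}
    (h : (M.map Complex.ofRealHom).PosDef) : M.PosDef := by
  refine PosDef.of_dotProduct_mulVec_pos ?_ fun x hx => ?_
  · ext i j
    simpa using congrFun (congrFun h.1.eq i) j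
  · have h1 := h.dotProduct_mulVec_pos (x := Complex.ofRealHom ∘ x) fun h0 =>
      hx (funext fun i => by simpa using congrFun h0 i)
    have h2 : star (Complex.ofRealHom ∘ x) ⬝ᵥ M.map Complex.ofRealHom *ᵥ (Complex.ofRealHom ∘ x) =
        ((star x ⬝ᵥ M *ᵥ x : ℝ) : ℂ) := by
      simp [dotProduct, mulVec]
    rwa [h2, Complex.zero_lt_real] at h1

end Pool.Agent.Work.MP_c8d35c_al
end

-- merged part: Pool.Agent.Work.MP_c8d35c_al.RCoc
section
/-! The arithmetic group of an admissible form over a field other than `ℚ` is cocompact. -/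

namespace Pool.Agent.Work.MP_c8d35c_al

open NumberField Module Matrix

variable {K : Type} [Field K] [NumberField K] [IsTotallyReal K] {n : ℕ} {σ0 : Emb K}
  {A : Matrix (Fin (n + 1)) (Fin (n + 1)) K} {P : GL (Fin (n + 1)) ℝ}

omit [IsTotallyReal K] in
/-- A common denominator for the values of the form on integral vectors. -/
theorem rcoc_den (A : Matrix (Fin (n + 1)) (Fin (n + 1)) K) :
    ∃ (b : 𝓞 K) (C : ℝ), b ≠ 0 ∧ 0 < C ∧ (∀ σ : Emb K, |σ b| ≤ C) ∧
      ∀ u v : Fin (n + 1) → 𝓞 K, ∃ z : 𝓞 K,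
        (z : K) = b * bil A (fun k => (u k : K)) fun k => (v k : K) := by
  obtain ⟨b, hb⟩ := IsLocalization.exist_integer_multiples_of_finite (nonZeroDivisors (𝓞 K))
    (S := K) (fun p : Fin (n + 1) × Fin (n + 1) => A p.1 p.2)
  choose a ha using hb
  refine ⟨b, 1 + ∑ σ : Emb K, |σ (b : 𝓞 K)|, nonZeroDivisors.coe_ne_zero b,
    add_pos_of_pos_of_nonneg one_pos (Finset.sum_nonneg fun _ _ => abs_nonneg _), fun σ => ?_,
    fun u v => ⟨∑ i, ∑ j, u i * (a (i, j) * v j), ?_⟩⟩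
  · have := Finset.single_le_sum (f := fun σ : Emb K => |σ (b : 𝓞 K)|)
      (fun _ _ => abs_nonneg _) (Finset.mem_univ σ)
    linarith
  · have ha' : ∀ i j, ((a (i, j) : 𝓞 K) : K) = ((b : 𝓞 K) : K) * A i j := fun i j => by
      have := ha (i, j)
      rw [Algebra.smul_def] at this
      exact this
    have e : ((∑ i, ∑ j, u i * (a (i, j) * v j) : 𝓞 K) : K) =
        ∑ i, ∑ j, (u i : K) * ((a (i, j) : K) * (v j : K)) := by simp
    rw [e]
    simp only [ha', bil, dotProduct, mulVec, Finset.mul_sum]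
    exact Finset.sum_congr rfl fun i _ => Finset.sum_congr rfl fun j _ => by ring

theorem rcoc_one_le {z : 𝓞 K} (hz : z ≠ 0) (σ0 : Emb K) : ∃ σ : Emb K, 1 ≤ |σ z| := by
  have h1 : 1 ≤ ∏ σ : Emb K, |σ z| := by
    rw [← nm_span]
    exact one_le_nm (by simpa using hz)
  by_contra hn
  push Not at hn
  have hpos : ∀ σ : Emb K, 0 < |σ z| := fun σ =>
    abs_pos.2 ((map_ne_zero σ).2 (by exact_mod_cast hz))
  have h2 := Finset.prod_lt_prod_of_nonempty (s := Finset.univ) (f := fun σ : Emb K => |σ z|)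
    (g := fun _ => (1 : ℝ)) (fun σ _ => hpos σ) (fun σ _ => hn σ) ⟨σ0, Finset.mem_univ _⟩
  rw [Finset.prod_const_one] at h2
  linarith

/-- At every point there is an integral basis of `K^(n+1)` of bounded height. -/
theorem exists_short_basis (hd : 1 < finrank ℚ K) (h : Adm σ0 A P) :
    ∃ R : ℝ, ∀ x ∈ hyp n, ∃ X : Matrix (Fin (n + 1)) (Fin (n + 1)) (𝓞 K), X.det ≠ 0 ∧
      (∀ j, |lor ((P⁻¹).val *ᵥ fun i => σ0 (X i j)) x| ≤ R) ∧
      ∀ (σ : Emb K) i j, |σ (bil A (fun k => (X k i : K)) fun k => (X k j : K))| ≤ R := by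
  classical
  obtain ⟨b, C, hb, hC, hbC, hint⟩ := rcoc_den A
  have hN : (0 : ℝ) < (n : ℝ) + 1 := by positivity
  have hμ : 0 < √(1 / (C * ((n : ℝ) + 1))) := Real.sqrt_pos.2 (by positivity)
  have : Nonempty (Co K n) := ⟨(σ0, 0)⟩
  obtain ⟨R, hR⟩ := span_short (Co K n) (c := covB A (stdL K (n + 1))) hμ
  refine ⟨max R ((n + 1) * (R * R)), fun x hx => ?_⟩
  obtain ⟨Φ, hΦ, hΦ0⟩ := h.frame (m := 2) (fun σ => by rw [map_ofNat]; exact two_pos) hx
  rw [div_self two_ne_zero, one_smul] at hΦ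
  have hmin : ∀ v ∈ (stdL K (n + 1)).toAddSubgroup, v ≠ 0 →
      √(1 / (C * ((n : ℝ) + 1))) ≤ ‖Φ v‖ := by
    intro v hv hv0
    choose u hu using (show ∀ i, ∃ z : 𝓞 K, v i = z from hv)
    have e : v = fun k => (u k : K) := funext hu
    obtain ⟨z, hz⟩ := hint u u
    rw [← e] at hz
    have hz0 : z ≠ 0 := by
      intro h0
      rw [h0] at hz
      have hb' : (b : K) ≠ 0 := by exact_mod_cast hb
      exact mul_ne_zero hb' (hΦ.aniso hd h.det hv0) (by simpa using hz.symm)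
    obtain ⟨σ, hσ⟩ := rcoc_one_le hz0 σ0
    have h1 := hΦ.abs_le σ v v (a := ‖Φ v‖) (b := ‖Φ v‖)
      (fun i => norm_le_pi_norm (Φ v) (σ, i)) (fun i => norm_le_pi_norm (Φ v) (σ, i))
    rw [hz, map_mul, abs_mul] at hσ
    have h2 : |σ b| * |σ (bil A v v)| ≤ C * ((n + 1) * (‖Φ v‖ * ‖Φ v‖)) :=
      mul_le_mul (hbC σ) h1 (abs_nonneg _) hC.le
    refine Real.sqrt_le_iff.2 ⟨norm_nonneg _, ?_⟩
    rw [div_le_iff₀ (by positivity)]
    nlinarith
  have hspan := hR _ (trB A) (sg σ0) Φ (trB_nondeg h.det) hΦ.real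
    (stdL K (n + 1)).toAddSubgroup lat_std le_rfl hmin
  set S : Set (Fin (n + 1) → K) := {x | x ∈ (stdL K (n + 1)).toAddSubgroup ∧ ‖Φ x‖ ≤ R} with hS
  have hK : Submodule.span K S = ⊤ := by
    rw [eq_top_iff]
    intro v _
    have h1 : v ∈ Submodule.span ℚ S := by
      rw [hspan]
      trivial
    exact Submodule.span_subset_span ℚ K S h1
  obtain ⟨t, hts, htsp, hli⟩ := exists_linearIndependent K S
  let b0 : Basis t K (Fin (n + 1) → K) := Basis.mk hli (by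
    rw [Subtype.range_coe, htsp, hK])
  let b1 : Basis (Fin (n + 1)) K (Fin (n + 1) → K) :=
    b0.reindex (b0.indexEquiv (Pi.basisFun K (Fin (n + 1))))
  have hb1 : ∀ j, b1 j ∈ S := fun j => by
    rw [Basis.reindex_apply, Basis.mk_apply]
    exact hts (Subtype.coe_prop _)
  choose u hu using fun j => (show ∀ i, ∃ z : 𝓞 K, b1 j i = z from (hb1 j).1)
  have e : ∀ j, (fun k => ((Matrix.of fun i j => u j i) k j : K)) = b1 j := fun j =>
    funext fun k => (hu j k).symm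
  have hcomp : ∀ j p, |Φ (b1 j) p| ≤ R := fun j p =>
    (norm_le_pi_norm (Φ (b1 j)) p).trans (hb1 j).2
  refine ⟨Matrix.of fun i j => u j i, fun h0 => ?_, fun j => ?_, fun σ i j => ?_⟩
  · have h1 : IsUnit ((algebraMap (𝓞 K) K).mapMatrix (Matrix.of fun i j => u j i)) := by
      rw [← Matrix.linearIndependent_cols_iff_isUnit]
      have e2 : ((algebraMap (𝓞 K) K).mapMatrix (Matrix.of fun i j => u j i)).col = b1 :=
        funext e
      rw [e2]
      exact b1.linearIndependent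
    rw [Matrix.isUnit_iff_isUnit_det, ← RingHom.map_det, h0, map_zero] at h1
    exact not_isUnit_zero h1
  · have h1 := hcomp j (σ0, 0)
    rw [hΦ0, map_ofNat, div_self two_ne_zero, Real.sqrt_one, neg_one_mul, abs_neg, ← e j] at h1
    exact h1.trans (le_max_left _ _)
  · rw [e, e]
    exact (hΦ.abs_le σ _ _ (fun k => hcomp i (σ, k)) fun k => hcomp j (σ, k)).trans
      (le_max_right _ _)

/-- Bounded products with a basis bound the height. -/
theorem rcoc_height (W : Matrix (Fin (n + 1)) (Fin (n + 1)) ℝ) (hW : W.det ≠ 0) (R : ℝ) :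
    ∃ ρ : ℝ, ∀ y : Fin (n + 1) → ℝ, (∀ j, |lor (fun i => W i j) y| ≤ R) → y 0 ≤ ρ := by
  set c : Fin (n + 1) → ℝ := W⁻¹ *ᵥ e0 n with hc
  have h1 : e0 n = ∑ j, c j • fun i => W i j := by
    have h2 : W *ᵥ c = e0 n := by
      rw [hc, mulVec_mulVec, Matrix.mul_nonsing_inv _ (Ne.isUnit hW), one_mulVec]
    rw [← h2]
    funext i
    simp [mulVec, dotProduct, Finset.sum_apply, mul_comm]
  refine ⟨∑ j, |c j| * R, fun y hy => ?_⟩
  have h3 : -y 0 = ∑ j, c j * lor (fun i => W i j) y := by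
    rw [← lor_e0, lor_comm, lor_eq_dot]
    conv_lhs => rw [h1]
    rw [sum_dotProduct]
    refine Finset.sum_congr rfl fun j _ => ?_
    rw [smul_dotProduct, smul_eq_mul, lor_eq_dot]
  have h4 : |y 0| ≤ ∑ j, |c j| * R := by
    rw [← abs_neg, h3]
    refine (Finset.abs_sum_le_sum_abs _ _).trans (Finset.sum_le_sum fun j _ => ?_)
    rw [abs_mul]
    exact mul_le_mul_of_nonneg_left (hy j) (abs_nonneg _)
  exact (le_abs_self _).trans h4

/-- A fixed representative of `x` modulo `d`. -/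
noncomputable def rcocRes (d x : 𝓞 K) : 𝓞 K := (Ideal.Quotient.mk (Ideal.span {d}) x).out

omit [NumberField K] [IsTotallyReal K] in
theorem rcoc_dvd {d x y : 𝓞 K} (h : rcocRes d x = rcocRes d y) : d ∣ x - y := by
  rw [← Ideal.mem_span_singleton, ← Ideal.Quotient.eq]
  exact Quotient.out_injective h

omit [IsTotallyReal K] in
theorem rcoc_res_finite {d : 𝓞 K} (hd : d ≠ 0) : (Set.range (rcocRes d)).Finite := by
  have : Finite (𝓞 K ⧸ Ideal.span {d}) :=
    Ideal.finiteQuotientOfFreeOfNeBot _ (by simpa using hd)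
  refine (Set.finite_range fun q : 𝓞 K ⧸ Ideal.span {d} => q.out).subset ?_
  rintro _ ⟨x, rfl⟩
  exact ⟨_, rfl⟩

/-- The Gram matrix of the columns. -/
def rcocGram (A : Matrix (Fin (n + 1)) (Fin (n + 1)) K)
    (X : Matrix (Fin (n + 1)) (Fin (n + 1)) (𝓞 K)) : Matrix (Fin (n + 1)) (Fin (n + 1)) K :=
  Matrix.of fun i j => bil A (fun k => (X k i : K)) fun k => (X k j : K)

omit [NumberField K] [IsTotallyReal K] in
theorem rcoc_gram_eq (A : Matrix (Fin (n + 1)) (Fin (n + 1)) K)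
    (X : Matrix (Fin (n + 1)) (Fin (n + 1)) (𝓞 K)) :
    rcocGram A X = (X.map (algebraMap (𝓞 K) K))ᵀ * A * X.map (algebraMap (𝓞 K) K) := by
  ext i j
  rw [Matrix.mul_assoc]
  rfl

/-- The type of an integral matrix. -/
noncomputable def rcocType (A : Matrix (Fin (n + 1)) (Fin (n + 1)) K)
    (X : Matrix (Fin (n + 1)) (Fin (n + 1)) (𝓞 K)) :
    (Fin (n + 1) → Fin (n + 1) → K) × 𝓞 K × (Fin (n + 1) → Fin (n + 1) → 𝓞 K) :=
  (rcocGram A X, X.det, fun i j => rcocRes X.det (X i j))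

theorem rcoc_finite (hA : A.det ≠ 0) (R : ℝ) :
    (rcocType A '' {X | X.det ≠ 0 ∧ ∀ (σ : Emb K) i j,
      |σ (bil A (fun k => (X k i : K)) fun k => (X k j : K))| ≤ R}).Finite := by
  obtain ⟨b, C, hb, hC, hbC, hint⟩ := rcoc_den A
  have hb' : (b : K) ≠ 0 := by exact_mod_cast hb
  have hF : ((fun z : 𝓞 K => (z : K) / b) '' {z : 𝓞 K | ∀ σ : Emb K, |σ z| ≤ C * R}).Finite :=
    (finite_bounded (C * R)).image _
  set F := (fun z : 𝓞 K => (z : K) / b) '' {z : 𝓞 K | ∀ σ : Emb K, |σ z| ≤ C * R} with hFdef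
  have hG : {G : Fin (n + 1) → Fin (n + 1) → K | ∀ i j, G i j ∈ F}.Finite :=
    Set.Finite.pi' fun _ => Set.Finite.pi' fun _ => hF
  have hq : ∀ c : K, {d : 𝓞 K | d ≠ 0 ∧ (d : K) ^ 2 * A.det = c}.Finite := by
    intro c
    rcases Set.eq_empty_or_nonempty {d : 𝓞 K | d ≠ 0 ∧ (d : K) ^ 2 * A.det = c} with h0 | ⟨d0, h0⟩
    · rw [h0]
      exact Set.finite_empty
    · refine (Set.toFinite ({d0, -d0} : Set (𝓞 K))).subset fun d hd => ?_
      have h1 : (d : K) ^ 2 = (d0 : K) ^ 2 := mul_right_cancel₀ hA (hd.2.trans h0.2.symm)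
      have h2 : d ^ 2 = d0 ^ 2 := by exact_mod_cast h1
      exact sq_eq_sq_iff_eq_or_eq_neg.1 h2
  have hD := hG.biUnion fun G _ => hq (Matrix.det (Matrix.of G))
  set D := ⋃ G ∈ {G : Fin (n + 1) → Fin (n + 1) → K | ∀ i j, G i j ∈ F},
    {d : 𝓞 K | d ≠ 0 ∧ (d : K) ^ 2 * A.det = Matrix.det (Matrix.of G)} with hDdef
  have hD0 : ∀ d ∈ D, d ≠ 0 := by
    intro d hd
    obtain ⟨G, -, hd'⟩ := Set.mem_iUnion₂.1 hd
    exact hd'.1
  have hE := hD.biUnion fun d hd => rcoc_res_finite (hD0 d hd)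
  have hY : {Y : Fin (n + 1) → Fin (n + 1) → 𝓞 K |
      ∀ i j, Y i j ∈ ⋃ d ∈ D, Set.range (rcocRes d)}.Finite :=
    Set.Finite.pi' fun _ => Set.Finite.pi' fun _ => hE
  refine (hG.prod (hD.prod hY)).subset ?_
  rintro _ ⟨X, ⟨hX0, hX⟩, rfl⟩
  have h1 : ∀ i j, rcocGram A X i j ∈ F := by
    intro i j
    obtain ⟨z, hz⟩ := hint (fun k => X k i) fun k => X k j
    refine ⟨z, fun σ => ?_, ?_⟩
    · rw [hz, map_mul, abs_mul]
      exact mul_le_mul (hbC σ) (hX σ i j) (abs_nonneg _) hC.le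
    · change (z : K) / b = _
      rw [hz, mul_div_cancel_left₀ _ hb']
      rfl
  have h2 : X.det ∈ D := by
    refine Set.mem_iUnion₂.2 ⟨rcocGram A X, h1, hX0, ?_⟩
    change _ = (rcocGram A X).det
    have e : ((X.det : 𝓞 K) : K) = (X.map (algebraMap (𝓞 K) K)).det :=
      (algebraMap (𝓞 K) K).map_det X
    rw [rcoc_gram_eq, det_mul, det_mul, det_transpose, e]
    ring
  exact ⟨h1, h2, fun i j => Set.mem_iUnion₂.2 ⟨X.det, h2, _, rfl⟩⟩

omit [NumberField K] [IsTotallyReal K] in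
/-- Matrices of the same type differ by an integral isometry. -/
theorem rcoc_move {X X0 : Matrix (Fin (n + 1)) (Fin (n + 1)) (𝓞 K)} (hX : X.det ≠ 0)
    (h : rcocType A X0 = rcocType A X) : ∃ g : GL (Fin (n + 1)) (𝓞 K), g.val * X = X0 ∧
      (g.val.map (algebraMap (𝓞 K) K))ᵀ * A * g.val.map (algebraMap (𝓞 K) K) = A := by
  have h1 : rcocGram A X0 = rcocGram A X := congrArg Prod.fst h
  have h2 : X0.det = X.det := congrArg (fun t => t.2.1) h
  have h3 : ∀ i j, X.det ∣ X0 i j - X i j := fun i j => by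
    have h4 : rcocRes X0.det (X0 i j) = rcocRes X.det (X i j) :=
      congrFun (congrFun (congrArg (fun t => t.2.2) h) i) j
    rw [h2] at h4
    exact rcoc_dvd h4
  choose Y hY using h3
  have h5 : (1 + Matrix.of Y * X.adjugate) * X = X0 := by
    rw [Matrix.add_mul, Matrix.one_mul, Matrix.mul_assoc, Matrix.adjugate_mul, Matrix.mul_smul,
      Matrix.mul_one]
    ext i j
    have := hY i j
    simp only [Matrix.add_apply, Matrix.smul_apply, Matrix.of_apply, smul_eq_mul]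
    rw [← this]
    simp
  have h6 : (1 + Matrix.of Y * X.adjugate).det = 1 := by
    have h7 := congrArg Matrix.det h5
    rw [det_mul, h2] at h7
    exact mul_right_cancel₀ hX (by rw [h7, one_mul])
  refine ⟨Matrix.GeneralLinearGroup.mk'' _ (by rw [h6]; exact isUnit_one), h5, ?_⟩
  change ((1 + Matrix.of Y * X.adjugate).map (algebraMap (𝓞 K) K))ᵀ * A *
    (1 + Matrix.of Y * X.adjugate).map (algebraMap (𝓞 K) K) = A
  set g := (1 + Matrix.of Y * X.adjugate).map (algebraMap (𝓞 K) K) with hg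
  set Z := X.map (algebraMap (𝓞 K) K) with hZ
  have h8 : X0.map (algebraMap (𝓞 K) K) = g * Z := by rw [← h5, Matrix.map_mul]
  have hZu : IsUnit Z := by
    rw [Matrix.isUnit_iff_isUnit_det]
    have e : ((X.det : 𝓞 K) : K) = Z.det := (algebraMap (𝓞 K) K).map_det X
    rw [← e]
    exact Ne.isUnit (by exact_mod_cast hX)
  rw [rcoc_gram_eq, rcoc_gram_eq, h8, ← hZ, transpose_mul] at h1
  have h9 : Zᵀ * (gᵀ * A * g * Z) = Zᵀ * (A * Z) := by
    simpa only [Matrix.mul_assoc] using h1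
  exact hZu.mul_right_cancel (((Matrix.isUnit_transpose Z).2 hZu).mul_left_cancel h9)

theorem arith_cocompact (hd : 1 < finrank ℚ K) (h : Adm σ0 A P) : Cocompact (arith σ0 P) := by
  obtain ⟨R, hR⟩ := exists_short_basis hd h
  obtain ⟨T, hT, hTf, hTe⟩ := (rcoc_finite h.det R).exists_subset_finite_image_eq subset_rfl
  set φ : 𝓞 K →+* ℝ := σ0.comp (algebraMap (𝓞 K) K) with hφ
  have hφi : Function.Injective φ := σ0.injective.comp (RingOfIntegers.coe_injective (K := K))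
  have hh : ∀ X0 : Matrix (Fin (n + 1)) (Fin (n + 1)) (𝓞 K), ∃ ρ : ℝ, X0.det ≠ 0 →
      ∀ y : Fin (n + 1) → ℝ, (∀ j, |lor ((P⁻¹).val *ᵥ fun i => φ (X0 i j)) y| ≤ R) → y 0 ≤ ρ := by
    intro X0
    by_cases h0 : X0.det = 0
    · exact ⟨0, fun h1 => absurd h0 h1⟩
    have h1 : ((P⁻¹).val * X0.map φ).det ≠ 0 := by
      have e : φ X0.det = (X0.map φ).det := φ.map_det X0
      rw [det_mul, ← e]
      exact mul_ne_zero (Matrix.GeneralLinearGroup.det_ne_zero _) ((map_ne_zero_iff φ hφi).2 h0)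
    obtain ⟨ρ, hρ⟩ := rcoc_height _ h1 R
    exact ⟨ρ, fun _ y hy => hρ y hy⟩
  choose ρ hρ using hh
  obtain ⟨M, hM⟩ := (hTf.image ρ).bddAbove
  refine ⟨M, fun x hx => ?_⟩
  obtain ⟨X, hX0, hX1, hX2⟩ := hR x hx
  have hmem : rcocType A X ∈ rcocType A '' T := by
    rw [hTe]
    exact ⟨X, ⟨hX0, hX2⟩, rfl⟩
  obtain ⟨X0, hX0T, hty⟩ := hmem
  obtain ⟨g, hg1, hg2⟩ := rcoc_move hX0 hty
  set gR : GL (Fin (n + 1)) ℝ := Matrix.GeneralLinearGroup.map φ g with hgR
  have hgRv : gR.val = g.val.map φ := rfl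
  set H : GL (Fin (n + 1)) ℝ := P⁻¹ * gR * P with hH
  have hPH : P * H = gR * P := by
    rw [hH]
    group
  have hA : gR.valᵀ * A.map σ0 * gR.val = A.map σ0 := by
    have e : gR.val = (g.val.map (algebraMap (𝓞 K) K)).map σ0 := rfl
    rw [e, ← transpose_map, ← Matrix.map_mul, ← Matrix.map_mul, hg2]
  have hlor : ∀ u v, lor (H.val *ᵥ u) (H.val *ᵥ v) = lor u v := by
    rw [lor_mulVec_iff, ← h.sig]
    have e1 : P.val * H.val = gR.val * P.val := by rw [← Units.val_mul, hPH, Units.val_mul]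
    calc H.valᵀ * (P.valᵀ * A.map σ0 * P.val) * H.val
        = (P.val * H.val)ᵀ * A.map σ0 * (P.val * H.val) := by
          simp only [transpose_mul, Matrix.mul_assoc]
      _ = P.valᵀ * (gR.valᵀ * A.map σ0 * gR.val) * P.val := by
          simp only [e1, transpose_mul, Matrix.mul_assoc]
      _ = _ := by rw [hA]
  have hcol : ∀ j, ((P⁻¹).val *ᵥ fun i => φ (X0 i j)) =
      H.val *ᵥ ((P⁻¹).val *ᵥ fun i => σ0 (X i j)) := by
    intro j
    rw [hH, gl_mul_mulVec, gl_mul_mulVec, gl_mulVec_inv]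
    congr 1
    funext i
    rw [← hg1, hgRv]
    simp [mulVec, dotProduct, Matrix.mul_apply, hφ]
  have hbd : ∀ j, |lor ((P⁻¹).val *ᵥ fun i => φ (X0 i j)) (H.val *ᵥ x)| ≤ R := fun j => by
    rw [hcol, hlor]
    exact hX1 j
  have hconj : P * H * P⁻¹ = gR := by
    rw [hPH]
    group
  have hle : ρ X0 ≤ M := hM ⟨X0, hX0T, rfl⟩
  rcases mem_isomH_or_neg hlor with hi | hi
  · exact ⟨H, ⟨hi, g, hconj.symm⟩, (hρ X0 (hT hX0T).1 _ hbd).trans hle⟩
  · refine ⟨-H, ⟨hi, -g, ?_⟩, (hρ X0 (hT hX0T).1 _ fun j => ?_).trans hle⟩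
    · change _ = P * -H * P⁻¹
      rw [mul_neg, neg_mul, hconj]
      ext i j
      simp [hgR, hφ]
    · rw [Units.val_neg, neg_mulVec, lor_neg_right, abs_neg]
      exact hbd j

end Pool.Agent.Work.MP_c8d35c_al
end

-- merged part: Pool.Agent.Work.MP_c8d35c_al.GFin
section
/-! Comparison with the integral group.

Plan. `Form.relIndex`: with `a = det (2 A)` and the adjugate, all
`a • ρ γ` are integral, `a ≠ 0` in `𝓞 K`. Let `L` be the `𝓞 K`-span of the columns of all `ρ γ`: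
`a L ≤ (𝓞 K)^(n+1) ≤ L`, and `L ⧸ a L` is finite (`L ≤ a⁻¹ (𝓞 K)^(n+1)`). The kernel of the action
of `Γ` on `L ⧸ a L` has finite index and its elements have integral matrices. (Or: the map
`γ ↦ (a • ρ γ⁻¹ mod a²)` takes finitely many values (`rcoc_res_finite` in `RCoc.lean`), and if
`γ`, `δ` have the same value then `ρ (γ⁻¹ δ) = 1 + (ρ γ⁻¹ - ρ δ⁻¹) ρ δ` is integral.)
`arith_finite`: `g' = P g P⁻¹` is integral and `g'ᵀ A g' = A` over `K`; at `σ ≠ σ0` the form is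
positive definite, so the entries of `σ g'` are bounded; `finite_bounded`. -/

namespace Pool.Agent.Work.MP_c8d35c_al

open Matrix NumberField

variable {n : ℕ} {K : Type} [Field K]

variable {σ0 : K →+* ℝ} {Γ : Subgroup (GL (Fin (n + 1)) ℝ)} {e : Fin (n + 1) → ℝ}
  {c : Fin (n + 1) → Γ} {P : GL (Fin (n + 1)) ℝ} {A : Matrix (Fin (n + 1)) (Fin (n + 1)) K}
  {ρ : Γ →* Matrix (Fin (n + 1)) (Fin (n + 1)) K} {z : Γ → K}

theorem GFin_den [NumberField K] (h : Form σ0 Γ e c P A ρ z)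
    (hz : ∀ γ, IsIntegral ℤ (2 * z γ)) : ∃ a : 𝓞 K, a ≠ 0 ∧ ∀ γ,
      ∃ M : Matrix (Fin (n + 1)) (Fin (n + 1)) (𝓞 K),
        M.map (algebraMap (𝓞 K) K) = (a : K) • ρ γ := by
  have hN : ∀ γ, ∃ N : Matrix (Fin (n + 1)) (Fin (n + 1)) (𝓞 K),
      N.map (algebraMap (𝓞 K) K) = ((2 : K) • A) * ρ γ := fun γ => by
    refine ⟨Matrix.of fun i j => ⟨2 * z ((c i)⁻¹ * γ * c j), hz _⟩, ?_⟩
    ext i j
    rw [Matrix.smul_mul, Matrix.smul_apply, h.A_rho]
    rfl
  choose N hN using hN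
  have h1 : (N 1).map (algebraMap (𝓞 K) K) = (2 : K) • A := by rw [hN, map_one, Matrix.mul_one]
  have h2 : (((N 1).det : 𝓞 K) : K) = ((2 : K) • A).det := by
    rw [← h1]
    exact (algebraMap (𝓞 K) K).map_det (N 1)
  refine ⟨(N 1).det, fun h0 => ?_, fun γ => ⟨(N 1).adjugate * N γ, ?_⟩⟩
  · rw [h0, Matrix.det_smul] at h2
    exact mul_ne_zero (pow_ne_zero _ two_ne_zero) h.det h2.symm
  · have h3 : (N 1).adjugate.map (algebraMap (𝓞 K) K) = ((2 : K) • A).adjugate := by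
      rw [← h1]
      exact (algebraMap (𝓞 K) K).map_adjugate (N 1)
    rw [Matrix.map_mul, h3, hN, ← Matrix.mul_assoc, Matrix.adjugate_mul, h2, Matrix.smul_mul,
      Matrix.one_mul]

theorem GFin_int [NumberField K] {a : 𝓞 K} (ha : a ≠ 0)
    {M : Γ → Matrix (Fin (n + 1)) (Fin (n + 1)) (𝓞 K)}
    (hM : ∀ γ, (M γ).map (algebraMap (𝓞 K) K) = (a : K) • ρ γ) {γ δ : Γ}
    (hd : ∀ i j, a ^ 2 ∣ M γ⁻¹ i j - M δ⁻¹ i j) :
    ∃ X : Matrix (Fin (n + 1)) (Fin (n + 1)) (𝓞 K), X.map (algebraMap (𝓞 K) K) = ρ (γ⁻¹ * δ) := by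
  choose Y hY using hd
  have ha' : (a : K) ≠ 0 := by exact_mod_cast ha
  have h1 : ρ γ⁻¹ = ρ δ⁻¹ + (a : K) • (Matrix.of Y).map (algebraMap (𝓞 K) K) := by
    ext i j
    have h2 := congrArg (algebraMap (𝓞 K) K) (hY i j)
    have h3 := congrFun (congrFun (hM γ⁻¹) i) j
    have h4 := congrFun (congrFun (hM δ⁻¹) i) j
    simp only [Matrix.map_apply, Matrix.smul_apply, smul_eq_mul] at h3 h4
    rw [map_sub, h3, h4, map_mul, map_pow] at h2
    simp only [Matrix.add_apply, Matrix.smul_apply, Matrix.map_apply, Matrix.of_apply, smul_eq_mul]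
    apply mul_left_cancel₀ ha'
    change (a : K) * _ - (a : K) * _ = (a : K) ^ 2 * _ at h2
    linear_combination h2
  refine ⟨1 + Matrix.of Y * M δ, ?_⟩
  rw [map_mul, h1, Matrix.add_mul, ← map_mul, inv_mul_cancel, map_one, Matrix.smul_mul,
    ← Matrix.mul_smul, ← hM, Matrix.map_add _ (map_add _), Matrix.map_mul,
    Matrix.map_one _ (map_zero _) (map_one _)]

theorem GFin_mem (h : Form σ0 Γ e c P A ρ z) {γ : Γ}
    {X X' : Matrix (Fin (n + 1)) (Fin (n + 1)) (𝓞 K)} (hX : X.map (algebraMap (𝓞 K) K) = ρ γ)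
    (hX' : X'.map (algebraMap (𝓞 K) K) = ρ γ⁻¹) : γ.val ∈ arith σ0 P := by
  have hi : Function.Injective fun Z : Matrix (Fin (n + 1)) (Fin (n + 1)) (𝓞 K) =>
      Z.map (algebraMap (𝓞 K) K) := Matrix.map_injective (RingOfIntegers.coe_injective (K := K))
  have h1 : X * X' = 1 := hi (by
    simp only [Matrix.map_mul, hX, hX']
    rw [← map_mul, mul_inv_cancel, map_one, Matrix.map_one _ (map_zero _) (map_one _)])
  have h2 : X' * X = 1 := hi (by
    simp only [Matrix.map_mul, hX, hX']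
    rw [← map_mul, inv_mul_cancel, map_one, Matrix.map_one _ (map_zero _) (map_one _)])
  refine ⟨h.le γ.2, ⟨X, X', h1, h2⟩, Units.ext ?_⟩
  change X.map (σ0.comp (algebraMap (𝓞 K) K)) = (P * γ.val * P⁻¹).val
  rw [← h.rho, ← hX, Matrix.map_map]
  rfl

theorem Form.relIndex [NumberField K] (h : Form σ0 Γ e c P A ρ z)
    (hz : ∀ γ, IsIntegral ℤ (2 * z γ)) : (arith σ0 P).relIndex Γ ≠ 0 := by
  obtain ⟨a, ha, hM⟩ := GFin_den h hz
  choose M hM using hM
  have hF : {Y : Fin (n + 1) → Fin (n + 1) → 𝓞 K |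
      ∀ i j, Y i j ∈ Set.range (rcocRes (a ^ 2))}.Finite :=
    Set.Finite.pi' fun _ => Set.Finite.pi' fun _ => rcoc_res_finite (pow_ne_zero 2 ha)
  have := hF.to_subtype
  have : Finite (Γ ⧸ (arith σ0 P).subgroupOf Γ) := by
    refine Finite.of_injective (β := {Y : Fin (n + 1) → Fin (n + 1) → 𝓞 K |
      ∀ i j, Y i j ∈ Set.range (rcocRes (a ^ 2))})
      (fun q => ⟨fun i j => rcocRes (a ^ 2) (M q.out⁻¹ i j), fun i j => ⟨_, rfl⟩⟩) fun q q' hq => ?_
    have h1 : ∀ i j, rcocRes (a ^ 2) (M q.out⁻¹ i j) = rcocRes (a ^ 2) (M q'.out⁻¹ i j) :=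
      fun i j => congrFun (congrFun (congrArg Subtype.val hq) i) j
    obtain ⟨X, hX⟩ := GFin_int ha hM fun i j => rcoc_dvd (h1 i j)
    obtain ⟨X', hX'⟩ := GFin_int ha hM fun i j => rcoc_dvd (h1 i j).symm
    rw [← q.out_eq, ← q'.out_eq]
    refine QuotientGroup.eq.2 (GFin_mem h (X' := X') hX ?_)
    rw [hX', _root_.mul_inv_rev, inv_inv]
  exact Subgroup.index_ne_zero_of_finite

theorem GFin_pos {m : ℕ} {S Y : Matrix (Fin m) (Fin m) ℝ} (hS : S.PosDef) (hY : Yᵀ * S * Y = S)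
    (i j : Fin m) : |Y i j| ≤ (S j j + S⁻¹ i i) / 2 := by
  have hu : IsUnit S.det := (Matrix.isUnit_iff_isUnit_det S).1 hS.isUnit
  have hs : Sᵀ = S := by simpa using hS.isHermitian.eq
  set y : Fin m → ℝ := fun k => Y k j with hy
  set w : Fin m → ℝ := S⁻¹ *ᵥ Pi.single i 1 with hw
  have h1 : S *ᵥ w = Pi.single i 1 := by
    rw [hw, Matrix.mulVec_mulVec, Matrix.mul_nonsing_inv _ hu, Matrix.one_mulVec]
  have h2 : y ⬝ᵥ S *ᵥ y = S j j := by
    conv_rhs => rw [← hY, Matrix.mul_assoc]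
    rfl
  have h3 : w ⬝ᵥ S *ᵥ y = Y i j := by
    rw [Matrix.dotProduct_mulVec, ← Matrix.mulVec_transpose, hs, h1]
    simp [hy]
  have h4 : y ⬝ᵥ S *ᵥ w = Y i j := by
    rw [h1]
    simp [hy]
  have h5 : w ⬝ᵥ S *ᵥ w = S⁻¹ i i := by
    rw [h1]
    simp [hw]
  have h6 := hS.posSemidef.dotProduct_mulVec_nonneg (y + w)
  have h7 := hS.posSemidef.dotProduct_mulVec_nonneg (y - w)
  simp only [star_trivial, Matrix.mulVec_add, Matrix.mulVec_sub, add_dotProduct, sub_dotProduct,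
    dotProduct_add, dotProduct_sub, h2, h3, h4, h5] at h6 h7
  rw [abs_le]
  constructor <;> linarith

theorem GFin_conj {P Q g : Matrix (Fin (n + 1)) (Fin (n + 1)) ℝ} {B : ℝ} (hg : ∀ i j, |g i j| ≤ B)
    (i j : Fin (n + 1)) : |(P * g * Q) i j| ≤ ∑ l, (∑ k, |P i k| * B) * |Q l j| := by
  rw [Matrix.mul_apply]
  refine (Finset.abs_sum_le_sum_abs _ _).trans (Finset.sum_le_sum fun l _ => ?_)
  rw [abs_mul, Matrix.mul_apply]
  refine mul_le_mul_of_nonneg_right ((Finset.abs_sum_le_sum_abs _ _).trans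
    (Finset.sum_le_sum fun k _ => ?_)) (abs_nonneg _)
  rw [abs_mul]
  exact mul_le_mul_of_nonneg_left (hg k l) (abs_nonneg _)

theorem GFin_iso [NumberField K] [IsTotallyReal K] (h : Adm σ0 A P) {g : GL (Fin (n + 1)) ℝ}
    (hg : g ∈ isomH n) {X : Matrix (Fin (n + 1)) (Fin (n + 1)) K}
    (hX : X.map σ0 = (P * g * P⁻¹).val) : Xᵀ * A * X = A := by
  apply Matrix.map_injective σ0.injective
  have h1 := (lor_mulVec_iff g.val).1 hg.1
  have h2 : X.map σ0 * P.val = P.val * g.val := by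
    rw [hX, ← Units.val_mul, inv_mul_cancel_right, Units.val_mul]
  have hu : IsUnit P.val := P.isUnit
  simp only [Matrix.map_mul, Matrix.transpose_map]
  apply ((Matrix.isUnit_transpose P.val).2 hu).mul_left_cancel
  apply hu.mul_right_cancel
  rw [h.sig, ← h1, ← h.sig]
  calc P.valᵀ * ((X.map σ0)ᵀ * A.map σ0 * X.map σ0) * P.val
      = (X.map σ0 * P.val)ᵀ * A.map σ0 * (X.map σ0 * P.val) := by
        simp only [Matrix.transpose_mul, Matrix.mul_assoc]
    _ = _ := by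
        rw [h2]
        simp only [Matrix.transpose_mul, Matrix.mul_assoc]

theorem arith_finite [NumberField K] [IsTotallyReal K] (h : Adm σ0 A P) (B : ℝ) :
    {g | g ∈ arith σ0 P ∧ ∀ i j, |g.val i j| ≤ B}.Finite := by
  classical
  obtain ⟨R, hR⟩ := (Set.finite_range fun t : Emb K × Fin (n + 1) × Fin (n + 1) =>
    if t.1 = σ0 then ∑ l, (∑ k, |P.val t.2.1 k| * B) * |(P⁻¹).val l t.2.2|
    else ((A.map t.1) t.2.2 t.2.2 + (A.map t.1)⁻¹ t.2.1 t.2.1) / 2).bddAbove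
  have hF : {Y : Fin (n + 1) → Fin (n + 1) → 𝓞 K |
      ∀ i j, Y i j ∈ {z : 𝓞 K | ∀ σ : Emb K, |σ z| ≤ R}}.Finite :=
    Set.Finite.pi' fun _ => Set.Finite.pi' fun _ => finite_bounded R
  refine Set.Finite.of_finite_image (f := Units.val) ((hF.image fun Y =>
    (P⁻¹).val * (Matrix.of Y).map (σ0.comp (algebraMap (𝓞 K) K)) * P.val).subset ?_)
    Units.val_injective.injOn
  rintro _ ⟨g, ⟨⟨hg, X, hX⟩, hB⟩, rfl⟩
  have h1 : X.val.map (σ0.comp (algebraMap (𝓞 K) K)) = (P * g * P⁻¹).val :=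
    congrArg Units.val hX
  have h2 := GFin_iso h hg (X := X.val.map (algebraMap (𝓞 K) K)) h1
  refine ⟨X.val, fun i j σ => le_trans ?_ (hR ⟨(σ, i, j), rfl⟩), ?_⟩
  · by_cases hσ : σ = σ0
    · subst hσ
      have h3 : σ (X.val i j) = (P.val * g.val * (P⁻¹).val) i j := congrFun (congrFun h1 i) j
      simp only [if_true, h3]
      exact GFin_conj hB i j
    · simp only [if_neg hσ]
      have h3 := congrArg (fun Z => Matrix.map Z σ) h2
      simp only [Matrix.map_mul, Matrix.transpose_map] at h3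
      exact GFin_pos (h.pos σ hσ) h3 i j
  · change (P⁻¹).val * X.val.map (σ0.comp (algebraMap (𝓞 K) K)) * P.val = g.val
    rw [h1, ← Units.val_mul, ← Units.val_mul]
    congr 1
    group

end Pool.Agent.Work.MP_c8d35c_al
end

-- merged part: Pool.Agent.Work.MP_c8d35c_al.RMain
section
/-! Assembly: no cocompact arithmetic reflection group in dimension at least 13. -/

namespace Pool.Agent.Work.MP_c8d35c_al

set_option linter.unusedSectionVars false

open NumberField Module Matrix Real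

variable {K : Type} [Field K] [NumberField K] {n : ℕ}

/-- The reflection over `K`. -/
noncomputable def reflKm (A : Matrix (Fin (n + 1)) (Fin (n + 1)) K) (v : Fin (n + 1) → K) :
    Matrix (Fin (n + 1)) (Fin (n + 1)) K :=
  1 - (2 / bil A v v) • Matrix.vecMulVec v (A *ᵥ v)

lemma reflKm_mulVec (A : Matrix (Fin (n + 1)) (Fin (n + 1)) K) (v x : Fin (n + 1) → K) :
    reflKm A v *ᵥ x = x - (2 * bil A x v / bil A v v) • v := by
  rw [reflKm, Matrix.sub_mulVec, Matrix.one_mulVec, Matrix.smul_mulVec, Matrix.vecMulVec_mulVec]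
  congr 1
  funext i
  simp only [Pi.smul_apply, smul_eq_mul, MulOpposite.smul_eq_mul_unop, MulOpposite.unop_op, bil,
    dotProduct_comm (A *ᵥ v) x]
  ring

lemma reflKm_sq (A : Matrix (Fin (n + 1)) (Fin (n + 1)) K) {v : Fin (n + 1) → K}
    (hv : bil A v v ≠ 0) : reflKm A v * reflKm A v = 1 := by
  apply Matrix.toLin'.injective
  refine LinearMap.ext fun x => ?_
  rw [Matrix.toLin'_apply, Matrix.toLin'_apply, ← Matrix.mulVec_mulVec, reflKm_mulVec,
    reflKm_mulVec, Matrix.one_mulVec, bil_sub_left, bil_smul_left]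
  rw [sub_sub, ← add_smul]
  have : 2 * bil A x v / bil A v v +
      2 * (bil A x v - 2 * bil A x v / bil A v v * bil A v v) / bil A v v = 0 := by
    field_simp; ring
  rw [this, zero_smul, sub_zero]

/-- The embedding of `GL(K)` into `GL(ℝ)` in Lorentz coordinates. -/
noncomputable def phi (σ0 : Emb K) (P : GL (Fin (n + 1)) ℝ) :
    GL (Fin (n + 1)) K →* GL (Fin (n + 1)) ℝ :=
  (MulAut.conj P⁻¹).toMonoidHom.comp (Matrix.GeneralLinearGroup.map σ0)

/-- The real vector attached to a vector over `K`. -/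
noncomputable def rv (σ0 : Emb K) (P : GL (Fin (n + 1)) ℝ) (v : Fin (n + 1) → K) :
    Fin (n + 1) → ℝ := (P⁻¹).val *ᵥ fun i => σ0 (v i)

lemma rv_smul (σ0 : Emb K) (P : GL (Fin (n + 1)) ℝ) (c : K) (v : Fin (n + 1) → K) :
    rv σ0 P (c • v) = σ0 c • rv σ0 P v := by
  rw [rv, rv, ← Matrix.mulVec_smul]
  congr 1
  funext i
  simp

lemma rv_sub (σ0 : Emb K) (P : GL (Fin (n + 1)) ℝ) (u v : Fin (n + 1) → K) :
    rv σ0 P (u - v) = rv σ0 P u - rv σ0 P v := by
  rw [rv, rv, rv, ← Matrix.mulVec_sub]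
  congr 1
  funext i
  simp

lemma phi_val (σ0 : Emb K) (P : GL (Fin (n + 1)) ℝ) (g : GL (Fin (n + 1)) K) :
    phi σ0 P g = P⁻¹ * Matrix.GeneralLinearGroup.map σ0 g * P := by
  simp [phi]

lemma phi_rv (σ0 : Emb K) (P : GL (Fin (n + 1)) ℝ) (g : GL (Fin (n + 1)) K)
    (v : Fin (n + 1) → K) : (phi σ0 P g).val *ᵥ rv σ0 P v = rv σ0 P (g.val *ᵥ v) := by
  rw [phi_val, gl_mul_mulVec, gl_mul_mulVec, rv, gl_mulVec_inv, rv]
  congr 1
  funext i
  exact (RingHom.map_mulVec σ0 g.val v i).symm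

lemma gl_ext_rv (σ0 : Emb K) (P : GL (Fin (n + 1)) ℝ) {g h : GL (Fin (n + 1)) ℝ}
    (H : ∀ v, g.val *ᵥ rv σ0 P v = h.val *ᵥ rv σ0 P v) : g = h := by
  have : g * P⁻¹ = h * P⁻¹ := by
    apply Units.ext
    ext i j
    have h1 := congrFun (H (Pi.single j 1)) i
    have h2 : (fun i => σ0 ((Pi.single j 1 : Fin (n + 1) → K) i)) = Pi.single j 1 := by
      funext k
      by_cases hk : k = j
      · subst hk; simp
      · simp [hk]
    rw [rv, h2, ← gl_mul_mulVec, ← gl_mul_mulVec] at h1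
    simpa [Matrix.mulVec_single_one] using h1
  exact mul_right_cancel this

variable [IsTotallyReal K] {σ0 : Emb K} {A : Matrix (Fin (n + 1)) (Fin (n + 1)) K}
  {P : GL (Fin (n + 1)) ℝ}

lemma exists_reflK (h : Adm σ0 A P) {e : Fin (n + 1) → ℝ} (he : lor e e = 1)
    {v : Fin (n + 1) → K} {s : ℝ} (hv : v ≠ 0) (hs : 0 < s) (hev : e = s • rv σ0 P v) :
    TPos (bil A v v) ∧ ∃ g : GL (Fin (n + 1)) K, phi σ0 P g = refl e ∧
      ∀ x, g.val *ᵥ x = x - (2 * bil A x v / bil A v v) • v := by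
  have h1 : s ^ 2 * σ0 (bil A v v) = 1 := by
    rw [← he, hev, lor_smul_left, lor_smul_right, rv, h.lor_eq]; ring
  have h0 : 0 < σ0 (bil A v v) := by
    by_contra hle
    nlinarith [not_lt.1 hle, sq_nonneg s]
  have hb : bil A v v ≠ 0 := fun hb => by rw [hb, map_zero] at h0; exact lt_irrefl _ h0
  refine ⟨fun σ => ?_, ⟨reflKm A v, reflKm A v, reflKm_sq A hb, reflKm_sq A hb⟩, ?_,
    reflKm_mulVec A v⟩
  · by_cases hσ : σ = σ0
    · rw [hσ]; exact h0
    · exact h.bil_pos hσ hv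
  · refine gl_ext_rv σ0 P fun x => ?_
    rw [phi_rv, hev, refl_smul hs.ne', refl_mulVec]
    change rv σ0 P (reflKm A v *ᵥ x) = _
    rw [reflKm_mulVec, rv_sub, rv_smul]
    simp only [rv, h.lor_eq, map_div₀, map_mul, map_ofNat]

lemma comap_arith_le (σ0 : Emb K) (P : GL (Fin (n + 1)) ℝ) :
    (arith σ0 P).comap (phi σ0 P) ≤ glO K (n + 1) := by
  rintro g ⟨-, z, hz⟩
  refine ⟨z, ?_⟩
  have h1 : Matrix.GeneralLinearGroup.map (σ0.comp (algebraMap (𝓞 K) K)) z =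
      Matrix.GeneralLinearGroup.map σ0 g := by
    rw [hz, phi_val]
    simp [mul_assoc]
  apply Units.ext
  ext i j
  apply σ0.injective
  exact congrArg (fun u : GL (Fin (n + 1)) ℝ => u.val i j) h1

theorem exists_rootBound (hd : 1 < finrank ℚ K) (hn : 13 ≤ n) (h : Adm σ0 A P)
    {S : Set (GL (Fin (n + 1)) ℝ)} (hS : ∀ g ∈ S, IsRefl g)
    (hcomm : Subgroup.Commensurable (Subgroup.closure S) (arith σ0 P)) :
    ∃ Δ l0 : ℝ, 0 < l0 ∧ Δ < ((n : ℝ) - 1) * Gamma (((n : ℝ) - 1) / 2) ∧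
      RootBound (Subgroup.closure S) Δ l0 := by
  classical
  set Γ := Subgroup.closure S with hΓdef
  have hΓ : Γ ≤ isomH n := closure_le_isomH hS
  have hc := arith_cocompact hd h
  have hrat : ∀ e ∈ roots Γ, ∃ (v : Fin (n + 1) → K) (s : ℝ), v ≠ 0 ∧ 0 < s ∧
      e = s • rv σ0 P v := fun e he => root_rational hd (by omega) h hΓ hc hcomm he
  have hrange : Γ ≤ (phi σ0 P).range := by
    rw [hΓdef, Subgroup.closure_le]
    intro g hg
    obtain ⟨e, he, rfl⟩ := (isRefl_iff g).1 (hS g hg)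
    obtain ⟨v, s, hv, hs, hev⟩ := hrat e ⟨he, Subgroup.subset_closure hg⟩
    obtain ⟨-, g', hg', -⟩ := exists_reflK h he hv hs hev
    exact ⟨g', hg'⟩
  have hidx : (glO K (n + 1)).relIndex (Γ.comap (phi σ0 P)) ≠ 0 := by
    intro h0
    have h1 := Subgroup.relIndex_eq_zero_of_le_left (comap_arith_le σ0 P) h0
    rw [Subgroup.relIndex_comap, Subgroup.map_comap_eq_self hrange] at h1
    exact hcomm.2 h1
  obtain ⟨L, Pr, hL, hPr, hr, hinv⟩ := exists_max_lattice h.symm h.det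
    (G := Γ.comap (phi σ0 P)) (fun g hg x y => by
      apply σ0.injective
      have := isomH_lor (hΓ hg) (rv σ0 P x) (rv σ0 P y)
      rw [phi_rv, phi_rv] at this
      simpa only [rv, h.lor_eq] using this) hidx
  obtain ⟨R, E, Z5, Z7, hR, hE, h5, h7, hnum⟩ := field_data hd hn
  obtain ⟨C, hC, hsum, hcls⟩ := classes hn hL hPr hr hR hE h5 h7
  -- every root comes from one of the classes
  have hroot : ∀ e ∈ roots Γ, ∃ c ∈ C, ∃ v ∈ c.2, bil A v v = c.1 ∧
      e = (√(σ0 c.1))⁻¹ • rv σ0 P v := by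
    intro e he
    obtain ⟨v, s, hv, hs, hev⟩ := hrat e he
    obtain ⟨hpos, g, hg, hgx⟩ := exists_reflK h he.1 hv hs hev
    have hb : bil A v v ≠ 0 := fun hb => by
      have := hpos σ0
      rw [hb, map_zero] at this
      exact lt_irrefl _ this
    obtain ⟨c, hcC, t, ht, htv, hm⟩ := hcls v hb ⟨hpos, hv, fun x hx => by
      rw [← hgx]
      exact hinv g (by rw [Subgroup.mem_comap, hg]; exact he.2) x hx⟩
    have h1 : s ^ 2 * σ0 (bil A v v) = 1 := by
      rw [← he.1, hev, lor_smul_left, lor_smul_right, rv, h.lor_eq]; ring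
    have h2 : σ0 c.1 = (σ0 t / s) ^ 2 := by
      rw [← hm, bil_smul_left, bil_smul_right, map_mul, map_mul]
      field_simp
      linear_combination (σ0 t) ^ 2 * h1
    have ht' : σ0 t ≠ 0 := (_root_.map_ne_zero σ0).2 ht
    rcases lt_or_gt_of_ne ht' with hneg | hposs
    · refine ⟨c, hcC, (-t) • v, by rw [neg_smul]; exact c.2.neg_mem htv, ?_, ?_⟩
      · rw [neg_smul, bil_neg_left, bil_neg_right, neg_neg, hm]
      · rw [h2, sqrt_sq_eq_abs, abs_of_neg (div_neg_of_neg_of_pos hneg hs), rv_smul, smul_smul,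
          hev]
        congr 1
        rw [map_neg]
        field_simp
    · refine ⟨c, hcC, t • v, htv, hm, ?_⟩
      rw [h2, sqrt_sq_eq_abs, abs_of_pos (div_pos hposs hs), rv_smul, smul_smul, hev]
      congr 1
      field_simp
  have hG : 0 < Gamma (((n : ℝ) - 1) / 2) := by
    have : (13 : ℝ) ≤ n := by exact_mod_cast hn
    exact Gamma_pos_of_pos (by linarith)
  set k := Gamma (((n : ℝ) - 1) / 2) * an n * bn n ^ (finrank ℚ K - 1) *
    dsc K ^ (-((n : ℝ) / 2)) with hk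
  have hk0 : 0 ≤ k := by
    have := an_pos (n := n) (by omega)
    have := bn_pos n
    have : 0 < dsc K := lt_of_lt_of_le one_pos one_le_dsc
    positivity
  have hlt : ∑ c ∈ C, k * sgs ((2 / c.1) • A) c.2 < ((n : ℝ) - 1) * Gamma (((n : ℝ) - 1) / 2) := by
    rw [← Finset.mul_sum]
    refine lt_of_le_of_lt (mul_le_mul_of_nonneg_left hsum hk0) ?_
    have := mul_lt_mul_of_pos_left hnum hG
    rw [hk]
    linarith
  set η := (((n : ℝ) - 1) * Gamma (((n : ℝ) - 1) / 2) - ∑ c ∈ C, k * sgs ((2 / c.1) • A) c.2) /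
    (C.card + 1) with hη
  have hη0 : 0 < η := div_pos (by linarith) (by positivity)
  have hcm : ∀ c ∈ C, _ := fun c hcC =>
    cm hd (by omega) σ0 (hC c hcC).2 (Δ := k * sgs ((2 / c.1) • A) c.2 + η) (by linarith)
  choose! l1 hl1 hl using hcm
  obtain ⟨l0, hl0, hl01⟩ : ∃ l0 : ℝ, 0 < l0 ∧ ∀ c ∈ C, l0 ≤ l1 c := by
    by_cases hne : C.Nonempty
    · obtain ⟨c, hcC, hmin⟩ := C.exists_min_image l1 hne
      exact ⟨l1 c, hl1 c hcC, hmin⟩
    · exact ⟨1, one_pos, fun c hcC => absurd ⟨c, hcC⟩ hne⟩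
  refine ⟨∑ c ∈ C, (k * sgs ((2 / c.1) • A) c.2 + η), l0, hl0, ?_, ?_⟩
  · rw [Finset.sum_add_distrib, Finset.sum_const, nsmul_eq_mul]
    have : (C.card + 1) * η = ((n : ℝ) - 1) * Gamma (((n : ℝ) - 1) / 2) -
        ∑ c ∈ C, k * sgs ((2 / c.1) • A) c.2 := by
      rw [hη]; field_simp
    linarith
  · intro x hx l hl0' hll s hs
    choose! cl hclC vv hvM hvb hve using hroot
    rw [← Finset.sum_fiberwise_of_maps_to (g := cl) (t := C) (fun e he => hclC e (hs he)),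
      Finset.sum_mul]
    refine Finset.sum_le_sum fun c hcC => ?_
    obtain ⟨Φ, hΦ, hΦ0⟩ := h.frame (hC c hcC).1 hx
    have hc0 : 0 < σ0 c.1 := (hC c hcC).1 σ0
    have hc1 : c.1 ≠ 0 := fun h0 => by rw [h0, map_zero] at hc0; exact lt_irrefl _ hc0
    have hmem : ∀ e ∈ s.filter (fun e => cl e = c), e ∈ roots Γ ∧ cl e = c := fun e he =>
      ⟨hs (Finset.mem_filter.1 he).1, (Finset.mem_filter.1 he).2⟩
    refine le_trans (le_of_eq ?_) (hl c hcC Φ hΦ l hl0' (hll.trans (hl01 c hcC))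
      ((s.filter fun e => cl e = c).image vv) ?_)
    · rw [Finset.sum_image]
      · refine Finset.sum_congr rfl fun e he => ?_
        obtain ⟨h1, h2⟩ := hmem e he
        have h3 := hve e h1
        rw [h2] at h3
        have h4 : lor e x = (√(σ0 c.1))⁻¹ * lor (rv σ0 P (vv e)) x := by
          conv_lhs => rw [h3]
          rw [lor_smul_left]
        rw [hΦ0, h4, mul_pow, mul_pow, neg_sq, sq_sqrt (by positivity), inv_pow, sq_sqrt hc0.le]
        congr 3
        rw [rv]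
        field_simp
      · intro e he e' he' hee
        obtain ⟨h1, h2⟩ := hmem e he
        obtain ⟨h1', h2'⟩ := hmem e' he'
        rw [hve e h1, hve e' h1', h2, h2', hee]
    · intro v hv
      obtain ⟨e, he, rfl⟩ := Finset.mem_image.1 hv
      obtain ⟨h1, h2⟩ := hmem e he
      refine ⟨h2 ▸ hvM e h1, ?_⟩
      rw [bil_smul_form, hvb e h1, h2]
      field_simp

theorem main (hd : 1 < finrank ℚ K) (hn : 13 ≤ n) (h : Adm σ0 A P)
    {S : Set (GL (Fin (n + 1)) ℝ)} (hS : ∀ g ∈ S, IsRefl g) :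
    ¬ Subgroup.Commensurable (Subgroup.closure S) (arith σ0 P) := by
  intro hcomm
  obtain ⟨Δ, l0, hl0, hΔ, hR⟩ := exists_rootBound hd hn h hS hcomm
  have hc : Cocompact (Subgroup.closure S) :=
    (arith_cocompact hd h).of_relIndex inf_le_left hcomm.1
  obtain ⟨m, rfl⟩ : ∃ m, n = m + 1 := ⟨n - 1, by omega⟩
  have := geo_main (by omega) hS hc hl0 hR
  push_cast at hΔ
  rw [add_sub_cancel_right] at hΔ
  linarith

end Pool.Agent.Work.MP_c8d35c_al
end
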