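import Pool.Agent.Work.MP_c8d35c_al.QDiv
import Pool.Agent.Work.MP_c8d35c_al.QFrame
import Pool.Agent.Work.MP_c8d35c_al.GTri
import Pool.Agent.Work.MP_c8d35c_al.RSing
import Pool.Agent.Work.MP_c8d35c_al.QEnum
import Pool.Agent.Work.MP_c8d35c_al.QNum2
import Pool.Agent.Work.MP_c8d35c_al.QB
import Pool.Agent.Work.MP_c8d35c_al.RMain

-- merged part: Pool.Agent.Work.MP_c8d35c_al.QSplit
section
/-! Splitting and cancelling hyperbolic planes.

Plan. `split`: replace `f` by `f' = f - (β f f / 2) z` (isotropic, in `X`); `M.W` is the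
subspace orthogonal to `z` and `f'` (a subtype), `M.X` the preimage of `X`; the isometry is
`x ↦ ((β x f', β x z), x - β x f' • z - β x z • f')`. `Full` by `full_iff`.
`tv` is the Eichler transvection. `eichler`: write `e₁ = ((1,0),0)`, `f₁ = ((0,1),0)`,
`e₂ = (0,(1,0),0)`, `f₂`. Among the automorphisms `g` choose one for which `a = β (g v) e₁` is
nonzero of least absolute value (or, if always zero, `a = 0`). The transvection `tv e₁ (k e₂)`,
`tv e₁ (k f₂)` change the coordinates along `e₂`, `f₂` by multiples of `a`, and the swaps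
`e₁ ↔ e₂, f₁ ↔ f₂` or `e₂ ↔ f₂` move them to the place of `a`; so `a` divides both and we can
make both zero. Then `tv e₂ w` (`w` in `N`, or `w = f₁`) keeps `a` and makes the
`e₂`-coordinate `-β v w`, so `a` divides `β v w` for all `w`, hence `a = ±1`; use `-1` and the
swap `e₁ ↔ f₁`; `tv` kills the `N`-part; the last coordinate vanishes as `v` is isotropic.
`cancel_fix`: the `B`-component of `φ (0, a)`. -/

namespace Pool.Agent.Work.MP_c8d35c_al

open Module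

namespace QL

theorem QSplit_smul (L : QL) {c : ℚ} (hc : ∃ k : ℤ, c = k) {x : L.W} (hx : x ∈ L.X) :
    c • x ∈ L.X := by
  obtain ⟨k, rfl⟩ := hc
  rw [Int.cast_smul_eq_zsmul]
  exact L.X.zsmul_mem hx k

theorem QSplit_int (L : QL) {x y : L.W} (hx : x ∈ L.X) (hy : y ∈ L.X) : ∃ k : ℤ, L.β x y = k :=
  L.X_le_D hy x hx

theorem QSplit_half (L : QL) {x : L.W} (hx : x ∈ L.X) : ∃ k : ℤ, L.β x x / 2 = k := by
  obtain ⟨k, hk⟩ := L.even x hx
  exact ⟨k, by rw [hk]; ring⟩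

theorem QSplit_split (L : QL) {z f : L.W} (hz : z ∈ L.X) (hf : f ∈ L.X) (h0 : L.β z z = 0)
    (h1 : L.β z f = 1) (h2 : L.β f f = 0) : ∃ M : QL, L.Iso (U.prod M) := by
  have h1' : L.β f z = 1 := by rw [L.symm, h1]
  let K : Submodule ℚ L.W := LinearMap.ker (L.β z) ⊓ LinearMap.ker (L.β f)
  have hK : ∀ x, x ∈ K ↔ L.β z x = 0 ∧ L.β f x = 0 := fun x => Iff.rfl
  let p0 : L.W →ₗ[ℚ] L.W := LinearMap.id - (L.β f).smulRight z - (L.β z).smulRight f
  have hp0 : ∀ x, p0 x = x - L.β f x • z - L.β z x • f := fun x => rfl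
  have hp1 : ∀ x, p0 x ∈ K := fun x => by
    rw [hK, hp0]
    simp [h0, h1, h1', h2]
  let p : L.W →ₗ[ℚ] K := p0.codRestrict K hp1
  have hp : ∀ x, (p x : L.W) = x - L.β f x • z - L.β z x • f := fun x => rfl
  have hpX : ∀ x ∈ L.X, (p x : L.W) ∈ L.X := fun x hx => by
    rw [hp]
    exact sub_mem (sub_mem hx (L.QSplit_smul (L.QSplit_int hf hx) hz))
      (L.QSplit_smul (L.QSplit_int hz hx) hf)
  have hpK : ∀ k : K, p k = k := fun k => Subtype.ext (by
    rw [hp, ((hK _).1 k.2).1, ((hK _).1 k.2).2]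
    simp)
  have hz' : ∀ k : K, L.β k z = 0 := fun k => by rw [L.symm]; exact ((hK _).1 k.2).1
  have hf' : ∀ k : K, L.β k f = 0 := fun k => by rw [L.symm]; exact ((hK _).1 k.2).2
  let Y : AddSubgroup K := L.X.comap K.subtype.toAddMonoidHom
  have hY : ∀ k : K, k ∈ Y ↔ (k : L.W) ∈ L.X := fun k => Iff.rfl
  have hfull : Full Y := by
    refine (full_iff Y).2 ⟨?_, ?_⟩
    · have e : Y = L.X.map p.toAddMonoidHom := by
        ext k
        rw [AddSubgroup.mem_map, hY]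
        exact ⟨fun h => ⟨k, h, hpK k⟩, fun ⟨x, hx, h⟩ => h ▸ hpX x hx⟩
      obtain ⟨S, hS⟩ := RLat_fg L.full
      classical
      refine ⟨S.image p, ?_⟩
      rw [e, ← hS, AddMonoidHom.map_closure, Finset.coe_image]
      rfl
    · rw [eq_top_iff]
      intro k _
      obtain ⟨c, hc, h⟩ := L.full.exists_nsmul_mem (k : L.W)
      have h3 : c • k ∈ Submodule.span ℚ (Y : Set K) := Submodule.subset_span h
      have h4 : k = ((c : ℕ) : ℚ)⁻¹ • c • k := by
        rw [← Nat.cast_smul_eq_nsmul ℚ, inv_smul_smul₀]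
        positivity
      rw [h4]
      exact Submodule.smul_mem _ _ h3
  let M : QL :=
    { W := K
      β := L.β.compl₁₂ K.subtype K.subtype
      symm := fun x y => L.symm x y
      nd := fun x h => Subtype.ext (L.nd x fun y => by
        have h3 : L.β x (p y) = 0 := h (p y)
        rw [hp, map_sub, map_sub, map_smul, map_smul, hz', hf'] at h3
        simpa using h3)
      X := Y
      full := hfull
      even := fun x hx => L.even x hx }
  let e : L.W ≃ₗ[ℚ] (ℚ × ℚ) × K :=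
    { toFun := fun x => ((L.β f x, L.β z x), p x)
      invFun := fun y => y.1.1 • z + y.1.2 • f + y.2
      map_add' := fun x y => by simp
      map_smul' := fun c x => by simp
      left_inv := fun x => by
        simp only [hp]
        abel
      right_inv := fun y => by
        obtain ⟨⟨a, b⟩, k⟩ := y
        have a1 := ((hK _).1 k.2).1
        have a2 := ((hK _).1 k.2).2
        refine Prod.ext (Prod.ext ?_ ?_) (Subtype.ext ?_)
        · simp [h1', h2, a2]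
        · simp [h0, h1, a1]
        · simp only [hp]
          simp [h0, h1, h1', h2, a1, a2]
          abel }
  refine ⟨M, e, fun x y => ?_, fun x => ?_⟩
  · change L.β f x * L.β z y + L.β z x * L.β f y + L.β (p x) (p y) = L.β x y
    rw [hp, hp]
    simp only [map_sub, map_smul, LinearMap.sub_apply, LinearMap.smul_apply, smul_eq_mul, h0, h1,
      h1', h2, L.symm x z, L.symm x f]
    ring
  · change ((L.β f x, L.β z x) ∈ U.X ∧ (p x : L.W) ∈ L.X) ↔ x ∈ L.X
    rw [mem_U_X]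
    refine ⟨fun ⟨⟨a, b⟩, c⟩ => ?_,
      fun hx => ⟨⟨L.QSplit_int hf hx, L.QSplit_int hz hx⟩, hpX x hx⟩⟩
    have e1 : x = L.β f x • z + L.β z x • f + p x := by
      rw [hp]
      abel
    rw [e1]
    exact add_mem (add_mem (L.QSplit_smul a hz) (L.QSplit_smul b hf)) c

theorem split (L : QL) {z f : L.W} (hz : z ∈ L.X) (hf : f ∈ L.X) (h0 : L.β z z = 0)
    (h1 : L.β z f = 1) : ∃ M : QL, L.Iso (U.prod M) := by
  refine L.QSplit_split (f := f - (L.β f f / 2) • z) hz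
    (sub_mem hf (L.QSplit_smul (L.QSplit_half hf) hz)) h0 (by simp [h0, h1]) ?_
  simp only [map_sub, map_smul, LinearMap.sub_apply, LinearMap.smul_apply, smul_eq_mul, h0, h1,
    L.symm f z]
  ring

/-- The Eichler transvection. -/
theorem exists_tv (L : QL) {z u : L.W} (hz : z ∈ L.X) (hu : u ∈ L.X) (h0 : L.β z z = 0)
    (h1 : L.β u z = 0) : ∃ g : L.W ≃ₗ[ℚ] L.W, (∀ x y, L.β (g x) (g y) = L.β x y) ∧
      (∀ x, g x ∈ L.X ↔ x ∈ L.X) ∧
      ∀ x, g x = x + L.β x z • u - L.β x u • z - (L.β u u / 2 * L.β x z) • z := by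
  let T : L.W → L.W →ₗ[ℚ] L.W := fun u => LinearMap.id + (L.β z).smulRight u -
    (L.β u).smulRight z - (L.β u u / 2) • (L.β z).smulRight z
  have hT : ∀ u x, T u x = x + L.β x z • u - L.β x u • z - (L.β u u / 2 * L.β x z) • z := by
    intro u x
    rw [L.symm x z, L.symm x u, mul_smul]
    rfl
  have hinv : ∀ u, L.β u z = 0 → ∀ x, T (-u) (T u x) = x := by
    intro u hu x
    have a1 : L.β (T u x) z = L.β x z := by
      rw [hT]
      simp [h0, hu]
    have a2 : L.β (T u x) u = L.β x u + L.β u u * L.β x z := by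
      rw [hT]
      simp only [map_sub, map_add, map_smul, LinearMap.sub_apply, LinearMap.add_apply,
        LinearMap.smul_apply, smul_eq_mul, L.symm z u, hu]
      ring
    rw [hT (-u), map_neg, a1, a2, hT u]
    simp only [map_neg, LinearMap.neg_apply, neg_neg]
    module
  have hX : ∀ u ∈ L.X, ∀ x ∈ L.X, T u x ∈ L.X := by
    intro u hu x hx
    rw [hT]
    obtain ⟨k, hk⟩ := L.QSplit_half hu
    obtain ⟨l, hl⟩ := L.QSplit_int hx hz
    exact sub_mem (sub_mem (add_mem hx (L.QSplit_smul ⟨l, hl⟩ hu))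
      (L.QSplit_smul (L.QSplit_int hx hu) hz))
      (L.QSplit_smul ⟨k * l, by rw [hk, hl, Int.cast_mul]⟩ hz)
  have h1' : L.β (-u) z = 0 := by simp [h1]
  let g : L.W ≃ₗ[ℚ] L.W := LinearEquiv.ofLinearMap (T u) (T (-u))
    (LinearMap.ext fun x => by simpa using hinv (-u) h1' x) (LinearMap.ext (hinv u h1))
  refine ⟨g, fun x y => ?_, fun x => ⟨fun h => ?_, hX u hu x⟩, hT u⟩
  · change L.β (T u x) (T u y) = _
    rw [hT, hT]
    simp only [map_sub, map_add, map_smul, LinearMap.sub_apply, LinearMap.add_apply,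
      LinearMap.smul_apply, smul_eq_mul, L.symm z u, h0, h1, L.symm z y, L.symm u y]
    ring
  · rw [← hinv u h1 x]
    exact hX _ (neg_mem hu) _ h

/-- Two vectors lie in the same orbit of the automorphism group. -/
def QSplit_orb (L : QL) (v w : L.W) : Prop :=
  ∃ g : L.W ≃ₗ[ℚ] L.W, (∀ x y, L.β (g x) (g y) = L.β x y) ∧ (∀ x, g x ∈ L.X ↔ x ∈ L.X) ∧ g v = w

theorem QSplit_refl (L : QL) (v : L.W) : L.QSplit_orb v v :=
  ⟨LinearEquiv.refl ℚ _, fun _ _ => rfl, fun _ => Iff.rfl, rfl⟩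

theorem QSplit_trans {L : QL} {u v w : L.W} (h : L.QSplit_orb u v) (h' : L.QSplit_orb v w) :
    L.QSplit_orb u w := by
  obtain ⟨e, h1, h2, rfl⟩ := h
  obtain ⟨e', h1', h2', rfl⟩ := h'
  exact ⟨e.trans e', fun x y => (h1' _ _).trans (h1 x y), fun x => (h2' _).trans (h2 x), rfl⟩

theorem QSplit_omem {L : QL} {u v : L.W} (h : L.QSplit_orb u v) (hu : u ∈ L.X) : v ∈ L.X := by
  obtain ⟨e, -, h2, rfl⟩ := h
  exact (h2 u).2 hu

theorem QSplit_onorm {L : QL} {u v : L.W} (h : L.QSplit_orb u v) : L.β v v = L.β u u := by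
  obtain ⟨e, h1, -, rfl⟩ := h
  exact h1 u u

theorem QSplit_oprim {L : QL} {u v : L.W} (h : L.QSplit_orb u v) (hu : ∃ w ∈ L.X, L.β u w = 1) :
    ∃ w ∈ L.X, L.β v w = 1 := by
  obtain ⟨e, h1, h2, rfl⟩ := h
  obtain ⟨w, hw, h⟩ := hu
  exact ⟨e w, (h2 w).2 hw, (h1 u w).trans h⟩

/-- Coordinates in the sum of two hyperbolic planes and `N`. -/
def QSplit_vec (N : QL) (a b c d : ℚ) (n : N.W) : (U.prod (U.prod N)).W :=
  (((a, b), ((c, d), n)) : (ℚ × ℚ) × (ℚ × ℚ) × N.W)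

theorem QSplit_beta (N : QL) (a b c d a' b' c' d' : ℚ) (n n' : N.W) :
    (U.prod (U.prod N)).β (QSplit_vec N a b c d n) (QSplit_vec N a' b' c' d' n') =
      a * b' + b * a' + (c * d' + d * c' + N.β n n') := rfl

theorem QSplit_mem (N : QL) (a b c d : ℚ) (n : N.W) :
    QSplit_vec N a b c d n ∈ (U.prod (U.prod N)).X ↔ ((∃ k : ℤ, a = k) ∧ ∃ k : ℤ, b = k) ∧
      ((∃ k : ℤ, c = k) ∧ ∃ k : ℤ, d = k) ∧ n ∈ N.X :=
  and_congr (mem_U_X (x := (a, b))) (and_congr (mem_U_X (x := (c, d))) Iff.rfl)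

theorem QSplit_comb (N : QL) (a b c d a' b' c' d' a'' b'' c'' d'' r s t : ℚ) (n n' : N.W) :
    QSplit_vec N a b c d n + r • QSplit_vec N a' b' c' d' n' - s • QSplit_vec N a'' b'' c'' d'' 0 -
      t • QSplit_vec N a'' b'' c'' d'' 0 =
    QSplit_vec N (a + r * a' - (s + t) * a'') (b + r * b' - (s + t) * b'')
      (c + r * c' - (s + t) * c'') (d + r * d' - (s + t) * d'') (n + r • n') := by
  refine Prod.ext (Prod.ext ?_ ?_) (Prod.ext (Prod.ext ?_ ?_) ?_)
  · change a + r * a' - s * a'' - t * a'' = a + r * a' - (s + t) * a''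
    ring
  · change b + r * b' - s * b'' - t * b'' = b + r * b' - (s + t) * b''
    ring
  · change c + r * c' - s * c'' - t * c'' = c + r * c' - (s + t) * c''
    ring
  · change d + r * d' - s * d'' - t * d'' = d + r * d' - (s + t) * d''
    ring
  · change n + r • n' - s • (0 : N.W) - t • (0 : N.W) = n + r • n'
    simp

theorem QSplit_sw1 (N : QL) (a b c d : ℚ) (n : N.W) :
    (U.prod (U.prod N)).QSplit_orb (QSplit_vec N a b c d n) (QSplit_vec N c d a b n) := by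
  let g : ((ℚ × ℚ) × (ℚ × ℚ) × N.W) ≃ₗ[ℚ] ((ℚ × ℚ) × (ℚ × ℚ) × N.W) :=
    { toFun := fun x => (x.2.1, x.1, x.2.2)
      invFun := fun x => (x.2.1, x.1, x.2.2)
      map_add' := fun _ _ => rfl
      map_smul' := fun _ _ => rfl
      left_inv := fun _ => rfl
      right_inv := fun _ => rfl }
  exact ⟨g, fun x y => add_left_comm (U.β x.2.1 y.2.1) (U.β x.1 y.1) (N.β x.2.2 y.2.2),
    fun x => and_left_comm (a := x.2.1 ∈ U.X) (b := x.1 ∈ U.X) (c := x.2.2 ∈ N.X), rfl⟩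

theorem QSplit_sw2 (N : QL) (a b c d : ℚ) (n : N.W) :
    (U.prod (U.prod N)).QSplit_orb (QSplit_vec N a b c d n) (QSplit_vec N a b d c n) := by
  let g : ((ℚ × ℚ) × (ℚ × ℚ) × N.W) ≃ₗ[ℚ] ((ℚ × ℚ) × (ℚ × ℚ) × N.W) :=
    { toFun := fun x => (x.1, (x.2.1.2, x.2.1.1), x.2.2)
      invFun := fun x => (x.1, (x.2.1.2, x.2.1.1), x.2.2)
      map_add' := fun _ _ => rfl
      map_smul' := fun _ _ => rfl
      left_inv := fun _ => rfl
      right_inv := fun _ => rfl }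
  refine ⟨g, fun x y => ?_, fun x => ?_, rfl⟩
  · obtain ⟨⟨a, b⟩, ⟨c, d⟩, n⟩ := x
    obtain ⟨⟨a', b'⟩, ⟨c', d'⟩, n'⟩ := y
    change a * b' + b * a' + (d * c' + c * d' + N.β n n') =
      a * b' + b * a' + (c * d' + d * c' + N.β n n')
    ring
  · obtain ⟨⟨a, b⟩, ⟨c, d⟩, n⟩ := x
    exact (QSplit_mem N a b d c n).trans
      ((and_congr Iff.rfl (and_congr and_comm Iff.rfl)).trans (QSplit_mem N a b c d n).symm)

theorem QSplit_mv1 (N : QL) (a b c d : ℚ) (n : N.W) {p q : ℚ} {w : N.W} (hp : ∃ k : ℤ, p = k)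
    (hq : ∃ k : ℤ, q = k) (hw : w ∈ N.X) : ∃ b', (U.prod (U.prod N)).QSplit_orb
      (QSplit_vec N a b c d n) (QSplit_vec N a b' (c + a * p) (d + a * q) (n + a • w)) := by
  have z0 : ∃ k : ℤ, (0 : ℚ) = k := ⟨0, by simp⟩
  obtain ⟨g, h1, h2, h3⟩ := (U.prod (U.prod N)).exists_tv (z := QSplit_vec N 0 1 0 0 0)
    (u := QSplit_vec N 0 0 p q w)
    ((QSplit_mem ..).2 ⟨⟨z0, 1, by simp⟩, ⟨z0, z0⟩, zero_mem _⟩)
    ((QSplit_mem ..).2 ⟨⟨z0, z0⟩, ⟨hp, hq⟩, hw⟩) (by simp [QSplit_beta]) (by simp [QSplit_beta])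
  have h4 := h3 (QSplit_vec N a b c d n)
  rw [QSplit_comb, QSplit_beta N a b c d 0 1 0 0 n 0] at h4
  simp only [mul_zero, mul_one, add_zero, sub_zero, map_zero] at h4
  exact ⟨_, g, h1, h2, h4⟩

theorem QSplit_mv2 (N : QL) (a b : ℚ) (n : N.W) {p q : ℚ} {w : N.W} (hp : ∃ k : ℤ, p = k)
    (hq : ∃ k : ℤ, q = k) (hw : w ∈ N.X) : (U.prod (U.prod N)).QSplit_orb
      (QSplit_vec N a b 0 0 n) (QSplit_vec N a b (-(a * q + b * p + N.β n w)) 0 n) := by
  have z0 : ∃ k : ℤ, (0 : ℚ) = k := ⟨0, by simp⟩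
  obtain ⟨g, h1, h2, h3⟩ := (U.prod (U.prod N)).exists_tv (z := QSplit_vec N 0 0 1 0 0)
    (u := QSplit_vec N p q 0 0 w)
    ((QSplit_mem ..).2 ⟨⟨z0, z0⟩, ⟨⟨1, by simp⟩, z0⟩, zero_mem _⟩)
    ((QSplit_mem ..).2 ⟨⟨hp, hq⟩, ⟨z0, z0⟩, hw⟩) (by simp [QSplit_beta]) (by simp [QSplit_beta])
  have h4 := h3 (QSplit_vec N a b 0 0 n)
  rw [QSplit_comb, QSplit_beta N a b 0 0 0 0 1 0 n 0, QSplit_beta N a b 0 0 p q 0 0 n w] at h4
  simp only [mul_zero, mul_one, add_zero, sub_zero, map_zero, zero_mul, zero_smul, zero_add,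
    zero_sub] at h4
  exact ⟨g, h1, h2, h4⟩

theorem QSplit_euclid (N : QL) (m : ℕ) : ∀ (a : ℤ) (b c d : ℚ) (n : N.W),
    QSplit_vec N a b c d n ∈ (U.prod (U.prod N)).X → a ≠ 0 → a.natAbs = m →
    ∃ a' b' : ℚ, (U.prod (U.prod N)).QSplit_orb (QSplit_vec N a b c d n)
      (QSplit_vec N a' b' 0 0 n) := by
  induction m using Nat.strong_induction_on with
  | _ m ih =>
    intro a b c d n hv ha hm
    obtain ⟨-, ⟨⟨c, rfl⟩, d, rfl⟩, -⟩ := (QSplit_mem ..).1 hv
    obtain ⟨b', h⟩ := QSplit_mv1 N a b c d n (p := ((-(c / a) : ℤ) : ℚ)) (q := ((-(d / a) : ℤ) : ℚ))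
      ⟨_, rfl⟩ ⟨_, rfl⟩ (zero_mem _)
    have e : ∀ x : ℤ, (x : ℚ) + a * ((-(x / a) : ℤ) : ℚ) = ((x % a : ℤ) : ℚ) := fun x => by
      rw [Int.emod_def]
      push_cast
      ring
    have hl : ∀ x : ℤ, (x % a).natAbs < m := fun x => by
      have h1 := Int.emod_nonneg x ha
      have h2 := Int.emod_lt_abs x ha
      rw [Int.abs_eq_natAbs] at h2
      omega
    rw [e, e, smul_zero, add_zero] at h
    by_cases hc : c % a = 0
    · by_cases hd : d % a = 0
      · rw [hc, hd, Int.cast_zero] at h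
        exact ⟨_, _, h⟩
      · have h' := QSplit_trans (QSplit_trans h (QSplit_sw2 ..)) (QSplit_sw1 ..)
        obtain ⟨a', b'', h''⟩ := ih _ (hl d) _ _ _ _ n (QSplit_omem h' hv) hd rfl
        exact ⟨a', b'', QSplit_trans h' h''⟩
    · have h' := QSplit_trans h (QSplit_sw1 ..)
      obtain ⟨a', b'', h''⟩ := ih _ (hl c) _ _ _ _ n (QSplit_omem h' hv) hc rfl
      exact ⟨a', b'', QSplit_trans h' h''⟩

theorem QSplit_clear (N : QL) (a b c d : ℚ) (n : N.W)
    (hv : QSplit_vec N a b c d n ∈ (U.prod (U.prod N)).X) :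
    ∃ a' b' : ℚ, (U.prod (U.prod N)).QSplit_orb (QSplit_vec N a b c d n)
      (QSplit_vec N a' b' 0 0 n) := by
  obtain ⟨-, ⟨⟨c, rfl⟩, d, rfl⟩, -⟩ := (QSplit_mem ..).1 hv
  by_cases hc : c = 0
  · by_cases hd : d = 0
    · rw [hc, hd, Int.cast_zero]
      exact ⟨_, _, QSplit_refl ..⟩
    · have h' := QSplit_trans (QSplit_sw2 N a b c d n) (QSplit_sw1 ..)
      obtain ⟨a', b'', h''⟩ := QSplit_euclid N _ _ _ _ _ n (QSplit_omem h' hv) hd rfl
      exact ⟨a', b'', QSplit_trans h' h''⟩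
  · have h' := QSplit_sw1 N a b c d n
    obtain ⟨a', b'', h''⟩ := QSplit_euclid N _ _ _ _ _ n (QSplit_omem h' hv) hc rfl
    exact ⟨a', b'', QSplit_trans h' h''⟩

theorem eichler (N : QL) {v w : (U.prod (U.prod N)).W} (hv : v ∈ (U.prod (U.prod N)).X)
    (hw : w ∈ (U.prod (U.prod N)).X) (h0 : (U.prod (U.prod N)).β v v = 0)
    (h1 : (U.prod (U.prod N)).β v w = 1) :
    ∃ g : (U.prod (U.prod N)).W ≃ₗ[ℚ] (U.prod (U.prod N)).W,
      (∀ x y, (U.prod (U.prod N)).β (g x) (g y) = (U.prod (U.prod N)).β x y) ∧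
      (∀ x, g x ∈ (U.prod (U.prod N)).X ↔ x ∈ (U.prod (U.prod N)).X) ∧
      g v = (((1, 0) : ℚ × ℚ), (0 : (U.prod N).W)) := by
  obtain ⟨⟨a, b⟩, ⟨c, d⟩, n⟩ := v
  obtain ⟨a', b', o1⟩ := QSplit_clear N a b c d n hv
  obtain ⟨⟨⟨p, q⟩, ⟨r, s⟩, w'⟩, hw', e1⟩ := QSplit_oprim o1 ⟨w, hw, h1⟩
  obtain ⟨⟨⟨p', hp⟩, q', hq⟩, -, hn⟩ := (QSplit_mem N p q r s w').1 hw'
  have e2 : a' * q + b' * p + (0 * s + 0 * r + N.β n w') = 1 := e1
  have o2 := QSplit_mv2 N a' b' n (p := -p) (q := -q) (w := -w') ⟨-p', by simp [hp]⟩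
    ⟨-q', by simp [hq]⟩ (neg_mem hn)
  rw [show -(a' * -q + b' * -p + N.β n (-w')) = 1 by rw [map_neg]; linarith only [e2]] at o2
  have o3 := QSplit_trans (QSplit_trans o1 o2) (QSplit_sw1 ..)
  obtain ⟨-, ⟨⟨k, hk⟩, l, hl⟩, hn'⟩ := (QSplit_mem ..).1 (QSplit_omem o3 hv)
  obtain ⟨b'', o4⟩ := QSplit_mv1 N 1 0 a' b' n (p := -a') (q := -b') (w := -n) ⟨-k, by simp [hk]⟩
    ⟨-l, by simp [hl]⟩ (neg_mem hn')
  simp only [one_mul, one_smul, add_neg_cancel] at o4
  have o5 := QSplit_trans o3 o4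
  have e3 := (QSplit_onorm o5).trans h0
  rw [QSplit_beta] at e3
  have e4 : b'' = 0 := by
    simp only [map_zero] at e3
    linarith
  rw [e4] at o5
  exact o5

theorem QSplit_fix {A B : QL} (φ : ((ℚ × ℚ) × A.W) ≃ₗ[ℚ] ((ℚ × ℚ) × B.W))
    (h1 : ∀ x y, (φ x).1.1 * (φ y).1.2 + (φ x).1.2 * (φ y).1.1 + B.β (φ x).2 (φ y).2 =
      x.1.1 * y.1.2 + x.1.2 * y.1.1 + A.β x.2 y.2)
    (h3 : φ ((1, 0), 0) = ((1, 0), 0)) (a : A.W) :
    (φ (0, a)).1.2 = 0 ∧ (φ.symm (0, (φ (0, a)).2)).2 = a := by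
  have h4 : (φ (0, a)).1.2 = 0 := by
    have h := h1 (0, a) ((1, 0), 0)
    rw [h3] at h
    simpa using h
  refine ⟨h4, ?_⟩
  have e : ((0, (φ (0, a)).2) : (ℚ × ℚ) × B.W) =
      φ ((0, a) - (φ (0, a)).1.1 • (((1, 0), 0) : (ℚ × ℚ) × A.W)) := by
    rw [map_sub, map_smul, h3]
    refine Prod.ext (Prod.ext ?_ ?_) ?_
    · simp
    · simp [h4]
    · simp
  rw [e, φ.symm_apply_apply]
  simp

theorem QSplit_cancel {A B : QL} (φ : ((ℚ × ℚ) × A.W) ≃ₗ[ℚ] ((ℚ × ℚ) × B.W))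
    (h1 : ∀ x y, (φ x).1.1 * (φ y).1.2 + (φ x).1.2 * (φ y).1.1 + B.β (φ x).2 (φ y).2 =
      x.1.1 * y.1.2 + x.1.2 * y.1.1 + A.β x.2 y.2)
    (h2 : ∀ x, φ x ∈ U.X.prod B.X ↔ x ∈ U.X.prod A.X)
    (h3 : φ ((1, 0), 0) = ((1, 0), 0)) : A.Iso B := by
  have h1' : ∀ x y, (φ.symm x).1.1 * (φ.symm y).1.2 + (φ.symm x).1.2 * (φ.symm y).1.1 +
      A.β (φ.symm x).2 (φ.symm y).2 = x.1.1 * y.1.2 + x.1.2 * y.1.1 + B.β x.2 y.2 := fun x y => by
    rw [← h1, φ.apply_symm_apply, φ.apply_symm_apply]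
  have h3' : φ.symm ((1, 0), 0) = ((1, 0), 0) := φ.symm_apply_eq.2 h3.symm
  have k1 := QSplit_fix φ h1 h3
  have k2 := QSplit_fix φ.symm h1' h3'
  let e : A.W ≃ₗ[ℚ] B.W := LinearEquiv.ofLinearMap
    (LinearMap.snd ℚ (ℚ × ℚ) B.W ∘ₗ φ.toLinearMap ∘ₗ LinearMap.inr ℚ (ℚ × ℚ) A.W)
    (LinearMap.snd ℚ (ℚ × ℚ) A.W ∘ₗ φ.symm.toLinearMap ∘ₗ LinearMap.inr ℚ (ℚ × ℚ) B.W)
    (LinearMap.ext fun b => (k2 b).2) (LinearMap.ext fun a => (k1 a).2)
  have he : ∀ a, e a = (φ (0, a)).2 := fun a => rfl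
  refine ⟨e, fun x y => ?_, fun x => ⟨fun h => ?_, fun h => ?_⟩⟩
  · have h := h1 (0, x) (0, y)
    rw [(k1 x).1, (k1 y).1] at h
    rw [he, he]
    simpa using h
  · have h4 := (h2 (φ.symm (0, e x))).1 (by
      rw [φ.apply_symm_apply]
      exact ⟨U.X.zero_mem, h⟩)
    rw [← (k1 x).2]
    exact h4.2
  · exact ((h2 (0, x)).2 ⟨U.X.zero_mem, h⟩).2

theorem cancel_fix {A B : QL} (φ : (U.prod A).W ≃ₗ[ℚ] (U.prod B).W)
    (h1 : ∀ x y, (U.prod B).β (φ x) (φ y) = (U.prod A).β x y)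
    (h2 : ∀ x, φ x ∈ (U.prod B).X ↔ x ∈ (U.prod A).X)
    (h3 : φ (((1, 0) : ℚ × ℚ), (0 : A.W)) = (((1, 0) : ℚ × ℚ), (0 : B.W))) : A.Iso B := by
  exact QSplit_cancel φ h1 h2 h3

theorem cancel {A B : QL} (h : (U.prod A).Iso (U.prod (U.prod B))) : A.Iso (U.prod B) := by
  obtain ⟨φ, h1, h2⟩ := h
  obtain ⟨g, g1, g2, g3⟩ := eichler B (v := φ (((1, 0) : ℚ × ℚ), (0 : A.W)))
    (w := φ (((0, 1) : ℚ × ℚ), (0 : A.W)))
    ((h2 _).2 ⟨mem_U_X.2 ⟨⟨1, by simp⟩, 0, by simp⟩, zero_mem _⟩)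
    ((h2 _).2 ⟨mem_U_X.2 ⟨⟨0, by simp⟩, 1, by simp⟩, zero_mem _⟩)
    ((h1 _ _).trans (show (1 : ℚ) * 0 + 0 * 1 + A.β 0 0 = 0 by simp))
    ((h1 _ _).trans (show (1 : ℚ) * 1 + 0 * 0 + A.β 0 0 = 1 by simp))
  exact cancel_fix (φ.trans g) (fun x y => (g1 _ _).trans (h1 x y))
    (fun x => (g2 _).trans (h2 x)) g3

theorem cancel_addU {A B : QL} {k : ℕ} (h : (addU (k + 1) A).Iso (addU (k + 1) B)) :
    (U.prod A).Iso (U.prod B) := by
  induction k with
  | zero => exact h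
  | succ k ih => exact ih (cancel (A := addU (k + 1) A) (B := addU k B) h)

end QL

end Pool.Agent.Work.MP_c8d35c_al
end

-- merged part: Pool.Agent.Work.MP_c8d35c_al.QTrans
section
/-! Transvections; the commutant of a group with many transvections.

Plan. `exists_trv`: the matrix of the map, with inverse the map for `-u`; it preserves `lor` and
fixes `z`; for `x` in `hyp` the numbers `lor x z = lor (g x) z` are nonzero, and a vector of norm
`-1` lies in `hyp` iff `lor x z` and `z 0` have opposite signs (or use `mem_isomH_or_neg`).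
`Big.trv`: multiply `z` and `u` by positive integers `a`, `b` to get lattice vectors
(`Full.exists_nsmul_mem`); the transvection for ` (a z, b u)` is the one for ` (z, a b u)`;
`exists_tv`, `IsTrv.pow`.
`comm_scalar`: for isotropic `z ≠ 0` take `u ⟂ z` with `β u u ≠ 0` (signature ` (n, 1)`, `n ≥ 2`:
with `β z f = 1`, `β f f = 0`, any `u ≠ 0` orthogonal to `z, f`; it is space-like by
`lor_pos_of_orth` applied to a multiple of `ρ (z - f)`). For `g` as in `Big.trv`,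
` (g - 1)^2 x = -(lor U U * lor x Z) • Z`, so `s` commutes with `x ↦ lor x Z • Z` and `Z = ρ z`
is an eigenvector of `s`. Apply this to `z`, `f` and `± w + f - (β w w / 2) z` for `w ⟂ z, f`:
adding the two equations and pairing with `z`, `f`, `w` shows that all eigenvalues agree and that
`ρ w` is an eigenvector; `LF.ext`. -/

namespace Pool.Agent.Work.MP_c8d35c_al

open Matrix

variable {n : ℕ}

/-- `g` is the transvection attached to `z` and `u`. -/
def IsTrv (g : GL (Fin (n + 1)) ℝ) (z u : Fin (n + 1) → ℝ) : Prop :=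
  ∀ x, g.val *ᵥ x = x + lor x z • u - lor x u • z - (lor u u / 2 * lor x z) • z

/-- The transvection as a linear map. -/
noncomputable def QTrans_T (z u : Fin (n + 1) → ℝ) :
    (Fin (n + 1) → ℝ) →ₗ[ℝ] Fin (n + 1) → ℝ where
  toFun x := x + lor x z • u - lor x u • z - (lor u u / 2 * lor x z) • z
  map_add' x y := by
    simp only [lor_add_left]
    module
  map_smul' c x := by
    simp only [lor_smul_left, RingHom.id_apply]
    module

theorem QTrans_apply (z u x : Fin (n + 1) → ℝ) :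
    QTrans_T z u x = x + lor x z • u - lor x u • z - (lor u u / 2 * lor x z) • z := rfl

theorem QTrans_zero (z x : Fin (n + 1) → ℝ) : QTrans_T z 0 x = x := by
  simp [QTrans_apply, lor_zero_right]

theorem QTrans_comp {z u v : Fin (n + 1) → ℝ} (h0 : lor z z = 0) (hu : lor u z = 0)
    (hv : lor v z = 0) (x : Fin (n + 1) → ℝ) :
    QTrans_T z u (QTrans_T z v x) = QTrans_T z (u + v) x := by
  simp only [QTrans_apply, lor_add_left, lor_add_right, lor_sub_left, lor_smul_left, h0, hu, hv,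
    lor_comm z u, lor_comm v u]
  module

theorem exists_trv {z u : Fin (n + 1) → ℝ} (hz : z ≠ 0) (h0 : lor z z = 0) (h1 : lor u z = 0) :
    ∃ g ∈ isomH n, IsTrv g z u := by
  have _ := hz
  have e : ∀ v w : Fin (n + 1) → ℝ, lor v z = 0 → lor w z = 0 → v + w = 0 →
      LinearMap.toMatrix' (QTrans_T z v) * LinearMap.toMatrix' (QTrans_T z w) = 1 :=
    fun v w hv hw h => by
      rw [← LinearMap.toMatrix'_mul, ← LinearMap.toMatrix'_one]
      exact congrArg _ (LinearMap.ext fun x => by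
        rw [Module.End.mul_apply, QTrans_comp h0 hv hw, h, QTrans_zero, Module.End.one_apply])
  have h2 : lor (-u) z = 0 := by rw [lor_neg_left, h1, neg_zero]
  let g : GL (Fin (n + 1)) ℝ := ⟨_, _, e u (-u) h1 h2 (add_neg_cancel u),
    e (-u) u h2 h1 (neg_add_cancel u)⟩
  have hg : IsTrv g z u := fun x => LinearMap.toMatrix'_mulVec (QTrans_T z u) x
  have h3 : ∀ x y, lor (g.val *ᵥ x) (g.val *ᵥ y) = lor x y := fun x y => by
    simp only [hg x, hg y, lor_add_left, lor_add_right, lor_sub_left, lor_sub_right,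
      lor_smul_left, lor_smul_right, h0, h1, lor_comm z u, lor_comm u y, lor_comm z y]
    ring
  refine ⟨g, ⟨h3, fun x hx => mem_hyp_of_lor_neg hx (by rw [h3, hx.1]) ?_⟩, hg⟩
  have h4 := maj_cs hx u z
  simp only [hg x, lor_add_left, lor_sub_left, lor_smul_left, hx.1, lor_comm x]
  rw [h0, h1] at h4
  nlinarith only [h4]

theorem IsTrv.pow {g : GL (Fin (n + 1)) ℝ} {z u : Fin (n + 1) → ℝ} (h : IsTrv g z u)
    (h0 : lor z z = 0) (h1 : lor u z = 0) (k : ℕ) : IsTrv (g ^ k) z ((k : ℝ) • u) := by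
  induction k with
  | zero =>
    intro x
    rw [pow_zero, Nat.cast_zero, zero_smul, Units.val_one, Matrix.one_mulVec, ← QTrans_apply,
      QTrans_zero]
  | succ k ih =>
    intro x
    rw [pow_succ, gl_mul_mulVec, ih, h, ← QTrans_apply, ← QTrans_apply, ← QTrans_apply,
      QTrans_comp h0 (by rw [lor_smul_left, h1, mul_zero]) h1, Nat.cast_succ, add_smul, one_smul]

variable {L : QL} {ρ : L.W →+ Fin (n + 1) → ℝ} {Γ : Subgroup (GL (Fin (n + 1)) ℝ)}

theorem Big.trv (h : LF L ρ) (hB : Big L ρ Γ) {z u : L.W} (hz : z ≠ 0) (h0 : L.β z z = 0)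
    (h1 : L.β u z = 0) : ∃ k : ℕ, 0 < k ∧ ∃ g ∈ Γ, IsTrv g (ρ z) ((k : ℝ) • ρ u) := by
  obtain ⟨a, ha, haz⟩ := L.full.exists_nsmul_mem z
  obtain ⟨b, hb, hbu⟩ := L.full.exists_nsmul_mem u
  rw [← Nat.cast_smul_eq_nsmul ℚ] at haz hbu
  obtain ⟨g', -, h2, h3⟩ := L.exists_tv haz hbu (by simp [h0]) (by simp [h1])
  have e0 : lor (ρ z) (ρ z) = 0 := by rw [h.form, h0, Rat.cast_zero]
  have e1 : lor (((a * b : ℕ) : ℝ) • ρ u) (ρ z) = 0 := by
    rw [lor_smul_left, h.form, h1, Rat.cast_zero, mul_zero]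
  obtain ⟨g, hg, ht⟩ := exists_trv ((map_ne_zero_iff ρ h.injective).2 hz) e0 e1
  obtain ⟨k, hk, hΓ⟩ := hB g hg g' (fun x => by
    simp only [ht (ρ x), h3, map_sub, map_add, rho_smul, map_smul, LinearMap.smul_apply,
      lor_smul_left, lor_smul_right, h.form, smul_eq_mul]
    push_cast
    module) h2
  refine ⟨k * (a * b), by positivity, g ^ k, hΓ, ?_⟩
  rw [Nat.cast_mul, mul_smul]
  exact ht.pow e0 e1 k

theorem QTrans_dual {z : L.W} (hz : z ≠ 0) : ∃ f, L.β f z = 1 := by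
  obtain ⟨y, hy⟩ := not_forall.1 fun h => hz (L.nd z h)
  exact ⟨(L.β z y)⁻¹ • y, by simp [L.symm y z, hy]⟩

theorem QTrans_space (h : LF L ρ) (hn : 2 ≤ n) {z : L.W} (hz : z ≠ 0) (h0 : L.β z z = 0) :
    ∃ u, L.β u z = 0 ∧ L.β u u ≠ 0 := by
  obtain ⟨f, hf⟩ := QTrans_dual hz
  obtain ⟨u, h1, hu⟩ := Submodule.exists_mem_ne_zero_of_ne_bot
    (LinearMap.ker_ne_bot_of_finrank_lt (f := (L.β z).prod (L.β f)) (by
      have := h.rank
      rw [QL.N] at this
      simp only [Module.finrank_prod, Module.finrank_self]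
      omega))
  have h2 : L.β z u = 0 := congrArg Prod.fst h1
  have h3 : L.β f u = 0 := congrArg Prod.snd h1
  refine ⟨u, (L.symm u z).trans h2, fun h4 => ?_⟩
  have key : ∀ a, lor a (e0 n) = 0 → lor a a = 0 → a = 0 := fun a h5 h6 =>
    by_contra fun h7 => (lor_pos_of_orth e0_mem h7 h5).ne' h6
  have h5 := key (lor (ρ z) (e0 n) • ρ u - lor (ρ u) (e0 n) • ρ z)
    (by simp only [lor_sub_left, lor_smul_left]; ring)
    (by simp [lor_sub_left, lor_smul_left, lor_sub_right, lor_smul_right, h.form, h0, h2, h4,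
      L.symm u z])
  have h6 := congrArg (lor (ρ f)) h5
  simp only [lor_sub_right, lor_smul_right, lor_zero_right, h.form, hf, h3] at h6
  exact hu ((map_eq_zero_iff ρ h.injective).1
    (key _ (by simpa using h6) (by rw [h.form, h4, Rat.cast_zero])))

theorem QTrans_eigen (h : LF L ρ) (hn : 2 ≤ n) (hB : Big L ρ Γ)
    {s : Matrix (Fin (n + 1)) (Fin (n + 1)) ℝ} (hs : ∀ g ∈ Γ, s * g.val = g.val * s) {z : L.W}
    (hz : z ≠ 0) (h0 : L.β z z = 0) :
    ∃ c : ℝ, s *ᵥ ρ z = c • ρ z ∧ ∀ x, lor (s *ᵥ x) (ρ z) = c * lor x (ρ z) := by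
  obtain ⟨u, h1, h2⟩ := QTrans_space h hn hz h0
  obtain ⟨f, hf⟩ := QTrans_dual hz
  obtain ⟨k, hk, g, hg, ht⟩ := hB.trv h hz h0 h1
  generalize hU : (k : ℝ) • ρ u = U at ht
  have e0 : lor (ρ z) (ρ z) = 0 := by rw [h.form, h0, Rat.cast_zero]
  have e1 : lor U (ρ z) = 0 := by rw [← hU, lor_smul_left, h.form, h1, Rat.cast_zero, mul_zero]
  have e2 : lor U U ≠ 0 := by
    rw [← hU, lor_smul_left, lor_smul_right, h.form]
    positivity
  have e3 : ∀ x, (lor U U * lor x (ρ z)) • ρ z =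
      (2 : ℝ) • g.val *ᵥ x - g.val *ᵥ g.val *ᵥ x - x := fun x => by
    simp only [ht _, lor_add_left, lor_sub_left, lor_smul_left, e0, e1, lor_comm (ρ z) U]
    module
  have e4 : ∀ x, s *ᵥ g.val *ᵥ x = g.val *ᵥ s *ᵥ x := fun x => by
    rw [Matrix.mulVec_mulVec, hs g hg, Matrix.mulVec_mulVec]
  have e5 : ∀ x, lor x (ρ z) • s *ᵥ ρ z = lor (s *ᵥ x) (ρ z) • ρ z := fun x => by
    refine smul_right_injective _ e2 ?_
    simp only [smul_smul]
    rw [e3, ← Matrix.mulVec_smul, e3, Matrix.mulVec_sub, Matrix.mulVec_sub, Matrix.mulVec_smul,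
      e4, e4, e4]
  have e6 := e5 (ρ f)
  rw [h.form, hf, Rat.cast_one, one_smul] at e6
  refine ⟨_, e6, fun x => smul_left_injective ℝ ((map_ne_zero_iff ρ h.injective).2 hz) ?_⟩
  simp only [← e5 x]
  rw [mul_comm, mul_smul, ← e6]

theorem comm_scalar (h : LF L ρ) (hn : 2 ≤ n) (hB : Big L ρ Γ)
    (hiso : ∃ z : L.W, z ≠ 0 ∧ L.β z z = 0) (s : Matrix (Fin (n + 1)) (Fin (n + 1)) ℝ)
    (hs : ∀ g ∈ Γ, s * g.val = g.val * s) : ∃ c : ℝ, s = c • (1 : Matrix _ _ ℝ) := by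
  obtain ⟨z, hz, h0⟩ := hiso
  obtain ⟨c, hc, hc'⟩ := QTrans_eigen h hn hB hs hz h0
  have key : ∀ x, L.β x z ≠ 0 → s *ᵥ ρ x = c • ρ x := fun x hx => by
    obtain ⟨t, ht⟩ : ∃ t, t = L.β x x / (2 * L.β x z) := ⟨_, rfl⟩
    have h1 : L.β (x - t • z) z = L.β x z := by simp [h0]
    obtain ⟨d, hd, -⟩ := QTrans_eigen h hn hB hs (z := x - t • z)
      (fun e => hx (by rw [← h1, e, map_zero, LinearMap.zero_apply])) (by
        simp only [map_sub, map_smul, LinearMap.sub_apply, LinearMap.smul_apply, smul_eq_mul, h0,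
          L.symm z x, ht]
        field_simp
        ring)
    have h2 := hc' (ρ (x - t • z))
    rw [hd, lor_smul_left, h.form, h1] at h2
    rw [mul_right_cancel₀ (Rat.cast_ne_zero.2 hx) h2, map_sub, rho_smul, Matrix.mulVec_sub,
      Matrix.mulVec_smul, hc, smul_sub, smul_comm] at hd
    exact sub_left_injective hd
  refine ⟨c, h.ext fun x => ?_⟩
  rw [Matrix.smul_mulVec, Matrix.one_mulVec]
  by_cases hx : L.β x z = 0
  · obtain ⟨f, hf⟩ := QTrans_dual hz
    have h1 := key (x + f) (by simp [hx, hf])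
    rw [map_add, Matrix.mulVec_add, key f (by simp [hf]), smul_add] at h1
    exact add_right_cancel h1
  · exact key x hx

end Pool.Agent.Work.MP_c8d35c_al
end

-- merged part: Pool.Agent.Work.MP_c8d35c_al.QMain
section
-- merged part: Pool.Agent.Work.MP_c8d35c_al.QCusp
section
/-! A reflection group of finite index has enough roots at every cusp.

Plan. `locFin_of_rt`: by `Rt.norm` (and `exists_exponent`) every root is `s • ρ y` with `y` of
type `t ∣ e`, `s^2 = t / 2 ≥ 1/2`, `β y y ≤ 2`; `LF.finite` for `D`.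
`deep_sign`: write `z = η x + w` with `η = -lor z x`, `w ⟂ x`, and use `maj_cs`:
` (lor e z + lor e x * lor z x)^2 ≤ (1 + (lor e x)^2) η^2`.
`cusp_full`: scale `z` into `X` with `0 < ρ z 0`; for a root `e = s • ρ y` the number `lor e (ρ z)`
is zero or at least `1 / √2` in absolute value (`β y z ∈ ℤ`). The open set
`{x | -lor (ρ z) x < 1/2}` meets `hyp` (take `t⁻¹ z + (t / 2) f`-type points, or
` (ρ z + τ e0)` normalised with `τ → 0`), so it contains a generic `x0` (`RCox1_avoid`,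
`LocFin.countable`). Take `g ∈ Γ` from `Big.trv`; `lor (ρ z) (g x0) = lor (ρ z) x0`; for roots
orthogonal to `z` (hence to `u`) `lor e (g x0) = lor e x0`; for the others `deep_sign` twice. So
`g x0` and `x0` lie in `chamber Γ x0`, `g = 1` by `chamber_free`, and evaluating at `ρ f` with
`β f z ≠ 0` gives `u = c z` (`LF.injective`). -/

namespace Pool.Agent.Work.MP_c8d35c_al

open Matrix

variable {n : ℕ} {L : QL} {ρ : L.W →+ Fin (n + 1) → ℝ}

/-- The scalar of a unit root has square at least one half. -/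
theorem QCusp_sq (h : LF L ρ) {y : L.W} {t : ℕ} {s : ℝ} (hy : L.Rt y t)
    (he : lor (s • ρ y) (s • ρ y) = 1) :
    s ^ 2 * (L.β y y : ℝ) = 1 ∧ 1 / 2 ≤ s ^ 2 ∧ L.β y y ≤ 2 := by
  have h1 : s ^ 2 * (L.β y y : ℝ) = 1 := by
    rw [lor_smul_left, lor_smul_right, h.form] at he
    linarith
  have ht : (1 : ℚ) ≤ t := by exact_mod_cast Nat.one_le_iff_ne_zero.2 hy.pos
  have h2 := hy.2.2
  have hb : 0 < L.β y y := by
    by_contra hc
    have := mul_nonpos_of_nonneg_of_nonpos (zero_le_one.trans ht) (not_lt.1 hc)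
    linarith
  have h3 : L.β y y ≤ 2 := by nlinarith only [h2, ht, hb]
  have h4 : (L.β y y : ℝ) ≤ 2 := by exact_mod_cast h3
  refine ⟨h1, ?_, h3⟩
  nlinarith only [h1, h4, sq_nonneg s]

theorem locFin_of_rt (h : LF L ρ) {Γ : Subgroup (GL (Fin (n + 1)) ℝ)}
    (hr : ∀ e ∈ roots Γ, ∃ (y : L.W) (t : ℕ) (s : ℝ), L.Rt y t ∧ e = s • ρ y) : LocFin Γ := by
  intro x hx T
  have hF := h.finite hx L.full_D (2 * T) 2
  refine ((hF.image fun y => √(1 / (L.β y y : ℝ)) • ρ y).union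
    (hF.image fun y => (-√(1 / (L.β y y : ℝ))) • ρ y)).subset ?_
  rintro e ⟨he, hT⟩
  obtain ⟨y, t, s, hy, rfl⟩ := hr e he
  obtain ⟨h1, h2, h3⟩ := QCusp_sq h hy he.1
  have hs : 1 / 2 ≤ |s| := by
    by_contra hc
    have h4 := abs_nonneg s
    have h5 := sq_abs s
    nlinarith only [h2, hc, h5, h4]
  have hyF : y ∈ {y : L.W | y ∈ L.D ∧ |lor (ρ y) x| ≤ 2 * T ∧ L.β y y ≤ 2} := by
    refine ⟨hy.1, ?_, h3⟩
    rw [lor_smul_left, abs_mul] at hT
    nlinarith only [hT, hs, abs_nonneg (lor (ρ y) x)]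
  have hb : (L.β y y : ℝ) ≠ 0 := by
    intro h0
    rw [h0] at h1
    simp at h1
  have h6 : √(1 / (L.β y y : ℝ)) = |s| := by
    rw [← Real.sqrt_sq_eq_abs]
    congr 1
    field_simp
    linarith only [h1]
  rcases abs_choice s with h7 | h7
  · exact Or.inl ⟨y, hyF, by simp only [h6, h7]⟩
  · exact Or.inr ⟨y, hyF, by simp only [h6, h7, neg_neg]⟩

theorem QCusp_deep {x z e : Fin (n + 1) → ℝ} (hx : x ∈ hyp n) (hz : lor z z = 0)
    (he : lor e e = 1) (h : |lor z x| < |lor e z|) : lor e x * lor e z * lor z x < 0 := by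
  have h1 := maj_cs hx e z
  rw [he, hz] at h1
  have h2 : lor z x ^ 2 < lor e z ^ 2 := sq_lt_sq.2 h
  nlinarith only [h1, h2]

theorem deep_sign {x z e : Fin (n + 1) → ℝ} (hx : x ∈ hyp n) (hz : lor z z = 0)
    (hzx : lor z x ≤ 0) (he : lor e e = 1) (h : -lor z x < |lor e z|) :
    0 < lor e x * lor e z := by
  have h1 := QCusp_deep hx hz he (by rwa [abs_of_nonpos hzx])
  by_contra hc
  have := mul_nonneg_of_nonpos_of_nonpos (not_lt.1 hc) hzx
  linarith

/-- Points deep in the cusp. -/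
theorem QCusp_point {z : Fin (n + 1) → ℝ} (hz : z ≠ 0) (h0 : lor z z = 0) :
    ∃ x ∈ hyp n, |lor z x| < 1 / 2 := by
  have hp : z 0 ≠ 0 := by
    intro hc
    have := lor_pos_of_orth (e0_mem (n := n)) hz (by rw [lor_e0, hc, neg_zero])
    linarith
  have hp' : 0 < |z 0| := abs_pos.2 hp
  obtain ⟨b, hb, hb'⟩ : ∃ b : ℝ, 0 < b ∧ b * |z 0| = 1 / 4 :=
    ⟨1 / (4 * |z 0|), by positivity, by field_simp⟩
  have he : lor (e0 n) (e0 n) = -1 := (e0_mem (n := n)).1
  have he' : lor (e0 n) z = -z 0 := by rw [lor_comm, lor_e0]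
  refine ⟨((1 - b ^ 2) / (2 * b * z 0)) • z + b • e0 n, ⟨?_, ?_⟩, ?_⟩
  · simp only [lor_add_left, lor_add_right, lor_smul_left, lor_smul_right, h0, he, he', lor_e0 z]
    field_simp
    ring
  · have h1 : (((1 - b ^ 2) / (2 * b * z 0)) • z + b • e0 n) 0 = (1 + b ^ 2) / (2 * b) := by
      simp only [Pi.add_apply, Pi.smul_apply, smul_eq_mul, e0, Pi.single_eq_same]
      field_simp
      ring
    rw [h1]
    positivity
  · simp only [lor_add_right, lor_smul_right, h0, lor_e0 z, mul_zero, zero_add]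
    rw [abs_mul, abs_neg, abs_of_pos hb, hb']
    norm_num

theorem QCusp_main (h : LF L ρ) {S : Set (GL (Fin (n + 1)) ℝ)} (hS : ∀ g ∈ S, IsRefl g)
    (hB : Big L ρ (Subgroup.closure S))
    (hr : ∀ e ∈ roots (Subgroup.closure S), ∃ (y : L.W) (t : ℕ) (s : ℝ),
      L.Rt y t ∧ e = s • ρ y) {z u : L.W} (hzX : z ∈ L.X) (hz : z ≠ 0) (h0 : L.β z z = 0)
    (h1 : L.β u z = 0) (H : ∀ y t, L.Rt y t → L.β y z = 0 → L.β y u = 0) :
    ∃ c : ℚ, u = c • z := by
  have hf := locFin_of_rt h hr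
  have hZ : ρ z ≠ 0 := fun hc => hz (h.injective (by rw [hc, map_zero]))
  have hZZ : lor (ρ z) (ρ z) = 0 := by rw [h.form, h0, Rat.cast_zero]
  obtain ⟨x1, hx1, hx1'⟩ := QCusp_point hZ hZZ
  obtain ⟨x0, hU, hx0, hgen⟩ := RCox1_avoid hf.countable (fun a ha => RCox1_ne_zero ha.1)
    (U := {x | |lor (ρ z) x| < 1 / 2})
    (isOpen_lt (RCox1_cont (ρ z)).abs continuous_const) hx1' hx1
  obtain ⟨k, hk, g, hg, hT⟩ := hB.trv h hz h0 h1
  have hZU : lor (ρ z) ((k : ℝ) • ρ u) = 0 := by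
    rw [lor_smul_right, h.form, L.symm, h1, Rat.cast_zero, mul_zero]
  have hgx : g.val *ᵥ x0 ∈ hyp n := isomH_hyp (closure_le_isomH hS hg) hx0
  have hZg : lor (ρ z) (g.val *ᵥ x0) = lor (ρ z) x0 := by
    rw [hT, lor_sub_right, lor_sub_right, lor_add_right, lor_smul_right _ _ (_ • _), hZU,
      lor_smul_right _ _ (ρ z), lor_smul_right _ _ (ρ z), hZZ]
    ring
  have hone : g = 1 := by
    refine chamber_free hS hf ⟨hx0, hgen⟩ (x := x0)
      ⟨hx0, fun e he => mul_self_pos.2 (hgen e he)⟩ hg ⟨hgx, fun e he => ?_⟩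
    obtain ⟨y, t, s, hy, rfl⟩ := hr e he
    by_cases hyz : L.β y z = 0
    · have h2 : lor (s • ρ y) (ρ z) = 0 := by
        rw [lor_smul_left, h.form, hyz, Rat.cast_zero, mul_zero]
      have h3 : lor (s • ρ y) ((k : ℝ) • ρ u) = 0 := by
        rw [lor_smul_left, lor_smul_right, h.form, H y t hy hyz, Rat.cast_zero, mul_zero, mul_zero]
      have h4 : lor (s • ρ y) (g.val *ᵥ x0) = lor (s • ρ y) x0 := by
        rw [hT, lor_sub_right, lor_sub_right, lor_add_right, lor_smul_right _ _ (_ • _), h3,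
          lor_smul_right _ _ (ρ z), lor_smul_right _ _ (ρ z), h2]
        ring
      rw [h4]
      exact mul_self_pos.2 (hgen _ he)
    · obtain ⟨_, h2, _⟩ := QCusp_sq h hy he.1
      obtain ⟨m, hm⟩ := hy.1 z hzX
      have hm0 : m ≠ 0 := by
        rintro rfl
        exact hyz (by rw [L.symm, hm, Int.cast_zero])
      have hm1 : (1 : ℝ) ≤ |(m : ℝ)| := by
        rw [← Int.cast_abs]
        exact_mod_cast Int.one_le_abs hm0
      have hs : 1 / 2 ≤ |s| := by
        by_contra hc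
        have h4 := abs_nonneg s
        have h5 := sq_abs s
        nlinarith only [h2, hc, h5, h4]
      have h3 : |lor (ρ z) x0| < |lor (s • ρ y) (ρ z)| := by
        rw [lor_smul_left, h.form, L.symm, hm, abs_mul, Rat.cast_intCast]
        have h6 : |lor (ρ z) x0| < 1 / 2 := hU
        nlinarith only [hm1, hs, h6]
      have h4 := QCusp_deep hx0 hZZ he.1 h3
      have h5 := QCusp_deep hgx hZZ he.1 (by rwa [hZg])
      rw [hZg] at h5
      have h6 := mul_pos_of_neg_of_neg h5 h4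
      by_contra hc
      have h7 := mul_nonpos_of_nonpos_of_nonneg (not_lt.1 hc)
        (sq_nonneg (lor (s • ρ y) (ρ z) * lor (ρ z) x0))
      nlinarith only [h6, h7]
  obtain ⟨f, hf0⟩ : ∃ f, L.β f z ≠ 0 := by
    by_contra hc
    push Not at hc
    exact hz (L.nd z fun y => by rw [L.symm]; exact hc y)
  have h2 := hT (ρ f)
  rw [hone, Units.val_one, Matrix.one_mulVec] at h2
  simp only [lor_smul_left, lor_smul_right, h.form] at h2
  have hk' : (k : ℝ) ≠ 0 := Nat.cast_ne_zero.2 hk.ne'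
  have hf' : (L.β f z : ℝ) ≠ 0 := by exact_mod_cast hf0
  refine ⟨L.β f u / L.β f z + k * L.β u u / 2, h.injective ?_⟩
  rw [rho_smul]
  funext i
  have h3 := congrFun h2 i
  simp only [Pi.add_apply, Pi.sub_apply, Pi.smul_apply, smul_eq_mul] at h3 ⊢
  push_cast
  have h4 : (k : ℝ) * ((L.β f z : ℝ) * ρ u i - (L.β f u : ℝ) * ρ z i -
      (k : ℝ) * (L.β u u : ℝ) / 2 * (L.β f z : ℝ) * ρ z i) = 0 := by linarith only [h3]
  have h5 := (mul_eq_zero.1 h4).resolve_left hk'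
  field_simp
  linarith only [h5]

theorem cusp_full (h : LF L ρ) {S : Set (GL (Fin (n + 1)) ℝ)} (hS : ∀ g ∈ S, IsRefl g)
    (hB : Big L ρ (Subgroup.closure S))
    (hr : ∀ e ∈ roots (Subgroup.closure S), ∃ (y : L.W) (t : ℕ) (s : ℝ),
      L.Rt y t ∧ e = s • ρ y) : L.CuspFull := by
  intro z u hz h0 h1 H
  obtain ⟨m, hm, hmz⟩ := L.full.exists_nsmul_mem z
  rw [← Nat.cast_smul_eq_nsmul ℚ] at hmz
  have hm' : (m : ℚ) ≠ 0 := Nat.cast_ne_zero.2 hm.ne'
  obtain ⟨c, hc⟩ := QCusp_main h hS hB hr (u := u) hmz (smul_ne_zero hm' hz)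
    (by simp [h0]) (by simp [h1]) (fun y t hy hyz => H y t hy (by simpa [hm'] using hyz))
  exact ⟨c * m, by rw [hc, smul_smul]⟩

end Pool.Agent.Work.MP_c8d35c_al
end

-- merged part: Pool.Agent.Work.MP_c8d35c_al.QRat
section
/-! Rationality of the mirrors from a scalar commutant. -/

namespace Pool.Agent.Work.MP_c8d35c_al

open NumberField Module Matrix

variable {n : ℕ} {K : Type} [Field K] {σ0 : Emb K} {P : GL (Fin (n + 1)) ℝ}

theorem root_rat_of_comm (hn : 2 ≤ n) {Γ : Subgroup (GL (Fin (n + 1)) ℝ)}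
    (hc : ∀ Γ1 : Subgroup (GL (Fin (n + 1)) ℝ), Γ1.relIndex (arith σ0 P) ≠ 0 →
      ∀ s : Matrix (Fin (n + 1)) (Fin (n + 1)) ℝ, (∀ g ∈ Γ1, s * g.val = g.val * s) →
        ∃ c : ℝ, s = c • (1 : Matrix _ _ ℝ))
    (hcomm : Subgroup.Commensurable Γ (arith σ0 P)) {e : Fin (n + 1) → ℝ} (he : e ∈ roots Γ) :
    ∃ (v : Fin (n + 1) → K) (s : ℝ), v ≠ 0 ∧ 0 < s ∧ e = s • ((P⁻¹).val *ᵥ fun i => σ0 (v i)) := by
  have : ((arith σ0 P).subgroupOf Γ).FiniteIndex := ⟨hcomm.2⟩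
  set N := ((arith σ0 P).subgroupOf Γ).normalCore with hN
  have hG1 : (N.map Γ.subtype).relIndex Γ ≠ 0 := by
    rw [Subgroup.relIndex, Subgroup.subgroupOf,
      Subgroup.comap_map_eq_self_of_injective Γ.subtype_injective]
    exact Subgroup.FiniteIndex.index_ne_zero
  have hc1 := hc (N.map Γ.subtype) (Subgroup.relIndex_ne_zero_trans hG1 hcomm.1)
  have har : ∀ g ∈ N.map Γ.subtype, g ∈ arith σ0 P ∧ refl e * g * (refl e)⁻¹ ∈ arith σ0 P := by
    rintro _ ⟨g, hg, rfl⟩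
    exact ⟨Subgroup.mem_subgroupOf.1 (Subgroup.normalCore_le _ hg),
      Subgroup.mem_subgroupOf.1 (Subgroup.normalCore_le _
        ((Subgroup.normalCore_normal _).conj_mem g hg ⟨refl e, he.2⟩))⟩
  obtain ⟨φ, hφ1, hφ⟩ := rrat_proj σ0
  set R := (P * refl e * P⁻¹).val with hR
  set R' : Matrix (Fin (n + 1)) (Fin (n + 1)) ℝ := R.map fun x => σ0 (φ x) with hR'
  have hint : ∀ g ∈ N.map Γ.subtype,
      R' * (P * g * P⁻¹).val = (P * (refl e * g * (refl e)⁻¹) * P⁻¹).val * R' := by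
    intro g hg
    choose M hM using rrat_entries (har g hg).1
    choose M' hM' using rrat_entries (har g hg).2
    have e1 : R * (P * g * P⁻¹).val = (P * (refl e * g * (refl e)⁻¹) * P⁻¹).val * R := by
      rw [hR, ← Units.val_mul, ← Units.val_mul]
      congr 1
      group
    ext i j
    have e2 := congrArg (fun x => σ0 (φ x)) (congrFun (congrFun e1 i) j)
    simp only [mul_apply, hM, hM', map_sum, mul_comm (R _ _), hφ, map_mul] at e2
    simp only [mul_apply, hM, hM', hR', map_apply, mul_comm (σ0 (φ _))]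
    exact e2
  obtain ⟨c, hcs⟩ := hc1
    (((P * refl e)⁻¹).val * R' * P.val) fun g hg => by
      have e1 : P.val * g.val = (P * g * P⁻¹).val * P.val := by
        rw [← Units.val_mul, ← Units.val_mul]
        congr 1
        group
      have e2 : ((P * refl e)⁻¹).val * (P * (refl e * g * (refl e)⁻¹) * P⁻¹).val
          = g.val * ((P * refl e)⁻¹).val := by
        rw [← Units.val_mul, ← Units.val_mul]
        congr 1
        group
      rw [mul_assoc _ P.val, e1, ← mul_assoc, mul_assoc _ R', hint g hg, ← mul_assoc, e2]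
      simp only [mul_assoc]
  have hRc : R' = c • R := by
    have e1 : R' = (P * refl e).val * (((P * refl e)⁻¹).val * R' * P.val) * (P⁻¹).val := by
      rw [← mul_assoc, ← mul_assoc, ← Units.val_mul, mul_inv_cancel, Units.val_one, one_mul,
        mul_assoc, ← Units.val_mul, mul_inv_cancel, Units.val_one, mul_one]
    rw [e1, hcs, mul_smul_comm, mul_one, smul_mul_assoc, ← Units.val_mul]
  have htr : R.trace = n - 1 := rrat_trace he.1 P
  have hn1 : (0 : ℝ) < n - 1 := by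
    have : (2 : ℝ) ≤ n := by exact_mod_cast hn
    linarith
  have hc1 : c = 1 := by
    have e1 : R'.trace = σ0 (φ R.trace) := by
      simp only [trace, diag_apply, hR', map_apply, map_sum]
    have e2 : φ ((n : ℝ) - 1) = n - 1 := by
      have := hφ ((n : K) - 1) 1
      rwa [hφ1, mul_one, mul_one, map_sub, map_natCast, map_one] at this
    rw [hRc, trace_smul, htr, e2, map_sub, map_natCast, map_one, smul_eq_mul] at e1
    exact mul_right_cancel₀ hn1.ne' (e1.trans (one_mul _).symm)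
  rw [hc1, one_smul] at hRc
  have hcol : ∀ j, (P⁻¹).val *ᵥ (fun i => σ0 (φ (R i j) - (Pi.single j 1 : Fin (n + 1) → K) i))
      = (-(2 * lor ((P⁻¹).val *ᵥ Pi.single j 1) e)) • e := by
    intro j
    have e1 : (fun i => σ0 (φ (R i j) - (Pi.single j 1 : Fin (n + 1) → K) i))
        = R *ᵥ Pi.single j 1 - Pi.single j 1 := by
      funext i
      have := congrFun (congrFun hRc i) j
      simp only [hR', map_apply] at this
      rw [map_sub, this, mulVec_single_one, Pi.sub_apply, col_apply]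
      congr 1
      simp only [Pi.single_apply]
      split_ifs <;> simp
    rw [e1, mulVec_sub, hR, gl_mul_mulVec, gl_mul_mulVec, gl_inv_mulVec, refl_mulVec_unit he.1,
      neg_smul, sub_sub_cancel_left]
  have he0 : e ≠ 0 := fun h0 => by
    have := he.1
    rw [h0, lor_zero_left] at this
    exact zero_ne_one this
  obtain ⟨j, hj⟩ : ∃ j, lor ((P⁻¹).val *ᵥ Pi.single j 1) e ≠ 0 := by
    by_contra hno
    push Not at hno
    have : R = 1 := by
      ext i j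
      have e1 : R *ᵥ Pi.single j 1 = Pi.single j 1 := by
        rw [hR, gl_mul_mulVec, gl_mul_mulVec, refl_mulVec_unit he.1, hno j, mul_zero, zero_smul,
          sub_zero, gl_mulVec_inv]
      have := congrFun e1 i
      rw [mulVec_single_one, col_apply] at this
      rw [this, one_apply, Pi.single_apply]
    rw [this, trace_one, Fintype.card_fin] at htr
    push_cast at htr
    linarith only [htr]
  set l := -(2 * lor ((P⁻¹).val *ᵥ Pi.single j 1) e) with hl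
  have hl0 : l ≠ 0 := neg_ne_zero.2 (mul_ne_zero two_ne_zero hj)
  set v : Fin (n + 1) → K := fun i => φ (R i j) - (Pi.single j 1 : Fin (n + 1) → K) i with hv
  have hve : (P⁻¹).val *ᵥ (fun i => σ0 (v i)) = l • e := hcol j
  have hv0 : v ≠ 0 := fun h0 => by
    have e1 : (fun i => σ0 (v i)) = 0 := by
      funext i
      rw [h0, Pi.zero_apply, map_zero, Pi.zero_apply]
    rw [e1, mulVec_zero] at hve
    exact smul_ne_zero hl0 he0 hve.symm
  rcases lt_or_gt_of_ne hl0 with hneg | hpos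
  · refine ⟨-v, (-l)⁻¹, neg_ne_zero.2 hv0, inv_pos.2 (neg_pos.2 hneg), ?_⟩
    have e1 : (fun i => σ0 ((-v) i)) = -fun i => σ0 (v i) := by
      funext i
      simp
    rw [e1, mulVec_neg, hve, ← neg_smul, smul_smul, inv_mul_cancel₀ (neg_ne_zero.2 hl0), one_smul]
  · exact ⟨v, l⁻¹, hv0, inv_pos.2 hpos, by rw [hve, smul_smul, inv_mul_cancel₀ hl0, one_smul]⟩

end Pool.Agent.Work.MP_c8d35c_al
end

-- merged part: Pool.Agent.Work.MP_c8d35c_al.QMink
section
/-! Isotropic vectors in unimodular lattices of small rank.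

Plan. Minkowski's convex body theorem
(`MeasureTheory.exists_ne_zero_mem_lattice_of_measure_mul_two_pow_lt_measure`, see the proof of
`mink_matrix`) for the lattice `Φ X` of covolume one (`RealFrame.abs_det`, `cov_eq`) and the body
`{v | ∑ i, v (inl i)^2 < 2 ∧ ∑ j, v (inr j)^2 < 2}`, a product of two balls of radius `√2`
(`MeasureTheory.volume_sum_rpow_lt`, `MeasurableEquiv.sumPiEquivProdPi`; the empty factor has
volume one). With `ν k = vol (ball of radius √2 in ℝ^k) / 2^k`: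
`ν 0 = 1, ν 1 = √2, ν 2 = π/2, ν 3 = π √2 / 3, ν 4 = π^2/8, ν 5 = π^2 √2 / 15, ν 6 = π^3/48`,
and `ν r ν s > 1` in all the cases that occur (the tightest is `ν 6 ν 2 = π^4 / 96`). A nonzero
point has `|β x x| < 2` and `β x x` even. -/

namespace Pool.Agent.Work.MP_c8d35c_al

open Module

/-- Minkowski's theorem for a unimodular matrix. -/
theorem QMink_matrix {ι : Type} [Fintype ι] [DecidableEq ι] (G : Matrix ι ι ℝ) (hG : |G.det| = 1)
    {S : Set (ι → ℝ)} (hs : ∀ x ∈ S, -x ∈ S) (hc : Convex ℝ S)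
    (hv : 2 ^ Fintype.card ι < MeasureTheory.volume S) :
    ∃ m : ι → ℤ, m ≠ 0 ∧ G.mulVec (fun j => (m j : ℝ)) ∈ S := by
  have hd : G.det ≠ 0 := fun h => by simp [h] at hG
  have hvol : 2 ^ Fintype.card ι < MeasureTheory.volume (Matrix.toLin' G ⁻¹' S) := by
    rwa [MeasureTheory.Measure.addHaar_preimage_linearMap _ (by rwa [LinearMap.det_toLin']),
      LinearMap.det_toLin', abs_inv, hG, inv_one, ENNReal.ofReal_one, one_mul]
  have : Countable (Submodule.span ℤ (Set.range (Pi.basisFun ℝ ι))).toAddSubgroup :=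
    inferInstanceAs (Countable (Submodule.span ℤ (Set.range (Pi.basisFun ℝ ι))))
  obtain ⟨x, hx0, hx⟩ :=
    MeasureTheory.exists_ne_zero_mem_lattice_of_measure_mul_two_pow_lt_measure
      (s := Matrix.toLin' G ⁻¹' S)
      (ZSpan.isAddFundamentalDomain' (Pi.basisFun ℝ ι) MeasureTheory.volume)
      (fun x hx => by
        rw [Set.mem_preimage, map_neg]
        exact hs _ hx)
      (hc.linear_preimage _)
      (by
        rw [ZSpan.fundamentalDomain_pi_basisFun, Real.volume_pi_Ico,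
          Module.finrank_fintype_fun_eq_card]
        simpa using hvol)
  choose m hm using ((Pi.basisFun ℝ ι).mem_span_iff_repr_mem ℤ x.1).1 x.2
  have e : (fun j => (m j : ℝ)) = x.1 := funext fun j => by simpa using hm j
  refine ⟨m, fun h0 => hx0 (Subtype.ext ?_), ?_⟩
  · rw [← e, h0]
    funext j
    simp
  · rw [e]
    exact hx

/-- The ball of radius `√2`. -/
def QMinkB (k : ℕ) : Set (Fin k → ℝ) := {v | ∑ i, v i ^ 2 < 2}

/-- The volume of the ball divided by `2 ^ k`. -/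
noncomputable def QMinkN (k : ℕ) : ℝ :=
  √2 ^ k * (√Real.pi ^ k / Real.Gamma ((k : ℝ) / 2 + 1)) / 2 ^ k

theorem QMink_convex (k : ℕ) : Convex ℝ (QMinkB k) := by
  intro x hx y hy a b ha hb hab
  have hx' : ∑ i, x i ^ 2 < 2 := hx
  have hy' : ∑ i, y i ^ 2 < 2 := hy
  have h1 : ∑ i, (a • x + b • y) i ^ 2 ≤ a * ∑ i, x i ^ 2 + b * ∑ i, y i ^ 2 := by
    rw [Finset.mul_sum, Finset.mul_sum, ← Finset.sum_add_distrib]
    refine Finset.sum_le_sum fun i _ => ?_
    obtain rfl : b = 1 - a := by linarith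
    simp only [Pi.add_apply, Pi.smul_apply, smul_eq_mul]
    nlinarith only [ha, hb, mul_nonneg (mul_nonneg ha hb) (sq_nonneg (x i - y i))]
  have h2 : a * ∑ i, x i ^ 2 + b * ∑ i, y i ^ 2 < 2 :=
    convex_Iio (2 : ℝ) hx' hy' ha hb hab
  exact h1.trans_lt h2

theorem QMink_half : 2 * Real.Gamma (1 / 2 + 1) = √Real.pi := by
  rw [Real.Gamma_add_one (by norm_num), Real.Gamma_one_half_eq]
  ring

theorem QMink_pos (k : ℕ) : 0 < QMinkN k := by
  have := Real.Gamma_pos_of_pos (show 0 < (k : ℝ) / 2 + 1 by positivity)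
  have := Real.pi_pos
  unfold QMinkN
  positivity

theorem QMink_vol (k : ℕ) :
    MeasureTheory.volume (QMinkB k) = ENNReal.ofReal (2 ^ k * QMinkN k) := by
  rcases Nat.eq_zero_or_pos k with rfl | hk
  · have : QMinkB 0 = Set.univ := Set.eq_univ_of_forall fun v => by simp [QMinkB]
    rw [this, MeasureTheory.volume_pi, MeasureTheory.Measure.pi_univ]
    simp [QMinkN]
  · have : Nonempty (Fin k) := ⟨⟨0, hk⟩⟩
    have h := MeasureTheory.volume_sum_rpow_lt (Fin k) (p := 2) (by norm_num) √2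
    have e : QMinkB k = {x : Fin k → ℝ | (∑ i, |x i| ^ (2 : ℝ)) ^ (1 / (2 : ℝ)) < √2} := by
      ext x
      simp only [QMinkB, Set.mem_ofPred_eq, Real.rpow_two, sq_abs, ← Real.sqrt_eq_rpow]
      exact (Real.sqrt_lt_sqrt_iff (by positivity)).symm
    rw [e, h, QMink_half, Fintype.card_fin, ← ENNReal.ofReal_pow (by positivity),
      ← ENNReal.ofReal_mul (by positivity), QMinkN, mul_div_cancel₀ _ (by positivity)]

theorem QMink_step (k : ℕ) : QMinkN (k + 2) = Real.pi / (k + 2) * QMinkN k := by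
  have h0 := Real.Gamma_pos_of_pos (show 0 < (k : ℝ) / 2 + 1 by positivity)
  have e : ((k + 2 : ℕ) : ℝ) / 2 + 1 = (k : ℝ) / 2 + 1 + 1 := by
    push_cast
    ring
  rw [QMinkN, QMinkN, e, Real.Gamma_add_one (s := (k : ℝ) / 2 + 1) (by positivity), pow_add,
    pow_add, pow_add, Real.sq_sqrt (by norm_num), Real.sq_sqrt Real.pi_pos.le]
  field_simp

/-- Lower bounds. -/
noncomputable def QMinkC : ℕ → ℝ
  | 0 => 1
  | 1 => 1.414
  | 2 => 1.57
  | 3 => 1.479
  | 4 => 1.232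
  | 5 => 0.928
  | _ => 0.644

theorem QMink_le {k : ℕ} (hk : k ≤ 6) : QMinkC k ≤ QMinkN k := by
  have hp := Real.pi_gt_d2
  have h0 : QMinkN 0 = 1 := by simp [QMinkN]
  have h1 : 1.414 ≤ QMinkN 1 := by
    have h2 : √Real.pi ≠ 0 := (Real.sqrt_pos.2 Real.pi_pos).ne'
    have h3 : Real.Gamma (1 / 2 + 1) = √Real.pi / 2 := by linarith only [QMink_half]
    have : QMinkN 1 = √2 := by
      rw [QMinkN, Nat.cast_one, h3]
      field_simp
    rw [this]
    exact Real.le_sqrt_of_sq_le (by norm_num)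
  have h2 : 1.57 ≤ QMinkN 2 := by
    rw [QMink_step 0, h0]
    norm_num
    linarith only [hp]
  have h3 : 1.479 ≤ QMinkN 3 := by
    rw [QMink_step 1]
    norm_num
    nlinarith only [hp, h1]
  have h4 : 1.232 ≤ QMinkN 4 := by
    rw [QMink_step 2]
    norm_num
    nlinarith only [hp, h2]
  have h5 : 0.928 ≤ QMinkN 5 := by
    rw [QMink_step 3]
    norm_num
    nlinarith only [hp, h3]
  have h6 : 0.644 ≤ QMinkN 6 := by
    rw [QMink_step 4]
    norm_num
    nlinarith only [hp, h4]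
  interval_cases k
  exacts [h0.ge, h1, h2, h3, h4, h5, h6]

theorem QMink_one_lt {r s : ℕ} (h1 : 1 ≤ r + s) (h8 : r + s ≤ 8) (hr : r ≤ s + 4)
    (hr' : s ≤ r + 4) : 1 < QMinkN r * QMinkN s := by
  have h2 : r ≤ 6 := by omega
  have h3 : s ≤ 6 := by omega
  have h4 : 1 < QMinkC r * QMinkC s ∧ 0 ≤ QMinkC s := by
    interval_cases r <;> interval_cases s <;> first | omega | (simp only [QMinkC]; norm_num)
  exact h4.1.trans_le (mul_le_mul (QMink_le h2) (QMink_le h3) h4.2 (QMink_pos r).le)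

/-- The product of two balls. -/
def QMinkS (r s : ℕ) : Set (Fin r ⊕ Fin s → ℝ) :=
  {v | (fun i => v (Sum.inl i)) ∈ QMinkB r ∧ (fun j => v (Sum.inr j)) ∈ QMinkB s}

theorem QMink_volS (r s : ℕ) : MeasureTheory.volume (QMinkS r s) =
    MeasureTheory.volume (QMinkB r) * MeasureTheory.volume (QMinkB s) := by
  have h := (MeasureTheory.volume_measurePreserving_sumPiEquivProdPi
    fun _ : Fin r ⊕ Fin s => ℝ).measure_preimage_equiv (QMinkB r ×ˢ QMinkB s)
  rw [MeasureTheory.Measure.volume_eq_prod, MeasureTheory.Measure.prod_prod] at h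
  exact h

namespace QL

theorem mink_iso {L : QL} {r s : ℕ} (h : L.a 0 = 1) (hs : L.Sig r s) (h1 : 1 ≤ r + s)
    (h8 : r + s ≤ 8) (hr : r ≤ s + 4) (hr' : s ≤ r + 4) :
    ∃ x : L.W, x ≠ 0 ∧ L.β x x = 0 := by
  obtain ⟨Φ, hΦ⟩ := hs
  obtain ⟨b, hb⟩ := L.full.exists_basis (Fin r ⊕ Fin s) hΦ.card
  have hd := hΦ.abs_det b
  rw [← hb, L.cov_eq, h, Nat.cast_one, Real.sqrt_one] at hd
  obtain ⟨m, hm0, hm⟩ := QMink_matrix _ hd (S := QMinkS r s)
    (fun x hx => by simpa [QMinkS, QMinkB] using hx)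
    (fun x hx y hy a b ha hb hab =>
      ⟨QMink_convex r hx.1 hy.1 ha hb hab, QMink_convex s hx.2 hy.2 ha hb hab⟩)
    (by
      have h2 := QMink_one_lt h1 h8 hr hr'
      have h3 := QMink_pos r
      rw [QMink_volS, QMink_vol, QMink_vol, ← ENNReal.ofReal_mul (by positivity),
        ← ENNReal.ofReal_ofNat, ← ENNReal.ofReal_pow zero_le_two,
        ENNReal.ofReal_lt_ofReal_iff_of_nonneg (by positivity), Fintype.card_sum,
        Fintype.card_fin, Fintype.card_fin, mul_mul_mul_comm, ← pow_add]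
      exact lt_mul_of_one_lt_right (by positivity) h2)
  have e : Φ (∑ i, m i • b i) =
      (Matrix.of fun i j => Φ (b j) i).mulVec fun j => (m j : ℝ) := by
    funext k
    simp [map_sum, Matrix.mulVec, dotProduct, mul_comm]
  rw [← e] at hm
  refine ⟨∑ i, m i • b i, fun h0 => hm0 ?_, ?_⟩
  · funext i
    have h1 := Fintype.linearIndependent_iff.1 b.linearIndependent (fun i => (m i : ℚ))
      (by simpa only [Int.cast_smul_eq_zsmul] using h0) i
    exact_mod_cast h1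
  · have hx : ∑ i, m i • b i ∈ L.X := hb ▸ (mem_closure_basis b _).2 ⟨m, rfl⟩
    generalize ∑ i, m i • b i = x at hm hx
    obtain ⟨z, hz⟩ := L.even x hx
    have h2 := hΦ.form x x
    rw [hz, Fintype.sum_sum_type] at h2
    simp only [sgn, Sum.elim_inl, Sum.elim_inr, one_mul, neg_mul, Finset.sum_neg_distrib,
      ← sq] at h2
    have h3 : ∑ i, Φ x (Sum.inl i) ^ 2 < 2 := hm.1
    have h4 : ∑ i, Φ x (Sum.inr i) ^ 2 < 2 := hm.2
    have h5 : 0 ≤ ∑ i, Φ x (Sum.inl i) ^ 2 := by positivity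
    have h6 : 0 ≤ ∑ i, Φ x (Sum.inr i) ^ 2 := by positivity
    push_cast at h2
    have h7 : z < 1 := by exact_mod_cast (show (z : ℝ) < 1 by linarith only [h3, h6, h2])
    have h9 : -1 < z := by exact_mod_cast (show (-1 : ℝ) < z by linarith only [h4, h5, h2])
    obtain rfl : z = 0 := by omega
    simpa using hz

end QL

end Pool.Agent.Work.MP_c8d35c_al
end

-- merged part: Pool.Agent.Work.MP_c8d35c_al.QUni
section
/-! Even unimodular lattices; consequences of gluing.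

Plan. `uni`: induction on `r + s`. For rank zero `iso_zero_of_N`. Otherwise there is an isotropic
vector (`mink_iso` for rank at most eight; `iso_of_sg2` and `sg2_lt_one_of_unimod` for rank at
least nine, where `r, s ≥ 3`), `prim_dual` and `a_zero_eq_one_iff` give `z, f`, `split` gives
`L ≅ U ⊕ M`, with `M.a 0 = 1` (`a_prod`) and signature ` (r - 1, s - 1)` (`exists_sig`,
`Sig.prod`, `Sig.unique`). `unimod_sig`: add copies of `E` or `E.neg` until `|r - s| ≤ 4`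
(induction on `|r - s|`). `sig_pres`: `glue`, `Sig.of_equiv` with `c = 1`.
`iso_of_pres`: `L = U.prod M` has the presentation `l` (`Pres.prod`, `pres_nil_iff`); `glue`
with `M'`; `Λ` has signature ` (m+1, m+1)`, `H` has signature ` (m, m)` (`Sig.cancel`); `uni`,
`iso_addU`, `iso_addU'`, `cancel_addU`. -/

namespace Pool.Agent.Work.MP_c8d35c_al

open Module

namespace QL

theorem uni {L : QL} {r s : ℕ} (h : L.a 0 = 1) (hs : L.Sig r s) (hr : r ≤ s + 4)
    (hr' : s ≤ r + 4) : r = s ∧ L.Iso (addU r zero) := by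
  obtain ⟨n, hn⟩ : ∃ n, r + s = n := ⟨_, rfl⟩
  induction n using Nat.strong_induction_on generalizing L r s with
  | _ n ih =>
  by_cases h0 : r + s = 0
  · obtain ⟨rfl, rfl⟩ : r = 0 ∧ s = 0 := by omega
    exact ⟨rfl, iso_zero_of_N hs.add.symm⟩
  obtain ⟨x, hx, hxx⟩ : ∃ x : L.W, x ≠ 0 ∧ L.β x x = 0 := by
    by_cases h8 : r + s ≤ 8
    · exact mink_iso h hs (by omega) h8 hr hr'
    · exact iso_of_sg2 hs (by omega) (by omega) (by omega)
        (sg2_lt_one_of_unimod h (by rw [← hs.add]; omega))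
  obtain ⟨c, -, hc, f, hf, hcf⟩ := L.prim_dual hx
  obtain ⟨M, hM⟩ := L.split (L.a_zero_eq_one_iff.1 h hc) hf (by simp [hxx]) hcf
  have hMa : M.a 0 = 1 := by
    have := hM.a 0
    rw [a_prod, a_U, one_mul, h] at this
    exact this.symm
  obtain ⟨r', s', hM'⟩ := M.exists_sig
  obtain ⟨e1, e2⟩ := (hM.sig hs).unique (sig_U.prod hM')
  obtain ⟨e3, h3⟩ := ih (r' + s') (by omega) hMa hM' (by omega) (by omega) rfl
  obtain rfl : r = r' + 1 := by omega
  exact ⟨by omega, hM.trans ((Iso.refl U).prod h3)⟩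

theorem unimod_sig (hE : ∃ E : QL, E.a 0 = 1 ∧ E.Sig 8 0) {L : QL} {r s : ℕ} (h : L.a 0 = 1)
    (hs : L.Sig r s) : r % 8 = s % 8 := by
  obtain ⟨E, hE, hE'⟩ := hE
  obtain ⟨n, hn⟩ : ∃ n, (r - s) + (s - r) = n := ⟨_, rfl⟩
  induction n using Nat.strong_induction_on generalizing L r s with
  | _ n ih =>
  by_cases h1 : r ≤ s + 4
  · by_cases h2 : s ≤ r + 4
    · rw [(uni h hs h1 h2).1]
    · have := ih _ (by omega) (L := L.prod E) (by rw [a_prod, h, hE]) (hs.prod hE') rfl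
      omega
  · have := ih _ (by omega) (L := L.prod E.neg) (by rw [a_prod, a_neg, h, hE]) (hs.prod hE'.neg) rfl
    omega

theorem sig_pres (hE : ∃ E : QL, E.a 0 = 1 ∧ E.Sig 8 0) {L L' : QL} {l : List Blk}
    (h : L.Pres l) (h' : L'.Pres l) {r k : ℕ} (hs : L.Sig r 0) (hs' : L'.Sig k 0) :
    r % 8 = k % 8 := by
  obtain ⟨Λ, H, hΛ, -, ⟨e, he⟩, -⟩ := glue h h'
  have := unimod_sig hE hΛ ((hs.prod hs'.neg).of_equiv e one_pos fun x y => by rw [he, one_mul])
  omega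

theorem models_sum (l : List (Blk × ℕ)) (h : ∀ x ∈ l, ∃ M : QL, M.Sig x.2 0 ∧ M.Pres [x.1]) :
    ∃ M : QL, M.Sig (l.map Prod.snd).sum 0 ∧ M.Pres (l.map Prod.fst) := by
  induction l with
  | nil => exact ⟨zero, sig_zero, pres_nil_iff.2 (a_zero 0)⟩
  | cons x l ih =>
    obtain ⟨M, h1, h2⟩ := h x List.mem_cons_self
    obtain ⟨M', h1', h2'⟩ := ih fun y hy => h y (List.mem_cons_of_mem _ hy)
    exact ⟨M.prod M', h1.prod h1', h2.prod h2'⟩

theorem iso_of_pres {M M' : QL} {m : ℕ} {l : List Blk} (hs : M.Sig m 0) (hs' : M'.Sig m 0)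
    (h : M.Pres l) (h' : M'.Pres l) : (U.prod M).Iso (U.prod M') := by
  have hL : (U.prod M).Pres l := (pres_nil_iff.2 (a_U 0)).prod h
  obtain ⟨Λ, H, hΛ, hH, ⟨e, he⟩, hiso⟩ := glue hL h'
  have s1 : (U.prod M).Sig (1 + m) (1 + 0) := sig_U.prod hs
  have s2 : Λ.Sig (m + 1) (m + 1) := by
    have := (s1.prod hs'.neg).of_equiv e one_pos fun x y => by rw [he, one_mul]
    rwa [show 1 + m + 0 = m + 1 by omega, show 1 + 0 + m = m + 1 by omega] at this
  have s3 : H.Sig m m := by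
    have := hiso.sig (s2.prod hs')
    rw [show m + 1 + m = 1 + m + m by omega, show m + 1 + 0 = 1 + 0 + m by omega] at this
    exact this.cancel s1
  have i1 := (uni hΛ s2 (by omega) (by omega)).2
  have i2 := (uni hH s3 (by omega) (by omega)).2
  exact cancel_addU (k := m) (((iso_addU' m M).symm.trans ((Iso.refl _).prod i2).symm).trans
    (hiso.symm.trans ((i1.prod (Iso.refl _)).trans (iso_addU (m + 1) M'))))

end QL

end Pool.Agent.Work.MP_c8d35c_al
end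

-- merged part: Pool.Agent.Work.MP_c8d35c_al.QBlk2
section
/-! Existence of a block.

Plan. Some `y ∈ D'`, `y ∉ X` has `p y ∈ X` for a prime `p` (`exists_exponent`).
Odd `p`: there is `y' ∈ D'` with `β y' y ∉ ℤ` (it lies in `ℤ / p`); a multiple of `y'` by a
number prime to `p` is killed by a power of `p`, hence by `p` (`Red.ep`); one of `y`, `y'`,
`y + y'`, call it `w`, has `β w w ∉ ℤ`; `p β w w` is an integer, even because `p^2 β w w` is;
so `β w w = 2 a / p` with `p ∤ a`; `a s^2 ≡ 1` or `nr p` modulo `p` for some `s` (`nr_spec`,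
the product of two non-squares is a square: `quadraticChar`); the block is `![s • w, 0]`.
`p = 2`: if some `w ∈ D'` has `4 w ∈ X`, `2 w ∉ X`, then `4 β w w` is an odd integer
(`four_odd`), reduce it modulo `8`. Otherwise every element of `D'` killed by a power of two is
killed by two (`Red.e8`). If some `w ∈ D'` with `2 w ∈ X` has `β w w ∉ ℤ` then `2 β w w` is odd,
`≡ 1` or `3` modulo `4` (`pl`, `mi`). Otherwise take `y'` with `2 y' ∈ X`, `β y y' ∈ 1/2 + ℤ`;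
by the parities of `β y y`, `β y' y'` the pair `y, y'` or `y + y', y'` or `y, y + y'` is a block
`u` or `v`. -/

namespace Pool.Agent.Work.MP_c8d35c_al

open Module

namespace QL

section aux

variable {L : QL}

theorem QBlk2_bez {m p : ℕ} (h : m.Coprime p) {b : ℚ} (h1 : ∃ z : ℤ, m * b = z)
    (h2 : ∃ z : ℤ, p * b = z) : ∃ z : ℤ, b = z := by
  obtain ⟨z, hz⟩ := h1
  obtain ⟨w, hw⟩ := h2
  obtain ⟨u, v, huv⟩ := Nat.isCoprime_iff_coprime.2 h
  have e : (u : ℚ) * m + v * p = 1 := by exact_mod_cast huv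
  refine ⟨u * z + v * w, ?_⟩
  push_cast
  rw [← hz, ← hw]
  linear_combination -b * e

theorem QBlk2_int {p : ℕ} {y y' : L.W} (hy : p • y ∈ L.X) (hy' : y' ∈ L.D) :
    ∃ z : ℤ, p * L.β y y' = z := by
  obtain ⟨z, hz⟩ := hy' _ hy
  exact ⟨z, by simpa using hz⟩

theorem QBlk2_prime {D' : AddSubgroup L.W} (hD : D' ≤ L.D) (hne : ¬D' ≤ L.X) :
    ∃ p : ℕ, p.Prime ∧ ∃ y ∈ D', y ∉ L.X ∧ p • y ∈ L.X := by
  classical
  obtain ⟨y, hy, hy'⟩ := SetLike.not_le_iff_exists.1 hne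
  have hex : ∃ e : ℕ, 0 < e ∧ e • y ∈ L.X := by
    obtain ⟨e, he, h⟩ := L.exists_exponent
    exact ⟨e, he, h y (hD hy)⟩
  obtain ⟨h0, h1⟩ := Nat.find_spec hex
  have hne1 : Nat.find hex ≠ 1 := fun h => hy' (by rwa [h, one_smul] at h1)
  obtain ⟨p, hp, m, hm⟩ := Nat.exists_prime_and_dvd hne1
  have hm0 : 0 < m := Nat.pos_of_ne_zero fun h => by rw [hm, h] at h0; simp at h0
  refine ⟨p, hp, m • y, nsmul_mem hy m, fun h => Nat.find_min hex ?_ ⟨hm0, h⟩, ?_⟩
  · rw [hm]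
    exact (Nat.lt_mul_iff_one_lt_left hm0).2 hp.one_lt
  · rwa [smul_smul, ← hm]

theorem QBlk2_partner {D' : AddSubgroup L.W} (hD : L.NdOn D') {p : ℕ} (hp : p.Prime) {y : L.W}
    (hy : y ∈ D') (hy' : y ∉ L.X) (hpy : p • y ∈ L.X) :
    ∃ y' ∈ D', (∃ k : ℕ, p ^ k • y' ∈ L.X) ∧ ¬∃ z : ℤ, L.β y y' = z := by
  obtain ⟨y0, h0, h1⟩ : ∃ y0 ∈ D', ¬∃ z : ℤ, L.β y0 y = z := by
    by_contra hc
    exact hy' (hD.2.2 y hy fun y' hy' => by_contra fun h => hc ⟨y', hy', h⟩)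
  obtain ⟨e, he, h⟩ := L.exists_exponent
  obtain ⟨k, m, hm, rfl⟩ := Nat.exists_eq_pow_mul_and_not_dvd he.ne' p hp.ne_one
  refine ⟨m • y0, nsmul_mem h0 m, ⟨k, by rw [smul_smul]; exact h y0 (hD.2.1 h0)⟩, fun h2 => h1 ?_⟩
  rw [L.symm]
  exact QBlk2_bez ((Nat.Prime.coprime_iff_not_dvd hp).2 hm).symm (by simpa using h2)
    (QBlk2_int hpy (hD.2.1 h0))

theorem QBlk2_odd_pow {N : ℕ} (h : L.Red N) {p : ℕ} (hp : p.Prime) (h2 : p ≠ 2) {y : L.W}
    (hy : y ∈ L.D) (k : ℕ) (hk : p ^ k • y ∈ L.X) : p • y ∈ L.X := by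
  have key : ∀ k : ℕ, p ^ (k + 1) • y ∈ L.X → p • y ∈ L.X := by
    intro k
    induction k with
    | zero => intro h; simpa using h
    | succ k ih =>
      intro hk
      refine ih ?_
      rw [pow_succ', ← smul_smul]
      refine h.ep hp h2 (nsmul_mem hy _) ?_
      rwa [smul_smul, ← pow_add, add_comm]
  refine key k ?_
  rw [pow_succ', ← smul_smul]
  exact nsmul_mem hk p

theorem QBlk2_two_pow {N : ℕ} (h : L.Red N) {y : L.W} (hy : y ∈ L.D) (k : ℕ)
    (hk : 2 ^ k • y ∈ L.X) : 4 • y ∈ L.X := by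
  have key : ∀ k : ℕ, (4 * 2 ^ k) • y ∈ L.X → 4 • y ∈ L.X := by
    intro k
    induction k with
    | zero => intro h; simpa using h
    | succ k ih =>
      intro hk
      refine ih ?_
      rw [← smul_smul]
      refine h.e8 (nsmul_mem hy _) ?_
      rwa [smul_smul, show 8 * 2 ^ k = 4 * 2 ^ (k + 1) by ring]
  refine key k ?_
  rw [← smul_smul]
  exact nsmul_mem hk 4

theorem QBlk2_cyc {B : Blk} (hv : B.Valid) {w : L.W} (hw : w ∈ L.D) (he : B.ex • w ∈ L.X)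
    {q : ℚ} (hg : ∀ i j, B.g i j = if i = 0 ∧ j = 0 then q else 0) {n : ℤ}
    (hn : L.β w w = q + 2 * n) : L.IsBlk B ![w, 0] := by
  refine ⟨hv, fun i => ?_, fun i => ?_, fun _ _ => zero_mem _, fun i j => ?_⟩
  · fin_cases i
    exacts [hw, zero_mem _]
  · fin_cases i
    exacts [he, nsmul_mem (zero_mem _) _]
  · rw [hg]
    fin_cases i <;> fin_cases j
    · exact ⟨2 * n, by simpa using hn, fun _ => even_two_mul n⟩
    all_goals exact ⟨0, by simp, fun _ => Even.zero⟩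

theorem QBlk2_pair {B : Blk} (hB : B = Blk.u ∨ B = Blk.v) {y y' : L.W} (hy : y ∈ L.D)
    (hy' : y' ∈ L.D) (h2 : 2 • y ∈ L.X) (h2' : 2 • y' ∈ L.X) {q : ℚ}
    (hg : ∀ i j, B.g i j = if i = j then q else 1 / 2) {a b c : ℤ}
    (ha : L.β y y = q + 2 * a) (hb : L.β y' y' = q + 2 * b) (hc : L.β y y' = 1 / 2 + c) :
    L.IsBlk B ![y, y'] := by
  have e : B.ex = 2 := by rcases hB with rfl | rfl <;> rfl
  refine ⟨by rcases hB with rfl | rfl <;> trivial, fun i => ?_, fun i => ?_,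
    fun h h' => (hB.elim h h').elim, fun i j => ?_⟩
  · fin_cases i
    exacts [hy, hy']
  · rw [e]
    fin_cases i
    exacts [h2, h2']
  · rw [hg]
    fin_cases i <;> fin_cases j
    · exact ⟨2 * a, by simpa using ha, fun _ => even_two_mul a⟩
    · exact ⟨c, by simpa using hc, fun h => by simp at h⟩
    · exact ⟨c, by rw [L.symm] at hc; simpa using hc, fun h => by simp at h⟩
    · exact ⟨2 * b, by simpa using hb, fun _ => even_two_mul b⟩

theorem QBlk2_sq {p : ℕ} (hp : p.Prime) (h2 : p ≠ 2) {a : ℤ} (ha : ¬(p : ℤ) ∣ a) :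
    ∃ (c : ℕ) (s n : ℤ), (c = 1 ∨ c = nr p) ∧ a * s ^ 2 = c + p * n := by
  have : Fact p.Prime := ⟨hp⟩
  have h0 : (a : ZMod p) ≠ 0 := fun h => ha ((ZMod.intCast_zmod_eq_zero_iff_dvd a p).1 h)
  obtain ⟨c, hc, s, hs⟩ : ∃ c : ℕ, (c = 1 ∨ c = nr p) ∧ ∃ s : ZMod p, (a : ZMod p) * s ^ 2 = c := by
    by_cases hq : IsSquare (a : ZMod p)
    · obtain ⟨r, hr⟩ := hq
      have hr0 : r ≠ 0 := fun h => h0 (by rw [hr, h, mul_zero])
      exact ⟨1, Or.inl rfl, r⁻¹, by rw [hr]; field_simp; simp⟩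
    · have hn := (nr_spec hp h2).2
      have hn0 : ((nr p : ℕ) : ZMod p) ≠ 0 := fun h => hn (by rw [h]; exact IsSquare.zero)
      obtain ⟨r, hr⟩ : IsSquare ((a : ZMod p) * (nr p : ℕ)) := by
        rw [← quadraticChar_one_iff_isSquare (mul_ne_zero h0 hn0), map_mul,
          quadraticChar_neg_one_iff_not_isSquare.2 hq, quadraticChar_neg_one_iff_not_isSquare.2 hn]
        norm_num
      refine ⟨nr p, Or.inr rfl, r / a, ?_⟩
      field_simp
      linear_combination -hr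
  obtain ⟨s, rfl⟩ := ZMod.intCast_surjective s
  obtain ⟨n, hn⟩ := (ZMod.intCast_eq_intCast_iff_dvd_sub (c : ℤ) (a * s ^ 2) p).1
    (by push_cast; exact hs.symm)
  exact ⟨c, s, n, hc, by linarith only [hn]⟩

theorem QBlk2_odd {p : ℕ} (hp : p.Prime) (h2 : p ≠ 2) {w : L.W} (hw : w ∈ L.D)
    (hpw : p • w ∈ L.X) (hn : ¬∃ z : ℤ, L.β w w = z) :
    ∃ (c : ℕ) (s : ℤ), L.IsBlk (Blk.odd p c) ![s • w, 0] := by
  have hp0 : (p : ℚ) ≠ 0 := Nat.cast_ne_zero.2 hp.ne_zero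
  obtain ⟨z, hz⟩ := L.even _ hpw
  obtain ⟨t, ht⟩ := QBlk2_int hpw hw
  simp only [map_nsmul, LinearMap.smul_apply, nsmul_eq_mul] at hz
  obtain ⟨a, ha⟩ : ∃ a : ℤ, (t : ℚ) / 2 = a :=
    QBlk2_bez (m := 2) (p := p) ((Nat.coprime_primes Nat.prime_two hp).2 h2.symm)
      ⟨t, by push_cast; ring⟩ ⟨z, by rw [ht] at hz; linarith only [hz]⟩
  have e : L.β w w = 2 * a / p := by
    rw [← ha, ← ht]
    field_simp
  obtain ⟨c, s, n, hc, hs⟩ := QBlk2_sq hp h2 (a := a) fun ⟨b, hb⟩ => hn ⟨2 * b, by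
    rw [e, hb]
    push_cast
    field_simp⟩
  refine ⟨c, s, QBlk2_cyc (B := Blk.odd p c) ⟨hp, h2, hc⟩ (zsmul_mem hw s) ?_ (fun _ _ => rfl)
    (n := n) ?_⟩
  · change p • s • w ∈ L.X
    rw [smul_comm]
    exact zsmul_mem hpw s
  · have hs' : (a : ℚ) * s ^ 2 = c + p * n := by exact_mod_cast hs
    simp only [map_zsmul, LinearMap.smul_apply, zsmul_eq_mul, e]
    field_simp
    linear_combination hs'

theorem QBlk2_add (y y' : L.W) :
    L.β (y + y') (y + y') = L.β y y + 2 * L.β y y' + L.β y' y' := by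
  simp only [map_add, LinearMap.add_apply, L.symm y' y]
  ring

end aux

theorem exists_blk {L : QL} {N : ℕ} (h : L.Red N) {D' : AddSubgroup L.W} (hD : L.NdOn D')
    (hne : ¬D' ≤ L.X) : ∃ (B : Blk) (y : Fin 2 → L.W), L.IsBlk B y ∧ ∀ i, y i ∈ D' := by
  have hc : ∀ {w : L.W}, w ∈ D' → ∀ i, ![w, 0] i ∈ D' := fun hw i => by
    fin_cases i
    exacts [hw, zero_mem _]
  have hc2 : ∀ {w w' : L.W}, w ∈ D' → w' ∈ D' → ∀ i, ![w, w'] i ∈ D' := fun hw hw' i => by
    fin_cases i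
    exacts [hw, hw']
  obtain ⟨p, hp, y, hy, hy', hpy⟩ := QBlk2_prime hD.2.1 hne
  obtain ⟨y', hz, ⟨k, hk⟩, hn⟩ := QBlk2_partner hD hp hy hy' hpy
  by_cases h2 : p = 2
  swap
  · have hpz := QBlk2_odd_pow h hp h2 (hD.2.1 hz) k hk
    obtain ⟨w, hw, hpw, hww⟩ : ∃ w ∈ D', p • w ∈ L.X ∧ ¬∃ z : ℤ, L.β w w = z := by
      by_contra hcon
      have key : ∀ w ∈ D', p • w ∈ L.X → ∃ z : ℤ, L.β w w = z := fun w hw hpw =>
        by_contra fun h => hcon ⟨w, hw, hpw, h⟩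
      obtain ⟨a, ha⟩ := key y hy hpy
      obtain ⟨b, hb⟩ := key y' hz hpz
      obtain ⟨c, hc⟩ := key (y + y') (add_mem hy hz) (by rw [smul_add]; exact add_mem hpy hpz)
      rw [QBlk2_add, ha, hb] at hc
      exact hn (QBlk2_bez (m := 2) ((Nat.coprime_primes Nat.prime_two hp).2 (Ne.symm h2))
        ⟨c - a - b, by push_cast; linarith⟩ (QBlk2_int hpy (hD.2.1 hz)))
    obtain ⟨c, s, hB⟩ := QBlk2_odd hp h2 (hD.2.1 hw) hpw hww
    exact ⟨_, _, hB, hc (zsmul_mem hw s)⟩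
  subst h2
  by_cases h4 : ∃ w ∈ D', 4 • w ∈ L.X ∧ 2 • w ∉ L.X
  · obtain ⟨w, hw, h4, h2⟩ := h4
    have ho := four_odd h hD hw h4 h2
    obtain ⟨t, ht⟩ := QBlk2_int h4 (hD.2.1 hw)
    have ht2 : ¬2 ∣ t := fun ⟨u, hu⟩ => ho ⟨u, by
      rw [hu] at ht
      push_cast at ht
      linarith⟩
    obtain ⟨c, hc', n, hn⟩ : ∃ c : ℕ, (c = 1 ∨ c = 3 ∨ c = 5 ∨ c = 7) ∧ ∃ n : ℤ, t = c + 8 * n :=
      ⟨(t % 8).toNat, by omega, t / 8, by omega⟩
    refine ⟨_, _, QBlk2_cyc (B := Blk.four c) hc' (hD.2.1 hw) h4 (fun _ _ => rfl) (n := n) ?_,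
      hc hw⟩
    rw [hn] at ht
    push_cast at ht
    linarith only [ht]
  have hpz : 2 • y' ∈ L.X :=
    by_contra fun h' => h4 ⟨y', hz, QBlk2_two_pow h (hD.2.1 hz) k hk, h'⟩
  have half : ∀ {w w' : L.W}, 2 • w ∈ L.X → w' ∈ D' → (¬∃ z : ℤ, L.β w w' = z) →
      ∃ c : ℤ, L.β w w' = 1 / 2 + c := fun hw hw' hn => by
    obtain ⟨t, ht⟩ := QBlk2_int hw (hD.2.1 hw')
    rcases Int.even_or_odd' t with ⟨u, rfl | rfl⟩
    · exact absurd ⟨u, by push_cast at ht; linarith⟩ hn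
    · exact ⟨u, by push_cast at ht; linarith only [ht]⟩
  by_cases h3 : ∃ w ∈ D', 2 • w ∈ L.X ∧ ¬∃ z : ℤ, L.β w w = z
  · obtain ⟨w, hw, h2, hww⟩ := h3
    obtain ⟨c, hc'⟩ := half h2 hw hww
    rcases Int.even_or_odd' c with ⟨u, rfl | rfl⟩
    · exact ⟨_, _, QBlk2_cyc (B := Blk.pl) trivial (hD.2.1 hw) h2 (fun _ _ => rfl) (n := u)
        (by rw [hc']; push_cast; ring), hc hw⟩
    · exact ⟨_, _, QBlk2_cyc (B := Blk.mi) trivial (hD.2.1 hw) h2 (fun _ _ => rfl) (n := u)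
        (by rw [hc']; push_cast; ring), hc hw⟩
  obtain ⟨a, ha⟩ : ∃ z : ℤ, L.β y y = z := by_contra fun h => h3 ⟨y, hy, hpy, h⟩
  obtain ⟨b, hb⟩ : ∃ z : ℤ, L.β y' y' = z := by_contra fun h => h3 ⟨y', hz, hpz, h⟩
  obtain ⟨c, hc'⟩ := half hpy hz hn
  have hs := add_mem hy hz
  have hs2 : 2 • (y + y') ∈ L.X := by rw [smul_add]; exact add_mem hpy hpz
  rcases Int.even_or_odd' a with ⟨a, rfl | rfl⟩ <;> rcases Int.even_or_odd' b with ⟨b, rfl | rfl⟩
  · exact ⟨_, _, QBlk2_pair (Or.inl rfl) (hD.2.1 hy) (hD.2.1 hz) hpy hpz (fun _ _ => rfl)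
      (a := a) (b := b) (by rw [ha]; push_cast; ring) (by rw [hb]; push_cast; ring) hc', hc2 hy hz⟩
  · exact ⟨_, _, QBlk2_pair (Or.inl rfl) (hD.2.1 hy) (hD.2.1 hs) hpy hs2 (fun _ _ => rfl)
      (a := a) (b := a + b + c + 1) (c := 2 * a + c) (by rw [ha]; push_cast; ring)
      (by rw [QBlk2_add, ha, hb, hc']; push_cast; ring)
      (by rw [map_add, ha, hc']; push_cast; ring), hc2 hy hs⟩
  · exact ⟨_, _, QBlk2_pair (Or.inl rfl) (hD.2.1 hs) (hD.2.1 hz) hs2 hpz (fun _ _ => rfl)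
      (a := a + b + c + 1) (b := b) (c := 2 * b + c)
      (by rw [QBlk2_add, ha, hb, hc']; push_cast; ring) (by rw [hb]; push_cast; ring)
      (by rw [map_add, LinearMap.add_apply, hb, hc']; push_cast; ring), hc2 hs hz⟩
  · exact ⟨_, _, QBlk2_pair (Or.inr rfl) (hD.2.1 hy) (hD.2.1 hz) hpy hpz (fun _ _ => rfl)
      (a := a) (b := b) (by rw [ha]; push_cast; ring) (by rw [hb]; push_cast; ring) hc', hc2 hy hz⟩

end QL

end Pool.Agent.Work.MP_c8d35c_al
end

-- merged part: Pool.Agent.Work.MP_c8d35c_al.QBlk3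
section
/-! The block decomposition of the discriminant form.

Plan. `decomp_on`: strong induction on `X.relIndex D'` (finite: `D'` is full). If `D' ≤ X` take
`l = []`. Otherwise take a block (`exists_blk`), `D'' = perp D' y`; `D' = gen y ⊔ D''`
(`IsBlk.split`), `gen y ⊓ D'' ≤ X` (`IsBlk.inf_le`), `NdOn D''`, `D'' < D'` (`IsBlk.not_le`);
`idx_sup`, `IsBlk.idx`; the generators are `Fin.cons y y''` (curried). -/

namespace Pool.Agent.Work.MP_c8d35c_al

open Module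

namespace QL

theorem qblk3_comb_mem {L : QL} {D' : AddSubgroup L.W} {y : Fin 2 → L.W} (hy : ∀ i, y i ∈ D')
    (c : Fin 2 → ℤ) : ∑ i, c i • y i ∈ D' :=
  sum_mem fun i _ => zsmul_mem (hy i) (c i)

theorem qblk3_split {L : QL} {B : Blk} {y : Fin 2 → L.W} (hB : L.IsBlk B y)
    {D' : AddSubgroup L.W} (hD : L.NdOn D') (hy : ∀ i, y i ∈ D') {z : L.W} (hz : z ∈ D') :
    ∃ c : Fin 2 → ℤ, z - ∑ i, c i • y i ∈ L.perp D' y := by
  obtain ⟨c, hc⟩ := hB.split (hD.2.1 hz)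
  exact ⟨c, sub_mem hz (qblk3_comb_mem hy c), hc⟩

theorem qblk3_X_le {L : QL} {B : Blk} {y : Fin 2 → L.W} (hB : L.IsBlk B y)
    {D' : AddSubgroup L.W} (hD : L.NdOn D') : L.X ≤ L.perp D' y :=
  fun x hx => ⟨hD.1 hx, fun j => hB.mem j x hx⟩

theorem qblk3_nd {L : QL} {B : Blk} {y : Fin 2 → L.W} (hB : L.IsBlk B y)
    {D' : AddSubgroup L.W} (hD : L.NdOn D') (hy : ∀ i, y i ∈ D') : L.NdOn (L.perp D' y) := by
  refine ⟨qblk3_X_le hB hD, fun z hz => hD.2.1 hz.1, fun w hw h => ?_⟩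
  refine hD.2.2 w hw.1 fun z hz => ?_
  obtain ⟨c, hc⟩ := qblk3_split hB hD hy hz
  obtain ⟨a, ha⟩ := h _ hc
  choose n hn using hw.2
  refine ⟨a + ∑ i, c i * n i, ?_⟩
  have e : L.β z w = L.β (z - ∑ i, c i • y i) w + ∑ i, (c i : ℚ) * L.β w (y i) := by
    rw [map_sub, LinearMap.sub_apply, map_sum, LinearMap.sum_apply]
    have : ∀ i, L.β (c i • y i) w = (c i : ℚ) * L.β w (y i) := fun i => by
      rw [map_zsmul, LinearMap.smul_apply, zsmul_eq_mul, L.symm]
    simp only [this]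
    ring
  rw [e, ha]
  simp only [hn]
  push_cast
  ring

theorem qblk3_sup {L : QL} {B : Blk} {y : Fin 2 → L.W} (hB : L.IsBlk B y)
    {D' : AddSubgroup L.W} (hD : L.NdOn D') (hy : ∀ i, y i ∈ D') :
    L.gen y ⊔ L.perp D' y = D' := by
  apply le_antisymm
  · refine sup_le (sup_le hD.1 ?_) fun z hz => hz.1
    rw [AddSubgroup.closure_le]
    rintro _ ⟨i, rfl⟩
    exact hy i
  · intro z hz
    obtain ⟨c, hc⟩ := qblk3_split hB hD hy hz
    have h1 : ∑ i, c i • y i ∈ L.gen y := mem_gen.2 ⟨c, by simp⟩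
    have e : z = ∑ i, c i • y i + (z - ∑ i, c i • y i) := by abel
    rw [e]
    exact add_mem (AddSubgroup.mem_sup_left h1) (AddSubgroup.mem_sup_right hc)

theorem qblk3_lt {L : QL} {B : Blk} {y : Fin 2 → L.W} (hB : L.IsBlk B y)
    {D' : AddSubgroup L.W} (hD : L.NdOn D') (hy : ∀ i, y i ∈ D') :
    L.X.relIndex (L.perp D' y) < L.X.relIndex D' := by
  have hle : L.perp D' y ≤ D' := fun z hz => hz.1
  have hfull : Full D' := L.full.of_le_of_le L.full_D hD.1 hD.2.1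
  have h0 : L.X.relIndex D' ≠ 0 := L.full.relIndex_ne_zero hfull
  have hm := AddSubgroup.relIndex_mul_relIndex _ _ _ (qblk3_X_le hB hD) hle
  have h1 : (L.perp D' y).relIndex D' ≠ 1 := by
    rw [Ne, AddSubgroup.relIndex_eq_one]
    intro h
    exact hB.not_le ⟨hB.mem 0, (h (hy 0)).2⟩
  rw [← hm] at h0 ⊢
  have ha := left_ne_zero_of_mul h0
  have hb := right_ne_zero_of_mul h0
  have h2 : 2 ≤ (L.perp D' y).relIndex D' := by omega
  nlinarith only [ha, h2, Nat.pos_of_ne_zero ha]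

theorem qblk3_pres {L : QL} {B : Blk} {y : Fin 2 → L.W} (hB : L.IsBlk B y)
    {D' : AddSubgroup L.W} (hD : L.NdOn D') (hy : ∀ i, y i ∈ D') {l : List Blk}
    (h : L.PresG (L.perp D' y) (blkC l)) : L.PresG D' (blkC (B :: l)) := by
  obtain ⟨w, hw1, hw2, hw3⟩ := h
  let Y : Fin (l.length + 1) → Fin 2 → L.W := Fin.cons y fun i j => w (i, j)
  refine ⟨fun p => Y p.1 p.2, ?_, ?_, ?_⟩
  · rintro ⟨i, j⟩
    refine Fin.cases ?_ (fun i => ?_) i
    · exact hy j
    · exact (hw1 (i, j)).1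
  · intro z hz
    obtain ⟨c, hc⟩ := qblk3_split hB hD hy hz
    obtain ⟨d, hd⟩ := hw2 _ hc
    let C : Fin (l.length + 1) → Fin 2 → ℤ := Fin.cons c fun i j => d (i, j)
    refine ⟨fun p => C p.1 p.2, ?_⟩
    have e : ∑ p : Fin (l.length + 1) × Fin 2, C p.1 p.2 • Y p.1 p.2 =
        ∑ i, c i • y i + ∑ p, d p • w p := by
      rw [Fintype.sum_prod_type, Fin.sum_univ_succ, Fintype.sum_prod_type]
      rfl
    have e2 : z - ∑ p : Fin (l.length + 1) × Fin 2, C p.1 p.2 • Y p.1 p.2 =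
        z - ∑ i, c i • y i - ∑ p, d p • w p := by
      rw [e]; abel
    exact e2 ▸ hd
  · rintro ⟨i, j⟩ ⟨i', j'⟩
    refine Fin.cases ?_ (fun i => ?_) i <;> refine Fin.cases ?_ (fun i' => ?_) i'
    · obtain ⟨n, hn, hn'⟩ := hB.gram j j'
      refine ⟨n, ?_, fun h => hn' (congrArg Prod.snd h)⟩
      simpa [blkC, Y] using hn
    · obtain ⟨n, hn⟩ := (hw1 (i', j')).2 j
      refine ⟨n, ?_, fun h => absurd (congrArg Prod.fst h) (Fin.succ_ne_zero i').symm⟩
      have h0 : ¬((0 : Fin (l.length + 1)) = i'.succ) := (Fin.succ_ne_zero i').symm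
      have e : blkC (B :: l) (0, j) (i'.succ, j') = 0 := if_neg h0
      rw [e, zero_add, L.symm]
      exact hn
    · obtain ⟨n, hn⟩ := (hw1 (i, j)).2 j'
      refine ⟨n, ?_, fun h => absurd (congrArg Prod.fst h) (Fin.succ_ne_zero i)⟩
      have e : blkC (B :: l) (i.succ, j) (0, j') = 0 := if_neg (Fin.succ_ne_zero i)
      rw [e, zero_add]
      exact hn
    · obtain ⟨n, hn, hn'⟩ := hw3 (i, j) (i', j')
      refine ⟨n, ?_, fun h => hn' ?_⟩
      · have e : blkC (B :: l) (i.succ, j) (i'.succ, j') = blkC l (i, j) (i', j') := by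
          simp [blkC]
        rw [e]
        exact hn
      · obtain ⟨h1, h2⟩ := Prod.mk.inj h
        exact Prod.ext (Fin.succ_injective _ h1) h2

theorem decomp_on {L : QL} {N : ℕ} (h : L.Red N) {D' : AddSubgroup L.W} (hD : L.NdOn D') :
    ∃ l : List Blk, (∀ B ∈ l, B.Valid) ∧ L.PresG D' (blkC l) ∧
      ∀ c, L.X.relIndex (D' ⊓ L.tor c) = tors l c := by
  induction hn : L.X.relIndex D' using Nat.strong_induction_on generalizing D' with
  | _ n ih =>
    by_cases hle : D' ≤ L.X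
    · refine ⟨[], by simp, ⟨fun p => p.1.elim0, fun p => p.1.elim0, fun z hz => ?_,
        fun p => p.1.elim0⟩, fun c => ?_⟩
      · refine ⟨fun _ => 0, ?_⟩
        simpa using hle hz
      · rw [tors, List.map_nil, List.prod_nil, AddSubgroup.relIndex_eq_one]
        exact inf_le_left.trans hle
    · obtain ⟨B, y, hB, hy⟩ := exists_blk h hD hle
      have hnd := qblk3_nd hB hD hy
      obtain ⟨l, h1, h2, h3⟩ := ih _ (hn ▸ qblk3_lt hB hD hy) hnd rfl
      refine ⟨B :: l, ?_, qblk3_pres hB hD hy h2, fun c => ?_⟩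
      · intro B' hB'
        rcases List.mem_cons.1 hB' with rfl | hB'
        · exact hB.valid
        · exact h1 B' hB'
      · have hg : L.gen y ≤ L.D := (le_sup_left.trans (qblk3_sup hB hD hy).le).trans hD.2.1
        have hp : L.perp D' y ≤ L.perp L.D y := fun z hz => mem_perp.2 ⟨hD.2.1 hz.1, hz.2⟩
        have hi : L.gen y ⊓ L.perp D' y ≤ L.X := le_trans (inf_le_inf_left _ hp) hB.inf_le
        have hx : L.X ≤ L.gen y := le_sup_left
        have e := idx_sup (D₁ := L.gen y) hx hnd.1 hg hnd.2.1 hi c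
        rw [qblk3_sup hB hD hy, hB.idx, h3] at e
        rw [e, tors, tors, List.map_cons, List.prod_cons]

theorem decomp {L : QL} {N : ℕ} (h : L.Red N) :
    ∃ l : List Blk, (∀ B ∈ l, B.Valid) ∧ L.Pres l ∧ ∀ c, L.a c = tors l c := by
  obtain ⟨l, h1, h2, h3⟩ := decomp_on h L.ndOn_D
  exact ⟨l, h1, h2, fun c => by rw [← h3 c, inf_eq_right.2 (L.tor_le_D c), a]⟩

end QL

end Pool.Agent.Work.MP_c8d35c_al
end

-- merged part: Pool.Agent.Work.MP_c8d35c_al.QLat
section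
/-! The lattice theorem: in rank 21 and in rank at least 23 some cusp has too few roots. -/

namespace Pool.Agent.Work.MP_c8d35c_al

namespace QL

/-- Meyer's theorem in high rank. -/
theorem meyer {L : QL} {r s : ℕ} (h : L.Sig r s) (hr : 3 ≤ r) (hs : 1 ≤ s) (hN : 18 ≤ r + s) :
    ∃ x : L.W, x ≠ 0 ∧ L.β x x = 0 := by
  obtain ⟨c, hc, X, hX, he, hred, -⟩ := L.exists_red ∅ (by simp) (by simp) (by simp)
  have hs' : (L.re c hc.ne' X hX he).Sig r s :=
    h.of_equiv (L' := L.re c hc.ne' X hX he) (LinearEquiv.refl ℚ L.W) hc fun _ _ => rfl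
  obtain ⟨x, hx, h0⟩ := iso_of_sg2 hs' hr hs (by omega)
    (Red.sg2_lt_one (L := L.re c hc.ne' X hX he) hred (by rw [← hs'.add]; exact hN))
  exact ⟨x, hx, (mul_eq_zero.1 h0).resolve_left hc.ne'⟩

theorem shape_of {M : QL} {m : ℕ} (hm : m = 19 ∨ 21 ≤ m) (hs : M.Sig m 0) (hr : M.Red (m + 2))
    (hc : (U.prod M).CuspFull) {l : List Blk} (hv : ∀ B ∈ l, B.Valid)
    (ha : ∀ c, M.a c = tors l c) : okShape m l := by
  obtain ⟨P, b, hP, hb, hf, ht, ho⟩ := list_data hv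
  have ha' : ∀ c, M.a c = torf P b (r2s l) (r4s l) c := fun c => (ha c).trans (ht c)
  have hR : Rks m P b (r2s l) (r4s l) := rks_of hP hb hf
    (fun p hp h2 => ha' p ▸ hr.odd_le p hp h2) (by rw [← ha', ← ha']; exact hr.four)
    (by rw [← ha']; exact hr.two)
  have hN : M.N = m := by rw [← hs.add]; rfl
  have he0 := exf_ne_zero hP (r2s l) (r4s l)
  have he : ∀ y ∈ M.D, exf P (r2s l) (r4s l) • y ∈ M.X := fun y hy => by
    have := M.tor_eq_of_a_le (dvd_zero (exf P (r2s l) (r4s l)))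
      (by rw [ha', ha', torf_exf hf])
    rw [← M.tor_zero, this] at hy
    exact hy.2
  have h1 := main_ineq hs (by omega) hc he0 he
  have h2 := num_sum (by omega) hR (fun t c => (M.typ t).a c)
    (fun t ht => ⟨(M.typ t).a_ne_zero 0, by
      rw [← ha', ← ha', M.typ_a_zero (ne_zero_of_dvd_ne_zero he0 ht), hN]
      exact Dvd.intro _ rfl⟩)
    (fun t _ c hc => ⟨(M.typ t).a_dvd (dvd_zero c), by
      have := (M.typ t).a_dvd_pow hc
      rwa [typ_N, hN] at this⟩)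
  refine ⟨hR.f1, ho ▸ num_shape hm hR (h1.trans ?_)⟩
  refine mul_le_mul_of_nonneg_left (le_trans (le_of_eq ?_) h2) (cmc_pos (by omega)).le
  simp only [sg2, typ_N, hN]

theorem lattice_main {L : QL} {n : ℕ} (hn : n = 20 ∨ 22 ≤ n) (hs : L.Sig n 1)
    (hr : L.Red L.N) : ¬L.CuspFull := by
  intro hc
  obtain ⟨m, rfl⟩ : ∃ m, n = m + 1 := ⟨n - 1, by omega⟩
  have hN : L.N = m + 2 := by rw [← hs.add]
  obtain ⟨x, hx, h0⟩ := meyer hs (by omega) le_rfl (by omega)
  obtain ⟨z, hz, f, hf, h1, h2⟩ := L.exists_div_one hr (by omega) hx h0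
  obtain ⟨M, hM⟩ := L.split hz hf h1 h2
  have hsM : M.Sig m 0 := Sig.cancel (r := 1) (s := 1)
    (by rw [add_comm 1 m]; exact hM.sig hs) sig_U
  have hrM : M.Red (m + 2) := (hN ▸ hr).congr fun c => by rw [hM.a, a_prod, a_U, one_mul]
  have hcM := hM.cuspFull hc
  obtain ⟨l, hv, hp, ha⟩ := decomp hrM
  have hm : m = 19 ∨ 21 ≤ m := by omega
  obtain ⟨l', hperm, hmem, h | ⟨M', hs', hp', hd⟩⟩ :=
    enum_main hm hv (shape_of hm hsM hrM hcM hv ha)
  · obtain ⟨M', hs', hp'⟩ := models_sum l' fun x hx => sigTab_model x (hmem x hx)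
    obtain ⟨E, hE1, hE2⟩ := exists_E8
    exact h (sig_pres ⟨E, pres_nil_iff.1 hE2, hE1⟩ (hp'.perm hperm) hp hs' hsM)
  · exact ((iso_of_pres hsM hs' hp (hp'.perm hperm)).cuspFull hcM).not_defic hd

end QL

end Pool.Agent.Work.MP_c8d35c_al
end

-- merged part: Pool.Agent.Work.MP_c8d35c_al.QReal
section
/-! No arithmetic reflection group over the rational numbers in dimension 20 or at least 22. -/

namespace Pool.Agent.Work.MP_c8d35c_al

open Matrix NumberField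

theorem main_rat {n : ℕ} (hn : n = 20 ∨ 22 ≤ n) {A : Matrix (Fin (n + 1)) (Fin (n + 1)) ℚ}
    (hA : A.IsSymm) {P : GL (Fin (n + 1)) ℝ}
    (hP : P.valᵀ * A.map (Rat.castHom ℝ) * P.val = lorMat n)
    {S : Set (GL (Fin (n + 1)) ℝ)} (hS : ∀ g ∈ S, IsRefl g) :
    ¬Subgroup.Commensurable (Subgroup.closure S) (isomH n ⊓ stabL (latP P)) := by
  intro hcomm
  obtain ⟨L, ρ, h, haut, hρ⟩ := exists_LF hA hP
  have har : arith (Rat.castHom ℝ) P = isomH n ⊓ stabL (latP P) :=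
    arith_eq (Module.finrank_self ℚ) _ P
  have hΓ := closure_le_isomH hS
  have hiso := QL.meyer h.sig (by omega) le_rfl (by omega)
  have hrat : ∀ e ∈ roots (Subgroup.closure S), ∃ (v : L.W) (s : ℝ), s ≠ 0 ∧ 0 < L.β v v ∧
      e = s • ρ v := by
    intro e he
    obtain ⟨v, s, -, hs, hev⟩ := root_rat_of_comm (σ0 := Rat.castHom ℝ) (P := P) (by omega)
      (fun Γ1 h1 => comm_scalar h (by omega) (big_of_relIndex h (by rwa [haut, ← har])) hiso)
      (by rwa [har]) he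
    obtain ⟨x, c, hc, hx⟩ := hρ v
    rw [hx, smul_smul] at hev
    refine ⟨x, s * c, (mul_pos hs hc).ne', ?_, hev⟩
    have h1 := he.1
    rw [hev, lor_smul_left, lor_smul_right, h.form] at h1
    have h2 : (0 : ℝ) < L.β x x := by
      by_contra h3
      nlinarith only [h1, h3, mul_nonneg (mul_self_nonneg (s * c)) (neg_nonneg.2 (not_lt.1 h3))]
    exact_mod_cast h2
  have hind : ∀ g ∈ Subgroup.closure S, ∃ g', Ind ρ g g' := fun g hg =>
    RCox2_ind hS (p := fun g => ∃ g', Ind ρ g g') (fun e he => by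
      obtain ⟨v, s, hs, hv, rfl⟩ := hrat e he
      obtain ⟨g', h1, -⟩ := h.refl_ind hv.ne' hs
      exact ⟨g', h1⟩) ⟨_, Ind.one⟩ (fun _ _ ⟨_, h1⟩ ⟨_, h2⟩ => ⟨_, h1.mul h2⟩) hg
  obtain ⟨Y, hY, hinv⟩ := exists_inv h hind (by rw [haut]; exact hcomm.2)
  obtain ⟨c, hc, he⟩ := QL.exists_even L.β hY
  have hc' : (0 : ℚ) < c := by exact_mod_cast hc
  obtain ⟨c', hc1, X, hX, he', hred, hinv'⟩ := (L.re c hc'.ne' Y hY he).exists_red
    {g' : L.W ≃ₗ[ℚ] L.W | ∃ g ∈ Subgroup.closure S, Ind ρ g g'}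
    (by
      rintro g' ⟨g, hg, h1⟩ x y
      exact congrArg (fun t => (c : ℚ) * t) (h.isom (hΓ hg) h1 x y))
    (by
      rintro g' ⟨g, hg, h1⟩
      exact ⟨g⁻¹, inv_mem hg, h1.inv⟩)
    (by
      rintro g' ⟨g, hg, h1⟩
      exact hinv g hg g' h1)
  have h2 := (h.re hc' hY he).re hc1 hX he'
  have hB := ((big_of_relIndex h (by rw [haut]; exact hcomm.1)).re hc' hY he).re hc1 hX he'
  refine QL.lattice_main hn h2.sig hred (cusp_full h2 hS hB fun e hr => ?_)
  obtain ⟨v, s, hs, hv, hev⟩ := hrat e hr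
  obtain ⟨g', h3, h4⟩ := h.refl_ind hv.ne' hs
  obtain ⟨a, t, ha, hrt⟩ := QL.rt_of_refl
    (L := (L.re c hc'.ne' Y hY he).re c' hc1.ne' X hX he') (v := v)
    (mul_pos hc1 (mul_pos hc' hv)) fun x hx => by
      have h5 := hinv' g' ⟨_, hev ▸ hr.2, h3⟩ x hx
      have e1 : 2 * (c' * (c * L.β x v)) / (c' * (c * L.β v v)) = 2 * L.β x v / L.β v v := by
        field_simp
      have h6 := h4 x
      rw [← e1] at h6
      exact h6 ▸ h5
  have hq : (0 : ℝ) < √(c' : ℝ) * √((c : ℚ) : ℝ) :=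
    mul_pos (Real.sqrt_pos.2 (by exact_mod_cast hc1)) (Real.sqrt_pos.2 (by exact_mod_cast hc'))
  have ha' : (a : ℝ) ≠ 0 := by exact_mod_cast ha
  refine ⟨_, t, s / (√(c' : ℝ) * √((c : ℚ) : ℝ) * a), hrt, ?_⟩
  change e = _ • √(c' : ℝ) • √((c : ℚ) : ℝ) • ρ (a • v)
  rw [rho_smul, smul_smul, smul_smul, smul_smul, hev]
  congr 1
  field_simp

end Pool.Agent.Work.MP_c8d35c_al
end

-- merged part: Pool.Agent.Work.MP_c8d35c_al.QMain
section
/-! The dimensions of arithmetic hyperbolic reflection groups. -/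

namespace Pool.Agent.Work.MP_c8d35c_al

open NumberField Matrix

theorem main_iff (n : ℕ) (hn : 2 ≤ n) :
    (∃ (K : Type) (_ : Field K) (_ : NumberField K) (_ : IsTotallyReal K) (σ₀ : K →+* ℝ)
      (A : Matrix (Fin (n + 1)) (Fin (n + 1)) K) (P : GL (Fin (n + 1)) ℝ)
      (S : Set (GL (Fin (n + 1)) ℝ)), A.IsSymm ∧ P.valᵀ * A.map σ₀ * P.val = lorMat n ∧
        (∀ σ : K →+* ℝ, σ ≠ σ₀ → (A.map σ).PosDef) ∧ (∀ g ∈ S, IsRefl g) ∧
        Subgroup.Commensurable (Subgroup.closure S) (arith σ₀ P)) ↔ n ≤ 19 ∨ n = 21 := by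
  constructor
  · rintro ⟨K, _, _, _, σ₀, A, P, S, hA, hP, hpos, hS, hc⟩
    by_contra hne
    by_cases hK : Module.finrank ℚ K = 1
    · obtain ⟨A0, hA0, e⟩ := exists_rat_mat hK σ₀ hA
      rw [arith_eq hK] at hc
      exact main_rat (by omega) hA0 (by rw [e]; exact hP) hS hc
    · have := Module.finrank_pos (R := ℚ) (M := K)
      exact main (by omega) (by omega) ⟨hA, hP, hpos⟩ hS hc
  · intro h
    obtain ⟨A, P, S, hA, hP, hS, hc⟩ := exists_refl hn h
    refine ⟨ℚ, inferInstance, inferInstance, inferInstance, Rat.castHom ℝ, A, P, S, hA, hP,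
      fun σ hσ => absurd (Subsingleton.elim _ _) hσ, hS, ?_⟩
    rwa [arith_eq (Module.finrank_self ℚ)]

end Pool.Agent.Work.MP_c8d35c_al
end
end
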