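import Pool.Agent.Work.MP_c8d35c_al.GMain
import Pool.Agent.Work.MP_c8d35c_al.QBD
import Pool.Agent.Work.MP_c8d35c_al.GEx
import Pool.Agent.Work.MP_c8d35c_al.QMain

/-! The dimensions of lattices commensurable with arithmetic reflection groups. -/

namespace Pool.Agent.Work.MP_c8d35c_al

open Matrix NumberField

theorem thin21 : Thin (Cn (wall dE) ∩ Om 21) := by
  refine thin_cone (ρ := vec 21 dR) (X := reps dX) (wall_finite dE) ((Set.finite_Iio 395).image _)
    ⟨_, 0, by simp, rfl⟩ (fun z h => basis_sep z fun k _ => h k) ?_ dV_loc ?_ ?_ ?_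
  · rintro _ ⟨r, hr, rfl⟩
    exact (dX_ok r hr).pos
  · rw [lor_vec (Or.inl (by decide))]
    have : lz dR dR < 0 := by decide +kernel
    exact_mod_cast this
  · simp [vec, dR]
  · rintro _ ⟨r, hr, rfl⟩
    exact (dX_ok r hr).norm

theorem exists_lattice {n : ℕ} (h2 : 2 ≤ n) (hn : n ≤ 19 ∨ n = 21) :
    ∃ Δ : Subgroup (isomH n), IsLattice Δ ∧ IsReflGroup Δ ∧ IsArithmetic Δ := by
  obtain ⟨A, P, hA, hP, hL⟩ := exists_P n
  obtain ⟨Λ, hΛ⟩ := cone21
  have h := proj_ok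
  rw [fLL_eq, List.all_eq_true] at h
  have hpr : chkPr dE dR n = true := h n (by
    rw [List.mem_cons, List.mem_range'_1]
    omega)
  have hcomm := proj_sound dE_shp hΛ (by omega) hpr hL
  obtain ⟨ρ, hρ, hρ0, hT⟩ := proj_thin dE_shp thin21 (by omega) hpr
  have har : arith (Rat.castHom ℝ) P = isomH n ⊓ stabL (latP P) :=
    arith_eq (Module.finrank_self ℚ) _ P
  have hcof : Cofin ((arith (Rat.castHom ℝ) P).subgroupOf (isomH n)) := by
    refine cofin_of_volume (hT.volume_lt (by omega)) fun z hz => ?_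
    obtain ⟨g, hg, h1⟩ := exists_min P hρ hρ0 hz.2.1 hz.2.2
    exact ⟨⟨g, hg.1⟩, by rwa [Subgroup.mem_subgroupOf, har], om_mulVec hg.1 hz, hL ▸ h1⟩
  have hdis : DiscreteTopology ((arith (Rat.castHom ℝ) P).subgroupOf (isomH n)) :=
    discrete_of_finite (arith_finite
      ⟨hA, hP, fun σ hσ => absurd (Subsingleton.elim _ _) hσ⟩ 2)
  rw [← har] at hcomm
  set S := {g | IsRefl g ∧ g ∈ arith (Rat.castHom ℝ) P} with hS
  have hle : Subgroup.closure S ≤ arith (Rat.castHom ℝ) P :=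
    (Subgroup.closure_le _).2 fun g hg => hg.2
  have hle' : arith (Rat.castHom ℝ) P ≤ isomH n := inf_le_left
  have hd : DiscreteTopology ((Subgroup.closure S).subgroupOf (isomH n)) :=
    discrete_mono hdis (Subgroup.comap_mono hle)
  have h1 : ((Subgroup.closure S).subgroupOf (isomH n)).relIndex
      ((arith (Rat.castHom ℝ) P).subgroupOf (isomH n)) ≠ 0 := by
    rw [Subgroup.relIndex_subgroupOf hle']
    exact hcomm.1
  refine ⟨(Subgroup.closure S).subgroupOf (isomH n), ⟨hd, hcof.of_relIndex h1⟩,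
    ⟨hd, (isomH n).subtype ⁻¹' S, fun g hg => hg.1, ?_⟩,
    (arith_isArithmetic hP).of_comm ⟨h1, ?_⟩⟩
  · have e : (isomH n).subtype '' ((isomH n).subtype ⁻¹' S) = S :=
      Set.image_preimage_eq_of_subset fun g hg => ⟨⟨g, hle' hg.2⟩, rfl⟩
    conv_lhs => rw [← e, ← MonoidHom.map_closure]
    exact Subgroup.comap_map_eq_self_of_injective (isomH n).subtype_injective _
  · rw [Subgroup.relIndex_subgroupOf (hle.trans hle')]
    exact hcomm.2

theorem final_iff (n : ℕ) (hn : 2 ≤ n) :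
    (∃ (Γ Δ : Subgroup (isomH n)) (g : isomH n), IsLattice Γ ∧ IsReflGroup Δ ∧ IsArithmetic Δ ∧
      Subgroup.Commensurable (Γ.map (MulAut.conj g).toMonoidHom) Δ) ↔ n ≤ 19 ∨ n = 21 := by
  constructor
  · rintro ⟨Γ, Δ, g, hΓ, hR, hA, hc⟩
    by_cases h4 : 4 ≤ n
    · exact (main_iff n hn).1
        (simplest h4 ((Cofin.conj hΓ.2 g).of_relIndex hc.2) hR hA)
    · omega
  · intro h
    obtain ⟨Δ, h1, h2, h3⟩ := exists_lattice hn h
    refine ⟨Δ, Δ, 1, h1, h2, h3, ?_⟩
    have : (MulAut.conj (1 : isomH n)).toMonoidHom = MonoidHom.id _ := by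
      ext x
      simp
    rw [this, Subgroup.map_id]

end Pool.Agent.Work.MP_c8d35c_al
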