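import Pool.Agent.Work.MP_c8d35c_al.GTri
import Mathlib
import Pool.Agent.Work.MP_c8d35c_al.RMain

-- merged part: Pool.Agent.Work.MP_c8d35c_al.GSimple
section
/-! The orthogonal Lie algebra generates all endomorphisms of the second exterior power.

Plan. Write `D a b = der (Y a b)`. For `a ≠ b` the matrix `T a b = -(ε a * ε b) • D a b * D a b`
is diagonal; its entry at the pair `p` is `1` if exactly one of `a`, `b` occurs in `p` and `0`
otherwise (`wb_mul_symm`, or compute the entries of `D a b`: the column of `q` has at most one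
nonzero entry). For `p = (a, b)` the product of `T a c * T b c` over all `c ∉ {a, b}` is the
matrix unit `single p p 1` (here `5 ≤ m` is used; three values of `c` suffice). If the pairs
`p`, `q` share exactly one index, say `p = {a, c}`, `q = {b, c}`, then
`single p p 1 * D a b * single q q 1 = ± single p q 1`. Disjoint pairs are joined through a third
pair. Finish with `Matrix.matrix_eq_sum_single`. -/

namespace Pool.Agent.Work.MP_c8d35c_al

open Matrix

theorem GSimple_diag {m : ℕ} (g h : Fin m → ℝ) :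
    wb (diagonal g) (diagonal h) = diagonal fun p : Pr m => g p.1.1 * h p.1.2 := by
  ext ⟨⟨i, j⟩, hij⟩ ⟨⟨k, l⟩, hkl⟩
  simp only [wb_apply, diagonal_apply, Subtype.mk.injEq, Prod.mk.injEq] at hij hkl ⊢
  split_ifs <;> first | omega | simp

theorem GSimple_sq {m : ℕ} {a b : Fin m} (hab : a ≠ b) (s t : ℝ) :
    der (Matrix.single a b s - Matrix.single b a t) * der (Matrix.single a b s - Matrix.single b a t)
      = diagonal fun p : Pr m => -(s * t) * ((if p.1.1 = a ∨ p.1.1 = b then 1 else 0) -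
        (if p.1.2 = a ∨ p.1.2 = b then 1 else 0)) ^ 2 := by
  have h1 : (Matrix.single a b s - Matrix.single b a t) * (Matrix.single a b s - Matrix.single b a t)
      = diagonal fun x => if x = a ∨ x = b then -(s * t) else 0 := by
    rw [sub_mul, mul_sub, mul_sub, single_mul_single_same, single_mul_single_same,
      single_mul_single_of_ne _ _ _ _ hab.symm, single_mul_single_of_ne _ _ _ _ hab]
    ext i j
    simp only [Matrix.sub_apply, Matrix.zero_apply, single_apply, diagonal_apply]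
    split_ifs <;> first | omega | ring
  have h2 : wb (Matrix.single a b s - Matrix.single b a t) (Matrix.single a b s - Matrix.single b a t)
      = diagonal fun p : Pr m =>
        if (p.1.1 = a ∨ p.1.1 = b) ∧ (p.1.2 = a ∨ p.1.2 = b) then s * t else 0 := by
    ext ⟨⟨i, j⟩, hij⟩ ⟨⟨k, l⟩, hkl⟩
    simp only [wb_apply, Matrix.sub_apply, single_apply, diagonal_apply, Subtype.mk.injEq,
      Prod.mk.injEq] at hij hkl ⊢
    have hba := hab.symm
    by_cases ia : a = i
    · subst ia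
      by_cases jb : b = j
      · subst jb
        simp only [hab, hba, true_and, false_and, if_false, true_or, or_true, if_true]
        split_ifs <;> first | omega | ring
      · have ja : a ≠ j := hij.ne
        simp [jb, ja, Ne.symm jb, Ne.symm ja]
    · by_cases ib : b = i
      · subst ib
        by_cases ja : a = j
        · subst ja
          simp only [hab, hba, true_and, false_and, if_false, true_or, or_true, if_true]
          split_ifs <;> first | omega | ring
        · have jb : b ≠ j := hij.ne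
          simp [jb, ja, Ne.symm jb, Ne.symm ja]
      · simp [ia, ib, Ne.symm ia, Ne.symm ib]
  rw [der, add_mul, wb_mul_symm, wb_mul_symm, h1]
  simp only [mul_one, one_mul, h2]
  rw [← diagonal_one, GSimple_diag, GSimple_diag, diagonal_add, diagonal_add, diagonal_add]
  congr 1
  funext p
  by_cases h3 : p.1.1 = a ∨ p.1.1 = b <;> by_cases h4 : p.1.2 = a ∨ p.1.2 = b <;> simp [h3, h4]

theorem GSimple_new {m : ℕ} (hm : 5 ≤ m) (a b c d : Fin m) :
    ∃ e, e ≠ a ∧ e ≠ b ∧ e ≠ c ∧ e ≠ d := by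
  obtain ⟨e, -, he⟩ := Finset.exists_mem_notMem_of_card_lt_card (s := {a, b, c, d})
    (t := Finset.univ) (Finset.card_le_four.trans_lt (by rw [Finset.card_fin]; omega))
  exact ⟨e, by simpa using he⟩

theorem alg_top {m : ℕ} (hm : 5 ≤ m) (ε : Fin m → ℝ) (hε : ∀ a, ε a * ε a = 1)
    (𝒜 : Subalgebra ℝ (Matrix (Pr m) (Pr m) ℝ))
    (h : ∀ a b, der (Matrix.single a b (ε b) - Matrix.single b a (ε a)) ∈ 𝒜) : 𝒜 = ⊤ := by
  have e0 : ∀ a, ε a ≠ 0 := fun a h0 => by simpa [h0] using hε a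
  have h1 : ∀ p q : Pr m, ∃ f, q ≠ p → f ∈ 𝒜.comap (diagonalAlgHom ℝ) ∧ f p = 1 ∧ f q = 0 := by
    rintro ⟨⟨i, j⟩, hij⟩ ⟨⟨k, l⟩, hkl⟩
    obtain ⟨c, c1, c2, c3, c4⟩ := GSimple_new hm i j k l
    obtain ⟨a, ha⟩ : ∃ a, (k, l) ≠ (i, j) → (a = i ∨ a = j) ∧ a ≠ k ∧ a ≠ l := by
      simp only [ne_eq, Prod.mk.injEq] at *
      by_cases h2 : i = k ∨ i = l
      · exact ⟨j, fun _ => by omega⟩
      · exact ⟨i, fun _ => by omega⟩
    refine ⟨fun p => ((if p.1.1 = a ∨ p.1.1 = c then 1 else 0) -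
      (if p.1.2 = a ∨ p.1.2 = c then 1 else 0)) ^ 2, fun hq => ?_⟩
    obtain ⟨a1, a2, a3⟩ := ha fun e => hq (Subtype.ext e)
    have h2 := 𝒜.smul_mem (mul_mem (h a c) (h a c)) (-(ε c * ε a))⁻¹
    simp only [GSimple_sq (show a ≠ c by omega), ← diagonal_smul, Pi.smul_def, smul_eq_mul,
      inv_mul_cancel_left₀ (neg_ne_zero.2 (mul_ne_zero (e0 c) (e0 a)))] at h2
    refine ⟨h2, ?_, ?_⟩
    · simp only at hij ⊢
      split_ifs <;> first | omega | norm_num
    · simp [a2.symm, a3.symm, c3.symm, c4.symm]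
  choose f hf using h1
  have h2 : ∀ p : Pr m, Matrix.single p p (1 : ℝ) ∈ 𝒜 := fun p => by
    have h3 := prod_mem fun q (hq : q ∈ Finset.univ.erase p) => (hf p q (Finset.ne_of_mem_erase hq)).1
    have h4 : ∏ q ∈ Finset.univ.erase p, f p q = Pi.single p 1 := by
      funext q
      rw [Finset.prod_apply]
      by_cases hq : q = p
      · rw [hq, Pi.single_eq_same]
        exact Finset.prod_eq_one fun q hq => (hf p q (Finset.ne_of_mem_erase hq)).2.1
      · rw [Pi.single_eq_of_ne hq]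
        exact Finset.prod_eq_zero (by simpa using hq) (hf p q hq).2.2
    rw [h4] at h3
    exact diagonal_single p (1 : ℝ) ▸ h3
  have h3 : ∀ (a b c : Fin m) (p q : Pr m), p.1 = (a, c) ∨ p.1 = (c, a) →
      q.1 = (b, c) ∨ q.1 = (c, b) → Matrix.single p q (1 : ℝ) ∈ 𝒜 := by
    intro a b c p q hp hq
    have p1 := p.2
    have q1 := q.2
    by_cases hab : a = b
    · have : p = q := Subtype.ext (by grind)
      exact this ▸ h2 p
    have h4 := mul_mem (mul_mem (h2 p) (h a b)) (h2 q)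
    rw [single_mul_mul_single, one_mul, mul_one] at h4
    have h5 : der (Matrix.single a b (ε b) - Matrix.single b a (ε a)) p q ≠ 0 := by
      have ac : a ≠ c := by grind
      have bc : b ≠ c := by grind
      rcases hp with hp | hp <;> rcases hq with hq | hq <;>
        simp [der, wb_apply, one_apply, hp, hq, hab, ac, bc, Ne.symm hab, bc.symm, e0]
    generalize der (R := ℝ) _ p q = t at h4 h5
    simpa [inv_mul_cancel₀ h5] using 𝒜.smul_mem h4 t⁻¹
  have h4 : ∀ a e : Fin m, a ≠ e → ∃ p : Pr m, p.1 = (a, e) ∨ p.1 = (e, a) := fun a e hae =>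
    hae.lt_or_gt.elim (fun h => ⟨⟨(a, e), h⟩, Or.inl rfl⟩) fun h => ⟨⟨(e, a), h⟩, Or.inr rfl⟩
  refine eq_top_iff.2 fun M _ => ?_
  rw [matrix_eq_sum_single M]
  refine sum_mem fun p _ => sum_mem fun q _ => ?_
  obtain ⟨e, c1, -, c3, -⟩ := GSimple_new hm p.1.1 p.1.2 q.1.1 q.1.2
  obtain ⟨p', hp⟩ := h4 _ _ c1.symm
  obtain ⟨q', hq⟩ := h4 _ _ c3.symm
  simpa using 𝒜.smul_mem (mul_mem (mul_mem (h3 _ _ _ p p' (Or.inr rfl) hp.symm)
    (h3 _ _ _ p' q' hp hq)) (h3 _ _ _ q' q hq.symm (Or.inr rfl))) (M p q)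

end Pool.Agent.Work.MP_c8d35c_al
end

-- merged part: Pool.Agent.Work.MP_c8d35c_al.GDens
section
/-! A form of the density theorem.

Plan. Let `A = prj ξ η`, `B = prj η ξ`, `Q = 1 - A - B`; `boost ξ η l = l A + Q + l⁻¹ B`,
`wb A A = 0 = wb B B` (`wb_vecMulVec`). `plus_mem`: `l⁻¹ • wd (boost ξ η l)` tends to
`wb A Q + wb Q A` as `l → ∞`; `wd (γ k) = wd (u k) * wd (boost) * wd (u' k)`, `continuous_wd`;
a subspace of a finite-dimensional space is closed (`Submodule.closed_of_finiteDimensional`).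
`der_mem`: subtract the same statement for ` (η, ξ)` and expand `1 = A + B + Q` in `der`.
`der_mem_all`: the map ` (x, y) ↦ der (prj x y - prj y x)` is bilinear and vanishes for `x = y`;
the vectors `e0 + eᵢ`, `e0 - e₁` span, are isotropic, and any two different ones have a nonzero
product (rescale one of them to get `Iso2`). `span_wd_top`: the span is a subalgebra
(`Submodule.toSubalgebra`, `wd_mul`, `wd_one`); use `alg_top` with `ε = lorMat n a a` and
`x = -Pi.single a 1`, `y = Pi.single b 1`. -/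

namespace Pool.Agent.Work.MP_c8d35c_al

open Matrix

variable {n : ℕ} {ξ η : Fin (n + 1) → ℝ} {Γ : Subgroup (GL (Fin (n + 1)) ℝ)}

/-- The span of the second exterior powers of the elements of `Γ`. -/
noncomputable def spW (Γ : Subgroup (GL (Fin (n + 1)) ℝ)) :
    Submodule ℝ (Matrix (Pr (n + 1)) (Pr (n + 1)) ℝ) :=
  Submodule.span ℝ ((fun γ : GL (Fin (n + 1)) ℝ => wd γ.val) '' Γ)

theorem GDens_exp {m : ℕ} {A B : Matrix (Fin m) (Fin m) ℝ} (hA : wb A A = 0) (hB : wb B B = 0)
    {l : ℝ} (hl : l ≠ 0) : l⁻¹ • wd (1 + (l - 1) • A + (l⁻¹ - 1) • B) =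
      wb A (1 - A - B) + wb (1 - A - B) A + l⁻¹ • (wb A B + wb B A + wb (1 - A - B) (1 - A - B)) +
        (l⁻¹ * l⁻¹) • (wb (1 - A - B) B + wb B (1 - A - B)) := by
  have e : 1 + (l - 1) • A + (l⁻¹ - 1) • B = l • A + (1 - A - B) + l⁻¹ • B := by module
  rw [e]
  generalize 1 - A - B = Q
  simp only [wd, wb_add_left, wb_add_right, wb_smul_left, wb_smul_right, hA, hB]
  match_scalars <;> field_simp

theorem GDens_der {m : ℕ} {A B : Matrix (Fin m) (Fin m) ℝ} (hA : wb A A = 0) (hB : wb B B = 0) :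
    der (A - B) = wb A (1 - A - B) + wb (1 - A - B) A - (wb B (1 - B - A) + wb (1 - B - A) B) := by
  simp only [der, wb_sub_left, wb_sub_right, hA, hB]
  abel

theorem GDens_prj (x y : Fin (n + 1) → ℝ) : wb (prj x y) (prj x y) = 0 := wb_vecMulVec _ _ _

theorem plus_mem (h : Mix Γ) (hξ : Iso2 ξ η) :
    wb (prj ξ η) (1 - prj ξ η - prj η ξ) + wb (1 - prj ξ η - prj η ξ) (prj ξ η) ∈ spW Γ := by
  obtain ⟨γ, l, u, u', h1, h2, h3, h4, h5⟩ := h ξ η hξ
  have t0 := h2.inv_tendsto_atTop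
  have t1 := (((continuous_wd.tendsto _).comp h3).mul (((tendsto_const_nhds
    (x := wb (prj ξ η) (1 - prj ξ η - prj η ξ) + wb (1 - prj ξ η - prj η ξ) (prj ξ η))).add
    (t0.smul_const (wb (prj ξ η) (prj η ξ) + wb (prj η ξ) (prj ξ η) +
      wb (1 - prj ξ η - prj η ξ) (1 - prj ξ η - prj η ξ)))).add
    ((t0.mul t0).smul_const (wb (1 - prj ξ η - prj η ξ) (prj η ξ) +
      wb (prj η ξ) (1 - prj ξ η - prj η ξ))))).mul ((continuous_wd.tendsto _).comp h4)
  simp only [wd_one, zero_smul, mul_zero, add_zero, one_mul, mul_one] at t1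
  refine (spW Γ).closed_of_finiteDimensional.mem_of_tendsto t1 ?_
  filter_upwards [h2.eventually_gt_atTop 0] with k hk
  have h6 : (l k)⁻¹ • wd (γ k).val ∈ spW Γ :=
    Submodule.smul_mem _ _ (Submodule.subset_span ⟨γ k, h1 k, rfl⟩)
  rw [h5, wd_mul, wd_mul, ← smul_mul_assoc, ← mul_smul_comm, boost,
    GDens_exp (GDens_prj _ _) (GDens_prj _ _) hk.ne'] at h6
  exact h6

theorem der_mem (h : Mix Γ) (hξ : Iso2 ξ η) : der (prj ξ η - prj η ξ) ∈ spW Γ := by
  rw [GDens_der (GDens_prj _ _) (GDens_prj _ _)]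
  exact sub_mem (plus_mem h hξ) (plus_mem h hξ.symm)

/-- The bilinear map ` (x, y) ↦ der (prj x y - prj y x)`. -/
noncomputable def GDens_bil (n : ℕ) : (Fin (n + 1) → ℝ) →ₗ[ℝ] (Fin (n + 1) → ℝ) →ₗ[ℝ]
    Matrix (Pr (n + 1)) (Pr (n + 1)) ℝ :=
  LinearMap.mk₂ ℝ (fun x y => der (prj x y - prj y x))
    (fun x x' y => by
      ext p q
      simp only [der, prj, wb_apply, mulVec_add, Matrix.add_apply, Matrix.sub_apply,
        vecMulVec_apply, Pi.neg_apply, Pi.add_apply]
      ring)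
    (fun c x y => by
      ext p q
      simp only [der, prj, wb_apply, mulVec_smul, Matrix.add_apply, Matrix.sub_apply,
        Matrix.smul_apply, vecMulVec_apply, Pi.neg_apply, Pi.smul_apply, smul_eq_mul]
      ring)
    (fun x y y' => by
      ext p q
      simp only [der, prj, wb_apply, mulVec_add, Matrix.add_apply, Matrix.sub_apply,
        vecMulVec_apply, Pi.neg_apply, Pi.add_apply]
      ring)
    (fun c x y => by
      ext p q
      simp only [der, prj, wb_apply, mulVec_smul, Matrix.add_apply, Matrix.sub_apply,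
        Matrix.smul_apply, vecMulVec_apply, Pi.neg_apply, Pi.smul_apply, smul_eq_mul]
      ring)

theorem GDens_span (hn : 1 ≤ n) :
    Submodule.span ℝ {x : Fin (n + 1) → ℝ | lor x x = 0 ∧ x 0 = 1} = ⊤ := by
  have key : ∀ (i : Fin n) (c : ℝ), c * c = 1 → e0 n + c • Pi.single i.succ 1 ∈
      Submodule.span ℝ {x : Fin (n + 1) → ℝ | lor x x = 0 ∧ x 0 = 1} := by
    intro i c hc
    refine Submodule.subset_span ⟨?_, by simp [e0]⟩
    rw [lor_add_right, lor_smul_right, lor_e0, lor_single_succ]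
    simp [e0, hc]
  rw [eq_top_iff, ← (Pi.basisFun ℝ (Fin (n + 1))).span_eq, Submodule.span_le]
  rintro _ ⟨i, rfl⟩
  rw [Pi.basisFun_apply]
  refine Fin.cases ?_ (fun i => ?_) i
  · have := Submodule.smul_mem _ (2⁻¹ : ℝ) (Submodule.add_mem _ (key ⟨0, hn⟩ 1 (by norm_num))
      (key ⟨0, hn⟩ (-1) (by norm_num)))
    refine (congrArg (· ∈ _) ?_).mp this
    change _ = e0 n
    module
  · have := Submodule.smul_mem _ (2⁻¹ : ℝ) (Submodule.sub_mem _ (key i 1 (by norm_num))
      (key i (-1) (by norm_num)))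
    refine (congrArg (· ∈ _) ?_).mp this
    module

theorem GDens_pair (h : Mix Γ) {x y : Fin (n + 1) → ℝ} (hx : lor x x = 0 ∧ x 0 = 1)
    (hy : lor y y = 0 ∧ y 0 = 1) : GDens_bil n x y ∈ spW Γ := by
  by_cases e : x = y
  · subst e
    have : GDens_bil n x x = 0 := by
      change der (prj x x - prj x x) = 0
      ext p q
      simp [der, wb_apply]
    rw [this]
    exact zero_mem _
  have h1 := lor_pos_of_orth e0_mem (sub_ne_zero.2 e) (by simp [lor_e0, hx.2, hy.2])
  have h2 : lor x y ≠ 0 := fun h0 => by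
    rw [lor_sub_left, lor_sub_right, lor_sub_right, lor_comm y x, hx.1, hy.1, h0] at h1
    simp at h1
  have h3 : GDens_bil n x ((-(lor x y)⁻¹) • y) ∈ spW Γ := der_mem h
    ⟨hx.1, by rw [lor_smul_left, lor_smul_right, hy.1, mul_zero, mul_zero], by
      rw [lor_smul_right, neg_mul, inv_mul_cancel₀ h2]⟩
  rw [map_smul] at h3
  exact (Submodule.smul_mem_iff _ (neg_ne_zero.2 (inv_ne_zero h2))).1 h3

theorem GDens_single (a b : Fin (n + 1)) :
    vecMulVec (Pi.single a 1) (lorMat n *ᵥ Pi.single b 1) = Matrix.single a b (lorMat n b b) := by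
  ext i j
  rw [vecMulVec_apply, lorMat, mulVec_diagonal, diagonal_apply_eq, Matrix.single_apply,
    Pi.single_apply, Pi.single_apply]
  by_cases h1 : i = a
  · by_cases h2 : j = b
    · simp [h1, h2]
    · simp [h2, Ne.symm h2]
  · simp [h1, Ne.symm h1]

theorem der_mem_all (hn : 1 ≤ n) (h : Mix Γ) (x y : Fin (n + 1) → ℝ) :
    der (prj x y - prj y x) ∈ spW Γ := by
  change GDens_bil n x y ∈ spW Γ
  have h1 : ∀ y : Fin (n + 1) → ℝ, lor y y = 0 ∧ y 0 = 1 → GDens_bil n x y ∈ spW Γ := by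
    intro y hy
    have : Submodule.span ℝ {x : Fin (n + 1) → ℝ | lor x x = 0 ∧ x 0 = 1} ≤
        (spW Γ).comap ((GDens_bil n).flip y) :=
      Submodule.span_le.2 fun z hz => by
        rw [SetLike.mem_coe, Submodule.mem_comap, LinearMap.flip_apply]
        exact GDens_pair h hz hy
    rw [GDens_span hn] at this
    have h2 := this (Submodule.mem_top (x := x))
    rwa [Submodule.mem_comap, LinearMap.flip_apply] at h2
  have : Submodule.span ℝ {x : Fin (n + 1) → ℝ | lor x x = 0 ∧ x 0 = 1} ≤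
      (spW Γ).comap (GDens_bil n x) := Submodule.span_le.2 h1
  rw [GDens_span hn] at this
  exact this Submodule.mem_top

theorem span_wd_top (hn : 4 ≤ n) (h : Mix Γ) : spW Γ = ⊤ := by
  have h1 : (1 : Matrix (Pr (n + 1)) (Pr (n + 1)) ℝ) ∈ spW Γ :=
    Submodule.subset_span ⟨1, Γ.one_mem, wd_one⟩
  have h2 : ∀ x y, x ∈ spW Γ → y ∈ spW Γ → x * y ∈ spW Γ := by
    intro x y hx hy
    have := Submodule.mul_mem_mul hx hy
    rw [spW, Submodule.span_mul_span] at this
    refine Submodule.span_mono ?_ this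
    rintro _ ⟨_, ⟨a, ha, rfl⟩, _, ⟨b, hb, rfl⟩, rfl⟩
    exact ⟨a * b, Γ.mul_mem ha hb, wd_mul _ _⟩
  have h3 := alg_top (m := n + 1) (by omega) (fun a => lorMat n a a) (fun a => by
    simp only [lorMat, diagonal_apply_eq]
    split_ifs <;> norm_num) ((spW Γ).toSubalgebra h1 h2) fun a b => by
      have := der_mem_all (by omega) h (-Pi.single a 1) (Pi.single b 1)
      rw [prj, prj, neg_neg, mulVec_neg, neg_vecMulVec, vecMulVec_neg, neg_neg, GDens_single,
        GDens_single] at this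
      exact this
  rw [eq_top_iff]
  intro x _
  have : x ∈ (spW Γ).toSubalgebra h1 h2 := by
    rw [h3]
    trivial
  exact this

end Pool.Agent.Work.MP_c8d35c_al
end

-- merged part: Pool.Agent.Work.MP_c8d35c_al.GMain
section
-- merged part: Pool.Agent.Work.MP_c8d35c_al.GAut
section
/-! Descent from the complex to the rational numbers.

Plan. `rat_of_fixed`: if `x` is transcendental, extend `{x}` to a transcendence basis `v` of `ℂ`
over `ℚ` (`exists_isTranscendenceBasis_superset`); the automorphism `X b ↦ -X b` of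
`MvPolynomial _ ℚ ≃ Algebra.adjoin ℚ (range v)` (`AlgebraicIndependent.aevalEquiv`) extends to
`ℂ` (`IsAlgClosed.isAlgClosure_of_transcendence_basis`, `IsAlgClosure.equivOfEquiv`,
`IsAlgClosure.equivOfEquiv_algebraMap`), so `x = -x`. If `x` is algebraic and irrational, its
minimal polynomial has another root `y` in `ℂ`. Let `F` be the field of fractions of
`R = Algebra.adjoin ℚ (range v)` inside `ℂ`; `ℂ / F` is Galois, so `x ∈ F`
(`InfiniteGalois.mem_bot_iff_fixed`); `R` is a polynomial ring, hence integrally closed, so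
`x ∈ R`, and an algebraic polynomial is constant. (Or: give `ℂ` two algebra structures over
`ℚ(x)` and compare transcendence bases of equal cardinality.)
`descent`: a nonzero vector of `W` with minimal support and one coordinate equal to `1` is fixed
by every `s` (`s w - w` has smaller support), so it is rational. Induction on the size of the
support of `v`: subtract a multiple of such a vector whose support lies in the support of `v`. -/

namespace Pool.Agent.Work.MP_c8d35c_al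

open Cardinal in
theorem GAut_ext {R K L : Type} [CommRing R] [Nontrivial R] [Field K] [Field L] [Algebra R K]
    [Algebra R L] [FaithfulSMul R K] [FaithfulSMul R L] [IsAlgClosed K] [IsAlgClosed L]
    (hR : #R ≤ ℵ₀) (hK : ℵ₀ < #K) (hKL : #K = #L) :
    ∃ s : K ≃+* L, ∀ r, s (algebraMap R K r) = algebraMap R L r := by
  obtain ⟨v, hv⟩ := exists_isTranscendenceBasis R K
  obtain ⟨w, hw⟩ := exists_isTranscendenceBasis R L
  have h1 := IsAlgClosed.cardinal_eq_cardinal_transcendence_basis_of_aleph0_lt' _ hv hR hK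
  have h2 := IsAlgClosed.cardinal_eq_cardinal_transcendence_basis_of_aleph0_lt' _ hw hR (hKL ▸ hK)
  obtain ⟨e⟩ := Cardinal.eq.1 (h1.symm.trans (hKL.trans h2))
  have := IsAlgClosed.isAlgClosure_of_transcendence_basis _ hv
  have := IsAlgClosed.isAlgClosure_of_transcendence_basis _ hw
  let e' := (hv.1.aevalEquiv.symm.trans (MvPolynomial.renameEquiv R e)).trans hw.1.aevalEquiv
  refine ⟨IsAlgClosure.equivOfEquiv K L e'.toRingEquiv, fun r => ?_⟩
  have h3 := IsAlgClosure.equivOfEquiv_algebraMap K L e'.toRingEquiv (algebraMap R _ r)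
  rw [← IsScalarTower.algebraMap_apply] at h3
  rw [h3]
  exact (congrArg (algebraMap _ L) (e'.commutes r)).trans (IsScalarTower.algebraMap_apply R _ L r).symm

open Cardinal in
theorem GAut_ext2 {R : Type} [CommRing R] [Nontrivial R] (hR : #R ≤ ℵ₀) (f g : R →+* ℂ)
    (hf : Function.Injective f) (hg : Function.Injective g) :
    ∃ s : ℂ ≃+* ℂ, ∀ r, s (f r) = g r :=
  @GAut_ext R ℂ ℂ _ _ _ _ f.toAlgebra g.toAlgebra
    ((@faithfulSMul_iff_algebraMap_injective R ℂ _ _ f.toAlgebra).2 hf)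
    ((@faithfulSMul_iff_algebraMap_injective R ℂ _ _ g.toAlgebra).2 hg) _ _ hR
    (by rw [Cardinal.mk_complex]; exact Cardinal.aleph0_lt_continuum) rfl

theorem rat_of_fixed {x : ℂ} (h : ∀ s : ℂ ≃+* ℂ, s x = x) : ∃ q : ℚ, x = q := by
  have hP : Cardinal.mk (Polynomial ℚ) ≤ Cardinal.aleph0 :=
    Polynomial.cardinalMk_le_max.trans (by simp)
  by_cases hx : IsAlgebraic ℚ x
  · have hi := hx.isIntegral
    have : Fact (Irreducible (minpoly ℚ x)) := ⟨minpoly.irreducible hi⟩
    have h1 : ∀ y ∈ (minpoly ℚ x).rootSet ℂ, y = x := fun y hy => by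
      obtain ⟨s, hs⟩ := GAut_ext2 (R := AdjoinRoot (minpoly ℚ x))
        ((Cardinal.mk_le_of_surjective AdjoinRoot.mk_surjective).trans hP)
        (AdjoinRoot.lift (algebraMap ℚ ℂ) x (minpoly.aeval ℚ x))
        (AdjoinRoot.lift (algebraMap ℚ ℂ) y (Polynomial.aeval_eq_zero_of_mem_rootSet hy))
        (RingHom.injective _) (RingHom.injective _)
      have h2 := hs (AdjoinRoot.root _)
      rw [AdjoinRoot.lift_root, AdjoinRoot.lift_root, h] at h2
      exact h2.symm
    have h2 := Polynomial.card_rootSet_eq_natDegree (K := ℂ) (minpoly.irreducible hi).separable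
      (IsAlgClosed.splits _)
    have h3 : (minpoly ℚ x).natDegree ≤ 1 := h2 ▸ Fintype.card_le_one_iff.2 fun a b =>
      Subtype.ext ((h1 a a.2).trans (h1 b b.2).symm)
    obtain ⟨q, hq⟩ := minpoly.natDegree_eq_one_iff.1 (le_antisymm h3 (minpoly.natDegree_pos hi))
    exact ⟨q, hq.symm⟩
  · have hx' : Transcendental ℚ (x + 1) := fun h1 =>
      hx (by simpa using h1.sub isAlgebraic_one)
    obtain ⟨s, hs⟩ := GAut_ext2 hP (Polynomial.aeval x : Polynomial ℚ →ₐ[ℚ] ℂ)
      (Polynomial.aeval (x + 1) : Polynomial ℚ →ₐ[ℚ] ℂ) (transcendental_iff_injective.1 hx)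
      (transcendental_iff_injective.1 hx')
    have h2 := hs Polynomial.X
    simp [h] at h2

theorem descent {ι : Type} [Fintype ι] (W : Submodule ℂ (ι → ℂ))
    (hW : ∀ s : ℂ ≃+* ℂ, ∀ v ∈ W, (fun i => s (v i)) ∈ W) {v : ι → ℂ} (hv : v ∈ W) :
    v ∈ Submodule.span ℂ {w | w ∈ W ∧ ∀ i, ∃ q : ℚ, w i = q} := by
  classical
  let sp : (ι → ℂ) → Finset ι := fun u => Finset.univ.filter fun i => u i ≠ 0
  have hsp : ∀ u i, i ∈ sp u ↔ u i ≠ 0 := fun u i => by simp [sp]
  induction hn : (sp v).card using Nat.strong_induction_on generalizing v with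
  | _ n ih =>
    by_cases h0 : v = 0
    · rw [h0]
      exact zero_mem _
    obtain ⟨u, ⟨hu, hu0, huv⟩, hmin⟩ := exists_minimalFor_of_wellFoundedLT
      (fun u => u ∈ W ∧ u ≠ 0 ∧ sp u ⊆ sp v) (fun u => (sp u).card) ⟨v, hv, h0, subset_rfl⟩
    obtain ⟨i₀, hi⟩ := Function.ne_iff.1 hu0
    have hi : u i₀ ≠ 0 := hi
    have hw : (u i₀)⁻¹ • u ∈ W := W.smul_mem _ hu
    have hlt : ∀ a b : ι → ℂ, b i₀ ≠ 0 → a i₀ = 0 → (∀ i, b i = 0 → a i = 0) →
        sp a ⊆ sp b ∧ (sp a).card < (sp b).card := fun a b h1 h2 h3 => by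
      have h4 : sp a ⊆ sp b := fun i hi => (hsp _ _).2 fun h5 => (hsp _ _).1 hi (h3 i h5)
      exact ⟨h4, Finset.card_lt_card ((Finset.ssubset_iff_of_subset h4).2
        ⟨i₀, (hsp _ _).2 h1, fun h5 => (hsp _ _).1 h5 h2⟩)⟩
    have hr : ∀ i, ∃ q : ℚ, ((u i₀)⁻¹ • u) i = q := fun i => rat_of_fixed fun s => by
      by_contra hne
      obtain ⟨h1, h2⟩ := hlt ((fun i => s (((u i₀)⁻¹ • u) i)) - (u i₀)⁻¹ • u) u hi
        (by simp [hi]) (fun j hj => by simp [hj])
      exact (hmin ⟨sub_mem (hW s _ hw) hw, fun h3 => hne (sub_eq_zero.1 (congrFun h3 i)),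
        h1.trans huv⟩ h2.le).not_gt h2
    obtain ⟨-, h2⟩ := hlt (v - v i₀ • (u i₀)⁻¹ • u) v ((hsp _ _).1 (huv ((hsp _ _).2 hi)))
      (by simp [hi]) fun j hj => by
        have h3 : u j = 0 := by
          by_contra h4
          exact (hsp _ _).1 (huv ((hsp _ _).2 h4)) hj
        simp [hj, h3]
    have h3 := ih _ (hn ▸ h2) (sub_mem hv (W.smul_mem _ hw)) rfl
    have h4 := add_mem h3 (Submodule.smul_mem _ (v i₀) (Submodule.subset_span ⟨hw, hr⟩))
    rwa [sub_add_cancel] at h4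

end Pool.Agent.Work.MP_c8d35c_al
end

-- merged part: Pool.Agent.Work.MP_c8d35c_al.GAlg
section
/-! The Lie algebra of a group defined over the rational numbers is spanned by rational
matrices.

Plan. Let `J` be the set of complex polynomials that vanish on `Hc`, and for a complex matrix `X`
let `D X p = ∑ i j, pderiv (i, j) p * ∑ k, X (i, k) * C (X k j)`, so that the derivative of
`p (g * exp (t X))` is ` (D X p) (g * exp (t X))` (induction on `p`; `galg_deriv`). Let `W` be the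
complex subspace of the `X` (as vectors `Fin N × Fin N → ℂ`) with `D X p ∈ J` for all `p ∈ J`.
(1) If `X` is real and `exp (t X) ∈ Hc` for all real `t` then `X ∈ W` (derivative at `0`).
(2) If `X ∈ W` and `p ∈ J` then the entire function `z ↦ p (exp (z X))` has all derivatives at `0`
equal to zero, so it vanishes (`Complex.taylorSeries_eq_of_entire`). (3) `W` is stable under
every `s : ℂ ≃+* ℂ`: `Hc` and `J` are stable (`MvPolynomial.map`). By `descent`
`X = ∑ cᵢ Rᵢ` with rational `Rᵢ ∈ W`; take real parts. The exponential commutes with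
`Matrix.map ofReal` (`NormedSpace.map_exp` for the continuous ring homomorphism
`RingHom.mapMatrix`). -/

namespace Pool.Agent.Work.MP_c8d35c_al

open Matrix NormedSpace

variable {N : ℕ} {I : Set (MvPolynomial (Fin N × Fin N) ℚ)} {Hc : Subgroup (GL (Fin N) ℂ)}

/-- The real matrix `M` satisfies the equations `I`. -/
def Zr (I : Set (MvPolynomial (Fin N × Fin N) ℚ)) (M : Matrix (Fin N) (Fin N) ℝ) : Prop :=
  ∀ p ∈ I, MvPolynomial.aeval (fun ij : Fin N × Fin N => M ij.1 ij.2) p = 0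

theorem isClosed_zr (I : Set (MvPolynomial (Fin N × Fin N) ℚ)) : IsClosed {M | Zr I M} := by
  have e : {M | Zr I M} = ⋂ p ∈ I, {M : Matrix (Fin N) (Fin N) ℝ | MvPolynomial.eval
      (fun ij : Fin N × Fin N => M ij.1 ij.2) (MvPolynomial.map (algebraMap ℚ ℝ) p) = 0} := by
    ext M
    simp only [Zr, Set.mem_ofPred_eq, Set.mem_iInter, MvPolynomial.aeval_def,
      MvPolynomial.eval₂_eq_eval_map]
  rw [e]
  exact isClosed_biInter fun p _ => isClosed_eq ((MvPolynomial.continuous_eval _).comp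
    (continuous_pi fun ij => continuous_id.matrix_elem ij.1 ij.2)) continuous_const

theorem mem_real_iff
    (h : ∀ g, g ∈ Hc ↔ ∀ p ∈ I, MvPolynomial.aeval (fun ij => g.val ij.1 ij.2) p = 0)
    (g : GL (Fin N) ℝ) :
    g ∈ Hc.comap (GeneralLinearGroup.map (algebraMap ℝ ℂ)) ↔ Zr I g.val := by
  rw [Subgroup.mem_comap, h]
  refine forall₂_congr fun p _ => ?_
  rw [← map_eq_zero (algebraMap ℝ ℂ), ← MvPolynomial.aeval_algebraMap_apply]
  rfl

open MvPolynomial in
theorem galg_chain {σ : Type} [Fintype σ] {M : ℂ → σ → ℂ} {M' : σ → ℂ} {z : ℂ}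
    (h : ∀ i, HasDerivAt (fun w => M w i) (M' i) z) (p : MvPolynomial σ ℂ) :
    HasDerivAt (fun w => eval (M w) p) (∑ i, eval (M z) (pderiv i p) * M' i) z := by
  classical
  induction p using MvPolynomial.induction_on with
  | C a => simpa using hasDerivAt_const z a
  | add p q hp hq =>
    simp only [map_add, add_mul, Finset.sum_add_distrib]
    exact hp.add hq
  | mul_X p j hp =>
    simp only [map_mul, eval_X]
    refine (hp.mul (h j)).congr_deriv ?_
    simp only [pderiv_mul, map_add, map_mul, eval_X, add_mul, Finset.sum_add_distrib,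
      Finset.sum_mul, pderiv_X]
    congr 1
    · exact Finset.sum_congr rfl fun i _ => by ring
    · rw [Finset.sum_eq_single j (fun i _ hi => by simp [Pi.single_eq_of_ne hi.symm]) (by simp)]
      simp

/-- Evaluation of a polynomial at a complex matrix. -/
noncomputable def galg_ev (M : Matrix (Fin N) (Fin N) ℂ) : MvPolynomial (Fin N × Fin N) ℂ →+* ℂ :=
  MvPolynomial.eval fun ij => M ij.1 ij.2

/-- The derivative along the left invariant vector field of `Y`. -/
noncomputable def galg_D (Y : Matrix (Fin N) (Fin N) ℂ) (p : MvPolynomial (Fin N × Fin N) ℂ) :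
    MvPolynomial (Fin N × Fin N) ℂ :=
  ∑ ij : Fin N × Fin N, MvPolynomial.pderiv ij p *
    ∑ k, MvPolynomial.X (ij.1, k) * MvPolynomial.C (Y k ij.2)

theorem galg_ev_D (M Y : Matrix (Fin N) (Fin N) ℂ) (p : MvPolynomial (Fin N × Fin N) ℂ) :
    galg_ev M (galg_D Y p)
      = ∑ ij : Fin N × Fin N, galg_ev M (MvPolynomial.pderiv ij p) * ∑ k, M ij.1 k * Y k ij.2 := by
  simp [galg_ev, galg_D]

theorem galg_exp (Y : Matrix (Fin N) (Fin N) ℂ) (z : ℂ) (i j : Fin N) :
    HasDerivAt (fun w : ℂ => exp (w • Y) i j) ((exp (z • Y) * Y) i j) z := by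
  open scoped Matrix.Norms.Operator in
  exact (Matrix.entryLinearMap ℂ ℂ i j).toContinuousLinearMap.hasFDerivAt.comp_hasDerivAt z
    (hasDerivAt_exp_smul_const Y z)

theorem galg_deriv (g Y : Matrix (Fin N) (Fin N) ℂ) (p : MvPolynomial (Fin N × Fin N) ℂ) (z : ℂ) :
    HasDerivAt (fun w : ℂ => galg_ev (g * exp (w • Y)) p)
      (galg_ev (g * exp (z • Y)) (galg_D Y p)) z := by
  rw [galg_ev_D]
  unfold galg_ev
  refine galg_chain (M := fun w (ij : Fin N × Fin N) => (g * exp (w • Y)) ij.1 ij.2)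
    (M' := fun ij => ∑ k, (g * exp (z • Y)) ij.1 k * Y k ij.2) (fun ij => ?_) p
  rw [← Matrix.mul_apply, Matrix.mul_assoc]
  simp only [Matrix.mul_apply (M := g)]
  exact HasDerivAt.fun_sum fun k _ => (galg_exp Y z k ij.2).const_mul _

theorem galg_map_exp (R : Matrix (Fin N) (Fin N) ℝ) (t : ℝ) :
    (exp (t • R)).map (algebraMap ℝ ℂ) = exp ((t : ℂ) • R.map (algebraMap ℝ ℂ)) := by
  have e : (t : ℂ) • R.map (algebraMap ℝ ℂ) = (algebraMap ℝ ℂ).mapMatrix (t • R) := by
    ext i j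
    simp
  rw [e]
  open scoped Matrix.Norms.Operator in
  exact map_exp (algebraMap ℝ ℂ).mapMatrix (continuous_id.matrix_map Complex.continuous_ofReal) _

variable (Hc) in
/-- The Lie algebra, as a space of vectors. -/
def galg_W : Submodule ℂ (Fin N × Fin N → ℂ) where
  carrier := {v | ∀ p, (∀ g ∈ Hc, galg_ev g.val p = 0) → ∀ g ∈ Hc,
    galg_ev g.val (galg_D (Matrix.of fun i j => v (i, j)) p) = 0}
  add_mem' {a b} ha hb p hp g hg := by
    have h1 := ha p hp g hg
    have h2 := hb p hp g hg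
    simp only [galg_ev_D, Matrix.of_apply, Pi.add_apply, mul_add, Finset.sum_add_distrib] at *
    rw [h1, h2, add_zero]
  zero_mem' p _ g _ := by simp [galg_ev_D]
  smul_mem' c a ha p hp g hg := by
    have h1 := congrArg (c * ·) (ha p hp g hg)
    simp only [galg_ev_D, Matrix.of_apply, Pi.smul_apply, smul_eq_mul, Finset.mul_sum,
      mul_zero] at *
    rw [← h1]
    exact Finset.sum_congr rfl fun _ _ => Finset.sum_congr rfl fun _ _ => by ring

theorem galg_vanish {v : Fin N × Fin N → ℂ} (hv : v ∈ galg_W Hc)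
    {p : MvPolynomial (Fin N × Fin N) ℂ} (hp : ∀ g ∈ Hc, galg_ev g.val p = 0) (z : ℂ) :
    galg_ev (exp (z • Matrix.of fun i j => v (i, j))) p = 0 := by
  set Y : Matrix (Fin N) (Fin N) ℂ := Matrix.of fun i j => v (i, j)
  have hd := galg_deriv 1 Y
  simp only [Matrix.one_mul] at hd
  have h0 : ∀ n p, (∀ g ∈ Hc, galg_ev g.val p = 0) →
      iteratedDeriv n (fun w : ℂ => galg_ev (exp (w • Y)) p) 0 = 0 := by
    intro n
    induction n with
    | zero => exact fun p hp => by simpa using hp 1 Hc.one_mem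
    | succ n ih =>
      intro p hp
      rw [iteratedDeriv_succ', funext fun w => (hd p w).deriv]
      exact ih _ (hv p hp)
  rw [← Complex.taylorSeries_eq_of_entire' 0 z fun w => (hd p w).differentiableAt]
  simp [h0 _ p hp]

theorem galg_stable
    (h : ∀ g, g ∈ Hc ↔ ∀ p ∈ I, MvPolynomial.aeval (fun ij => g.val ij.1 ij.2) p = 0)
    (s : ℂ ≃+* ℂ) (v : Fin N × Fin N → ℂ) (hv : v ∈ galg_W Hc) :
    (fun i => s (v i)) ∈ galg_W Hc := by
  have h1 : ∀ (f : ℂ →+* ℂ), ∀ g ∈ Hc, GeneralLinearGroup.map f g ∈ Hc := fun f g hg =>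
    (h _).2 fun p hp => by
      have := MvPolynomial.comp_aeval_apply (f := fun ij : Fin N × Fin N => g.val ij.1 ij.2)
        f.toRatAlgHom p
      rw [(h g).1 hg p hp, map_zero] at this
      exact this.symm
  have h2 : ∀ (f : ℂ →+* ℂ) (g : GL (Fin N) ℂ) (p : MvPolynomial (Fin N × Fin N) ℂ),
      f (galg_ev g.val p) = galg_ev (GeneralLinearGroup.map f g).val (MvPolynomial.map f p) :=
    fun f g p => MvPolynomial.map_eval f _ p
  have h3 : ∀ (s : ℂ ≃+* ℂ) (g : GL (Fin N) ℂ), GeneralLinearGroup.map (s : ℂ →+* ℂ)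
      (GeneralLinearGroup.map (s.symm : ℂ →+* ℂ) g) = g := fun s g => by
    ext i j
    exact s.apply_symm_apply _
  intro p hp g hg
  have h4 := congrArg (s : ℂ →+* ℂ) (hv (MvPolynomial.map (s.symm : ℂ →+* ℂ) p) (fun g hg => by
    rw [← h3 s.symm g, ← h2, hp _ (h1 _ g hg), map_zero]) _ (h1 (s.symm : ℂ →+* ℂ) g hg))
  rw [galg_ev_D, map_zero, map_sum] at h4
  rw [galg_ev_D, ← h4]
  refine Finset.sum_congr rfl fun ij _ => ?_
  rw [map_mul, h2, h3, MvPolynomial.pderiv_map, MvPolynomial.map_map,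
    RingEquiv.comp_symm, MvPolynomial.map_id, map_sum]
  congr 1
  refine Finset.sum_congr rfl fun k _ => ?_
  rw [map_mul]
  congr 1
  exact (s.apply_symm_apply _).symm

theorem lie_rat
    (h : ∀ g, g ∈ Hc ↔ ∀ p ∈ I, MvPolynomial.aeval (fun ij => g.val ij.1 ij.2) p = 0)
    {X : Matrix (Fin N) (Fin N) ℝ} (hX : ∀ t : ℝ, Zr I (exp (t • X))) :
    X ∈ Submodule.span ℝ {R : Matrix (Fin N) (Fin N) ℝ |
      (∀ t : ℝ, Zr I (exp (t • R))) ∧ ∀ i j, ∃ q : ℚ, R i j = q} := by
  have h1 : (fun ij : Fin N × Fin N => (X ij.1 ij.2 : ℂ)) ∈ galg_W Hc := by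
    intro p hp g hg
    have d := (galg_deriv g.val (X.map (algebraMap ℝ ℂ)) p ((0 : ℝ) : ℂ)).comp_ofReal
    have e : (fun t : ℝ => galg_ev (g.val * exp ((t : ℂ) • X.map (algebraMap ℝ ℂ))) p)
        = fun _ => 0 := funext fun t => by
      have k := hp _ (Hc.mul_mem hg
        (Subgroup.mem_comap.1 ((mem_real_iff h (expU (t • X))).2 (hX t))))
      rw [Units.val_mul] at k
      rw [← galg_map_exp]
      exact k
    rw [e] at d
    have k := d.unique (hasDerivAt_const _ _)
    rw [Complex.ofReal_zero, zero_smul, exp_zero, Matrix.mul_one] at k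
    exact k
  have h2 : ∀ v ∈ Submodule.span ℂ {w | w ∈ galg_W Hc ∧ ∀ i, ∃ q : ℚ, w i = q}, ∀ c : ℂ,
      (Matrix.of fun i j => (c * v (i, j)).re) ∈ Submodule.span ℝ {R : Matrix (Fin N) (Fin N) ℝ |
        (∀ t : ℝ, Zr I (exp (t • R))) ∧ ∀ i j, ∃ q : ℚ, R i j = q} := by
    intro v hv
    induction hv using Submodule.span_induction with
    | mem w hw =>
      intro c
      choose q hq using hw.2
      have e1 : (Matrix.of fun i j => (c * w (i, j)).re)
          = c.re • Matrix.of fun i j => (q (i, j) : ℝ) := by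
        ext i j
        simp [hq]
      have e2 : (Matrix.of fun i j => w (i, j))
          = (Matrix.of fun i j => (q (i, j) : ℝ)).map (algebraMap ℝ ℂ) := by
        ext i j
        simp [hq]
      rw [e1]
      refine Submodule.smul_mem _ _ (Submodule.subset_span ⟨fun t p hp => ?_, fun i j => ⟨_, rfl⟩⟩)
      have := galg_vanish hw.1 (p := MvPolynomial.map (algebraMap ℚ ℂ) p) (fun g hg => by
        rw [galg_ev, ← MvPolynomial.eval₂_eq_eval_map]
        exact (h g).1 hg p hp) t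
      rw [e2, ← galg_map_exp, galg_ev, ← MvPolynomial.eval₂_eq_eval_map] at this
      rw [← map_eq_zero (algebraMap ℝ ℂ), ← MvPolynomial.aeval_algebraMap_apply]
      exact this
    | zero =>
      intro c
      have e : (Matrix.of fun i j : Fin N => (c * (0 : Fin N × Fin N → ℂ) (i, j)).re) = 0 := by
        ext i j
        simp
      rw [e]
      exact zero_mem _
    | add a b _ _ ha hb =>
      intro c
      have e : (Matrix.of fun i j : Fin N => (c * (a + b) (i, j)).re)
          = (Matrix.of fun i j => (c * a (i, j)).re) + Matrix.of fun i j => (c * b (i, j)).re := by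
        ext i j
        simp only [Matrix.of_apply, Matrix.add_apply, Pi.add_apply, mul_add, Complex.add_re]
      rw [e]
      exact add_mem (ha c) (hb c)
    | smul a b _ hb =>
      intro c
      simpa only [Pi.smul_apply, smul_eq_mul, mul_assoc] using hb (c * a)
  have h3 := h2 _ (descent _ (galg_stable h) h1) 1
  simp only [one_mul, Complex.ofReal_re] at h3
  exact h3

end Pool.Agent.Work.MP_c8d35c_al
end

-- merged part: Pool.Agent.Work.MP_c8d35c_al.GPi
section
/-! The derivative of a continuous homomorphism.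

Plan. `exists_lie`: closed under addition by `trotter` (the terms lie in `Hr`, so they satisfy
`Zr I`; `isClosed_zr`), under scalars by `smul_smul`. `expU_mem`: `expU X = expU (k⁻¹ X) ^ k` with
`k` the index of the normal core of `H.subgroupOf Hr` (`Subgroup.pow_index_mem`).
`exists_dphi`: for `X ∈ 𝔥` apply `one_param` to `t ↦ (φ ⟨expU (t • X), _⟩).val`; the resulting
map is linear on `𝔥` (`eq_of_exp_eq`; for sums use `trotter` on both sides: the sequence in `H`
converges in the topology of `GL`, because the inverses converge too, e.g.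
`Units.isOpenEmbedding_val` for a normed ring or `Matrix.GeneralLinearGroup` continuity of the
inverse `A⁻¹ = det⁻¹ • adjugate`); extend it by `LinearMap.exists_extend`. -/

namespace Pool.Agent.Work.MP_c8d35c_al

open Matrix NormedSpace Topology

variable {N : ℕ} {I : Set (MvPolynomial (Fin N × Fin N) ℚ)} {Hr H : Subgroup (GL (Fin N) ℝ)}

theorem GPi_emb : IsEmbedding (Units.val : GL (Fin N) ℝ → Matrix (Fin N) (Fin N) ℝ) := by
  refine Units.isEmbedding_val_mk' (f := Inv.inv) (fun A hA => ?_) fun u => (coe_units_inv u).symm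
  refine (continuousAt_matrix_inv A ?_).continuousWithinAt
  rw [Ring.inverse_eq_inv']
  exact continuousAt_inv₀ ((isUnit_iff_isUnit_det A).1 hA).ne_zero

theorem GPi_trotter {m : ℕ} (X Y : Matrix (Fin m) (Fin m) ℝ) (t : ℝ) :
    Filter.Tendsto (fun k : ℕ => (exp ((((k : ℝ) + 1)⁻¹ * t) • X) *
      exp ((((k : ℝ) + 1)⁻¹ * t) • Y)) ^ (k + 1)) Filter.atTop (𝓝 (exp (t • (X + Y)))) := by
  simpa only [smul_add, smul_smul] using trotter (t • X) (t • Y)

theorem exists_lie (hr : ∀ g, g ∈ Hr ↔ Zr I g.val) :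
    ∃ 𝔥 : Submodule ℝ (Matrix (Fin N) (Fin N) ℝ),
      ∀ X, X ∈ 𝔥 ↔ ∀ t : ℝ, Zr I (exp (t • X)) := by
  refine ⟨⟨⟨⟨{X | ∀ t : ℝ, Zr I (exp (t • X))}, fun {X Y} hX hY t => ?_⟩, fun t => ?_⟩,
    fun c X hX t => ?_⟩, fun X => Iff.rfl⟩
  · refine (isClosed_zr I).mem_of_tendsto (GPi_trotter X Y t)
      (Filter.Eventually.of_forall fun k => ?_)
    have h := (hr _).1 (Hr.pow_mem (Hr.mul_mem ((hr (expU _)).2 (hX (((k : ℝ) + 1)⁻¹ * t)))
      ((hr (expU _)).2 (hY (((k : ℝ) + 1)⁻¹ * t)))) (k + 1))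
    rwa [Units.val_pow_eq_pow_val, Units.val_mul] at h
  · rw [smul_zero, exp_zero]
    exact (hr 1).1 Hr.one_mem
  · rw [smul_smul]
    exact hX _

theorem expU_mem (hr : ∀ g, g ∈ Hr ↔ Zr I g.val) (hi : H.relIndex Hr ≠ 0)
    {X : Matrix (Fin N) (Fin N) ℝ} (hX : ∀ t : ℝ, Zr I (exp (t • X))) (t : ℝ) :
    expU (t • X) ∈ H := by
  have h0 : ((H.relIndex Hr).factorial : ℝ) ≠ 0 := Nat.cast_ne_zero.2 (Nat.factorial_ne_zero _)
  have h := (Subgroup.pow_mem_of_relIndex_ne_zero_of_dvd hi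
    ((hr (expU _)).2 (hX (((H.relIndex Hr).factorial : ℝ)⁻¹ * t)))
    (n := (H.relIndex Hr).factorial) fun m => Nat.dvd_factorial).1
  rwa [expU_pow, smul_smul, mul_inv_cancel_left₀ h0] at h

theorem exists_dphi (hr : ∀ g, g ∈ Hr ↔ Zr I g.val) (hi : H.relIndex Hr ≠ 0) {m : ℕ}
    (φ : H →* GL (Fin m) ℝ) (hφ : Continuous φ) :
    ∃ D : Matrix (Fin N) (Fin N) ℝ →ₗ[ℝ] Matrix (Fin m) (Fin m) ℝ,
      ∀ (X : Matrix (Fin N) (Fin N) ℝ) (hX : ∀ t : ℝ, Zr I (exp (t • X))) (t : ℝ),
        (φ ⟨expU (t • X), expU_mem hr hi hX t⟩).val = exp (t • D X) := by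
  obtain ⟨𝔥, h𝔥⟩ := exists_lie hr
  let e : 𝔥 → ℝ → H := fun X t => ⟨expU (t • X.1), expU_mem hr hi ((h𝔥 _).1 X.2) t⟩
  have h1 : ∀ X : 𝔥, ∃ Y : Matrix (Fin m) (Fin m) ℝ, ∀ t, (φ (e X t)).val = exp (t • Y) := by
    intro X
    refine one_param (Units.continuous_val.comp (hφ.comp ((continuous_expU X.1).subtype_mk _)))
      ?_ fun s t => ?_
    · have h2 : e X 0 = 1 := Subtype.ext (Units.ext (by
        change exp ((0 : ℝ) • X.1) = 1
        rw [zero_smul, exp_zero]))
      rw [h2, map_one, Units.val_one]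
    · have h2 : e X (s + t) = e X s * e X t := Subtype.ext (expU_add _ _ _)
      rw [h2, map_mul, Units.val_mul]
  choose d hd using h1
  have h2 : ∀ X Y : 𝔥, d (X + Y) = d X + d Y := by
    intro X Y
    refine eq_of_exp_eq fun t => ?_
    have h3 : Filter.Tendsto (fun k : ℕ => (e X (((k : ℝ) + 1)⁻¹ * t) *
        e Y (((k : ℝ) + 1)⁻¹ * t)) ^ (k + 1)) Filter.atTop (𝓝 (e (X + Y) t)) := by
      refine tendsto_subtype_rng.2 (GPi_emb.tendsto_nhds_iff.2 ?_)
      refine (GPi_trotter X.1 Y.1 t).congr fun k => ?_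
      simp only [Function.comp_apply, SubmonoidClass.coe_pow, Subgroup.coe_mul,
        Units.val_pow_eq_pow_val, Units.val_mul]
      rfl
    have h4 := ((Units.continuous_val.comp hφ).tendsto _).comp h3
    refine (hd _ t).symm.trans (tendsto_nhds_unique h4 ((GPi_trotter (d X) (d Y) t).congr
      fun k => ?_))
    simp only [Function.comp_apply, map_pow, map_mul, Units.val_pow_eq_pow_val, Units.val_mul, hd]
  have h3 : ∀ (c : ℝ) (X : 𝔥), d (c • X) = c • d X := by
    intro c X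
    refine eq_of_exp_eq fun t => ?_
    have h4 : e (c • X) t = e X (t * c) := Subtype.ext (congrArg expU (smul_smul t c X.1))
    rw [← hd, h4, hd, smul_smul]
  obtain ⟨D, hD⟩ := LinearMap.exists_extend (p := 𝔥)
    ({ toFun := d, map_add' := h2, map_smul' := h3 } : 𝔥 →ₗ[ℝ] Matrix (Fin m) (Fin m) ℝ)
  refine ⟨D, fun X hX t => ?_⟩
  have h4 : D X = d ⟨X, (h𝔥 X).2 hX⟩ := LinearMap.congr_fun hD ⟨X, (h𝔥 X).2 hX⟩
  rw [h4, ← hd]

end Pool.Agent.Work.MP_c8d35c_al
end

-- merged part: Pool.Agent.Work.MP_c8d35c_al.GPi2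
section
/-! A compact subgroup that contains all one-parameter groups is open.

Plan. `ker_nhds`: otherwise there are `h k → 1` in `H`, `h k ∉ C`. Choose `c k ∈ C` that minimises
`∑ i j, ((h k * c - 1) i j)²` on the compact set `C`; `Z k = h k * c k - 1 ≠ 0` tends to `0`. For
`X ∈ 𝔥` the function `t ↦ ∑ ((1 + Z k) exp (t X) - 1)²` has a minimum at `0`, so
`∑ i j, Z k i j * ((1 + Z k) * X) i j = 0`. A subsequence of `Z k / ‖Z k‖` converges to some
`Z ≠ 0`; `exp (t Z)` is the limit of ` (1 + Z k) ^ ⌊t / ‖Z k‖⌋₊` for `t ≥ 0` (`lim_pow`), so `Z ∈ 𝔥`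
(for `t < 0` take inverses in `Hr`), and `∑ Z i j * Z i j = 0` in the limit. -/

namespace Pool.Agent.Work.MP_c8d35c_al

open Matrix NormedSpace Topology

variable {N : ℕ} {I : Set (MvPolynomial (Fin N × Fin N) ℚ)} {Hr H : Subgroup (GL (Fin N) ℝ)}

/-- Sum of the squares of the entries. -/
def gpi2_q (M : Matrix (Fin N) (Fin N) ℝ) : ℝ := ∑ i, ∑ j, M i j ^ 2

theorem gpi2_q_cont : Continuous (gpi2_q : Matrix (Fin N) (Fin N) ℝ → ℝ) := by
  unfold gpi2_q
  fun_prop

theorem gpi2_q_nonneg (M : Matrix (Fin N) (Fin N) ℝ) : 0 ≤ gpi2_q M :=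
  Finset.sum_nonneg fun _ _ => Finset.sum_nonneg fun _ _ => sq_nonneg _

theorem gpi2_sq_le (M : Matrix (Fin N) (Fin N) ℝ) (i j : Fin N) : M i j ^ 2 ≤ gpi2_q M := by
  have h1 : M i j ^ 2 ≤ ∑ j, M i j ^ 2 :=
    Finset.single_le_sum (f := fun j => M i j ^ 2) (fun _ _ => sq_nonneg _) (Finset.mem_univ j)
  have h2 : ∑ j, M i j ^ 2 ≤ gpi2_q M :=
    Finset.single_le_sum (f := fun i => ∑ j, M i j ^ 2)
      (fun _ _ => Finset.sum_nonneg fun _ _ => sq_nonneg _) (Finset.mem_univ i)
  exact h1.trans h2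

theorem gpi2_q_pos {M : Matrix (Fin N) (Fin N) ℝ} (h : M ≠ 0) : 0 < gpi2_q M := by
  rcases (gpi2_q_nonneg M).lt_or_eq with h1 | h1
  · exact h1
  · exfalso
    apply h
    ext i j
    have := gpi2_sq_le M i j
    rw [← h1] at this
    exact pow_eq_zero_iff (two_ne_zero) |>.1 (le_antisymm this (sq_nonneg _))

theorem gpi2_q_smul (a : ℝ) (M : Matrix (Fin N) (Fin N) ℝ) :
    gpi2_q (a • M) = a ^ 2 * gpi2_q M := by
  simp only [gpi2_q, Matrix.smul_apply, smul_eq_mul, mul_pow, Finset.mul_sum]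

theorem gpi2_tendsto_zero {Z : ℕ → Matrix (Fin N) (Fin N) ℝ}
    (h : Filter.Tendsto (fun k => gpi2_q (Z k)) Filter.atTop (𝓝 0)) :
    Filter.Tendsto Z Filter.atTop (𝓝 0) := by
  refine tendsto_pi_nhds.2 fun i => tendsto_pi_nhds.2 fun j => ?_
  have h1 : Filter.Tendsto (fun k => Real.sqrt (gpi2_q (Z k))) Filter.atTop (𝓝 0) := by
    simpa using h.sqrt
  refine squeeze_zero_norm (fun k => ?_) h1
  rw [Real.norm_eq_abs]
  exact Real.abs_le_sqrt (gpi2_sq_le _ i j)

theorem gpi2_compact : IsCompact {W : Matrix (Fin N) (Fin N) ℝ | gpi2_q W = 1} := by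
  have h1 : IsCompact (Set.pi Set.univ fun _ : Fin N =>
      Set.pi Set.univ fun _ : Fin N => Set.Icc (-1 : ℝ) 1) :=
    isCompact_univ_pi fun _ => isCompact_univ_pi fun _ => isCompact_Icc
  have h2 : IsClosed {W : Matrix (Fin N) (Fin N) ℝ | gpi2_q W = 1} :=
    isClosed_eq gpi2_q_cont continuous_const
  refine IsCompact.of_isClosed_subset (X := Matrix (Fin N) (Fin N) ℝ) h1 h2 ?_
  intro W hW i _ j _
  have h3 := gpi2_sq_le W i j
  rw [show gpi2_q W = 1 from hW] at h3
  exact abs_le.1 ((sq_le_one_iff_abs_le_one _).1 h3)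

theorem gpi2_deriv (A X : Matrix (Fin N) (Fin N) ℝ)
    (h : ∀ t : ℝ, gpi2_q (A - 1) ≤ gpi2_q (A * exp (t • X) - 1)) :
    ∑ i, ∑ j, (A - 1) i j * (A * X) i j = 0 := by
  have h1 : ∀ i j, HasDerivAt (fun t : ℝ => (A * exp (t • X) - 1) i j) ((A * X) i j) 0 := by
    intro i j
    have h2 : HasDerivAt (fun t : ℝ => ∑ l, A i l * exp (t • X) l j)
        (∑ l, A i l * (exp ((0 : ℝ) • X) * X) l j) 0 :=
      HasDerivAt.fun_sum fun l _ => (hasDerivAt_exp_entry X 0 l j).const_mul (A i l)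
    simp only [zero_smul, exp_zero, one_mul] at h2
    simpa only [Matrix.sub_apply, Matrix.mul_apply] using h2.sub_const ((1 : Matrix _ _ ℝ) i j)
  have h2 : HasDerivAt (fun t : ℝ => gpi2_q (A * exp (t • X) - 1))
      (∑ i, ∑ j, 2 * ((A - 1) i j * (A * X) i j)) 0 := by
    unfold gpi2_q
    refine HasDerivAt.fun_sum fun i _ => HasDerivAt.fun_sum fun j _ => ?_
    have h3 := (h1 i j).fun_pow 2
    simp only [zero_smul, exp_zero, mul_one] at h3
    refine h3.congr_deriv ?_
    push_cast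
    ring
  have h3 : IsLocalMin (fun t : ℝ => gpi2_q (A * exp (t • X) - 1)) 0 := by
    refine Filter.Eventually.of_forall fun t => ?_
    simpa only [zero_smul, exp_zero, mul_one] using h t
  have h4 := h3.hasDerivAt_eq_zero h2
  simp only [← Finset.mul_sum] at h4
  simpa using h4

theorem gpi2_floor {r : ℕ → ℝ} (h0 : ∀ k, 0 < r k) (h : Filter.Tendsto r Filter.atTop (𝓝 0))
    {t : ℝ} (ht : 0 ≤ t) :
    Filter.Tendsto (fun k => (⌊t / r k⌋₊ : ℝ) * r k) Filter.atTop (𝓝 t) := by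
  have h1 : Filter.Tendsto (fun k => t - r k) Filter.atTop (𝓝 t) := by
    simpa using h.const_sub t
  refine tendsto_of_tendsto_of_tendsto_of_le_of_le h1 tendsto_const_nhds (fun k => ?_) fun k => ?_
  · have h2 := Nat.lt_floor_add_one (t / r k)
    rw [div_lt_iff₀ (h0 k)] at h2
    show t - r k ≤ (⌊t / r k⌋₊ : ℝ) * r k
    nlinarith
  · have h2 := Nat.floor_le (div_nonneg ht (h0 k).le)
    rw [le_div_iff₀ (h0 k)] at h2
    exact h2

theorem gpi2_lie (hr : ∀ g, g ∈ Hr ↔ Zr I g.val) {g : ℕ → GL (Fin N) ℝ} (hg : ∀ k, g k ∈ Hr)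
    {r : ℕ → ℝ} (h0 : ∀ k, 0 < r k) (h : Filter.Tendsto r Filter.atTop (𝓝 0))
    (hZ : Filter.Tendsto (fun k => (g k).val - 1) Filter.atTop (𝓝 0))
    {W : Matrix (Fin N) (Fin N) ℝ}
    (hW : Filter.Tendsto (fun k => (r k)⁻¹ • ((g k).val - 1)) Filter.atTop (𝓝 W)) (t : ℝ) :
    Zr I (exp (t • W)) := by
  have key : ∀ s : ℝ, 0 ≤ s → Zr I (exp (s • W)) := by
    intro s hs
    have h1 : Filter.Tendsto (fun k => ((⌊s / r k⌋₊ : ℕ) : ℝ) • ((g k).val - 1)) Filter.atTop
        (𝓝 (s • W)) := by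
      refine ((gpi2_floor h0 h hs).smul hW).congr fun k => ?_
      rw [smul_smul, mul_assoc, mul_inv_cancel₀ (h0 k).ne', mul_one]
    have h2 := lim_pow hZ h1
    refine (isClosed_zr I).mem_of_tendsto h2 (Filter.Eventually.of_forall fun k => ?_)
    have h3 := (hr _).1 (Hr.pow_mem (hg k) ⌊s / r k⌋₊)
    simpa only [Units.val_pow_eq_pow_val, add_sub_cancel, Set.mem_ofPred_eq] using h3
  rcases le_total 0 t with ht | ht
  · exact key t ht
  · have h1 : expU ((-t) • W) ∈ Hr := (hr _).2 (key (-t) (neg_nonneg.2 ht))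
    have h2 := (hr _).1 (Hr.inv_mem h1)
    have h3 : ((expU ((-t) • W))⁻¹).val = exp (t • W) := by
      show exp (-((-t) • W)) = _
      rw [neg_smul, neg_neg]
    rwa [h3] at h2

theorem ker_nhds (hr : ∀ g, g ∈ Hr ↔ Zr I g.val) (hle : H ≤ Hr) (hi : H.relIndex Hr ≠ 0)
    (C : Subgroup H) (hC : IsCompact (C : Set H))
    (h : ∀ (X : Matrix (Fin N) (Fin N) ℝ) (hX : ∀ t : ℝ, Zr I (exp (t • X))) (t : ℝ),
      (⟨expU (t • X), expU_mem hr hi hX t⟩ : H) ∈ C) : (C : Set H) ∈ 𝓝 (1 : H) := by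
  by_contra hn
  have h1 : (1 : H) ∈ closure (C : Set H)ᶜ := by
    rw [closure_compl, Set.mem_compl_iff, mem_interior_iff_mem_nhds]
    exact hn
  obtain ⟨u, hu, hu1⟩ := mem_closure_iff_seq_limit.1 h1
  have hv : Continuous fun x : H => x.val.val := Units.continuous_val.comp continuous_subtype_val
  have hmin : ∀ k, ∃ c ∈ C, ∀ c' ∈ C,
      gpi2_q ((u k * c).val.val - 1) ≤ gpi2_q ((u k * c').val.val - 1) := by
    intro k
    have hc : Continuous fun c : H => gpi2_q ((u k * c).val.val - 1) :=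
      gpi2_q_cont.comp ((hv.comp (continuous_const.mul continuous_id)).sub continuous_const)
    obtain ⟨c, hc1, hc2⟩ := hC.exists_isMinOn ⟨1, C.one_mem⟩ hc.continuousOn
    exact ⟨c, hc1, fun c' hc' => hc2 hc'⟩
  choose c hcC hc using hmin
  set g : ℕ → GL (Fin N) ℝ := fun k => (u k * c k).val with hg
  have hne : ∀ k, (g k).val - 1 ≠ 0 := by
    intro k hk
    apply hu k
    have h2 : u k * c k = 1 := Subtype.ext (Units.ext (sub_eq_zero.1 hk))
    rw [eq_inv_of_mul_eq_one_left h2]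
    exact C.inv_mem (hcC k)
  have hq : Filter.Tendsto (fun k => gpi2_q ((g k).val - 1)) Filter.atTop (𝓝 0) := by
    have h2 : Continuous fun x : H => gpi2_q (x.val.val - 1) :=
      gpi2_q_cont.comp (hv.sub continuous_const)
    have h3 := (h2.tendsto 1).comp hu1
    have h4 : gpi2_q ((1 : H).val.val - 1) = 0 := by
      simp [gpi2_q]
    rw [h4] at h3
    refine squeeze_zero (fun k => gpi2_q_nonneg _) (fun k => ?_) h3
    simpa only [mul_one, Function.comp_apply] using hc k 1 C.one_mem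
  have hZ := gpi2_tendsto_zero hq
  set r : ℕ → ℝ := fun k => Real.sqrt (gpi2_q ((g k).val - 1)) with hrdef
  have h0 : ∀ k, 0 < r k := fun k => Real.sqrt_pos.2 (gpi2_q_pos (hne k))
  have hr0 : Filter.Tendsto r Filter.atTop (𝓝 0) := by
    simpa using hq.sqrt
  have hW1 : ∀ k, (r k)⁻¹ • ((g k).val - 1) ∈ {W : Matrix (Fin N) (Fin N) ℝ | gpi2_q W = 1} := by
    intro k
    show gpi2_q _ = 1
    rw [gpi2_q_smul, inv_pow, Real.sq_sqrt (gpi2_q_nonneg _)]
    exact inv_mul_cancel₀ (gpi2_q_pos (hne k)).ne'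
  have : FirstCountableTopology (Matrix (Fin N) (Fin N) ℝ) :=
    inferInstanceAs (FirstCountableTopology (Fin N → Fin N → ℝ))
  obtain ⟨W, hW, φ, hφ, hlim⟩ := gpi2_compact.tendsto_subseq hW1
  have hφ' := hφ.tendsto_atTop
  have hX : ∀ t : ℝ, Zr I (exp (t • W)) :=
    gpi2_lie hr (g := fun k => g (φ k)) (fun k => hle (u (φ k) * c (φ k)).2)
      (r := fun k => r (φ k)) (fun k => h0 _) (hr0.comp hφ') (hZ.comp hφ') hlim
  have hz : ∀ k, ∑ i, ∑ j, ((r k)⁻¹ • ((g k).val - 1)) i j * ((g k).val * W) i j = 0 := by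
    intro k
    have h2 := gpi2_deriv (g k).val W fun t => by
      have h3 := hc k _ (C.mul_mem (hcC k) (h W hX t))
      rw [← mul_assoc] at h3
      exact h3
    simp only [Matrix.smul_apply, smul_eq_mul, mul_assoc, ← Finset.mul_sum]
    rw [h2, mul_zero]
  have hg1 : Filter.Tendsto (fun k => (g (φ k)).val) Filter.atTop (𝓝 1) := by
    simpa using (hZ.comp hφ').add_const 1
  have hF : Continuous fun p : Matrix (Fin N) (Fin N) ℝ × Matrix (Fin N) (Fin N) ℝ =>
      ∑ i, ∑ j, p.1 i j * (p.2 * W) i j := by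
    fun_prop
  have h5 := (hF.tendsto (W, 1)).comp (hlim.prodMk_nhds hg1)
  have h6 : ∑ i, ∑ j, W i j * ((1 : Matrix (Fin N) (Fin N) ℝ) * W) i j = 0 :=
    tendsto_nhds_unique h5 (tendsto_const_nhds.congr fun k => (hz (φ k)).symm)
  have h7 : gpi2_q W = 0 := by
    rw [← h6, Matrix.one_mul]
    simp only [gpi2_q, sq]
  rw [show gpi2_q W = 1 from hW] at h7
  exact one_ne_zero h7

end Pool.Agent.Work.MP_c8d35c_al
end

-- merged part: Pool.Agent.Work.MP_c8d35c_al.GLin
section
/-! A real representation that is a quotient of a piece of an integral representation.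

Plan. `Lin.isIntegral`: write `t l = a.map Int.cast`, `t l⁻¹ = b.map Int.cast`; the endomorphism
`X ↦ a X b` of the finite `ℤ`-module `Matrix ι ι ℤ` is killed by a monic polynomial `q`
(`LinearMap.exists_monic_and_aeval_eq_zero`, or `Algebra.IsIntegral`); then
`∑ q.coeff k • t (l ^ k) * X * t (l ^ k)⁻¹ = 0` for all real `X` (check on `single i j 1`); apply
`π` and `surj`. `Lin.finite_span`: choose `X q ∈ 𝔥` with `π (X q) = Pi.single q 1`; then
`α l q q = π (t l * X q * t l⁻¹) q = ∑ (t l a b * t l⁻¹ c e) * (X q b c * π (single a e 1) q)`.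
`Lin.bounded`: `X ↦ -trace (X * X)` is a positive definite quadratic form on `𝔥 ⊓ ker π`, so it is
at least `c ‖X‖²` (compactness of the unit sphere), and it is invariant under conjugation.
`isIntegral_trace`: map to `ℂ`, `Matrix.trace_eq_sum_roots_charpoly`; a root of the characteristic
polynomial is an eigenvalue, hence a root of every polynomial that kills the matrix. -/

namespace Pool.Agent.Work.MP_c8d35c_al

open Matrix

variable {Λ : Type} [Group Λ] {ι d : Type} [Fintype ι] [DecidableEq ι] [Fintype d] [DecidableEq d]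

/-- `α` is a quotient of the conjugation action on the rational subspace `𝔥`, and the trace form
is negative definite on the kernel. -/
structure Lin (t : Λ →* Matrix ι ι ℝ) (α : Λ →* Matrix d d ℝ) (𝔥 : Submodule ℝ (Matrix ι ι ℝ))
    (π : Matrix ι ι ℝ →ₗ[ℝ] d → ℝ) : Prop where
  int : ∀ l i j, ∃ z : ℤ, t l i j = z
  rat : ∀ X ∈ 𝔥, X ∈ Submodule.span ℝ {R | R ∈ 𝔥 ∧ ∀ i j, ∃ q : ℚ, R i j = q}
  inv : ∀ l, ∀ X ∈ 𝔥, t l * X * t l⁻¹ ∈ 𝔥
  eqv : ∀ l, ∀ X ∈ 𝔥, π (t l * X * t l⁻¹) = α l *ᵥ π X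
  neg : ∀ X ∈ 𝔥, π X = 0 → X ≠ 0 → (X * X).trace < 0
  surj : ∀ w, ∃ X ∈ 𝔥, π X = w

variable {t : Λ →* Matrix ι ι ℝ} {α : Λ →* Matrix d d ℝ} {𝔥 : Submodule ℝ (Matrix ι ι ℝ)}
  {π : Matrix ι ι ℝ →ₗ[ℝ] d → ℝ}

theorem Lin.isIntegral (h : Lin t α 𝔥 π) (l : Λ) : IsIntegral ℤ (α l) := by
  choose z hz using h.int
  let φ : Matrix ι ι ℤ →+* Matrix ι ι ℝ := (Int.castRingHom ℝ).mapMatrix
  have ht : ∀ l, t l = φ (of (z l)) := fun l => by
    ext i j
    exact hz l i j
  let E : Module.End ℤ (Matrix ι ι ℤ) := LinearMap.mulLeftRight ℤ (of (z l), of (z l⁻¹))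
  obtain ⟨q, hq, hq0⟩ := Algebra.IsIntegral.isIntegral (R := ℤ) E
  rw [← Polynomial.aeval_def, Polynomial.aeval_eq_sum_range] at hq0
  have h1 : ∀ (k : ℕ) (X : Matrix ι ι ℤ), φ ((E ^ k) X) = t (l ^ k) * φ X * t (l ^ k)⁻¹ := by
    intro k
    induction k with
    | zero => simp
    | succ k ih =>
      intro X
      rw [pow_succ, Module.End.mul_apply, ih, pow_succ, _root_.mul_inv_rev, map_mul t, map_mul t,
        ht l, ht l⁻¹]
      simp only [E, LinearMap.mulLeftRight_apply, map_mul, mul_assoc]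
  have h2 : ∀ X : Matrix ι ι ℝ, ∑ k ∈ Finset.range (q.natDegree + 1),
      q.coeff k • (t (l ^ k) * X * t (l ^ k)⁻¹) = 0 := by
    intro X
    have h3 : ∀ Y : Matrix ι ι ℤ, ∑ k ∈ Finset.range (q.natDegree + 1),
        q.coeff k • (t (l ^ k) * φ Y * t (l ^ k)⁻¹) = 0 := fun Y => by
      have := congrArg (fun F : Module.End ℤ (Matrix ι ι ℤ) => φ (F Y)) hq0
      simpa only [LinearMap.sum_apply, LinearMap.smul_apply, map_sum, map_zsmul, h1,
        LinearMap.zero_apply, map_zero] using this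
    have h4 : X = ∑ i, ∑ j, X i j • φ (single i j 1) := by
      conv_lhs => rw [matrix_eq_sum_single X]
      refine Finset.sum_congr rfl fun i _ => Finset.sum_congr rfl fun j _ => ?_
      ext a b
      simp [φ, single_apply]
    rw [h4]
    simp only [Finset.mul_sum, Finset.sum_mul, Finset.smul_sum, mul_smul_comm, smul_mul_assoc]
    rw [Finset.sum_comm]
    refine Finset.sum_eq_zero fun i _ => ?_
    rw [Finset.sum_comm]
    refine Finset.sum_eq_zero fun j _ => ?_
    simp only [smul_comm (q.coeff _) (X i j)]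
    rw [← Finset.smul_sum, h3, smul_zero]
  refine ⟨q, hq, ?_⟩
  rw [← Polynomial.aeval_def, Polynomial.aeval_eq_sum_range, ext_iff_mulVec]
  intro w
  obtain ⟨X, hX, rfl⟩ := h.surj w
  have := congrArg π (h2 X)
  rw [map_sum, map_zero] at this
  rw [zero_mulVec, ← this, sum_mulVec]
  refine Finset.sum_congr rfl fun k _ => ?_
  rw [map_zsmul, h.eqv _ X hX, map_pow, smul_mulVec]

theorem Lin.finite_span (h : Lin t α 𝔥 π) :
    ∃ T : Finset ℝ, ∀ l, (α l).trace ∈ Submodule.span ℚ (T : Set ℝ) := by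
  classical
  choose X hX hπ using fun q : d => h.surj (Pi.single q 1)
  choose z hz using h.int
  refine ⟨Finset.univ.image fun p : d × ι × ι × ι × ι =>
    X p.1 p.2.1 p.2.2.1 * π (single p.2.2.2.1 p.2.2.2.2 1) p.1, fun l => ?_⟩
  refine Submodule.sum_mem _ fun q _ => ?_
  have h1 : (α l).diag q = π (t l * X q * t l⁻¹) q := by
    rw [h.eqv l _ (hX q), hπ, mulVec_single_one]
    rfl
  have h2 : ∀ Y : Matrix ι ι ℝ, π Y q = ∑ a, ∑ e, Y a e * π (single a e 1) q := fun Y => by
    conv_lhs => rw [matrix_eq_sum_single Y]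
    simp only [map_sum, Finset.sum_apply]
    refine Finset.sum_congr rfl fun a _ => Finset.sum_congr rfl fun e _ => ?_
    rw [← smul_eq_mul, ← Pi.smul_apply, ← map_smul, smul_single, smul_eq_mul, mul_one]
  rw [h1, h2]
  refine Submodule.sum_mem _ fun a _ => Submodule.sum_mem _ fun e _ => ?_
  simp only [mul_apply, Finset.sum_mul]
  refine Submodule.sum_mem _ fun c _ => Submodule.sum_mem _ fun b _ => ?_
  have h3 : t l a b * X q b c * t l⁻¹ c e * π (single a e 1) q =
      ((z l a b * z l⁻¹ c e : ℤ) : ℚ) • (X q b c * π (single a e 1) q) := by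
    rw [hz, hz, Rat.smul_def]
    push_cast
    ring
  rw [h3]
  exact Submodule.smul_mem _ _ (Submodule.subset_span (Finset.mem_coe.2
    (Finset.mem_image.2 ⟨(q, b, c, a, e), Finset.mem_univ _, rfl⟩)))

theorem Lin.bounded (h : Lin t α 𝔥 π) {X : Matrix ι ι ℝ} (hX : X ∈ 𝔥) (h0 : π X = 0) :
    ∃ C : ℝ, ∀ l i j, |(t l * X * t l⁻¹) i j| ≤ C := by
  let _ : NormedAddCommGroup (Matrix ι ι ℝ) := Matrix.normedAddCommGroup
  let _ : NormedSpace ℝ (Matrix ι ι ℝ) := Matrix.normedSpace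
  have : ProperSpace (Matrix ι ι ℝ) := FiniteDimensional.proper ℝ _
  let K : Submodule ℝ (Matrix ι ι ℝ) := 𝔥 ⊓ LinearMap.ker π
  have hc : IsCompact (Metric.sphere (0 : Matrix ι ι ℝ) 1 ∩ K) :=
    (isCompact_sphere _ _).inter_right K.closed_of_finiteDimensional
  have hf : Continuous fun Y : Matrix ι ι ℝ => -(Y * Y).trace :=
    ((continuous_id.matrix_mul continuous_id).matrix_trace).neg
  obtain ⟨c, hc0, hc1⟩ := hc.exists_forall_le' (a := 0) hf.continuousOn fun Y hY =>
    neg_pos.2 (h.neg Y hY.2.1 hY.2.2 fun e => by simpa [e] using hY.1)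
  refine ⟨1 + |(X * X).trace| / c, fun l i j => ?_⟩
  have hK : t l * X * t l⁻¹ ∈ K :=
    ⟨h.inv l X hX, by rw [SetLike.mem_coe, LinearMap.mem_ker, h.eqv l X hX, h0, mulVec_zero]⟩
  have htr : (t l * X * t l⁻¹ * (t l * X * t l⁻¹)).trace = (X * X).trace := by
    have e : t l⁻¹ * t l = 1 := by rw [← map_mul, inv_mul_cancel, map_one]
    calc _ = (t l * (X * (t l⁻¹ * t l) * X) * t l⁻¹).trace := by simp only [mul_assoc]
      _ = _ := by rw [trace_mul_cycle, e, one_mul, mul_one]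
  generalize t l * X * t l⁻¹ = Y at hK htr
  refine le_trans (Matrix.norm_entry_le_entrywise_sup_norm Y) ?_
  have hd : 0 ≤ |(X * X).trace| / c := by positivity
  by_cases e : Y = 0
  · rw [e, norm_zero]
    linarith
  have hn : 0 < ‖Y‖ := norm_pos_iff.2 e
  have h1 := hc1 (‖Y‖⁻¹ • Y) ⟨by simp [norm_smul, hn.ne'], K.smul_mem _ hK⟩
  rw [smul_mul_smul_comm, trace_smul, htr, smul_eq_mul] at h1
  have h2 : ‖Y‖ ^ 2 ≤ |(X * X).trace| / c := by
    rw [le_div_iff₀ hc0]
    have h3 := mul_le_mul_of_nonneg_left h1 (sq_nonneg ‖Y‖)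
    have h4 : ‖Y‖ ^ 2 * -(‖Y‖⁻¹ * ‖Y‖⁻¹ * (X * X).trace) = -(X * X).trace := by field_simp
    linarith [neg_le_abs (X * X).trace]
  nlinarith

theorem Lin.conj (h : Lin t α 𝔥 π) {Q Q' : Matrix d d ℝ} (hQ : Q' * Q = 1)
    {α' : Λ →* Matrix d d ℝ} (e : ∀ l, α' l = Q * α l * Q') :
    Lin t α' 𝔥 (Q.mulVecLin ∘ₗ π) := by
  have hQ' : Q * Q' = 1 := mul_eq_one_comm.1 hQ
  refine ⟨h.int, h.rat, h.inv, fun l X hX => ?_, fun X hX h0 => h.neg X hX ?_, fun w => ?_⟩
  · simp only [LinearMap.comp_apply, mulVecLin_apply, h.eqv l X hX]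
    simp only [e, mulVec_mulVec, mul_assoc, hQ, mul_one]
  · rw [LinearMap.comp_apply, mulVecLin_apply] at h0
    rw [← one_mulVec (π X), ← hQ, ← mulVec_mulVec, h0, mulVec_zero]
  · obtain ⟨X, hX, h1⟩ := h.surj (Q' *ᵥ w)
    exact ⟨X, hX, by rw [LinearMap.comp_apply, mulVecLin_apply, h1, mulVec_mulVec, hQ', one_mulVec]⟩

theorem isIntegral_trace {M : Matrix d d ℝ} (h : IsIntegral ℤ M) : IsIntegral ℤ M.trace := by
  rw [← isIntegral_algebraMap_iff (B := ℂ) (algebraMap ℝ ℂ).injective]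
  obtain ⟨q, hq, hq0⟩ := h.map ((IsScalarTower.toAlgHom ℤ ℝ ℂ).mapMatrix (m := d))
  have e : algebraMap ℝ ℂ M.trace = ((IsScalarTower.toAlgHom ℤ ℝ ℂ).mapMatrix M).trace := by
    simp [trace]
  rw [e, trace_eq_sum_roots_charpoly]
  refine IsIntegral.multiset_sum fun μ hμ => ⟨q, hq, ?_⟩
  have h1 := spectrum.subset_polynomial_aeval _ (q.map (algebraMap ℤ ℂ))
    ⟨μ, mem_spectrum_iff_isRoot_charpoly.2 (Polynomial.isRoot_of_mem_roots hμ), rfl⟩
  rw [Polynomial.aeval_map_algebraMap, Polynomial.aeval_def, hq0, spectrum.mem_iff, sub_zero] at h1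
  by_contra hne
  rw [← Polynomial.eval_map] at hne
  exact h1 ((IsUnit.mk0 _ hne).map _)

theorem numberField_closure (T : Finset ℝ) {X : Set ℝ}
    (h1 : ∀ x ∈ X, x ∈ Submodule.span ℚ (T : Set ℝ)) (h2 : ∀ x ∈ X, IsIntegral ℤ x) :
    NumberField (Subfield.closure X) := by
  have hfg : (Submodule.span ℚ X).FG := by
    have : IsNoetherian ℚ (Submodule.span ℚ (T : Set ℝ)) :=
      isNoetherian_span_of_finite ℚ T.finite_toSet
    exact (isNoetherian_submodule.1 this) _ (Submodule.span_le.2 h1)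
  obtain ⟨S, hS, hS2⟩ := (Submodule.fg_span_iff_fg_span_finset_subset X).1 hfg
  let F := IntermediateField.adjoin ℚ (S : Set ℝ)
  have : FiniteDimensional ℚ F := IntermediateField.finiteDimensional_adjoin fun x hx =>
    (h2 x (hS hx)).tower_top
  have : NumberField F := NumberField.of_module_finite ℚ F
  have hle : Subfield.closure X ≤ F.toSubfield := by
    refine Subfield.closure_le.2 fun x hx => ?_
    have h3 : x ∈ Submodule.span ℚ (S : Set ℝ) := hS2 ▸ Submodule.subset_span hx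
    exact (Submodule.span_le (p := F.toSubalgebra.toSubmodule)).2
      (IntermediateField.subset_adjoin ℚ _) h3
  let f : Subfield.closure X →+* F := Subfield.inclusion hle
  exact { to_finiteDimensional := Module.Finite.of_injective f.toRatAlgHom.toLinearMap f.injective }

end Pool.Agent.Work.MP_c8d35c_al
end

-- merged part: Pool.Agent.Work.MP_c8d35c_al.GAr
section
/-! The linear data attached to an arithmetic group.

Plan. Unpack `IsArithmetic`; `Hr` is the group of real points (`mem_real_iff`), `Δ0` the image of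
the integral points. For `Γ ≤ Δ0` let `Λ` be the subgroup of `H` of the integral points that `φ`
maps into `Γ`; `t l` is the matrix of `l`. Take `𝔥` from `exists_lie`, `D` from `exists_dphi` for
` (isomH n).subtype.comp φ`, and `π X = co (D X * lorMat n)`. For `X ∈ 𝔥`, `Y = D X` satisfies
`Yᵀ J + J Y = 0` (`skew_of_exp`, `lor_mulVec_iff`), so `Y J` is skew (`J J = 1`). `eqv`:
`D (l X l⁻¹) = g (D X) g⁻¹` for `g = φ l` (`expU_conj`, `eq_of_exp_eq`), `g⁻¹ J = J gᵀ`, `co_mul`.
`neg`: `π X = 0` gives `D X = 0` (`eq_zero_of_co`), so `expU (t X)` stays in the compact kernel;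
`trace_sq_neg`. `surj`: `π 𝔥` is stable under all `wd γ`, hence under all matrices
(`span_wd_top`); it is not zero, for otherwise the kernel is an open subgroup (`ker_nhds`,
`Subgroup.isOpen_of_mem_nhds`) of the second countable group `H`, so `φ.range` is countable
(`QuotientGroup.quotientKerEquivRange`; the quotient is discrete and second countable) and of
finite index in an uncountable group (`isomH_uncountable`, `Subgroup.groupEquivQuotientProdSubgroup`). -/

namespace Pool.Agent.Work.MP_c8d35c_al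

open Matrix

variable {n : ℕ}

/-- The second exterior power of an invertible matrix. -/
noncomputable def wdU (n : ℕ) : GL (Fin (n + 1)) ℝ →* Matrix (Pr (n + 1)) (Pr (n + 1)) ℝ :=
  (wdH (n + 1) ℝ).comp (Units.coeHom _)

lemma wdU_apply (g : GL (Fin (n + 1)) ℝ) : wdU n g = wd g.val := rfl

/-- The linear data. -/
def Ar (Γ : Subgroup (GL (Fin (n + 1)) ℝ)) : Prop :=
  ∃ (Λ : Type) (_ : Group Λ) (N : ℕ) (φ : Λ →* GL (Fin (n + 1)) ℝ)
    (t : Λ →* Matrix (Fin N) (Fin N) ℝ) (𝔥 : Submodule ℝ (Matrix (Fin N) (Fin N) ℝ))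
    (π : Matrix (Fin N) (Fin N) ℝ →ₗ[ℝ] Pr (n + 1) → ℝ),
    φ.range = Γ ∧ Lin t ((wdU n).comp φ) 𝔥 π

theorem gar_sq : lorMat n * lorMat n = 1 := by
  rw [lorMat, diagonal_mul_diagonal, ← diagonal_one]
  exact congrArg diagonal (funext fun i => by split_ifs <;> norm_num)

theorem gar_skew {Y : Matrix (Fin (n + 1)) (Fin (n + 1)) ℝ}
    (h : Yᵀ * lorMat n + lorMat n * Y = 0) : (Y * lorMat n)ᵀ = -(Y * lorMat n) := by
  have h1 := congrArg (fun Z => lorMat n * Z * lorMat n) h
  simp only [mul_add, add_mul, ← mul_assoc, gar_sq, one_mul, mul_zero, zero_mul] at h1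
  rw [mul_assoc _ (lorMat n), gar_sq, mul_one] at h1
  rw [transpose_mul, eq_neg_iff_add_eq_zero, ← h1, lorMat, diagonal_transpose]

theorem gar_inv {g : GL (Fin (n + 1)) ℝ} (hg : g ∈ isomH n) :
    (g⁻¹).val * lorMat n = lorMat n * g.valᵀ := by
  have h1 := congrArg (fun Z => lorMat n * Z * ((g⁻¹).val * lorMat n)) ((lor_mulVec_iff _).1 hg.1)
  simp only [mul_assoc, Units.mul_inv_cancel_left, gar_sq, mul_one, one_mul] at h1
  exact h1.symm

theorem gar_conj {N : ℕ} (g : GL (Fin N) ℝ) (X : Matrix (Fin N) (Fin N) ℝ) (t : ℝ) :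
    expU (t • (g.val * X * (g⁻¹).val)) = g * expU (t • X) * g⁻¹ := by
  rw [← expU_conj, mul_smul_comm, smul_mul_assoc]

theorem gar_top {d : Type} [Fintype d] {S : Set (Matrix d d ℝ)} {W : Submodule ℝ (d → ℝ)}
    (h : Submodule.span ℝ S = ⊤) (hS : ∀ M ∈ S, ∀ w ∈ W, M *ᵥ w ∈ W) (h0 : ¬∀ w ∈ W, w = 0)
    (w : d → ℝ) : w ∈ W := by
  classical
  have h1 : ∀ M ∈ Submodule.span ℝ S, ∀ w ∈ W, M *ᵥ w ∈ W := fun M hM =>
    Submodule.span_induction hS (fun w _ => zero_mulVec w ▸ zero_mem W)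
      (fun A B _ _ a b w hw => add_mulVec A B w ▸ add_mem (a w hw) (b w hw))
      (fun c A _ a w hw => smul_mulVec c A w ▸ W.smul_mem c (a w hw)) hM
  simp only [not_forall, funext_iff] at h0
  obtain ⟨v, hv, p, hp⟩ := h0
  have h2 := h1 (vecMulVec w (Pi.single p (v p)⁻¹)) (h ▸ Submodule.mem_top) v hv
  rwa [vecMulVec_mulVec, single_dotProduct, inv_mul_cancel₀ hp, MulOpposite.op_one, one_smul] at h2

theorem gar_count {H G : Type} [Group H] [TopologicalSpace H] [IsTopologicalGroup H]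
    [SecondCountableTopology H] [Group G] (φ : H →* G) (hi : φ.range.index ≠ 0)
    (h : (φ.ker : Set H) ∈ nhds (1 : H)) : Countable G := by
  have := QuotientGroup.discreteTopology (φ.ker.isOpen_of_mem_nhds h)
  have : Countable (H ⧸ φ.ker) := countable_of_Lindelof_of_discrete
  have := (QuotientGroup.quotientKerEquivRange φ).symm.injective.countable
  have : φ.range.FiniteIndex := ⟨hi⟩
  exact (Subgroup.groupEquivQuotientProdSubgroup (s := φ.range)).injective.countable

theorem ar_of_arith (hn : 4 ≤ n) {Δ : Subgroup (isomH n)} (h : IsArithmetic Δ) :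
    ∃ Δ0 : Subgroup (isomH n), Δ0.relIndex Δ ≠ 0 ∧ ∀ Γ : Subgroup (isomH n), Γ ≤ Δ0 →
      Mix (Γ.map (isomH n).subtype) → Ar (Γ.map (isomH n).subtype) := by
  obtain ⟨N, I, Hc, H, φ, hc, hle, hi, hφ, hK, hind, hcom⟩ := h
  refine ⟨_, hcom.2, fun Γ hΓ hM => ?_⟩
  have hr := mem_real_iff hc
  obtain ⟨𝔥, h𝔥⟩ := exists_lie hr
  obtain ⟨D, hD⟩ := exists_dphi hr hi ((isomH n).subtype.comp φ) (continuous_subtype_val.comp hφ)
  have sk : ∀ X ∈ 𝔥, (D X * lorMat n)ᵀ = -(D X * lorMat n) := fun X hX =>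
    gar_skew (skew_of_exp fun t => hD X ((h𝔥 X).1 hX) t ▸ (lor_mulVec_iff _).1 (φ _).2.1)
  have inv : ∀ g : H, ∀ X ∈ 𝔥, g.1.val * X * (g⁻¹).1.val ∈ 𝔥 := fun g X hX => (h𝔥 _).2 fun t =>
    (hr (expU _)).1 (hle ((gar_conj g.1 X t).symm ▸
      mul_mem (mul_mem g.2 (expU_mem hr hi ((h𝔥 X).1 hX) t)) (inv_mem g.2)))
  have eqv : ∀ g : H, ∀ X ∈ 𝔥, co (D (g.1.val * X * (g⁻¹).1.val) * lorMat n) =
      wd (φ g).1.val *ᵥ co (D X * lorMat n) := fun g X hX => by
    have h1 : D (g.1.val * X * (g⁻¹).1.val) = (φ g).1.val * D X * ((φ g).1⁻¹).val :=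
      eq_of_exp_eq fun t => by
        have h2 := congrArg Units.val (gar_conj (φ g).1 (D X) t)
        rw [← (Units.ext (hD X ((h𝔥 X).1 hX) t) : _ = expU (t • D X))] at h2
        have h3 : (⟨_, expU_mem hr hi ((h𝔥 _).1 (inv g X hX)) t⟩ : H) =
            g * ⟨_, expU_mem hr hi ((h𝔥 X).1 hX) t⟩ * g⁻¹ := Subtype.ext (gar_conj g.1 X t)
        rw [← hD _ ((h𝔥 _).1 (inv g X hX)) t, h3, map_mul, map_mul, map_inv]
        exact h2.symm
    rw [h1, mul_assoc, gar_inv (φ g).2, ← mul_assoc, mul_assoc _ (D X), co_mul (sk X hX), wd]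
  have ker : ∀ X (hX : X ∈ 𝔥), co (D X * lorMat n) = 0 → ∀ t : ℝ,
      (⟨expU (t • X), expU_mem hr hi ((h𝔥 X).1 hX) t⟩ : H) ∈ φ.ker := fun X hX h0 t => by
    have h1 := congrArg (· * lorMat n) (eq_zero_of_co (sk X hX) h0)
    have h2 := hD X ((h𝔥 X).1 hX) t
    simp only [mul_assoc, gar_sq, mul_one, zero_mul] at h1
    rw [h1, smul_zero, NormedSpace.exp_zero] at h2
    exact Subtype.ext (Units.ext h2)
  let Λ := (GeneralLinearGroup.map (n := Fin N) (Int.castRingHom ℝ)).range.subgroupOf H ⊓ Γ.comap φ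
  have hΛ : (((isomH n).subtype.comp φ).comp Λ.subtype).range = Γ.map (isomH n).subtype := by
    ext g
    constructor
    · rintro ⟨l, rfl⟩
      exact ⟨φ l, l.2.2, rfl⟩
    · rintro ⟨g, hg, rfl⟩
      obtain ⟨l, hl, rfl⟩ := hΓ hg
      exact ⟨⟨l, hl, hg⟩, rfl⟩
  refine ⟨Λ, inferInstance, N, _, (Units.coeHom _).comp (H.subtype.comp Λ.subtype), 𝔥,
    co ∘ₗ LinearMap.mulRight ℝ (lorMat n) ∘ₗ D, hΛ, fun l i j => ?_, fun X hX => ?_,
    fun l => inv l, fun l => eqv l, fun X hX h0 hne => ?_, fun w => ?_⟩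
  · obtain ⟨a, ha⟩ := l.2.1
    exact ⟨a.val i j, (congrArg (fun g : GL (Fin N) ℝ => g.val i j) ha).symm⟩
  · refine Submodule.span_mono (fun R hR => ?_) (lie_rat hc ((h𝔥 X).1 hX))
    exact ⟨(h𝔥 R).2 hR.1, hR.2⟩
  · obtain ⟨C, hC⟩ := hK.exists_bound_of_continuousOn
      (f := fun (g : H) (p : Fin N × Fin N) => g.1.val p.1 p.2) (continuous_pi fun p : Fin N × Fin N =>
        (Units.continuous_val.comp continuous_subtype_val).matrix_elem p.1 p.2).continuousOn
    exact trace_sq_neg (fun t i j => (norm_le_pi_norm _ (i, j)).trans (hC _ (ker X hX h0 t))) hne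
  · have : SecondCountableTopology H := TopologicalSpace.Subtype.secondCountableTopology _
    refine gar_top (W := 𝔥.map (co ∘ₗ LinearMap.mulRight ℝ (lorMat n) ∘ₗ D)) (span_wd_top hn hM)
      ?_ (fun h0 => isomH_uncountable (n := n) (by omega) (gar_count φ hind (ker_nhds hr hle hi _ hK
        fun X hX => ker X ((h𝔥 X).2 hX) (h0 _ ⟨X, (h𝔥 X).2 hX, rfl⟩)))) w
    rintro _ ⟨g, hg, rfl⟩ _ ⟨X, hX, rfl⟩
    obtain ⟨l, rfl⟩ := hΛ.ge hg
    exact ⟨_, inv l X hX, eqv l X hX⟩

end Pool.Agent.Work.MP_c8d35c_al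
end

-- merged part: Pool.Agent.Work.MP_c8d35c_al.GDich
section
/-! A Galois conjugate of the representation is either the same or bounded.

Plan. For `c : Λ →₀ ℝ` (or in `MonoidAlgebra ℝ Λ`) put `τ c X = ∑ c l • t l * X * t l⁻¹`,
`a c = ∑ c l • α l`, `b c = ∑ c l • (ρ l).map σ`. `twist_zero`: if `τ c` kills `𝔥` then `b c = 0`.
For every `ℚ`-linear `f : ℝ → ℚ` the coefficients `f (c l)` still kill the rational points of `𝔥`,
hence `𝔥`; apply `π`: `∑ f (c l) • ρ l = 0` over `K`, so also after `σ`. Write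
`c l = ∑ₛ fₛ (c l) eₛ` with a `ℚ`-basis `e` of `ℝ` (`Basis.ofVectorSpace`).
`span_twist`: the `K`-span of the `ρ l` is everything (otherwise a nonzero matrix `y` over `K` has
`trace (y * ρ l) = 0` for all `l`; apply `σ0`), so every `single i j 1` is a `K`-combination.
`Lin.dich`: let `I` be the set of `c` with `τ c = 0` on `𝔥 ⊓ ker π`, `J` the set of `c` with
`a c = 0`. For `i ∈ I`, `j ∈ J` the product `i * single l 1 * j` kills `𝔥`, so
`b i * (ρ l).map σ * b j = 0` for all `l`, so `b i = 0` or `b j = 0` by `span_twist`. If `b J = 0`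
the functional `trace ∘ b` factors through `a` (which is onto) as an `ℝ`-linear `ψ` with
`ψ (x y) = ψ (y x)`, `ψ 1 = card d`, so `ψ` is the trace. If `b I = 0` then `b` factors linearly
through `c ↦ (τ c Xₖ)ₖ` for a finite spanning family `Xₖ` of `𝔥 ⊓ ker π`
(`LinearMap.exists_extend` or `Submodule.liftQ`); use `Lin.bounded` and continuity of linear maps
in finite dimension. -/

namespace Pool.Agent.Work.MP_c8d35c_al

open Matrix

variable {Λ : Type} [Group Λ] {ι d : Type} [Fintype ι] [DecidableEq ι] [Fintype d] [DecidableEq d]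
  {t : Λ →* Matrix ι ι ℝ} {α : Λ →* Matrix d d ℝ} {𝔥 : Submodule ℝ (Matrix ι ι ℝ)}
  {π : Matrix ι ι ℝ →ₗ[ℝ] d → ℝ} {K : Type} [Field K] {σ0 : K →+* ℝ} {ρ : Λ →* Matrix d d K}

theorem GDich_rat {Λ : Type} (s : Finset Λ) (c : Λ → ℝ) (z : Λ → ℂ)
    (h : ∀ f : ℝ →ₗ[ℚ] ℚ, ∑ l ∈ s, (f (c l) : ℂ) * z l = 0) : ∑ l ∈ s, (c l : ℂ) * z l = 0 := by
  classical
  let b := Module.Basis.ofVectorSpace ℚ ℝ
  have e : ∀ l ∈ s, (c l : ℂ) * z l = ∑ k ∈ s.biUnion fun l => (b.repr (c l)).support,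
      (b k : ℂ) * ((b.coord k (c l) : ℂ) * z l) := fun l hl => by
    have h1 := b.linearCombination_repr (c l)
    rw [Finsupp.linearCombination_apply, Finsupp.sum_of_support_subset _
      (Finset.subset_biUnion_of_mem (fun l => (b.repr (c l)).support) hl) _ (by simp)] at h1
    conv_lhs => rw [← h1]
    rw [Complex.ofReal_sum, Finset.sum_mul]
    refine Finset.sum_congr rfl fun k _ => ?_
    rw [Rat.smul_def, Module.Basis.coord_apply]
    push_cast
    ring
  rw [Finset.sum_congr rfl e, Finset.sum_comm]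
  exact Finset.sum_eq_zero fun k _ => by rw [← Finset.mul_sum, h, mul_zero]

theorem GDich_ent (h : Lin t α 𝔥 π) {R : Matrix ι ι ℝ} (hR : ∀ i j, ∃ q : ℚ, R i j = q) (l : Λ)
    (i j : ι) : ∃ q : ℚ, (t l * R * t l⁻¹) i j = q := by
  choose z hz using h.int
  choose q hq using hR
  refine ⟨∑ b, (∑ a, z l i a * q a b) * z l⁻¹ b j, ?_⟩
  simp only [mul_apply, hz, hq]
  push_cast
  rfl

theorem GDich_pi (h : Lin t α 𝔥 π) (s : Finset Λ) (c : Λ → ℝ) {X : Matrix ι ι ℝ} (hX : X ∈ 𝔥) :
    π (∑ l ∈ s, c l • (t l * X * t l⁻¹)) = (∑ l ∈ s, c l • α l) *ᵥ π X := by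
  rw [map_sum, sum_mulVec]
  exact Finset.sum_congr rfl fun l _ => by rw [map_smul, h.eqv l X hX, smul_mulVec]

theorem twist_zero (h : Lin t α 𝔥 π) (hρ : ∀ l, (ρ l).map σ0 = α l) (σ : K →+* ℂ) (c : Λ →₀ ℝ)
    (hc : ∀ X ∈ 𝔥, (c.sum fun l r => r • (t l * X * t l⁻¹)) = 0) :
    (c.sum fun l r => r • (ρ l).map σ) = 0 := by
  ext p q
  rw [Finsupp.sum, Matrix.sum_apply]
  refine (Finset.sum_congr rfl fun l _ => ?_).trans
    (GDich_rat c.support c (fun l => σ (ρ l p q)) fun f => ?_)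
  · simp
  have h1 : ∀ X ∈ 𝔥, ∑ l ∈ c.support, (f (c l) : ℝ) • (t l * X * t l⁻¹) = 0 := fun X hX => by
    refine Submodule.span_induction (fun R hR => ?_) (by simp) (fun x y _ _ hx hy => ?_)
      (fun r x _ hx => ?_) (h.rat X hX)
    · ext i j
      choose u hu using fun l => GDich_ent h hR.2 l i j
      have h2 := congrFun (congrFun (hc R hR.1) i) j
      rw [Finsupp.sum, Matrix.sum_apply] at h2
      simp only [Matrix.smul_apply, hu, smul_eq_mul, Matrix.zero_apply] at h2
      have h3 := congrArg f h2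
      rw [map_sum, map_zero] at h3
      rw [Matrix.sum_apply]
      simp only [Matrix.smul_apply, hu, smul_eq_mul, Matrix.zero_apply]
      rw [← Rat.cast_zero, ← h3, Rat.cast_sum]
      refine Finset.sum_congr rfl fun l _ => ?_
      rw [mul_comm (c l), ← Rat.smul_def (u l), map_smul, smul_eq_mul, Rat.cast_mul, mul_comm]
    · simp only [mul_add, add_mul, smul_add, Finset.sum_add_distrib, hx, hy, add_zero]
    · simp only [mul_smul_comm, smul_mul_assoc, smul_comm _ r, ← Finset.smul_sum, hx, smul_zero]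
  obtain ⟨X, hX, e⟩ := h.surj (Pi.single q 1)
  have h2 := congrFun (GDich_pi h c.support (fun l => (f (c l) : ℝ)) hX) p
  rw [h1 X hX, map_zero, e, mulVec_single_one, col_apply, Matrix.sum_apply] at h2
  have h3 : ∑ l ∈ c.support, (f (c l) : K) * ρ l p q = 0 := σ0.injective <| by
    rw [map_sum, map_zero]
    refine Eq.trans (Finset.sum_congr rfl fun l _ => ?_) h2.symm
    rw [map_mul, map_ratCast, ← hρ, Matrix.smul_apply, map_apply, smul_eq_mul]
  simpa only [map_sum, map_mul, map_ratCast, map_zero] using congrArg σ h3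

theorem span_twist (hρ : ∀ l, (ρ l).map σ0 = α l) (hs : Submodule.span ℝ (Set.range α) = ⊤)
    (σ : K →+* ℂ) : Submodule.span ℂ (Set.range fun l => (ρ l).map σ) = ⊤ := by
  have h1 : Submodule.span K (Set.range ρ) = ⊤ := by
    by_contra hne
    obtain ⟨φ, h0, hφ⟩ := Submodule.exists_le_ker_of_lt_top _ (lt_top_iff_ne_top.2 hne)
    have e : ∀ M, φ M = ∑ p, ∑ q, M p q * φ (single p q 1) := fun M => by
      conv_lhs => rw [matrix_eq_sum_single M]
      simp only [map_sum]
      refine Finset.sum_congr rfl fun p _ => Finset.sum_congr rfl fun q _ => ?_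
      rw [← smul_eq_mul, ← map_smul, smul_single, smul_eq_mul, mul_one]
    have h2 : ∀ M : Matrix d d ℝ, ∑ p, ∑ q, M p q * σ0 (φ (single p q 1)) = 0 := fun M => by
      refine Submodule.span_induction ?_ (by simp) (fun x y _ _ hx hy => ?_)
        (fun r x _ hx => ?_) (hs.ge Submodule.mem_top : M ∈ _)
      · rintro _ ⟨l, rfl⟩
        have h3 := congrArg σ0 ((e _).symm.trans (hφ (Submodule.subset_span ⟨l, rfl⟩)))
        simpa only [map_sum, map_mul, map_zero, ← hρ, map_apply] using h3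
      · simp only [Matrix.add_apply, add_mul, Finset.sum_add_distrib, hx, hy, add_zero]
      · simp only [Matrix.smul_apply, smul_eq_mul, mul_assoc, ← Finset.mul_sum, hx, mul_zero]
    refine h0 (LinearMap.ext fun M => (e M).trans (Finset.sum_eq_zero fun p _ =>
      Finset.sum_eq_zero fun q _ => mul_eq_zero_of_right _ (σ0.injective ?_)))
    have h3 := h2 (single p q 1)
    rw [Finset.sum_eq_single p (fun a _ ha => by simp [ha.symm]) (by simp),
      Finset.sum_eq_single q (fun a _ ha => by simp [ha.symm]) (by simp)] at h3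
    simpa using h3
  have h2 : ∀ M : Matrix d d K, M.map σ ∈ Submodule.span ℂ (Set.range fun l => (ρ l).map σ) :=
    fun M => by
      refine Submodule.span_induction ?_ (by simp) (fun x y _ _ hx hy => ?_)
        (fun r x _ hx => ?_) (h1.ge Submodule.mem_top : M ∈ _)
      · rintro _ ⟨l, rfl⟩
        exact Submodule.subset_span ⟨l, rfl⟩
      · rw [Matrix.map_add _ (map_add σ)]
        exact add_mem hx hy
      · convert Submodule.smul_mem _ (σ r) hx using 1
        ext p q
        simp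
  refine eq_top_iff.2 fun M _ => ?_
  rw [matrix_eq_sum_single M]
  refine sum_mem fun p _ => sum_mem fun q _ => ?_
  convert Submodule.smul_mem _ (M p q) (h2 (single p q 1)) using 1
  ext a b
  simp only [single_apply, Matrix.smul_apply, map_apply]
  split_ifs <;> simp

theorem GDich_fac {U V W : Type} [AddCommGroup U] [AddCommGroup V] [AddCommGroup W] [Module ℝ U]
    [Module ℝ V] [Module ℝ W] (f : U →ₗ[ℝ] V) (g : U →ₗ[ℝ] W) (h : ∀ u, f u = 0 → g u = 0) :
    ∃ L : V →ₗ[ℝ] W, ∀ u, L (f u) = g u := by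
  obtain ⟨s, hs⟩ := f.rangeRestrict.exists_rightInverse_of_surjective f.range_rangeRestrict
  obtain ⟨L, hL⟩ := (g ∘ₗ s).exists_extend
  refine ⟨L, fun u => (LinearMap.congr_fun hL (f.rangeRestrict u)).trans ?_⟩
  rw [LinearMap.comp_apply, ← sub_eq_zero, ← map_sub]
  refine h _ ?_
  rw [map_sub, sub_eq_zero]
  exact congrArg Subtype.val (LinearMap.congr_fun hs (f.rangeRestrict u))

theorem GDich_mul {A : Type} [Ring A] [Algebra ℝ A] (v : Λ → A) (hv : ∀ x y, v (x * y) = v x * v y)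
    (i j : Λ →₀ ℝ) (l : Λ) : Finsupp.linearCombination ℝ v
      (∑ x ∈ i.support, ∑ y ∈ j.support, Finsupp.single (x * l * y) (i x * j y)) =
      Finsupp.linearCombination ℝ v i * v l * Finsupp.linearCombination ℝ v j := by
  simp only [map_sum, Finsupp.linearCombination_single]
  rw [Finsupp.linearCombination_apply, Finsupp.linearCombination_apply, Finsupp.sum, Finsupp.sum,
    Finset.sum_mul, Finset.sum_mul_sum]
  exact Finset.sum_congr rfl fun _ _ => Finset.sum_congr rfl fun _ _ => by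
    simp only [hv, smul_mul_assoc, mul_smul_comm, smul_smul, mul_comm (i _)]

theorem GDich_tr (ψ : Matrix d d ℝ →ₗ[ℝ] ℂ) (h : ∀ x y, ψ (x * y) = ψ (y * x))
    (h1 : ψ 1 = Fintype.card d) (M : Matrix d d ℝ) : ψ M = (M.trace : ℝ) := by
  have h2 : ∀ p q, p ≠ q → ψ (single p q 1) = 0 := fun p q hpq => by
    have := h (single p p 1) (single p q 1)
    rwa [single_mul_single_same, single_mul_single_of_ne _ _ _ _ hpq.symm, map_zero, mul_one] at this
  have h3 : ∀ p q, ψ (single p p 1) = ψ (single q q 1) := fun p q => by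
    have := h (single p q 1) (single q p 1)
    rwa [single_mul_single_same, single_mul_single_same, mul_one] at this
  have h4 : ∀ M : Matrix d d ℝ, ψ M = ∑ p, M p p * ψ (single p p 1) := fun M => by
    conv_lhs => rw [matrix_eq_sum_single M]
    simp only [map_sum]
    have e : ∀ p q, ψ (single p q (M p q)) = M p q * ψ (single p q 1) := fun p q => by
      rw [← Complex.real_smul, ← map_smul, smul_single, smul_eq_mul, mul_one]
    refine Finset.sum_congr rfl fun p _ => ?_
    rw [Finset.sum_eq_single p (fun q _ hq => by rw [e, h2 p q hq.symm, mul_zero]) (by simp), e]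
  have h5 : ∀ q, ψ (single q q 1) = 1 := fun q => by
    have : Nonempty d := ⟨q⟩
    have e := h4 1
    simp only [h1, one_apply_eq, h3 _ q, Complex.ofReal_one, one_mul, Finset.sum_const,
      Finset.card_univ, nsmul_eq_mul] at e
    exact (mul_eq_left₀ (Nat.cast_ne_zero.2 Fintype.card_ne_zero)).1 e.symm
  simp only [h4 M, h5, mul_one, trace, diag_apply, Complex.ofReal_sum]

theorem Lin.dich (h : Lin t α 𝔥 π) (hρ : ∀ l, (ρ l).map σ0 = α l)
    (hs : Submodule.span ℝ (Set.range α) = ⊤) (σ : K →+* ℂ) :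
    (∀ l, σ (ρ l).trace = (σ0 (ρ l).trace : ℝ)) ∨ ∃ C : ℝ, ∀ l p q, ‖σ (ρ l p q)‖ ≤ C := by
  let T : Λ → Module.End ℝ (Matrix ι ι ℝ) := fun l =>
    LinearMap.mulRight ℝ (t l⁻¹) ∘ₗ LinearMap.mulLeft ℝ (t l)
  have hT : ∀ l X, T l X = t l * X * t l⁻¹ := fun l X => rfl
  have hT' : ∀ x y, T (x * y) = T x * T y := fun x y => LinearMap.ext fun X => by
    simp only [Module.End.mul_apply, hT, _root_.mul_inv_rev, map_mul, mul_assoc]
  have hτ : ∀ (c : Λ →₀ ℝ) X, Finsupp.linearCombination ℝ T c X =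
      ∑ l ∈ c.support, c l • (t l * X * t l⁻¹) := fun c X => by
    simp only [Finsupp.linearCombination_apply, Finsupp.sum, LinearMap.sum_apply,
      LinearMap.smul_apply, hT]
  let β : Λ → Matrix d d ℂ := fun l => (ρ l).map σ
  have hβ : ∀ x y, β (x * y) = β x * β y := fun x y => by simp only [β, map_mul, Matrix.map_mul]
  by_cases hJ : ∀ j, Finsupp.linearCombination ℝ α j = 0 → Finsupp.linearCombination ℝ β j = 0
  · obtain ⟨L, hL⟩ := GDich_fac _ _ hJ
    have hL1 : ∀ l, L (α l) = β l := fun l => by simpa using hL (Finsupp.single l 1)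
    let ψ := traceLinearMap d ℝ ℂ ∘ₗ L
    have h1 : ∀ x y, ψ (x * y) = ψ (y * x) := fun x y => by
      refine Submodule.span_induction₂ (p := fun x y _ _ => ψ (x * y) = ψ (y * x)) ?_ (by simp)
        (by simp) ?_ ?_ ?_ ?_ (hs.ge Submodule.mem_top) (hs.ge Submodule.mem_top)
      · rintro _ _ ⟨l, rfl⟩ ⟨m, rfl⟩
        simp only [ψ, ← map_mul, LinearMap.comp_apply, hL1, hβ, traceLinearMap_apply]
        exact trace_mul_comm _ _
      · intro x y z _ _ _ e1 e2
        rw [add_mul, mul_add, map_add, map_add, e1, e2]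
      · intro x y z _ _ _ e1 e2
        rw [add_mul, mul_add, map_add, map_add, e1, e2]
      · intro r x y _ _ e
        rw [smul_mul_assoc, mul_smul_comm, map_smul, map_smul, e]
      · intro r x y _ _ e
        rw [smul_mul_assoc, mul_smul_comm, map_smul, map_smul, e]
    refine Or.inl fun l => ?_
    have h2 := GDich_tr ψ h1 (by
      rw [← α.map_one, LinearMap.comp_apply, hL1]
      simp [β]) (α l)
    rw [LinearMap.comp_apply, hL1, ← hρ] at h2
    rw [AddMonoidHom.map_trace, AddMonoidHom.map_trace]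
    exact h2
  push Not at hJ
  obtain ⟨j, hj, hj'⟩ := hJ
  obtain ⟨a, b, hab⟩ : ∃ a b, Finsupp.linearCombination ℝ β j a b ≠ 0 := by
    by_contra! hn
    exact hj' (Matrix.ext hn)
  let e := Module.finBasis ℝ (𝔥 ⊓ LinearMap.ker π : Submodule ℝ _)
  let Φ : (Λ →₀ ℝ) →ₗ[ℝ] Fin _ → ι → ι → ℝ := LinearMap.pi fun k =>
    LinearMap.applyₗ (e k).1 ∘ₗ Finsupp.linearCombination ℝ T
  obtain ⟨L, hL⟩ := GDich_fac (W := d → d → ℂ) Φ (Finsupp.linearCombination ℝ β) fun i hi => by
    have h1 : ∀ X ∈ 𝔥, π X = 0 → Finsupp.linearCombination ℝ T i X = 0 := fun X hX h0 =>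
      LinearMap.congr_fun (e.ext (f₁ := Finsupp.linearCombination ℝ T i ∘ₗ Submodule.subtype _)
        (f₂ := 0) fun k => congrFun hi k) ⟨X, hX, h0⟩
    have h2 : ∀ M, Finsupp.linearCombination ℝ β i * M * Finsupp.linearCombination ℝ β j = 0 :=
      fun M => by
        refine Submodule.span_induction ?_ (by simp) (fun x y _ _ hx hy => ?_)
          (fun r x _ hx => ?_) ((span_twist hρ hs σ).ge Submodule.mem_top : M ∈ _)
        · rintro _ ⟨l, rfl⟩
          refine (GDich_mul β hβ i j l).symm.trans (twist_zero h hρ σ _ fun X hX => ?_)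
          refine (hτ _ X).symm.trans ?_
          rw [GDich_mul T hT', Module.End.mul_apply, Module.End.mul_apply, hT]
          have h3 : Finsupp.linearCombination ℝ T j X ∈ 𝔥 :=
            hτ j X ▸ sum_mem fun l _ => 𝔥.smul_mem _ (h.inv l X hX)
          refine h1 _ (h.inv l _ h3) ?_
          rw [h.eqv l _ h3, hτ, GDich_pi h _ _ hX]
          rw [Finsupp.linearCombination_apply, Finsupp.sum] at hj
          rw [hj, zero_mulVec, mulVec_zero]
        · rw [mul_add, add_mul, hx, hy, add_zero]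
        · rw [mul_smul_comm, smul_mul_assoc, hx, smul_zero]
    ext p q
    have h3 := congrFun (congrFun (h2 (single q a 1)) p) b
    rw [mul_apply, Finset.sum_eq_single a (fun c _ hc => by simp [hc]) (by simp)] at h3
    have h4 := (mul_eq_zero.1 h3).resolve_right hab
    rwa [mul_single_apply_same, mul_one] at h4
  choose C hC using fun k => h.bounded (e k).2.1 (e k).2.2
  refine Or.inr ⟨‖L.toContinuousLinearMap‖ * ‖C‖, fun l p q => ?_⟩
  have h1 : L (Φ (Finsupp.single l 1)) = β l := (hL _).trans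
    ((Finsupp.linearCombination_single ℝ 1 l).trans (one_smul _ _))
  refine ((norm_le_pi_norm (L (Φ (Finsupp.single l 1)) p) q).trans
    ((norm_le_pi_norm _ p).trans (L.toContinuousLinearMap.le_of_opNorm_le_of_le le_rfl ?_))).trans_eq'
    (by rw [h1]; rfl)
  refine (pi_norm_le_iff_of_nonneg (norm_nonneg _)).2 fun k =>
    (pi_norm_le_iff_of_nonneg (norm_nonneg _)).2 fun x =>
    (pi_norm_le_iff_of_nonneg (norm_nonneg _)).2 fun y => ?_
  refine le_trans (le_of_eq ?_) ((hC k l x y).trans ((le_abs_self _).trans (norm_le_pi_norm C k)))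
  change |Finsupp.linearCombination ℝ T (Finsupp.single l 1) (e k).1 x y| = _
  rw [Finsupp.linearCombination_single, one_smul, hT]

end Pool.Agent.Work.MP_c8d35c_al
end

-- merged part: Pool.Agent.Work.MP_c8d35c_al.GBurn
section
/-! Traces of the normaliser.

Plan. Choose `γ i ∈ Γ` such that the `b i = α (γ i)` form a basis of the real matrix algebra
(`exists_linearIndependent`, or `Basis.ofSpan`); the Gram matrix `trace (b i * b j)` has entries in
`K` and is invertible (the trace form is nondegenerate), so its inverse has entries in `K`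
(`Matrix.inv_def`, adjugate, or a matrix over the field `K`). Let `E` be the `K`-span of `α Γ`, a
subring on which the trace has values in `K`; the dual basis `b' i` lies in `E`. For every `y`:
`∑ i, b i * y * b' i = trace y • 1` (expand `single k l 1` in the basis:
`∑ i, b i p q * b' i l k = δ p k * δ q l`). With `a = α r`, `y = a`:
`∑ i, (a * b i * a) * b' i = trace a • a`, and `a * b i * a = α (r * γ i * r) ∈ E`. So `a ∈ E`;
closure induction. -/

namespace Pool.Agent.Work.MP_c8d35c_al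

open Matrix

theorem GBurn_dual {d ι : Type} [Fintype d] [DecidableEq d] [Fintype ι]
    (b : Module.Basis ι ℝ (Matrix d d ℝ)) :
    ∃ b' : Module.Basis ι ℝ (Matrix d d ℝ), ∀ z, ∑ i, (z * b i).trace • b' i = z := by
  classical
  let B : LinearMap.BilinForm ℝ (Matrix d d ℝ) :=
    (LinearMap.mul ℝ (Matrix d d ℝ)).compr₂ (traceLinearMap d ℝ ℝ)
  have hB : ∀ x y, B x y = (x * y).trace := fun _ _ => rfl
  have h1 : B.Nondegenerate := by
    refine ⟨fun x hx => ?_, fun x hx => ?_⟩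
    · ext i j
      simpa [hB, trace_mul_single] using hx (single j i 1)
    · ext i j
      simpa [hB, trace_single_mul] using hx (single j i 1)
  refine ⟨B.dualBasis h1 b, fun z => ?_⟩
  conv_rhs => rw [← (B.dualBasis h1 b).sum_repr z]
  simp only [LinearMap.BilinForm.dualBasis_repr_apply, hB]

theorem GBurn_sum {d ι : Type} [Fintype d] [DecidableEq d] [Fintype ι] {b b' : ι → Matrix d d ℝ}
    (h : ∀ z, ∑ i, (z * b i).trace • b' i = z) (y : Matrix d d ℝ) :
    ∑ i, b i * y * b' i = y.trace • (1 : Matrix d d ℝ) := by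
  ext p k
  have h1 : ∀ l, ∑ i, (b i * y) p l * b' i l k = y l l * (1 : Matrix d d ℝ) p k := fun l => by
    have h2 := congrFun (congrFun (h (y * single l p 1)) l) k
    simp only [Matrix.sum_apply, Matrix.smul_apply, smul_eq_mul] at h2
    have h3 : ∀ i, (y * single l p (1 : ℝ) * b i).trace = (b i * y) p l := fun i => by
      rw [trace_mul_comm, ← Matrix.mul_assoc, trace_mul_single]
      simp
    simp only [h3] at h2
    rw [h2, one_apply]
    split_ifs with h4
    · subst h4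
      simp
    · simp [mul_single_apply_of_ne _ _ _ _ _ (Ne.symm h4)]
  simp only [Matrix.sum_apply, mul_apply (M := b _ * y), Matrix.smul_apply, smul_eq_mul]
  rw [Finset.sum_comm, Finset.sum_congr rfl fun l _ => h1 l, ← Finset.sum_mul]
  rfl

theorem burn {G d : Type} [Group G] [Fintype d] [DecidableEq d] (α : G →* Matrix d d ℝ)
    (K : Subfield ℝ) {Γ : Subgroup G} (hs : Submodule.span ℝ (α '' Γ) = ⊤)
    (hK : ∀ γ ∈ Γ, (α γ).trace ∈ K) {S : Set G}
    (hS : ∀ r ∈ S, r * r = 1 ∧ (α r).trace ∈ K ∧ (α r).trace ≠ 0 ∧ ∀ γ ∈ Γ, r * γ * r ∈ Γ)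
    {g : G} (hg : g ∈ Subgroup.closure S) : (α g).trace ∈ K := by
  classical
  let A : Subalgebra K (Matrix d d ℝ) := Algebra.adjoin K (α '' Γ)
  have hΓ : ∀ γ ∈ Γ, α γ ∈ A := fun γ h => Algebra.subset_adjoin ⟨γ, h, rfl⟩
  have hA : ∀ x ∈ A, x.trace ∈ K := fun x hx => by
    have h1 : x ∈ Submodule.span K (Submonoid.closure (α '' Γ) : Set (Matrix d d ℝ)) := by
      rw [← Algebra.adjoin_eq_span]
      exact hx
    have h2 : Submonoid.closure (α '' Γ) = Γ.toSubmonoid.map α :=
      Submonoid.closure_eq (Γ.toSubmonoid.map α)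
    rw [h2] at h1
    clear hx
    induction h1 using Submodule.span_induction with
    | mem x hx =>
      obtain ⟨γ, h, rfl⟩ := hx
      exact hK γ h
    | zero => simp
    | add x y _ _ hx hy => exact trace_add x y ▸ K.add_mem hx hy
    | smul c x _ hx => exact trace_smul c x ▸ K.mul_mem c.2 hx
  obtain ⟨s, hs1, hs2, hs3⟩ := exists_linearIndependent ℝ (α '' Γ)
  let b : Module.Basis s ℝ (Matrix d d ℝ) := Module.Basis.mk hs3 (by simp [hs2, hs])
  have hb : ∀ i, b i ∈ α '' Γ := fun i => by simpa [b] using hs1 i.2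
  have hbA : ∀ i, b i ∈ A := fun i => Algebra.subset_adjoin (hb i)
  have := FiniteDimensional.fintypeBasisIndex b
  obtain ⟨b', hb'⟩ := GBurn_dual b
  have hle : Submodule.span K (Set.range b) ≤ Submodule.span K (Set.range b') := by
    rw [Submodule.span_le]
    rintro _ ⟨j, rfl⟩
    rw [← hb' (b j)]
    exact Submodule.sum_mem _ fun i _ => Submodule.smul_mem _
      (⟨_, hA _ (A.mul_mem (hbA j) (hbA i))⟩ : K) (Submodule.subset_span ⟨i, rfl⟩)
  have := FiniteDimensional.span_of_finite K (Set.finite_range b')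
  have heq := Submodule.eq_of_le_of_finrank_eq hle (by
    rw [finrank_span_eq_card (b.linearIndependent.restrict_scalars' K),
      finrank_span_eq_card (b'.linearIndependent.restrict_scalars' K)])
  have hbA' : ∀ i, b' i ∈ A := fun i => by
    have h1 : b' i ∈ Submodule.span K (Set.range b) := heq ▸ Submodule.subset_span ⟨i, rfl⟩
    exact (Submodule.span_le (p := A.toSubmodule)).2 (Set.range_subset_iff.2 hbA) h1
  have hr : ∀ r ∈ S, α r ∈ A := fun r h => by
    obtain ⟨-, h1, h2, h3⟩ := hS r h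
    have h4 : ∑ i, α r * b i * α r * b' i ∈ A := A.sum_mem fun i _ => A.mul_mem (by
      obtain ⟨γ, h5, h6⟩ := hb i
      rw [← h6, ← map_mul, ← map_mul]
      exact hΓ _ (h3 γ h5)) (hbA' i)
    simp only [mul_assoc (α r)] at h4
    rw [← Finset.mul_sum, GBurn_sum hb', mul_smul_comm, mul_one] at h4
    have h5 := A.smul_mem h4 (⟨_, K.inv_mem h1⟩ : K)
    rwa [Subfield.smul_def, inv_smul_smul₀ h2] at h5
  refine hA _ ?_
  induction hg using Subgroup.closure_induction_left with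
  | one => exact map_one α ▸ A.one_mem
  | mul_left x hx y _ h => exact map_mul α x y ▸ A.mul_mem (hr x hx) h
  | inv_mul_cancel x hx y _ h =>
    rw [inv_eq_of_mul_eq_one_right (hS x hx).1, map_mul]
    exact A.mul_mem (hr x hx) h

end Pool.Agent.Work.MP_c8d35c_al
end

-- merged part: Pool.Agent.Work.MP_c8d35c_al.GMain
section
/-! An arithmetic reflection lattice is of the simplest type. -/

namespace Pool.Agent.Work.MP_c8d35c_al

open Matrix NumberField
open scoped ComplexOrder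

variable {n : ℕ}

theorem hom_ext_closure {X : Set ℝ} {σ τ : Subfield.closure X →+* ℂ}
    (h : ∀ x (hx : x ∈ X), σ ⟨x, Subfield.subset_closure hx⟩ = τ ⟨x, Subfield.subset_closure hx⟩) :
    σ = τ := by
  ext ⟨x, hx⟩
  induction hx using Subfield.closure_induction with
  | mem x hx => exact h x hx
  | one => exact (map_one σ).trans (map_one τ).symm
  | add x y hx hy h1 h2 =>
    change σ (⟨x, hx⟩ + ⟨y, hy⟩) = τ (⟨x, hx⟩ + ⟨y, hy⟩)
    rw [map_add, map_add, h1, h2]
  | neg x hx h1 =>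
    change σ (-⟨x, hx⟩) = τ (-⟨x, hx⟩)
    rw [map_neg, map_neg, h1]
  | inv x hx h1 =>
    change σ (⟨x, hx⟩⁻¹) = τ (⟨x, hx⟩⁻¹)
    rw [map_inv₀, map_inv₀, h1]
  | mul x y hx hy h1 h2 =>
    change σ (⟨x, hx⟩ * ⟨y, hy⟩) = τ (⟨x, hx⟩ * ⟨y, hy⟩)
    rw [map_mul, map_mul, h1, h2]

theorem trace_bound {G d : Type} [Group G] [Fintype d] [DecidableEq d] (a : G →* Matrix d d ℂ)
    {H : Subgroup G} (hi : H.index ≠ 0) {C : ℝ} (hC : ∀ g ∈ H, ∀ p q, ‖a g p q‖ ≤ C) :
    ∃ C' : ℝ, ∀ g, ‖(a g).trace‖ ≤ C' := by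
  have : Finite (G ⧸ H) := Nat.finite_of_card_ne_zero hi
  obtain ⟨M, hM⟩ := (Set.finite_range fun x : G ⧸ H =>
    ∑ p, ∑ q, ‖a x.out p q‖ * C).bddAbove
  refine ⟨M, fun g => ?_⟩
  obtain ⟨k, hk⟩ := QuotientGroup.mk_out_eq_mul H g
  have e : g = (QuotientGroup.mk g : G ⧸ H).out * (k : G)⁻¹ := by rw [hk, mul_inv_cancel_right]
  refine le_trans ?_ (hM ⟨QuotientGroup.mk g, rfl⟩)
  conv_lhs => rw [e, map_mul]
  simp only [trace, diag_apply, mul_apply]
  refine (norm_sum_le _ _).trans (Finset.sum_le_sum fun p _ => ?_)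
  refine (norm_sum_le _ _).trans (Finset.sum_le_sum fun q _ => ?_)
  rw [norm_mul]
  exact mul_le_mul_of_nonneg_left (hC _ (inv_mem k.2) _ _) (norm_nonneg _)

theorem exists_root (hn : 2 ≤ n) {S : Set (GL (Fin (n + 1)) ℝ)} (hS : ∀ g ∈ S, IsRefl g)
    (hm : Mix (Subgroup.closure S)) : ∃ e, e ∈ roots (Subgroup.closure S) := by
  by_contra hno
  have h0 : e0 n ≠ 0 := fun h => by simpa [e0] using congrFun h 0
  have h1 : (Pi.single (Fin.succ ⟨0, by omega⟩) 1 : Fin (n + 1) → ℝ) ≠ 0 := fun h => by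
    have := congrFun h (Fin.succ ⟨0, by omega⟩)
    rw [Pi.single_eq_same] at this
    exact one_ne_zero this
  obtain ⟨γ, hγ, h⟩ := hm.exists_ne hn h0 {Pi.single (Fin.succ ⟨0, by omega⟩) 1}
    (by simpa using h1.symm)
  have e : γ = 1 := RCox2_ind hS (p := fun g => g = 1) (fun e he => absurd ⟨e, he⟩ hno) rfl
    (fun _ _ h1 h2 => by rw [h1, h2, mul_one]) hγ
  refine h _ (Finset.mem_singleton_self _) ?_
  rw [e, Units.val_one, one_mulVec, lor_single_succ, e0, Pi.single_eq_of_ne (Fin.succ_ne_zero _)]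

theorem simplest_gl (hn : 4 ≤ n) {S : Set (GL (Fin (n + 1)) ℝ)} (hS : ∀ g ∈ S, IsRefl g)
    {Γ : Subgroup (GL (Fin (n + 1)) ℝ)} (hle : Γ ≤ Subgroup.closure S)
    (hi : Γ.relIndex (Subgroup.closure S) ≠ 0)
    (hN : ∀ g ∈ Subgroup.closure S, ∀ γ ∈ Γ, g * γ * g⁻¹ ∈ Γ) (hm : Mix Γ) (hA : Ar Γ) :
    ∃ (K : Type) (_ : Field K) (_ : NumberField K) (_ : IsTotallyReal K) (σ0 : K →+* ℝ)
      (A : Matrix (Fin (n + 1)) (Fin (n + 1)) K) (P : GL (Fin (n + 1)) ℝ), Adm σ0 A P ∧
        (arith σ0 P).relIndex (Subgroup.closure S) ≠ 0 := by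
  obtain ⟨Λ, _, N, φ, t, 𝔥, π, rfl, hL⟩ := hA
  have hn' : (4 : ℝ) ≤ n := by exact_mod_cast hn
  have hm' := hm.mono hle
  have hsp := span_wd_top hn hm
  obtain ⟨T, hT⟩ := hL.finite_span
  set X : Set ℝ := Set.range fun l => (wd (φ l).val).trace with hX
  have hNF : NumberField (Subfield.closure X) := numberField_closure T
    (by rintro _ ⟨l, rfl⟩; exact hT l) (by rintro _ ⟨l, rfl⟩; exact isIntegral_trace (hL.isIntegral l))
  have hK : ∀ γ ∈ Subgroup.closure S, (wd γ.val).trace ∈ Subfield.closure X := fun γ hγ => by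
    refine burn (wdU n) (Subfield.closure X) (Γ := φ.range) hsp ?_ ?_ hγ
    · rintro _ ⟨l, rfl⟩
      exact Subfield.subset_closure ⟨l, rfl⟩
    · intro r hr
      obtain ⟨e, he, rfl⟩ := (isRefl_iff r).1 (hS r hr)
      refine ⟨refl_mul_self e, ?_, ?_, fun γ hγ => ?_⟩
      · rw [wdU_apply, trace_wd_one he]
        exact div_mem (mul_mem (natCast_mem _ _) (sub_mem (natCast_mem _ _) (ofNat_mem _ _)))
          (ofNat_mem _ _)
      · rw [wdU_apply, trace_wd_one he]
        have : (0 : ℝ) < n * (n - 3) / 2 := div_pos (mul_pos (by linarith) (by linarith)) two_pos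
        exact this.ne'
      · have := hN _ (Subgroup.subset_closure hr) γ hγ
        rwa [refl_inv] at this
  obtain ⟨e, he⟩ := exists_root (by omega) hS hm'
  have hΓ := closure_le_isomH hS
  obtain ⟨c, P, A, ρ, z, hF⟩ := exists_form (σ0 := (Subfield.closure X).subtype) (by omega) hΓ hm'
    (RCox1_ne_zero he.1) fun γ hγ => ⟨⟨_, lor_mem hn hS hm' _ hK he hγ⟩, rfl⟩
  have hint : ∀ γ ∈ Subgroup.closure S, IsIntegral ℤ (wd γ.val) := fun γ hγ => by
    obtain ⟨k, hk, -, ⟨l, hl⟩, -⟩ := Subgroup.exists_pow_mem_of_relIndex_ne_zero hi hγ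
    refine IsIntegral.of_pow hk ?_
    rw [← wdU_apply, ← map_pow, ← hl]
    exact hL.isIntegral l
  have hz : ∀ γ, IsIntegral ℤ (2 * z γ) := fun γ => by
    have h1 := mulVec_mem_roots hΓ γ.2 he
    have h2 := two_lor_int (by omega) h1.1 he.1 (hint _ (mul_mem h1.2 he.2))
    rw [← hF.z_eq] at h2
    refine (isIntegral_algHom_iff (Subfield.closure X).subtype.toIntAlgHom
      (Subfield.closure X).subtype.injective).1 ?_
    rw [map_mul, map_ofNat]
    exact h2
  let φ' : Λ →* Subgroup.closure S := φ.codRestrict _ fun l => hle ⟨l, rfl⟩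
  have hQ : wd (P⁻¹).val * wd P.val = 1 := by
    rw [← wd_mul, ← Units.val_mul, inv_mul_cancel, Units.val_one, wd_one]
  have hQ' : wd P.val * wd (P⁻¹).val = 1 := by
    rw [← wd_mul, ← Units.val_mul, mul_inv_cancel, Units.val_one, wd_one]
  have eα : ∀ l, ((wdU n).comp ((MulAut.conj P).toMonoidHom.comp φ)) l =
      wd P.val * ((wdU n).comp φ) l * wd (P⁻¹).val := fun l => by
    change wdU n (P * φ l * P⁻¹) = _
    rw [map_mul, map_mul]
    rfl
  have hs' : Submodule.span ℝ
      (Set.range ((wdU n).comp ((MulAut.conj P).toMonoidHom.comp φ))) = ⊤ := by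
    refine eq_top_iff.2 fun x _ => ?_
    have h1 : wd (P⁻¹).val * x * wd P.val ∈ spW φ.range := hsp ▸ Submodule.mem_top
    have h2 : x = wd P.val * (wd (P⁻¹).val * x * wd P.val) * wd (P⁻¹).val := by
      rw [← mul_assoc, ← mul_assoc, hQ', one_mul, mul_assoc, hQ', mul_one]
    rw [h2]
    generalize wd (P⁻¹).val * x * wd P.val = y at h1
    induction h1 using Submodule.span_induction with
    | mem y hy =>
      obtain ⟨_, ⟨l, rfl⟩, rfl⟩ := hy
      exact Submodule.subset_span ⟨l, eα l⟩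
    | zero => rw [mul_zero, zero_mul]; exact zero_mem _
    | add y y' _ _ h h' => rw [mul_add, add_mul]; exact add_mem h h'
    | smul a y _ h => rw [mul_smul_comm, smul_mul_assoc]; exact Submodule.smul_mem _ _ h
  have hgen : ∀ l, (⟨_, Subfield.subset_closure (⟨l, rfl⟩ : (wd (φ l).val).trace ∈ X)⟩ :
      Subfield.closure X) = (wd (ρ (φ' l))).trace := fun l =>
    (Subfield.closure X).subtype.injective (hF.trace_wd (φ' l)).symm
  have hdich : ∀ σ : Subfield.closure X →+* ℂ,
      σ = Complex.ofRealHom.comp (Subfield.closure X).subtype ∨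
        (∀ γ, (σ (z γ)).im = 0) ∧ (A.map σ).PosDef := fun σ => by
    rcases (hL.conj hQ eα).dich (σ0 := (Subfield.closure X).subtype)
      (ρ := (wdH _ _).comp (ρ.comp φ')) (fun l => by
        change (wd (ρ (φ' l))).map _ = wd (P * φ l * P⁻¹).val
        rw [wd_map, hF.rho]
        rfl) hs' σ with h | ⟨C, h⟩
    · refine Or.inl (hom_ext_closure ?_)
      rintro _ ⟨l, rfl⟩
      rw [hgen]
      exact h l
    · obtain ⟨C1, h1⟩ := trace_bound
        ((RingHom.mapMatrix σ).toMonoidHom.comp ((wdH _ _).comp ρ))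
        (H := φ.range.subgroupOf (Subgroup.closure S)) hi (C := C) (by
          rintro g ⟨l, hl⟩ p q
          have : g = φ' l := Subtype.ext hl.symm
          rw [this]
          exact h l p q)
      obtain ⟨C2, h2⟩ := hF.z_bound (by omega) he σ (C := C1) fun γ => by
        rw [AddMonoidHom.map_trace]
        exact h1 γ
      exact Or.inr (hF.herm he σ h2)
  have hTR : IsTotallyReal (Subfield.closure X) := ⟨fun v => by
    rw [InfinitePlace.isReal_iff, ComplexEmbedding.isReal_iff]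
    rcases hdich v.embedding with h | h
    · rw [h]
      ext x
      simp
    · refine hom_ext_closure ?_
      rintro _ ⟨l, rfl⟩
      rw [hgen, ComplexEmbedding.conjugate_coe_eq]
      exact Complex.conj_eq_iff_im.2 (hF.real _ h.1 _)⟩
  refine ⟨Subfield.closure X, inferInstance, hNF, hTR, _, A, P, ⟨hF.symm, hF.sig, fun τ hτ => ?_⟩,
    hF.relIndex hz⟩
  rcases hdich (Complex.ofRealHom.comp τ) with h | h
  · refine absurd (RingHom.ext fun x => ?_) hτ
    exact Complex.ofReal_injective (RingHom.congr_fun h x)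
  · exact posDef_of_complex h.2

theorem simplest (hn : 4 ≤ n) {Δ : Subgroup (isomH n)} (hc : Cofin Δ) (hR : IsReflGroup Δ)
    (hA : IsArithmetic Δ) :
    ∃ (K : Type) (_ : Field K) (_ : NumberField K) (_ : IsTotallyReal K) (σ₀ : K →+* ℝ)
      (A : Matrix (Fin (n + 1)) (Fin (n + 1)) K) (P : GL (Fin (n + 1)) ℝ)
      (S : Set (GL (Fin (n + 1)) ℝ)), A.IsSymm ∧ P.valᵀ * A.map σ₀ * P.val = lorMat n ∧
        (∀ σ : K →+* ℝ, σ ≠ σ₀ → (A.map σ).PosDef) ∧ (∀ g ∈ S, IsRefl g) ∧
        Subgroup.Commensurable (Subgroup.closure S) (arith σ₀ P) := by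
  obtain ⟨hd, S0, hS0, hΔ⟩ := hR
  obtain ⟨Δ0, hi0, hAr⟩ := ar_of_arith hn hA
  have hS : ∀ g ∈ (isomH n).subtype '' S0, IsRefl g := by
    rintro _ ⟨g, hg, rfl⟩
    exact hS0 g hg
  have e1 : Subgroup.closure ((isomH n).subtype '' S0) = Δ.map (isomH n).subtype := by
    rw [hΔ, MonoidHom.map_closure]
  have e2 : (Subgroup.closure ((isomH n).subtype '' S0)).subgroupOf (isomH n) = Δ := by
    rw [e1]
    exact Subgroup.comap_map_eq_self_of_injective (isomH n).subtype_injective Δ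
  have : (Δ0.subgroupOf Δ).FiniteIndex := ⟨hi0⟩
  set Γ := ((Δ0.subgroupOf Δ).normalCore).map Δ.subtype with hΓ
  have hle : Γ ≤ Δ := Subgroup.map_subtype_le _
  have hi : Γ.relIndex Δ ≠ 0 := by
    rw [Subgroup.relIndex, Subgroup.subgroupOf,
      Subgroup.comap_map_eq_self_of_injective Δ.subtype_injective]
    exact Subgroup.FiniteIndex.index_ne_zero
  have hm := mix_of_cofin (hc.of_relIndex hi) (discrete_mono hd hle)
  obtain ⟨K, _, _, _, σ0, A, P, hAdm, hr⟩ := simplest_gl hn hS (Γ := Γ.map (isomH n).subtype)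
    (e1 ▸ Subgroup.map_mono hle)
    (by rwa [e1, Subgroup.relIndex_map_map_of_injective _ _ (isomH n).subtype_injective])
    (by
      rw [e1]
      rintro _ ⟨g, hg, rfl⟩ _ ⟨_, ⟨γ, hγ, rfl⟩, rfl⟩
      exact ⟨_, ⟨_, (Subgroup.normalCore_normal _).conj_mem γ hγ ⟨g, hg⟩, rfl⟩, rfl⟩)
    hm (hAr Γ (by
      rintro _ ⟨γ, hγ, rfl⟩
      exact Subgroup.mem_subgroupOf.1 (Subgroup.normalCore_le _ hγ)) hm)
  refine ⟨K, inferInstance, inferInstance, inferInstance, σ0, A, P, _, hAdm.symm, hAdm.sig,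
    hAdm.pos, hS, ?_, hr⟩
  have h1 : ((arith σ0 P).subgroupOf (isomH n)).relIndex Δ ≠ 0 := by
    rwa [← e2, Subgroup.relIndex_subgroupOf (closure_le_isomH hS)]
  have h2 := (hc.of_relIndex (Γ := (arith σ0 P).subgroupOf (isomH n) ⊓ Δ)
    (by rwa [Subgroup.inf_relIndex_right])).relIndex_ne_zero inf_le_left
    (discrete_of_finite (arith_finite hAdm 2))
  rwa [Subgroup.inf_relIndex_left, ← e2,
    Subgroup.relIndex_subgroupOf (show arith σ0 P ≤ isomH n from inf_le_left)] at h2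

end Pool.Agent.Work.MP_c8d35c_al
end
end
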