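import Pool.Agent.Work.MP_c8d35c_al.GMain
import Pool.Agent.Work.MP_c8d35c_al.RMain
import Pool.Agent.Work.MP_c8d35c_al.QFrame

/-! No uniform arithmetic reflection lattice in dimension at least 13. -/

namespace Pool.Agent.Work.MP_c8d35c_al

open Matrix NumberField MeasureTheory
open scoped ComplexOrder

variable {n : ℕ}

theorem simplest_link (hn : 4 ≤ n) {Δ : Subgroup (isomH n)} (hc : Cofin Δ) (hR : IsReflGroup Δ)
    (hA : IsArithmetic Δ) :
    ∃ (K : Type) (_ : Field K) (_ : NumberField K) (_ : IsTotallyReal K) (σ₀ : K →+* ℝ)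
      (A : Matrix (Fin (n + 1)) (Fin (n + 1)) K) (P : GL (Fin (n + 1)) ℝ)
      (S : Set (GL (Fin (n + 1)) ℝ)), A.IsSymm ∧ P.valᵀ * A.map σ₀ * P.val = lorMat n ∧
        (∀ σ : K →+* ℝ, σ ≠ σ₀ → (A.map σ).PosDef) ∧ (∀ g ∈ S, IsRefl g) ∧
        (Subgroup.closure S).subgroupOf (isomH n) = Δ ∧
        Subgroup.Commensurable (Subgroup.closure S) (arith σ₀ P) := by
  obtain ⟨hd, S0, hS0, hΔ⟩ := hR
  obtain ⟨Δ0, hi0, hAr⟩ := ar_of_arith hn hA
  have hS : ∀ g ∈ (isomH n).subtype '' S0, IsRefl g := by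
    rintro _ ⟨g, hg, rfl⟩
    exact hS0 g hg
  have e1 : Subgroup.closure ((isomH n).subtype '' S0) = Δ.map (isomH n).subtype := by
    rw [hΔ, MonoidHom.map_closure]
  have e2 : (Subgroup.closure ((isomH n).subtype '' S0)).subgroupOf (isomH n) = Δ := by
    rw [e1]
    exact Subgroup.comap_map_eq_self_of_injective (isomH n).subtype_injective Δ
  have : (Δ0.subgroupOf Δ).FiniteIndex := ⟨hi0⟩
  set Γ := ((Δ0.subgroupOf Δ).normalCore).map Δ.subtype with hΓ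
  have hle : Γ ≤ Δ := Subgroup.map_subtype_le _
  have hi : Γ.relIndex Δ ≠ 0 := by
    rw [Subgroup.relIndex, Subgroup.subgroupOf,
      Subgroup.comap_map_eq_self_of_injective Δ.subtype_injective]
    exact Subgroup.FiniteIndex.index_ne_zero
  have hm := mix_of_cofin (hc.of_relIndex hi) (discrete_mono hd hle)
  obtain ⟨K, _, _, _, σ0, A, P, hAdm, hr⟩ := simplest_gl hn hS (Γ := Γ.map (isomH n).subtype)
    (e1 ▸ Subgroup.map_mono hle)
    (by rwa [e1, Subgroup.relIndex_map_map_of_injective _ _ (isomH n).subtype_injective])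
    (by
      rw [e1]
      rintro _ ⟨g, hg, rfl⟩ _ ⟨_, ⟨γ, hγ, rfl⟩, rfl⟩
      exact ⟨_, ⟨_, (Subgroup.normalCore_normal _).conj_mem γ hγ ⟨g, hg⟩, rfl⟩, rfl⟩)
    hm (hAr Γ (by
      rintro _ ⟨γ, hγ, rfl⟩
      exact Subgroup.mem_subgroupOf.1 (Subgroup.normalCore_le _ hγ)) hm)
  refine ⟨K, inferInstance, inferInstance, inferInstance, σ0, A, P, _, hAdm.symm, hAdm.sig,
    hAdm.pos, hS, e2, ?_, hr⟩
  have h1 : ((arith σ0 P).subgroupOf (isomH n)).relIndex Δ ≠ 0 := by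
    rwa [← e2, Subgroup.relIndex_subgroupOf (closure_le_isomH hS)]
  have h2 := (hc.of_relIndex (Γ := (arith σ0 P).subgroupOf (isomH n) ⊓ Δ)
    (by rwa [Subgroup.inf_relIndex_right])).relIndex_ne_zero inf_le_left
    (discrete_of_finite (arith_finite hAdm 2))
  rwa [Subgroup.inf_relIndex_left, ← e2,
    Subgroup.relIndex_subgroupOf (show arith σ0 P ≤ isomH n from inf_le_left)] at h2

theorem GUni_lt_one {f : ℕ → ℝ} (h0 : ∀ c, 0 ≤ f c)
    (h : ∀ c : ℕ, f c ≤ ((c : ℝ) + 2) ^ (-2 : ℝ)) : ∑' c, f c < 1 := by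
  have h1 : ∀ c : ℕ, f c < 1 / ((c : ℝ) + 1) - 1 / ((c : ℝ) + 2) := fun c => by
    refine (h c).trans_lt ?_
    have hc : (0 : ℝ) ≤ c := Nat.cast_nonneg c
    rw [Real.rpow_neg (by positivity), show (2 : ℝ) = (2 : ℕ) by norm_num, Real.rpow_natCast]
    push_cast
    rw [show 1 / ((c : ℝ) + 1) - 1 / ((c : ℝ) + 2) = (((c : ℝ) + 1) * ((c : ℝ) + 2))⁻¹ by
        field_simp; ring]
    refine inv_strictAnti₀ (by positivity) ?_
    nlinarith
  have h3 := Summable.tsum_lt_tsum_of_nonneg h0 (fun c => (h1 c).le) (h1 0) QCM_tel.summable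
  rwa [QCM_tel.tsum_eq] at h3

theorem QL.Red.sg2_lt_one' {L : QL} (h : L.Red L.N) (hN : 14 ≤ L.N) : L.sg2 < 1 := by
  have hN' : (14 : ℝ) ≤ L.N := by exact_mod_cast hN
  refine GUni_lt_one (fun c => by positivity) fun c => ?_
  have hc : (0 : ℝ) ≤ c := Nat.cast_nonneg c
  have hc2 : (0 : ℝ) < (c : ℝ) + 2 := by positivity
  have h0 : (L.a (c + 2) : ℝ) ^ 2 ≤ ((c : ℝ) + 2) ^ (L.N + 2) := by
    exact_mod_cast h.a_le (c := c + 2) (by omega)
  have h1 : √(L.a (c + 2) : ℝ) ≤ ((c : ℝ) + 2) ^ (((L.N : ℝ) + 2) / 4) := by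
    refine Real.sqrt_le_iff.2 ⟨by positivity, ?_⟩
    refine (pow_le_pow_iff_left₀ (Nat.cast_nonneg _) (by positivity) two_ne_zero).1
      (h0.trans (le_of_eq ?_))
    rw [← pow_mul, ← Real.rpow_natCast _ (2 * 2), ← Real.rpow_mul hc2.le, ← Real.rpow_natCast]
    congr 1
    push_cast
    ring
  refine (mul_le_mul_of_nonneg_left h1 (by positivity)).trans ?_
  rw [← Real.rpow_add hc2]
  exact Real.rpow_le_rpow_of_exponent_le (by linarith) (by linarith)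

/-- Meyer's theorem in rank at least fourteen. -/
theorem QL.meyer14 {L : QL} {r s : ℕ} (h : L.Sig r s) (hr : 3 ≤ r) (hs : 1 ≤ s)
    (hN : 14 ≤ r + s) : ∃ x ∈ L.X, x ≠ 0 ∧ L.β x x = 0 := by
  obtain ⟨c, hc, X, hX, he, hred, -⟩ := L.exists_red ∅ (by simp) (by simp) (by simp)
  have hs' : (L.re c hc.ne' X hX he).Sig r s :=
    h.of_equiv (L' := L.re c hc.ne' X hX he) (LinearEquiv.refl ℚ L.W) hc fun _ _ => rfl
  obtain ⟨x, hx, h0⟩ : ∃ x : L.W, x ≠ 0 ∧ c * L.β x x = 0 := QL.iso_of_sg2 hs' hr hs (by omega)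
    (QL.Red.sg2_lt_one' (L := L.re c hc.ne' X hX he) hred (by rw [← hs'.add]; exact hN))
  have h1 : L.β x x = 0 := (mul_eq_zero.1 h0).resolve_left hc.ne'
  obtain ⟨k, hk, hm⟩ := L.full.exists_nsmul_mem x
  refine ⟨_, hm, ?_, ?_⟩
  · rw [← Nat.cast_smul_eq_nsmul ℚ]
    exact smul_ne_zero (Nat.cast_ne_zero.2 hk.ne') hx
  · rw [map_nsmul, map_nsmul, LinearMap.smul_apply, h1, smul_zero, smul_zero]

/-- Compact quotient. -/
def Coc {G : Type} [Group G] [TopologicalSpace G] (Γ : Subgroup G) : Prop :=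
  ∃ C : Set G, IsCompact C ∧ ∀ g : G, ∃ γ ∈ Γ, γ * g ∈ C

theorem Coc.of_relIndex {G : Type} [Group G] [TopologicalSpace G] [IsTopologicalGroup G]
    {Γ Δ : Subgroup G} (h : Coc Δ) (hi : Γ.relIndex Δ ≠ 0) : Coc Γ := by
  obtain ⟨F, hF, hc⟩ := h
  have : Finite (Δ ⧸ Γ.subgroupOf Δ) := Subgroup.index_ne_zero_iff_finite.1 hi
  refine ⟨⋃ q : Δ ⧸ Γ.subgroupOf Δ, (fun x => (q.out : G) * x) ⁻¹' F,
    isCompact_iUnion fun q => (Homeomorph.mulLeft (q.out : G)).isCompact_preimage.2 hF,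
    fun g => ?_⟩
  obtain ⟨δ, hδ, hg⟩ := hc g
  obtain ⟨γ, hγ⟩ := QuotientGroup.mk_out_eq_mul (Γ.subgroupOf Δ) ⟨δ, hδ⟩
  refine ⟨(γ.1 : G)⁻¹, inv_mem γ.2,
    Set.mem_iUnion.2 ⟨QuotientGroup.mk (⟨δ, hδ⟩ : Δ), ?_⟩⟩
  rw [Set.mem_preimage, hγ]
  simpa [mul_assoc] using hg

theorem Coc.cofin {Γ : Subgroup (isomH n)} (h : Coc Γ) : Cofin Γ := by
  let : MeasurableSpace (isomH n) := borel (isomH n)
  have : BorelSpace (isomH n) := ⟨rfl⟩
  obtain ⟨C, hC, hc⟩ := h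
  exact ⟨Measure.haar, inferInstance, C, hC.measure_lt_top, hc⟩

/-- The automorphism group of an isotropic lattice is not cocompact. -/
theorem not_coc {L : QL} {ρ : L.W →+ Fin (n + 1) → ℝ} (h : LF L ρ) {x : L.W} (hx : x ∈ L.X)
    (hx0 : x ≠ 0) (h0 : L.β x x = 0) : ¬Coc ((autL L ρ).subgroupOf (isomH n)) := by
  rintro ⟨C, hC, hc⟩
  set z := ρ x with hz
  have hzz : lor z z = 0 := by rw [hz, h.form, h0, Rat.cast_zero]
  have hiso : ∀ w : Fin (n + 1) → ℝ, lor w w = 0 → w 0 = 0 → w = 0 := fun w h1 h2 => by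
    by_contra h3
    exact (lor_pos_of_orth e0_mem h3 (by rw [lor_e0, h2, neg_zero])).ne' h1
  have hz0 : z 0 ≠ 0 := fun h1 => hx0 (h.injective (by rw [map_zero]; exact hiso z hzz h1))
  set w := (2 * z 0) • e0 n - z with hw
  have hee : lor (e0 n) (e0 n) = -1 := e0_mem.1
  have hww : lor w w = 0 := by
    simp only [hw, lor_sub_left, lor_sub_right, lor_smul_left, lor_smul_right, hee, hzz,
      lor_comm (e0 n) z, lor_e0 z]
    ring
  have hzw : lor z w = -(2 * z 0 ^ 2) := by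
    simp only [hw, lor_sub_right, lor_smul_right, hzz, lor_e0 z]
    ring
  have hp : 0 < z 0 ^ 2 := by positivity
  obtain ⟨M, hM⟩ := hC.exists_bound_of_continuousOn (f := fun c : isomH n => (c.val.val *ᵥ w) 0)
    ((continuous_apply 0).comp ((gtop_cont_mulVec w).comp continuous_subtype_val)).continuousOn
  have hfin := (h.finite e0_mem L.full (|M| + 1) 0).subset
    (Set.sep_subset _ fun y => (ρ y) 0 ≠ 0)
  obtain ⟨δ, hδ, hδ'⟩ : ∃ δ : ℝ, 0 < δ ∧ ∀ y ∈ {y ∈ {y : L.W | y ∈ L.X ∧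
      |lor (ρ y) (e0 n)| ≤ |M| + 1 ∧ L.β y y ≤ 0} | (ρ y) 0 ≠ 0}, δ ≤ |(ρ y) 0| := by
    rcases Set.eq_empty_or_nonempty {y ∈ {y : L.W | y ∈ L.X ∧
      |lor (ρ y) (e0 n)| ≤ |M| + 1 ∧ L.β y y ≤ 0} | (ρ y) 0 ≠ 0} with he | he
    · exact ⟨1, one_pos, by rw [he]; simp⟩
    · obtain ⟨y, hy, hmin⟩ := Set.exists_min_image _ (fun y => |(ρ y) 0|) hfin he
      exact ⟨_, abs_pos.2 hy.2, hmin⟩
  set t := min 1 (δ / (|M| + 1)) with ht
  have hM1 : 0 < |M| + 1 := by positivity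
  have ht0 : 0 < t := lt_min one_pos (div_pos hδ hM1)
  have ht1 : t ≤ 1 := min_le_left _ _
  have ht2 : t * (|M| + 1) ≤ δ := (le_div_iff₀ hM1).1 (min_le_right _ _)
  have he : lor (z - t • w) (z - t • w) = 4 * t * z 0 ^ 2 := by
    simp only [lor_sub_left, lor_sub_right, lor_smul_left, lor_smul_right, hzz, hww,
      lor_comm w z, hzw]
    ring
  have he' : lor z (z - t • w) = 2 * t * z 0 ^ 2 := by
    simp only [lor_sub_right, lor_smul_right, hzz, hzw]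
    ring
  have hr : (refl (z - t • w)).val *ᵥ z = t • w := by
    rw [refl_mulVec, he, he', show 2 * (2 * t * z 0 ^ 2) / (4 * t * z 0 ^ 2) = 1 by
      field_simp; ring, one_smul, sub_sub_cancel]
  obtain ⟨γ, hγ, hm⟩ := hc ⟨refl (z - t • w), refl_mem_isomH (by rw [he]; positivity)⟩
  have h1 := hM _ hm
  obtain ⟨y, hy, hy'⟩ := (mem_stabL.1 (Subgroup.mem_subgroupOf.1 hγ).2 z).2 ⟨x, hx, rfl⟩
  have h2 : ρ y = t • ((γ.val * refl (z - t • w)).val *ᵥ w) := by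
    have h2 := congrArg (fun v => (γ.val * refl (z - t • w)).val *ᵥ v) hr
    rw [← gl_mul_mulVec, mul_assoc, refl_mul_self, mul_one, Matrix.mulVec_smul] at h2
    rw [hy', h2]
  have h3 : |ρ y 0| ≤ t * |M| := by
    rw [h2, Pi.smul_apply, smul_eq_mul, abs_mul, abs_of_pos ht0]
    exact mul_le_mul_of_nonneg_left (h1.trans (le_abs_self M)) ht0.le
  have h4 : lor (ρ y) (ρ y) = 0 := by rw [hy', isomH_lor γ.2, hzz]
  have h5 := hδ' y ⟨⟨hy, by
    rw [lor_e0, abs_neg]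
    nlinarith [abs_nonneg M], by
    rw [h.form] at h4
    exact_mod_cast h4.le⟩, fun h6 => by
    have h7 := gl_inv_mulVec γ.val z
    rw [← hy', hiso _ h4 h6, Matrix.mulVec_zero] at h7
    exact hz0 (by rw [← h7]; rfl)⟩
  nlinarith

theorem uniform_main (hn : 13 ≤ n) {Δ : Subgroup (isomH n)} (hR : IsReflGroup Δ)
    (hA : IsArithmetic Δ) : ¬Coc Δ := by
  intro hc
  obtain ⟨K, _, _, _, σ₀, A, P, S, hA, hP, hpos, hS, e, hcomm⟩ :=
    simplest_link (by omega) hc.cofin hR hA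
  by_cases hK : Module.finrank ℚ K = 1
  · obtain ⟨A0, hA0, e0⟩ := exists_rat_mat hK σ₀ hA
    obtain ⟨L, ρ, h, haut, -⟩ := exists_LF (P := P) hA0 (by rw [e0]; exact hP)
    obtain ⟨x, hx, hx0, h0⟩ := QL.meyer14 h.sig (by omega) le_rfl (by omega)
    refine not_coc h hx hx0 h0 (hc.of_relIndex ?_)
    rw [haut, ← arith_eq hK σ₀ P, ← e, Subgroup.relIndex_subgroupOf (closure_le_isomH hS)]
    exact hcomm.2
  · have := Module.finrank_pos (R := ℚ) (M := K)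
    exact main (by omega) hn ⟨hA, hP, hpos⟩ hS hcomm

end Pool.Agent.Work.MP_c8d35c_al
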