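import Pool.Agent.Work.MP_c8d35c_al.RMain

namespace Pool.Agent.Work.MP_c8d35c_al.ParkedCocompact

open NumberField Matrix Pool.Agent.Work.MP_c8d35c_al

theorem result (K : Type) [Field K] [NumberField K] [IsTotallyReal K]
    (hK : 1 < Module.finrank ℚ K) (σ₀ : K →+* ℝ) (n : ℕ) (hn : 13 ≤ n)
    (A : Matrix (Fin (n + 1)) (Fin (n + 1)) K) (hA : A.IsSymm) (P : GL (Fin (n + 1)) ℝ)
    (hP : P.valᵀ * A.map σ₀ * P.val = lorMat n)
    (hpos : ∀ σ : K →+* ℝ, σ ≠ σ₀ → (A.map σ).PosDef)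
    (S : Set (GL (Fin (n + 1)) ℝ)) (hS : ∀ g ∈ S, IsRefl g) :
    ¬ Subgroup.Commensurable (Subgroup.closure S) (arith σ₀ P) :=
  main hK hn ⟨hA, hP, hpos⟩ hS

end Pool.Agent.Work.MP_c8d35c_al.ParkedCocompact
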