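import Pool.Agent.Work.MP_c8d35c_al.QMain

namespace Pool.Agent.Work.MP_c8d35c_al.ParkedRealQ2

open NumberField Matrix Pool.Agent.Work.MP_c8d35c_al

theorem result (n : ℕ) (hn : 2 ≤ n) :
    (∃ (K : Type) (_ : Field K) (_ : NumberField K) (_ : IsTotallyReal K) (σ₀ : K →+* ℝ)
      (A : Matrix (Fin (n + 1)) (Fin (n + 1)) K) (P : GL (Fin (n + 1)) ℝ)
      (S : Set (GL (Fin (n + 1)) ℝ)), A.IsSymm ∧ P.valᵀ * A.map σ₀ * P.val = lorMat n ∧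
        (∀ σ : K →+* ℝ, σ ≠ σ₀ → (A.map σ).PosDef) ∧ (∀ g ∈ S, IsRefl g) ∧
        Subgroup.Commensurable (Subgroup.closure S) (arith σ₀ P)) ↔ n ≤ 19 ∨ n = 21 :=
  main_iff n hn

end Pool.Agent.Work.MP_c8d35c_al.ParkedRealQ2
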