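import Pool.Agent.Work.MP_c8d35c_al.QBD

/-! The generators are symmetries. -/

namespace Pool.Agent.Work.MP_c8d35c_al

theorem gen0_ok : fLL dE (fun Es => fN (row 1680 dP 0) fun p => chkGen Es dR dB p) = true :=
  pkA_g pkD_ok (by decide +kernel)

theorem gen1_ok : fLL dE (fun Es => fN (row 1680 dP 1) fun p => chkGen Es dR dB p) = true :=
  pkA_g pkD_ok (by decide +kernel)

theorem gen2_ok : fLL dE (fun Es => fN (row 1680 dP 2) fun p => chkGen Es dR dB p) = true :=
  pkA_g pkD_ok (by decide +kernel)

theorem gen3_ok : fLL dE (fun Es => fN (row 1680 dP 3) fun p => chkGen Es dR dB p) = true :=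
  pkA_g pkD_ok (by decide +kernel)


end Pool.Agent.Work.MP_c8d35c_al
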