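import Mathlib

/-! Enumeration of all multisets with bounded product of sizes.

Plan. Induction on the list of candidates, inner induction on the fuel. If the first candidate
`c` occurs in `l`, then `l` is a permutation of `c :: l.erase c` (use classical decidable
equality), `sz c ≤ bud` and the product for `l.erase c` is at most `bud / sz c`. -/

namespace Pool.Agent.Work.MP_c8d35c_al

/-- Depth-first search. -/
noncomputable def dfs {α : Type} (sz : α → ℕ) (leaf : List α → Bool) (cands : List α) :
    ℕ → List α → Bool :=
  List.rec (motive := fun _ => ℕ → List α → Bool) (fun _ acc => leaf acc)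
    (fun c _ ih => Nat.rec (motive := fun _ => ℕ → List α → Bool) (fun _ _ => false)
      (fun _ ih2 bud acc => Bool.rec false
        (Bool.rec (ih2 (Nat.div bud (sz c)) (c :: acc)) true (Nat.blt bud (sz c))) (ih bud acc))
      8) cands

theorem dfs_sound {α : Type} {sz : α → ℕ} {leaf : List α → Bool} {cands : List α}
    (hsz : ∀ c ∈ cands, 0 < sz c) {bud : ℕ} {acc : List α}
    (h : dfs sz leaf cands bud acc = true) (l : List α) (hl : ∀ x ∈ l, x ∈ cands)
    (hp : (l.map sz).prod ≤ bud) : ∃ l', l'.Perm (l ++ acc) ∧ leaf l' = true := by
  classical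
  induction cands generalizing bud acc l with
  | nil =>
    obtain rfl : l = [] := List.eq_nil_iff_forall_not_mem.2 fun x hx => by simpa using hl x hx
    exact ⟨acc, .refl _, h⟩
  | cons c cs ih =>
    change Nat.rec (motive := fun _ => ℕ → List α → Bool) (fun _ _ => false)
      (fun _ ih2 bud acc => Bool.rec false (Bool.rec (ih2 (Nat.div bud (sz c)) (c :: acc)) true
        (Nat.blt bud (sz c))) (dfs sz leaf cs bud acc)) 8 bud acc = true at h
    generalize 8 = n at h
    induction n generalizing bud acc l with
    | zero => exact absurd h Bool.false_ne_true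
    | succ n ih2 =>
      dsimp only at h
      generalize e : dfs sz leaf cs bud acc = b at h
      cases b
      · exact absurd h Bool.false_ne_true
      by_cases hc : c ∈ l
      · have h1 := List.perm_cons_erase hc
        have h2 : ∀ x ∈ l.erase c, x ∈ c :: cs := fun x hx => hl x (List.mem_of_mem_erase hx)
        rw [(h1.map sz).prod_eq, List.map_cons, List.prod_cons] at hp
        have h3 : 0 < ((l.erase c).map sz).prod := List.prod_pos fun x hx => by
          obtain ⟨y, hy, rfl⟩ := List.mem_map.1 hx
          exact hsz y (h2 y hy)
        rw [show Nat.blt bud (sz c) = false from Bool.eq_false_iff.2 fun e =>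
          absurd (Nat.blt_eq.mp e) (not_lt.2 ((Nat.le_mul_of_pos_right _ h3).trans hp))] at h
        obtain ⟨l', h4, h5⟩ := ih2 _ h2
          ((Nat.le_div_iff_mul_le (hsz c List.mem_cons_self)).2 (mul_comm (sz c) _ ▸ hp)) h
        exact ⟨l', h4.trans (List.perm_middle.trans (h1.symm.append_right acc)), h5⟩
      · exact ih (fun x hx => hsz x (List.mem_cons_of_mem _ hx)) e l
          (fun x hx => (List.mem_cons.1 (hl x hx)).resolve_left fun e => hc (e ▸ hx)) hp

end Pool.Agent.Work.MP_c8d35c_al
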