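import Mathlib

/-! Definitions used in the statement: the hyperboloid model of real hyperbolic space, its
isometry group, reflections, and the arithmetic group of a quadratic form. -/

namespace Pool.Agent.Work.MP_c8d35c_al

open Matrix NumberField

/-- The Lorentz form `-x₀ y₀ + x₁ y₁ + ⋯ + xₙ yₙ` on `ℝ^(n+1)`. -/
def lor {n : ℕ} (x y : Fin (n + 1) → ℝ) : ℝ :=
  -(x 0 * y 0) + ∑ i : Fin n, x i.succ * y i.succ

/-- The Gram matrix `diag(-1, 1, …, 1)` of the Lorentz form. -/
def lorMat (n : ℕ) : Matrix (Fin (n + 1)) (Fin (n + 1)) ℝ :=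
  Matrix.diagonal fun i => if i = 0 then -1 else 1

/-- Hyperbolic `n`-space: the upper sheet of the hyperboloid. -/
def hyp (n : ℕ) : Set (Fin (n + 1) → ℝ) := {x | lor x x = -1 ∧ 0 < x 0}

/-- The isometry group `O'(n,1)` of hyperbolic `n`-space: the linear maps that preserve the
Lorentz form and the upper sheet. -/
def isomH (n : ℕ) : Subgroup (GL (Fin (n + 1)) ℝ) where
  carrier := {g | (∀ x y, lor (g.val *ᵥ x) (g.val *ᵥ y) = lor x y) ∧
    ∀ x ∈ hyp n, g.val *ᵥ x ∈ hyp n}
  one_mem' := by simp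
  mul_mem' := by
    rintro a b ⟨ha, ha'⟩ ⟨hb, hb'⟩
    refine ⟨fun x y => ?_, fun x hx => ?_⟩
    · simp only [Units.val_mul, ← Matrix.mulVec_mulVec, ha, hb]
    · simpa only [Units.val_mul, ← Matrix.mulVec_mulVec] using ha' _ (hb' x hx)
  inv_mem' := by
    rintro a ⟨ha, ha'⟩
    have key : ∀ x, a.val *ᵥ ((a⁻¹).val *ᵥ x) = x := fun x => by
      rw [Matrix.mulVec_mulVec, ← Units.val_mul, mul_inv_cancel, Units.val_one,
        Matrix.one_mulVec]
    have h1 : ∀ x y, lor ((a⁻¹).val *ᵥ x) ((a⁻¹).val *ᵥ y) = lor x y := fun x y => by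
      rw [← ha, key, key]
    refine ⟨h1, fun x hx => ⟨by rw [h1]; exact hx.1, ?_⟩⟩
    set z := (a⁻¹).val *ᵥ x with hz
    have hzz : lor z z = -1 := by rw [hz, h1]; exact hx.1
    by_contra hneg
    have hne : z 0 ≠ 0 := by
      intro h0
      have : 0 ≤ ∑ i : Fin n, z i.succ * z i.succ :=
        Finset.sum_nonneg fun i _ => mul_self_nonneg _
      simp only [lor, h0] at hzz
      linarith
    have hlt : 0 < (-z) 0 := by
      simp only [Pi.neg_apply]
      have := lt_of_le_of_ne (not_lt.mp hneg) hne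
      linarith
    have hm : -z ∈ hyp n := ⟨by simpa [lor] using hzz, hlt⟩
    have h2 := (ha' _ hm).2
    rw [Matrix.mulVec_neg, hz, key] at h2
    have := hx.2
    simp only [Pi.neg_apply] at h2
    linarith

/-- `g` is the reflection in the hyperplane orthogonal to a space-like vector `e`. -/
def IsRefl {n : ℕ} (g : GL (Fin (n + 1)) ℝ) : Prop :=
  ∃ e : Fin (n + 1) → ℝ, 0 < lor e e ∧ ∀ x, g.val *ᵥ x = x - (2 * lor x e / lor e e) • e

/-- The arithmetic group `O'(f, 𝓞 K)`: if `P` carries the Lorentz form to the real form `f^σ`,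
these are the isometries `g` of hyperbolic space such that `P g P⁻¹` lies in the image of
`GL(n+1, 𝓞 K)` under `σ`. -/
noncomputable def arith {K : Type} [Field K] {n : ℕ} (σ : K →+* ℝ) (P : GL (Fin (n + 1)) ℝ) :
    Subgroup (GL (Fin (n + 1)) ℝ) :=
  isomH n ⊓ ((Matrix.GeneralLinearGroup.map (n := Fin (n + 1))
    (σ.comp (algebraMap (𝓞 K) K))).range).comap (MulAut.conj P).toMonoidHom

end Pool.Agent.Work.MP_c8d35c_al
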